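import Pool.Agent.U316.Ep.Sf
import Mathlib.NumberTheory.LSeries.AbstractFuncEq

/-!
# The functional equation pair of a form
-/

set_option autoImplicit false

open Matrix MeasureTheory Set Filter Topology Asymptotics Pool.Agent.K1H99.FCC

namespace Pool.Agent.U316.Ep

open Pool.Agent.U316.Th (Th Bp PD_Bp qd PD_qd th_dual th_pos th_summable)

lemma q_lower {p : Fin 6 → ℝ} (hp : PD p) :
    ∃ c : ℝ, 0 < c ∧ ∀ n : N0, c ≤ qf p (rv n.1) / rad p := by
  obtain ⟨A, hA, hd⟩ := hp
  obtain ⟨A', B', h1, h2, h3, h4⟩ := normalise hA hd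
  obtain ⟨c, hc, h⟩ := nsq_lower h1
  exact ⟨c, hc, fun n => (h n).trans (le_of_eq (h3 _))⟩

lemma q_pos {p : Fin 6 → ℝ} (hp : PD p) (n : N0) : 0 < qf p (rv n.1) / rad p := by
  obtain ⟨c, hc, h⟩ := q_lower hp
  exact hc.trans_le (h n)

lemma th_anti {p : Fin 6 → ℝ} (hp : PD p) : AntitoneOn (fun t => Th t p) (Ioi 0) := by
  intro a ha b hb hab
  have ha : 0 < a := ha
  have hb : 0 < b := hb
  refine (th_summable hp hb).tsum_le_tsum (fun n => ?_) (th_summable hp ha)
  rw [Real.exp_le_exp]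
  have h := q_pos hp n
  have h1 := mul_le_mul_of_nonneg_right (mul_le_mul_of_nonneg_left hab Real.pi_pos.le) h.le
  linarith

lemma th_decay {p : Fin 6 → ℝ} (hp : PD p) :
    ∃ c : ℝ, 0 < c ∧ ∃ C : ℝ, ∀ t : ℝ, 1 ≤ t → Th t p ≤ C * Real.exp (-c * t) := by
  obtain ⟨c, hc, h⟩ := q_lower hp
  refine ⟨Real.pi * c, mul_pos Real.pi_pos hc, Real.exp (Real.pi * c) * Th 1 p, fun t ht => ?_⟩
  have e : Real.exp (Real.pi * c) * Th 1 p * Real.exp (-(Real.pi * c) * t) =
      Real.exp (-(Real.pi * (t - 1) * c)) * Th 1 p := by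
    have : Real.exp (-(Real.pi * (t - 1) * c)) = Real.exp (Real.pi * c) *
        Real.exp (-(Real.pi * c) * t) := by
      rw [← Real.exp_add]
      congr 1
      ring
    rw [this]
    ring
  rw [e]
  unfold Th
  rw [← tsum_mul_left]
  refine (th_summable hp (by linarith)).tsum_le_tsum (fun n => ?_)
    ((th_summable hp one_pos).mul_left _)
  rw [← Real.exp_add, Real.exp_le_exp]
  have h1 := mul_le_mul_of_nonneg_left (h n)
    (mul_nonneg Real.pi_pos.le (by linarith : (0:ℝ) ≤ t - 1))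
  linarith

lemma th_loc {p : Fin 6 → ℝ} (hp : PD p) :
    LocallyIntegrableOn (fun t : ℝ => ((1 + Th t p : ℝ) : ℂ)) (Ioi 0) := by
  rw [locallyIntegrableOn_iff isOpen_Ioi.isLocallyClosed]
  intro k hk hc
  have h : IntegrableOn (fun t => Th t p) k := (th_anti hp |>.mono hk).integrableOn_isCompact hc
  have h1 : IntegrableOn (fun _ : ℝ => (1:ℝ)) k := by
    rw [integrableOn_const_iff]
    right
    exact hc.measure_lt_top
  exact (h1.add h).ofReal

lemma th_top {p : Fin 6 → ℝ} (hp : PD p) (r : ℝ) :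
    (fun t : ℝ => ((1 + Th t p : ℝ) : ℂ) - 1) =O[atTop] fun t => t ^ r := by
  obtain ⟨c, hc, C, h⟩ := th_decay hp
  have h1 : (fun t : ℝ => ((1 + Th t p : ℝ) : ℂ) - 1) =O[atTop] fun t => Real.exp (-c * t) := by
    refine IsBigO.of_bound C ?_
    filter_upwards [eventually_ge_atTop 1] with t ht
    have e : ((1 + Th t p : ℝ) : ℂ) - 1 = ((Th t p : ℝ) : ℂ) := by push_cast; ring
    rw [e, Complex.norm_real, Real.norm_of_nonneg (th_pos hp (by linarith)).le,
      Real.norm_of_nonneg (Real.exp_pos _).le]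
    exact h t ht
  exact h1.trans (isLittleO_exp_neg_mul_rpow_atTop hc r).isBigO

lemma th_fe2 {p : Fin 6 → ℝ} (hp : PD p) {x : ℝ} (hx : 0 < x) :
    1 + Th (1 / x) p = x ^ (3 / 2 : ℝ) * (1 + Th x (qd p)) := by
  rw [th_dual hp (by positivity : 0 < 1 / x), one_div_one_div]
  congr 1
  rw [one_div, Real.inv_rpow hx.le, Real.rpow_neg hx.le, inv_inv]

/-- the pair of theta functions -/
noncomputable def FE (p : Fin 6 → ℝ) (hp : PD p) : WeakFEPair ℂ where
  f t := ((1 + Th t p : ℝ) : ℂ)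
  g t := ((1 + Th t (qd p) : ℝ) : ℂ)
  k := 3 / 2
  ε := 1
  f₀ := 1
  g₀ := 1
  hf_int := th_loc hp
  hg_int := th_loc (PD_qd hp)
  hk := by norm_num
  hε := one_ne_zero
  h_feq x hx := by
    have hx : 0 < x := hx
    rw [th_fe2 hp hx, one_mul, smul_eq_mul, ← Complex.ofReal_mul]
  hf_top := th_top hp
  hg_top := th_top (PD_qd hp)

lemma int_pow {p : Fin 6 → ℝ} (hp : PD p) (a : ℝ) :
    IntegrableOn (fun t : ℝ => Th t p * t ^ a) (Ioi 1) := by
  obtain ⟨c, hc, C, h⟩ := th_decay hp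
  have h1 : IntegrableOn (fun t : ℝ => C * (t ^ a * Real.exp (-c * t))) (Ioi 1) := by
    refine Integrable.const_mul ?_ C
    refine integrable_of_isBigO_exp_neg (b := c / 2) (by positivity) ?_ ?_
    · refine ContinuousOn.mul ?_ (by fun_prop)
      intro x hx
      have hx : 1 ≤ x := hx
      exact (Real.continuousAt_rpow_const x a (Or.inl (by linarith))).continuousWithinAt
    · have h2 := (isLittleO_rpow_exp_pos_mul_atTop a (by positivity : 0 < c / 2)).isBigO
      have h3 := h2.mul (isBigO_refl (fun t : ℝ => Real.exp (-c * t)) atTop)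
      refine h3.congr_right fun t => ?_
      rw [← Real.exp_add]
      congr 1
      ring
  refine Integrable.mono' h1 ?_ ?_
  · refine AEStronglyMeasurable.mul ?_ ?_
    · exact (aemeasurable_restrict_of_antitoneOn measurableSet_Ioi
        ((th_anti hp).mono fun x hx => lt_trans one_pos hx)).aestronglyMeasurable
    · exact (measurable_id.pow_const a).aestronglyMeasurable
  · filter_upwards [ae_restrict_mem measurableSet_Ioi] with t ht
    have ht : 1 < t := ht
    have h3 := Real.rpow_nonneg (by linarith : (0:ℝ) ≤ t) a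
    rw [Real.norm_of_nonneg (mul_nonneg (th_pos hp (by linarith)).le h3)]
    have := mul_le_mul_of_nonneg_right (h t ht.le) h3
    linarith

end Pool.Agent.U316.Ep
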