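import Pool.Agent.U316.Ep.Roots

/-!
# The pair inequality for all forms
-/

set_option autoImplicit false

open Matrix MeasureTheory Set Pool.Agent.K1H99.FCC

namespace Pool.Agent.U316.Ep

open Pool.Agent.U316.Th (Th Bp PD_Bp qd PD_qd th_dual)

/-- the weighted integrals of the pair sum are nonnegative -/
theorem fin_all {p : Fin 6 → ℝ} (hp : PD p) : FinP p := by
  obtain ⟨A, hA, hd⟩ := hp
  obtain ⟨s1, d1, s2, d2, s3, d3, hrep, c1, c2, c3, c4, c5, c6, c7, c8⟩ := exists_reduced A hd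
  have hPD : PD (sd s1 d1 s2 d2 s3 d3) := (rep_energy hd hrep).1
  have hQ : FinP (sd s1 d1 s2 d2 s3 d3) := q_ten (cone_all c1 c2 c7 c8 c3 c4 c5 c6 hPD)
  have e := fun t => rep_th hA hrep t
  have hp : PD p := ⟨A, hA, hd⟩
  have e2 : ∀ t : ℝ, 0 < t → Th t (qd (sd s1 d1 s2 d2 s3 d3)) = Th t (qd p) := by
    intro t ht
    have h1 := th_dual hp (β := 1 / t) (by positivity)
    have h2 := th_dual hPD (β := 1 / t) (by positivity)
    rw [e, h1, one_div_one_div] at h2
    have h3 : 0 < (1 / t) ^ (-(3 / 2) : ℝ) := Real.rpow_pos_of_pos (by positivity) _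
    have h4 := mul_left_cancel₀ h3.ne' h2
    linarith
  intro σ hσ
  refine (hQ σ hσ).trans (le_of_eq ?_)
  refine setIntegral_congr_fun measurableSet_Ioi fun t ht => ?_
  have ht : 1 < t := ht
  unfold Sf
  rw [e, e2 t (by linarith)]

end Pool.Agent.U316.Ep
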