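import Pool.Agent.U316.Ep.Ana1
import Pool.Agent.U316.Ep.Fa

/-!
# The completed Epstein zeta function
-/

set_option autoImplicit false

open Matrix MeasureTheory Set Filter Topology Asymptotics Pool.Agent.K1H99.FCC

namespace Pool.Agent.U316.Ep

open Pool.Agent.U316.Th (Th Bp PD_Bp qd PD_qd th_dual th_pos th_summable th_smul qd_Bp)

/-- the truncated theta function -/
noncomputable def ut (p : Fin 6 → ℝ) : ℝ → ℂ := (Ioi 1).indicator fun t => ((Th t p : ℝ) : ℂ)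

lemma mellin_ut (p : Fin 6 → ℝ) (r : ℝ) :
    mellin (ut p) r = ((∫ t in Ioi (1:ℝ), Th t p * t ^ (r - 1) : ℝ) : ℂ) := by
  unfold mellin
  have e : ∀ t : ℝ, ((t:ℂ) ^ ((r:ℂ) - 1)) • ut p t =
      (Ioi 1).indicator (fun t : ℝ => ((t:ℂ) ^ ((r:ℂ) - 1)) * ((Th t p : ℝ) : ℂ)) t := by
    intro t
    unfold ut
    by_cases h : t ∈ Ioi (1:ℝ)
    · rw [indicator_of_mem h, indicator_of_mem h, smul_eq_mul]
    · rw [indicator_of_notMem h, indicator_of_notMem h, smul_zero]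
  simp only [e]
  rw [setIntegral_indicator measurableSet_Ioi]
  have e2 : Ioi (0:ℝ) ∩ Ioi 1 = Ioi 1 := by
    rw [Ioi_inter_Ioi]
    simp
  rw [e2]
  refine Eq.trans ?_ (integral_ofReal (𝕜 := ℂ) (μ := volume.restrict (Ioi (1:ℝ)))
    (f := fun t => Th t p * t ^ (r - 1)))
  refine setIntegral_congr_fun measurableSet_Ioi fun t ht => ?_
  have ht : 1 < t := ht
  have e3 : ((t:ℂ) ^ ((r:ℂ) - 1)) = ((t ^ (r - 1) : ℝ) : ℂ) := by
    rw [Complex.ofReal_cpow (by linarith)]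
    push_cast
    rfl
  rw [e3, ← Complex.ofReal_mul, mul_comm]
  rfl

lemma conv_ut {p : Fin 6 → ℝ} (hp : PD p) (s : ℂ) : MellinConvergent (ut p) s := by
  unfold MellinConvergent
  have e : ∀ t : ℝ, ((t:ℂ) ^ (s - 1)) • ut p t =
      (Ioi 1).indicator (fun t : ℝ => ((t:ℂ) ^ (s - 1)) * ((Th t p : ℝ) : ℂ)) t := by
    intro t
    unfold ut
    by_cases h : t ∈ Ioi (1:ℝ)
    · rw [indicator_of_mem h, indicator_of_mem h, smul_eq_mul]
    · rw [indicator_of_notMem h, indicator_of_notMem h, smul_zero]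
  simp only [e]
  have h1 : IntegrableOn (fun t : ℝ => ((t:ℂ) ^ (s - 1)) * ((Th t p : ℝ) : ℂ)) (Ioi 1) := by
    refine Integrable.mono' (int_pow hp (s.re - 1)) ?_ ?_
    · refine AEStronglyMeasurable.mul ?_ ?_
      · refine ContinuousOn.aestronglyMeasurable ?_ measurableSet_Ioi
        intro x hx
        have hx : 1 < x := hx
        refine ContinuousAt.continuousWithinAt ?_
        exact Complex.continuousAt_ofReal_cpow_const _ _ (Or.inr (by linarith))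
      · have := (aemeasurable_restrict_of_antitoneOn (μ := volume) measurableSet_Ioi
          ((th_anti hp).mono fun x (hx : x ∈ Ioi (1:ℝ)) => show (0:ℝ) < x from
            lt_trans one_pos hx))
        exact (Complex.measurable_ofReal.comp_aemeasurable this).aestronglyMeasurable
    · filter_upwards [ae_restrict_mem measurableSet_Ioi] with t ht
      have ht : 1 < t := ht
      rw [norm_mul, Complex.norm_real, Real.norm_of_nonneg (th_pos hp (by linarith)).le,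
        Complex.norm_cpow_eq_rpow_re_of_pos (by linarith), mul_comm]
      simp
  exact (integrable_indicator_iff measurableSet_Ioi).2 h1 |>.integrableOn

lemma modif_eq {p : Fin 6 → ℝ} (hp : PD p) {t : ℝ} (ht : 0 < t) :
    (FE p hp).f_modif t = ut p t + ((t:ℂ) ^ (-(3 / 2 : ℂ))) • ut (qd p) t⁻¹ := by
  unfold WeakFEPair.f_modif ut
  rw [Pi.add_apply]
  rcases lt_trichotomy t 1 with h | h | h
  · have h1 : t ∉ Ioi (1:ℝ) := fun h' => absurd h (not_lt.2 (le_of_lt h'))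
    have h2 : t ∈ Ioo (0:ℝ) 1 := ⟨ht, h⟩
    have h3 : t⁻¹ ∈ Ioi (1:ℝ) := (one_lt_inv₀ ht).2 h
    rw [indicator_of_notMem h1, indicator_of_mem h2, indicator_of_notMem h1, indicator_of_mem h3,
      zero_add, zero_add]
    have e := th_dual hp ht
    have e3 : ((t:ℂ) ^ (-(3 / 2 : ℂ))) = ((t ^ (-(3 / 2) : ℝ) : ℝ) : ℂ) := by
      rw [Complex.ofReal_cpow ht.le]
      push_cast
      rfl
    show ((1 + Th t p : ℝ) : ℂ) - (1 * ((t ^ (-(3 / 2) : ℝ) : ℝ) : ℂ)) • (1:ℂ) = _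
    rw [e, e3, one_div]
    push_cast
    simp only [smul_eq_mul]
    ring
  · subst h
    simp
  · have h1 : t ∈ Ioi (1:ℝ) := h
    have h2 : t ∉ Ioo (0:ℝ) 1 := fun h' => absurd h (not_lt.2 h'.2.le)
    have h3 : t⁻¹ ∉ Ioi (1:ℝ) := fun h' => absurd ((one_lt_inv₀ ht).1 h') (not_lt.2 h.le)
    rw [indicator_of_mem h1, indicator_of_notMem h2, indicator_of_mem h1, indicator_of_notMem h3,
      smul_zero]
    show ((1 + Th t p : ℝ) : ℂ) - 1 + 0 = _
    push_cast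
    ring

/-- the value of the completed function without its polar part, on the real axis -/
noncomputable def L0 (p : Fin 6 → ℝ) (r : ℝ) : ℝ :=
  (∫ t in Ioi (1:ℝ), Th t p * t ^ (r - 1)) + ∫ t in Ioi (1:ℝ), Th t (qd p) * t ^ (1 / 2 - r)

theorem lam0_real {p : Fin 6 → ℝ} (hp : PD p) (r : ℝ) :
    (FE p hp).Λ₀ (r : ℂ) = ((L0 p r : ℝ) : ℂ) := by
  have h1 : mellin (FE p hp).f_modif (r:ℂ) =
      mellin (fun t => ut p t + ((t:ℂ) ^ (-(3 / 2 : ℂ))) • ut (qd p) t⁻¹) (r:ℂ) := by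
    refine setIntegral_congr_fun measurableSet_Ioi fun t ht => ?_
    have ht : 0 < t := ht
    simp only
    rw [modif_eq hp ht]
  have c1 := conv_ut hp (r:ℂ)
  have c2 : MellinConvergent (fun t : ℝ => ((t:ℂ) ^ (-(3 / 2 : ℂ))) • ut (qd p) t⁻¹) (r:ℂ) := by
    rw [MellinConvergent.cpow_smul (f := fun t => ut (qd p) t⁻¹)]
    have := (MellinConvergent.comp_rpow (f := ut (qd p)) (s := (r:ℂ) + -(3 / 2 : ℂ))
      (a := -1) (by norm_num)).2 (conv_ut (PD_qd hp) _)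
    simpa only [Real.rpow_neg_one] using this
  have h2 := (hasMellin_add c1 c2).2
  unfold WeakFEPair.Λ₀
  rw [h1, h2, mellin_cpow_smul (fun t => ut (qd p) t⁻¹), mellin_comp_inv, mellin_ut]
  have e : -((r:ℂ) + -(3 / 2 : ℂ)) = ((3 / 2 - r : ℝ) : ℂ) := by push_cast; ring
  rw [e, mellin_ut]
  unfold L0
  have e2 : 3 / 2 - r - 1 = 1 / 2 - r := by ring
  rw [e2]
  push_cast
  rfl

lemma qd_Fp : qd Fp = Bp := by
  unfold qd Fp Bp
  funext i
  fin_cases i <;> simp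

/-- the face-centred cubic form minimises -/
theorem l0_F {p : Fin 6 → ℝ} (hp : PD p) {r : ℝ} (hr : 3 / 4 ≤ r) : L0 Fp r ≤ L0 p r := by
  have hF := fin_all hp (r - 3 / 4) (by linarith)
  have e : -(r - 3 / 4) - 1 / 4 = 1 / 2 - r := by ring
  rw [e] at hF
  have i1 := int_pow hp (r - 1)
  have i2 := int_pow (PD_qd hp) (1 / 2 - r)
  have i3 := int_pow PD_Fp (r - 1)
  have i4 := int_pow PD_Bp (1 / 2 - r)
  have i5 := int_pow hp (1 / 2 - r)
  have i6 := int_pow PD_Fp (1 / 2 - r)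
  have e1 : L0 p r - L0 Fp r = ∫ t in Ioi (1:ℝ), (Th t p * t ^ (r - 1) +
      Th t (qd p) * t ^ (1 / 2 - r) - (Th t Fp * t ^ (r - 1) + Th t Bp * t ^ (1 / 2 - r))) := by
    have a1 : ∫ t in Ioi (1:ℝ), (Th t p * t ^ (r - 1) +
      Th t (qd p) * t ^ (1 / 2 - r) - (Th t Fp * t ^ (r - 1) + Th t Bp * t ^ (1 / 2 - r))) =
      (∫ t in Ioi (1:ℝ), (Th t p * t ^ (r - 1) + Th t (qd p) * t ^ (1 / 2 - r))) -
      ∫ t in Ioi (1:ℝ), (Th t Fp * t ^ (r - 1) + Th t Bp * t ^ (1 / 2 - r)) :=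
      integral_sub (i1.add i2) (i3.add i4)
    have a2 : ∫ t in Ioi (1:ℝ), (Th t p * t ^ (r - 1) + Th t (qd p) * t ^ (1 / 2 - r)) =
      (∫ t in Ioi (1:ℝ), Th t p * t ^ (r - 1)) + ∫ t in Ioi (1:ℝ), Th t (qd p) * t ^ (1 / 2 - r) :=
      integral_add i1 i2
    have a3 : ∫ t in Ioi (1:ℝ), (Th t Fp * t ^ (r - 1) + Th t Bp * t ^ (1 / 2 - r)) =
      (∫ t in Ioi (1:ℝ), Th t Fp * t ^ (r - 1)) + ∫ t in Ioi (1:ℝ), Th t Bp * t ^ (1 / 2 - r) :=
      integral_add i3 i4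
    rw [a1, a2, a3]
    unfold L0
    rw [qd_Fp]
  have e2 : ∫ t in Ioi (1:ℝ), Sf t p * t ^ (1 / 2 - r) ≤ ∫ t in Ioi (1:ℝ), (Th t p * t ^ (r - 1) +
      Th t (qd p) * t ^ (1 / 2 - r) - (Th t Fp * t ^ (r - 1) + Th t Bp * t ^ (1 / 2 - r))) := by
    refine setIntegral_mono_on ?_ ((i1.add i2).sub (i3.add i4)) measurableSet_Ioi fun t ht => ?_
    · refine (((i5.sub i6).add i2).sub i4).congr_fun (fun t _ => ?_) measurableSet_Ioi
      simp only [Pi.add_apply, Pi.sub_apply]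
      unfold Sf
      ring
    · have ht : 1 < t := ht
      have h1 := th_ge_F hp ht
      have h2 : t ^ (1 / 2 - r) ≤ t ^ (r - 1) :=
        Real.rpow_le_rpow_of_exponent_le ht.le (by linarith)
      have h3 := mul_le_mul_of_nonneg_left h2 (sub_nonneg.2 h1)
      unfold Sf
      linarith
  linarith

lemma l0_symm {p : Fin 6 → ℝ} (hp : PD p) (r : ℝ) : L0 p (3 / 2 - r) = L0 (qd p) r := by
  unfold L0
  rw [add_comm]
  have e1 : 1 / 2 - (3 / 2 - r) = r - 1 := by ring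
  have e2 : 3 / 2 - r - 1 = 1 / 2 - r := by ring
  rw [e1, e2]
  congr 1
  refine setIntegral_congr_fun measurableSet_Ioi fun t ht => ?_
  have ht : 1 < t := ht
  rw [th_qd_qd hp (by linarith)]

lemma l0_congr {p q : Fin 6 → ℝ} (h1 : ∀ t : ℝ, 1 < t → Th t p = Th t q)
    (h2 : ∀ t : ℝ, 1 < t → Th t (qd p) = Th t (qd q)) (r : ℝ) : L0 p r = L0 q r := by
  unfold L0
  congr 1
  · refine setIntegral_congr_fun measurableSet_Ioi fun t ht => ?_
    rw [h1 t ht]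
  · refine setIntegral_congr_fun measurableSet_Ioi fun t ht => ?_
    rw [h2 t ht]

lemma l0_smul {c : ℝ} (hc : 0 < c) {p : Fin 6 → ℝ} (hp : PD p) (r : ℝ) :
    L0 (c • p) r = L0 p r := by
  refine l0_congr (fun t _ => th_smul t hc hp) (fun t _ => ?_) r
  rw [qd_smul, th_smul t (by positivity) (PD_qd hp)]

/-- the body-centred cubic form minimises -/
theorem l0_B {p : Fin 6 → ℝ} (hp : PD p) {r : ℝ} (hr : r ≤ 3 / 4) : L0 Bp r ≤ L0 p r := by
  have h1 := l0_F (PD_qd hp) (r := 3 / 2 - r) (by linarith)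
  rw [← l0_symm hp, sub_sub_cancel] at h1
  have h2 := l0_symm PD_Bp (3 / 2 - r)
  rw [sub_sub_cancel, qd_Bp, l0_smul (by norm_num) PD_Fp] at h2
  rw [h2]
  exact h1

end Pool.Agent.U316.Ep
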