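import Pool.Agent.U316.Ep.Ana2
import Mathlib.NumberTheory.LSeries.MellinEqDirichlet
import Mathlib.Analysis.PSeries

/-!
# The Dirichlet series
-/

set_option autoImplicit false

open Matrix MeasureTheory Set Filter Topology Asymptotics Pool.Agent.K1H99.FCC

namespace Pool.Agent.U316.Ep

open Pool.Agent.U316.Th (Th Bp PD_Bp qd PD_qd th_dual th_pos th_summable th_smul theta_rep)

lemma sum1 {a : ℝ} (ha : 1 < a) : Summable fun n : ℤ => (1 + |(n:ℝ)|) ^ (-a) := by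
  have h := Real.summable_abs_int_rpow ha
  refine Summable.of_norm_bounded_eventually h ?_
  have hf : ({0} : Set ℤ).Finite := Set.finite_singleton 0
  refine hf.subset fun n hn => ?_
  by_contra hc
  refine hn ?_
  have hn0 : n ≠ 0 := hc
  have h1 : (0:ℝ) < |(n:ℝ)| := abs_pos.2 (Int.cast_ne_zero.2 hn0)
  show ‖(1 + |(n:ℝ)|) ^ (-a)‖ ≤ |(n:ℝ)| ^ (-a)
  rw [Real.norm_of_nonneg (Real.rpow_nonneg (by positivity) _)]
  exact Real.rpow_le_rpow_of_nonpos h1 (by linarith) (by linarith)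

lemma sum3' {f : ℤ → ℝ} (h : Summable f) (h0 : 0 ≤ f) :
    Summable fun n : Fin 3 → ℤ => f (n 0) * (f (n 1) * f (n 2)) := by
  have h1 : Summable fun x : ℤ × ℤ => f x.1 * f x.2 := h.mul_of_nonneg h h0 h0
  have h2 : Summable fun x : ℤ × (ℤ × ℤ) => f x.1 * (f x.2.1 * f x.2.2) :=
    h.mul_of_nonneg h1 h0 (fun x => mul_nonneg (h0 _) (h0 _))
  have hi : Function.Injective fun n : Fin 3 → ℤ => (n 0, (n 1, n 2)) := by
    intro x y hxy
    simp only [Prod.mk.injEq] at hxy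
    funext i
    fin_cases i
    · exact hxy.1
    · exact hxy.2.1
    · exact hxy.2.2
  exact h2.comp_injective hi

lemma sum3 {a : ℝ} (ha : 1 < a) : Summable fun n : Fin 3 → ℤ =>
    (1 + |(n 0:ℝ)|) ^ (-a) * ((1 + |(n 1:ℝ)|) ^ (-a) * (1 + |(n 2:ℝ)|) ^ (-a)) :=
  sum3' (f := fun m : ℤ => (1 + |(m:ℝ)|) ^ (-a)) (sum1 ha)
    fun m => Real.rpow_nonneg (by positivity) _

/-- convergence of the Dirichlet series -/
lemma sum_nsq {A B : Matrix (Fin 3) (Fin 3) ℝ} (hBA : Bᵀ * A = 1) {σ : ℝ} (hσ : 3 / 2 < σ) :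
    Summable fun n : N0 => 1 / (nsq A (rv n.1)) ^ σ := by
  obtain ⟨c, hc, h⟩ := nsq_ge hBA
  have ha : 1 < 2 * σ / 3 := by linarith
  refine Summable.of_nonneg_of_le (fun n => one_div_nonneg.2 (Real.rpow_nonneg (nsq_nonneg _ _) _))
    (fun n => ?_) (((sum3 ha).subtype {n : Fin 3 → ℤ | n ≠ 0}).mul_left (4 ^ σ / c ^ σ))
  have h1 := norm_rv_ge n
  have hx : 0 < c * ‖rv n.1‖ ^ 2 := by positivity
  have h2 : 1 / (nsq A (rv n.1)) ^ σ ≤ 1 / (c * ‖rv n.1‖ ^ 2) ^ σ :=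
    one_div_le_one_div_of_le (Real.rpow_pos_of_pos hx _)
      (Real.rpow_le_rpow hx.le (h _) (by linarith))
  refine h2.trans ?_
  have hb : ∀ i, 1 + |(n.1 i : ℝ)| ≤ 2 * ‖rv n.1‖ := by
    intro i
    have := norm_le_pi_norm (rv n.1) i
    rw [Real.norm_eq_abs] at this
    have e : rv n.1 i = (n.1 i : ℝ) := rfl
    rw [e] at this
    linarith
  have hN : 0 < 2 * ‖rv n.1‖ := by linarith
  have hp : ∀ i, (2 * ‖rv n.1‖) ^ (-(2 * σ / 3)) ≤ (1 + |(n.1 i : ℝ)|) ^ (-(2 * σ / 3)) := fun i =>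
    Real.rpow_le_rpow_of_nonpos (by positivity) (hb i) (by linarith)
  have hN0 : 0 ≤ (2 * ‖rv n.1‖) ^ (-(2 * σ / 3)) := (Real.rpow_pos_of_pos hN _).le
  have h3 : (2 * ‖rv n.1‖) ^ (-(2 * σ / 3)) *
      ((2 * ‖rv n.1‖) ^ (-(2 * σ / 3)) * (2 * ‖rv n.1‖) ^ (-(2 * σ / 3))) ≤
      (1 + |(n.1 0 : ℝ)|) ^ (-(2 * σ / 3)) * ((1 + |(n.1 1 : ℝ)|) ^ (-(2 * σ / 3)) *
        (1 + |(n.1 2 : ℝ)|) ^ (-(2 * σ / 3))) :=
    mul_le_mul (hp 0) (mul_le_mul (hp 1) (hp 2) hN0 (hN0.trans (hp 1)))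
      (mul_nonneg hN0 hN0) (hN0.trans (hp 0))
  have e1 : (2 * ‖rv n.1‖) ^ (-(2 * σ / 3)) *
      ((2 * ‖rv n.1‖) ^ (-(2 * σ / 3)) * (2 * ‖rv n.1‖) ^ (-(2 * σ / 3))) =
      ((4:ℝ) ^ σ)⁻¹ * ((‖rv n.1‖ ^ 2) ^ σ)⁻¹ := by
    rw [← Real.rpow_add hN, ← Real.rpow_add hN, ← mul_inv, ← Real.mul_rpow (by norm_num)
      (by positivity), ← Real.rpow_neg (by positivity)]
    have e2 : (4:ℝ) * ‖rv n.1‖ ^ 2 = (2 * ‖rv n.1‖) ^ (2:ℝ) := by
      rw [Real.rpow_two]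
      ring
    rw [e2, ← Real.rpow_mul hN.le]
    congr 1
    ring
  rw [e1] at h3
  have h4 := mul_le_mul_of_nonneg_left h3 (by positivity : 0 ≤ (4:ℝ) ^ σ / c ^ σ)
  refine le_trans (le_of_eq ?_) h4
  rw [Real.mul_rpow hc.le (by positivity)]
  have k1 : 0 < c ^ σ := Real.rpow_pos_of_pos hc _
  have k2 : 0 < (‖rv n.1‖ ^ 2) ^ σ := Real.rpow_pos_of_pos (by positivity) _
  have k3 : (0:ℝ) < 4 ^ σ := Real.rpow_pos_of_pos (by norm_num) _
  field_simp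

/-- the theta function without its constant term -/
lemma th_hasSum {A B : Matrix (Fin 3) (Fin 3) ℝ} (hBA : Bᵀ * A = 1) (hA : A.det ^ 2 = 1)
    {p : Fin 6 → ℝ} (h : Rep A p) {t : ℝ} (ht : 0 < t) :
    HasSum (fun n : N0 => Real.exp (-Real.pi * nsq A (rv n.1) * t)) (Th t p) := by
  obtain ⟨hPD, hdt, hth⟩ := theta_rep hBA hA h
  have h1 := hth t ht
  have hs := summable_gauss hBA (c := Real.pi * t) (by positivity)
  rw [Pool.Agent.U316.Th.tsum_N0r _ (by simpa using hs), nsq_zero, mul_zero, Real.exp_zero] at h1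
  have h2 : ∑' n : N0, Real.exp (-(Real.pi * t) * nsq A (rv n.1)) = Th t p := by linarith
  have h3 : Summable fun n : N0 => Real.exp (-(Real.pi * t) * nsq A (rv n.1)) :=
    hs.subtype {n : Fin 3 → ℤ | n ≠ 0}
  have h4 := h3.hasSum
  rw [h2] at h4
  have e : (fun n : N0 => Real.exp (-Real.pi * nsq A (rv n.1) * t)) =
      fun n : N0 => Real.exp (-(Real.pi * t) * nsq A (rv n.1)) := by
    funext n
    congr 1
    ring
  rw [e]
  exact h4

/-- the Dirichlet series of the completed function -/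
theorem series {A B : Matrix (Fin 3) (Fin 3) ℝ} (hBA : Bᵀ * A = 1) (hA : A.det ^ 2 = 1)
    {p : Fin 6 → ℝ} (h : Rep A p) (hp : PD p) {s : ℂ} (hs : 3 / 2 < s.re) :
    HasSum (fun n : N0 => (Real.pi : ℂ) ^ (-s) * Complex.Gamma s * 1 /
      ((nsq A (rv n.1) : ℝ) : ℂ) ^ s) ((FE p hp).Λ s) := by
  have h1 := (FE p hp).hasMellin (s := s) hs
  rw [← h1.2]
  refine hasSum_mellin_pi_mul (a := fun _ => 1) (q := fun n : N0 => nsq A (rv n.1)) ?_
    (by linarith) ?_ ?_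
  · intro n
    right
    obtain ⟨c, hc, h⟩ := nsq_lower hBA
    exact hc.trans_le (h n)
  · intro t ht
    have ht : 0 < t := ht
    have h2 := th_hasSum hBA hA h ht
    have e : (FE p hp).f t - (FE p hp).f₀ = ((Th t p : ℝ) : ℂ) := by
      show ((1 + Th t p : ℝ) : ℂ) - 1 = _
      push_cast
      ring
    rw [e]
    have h3 := (Complex.hasSum_ofReal (f := fun n : N0 =>
      Real.exp (-Real.pi * nsq A (rv n.1) * t))).2 h2
    simpa using h3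
  · have h2 := sum_nsq hBA hs
    simpa using h2

end Pool.Agent.U316.Ep
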