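import Mathlib.Analysis.InnerProductSpace.PiL2
import Mathlib.Analysis.Analytic.Basic
import Mathlib.Analysis.SpecialFunctions.Pow.Complex
import Mathlib.LinearAlgebra.Matrix.Determinant.Basic

/-!
# Lattices of covolume one in three-space and their Epstein zeta functions
-/

set_option autoImplicit false

namespace Pool.Agent.U316.Ep

/-- `L` is a lattice `A ℤ³` in Euclidean three-space with `|det A| = 1`. -/
def CovOne (L : Set (EuclideanSpace ℝ (Fin 3))) : Prop :=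
  ∃ A : Matrix (Fin 3) (Fin 3) ℝ, |A.det| = 1 ∧
    L = {x | ∃ z : Fin 3 → ℤ, ∀ i, x i = ∑ j, A i j * (z j : ℝ)}

/-- `Z` is the Epstein zeta function of `L`: it is analytic on the complex plane without the point `3`, and
for `3 < Re s` it is the sum of `|x| ^ (-s)` over the points `x ≠ 0` of `L`. -/
def IsEpstein (L : Set (EuclideanSpace ℝ (Fin 3))) (Z : ℂ → ℂ) : Prop :=
  AnalyticOnNhd ℂ Z {3}ᶜ ∧ ∀ s : ℂ, 3 < s.re →
    HasSum (fun x : {x : EuclideanSpace ℝ (Fin 3) // x ∈ L ∧ x ≠ 0} => ((‖x.1‖ : ℝ) : ℂ) ^ (-s)) (Z s)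

/-- the face-centred cubic lattice, rescaled to covolume one: the integral vectors with even coordinate sum,
divided by the cube root of `2` -/
def FCC : Set (EuclideanSpace ℝ (Fin 3)) :=
  {x | ∃ z : Fin 3 → ℤ, Even (z 0 + z 1 + z 2) ∧ ∀ i, x i = (2:ℝ) ^ (-(1 / 3) : ℝ) * (z i : ℝ)}

/-- the body-centred cubic lattice, rescaled to covolume one: the union of `ℤ³` and `ℤ³ + (1/2, 1/2, 1/2)`,
multiplied by the cube root of `2` -/
def BCC : Set (EuclideanSpace ℝ (Fin 3)) :=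
  {x | ∃ z : Fin 3 → ℤ, (∀ i, x i = (2:ℝ) ^ (1 / 3 : ℝ) * (z i : ℝ)) ∨
    ∀ i, x i = (2:ℝ) ^ (1 / 3 : ℝ) * ((z i : ℝ) + 1 / 2)}

end Pool.Agent.U316.Ep
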