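import Pool.Agent.U316.Ep.Ana3
import Pool.Agent.U316.Ep.Defs
import Mathlib.Analysis.SpecialFunctions.Gamma.Deligne
import Mathlib.Analysis.Analytic.Uniqueness
import Mathlib.Analysis.Complex.CauchyIntegral

/-!
# The continuation of the Epstein zeta function
-/

set_option autoImplicit false

open Matrix MeasureTheory Set Filter Topology Pool.Agent.K1H99.FCC

namespace Pool.Agent.U316.Ep

open Pool.Agent.U316.Th (Th Bp PD_Bp qd PD_qd)

/-- the continued zeta function of a form -/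
noncomputable def Zf (p : Fin 6 → ℝ) (hp : PD p) (s : ℂ) : ℂ :=
  (Real.pi : ℂ) ^ (s / 2) * ((Complex.Gamma (s / 2))⁻¹ * ((FE p hp).Λ₀ (s / 2) - 1 / (3 / 2 - s / 2)) -
    (Complex.Gamma (s / 2 + 1))⁻¹)

lemma zf_eq {p : Fin 6 → ℝ} (hp : PD p) {s : ℂ} (hs : s ≠ 0) :
    Zf p hp s = (Real.pi : ℂ) ^ (s / 2) * (Complex.Gamma (s / 2))⁻¹ * (FE p hp).Λ (s / 2) := by
  have h2 : s / 2 ≠ 0 := div_ne_zero hs two_ne_zero
  have e : (FE p hp).Λ (s / 2) = (FE p hp).Λ₀ (s / 2) - (1 / (s / 2)) • (1:ℂ) -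
      ((1:ℂ) / (((3 / 2 : ℝ) : ℂ) - s / 2)) • (1:ℂ) := rfl
  have e2 : (((3 / 2 : ℝ) : ℂ) - s / 2) = 3 / 2 - s / 2 := by push_cast; ring
  rw [e, e2]
  unfold Zf
  rw [Complex.Gamma_add_one _ h2, mul_inv, smul_eq_mul, smul_eq_mul, mul_one, mul_one, one_div (s / 2)]
  ring

lemma zf_analytic {p : Fin 6 → ℝ} (hp : PD p) : AnalyticOnNhd ℂ (Zf p hp) {3}ᶜ := by
  refine DifferentiableOn.analyticOnNhd (fun s hs => ?_) isOpen_compl_singleton
  have hs : s ≠ 3 := hs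
  refine DifferentiableAt.differentiableWithinAt ?_
  have hpi : (Real.pi : ℂ) ≠ 0 := Complex.ofReal_ne_zero.2 Real.pi_ne_zero
  have hd : DifferentiableAt ℂ (fun s : ℂ => s / 2) s := by fun_prop
  have h3 : (3 / 2 : ℂ) - s / 2 ≠ 0 := by
    intro h
    apply hs
    linear_combination -2 * h
  unfold Zf
  refine DifferentiableAt.mul ?_ (DifferentiableAt.sub (DifferentiableAt.mul ?_
    (DifferentiableAt.sub ?_ ?_)) ?_)
  · exact DifferentiableAt.const_cpow hd (Or.inl hpi)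
  · exact DifferentiableAt.comp (g := fun w : ℂ => (Complex.Gamma w)⁻¹) (f := fun s : ℂ => s / 2) s
      (Complex.differentiable_one_div_Gamma (s / 2)) hd
  · exact DifferentiableAt.comp (g := (FE p hp).Λ₀) (f := fun s : ℂ => s / 2) s
      ((FE p hp).differentiable_Λ₀ (s / 2)) hd
  · exact DifferentiableAt.div (by fun_prop) (by fun_prop) h3
  · exact DifferentiableAt.comp (g := fun w : ℂ => (Complex.Gamma w)⁻¹) (f := fun s : ℂ => s / 2 + 1) s
      (Complex.differentiable_one_div_Gamma (s / 2 + 1)) (by fun_prop)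

/-- the factor in front of the completed function -/
noncomputable def gam (s : ℝ) : ℝ := Real.pi ^ (s / 2) * (Real.Gamma (s / 2))⁻¹

lemma gam_pos {s : ℝ} (hs : 0 < s) : 0 < gam s :=
  mul_pos (Real.rpow_pos_of_pos Real.pi_pos _) (inv_pos.2 (Real.Gamma_pos_of_pos (by positivity)))

lemma zf_real {p : Fin 6 → ℝ} (hp : PD p) {s : ℝ} (hs : 0 < s) :
    Zf p hp (s : ℂ) = ((gam s * (L0 p (s / 2) - 1 / (s / 2) - 1 / (3 / 2 - s / 2)) : ℝ) : ℂ) := by
  rw [zf_eq hp (Complex.ofReal_ne_zero.2 hs.ne')]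
  have e : (FE p hp).Λ ((s:ℂ) / 2) = (FE p hp).Λ₀ ((s:ℂ) / 2) - (1 / ((s:ℂ) / 2)) • (1:ℂ) -
      ((1:ℂ) / (((3 / 2 : ℝ) : ℂ) - (s:ℂ) / 2)) • (1:ℂ) := rfl
  have e3 : (s:ℂ) / 2 = ((s / 2 : ℝ) : ℂ) := by push_cast; rfl
  rw [e, e3, lam0_real, Complex.Gamma_ofReal, ← Complex.ofReal_cpow Real.pi_pos.le]
  unfold gam
  push_cast
  simp only [smul_eq_mul, mul_one]

/-- the Dirichlet series -/
lemma zf_series {A B : Matrix (Fin 3) (Fin 3) ℝ} (hBA : Bᵀ * A = 1) (hA : A.det ^ 2 = 1)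
    {p : Fin 6 → ℝ} (h : Rep A p) (hp : PD p) {s : ℂ} (hs : 3 < s.re) :
    HasSum (fun n : N0 => ((Real.sqrt (nsq A (rv n.1)) : ℝ) : ℂ) ^ (-s)) (Zf p hp s) := by
  have hs2 : 3 / 2 < (s / 2).re := by
    have : (s / 2).re = s.re / 2 := by
      rw [show s / 2 = s / ((2:ℝ):ℂ) by push_cast; rfl, Complex.div_ofReal_re]
    rw [this]
    linarith
  have hs0 : s ≠ 0 := by
    intro h0
    rw [h0] at hs
    norm_num at hs
  have h1 := (series hBA hA h hp hs2).mul_left ((Real.pi : ℂ) ^ (s / 2) * (Complex.Gamma (s / 2))⁻¹)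
  rw [← zf_eq hp hs0] at h1
  have e : (fun n : N0 => ((Real.sqrt (nsq A (rv n.1)) : ℝ) : ℂ) ^ (-s)) = fun n : N0 =>
      (Real.pi : ℂ) ^ (s / 2) * (Complex.Gamma (s / 2))⁻¹ * ((Real.pi : ℂ) ^ (-(s / 2)) *
      Complex.Gamma (s / 2) * 1 / ((nsq A (rv n.1) : ℝ) : ℂ) ^ (s / 2)) := by
    funext n
    obtain ⟨c, hc, hlow⟩ := nsq_lower hBA
    have hn : 0 < nsq A (rv n.1) := hc.trans_le (hlow n)
    have hpi : (Real.pi : ℂ) ≠ 0 := Complex.ofReal_ne_zero.2 Real.pi_ne_zero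
    have hG : Complex.Gamma (s / 2) ≠ 0 := Complex.Gamma_ne_zero_of_re_pos (by linarith)
    have hq : ((nsq A (rv n.1) : ℝ) : ℂ) ≠ 0 := Complex.ofReal_ne_zero.2 hn.ne'
    have k1 : (Real.pi : ℂ) ^ (s / 2) * (Real.pi : ℂ) ^ (-(s / 2)) = 1 := by
      rw [← Complex.cpow_add _ _ hpi, add_neg_cancel, Complex.cpow_zero]
    have k2 : ((Real.sqrt (nsq A (rv n.1)) : ℝ) : ℂ) ^ (-s) =
        (((nsq A (rv n.1) : ℝ) : ℂ) ^ (s / 2))⁻¹ := by
      have hr : 0 < Real.sqrt (nsq A (rv n.1)) := Real.sqrt_pos.2 hn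
      rw [← Complex.cpow_neg]
      have e2 : ((nsq A (rv n.1) : ℝ) : ℂ) = ((Real.sqrt (nsq A (rv n.1)) : ℝ) : ℂ) ^ (2:ℂ) := by
        have : ((Real.sqrt (nsq A (rv n.1)) : ℝ) : ℂ) ^ (2:ℂ) =
            ((Real.sqrt (nsq A (rv n.1)) : ℝ) : ℂ) ^ 2 := by
          rw [← Complex.cpow_natCast]
          norm_num
        rw [this, ← Complex.ofReal_pow, Real.sq_sqrt hn.le]
      conv_rhs => rw [e2]
      rw [← Complex.cpow_mul]
      · congr 1
        ring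
      · rw [← Complex.ofReal_log hr.le]
        have : (((Real.log (Real.sqrt (nsq A (rv n.1))) : ℝ) : ℂ) * 2).im = 0 := by
          rw [← Complex.ofReal_ofNat, ← Complex.ofReal_mul, Complex.ofReal_im]
        rw [this]
        exact neg_lt_zero.2 Real.pi_pos
      · rw [← Complex.ofReal_log hr.le]
        have : (((Real.log (Real.sqrt (nsq A (rv n.1))) : ℝ) : ℂ) * 2).im = 0 := by
          rw [← Complex.ofReal_ofNat, ← Complex.ofReal_mul, Complex.ofReal_im]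
        rw [this]
        exact Real.pi_pos.le
    rw [k2]
    calc (((nsq A (rv n.1) : ℝ) : ℂ) ^ (s / 2))⁻¹
        = ((Real.pi : ℂ) ^ (s / 2) * (Real.pi : ℂ) ^ (-(s / 2))) *
          ((Complex.Gamma (s / 2))⁻¹ * Complex.Gamma (s / 2)) *
          (((nsq A (rv n.1) : ℝ) : ℂ) ^ (s / 2))⁻¹ := by
            rw [k1, inv_mul_cancel₀ hG, one_mul, one_mul]
      _ = _ := by rw [div_eq_mul_inv]; ring
  rw [e]
  exact h1

/-- the points of a lattice -/
def lat (A : Matrix (Fin 3) (Fin 3) ℝ) : Set (EuclideanSpace ℝ (Fin 3)) :=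
  {x | ∃ z : Fin 3 → ℤ, ∀ i, x i = ∑ j, A i j * (z j : ℝ)}

/-- the points of a lattice, by their coordinates -/
lemma lat_equiv {A B : Matrix (Fin 3) (Fin 3) ℝ} (hBA : Bᵀ * A = 1) :
    ∃ e : N0 ≃ {x : EuclideanSpace ℝ (Fin 3) // x ∈ lat A ∧ x ≠ 0},
      ∀ n, ‖(e n).1‖ = Real.sqrt (nsq A (rv n.1)) := by
  have hinj : ∀ x y : Fin 3 → ℤ, A.mulVec (rv x) = A.mulVec (rv y) → x = y := by
    intro x y h
    have h2 := congrArg (Bᵀ).mulVec h
    rw [Matrix.mulVec_mulVec, Matrix.mulVec_mulVec, hBA, Matrix.one_mulVec, Matrix.one_mulVec] at h2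
    funext i
    have h3 := congrFun h2 i
    exact Int.cast_injective h3
  have h0 : A.mulVec (rv 0) = 0 := by
    have : rv 0 = 0 := by funext i; simp [rv]
    rw [this, Matrix.mulVec_zero]
  let f : N0 → {x : EuclideanSpace ℝ (Fin 3) // x ∈ lat A ∧ x ≠ 0} := fun n =>
    ⟨WithLp.toLp 2 (A.mulVec (rv n.1)), ⟨⟨n.1, fun i => rfl⟩, fun h => n.2 (hinj _ _ (by
      rw [h0]
      exact congrArg WithLp.ofLp h))⟩⟩
  have hf : Function.Bijective f := by
    constructor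
    · intro x y hxy
      have h1 : WithLp.toLp 2 (A.mulVec (rv x.1)) = WithLp.toLp 2 (A.mulVec (rv y.1)) :=
        congrArg Subtype.val hxy
      exact Subtype.ext (hinj _ _ (congrArg WithLp.ofLp h1))
    · rintro ⟨x, ⟨z, hz⟩, hx0⟩
      have hxz : x = WithLp.toLp 2 (A.mulVec (rv z)) := by
        ext i
        exact hz i
      have hz0 : z ≠ 0 := by
        intro h
        apply hx0
        rw [hxz, h, h0]
        rfl
      exact ⟨⟨z, hz0⟩, Subtype.ext hxz.symm⟩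
  refine ⟨Equiv.ofBijective f hf, fun n => ?_⟩
  show ‖WithLp.toLp 2 (A.mulVec (rv n.1))‖ = _
  rw [EuclideanSpace.norm_eq]
  unfold nsq
  congr 1
  refine Finset.sum_congr rfl fun i _ => ?_
  rw [Real.norm_eq_abs, sq_abs]

theorem zf_isEpstein {A B : Matrix (Fin 3) (Fin 3) ℝ} (hBA : Bᵀ * A = 1) (hA : A.det ^ 2 = 1)
    {p : Fin 6 → ℝ} (h : Rep A p) (hp : PD p) : IsEpstein (lat A) (Zf p hp) := by
  refine ⟨zf_analytic hp, fun s hs => ?_⟩
  obtain ⟨e, he⟩ := lat_equiv hBA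
  have h1 := zf_series hBA hA h hp hs
  rw [← e.hasSum_iff]
  refine Eq.subst (motive := fun g => HasSum g (Zf p hp s)) ?_ h1
  funext n
  show _ = ((‖(e n).1‖ : ℝ) : ℂ) ^ (-s)
  rw [he]

/-- the continuation is unique -/
theorem epstein_unique {L : Set (EuclideanSpace ℝ (Fin 3))} {Z Z' : ℂ → ℂ} (h : IsEpstein L Z)
    (h' : IsEpstein L Z') {s : ℂ} (hs : s ≠ 3) : Z s = Z' s := by
  have hc : IsPreconnected ({3}ᶜ : Set ℂ) :=
    (isConnected_compl_singleton_of_one_lt_rank (by rw [Complex.rank_real_complex]; norm_num)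
      (3:ℂ)).isPreconnected
  have h4 : (4:ℂ) ∈ ({3}ᶜ : Set ℂ) := by
    show (4:ℂ) ≠ 3
    norm_num
  refine AnalyticOnNhd.eqOn_of_preconnected_of_eventuallyEq h.1 h'.1 hc h4 ?_ hs
  have ho : {s : ℂ | 3 < s.re} ∈ 𝓝 (4:ℂ) :=
    (isOpen_lt continuous_const Complex.continuous_re).mem_nhds (by
      show (3:ℝ) < (4:ℂ).re
      norm_num)
  filter_upwards [ho] with z hz
  exact (h.2 z hz).unique (h'.2 z hz)

end Pool.Agent.U316.Ep
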