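import Pool.Agent.U316.Ep.Ana4

/-!
# The cubic lattices and the comparison
-/

set_option autoImplicit false

open Matrix MeasureTheory Set Filter Topology Pool.Agent.K1H99.FCC

namespace Pool.Agent.U316.Ep

open Pool.Agent.U316.Th (Th Bp PD_Bp qd PD_qd mm mm_pos M0 B0 B0_M0 M0_det B0_rep B0_det th_smul)

lemma mm_inv : (2:ℝ) ^ (-(1 / 3) : ℝ) = mm⁻¹ := by
  unfold mm
  rw [Real.rpow_neg (by norm_num)]

lemma fcc_lat : FCC = lat B0 := by
  have e : ∀ z : Fin 3 → ℤ, ∀ i, ∑ j, B0 i j * (z j : ℝ) =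
      mm⁻¹ * ((![z 0, z 1, 2 * z 2 - z 0 - z 1] : Fin 3 → ℤ) i : ℝ) := by
    intro z i
    unfold B0
    rw [Fin.sum_univ_three]
    fin_cases i <;> simp <;> ring
  unfold FCC lat
  rw [mm_inv]
  ext x
  constructor
  · rintro ⟨z, ⟨k, hk⟩, hz⟩
    refine ⟨![z 0, z 1, k], fun i => ?_⟩
    rw [hz, e]
    congr 2
    have h2 : z 2 = 2 * k - z 0 - z 1 := by linarith
    fin_cases i
    · rfl
    · rfl
    · exact h2
  · rintro ⟨z, hz⟩
    refine ⟨![z 0, z 1, 2 * z 2 - z 0 - z 1], ⟨z 2, ?_⟩, fun i => ?_⟩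
    · show z 0 + z 1 + (2 * z 2 - z 0 - z 1) = z 2 + z 2
      ring
    · rw [hz, e]

lemma bcc_lat : BCC = lat M0 := by
  have e : ∀ z : Fin 3 → ℤ, ∀ i, ∑ j, M0 i j * (z j : ℝ) =
      mm * ((![(z 0:ℝ) + z 2 / 2, z 1 + z 2 / 2, z 2 / 2] : Fin 3 → ℝ) i) := by
    intro z i
    unfold M0
    rw [Fin.sum_univ_three]
    fin_cases i <;> simp [mm] <;> ring
  unfold BCC lat
  have e2 : (2:ℝ) ^ (1 / 3 : ℝ) = mm := rfl
  rw [e2]
  ext x
  constructor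
  · rintro ⟨z, hz | hz⟩
    · refine ⟨![z 0 - z 2, z 1 - z 2, 2 * z 2], fun i => ?_⟩
      rw [hz, e]
      congr 1
      fin_cases i <;> simp
    · refine ⟨![z 0 - z 2, z 1 - z 2, 2 * z 2 + 1], fun i => ?_⟩
      rw [hz, e]
      congr 1
      fin_cases i <;> simp <;> ring
  · rintro ⟨z, hz⟩
    rcases Int.even_or_odd' (z 2) with ⟨k, hk | hk⟩
    · refine ⟨![z 0 + k, z 1 + k, k], Or.inl fun i => ?_⟩
      rw [hz, e]
      congr 1
      have h2 : ((z 2 : ℤ) : ℝ) = 2 * k := by rw [hk]; push_cast; ring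
      rw [h2]
      fin_cases i <;> simp
    · refine ⟨![z 0 + k, z 1 + k, k], Or.inr fun i => ?_⟩
      rw [hz, e]
      congr 1
      have h2 : ((z 2 : ℤ) : ℝ) = 2 * k + 1 := by rw [hk]; push_cast; ring
      rw [h2]
      fin_cases i <;> simp <;> ring

/-- an obtuse basis of the body-centred cubic lattice -/
def UB : Matrix (Fin 3) (Fin 3) ℤ := !![-1, 0, 1; 0, -1, 1; 1, 1, -1]

lemma UBu : IsUnit UB.det := by decide

lemma M0_rep : Rep M0 ((mm ^ 2 / 4) • Bp) := by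
  refine ⟨UB, UBu, ?_⟩
  have e : M0 * rm UB = mm • !![(-1 / 2 : ℝ), 1 / 2, 1 / 2; 1 / 2, -1 / 2, 1 / 2; 1 / 2, 1 / 2, -1 / 2] := by
    unfold M0 UB rm
    change (mm • !![(1:ℝ), 0, 1 / 2; 0, 1, 1 / 2; 0, 0, 1 / 2]) * _ = _
    rw [Matrix.smul_mul]
    congr 1
    ext i j
    fin_cases i <;> fin_cases j <;> simp [Matrix.mul_apply, Fin.sum_univ_three] <;> norm_num
  rw [e, Matrix.transpose_smul, Matrix.smul_mul, Matrix.mul_smul, smul_smul]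
  unfold Qm Bp
  ext i j
  fin_cases i <;> fin_cases j <;> simp [Matrix.mul_apply, Fin.sum_univ_three] <;> ring

lemma M0_B0 : M0ᵀ * B0 = 1 := by
  have := congrArg Matrix.transpose B0_M0
  rwa [Matrix.transpose_mul, Matrix.transpose_transpose, Matrix.transpose_one] at this

lemma dual_of {A : Matrix (Fin 3) (Fin 3) ℝ} (hA : |A.det| = 1) :
    ∃ B : Matrix (Fin 3) (Fin 3) ℝ, Bᵀ * A = 1 ∧ A.det ^ 2 = 1 ∧ A.det ≠ 0 := by
  have hA0 : A.det ≠ 0 := by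
    intro h
    rw [h, abs_zero] at hA
    exact zero_ne_one hA
  refine ⟨(A⁻¹)ᵀ, ?_, by rw [← sq_abs, hA, one_pow], hA0⟩
  rw [Matrix.transpose_transpose, Matrix.nonsing_inv_mul _ (isUnit_iff_ne_zero.2 hA0)]

lemma rep_PD {A : Matrix (Fin 3) (Fin 3) ℝ} (hA : A.det ≠ 0) {p : Fin 6 → ℝ} (h : Rep A p) :
    PD p := (rep_energy hA h).1

lemma exists_rep {A : Matrix (Fin 3) (Fin 3) ℝ} (hA : A.det ≠ 0) : ∃ p, Rep A p := by
  obtain ⟨s1, d1, s2, d2, s3, d3, h, _⟩ := exists_reduced A hA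
  exact ⟨_, h⟩

lemma cov_lat {A : Matrix (Fin 3) (Fin 3) ℝ} (hA : |A.det| = 1) : CovOne (lat A) := ⟨A, hA, rfl⟩

lemma B0_abs : |B0.det| = 1 := by
  have h := B0_det
  rw [← sq_abs] at h
  exact (pow_eq_one_iff_of_nonneg (abs_nonneg _) two_ne_zero).1 h

lemma cov_FCC : CovOne FCC := by
  rw [fcc_lat]
  exact cov_lat B0_abs

lemma cov_BCC : CovOne BCC := by
  rw [bcc_lat]
  exact cov_lat (by rw [M0_det, abs_one])

/-- every lattice of covolume one has an Epstein zeta function -/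
theorem exists_epstein {L : Set (EuclideanSpace ℝ (Fin 3))} (hL : CovOne L) :
    ∃ Z, IsEpstein L Z := by
  obtain ⟨A, hA, rfl⟩ := hL
  obtain ⟨B, hBA, hd, h0⟩ := dual_of hA
  obtain ⟨p, hp⟩ := exists_rep h0
  exact ⟨_, zf_isEpstein hBA hd hp (rep_PD h0 hp)⟩

/-- the values on the real axis -/
lemma val_real {L : Set (EuclideanSpace ℝ (Fin 3))} {Z : ℂ → ℂ} (hZ : IsEpstein L Z)
    {A B : Matrix (Fin 3) (Fin 3) ℝ} (hL : L = lat A) (hBA : Bᵀ * A = 1) (hA : A.det ^ 2 = 1)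
    {p : Fin 6 → ℝ} (h : Rep A p) (hp : PD p) {s : ℝ} (hs : 0 < s) (h3 : s ≠ 3) :
    Z s = ((gam s * (L0 p (s / 2) - 1 / (s / 2) - 1 / (3 / 2 - s / 2)) : ℝ) : ℂ) := by
  rw [← zf_real hp hs]
  rw [hL] at hZ
  refine epstein_unique hZ (zf_isEpstein hBA hA h hp) ?_
  intro h'
  apply h3
  have : (s:ℂ) = ((3:ℝ):ℂ) := by rw [h']; norm_num
  exact Complex.ofReal_injective this

lemma val_F {Z : ℂ → ℂ} (hZ : IsEpstein FCC Z) {s : ℝ} (hs : 0 < s) (h3 : s ≠ 3) :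
    Z s = ((gam s * (L0 Fp (s / 2) - 1 / (s / 2) - 1 / (3 / 2 - s / 2)) : ℝ) : ℂ) := by
  have hc : 0 < mm⁻¹ ^ 2 := by have := mm_pos; positivity
  have h0 : B0.det ≠ 0 := by
    intro h
    have := B0_det
    rw [h] at this
    norm_num at this
  rw [val_real hZ fcc_lat M0_B0 B0_det B0_rep (rep_PD h0 B0_rep) hs h3, l0_smul hc PD_Fp]

lemma val_B {Z : ℂ → ℂ} (hZ : IsEpstein BCC Z) {s : ℝ} (hs : 0 < s) (h3 : s ≠ 3) :
    Z s = ((gam s * (L0 Bp (s / 2) - 1 / (s / 2) - 1 / (3 / 2 - s / 2)) : ℝ) : ℂ) := by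
  have hc : 0 < mm ^ 2 / 4 := by have := mm_pos; positivity
  have h0 : M0.det ≠ 0 := by rw [M0_det]; exact one_ne_zero
  rw [val_real hZ bcc_lat B0_M0 (by rw [M0_det, one_pow]) M0_rep (rep_PD h0 M0_rep) hs h3,
    l0_smul hc PD_Bp]

/-- **The comparison**: the face-centred cubic lattice is optimal for `3 / 2 ≤ s`, the body-centred cubic lattice
is optimal for `0 < s ≤ 3 / 2`. -/
theorem epstein_main {L : Set (EuclideanSpace ℝ (Fin 3))} (hL : CovOne L) {Z ZF ZB : ℂ → ℂ}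
    (hZ : IsEpstein L Z) (hF : IsEpstein FCC ZF) (hB : IsEpstein BCC ZB) {s : ℝ} (hs : 0 < s)
    (h3 : s ≠ 3) : (Z s).im = 0 ∧ (ZF s).im = 0 ∧ (ZB s).im = 0 ∧
      (3 / 2 ≤ s → (ZF s).re ≤ (Z s).re) ∧ (s ≤ 3 / 2 → (ZB s).re ≤ (Z s).re) := by
  obtain ⟨A, hA, hL⟩ := hL
  obtain ⟨B, hBA, hd, h0⟩ := dual_of hA
  obtain ⟨p, hp⟩ := exists_rep h0
  have hPD := rep_PD h0 hp
  have hg := gam_pos hs
  rw [val_real hZ hL hBA hd hp hPD hs h3, val_F hF hs h3, val_B hB hs h3]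
  refine ⟨Complex.ofReal_im _, Complex.ofReal_im _, Complex.ofReal_im _, fun h => ?_, fun h => ?_⟩
  · rw [Complex.ofReal_re, Complex.ofReal_re]
    have h1 := l0_F hPD (r := s / 2) (by linarith)
    exact mul_le_mul_of_nonneg_left (by linarith) hg.le
  · rw [Complex.ofReal_re, Complex.ofReal_re]
    have h1 := l0_B hPD (r := s / 2) (by linarith)
    exact mul_le_mul_of_nonneg_left (by linarith) hg.le

end Pool.Agent.U316.Ep
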