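import Pool.Agent.U316.Ep.Ana5

/-!
# Uniqueness of the minimiser
-/

set_option autoImplicit false

open Matrix MeasureTheory Set Filter Topology Pool.Agent.K1H99.FCC

namespace Pool.Agent.U316.Ep

open Pool.Agent.U316.Th (Th Sg Bp PD_Bp qd PD_qd mm mm_pos M0 B0 B0_M0 M0_det B0_rep B0_det th_smul
  mm_inv_cube U0 U0u B0_U0 C_gram theta_rep)

/-- strict inequality -/
theorem l0_F_strict {p : Fin 6 → ℝ} (hp : PD p) (hD : ∀ t : ℝ, 1 < t → Th t Fp < Th t p) {r : ℝ}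
    (hr : 3 / 4 < r) : L0 Fp r < L0 p r := by
  have hF := fin_all hp (r - 3 / 4) (by linarith)
  have e : -(r - 3 / 4) - 1 / 4 = 1 / 2 - r := by ring
  rw [e] at hF
  have i1 := int_pow hp (r - 1)
  have i2 := int_pow (PD_qd hp) (1 / 2 - r)
  have i3 := int_pow PD_Fp (r - 1)
  have i4 := int_pow PD_Bp (1 / 2 - r)
  have i5 := int_pow hp (1 / 2 - r)
  have i6 := int_pow PD_Fp (1 / 2 - r)
  have j1 : IntegrableOn (fun t : ℝ => Sf t p * t ^ (1 / 2 - r)) (Ioi 1) := by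
    refine (((i5.sub i6).add i2).sub i4).congr_fun (fun t _ => ?_) measurableSet_Ioi
    simp only [Pi.add_apply, Pi.sub_apply]
    unfold Sf
    ring
  have j2 : IntegrableOn (fun t : ℝ => (Th t p - Th t Fp) * (t ^ (r - 1) - t ^ (1 / 2 - r)))
      (Ioi 1) := by
    refine ((i1.sub i3).sub (i5.sub i6)).congr_fun (fun t _ => ?_) measurableSet_Ioi
    simp only [Pi.sub_apply]
    ring
  have e1 : L0 p r - L0 Fp r = (∫ t in Ioi (1:ℝ), Sf t p * t ^ (1 / 2 - r)) +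
      ∫ t in Ioi (1:ℝ), (Th t p - Th t Fp) * (t ^ (r - 1) - t ^ (1 / 2 - r)) := by
    have a1 : ∫ t in Ioi (1:ℝ), (Th t p * t ^ (r - 1) +
      Th t (qd p) * t ^ (1 / 2 - r) - (Th t Fp * t ^ (r - 1) + Th t Bp * t ^ (1 / 2 - r))) =
      (∫ t in Ioi (1:ℝ), (Th t p * t ^ (r - 1) + Th t (qd p) * t ^ (1 / 2 - r))) -
      ∫ t in Ioi (1:ℝ), (Th t Fp * t ^ (r - 1) + Th t Bp * t ^ (1 / 2 - r)) :=
      integral_sub (i1.add i2) (i3.add i4)
    have a2 : ∫ t in Ioi (1:ℝ), (Th t p * t ^ (r - 1) + Th t (qd p) * t ^ (1 / 2 - r)) =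
      (∫ t in Ioi (1:ℝ), Th t p * t ^ (r - 1)) + ∫ t in Ioi (1:ℝ), Th t (qd p) * t ^ (1 / 2 - r) :=
      integral_add i1 i2
    have a3 : ∫ t in Ioi (1:ℝ), (Th t Fp * t ^ (r - 1) + Th t Bp * t ^ (1 / 2 - r)) =
      (∫ t in Ioi (1:ℝ), Th t Fp * t ^ (r - 1)) + ∫ t in Ioi (1:ℝ), Th t Bp * t ^ (1 / 2 - r) :=
      integral_add i3 i4
    have a4 : (∫ t in Ioi (1:ℝ), Sf t p * t ^ (1 / 2 - r)) +
      ∫ t in Ioi (1:ℝ), (Th t p - Th t Fp) * (t ^ (r - 1) - t ^ (1 / 2 - r)) =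
      ∫ t in Ioi (1:ℝ), (Sf t p * t ^ (1 / 2 - r) +
        (Th t p - Th t Fp) * (t ^ (r - 1) - t ^ (1 / 2 - r))) := (integral_add j1 j2).symm
    rw [a4]
    have a5 : ∫ t in Ioi (1:ℝ), (Sf t p * t ^ (1 / 2 - r) +
        (Th t p - Th t Fp) * (t ^ (r - 1) - t ^ (1 / 2 - r))) =
        ∫ t in Ioi (1:ℝ), (Th t p * t ^ (r - 1) +
      Th t (qd p) * t ^ (1 / 2 - r) - (Th t Fp * t ^ (r - 1) + Th t Bp * t ^ (1 / 2 - r))) := by
      refine setIntegral_congr_fun measurableSet_Ioi fun t _ => ?_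
      show Sf t p * t ^ (1 / 2 - r) + (Th t p - Th t Fp) * (t ^ (r - 1) - t ^ (1 / 2 - r)) =
        Th t p * t ^ (r - 1) + Th t (qd p) * t ^ (1 / 2 - r) -
          (Th t Fp * t ^ (r - 1) + Th t Bp * t ^ (1 / 2 - r))
      unfold Sf
      ring
    rw [a5, a1, a2, a3]
    unfold L0
    rw [qd_Fp]
  have hpos : ∀ t : ℝ, 1 < t → 0 < (Th t p - Th t Fp) * (t ^ (r - 1) - t ^ (1 / 2 - r)) := by
    intro t ht
    have h2 : t ^ (1 / 2 - r) < t ^ (r - 1) := Real.rpow_lt_rpow_of_exponent_lt ht (by linarith)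
    exact mul_pos (sub_pos.2 (hD t ht)) (sub_pos.2 h2)
  have h2 : 0 < ∫ t in Ioi (1:ℝ), (Th t p - Th t Fp) * (t ^ (r - 1) - t ^ (1 / 2 - r)) := by
    rw [setIntegral_pos_iff_support_of_nonneg_ae ?_ j2]
    · have e2 : Function.support (fun t : ℝ => (Th t p - Th t Fp) * (t ^ (r - 1) - t ^ (1 / 2 - r))) ∩
          Ioi 1 = Ioi 1 := by
        refine inter_eq_right.2 fun t ht => ?_
        exact (hpos t ht).ne'
      rw [e2, Real.volume_Ioi]
      exact ENNReal.zero_lt_top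
    · filter_upwards [ae_restrict_mem measurableSet_Ioi] with t ht
      exact (hpos t ht).le
  linarith

/-- the isometric copies of a set -/
def img (R : Matrix (Fin 3) (Fin 3) ℝ) (S : Set (EuclideanSpace ℝ (Fin 3))) :
    Set (EuclideanSpace ℝ (Fin 3)) :=
  {x | ∃ y ∈ S, ∀ i, x i = ∑ j, R i j * y j}

lemma lat_iff {A : Matrix (Fin 3) (Fin 3) ℝ} {x : EuclideanSpace ℝ (Fin 3)} :
    x ∈ lat A ↔ ∃ z : Fin 3 → ℤ, ∀ i, x i = A.mulVec (rv z) i := Iff.rfl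

lemma lat_mul {R N : Matrix (Fin 3) (Fin 3) ℝ} {W : Matrix (Fin 3) (Fin 3) ℤ}
    (hW : IsUnit W.det) : lat (R * N * rm W) = img R (lat N) := by
  ext x
  constructor
  · rintro ⟨z, hz⟩
    refine ⟨WithLp.toLp 2 (N.mulVec (rv (W.mulVec z))), ⟨W.mulVec z, fun i => rfl⟩, fun i => ?_⟩
    have h : x i = (R * N * rm W).mulVec (rv z) i := hz i
    rw [h, ← Matrix.mulVec_mulVec, ← Matrix.mulVec_mulVec, ← rv_mulVec]
    rfl
  · rintro ⟨y, ⟨z, hz⟩, hy⟩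
    refine ⟨W⁻¹.mulVec z, fun i => ?_⟩
    show x i = (R * N * rm W).mulVec (rv (W⁻¹.mulVec z)) i
    rw [← Matrix.mulVec_mulVec, ← rv_mulVec, Matrix.mulVec_mulVec, Matrix.mul_nonsing_inv _ hW,
      Matrix.one_mulVec, ← Matrix.mulVec_mulVec, hy]
    have : (y : Fin 3 → ℝ) = N.mulVec (rv z) := funext hz
    show ∑ j, R i j * y j = ∑ j, R i j * N.mulVec (rv z) j
    exact Finset.sum_congr rfl fun j _ => by rw [hz j]; rfl

/-- a lattice whose form is the face-centred cubic one is isometric to it -/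
lemma fcc_of {A : Matrix (Fin 3) (Fin 3) ℝ} {U : Matrix (Fin 3) (Fin 3) ℤ} (hU : IsUnit U.det)
    (e : (A * rm U)ᵀ * (A * rm U) = Qm (mm⁻¹ ^ 2 • Fp)) :
    ∃ R : Matrix (Fin 3) (Fin 3) ℝ, Rᵀ * R = 1 ∧ lat A = img R FCC := by
  have h0 := mm_pos
  set C : Matrix (Fin 3) (Fin 3) ℝ := mm⁻¹ • Cm with hC
  have hCd : C.det ≠ 0 := by
    rw [hC, Matrix.det_smul, Cm_det]
    have : mm⁻¹ ≠ 0 := inv_ne_zero h0.ne'
    exact mul_ne_zero (pow_ne_zero _ this) (by norm_num)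
  have hCu : IsUnit C.det := isUnit_iff_ne_zero.2 hCd
  set A1 := A * rm U with hA1
  have hg : A1ᵀ * A1 = Cᵀ * C := by rw [e, hC, C_gram]
  set R := A1 * C⁻¹ with hR
  have hRR : Rᵀ * R = 1 := by
    rw [hR, Matrix.transpose_mul, Matrix.mul_assoc, ← Matrix.mul_assoc A1ᵀ, hg,
      Matrix.mul_assoc Cᵀ, Matrix.mul_nonsing_inv _ hCu, Matrix.mul_one, ← Matrix.transpose_mul,
      Matrix.mul_nonsing_inv _ hCu, Matrix.transpose_one]
  have hRC : R * C = A1 := by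
    rw [hR, Matrix.mul_assoc, Matrix.nonsing_inv_mul _ hCu, Matrix.mul_one]
  have hA : A = R * B0 * rm (U0 * U⁻¹) := by
    have h1 : R * B0 * rm (U0 * U⁻¹) = A * rm (U * U⁻¹) := by
      rw [rm_mul, rm_mul, ← Matrix.mul_assoc, Matrix.mul_assoc R, B0_U0, ← hC, hRC, hA1,
        Matrix.mul_assoc]
    rw [h1, Matrix.mul_nonsing_inv _ hU]
    have : rm 1 = 1 := by
      unfold rm
      exact Matrix.map_one _ Int.cast_zero Int.cast_one
    rw [this, Matrix.mul_one]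
  refine ⟨R, hRR, ?_⟩
  rw [fcc_lat, ← lat_mul (W := U0 * U⁻¹) ?_, ← hA]
  rw [Matrix.det_mul]
  exact U0u.mul ((Matrix.isUnit_nonsing_inv_det_iff).2 hU)

/-- either all theta values are strictly larger, or the lattice is face-centred cubic -/
theorem fcc_dich {A : Matrix (Fin 3) (Fin 3) ℝ} (hA : |A.det| = 1) :
    ∃ p, Rep A p ∧ ((∀ t : ℝ, 1 < t → Th t Fp < Th t p) ∨
      ∃ R : Matrix (Fin 3) (Fin 3) ℝ, Rᵀ * R = 1 ∧ lat A = img R FCC) := by
  obtain ⟨B, hBA, hd, h0⟩ := dual_of hA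
  obtain ⟨s1, d1, s2, d2, s3, d3, hrep, c1, c2, c3, c4, c5, c6, c7, c8⟩ := exists_reduced A h0
  have hPD : PD (sd s1 d1 s2 d2 s3 d3) := rep_PD h0 hrep
  refine ⟨_, hrep, ?_⟩
  have hQ : ∀ t : ℝ, 1 < t → Sg t (sd s1 d1 s2 d2 s3 d3) := fun t ht =>
    Th.cone_all c1 c2 c7 c8 c3 c4 c5 c6 hPD t (by unfold Th.lv; exact ht.le) ht
  by_cases hc : ∃ c : ℝ, 0 < c ∧ sd s1 d1 s2 d2 s3 d3 = c • Fp
  · right
    obtain ⟨c, hc, hpc⟩ := hc
    obtain ⟨_, hdt, _⟩ := theta_rep hBA hd hrep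
    have ht3 : c ^ 3 * 4 = 1 := by
      have h := hdt
      rw [hpc, dt_smul] at h
      have hFd : dt Fp = 4 := by
        rw [← det_sq Cm_gram, Cm_det]
        norm_num
      rwa [hFd] at h
    have hm := mm_inv_cube
    have htm : c = mm⁻¹ ^ 2 := by
      refine (pow_left_inj₀ hc.le (by have := mm_pos; positivity) (three_ne_zero)).1 ?_
      linarith
    obtain ⟨U, hU, e⟩ := hrep
    rw [hpc, htm] at e
    exact fcc_of hU e
  · left
    intro t ht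
    rcases hQ t ht with h | ⟨c, hc', h⟩
    · exact h
    · exact absurd ⟨c, hc', h⟩ hc

/-- the Dirichlet series at a real point -/
lemma real_sum {L : Set (EuclideanSpace ℝ (Fin 3))} {A B : Matrix (Fin 3) (Fin 3) ℝ}
    (hL : L = lat A) (hBA : Bᵀ * A = 1) (hA : A.det ^ 2 = 1) {p : Fin 6 → ℝ} (h : Rep A p)
    (hp : PD p) {s : ℝ} (hs : 3 / 2 < s) :
    HasSum (fun x : {x : EuclideanSpace ℝ (Fin 3) // x ∈ L ∧ x ≠ 0} => ‖x.1‖ ^ (-(2 * s)))
      (gam (2 * s) * (L0 p s - 1 / s - 1 / (3 / 2 - s))) := by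
  subst hL
  have h1 := zf_isEpstein hBA hA h hp
  have h2 := h1.2 ((2 * s : ℝ) : ℂ) (by rw [Complex.ofReal_re]; linarith)
  rw [zf_real hp (by linarith : 0 < 2 * s)] at h2
  have e1 : 2 * s / 2 = s := by ring
  rw [e1] at h2
  rw [← Complex.hasSum_ofReal]
  refine Eq.subst (motive := fun g => HasSum g
    ((gam (2 * s) * (L0 p s - 1 / s - 1 / (3 / 2 - s)) : ℝ) : ℂ)) ?_ h2
  funext x
  rw [← Complex.ofReal_neg, ← Complex.ofReal_cpow (norm_nonneg _)]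

/-- **The face-centred cubic lattice is the unique minimiser for `3 / 2 < s`.** -/
theorem fcc_min {L : Set (EuclideanSpace ℝ (Fin 3))} (hL : CovOne L) {s : ℝ} (hs : 3 / 2 < s) :
    (Summable fun x : {x : EuclideanSpace ℝ (Fin 3) // x ∈ L ∧ x ≠ 0} => ‖x.1‖ ^ (-(2 * s))) ∧
    (∑' x : {x : EuclideanSpace ℝ (Fin 3) // x ∈ FCC ∧ x ≠ 0}, ‖x.1‖ ^ (-(2 * s)) ≤
      ∑' x : {x : EuclideanSpace ℝ (Fin 3) // x ∈ L ∧ x ≠ 0}, ‖x.1‖ ^ (-(2 * s))) ∧
    (∑' x : {x : EuclideanSpace ℝ (Fin 3) // x ∈ FCC ∧ x ≠ 0}, ‖x.1‖ ^ (-(2 * s)) =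
      ∑' x : {x : EuclideanSpace ℝ (Fin 3) // x ∈ L ∧ x ≠ 0}, ‖x.1‖ ^ (-(2 * s)) ↔
      ∃ R : Matrix (Fin 3) (Fin 3) ℝ, Rᵀ * R = 1 ∧ L = {x | ∃ y ∈ FCC, ∀ i, x i = ∑ j, R i j * y j}) := by
  obtain ⟨A, hA, hL⟩ := hL
  obtain ⟨B, hBA, hd, h0⟩ := dual_of hA
  obtain ⟨p, hp, hdich⟩ := fcc_dich hA
  have hPD := rep_PD h0 hp
  have hg := gam_pos (s := 2 * s) (by linarith)
  have hc : 0 < mm⁻¹ ^ 2 := by have := mm_pos; positivity
  have hb0 : B0.det ≠ 0 := by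
    intro h
    have := B0_det
    rw [h] at this
    norm_num at this
  have s1 := real_sum hL hBA hd hp hPD hs
  have s2 := real_sum fcc_lat M0_B0 B0_det B0_rep (rep_PD hb0 B0_rep) hs
  rw [l0_smul hc PD_Fp] at s2
  have hle := l0_F hPD (r := s) (by linarith)
  refine ⟨s1.summable, ?_, ?_⟩
  · rw [s1.tsum_eq, s2.tsum_eq]
    exact mul_le_mul_of_nonneg_left (by linarith) hg.le
  · constructor
    · intro h
      rw [s1.tsum_eq, s2.tsum_eq] at h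
      have h' := mul_left_cancel₀ hg.ne' h
      rcases hdich with hD | ⟨R, hR, hLR⟩
      · have := l0_F_strict hPD hD (r := s) (by linarith)
        exact absurd h' (by intro h''; linarith)
      · exact ⟨R, hR, by rw [hL]; exact hLR⟩
    · rintro ⟨R, hR, hLR⟩
      have e0 : (1 : Matrix (Fin 3) (Fin 3) ℤ).det = 1 := Matrix.det_one
      have h1 : L = lat (R * B0) := by
        have h2 := lat_mul (R := R) (N := B0) (W := 1) (by rw [e0]; exact isUnit_one)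
        have : rm 1 = 1 := by
          unfold rm
          exact Matrix.map_one _ Int.cast_zero Int.cast_one
        rw [this, Matrix.mul_one] at h2
        rw [h2, ← fcc_lat, hLR]
        rfl
      have hM : (R * M0)ᵀ * (R * B0) = 1 := by
        rw [Matrix.transpose_mul, Matrix.mul_assoc, ← Matrix.mul_assoc Rᵀ, hR, Matrix.one_mul,
          M0_B0]
      have hrep : Rep (R * B0) (mm⁻¹ ^ 2 • Fp) := by
        obtain ⟨U, hU, e⟩ := B0_rep
        refine ⟨U, hU, ?_⟩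
        rw [← e, Matrix.mul_assoc, Matrix.transpose_mul, Matrix.mul_assoc, ← Matrix.mul_assoc Rᵀ, hR,
          Matrix.one_mul]
      have hdet : (R * B0).det ^ 2 = 1 := by
        have h3 : R.det ^ 2 = 1 := by
          have h4 := congrArg Matrix.det hR
          rw [Matrix.det_mul, Matrix.det_transpose, Matrix.det_one] at h4
          rw [sq]
          exact h4
        rw [Matrix.det_mul, mul_pow, h3, B0_det, one_mul]
      have s3 := real_sum h1 hM hdet hrep (rep_PD hb0 B0_rep) hs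
      rw [l0_smul hc PD_Fp] at s3
      rw [s2.tsum_eq, s3.tsum_eq]

end Pool.Agent.U316.Ep
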