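import Pool.Agent.U316.Ep.Sf

/-!
# The end of the range
-/

set_option autoImplicit false

open Matrix MeasureTheory Set Pool.Agent.K1H99.FCC

namespace Pool.Agent.U316.Ep

open Pool.Agent.U316.Th (Th Sg Bp PD_Bp qd PD_qd mm mm_pos th_smul th_pos RF RB rf_conv rb_conv)

/-- a function which is large first and slightly negative later -/
lemma weight_int {g : ℝ → ℝ} {a A B b c T : ℝ} (ha : a ≤ 0) (hT : 1 < T) (hA : 0 ≤ A)
    (hB : 0 ≤ B) (hc : 0 < c) (hb : 0 < b)
    (h1 : ∀ t, 1 < t → t < T → A * Real.exp (-c * t) ≤ g t)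
    (h2 : ∀ t, T ≤ t → -(B * Real.exp (-b * t)) ≤ g t)
    (h3 : B * (Real.exp (-b * T) / b) ≤ A * ((Real.exp (-c * 1) - Real.exp (-c * T)) / c)) :
    0 ≤ ∫ t in Ioi (1:ℝ), g t * t ^ a := by
  by_cases hi : IntegrableOn (fun t : ℝ => g t * t ^ a) (Ioi 1)
  swap
  · rw [integral_undef hi]
  have hT0 : 0 < T := by linarith
  have hU : Ioo 1 T ∪ Ici T = Ioi (1:ℝ) := Ioo_union_Ici_eq_Ioi hT
  have hD : Disjoint (Ioo 1 T) (Ici T) := by
    rw [Set.disjoint_left]
    intro x hx hx'
    exact absurd hx.2 (not_lt.2 hx')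
  have hi1 : IntegrableOn (fun t : ℝ => g t * t ^ a) (Ioo 1 T) := by
    refine hi.mono_set ?_
    rw [← hU]
    exact subset_union_left
  have hi2 : IntegrableOn (fun t : ℝ => g t * t ^ a) (Ici T) := by
    refine hi.mono_set ?_
    rw [← hU]
    exact subset_union_right
  rw [← hU, setIntegral_union hD measurableSet_Ici hi1 hi2]
  set κ : ℝ := T ^ a with hκ
  have hκ0 : 0 < κ := Real.rpow_pos_of_pos hT0 _
  have e1 : IntegrableOn (fun t : ℝ => Real.exp (-c * t)) (Ioi 1) :=
    integrableOn_exp_mul_Ioi (by linarith) 1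
  have e2 : IntegrableOn (fun t : ℝ => Real.exp (-b * t)) (Ici T) := by
    rw [integrableOn_Ici_iff_integrableOn_Ioi]
    exact integrableOn_exp_mul_Ioi (by linarith) T
  have e3 : IntegrableOn (fun t : ℝ => Real.exp (-c * t)) (Ioo 1 T) := by
    refine e1.mono_set ?_
    rw [← hU]
    exact subset_union_left
  have e4 : IntegrableOn (fun t : ℝ => Real.exp (-c * t)) (Ici T) := by
    refine e1.mono_set ?_
    rw [← hU]
    exact subset_union_right
  have v1 : ∫ t in Ioo 1 T, Real.exp (-c * t) = (Real.exp (-c * 1) - Real.exp (-c * T)) / c := by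
    have h := setIntegral_union hD measurableSet_Ici e3 e4
    rw [hU, integral_Ici_eq_integral_Ioi, integral_exp_mul_Ioi (by linarith),
      integral_exp_mul_Ioi (by linarith)] at h
    have : -Real.exp (-c * 1) / -c = Real.exp (-c * 1) / c := by rw [neg_div_neg_eq]
    rw [this] at h
    have : -Real.exp (-c * T) / -c = Real.exp (-c * T) / c := by rw [neg_div_neg_eq]
    rw [this] at h
    rw [sub_div]
    linarith
  have v2 : ∫ t in Ici T, Real.exp (-b * t) = Real.exp (-b * T) / b := by
    rw [integral_Ici_eq_integral_Ioi, integral_exp_mul_Ioi (by linarith), neg_div_neg_eq]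
  have f1 : κ * A * ((Real.exp (-c * 1) - Real.exp (-c * T)) / c) ≤
      ∫ t in Ioo 1 T, g t * t ^ a := by
    rw [← v1, ← integral_const_mul]
    refine setIntegral_mono_on (e3.const_mul _) hi1 measurableSet_Ioo fun t ht => ?_
    obtain ⟨t1, t2⟩ := ht
    have ht0 : 0 < t := by linarith
    have k1 : κ ≤ t ^ a := Real.rpow_le_rpow_of_nonpos ht0 t2.le ha
    have k2 : 0 ≤ A * Real.exp (-c * t) := mul_nonneg hA (Real.exp_pos _).le
    calc κ * A * Real.exp (-c * t) = A * Real.exp (-c * t) * κ := by ring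
      _ ≤ A * Real.exp (-c * t) * t ^ a := mul_le_mul_of_nonneg_left k1 k2
      _ ≤ g t * t ^ a := mul_le_mul_of_nonneg_right (h1 t t1 t2) (Real.rpow_nonneg ht0.le _)
  have f2 : -(κ * B * (Real.exp (-b * T) / b)) ≤ ∫ t in Ici T, g t * t ^ a := by
    rw [← v2, ← integral_const_mul, ← integral_neg]
    refine setIntegral_mono_on (e2.const_mul _).neg hi2 measurableSet_Ici fun t ht => ?_
    have ht : T ≤ t := ht
    have ht0 : 0 < t := by linarith
    have k1 : t ^ a ≤ κ := Real.rpow_le_rpow_of_nonpos hT0 ht ha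
    have k2 : 0 ≤ B * Real.exp (-b * t) := mul_nonneg hB (Real.exp_pos _).le
    have k3 : B * Real.exp (-b * t) * t ^ a ≤ B * Real.exp (-b * t) * κ :=
      mul_le_mul_of_nonneg_left k1 k2
    have k4 := mul_le_mul_of_nonneg_right (h2 t ht) (Real.rpow_nonneg ht0.le a)
    calc -(κ * B * Real.exp (-b * t)) = -(B * Real.exp (-b * t) * κ) := by ring
      _ ≤ -(B * Real.exp (-b * t) * t ^ a) := by linarith
      _ = -(B * Real.exp (-b * t)) * t ^ a := by ring
      _ ≤ g t * t ^ a := k4
  have f3 := mul_le_mul_of_nonneg_left h3 hκ0.le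
  linarith

/-- the trivial lower bound for the pair sum -/
lemma sf_ge {p : Fin 6 → ℝ} (hp : PD p) {t : ℝ} (ht : 1 < t) : -Th t Bp ≤ Sf t p := by
  have h1 := th_ge_F hp ht
  have h2 := th_pos (PD_qd hp) (β := t) (by linarith)
  unfold Sf
  linarith

lemma e29 : Real.exp (Real.pi * (5 / 2) * mm) ≥ 19800 := by
  obtain ⟨m1, m2⟩ := mm_b
  norm_num at m1 m2
  have h : (989539 : ℝ) / 10 ^ 5 ≤ Real.pi * (5 / 2) * mm :=
    pi_mul_ge (by norm_num) (by linarith) (by norm_num; linarith)
  refine le_trans ?_ (Real.exp_le_exp.2 h)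
  exact exp_lb (s := 185606 / 10 ^ 5) (by norm_num) (by norm_num)
    (by norm_num [Finset.sum_range_succ, Nat.factorial]) (by norm_num)

/-- the last step -/
theorem end_fin {p : Fin 6 → ℝ} (hp : PD p) (h : Rp 9 p) : FinP p := by
  intro σ hσ
  have hm := mm_pos
  have hpi := Real.pi_pos
  obtain ⟨m1, m2⟩ := mm_b
  obtain ⟨m3, m4⟩ := mB_b
  norm_num at m1 m2 m3 m4
  have hmB : 0 < mB := by linarith
  have hR := rbb9
  have hTB : 0 < Th (7 / 2) Bp := th_pos PD_Bp (by norm_num)
  refine weight_int (T := 7 / 2) (A := 1 / 1000) (B := Real.exp (Real.pi * (7 / 2) * mB) *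
    Th (7 / 2) Bp) (c := Real.pi * mm) (b := Real.pi * mB)
    (by linarith) (by norm_num) (by norm_num) (by positivity) (by positivity) (by positivity)
    (fun t t1 t2 => ?_) (fun t ht => ?_) ?_
  · refine le_trans (le_of_eq ?_) (h t t1 t2)
    congr 2
    ring
  · refine le_trans ?_ (sf_ge hp (by linarith))
    have h1 := thB_decay (a := 7 / 2) (t := t) (by norm_num) ht
    have e : Real.exp (Real.pi * (7 / 2) * mB) * Th (7 / 2) Bp * Real.exp (-(Real.pi * mB) * t) =
        Real.exp (-(Real.pi * (t - 7 / 2) * mB)) * Th (7 / 2) Bp := by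
      have : Real.exp (-(Real.pi * (t - 7 / 2) * mB)) =
          Real.exp (Real.pi * (7 / 2) * mB) * Real.exp (-(Real.pi * mB) * t) := by
        rw [← Real.exp_add]
        congr 1
        ring
      rw [this]
      ring
    rw [e]
    linarith
  · -- the numerical condition
    have e1 : Real.exp (Real.pi * (7 / 2) * mB) * Th (7 / 2) Bp *
        (Real.exp (-(Real.pi * mB) * (7 / 2)) / (Real.pi * mB)) =
        Th (7 / 2) Bp / (Real.pi * mB) := by
      have : Real.exp (Real.pi * (7 / 2) * mB) * Real.exp (-(Real.pi * mB) * (7 / 2)) = 1 := by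
        rw [← Real.exp_add, ← Real.exp_zero]
        congr 1
        ring
      rw [mul_comm (Real.exp (Real.pi * (7 / 2) * mB)), mul_assoc, ← mul_div_assoc, this, ← mul_div_assoc,
        mul_one]
    rw [e1]
    have hX := e29
    set X := Real.exp (Real.pi * (5 / 2) * mm) with hXd
    set Y := Real.exp (-(Real.pi * mm) * (7 / 2)) with hY
    have hY0 : 0 < Y := Real.exp_pos _
    have e2 : Real.exp (-(Real.pi * mm) * 1) = Y * X := by
      rw [hY, hXd, ← Real.exp_add]
      congr 1
      ring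
    have e3 : Th (7 / 2) Bp = Y * RB (7 / 2) := by
      unfold RB
      rw [hY, ← mul_assoc, ← Real.exp_add]
      have : -(Real.pi * mm) * (7 / 2) + Real.pi * (7 / 2) * mm = 0 := by ring
      rw [this, Real.exp_zero, one_mul]
    rw [e2, e3]
    have e4 : 1 / 1000 * ((Y * X - Y) / (Real.pi * mm)) = Y * ((X - 1) / 1000) / (Real.pi * mm) := by
      ring
    rw [e4, div_le_div_iff₀ (by positivity) (by positivity)]
    have e5 : RB (7 / 2) * mm ≤ (X - 1) / 1000 * mB := by
      have h0 : RB (7 / 2) * mm ≤ 173176 / 10000 * (126 / 100) := by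
        refine mul_le_mul (hR.trans (by norm_num)) (by linarith) hm.le (by norm_num)
      have h1 : (19799 / 1000 : ℝ) * (119 / 100) ≤ (X - 1) / 1000 * mB := by
        refine mul_le_mul (by linarith) (by linarith) (by norm_num) (by linarith)
      linarith
    calc Y * RB (7 / 2) * (Real.pi * mm) = (Y * Real.pi) * (RB (7 / 2) * mm) := by ring
      _ ≤ (Y * Real.pi) * ((X - 1) / 1000 * mB) := mul_le_mul_of_nonneg_left e5 (by positivity)
      _ = Y * ((X - 1) / 1000) * (Real.pi * mB) := by ring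

/-- soundness of the last step -/
theorem env_E (V : List ℕ) (hg : Good (Q 9) V) : Good (Q 10) V := by
  intro l hl hp
  rcases hg l hl hp with h | ⟨_, h⟩
  · exact Or.inl h
  · exact Or.inl (end_fin hp h)

end Pool.Agent.U316.Ep
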