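import Pool.Agent.U316.Th.RF

/-!
# Bounds for the exponentials at the base points
-/

set_option autoImplicit false

open Matrix Pool.Agent.K1H99.FCC

namespace Pool.Agent.U316.Ep

open Pool.Agent.U316.Th (mm mm_bounds mm_pos mm_cube)

/-- sharper bounds for the cube root of two -/
lemma mm_b : (1259921049894873164767 : ℝ) / 10 ^ 21 ≤ mm ∧ mm ≤ 1259921049894873164768 / 10 ^ 21 := by
  have h := mm_cube
  have h0 := mm_pos
  constructor
  · by_contra hc
    push Not at hc
    have := pow_lt_pow_left₀ hc h0.le three_ne_zero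
    rw [h] at this
    norm_num at this
  · by_contra hc
    push Not at hc
    have := pow_lt_pow_left₀ hc (by norm_num) three_ne_zero
    rw [h] at this
    norm_num at this

/-- lower bound for the exponential -/
lemma exp_lb {x s E : ℝ} (hx : 0 ≤ x) (hs0 : 0 ≤ s) (hs : s ≤ ∑ i ∈ Finset.range 14, (x / 16) ^ i / (Nat.factorial i : ℝ))
    (hE : E ≤ s ^ 16) : E ≤ Real.exp x := by
  have h1 := Real.sum_le_exp_of_nonneg (x := x / 16) (by positivity) 14
  have h2 : Real.exp x = Real.exp (x / 16) ^ 16 := by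
    rw [← Real.exp_nat_mul]
    congr 1
    push_cast
    ring
  rw [h2]
  exact hE.trans (pow_le_pow_left₀ hs0 (hs.trans h1) 16)

/-- upper bound for the exponential -/
lemma exp_ub {x s E : ℝ} (hx : 0 ≤ x) (hx4 : x ≤ 16)
    (hs : (∑ i ∈ Finset.range 14, (x / 16) ^ i / (Nat.factorial i : ℝ)) +
      (x / 16) ^ 14 * ((14:ℕ) + 1) / ((Nat.factorial 14 : ℝ) * (14:ℕ)) ≤ s)
    (hE : s ^ 16 ≤ E) : Real.exp x ≤ E := by
  have h1 := Real.exp_bound' (x := x / 16) (by positivity) (by linarith) (n := 14) (by norm_num)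
  have h2 : Real.exp x = Real.exp (x / 16) ^ 16 := by
    rw [← Real.exp_nat_mul]
    congr 1
    push_cast
    ring
  rw [h2]
  exact (pow_le_pow_left₀ (Real.exp_pos _).le (h1.trans hs) 16).trans hE

lemma ex0 : (((13158850849087338658950269 : ℕ) : ℝ)) / 2 ^ 80 ≤ Real.exp (Real.pi * 1 * (mm - 1 / 2)) ∧
    Real.exp (Real.pi * 1 * (mm - 1 / 2)) ≤ ((13158850849350515675934649 : ℕ) : ℝ) / 2 ^ 80 := by
  have p1 := Real.pi_gt_d20
  have p2 := Real.pi_lt_d20
  obtain ⟨m1, m2⟩ := mm_b
  have h1 : (1259921049894873164767 / 10 ^ 21 - 1 / 2 : ℝ) ≤ mm - 1 / 2 := by linarith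
  have h2 : mm - 1 / 2 ≤ (1259921049894873164768 / 10 ^ 21 - 1 / 2 : ℝ) := by linarith
  have h3 : 0 ≤ mm - 1 / 2 := le_trans (by norm_num) h1
  push_cast
  constructor
  · refine le_trans ?_ (Real.exp_le_exp.2 (show (238736238765797 : ℝ) / 10 ^ 14 ≤ Real.pi * 1 * (mm - 1 / 2) by
      calc (238736238765797 : ℝ) / 10 ^ 14 ≤ 3.14159265358979323846 * 1 * (1259921049894873164767 / 10 ^ 21 - 1 / 2) := by
            norm_num
        _ ≤ Real.pi * 1 * (mm - 1 / 2) := by
            refine mul_le_mul (by linarith) h1 (by norm_num) (by positivity)))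
    refine exp_lb (s := 1160916929373470 / 10 ^ 15) (by norm_num) (by norm_num) ?_ ?_
    · norm_num [Finset.sum_range_succ, Nat.factorial]
    · norm_num
  · refine le_trans (Real.exp_le_exp.2 (show Real.pi * 1 * (mm - 1 / 2) ≤ (238736238765798 : ℝ) / 10 ^ 14 by
      calc Real.pi * 1 * (mm - 1 / 2) ≤ 3.14159265358979323847 * 1 *
            (1259921049894873164768 / 10 ^ 21 - 1 / 2) := by
            refine mul_le_mul (by linarith) h2 h3 (by norm_num)
        _ ≤ (238736238765798 : ℝ) / 10 ^ 14 := by norm_num)) ?_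
    refine exp_ub (s := 1160916929373476 / 10 ^ 15) (by norm_num) (by norm_num) ?_ ?_
    · norm_num [Finset.sum_range_succ, Nat.factorial]
    · norm_num

lemma er0 : ((1194180727564413015786649 : ℕ) : ℝ) / 2 ^ 80 ≤ Real.exp (-(Real.pi * 1 / 256)) ∧
    Real.exp (-(Real.pi * 1 / 256)) ≤ ((1194180727564413254622796 : ℕ) : ℝ) / 2 ^ 80 := by
  have p1 := Real.pi_gt_d20
  have p2 := Real.pi_lt_d20
  push_cast
  constructor
  · rw [Real.exp_neg, ← one_div, le_div_iff₀ (Real.exp_pos _)]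
    have h1 : Real.exp (Real.pi * 1 / 256) ≤ 2 ^ 80 / 1194180727564413015786649 := by
      refine le_trans (Real.exp_le_exp.2 (show Real.pi * 1 / 256 ≤ (122718463030851298378 : ℝ) / 10 ^ 22 by
        linarith)) ?_
      refine (Real.exp_bound' (by norm_num) (by norm_num) (n := 10) (by norm_num)).trans ?_
      norm_num [Finset.sum_range_succ, Nat.factorial]
    calc (1194180727564413015786649 : ℝ) / 2 ^ 80 * Real.exp (Real.pi * 1 / 256)
        ≤ 1194180727564413015786649 / 2 ^ 80 * (2 ^ 80 / 1194180727564413015786649) := mul_le_mul_of_nonneg_left h1 (by norm_num)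
      _ = 1 := by norm_num
  · rw [Real.exp_neg, ← one_div, div_le_iff₀ (Real.exp_pos _)]
    have h1 : (2:ℝ) ^ 80 / 1194180727564413254622796 ≤ Real.exp (Real.pi * 1 / 256) := by
      refine le_trans ?_ (Real.exp_le_exp.2 (show (122718463030851298377 : ℝ) / 10 ^ 22 ≤ Real.pi * 1 / 256 by
        linarith))
      refine le_trans ?_ (Real.sum_le_exp_of_nonneg (by norm_num) 10)
      norm_num [Finset.sum_range_succ, Nat.factorial]
    calc (1:ℝ) = 1194180727564413254622796 / 2 ^ 80 * (2 ^ 80 / 1194180727564413254622796) := by norm_num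
      _ ≤ 1194180727564413254622796 / 2 ^ 80 * Real.exp (Real.pi * 1 / 256) :=
        mul_le_mul_of_nonneg_left h1 (by norm_num)

lemma cbb0 : ((3454217652357 : ℕ) : ℝ) / 2 ^ 40 ≤ Real.pi * 1 ∧ Real.pi * 1 ≤ ((3454217652358 : ℕ) : ℝ) / 2 ^ 40 := by
  have p1 := Real.pi_gt_d20
  have p2 := Real.pi_lt_d20
  push_cast
  constructor <;> linarith

lemma three_le0 : 3 ≤ Real.pi * 1 := by
  have p1 := Real.pi_gt_d20
  linarith

lemma ex1 : (((14477404100995910703829949 : ℕ) : ℝ)) / 2 ^ 80 ≤ Real.exp (Real.pi * (26 / 25) * (mm - 1 / 2)) ∧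
    Real.exp (Real.pi * (26 / 25) * (mm - 1 / 2)) ≤ ((14477404101285458785852763 : ℕ) : ℝ) / 2 ^ 80 := by
  have p1 := Real.pi_gt_d20
  have p2 := Real.pi_lt_d20
  obtain ⟨m1, m2⟩ := mm_b
  have h1 : (1259921049894873164767 / 10 ^ 21 - 1 / 2 : ℝ) ≤ mm - 1 / 2 := by linarith
  have h2 : mm - 1 / 2 ≤ (1259921049894873164768 / 10 ^ 21 - 1 / 2 : ℝ) := by linarith
  have h3 : 0 ≤ mm - 1 / 2 := le_trans (by norm_num) h1
  push_cast
  constructor
  · refine le_trans ?_ (Real.exp_le_exp.2 (show (248285688316429 : ℝ) / 10 ^ 14 ≤ Real.pi * (26 / 25) * (mm - 1 / 2) by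
      calc (248285688316429 : ℝ) / 10 ^ 14 ≤ 3.14159265358979323846 * (26 / 25) * (1259921049894873164767 / 10 ^ 21 - 1 / 2) := by
            norm_num
        _ ≤ Real.pi * (26 / 25) * (mm - 1 / 2) := by
            refine mul_le_mul (by linarith) h1 (by norm_num) (by positivity)))
    refine exp_lb (s := 1167866471118013 / 10 ^ 15) (by norm_num) (by norm_num) ?_ ?_
    · norm_num [Finset.sum_range_succ, Nat.factorial]
    · norm_num
  · refine le_trans (Real.exp_le_exp.2 (show Real.pi * (26 / 25) * (mm - 1 / 2) ≤ (248285688316430 : ℝ) / 10 ^ 14 by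
      calc Real.pi * (26 / 25) * (mm - 1 / 2) ≤ 3.14159265358979323847 * (26 / 25) *
            (1259921049894873164768 / 10 ^ 21 - 1 / 2) := by
            refine mul_le_mul (by linarith) h2 h3 (by norm_num)
        _ ≤ (248285688316430 : ℝ) / 10 ^ 14 := by norm_num)) ?_
    refine exp_ub (s := 1167866471118018 / 10 ^ 15) (by norm_num) (by norm_num) ?_ ?_
    · norm_num [Finset.sum_range_succ, Nat.factorial]
    · norm_num

lemma er1 : ((1193594679320189236788332 : ℕ) : ℝ) / 2 ^ 80 ≤ Real.exp (-(Real.pi * (26 / 25) / 256)) ∧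
    Real.exp (-(Real.pi * (26 / 25) / 256)) ≤ ((1193594679320189475507269 : ℕ) : ℝ) / 2 ^ 80 := by
  have p1 := Real.pi_gt_d20
  have p2 := Real.pi_lt_d20
  push_cast
  constructor
  · rw [Real.exp_neg, ← one_div, le_div_iff₀ (Real.exp_pos _)]
    have h1 : Real.exp (Real.pi * (26 / 25) / 256) ≤ 2 ^ 80 / 1193594679320189236788332 := by
      refine le_trans (Real.exp_le_exp.2 (show Real.pi * (26 / 25) / 256 ≤ (127627201552085350313 : ℝ) / 10 ^ 22 by
        linarith)) ?_
      refine (Real.exp_bound' (by norm_num) (by norm_num) (n := 10) (by norm_num)).trans ?_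
      norm_num [Finset.sum_range_succ, Nat.factorial]
    calc (1193594679320189236788332 : ℝ) / 2 ^ 80 * Real.exp (Real.pi * (26 / 25) / 256)
        ≤ 1193594679320189236788332 / 2 ^ 80 * (2 ^ 80 / 1193594679320189236788332) := mul_le_mul_of_nonneg_left h1 (by norm_num)
      _ = 1 := by norm_num
  · rw [Real.exp_neg, ← one_div, div_le_iff₀ (Real.exp_pos _)]
    have h1 : (2:ℝ) ^ 80 / 1193594679320189475507269 ≤ Real.exp (Real.pi * (26 / 25) / 256) := by
      refine le_trans ?_ (Real.exp_le_exp.2 (show (127627201552085350312 : ℝ) / 10 ^ 22 ≤ Real.pi * (26 / 25) / 256 by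
        linarith))
      refine le_trans ?_ (Real.sum_le_exp_of_nonneg (by norm_num) 10)
      norm_num [Finset.sum_range_succ, Nat.factorial]
    calc (1:ℝ) = 1193594679320189475507269 / 2 ^ 80 * (2 ^ 80 / 1193594679320189475507269) := by norm_num
      _ ≤ 1193594679320189475507269 / 2 ^ 80 * Real.exp (Real.pi * (26 / 25) / 256) :=
        mul_le_mul_of_nonneg_left h1 (by norm_num)

lemma cbb1 : ((3592386358451 : ℕ) : ℝ) / 2 ^ 40 ≤ Real.pi * (26 / 25) ∧ Real.pi * (26 / 25) ≤ ((3592386358452 : ℕ) : ℝ) / 2 ^ 40 := by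
  have p1 := Real.pi_gt_d20
  have p2 := Real.pi_lt_d20
  push_cast
  constructor <;> linarith

lemma three_le1 : 3 ≤ Real.pi * (26 / 25) := by
  have p1 := Real.pi_gt_d20
  linarith

lemma ex2 : (((15928080035808761849485031 : ℕ) : ℝ)) / 2 ^ 80 ≤ Real.exp (Real.pi * (27 / 25) * (mm - 1 / 2)) ∧
    Real.exp (Real.pi * (27 / 25) * (mm - 1 / 2)) ≤ ((15928080036127323450204393 : ℕ) : ℝ) / 2 ^ 80 := by
  have p1 := Real.pi_gt_d20
  have p2 := Real.pi_lt_d20
  obtain ⟨m1, m2⟩ := mm_b
  have h1 : (1259921049894873164767 / 10 ^ 21 - 1 / 2 : ℝ) ≤ mm - 1 / 2 := by linarith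
  have h2 : mm - 1 / 2 ≤ (1259921049894873164768 / 10 ^ 21 - 1 / 2 : ℝ) := by linarith
  have h3 : 0 ≤ mm - 1 / 2 := le_trans (by norm_num) h1
  push_cast
  constructor
  · refine le_trans ?_ (Real.exp_le_exp.2 (show (257835137867061 : ℝ) / 10 ^ 14 ≤ Real.pi * (27 / 25) * (mm - 1 / 2) by
      calc (257835137867061 : ℝ) / 10 ^ 14 ≤ 3.14159265358979323846 * (27 / 25) * (1259921049894873164767 / 10 ^ 21 - 1 / 2) := by
            norm_num
        _ ≤ Real.pi * (27 / 25) * (mm - 1 / 2) := by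
            refine mul_le_mul (by linarith) h1 (by norm_num) (by positivity)))
    refine exp_lb (s := 1174857614573442 / 10 ^ 15) (by norm_num) (by norm_num) ?_ ?_
    · norm_num [Finset.sum_range_succ, Nat.factorial]
    · norm_num
  · refine le_trans (Real.exp_le_exp.2 (show Real.pi * (27 / 25) * (mm - 1 / 2) ≤ (257835137867062 : ℝ) / 10 ^ 14 by
      calc Real.pi * (27 / 25) * (mm - 1 / 2) ≤ 3.14159265358979323847 * (27 / 25) *
            (1259921049894873164768 / 10 ^ 21 - 1 / 2) := by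
            refine mul_le_mul (by linarith) h2 h3 (by norm_num)
        _ ≤ (257835137867062 : ℝ) / 10 ^ 14 := by norm_num)) ?_
    refine exp_ub (s := 1174857614573447 / 10 ^ 15) (by norm_num) (by norm_num) ?_ ?_
    · norm_num [Finset.sum_range_succ, Nat.factorial]
    · norm_num

lemma er2 : ((1193008918681129927544530 : ℕ) : ℝ) / 2 ^ 80 ≤ Real.exp (-(Real.pi * (27 / 25) / 256)) ∧
    Real.exp (-(Real.pi * (27 / 25) / 256)) ≤ ((1193008918681130166146315 : ℕ) : ℝ) / 2 ^ 80 := by
  have p1 := Real.pi_gt_d20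
  have p2 := Real.pi_lt_d20
  push_cast
  constructor
  · rw [Real.exp_neg, ← one_div, le_div_iff₀ (Real.exp_pos _)]
    have h1 : Real.exp (Real.pi * (27 / 25) / 256) ≤ 2 ^ 80 / 1193008918681129927544530 := by
      refine le_trans (Real.exp_le_exp.2 (show Real.pi * (27 / 25) / 256 ≤ (132535940073319402248 : ℝ) / 10 ^ 22 by
        linarith)) ?_
      refine (Real.exp_bound' (by norm_num) (by norm_num) (n := 10) (by norm_num)).trans ?_
      norm_num [Finset.sum_range_succ, Nat.factorial]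
    calc (1193008918681129927544530 : ℝ) / 2 ^ 80 * Real.exp (Real.pi * (27 / 25) / 256)
        ≤ 1193008918681129927544530 / 2 ^ 80 * (2 ^ 80 / 1193008918681129927544530) := mul_le_mul_of_nonneg_left h1 (by norm_num)
      _ = 1 := by norm_num
  · rw [Real.exp_neg, ← one_div, div_le_iff₀ (Real.exp_pos _)]
    have h1 : (2:ℝ) ^ 80 / 1193008918681130166146315 ≤ Real.exp (Real.pi * (27 / 25) / 256) := by
      refine le_trans ?_ (Real.exp_le_exp.2 (show (132535940073319402247 : ℝ) / 10 ^ 22 ≤ Real.pi * (27 / 25) / 256 by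
        linarith))
      refine le_trans ?_ (Real.sum_le_exp_of_nonneg (by norm_num) 10)
      norm_num [Finset.sum_range_succ, Nat.factorial]
    calc (1:ℝ) = 1193008918681130166146315 / 2 ^ 80 * (2 ^ 80 / 1193008918681130166146315) := by norm_num
      _ ≤ 1193008918681130166146315 / 2 ^ 80 * Real.exp (Real.pi * (27 / 25) / 256) :=
        mul_le_mul_of_nonneg_left h1 (by norm_num)

lemma cbb2 : ((3730555064546 : ℕ) : ℝ) / 2 ^ 40 ≤ Real.pi * (27 / 25) ∧ Real.pi * (27 / 25) ≤ ((3730555064547 : ℕ) : ℝ) / 2 ^ 40 := by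
  have p1 := Real.pi_gt_d20
  have p2 := Real.pi_lt_d20
  push_cast
  constructor <;> linarith

lemma three_le2 : 3 ≤ Real.pi * (27 / 25) := by
  have p1 := Real.pi_gt_d20
  linarith

lemma ex3 : (((16119349836430067131891262 : ℕ) : ℝ)) / 2 ^ 80 ≤ Real.exp (Real.pi * (217 / 200) * (mm - 1 / 2)) ∧
    Real.exp (Real.pi * (217 / 200) * (mm - 1 / 2)) ≤ ((16119349836752454128623089 : ℕ) : ℝ) / 2 ^ 80 := by
  have p1 := Real.pi_gt_d20
  have p2 := Real.pi_lt_d20
  obtain ⟨m1, m2⟩ := mm_b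
  have h1 : (1259921049894873164767 / 10 ^ 21 - 1 / 2 : ℝ) ≤ mm - 1 / 2 := by linarith
  have h2 : mm - 1 / 2 ≤ (1259921049894873164768 / 10 ^ 21 - 1 / 2 : ℝ) := by linarith
  have h3 : 0 ≤ mm - 1 / 2 := le_trans (by norm_num) h1
  push_cast
  constructor
  · refine le_trans ?_ (Real.exp_le_exp.2 (show (259028819060890 : ℝ) / 10 ^ 14 ≤ Real.pi * (217 / 200) * (mm - 1 / 2) by
      calc (259028819060890 : ℝ) / 10 ^ 14 ≤ 3.14159265358979323846 * (217 / 200) * (1259921049894873164767 / 10 ^ 21 - 1 / 2) := by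
            norm_num
        _ ≤ Real.pi * (217 / 200) * (mm - 1 / 2) := by
            refine mul_le_mul (by linarith) h1 (by norm_num) (by positivity)))
    refine exp_lb (s := 1175734445012738 / 10 ^ 15) (by norm_num) (by norm_num) ?_ ?_
    · norm_num [Finset.sum_range_succ, Nat.factorial]
    · norm_num
  · refine le_trans (Real.exp_le_exp.2 (show Real.pi * (217 / 200) * (mm - 1 / 2) ≤ (259028819060891 : ℝ) / 10 ^ 14 by
      calc Real.pi * (217 / 200) * (mm - 1 / 2) ≤ 3.14159265358979323847 * (217 / 200) *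
            (1259921049894873164768 / 10 ^ 21 - 1 / 2) := by
            refine mul_le_mul (by linarith) h2 h3 (by norm_num)
        _ ≤ (259028819060891 : ℝ) / 10 ^ 14 := by norm_num)) ?_
    refine exp_ub (s := 1175734445012744 / 10 ^ 15) (by norm_num) (by norm_num) ?_ ?_
    · norm_num [Finset.sum_range_succ, Nat.factorial]
    · norm_num

lemma er3 : ((1192935718816455292400772 : ℕ) : ℝ) / 2 ^ 80 ≤ Real.exp (-(Real.pi * (217 / 200) / 256)) ∧
    Real.exp (-(Real.pi * (217 / 200) / 256)) ≤ ((1192935718816455530987916 : ℕ) : ℝ) / 2 ^ 80 := by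
  have p1 := Real.pi_gt_d20
  have p2 := Real.pi_lt_d20
  push_cast
  constructor
  · rw [Real.exp_neg, ← one_div, le_div_iff₀ (Real.exp_pos _)]
    have h1 : Real.exp (Real.pi * (217 / 200) / 256) ≤ 2 ^ 80 / 1192935718816455292400772 := by
      refine le_trans (Real.exp_le_exp.2 (show Real.pi * (217 / 200) / 256 ≤ (133149532388473658740 : ℝ) / 10 ^ 22 by
        linarith)) ?_
      refine (Real.exp_bound' (by norm_num) (by norm_num) (n := 10) (by norm_num)).trans ?_
      norm_num [Finset.sum_range_succ, Nat.factorial]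
    calc (1192935718816455292400772 : ℝ) / 2 ^ 80 * Real.exp (Real.pi * (217 / 200) / 256)
        ≤ 1192935718816455292400772 / 2 ^ 80 * (2 ^ 80 / 1192935718816455292400772) := mul_le_mul_of_nonneg_left h1 (by norm_num)
      _ = 1 := by norm_num
  · rw [Real.exp_neg, ← one_div, div_le_iff₀ (Real.exp_pos _)]
    have h1 : (2:ℝ) ^ 80 / 1192935718816455530987916 ≤ Real.exp (Real.pi * (217 / 200) / 256) := by
      refine le_trans ?_ (Real.exp_le_exp.2 (show (133149532388473658739 : ℝ) / 10 ^ 22 ≤ Real.pi * (217 / 200) / 256 by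
        linarith))
      refine le_trans ?_ (Real.sum_le_exp_of_nonneg (by norm_num) 10)
      norm_num [Finset.sum_range_succ, Nat.factorial]
    calc (1:ℝ) = 1192935718816455530987916 / 2 ^ 80 * (2 ^ 80 / 1192935718816455530987916) := by norm_num
      _ ≤ 1192935718816455530987916 / 2 ^ 80 * Real.exp (Real.pi * (217 / 200) / 256) :=
        mul_le_mul_of_nonneg_left h1 (by norm_num)

lemma cbb3 : ((3747826152808 : ℕ) : ℝ) / 2 ^ 40 ≤ Real.pi * (217 / 200) ∧ Real.pi * (217 / 200) ≤ ((3747826152809 : ℕ) : ℝ) / 2 ^ 40 := by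
  have p1 := Real.pi_gt_d20
  have p2 := Real.pi_lt_d20
  push_cast
  constructor <;> linarith

lemma three_le3 : 3 ≤ Real.pi * (217 / 200) := by
  have p1 := Real.pi_gt_d20
  linarith

lemma ex4 : (((17734553275486518450410239 : ℕ) : ℝ)) / 2 ^ 80 ≤ Real.exp (Real.pi * (9 / 8) * (mm - 1 / 2)) ∧
    Real.exp (Real.pi * (9 / 8) * (mm - 1 / 2)) ≤ ((17734553275841209515923518 : ℕ) : ℝ) / 2 ^ 80 := by
  have p1 := Real.pi_gt_d20
  have p2 := Real.pi_lt_d20
  obtain ⟨m1, m2⟩ := mm_b
  have h1 : (1259921049894873164767 / 10 ^ 21 - 1 / 2 : ℝ) ≤ mm - 1 / 2 := by linarith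
  have h2 : mm - 1 / 2 ≤ (1259921049894873164768 / 10 ^ 21 - 1 / 2 : ℝ) := by linarith
  have h3 : 0 ≤ mm - 1 / 2 := le_trans (by norm_num) h1
  push_cast
  constructor
  · refine le_trans ?_ (Real.exp_le_exp.2 (show (268578268611522 : ℝ) / 10 ^ 14 ≤ Real.pi * (9 / 8) * (mm - 1 / 2) by
      calc (268578268611522 : ℝ) / 10 ^ 14 ≤ 3.14159265358979323846 * (9 / 8) * (1259921049894873164767 / 10 ^ 21 - 1 / 2) := by
            norm_num
        _ ≤ Real.pi * (9 / 8) * (mm - 1 / 2) := by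
            refine mul_le_mul (by linarith) h1 (by norm_num) (by positivity)))
    refine exp_lb (s := 1182772688145709 / 10 ^ 15) (by norm_num) (by norm_num) ?_ ?_
    · norm_num [Finset.sum_range_succ, Nat.factorial]
    · norm_num
  · refine le_trans (Real.exp_le_exp.2 (show Real.pi * (9 / 8) * (mm - 1 / 2) ≤ (268578268611523 : ℝ) / 10 ^ 14 by
      calc Real.pi * (9 / 8) * (mm - 1 / 2) ≤ 3.14159265358979323847 * (9 / 8) *
            (1259921049894873164768 / 10 ^ 21 - 1 / 2) := by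
            refine mul_le_mul (by linarith) h2 h3 (by norm_num)
        _ ≤ (268578268611523 : ℝ) / 10 ^ 14 := by norm_num)) ?_
    refine exp_ub (s := 1182772688145715 / 10 ^ 15) (by norm_num) (by norm_num) ?_ ?_
    · norm_num [Finset.sum_range_succ, Nat.factorial]
    · norm_num

lemma er4 : ((1192350281564499218135893 : ℕ) : ℝ) / 2 ^ 80 ≤ Real.exp (-(Real.pi * (9 / 8) / 256)) ∧
    Real.exp (-(Real.pi * (9 / 8) / 256)) ≤ ((1192350281564499456605950 : ℕ) : ℝ) / 2 ^ 80 := by
  have p1 := Real.pi_gt_d20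
  have p2 := Real.pi_lt_d20
  push_cast
  constructor
  · rw [Real.exp_neg, ← one_div, le_div_iff₀ (Real.exp_pos _)]
    have h1 : Real.exp (Real.pi * (9 / 8) / 256) ≤ 2 ^ 80 / 1192350281564499218135893 := by
      refine le_trans (Real.exp_le_exp.2 (show Real.pi * (9 / 8) / 256 ≤ (138058270909707710675 : ℝ) / 10 ^ 22 by
        linarith)) ?_
      refine (Real.exp_bound' (by norm_num) (by norm_num) (n := 10) (by norm_num)).trans ?_
      norm_num [Finset.sum_range_succ, Nat.factorial]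
    calc (1192350281564499218135893 : ℝ) / 2 ^ 80 * Real.exp (Real.pi * (9 / 8) / 256)
        ≤ 1192350281564499218135893 / 2 ^ 80 * (2 ^ 80 / 1192350281564499218135893) := mul_le_mul_of_nonneg_left h1 (by norm_num)
      _ = 1 := by norm_num
  · rw [Real.exp_neg, ← one_div, div_le_iff₀ (Real.exp_pos _)]
    have h1 : (2:ℝ) ^ 80 / 1192350281564499456605950 ≤ Real.exp (Real.pi * (9 / 8) / 256) := by
      refine le_trans ?_ (Real.exp_le_exp.2 (show (138058270909707710674 : ℝ) / 10 ^ 22 ≤ Real.pi * (9 / 8) / 256 by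
        linarith))
      refine le_trans ?_ (Real.sum_le_exp_of_nonneg (by norm_num) 10)
      norm_num [Finset.sum_range_succ, Nat.factorial]
    calc (1:ℝ) = 1192350281564499456605950 / 2 ^ 80 * (2 ^ 80 / 1192350281564499456605950) := by norm_num
      _ ≤ 1192350281564499456605950 / 2 ^ 80 * Real.exp (Real.pi * (9 / 8) / 256) :=
        mul_le_mul_of_nonneg_left h1 (by norm_num)

lemma cbb4 : ((3885994858902 : ℕ) : ℝ) / 2 ^ 40 ≤ Real.pi * (9 / 8) ∧ Real.pi * (9 / 8) ≤ ((3885994858903 : ℕ) : ℝ) / 2 ^ 40 := by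
  have p1 := Real.pi_gt_d20
  have p2 := Real.pi_lt_d20
  push_cast
  constructor <;> linarith

lemma three_le4 : 3 ≤ Real.pi * (9 / 8) := by
  have p1 := Real.pi_gt_d20
  linarith

lemma ex5 : (((19745906548309220903635999 : ℕ) : ℝ)) / 2 ^ 80 ≤ Real.exp (Real.pi * (117 / 100) * (mm - 1 / 2)) ∧
    Real.exp (Real.pi * (117 / 100) * (mm - 1 / 2)) ≤ ((19745906548704139034606134 : ℕ) : ℝ) / 2 ^ 80 := by
  have p1 := Real.pi_gt_d20
  have p2 := Real.pi_lt_d20
  obtain ⟨m1, m2⟩ := mm_b
  have h1 : (1259921049894873164767 / 10 ^ 21 - 1 / 2 : ℝ) ≤ mm - 1 / 2 := by linarith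
  have h2 : mm - 1 / 2 ≤ (1259921049894873164768 / 10 ^ 21 - 1 / 2 : ℝ) := by linarith
  have h3 : 0 ≤ mm - 1 / 2 := le_trans (by norm_num) h1
  push_cast
  constructor
  · refine le_trans ?_ (Real.exp_le_exp.2 (show (279321399355983 : ℝ) / 10 ^ 14 ≤ Real.pi * (117 / 100) * (mm - 1 / 2) by
      calc (279321399355983 : ℝ) / 10 ^ 14 ≤ 3.14159265358979323846 * (117 / 100) * (1259921049894873164767 / 10 ^ 21 - 1 / 2) := by
            norm_num
        _ ≤ Real.pi * (117 / 100) * (mm - 1 / 2) := by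
            refine mul_le_mul (by linarith) h1 (by norm_num) (by positivity)))
    refine exp_lb (s := 1190741085958189 / 10 ^ 15) (by norm_num) (by norm_num) ?_ ?_
    · norm_num [Finset.sum_range_succ, Nat.factorial]
    · norm_num
  · refine le_trans (Real.exp_le_exp.2 (show Real.pi * (117 / 100) * (mm - 1 / 2) ≤ (279321399355984 : ℝ) / 10 ^ 14 by
      calc Real.pi * (117 / 100) * (mm - 1 / 2) ≤ 3.14159265358979323847 * (117 / 100) *
            (1259921049894873164768 / 10 ^ 21 - 1 / 2) := by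
            refine mul_le_mul (by linarith) h2 h3 (by norm_num)
        _ ≤ (279321399355984 : ℝ) / 10 ^ 14 := by norm_num)) ?_
    refine exp_ub (s := 1190741085958194 / 10 ^ 15) (by norm_num) (by norm_num) ?_ ?_
    · norm_num [Finset.sum_range_succ, Nat.factorial]
    · norm_num

lemma er5 : ((1191692008068663467396376 : ℕ) : ℝ) / 2 ^ 80 ≤ Real.exp (-(Real.pi * (117 / 100) / 256)) ∧
    Real.exp (-(Real.pi * (117 / 100) / 256)) ≤ ((1191692008068663705734779 : ℕ) : ℝ) / 2 ^ 80 := by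
  have p1 := Real.pi_gt_d20
  have p2 := Real.pi_lt_d20
  push_cast
  constructor
  · rw [Real.exp_neg, ← one_div, le_div_iff₀ (Real.exp_pos _)]
    have h1 : Real.exp (Real.pi * (117 / 100) / 256) ≤ 2 ^ 80 / 1191692008068663467396376 := by
      refine le_trans (Real.exp_le_exp.2 (show Real.pi * (117 / 100) / 256 ≤ (143580601746096019102 : ℝ) / 10 ^ 22 by
        linarith)) ?_
      refine (Real.exp_bound' (by norm_num) (by norm_num) (n := 10) (by norm_num)).trans ?_
      norm_num [Finset.sum_range_succ, Nat.factorial]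
    calc (1191692008068663467396376 : ℝ) / 2 ^ 80 * Real.exp (Real.pi * (117 / 100) / 256)
        ≤ 1191692008068663467396376 / 2 ^ 80 * (2 ^ 80 / 1191692008068663467396376) := mul_le_mul_of_nonneg_left h1 (by norm_num)
      _ = 1 := by norm_num
  · rw [Real.exp_neg, ← one_div, div_le_iff₀ (Real.exp_pos _)]
    have h1 : (2:ℝ) ^ 80 / 1191692008068663705734779 ≤ Real.exp (Real.pi * (117 / 100) / 256) := by
      refine le_trans ?_ (Real.exp_le_exp.2 (show (143580601746096019101 : ℝ) / 10 ^ 22 ≤ Real.pi * (117 / 100) / 256 by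
        linarith))
      refine le_trans ?_ (Real.sum_le_exp_of_nonneg (by norm_num) 10)
      norm_num [Finset.sum_range_succ, Nat.factorial]
    calc (1:ℝ) = 1191692008068663705734779 / 2 ^ 80 * (2 ^ 80 / 1191692008068663705734779) := by norm_num
      _ ≤ 1191692008068663705734779 / 2 ^ 80 * Real.exp (Real.pi * (117 / 100) / 256) :=
        mul_le_mul_of_nonneg_left h1 (by norm_num)

lemma cbb5 : ((4041434653258 : ℕ) : ℝ) / 2 ^ 40 ≤ Real.pi * (117 / 100) ∧ Real.pi * (117 / 100) ≤ ((4041434653259 : ℕ) : ℝ) / 2 ^ 40 := by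
  have p1 := Real.pi_gt_d20
  have p2 := Real.pi_lt_d20
  push_cast
  constructor <;> linarith

lemma three_le5 : 3 ≤ Real.pi * (117 / 100) := by
  have p1 := Real.pi_gt_d20
  linarith

lemma ex6 : (((20222985031457208910865235 : ℕ) : ℝ)) / 2 ^ 80 ≤ Real.exp (Real.pi * (59 / 50) * (mm - 1 / 2)) ∧
    Real.exp (Real.pi * (59 / 50) * (mm - 1 / 2)) ≤ ((20222985031861668611498425 : ℕ) : ℝ) / 2 ^ 80 := by
  have p1 := Real.pi_gt_d20
  have p2 := Real.pi_lt_d20
  obtain ⟨m1, m2⟩ := mm_b
  have h1 : (1259921049894873164767 / 10 ^ 21 - 1 / 2 : ℝ) ≤ mm - 1 / 2 := by linarith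
  have h2 : mm - 1 / 2 ≤ (1259921049894873164768 / 10 ^ 21 - 1 / 2 : ℝ) := by linarith
  have h3 : 0 ≤ mm - 1 / 2 := le_trans (by norm_num) h1
  push_cast
  constructor
  · refine le_trans ?_ (Real.exp_le_exp.2 (show (281708761743641 : ℝ) / 10 ^ 14 ≤ Real.pi * (59 / 50) * (mm - 1 / 2) by
      calc (281708761743641 : ℝ) / 10 ^ 14 ≤ 3.14159265358979323846 * (59 / 50) * (1259921049894873164767 / 10 ^ 21 - 1 / 2) := by
            norm_num
        _ ≤ Real.pi * (59 / 50) * (mm - 1 / 2) := by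
            refine mul_le_mul (by linarith) h1 (by norm_num) (by positivity)))
    refine exp_lb (s := 1192519118682234 / 10 ^ 15) (by norm_num) (by norm_num) ?_ ?_
    · norm_num [Finset.sum_range_succ, Nat.factorial]
    · norm_num
  · refine le_trans (Real.exp_le_exp.2 (show Real.pi * (59 / 50) * (mm - 1 / 2) ≤ (281708761743642 : ℝ) / 10 ^ 14 by
      calc Real.pi * (59 / 50) * (mm - 1 / 2) ≤ 3.14159265358979323847 * (59 / 50) *
            (1259921049894873164768 / 10 ^ 21 - 1 / 2) := by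
            refine mul_le_mul (by linarith) h2 h3 (by norm_num)
        _ ≤ (281708761743642 : ℝ) / 10 ^ 14 := by norm_num)) ?_
    refine exp_ub (s := 1192519118682240 / 10 ^ 15) (by norm_num) (by norm_num) ?_ ?_
    · norm_num [Finset.sum_range_succ, Nat.factorial]
    · norm_num

lemma er6 : ((1191545774429994343650564 : ℕ) : ℝ) / 2 ^ 80 ≤ Real.exp (-(Real.pi * (59 / 50) / 256)) ∧
    Real.exp (-(Real.pi * (59 / 50) / 256)) ≤ ((1191545774429994581959719 : ℕ) : ℝ) / 2 ^ 80 := by
  have p1 := Real.pi_gt_d20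
  have p2 := Real.pi_lt_d20
  push_cast
  constructor
  · rw [Real.exp_neg, ← one_div, le_div_iff₀ (Real.exp_pos _)]
    have h1 : Real.exp (Real.pi * (59 / 50) / 256) ≤ 2 ^ 80 / 1191545774429994343650564 := by
      refine le_trans (Real.exp_le_exp.2 (show Real.pi * (59 / 50) / 256 ≤ (144807786376404532086 : ℝ) / 10 ^ 22 by
        linarith)) ?_
      refine (Real.exp_bound' (by norm_num) (by norm_num) (n := 10) (by norm_num)).trans ?_
      norm_num [Finset.sum_range_succ, Nat.factorial]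
    calc (1191545774429994343650564 : ℝ) / 2 ^ 80 * Real.exp (Real.pi * (59 / 50) / 256)
        ≤ 1191545774429994343650564 / 2 ^ 80 * (2 ^ 80 / 1191545774429994343650564) := mul_le_mul_of_nonneg_left h1 (by norm_num)
      _ = 1 := by norm_num
  · rw [Real.exp_neg, ← one_div, div_le_iff₀ (Real.exp_pos _)]
    have h1 : (2:ℝ) ^ 80 / 1191545774429994581959719 ≤ Real.exp (Real.pi * (59 / 50) / 256) := by
      refine le_trans ?_ (Real.exp_le_exp.2 (show (144807786376404532085 : ℝ) / 10 ^ 22 ≤ Real.pi * (59 / 50) / 256 by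
        linarith))
      refine le_trans ?_ (Real.sum_le_exp_of_nonneg (by norm_num) 10)
      norm_num [Finset.sum_range_succ, Nat.factorial]
    calc (1:ℝ) = 1191545774429994581959719 / 2 ^ 80 * (2 ^ 80 / 1191545774429994581959719) := by norm_num
      _ ≤ 1191545774429994581959719 / 2 ^ 80 * Real.exp (Real.pi * (59 / 50) / 256) :=
        mul_le_mul_of_nonneg_left h1 (by norm_num)

lemma cbb6 : ((4075976829782 : ℕ) : ℝ) / 2 ^ 40 ≤ Real.pi * (59 / 50) ∧ Real.pi * (59 / 50) ≤ ((4075976829783 : ℕ) : ℝ) / 2 ^ 40 := by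
  have p1 := Real.pi_gt_d20
  have p2 := Real.pi_lt_d20
  push_cast
  constructor <;> linarith

lemma three_le6 : 3 ≤ Real.pi * (59 / 50) := by
  have p1 := Real.pi_gt_d20
  linarith

lemma ex7 : (((22516562236217677389044464 : ℕ) : ℝ)) / 2 ^ 80 ≤ Real.exp (Real.pi * (49 / 40) * (mm - 1 / 2)) ∧
    Real.exp (Real.pi * (49 / 40) * (mm - 1 / 2)) ≤ ((22516562236668008633773321 : ℕ) : ℝ) / 2 ^ 80 := by
  have p1 := Real.pi_gt_d20
  have p2 := Real.pi_lt_d20
  obtain ⟨m1, m2⟩ := mm_b
  have h1 : (1259921049894873164767 / 10 ^ 21 - 1 / 2 : ℝ) ≤ mm - 1 / 2 := by linarith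
  have h2 : mm - 1 / 2 ≤ (1259921049894873164768 / 10 ^ 21 - 1 / 2 : ℝ) := by linarith
  have h3 : 0 ≤ mm - 1 / 2 := le_trans (by norm_num) h1
  push_cast
  constructor
  · refine le_trans ?_ (Real.exp_le_exp.2 (show (292451892488101 : ℝ) / 10 ^ 14 ≤ Real.pi * (49 / 40) * (mm - 1 / 2) by
      calc (292451892488101 : ℝ) / 10 ^ 14 ≤ 3.14159265358979323846 * (49 / 40) * (1259921049894873164767 / 10 ^ 21 - 1 / 2) := by
            norm_num
        _ ≤ Real.pi * (49 / 40) * (mm - 1 / 2) := by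
            refine mul_le_mul (by linarith) h1 (by norm_num) (by positivity)))
    refine exp_lb (s := 1200553178676927 / 10 ^ 15) (by norm_num) (by norm_num) ?_ ?_
    · norm_num [Finset.sum_range_succ, Nat.factorial]
    · norm_num
  · refine le_trans (Real.exp_le_exp.2 (show Real.pi * (49 / 40) * (mm - 1 / 2) ≤ (292451892488103 : ℝ) / 10 ^ 14 by
      calc Real.pi * (49 / 40) * (mm - 1 / 2) ≤ 3.14159265358979323847 * (49 / 40) *
            (1259921049894873164768 / 10 ^ 21 - 1 / 2) := by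
            refine mul_le_mul (by linarith) h2 h3 (by norm_num)
        _ ≤ (292451892488103 : ℝ) / 10 ^ 14 := by norm_num)) ?_
    refine exp_ub (s := 1200553178676934 / 10 ^ 15) (by norm_num) (by norm_num) ?_ ?_
    · norm_num [Finset.sum_range_succ, Nat.factorial]
    · norm_num

lemma er7 : ((1190887945086965065560625 : ℕ) : ℝ) / 2 ^ 80 ≤ Real.exp (-(Real.pi * (49 / 40) / 256)) ∧
    Real.exp (-(Real.pi * (49 / 40) / 256)) ≤ ((1190887945086965303738215 : ℕ) : ℝ) / 2 ^ 80 := by
  have p1 := Real.pi_gt_d20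
  have p2 := Real.pi_lt_d20
  push_cast
  constructor
  · rw [Real.exp_neg, ← one_div, le_div_iff₀ (Real.exp_pos _)]
    have h1 : Real.exp (Real.pi * (49 / 40) / 256) ≤ 2 ^ 80 / 1190887945086965065560625 := by
      refine le_trans (Real.exp_le_exp.2 (show Real.pi * (49 / 40) / 256 ≤ (150330117212792840513 : ℝ) / 10 ^ 22 by
        linarith)) ?_
      refine (Real.exp_bound' (by norm_num) (by norm_num) (n := 10) (by norm_num)).trans ?_
      norm_num [Finset.sum_range_succ, Nat.factorial]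
    calc (1190887945086965065560625 : ℝ) / 2 ^ 80 * Real.exp (Real.pi * (49 / 40) / 256)
        ≤ 1190887945086965065560625 / 2 ^ 80 * (2 ^ 80 / 1190887945086965065560625) := mul_le_mul_of_nonneg_left h1 (by norm_num)
      _ = 1 := by norm_num
  · rw [Real.exp_neg, ← one_div, div_le_iff₀ (Real.exp_pos _)]
    have h1 : (2:ℝ) ^ 80 / 1190887945086965303738215 ≤ Real.exp (Real.pi * (49 / 40) / 256) := by
      refine le_trans ?_ (Real.exp_le_exp.2 (show (150330117212792840512 : ℝ) / 10 ^ 22 ≤ Real.pi * (49 / 40) / 256 by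
        linarith))
      refine le_trans ?_ (Real.sum_le_exp_of_nonneg (by norm_num) 10)
      norm_num [Finset.sum_range_succ, Nat.factorial]
    calc (1:ℝ) = 1190887945086965303738215 / 2 ^ 80 * (2 ^ 80 / 1190887945086965303738215) := by norm_num
      _ ≤ 1190887945086965303738215 / 2 ^ 80 * Real.exp (Real.pi * (49 / 40) / 256) :=
        mul_le_mul_of_nonneg_left h1 (by norm_num)

lemma cbb7 : ((4231416624138 : ℕ) : ℝ) / 2 ^ 40 ≤ Real.pi * (49 / 40) ∧ Real.pi * (49 / 40) ≤ ((4231416624139 : ℕ) : ℝ) / 2 ^ 40 := by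
  have p1 := Real.pi_gt_d20
  have p2 := Real.pi_lt_d20
  push_cast
  constructor <;> linarith

lemma three_le7 : 3 ≤ Real.pi * (49 / 40) := by
  have p1 := Real.pi_gt_d20
  linarith

lemma ex8 : (((25675983713235816422545985 : ℕ) : ℝ)) / 2 ^ 80 ≤ Real.exp (Real.pi * (32 / 25) * (mm - 1 / 2)) ∧
    Real.exp (Real.pi * (32 / 25) * (mm - 1 / 2)) ≤ ((25675983713749336096815837 : ℕ) : ℝ) / 2 ^ 80 := by
  have p1 := Real.pi_gt_d20
  have p2 := Real.pi_lt_d20
  obtain ⟨m1, m2⟩ := mm_b
  have h1 : (1259921049894873164767 / 10 ^ 21 - 1 / 2 : ℝ) ≤ mm - 1 / 2 := by linarith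
  have h2 : mm - 1 / 2 ≤ (1259921049894873164768 / 10 ^ 21 - 1 / 2 : ℝ) := by linarith
  have h3 : 0 ≤ mm - 1 / 2 := le_trans (by norm_num) h1
  push_cast
  constructor
  · refine le_trans ?_ (Real.exp_le_exp.2 (show (305582385620220 : ℝ) / 10 ^ 14 ≤ Real.pi * (32 / 25) * (mm - 1 / 2) by
      calc (305582385620220 : ℝ) / 10 ^ 14 ≤ 3.14159265358979323846 * (32 / 25) * (1259921049894873164767 / 10 ^ 21 - 1 / 2) := by
            norm_num
        _ ≤ Real.pi * (32 / 25) * (mm - 1 / 2) := by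
            refine mul_le_mul (by linarith) h1 (by norm_num) (by positivity)))
    refine exp_lb (s := 1210446126221838 / 10 ^ 15) (by norm_num) (by norm_num) ?_ ?_
    · norm_num [Finset.sum_range_succ, Nat.factorial]
    · norm_num
  · refine le_trans (Real.exp_le_exp.2 (show Real.pi * (32 / 25) * (mm - 1 / 2) ≤ (305582385620222 : ℝ) / 10 ^ 14 by
      calc Real.pi * (32 / 25) * (mm - 1 / 2) ≤ 3.14159265358979323847 * (32 / 25) *
            (1259921049894873164768 / 10 ^ 21 - 1 / 2) := by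
            refine mul_le_mul (by linarith) h2 h3 (by norm_num)
        _ ≤ (305582385620222 : ℝ) / 10 ^ 14 := by norm_num)) ?_
    refine exp_ub (s := 1210446126221845 / 10 ^ 15) (by norm_num) (by norm_num) ?_ ?_
    · norm_num [Finset.sum_range_succ, Nat.factorial]
    · norm_num

lemma er8 : ((1190084424625711678300443 : ℕ) : ℝ) / 2 ^ 80 ≤ Real.exp (-(Real.pi * (32 / 25) / 256)) ∧
    Real.exp (-(Real.pi * (32 / 25) / 256)) ≤ ((1190084424625711916317329 : ℕ) : ℝ) / 2 ^ 80 := by
  have p1 := Real.pi_gt_d20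
  have p2 := Real.pi_lt_d20
  push_cast
  constructor
  · rw [Real.exp_neg, ← one_div, le_div_iff₀ (Real.exp_pos _)]
    have h1 : Real.exp (Real.pi * (32 / 25) / 256) ≤ 2 ^ 80 / 1190084424625711678300443 := by
      refine le_trans (Real.exp_le_exp.2 (show Real.pi * (32 / 25) / 256 ≤ (157079632679489661924 : ℝ) / 10 ^ 22 by
        linarith)) ?_
      refine (Real.exp_bound' (by norm_num) (by norm_num) (n := 10) (by norm_num)).trans ?_
      norm_num [Finset.sum_range_succ, Nat.factorial]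
    calc (1190084424625711678300443 : ℝ) / 2 ^ 80 * Real.exp (Real.pi * (32 / 25) / 256)
        ≤ 1190084424625711678300443 / 2 ^ 80 * (2 ^ 80 / 1190084424625711678300443) := mul_le_mul_of_nonneg_left h1 (by norm_num)
      _ = 1 := by norm_num
  · rw [Real.exp_neg, ← one_div, div_le_iff₀ (Real.exp_pos _)]
    have h1 : (2:ℝ) ^ 80 / 1190084424625711916317329 ≤ Real.exp (Real.pi * (32 / 25) / 256) := by
      refine le_trans ?_ (Real.exp_le_exp.2 (show (157079632679489661923 : ℝ) / 10 ^ 22 ≤ Real.pi * (32 / 25) / 256 by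
        linarith))
      refine le_trans ?_ (Real.sum_le_exp_of_nonneg (by norm_num) 10)
      norm_num [Finset.sum_range_succ, Nat.factorial]
    calc (1:ℝ) = 1190084424625711916317329 / 2 ^ 80 * (2 ^ 80 / 1190084424625711916317329) := by norm_num
      _ ≤ 1190084424625711916317329 / 2 ^ 80 * Real.exp (Real.pi * (32 / 25) / 256) :=
        mul_le_mul_of_nonneg_left h1 (by norm_num)

lemma cbb8 : ((4421398595017 : ℕ) : ℝ) / 2 ^ 40 ≤ Real.pi * (32 / 25) ∧ Real.pi * (32 / 25) ≤ ((4421398595018 : ℕ) : ℝ) / 2 ^ 40 := by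
  have p1 := Real.pi_gt_d20
  have p2 := Real.pi_lt_d20
  push_cast
  constructor <;> linarith

lemma three_le8 : 3 ≤ Real.pi * (32 / 25) := by
  have p1 := Real.pi_gt_d20
  linarith

lemma ex9 : (((26612113448953320592853622 : ℕ) : ℝ)) / 2 ^ 80 ≤ Real.exp (Real.pi * (259 / 200) * (mm - 1 / 2)) ∧
    Real.exp (Real.pi * (259 / 200) * (mm - 1 / 2)) ≤ ((26612113449485562861838012 : ℕ) : ℝ) / 2 ^ 80 := by
  have p1 := Real.pi_gt_d20
  have p2 := Real.pi_lt_d20
  obtain ⟨m1, m2⟩ := mm_b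
  have h1 : (1259921049894873164767 / 10 ^ 21 - 1 / 2 : ℝ) ≤ mm - 1 / 2 := by linarith
  have h2 : mm - 1 / 2 ≤ (1259921049894873164768 / 10 ^ 21 - 1 / 2 : ℝ) := by linarith
  have h3 : 0 ≤ mm - 1 / 2 := le_trans (by norm_num) h1
  push_cast
  constructor
  · refine le_trans ?_ (Real.exp_le_exp.2 (show (309163429201707 : ℝ) / 10 ^ 14 ≤ Real.pi * (259 / 200) * (mm - 1 / 2) by
      calc (309163429201707 : ℝ) / 10 ^ 14 ≤ 3.14159265358979323846 * (259 / 200) * (1259921049894873164767 / 10 ^ 21 - 1 / 2) := by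
            norm_num
        _ ≤ Real.pi * (259 / 200) * (mm - 1 / 2) := by
            refine mul_le_mul (by linarith) h1 (by norm_num) (by positivity)))
    refine exp_lb (s := 1213158322951141 / 10 ^ 15) (by norm_num) (by norm_num) ?_ ?_
    · norm_num [Finset.sum_range_succ, Nat.factorial]
    · norm_num
  · refine le_trans (Real.exp_le_exp.2 (show Real.pi * (259 / 200) * (mm - 1 / 2) ≤ (309163429201709 : ℝ) / 10 ^ 14 by
      calc Real.pi * (259 / 200) * (mm - 1 / 2) ≤ 3.14159265358979323847 * (259 / 200) *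
            (1259921049894873164768 / 10 ^ 21 - 1 / 2) := by
            refine mul_le_mul (by linarith) h2 h3 (by norm_num)
        _ ≤ (309163429201709 : ℝ) / 10 ^ 14 := by norm_num)) ?_
    refine exp_ub (s := 1213158322951147 / 10 ^ 15) (by norm_num) (by norm_num) ?_ ?_
    · norm_num [Finset.sum_range_succ, Nat.factorial]
    · norm_num

lemma er9 : ((1189865376790039966675725 : ℕ) : ℝ) / 2 ^ 80 ≤ Real.exp (-(Real.pi * (259 / 200) / 256)) ∧
    Real.exp (-(Real.pi * (259 / 200) / 256)) ≤ ((1189865376790040204648801 : ℕ) : ℝ) / 2 ^ 80 := by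
  have p1 := Real.pi_gt_d20
  have p2 := Real.pi_lt_d20
  push_cast
  constructor
  · rw [Real.exp_neg, ← one_div, le_div_iff₀ (Real.exp_pos _)]
    have h1 : Real.exp (Real.pi * (259 / 200) / 256) ≤ 2 ^ 80 / 1189865376790039966675725 := by
      refine le_trans (Real.exp_le_exp.2 (show Real.pi * (259 / 200) / 256 ≤ (158920409624952431400 : ℝ) / 10 ^ 22 by
        linarith)) ?_
      refine (Real.exp_bound' (by norm_num) (by norm_num) (n := 10) (by norm_num)).trans ?_
      norm_num [Finset.sum_range_succ, Nat.factorial]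
    calc (1189865376790039966675725 : ℝ) / 2 ^ 80 * Real.exp (Real.pi * (259 / 200) / 256)
        ≤ 1189865376790039966675725 / 2 ^ 80 * (2 ^ 80 / 1189865376790039966675725) := mul_le_mul_of_nonneg_left h1 (by norm_num)
      _ = 1 := by norm_num
  · rw [Real.exp_neg, ← one_div, div_le_iff₀ (Real.exp_pos _)]
    have h1 : (2:ℝ) ^ 80 / 1189865376790040204648801 ≤ Real.exp (Real.pi * (259 / 200) / 256) := by
      refine le_trans ?_ (Real.exp_le_exp.2 (show (158920409624952431398 : ℝ) / 10 ^ 22 ≤ Real.pi * (259 / 200) / 256 by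
        linarith))
      refine le_trans ?_ (Real.sum_le_exp_of_nonneg (by norm_num) 10)
      norm_num [Finset.sum_range_succ, Nat.factorial]
    calc (1:ℝ) = 1189865376790040204648801 / 2 ^ 80 * (2 ^ 80 / 1189865376790040204648801) := by norm_num
      _ ≤ 1189865376790040204648801 / 2 ^ 80 * Real.exp (Real.pi * (259 / 200) / 256) :=
        mul_le_mul_of_nonneg_left h1 (by norm_num)

lemma cbb9 : ((4473211859803 : ℕ) : ℝ) / 2 ^ 40 ≤ Real.pi * (259 / 200) ∧ Real.pi * (259 / 200) ≤ ((4473211859804 : ℕ) : ℝ) / 2 ^ 40 := by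
  have p1 := Real.pi_gt_d20
  have p2 := Real.pi_lt_d20
  push_cast
  constructor <;> linarith

lemma three_le9 : 3 ≤ Real.pi * (259 / 200) := by
  have p1 := Real.pi_gt_d20
  linarith

lemma ex10 : (((30346204021812897467320923 : ℕ) : ℝ)) / 2 ^ 80 ≤ Real.exp (Real.pi * (27 / 20) * (mm - 1 / 2)) ∧
    Real.exp (Real.pi * (27 / 20) * (mm - 1 / 2)) ≤ ((30346204022419821547763251 : ℕ) : ℝ) / 2 ^ 80 := by
  have p1 := Real.pi_gt_d20
  have p2 := Real.pi_lt_d20
  obtain ⟨m1, m2⟩ := mm_b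
  have h1 : (1259921049894873164767 / 10 ^ 21 - 1 / 2 : ℝ) ≤ mm - 1 / 2 := by linarith
  have h2 : mm - 1 / 2 ≤ (1259921049894873164768 / 10 ^ 21 - 1 / 2 : ℝ) := by linarith
  have h3 : 0 ≤ mm - 1 / 2 := le_trans (by norm_num) h1
  push_cast
  constructor
  · refine le_trans ?_ (Real.exp_le_exp.2 (show (322293922333826 : ℝ) / 10 ^ 14 ≤ Real.pi * (27 / 20) * (mm - 1 / 2) by
      calc (322293922333826 : ℝ) / 10 ^ 14 ≤ 3.14159265358979323846 * (27 / 20) * (1259921049894873164767 / 10 ^ 21 - 1 / 2) := by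
            norm_num
        _ ≤ Real.pi * (27 / 20) * (mm - 1 / 2) := by
            refine mul_le_mul (by linarith) h1 (by norm_num) (by positivity)))
    refine exp_lb (s := 1223155140972859 / 10 ^ 15) (by norm_num) (by norm_num) ?_ ?_
    · norm_num [Finset.sum_range_succ, Nat.factorial]
    · norm_num
  · refine le_trans (Real.exp_le_exp.2 (show Real.pi * (27 / 20) * (mm - 1 / 2) ≤ (322293922333827 : ℝ) / 10 ^ 14 by
      calc Real.pi * (27 / 20) * (mm - 1 / 2) ≤ 3.14159265358979323847 * (27 / 20) *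
            (1259921049894873164768 / 10 ^ 21 - 1 / 2) := by
            refine mul_le_mul (by linarith) h2 h3 (by norm_num)
        _ ≤ (322293922333827 : ℝ) / 10 ^ 14 := by norm_num)) ?_
    refine exp_ub (s := 1223155140972865 / 10 ^ 15) (by norm_num) (by norm_num) ?_ ?_
    · norm_num [Finset.sum_range_succ, Nat.factorial]
    · norm_num

lemma er10 : ((1189062546279972161653062 : ℕ) : ℝ) / 2 ^ 80 ≤ Real.exp (-(Real.pi * (27 / 20) / 256)) ∧
    Real.exp (-(Real.pi * (27 / 20) / 256)) ≤ ((1189062546279972399465572 : ℕ) : ℝ) / 2 ^ 80 := by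
  have p1 := Real.pi_gt_d20
  have p2 := Real.pi_lt_d20
  push_cast
  constructor
  · rw [Real.exp_neg, ← one_div, le_div_iff₀ (Real.exp_pos _)]
    have h1 : Real.exp (Real.pi * (27 / 20) / 256) ≤ 2 ^ 80 / 1189062546279972161653062 := by
      refine le_trans (Real.exp_le_exp.2 (show Real.pi * (27 / 20) / 256 ≤ (165669925091649252810 : ℝ) / 10 ^ 22 by
        linarith)) ?_
      refine (Real.exp_bound' (by norm_num) (by norm_num) (n := 10) (by norm_num)).trans ?_
      norm_num [Finset.sum_range_succ, Nat.factorial]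
    calc (1189062546279972161653062 : ℝ) / 2 ^ 80 * Real.exp (Real.pi * (27 / 20) / 256)
        ≤ 1189062546279972161653062 / 2 ^ 80 * (2 ^ 80 / 1189062546279972161653062) := mul_le_mul_of_nonneg_left h1 (by norm_num)
      _ = 1 := by norm_num
  · rw [Real.exp_neg, ← one_div, div_le_iff₀ (Real.exp_pos _)]
    have h1 : (2:ℝ) ^ 80 / 1189062546279972399465572 ≤ Real.exp (Real.pi * (27 / 20) / 256) := by
      refine le_trans ?_ (Real.exp_le_exp.2 (show (165669925091649252809 : ℝ) / 10 ^ 22 ≤ Real.pi * (27 / 20) / 256 by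
        linarith))
      refine le_trans ?_ (Real.sum_le_exp_of_nonneg (by norm_num) 10)
      norm_num [Finset.sum_range_succ, Nat.factorial]
    calc (1:ℝ) = 1189062546279972399465572 / 2 ^ 80 * (2 ^ 80 / 1189062546279972399465572) := by norm_num
      _ ≤ 1189062546279972399465572 / 2 ^ 80 * Real.exp (Real.pi * (27 / 20) / 256) :=
        mul_le_mul_of_nonneg_left h1 (by norm_num)

lemma cbb10 : ((4663193830682 : ℕ) : ℝ) / 2 ^ 40 ≤ Real.pi * (27 / 20) ∧ Real.pi * (27 / 20) ≤ ((4663193830683 : ℕ) : ℝ) / 2 ^ 40 := by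
  have p1 := Real.pi_gt_d20
  have p2 := Real.pi_lt_d20
  push_cast
  constructor <;> linarith

lemma three_le10 : 3 ≤ Real.pi * (27 / 20) := by
  have p1 := Real.pi_gt_d20
  linarith

lemma ex11 : (((35865893545444916699589771 : ℕ) : ℝ)) / 2 ^ 80 ≤ Real.exp (Real.pi * (71 / 50) * (mm - 1 / 2)) ∧
    Real.exp (Real.pi * (71 / 50) * (mm - 1 / 2)) ≤ ((35865893546162234570505844 : ℕ) : ℝ) / 2 ^ 80 := by
  have p1 := Real.pi_gt_d20
  have p2 := Real.pi_lt_d20
  obtain ⟨m1, m2⟩ := mm_b
  have h1 : (1259921049894873164767 / 10 ^ 21 - 1 / 2 : ℝ) ≤ mm - 1 / 2 := by linarith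
  have h2 : mm - 1 / 2 ≤ (1259921049894873164768 / 10 ^ 21 - 1 / 2 : ℝ) := by linarith
  have h3 : 0 ≤ mm - 1 / 2 := le_trans (by norm_num) h1
  push_cast
  constructor
  · refine le_trans ?_ (Real.exp_le_exp.2 (show (339005459047432 : ℝ) / 10 ^ 14 ≤ Real.pi * (71 / 50) * (mm - 1 / 2) by
      calc (339005459047432 : ℝ) / 10 ^ 14 ≤ 3.14159265358979323846 * (71 / 50) * (1259921049894873164767 / 10 ^ 21 - 1 / 2) := by
            norm_num
        _ ≤ Real.pi * (71 / 50) * (mm - 1 / 2) := by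
            refine mul_le_mul (by linarith) h1 (by norm_num) (by positivity)))
    refine exp_lb (s := 1235997593348605 / 10 ^ 15) (by norm_num) (by norm_num) ?_ ?_
    · norm_num [Finset.sum_range_succ, Nat.factorial]
    · norm_num
  · refine le_trans (Real.exp_le_exp.2 (show Real.pi * (71 / 50) * (mm - 1 / 2) ≤ (339005459047433 : ℝ) / 10 ^ 14 by
      calc Real.pi * (71 / 50) * (mm - 1 / 2) ≤ 3.14159265358979323847 * (71 / 50) *
            (1259921049894873164768 / 10 ^ 21 - 1 / 2) := by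
            refine mul_le_mul (by linarith) h2 h3 (by norm_num)
        _ ≤ (339005459047433 : ℝ) / 10 ^ 14 := by norm_num)) ?_
    refine exp_ub (s := 1235997593348611 / 10 ^ 15) (by norm_num) (by norm_num) ?_ ?_
    · norm_num [Finset.sum_range_succ, Nat.factorial]
    · norm_num

lemma er11 : ((1188041545380682563673493 : ℕ) : ℝ) / 2 ^ 80 ≤ Real.exp (-(Real.pi * (71 / 50) / 256)) ∧
    Real.exp (-(Real.pi * (71 / 50) / 256)) ≤ ((1188041545380682801281803 : ℕ) : ℝ) / 2 ^ 80 := by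
  have p1 := Real.pi_gt_d20
  have p2 := Real.pi_lt_d20
  push_cast
  constructor
  · rw [Real.exp_neg, ← one_div, le_div_iff₀ (Real.exp_pos _)]
    have h1 : Real.exp (Real.pi * (71 / 50) / 256) ≤ 2 ^ 80 / 1188041545380682563673493 := by
      refine le_trans (Real.exp_le_exp.2 (show Real.pi * (71 / 50) / 256 ≤ (174260217503808843697 : ℝ) / 10 ^ 22 by
        linarith)) ?_
      refine (Real.exp_bound' (by norm_num) (by norm_num) (n := 10) (by norm_num)).trans ?_
      norm_num [Finset.sum_range_succ, Nat.factorial]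
    calc (1188041545380682563673493 : ℝ) / 2 ^ 80 * Real.exp (Real.pi * (71 / 50) / 256)
        ≤ 1188041545380682563673493 / 2 ^ 80 * (2 ^ 80 / 1188041545380682563673493) := mul_le_mul_of_nonneg_left h1 (by norm_num)
      _ = 1 := by norm_num
  · rw [Real.exp_neg, ← one_div, div_le_iff₀ (Real.exp_pos _)]
    have h1 : (2:ℝ) ^ 80 / 1188041545380682801281803 ≤ Real.exp (Real.pi * (71 / 50) / 256) := by
      refine le_trans ?_ (Real.exp_le_exp.2 (show (174260217503808843695 : ℝ) / 10 ^ 22 ≤ Real.pi * (71 / 50) / 256 by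
        linarith))
      refine le_trans ?_ (Real.sum_le_exp_of_nonneg (by norm_num) 10)
      norm_num [Finset.sum_range_succ, Nat.factorial]
    calc (1:ℝ) = 1188041545380682801281803 / 2 ^ 80 * (2 ^ 80 / 1188041545380682801281803) := by norm_num
      _ ≤ 1188041545380682801281803 / 2 ^ 80 * Real.exp (Real.pi * (71 / 50) / 256) :=
        mul_le_mul_of_nonneg_left h1 (by norm_num)

lemma cbb11 : ((4904989066347 : ℕ) : ℝ) / 2 ^ 40 ≤ Real.pi * (71 / 50) ∧ Real.pi * (71 / 50) ≤ ((4904989066348 : ℕ) : ℝ) / 2 ^ 40 := by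
  have p1 := Real.pi_gt_d20
  have p2 := Real.pi_lt_d20
  push_cast
  constructor <;> linarith

lemma three_le11 : 3 ≤ Real.pi * (71 / 50) := by
  have p1 := Real.pi_gt_d20
  linarith

lemma ex12 : (((37619933310450454471156779 : ℕ) : ℝ)) / 2 ^ 80 ≤ Real.exp (Real.pi * (36 / 25) * (mm - 1 / 2)) ∧
    Real.exp (Real.pi * (36 / 25) * (mm - 1 / 2)) ≤ ((37619933311202853137373313 : ℕ) : ℝ) / 2 ^ 80 := by
  have p1 := Real.pi_gt_d20
  have p2 := Real.pi_lt_d20
  obtain ⟨m1, m2⟩ := mm_b
  have h1 : (1259921049894873164767 / 10 ^ 21 - 1 / 2 : ℝ) ≤ mm - 1 / 2 := by linarith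
  have h2 : mm - 1 / 2 ≤ (1259921049894873164768 / 10 ^ 21 - 1 / 2 : ℝ) := by linarith
  have h3 : 0 ≤ mm - 1 / 2 := le_trans (by norm_num) h1
  push_cast
  constructor
  · refine le_trans ?_ (Real.exp_le_exp.2 (show (343780183822748 : ℝ) / 10 ^ 14 ≤ Real.pi * (36 / 25) * (mm - 1 / 2) by
      calc (343780183822748 : ℝ) / 10 ^ 14 ≤ 3.14159265358979323846 * (36 / 25) * (1259921049894873164767 / 10 ^ 21 - 1 / 2) := by
            norm_num
        _ ≤ Real.pi * (36 / 25) * (mm - 1 / 2) := by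
            refine mul_le_mul (by linarith) h1 (by norm_num) (by positivity)))
    refine exp_lb (s := 1239691570102445 / 10 ^ 15) (by norm_num) (by norm_num) ?_ ?_
    · norm_num [Finset.sum_range_succ, Nat.factorial]
    · norm_num
  · refine le_trans (Real.exp_le_exp.2 (show Real.pi * (36 / 25) * (mm - 1 / 2) ≤ (343780183822749 : ℝ) / 10 ^ 14 by
      calc Real.pi * (36 / 25) * (mm - 1 / 2) ≤ 3.14159265358979323847 * (36 / 25) *
            (1259921049894873164768 / 10 ^ 21 - 1 / 2) := by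
            refine mul_le_mul (by linarith) h2 h3 (by norm_num)
        _ ≤ (343780183822749 : ℝ) / 10 ^ 14 := by norm_num)) ?_
    refine exp_ub (s := 1239691570102451 / 10 ^ 15) (by norm_num) (by norm_num) ?_ ?_
    · norm_num [Finset.sum_range_succ, Nat.factorial]
    · norm_num

lemma er12 : ((1187749991896209821091969 : ℕ) : ℝ) / 2 ^ 80 ≤ Real.exp (-(Real.pi * (36 / 25) / 256)) ∧
    Real.exp (-(Real.pi * (36 / 25) / 256)) ≤ ((1187749991896210058641968 : ℕ) : ℝ) / 2 ^ 80 := by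
  have p1 := Real.pi_gt_d20
  have p2 := Real.pi_lt_d20
  push_cast
  constructor
  · rw [Real.exp_neg, ← one_div, le_div_iff₀ (Real.exp_pos _)]
    have h1 : Real.exp (Real.pi * (36 / 25) / 256) ≤ 2 ^ 80 / 1187749991896209821091969 := by
      refine le_trans (Real.exp_le_exp.2 (show Real.pi * (36 / 25) / 256 ≤ (176714586764425869664 : ℝ) / 10 ^ 22 by
        linarith)) ?_
      refine (Real.exp_bound' (by norm_num) (by norm_num) (n := 10) (by norm_num)).trans ?_
      norm_num [Finset.sum_range_succ, Nat.factorial]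
    calc (1187749991896209821091969 : ℝ) / 2 ^ 80 * Real.exp (Real.pi * (36 / 25) / 256)
        ≤ 1187749991896209821091969 / 2 ^ 80 * (2 ^ 80 / 1187749991896209821091969) := mul_le_mul_of_nonneg_left h1 (by norm_num)
      _ = 1 := by norm_num
  · rw [Real.exp_neg, ← one_div, div_le_iff₀ (Real.exp_pos _)]
    have h1 : (2:ℝ) ^ 80 / 1187749991896210058641968 ≤ Real.exp (Real.pi * (36 / 25) / 256) := by
      refine le_trans ?_ (Real.exp_le_exp.2 (show (176714586764425869663 : ℝ) / 10 ^ 22 ≤ Real.pi * (36 / 25) / 256 by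
        linarith))
      refine le_trans ?_ (Real.sum_le_exp_of_nonneg (by norm_num) 10)
      norm_num [Finset.sum_range_succ, Nat.factorial]
    calc (1:ℝ) = 1187749991896210058641968 / 2 ^ 80 * (2 ^ 80 / 1187749991896210058641968) := by norm_num
      _ ≤ 1187749991896210058641968 / 2 ^ 80 * Real.exp (Real.pi * (36 / 25) / 256) :=
        mul_le_mul_of_nonneg_left h1 (by norm_num)

lemma cbb12 : ((4974073419394 : ℕ) : ℝ) / 2 ^ 40 ≤ Real.pi * (36 / 25) ∧ Real.pi * (36 / 25) ≤ ((4974073419395 : ℕ) : ℝ) / 2 ^ 40 := by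
  have p1 := Real.pi_gt_d20
  have p2 := Real.pi_lt_d20
  push_cast
  constructor <;> linarith

lemma three_le12 : 3 ≤ Real.pi * (36 / 25) := by
  have p1 := Real.pi_gt_d20
  linarith

lemma ex13 : (((44462645882479865912267612 : ℕ) : ℝ)) / 2 ^ 80 ≤ Real.exp (Real.pi * (151 / 100) * (mm - 1 / 2)) ∧
    Real.exp (Real.pi * (151 / 100) * (mm - 1 / 2)) ≤ ((44462645883369118829926103 : ℕ) : ℝ) / 2 ^ 80 := by
  have p1 := Real.pi_gt_d20
  have p2 := Real.pi_lt_d20
  obtain ⟨m1, m2⟩ := mm_b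
  have h1 : (1259921049894873164767 / 10 ^ 21 - 1 / 2 : ℝ) ≤ mm - 1 / 2 := by linarith
  have h2 : mm - 1 / 2 ≤ (1259921049894873164768 / 10 ^ 21 - 1 / 2 : ℝ) := by linarith
  have h3 : 0 ≤ mm - 1 / 2 := le_trans (by norm_num) h1
  push_cast
  constructor
  · refine le_trans ?_ (Real.exp_le_exp.2 (show (360491720536354 : ℝ) / 10 ^ 14 ≤ Real.pi * (151 / 100) * (mm - 1 / 2) by
      calc (360491720536354 : ℝ) / 10 ^ 14 ≤ 3.14159265358979323846 * (151 / 100) * (1259921049894873164767 / 10 ^ 21 - 1 / 2) := by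
            norm_num
        _ ≤ Real.pi * (151 / 100) * (mm - 1 / 2) := by
            refine mul_le_mul (by linarith) h1 (by norm_num) (by positivity)))
    refine exp_lb (s := 1252707645836707 / 10 ^ 15) (by norm_num) (by norm_num) ?_ ?_
    · norm_num [Finset.sum_range_succ, Nat.factorial]
    · norm_num
  · refine le_trans (Real.exp_le_exp.2 (show Real.pi * (151 / 100) * (mm - 1 / 2) ≤ (360491720536355 : ℝ) / 10 ^ 14 by
      calc Real.pi * (151 / 100) * (mm - 1 / 2) ≤ 3.14159265358979323847 * (151 / 100) *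
            (1259921049894873164768 / 10 ^ 21 - 1 / 2) := by
            refine mul_le_mul (by linarith) h2 h3 (by norm_num)
        _ ≤ (360491720536355 : ℝ) / 10 ^ 14 := by norm_num)) ?_
    refine exp_ub (s := 1252707645836713 / 10 ^ 15) (by norm_num) (by norm_num) ?_ ?_
    · norm_num [Finset.sum_range_succ, Nat.factorial]
    · norm_num

lemma er13 : ((1186730118035367763545166 : ℕ) : ℝ) / 2 ^ 80 ≤ Real.exp (-(Real.pi * (151 / 100) / 256)) ∧
    Real.exp (-(Real.pi * (151 / 100) / 256)) ≤ ((1186730118035368000891190 : ℕ) : ℝ) / 2 ^ 80 := by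
  have p1 := Real.pi_gt_d20
  have p2 := Real.pi_lt_d20
  push_cast
  constructor
  · rw [Real.exp_neg, ← one_div, le_div_iff₀ (Real.exp_pos _)]
    have h1 : Real.exp (Real.pi * (151 / 100) / 256) ≤ 2 ^ 80 / 1186730118035367763545166 := by
      refine le_trans (Real.exp_le_exp.2 (show Real.pi * (151 / 100) / 256 ≤ (185304879176585460551 : ℝ) / 10 ^ 22 by
        linarith)) ?_
      refine (Real.exp_bound' (by norm_num) (by norm_num) (n := 10) (by norm_num)).trans ?_
      norm_num [Finset.sum_range_succ, Nat.factorial]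
    calc (1186730118035367763545166 : ℝ) / 2 ^ 80 * Real.exp (Real.pi * (151 / 100) / 256)
        ≤ 1186730118035367763545166 / 2 ^ 80 * (2 ^ 80 / 1186730118035367763545166) := mul_le_mul_of_nonneg_left h1 (by norm_num)
      _ = 1 := by norm_num
  · rw [Real.exp_neg, ← one_div, div_le_iff₀ (Real.exp_pos _)]
    have h1 : (2:ℝ) ^ 80 / 1186730118035368000891190 ≤ Real.exp (Real.pi * (151 / 100) / 256) := by
      refine le_trans ?_ (Real.exp_le_exp.2 (show (185304879176585460549 : ℝ) / 10 ^ 22 ≤ Real.pi * (151 / 100) / 256 by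
        linarith))
      refine le_trans ?_ (Real.sum_le_exp_of_nonneg (by norm_num) 10)
      norm_num [Finset.sum_range_succ, Nat.factorial]
    calc (1:ℝ) = 1186730118035368000891190 / 2 ^ 80 * (2 ^ 80 / 1186730118035368000891190) := by norm_num
      _ ≤ 1186730118035368000891190 / 2 ^ 80 * Real.exp (Real.pi * (151 / 100) / 256) :=
        mul_le_mul_of_nonneg_left h1 (by norm_num)

lemma cbb13 : ((5215868655060 : ℕ) : ℝ) / 2 ^ 40 ≤ Real.pi * (151 / 100) ∧ Real.pi * (151 / 100) ≤ ((5215868655061 : ℕ) : ℝ) / 2 ^ 40 := by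
  have p1 := Real.pi_gt_d20
  have p2 := Real.pi_lt_d20
  push_cast
  constructor <;> linarith

lemma three_le13 : 3 ≤ Real.pi * (151 / 100) := by
  have p1 := Real.pi_gt_d20
  linarith

lemma ex14 : (((55119967284960611741934642 : ℕ) : ℝ)) / 2 ^ 80 ≤ Real.exp (Real.pi * (8 / 5) * (mm - 1 / 2)) ∧
    Real.exp (Real.pi * (8 / 5) * (mm - 1 / 2)) ≤ ((55119967286063011087644879 : ℕ) : ℝ) / 2 ^ 80 := by
  have p1 := Real.pi_gt_d20
  have p2 := Real.pi_lt_d20
  obtain ⟨m1, m2⟩ := mm_b
  have h1 : (1259921049894873164767 / 10 ^ 21 - 1 / 2 : ℝ) ≤ mm - 1 / 2 := by linarith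
  have h2 : mm - 1 / 2 ≤ (1259921049894873164768 / 10 ^ 21 - 1 / 2 : ℝ) := by linarith
  have h3 : 0 ≤ mm - 1 / 2 := le_trans (by norm_num) h1
  push_cast
  constructor
  · refine le_trans ?_ (Real.exp_le_exp.2 (show (381977982025276 : ℝ) / 10 ^ 14 ≤ Real.pi * (8 / 5) * (mm - 1 / 2) by
      calc (381977982025276 : ℝ) / 10 ^ 14 ≤ 3.14159265358979323846 * (8 / 5) * (1259921049894873164767 / 10 ^ 21 - 1 / 2) := by
            norm_num
        _ ≤ Real.pi * (8 / 5) * (mm - 1 / 2) := by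
            refine mul_le_mul (by linarith) h1 (by norm_num) (by positivity)))
    refine exp_lb (s := 1269643609649926 / 10 ^ 15) (by norm_num) (by norm_num) ?_ ?_
    · norm_num [Finset.sum_range_succ, Nat.factorial]
    · norm_num
  · refine le_trans (Real.exp_le_exp.2 (show Real.pi * (8 / 5) * (mm - 1 / 2) ≤ (381977982025277 : ℝ) / 10 ^ 14 by
      calc Real.pi * (8 / 5) * (mm - 1 / 2) ≤ 3.14159265358979323847 * (8 / 5) *
            (1259921049894873164768 / 10 ^ 21 - 1 / 2) := by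
            refine mul_le_mul (by linarith) h2 h3 (by norm_num)
        _ ≤ (381977982025277 : ℝ) / 10 ^ 14 := by norm_num)) ?_
    refine exp_ub (s := 1269643609649932 / 10 ^ 15) (by norm_num) (by norm_num) ?_ ?_
    · norm_num [Finset.sum_range_succ, Nat.factorial]
    · norm_num

lemma er14 : ((1185420138317611718811582 : ℕ) : ℝ) / 2 ^ 80 ≤ Real.exp (-(Real.pi * (8 / 5) / 256)) ∧
    Real.exp (-(Real.pi * (8 / 5) / 256)) ≤ ((1185420138317611955895610 : ℕ) : ℝ) / 2 ^ 80 := by
  have p1 := Real.pi_gt_d20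
  have p2 := Real.pi_lt_d20
  push_cast
  constructor
  · rw [Real.exp_neg, ← one_div, le_div_iff₀ (Real.exp_pos _)]
    have h1 : Real.exp (Real.pi * (8 / 5) / 256) ≤ 2 ^ 80 / 1185420138317611718811582 := by
      refine le_trans (Real.exp_le_exp.2 (show Real.pi * (8 / 5) / 256 ≤ (196349540849362077405 : ℝ) / 10 ^ 22 by
        linarith)) ?_
      refine (Real.exp_bound' (by norm_num) (by norm_num) (n := 10) (by norm_num)).trans ?_
      norm_num [Finset.sum_range_succ, Nat.factorial]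
    calc (1185420138317611718811582 : ℝ) / 2 ^ 80 * Real.exp (Real.pi * (8 / 5) / 256)
        ≤ 1185420138317611718811582 / 2 ^ 80 * (2 ^ 80 / 1185420138317611718811582) := mul_le_mul_of_nonneg_left h1 (by norm_num)
      _ = 1 := by norm_num
  · rw [Real.exp_neg, ← one_div, div_le_iff₀ (Real.exp_pos _)]
    have h1 : (2:ℝ) ^ 80 / 1185420138317611955895610 ≤ Real.exp (Real.pi * (8 / 5) / 256) := by
      refine le_trans ?_ (Real.exp_le_exp.2 (show (196349540849362077403 : ℝ) / 10 ^ 22 ≤ Real.pi * (8 / 5) / 256 by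
        linarith))
      refine le_trans ?_ (Real.sum_le_exp_of_nonneg (by norm_num) 10)
      norm_num [Finset.sum_range_succ, Nat.factorial]
    calc (1:ℝ) = 1185420138317611955895610 / 2 ^ 80 * (2 ^ 80 / 1185420138317611955895610) := by norm_num
      _ ≤ 1185420138317611955895610 / 2 ^ 80 * Real.exp (Real.pi * (8 / 5) / 256) :=
        mul_le_mul_of_nonneg_left h1 (by norm_num)

lemma cbb14 : ((5526748243772 : ℕ) : ℝ) / 2 ^ 40 ≤ Real.pi * (8 / 5) ∧ Real.pi * (8 / 5) ≤ ((5526748243773 : ℕ) : ℝ) / 2 ^ 40 := by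
  have p1 := Real.pi_gt_d20
  have p2 := Real.pi_lt_d20
  push_cast
  constructor <;> linarith

lemma three_le14 : 3 ≤ Real.pi * (8 / 5) := by
  have p1 := Real.pi_gt_d20
  linarith

lemma ex15 : (((56451714212818295812099803 : ℕ) : ℝ)) / 2 ^ 80 ≤ Real.exp (Real.pi * (161 / 100) * (mm - 1 / 2)) ∧
    Real.exp (Real.pi * (161 / 100) * (mm - 1 / 2)) ≤ ((56451714213947330096367460 : ℕ) : ℝ) / 2 ^ 80 := by
  have p1 := Real.pi_gt_d20
  have p2 := Real.pi_lt_d20
  obtain ⟨m1, m2⟩ := mm_b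
  have h1 : (1259921049894873164767 / 10 ^ 21 - 1 / 2 : ℝ) ≤ mm - 1 / 2 := by linarith
  have h2 : mm - 1 / 2 ≤ (1259921049894873164768 / 10 ^ 21 - 1 / 2 : ℝ) := by linarith
  have h3 : 0 ≤ mm - 1 / 2 := le_trans (by norm_num) h1
  push_cast
  constructor
  · refine le_trans ?_ (Real.exp_le_exp.2 (show (384365344412934 : ℝ) / 10 ^ 14 ≤ Real.pi * (161 / 100) * (mm - 1 / 2) by
      calc (384365344412934 : ℝ) / 10 ^ 14 ≤ 3.14159265358979323846 * (161 / 100) * (1259921049894873164767 / 10 ^ 21 - 1 / 2) := by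
            norm_num
        _ ≤ Real.pi * (161 / 100) * (mm - 1 / 2) := by
            refine mul_le_mul (by linarith) h1 (by norm_num) (by positivity)))
    refine exp_lb (s := 1271539460824001 / 10 ^ 15) (by norm_num) (by norm_num) ?_ ?_
    · norm_num [Finset.sum_range_succ, Nat.factorial]
    · norm_num
  · refine le_trans (Real.exp_le_exp.2 (show Real.pi * (161 / 100) * (mm - 1 / 2) ≤ (384365344412935 : ℝ) / 10 ^ 14 by
      calc Real.pi * (161 / 100) * (mm - 1 / 2) ≤ 3.14159265358979323847 * (161 / 100) *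
            (1259921049894873164768 / 10 ^ 21 - 1 / 2) := by
            refine mul_le_mul (by linarith) h2 h3 (by norm_num)
        _ ≤ (384365344412935 : ℝ) / 10 ^ 14 := by norm_num)) ?_
    refine exp_ub (s := 1271539460824007 / 10 ^ 15) (by norm_num) (by norm_num) ?_ ?_
    · norm_num [Finset.sum_range_succ, Nat.factorial]
    · norm_num

lemma er15 : ((1185274674305934087202422 : ℕ) : ℝ) / 2 ^ 80 ≤ Real.exp (-(Real.pi * (161 / 100) / 256)) ∧
    Real.exp (-(Real.pi * (161 / 100) / 256)) ≤ ((1185274674305934324257358 : ℕ) : ℝ) / 2 ^ 80 := by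
  have p1 := Real.pi_gt_d20
  have p2 := Real.pi_lt_d20
  push_cast
  constructor
  · rw [Real.exp_neg, ← one_div, le_div_iff₀ (Real.exp_pos _)]
    have h1 : Real.exp (Real.pi * (161 / 100) / 256) ≤ 2 ^ 80 / 1185274674305934087202422 := by
      refine le_trans (Real.exp_le_exp.2 (show Real.pi * (161 / 100) / 256 ≤ (197576725479670590389 : ℝ) / 10 ^ 22 by
        linarith)) ?_
      refine (Real.exp_bound' (by norm_num) (by norm_num) (n := 10) (by norm_num)).trans ?_
      norm_num [Finset.sum_range_succ, Nat.factorial]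
    calc (1185274674305934087202422 : ℝ) / 2 ^ 80 * Real.exp (Real.pi * (161 / 100) / 256)
        ≤ 1185274674305934087202422 / 2 ^ 80 * (2 ^ 80 / 1185274674305934087202422) := mul_le_mul_of_nonneg_left h1 (by norm_num)
      _ = 1 := by norm_num
  · rw [Real.exp_neg, ← one_div, div_le_iff₀ (Real.exp_pos _)]
    have h1 : (2:ℝ) ^ 80 / 1185274674305934324257358 ≤ Real.exp (Real.pi * (161 / 100) / 256) := by
      refine le_trans ?_ (Real.exp_le_exp.2 (show (197576725479670590387 : ℝ) / 10 ^ 22 ≤ Real.pi * (161 / 100) / 256 by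
        linarith))
      refine le_trans ?_ (Real.sum_le_exp_of_nonneg (by norm_num) 10)
      norm_num [Finset.sum_range_succ, Nat.factorial]
    calc (1:ℝ) = 1185274674305934324257358 / 2 ^ 80 * (2 ^ 80 / 1185274674305934324257358) := by norm_num
      _ ≤ 1185274674305934324257358 / 2 ^ 80 * Real.exp (Real.pi * (161 / 100) / 256) :=
        mul_le_mul_of_nonneg_left h1 (by norm_num)

lemma cbb15 : ((5561290420295 : ℕ) : ℝ) / 2 ^ 40 ≤ Real.pi * (161 / 100) ∧ Real.pi * (161 / 100) ≤ ((5561290420296 : ℕ) : ℝ) / 2 ^ 40 := by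
  have p1 := Real.pi_gt_d20
  have p2 := Real.pi_lt_d20
  push_cast
  constructor <;> linarith

lemma three_le15 : 3 ≤ Real.pi * (161 / 100) := by
  have p1 := Real.pi_gt_d20
  linarith

lemma ex16 : (((78855446982197007790773585 : ℕ) : ℝ)) / 2 ^ 80 ≤ Real.exp (Real.pi * (7 / 4) * (mm - 1 / 2)) ∧
    Real.exp (Real.pi * (7 / 4) * (mm - 1 / 2)) ≤ ((78855446983774116730433297 : ℕ) : ℝ) / 2 ^ 80 := by
  have p1 := Real.pi_gt_d20
  have p2 := Real.pi_lt_d20
  obtain ⟨m1, m2⟩ := mm_b
  have h1 : (1259921049894873164767 / 10 ^ 21 - 1 / 2 : ℝ) ≤ mm - 1 / 2 := by linarith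
  have h2 : mm - 1 / 2 ≤ (1259921049894873164768 / 10 ^ 21 - 1 / 2 : ℝ) := by linarith
  have h3 : 0 ≤ mm - 1 / 2 := le_trans (by norm_num) h1
  push_cast
  constructor
  · refine le_trans ?_ (Real.exp_le_exp.2 (show (417788417840145 : ℝ) / 10 ^ 14 ≤ Real.pi * (7 / 4) * (mm - 1 / 2) by
      calc (417788417840145 : ℝ) / 10 ^ 14 ≤ 3.14159265358979323846 * (7 / 4) * (1259921049894873164767 / 10 ^ 21 - 1 / 2) := by
            norm_num
        _ ≤ Real.pi * (7 / 4) * (mm - 1 / 2) := by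
            refine mul_le_mul (by linarith) h1 (by norm_num) (by positivity)))
    refine exp_lb (s := 1298380555218710 / 10 ^ 15) (by norm_num) (by norm_num) ?_ ?_
    · norm_num [Finset.sum_range_succ, Nat.factorial]
    · norm_num
  · refine le_trans (Real.exp_le_exp.2 (show Real.pi * (7 / 4) * (mm - 1 / 2) ≤ (417788417840147 : ℝ) / 10 ^ 14 by
      calc Real.pi * (7 / 4) * (mm - 1 / 2) ≤ 3.14159265358979323847 * (7 / 4) *
            (1259921049894873164768 / 10 ^ 21 - 1 / 2) := by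
            refine mul_le_mul (by linarith) h2 h3 (by norm_num)
        _ ≤ (417788417840147 : ℝ) / 10 ^ 14 := by norm_num)) ?_
    refine exp_ub (s := 1298380555218717 / 10 ^ 15) (by norm_num) (by norm_num) ?_ ?_
    · norm_num [Finset.sum_range_succ, Nat.factorial]
    · norm_num

lemma er16 : ((1183240051398773721709637 : ℕ) : ℝ) / 2 ^ 80 ≤ Real.exp (-(Real.pi * (7 / 4) / 256)) ∧
    Real.exp (-(Real.pi * (7 / 4) / 256)) ≤ ((1183240051398773958357648 : ℕ) : ℝ) / 2 ^ 80 := by
  have p1 := Real.pi_gt_d20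
  have p2 := Real.pi_lt_d20
  push_cast
  constructor
  · rw [Real.exp_neg, ← one_div, le_div_iff₀ (Real.exp_pos _)]
    have h1 : Real.exp (Real.pi * (7 / 4) / 256) ≤ 2 ^ 80 / 1183240051398773721709637 := by
      refine le_trans (Real.exp_le_exp.2 (show Real.pi * (7 / 4) / 256 ≤ (214757310303989772162 : ℝ) / 10 ^ 22 by
        linarith)) ?_
      refine (Real.exp_bound' (by norm_num) (by norm_num) (n := 10) (by norm_num)).trans ?_
      norm_num [Finset.sum_range_succ, Nat.factorial]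
    calc (1183240051398773721709637 : ℝ) / 2 ^ 80 * Real.exp (Real.pi * (7 / 4) / 256)
        ≤ 1183240051398773721709637 / 2 ^ 80 * (2 ^ 80 / 1183240051398773721709637) := mul_le_mul_of_nonneg_left h1 (by norm_num)
      _ = 1 := by norm_num
  · rw [Real.exp_neg, ← one_div, div_le_iff₀ (Real.exp_pos _)]
    have h1 : (2:ℝ) ^ 80 / 1183240051398773958357648 ≤ Real.exp (Real.pi * (7 / 4) / 256) := by
      refine le_trans ?_ (Real.exp_le_exp.2 (show (214757310303989772160 : ℝ) / 10 ^ 22 ≤ Real.pi * (7 / 4) / 256 by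
        linarith))
      refine le_trans ?_ (Real.sum_le_exp_of_nonneg (by norm_num) 10)
      norm_num [Finset.sum_range_succ, Nat.factorial]
    calc (1:ℝ) = 1183240051398773958357648 / 2 ^ 80 * (2 ^ 80 / 1183240051398773958357648) := by norm_num
      _ ≤ 1183240051398773958357648 / 2 ^ 80 * Real.exp (Real.pi * (7 / 4) / 256) :=
        mul_le_mul_of_nonneg_left h1 (by norm_num)

lemma cbb16 : ((6044880891625 : ℕ) : ℝ) / 2 ^ 40 ≤ Real.pi * (7 / 4) ∧ Real.pi * (7 / 4) ≤ ((6044880891626 : ℕ) : ℝ) / 2 ^ 40 := by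
  have p1 := Real.pi_gt_d20
  have p2 := Real.pi_lt_d20
  push_cast
  constructor <;> linarith

lemma three_le16 : 3 ≤ Real.pi * (7 / 4) := by
  have p1 := Real.pi_gt_d20
  linarith

lemma ex17 : (((86756980880675025951732342 : ℕ) : ℝ)) / 2 ^ 80 ≤ Real.exp (Real.pi * (179 / 100) * (mm - 1 / 2)) ∧
    Real.exp (Real.pi * (179 / 100) * (mm - 1 / 2)) ≤ ((86756980882410165569363195 : ℕ) : ℝ) / 2 ^ 80 := by
  have p1 := Real.pi_gt_d20
  have p2 := Real.pi_lt_d20
  obtain ⟨m1, m2⟩ := mm_b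
  have h1 : (1259921049894873164767 / 10 ^ 21 - 1 / 2 : ℝ) ≤ mm - 1 / 2 := by linarith
  have h2 : mm - 1 / 2 ≤ (1259921049894873164768 / 10 ^ 21 - 1 / 2 : ℝ) := by linarith
  have h3 : 0 ≤ mm - 1 / 2 := le_trans (by norm_num) h1
  push_cast
  constructor
  · refine le_trans ?_ (Real.exp_le_exp.2 (show (427337867390777 : ℝ) / 10 ^ 14 ≤ Real.pi * (179 / 100) * (mm - 1 / 2) by
      calc (427337867390777 : ℝ) / 10 ^ 14 ≤ 3.14159265358979323846 * (179 / 100) * (1259921049894873164767 / 10 ^ 21 - 1 / 2) := by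
            norm_num
        _ ≤ Real.pi * (179 / 100) * (mm - 1 / 2) := by
            refine mul_le_mul (by linarith) h1 (by norm_num) (by positivity)))
    refine exp_lb (s := 1306152988922183 / 10 ^ 15) (by norm_num) (by norm_num) ?_ ?_
    · norm_num [Finset.sum_range_succ, Nat.factorial]
    · norm_num
  · refine le_trans (Real.exp_le_exp.2 (show Real.pi * (179 / 100) * (mm - 1 / 2) ≤ (427337867390778 : ℝ) / 10 ^ 14 by
      calc Real.pi * (179 / 100) * (mm - 1 / 2) ≤ 3.14159265358979323847 * (179 / 100) *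
            (1259921049894873164768 / 10 ^ 21 - 1 / 2) := by
            refine mul_le_mul (by linarith) h2 h3 (by norm_num)
        _ ≤ (427337867390778 : ℝ) / 10 ^ 14 := by norm_num)) ?_
    refine exp_ub (s := 1306152988922189 / 10 ^ 15) (by norm_num) (by norm_num) ?_ ?_
    · norm_num [Finset.sum_range_succ, Nat.factorial]
    · norm_num

lemma er17 : ((1182659372328502842575296 : ℕ) : ℝ) / 2 ^ 80 ≤ Real.exp (-(Real.pi * (179 / 100) / 256)) ∧
    Real.exp (-(Real.pi * (179 / 100) / 256)) ≤ ((1182659372328503079107172 : ℕ) : ℝ) / 2 ^ 80 := by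
  have p1 := Real.pi_gt_d20
  have p2 := Real.pi_lt_d20
  push_cast
  constructor
  · rw [Real.exp_neg, ← one_div, le_div_iff₀ (Real.exp_pos _)]
    have h1 : Real.exp (Real.pi * (179 / 100) / 256) ≤ 2 ^ 80 / 1182659372328502842575296 := by
      refine le_trans (Real.exp_le_exp.2 (show Real.pi * (179 / 100) / 256 ≤ (219666048825223824097 : ℝ) / 10 ^ 22 by
        linarith)) ?_
      refine (Real.exp_bound' (by norm_num) (by norm_num) (n := 10) (by norm_num)).trans ?_
      norm_num [Finset.sum_range_succ, Nat.factorial]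
    calc (1182659372328502842575296 : ℝ) / 2 ^ 80 * Real.exp (Real.pi * (179 / 100) / 256)
        ≤ 1182659372328502842575296 / 2 ^ 80 * (2 ^ 80 / 1182659372328502842575296) := mul_le_mul_of_nonneg_left h1 (by norm_num)
      _ = 1 := by norm_num
  · rw [Real.exp_neg, ← one_div, div_le_iff₀ (Real.exp_pos _)]
    have h1 : (2:ℝ) ^ 80 / 1182659372328503079107172 ≤ Real.exp (Real.pi * (179 / 100) / 256) := by
      refine le_trans ?_ (Real.exp_le_exp.2 (show (219666048825223824095 : ℝ) / 10 ^ 22 ≤ Real.pi * (179 / 100) / 256 by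
        linarith))
      refine le_trans ?_ (Real.sum_le_exp_of_nonneg (by norm_num) 10)
      norm_num [Finset.sum_range_succ, Nat.factorial]
    calc (1:ℝ) = 1182659372328503079107172 / 2 ^ 80 * (2 ^ 80 / 1182659372328503079107172) := by norm_num
      _ ≤ 1182659372328503079107172 / 2 ^ 80 * Real.exp (Real.pi * (179 / 100) / 256) :=
        mul_le_mul_of_nonneg_left h1 (by norm_num)

lemma cbb17 : ((6183049597720 : ℕ) : ℝ) / 2 ^ 40 ≤ Real.pi * (179 / 100) ∧ Real.pi * (179 / 100) ≤ ((6183049597721 : ℕ) : ℝ) / 2 ^ 40 := by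
  have p1 := Real.pi_gt_d20
  have p2 := Real.pi_lt_d20
  push_cast
  constructor <;> linarith

lemma three_le17 : 3 ≤ Real.pi * (179 / 100) := by
  have p1 := Real.pi_gt_d20
  linarith

lemma ex18 : (((112811778109648902389652575 : ℕ) : ℝ)) / 2 ^ 80 ≤ Real.exp (Real.pi * (19 / 10) * (mm - 1 / 2)) ∧
    Real.exp (Real.pi * (19 / 10) * (mm - 1 / 2)) ≤ ((112811778111905137951868116 : ℕ) : ℝ) / 2 ^ 80 := by
  have p1 := Real.pi_gt_d20
  have p2 := Real.pi_lt_d20
  obtain ⟨m1, m2⟩ := mm_b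
  have h1 : (1259921049894873164767 / 10 ^ 21 - 1 / 2 : ℝ) ≤ mm - 1 / 2 := by linarith
  have h2 : mm - 1 / 2 ≤ (1259921049894873164768 / 10 ^ 21 - 1 / 2 : ℝ) := by linarith
  have h3 : 0 ≤ mm - 1 / 2 := le_trans (by norm_num) h1
  push_cast
  constructor
  · refine le_trans ?_ (Real.exp_le_exp.2 (show (453598853655015 : ℝ) / 10 ^ 14 ≤ Real.pi * (19 / 10) * (mm - 1 / 2) by
      calc (453598853655015 : ℝ) / 10 ^ 14 ≤ 3.14159265358979323846 * (19 / 10) * (1259921049894873164767 / 10 ^ 21 - 1 / 2) := by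
            norm_num
        _ ≤ Real.pi * (19 / 10) * (mm - 1 / 2) := by
            refine mul_le_mul (by linarith) h1 (by norm_num) (by positivity)))
    refine exp_lb (s := 1327767929013452 / 10 ^ 15) (by norm_num) (by norm_num) ?_ ?_
    · norm_num [Finset.sum_range_succ, Nat.factorial]
    · norm_num
  · refine le_trans (Real.exp_le_exp.2 (show Real.pi * (19 / 10) * (mm - 1 / 2) ≤ (453598853655016 : ℝ) / 10 ^ 14 by
      calc Real.pi * (19 / 10) * (mm - 1 / 2) ≤ 3.14159265358979323847 * (19 / 10) *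
            (1259921049894873164768 / 10 ^ 21 - 1 / 2) := by
            refine mul_le_mul (by linarith) h2 h3 (by norm_num)
        _ ≤ (453598853655016 : ℝ) / 10 ^ 14 := by norm_num)) ?_
    refine exp_ub (s := 1327767929013458 / 10 ^ 15) (by norm_num) (by norm_num) ?_ ?_
    · norm_num [Finset.sum_range_succ, Nat.factorial]
    · norm_num

lemma er18 : ((1181063973842371927063422 : ℕ) : ℝ) / 2 ^ 80 ≤ Real.exp (-(Real.pi * (19 / 10) / 256)) ∧
    Real.exp (-(Real.pi * (19 / 10) / 256)) ≤ ((1181063973842372163276218 : ℕ) : ℝ) / 2 ^ 80 := by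
  have p1 := Real.pi_gt_d20
  have p2 := Real.pi_lt_d20
  push_cast
  constructor
  · rw [Real.exp_neg, ← one_div, le_div_iff₀ (Real.exp_pos _)]
    have h1 : Real.exp (Real.pi * (19 / 10) / 256) ≤ 2 ^ 80 / 1181063973842371927063422 := by
      refine le_trans (Real.exp_le_exp.2 (show Real.pi * (19 / 10) / 256 ≤ (233165079758617466918 : ℝ) / 10 ^ 22 by
        linarith)) ?_
      refine (Real.exp_bound' (by norm_num) (by norm_num) (n := 10) (by norm_num)).trans ?_
      norm_num [Finset.sum_range_succ, Nat.factorial]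
    calc (1181063973842371927063422 : ℝ) / 2 ^ 80 * Real.exp (Real.pi * (19 / 10) / 256)
        ≤ 1181063973842371927063422 / 2 ^ 80 * (2 ^ 80 / 1181063973842371927063422) := mul_le_mul_of_nonneg_left h1 (by norm_num)
      _ = 1 := by norm_num
  · rw [Real.exp_neg, ← one_div, div_le_iff₀ (Real.exp_pos _)]
    have h1 : (2:ℝ) ^ 80 / 1181063973842372163276218 ≤ Real.exp (Real.pi * (19 / 10) / 256) := by
      refine le_trans ?_ (Real.exp_le_exp.2 (show (233165079758617466916 : ℝ) / 10 ^ 22 ≤ Real.pi * (19 / 10) / 256 by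
        linarith))
      refine le_trans ?_ (Real.sum_le_exp_of_nonneg (by norm_num) 10)
      norm_num [Finset.sum_range_succ, Nat.factorial]
    calc (1:ℝ) = 1181063973842372163276218 / 2 ^ 80 * (2 ^ 80 / 1181063973842372163276218) := by norm_num
      _ ≤ 1181063973842372163276218 / 2 ^ 80 * Real.exp (Real.pi * (19 / 10) / 256) :=
        mul_le_mul_of_nonneg_left h1 (by norm_num)

lemma cbb18 : ((6563013539479 : ℕ) : ℝ) / 2 ^ 40 ≤ Real.pi * (19 / 10) ∧ Real.pi * (19 / 10) ≤ ((6563013539480 : ℕ) : ℝ) / 2 ^ 40 := by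
  have p1 := Real.pi_gt_d20
  have p2 := Real.pi_lt_d20
  push_cast
  constructor <;> linarith

lemma three_le18 : 3 ≤ Real.pi * (19 / 10) := by
  have p1 := Real.pi_gt_d20
  linarith

lemma ex19 : (((181852010467841866762780367 : ℕ) : ℝ)) / 2 ^ 80 ≤ Real.exp (Real.pi * (21 / 10) * (mm - 1 / 2)) ∧
    Real.exp (Real.pi * (21 / 10) * (mm - 1 / 2)) ≤ ((181852010471478906972173576 : ℕ) : ℝ) / 2 ^ 80 := by
  have p1 := Real.pi_gt_d20
  have p2 := Real.pi_lt_d20
  obtain ⟨m1, m2⟩ := mm_b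
  have h1 : (1259921049894873164767 / 10 ^ 21 - 1 / 2 : ℝ) ≤ mm - 1 / 2 := by linarith
  have h2 : mm - 1 / 2 ≤ (1259921049894873164768 / 10 ^ 21 - 1 / 2 : ℝ) := by linarith
  have h3 : 0 ≤ mm - 1 / 2 := le_trans (by norm_num) h1
  push_cast
  constructor
  · refine le_trans ?_ (Real.exp_le_exp.2 (show (501346101408174 : ℝ) / 10 ^ 14 ≤ Real.pi * (21 / 10) * (mm - 1 / 2) by
      calc (501346101408174 : ℝ) / 10 ^ 14 ≤ 3.14159265358979323846 * (21 / 10) * (1259921049894873164767 / 10 ^ 21 - 1 / 2) := by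
            norm_num
        _ ≤ Real.pi * (21 / 10) * (mm - 1 / 2) := by
            refine mul_le_mul (by linarith) h1 (by norm_num) (by positivity)))
    refine exp_lb (s := 1367988364087382 / 10 ^ 15) (by norm_num) (by norm_num) ?_ ?_
    · norm_num [Finset.sum_range_succ, Nat.factorial]
    · norm_num
  · refine le_trans (Real.exp_le_exp.2 (show Real.pi * (21 / 10) * (mm - 1 / 2) ≤ (501346101408176 : ℝ) / 10 ^ 14 by
      calc Real.pi * (21 / 10) * (mm - 1 / 2) ≤ 3.14159265358979323847 * (21 / 10) *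
            (1259921049894873164768 / 10 ^ 21 - 1 / 2) := by
            refine mul_le_mul (by linarith) h2 h3 (by norm_num)
        _ ≤ (501346101408176 : ℝ) / 10 ^ 14 := by norm_num)) ?_
    refine exp_ub (s := 1367988364087389 / 10 ^ 15) (by norm_num) (by norm_num) ?_ ?_
    · norm_num [Finset.sum_range_succ, Nat.factorial]
    · norm_num

lemma er19 : ((1178168761144055236603742 : ℕ) : ℝ) / 2 ^ 80 ≤ Real.exp (-(Real.pi * (21 / 10) / 256)) ∧
    Real.exp (-(Real.pi * (21 / 10) / 256)) ≤ ((1178168761144055472237496 : ℕ) : ℝ) / 2 ^ 80 := by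
  have p1 := Real.pi_gt_d20
  have p2 := Real.pi_lt_d20
  push_cast
  constructor
  · rw [Real.exp_neg, ← one_div, le_div_iff₀ (Real.exp_pos _)]
    have h1 : Real.exp (Real.pi * (21 / 10) / 256) ≤ 2 ^ 80 / 1178168761144055236603742 := by
      refine le_trans (Real.exp_le_exp.2 (show Real.pi * (21 / 10) / 256 ≤ (257708772364787726594 : ℝ) / 10 ^ 22 by
        linarith)) ?_
      refine (Real.exp_bound' (by norm_num) (by norm_num) (n := 10) (by norm_num)).trans ?_
      norm_num [Finset.sum_range_succ, Nat.factorial]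
    calc (1178168761144055236603742 : ℝ) / 2 ^ 80 * Real.exp (Real.pi * (21 / 10) / 256)
        ≤ 1178168761144055236603742 / 2 ^ 80 * (2 ^ 80 / 1178168761144055236603742) := mul_le_mul_of_nonneg_left h1 (by norm_num)
      _ = 1 := by norm_num
  · rw [Real.exp_neg, ← one_div, div_le_iff₀ (Real.exp_pos _)]
    have h1 : (2:ℝ) ^ 80 / 1178168761144055472237496 ≤ Real.exp (Real.pi * (21 / 10) / 256) := by
      refine le_trans ?_ (Real.exp_le_exp.2 (show (257708772364787726592 : ℝ) / 10 ^ 22 ≤ Real.pi * (21 / 10) / 256 by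
        linarith))
      refine le_trans ?_ (Real.sum_le_exp_of_nonneg (by norm_num) 10)
      norm_num [Finset.sum_range_succ, Nat.factorial]
    calc (1:ℝ) = 1178168761144055472237496 / 2 ^ 80 * (2 ^ 80 / 1178168761144055472237496) := by norm_num
      _ ≤ 1178168761144055472237496 / 2 ^ 80 * Real.exp (Real.pi * (21 / 10) / 256) :=
        mul_le_mul_of_nonneg_left h1 (by norm_num)

lemma cbb19 : ((7253857069951 : ℕ) : ℝ) / 2 ^ 40 ≤ Real.pi * (21 / 10) ∧ Real.pi * (21 / 10) ≤ ((7253857069952 : ℕ) : ℝ) / 2 ^ 40 := by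
  have p1 := Real.pi_gt_d20
  have p2 := Real.pi_lt_d20
  push_cast
  constructor <;> linarith

lemma three_le19 : 3 ≤ Real.pi * (21 / 10) := by
  have p1 := Real.pi_gt_d20
  linarith

lemma ex20 : (((293144512615102067046651936 : ℕ) : ℝ)) / 2 ^ 80 ≤ Real.exp (Real.pi * (23 / 10) * (mm - 1 / 2)) ∧
    Real.exp (Real.pi * (23 / 10) * (mm - 1 / 2)) ≤ ((293144512620964957299012607 : ℕ) : ℝ) / 2 ^ 80 := by
  have p1 := Real.pi_gt_d20
  have p2 := Real.pi_lt_d20
  obtain ⟨m1, m2⟩ := mm_b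
  have h1 : (1259921049894873164767 / 10 ^ 21 - 1 / 2 : ℝ) ≤ mm - 1 / 2 := by linarith
  have h2 : mm - 1 / 2 ≤ (1259921049894873164768 / 10 ^ 21 - 1 / 2 : ℝ) := by linarith
  have h3 : 0 ≤ mm - 1 / 2 := le_trans (by norm_num) h1
  push_cast
  constructor
  · refine le_trans ?_ (Real.exp_le_exp.2 (show (549093349161334 : ℝ) / 10 ^ 14 ≤ Real.pi * (23 / 10) * (mm - 1 / 2) by
      calc (549093349161334 : ℝ) / 10 ^ 14 ≤ 3.14159265358979323846 * (23 / 10) * (1259921049894873164767 / 10 ^ 21 - 1 / 2) := by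
            norm_num
        _ ≤ Real.pi * (23 / 10) * (mm - 1 / 2) := by
            refine mul_le_mul (by linarith) h1 (by norm_num) (by positivity)))
    refine exp_lb (s := 1409427147158871 / 10 ^ 15) (by norm_num) (by norm_num) ?_ ?_
    · norm_num [Finset.sum_range_succ, Nat.factorial]
    · norm_num
  · refine le_trans (Real.exp_le_exp.2 (show Real.pi * (23 / 10) * (mm - 1 / 2) ≤ (549093349161335 : ℝ) / 10 ^ 14 by
      calc Real.pi * (23 / 10) * (mm - 1 / 2) ≤ 3.14159265358979323847 * (23 / 10) *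
            (1259921049894873164768 / 10 ^ 21 - 1 / 2) := by
            refine mul_le_mul (by linarith) h2 h3 (by norm_num)
        _ ≤ (549093349161335 : ℝ) / 10 ^ 14 := by norm_num)) ?_
    refine exp_ub (s := 1409427147158877 / 10 ^ 15) (by norm_num) (by norm_num) ?_ ?_
    · norm_num [Finset.sum_range_succ, Nat.factorial]
    · norm_num

lemma er20 : ((1175280645653641030968216 : ℕ) : ℝ) / 2 ^ 80 ≤ Real.exp (-(Real.pi * (23 / 10) / 256)) ∧
    Real.exp (-(Real.pi * (23 / 10) / 256)) ≤ ((1175280645653641266024346 : ℕ) : ℝ) / 2 ^ 80 := by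
  have p1 := Real.pi_gt_d20
  have p2 := Real.pi_lt_d20
  push_cast
  constructor
  · rw [Real.exp_neg, ← one_div, le_div_iff₀ (Real.exp_pos _)]
    have h1 : Real.exp (Real.pi * (23 / 10) / 256) ≤ 2 ^ 80 / 1175280645653641030968216 := by
      refine le_trans (Real.exp_le_exp.2 (show Real.pi * (23 / 10) / 256 ≤ (282252464970957986269 : ℝ) / 10 ^ 22 by
        linarith)) ?_
      refine (Real.exp_bound' (by norm_num) (by norm_num) (n := 10) (by norm_num)).trans ?_
      norm_num [Finset.sum_range_succ, Nat.factorial]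
    calc (1175280645653641030968216 : ℝ) / 2 ^ 80 * Real.exp (Real.pi * (23 / 10) / 256)
        ≤ 1175280645653641030968216 / 2 ^ 80 * (2 ^ 80 / 1175280645653641030968216) := mul_le_mul_of_nonneg_left h1 (by norm_num)
      _ = 1 := by norm_num
  · rw [Real.exp_neg, ← one_div, div_le_iff₀ (Real.exp_pos _)]
    have h1 : (2:ℝ) ^ 80 / 1175280645653641266024346 ≤ Real.exp (Real.pi * (23 / 10) / 256) := by
      refine le_trans ?_ (Real.exp_le_exp.2 (show (282252464970957986267 : ℝ) / 10 ^ 22 ≤ Real.pi * (23 / 10) / 256 by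
        linarith))
      refine le_trans ?_ (Real.sum_le_exp_of_nonneg (by norm_num) 10)
      norm_num [Finset.sum_range_succ, Nat.factorial]
    calc (1:ℝ) = 1175280645653641266024346 / 2 ^ 80 * (2 ^ 80 / 1175280645653641266024346) := by norm_num
      _ ≤ 1175280645653641266024346 / 2 ^ 80 * Real.exp (Real.pi * (23 / 10) / 256) :=
        mul_le_mul_of_nonneg_left h1 (by norm_num)

lemma cbb20 : ((7944700600422 : ℕ) : ℝ) / 2 ^ 40 ≤ Real.pi * (23 / 10) ∧ Real.pi * (23 / 10) ≤ ((7944700600423 : ℕ) : ℝ) / 2 ^ 40 := by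
  have p1 := Real.pi_gt_d20
  have p2 := Real.pi_lt_d20
  push_cast
  constructor <;> linarith

lemma three_le20 : 3 ≤ Real.pi * (23 / 10) := by
  have p1 := Real.pi_gt_d20
  linarith

lemma ex21 : (((472547457986679663584801389 : ℕ) : ℝ)) / 2 ^ 80 ≤ Real.exp (Real.pi * (5 / 2) * (mm - 1 / 2)) ∧
    Real.exp (Real.pi * (5 / 2) * (mm - 1 / 2)) ≤ ((472547457996130612744629493 : ℕ) : ℝ) / 2 ^ 80 := by
  have p1 := Real.pi_gt_d20
  have p2 := Real.pi_lt_d20
  obtain ⟨m1, m2⟩ := mm_b
  have h1 : (1259921049894873164767 / 10 ^ 21 - 1 / 2 : ℝ) ≤ mm - 1 / 2 := by linarith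
  have h2 : mm - 1 / 2 ≤ (1259921049894873164768 / 10 ^ 21 - 1 / 2 : ℝ) := by linarith
  have h3 : 0 ≤ mm - 1 / 2 := le_trans (by norm_num) h1
  push_cast
  constructor
  · refine le_trans ?_ (Real.exp_le_exp.2 (show (596840596914493 : ℝ) / 10 ^ 14 ≤ Real.pi * (5 / 2) * (mm - 1 / 2) by
      calc (596840596914493 : ℝ) / 10 ^ 14 ≤ 3.14159265358979323846 * (5 / 2) * (1259921049894873164767 / 10 ^ 21 - 1 / 2) := by
            norm_num
        _ ≤ Real.pi * (5 / 2) * (mm - 1 / 2) := by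
            refine mul_le_mul (by linarith) h1 (by norm_num) (by positivity)))
    refine exp_lb (s := 1452121184140060 / 10 ^ 15) (by norm_num) (by norm_num) ?_ ?_
    · norm_num [Finset.sum_range_succ, Nat.factorial]
    · norm_num
  · refine le_trans (Real.exp_le_exp.2 (show Real.pi * (5 / 2) * (mm - 1 / 2) ≤ (596840596914495 : ℝ) / 10 ^ 14 by
      calc Real.pi * (5 / 2) * (mm - 1 / 2) ≤ 3.14159265358979323847 * (5 / 2) *
            (1259921049894873164768 / 10 ^ 21 - 1 / 2) := by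
            refine mul_le_mul (by linarith) h2 h3 (by norm_num)
        _ ≤ (596840596914495 : ℝ) / 10 ^ 14 := by norm_num)) ?_
    refine exp_ub (s := 1452121184140067 / 10 ^ 15) (by norm_num) (by norm_num) ?_ ?_
    · norm_num [Finset.sum_range_succ, Nat.factorial]
    · norm_num

lemma er21 : ((1172399609973319456539201 : ℕ) : ℝ) / 2 ^ 80 ≤ Real.exp (-(Real.pi * (5 / 2) / 256)) ∧
    Real.exp (-(Real.pi * (5 / 2) / 256)) ≤ ((1172399609973319691019124 : ℕ) : ℝ) / 2 ^ 80 := by
  have p1 := Real.pi_gt_d20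
  have p2 := Real.pi_lt_d20
  push_cast
  constructor
  · rw [Real.exp_neg, ← one_div, le_div_iff₀ (Real.exp_pos _)]
    have h1 : Real.exp (Real.pi * (5 / 2) / 256) ≤ 2 ^ 80 / 1172399609973319456539201 := by
      refine le_trans (Real.exp_le_exp.2 (show Real.pi * (5 / 2) / 256 ≤ (306796157577128245945 : ℝ) / 10 ^ 22 by
        linarith)) ?_
      refine (Real.exp_bound' (by norm_num) (by norm_num) (n := 10) (by norm_num)).trans ?_
      norm_num [Finset.sum_range_succ, Nat.factorial]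
    calc (1172399609973319456539201 : ℝ) / 2 ^ 80 * Real.exp (Real.pi * (5 / 2) / 256)
        ≤ 1172399609973319456539201 / 2 ^ 80 * (2 ^ 80 / 1172399609973319456539201) := mul_le_mul_of_nonneg_left h1 (by norm_num)
      _ = 1 := by norm_num
  · rw [Real.exp_neg, ← one_div, div_le_iff₀ (Real.exp_pos _)]
    have h1 : (2:ℝ) ^ 80 / 1172399609973319691019124 ≤ Real.exp (Real.pi * (5 / 2) / 256) := by
      refine le_trans ?_ (Real.exp_le_exp.2 (show (306796157577128245943 : ℝ) / 10 ^ 22 ≤ Real.pi * (5 / 2) / 256 by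
        linarith))
      refine le_trans ?_ (Real.sum_le_exp_of_nonneg (by norm_num) 10)
      norm_num [Finset.sum_range_succ, Nat.factorial]
    calc (1:ℝ) = 1172399609973319691019124 / 2 ^ 80 * (2 ^ 80 / 1172399609973319691019124) := by norm_num
      _ ≤ 1172399609973319691019124 / 2 ^ 80 * Real.exp (Real.pi * (5 / 2) / 256) :=
        mul_le_mul_of_nonneg_left h1 (by norm_num)

lemma cbb21 : ((8635544130894 : ℕ) : ℝ) / 2 ^ 40 ≤ Real.pi * (5 / 2) ∧ Real.pi * (5 / 2) ≤ ((8635544130895 : ℕ) : ℝ) / 2 ^ 40 := by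
  have p1 := Real.pi_gt_d20
  have p2 := Real.pi_lt_d20
  push_cast
  constructor <;> linarith

lemma three_le21 : 3 ≤ Real.pi * (5 / 2) := by
  have p1 := Real.pi_gt_d20
  linarith

lemma ex22 : (((967143516270141003932714393 : ℕ) : ℝ)) / 2 ^ 80 ≤ Real.exp (Real.pi * (14 / 5) * (mm - 1 / 2)) ∧
    Real.exp (Real.pi * (14 / 5) * (mm - 1 / 2)) ≤ ((967143516289483874258310643 : ℕ) : ℝ) / 2 ^ 80 := by
  have p1 := Real.pi_gt_d20
  have p2 := Real.pi_lt_d20
  obtain ⟨m1, m2⟩ := mm_b
  have h1 : (1259921049894873164767 / 10 ^ 21 - 1 / 2 : ℝ) ≤ mm - 1 / 2 := by linarith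
  have h2 : mm - 1 / 2 ≤ (1259921049894873164768 / 10 ^ 21 - 1 / 2 : ℝ) := by linarith
  have h3 : 0 ≤ mm - 1 / 2 := le_trans (by norm_num) h1
  push_cast
  constructor
  · refine le_trans ?_ (Real.exp_le_exp.2 (show (668461468544233 : ℝ) / 10 ^ 14 ≤ Real.pi * (14 / 5) * (mm - 1 / 2) by
      calc (668461468544233 : ℝ) / 10 ^ 14 ≤ 3.14159265358979323846 * (14 / 5) * (1259921049894873164767 / 10 ^ 21 - 1 / 2) := by
            norm_num
        _ ≤ Real.pi * (14 / 5) * (mm - 1 / 2) := by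
            refine mul_le_mul (by linarith) h1 (by norm_num) (by positivity)))
    refine exp_lb (s := 1518599331881671 / 10 ^ 15) (by norm_num) (by norm_num) ?_ ?_
    · norm_num [Finset.sum_range_succ, Nat.factorial]
    · norm_num
  · refine le_trans (Real.exp_le_exp.2 (show Real.pi * (14 / 5) * (mm - 1 / 2) ≤ (668461468544234 : ℝ) / 10 ^ 14 by
      calc Real.pi * (14 / 5) * (mm - 1 / 2) ≤ 3.14159265358979323847 * (14 / 5) *
            (1259921049894873164768 / 10 ^ 21 - 1 / 2) := by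
            refine mul_le_mul (by linarith) h2 h3 (by norm_num)
        _ ≤ (668461468544234 : ℝ) / 10 ^ 14 := by norm_num)) ?_
    refine exp_ub (s := 1518599331881677 / 10 ^ 15) (by norm_num) (by norm_num) ?_ ?_
    · norm_num [Finset.sum_range_succ, Nat.factorial]
    · norm_num

lemma er22 : ((1168091293143980768728696 : ℕ) : ℝ) / 2 ^ 80 ≤ Real.exp (-(Real.pi * (14 / 5) / 256)) ∧
    Real.exp (-(Real.pi * (14 / 5) / 256)) ≤ ((1168091293143981002346955 : ℕ) : ℝ) / 2 ^ 80 := by
  have p1 := Real.pi_gt_d20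
  have p2 := Real.pi_lt_d20
  push_cast
  constructor
  · rw [Real.exp_neg, ← one_div, le_div_iff₀ (Real.exp_pos _)]
    have h1 : Real.exp (Real.pi * (14 / 5) / 256) ≤ 2 ^ 80 / 1168091293143980768728696 := by
      refine le_trans (Real.exp_le_exp.2 (show Real.pi * (14 / 5) / 256 ≤ (343611696486383635458 : ℝ) / 10 ^ 22 by
        linarith)) ?_
      refine (Real.exp_bound' (by norm_num) (by norm_num) (n := 10) (by norm_num)).trans ?_
      norm_num [Finset.sum_range_succ, Nat.factorial]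
    calc (1168091293143980768728696 : ℝ) / 2 ^ 80 * Real.exp (Real.pi * (14 / 5) / 256)
        ≤ 1168091293143980768728696 / 2 ^ 80 * (2 ^ 80 / 1168091293143980768728696) := mul_le_mul_of_nonneg_left h1 (by norm_num)
      _ = 1 := by norm_num
  · rw [Real.exp_neg, ← one_div, div_le_iff₀ (Real.exp_pos _)]
    have h1 : (2:ℝ) ^ 80 / 1168091293143981002346955 ≤ Real.exp (Real.pi * (14 / 5) / 256) := by
      refine le_trans ?_ (Real.exp_le_exp.2 (show (343611696486383635456 : ℝ) / 10 ^ 22 ≤ Real.pi * (14 / 5) / 256 by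
        linarith))
      refine le_trans ?_ (Real.sum_le_exp_of_nonneg (by norm_num) 10)
      norm_num [Finset.sum_range_succ, Nat.factorial]
    calc (1:ℝ) = 1168091293143981002346955 / 2 ^ 80 * (2 ^ 80 / 1168091293143981002346955) := by norm_num
      _ ≤ 1168091293143981002346955 / 2 ^ 80 * Real.exp (Real.pi * (14 / 5) / 256) :=
        mul_le_mul_of_nonneg_left h1 (by norm_num)

lemma cbb22 : ((9671809426601 : ℕ) : ℝ) / 2 ^ 40 ≤ Real.pi * (14 / 5) ∧ Real.pi * (14 / 5) ≤ ((9671809426602 : ℕ) : ℝ) / 2 ^ 40 := by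
  have p1 := Real.pi_gt_d20
  have p2 := Real.pi_lt_d20
  push_cast
  constructor <;> linarith

lemma three_le22 : 3 ≤ Real.pi * (14 / 5) := by
  have p1 := Real.pi_gt_d20
  linarith

lemma ex23 : (((1596697958513984864569475280 : ℕ) : ℝ)) / 2 ^ 80 ≤ Real.exp (Real.pi * (301 / 100) * (mm - 1 / 2)) ∧
    Real.exp (Real.pi * (301 / 100) * (mm - 1 / 2)) ≤ ((1596697958545918823740074318 : ℕ) : ℝ) / 2 ^ 80 := by
  have p1 := Real.pi_gt_d20
  have p2 := Real.pi_lt_d20
  obtain ⟨m1, m2⟩ := mm_b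
  have h1 : (1259921049894873164767 / 10 ^ 21 - 1 / 2 : ℝ) ≤ mm - 1 / 2 := by linarith
  have h2 : mm - 1 / 2 ≤ (1259921049894873164768 / 10 ^ 21 - 1 / 2 : ℝ) := by linarith
  have h3 : 0 ≤ mm - 1 / 2 := le_trans (by norm_num) h1
  push_cast
  constructor
  · refine le_trans ?_ (Real.exp_le_exp.2 (show (718596078685050 : ℝ) / 10 ^ 14 ≤ Real.pi * (301 / 100) * (mm - 1 / 2) by
      calc (718596078685050 : ℝ) / 10 ^ 14 ≤ 3.14159265358979323846 * (301 / 100) * (1259921049894873164767 / 10 ^ 21 - 1 / 2) := by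
            norm_num
        _ ≤ Real.pi * (301 / 100) * (mm - 1 / 2) := by
            refine mul_le_mul (by linarith) h1 (by norm_num) (by positivity)))
    refine exp_lb (s := 1566936672234971 / 10 ^ 15) (by norm_num) (by norm_num) ?_ ?_
    · norm_num [Finset.sum_range_succ, Nat.factorial]
    · norm_num
  · refine le_trans (Real.exp_le_exp.2 (show Real.pi * (301 / 100) * (mm - 1 / 2) ≤ (718596078685052 : ℝ) / 10 ^ 14 by
      calc Real.pi * (301 / 100) * (mm - 1 / 2) ≤ 3.14159265358979323847 * (301 / 100) *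
            (1259921049894873164768 / 10 ^ 21 - 1 / 2) := by
            refine mul_le_mul (by linarith) h2 h3 (by norm_num)
        _ ≤ (718596078685052 : ℝ) / 10 ^ 14 := by norm_num)) ?_
    refine exp_ub (s := 1566936672234978 / 10 ^ 15) (by norm_num) (by norm_num) ?_ ?_
    · norm_num [Finset.sum_range_succ, Nat.factorial]
    · norm_num

lemma er23 : ((1165084894952141903466705 : ℕ) : ℝ) / 2 ^ 80 ≤ Real.exp (-(Real.pi * (301 / 100) / 256)) ∧
    Real.exp (-(Real.pi * (301 / 100) / 256)) ≤ ((1165084894952142136483685 : ℕ) : ℝ) / 2 ^ 80 := by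
  have p1 := Real.pi_gt_d20
  have p2 := Real.pi_lt_d20
  push_cast
  constructor
  · rw [Real.exp_neg, ← one_div, le_div_iff₀ (Real.exp_pos _)]
    have h1 : Real.exp (Real.pi * (301 / 100) / 256) ≤ 2 ^ 80 / 1165084894952141903466705 := by
      refine le_trans (Real.exp_le_exp.2 (show Real.pi * (301 / 100) / 256 ≤ (369382573722862408117 : ℝ) / 10 ^ 22 by
        linarith)) ?_
      refine (Real.exp_bound' (by norm_num) (by norm_num) (n := 10) (by norm_num)).trans ?_
      norm_num [Finset.sum_range_succ, Nat.factorial]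
    calc (1165084894952141903466705 : ℝ) / 2 ^ 80 * Real.exp (Real.pi * (301 / 100) / 256)
        ≤ 1165084894952141903466705 / 2 ^ 80 * (2 ^ 80 / 1165084894952141903466705) := mul_le_mul_of_nonneg_left h1 (by norm_num)
      _ = 1 := by norm_num
  · rw [Real.exp_neg, ← one_div, div_le_iff₀ (Real.exp_pos _)]
    have h1 : (2:ℝ) ^ 80 / 1165084894952142136483685 ≤ Real.exp (Real.pi * (301 / 100) / 256) := by
      refine le_trans ?_ (Real.exp_le_exp.2 (show (369382573722862408115 : ℝ) / 10 ^ 22 ≤ Real.pi * (301 / 100) / 256 by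
        linarith))
      refine le_trans ?_ (Real.sum_le_exp_of_nonneg (by norm_num) 10)
      norm_num [Finset.sum_range_succ, Nat.factorial]
    calc (1:ℝ) = 1165084894952142136483685 / 2 ^ 80 * (2 ^ 80 / 1165084894952142136483685) := by norm_num
      _ ≤ 1165084894952142136483685 / 2 ^ 80 * Real.exp (Real.pi * (301 / 100) / 256) :=
        mul_le_mul_of_nonneg_left h1 (by norm_num)

lemma cbb23 : ((10397195133596 : ℕ) : ℝ) / 2 ^ 40 ≤ Real.pi * (301 / 100) ∧ Real.pi * (301 / 100) ≤ ((10397195133597 : ℕ) : ℝ) / 2 ^ 40 := by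
  have p1 := Real.pi_gt_d20
  have p2 := Real.pi_lt_d20
  push_cast
  constructor <;> linarith

lemma three_le23 : 3 ≤ Real.pi * (301 / 100) := by
  have p1 := Real.pi_gt_d20
  linarith

lemma ex24 : (((5143559197706971509038520748 : ℕ) : ℝ)) / 2 ^ 80 ≤ Real.exp (Real.pi * (7 / 2) * (mm - 1 / 2)) ∧
    Real.exp (Real.pi * (7 / 2) * (mm - 1 / 2)) ≤ ((5143559197809842692993688891 : ℕ) : ℝ) / 2 ^ 80 := by
  have p1 := Real.pi_gt_d20
  have p2 := Real.pi_lt_d20
  obtain ⟨m1, m2⟩ := mm_b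
  have h1 : (1259921049894873164767 / 10 ^ 21 - 1 / 2 : ℝ) ≤ mm - 1 / 2 := by linarith
  have h2 : mm - 1 / 2 ≤ (1259921049894873164768 / 10 ^ 21 - 1 / 2 : ℝ) := by linarith
  have h3 : 0 ≤ mm - 1 / 2 := le_trans (by norm_num) h1
  push_cast
  constructor
  · refine le_trans ?_ (Real.exp_le_exp.2 (show (835576835680291 : ℝ) / 10 ^ 14 ≤ Real.pi * (7 / 2) * (mm - 1 / 2) by
      calc (835576835680291 : ℝ) / 10 ^ 14 ≤ 3.14159265358979323846 * (7 / 2) * (1259921049894873164767 / 10 ^ 21 - 1 / 2) := by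
            norm_num
        _ ≤ Real.pi * (7 / 2) * (mm - 1 / 2) := by
            refine mul_le_mul (by linarith) h1 (by norm_num) (by positivity)))
    refine exp_lb (s := 1685792066170051 / 10 ^ 15) (by norm_num) (by norm_num) ?_ ?_
    · norm_num [Finset.sum_range_succ, Nat.factorial]
    · norm_num
  · refine le_trans (Real.exp_le_exp.2 (show Real.pi * (7 / 2) * (mm - 1 / 2) ≤ (835576835680293 : ℝ) / 10 ^ 14 by
      calc Real.pi * (7 / 2) * (mm - 1 / 2) ≤ 3.14159265358979323847 * (7 / 2) *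
            (1259921049894873164768 / 10 ^ 21 - 1 / 2) := by
            refine mul_le_mul (by linarith) h2 h3 (by norm_num)
        _ ≤ (835576835680293 : ℝ) / 10 ^ 14 := by norm_num)) ?_
    refine exp_ub (s := 1685792066170058 / 10 ^ 15) (by norm_num) (by norm_num) ?_ ?_
    · norm_num [Finset.sum_range_succ, Nat.factorial]
    · norm_num

lemma er24 : ((1158100022779289121595826 : ℕ) : ℝ) / 2 ^ 80 ≤ Real.exp (-(Real.pi * (7 / 2) / 256)) ∧
    Real.exp (-(Real.pi * (7 / 2) / 256)) ≤ ((1158100022779289353215832 : ℕ) : ℝ) / 2 ^ 80 := by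
  have p1 := Real.pi_gt_d20
  have p2 := Real.pi_lt_d20
  push_cast
  constructor
  · rw [Real.exp_neg, ← one_div, le_div_iff₀ (Real.exp_pos _)]
    have h1 : Real.exp (Real.pi * (7 / 2) / 256) ≤ 2 ^ 80 / 1158100022779289121595826 := by
      refine le_trans (Real.exp_le_exp.2 (show Real.pi * (7 / 2) / 256 ≤ (429514620607979544323 : ℝ) / 10 ^ 22 by
        linarith)) ?_
      refine (Real.exp_bound' (by norm_num) (by norm_num) (n := 10) (by norm_num)).trans ?_
      norm_num [Finset.sum_range_succ, Nat.factorial]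
    calc (1158100022779289121595826 : ℝ) / 2 ^ 80 * Real.exp (Real.pi * (7 / 2) / 256)
        ≤ 1158100022779289121595826 / 2 ^ 80 * (2 ^ 80 / 1158100022779289121595826) := mul_le_mul_of_nonneg_left h1 (by norm_num)
      _ = 1 := by norm_num
  · rw [Real.exp_neg, ← one_div, div_le_iff₀ (Real.exp_pos _)]
    have h1 : (2:ℝ) ^ 80 / 1158100022779289353215832 ≤ Real.exp (Real.pi * (7 / 2) / 256) := by
      refine le_trans ?_ (Real.exp_le_exp.2 (show (429514620607979544320 : ℝ) / 10 ^ 22 ≤ Real.pi * (7 / 2) / 256 by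
        linarith))
      refine le_trans ?_ (Real.sum_le_exp_of_nonneg (by norm_num) 10)
      norm_num [Finset.sum_range_succ, Nat.factorial]
    calc (1:ℝ) = 1158100022779289353215832 / 2 ^ 80 * (2 ^ 80 / 1158100022779289353215832) := by norm_num
      _ ≤ 1158100022779289353215832 / 2 ^ 80 * Real.exp (Real.pi * (7 / 2) / 256) :=
        mul_le_mul_of_nonneg_left h1 (by norm_num)

lemma cbb24 : ((12089761783251 : ℕ) : ℝ) / 2 ^ 40 ≤ Real.pi * (7 / 2) ∧ Real.pi * (7 / 2) ≤ ((12089761783252 : ℕ) : ℝ) / 2 ^ 40 := by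
  have p1 := Real.pi_gt_d20
  have p2 := Real.pi_lt_d20
  push_cast
  constructor <;> linarith

lemma three_le24 : 3 ≤ Real.pi * (7 / 2) := by
  have p1 := Real.pi_gt_d20
  linarith

end Pool.Agent.U316.Ep
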