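import Pool.Agent.U316.Ep.TabOK
import Pool.Agent.U316.Ep.Exps

/-!
# Validity of the tables of the environment
-/

set_option autoImplicit false

open Matrix Pool.Agent.K1H99.FCC

namespace Pool.Agent.U316.Ep

open Pool.Agent.U316.Th (mm mm_bounds mm_pos mm_cube tan1 low1)

/-- the minimal norm of the body-centred cubic lattice of covolume one -/
noncomputable def mB : ℝ := 3 / 4 * mm ^ 2

lemma mB_b : (1309024435937 : ℝ) / 2 ^ 40 ≤ mB ∧ mB ≤ 1309024435938 / 2 ^ 40 := by
  obtain ⟨h1, h2⟩ := mm_b
  unfold mB
  constructor <;> nlinarith

lemma low_f {c : ℝ} (h3 : 3 ≤ c) (h11 : c ≤ 11) (v : ℝ) :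
    -(((4194304 : ℕ)) : ℝ) ≤ 2 ^ 24 * (Real.exp (c * (mm - v)) * (mB - v)) := by
  rcases le_total v mB with h | h
  · have := mul_nonneg (Real.exp_pos (c * (mm - v))).le (sub_nonneg.2 h)
    push_cast
    linarith
  · have e : Real.exp (c * (mm - v)) = Real.exp (c * (mm - mB)) * Real.exp (-(c * (v - mB))) := by
      rw [← Real.exp_add]
      congr 1
      ring
    obtain ⟨m1, m2⟩ := mm_b
    obtain ⟨m3, m4⟩ := mB_b
    have hd0 : 0 ≤ mm - mB := by
      norm_num at m1 m4 ⊢
      linarith
    have hd : mm - mB ≤ 7 / 100 := by
      norm_num at m2 m3 ⊢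
      linarith
    -- `exp (c d) ≤ 1 / (1 - c d)`
    have h1 : Real.exp (c * (mm - mB)) * (1 - c * (mm - mB)) ≤ 1 := by
      have a := Real.add_one_le_exp (-(c * (mm - mB)))
      have b : Real.exp (c * (mm - mB)) * Real.exp (-(c * (mm - mB))) = 1 := by
        rw [← Real.exp_add]; simp
      have d := mul_le_mul_of_nonneg_left a (Real.exp_pos (c * (mm - mB))).le
      linarith
    have h2 : c * (v - mB) * Real.exp (-(c * (v - mB))) ≤ 3 / 8 := by
      set y := c * (v - mB)
      have a := Real.add_one_le_exp (y - 1)
      have b : Real.exp (y - 1) * Real.exp (-y) = Real.exp (-1) := by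
        rw [← Real.exp_add]; congr 1; ring
      have d := mul_le_mul_of_nonneg_right a (Real.exp_pos (-y)).le
      rw [b] at d
      have h6 : Real.exp (-1) ≤ 3 / 8 := by
        rw [Real.exp_neg, inv_le_comm₀ (Real.exp_pos 1) (by norm_num)]
        have := Real.exp_one_gt_d9
        linarith
      linarith
    rw [e]
    have hc : 0 < c := by linarith
    set E := Real.exp (c * (mm - mB))
    set F := Real.exp (-(c * (v - mB)))
    have hE : 0 < E := Real.exp_pos _
    have hF : 0 < F := Real.exp_pos _
    have h4 : 3 / 2 ≤ c * (1 - c * (mm - mB)) := by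
      have a := mul_le_mul_of_nonneg_left hd (sq_nonneg c)
      have b := mul_nonneg (sub_nonneg.2 h3) (sub_nonneg.2 h11)
      nlinarith
    have h5 : E * (3 / 2) ≤ c := by
      have := mul_le_mul_of_nonneg_left h4 hE.le
      nlinarith
    have h7 : E * (c * (v - mB) * F) ≤ E * (3 / 8) := mul_le_mul_of_nonneg_left h2 hE.le
    have h8 : c * (E * F * (v - mB)) ≤ c * (1 / 4) := by nlinarith
    have h9 := le_of_mul_le_mul_left h8 hc
    push_cast
    nlinarith

lemma low_p {c : ℝ} (h3 : 3 ≤ c) (S : ℕ) (v : ℝ) :
    -(((2097152 : ℕ)) : ℝ) ≤ 2 ^ 24 * (Real.exp (c * (mm - v)) * ((S : ℝ) / 2 ^ 40 + mm - v)) := by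
  have h1 := low1 (c := c) (s := (S:ℝ) / 2 ^ 40) (x := mm - v) h3 (by positivity)
  have e : (S : ℝ) / 2 ^ 40 + mm - v = (S : ℝ) / 2 ^ 40 + (mm - v) := by ring
  rw [e]
  push_cast
  linarith

lemma ok_a0 : OK0 t_a0 (Real.pi * 1) :=
  ok0_of (P := 3454217652357) (Q := 3454217652358) (R1 := 1194180727564413015786649) (R2 := 1194180727564413254622796)
    (L := 13158850849087338658950269) (U := 13158850849350515675934649) (lk_big (n := 1024) (by decide +kernel))
    (by have := three_le0; linarith) cbb0.1 cbb0.2 ex0 er0 (by decide +kernel) (by decide +kernel)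

lemma ok_f0 : OK1 t_f0 (Real.pi * 1) mB 4194304 :=
  ok1_of (lo0 := 1309024435937) (hi0 := 1309024435938) (P := 3454217652357) (Q := 3454217652358) (R1 := 1194180727564413015786649) (R2 := 1194180727564413254622796)
    (L := 13158850849087338658950269) (U := 13158850849350515675934649) (lk_big (n := 1024) (by decide +kernel))
    (by have := three_le0; linarith) cbb0.1 cbb0.2 (by push_cast; exact mB_b.1)
    (by push_cast; exact mB_b.2)
    (low_f three_le0 (by have := Real.pi_lt_d20; linarith)) ex0 er0 (by decide +kernel)
    (by decide +kernel)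

lemma ok_a1 : OK0 t_a1 (Real.pi * (27 / 25)) :=
  ok0_of (P := 3730555064546) (Q := 3730555064547) (R1 := 1193008918681129927544530) (R2 := 1193008918681130166146315)
    (L := 15928080035808761849485031) (U := 15928080036127323450204393) (lk_big (n := 1024) (by decide +kernel))
    (by have := three_le2; linarith) cbb2.1 cbb2.2 ex2 er2 (by decide +kernel) (by decide +kernel)

lemma ok_f1 : OK1 t_f1 (Real.pi * (27 / 25)) mB 4194304 :=
  ok1_of (lo0 := 1309024435937) (hi0 := 1309024435938) (P := 3730555064546) (Q := 3730555064547) (R1 := 1193008918681129927544530) (R2 := 1193008918681130166146315)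
    (L := 15928080035808761849485031) (U := 15928080036127323450204393) (lk_big (n := 1024) (by decide +kernel))
    (by have := three_le2; linarith) cbb2.1 cbb2.2 (by push_cast; exact mB_b.1)
    (by push_cast; exact mB_b.2)
    (low_f three_le2 (by have := Real.pi_lt_d20; linarith)) ex2 er2 (by decide +kernel)
    (by decide +kernel)

lemma ok_a2 : OK0 t_a2 (Real.pi * (117 / 100)) :=
  ok0_of (P := 4041434653258) (Q := 4041434653259) (R1 := 1191692008068663467396376) (R2 := 1191692008068663705734779)
    (L := 19745906548309220903635999) (U := 19745906548704139034606134) (lk_big (n := 1024) (by decide +kernel))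
    (by have := three_le5; linarith) cbb5.1 cbb5.2 ex5 er5 (by decide +kernel) (by decide +kernel)

lemma ok_f2 : OK1 t_f2 (Real.pi * (117 / 100)) mB 4194304 :=
  ok1_of (lo0 := 1309024435937) (hi0 := 1309024435938) (P := 4041434653258) (Q := 4041434653259) (R1 := 1191692008068663467396376) (R2 := 1191692008068663705734779)
    (L := 19745906548309220903635999) (U := 19745906548704139034606134) (lk_big (n := 1024) (by decide +kernel))
    (by have := three_le5; linarith) cbb5.1 cbb5.2 (by push_cast; exact mB_b.1)
    (by push_cast; exact mB_b.2)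
    (low_f three_le5 (by have := Real.pi_lt_d20; linarith)) ex5 er5 (by decide +kernel)
    (by decide +kernel)

lemma ok_a3 : OK0 t_a3 (Real.pi * (32 / 25)) :=
  ok0_of (P := 4421398595017) (Q := 4421398595018) (R1 := 1190084424625711678300443) (R2 := 1190084424625711916317329)
    (L := 25675983713235816422545985) (U := 25675983713749336096815837) (lk_big (n := 1024) (by decide +kernel))
    (by have := three_le8; linarith) cbb8.1 cbb8.2 ex8 er8 (by decide +kernel) (by decide +kernel)

lemma ok_f3 : OK1 t_f3 (Real.pi * (32 / 25)) mB 4194304 :=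
  ok1_of (lo0 := 1309024435937) (hi0 := 1309024435938) (P := 4421398595017) (Q := 4421398595018) (R1 := 1190084424625711678300443) (R2 := 1190084424625711916317329)
    (L := 25675983713235816422545985) (U := 25675983713749336096815837) (lk_big (n := 1024) (by decide +kernel))
    (by have := three_le8; linarith) cbb8.1 cbb8.2 (by push_cast; exact mB_b.1)
    (by push_cast; exact mB_b.2)
    (low_f three_le8 (by have := Real.pi_lt_d20; linarith)) ex8 er8 (by decide +kernel)
    (by decide +kernel)

lemma ok_a4 : OK0 t_a4 (Real.pi * (71 / 50)) :=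
  ok0_of (P := 4904989066347) (Q := 4904989066348) (R1 := 1188041545380682563673493) (R2 := 1188041545380682801281803)
    (L := 35865893545444916699589771) (U := 35865893546162234570505844) (lk_big (n := 1024) (by decide +kernel))
    (by have := three_le11; linarith) cbb11.1 cbb11.2 ex11 er11 (by decide +kernel) (by decide +kernel)

lemma ok_f4 : OK1 t_f4 (Real.pi * (71 / 50)) mB 4194304 :=
  ok1_of (lo0 := 1309024435937) (hi0 := 1309024435938) (P := 4904989066347) (Q := 4904989066348) (R1 := 1188041545380682563673493) (R2 := 1188041545380682801281803)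
    (L := 35865893545444916699589771) (U := 35865893546162234570505844) (lk_big (n := 1024) (by decide +kernel))
    (by have := three_le11; linarith) cbb11.1 cbb11.2 (by push_cast; exact mB_b.1)
    (by push_cast; exact mB_b.2)
    (low_f three_le11 (by have := Real.pi_lt_d20; linarith)) ex11 er11 (by decide +kernel)
    (by decide +kernel)

lemma ok_a5 : OK0 t_a5 (Real.pi * (8 / 5)) :=
  ok0_of (P := 5526748243772) (Q := 5526748243773) (R1 := 1185420138317611718811582) (R2 := 1185420138317611955895610)
    (L := 55119967284960611741934642) (U := 55119967286063011087644879) (lk_big (n := 1024) (by decide +kernel))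
    (by have := three_le14; linarith) cbb14.1 cbb14.2 ex14 er14 (by decide +kernel) (by decide +kernel)

lemma ok_f5 : OK1 t_f5 (Real.pi * (8 / 5)) mB 4194304 :=
  ok1_of (lo0 := 1309024435937) (hi0 := 1309024435938) (P := 5526748243772) (Q := 5526748243773) (R1 := 1185420138317611718811582) (R2 := 1185420138317611955895610)
    (L := 55119967284960611741934642) (U := 55119967286063011087644879) (lk_big (n := 1024) (by decide +kernel))
    (by have := three_le14; linarith) cbb14.1 cbb14.2 (by push_cast; exact mB_b.1)
    (by push_cast; exact mB_b.2)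
    (low_f three_le14 (by have := Real.pi_lt_d20; linarith)) ex14 er14 (by decide +kernel)
    (by decide +kernel)

lemma ok_a6 : OK0 t_a6 (Real.pi * (19 / 10)) :=
  ok0_of (P := 6563013539479) (Q := 6563013539480) (R1 := 1181063973842371927063422) (R2 := 1181063973842372163276218)
    (L := 112811778109648902389652575) (U := 112811778111905137951868116) (lk_big (n := 1024) (by decide +kernel))
    (by have := three_le18; linarith) cbb18.1 cbb18.2 ex18 er18 (by decide +kernel) (by decide +kernel)

lemma ok_f6 : OK1 t_f6 (Real.pi * (19 / 10)) mB 4194304 :=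
  ok1_of (lo0 := 1309024435937) (hi0 := 1309024435938) (P := 6563013539479) (Q := 6563013539480) (R1 := 1181063973842371927063422) (R2 := 1181063973842372163276218)
    (L := 112811778109648902389652575) (U := 112811778111905137951868116) (lk_big (n := 1024) (by decide +kernel))
    (by have := three_le18; linarith) cbb18.1 cbb18.2 (by push_cast; exact mB_b.1)
    (by push_cast; exact mB_b.2)
    (low_f three_le18 (by have := Real.pi_lt_d20; linarith)) ex18 er18 (by decide +kernel)
    (by decide +kernel)

lemma ok_a7 : OK0 t_a7 (Real.pi * (23 / 10)) :=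
  ok0_of (P := 7944700600422) (Q := 7944700600423) (R1 := 1175280645653641030968216) (R2 := 1175280645653641266024346)
    (L := 293144512615102067046651936) (U := 293144512620964957299012607) (lk_big (n := 1024) (by decide +kernel))
    (by have := three_le20; linarith) cbb20.1 cbb20.2 ex20 er20 (by decide +kernel) (by decide +kernel)

lemma ok_f7 : OK1 t_f7 (Real.pi * (23 / 10)) mB 4194304 :=
  ok1_of (lo0 := 1309024435937) (hi0 := 1309024435938) (P := 7944700600422) (Q := 7944700600423) (R1 := 1175280645653641030968216) (R2 := 1175280645653641266024346)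
    (L := 293144512615102067046651936) (U := 293144512620964957299012607) (lk_big (n := 1024) (by decide +kernel))
    (by have := three_le20; linarith) cbb20.1 cbb20.2 (by push_cast; exact mB_b.1)
    (by push_cast; exact mB_b.2)
    (low_f three_le20 (by have := Real.pi_lt_d20; linarith)) ex20 er20 (by decide +kernel)
    (by decide +kernel)

lemma ok_a8 : OK0 t_a8 (Real.pi * (14 / 5)) :=
  ok0_of (P := 9671809426601) (Q := 9671809426602) (R1 := 1168091293143980768728696) (R2 := 1168091293143981002346955)
    (L := 967143516270141003932714393) (U := 967143516289483874258310643) (lk_big (n := 1024) (by decide +kernel))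
    (by have := three_le22; linarith) cbb22.1 cbb22.2 ex22 er22 (by decide +kernel) (by decide +kernel)

lemma ok_f8 : OK1 t_f8 (Real.pi * (14 / 5)) mB 4194304 :=
  ok1_of (lo0 := 1309024435937) (hi0 := 1309024435938) (P := 9671809426601) (Q := 9671809426602) (R1 := 1168091293143980768728696) (R2 := 1168091293143981002346955)
    (L := 967143516270141003932714393) (U := 967143516289483874258310643) (lk_big (n := 1024) (by decide +kernel))
    (by have := three_le22; linarith) cbb22.1 cbb22.2 (by push_cast; exact mB_b.1)
    (by push_cast; exact mB_b.2)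
    (low_f three_le22 (by have := Real.pi_lt_d20; linarith)) ex22 er22 (by decide +kernel)
    (by decide +kernel)

lemma ok_a9 : OK0 t_a9 (Real.pi * (7 / 2)) :=
  ok0_of (P := 12089761783251) (Q := 12089761783252) (R1 := 1158100022779289121595826) (R2 := 1158100022779289353215832)
    (L := 5143559197706971509038520748) (U := 5143559197809842692993688891) (lk_big (n := 1024) (by decide +kernel))
    (by have := three_le24; linarith) cbb24.1 cbb24.2 ex24 er24 (by decide +kernel) (by decide +kernel)

lemma ok_f9 : OK1 t_f9 (Real.pi * (7 / 2)) mB 4194304 :=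
  ok1_of (lo0 := 1309024435937) (hi0 := 1309024435938) (P := 12089761783251) (Q := 12089761783252) (R1 := 1158100022779289121595826) (R2 := 1158100022779289353215832)
    (L := 5143559197706971509038520748) (U := 5143559197809842692993688891) (lk_big (n := 1024) (by decide +kernel))
    (by have := three_le24; linarith) cbb24.1 cbb24.2 (by push_cast; exact mB_b.1)
    (by push_cast; exact mB_b.2)
    (low_f three_le24 (by have := Real.pi_lt_d20; linarith)) ex24 er24 (by decide +kernel)
    (by decide +kernel)

lemma ok_m01 : OKm t_m01 (Real.pi * (26 / 25)) (((8749635398121 : ℕ) : ℝ) / 2 ^ 40) := by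
  obtain ⟨m1, m2⟩ := mm_bounds
  have h := okm_of (lo0 := 7364337553681) (hi0 := 7364337553682) (T := t_m01) (a0 := ((8749635398121 : ℕ) : ℝ) / 2 ^ 40 - mm)
    (P := 3592386358451) (Q := 3592386358452) (R1 := 1193594679320189236788332) (R2 := 1193594679320189475507269)
    (L := 14477404100995910703829949) (U := 14477404101285458785852763) (lk_big (n := 1024) (by decide +kernel))
    (by have := three_le1; linarith) cbb1.1 cbb1.2 (by push_cast; linarith)
    (by push_cast; linarith) (by decide +kernel) (by decide +kernel) ex1 er1
    (by decide +kernel) (by decide +kernel)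
  rwa [sub_add_cancel] at h

lemma ok_p01 : OK1 t_p01 (Real.pi * (26 / 25)) (((8749635398121 : ℕ) : ℝ) / 2 ^ 40 + mm) 2097152 := by
  obtain ⟨m1, m2⟩ := mm_bounds
  exact ok1_of (lo0 := 10134933242560) (hi0 := 10134933242561) (P := 3592386358451) (Q := 3592386358452) (R1 := 1193594679320189236788332) (R2 := 1193594679320189475507269)
    (L := 14477404100995910703829949) (U := 14477404101285458785852763) (lk_big (n := 1024) (by decide +kernel))
    (by have := three_le1; linarith) cbb1.1 cbb1.2 (by push_cast; linarith)
    (by push_cast; linarith) (low_p three_le1 _) ex1 er1 (by decide +kernel)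
    (by decide +kernel)

lemma ok_m02 : OKm t_m02 (Real.pi * (217 / 200)) (((4117475481468 : ℕ) : ℝ) / 2 ^ 40) := by
  obtain ⟨m1, m2⟩ := mm_bounds
  have h := okm_of (lo0 := 2732177637028) (hi0 := 2732177637029) (T := t_m02) (a0 := ((4117475481468 : ℕ) : ℝ) / 2 ^ 40 - mm)
    (P := 3747826152808) (Q := 3747826152809) (R1 := 1192935718816455292400772) (R2 := 1192935718816455530987916)
    (L := 16119349836430067131891262) (U := 16119349836752454128623089) (lk_big (n := 1024) (by decide +kernel))
    (by have := three_le3; linarith) cbb3.1 cbb3.2 (by push_cast; linarith)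
    (by push_cast; linarith) (by decide +kernel) (by decide +kernel) ex3 er3
    (by decide +kernel) (by decide +kernel)
  rwa [sub_add_cancel] at h

lemma ok_p02 : OK1 t_p02 (Real.pi * (217 / 200)) (((4117475481468 : ℕ) : ℝ) / 2 ^ 40 + mm) 2097152 := by
  obtain ⟨m1, m2⟩ := mm_bounds
  exact ok1_of (lo0 := 5502773325907) (hi0 := 5502773325908) (P := 3747826152808) (Q := 3747826152809) (R1 := 1192935718816455292400772) (R2 := 1192935718816455530987916)
    (L := 16119349836430067131891262) (U := 16119349836752454128623089) (lk_big (n := 1024) (by decide +kernel))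
    (by have := three_le3; linarith) cbb3.1 cbb3.2 (by push_cast; linarith)
    (by push_cast; linarith) (low_p three_le3 _) ex3 er3 (by decide +kernel)
    (by decide +kernel)

lemma ok_m12 : OKm t_m12 (Real.pi * (9 / 8)) (((7777453687219 : ℕ) : ℝ) / 2 ^ 40) := by
  obtain ⟨m1, m2⟩ := mm_bounds
  have h := okm_of (lo0 := 6392155842779) (hi0 := 6392155842780) (T := t_m12) (a0 := ((7777453687219 : ℕ) : ℝ) / 2 ^ 40 - mm)
    (P := 3885994858902) (Q := 3885994858903) (R1 := 1192350281564499218135893) (R2 := 1192350281564499456605950)
    (L := 17734553275486518450410239) (U := 17734553275841209515923518) (lk_big (n := 1024) (by decide +kernel))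
    (by have := three_le4; linarith) cbb4.1 cbb4.2 (by push_cast; linarith)
    (by push_cast; linarith) (by decide +kernel) (by decide +kernel) ex4 er4
    (by decide +kernel) (by decide +kernel)
  rwa [sub_add_cancel] at h

lemma ok_p12 : OK1 t_p12 (Real.pi * (9 / 8)) (((7777453687219 : ℕ) : ℝ) / 2 ^ 40 + mm) 2097152 := by
  obtain ⟨m1, m2⟩ := mm_bounds
  exact ok1_of (lo0 := 9162751531658) (hi0 := 9162751531659) (P := 3885994858902) (Q := 3885994858903) (R1 := 1192350281564499218135893) (R2 := 1192350281564499456605950)
    (L := 17734553275486518450410239) (U := 17734553275841209515923518) (lk_big (n := 1024) (by decide +kernel))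
    (by have := three_le4; linarith) cbb4.1 cbb4.2 (by push_cast; linarith)
    (by push_cast; linarith) (low_p three_le4 _) ex4 er4 (by decide +kernel)
    (by decide +kernel)

lemma ok_m13 : OKm t_m13 (Real.pi * (59 / 50)) (((3499854159248 : ℕ) : ℝ) / 2 ^ 40) := by
  obtain ⟨m1, m2⟩ := mm_bounds
  have h := okm_of (lo0 := 2114556314808) (hi0 := 2114556314809) (T := t_m13) (a0 := ((3499854159248 : ℕ) : ℝ) / 2 ^ 40 - mm)
    (P := 4075976829782) (Q := 4075976829783) (R1 := 1191545774429994343650564) (R2 := 1191545774429994581959719)
    (L := 20222985031457208910865235) (U := 20222985031861668611498425) (lk_big (n := 1024) (by decide +kernel))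
    (by have := three_le6; linarith) cbb6.1 cbb6.2 (by push_cast; linarith)
    (by push_cast; linarith) (by decide +kernel) (by decide +kernel) ex6 er6
    (by decide +kernel) (by decide +kernel)
  rwa [sub_add_cancel] at h

lemma ok_p13 : OK1 t_p13 (Real.pi * (59 / 50)) (((3499854159248 : ℕ) : ℝ) / 2 ^ 40 + mm) 2097152 := by
  obtain ⟨m1, m2⟩ := mm_bounds
  exact ok1_of (lo0 := 4885152003687) (hi0 := 4885152003688) (P := 4075976829782) (Q := 4075976829783) (R1 := 1191545774429994343650564) (R2 := 1191545774429994581959719)
    (L := 20222985031457208910865235) (U := 20222985031861668611498425) (lk_big (n := 1024) (by decide +kernel))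
    (by have := three_le6; linarith) cbb6.1 cbb6.2 (by push_cast; linarith)
    (by push_cast; linarith) (low_p three_le6 _) ex6 er6 (by decide +kernel)
    (by decide +kernel)

lemma ok_m23 : OKm t_m23 (Real.pi * (49 / 40)) (((6363371198633 : ℕ) : ℝ) / 2 ^ 40) := by
  obtain ⟨m1, m2⟩ := mm_bounds
  have h := okm_of (lo0 := 4978073354193) (hi0 := 4978073354194) (T := t_m23) (a0 := ((6363371198633 : ℕ) : ℝ) / 2 ^ 40 - mm)
    (P := 4231416624138) (Q := 4231416624139) (R1 := 1190887945086965065560625) (R2 := 1190887945086965303738215)
    (L := 22516562236217677389044464) (U := 22516562236668008633773321) (lk_big (n := 1024) (by decide +kernel))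
    (by have := three_le7; linarith) cbb7.1 cbb7.2 (by push_cast; linarith)
    (by push_cast; linarith) (by decide +kernel) (by decide +kernel) ex7 er7
    (by decide +kernel) (by decide +kernel)
  rwa [sub_add_cancel] at h

lemma ok_p23 : OK1 t_p23 (Real.pi * (49 / 40)) (((6363371198633 : ℕ) : ℝ) / 2 ^ 40 + mm) 2097152 := by
  obtain ⟨m1, m2⟩ := mm_bounds
  exact ok1_of (lo0 := 7748669043072) (hi0 := 7748669043073) (P := 4231416624138) (Q := 4231416624139) (R1 := 1190887945086965065560625) (R2 := 1190887945086965303738215)
    (L := 22516562236217677389044464) (U := 22516562236668008633773321) (lk_big (n := 1024) (by decide +kernel))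
    (by have := three_le7; linarith) cbb7.1 cbb7.2 (by push_cast; linarith)
    (by push_cast; linarith) (low_p three_le7 _) ex7 er7 (by decide +kernel)
    (by decide +kernel)

lemma ok_m24 : OKm t_m24 (Real.pi * (259 / 200)) (((2799883327398 : ℕ) : ℝ) / 2 ^ 40) := by
  obtain ⟨m1, m2⟩ := mm_bounds
  have h := okm_of (lo0 := 1414585482958) (hi0 := 1414585482959) (T := t_m24) (a0 := ((2799883327398 : ℕ) : ℝ) / 2 ^ 40 - mm)
    (P := 4473211859803) (Q := 4473211859804) (R1 := 1189865376790039966675725) (R2 := 1189865376790040204648801)
    (L := 26612113448953320592853622) (U := 26612113449485562861838012) (lk_big (n := 1024) (by decide +kernel))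
    (by have := three_le9; linarith) cbb9.1 cbb9.2 (by push_cast; linarith)
    (by push_cast; linarith) (by decide +kernel) (by decide +kernel) ex9 er9
    (by decide +kernel) (by decide +kernel)
  rwa [sub_add_cancel] at h

lemma ok_p24 : OK1 t_p24 (Real.pi * (259 / 200)) (((2799883327398 : ℕ) : ℝ) / 2 ^ 40 + mm) 2097152 := by
  obtain ⟨m1, m2⟩ := mm_bounds
  exact ok1_of (lo0 := 4185181171837) (hi0 := 4185181171838) (P := 4473211859803) (Q := 4473211859804) (R1 := 1189865376790039966675725) (R2 := 1189865376790040204648801)
    (L := 26612113448953320592853622) (U := 26612113449485562861838012) (lk_big (n := 1024) (by decide +kernel))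
    (by have := three_le9; linarith) cbb9.1 cbb9.2 (by push_cast; linarith)
    (by push_cast; linarith) (low_p three_le9 _) ex9 er9 (by decide +kernel)
    (by decide +kernel)

lemma ok_m34 : OKm t_m34 (Real.pi * (27 / 20)) (((4999791656069 : ℕ) : ℝ) / 2 ^ 40) := by
  obtain ⟨m1, m2⟩ := mm_bounds
  have h := okm_of (lo0 := 3614493811629) (hi0 := 3614493811630) (T := t_m34) (a0 := ((4999791656069 : ℕ) : ℝ) / 2 ^ 40 - mm)
    (P := 4663193830682) (Q := 4663193830683) (R1 := 1189062546279972161653062) (R2 := 1189062546279972399465572)
    (L := 30346204021812897467320923) (U := 30346204022419821547763251) (lk_big (n := 1024) (by decide +kernel))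
    (by have := three_le10; linarith) cbb10.1 cbb10.2 (by push_cast; linarith)
    (by push_cast; linarith) (by decide +kernel) (by decide +kernel) ex10 er10
    (by decide +kernel) (by decide +kernel)
  rwa [sub_add_cancel] at h

lemma ok_p34 : OK1 t_p34 (Real.pi * (27 / 20)) (((4999791656069 : ℕ) : ℝ) / 2 ^ 40 + mm) 2097152 := by
  obtain ⟨m1, m2⟩ := mm_bounds
  exact ok1_of (lo0 := 6385089500508) (hi0 := 6385089500509) (P := 4663193830682) (Q := 4663193830683) (R1 := 1189062546279972161653062) (R2 := 1189062546279972399465572)
    (L := 30346204021812897467320923) (U := 30346204022419821547763251) (lk_big (n := 1024) (by decide +kernel))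
    (by have := three_le10; linarith) cbb10.1 cbb10.2 (by push_cast; linarith)
    (by push_cast; linarith) (low_p three_le10 _) ex10 er10 (by decide +kernel)
    (by decide +kernel)

lemma ok_m35 : OKm t_m35 (Real.pi * (36 / 25)) (((2187408849530 : ℕ) : ℝ) / 2 ^ 40) := by
  obtain ⟨m1, m2⟩ := mm_bounds
  have h := okm_of (lo0 := 802111005090) (hi0 := 802111005091) (T := t_m35) (a0 := ((2187408849530 : ℕ) : ℝ) / 2 ^ 40 - mm)
    (P := 4974073419394) (Q := 4974073419395) (R1 := 1187749991896209821091969) (R2 := 1187749991896210058641968)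
    (L := 37619933310450454471156779) (U := 37619933311202853137373313) (lk_big (n := 1024) (by decide +kernel))
    (by have := three_le12; linarith) cbb12.1 cbb12.2 (by push_cast; linarith)
    (by push_cast; linarith) (by decide +kernel) (by decide +kernel) ex12 er12
    (by decide +kernel) (by decide +kernel)
  rwa [sub_add_cancel] at h

lemma ok_p35 : OK1 t_p35 (Real.pi * (36 / 25)) (((2187408849530 : ℕ) : ℝ) / 2 ^ 40 + mm) 2097152 := by
  obtain ⟨m1, m2⟩ := mm_bounds
  exact ok1_of (lo0 := 3572706693969) (hi0 := 3572706693970) (P := 4974073419394) (Q := 4974073419395) (R1 := 1187749991896209821091969) (R2 := 1187749991896210058641968)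
    (L := 37619933310450454471156779) (U := 37619933311202853137373313) (lk_big (n := 1024) (by decide +kernel))
    (by have := three_le12; linarith) cbb12.1 cbb12.2 (by push_cast; linarith)
    (by push_cast; linarith) (low_p three_le12 _) ex12 er12 (by decide +kernel)
    (by decide +kernel)

lemma ok_m45 : OKm t_m45 (Real.pi * (151 / 100)) (((3888726843609 : ℕ) : ℝ) / 2 ^ 40) := by
  obtain ⟨m1, m2⟩ := mm_bounds
  have h := okm_of (lo0 := 2503428999169) (hi0 := 2503428999170) (T := t_m45) (a0 := ((3888726843609 : ℕ) : ℝ) / 2 ^ 40 - mm)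
    (P := 5215868655060) (Q := 5215868655061) (R1 := 1186730118035367763545166) (R2 := 1186730118035368000891190)
    (L := 44462645882479865912267612) (U := 44462645883369118829926103) (lk_big (n := 1024) (by decide +kernel))
    (by have := three_le13; linarith) cbb13.1 cbb13.2 (by push_cast; linarith)
    (by push_cast; linarith) (by decide +kernel) (by decide +kernel) ex13 er13
    (by decide +kernel) (by decide +kernel)
  rwa [sub_add_cancel] at h

lemma ok_p45 : OK1 t_p45 (Real.pi * (151 / 100)) (((3888726843609 : ℕ) : ℝ) / 2 ^ 40 + mm) 2097152 := by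
  obtain ⟨m1, m2⟩ := mm_bounds
  exact ok1_of (lo0 := 5274024688048) (hi0 := 5274024688049) (P := 5215868655060) (Q := 5215868655061) (R1 := 1186730118035367763545166) (R2 := 1186730118035368000891190)
    (L := 44462645882479865912267612) (U := 44462645883369118829926103) (lk_big (n := 1024) (by decide +kernel))
    (by have := three_le13; linarith) cbb13.1 cbb13.2 (by push_cast; linarith)
    (by push_cast; linarith) (low_p three_le13 _) ex13 er13 (by decide +kernel)
    (by decide +kernel)

lemma ok_m46 : OKm t_m46 (Real.pi * (161 / 100)) (((1842028504867 : ℕ) : ℝ) / 2 ^ 40) := by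
  obtain ⟨m1, m2⟩ := mm_bounds
  have h := okm_of (lo0 := 456730660427) (hi0 := 456730660428) (T := t_m46) (a0 := ((1842028504867 : ℕ) : ℝ) / 2 ^ 40 - mm)
    (P := 5561290420295) (Q := 5561290420296) (R1 := 1185274674305934087202422) (R2 := 1185274674305934324257358)
    (L := 56451714212818295812099803) (U := 56451714213947330096367460) (lk_big (n := 1024) (by decide +kernel))
    (by have := three_le15; linarith) cbb15.1 cbb15.2 (by push_cast; linarith)
    (by push_cast; linarith) (by decide +kernel) (by decide +kernel) ex15 er15
    (by decide +kernel) (by decide +kernel)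
  rwa [sub_add_cancel] at h

lemma ok_p46 : OK1 t_p46 (Real.pi * (161 / 100)) (((1206846261809 : ℕ) : ℝ) / 2 ^ 40 + mm) 2097152 := by
  obtain ⟨m1, m2⟩ := mm_bounds
  exact ok1_of (lo0 := 2592144106248) (hi0 := 2592144106249) (P := 5561290420295) (Q := 5561290420296) (R1 := 1185274674305934087202422) (R2 := 1185274674305934324257358)
    (L := 56451714212818295812099803) (U := 56451714213947330096367460) (lk_big (n := 1024) (by decide +kernel))
    (by have := three_le15; linarith) cbb15.1 cbb15.2 (by push_cast; linarith)
    (by push_cast; linarith) (low_p three_le15 _) ex15 er15 (by decide +kernel)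
    (by decide +kernel)

lemma ok_m56 : OKm t_m56 (Real.pi * (7 / 4)) (((2333236106165 : ℕ) : ℝ) / 2 ^ 40) := by
  obtain ⟨m1, m2⟩ := mm_bounds
  have h := okm_of (lo0 := 947938261725) (hi0 := 947938261726) (T := t_m56) (a0 := ((2333236106165 : ℕ) : ℝ) / 2 ^ 40 - mm)
    (P := 6044880891625) (Q := 6044880891626) (R1 := 1183240051398773721709637) (R2 := 1183240051398773958357648)
    (L := 78855446982197007790773585) (U := 78855446983774116730433297) (lk_big (n := 1024) (by decide +kernel))
    (by have := three_le16; linarith) cbb16.1 cbb16.2 (by push_cast; linarith)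
    (by push_cast; linarith) (by decide +kernel) (by decide +kernel) ex16 er16
    (by decide +kernel) (by decide +kernel)
  rwa [sub_add_cancel] at h

lemma ok_p56 : OK1 t_p56 (Real.pi * (7 / 4)) (((2333236106165 : ℕ) : ℝ) / 2 ^ 40 + mm) 2097152 := by
  obtain ⟨m1, m2⟩ := mm_bounds
  exact ok1_of (lo0 := 3718533950604) (hi0 := 3718533950605) (P := 6044880891625) (Q := 6044880891626) (R1 := 1183240051398773721709637) (R2 := 1183240051398773958357648)
    (L := 78855446982197007790773585) (U := 78855446983774116730433297) (lk_big (n := 1024) (by decide +kernel))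
    (by have := three_le16; linarith) cbb16.1 cbb16.2 (by push_cast; linarith)
    (by push_cast; linarith) (low_p three_le16 _) ex16 er16 (by decide +kernel)
    (by decide +kernel)

lemma ok_m57 : OKm t_m57 (Real.pi * (179 / 100)) (((1842028504867 : ℕ) : ℝ) / 2 ^ 40) := by
  obtain ⟨m1, m2⟩ := mm_bounds
  have h := okm_of (lo0 := 456730660427) (hi0 := 456730660428) (T := t_m57) (a0 := ((1842028504867 : ℕ) : ℝ) / 2 ^ 40 - mm)
    (P := 6183049597720) (Q := 6183049597721) (R1 := 1182659372328502842575296) (R2 := 1182659372328503079107172)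
    (L := 86756980880675025951732342) (U := 86756980882410165569363195) (lk_big (n := 1024) (by decide +kernel))
    (by have := three_le17; linarith) cbb17.1 cbb17.2 (by push_cast; linarith)
    (by push_cast; linarith) (by decide +kernel) (by decide +kernel) ex17 er17
    (by decide +kernel) (by decide +kernel)
  rwa [sub_add_cancel] at h

lemma ok_p57 : OK1 t_p57 (Real.pi * (179 / 100)) (((686245913578 : ℕ) : ℝ) / 2 ^ 40 + mm) 2097152 := by
  obtain ⟨m1, m2⟩ := mm_bounds
  exact ok1_of (lo0 := 2071543758017) (hi0 := 2071543758018) (P := 6183049597720) (Q := 6183049597721) (R1 := 1182659372328502842575296) (R2 := 1182659372328503079107172)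
    (L := 86756980880675025951732342) (U := 86756980882410165569363195) (lk_big (n := 1024) (by decide +kernel))
    (by have := three_le17; linarith) cbb17.1 cbb17.2 (by push_cast; linarith)
    (by push_cast; linarith) (low_p three_le17 _) ex17 er17 (by decide +kernel)
    (by decide +kernel)

lemma ok_m67 : OKm t_m67 (Real.pi * (21 / 10)) (((1749927079624 : ℕ) : ℝ) / 2 ^ 40) := by
  obtain ⟨m1, m2⟩ := mm_bounds
  have h := okm_of (lo0 := 364629235184) (hi0 := 364629235185) (T := t_m67) (a0 := ((1749927079624 : ℕ) : ℝ) / 2 ^ 40 - mm)
    (P := 7253857069951) (Q := 7253857069952) (R1 := 1178168761144055236603742) (R2 := 1178168761144055472237496)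
    (L := 181852010467841866762780367) (U := 181852010471478906972173576) (lk_big (n := 1024) (by decide +kernel))
    (by have := three_le19; linarith) cbb19.1 cbb19.2 (by push_cast; linarith)
    (by push_cast; linarith) (by decide +kernel) (by decide +kernel) ex19 er19
    (by decide +kernel) (by decide +kernel)
  rwa [sub_add_cancel] at h

lemma ok_p67 : OK1 t_p67 (Real.pi * (21 / 10)) (((1749927079624 : ℕ) : ℝ) / 2 ^ 40 + mm) 2097152 := by
  obtain ⟨m1, m2⟩ := mm_bounds
  exact ok1_of (lo0 := 3135224924063) (hi0 := 3135224924064) (P := 7253857069951) (Q := 7253857069952) (R1 := 1178168761144055236603742) (R2 := 1178168761144055472237496)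
    (L := 181852010467841866762780367) (U := 181852010471478906972173576) (lk_big (n := 1024) (by decide +kernel))
    (by have := three_le19; linarith) cbb19.1 cbb19.2 (by push_cast; linarith)
    (by push_cast; linarith) (low_p three_le19 _) ex19 er19 (by decide +kernel)
    (by decide +kernel)

lemma ok_m68 : OKm t_m68 (Real.pi * (21 / 10)) (((1749927079624 : ℕ) : ℝ) / 2 ^ 40) := by
  obtain ⟨m1, m2⟩ := mm_bounds
  have h := okm_of (lo0 := 364629235184) (hi0 := 364629235185) (T := t_m68) (a0 := ((1749927079624 : ℕ) : ℝ) / 2 ^ 40 - mm)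
    (P := 7253857069951) (Q := 7253857069952) (R1 := 1178168761144055236603742) (R2 := 1178168761144055472237496)
    (L := 181852010467841866762780367) (U := 181852010471478906972173576) (lk_big (n := 1024) (by decide +kernel))
    (by have := three_le19; linarith) cbb19.1 cbb19.2 (by push_cast; linarith)
    (by push_cast; linarith) (by decide +kernel) (by decide +kernel) ex19 er19
    (by decide +kernel) (by decide +kernel)
  rwa [sub_add_cancel] at h

lemma ok_p68 : OK1 t_p68 (Real.pi * (21 / 10)) (((499979165606 : ℕ) : ℝ) / 2 ^ 40 + mm) 2097152 := by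
  obtain ⟨m1, m2⟩ := mm_bounds
  exact ok1_of (lo0 := 1885277010045) (hi0 := 1885277010046) (P := 7253857069951) (Q := 7253857069952) (R1 := 1178168761144055236603742) (R2 := 1178168761144055472237496)
    (L := 181852010467841866762780367) (U := 181852010471478906972173576) (lk_big (n := 1024) (by decide +kernel))
    (by have := three_le19; linarith) cbb19.1 cbb19.2 (by push_cast; linarith)
    (by push_cast; linarith) (low_p three_le19 _) ex19 er19 (by decide +kernel)
    (by decide +kernel)

lemma ok_m78 : OKm t_m78 (Real.pi * (5 / 2)) (((1749927079624 : ℕ) : ℝ) / 2 ^ 40) := by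
  obtain ⟨m1, m2⟩ := mm_bounds
  have h := okm_of (lo0 := 364629235184) (hi0 := 364629235185) (T := t_m78) (a0 := ((1749927079624 : ℕ) : ℝ) / 2 ^ 40 - mm)
    (P := 8635544130894) (Q := 8635544130895) (R1 := 1172399609973319456539201) (R2 := 1172399609973319691019124)
    (L := 472547457986679663584801389) (U := 472547457996130612744629493) (lk_big (n := 1024) (by decide +kernel))
    (by have := three_le21; linarith) cbb21.1 cbb21.2 (by push_cast; linarith)
    (by push_cast; linarith) (by decide +kernel) (by decide +kernel) ex21 er21
    (by decide +kernel) (by decide +kernel)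
  rwa [sub_add_cancel] at h

lemma ok_p78 : OK1 t_p78 (Real.pi * (5 / 2)) (((1166618053082 : ℕ) : ℝ) / 2 ^ 40 + mm) 2097152 := by
  obtain ⟨m1, m2⟩ := mm_bounds
  exact ok1_of (lo0 := 2551915897521) (hi0 := 2551915897522) (P := 8635544130894) (Q := 8635544130895) (R1 := 1172399609973319456539201) (R2 := 1172399609973319691019124)
    (L := 472547457986679663584801389) (U := 472547457996130612744629493) (lk_big (n := 1024) (by decide +kernel))
    (by have := three_le21; linarith) cbb21.1 cbb21.2 (by push_cast; linarith)
    (by push_cast; linarith) (low_p three_le21 _) ex21 er21 (by decide +kernel)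
    (by decide +kernel)

lemma ok_m79 : OKm t_m79 (Real.pi * (5 / 2)) (((1749927079624 : ℕ) : ℝ) / 2 ^ 40) := by
  obtain ⟨m1, m2⟩ := mm_bounds
  have h := okm_of (lo0 := 364629235184) (hi0 := 364629235185) (T := t_m79) (a0 := ((1749927079624 : ℕ) : ℝ) / 2 ^ 40 - mm)
    (P := 8635544130894) (Q := 8635544130895) (R1 := 1172399609973319456539201) (R2 := 1172399609973319691019124)
    (L := 472547457986679663584801389) (U := 472547457996130612744629493) (lk_big (n := 1024) (by decide +kernel))
    (by have := three_le21; linarith) cbb21.1 cbb21.2 (by push_cast; linarith)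
    (by push_cast; linarith) (by decide +kernel) (by decide +kernel) ex21 er21
    (by decide +kernel) (by decide +kernel)
  rwa [sub_add_cancel] at h

lemma ok_p79 : OK1 t_p79 (Real.pi * (5 / 2)) (((349985415924 : ℕ) : ℝ) / 2 ^ 40 + mm) 2097152 := by
  obtain ⟨m1, m2⟩ := mm_bounds
  exact ok1_of (lo0 := 1735283260363) (hi0 := 1735283260364) (P := 8635544130894) (Q := 8635544130895) (R1 := 1172399609973319456539201) (R2 := 1172399609973319691019124)
    (L := 472547457986679663584801389) (U := 472547457996130612744629493) (lk_big (n := 1024) (by decide +kernel))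
    (by have := three_le21; linarith) cbb21.1 cbb21.2 (by push_cast; linarith)
    (by push_cast; linarith) (low_p three_le21 _) ex21 er21 (by decide +kernel)
    (by decide +kernel)

lemma ok_m89 : OKm t_m89 (Real.pi * (301 / 100)) (((1666597218689 : ℕ) : ℝ) / 2 ^ 40) := by
  obtain ⟨m1, m2⟩ := mm_bounds
  have h := okm_of (lo0 := 281299374249) (hi0 := 281299374250) (T := t_m89) (a0 := ((1666597218689 : ℕ) : ℝ) / 2 ^ 40 - mm)
    (P := 10397195133596) (Q := 10397195133597) (R1 := 1165084894952141903466705) (R2 := 1165084894952142136483685)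
    (L := 1596697958513984864569475280) (U := 1596697958545918823740074318) (lk_big (n := 1024) (by decide +kernel))
    (by have := three_le23; linarith) cbb23.1 cbb23.2 (by push_cast; linarith)
    (by push_cast; linarith) (by decide +kernel) (by decide +kernel) ex23 er23
    (by decide +kernel) (by decide +kernel)
  rwa [sub_add_cancel] at h

lemma ok_p89 : OK1 t_p89 (Real.pi * (301 / 100)) (((714255950867 : ℕ) : ℝ) / 2 ^ 40 + mm) 2097152 := by
  obtain ⟨m1, m2⟩ := mm_bounds
  exact ok1_of (lo0 := 2099553795306) (hi0 := 2099553795307) (P := 10397195133596) (Q := 10397195133597) (R1 := 1165084894952141903466705) (R2 := 1165084894952142136483685)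
    (L := 1596697958513984864569475280) (U := 1596697958545918823740074318) (lk_big (n := 1024) (by decide +kernel))
    (by have := three_le23; linarith) cbb23.1 cbb23.2 (by push_cast; linarith)
    (by push_cast; linarith) (low_p three_le23 _) ex23 er23 (by decide +kernel)
    (by decide +kernel)

end Pool.Agent.U316.Ep
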