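import Pool.Agent.U316.Ep.Sf

/-!
# Soundness of the tests of the environment
-/

set_option autoImplicit false

open Matrix Pool.Agent.K1H99.FCC

namespace Pool.Agent.U316.Ep

open Pool.Agent.U316.Th (Th RF RB)

lemma num_s {w s : ℝ} (hw : 0 ≤ w) (hs : 0 ≤ s) (h : 3.1415927 * w * s ≤ 1) :
    Real.pi * w * s ≤ 1 := by
  refine le_trans ?_ h
  have h1 := Real.pi_lt_d20
  have h2 : Real.pi ≤ 3.1415927 := by norm_num at h1 ⊢; linarith
  exact mul_le_mul_of_nonneg_right (mul_le_mul_of_nonneg_right h2 hw) hs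

lemma num_c {w c T R : ℝ} (hR : R ≤ T) (hw : 0 ≤ w) (hc : 0 ≤ c)
    (h : 2 ^ 23 * (T + 1 / 1000) ≤ 3.1415926 * w * c) :
    2 ^ 23 * (R + 1 / 1000) ≤ Real.pi * w * c := by
  have h1 := Real.pi_gt_d20
  have h2 : 3.1415926 ≤ Real.pi := by norm_num at h1 ⊢; linarith
  have h3 := mul_le_mul_of_nonneg_right (mul_le_mul_of_nonneg_right h2 hw) hc
  linarith

lemma lA_zero (i : ℕ) : lA 0 i = 0 := (lk_big (T := 0) (n := 0) (by norm_num) i (by omega)).1

lemma lB_zero (i : ℕ) : lB 0 i = 0 := (lk_big (T := 0) (n := 0) (by norm_num) i (by omega)).2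

lemma tst_zero {V : List ℕ} {t c1 : ℕ} (hV : VL V) (h : tst 0 0 1 c1 V t = true)
    (R : (Fin 6 → ℝ) → Prop) : Good R V := by
  intro l hl hp
  have m := tst_spec hV h hl hp (u := 1) (w := 0) (off := 0) zero_le_one le_rfl
    (Φ := fun _ => 0) (fun i0 i1 v _ _ => by rw [lA_zero, lB_zero]; simp)
  norm_num at m

lemma tsq_zero {V : List ℕ} {t c1 : ℕ} (hV : VL V) (h : tsq 0 0 1 c1 V t = true)
    (R : (Fin 6 → ℝ) → Prop) : Good R V := by
  intro l hl hp
  have m := tsq_spec hV h hl hp (u := 1) (w := 0) (off := 0) zero_le_one le_rfl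
    (Φ := fun _ => 0) (fun i0 i1 v _ _ => by rw [lA_zero, lB_zero]; simp)
  norm_num at m

lemma lv0 : lv 0 = 1 := rfl

lemma lv1 : lv 1 = 27 / 25 := rfl

lemma lv2 : lv 2 = 117 / 100 := rfl

lemma lv3 : lv 3 = 32 / 25 := rfl

lemma lv4 : lv 4 = 71 / 50 := rfl

lemma lv5 : lv 5 = 8 / 5 := rfl

lemma lv6 : lv 6 = 19 / 10 := rfl

lemma lv7 : lv 7 = 23 / 10 := rfl

lemma lv8 : lv 8 = 14 / 5 := rfl

lemma lv9 : lv 9 = 7 / 2 := rfl

lemma rfv0 : RF (lv 0) ≤ 3031 / 250 := Th.rf0.trans (by norm_num)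

lemma rbv0 : RB (lv 0) ≤ 3031 / 250 := by
  have h : RB (lv 0) = RF 1 := Th.rb_one
  rw [h]
  exact Th.rf0.trans (by norm_num)

lemma rfv1 : RF (lv 1) ≤ 1208827 / 100000 := rfb1.trans (by norm_num)

lemma rbv1 : RB (lv 1) ≤ 605857 / 50000 := rbb1.trans (by norm_num)

lemma rfv2 : RF (lv 2) ≤ 603043 / 50000 := rfb2.trans (by norm_num)

lemma rbv2 : RB (lv 2) ≤ 2427 / 200 := rbb2.trans (by norm_num)

lemma rfv3 : RF (lv 3) ≤ 1203889 / 100000 := rfb3.trans (by norm_num)

lemma rbv3 : RB (lv 3) ≤ 609377 / 50000 := rbb3.trans (by norm_num)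

lemma rfv4 : RF (lv 4) ≤ 150277 / 12500 := rfb4.trans (by norm_num)

lemma rbv4 : RB (lv 4) ≤ 1229629 / 100000 := rbb4.trans (by norm_num)

lemma rfv5 : RF (lv 5) ≤ 300271 / 25000 := rfb5.trans (by norm_num)

lemma rbv5 : RB (lv 5) ≤ 78097 / 6250 := rbb5.trans (by norm_num)

lemma rfv6 : RF (lv 6) ≤ 75021 / 6250 := rfb6.trans (by norm_num)

lemma rbv6 : RB (lv 6) ≤ 1295369 / 100000 := rbb6.trans (by norm_num)

lemma rfv7 : RF (lv 7) ≤ 1200077 / 100000 := rfb7.trans (by norm_num)

lemma rbv7 : RB (lv 7) ≤ 688471 / 50000 := rbb7.trans (by norm_num)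

lemma rfv8 : RF (lv 8) ≤ 60001 / 5000 := rfb8.trans (by norm_num)

lemma rbv8 : RB (lv 8) ≤ 1506337 / 100000 := rbb8.trans (by norm_num)

lemma rfv9 : RF (lv 9) ≤ 1200011 / 100000 := rfb9.trans (by norm_num)

lemma rbv9 : RB (lv 9) ≤ 21647 / 1250 := rbb9.trans (by norm_num)

lemma fc0 : 2 ^ 23 * RB (lv 0) ≤ ((101703484 : ℕ) : ℝ) := by
  have h := rbv0
  push_cast
  linarith

lemma fc1 : 2 ^ 23 * RB (lv 1) ≤ ((101645938 : ℕ) : ℝ) := by
  have h := rbv1
  push_cast
  linarith

lemma fc2 : 2 ^ 23 * RB (lv 2) ≤ ((101795759 : ℕ) : ℝ) := by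
  have h := rbv2
  push_cast
  linarith

lemma fc3 : 2 ^ 23 * RB (lv 3) ≤ ((102236496 : ℕ) : ℝ) := by
  have h := rbv3
  push_cast
  linarith

lemma fc4 : 2 ^ 23 * RB (lv 4) ≤ ((103148757 : ℕ) : ℝ) := by
  have h := rbv4
  push_cast
  linarith

lemma fc5 : 2 ^ 23 * RB (lv 5) ≤ ((104820020 : ℕ) : ℝ) := by
  have h := rbv5
  push_cast
  linarith

lemma fc6 : 2 ^ 23 * RB (lv 6) ≤ ((108663428 : ℕ) : ℝ) := by
  have h := rbv6
  push_cast
  linarith

lemma fc7 : 2 ^ 23 * RB (lv 7) ≤ ((115506267 : ℕ) : ℝ) := by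
  have h := rbv7
  push_cast
  linarith

lemma fc8 : 2 ^ 23 * RB (lv 8) ≤ ((126360707 : ℕ) : ℝ) := by
  have h := rbv8
  push_cast
  linarith

lemma fc9 : 2 ^ 23 * RB (lv 9) ≤ ((145270558 : ℕ) : ℝ) := by
  have h := rbv9
  push_cast
  linarith

lemma wl01 : (26 / 25 : ℝ) - lv 0 = 1 / 25 := by rw [lv0]; norm_num

lemma wr01 : lv 1 - (26 / 25 : ℝ) = 1 / 25 := by rw [lv1]; norm_num

lemma sl01 : Real.pi * (26 / 25 - lv 0) * (((8749635398121 : ℕ) : ℝ) / 2 ^ 40) ≤ 1 := by
  rw [wl01]
  refine num_s (by norm_num) (by positivity) ?_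
  push_cast
  norm_num

lemma sr01 : Real.pi * (lv 1 - 26 / 25) * (((8749635398121 : ℕ) : ℝ) / 2 ^ 40) ≤ 1 := by
  rw [wr01]
  refine num_s (by norm_num) (by positivity) ?_
  push_cast
  norm_num

lemma eB01 {V : List ℕ} {t : ℕ} (hV : VL V)
    (h : tst t_m01 t_p01 809397374 836202415 V t = true) (hg : Good (Q 0) V) :
    Good (Q 1) V := by
  refine slabB_step (τ := 26 / 25) (by norm_num) (by rw [lv0]; norm_num)
    (by rw [lv1]; norm_num) ok_m01 ok_p01 sl01 sr01 ?_ ?_ hV h hg
  · rw [wl01]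
    refine num_c rbv0 (by norm_num) (by positivity) ?_
    push_cast
    norm_num
  · rw [wr01]
    refine num_c rbv1 (by norm_num) ?_ ?_
    · push_cast
      norm_num
    · push_cast
      norm_num

lemma eP01 {V : List ℕ} {t : ℕ} (hV : VL V)
    (h : tsq t_m01 t_p01 1618727994 1670410875 V t = true) (hg : Good (Q 0) V) :
    Good (Q 1) V := by
  refine slabP_step (τ := 26 / 25) (by norm_num) (by rw [lv0]; norm_num)
    (by rw [lv1]; norm_num) ok_m01 ok_p01 sl01 sr01 ?_ ?_ hV h hg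
  · rw [wl01]
    refine num_c (add_le_add rfv0 rbv0) (by norm_num) (by positivity) ?_
    push_cast
    norm_num
  · rw [wr01]
    refine num_c (add_le_add rfv1 rbv1) (by norm_num) ?_ ?_
    · push_cast
      norm_num
    · push_cast
      norm_num

lemma wl02 : (217 / 200 : ℝ) - lv 0 = 17 / 200 := by rw [lv0]; norm_num

lemma wr02 : lv 2 - (217 / 200 : ℝ) = 17 / 200 := by rw [lv2]; norm_num

lemma sl02 : Real.pi * (217 / 200 - lv 0) * (((4117475481468 : ℕ) : ℝ) / 2 ^ 40) ≤ 1 := by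
  rw [wl02]
  refine num_s (by norm_num) (by positivity) ?_
  push_cast
  norm_num

lemma sr02 : Real.pi * (lv 2 - 217 / 200) * (((4117475481468 : ℕ) : ℝ) / 2 ^ 40) ≤ 1 := by
  rw [wr02]
  refine num_s (by norm_num) (by positivity) ?_
  push_cast
  norm_num

lemma eB02 {V : List ℕ} {t : ℕ} (hV : VL V)
    (h : tst t_m02 t_p02 380892882 408501411 V t = true) (hg : Good (Q 0) V) :
    Good (Q 2) V := by
  refine slabB_step (τ := 217 / 200) (by norm_num) (by rw [lv0]; norm_num)
    (by rw [lv2]; norm_num) ok_m02 ok_p02 sl02 sr02 ?_ ?_ hV h hg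
  · rw [wl02]
    refine num_c rbv0 (by norm_num) (by positivity) ?_
    push_cast
    norm_num
  · rw [wr02]
    refine num_c rbv2 (by norm_num) ?_ ?_
    · push_cast
      norm_num
    · push_cast
      norm_num

lemma eP02 {V : List ℕ} {t : ℕ} (hV : VL V)
    (h : tsq t_m02 t_p02 761754350 814642384 V t = true) (hg : Good (Q 0) V) :
    Good (Q 2) V := by
  refine slabP_step (τ := 217 / 200) (by norm_num) (by rw [lv0]; norm_num)
    (by rw [lv2]; norm_num) ok_m02 ok_p02 sl02 sr02 ?_ ?_ hV h hg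
  · rw [wl02]
    refine num_c (add_le_add rfv0 rbv0) (by norm_num) (by positivity) ?_
    push_cast
    norm_num
  · rw [wr02]
    refine num_c (add_le_add rfv2 rbv2) (by norm_num) ?_ ?_
    · push_cast
      norm_num
    · push_cast
      norm_num

lemma wl12 : (9 / 8 : ℝ) - lv 1 = 9 / 200 := by rw [lv1]; norm_num

lemma wr12 : lv 2 - (9 / 8 : ℝ) = 9 / 200 := by rw [lv2]; norm_num

lemma sl12 : Real.pi * (9 / 8 - lv 1) * (((7777453687219 : ℕ) : ℝ) / 2 ^ 40) ≤ 1 := by
  rw [wl12]
  refine num_s (by norm_num) (by positivity) ?_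
  push_cast
  norm_num

lemma sr12 : Real.pi * (lv 2 - 9 / 8) * (((7777453687219 : ℕ) : ℝ) / 2 ^ 40) ≤ 1 := by
  rw [wr12]
  refine num_s (by norm_num) (by positivity) ?_
  push_cast
  norm_num

lemma eB12 {V : List ℕ} {t : ℕ} (hV : VL V)
    (h : tst t_m12 t_p12 719057279 747380019 V t = true) (hg : Good (Q 1) V) :
    Good (Q 2) V := by
  refine slabB_step (τ := 9 / 8) (by norm_num) (by rw [lv1]; norm_num)
    (by rw [lv2]; norm_num) ok_m12 ok_p12 sl12 sr12 ?_ ?_ hV h hg
  · rw [wl12]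
    refine num_c rbv1 (by norm_num) (by positivity) ?_
    push_cast
    norm_num
  · rw [wr12]
    refine num_c rbv2 (by norm_num) ?_ ?_
    · push_cast
      norm_num
    · push_cast
      norm_num

lemma eP12 {V : List ℕ} {t : ℕ} (hV : VL V)
    (h : tsq t_m12 t_p12 1436342154 1490301435 V t = true) (hg : Good (Q 1) V) :
    Good (Q 2) V := by
  refine slabP_step (τ := 9 / 8) (by norm_num) (by rw [lv1]; norm_num)
    (by rw [lv2]; norm_num) ok_m12 ok_p12 sl12 sr12 ?_ ?_ hV h hg
  · rw [wl12]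
    refine num_c (add_le_add rfv1 rbv1) (by norm_num) (by positivity) ?_
    push_cast
    norm_num
  · rw [wr12]
    refine num_c (add_le_add rfv2 rbv2) (by norm_num) ?_ ?_
    · push_cast
      norm_num
    · push_cast
      norm_num

lemma wl13 : (59 / 50 : ℝ) - lv 1 = 1 / 10 := by rw [lv1]; norm_num

lemma wr13 : lv 3 - (59 / 50 : ℝ) = 1 / 10 := by rw [lv3]; norm_num

lemma sl13 : Real.pi * (59 / 50 - lv 1) * (((3499854159248 : ℕ) : ℝ) / 2 ^ 40) ≤ 1 := by
  rw [wl13]
  refine num_s (by norm_num) (by positivity) ?_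
  push_cast
  norm_num

lemma sr13 : Real.pi * (lv 3 - 59 / 50) * (((3499854159248 : ℕ) : ℝ) / 2 ^ 40) ≤ 1 := by
  rw [wr13]
  refine num_s (by norm_num) (by positivity) ?_
  push_cast
  norm_num

lemma eB13 {V : List ℕ} {t : ℕ} (hV : VL V)
    (h : tst t_m13 t_p13 323575776 352718556 V t = true) (hg : Good (Q 1) V) :
    Good (Q 3) V := by
  refine slabB_step (τ := 59 / 50) (by norm_num) (by rw [lv1]; norm_num)
    (by rw [lv3]; norm_num) ok_m13 ok_p13 sl13 sr13 ?_ ?_ hV h hg
  · rw [wl13]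
    refine num_c rbv1 (by norm_num) (by positivity) ?_
    push_cast
    norm_num
  · rw [wr13]
    refine num_c rbv3 (by norm_num) ?_ ?_
    · push_cast
      norm_num
    · push_cast
      norm_num

lemma eP13 {V : List ℕ} {t : ℕ} (hV : VL V)
    (h : tsq t_m13 t_p13 646353969 701441193 V t = true) (hg : Good (Q 1) V) :
    Good (Q 3) V := by
  refine slabP_step (τ := 59 / 50) (by norm_num) (by rw [lv1]; norm_num)
    (by rw [lv3]; norm_num) ok_m13 ok_p13 sl13 sr13 ?_ ?_ hV h hg
  · rw [wl13]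
    refine num_c (add_le_add rfv1 rbv1) (by norm_num) (by positivity) ?_
    push_cast
    norm_num
  · rw [wr13]
    refine num_c (add_le_add rfv3 rbv3) (by norm_num) ?_ ?_
    · push_cast
      norm_num
    · push_cast
      norm_num

lemma wl23 : (49 / 40 : ℝ) - lv 2 = 11 / 200 := by rw [lv2]; norm_num

lemma wr23 : lv 3 - (49 / 40 : ℝ) = 11 / 200 := by rw [lv3]; norm_num

lemma sl23 : Real.pi * (49 / 40 - lv 2) * (((6363371198633 : ℕ) : ℝ) / 2 ^ 40) ≤ 1 := by
  rw [wl23]
  refine num_s (by norm_num) (by positivity) ?_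
  push_cast
  norm_num

lemma sr23 : Real.pi * (lv 3 - 49 / 40) * (((6363371198633 : ℕ) : ℝ) / 2 ^ 40) ≤ 1 := by
  rw [wr23]
  refine num_s (by norm_num) (by positivity) ?_
  push_cast
  norm_num

lemma eB23 {V : List ℕ} {t : ℕ} (hV : VL V)
    (h : tst t_m23 t_p23 589186671 619000395 V t = true) (hg : Good (Q 2) V) :
    Good (Q 3) V := by
  refine slabB_step (τ := 49 / 40) (by norm_num) (by rw [lv2]; norm_num)
    (by rw [lv3]; norm_num) ok_m23 ok_p23 sl23 sr23 ?_ ?_ hV h hg
  · rw [wl23]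
    refine num_c rbv2 (by norm_num) (by positivity) ?_
    push_cast
    norm_num
  · rw [wr23]
    refine num_c rbv3 (by norm_num) ?_ ?_
    · push_cast
      norm_num
    · push_cast
      norm_num

lemma eP23 {V : List ℕ} {t : ℕ} (hV : VL V)
    (h : tsq t_m23 t_p23 1174725395 1230735480 V t = true) (hg : Good (Q 2) V) :
    Good (Q 3) V := by
  refine slabP_step (τ := 49 / 40) (by norm_num) (by rw [lv2]; norm_num)
    (by rw [lv3]; norm_num) ok_m23 ok_p23 sl23 sr23 ?_ ?_ hV h hg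
  · rw [wl23]
    refine num_c (add_le_add rfv2 rbv2) (by norm_num) (by positivity) ?_
    push_cast
    norm_num
  · rw [wr23]
    refine num_c (add_le_add rfv3 rbv3) (by norm_num) ?_ ?_
    · push_cast
      norm_num
    · push_cast
      norm_num

lemma wl24 : (259 / 200 : ℝ) - lv 2 = 1 / 8 := by rw [lv2]; norm_num

lemma wr24 : lv 4 - (259 / 200 : ℝ) = 1 / 8 := by rw [lv4]; norm_num

lemma sl24 : Real.pi * (259 / 200 - lv 2) * (((2799883327398 : ℕ) : ℝ) / 2 ^ 40) ≤ 1 := by
  rw [wl24]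
  refine num_s (by norm_num) (by positivity) ?_
  push_cast
  norm_num

lemma sr24 : Real.pi * (lv 4 - 259 / 200) * (((2799883327398 : ℕ) : ℝ) / 2 ^ 40) ≤ 1 := by
  rw [wr24]
  refine num_s (by norm_num) (by positivity) ?_
  push_cast
  norm_num

lemma eB24 {V : List ℕ} {t : ℕ} (hV : VL V)
    (h : tst t_m24 t_p24 259242136 289950494 V t = true) (hg : Good (Q 2) V) :
    Good (Q 4) V := by
  refine slabB_step (τ := 259 / 200) (by norm_num) (by rw [lv2]; norm_num)
    (by rw [lv4]; norm_num) ok_m24 ok_p24 sl24 sr24 ?_ ?_ hV h hg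
  · rw [wl24]
    refine num_c rbv2 (by norm_num) (by positivity) ?_
    push_cast
    norm_num
  · rw [wr24]
    refine num_c rbv4 (by norm_num) ?_ ?_
    · push_cast
      norm_num
    · push_cast
      norm_num

lemma eP24 {V : List ℕ} {t : ℕ} (hV : VL V)
    (h : tsq t_m24 t_p24 516879174 574023822 V t = true) (hg : Good (Q 2) V) :
    Good (Q 4) V := by
  refine slabP_step (τ := 259 / 200) (by norm_num) (by rw [lv2]; norm_num)
    (by rw [lv4]; norm_num) ok_m24 ok_p24 sl24 sr24 ?_ ?_ hV h hg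
  · rw [wl24]
    refine num_c (add_le_add rfv2 rbv2) (by norm_num) (by positivity) ?_
    push_cast
    norm_num
  · rw [wr24]
    refine num_c (add_le_add rfv4 rbv4) (by norm_num) ?_ ?_
    · push_cast
      norm_num
    · push_cast
      norm_num

lemma wl34 : (27 / 20 : ℝ) - lv 3 = 7 / 100 := by rw [lv3]; norm_num

lemma wr34 : lv 4 - (27 / 20 : ℝ) = 7 / 100 := by rw [lv4]; norm_num

lemma sl34 : Real.pi * (27 / 20 - lv 3) * (((4999791656069 : ℕ) : ℝ) / 2 ^ 40) ≤ 1 := by
  rw [wl34]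
  refine num_s (by norm_num) (by positivity) ?_
  push_cast
  norm_num

lemma sr34 : Real.pi * (lv 4 - 27 / 20) * (((4999791656069 : ℕ) : ℝ) / 2 ^ 40) ≤ 1 := by
  rw [wr34]
  refine num_s (by norm_num) (by positivity) ?_
  push_cast
  norm_num

lemma eB34 {V : List ℕ} {t : ℕ} (hV : VL V)
    (h : tst t_m34 t_p34 464936543 496347830 V t = true) (hg : Good (Q 3) V) :
    Good (Q 4) V := by
  refine slabB_step (τ := 27 / 20) (by norm_num) (by rw [lv3]; norm_num)
    (by rw [lv4]; norm_num) ok_m34 ok_p34 sl34 sr34 ?_ ?_ hV h hg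
  · rw [wl34]
    refine num_c rbv3 (by norm_num) (by positivity) ?_
    push_cast
    norm_num
  · rw [wr34]
    refine num_c rbv4 (by norm_num) ?_ ?_
    · push_cast
      norm_num
    · push_cast
      norm_num

lemma eP34 {V : List ℕ} {t : ℕ} (hV : VL V)
    (h : tsq t_m34 t_p34 924164629 982200720 V t = true) (hg : Good (Q 3) V) :
    Good (Q 4) V := by
  refine slabP_step (τ := 27 / 20) (by norm_num) (by rw [lv3]; norm_num)
    (by rw [lv4]; norm_num) ok_m34 ok_p34 sl34 sr34 ?_ ?_ hV h hg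
  · rw [wl34]
    refine num_c (add_le_add rfv3 rbv3) (by norm_num) (by positivity) ?_
    push_cast
    norm_num
  · rw [wr34]
    refine num_c (add_le_add rfv4 rbv4) (by norm_num) ?_ ?_
    · push_cast
      norm_num
    · push_cast
      norm_num

lemma wl35 : (36 / 25 : ℝ) - lv 3 = 4 / 25 := by rw [lv3]; norm_num

lemma wr35 : lv 5 - (36 / 25 : ℝ) = 4 / 25 := by rw [lv5]; norm_num

lemma sl35 : Real.pi * (36 / 25 - lv 3) * (((2187408849530 : ℕ) : ℝ) / 2 ^ 40) ≤ 1 := by
  rw [wl35]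
  refine num_s (by norm_num) (by positivity) ?_
  push_cast
  norm_num

lemma sr35 : Real.pi * (lv 5 - 36 / 25) * (((2187408849530 : ℕ) : ℝ) / 2 ^ 40) ≤ 1 := by
  rw [wr35]
  refine num_s (by norm_num) (by positivity) ?_
  push_cast
  norm_num

lemma eB35 {V : List ℕ} {t : ℕ} (hV : VL V)
    (h : tst t_m35 t_p35 203409738 235812471 V t = true) (hg : Good (Q 3) V) :
    Good (Q 5) V := by
  refine slabB_step (τ := 36 / 25) (by norm_num) (by rw [lv3]; norm_num)
    (by rw [lv5]; norm_num) ok_m35 ok_p35 sl35 sr35 ?_ ?_ hV h hg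
  · rw [wl35]
    refine num_c rbv3 (by norm_num) (by positivity) ?_
    push_cast
    norm_num
  · rw [wr35]
    refine num_c rbv5 (by norm_num) ?_ ?_
    · push_cast
      norm_num
    · push_cast
      norm_num

lemma eP35 {V : List ℕ} {t : ℕ} (hV : VL V)
    (h : tsq t_m35 t_p35 404322026 463519619 V t = true) (hg : Good (Q 3) V) :
    Good (Q 5) V := by
  refine slabP_step (τ := 36 / 25) (by norm_num) (by rw [lv3]; norm_num)
    (by rw [lv5]; norm_num) ok_m35 ok_p35 sl35 sr35 ?_ ?_ hV h hg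
  · rw [wl35]
    refine num_c (add_le_add rfv3 rbv3) (by norm_num) (by positivity) ?_
    push_cast
    norm_num
  · rw [wr35]
    refine num_c (add_le_add rfv5 rbv5) (by norm_num) ?_ ?_
    · push_cast
      norm_num
    · push_cast
      norm_num

lemma wl45 : (151 / 100 : ℝ) - lv 4 = 9 / 100 := by rw [lv4]; norm_num

lemma wr45 : lv 5 - (151 / 100 : ℝ) = 9 / 100 := by rw [lv5]; norm_num

lemma sl45 : Real.pi * (151 / 100 - lv 4) * (((3888726843609 : ℕ) : ℝ) / 2 ^ 40) ≤ 1 := by
  rw [wl45]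
  refine num_s (by norm_num) (by positivity) ?_
  push_cast
  norm_num

lemma sr45 : Real.pi * (lv 5 - 151 / 100) * (((3888726843609 : ℕ) : ℝ) / 2 ^ 40) ≤ 1 := by
  rw [wr45]
  refine num_s (by norm_num) (by positivity) ?_
  push_cast
  norm_num

lemma eB45 {V : List ℕ} {t : ℕ} (hV : VL V)
    (h : tst t_m45 t_p45 364843775 398017633 V t = true) (hg : Good (Q 4) V) :
    Good (Q 5) V := by
  refine slabB_step (τ := 151 / 100) (by norm_num) (by rw [lv4]; norm_num)
    (by rw [lv5]; norm_num) ok_m45 ok_p45 sl45 sr45 ?_ ?_ hV h hg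
  · rw [wl45]
    refine num_c rbv4 (by norm_num) (by positivity) ?_
    push_cast
    norm_num
  · rw [wr45]
    refine num_c rbv5 (by norm_num) ?_ ?_
    · push_cast
      norm_num
    · push_cast
      norm_num

lemma eP45 {V : List ℕ} {t : ℕ} (hV : VL V)
    (h : tsq t_m45 t_p45 721524819 781625804 V t = true) (hg : Good (Q 4) V) :
    Good (Q 5) V := by
  refine slabP_step (τ := 151 / 100) (by norm_num) (by rw [lv4]; norm_num)
    (by rw [lv5]; norm_num) ok_m45 ok_p45 sl45 sr45 ?_ ?_ hV h hg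
  · rw [wl45]
    refine num_c (add_le_add rfv4 rbv4) (by norm_num) (by positivity) ?_
    push_cast
    norm_num
  · rw [wr45]
    refine num_c (add_le_add rfv5 rbv5) (by norm_num) ?_ ?_
    · push_cast
      norm_num
    · push_cast
      norm_num

lemma wl46 : (161 / 100 : ℝ) - lv 4 = 19 / 100 := by rw [lv4]; norm_num

lemma wr46 : lv 6 - (161 / 100 : ℝ) = 29 / 100 := by rw [lv6]; norm_num

lemma sl46 : Real.pi * (161 / 100 - lv 4) * (((1842028504867 : ℕ) : ℝ) / 2 ^ 40) ≤ 1 := by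
  rw [wl46]
  refine num_s (by norm_num) (by positivity) ?_
  push_cast
  norm_num

lemma sr46 : Real.pi * (lv 6 - 161 / 100) * (((1206846261809 : ℕ) : ℝ) / 2 ^ 40) ≤ 1 := by
  rw [wr46]
  refine num_s (by norm_num) (by positivity) ?_
  push_cast
  norm_num

lemma eB46 {V : List ℕ} {t : ℕ} (hV : VL V)
    (h : tst t_m46 t_p46 172820736 146543370 V t = true) (hg : Good (Q 4) V) :
    Good (Q 6) V := by
  refine slabB_step (τ := 161 / 100) (by norm_num) (by rw [lv4]; norm_num)
    (by rw [lv6]; norm_num) ok_m46 ok_p46 sl46 sr46 ?_ ?_ hV h hg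
  · rw [wl46]
    refine num_c rbv4 (by norm_num) (by positivity) ?_
    push_cast
    norm_num
  · rw [wr46]
    refine num_c rbv6 (by norm_num) ?_ ?_
    · push_cast
      norm_num
    · push_cast
      norm_num

lemma eP46 {V : List ℕ} {t : ℕ} (hV : VL V)
    (h : tsq t_m46 t_p46 341774915 284327362 V t = true) (hg : Good (Q 4) V) :
    Good (Q 6) V := by
  refine slabP_step (τ := 161 / 100) (by norm_num) (by rw [lv4]; norm_num)
    (by rw [lv6]; norm_num) ok_m46 ok_p46 sl46 sr46 ?_ ?_ hV h hg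
  · rw [wl46]
    refine num_c (add_le_add rfv4 rbv4) (by norm_num) (by positivity) ?_
    push_cast
    norm_num
  · rw [wr46]
    refine num_c (add_le_add rfv6 rbv6) (by norm_num) ?_ ?_
    · push_cast
      norm_num
    · push_cast
      norm_num

lemma wl56 : (7 / 4 : ℝ) - lv 5 = 3 / 20 := by rw [lv5]; norm_num

lemma wr56 : lv 6 - (7 / 4 : ℝ) = 3 / 20 := by rw [lv6]; norm_num

lemma sl56 : Real.pi * (7 / 4 - lv 5) * (((2333236106165 : ℕ) : ℝ) / 2 ^ 40) ≤ 1 := by
  rw [wl56]
  refine num_s (by norm_num) (by positivity) ?_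
  push_cast
  norm_num

lemma sr56 : Real.pi * (lv 6 - 7 / 4) * (((2333236106165 : ℕ) : ℝ) / 2 ^ 40) ≤ 1 := by
  rw [wr56]
  refine num_s (by norm_num) (by positivity) ?_
  push_cast
  norm_num

lemma eB56 {V : List ℕ} {t : ℕ} (hV : VL V)
    (h : tst t_m56 t_p56 222452794 257871737 V t = true) (hg : Good (Q 5) V) :
    Good (Q 6) V := by
  refine slabB_step (τ := 7 / 4) (by norm_num) (by rw [lv5]; norm_num)
    (by rw [lv6]; norm_num) ok_m56 ok_p56 sl56 sr56 ?_ ?_ hV h hg
  · rw [wl56]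
    refine num_c rbv5 (by norm_num) (by positivity) ?_
    push_cast
    norm_num
  · rw [wr56]
    refine num_c rbv6 (by norm_num) ?_ ?_
    · push_cast
      norm_num
    · push_cast
      norm_num

lemma eP56 {V : List ℕ} {t : ℕ} (hV : VL V)
    (h : tsq t_m56 t_p56 436259911 498808677 V t = true) (hg : Good (Q 5) V) :
    Good (Q 6) V := by
  refine slabP_step (τ := 7 / 4) (by norm_num) (by rw [lv5]; norm_num)
    (by rw [lv6]; norm_num) ok_m56 ok_p56 sl56 sr56 ?_ ?_ hV h hg
  · rw [wl56]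
    refine num_c (add_le_add rfv5 rbv5) (by norm_num) (by positivity) ?_
    push_cast
    norm_num
  · rw [wr56]
    refine num_c (add_le_add rfv6 rbv6) (by norm_num) ?_ ?_
    · push_cast
      norm_num
    · push_cast
      norm_num

lemma wl57 : (179 / 100 : ℝ) - lv 5 = 19 / 100 := by rw [lv5]; norm_num

lemma wr57 : lv 7 - (179 / 100 : ℝ) = 51 / 100 := by rw [lv7]; norm_num

lemma sl57 : Real.pi * (179 / 100 - lv 5) * (((1842028504867 : ℕ) : ℝ) / 2 ^ 40) ≤ 1 := by
  rw [wl57]
  refine num_s (by norm_num) (by positivity) ?_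
  push_cast
  norm_num

lemma sr57 : Real.pi * (lv 7 - 179 / 100) * (((686245913578 : ℕ) : ℝ) / 2 ^ 40) ≤ 1 := by
  rw [wr57]
  refine num_s (by norm_num) (by positivity) ?_
  push_cast
  norm_num

lemma eB57 {V : List ℕ} {t : ℕ} (hV : VL V)
    (h : tst t_m57 t_p57 175620627 99359952 V t = true) (hg : Good (Q 5) V) :
    Good (Q 7) V := by
  refine slabB_step (τ := 179 / 100) (by norm_num) (by rw [lv5]; norm_num)
    (by rw [lv7]; norm_num) ok_m57 ok_p57 sl57 sr57 ?_ ?_ hV h hg
  · rw [wl57]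
    refine num_c rbv5 (by norm_num) (by positivity) ?_
    push_cast
    norm_num
  · rw [wr57]
    refine num_c rbv7 (by norm_num) ?_ ?_
    · push_cast
      norm_num
    · push_cast
      norm_num

lemma eP57 {V : List ℕ} {t : ℕ} (hV : VL V)
    (h : tsq t_m57 t_p57 344415720 189454651 V t = true) (hg : Good (Q 5) V) :
    Good (Q 7) V := by
  refine slabP_step (τ := 179 / 100) (by norm_num) (by rw [lv5]; norm_num)
    (by rw [lv7]; norm_num) ok_m57 ok_p57 sl57 sr57 ?_ ?_ hV h hg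
  · rw [wl57]
    refine num_c (add_le_add rfv5 rbv5) (by norm_num) (by positivity) ?_
    push_cast
    norm_num
  · rw [wr57]
    refine num_c (add_le_add rfv7 rbv7) (by norm_num) ?_ ?_
    · push_cast
      norm_num
    · push_cast
      norm_num

lemma wl67 : (21 / 10 : ℝ) - lv 6 = 1 / 5 := by rw [lv6]; norm_num

lemma wr67 : lv 7 - (21 / 10 : ℝ) = 1 / 5 := by rw [lv7]; norm_num

lemma sl67 : Real.pi * (21 / 10 - lv 6) * (((1749927079624 : ℕ) : ℝ) / 2 ^ 40) ≤ 1 := by
  rw [wl67]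
  refine num_s (by norm_num) (by positivity) ?_
  push_cast
  norm_num

lemma sr67 : Real.pi * (lv 7 - 21 / 10) * (((1749927079624 : ℕ) : ℝ) / 2 ^ 40) ≤ 1 := by
  rw [wr67]
  refine num_s (by norm_num) (by positivity) ?_
  push_cast
  norm_num

lemma eB67 {V : List ℕ} {t : ℕ} (hV : VL V)
    (h : tst t_m67 t_p67 172956571 211110264 V t = true) (hg : Good (Q 6) V) :
    Good (Q 7) V := by
  refine slabB_step (τ := 21 / 10) (by norm_num) (by rw [lv6]; norm_num)
    (by rw [lv7]; norm_num) ok_m67 ok_p67 sl67 sr67 ?_ ?_ hV h hg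
  · rw [wl67]
    refine num_c rbv6 (by norm_num) (by positivity) ?_
    push_cast
    norm_num
  · rw [wr67]
    refine num_c rbv7 (by norm_num) ?_ ?_
    · push_cast
      norm_num
    · push_cast
      norm_num

lemma eP67 {V : List ℕ} {t : ℕ} (hV : VL V)
    (h : tsq t_m67 t_p67 333212044 398594134 V t = true) (hg : Good (Q 6) V) :
    Good (Q 7) V := by
  refine slabP_step (τ := 21 / 10) (by norm_num) (by rw [lv6]; norm_num)
    (by rw [lv7]; norm_num) ok_m67 ok_p67 sl67 sr67 ?_ ?_ hV h hg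
  · rw [wl67]
    refine num_c (add_le_add rfv6 rbv6) (by norm_num) (by positivity) ?_
    push_cast
    norm_num
  · rw [wr67]
    refine num_c (add_le_add rfv7 rbv7) (by norm_num) ?_ ?_
    · push_cast
      norm_num
    · push_cast
      norm_num

lemma wl68 : (21 / 10 : ℝ) - lv 6 = 1 / 5 := by rw [lv6]; norm_num

lemma wr68 : lv 8 - (21 / 10 : ℝ) = 7 / 10 := by rw [lv8]; norm_num

lemma sl68 : Real.pi * (21 / 10 - lv 6) * (((1749927079624 : ℕ) : ℝ) / 2 ^ 40) ≤ 1 := by
  rw [wl68]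
  refine num_s (by norm_num) (by positivity) ?_
  push_cast
  norm_num

lemma sr68 : Real.pi * (lv 8 - 21 / 10) * (((499979165606 : ℕ) : ℝ) / 2 ^ 40) ≤ 1 := by
  rw [wr68]
  refine num_s (by norm_num) (by positivity) ?_
  push_cast
  norm_num

lemma eB68 {V : List ℕ} {t : ℕ} (hV : VL V)
    (h : tst t_m68 t_p68 172956571 84726595 V t = true) (hg : Good (Q 6) V) :
    Good (Q 8) V := by
  refine slabB_step (τ := 21 / 10) (by norm_num) (by rw [lv6]; norm_num)
    (by rw [lv8]; norm_num) ok_m68 ok_p68 sl68 sr68 ?_ ?_ hV h hg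
  · rw [wl68]
    refine num_c rbv6 (by norm_num) (by positivity) ?_
    push_cast
    norm_num
  · rw [wr68]
    refine num_c rbv8 (by norm_num) ?_ ?_
    · push_cast
      norm_num
    · push_cast
      norm_num

lemma eP68 {V : List ℕ} {t : ℕ} (hV : VL V)
    (h : tsq t_m68 t_p68 333212044 157764795 V t = true) (hg : Good (Q 6) V) :
    Good (Q 8) V := by
  refine slabP_step (τ := 21 / 10) (by norm_num) (by rw [lv6]; norm_num)
    (by rw [lv8]; norm_num) ok_m68 ok_p68 sl68 sr68 ?_ ?_ hV h hg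
  · rw [wl68]
    refine num_c (add_le_add rfv6 rbv6) (by norm_num) (by positivity) ?_
    push_cast
    norm_num
  · rw [wr68]
    refine num_c (add_le_add rfv8 rbv8) (by norm_num) ?_ ?_
    · push_cast
      norm_num
    · push_cast
      norm_num

lemma wl78 : (5 / 2 : ℝ) - lv 7 = 1 / 5 := by rw [lv7]; norm_num

lemma wr78 : lv 8 - (5 / 2 : ℝ) = 3 / 10 := by rw [lv8]; norm_num

lemma sl78 : Real.pi * (5 / 2 - lv 7) * (((1749927079624 : ℕ) : ℝ) / 2 ^ 40) ≤ 1 := by
  rw [wl78]
  refine num_s (by norm_num) (by positivity) ?_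
  push_cast
  norm_num

lemma sr78 : Real.pi * (lv 8 - 5 / 2) * (((1166618053082 : ℕ) : ℝ) / 2 ^ 40) ≤ 1 := by
  rw [wr78]
  refine num_s (by norm_num) (by positivity) ?_
  push_cast
  norm_num

lemma eB78 {V : List ℕ} {t : ℕ} (hV : VL V)
    (h : tst t_m78 t_p78 183847288 161344753 V t = true) (hg : Good (Q 7) V) :
    Good (Q 8) V := by
  refine slabB_step (τ := 5 / 2) (by norm_num) (by rw [lv7]; norm_num)
    (by rw [lv8]; norm_num) ok_m78 ok_p78 sl78 sr78 ?_ ?_ hV h hg
  · rw [wl78]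
    refine num_c rbv7 (by norm_num) (by positivity) ?_
    push_cast
    norm_num
  · rw [wr78]
    refine num_c rbv8 (by norm_num) ?_ ?_
    · push_cast
      norm_num
    · push_cast
      norm_num

lemma eP78 {V : List ℕ} {t : ℕ} (hV : VL V)
    (h : tsq t_m78 t_p78 344068182 295416585 V t = true) (hg : Good (Q 7) V) :
    Good (Q 8) V := by
  refine slabP_step (τ := 5 / 2) (by norm_num) (by rw [lv7]; norm_num)
    (by rw [lv8]; norm_num) ok_m78 ok_p78 sl78 sr78 ?_ ?_ hV h hg
  · rw [wl78]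
    refine num_c (add_le_add rfv7 rbv7) (by norm_num) (by positivity) ?_
    push_cast
    norm_num
  · rw [wr78]
    refine num_c (add_le_add rfv8 rbv8) (by norm_num) ?_ ?_
    · push_cast
      norm_num
    · push_cast
      norm_num

lemma wl79 : (5 / 2 : ℝ) - lv 7 = 1 / 5 := by rw [lv7]; norm_num

lemma wr79 : lv 9 - (5 / 2 : ℝ) = 1 := by rw [lv9]; norm_num

lemma sl79 : Real.pi * (5 / 2 - lv 7) * (((1749927079624 : ℕ) : ℝ) / 2 ^ 40) ≤ 1 := by
  rw [wl79]
  refine num_s (by norm_num) (by positivity) ?_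
  push_cast
  norm_num

lemma sr79 : Real.pi * (lv 9 - 5 / 2) * (((349985415924 : ℕ) : ℝ) / 2 ^ 40) ≤ 1 := by
  rw [wr79]
  refine num_s (by norm_num) (by positivity) ?_
  push_cast
  norm_num

lemma eB79 {V : List ℕ} {t : ℕ} (hV : VL V)
    (h : tst t_m79 t_p79 183847288 73506702 V t = true) (hg : Good (Q 7) V) :
    Good (Q 9) V := by
  refine slabB_step (τ := 5 / 2) (by norm_num) (by rw [lv7]; norm_num)
    (by rw [lv9]; norm_num) ok_m79 ok_p79 sl79 sr79 ?_ ?_ hV h hg
  · rw [wl79]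
    refine num_c rbv7 (by norm_num) (by positivity) ?_
    push_cast
    norm_num
  · rw [wr79]
    refine num_c rbv9 (by norm_num) ?_ ?_
    · push_cast
      norm_num
    · push_cast
      norm_num

lemma eP79 {V : List ℕ} {t : ℕ} (hV : VL V)
    (h : tsq t_m79 t_p79 344068182 132812095 V t = true) (hg : Good (Q 7) V) :
    Good (Q 9) V := by
  refine slabP_step (τ := 5 / 2) (by norm_num) (by rw [lv7]; norm_num)
    (by rw [lv9]; norm_num) ok_m79 ok_p79 sl79 sr79 ?_ ?_ hV h hg
  · rw [wl79]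
    refine num_c (add_le_add rfv7 rbv7) (by norm_num) (by positivity) ?_
    push_cast
    norm_num
  · rw [wr79]
    refine num_c (add_le_add rfv9 rbv9) (by norm_num) ?_ ?_
    · push_cast
      norm_num
    · push_cast
      norm_num

lemma wl89 : (301 / 100 : ℝ) - lv 8 = 21 / 100 := by rw [lv8]; norm_num

lemma wr89 : lv 9 - (301 / 100 : ℝ) = 49 / 100 := by rw [lv9]; norm_num

lemma sl89 : Real.pi * (301 / 100 - lv 8) * (((1666597218689 : ℕ) : ℝ) / 2 ^ 40) ≤ 1 := by
  rw [wl89]
  refine num_s (by norm_num) (by positivity) ?_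
  push_cast
  norm_num

lemma sr89 : Real.pi * (lv 9 - 301 / 100) * (((714255950867 : ℕ) : ℝ) / 2 ^ 40) ≤ 1 := by
  rw [wr89]
  refine num_s (by norm_num) (by positivity) ?_
  push_cast
  norm_num

lemma eB89 {V : List ℕ} {t : ℕ} (hV : VL V)
    (h : tst t_m89 t_p89 191545395 121637927 V t = true) (hg : Good (Q 8) V) :
    Good (Q 9) V := by
  refine slabB_step (τ := 301 / 100) (by norm_num) (by rw [lv8]; norm_num)
    (by rw [lv9]; norm_num) ok_m89 ok_p89 sl89 sr89 ?_ ?_ hV h hg
  · rw [wl89]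
    refine num_c rbv8 (by norm_num) (by positivity) ?_
    push_cast
    norm_num
  · rw [wr89]
    refine num_c rbv9 (by norm_num) ?_ ?_
    · push_cast
      norm_num
    · push_cast
      norm_num

lemma eP89 {V : List ℕ} {t : ℕ} (hV : VL V)
    (h : tsq t_m89 t_p89 344129475 214293590 V t = true) (hg : Good (Q 8) V) :
    Good (Q 9) V := by
  refine slabP_step (τ := 301 / 100) (by norm_num) (by rw [lv8]; norm_num)
    (by rw [lv9]; norm_num) ok_m89 ok_p89 sl89 sr89 ?_ ?_ hV h hg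
  · rw [wl89]
    refine num_c (add_le_add rfv8 rbv8) (by norm_num) (by positivity) ?_
    push_cast
    norm_num
  · rw [wr89]
    refine num_c (add_le_add rfv9 rbv9) (by norm_num) ?_ ?_
    · push_cast
      norm_num
    · push_cast
      norm_num

/-- the tests are sound -/
theorem env_fin (l : ℕ) (V : List ℕ) (t : ℕ) (hl : l ≤ 9) (hV : VL V)
    (h : tst (env.ta l) (env.tf l) (env.ca l) env.cf V t = true) (hg : Good (Q l) V) :
    Good (Q 10) V := by
  interval_cases l
  · exact fin_step (k := 0) ok_a0 ok_f0 fc0 hV h hg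
  · exact fin_step (k := 1) ok_a1 ok_f1 fc1 hV h hg
  · exact fin_step (k := 2) ok_a2 ok_f2 fc2 hV h hg
  · exact fin_step (k := 3) ok_a3 ok_f3 fc3 hV h hg
  · exact fin_step (k := 4) ok_a4 ok_f4 fc4 hV h hg
  · exact fin_step (k := 5) ok_a5 ok_f5 fc5 hV h hg
  · exact fin_step (k := 6) ok_a6 ok_f6 fc6 hV h hg
  · exact fin_step (k := 7) ok_a7 ok_f7 fc7 hV h hg
  · exact fin_step (k := 8) ok_a8 ok_f8 fc8 hV h hg
  · exact fin_step (k := 9) ok_a9 ok_f9 fc9 hV h hg

theorem env_B (l k : ℕ) (V : List ℕ) (t : ℕ) (hlk : l < k) (hk : k ≤ 9) (hV : VL V)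
    (h : tst (env.tm l k) (env.tp l k) (env.b0 l k) (env.b1 l k) V t = true)
    (hg : Good (Q l) V) : Good (Q k) V := by
  have hk1 : 1 ≤ k := by omega
  interval_cases k
  · interval_cases l
    · exact eB01 hV h hg
  · interval_cases l
    · exact eB02 hV h hg
    · exact eB12 hV h hg
  · interval_cases l
    · exact tst_zero hV h _
    · exact eB13 hV h hg
    · exact eB23 hV h hg
  · interval_cases l
    · exact tst_zero hV h _
    · exact tst_zero hV h _
    · exact eB24 hV h hg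
    · exact eB34 hV h hg
  · interval_cases l
    · exact tst_zero hV h _
    · exact tst_zero hV h _
    · exact tst_zero hV h _
    · exact eB35 hV h hg
    · exact eB45 hV h hg
  · interval_cases l
    · exact tst_zero hV h _
    · exact tst_zero hV h _
    · exact tst_zero hV h _
    · exact tst_zero hV h _
    · exact eB46 hV h hg
    · exact eB56 hV h hg
  · interval_cases l
    · exact tst_zero hV h _
    · exact tst_zero hV h _
    · exact tst_zero hV h _
    · exact tst_zero hV h _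
    · exact tst_zero hV h _
    · exact eB57 hV h hg
    · exact eB67 hV h hg
  · interval_cases l
    · exact tst_zero hV h _
    · exact tst_zero hV h _
    · exact tst_zero hV h _
    · exact tst_zero hV h _
    · exact tst_zero hV h _
    · exact tst_zero hV h _
    · exact eB68 hV h hg
    · exact eB78 hV h hg
  · interval_cases l
    · exact tst_zero hV h _
    · exact tst_zero hV h _
    · exact tst_zero hV h _
    · exact tst_zero hV h _
    · exact tst_zero hV h _
    · exact tst_zero hV h _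
    · exact tst_zero hV h _
    · exact eB79 hV h hg
    · exact eB89 hV h hg

theorem env_P (l k : ℕ) (V : List ℕ) (t : ℕ) (hlk : l < k) (hk : k ≤ 9) (hV : VL V)
    (h : tsq (env.tm l k) (env.tp l k) (env.p0 l k) (env.p1 l k) V t = true)
    (hg : Good (Q l) V) : Good (Q k) V := by
  have hk1 : 1 ≤ k := by omega
  interval_cases k
  · interval_cases l
    · exact eP01 hV h hg
  · interval_cases l
    · exact eP02 hV h hg
    · exact eP12 hV h hg
  · interval_cases l
    · exact tsq_zero hV h _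
    · exact eP13 hV h hg
    · exact eP23 hV h hg
  · interval_cases l
    · exact tsq_zero hV h _
    · exact tsq_zero hV h _
    · exact eP24 hV h hg
    · exact eP34 hV h hg
  · interval_cases l
    · exact tsq_zero hV h _
    · exact tsq_zero hV h _
    · exact tsq_zero hV h _
    · exact eP35 hV h hg
    · exact eP45 hV h hg
  · interval_cases l
    · exact tsq_zero hV h _
    · exact tsq_zero hV h _
    · exact tsq_zero hV h _
    · exact tsq_zero hV h _
    · exact eP46 hV h hg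
    · exact eP56 hV h hg
  · interval_cases l
    · exact tsq_zero hV h _
    · exact tsq_zero hV h _
    · exact tsq_zero hV h _
    · exact tsq_zero hV h _
    · exact tsq_zero hV h _
    · exact eP57 hV h hg
    · exact eP67 hV h hg
  · interval_cases l
    · exact tsq_zero hV h _
    · exact tsq_zero hV h _
    · exact tsq_zero hV h _
    · exact tsq_zero hV h _
    · exact tsq_zero hV h _
    · exact tsq_zero hV h _
    · exact eP68 hV h hg
    · exact eP78 hV h hg
  · interval_cases l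
    · exact tsq_zero hV h _
    · exact tsq_zero hV h _
    · exact tsq_zero hV h _
    · exact tsq_zero hV h _
    · exact tsq_zero hV h _
    · exact tsq_zero hV h _
    · exact tsq_zero hV h _
    · exact eP79 hV h hg
    · exact eP89 hV h hg

end Pool.Agent.U316.Ep
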