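import Pool.Agent.U316.Ep.Lin
import Pool.Agent.U316.Th.Loc4

/-!
# Soundness of the linear and quadratic tests
-/

set_option autoImplicit false

open Matrix Pool.Agent.K1H99.FCC

namespace Pool.Agent.U316.Ep

open Pool.Agent.U316.Th (X13)

/-- the dual vectors -/
def D13 : Fin 13 → Fin 3 → ℤ :=
  ![![0, 1, -1], ![0, 1, 0], ![1, 0, -1], ![1, 0, 0], ![0, 0, 1], ![1, -1, 0], ![1, 1, -1], ![1, -1, -1], ![1, -1, 1], ![0, 2, -1], ![1, 1, -2], ![1, 1, 0], ![2, 0, -1]]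

/-- a packed vector of coefficients -/
def pkv (a : Fin 7 → ℕ) : ℕ := ∑ f : Fin 7, a f * XX ^ (6 - f.val)

/-- a packed matrix -/
def pkm (C : Fin 7 → Fin 7 → ℕ) : ℕ :=
  ∑ f : Fin 7, (∑ e : Fin 7, C e f * XX ^ (6 - e.val)) * (XX ^ 13) ^ (6 - f.val)

/-- the coefficients of the thirteen quadratic values -/
def CL : List (Fin 7 → ℕ) := [![0, 1, 0, 0, 1, 1, 0],
    ![0, 0, 1, 0, 1, 0, 1],
    ![0, 0, 0, 1, 0, 1, 1],
    ![0, 1, 1, 0, 0, 1, 1],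
    ![0, 1, 0, 1, 1, 0, 1],
    ![0, 0, 1, 1, 1, 1, 0],
    ![0, 1, 1, 1, 0, 0, 0],
    ![0, 1, 1, 0, 4, 1, 1],
    ![0, 1, 0, 1, 1, 4, 1],
    ![0, 0, 1, 1, 1, 1, 4],
    ![0, 4, 1, 1, 1, 1, 0],
    ![0, 1, 4, 1, 1, 0, 1],
    ![0, 1, 1, 4, 0, 1, 1]]

/-- the matrices of the twenty-six values -/
def CM : List (Fin 7 → Fin 7 → ℕ) := [![![0, 1, 0, 0, 1, 1, 0], ![1, 0, 0, 0, 0, 0, 0], ![0, 0, 0, 0, 0, 0, 0], ![0, 0, 0, 0, 0, 0, 0], ![1, 0, 0, 0, 0, 0, 0], ![1, 0, 0, 0, 0, 0, 0], ![0, 0, 0, 0, 0, 0, 0]],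
    ![![0, 0, 1, 0, 1, 0, 1], ![0, 0, 0, 0, 0, 0, 0], ![1, 0, 0, 0, 0, 0, 0], ![0, 0, 0, 0, 0, 0, 0], ![1, 0, 0, 0, 0, 0, 0], ![0, 0, 0, 0, 0, 0, 0], ![1, 0, 0, 0, 0, 0, 0]],
    ![![0, 0, 0, 1, 0, 1, 1], ![0, 0, 0, 0, 0, 0, 0], ![0, 0, 0, 0, 0, 0, 0], ![1, 0, 0, 0, 0, 0, 0], ![0, 0, 0, 0, 0, 0, 0], ![1, 0, 0, 0, 0, 0, 0], ![1, 0, 0, 0, 0, 0, 0]],
    ![![0, 1, 1, 0, 0, 1, 1], ![1, 0, 0, 0, 0, 0, 0], ![1, 0, 0, 0, 0, 0, 0], ![0, 0, 0, 0, 0, 0, 0], ![0, 0, 0, 0, 0, 0, 0], ![1, 0, 0, 0, 0, 0, 0], ![1, 0, 0, 0, 0, 0, 0]],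
    ![![0, 1, 0, 1, 1, 0, 1], ![1, 0, 0, 0, 0, 0, 0], ![0, 0, 0, 0, 0, 0, 0], ![1, 0, 0, 0, 0, 0, 0], ![1, 0, 0, 0, 0, 0, 0], ![0, 0, 0, 0, 0, 0, 0], ![1, 0, 0, 0, 0, 0, 0]],
    ![![0, 0, 1, 1, 1, 1, 0], ![0, 0, 0, 0, 0, 0, 0], ![1, 0, 0, 0, 0, 0, 0], ![1, 0, 0, 0, 0, 0, 0], ![1, 0, 0, 0, 0, 0, 0], ![1, 0, 0, 0, 0, 0, 0], ![0, 0, 0, 0, 0, 0, 0]],
    ![![0, 1, 1, 1, 0, 0, 0], ![1, 0, 0, 0, 0, 0, 0], ![1, 0, 0, 0, 0, 0, 0], ![1, 0, 0, 0, 0, 0, 0], ![0, 0, 0, 0, 0, 0, 0], ![0, 0, 0, 0, 0, 0, 0], ![0, 0, 0, 0, 0, 0, 0]],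
    ![![0, 1, 1, 0, 4, 1, 1], ![1, 0, 0, 0, 0, 0, 0], ![1, 0, 0, 0, 0, 0, 0], ![0, 0, 0, 0, 0, 0, 0], ![4, 0, 0, 0, 0, 0, 0], ![1, 0, 0, 0, 0, 0, 0], ![1, 0, 0, 0, 0, 0, 0]],
    ![![0, 1, 0, 1, 1, 4, 1], ![1, 0, 0, 0, 0, 0, 0], ![0, 0, 0, 0, 0, 0, 0], ![1, 0, 0, 0, 0, 0, 0], ![1, 0, 0, 0, 0, 0, 0], ![4, 0, 0, 0, 0, 0, 0], ![1, 0, 0, 0, 0, 0, 0]],
    ![![0, 0, 1, 1, 1, 1, 4], ![0, 0, 0, 0, 0, 0, 0], ![1, 0, 0, 0, 0, 0, 0], ![1, 0, 0, 0, 0, 0, 0], ![1, 0, 0, 0, 0, 0, 0], ![1, 0, 0, 0, 0, 0, 0], ![4, 0, 0, 0, 0, 0, 0]],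
    ![![0, 4, 1, 1, 1, 1, 0], ![4, 0, 0, 0, 0, 0, 0], ![1, 0, 0, 0, 0, 0, 0], ![1, 0, 0, 0, 0, 0, 0], ![1, 0, 0, 0, 0, 0, 0], ![1, 0, 0, 0, 0, 0, 0], ![0, 0, 0, 0, 0, 0, 0]],
    ![![0, 1, 4, 1, 1, 0, 1], ![1, 0, 0, 0, 0, 0, 0], ![4, 0, 0, 0, 0, 0, 0], ![1, 0, 0, 0, 0, 0, 0], ![1, 0, 0, 0, 0, 0, 0], ![0, 0, 0, 0, 0, 0, 0], ![1, 0, 0, 0, 0, 0, 0]],
    ![![0, 1, 1, 4, 0, 1, 1], ![1, 0, 0, 0, 0, 0, 0], ![1, 0, 0, 0, 0, 0, 0], ![4, 0, 0, 0, 0, 0, 0], ![0, 0, 0, 0, 0, 0, 0], ![1, 0, 0, 0, 0, 0, 0], ![1, 0, 0, 0, 0, 0, 0]],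
    ![![0, 0, 0, 0, 0, 0, 0], ![0, 0, 1, 1, 1, 1, 0], ![0, 1, 0, 0, 1, 1, 0], ![0, 1, 0, 0, 1, 1, 0], ![0, 1, 1, 1, 0, 0, 0], ![0, 1, 1, 1, 0, 0, 0], ![0, 0, 0, 0, 0, 0, 0]],
    ![![0, 0, 0, 0, 0, 0, 0], ![0, 0, 0, 1, 0, 1, 1], ![0, 0, 0, 0, 0, 0, 0], ![0, 1, 0, 0, 1, 1, 0], ![0, 0, 0, 1, 0, 1, 1], ![0, 1, 0, 1, 1, 0, 1], ![0, 1, 0, 0, 1, 1, 0]],
    ![![0, 0, 0, 0, 0, 0, 0], ![0, 0, 1, 0, 1, 0, 1], ![0, 1, 0, 1, 1, 0, 1], ![0, 0, 1, 0, 1, 0, 1], ![0, 1, 1, 1, 0, 0, 0], ![0, 0, 0, 0, 0, 0, 0], ![0, 1, 1, 1, 0, 0, 0]],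
    ![![0, 0, 0, 0, 0, 0, 0], ![0, 0, 0, 0, 0, 0, 0], ![0, 0, 0, 1, 0, 1, 1], ![0, 0, 1, 0, 1, 0, 1], ![0, 0, 0, 1, 0, 1, 1], ![0, 0, 1, 0, 1, 0, 1], ![0, 0, 1, 1, 1, 1, 0]],
    ![![0, 0, 0, 0, 0, 0, 0], ![0, 0, 1, 0, 1, 0, 1], ![0, 1, 0, 0, 1, 1, 0], ![0, 0, 0, 0, 0, 0, 0], ![0, 1, 1, 0, 0, 1, 1], ![0, 0, 1, 0, 1, 0, 1], ![0, 1, 0, 0, 1, 1, 0]],
    ![![0, 0, 0, 0, 0, 0, 0], ![0, 0, 0, 1, 0, 1, 1], ![0, 0, 0, 1, 0, 1, 1], ![0, 1, 1, 0, 0, 1, 1], ![0, 0, 0, 0, 0, 0, 0], ![0, 1, 1, 1, 0, 0, 0], ![0, 1, 1, 1, 0, 0, 0]],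
    ![![0, 0, 0, 0, 0, 0, 0], ![0, 0, 1, 1, 1, 1, 0], ![0, 1, 0, 1, 1, 0, 1], ![0, 1, 1, 0, 4, 1, 1], ![0, 1, 1, 4, 0, 1, 1], ![0, 1, 0, 1, 1, 0, 1], ![0, 0, 1, 1, 1, 1, 0]],
    ![![0, 0, 0, 0, 0, 0, 0], ![0, 0, 1, 1, 1, 1, 4], ![0, 1, 0, 1, 1, 0, 1], ![0, 1, 1, 0, 0, 1, 1], ![0, 1, 1, 0, 0, 1, 1], ![0, 1, 0, 1, 1, 0, 1], ![0, 4, 1, 1, 1, 1, 0]],
    ![![0, 0, 0, 0, 0, 0, 0], ![0, 0, 1, 1, 1, 1, 0], ![0, 1, 0, 1, 1, 4, 1], ![0, 1, 1, 0, 0, 1, 1], ![0, 1, 1, 0, 0, 1, 1], ![0, 1, 4, 1, 1, 0, 1], ![0, 0, 1, 1, 1, 1, 0]],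
    ![![0, 0, 0, 0, 0, 0, 0], ![0, 0, 1, 4, 1, 4, 1], ![0, 1, 0, 0, 1, 1, 0], ![0, 4, 0, 0, 4, 4, 0], ![0, 1, 1, 4, 0, 1, 1], ![0, 4, 1, 4, 1, 0, 1], ![0, 1, 0, 0, 1, 1, 0]],
    ![![0, 0, 0, 0, 0, 0, 0], ![0, 0, 4, 1, 4, 1, 1], ![0, 4, 0, 1, 4, 1, 1], ![0, 1, 1, 0, 4, 1, 1], ![0, 4, 4, 4, 0, 0, 0], ![0, 1, 1, 1, 0, 0, 0], ![0, 1, 1, 1, 0, 0, 0]],
    ![![0, 0, 0, 0, 0, 0, 0], ![0, 0, 0, 1, 0, 1, 1], ![0, 0, 0, 1, 0, 1, 1], ![0, 1, 1, 0, 4, 1, 1], ![0, 0, 0, 4, 0, 4, 4], ![0, 1, 1, 1, 4, 0, 4], ![0, 1, 1, 1, 4, 4, 0]],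
    ![![0, 0, 0, 0, 0, 0, 0], ![0, 0, 1, 0, 1, 0, 1], ![0, 1, 0, 4, 1, 1, 4], ![0, 0, 4, 0, 4, 0, 4], ![0, 1, 1, 4, 0, 1, 1], ![0, 0, 1, 0, 1, 0, 1], ![0, 1, 4, 4, 1, 1, 0]]]

lemma KL_eq : KL = CL.map pkv := by decide +kernel

lemma KQ_eq : KQ = CM.map pkm := by decide +kernel

lemma getD_map {α : Type} (g : α → ℕ) (L : List α) (n : ℕ) (d : α) (hn : n < L.length) :
    (L.map g).getD n 0 = g (L.getD n d) := by
  rw [List.getD_eq_getElem _ _ (by rwa [List.length_map]), List.getD_eq_getElem _ _ hn,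
    List.getElem_map]

/-- the accumulated vector of coefficients -/
lemma sum_pkv (b : ℕ → ℕ) : 0 + ∑ n ∈ Finset.range KL.length, KL.getD n 0 * b n =
    pkv (fun f => ∑ n ∈ Finset.range 13, CL.getD n 0 f * b n) := by
  have hlen : KL.length = 13 := rfl
  rw [zero_add, hlen, KL_eq]
  unfold pkv
  simp only [Finset.sum_mul]
  rw [Finset.sum_comm]
  refine Finset.sum_congr rfl fun n hn => ?_
  rw [getD_map _ CL n 0 (Finset.mem_range.1 hn), Finset.sum_mul]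
  exact Finset.sum_congr rfl fun f _ => by ring

/-- the accumulated matrix -/
lemma sum_pkm (b : ℕ → ℕ) : 0 + ∑ n ∈ Finset.range KQ.length, KQ.getD n 0 * b n =
    pkm (fun e f => ∑ n ∈ Finset.range 26, CM.getD n 0 e f * b n) := by
  have hlen : KQ.length = 26 := rfl
  rw [zero_add, hlen, KQ_eq]
  unfold pkm
  simp only [Finset.sum_mul]
  have h1 : ∀ f : Fin 7, ∑ e : Fin 7, ∑ n ∈ Finset.range 26, CM.getD n 0 e f * b n *
      XX ^ (6 - e.val) * (XX ^ 13) ^ (6 - f.val) = ∑ n ∈ Finset.range 26, ∑ e : Fin 7,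
      CM.getD n 0 e f * b n * XX ^ (6 - e.val) * (XX ^ 13) ^ (6 - f.val) :=
    fun f => Finset.sum_comm
  simp only [h1]
  rw [Finset.sum_comm]
  refine Finset.sum_congr rfl fun n hn => ?_
  rw [getD_map _ CM n 0 (Finset.mem_range.1 hn), Finset.sum_mul]
  refine Finset.sum_congr rfl fun f _ => ?_
  rw [Finset.sum_mul]
  exact Finset.sum_congr rfl fun e _ => by ring

lemma CL_le : ∀ n f, CL.getD n 0 f ≤ 4 := by
  intro n
  rcases Nat.lt_or_ge n 13 with h | h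
  · have : ∀ n < 13, ∀ f, CL.getD n 0 f ≤ 4 := by decide
    exact this n h
  · intro f
    rw [List.getD_eq_default _ _ (by show 13 ≤ n; exact h)]
    exact Nat.zero_le _

lemma CM_le : ∀ n e f, CM.getD n 0 e f ≤ 4 := by
  intro n
  rcases Nat.lt_or_ge n 26 with h | h
  · have : ∀ n < 26, ∀ e f, CM.getD n 0 e f ≤ 4 := by decide +kernel
    exact this n h
  · intro e f
    rw [List.getD_eq_default _ _ (by show 26 ≤ n; exact h)]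
    exact Nat.zero_le _

lemma CM_symm : ∀ n e f, CM.getD n 0 e f = CM.getD n 0 f e := by
  intro n
  rcases Nat.lt_or_ge n 26 with h | h
  · have : ∀ n < 26, ∀ e f, CM.getD n 0 e f = CM.getD n 0 f e := by decide +kernel
    exact this n h
  · intro e f
    rw [List.getD_eq_default _ _ (by show 26 ≤ n; exact h)]
    rfl

lemma bound_sum {N : ℕ} (hN : N ≤ 26) (c b : ℕ → ℕ) (hc : ∀ n, c n ≤ 4) (hb : ∀ n, b n < 2 ^ 32) :
    ∑ n ∈ Finset.range N, c n * b n < 2 ^ 40 := by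
  calc ∑ n ∈ Finset.range N, c n * b n ≤ ∑ _n ∈ Finset.range N, 4 * 2 ^ 32 :=
        Finset.sum_le_sum fun n _ => Nat.mul_le_mul (hc n) (hb n).le
    _ = N * (4 * 2 ^ 32) := by simp
    _ ≤ 26 * (4 * 2 ^ 32) := Nat.mul_le_mul_right _ hN
    _ < 2 ^ 40 := by norm_num

lemma vt_spec {A W : ℕ} {a : Fin 7 → ℕ} (ha : ∀ i, a i < 2 ^ 40) (hW : Vd W)
    (h : vt A (pkv a) W = true) : ∑ f, a f * dW W f ≤ A * gw W := by
  have h1 := Nat.le_of_ble_eq_true h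
  have h2 := mid_digit (a := a) hW (fun i => (ha i).trans (by norm_num))
  have e : (340282366920938463463374607431768211456 : ℕ) = XX := rfl
  rw [e] at h1
  unfold pkv at h1
  rw [h2] at h1
  exact h1

lemma vts_spec {A P : ℕ} {V : List ℕ} (h : vts A P V = true) : ∀ W ∈ V, vt A P W = true := by
  induction V with
  | nil => intro W hW; exact absurd hW List.not_mem_nil
  | cons w L ih =>
    change (bif vt A P w then vts A P L else false) = true at h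
    cases h1 : vt A P w with
    | false => rw [h1] at h; exact absurd h (by simp)
    | true =>
      rw [h1] at h
      intro W hW
      rcases List.mem_cons.1 hW with e | e
      · rw [e]; exact h1
      · exact ih h W e

lemma qts_spec {Z k : ℕ} {V : List ℕ} (h : qts Z k V = true) : ∀ W ∈ V, qt Z k W = true := by
  induction V with
  | nil => intro W hW; exact absurd hW List.not_mem_nil
  | cons w L ih =>
    change (bif qt Z k w then qts Z k L else false) = true at h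
    cases h1 : qt Z k w with
    | false => rw [h1] at h; exact absurd h (by simp)
    | true =>
      rw [h1] at h
      intro W hW
      rcases List.mem_cons.1 hW with e | e
      · rw [e]; exact h1
      · exact ih h W e

lemma alls_spec {r : ℕ → Bool} {V : List ℕ} (h : alls r V = true) : ∀ W ∈ V, r W = true := by
  induction V with
  | nil => intro W hW; exact absurd hW List.not_mem_nil
  | cons w L ih =>
    change (bif r w then alls r L else false) = true at h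
    cases h1 : r w with
    | false => rw [h1] at h; exact absurd h (by simp)
    | true =>
      rw [h1] at h
      intro W hW
      rcases List.mem_cons.1 hW with e | e
      · rw [e]; exact h1
      · exact ih h W e

lemma X7_eq : (0x100000000000000000000000000000000000000000000000000000000000000000000000000000000000000000000000000000000000000000000000000000000000000000000000000000000000000000000000000000000000000000000000000000000000000000000000000000000 : ℕ) = XX ^ 7 := by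
  decide +kernel

set_option exponentiation.threshold 20000 in
/-- the first product -/
lemma zro_eq {C : Fin 7 → Fin 7 → ℕ} (hC : ∀ e f, C e f < 2 ^ 40) {W : ℕ} (hW : Vd W) :
    zro (pkm C) (spr W) = ∑ e : Fin 7, (∑ f, C e f * dW W f) * XX ^ (6 - e.val) := by
  have hcol : ∀ f, ∑ e : Fin 7, C e f * XX ^ (6 - e.val) ≤ 2 ^ 43 * XX ^ 6 := by
    intro f
    calc ∑ e : Fin 7, C e f * XX ^ (6 - e.val) ≤ ∑ _e : Fin 7, 2 ^ 40 * XX ^ 6 := by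
          refine Finset.sum_le_sum fun e _ => Nat.mul_le_mul (hC e f).le ?_
          exact Nat.pow_le_pow_right (by unfold XX; norm_num) (by omega)
      _ = 7 * (2 ^ 40 * XX ^ 6) := by simp
      _ ≤ 2 ^ 43 * XX ^ 6 := by
        rw [← mul_assoc]
        exact Nat.mul_le_mul_right _ (by norm_num)
  have h := conv7 (Y := XX ^ 13) (fun f => ∑ e : Fin 7, C e f * XX ^ (6 - e.val)) (dW W)
    (α := 2 ^ 43 * XX ^ 6) (β := 2 ^ 40) hcol (fun i => (dW_lt hW i).le) (by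
      unfold XX
      decide +kernel)
  rw [← spr_eq hW] at h
  have hV : ∑ f : Fin 7, (∑ e : Fin 7, C e f * XX ^ (6 - e.val)) * dW W f =
      ∑ e : Fin 7, (∑ f, C e f * dW W f) * XX ^ (6 - e.val) := by
    simp only [Finset.sum_mul]
    rw [Finset.sum_comm]
    exact Finset.sum_congr rfl fun e _ => Finset.sum_congr rfl fun f _ => by ring
  rw [hV] at h
  have hlt : ∑ e : Fin 7, (∑ f, C e f * dW W f) * XX ^ (6 - e.val) < XX ^ 7 := by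
    calc ∑ e : Fin 7, (∑ f, C e f * dW W f) * XX ^ (6 - e.val) ≤
        ∑ _e : Fin 7, (7 * (2 ^ 40 * 2 ^ 40)) * XX ^ 6 := by
          refine Finset.sum_le_sum fun e _ => Nat.mul_le_mul ?_ ?_
          · calc ∑ f, C e f * dW W f ≤ ∑ _f : Fin 7, 2 ^ 40 * 2 ^ 40 :=
                  Finset.sum_le_sum fun f _ => Nat.mul_le_mul (hC e f).le (dW_lt hW f).le
              _ = _ := by simp
          · exact Nat.pow_le_pow_right (by unfold XX; norm_num) (by omega)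
      _ = 7 * ((7 * (2 ^ 40 * 2 ^ 40)) * XX ^ 6) := by simp
      _ < XX ^ 7 := by
        unfold XX
        decide +kernel
  unfold zro
  rw [X7_eq]
  have e1 : Nat.shiftRight (Nat.mul (pkm C) (spr W)) 9984 = pkm C * spr W / (XX ^ 13) ^ 6 := by
    show (pkm C * spr W) >>> 9984 = _
    rw [Nat.shiftRight_eq_div_pow, XX_eq, ← pow_mul, ← pow_mul]
  rw [e1]
  show pkm C * spr W / (XX ^ 13) ^ 6 % XX ^ 7 = _
  rw [← Nat.mod_mod_of_dvd _ (show XX ^ 7 ∣ XX ^ 13 from pow_dvd_pow _ (by norm_num))]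
  unfold pkm
  rw [h, Nat.mod_eq_of_lt hlt]

/-- the bilinear form of a matrix -/
def bf (C : Fin 7 → Fin 7 → ℕ) (V W : ℕ) : ℕ := ∑ e, (∑ f, C e f * dW V f) * dW W e

lemma bf_comm {C : Fin 7 → Fin 7 → ℕ} (hC : ∀ e f, C e f = C f e) (V W : ℕ) :
    bf C V W = bf C W V := by
  unfold bf
  simp only [Finset.sum_mul]
  rw [Finset.sum_comm]
  refine Finset.sum_congr rfl fun f _ => Finset.sum_congr rfl fun e _ => ?_
  rw [hC e f]
  ring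

lemma qts_bf {C : Fin 7 → Fin 7 → ℕ} (hC : ∀ e f, C e f < 2 ^ 40) {V W a : ℕ} (hV : Vd V)
    (hW : Vd W) (h : qt (zro (pkm C) (spr V)) (Nat.mul (Nat.mul 2 a) (gw V)) W = true) :
    bf C V W < 2 * a * gw V * gw W := by
  rw [zro_eq hC hV] at h
  have h1 := Nat.le_of_ble_eq_true h
  have h2 := mid_digit (a := fun e => ∑ f, C e f * dW V f) hW (fun e => by
    calc ∑ f, C e f * dW V f ≤ ∑ _f : Fin 7, 2 ^ 40 * 2 ^ 40 :=
          Finset.sum_le_sum fun f _ => Nat.mul_le_mul (hC e f).le (dW_lt hV f).le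
      _ < _ := by simp)
  have e : (340282366920938463463374607431768211456 : ℕ) = XX := rfl
  rw [e] at h1
  rw [h2] at h1
  exact h1

/-- soundness of the quadratic tests -/
lemma qall_spec {C0 C1 : Fin 7 → Fin 7 → ℕ} (h0 : ∀ e f, C0 e f < 2 ^ 40)
    (h1 : ∀ e f, C1 e f < 2 ^ 40) (s0 : ∀ e f, C0 e f = C0 f e) (s1 : ∀ e f, C1 e f = C1 f e)
    {a0 a1 : ℕ} {V : List ℕ} (hV : ∀ W ∈ V, Vd W)
    (h : qall a0 (pkm C0) a1 (pkm C1) V = true) : ∀ x ∈ V, ∀ y ∈ V,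
      bf C0 x y < 2 * a0 * gw x * gw y ∧ bf C1 x y < 2 * a1 * gw x * gw y := by
  induction V with
  | nil => intro W hW; exact absurd hW List.not_mem_nil
  | cons w L ih =>
    change (frc (spr w) fun S => frc (Nat.mod w 340282366920938463463374607431768211456) fun g =>
      bif (frc (zro (pkm C0) S) fun Z => frc (Nat.mul (Nat.mul 2 a0) g) fun k =>
        qts Z k (w :: L)) then
      bif (frc (zro (pkm C1) S) fun Z => frc (Nat.mul (Nat.mul 2 a1) g) fun k =>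
        qts Z k (w :: L)) then
        qall a0 (pkm C0) a1 (pkm C1) L else false
      else false) = true at h
    simp only [frc_eq] at h
    have e : Nat.mod w 340282366920938463463374607431768211456 = gw w := rfl
    rw [e] at h
    cases c0 : qts (zro (pkm C0) (spr w)) (Nat.mul (Nat.mul 2 a0) (gw w)) (w :: L) with
    | false => rw [c0] at h; exact absurd h (by simp)
    | true =>
      cases c1 : qts (zro (pkm C1) (spr w)) (Nat.mul (Nat.mul 2 a1) (gw w)) (w :: L) with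
      | false => rw [c0, c1] at h; exact absurd h (by simp)
      | true =>
        rw [c0, c1] at h
        have hw := hV w List.mem_cons_self
        have key : ∀ y ∈ w :: L, bf C0 w y < 2 * a0 * gw w * gw y ∧
            bf C1 w y < 2 * a1 * gw w * gw y := fun y hy =>
          ⟨qts_bf h0 hw (hV y hy) (qts_spec c0 y hy), qts_bf h1 hw (hV y hy) (qts_spec c1 y hy)⟩
        intro x hx y hy
        rcases List.mem_cons.1 hx with ex | hx'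
        · rw [ex]; exact key y hy
        · rcases List.mem_cons.1 hy with ey | hy'
          · have k := key x hx
            rw [ey, bf_comm s0, bf_comm s1]
            refine ⟨k.1.trans_eq ?_, k.2.trans_eq ?_⟩ <;> ring
          · exact ih (fun W hW => hV W (List.mem_cons_of_mem _ hW)) h x hx' y hy'

end Pool.Agent.U316.Ep
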