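import Pool.Agent.U316.Ep.LocH
import Pool.Agent.U316.Ep.Lin2

/-!
# The two regions
-/

set_option autoImplicit false

open Matrix MeasureTheory Set Pool.Agent.K1H99.FCC

namespace Pool.Agent.U316.Ep

open Pool.Agent.U316.Th (Th Bp PD_Bp qd PD_qd LG lg_sum sS pp_param dsum pp_scale th_dual th_Bp)

/-- the region near the face-centred cubic form -/
def LcF : Fin 11 → Fin 6 → ℝ :=
  ![![330, 330, -3560, -3560, 330, 330],
    ![330, 330, 4440, -7560, 330, 330],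
    ![330, 330, -3560, 8440, 330, 330],
    ![330, 330, -7560, 4440, 330, 330],
    ![330, 330, 8440, -3560, 330, 330],
    ![-2805, 3195, 260, 260, -2805, 3195],
    ![3195, -2805, 260, 260, 3195, -2805],
    ![-2805, -2805, 260, 260, 3195, 3195],
    ![3195, 3195, 260, 260, -2805, -2805],
    ![-2805, 3195, 260, 260, 3195, -2805],
    ![3195, -2805, 260, 260, -2805, 3195]]

lemma inF_spec {v : ℕ} (h : inF v = true) : LG LcF (wv v) := by
  unfold inF at h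
  rw [frc_eq, upk_eq] at h
  change _ at h
  have e : ∀ i, dg (Nat.div v 340282366920938463463374607431768211456) i = cw v i := fun _ => rfl
  simp only [frc_eq, Bool.and_eq_true, Nat.add_eq, Nat.mul_eq, e] at h
  obtain ⟨⟨⟨⟨⟨⟨⟨⟨⟨⟨h0, h1⟩, h2⟩, h3⟩, h4⟩, h5⟩, h6⟩, h7⟩, h8⟩, h9⟩, h10⟩ := h
  have h0 := Nat.le_of_ble_eq_true h0
  have h1 := Nat.le_of_ble_eq_true h1
  have h2 := Nat.le_of_ble_eq_true h2
  have h3 := Nat.le_of_ble_eq_true h3
  have h4 := Nat.le_of_ble_eq_true h4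
  have h5 := Nat.le_of_ble_eq_true h5
  have h6 := Nat.le_of_ble_eq_true h6
  have h7 := Nat.le_of_ble_eq_true h7
  have h8 := Nat.le_of_ble_eq_true h8
  have h9 := Nat.le_of_ble_eq_true h9
  have h10 := Nat.le_of_ble_eq_true h10
  rify at h0 h1 h2 h3 h4 h5 h6 h7 h8 h9 h10
  intro r
  fin_cases r <;> simp only [LcF, wv, Fin.sum_univ_six, Fin.isValue, Fin.zero_eta, Fin.mk_one,
    Fin.reduceFinMk, Matrix.cons_val_zero, Matrix.cons_val_one, Matrix.cons_val] <;> linarith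

/-- the region near the body-centred cubic form -/
def LcB : Fin 12 → Fin 6 → ℝ :=
  ![![-180, 120, 120, 120, 120, -180],
    ![220, -80, -80, -80, -80, 220],
    ![120, -180, 120, 120, -180, 120],
    ![-80, 220, -80, -80, 220, -80],
    ![120, 120, -180, -180, 120, 120],
    ![-80, -80, 220, 220, -80, -80],
    ![-289, 11, 11, 11, 11, 311],
    ![311, 11, 11, 11, 11, -289],
    ![11, -289, 11, 11, 311, 11],
    ![11, 311, 11, 11, -289, 11],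
    ![11, 11, -289, 311, 11, 11],
    ![11, 11, 311, -289, 11, 11]]

lemma inB_spec {v : ℕ} (h : inB v = true) : LG LcB (wv v) := by
  unfold inB at h
  rw [frc_eq, upk_eq] at h
  have e : ∀ i, dg (Nat.div v 340282366920938463463374607431768211456) i = cw v i := fun _ => rfl
  simp only [frc_eq, Bool.and_eq_true, Nat.add_eq, Nat.mul_eq, e] at h
  obtain ⟨⟨⟨⟨⟨⟨⟨⟨⟨⟨⟨h0, h1⟩, h2⟩, h3⟩, h4⟩, h5⟩, h6⟩, h7⟩, h8⟩, h9⟩, h10⟩, h11⟩ := h
  have h0 := Nat.le_of_ble_eq_true h0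
  have h1 := Nat.le_of_ble_eq_true h1
  have h2 := Nat.le_of_ble_eq_true h2
  have h3 := Nat.le_of_ble_eq_true h3
  have h4 := Nat.le_of_ble_eq_true h4
  have h5 := Nat.le_of_ble_eq_true h5
  have h6 := Nat.le_of_ble_eq_true h6
  have h7 := Nat.le_of_ble_eq_true h7
  have h8 := Nat.le_of_ble_eq_true h8
  have h9 := Nat.le_of_ble_eq_true h9
  have h10 := Nat.le_of_ble_eq_true h10
  have h11 := Nat.le_of_ble_eq_true h11
  rify at h0 h1 h2 h3 h4 h5 h6 h7 h8 h9 h10 h11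
  intro r
  fin_cases r <;> simp only [LcB, wv, Fin.sum_univ_six, Fin.isValue, Fin.zero_eta, Fin.mk_one,
    Fin.reduceFinMk, Matrix.cons_val_zero, Matrix.cons_val_one, Matrix.cons_val] <;> linarith

lemma zero_of_sum {p : Fin 6 → ℝ} (hp : ∀ i, 0 ≤ p i) (hPD : PD p) (a b c d e f : ℝ)
    (ha : 0 < a) (hb : 0 < b) (hc : 0 < c) (hd : 0 < d) (he : 0 < e) (hf : 0 < f) :
    0 < a * p 0 + b * p 1 + c * p 2 + d * p 3 + e * p 4 + f * p 5 := by
  have hdt := dt_pos hPD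
  by_contra hcon
  push Not at hcon
  have h0 := mul_nonneg ha.le (hp 0)
  have h1 := mul_nonneg hb.le (hp 1)
  have h2 := mul_nonneg hc.le (hp 2)
  have h3 := mul_nonneg hd.le (hp 3)
  have h4 := mul_nonneg he.le (hp 4)
  have h5 := mul_nonneg hf.le (hp 5)
  have z0 : p 0 = 0 := (mul_eq_zero_iff_left ha.ne').1 (by linarith : a * p 0 = 0)
  have z1 : p 1 = 0 := (mul_eq_zero_iff_left hb.ne').1 (by linarith : b * p 1 = 0)
  have z2 : p 2 = 0 := (mul_eq_zero_iff_left hc.ne').1 (by linarith : c * p 2 = 0)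
  have z3 : p 3 = 0 := (mul_eq_zero_iff_left hd.ne').1 (by linarith : d * p 3 = 0)
  have z4 : p 4 = 0 := (mul_eq_zero_iff_left he.ne').1 (by linarith : e * p 4 = 0)
  have z5 : p 5 = 0 := (mul_eq_zero_iff_left hf.ne').1 (by linarith : f * p 5 = 0)
  unfold dt at hdt
  rw [z0, z1, z2, z3, z4, z5] at hdt
  norm_num at hdt

/-- forms with cubic coordinates in the box -/
theorem box_F {q : Fin 6 → ℝ} {s : ℝ} (hs : s = sS q) (hs0 : 0 < s) (hPD : PD q)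
    (b1 : |(-4 * (q 2 + q 3) / s)| ≤ 11 / 100)
    (b2 : |((8 * q 3 - 4 * q 2) / s)| ≤ 11 / 100)
    (b3 : |((8 * q 2 - 4 * q 3) / s)| ≤ 11 / 100)
    (c1 : |(3 * (q 0 - q 1 - q 4 + q 5) / s)| ≤ 13 / 200)
    (c2 : |(3 * (q 0 + q 1 - q 4 - q 5) / s)| ≤ 13 / 200)
    (c3 : |(3 * (q 0 - q 1 + q 4 - q 5) / s)| ≤ 13 / 200) : FinP q := by
  have e := pp_param q hs hs0.ne'
  have hd := dsum q hs0.ne'
  generalize (-4 * (q 2 + q 3) / s) = d1 at *
  generalize ((8 * q 3 - 4 * q 2) / s) = d2 at *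
  generalize ((8 * q 2 - 4 * q 3) / s) = d3 at *
  generalize (3 * (q 0 - q 1 - q 4 + q 5) / s) = w1 at *
  generalize (3 * (q 0 + q 1 - q 4 - q 5) / s) = w2 at *
  generalize (3 * (q 0 - q 1 + q 4 - q 5) / s) = w3 at *
  have hs12 : 0 < s / 12 := by positivity
  have hq : PD (pp d1 d2 d3 w1 w2 w3) := pp_scale hs12 hPD e
  rw [e]
  exact fin_smul hs12 hq (loc_pp hd b1 b2 b3 c1 c2 c3 hq)

/-- the region near the face-centred cubic form -/
theorem reg_F {p : Fin 6 → ℝ} (hp : ∀ i, 0 ≤ p i) (hPD : PD p) (hL : LG LcF p) : FinP p := by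
  obtain ⟨s, hs⟩ : ∃ s, s = sS p := ⟨_, rfl⟩
  have hs0 : 0 < s := by
    have := zero_of_sum hp hPD 3 3 4 4 3 3 (by norm_num) (by norm_num) (by norm_num) (by norm_num)
      (by norm_num) (by norm_num)
    rw [hs]
    unfold sS
    linarith
  have l0 := hL 0
  have l1 := hL 1
  have l2 := hL 2
  have l3 := hL 3
  have l4 := hL 4
  have l5 := hL 5
  have l6 := hL 6
  have l7 := hL 7
  have l8 := hL 8
  have l9 := hL 9
  have l10 := hL 10
  simp only [LcF, Fin.sum_univ_six, Matrix.cons_val] at l0 l1 l2 l3 l4 l5 l6 l7 l8 l9 l10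
  have hs' := hs
  unfold sS at hs'
  refine box_F hs hs0 hPD ?_ ?_ ?_ ?_ ?_ ?_
  · rw [abs_div, abs_of_pos hs0, div_le_iff₀ hs0, abs_le]
    have := hp 2; have := hp 3
    constructor <;> linarith
  · rw [abs_div, abs_of_pos hs0, div_le_iff₀ hs0, abs_le]
    constructor <;> linarith
  · rw [abs_div, abs_of_pos hs0, div_le_iff₀ hs0, abs_le]
    constructor <;> linarith
  · rw [abs_div, abs_of_pos hs0, div_le_iff₀ hs0, abs_le]
    constructor <;> linarith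
  · rw [abs_div, abs_of_pos hs0, div_le_iff₀ hs0, abs_le]
    constructor <;> linarith
  · rw [abs_div, abs_of_pos hs0, div_le_iff₀ hs0, abs_le]
    constructor <;> linarith

lemma th_qd_qd {p : Fin 6 → ℝ} (hp : PD p) {t : ℝ} (ht : 0 < t) : Th t (qd (qd p)) = Th t p := by
  have h1 := th_dual hp ht
  have h2 := th_dual (PD_qd hp) (β := 1 / t) (by positivity)
  rw [one_div_one_div] at h2
  have h3 : t ^ (-(3 / 2) : ℝ) * (1 / t) ^ (-(3 / 2) : ℝ) = 1 := by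
    rw [← Real.mul_rpow ht.le (by positivity), mul_one_div_cancel ht.ne', Real.one_rpow]
  rw [h2, ← mul_assoc, h3, one_mul] at h1
  linarith

/-- the pair sum is invariant under duality -/
lemma sf_qd {p : Fin 6 → ℝ} (hp : PD p) {t : ℝ} (ht : 0 < t) : Sf t (qd p) = Sf t p := by
  unfold Sf
  rw [th_qd_qd hp ht]
  ring

lemma fin_qd {p : Fin 6 → ℝ} (hp : PD p) (h : FinP (qd p)) : FinP p := by
  intro σ hσ
  refine (h σ hσ).trans (le_of_eq ?_)
  refine setIntegral_congr_fun measurableSet_Ioi fun t ht => ?_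
  have ht : 1 < t := ht
  rw [sf_qd hp (by linarith)]

lemma box_aux {P0 P1 P2 Q0 Q1 Q2 s : ℝ} (hP : P0 + P1 + P2 = 0) (p0 : |P0| ≤ 1 / 5)
    (p1 : |P1| ≤ 1 / 5) (p2 : |P2| ≤ 1 / 5) (q0 : |Q0| ≤ 11 / 100) (q1 : |Q1| ≤ 11 / 100)
    (q2 : |Q2| ≤ 11 / 100)
    (hs : s = 48 - 2 * (P0 ^ 2 + P1 ^ 2 + P2 ^ 2) - 4 * (Q0 ^ 2 + Q1 ^ 2 + Q2 ^ 2)) :
    0 < s ∧ |24 * P2 - 4 * (P0 ^ 2 + P1 ^ 2 - 2 * P2 ^ 2 - Q0 ^ 2 - Q1 ^ 2 + 2 * Q2 ^ 2)| ≤
      11 / 100 * s ∧ |24 * Q2 - 12 * (Q2 * P2) - 12 * (Q0 * Q1)| ≤ 13 / 200 * s := by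
  have sp : ∀ x : ℝ, |x| ≤ 1 / 5 → x ^ 2 ≤ 1 / 25 := fun x h => by
    have := sq_le_of_abs h
    norm_num at this ⊢
    exact this
  have sq : ∀ x : ℝ, |x| ≤ 11 / 100 → x ^ 2 ≤ 121 / 10000 := fun x h => by
    have := sq_le_of_abs h
    norm_num at this ⊢
    exact this
  have a0 := sp P0 p0
  have a1 := sp P1 p1
  have a2 := sp P2 p2
  have c0 := sq Q0 q0
  have c1 := sq Q1 q1
  have c2 := sq Q2 q2
  have n0 := sq_nonneg P0
  have n1 := sq_nonneg P1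
  have n2 := sq_nonneg P2
  have m0 := sq_nonneg Q0
  have m1 := sq_nonneg Q1
  have m2 := sq_nonneg Q2
  have h2 := abs_le.1 p2
  have r2 := abs_le.1 q2
  have half : P2 ^ 2 / 2 ≤ P0 ^ 2 + P1 ^ 2 := by
    have e : P2 = -(P0 + P1) := by linarith
    rw [e]
    nlinarith [sq_nonneg (P0 - P1)]
  refine ⟨by rw [hs]; linarith, ?_, ?_⟩
  · rw [abs_le, hs]
    have k1 : 0 ≤ (1 / 5 - P2) * (1 / 5 + P2) := mul_nonneg (by linarith [h2.2]) (by linarith [h2.1])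
    constructor
    · nlinarith
    · nlinarith
  · have e1 : |Q2 * P2| ≤ 11 / 500 := by
      rw [abs_mul]
      calc |Q2| * |P2| ≤ 11 / 100 * (1 / 5) := mul_le_mul q2 p2 (abs_nonneg _) (by norm_num)
        _ = 11 / 500 := by norm_num
    have e2 : |Q0 * Q1| ≤ 121 / 10000 := by
      rw [abs_mul]
      calc |Q0| * |Q1| ≤ 11 / 100 * (11 / 100) := mul_le_mul q0 q1 (abs_nonneg _) (by norm_num)
        _ = 121 / 10000 := by norm_num
    rw [abs_le] at e1 e2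
    rw [abs_le, hs]
    constructor <;> linarith [e1.1, e1.2, e2.1, e2.2, r2.1, r2.2]

/-- forms near the body-centred cubic form -/
theorem box_B {u : Fin 6 → ℝ} (h0 : u 0 + u 1 + u 2 + u 3 + u 4 + u 5 = 0)
    (p0 : |(u 0 + u 5) / 2| ≤ 1 / 5) (p1 : |(u 1 + u 4) / 2| ≤ 1 / 5)
    (p2 : |(u 2 + u 3) / 2| ≤ 1 / 5)
    (q0 : |(u 0 - u 5) / 2| ≤ 11 / 100) (q1 : |(u 1 - u 4) / 2| ≤ 11 / 100)
    (q2 : |(u 2 - u 3) / 2| ≤ 11 / 100) (hPD : PD fun i => 1 + u i) :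
    FinP (fun i => 1 + u i) := by
  refine fin_qd hPD ?_
  obtain ⟨q, hq⟩ : ∃ q, q = qd fun i => 1 + u i := ⟨_, rfl⟩
  have hqPD : PD q := by rw [hq]; exact PD_qd hPD
  rw [← hq]
  obtain ⟨s, hs⟩ : ∃ s, s = sS q := ⟨_, rfl⟩
  obtain ⟨P0, hP0⟩ : ∃ P, P = (u 0 + u 5) / 2 := ⟨_, rfl⟩
  obtain ⟨P1, hP1⟩ : ∃ P, P = (u 1 + u 4) / 2 := ⟨_, rfl⟩
  obtain ⟨P2, hP2⟩ : ∃ P, P = (u 2 + u 3) / 2 := ⟨_, rfl⟩
  obtain ⟨Q0, hQ0⟩ : ∃ P, P = (u 0 - u 5) / 2 := ⟨_, rfl⟩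
  obtain ⟨Q1, hQ1⟩ : ∃ P, P = (u 1 - u 4) / 2 := ⟨_, rfl⟩
  obtain ⟨Q2, hQ2⟩ : ∃ P, P = (u 2 - u 3) / 2 := ⟨_, rfl⟩
  rw [← hP0] at p0
  rw [← hP1] at p1
  rw [← hP2] at p2
  rw [← hQ0] at q0
  rw [← hQ1] at q1
  rw [← hQ2] at q2
  have hP : P0 + P1 + P2 = 0 := by rw [hP0, hP1, hP2]; linarith
  have u0 : u 0 = P0 + Q0 := by rw [hP0, hQ0]; ring
  have u5 : u 5 = P0 - Q0 := by rw [hP0, hQ0]; ring
  have u1 : u 1 = P1 + Q1 := by rw [hP1, hQ1]; ring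
  have u4 : u 4 = P1 - Q1 := by rw [hP1, hQ1]; ring
  have u2 : u 2 = P2 + Q2 := by rw [hP2, hQ2]; ring
  have u3 : u 3 = P2 - Q2 := by rw [hP2, hQ2]; ring
  have e2 : P2 = -(P0 + P1) := by linarith
  have v0 : q 0 = (1 + u 1) * (1 + u 2) + (1 + u 1) * (1 + u 5) + (1 + u 2) * (1 + u 5) +
      (1 + u 2) * (1 + u 3) := by rw [hq]; unfold qd; simp
  have v1 : q 1 = (1 + u 0) * (1 + u 1) + (1 + u 0) * (1 + u 3) + (1 + u 1) * (1 + u 3) +
      (1 + u 2) * (1 + u 3) := by rw [hq]; unfold qd; simp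
  have v2 : q 2 = (1 + u 0) * (1 + u 5) - (1 + u 2) * (1 + u 3) := by rw [hq]; unfold qd; simp
  have v3 : q 3 = (1 + u 1) * (1 + u 4) - (1 + u 2) * (1 + u 3) := by rw [hq]; unfold qd; simp
  have v4 : q 4 = (1 + u 3) * (1 + u 4) + (1 + u 3) * (1 + u 5) + (1 + u 4) * (1 + u 5) +
      (1 + u 2) * (1 + u 3) := by rw [hq]; unfold qd; simp
  have v5 : q 5 = (1 + u 0) * (1 + u 2) + (1 + u 0) * (1 + u 4) + (1 + u 2) * (1 + u 4) +
      (1 + u 2) * (1 + u 3) := by rw [hq]; unfold qd; simp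
  have hs1 : s = 48 - 2 * (P0 ^ 2 + P1 ^ 2 + P2 ^ 2) - 4 * (Q0 ^ 2 + Q1 ^ 2 + Q2 ^ 2) := by
    rw [hs]
    unfold sS
    rw [v0, v1, v2, v3, v4, v5, u0, u1, u2, u3, u4, u5, e2]
    ring
  obtain ⟨s0, A2, B2⟩ := box_aux hP p0 p1 p2 q0 q1 q2 hs1
  obtain ⟨_, A0, B0⟩ := box_aux (P0 := P1) (P1 := P2) (P2 := P0) (Q0 := Q1) (Q1 := Q2) (Q2 := Q0)
    (s := s) (by linarith) p1 p2 p0 q1 q2 q0 (by rw [hs1]; ring)
  obtain ⟨_, A1, B1⟩ := box_aux (P0 := P0) (P1 := P2) (P2 := P1) (Q0 := Q0) (Q1 := Q2) (Q2 := Q1)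
    (s := s) (by linarith) p0 p2 p1 q0 q2 q1 (by rw [hs1]; ring)
  refine box_F hs s0 hqPD ?_ ?_ ?_ ?_ ?_ ?_
  · rw [abs_div, abs_of_pos s0, div_le_iff₀ s0]
    refine le_trans (le_of_eq ?_) A2
    congr 1
    rw [v2, v3, u0, u1, u2, u3, u4, u5, e2]
    ring
  · rw [abs_div, abs_of_pos s0, div_le_iff₀ s0]
    refine le_trans (le_of_eq ?_) A1
    congr 1
    rw [v2, v3, u0, u1, u2, u3, u4, u5, e2]
    ring
  · rw [abs_div, abs_of_pos s0, div_le_iff₀ s0]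
    refine le_trans (le_of_eq ?_) A0
    congr 1
    rw [v2, v3, u0, u1, u2, u3, u4, u5, e2]
    ring
  · rw [abs_div, abs_of_pos s0, div_le_iff₀ s0]
    refine le_trans (le_of_eq ?_) B2
    congr 1
    rw [v0, v1, v4, v5, u0, u1, u2, u3, u4, u5, e2]
    ring
  · rw [abs_div, abs_of_pos s0, div_le_iff₀ s0]
    refine le_trans (le_of_eq ?_) B1
    congr 1
    rw [v0, v1, v4, v5, u0, u1, u2, u3, u4, u5, e2]
    ring
  · rw [abs_div, abs_of_pos s0, div_le_iff₀ s0, ← abs_neg]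
    refine le_trans (le_of_eq ?_) B0
    congr 1
    rw [v0, v1, v4, v5, u0, u1, u2, u3, u4, u5, e2]
    ring

/-- the region near the body-centred cubic form -/
theorem reg_B {p : Fin 6 → ℝ} (hp : ∀ i, 0 ≤ p i) (hPD : PD p) (hL : LG LcB p) : FinP p := by
  have hdt := dt_pos hPD
  obtain ⟨t, ht⟩ : ∃ t, t = p 0 + p 1 + p 2 + p 3 + p 4 + p 5 := ⟨_, rfl⟩
  have ht0 : 0 < t := by
    have := zero_of_sum hp hPD 1 1 1 1 1 1 (by norm_num) (by norm_num) (by norm_num) (by norm_num)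
      (by norm_num) (by norm_num)
    rw [ht]
    linarith
  obtain ⟨u, hu⟩ : ∃ u : Fin 6 → ℝ, u = fun i => 6 * p i / t - 1 := ⟨_, rfl⟩
  have e : p = (t / 6) • (fun i => 1 + u i) := by
    funext i
    rw [hu]
    simp only [Pi.smul_apply, smul_eq_mul]
    field_simp
    ring
  have ht6 : 0 < t / 6 := by positivity
  have hq0 : ∀ i, 0 ≤ (fun i => 1 + u i) i := by
    intro i
    rw [hu]
    simp only
    have := hp i
    have : 0 ≤ 6 * p i / t := by positivity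
    linarith
  have hqd : 0 < dt (fun i => 1 + u i) := by
    rw [e, dt_smul] at hdt
    exact (mul_pos_iff_of_pos_left (by positivity)).1 hdt
  have hq : PD (fun i => 1 + u i) := pd_of_dt hq0 hqd
  have h0 : u 0 + u 1 + u 2 + u 3 + u 4 + u 5 = 0 := by
    rw [hu]
    have : 6 * p 0 / t - 1 + (6 * p 1 / t - 1) + (6 * p 2 / t - 1) + (6 * p 3 / t - 1) +
        (6 * p 4 / t - 1) + (6 * p 5 / t - 1) =
        6 * (p 0 + p 1 + p 2 + p 3 + p 4 + p 5) / t - 6 := by ring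
    simp only
    rw [this, ← ht]
    field_simp
    ring
  have l0 := hL 0
  have l1 := hL 1
  have l2 := hL 2
  have l3 := hL 3
  have l4 := hL 4
  have l5 := hL 5
  have l6 := hL 6
  have l7 := hL 7
  have l8 := hL 8
  have l9 := hL 9
  have l10 := hL 10
  have l11 := hL 11
  simp only [LcB, Fin.sum_univ_six, Matrix.cons_val] at l0 l1 l2 l3 l4 l5 l6 l7 l8 l9 l10 l11
  have keyP : ∀ i j, 300 * (p i + p j) ≤ 120 * t → 80 * t ≤ 300 * (p i + p j) →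
      |(u i + u j) / 2| ≤ 1 / 5 := by
    intro i j k1 k2
    have : (u i + u j) / 2 = (3 * (p i + p j) - t) / t := by
      rw [hu]
      simp only
      field_simp
      ring
    rw [this, abs_div, abs_of_pos ht0, div_le_iff₀ ht0, abs_le]
    constructor <;> linarith
  have keyQ : ∀ i j, 300 * (p i - p j) ≤ 11 * t → 300 * (p j - p i) ≤ 11 * t →
      |(u i - u j) / 2| ≤ 11 / 100 := by
    intro i j k1 k2
    have : (u i - u j) / 2 = (3 * (p i - p j)) / t := by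
      rw [hu]
      simp only
      field_simp
      ring
    rw [this, abs_div, abs_of_pos ht0, div_le_iff₀ ht0, abs_le]
    constructor <;> linarith
  rw [e]
  refine fin_smul ht6 hq (box_B h0 (keyP 0 5 ?_ ?_) (keyP 1 4 ?_ ?_) (keyP 2 3 ?_ ?_)
    (keyQ 0 5 ?_ ?_) (keyQ 1 4 ?_ ?_) (keyQ 2 3 ?_ ?_) hq) <;> linarith

lemma wv_nn (W : ℕ) (i : Fin 6) : 0 ≤ wv W i := by
  unfold wv
  exact Nat.cast_nonneg _

lemma comb_nn {l : Fin 6 → ℝ} (hl : ∀ i, 0 ≤ l i) (V : List ℕ) (k : Fin 6) :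
    0 ≤ (∑ i : Fin 6, l i • wv (gt V i)) k := by
  simp only [Finset.sum_apply, Pi.smul_apply, smul_eq_mul]
  exact Finset.sum_nonneg fun i _ => mul_nonneg (hl i) (wv_nn _ _)

lemma env_Fr (k : ℕ) (V : List ℕ) (hV : VL V) (h : alls inF V = true) : Good (Q k) V := by
  intro l hl hp
  left
  refine reg_F (comb_nn hl V) hp ?_
  refine lg_sum l _ hl fun i => inF_spec (alls_spec h _ (gt_eq V i ?_).1)
  rw [hV.1]
  exact i.2

lemma env_Br (k : ℕ) (V : List ℕ) (hV : VL V) (h : alls inB V = true) : Good (Q k) V := by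
  intro l hl hp
  left
  refine reg_B (comb_nn hl V) hp ?_
  refine lg_sum l _ hl fun i => inB_spec (alls_spec h _ (gt_eq V i ?_).1)
  rw [hV.1]
  exact i.2

end Pool.Agent.U316.Ep
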