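import Pool.Agent.U316.Ep.Jn
import Pool.Agent.U316.Ep.LocR
import Pool.Agent.U316.Ep.Lev
import Pool.Agent.U316.Ep.End

/-!
# Assembling certificates
-/

set_option autoImplicit false

open Matrix Pool.Agent.K1H99.FCC

namespace Pool.Agent.U316.Ep

lemma vdb_spec {W : ℕ} (h : vdb W = true) : Vd W := by
  unfold vdb at h
  rw [upk_eq] at h
  have e : ∀ i, dg (Nat.div W 340282366920938463463374607431768211456) i = cw W i := fun _ => rfl
  simp only [Bool.and_eq_true, e] at h
  obtain ⟨h0, h1, h2, h3, h4, h5, h6, h7⟩ := h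
  have h0 := Nat.le_of_ble_eq_true h0
  have h1 := Nat.le_of_ble_eq_true h1
  have h2 := Nat.le_of_ble_eq_true h2
  have h3 := Nat.le_of_ble_eq_true h3
  have h4 := Nat.le_of_ble_eq_true h4
  have h5 := Nat.le_of_ble_eq_true h5
  have h6 := Nat.le_of_ble_eq_true h6
  have h7 := Nat.le_of_ble_eq_true h7
  refine ⟨?_, ?_, h7⟩
  · intro i
    fin_cases i
    · exact Nat.lt_of_le_of_lt h0 (by norm_num)
    · exact Nat.lt_of_le_of_lt h1 (by norm_num)
    · exact Nat.lt_of_le_of_lt h2 (by norm_num)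
    · exact Nat.lt_of_le_of_lt h3 (by norm_num)
    · exact Nat.lt_of_le_of_lt h4 (by norm_num)
    · exact Nat.lt_of_le_of_lt h5 (by norm_num)
  · exact Nat.lt_of_le_of_lt h6 (by norm_num)

lemma vl_of {V : List ℕ} (h : (Nat.beq V.length 6 && alls vdb V) = true) : VL V := by
  rw [Bool.and_eq_true] at h
  exact ⟨Nat.eq_of_beq_eq_true h.1, fun W hW => vdb_spec (alls_spec h.2 W hW)⟩

/-- a checked chunk -/
theorem good_of {k : ℕ} {V : List ℕ} {code : ℕ} (h : cck k V code = true) : Good (Q k) V := by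
  unfold cck at h
  simp only [Bool.and_eq_true] at h
  obtain ⟨h0, h1, h2, h3⟩ := h
  refine go_sound env Q (fun V _ => fun _ _ _ => q_zero _) env_fin env_B env_Fr env_Br env_P
    (fun V _ hg => env_E V hg) 80 k V code (Nat.le_of_ble_eq_true h0) ⟨Nat.eq_of_beq_eq_true h1,
    fun W hW => vdb_spec (alls_spec h2 W hW)⟩ ?_
  rw [Nat.eq_of_beq_eq_true h3]
  exact one_ne_zero

/-- a checked chunk given in pieces -/
theorem good_ofj {k : ℕ} {V : List ℕ} {cs : List ℕ} (h : cckj k V cs = true) : Good (Q k) V := by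
  unfold cckj at h
  rw [frc_eq] at h
  exact good_of h

/-- the check of one test of the first kind -/
noncomputable def lck1 (V : List ℕ) (l t : ℕ) : Bool :=
  Nat.ble l 9 && ((Nat.beq V.length 6 && alls vdb V) &&
    tst (env.ta l) (env.tf l) (env.ca l) env.cf V t)

/-- a checked test of the first kind -/
theorem fin_of {V : List ℕ} (l t : ℕ) (h : lck1 V l t = true) (h1 : Good (Q l) V) :
    Good (Q 10) V := by
  unfold lck1 at h
  rw [Bool.and_eq_true, Bool.and_eq_true] at h
  exact env_fin l V t (Nat.le_of_ble_eq_true h.1) (vl_of h.2.1) h.2.2 h1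

/-- the check of one double quadratic test -/
noncomputable def lck5 (V : List ℕ) (l k t : ℕ) : Bool :=
  Nat.ble (Nat.succ l) k && (Nat.ble k 9 && ((Nat.beq V.length 6 && alls vdb V) &&
    tsq (env.tm l k) (env.tp l k) (env.p0 l k) (env.p1 l k) V t))

/-- a checked double quadratic test -/
theorem P_of {V : List ℕ} (l k t : ℕ) (h : lck5 V l k t = true) (h1 : Good (Q l) V) :
    Good (Q k) V := by
  unfold lck5 at h
  rw [Bool.and_eq_true, Bool.and_eq_true, Bool.and_eq_true] at h
  exact env_P l k V t (Nat.le_of_ble_eq_true h.1) (Nat.le_of_ble_eq_true h.2.1) (vl_of h.2.2.1)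
    h.2.2.2 h1

/-- the check of a bisection -/
noncomputable def sck (V : List ℕ) (i j m g : ℕ) : Bool :=
  Nat.beq V.length 6 && (Nat.ble (Nat.succ i) j && (Nat.ble j 5 && (vdb (gt V i) &&
    (vdb (gt V j) && (Nat.ble g 1099511627775 &&
      Nat.beq (mid2 (gt V i) (gt V j) g fun m' => bif Nat.beq m' m then 1 else 0) 1)))))

/-- a checked bisection -/
theorem split_of {k : ℕ} {V V1 V2 : List ℕ} (i j m g : ℕ) (h : sck V i j m g = true)
    (h1 : Good (Q k) V1) (h2 : Good (Q k) V2) (e1 : V1 = V.set i m) (e2 : V2 = V.set j m) :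
    Good (Q k) V := by
  subst e1 e2
  unfold sck at h
  simp only [Bool.and_eq_true] at h
  obtain ⟨hl, hi, hj, va, vb, hg, hm⟩ := h
  have hl := Nat.eq_of_beq_eq_true hl
  have hi := Nat.le_of_ble_eq_true hi
  have hj := Nat.le_of_ble_eq_true hj
  have hg := Nat.le_of_ble_eq_true hg
  have hm := Nat.eq_of_beq_eq_true hm
  obtain ⟨m', hv, e1, e2⟩ := mid2_spec (vdb_spec va) (vdb_spec vb)
    (Nat.lt_of_le_of_lt hg (by norm_num)) (by rw [hm]; exact one_ne_zero)
  rw [hm] at e2
  have e3 : m' = m := by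
    cases c : Nat.beq m' m with
    | true => exact Nat.eq_of_beq_eq_true c
    | false => rw [c] at e2; exact absurd e2 one_ne_zero
  rw [e3] at e1
  exact good_split' hl (by omega) (by omega) e1 h1 h2

end Pool.Agent.U316.Ep
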