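import Pool.Agent.U316.Ep.Tsq

/-!
# Soundness of the recursion
-/

set_option autoImplicit false

open Matrix Pool.Agent.K1H99.FCC

namespace Pool.Agent.U316.Ep

lemma go_succ (E : Env) (n k : ℕ) (V : List ℕ) (code : ℕ) :
    go E (n + 1) k V code = bif Nat.beq k 0 then code else
      bif Nat.beq (Nat.mod code 8) 0 then
        bif Nat.ble (Nat.succ (Nat.mod (Nat.div code 8) 8)) (Nat.mod (Nat.div (Nat.div code 8) 8) 8) &&
            Nat.ble (Nat.mod (Nat.div (Nat.div code 8) 8) 8) 5 then
          mid2 (gt V (Nat.mod (Nat.div code 8) 8)) (gt V (Nat.mod (Nat.div (Nat.div code 8) 8) 8))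
            (Nat.mod (Nat.div (Nat.div code 8) 64) 4294967296) fun m =>
          frz (upd m V (Nat.mod (Nat.div code 8) 8)
            fun V1 => go E n k V1 (Nat.div (Nat.div code 8) 274877906944)) fun r' =>
            upd m V (Nat.mod (Nat.div (Nat.div code 8) 8) 8) fun V2 => go E n k V2 r'
        else 0
      else bif Nat.beq (Nat.mod code 8) 1 then
        bif Nat.beq k 10 && (Nat.ble (Nat.mod (Nat.div code 8) 16) 9 &&
            tst (E.ta (Nat.mod (Nat.div code 8) 16)) (E.tf (Nat.mod (Nat.div code 8) 16))
              (E.ca (Nat.mod (Nat.div code 8) 16)) E.cf V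
              (Nat.mod (Nat.div (Nat.div code 8) 16) 1852673427797059126777135760139006525652319754650249024631321344126610074238976)) then
          go E n (Nat.mod (Nat.div code 8) 16) V (Nat.div (Nat.div code 8) 29642774844752946028434172162224104410437116074403984394101141506025761187823616)
        else 0
      else bif Nat.beq (Nat.mod code 8) 2 then
        bif Nat.ble (Nat.succ (Nat.mod (Nat.div code 8) 16)) k && (Nat.ble k 9 &&
            tst (E.tm (Nat.mod (Nat.div code 8) 16) k) (E.tp (Nat.mod (Nat.div code 8) 16) k)
              (E.b0 (Nat.mod (Nat.div code 8) 16) k) (E.b1 (Nat.mod (Nat.div code 8) 16) k) V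
              (Nat.mod (Nat.div (Nat.div code 8) 16) 1852673427797059126777135760139006525652319754650249024631321344126610074238976)) then
          go E n (Nat.mod (Nat.div code 8) 16) V (Nat.div (Nat.div code 8) 29642774844752946028434172162224104410437116074403984394101141506025761187823616)
        else 0
      else bif Nat.beq (Nat.mod code 8) 3 then
        bif alls inF V then Nat.div code 8 else 0
      else bif Nat.beq (Nat.mod code 8) 4 then
        bif alls inB V then Nat.div code 8 else 0
      else bif Nat.beq (Nat.mod code 8) 5 then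
        bif Nat.ble (Nat.succ (Nat.mod (Nat.div code 8) 16)) k && (Nat.ble k 9 &&
            tsq (E.tm (Nat.mod (Nat.div code 8) 16) k) (E.tp (Nat.mod (Nat.div code 8) 16) k)
              (E.p0 (Nat.mod (Nat.div code 8) 16) k) (E.p1 (Nat.mod (Nat.div code 8) 16) k) V
              (Nat.mod (Nat.div (Nat.div code 8) 16) 3432398830065304857490950399540696608634717650071652704697231729592771591698828026061279820330727277488648155695740429018560993999858321906287014145557528576)) then
          go E n (Nat.mod (Nat.div code 8) 16) V (Nat.div (Nat.div code 8) 54918381281044877719855206392651145738155482401146443275155707673484345467181248416980477125291636439818370491131846864296975903997733150500592226328920457216)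
        else 0
      else bif Nat.beq (Nat.mod code 8) 6 && Nat.beq k 10 then go E n 9 V (Nat.div code 8)
      else 0 := by
  change (bif Nat.beq k 0 then code else
      frc (Nat.mod code 8) fun op => frc (Nat.div code 8) fun rest =>
      bif Nat.beq op 0 then
        frc (Nat.mod rest 8) fun i => frc (Nat.mod (Nat.div rest 8) 8) fun j =>
        bif Nat.ble (Nat.succ i) j && Nat.ble j 5 then
          mid2 (gt V i) (gt V j) (Nat.mod (Nat.div rest 64) 4294967296) fun m =>
          frc (Nat.div rest 274877906944) fun r =>
          frz (upd m V i fun V1 => go E n k V1 r) fun r' => upd m V j fun V2 => go E n k V2 r'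
        else 0
      else bif Nat.beq op 1 then
        frc (Nat.mod rest 16) fun l =>
        frc (Nat.mod (Nat.div rest 16) 1852673427797059126777135760139006525652319754650249024631321344126610074238976) fun t =>
        bif Nat.beq k 10 && (Nat.ble l 9 && tst (E.ta l) (E.tf l) (E.ca l) E.cf V t) then
          frc (Nat.div rest 29642774844752946028434172162224104410437116074403984394101141506025761187823616) fun r => go E n l V r
        else 0
      else bif Nat.beq op 2 then
        frc (Nat.mod rest 16) fun l =>
        frc (Nat.mod (Nat.div rest 16) 1852673427797059126777135760139006525652319754650249024631321344126610074238976) fun t =>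
        bif Nat.ble (Nat.succ l) k && (Nat.ble k 9 &&
            tst (E.tm l k) (E.tp l k) (E.b0 l k) (E.b1 l k) V t) then
          frc (Nat.div rest 29642774844752946028434172162224104410437116074403984394101141506025761187823616) fun r => go E n l V r
        else 0
      else bif Nat.beq op 3 then
        bif alls inF V then rest else 0
      else bif Nat.beq op 4 then
        bif alls inB V then rest else 0
      else bif Nat.beq op 5 then
        frc (Nat.mod rest 16) fun l =>
        frc (Nat.mod (Nat.div rest 16) 3432398830065304857490950399540696608634717650071652704697231729592771591698828026061279820330727277488648155695740429018560993999858321906287014145557528576) fun t =>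
        bif Nat.ble (Nat.succ l) k && (Nat.ble k 9 &&
            tsq (E.tm l k) (E.tp l k) (E.p0 l k) (E.p1 l k) V t) then
          frc (Nat.div rest 54918381281044877719855206392651145738155482401146443275155707673484345467181248416980477125291636439818370491131846864296975903997733150500592226328920457216) fun r => go E n l V r
        else 0
      else bif Nat.beq op 6 && Nat.beq k 10 then go E n 9 V rest
      else 0) = _
  simp only [frc_eq]

lemma bif_ne {c : Bool} {a : ℕ} (h : (bif c then a else 0) ≠ 0) : c = true ∧ a ≠ 0 := by
  cases c with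
  | true => exact ⟨rfl, h⟩
  | false => exact absurd rfl h

lemma vl_set {V : List ℕ} (hV : VL V) {m : ℕ} (hm : Vd m) (i : ℕ) : VL (V.set i m) := by
  refine ⟨by rw [List.length_set, hV.1], fun W hW => ?_⟩
  rcases List.mem_or_eq_of_mem_set hW with h | h
  · exact hV.2 W h
  · rw [h]
    exact hm

/-- soundness of the recursion, given soundness of the leaves -/
theorem go_sound (E : Env) (Q : ℕ → (Fin 6 → ℝ) → Prop)
    (h00 : ∀ V, VL V → Good (Q 0) V)
    (hfin : ∀ l V t, l ≤ 9 → VL V → tst (E.ta l) (E.tf l) (E.ca l) E.cf V t = true →
      Good (Q l) V → Good (Q 10) V)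
    (hB : ∀ l k V t, l < k → k ≤ 9 → VL V →
      tst (E.tm l k) (E.tp l k) (E.b0 l k) (E.b1 l k) V t = true → Good (Q l) V → Good (Q k) V)
    (hFr : ∀ k V, VL V → alls inF V = true → Good (Q k) V)
    (hBr : ∀ k V, VL V → alls inB V = true → Good (Q k) V)
    (hP : ∀ l k V t, l < k → k ≤ 9 → VL V →
      tsq (E.tm l k) (E.tp l k) (E.p0 l k) (E.p1 l k) V t = true → Good (Q l) V → Good (Q k) V)
    (hE : ∀ V, VL V → Good (Q 9) V → Good (Q 10) V) :
    ∀ n k V code, k ≤ 10 → VL V → go E n k V code ≠ 0 → Good (Q k) V := by
  intro n
  induction n with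
  | zero => intro k V code _ _ h; exact absurd rfl h
  | succ n ih =>
    intro k V code hk hV h
    rw [go_succ] at h
    cases ck : Nat.beq k 0 with
    | true =>
      rw [Nat.eq_of_beq_eq_true ck]
      exact h00 V hV
    | false =>
    rw [ck] at h
    change (bif Nat.beq (Nat.mod code 8) 0 then _ else _) ≠ 0 at h
    cases c0 : Nat.beq (Nat.mod code 8) 0 with
    | true =>
      rw [c0] at h
      obtain ⟨hij, h⟩ := bif_ne h
      rw [Bool.and_eq_true] at hij
      obtain ⟨hi, hj⟩ := hij
      have hi := Nat.le_of_ble_eq_true hi
      have hj := Nat.le_of_ble_eq_true hj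
      generalize Nat.mod (Nat.div code 8) 8 = i at *
      generalize Nat.mod (Nat.div (Nat.div code 8) 8) 8 = j at *
      have hlen := hV.1
      have hi6 : i < V.length := by rw [hlen]; omega
      have hj6 : j < V.length := by rw [hlen]; omega
      have hvi := hV.2 _ (gt_eq V i hi6).1
      have hvj := hV.2 _ (gt_eq V j hj6).1
      have hg : Nat.mod (Nat.div (Nat.div code 8) 64) 4294967296 < 2 ^ 40 :=
        (Nat.mod_lt _ (by norm_num)).trans (by norm_num)
      obtain ⟨m, hm, e1, e2⟩ := mid2_spec hvi hvj hg h
      rw [e2] at h
      obtain ⟨g1, h⟩ := frz_ne h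
      rw [upd_eq m V i _ hi6] at g1
      rw [upd_eq m V j _ hj6] at h
      exact good_split' hlen (by omega) (by omega) e1 (ih k _ _ hk (vl_set hV hm i) g1)
        (ih k _ _ hk (vl_set hV hm j) h)
    | false =>
    rw [c0] at h
    change (bif Nat.beq (Nat.mod code 8) 1 then _ else _) ≠ 0 at h
    cases c1 : Nat.beq (Nat.mod code 8) 1 with
    | true =>
      rw [c1] at h
      obtain ⟨h1, h⟩ := bif_ne h
      rw [Bool.and_eq_true, Bool.and_eq_true] at h1
      obtain ⟨hk10, hl, h2⟩ := h1
      have hk10 := Nat.eq_of_beq_eq_true hk10
      have hl := Nat.le_of_ble_eq_true hl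
      rw [hk10]
      exact hfin _ V _ hl hV h2 (ih _ V _ (by omega) hV h)
    | false =>
    rw [c1] at h
    change (bif Nat.beq (Nat.mod code 8) 2 then _ else _) ≠ 0 at h
    cases c2 : Nat.beq (Nat.mod code 8) 2 with
    | true =>
      rw [c2] at h
      obtain ⟨h1, h⟩ := bif_ne h
      rw [Bool.and_eq_true, Bool.and_eq_true] at h1
      obtain ⟨hl, hk9, h2⟩ := h1
      have hl := Nat.le_of_ble_eq_true hl
      have hk9 := Nat.le_of_ble_eq_true hk9
      exact hB _ k V _ hl hk9 hV h2 (ih _ V _ (by omega) hV h)
    | false =>
    rw [c2] at h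
    change (bif Nat.beq (Nat.mod code 8) 3 then _ else _) ≠ 0 at h
    cases c3 : Nat.beq (Nat.mod code 8) 3 with
    | true =>
      rw [c3] at h
      obtain ⟨h1, h⟩ := bif_ne h
      exact hFr k V hV h1
    | false =>
    rw [c3] at h
    change (bif Nat.beq (Nat.mod code 8) 4 then _ else _) ≠ 0 at h
    cases c4 : Nat.beq (Nat.mod code 8) 4 with
    | true =>
      rw [c4] at h
      obtain ⟨h1, h⟩ := bif_ne h
      exact hBr k V hV h1
    | false =>
    rw [c4] at h
    change (bif Nat.beq (Nat.mod code 8) 5 then _ else _) ≠ 0 at h
    cases c5 : Nat.beq (Nat.mod code 8) 5 with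
    | true =>
      rw [c5] at h
      obtain ⟨h1, h⟩ := bif_ne h
      rw [Bool.and_eq_true, Bool.and_eq_true] at h1
      obtain ⟨hl, hk9, h2⟩ := h1
      have hl := Nat.le_of_ble_eq_true hl
      have hk9 := Nat.le_of_ble_eq_true hk9
      exact hP _ k V _ hl hk9 hV h2 (ih _ V _ (by omega) hV h)
    | false =>
    rw [c5] at h
    change (bif Nat.beq (Nat.mod code 8) 6 && Nat.beq k 10 then _ else _) ≠ 0 at h
    obtain ⟨h1, h⟩ := bif_ne h
    rw [Bool.and_eq_true] at h1
    rw [Nat.eq_of_beq_eq_true h1.2]
    exact hE V hV (ih 9 V _ (by norm_num) hV h)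

end Pool.Agent.U316.Ep
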