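import Pool.Agent.U316.Ep.Exps
import Pool.Agent.U316.Th.Loc6

/-!
# Bounds for the normalised theta functions of the cubic lattices at the levels
-/

set_option autoImplicit false

open Matrix Pool.Agent.K1H99.FCC

namespace Pool.Agent.U316.Ep

open Pool.Agent.U316.Th

lemma negexp {x E s : ℝ} (hx : 0 ≤ x) (hs0 : 0 ≤ s)
    (hs : s ≤ ∑ i ∈ Finset.range 14, (x / 16) ^ i / (Nat.factorial i : ℝ))
    (h : 1 ≤ E * s ^ 16) (hE : 0 ≤ E) : Real.exp (-x) ≤ E := by
  have h1 := exp_lb hx hs0 hs le_rfl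
  have h2 : 1 ≤ E * Real.exp x := h.trans (mul_le_mul_of_nonneg_left h1 hE)
  have h3 : Real.exp (-x) * Real.exp x = 1 := by rw [← Real.exp_add]; simp
  have h4 := Real.exp_pos x
  by_contra hc
  push Not at hc
  have := mul_lt_mul_of_pos_right hc h4
  linarith

lemma be_eq : be = Real.pi * mm ^ 2 / 4 := by
  have h := mm_cube
  have h0 := mm_pos
  unfold be
  rw [rad_Fp_sq, div_eq_iff (by positivity)]
  have : Real.pi * mm ^ 2 / 4 * (mm ^ 2) ^ 2 = Real.pi * (mm ^ 3) ^ 2 / 4 := by ring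
  rw [this, h]
  ring

lemma th_Bp_sum {β : ℝ} (hβ : 0 < β) :
    Th β Bp = ∑' n : N0, Real.exp (-(be * β * (nz (JH n) : ℝ))) := by
  have h1 := th_Bp hβ
  have h2 := th_fe PD_Fp (β := 1 / β) (by positivity)
  have e : ∀ n : N0, Real.exp (-(Real.pi / (1 / β) * (af Fp (rv n.1) / rad Fp ^ 2))) =
      Real.exp (-(be * β * (nz (JH n) : ℝ))) := by
    intro n
    have h3 := b0_eq n
    rw [← nz_JH] at h3
    congr 1
    have : Real.pi / (1 / β) * (af Fp (rv n.1) / rad Fp ^ 2) =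
        β * (Real.pi * (af Fp (rv n.1) / rad Fp ^ 2)) := by
      field_simp
    rw [this, h3]
    ring
  simp only [e] at h2
  rw [h2, ← mul_assoc] at h1
  have h4 : β ^ (-(3 / 2) : ℝ) * (1 / β) ^ (-(3 / 2) : ℝ) = 1 := by
    rw [← Real.mul_rpow hβ.le (by positivity), mul_one_div_cancel hβ.ne', Real.one_rpow]
  rw [h4, one_mul] at h1
  linarith

lemma rb_sum {β : ℝ} (hβ : 0 < β) :
    RB β = ∑' n : N0, Real.exp (Real.pi * β * mm - be * β * (nz (JH n) : ℝ)) := by
  unfold RB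
  rw [th_Bp_sum hβ, ← tsum_mul_left]
  refine tsum_congr fun n => ?_
  rw [← Real.exp_add]
  congr 1

lemma th6 : (1 + 2 * (Real.exp (-(1 / 6)) * (1 - Real.exp (-(1 / 6)) ^ 2)⁻¹)) ^ 3 ≤ 340 := by
  have h1 : Real.exp (-(1 / 6)) ≤ 8465 / 10000 :=
    negexp (s := 101047 / 100000) (by norm_num) (by norm_num)
      (by norm_num [Finset.sum_range_succ, Nat.factorial]) (by norm_num) (by norm_num)
  have h0 := Real.exp_pos (-(1 / 6))
  have h2 : Real.exp (-(1 / 6)) ^ 2 ≤ (8465 / 10000) ^ 2 := pow_le_pow_left₀ h0.le h1 2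
  have h3 : (1 - Real.exp (-(1 / 6)) ^ 2)⁻¹ ≤ (1 - (8465 / 10000) ^ 2)⁻¹ := by
    refine inv_anti₀ (by norm_num) (by linarith)
  have h4 : Real.exp (-(1 / 6)) * (1 - Real.exp (-(1 / 6)) ^ 2)⁻¹ ≤
      8465 / 10000 * (1 - (8465 / 10000) ^ 2)⁻¹ :=
    mul_le_mul h1 h3 (inv_nonneg.2 (by nlinarith)) (by norm_num)
  have h5 : 1 + 2 * (Real.exp (-(1 / 6)) * (1 - Real.exp (-(1 / 6)) ^ 2)⁻¹) ≤ 6975 / 1000 := by
    refine le_trans ?_ (show 1 + 2 * (8465 / 10000 * (1 - (8465 / 10000) ^ 2)⁻¹) ≤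
      (6975 / 1000 : ℝ) by norm_num)
    linarith
  have h6 : 0 ≤ 1 + 2 * (Real.exp (-(1 / 6)) * (1 - Real.exp (-(1 / 6)) ^ 2)⁻¹) := by
    have : 0 ≤ (1 - Real.exp (-(1 / 6)) ^ 2)⁻¹ := inv_nonneg.2 (by nlinarith)
    positivity
  exact (pow_le_pow_left₀ h6 h5 3).trans (by norm_num)

/-- upper bounds for the normalised theta function of the body-centred cubic lattice -/
lemma rb_le {β E3 E4 E8 E11 E12 K : ℝ} (hβ : 1 ≤ β)
    (h3 : Real.exp (Real.pi * β * (mm - 3 * mm ^ 2 / 4)) ≤ E3)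
    (h4 : Real.exp (-(Real.pi * β * (4 * mm ^ 2 / 4 - mm))) ≤ E4)
    (h8 : Real.exp (-(Real.pi * β * (8 * mm ^ 2 / 4 - mm))) ≤ E8)
    (h11 : Real.exp (-(Real.pi * β * (11 * mm ^ 2 / 4 - mm))) ≤ E11)
    (h12 : Real.exp (-(Real.pi * β * (12 * mm ^ 2 / 4 - mm))) ≤ E12)
    (hK : Real.exp (-(Real.pi * β * (16 * mm ^ 2 / 4 - mm) - 8 / 3)) ≤ K) :
    RB β ≤ 8 * E3 + 6 * E4 + 12 * E8 + 24 * E11 + 8 * E12 + K * 340 := by
  have hb0 : 0 < β := by linarith
  have hK0 : 0 ≤ K := (Real.exp_pos _).le.trans hK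
  have hbe := be_bounds.1
  have hbb : 12467418 / 10000000 ≤ be * β := by nlinarith
  have hs : Summable fun n : N0 => Real.exp (Real.pi * β * mm - be * β * (nz (JH n) : ℝ)) := by
    have h1 := (th_summable PD_Bp hb0)
    have h2 : Th β Bp ≠ 0 := (th_pos PD_Bp hb0).ne'
    rw [th_Bp_sum hb0] at h2
    have h5 : Summable fun n : N0 => Real.exp (-(be * β * (nz (JH n) : ℝ))) := by
      by_contra hc
      exact h2 (tsum_eq_zero_of_not_summable hc)
    refine (h5.mul_left (Real.exp (Real.pi * β * mm))).congr fun n => ?_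
    rw [← Real.exp_add]
    congr 1
  rw [rb_sum hb0]
  have h := shell JH JH_inj SH 16 JH_mem
    (fun m : ℕ => Real.exp (Real.pi * β * mm - be * β * (m : ℝ)))
    (fun m => (Real.exp_pos _).le) hs (K := K) (μ := 1 / 6)
    (by norm_num) hK0 (by
      intro m hm
      have hm' : (16:ℝ) ≤ m := by exact_mod_cast hm
      have e : Real.exp (Real.pi * β * mm - be * β * (m:ℝ)) =
          Real.exp (-(Real.pi * β * (16 * mm ^ 2 / 4 - mm) - 8 / 3) -
            (be * β - 1 / 6) * (m - 16)) * Real.exp (-(1 / 6) * (m:ℝ)) := by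
        rw [← Real.exp_add, be_eq]
        congr 1
        ring
      rw [e]
      refine mul_le_mul_of_nonneg_right ?_ (Real.exp_pos _).le
      refine le_trans (Real.exp_le_exp.2 ?_) hK
      nlinarith)
  refine h.trans ?_
  rw [sum_SH (fun m : ℕ => Real.exp (Real.pi * β * mm - be * β * (m : ℝ)))]
  have t := th6
  have a3 : Real.exp (Real.pi * β * mm - be * β * ((3:ℕ) : ℝ)) ≤ E3 := by
    refine le_trans (le_of_eq ?_) h3
    rw [be_eq]
    congr 1
    push_cast
    ring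
  have key : ∀ (m : ℕ) (E : ℝ), Real.exp (-(Real.pi * β * ((m:ℝ) * mm ^ 2 / 4 - mm))) ≤ E →
      Real.exp (Real.pi * β * mm - be * β * (m : ℝ)) ≤ E := by
    intro m E hE
    refine le_trans (le_of_eq ?_) hE
    rw [be_eq]
    congr 1
    ring
  have a4 := key 4 E4 (by push_cast; exact h4)
  have a8 := key 8 E8 (by push_cast; exact h8)
  have a11 := key 11 E11 (by push_cast; exact h11)
  have a12 := key 12 E12 (by push_cast; exact h12)
  have p4 := mul_le_mul_of_nonneg_left t hK0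
  norm_num at a3 a4 a8 a11 a12 p4 ⊢
  linarith

lemma mmsq : (1587401051968199474751 : ℝ) / 10 ^ 21 ≤ mm ^ 2 ∧
    mm ^ 2 ≤ 1587401051968199474752 / 10 ^ 21 := by
  have h : (mm ^ 2) ^ 3 = 4 := by
    have : (mm ^ 2) ^ 3 = (mm ^ 3) ^ 2 := by ring
    rw [this, mm_cube]
    norm_num
  have h0 : 0 < mm ^ 2 := by have := mm_pos; positivity
  constructor
  · by_contra hc
    push Not at hc
    have := pow_lt_pow_left₀ hc h0.le three_ne_zero
    rw [h] at this
    norm_num at this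
  · by_contra hc
    push Not at hc
    have := pow_lt_pow_left₀ hc (by norm_num) three_ne_zero
    rw [h] at this
    norm_num at this

/-- products with `π` -/
lemma pi_mul_ge {b x lo : ℝ} (hb : 0 ≤ b) (hx : 0 ≤ x) (h : lo ≤ 3.14159265358979323846 * b * x) :
    lo ≤ Real.pi * b * x := by
  have := Real.pi_gt_d20
  have := mul_nonneg hb hx
  nlinarith

lemma pi_mul_le {b x hi : ℝ} (hb : 0 ≤ b) (hx : 0 ≤ x) (h : 3.14159265358979323847 * b * x ≤ hi) :
    Real.pi * b * x ≤ hi := by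
  have := Real.pi_lt_d20
  have := mul_nonneg hb hx
  nlinarith

lemma rfb1 : RF (27 / 25) ≤ 1208827 / 100000 := by
  obtain ⟨m1, m2⟩ := mm_b
  have hp := pi_mm
  have h0 : (42748114116 : ℝ) / 10 ^ 10 ≤ Real.pi * (27 / 25) * mm :=
    pi_mul_ge (by norm_num) (by linarith) (by norm_num at m1 ⊢; linarith)
  have e : 2 * al * (27 / 25) = Real.pi * (27 / 25) * mm := by rw [← hp]; ring
  have hy : Real.exp (-(2 * al * (27 / 25))) ≤ 13914672619 / 10 ^ 12 := by
    rw [e]
    refine (Real.exp_le_exp.2 (neg_le_neg h0)).trans ?_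
    exact negexp (s := 1306269955072 / 10 ^ 12) (by norm_num) (by norm_num)
      (by norm_num [Finset.sum_range_succ, Nat.factorial]) (by norm_num) (by norm_num)
  have hK : Real.exp (-(8 * al * (27 / 25) - 5 / 2)) ≤ 456699 / 10 ^ 12 := by
    have h1 : (145992456464 : ℝ) / 10 ^ 10 ≤ 8 * al * (27 / 25) - 5 / 2 := by
      have h2 : (145992456464 : ℝ) / 10 ^ 10 ≤ 4 * (42748114117 / 10 ^ 10) - 5 / 2 + 1 / 10 ^ 8 := by norm_num
      have h3 : 8 * al * (27 / 25) = 4 * (Real.pi * (27 / 25) * mm) := by rw [← e]; ring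
      have h4 : (145992456464 : ℝ) / 10 ^ 10 + 5 / 2 ≤ 4 * (Real.pi * (27 / 25) * mm) := by
        have h5 : ((145992456464 : ℝ) / 10 ^ 10 + 5 / 2) / 4 ≤ Real.pi * (27 / 25) * mm :=
          pi_mul_ge (by norm_num) (by linarith) (by norm_num at m1 ⊢; linarith)
        linarith
      linarith
    refine (Real.exp_le_exp.2 (neg_le_neg h1)).trans ?_
    exact negexp (s := 2490423690673 / 10 ^ 12) (by norm_num) (by norm_num)
      (by norm_num [Finset.sum_range_succ, Nat.factorial]) (by norm_num) (by norm_num)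
  refine (rf_le (by norm_num) hy hK).trans ?_
  norm_num

lemma rbb1 : RB (27 / 25) ≤ 605857 / 50000 := by
  obtain ⟨m1, m2⟩ := mm_b
  obtain ⟨m3, m4⟩ := mmsq
  norm_num at m1 m2 m3 m4
  have h3 : Real.exp (Real.pi * (27 / 25) * (mm - 3 * mm ^ 2 / 4)) ≤ 1265374025 / 10 ^ 9 := by
    have h0 : Real.pi * (27 / 25) * (mm - 3 * mm ^ 2 / 4) ≤ 235367750247 / 10 ^ 12 :=
      pi_mul_le (by norm_num) (by linarith) (by norm_num; linarith)
    refine (Real.exp_le_exp.2 h0).trans ?_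
    refine exp_ub (s := 1014819216077 / 10 ^ 12) (by norm_num) (by norm_num) ?_ ?_
    · norm_num [Finset.sum_range_succ, Nat.factorial]
    · norm_num
  have h4 : Real.exp (-(Real.pi * (27 / 25) * (4 * mm ^ 2 / 4 - mm))) ≤ 329192211218 / 10 ^ 12 := by
    have h0 : (11111134702 : ℝ) / 10 ^ 10 ≤ Real.pi * (27 / 25) * (4 * mm ^ 2 / 4 - mm) :=
      pi_mul_ge (by norm_num) (by linarith) (by norm_num; linarith)
    refine (Real.exp_le_exp.2 (neg_le_neg h0)).trans ?_
    exact negexp (s := 1071912666901 / 10 ^ 12) (by norm_num) (by norm_num)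
      (by norm_num [Finset.sum_range_succ, Nat.factorial]) (by norm_num) (by norm_num)
  have h8 : Real.exp (-(Real.pi * (27 / 25) * (8 * mm ^ 2 / 4 - mm))) ≤ 1507898452 / 10 ^ 12 := by
    have h0 : (64970383520 : ℝ) / 10 ^ 10 ≤ Real.pi * (27 / 25) * (8 * mm ^ 2 / 4 - mm) :=
      pi_mul_ge (by norm_num) (by linarith) (by norm_num; linarith)
    refine (Real.exp_le_exp.2 (neg_le_neg h0)).trans ?_
    exact negexp (s := 1500899953201 / 10 ^ 12) (by norm_num) (by norm_num)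
      (by norm_num [Finset.sum_range_succ, Nat.factorial]) (by norm_num) (by norm_num)
  have h11 : Real.exp (-(Real.pi * (27 / 25) * (11 * mm ^ 2 / 4 - mm))) ≤ 26549970 / 10 ^ 12 := by
    have h0 : (105364820133 : ℝ) / 10 ^ 10 ≤ Real.pi * (27 / 25) * (11 * mm ^ 2 / 4 - mm) :=
      pi_mul_ge (by norm_num) (by linarith) (by norm_num; linarith)
    refine (Real.exp_le_exp.2 (neg_le_neg h0)).trans ?_
    exact negexp (s := 1931950522192 / 10 ^ 12) (by norm_num) (by norm_num)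
      (by norm_num [Finset.sum_range_succ, Nat.factorial]) (by norm_num) (by norm_num)
  have h12 : Real.exp (-(Real.pi * (27 / 25) * (12 * mm ^ 2 / 4 - mm))) ≤ 6907084 / 10 ^ 12 := by
    have h0 : (118829632338 : ℝ) / 10 ^ 10 ≤ Real.pi * (27 / 25) * (12 * mm ^ 2 / 4 - mm) :=
      pi_mul_ge (by norm_num) (by linarith) (by norm_num; linarith)
    refine (Real.exp_le_exp.2 (neg_le_neg h0)).trans ?_
    exact negexp (s := 2101571087905 / 10 ^ 12) (by norm_num) (by norm_num)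
      (by norm_num [Finset.sum_range_succ, Nat.factorial]) (by norm_num) (by norm_num)
  have hK : Real.exp (-(Real.pi * (27 / 25) * (16 * mm ^ 2 / 4 - mm) - 8 / 3)) ≤ 455341 / 10 ^ 12 := by
    have h0 : (146022214489 : ℝ) / 10 ^ 10 ≤ Real.pi * (27 / 25) * (16 * mm ^ 2 / 4 - mm) - 8 / 3 := by
      have h1 : (146022214489 : ℝ) / 10 ^ 10 + 8 / 3 ≤ Real.pi * (27 / 25) * (16 * mm ^ 2 / 4 - mm) :=
        pi_mul_ge (by norm_num) (by linarith) (by norm_num; linarith)
      linarith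
    refine (Real.exp_le_exp.2 (neg_le_neg h0)).trans ?_
    exact negexp (s := 2490886921815 / 10 ^ 12) (by norm_num) (by norm_num)
      (by norm_num [Finset.sum_range_succ, Nat.factorial]) (by norm_num) (by norm_num)
  refine (rb_le (by norm_num) h3 h4 h8 h11 h12 hK).trans ?_
  norm_num

lemma rfb2 : RF (117 / 100) ≤ 603043 / 50000 := by
  obtain ⟨m1, m2⟩ := mm_b
  have hp := pi_mm
  have h0 : (46310456959 : ℝ) / 10 ^ 10 ≤ Real.pi * (117 / 100) * mm :=
    pi_mul_ge (by norm_num) (by linarith) (by norm_num at m1 ⊢; linarith)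
  have e : 2 * al * (117 / 100) = Real.pi * (117 / 100) * mm := by rw [← hp]; ring
  have hy : Real.exp (-(2 * al * (117 / 100))) ≤ 9744563924 / 10 ^ 12 := by
    rw [e]
    refine (Real.exp_le_exp.2 (neg_le_neg h0)).trans ?_
    exact negexp (s := 1335679773638 / 10 ^ 12) (by norm_num) (by norm_num)
      (by norm_num [Finset.sum_range_succ, Nat.factorial]) (by norm_num) (by norm_num)
  have hK : Real.exp (-(8 * al * (117 / 100) - 5 / 2)) ≤ 109848 / 10 ^ 12 := by
    have h1 : (160241827836 : ℝ) / 10 ^ 10 ≤ 8 * al * (117 / 100) - 5 / 2 := by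
      have h2 : (160241827836 : ℝ) / 10 ^ 10 ≤ 4 * (46310456960 / 10 ^ 10) - 5 / 2 + 1 / 10 ^ 8 := by norm_num
      have h3 : 8 * al * (117 / 100) = 4 * (Real.pi * (117 / 100) * mm) := by rw [← e]; ring
      have h4 : (160241827836 : ℝ) / 10 ^ 10 + 5 / 2 ≤ 4 * (Real.pi * (117 / 100) * mm) := by
        have h5 : ((160241827836 : ℝ) / 10 ^ 10 + 5 / 2) / 4 ≤ Real.pi * (117 / 100) * mm :=
          pi_mul_ge (by norm_num) (by linarith) (by norm_num at m1 ⊢; linarith)
        linarith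
      linarith
    refine (Real.exp_le_exp.2 (neg_le_neg h1)).trans ?_
    exact negexp (s := 2722393411162 / 10 ^ 12) (by norm_num) (by norm_num)
      (by norm_num [Finset.sum_range_succ, Nat.factorial]) (by norm_num) (by norm_num)
  refine (rf_le (by norm_num) hy hK).trans ?_
  norm_num

lemma rbb2 : RB (117 / 100) ≤ 2427 / 200 := by
  obtain ⟨m1, m2⟩ := mm_b
  obtain ⟨m3, m4⟩ := mmsq
  norm_num at m1 m2 m3 m4
  have h3 : Real.exp (Real.pi * (117 / 100) * (mm - 3 * mm ^ 2 / 4)) ≤ 1290438044 / 10 ^ 9 := by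
    have h0 : Real.pi * (117 / 100) * (mm - 3 * mm ^ 2 / 4) ≤ 254981729434 / 10 ^ 12 :=
      pi_mul_le (by norm_num) (by linarith) (by norm_num; linarith)
    refine (Real.exp_le_exp.2 h0).trans ?_
    refine exp_ub (s := 1016064019094 / 10 ^ 12) (by norm_num) (by norm_num) ?_ ?_
    · norm_num [Finset.sum_range_succ, Nat.factorial]
    · norm_num
  have h4 : Real.exp (-(Real.pi * (117 / 100) * (4 * mm ^ 2 / 4 - mm))) ≤ 300079974168 / 10 ^ 12 := by
    have h0 : (12037062593 : ℝ) / 10 ^ 10 ≤ Real.pi * (117 / 100) * (4 * mm ^ 2 / 4 - mm) :=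
      pi_mul_ge (by norm_num) (by linarith) (by norm_num; linarith)
    refine (Real.exp_le_exp.2 (neg_le_neg h0)).trans ?_
    exact negexp (s := 1078133862190 / 10 ^ 12) (by norm_num) (by norm_num)
      (by norm_num [Finset.sum_range_succ, Nat.factorial]) (by norm_num) (by norm_num)
  have h8 : Real.exp (-(Real.pi * (117 / 100) * (8 * mm ^ 2 / 4 - mm))) ≤ 877478405 / 10 ^ 12 := by
    have h0 : (70384582146 : ℝ) / 10 ^ 10 ≤ Real.pi * (117 / 100) * (8 * mm ^ 2 / 4 - mm) :=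
      pi_mul_ge (by norm_num) (by linarith) (by norm_num; linarith)
    refine (Real.exp_le_exp.2 (neg_le_neg h0)).trans ?_
    exact negexp (s := 1552557604387 / 10 ^ 12) (by norm_num) (by norm_num)
      (by norm_num [Finset.sum_range_succ, Nat.factorial]) (by norm_num) (by norm_num)
  have h11 : Real.exp (-(Real.pi * (117 / 100) * (11 * mm ^ 2 / 4 - mm))) ≤ 11034078 / 10 ^ 12 := by
    have h0 : (114145221811 : ℝ) / 10 ^ 10 ≤ Real.pi * (117 / 100) * (11 * mm ^ 2 / 4 - mm) :=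
      pi_mul_ge (by norm_num) (by linarith) (by norm_num; linarith)
    refine (Real.exp_le_exp.2 (neg_le_neg h0)).trans ?_
    exact negexp (s := 2040934183895 / 10 ^ 12) (by norm_num) (by norm_num)
      (by norm_num [Finset.sum_range_succ, Nat.factorial]) (by norm_num) (by norm_num)
  have h12 : Real.exp (-(Real.pi * (117 / 100) * (12 * mm ^ 2 / 4 - mm))) ≤ 2565879 / 10 ^ 12 := by
    have h0 : (128732101699 : ℝ) / 10 ^ 10 ≤ Real.pi * (117 / 100) * (12 * mm ^ 2 / 4 - mm) :=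
      pi_mul_ge (by norm_num) (by linarith) (by norm_num; linarith)
    refine (Real.exp_le_exp.2 (neg_le_neg h0)).trans ?_
    exact negexp (s := 2235747525863 / 10 ^ 12) (by norm_num) (by norm_num)
      (by norm_num [Finset.sum_range_succ, Nat.factorial]) (by norm_num) (by norm_num)
  have hK : Real.exp (-(Real.pi * (117 / 100) * (16 * mm ^ 2 / 4 - mm) - 8 / 3)) ≤ 107984 / 10 ^ 12 := by
    have h0 : (160412954586 : ℝ) / 10 ^ 10 ≤ Real.pi * (117 / 100) * (16 * mm ^ 2 / 4 - mm) - 8 / 3 := by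
      have h1 : (160412954586 : ℝ) / 10 ^ 10 + 8 / 3 ≤ Real.pi * (117 / 100) * (16 * mm ^ 2 / 4 - mm) :=
        pi_mul_ge (by norm_num) (by linarith) (by norm_num; linarith)
      linarith
    refine (Real.exp_le_exp.2 (neg_le_neg h0)).trans ?_
    exact negexp (s := 2725306683422 / 10 ^ 12) (by norm_num) (by norm_num)
      (by norm_num [Finset.sum_range_succ, Nat.factorial]) (by norm_num) (by norm_num)
  refine (rb_le (by norm_num) h3 h4 h8 h11 h12 hK).trans ?_
  norm_num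

lemma rfb3 : RF (32 / 25) ≤ 1203889 / 100000 := by
  obtain ⟨m1, m2⟩ := mm_b
  have hp := pi_mm
  have h0 : (50664431544 : ℝ) / 10 ^ 10 ≤ Real.pi * (32 / 25) * mm :=
    pi_mul_ge (by norm_num) (by linarith) (by norm_num at m1 ⊢; linarith)
  have e : 2 * al * (32 / 25) = Real.pi * (32 / 25) * mm := by rw [← hp]; ring
  have hy : Real.exp (-(2 * al * (32 / 25))) ≤ 6304805528 / 10 ^ 12 := by
    rw [e]
    refine (Real.exp_le_exp.2 (neg_le_neg h0)).trans ?_
    exact negexp (s := 1372525807014 / 10 ^ 12) (by norm_num) (by norm_num)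
      (by norm_num [Finset.sum_range_succ, Nat.factorial]) (by norm_num) (by norm_num)
  have hK : Real.exp (-(8 * al * (32 / 25) - 5 / 2)) ≤ 19251 / 10 ^ 12 := by
    have h1 : (177657726179 : ℝ) / 10 ^ 10 ≤ 8 * al * (32 / 25) - 5 / 2 := by
      have h2 : (177657726179 : ℝ) / 10 ^ 10 ≤ 4 * (50664431545 / 10 ^ 10) - 5 / 2 + 1 / 10 ^ 8 := by norm_num
      have h3 : 8 * al * (32 / 25) = 4 * (Real.pi * (32 / 25) * mm) := by rw [← e]; ring
      have h4 : (177657726179 : ℝ) / 10 ^ 10 + 5 / 2 ≤ 4 * (Real.pi * (32 / 25) * mm) := by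
        have h5 : ((177657726179 : ℝ) / 10 ^ 10 + 5 / 2) / 4 ≤ Real.pi * (32 / 25) * mm :=
          pi_mul_ge (by norm_num) (by linarith) (by norm_num at m1 ⊢; linarith)
        linarith
      linarith
    refine (Real.exp_le_exp.2 (neg_le_neg h1)).trans ?_
    exact negexp (s := 3035453353868 / 10 ^ 12) (by norm_num) (by norm_num)
      (by norm_num [Finset.sum_range_succ, Nat.factorial]) (by norm_num) (by norm_num)
  refine (rf_le (by norm_num) hy hK).trans ?_
  norm_num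

lemma rbb3 : RB (32 / 25) ≤ 609377 / 50000 := by
  obtain ⟨m1, m2⟩ := mm_b
  obtain ⟨m3, m4⟩ := mmsq
  norm_num at m1 m2 m3 m4
  have h3 : Real.exp (Real.pi * (32 / 25) * (mm - 3 * mm ^ 2 / 4)) ≤ 1321747033 / 10 ^ 9 := by
    have h0 : Real.pi * (32 / 25) * (mm - 3 * mm ^ 2 / 4) ≤ 278954370663 / 10 ^ 12 :=
      pi_mul_le (by norm_num) (by linarith) (by norm_num; linarith)
    refine (Real.exp_le_exp.2 h0).trans ?_
    refine exp_ub (s := 1017587518768 / 10 ^ 12) (by norm_num) (by norm_num) ?_ ?_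
    · norm_num [Finset.sum_range_succ, Nat.factorial]
    · norm_num
  have h4 : Real.exp (-(Real.pi * (32 / 25) * (4 * mm ^ 2 / 4 - mm))) ≤ 267971345522 / 10 ^ 12 := by
    have h0 : (13168752239 : ℝ) / 10 ^ 10 ≤ Real.pi * (32 / 25) * (4 * mm ^ 2 / 4 - mm) :=
      pi_mul_ge (by norm_num) (by linarith) (by norm_num; linarith)
    refine (Real.exp_le_exp.2 (neg_le_neg h0)).trans ?_
    exact negexp (s := 1085786600229 / 10 ^ 12) (by norm_num) (by norm_num)
      (by norm_num [Finset.sum_range_succ, Nat.factorial]) (by norm_num) (by norm_num)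
  have h8 : Real.exp (-(Real.pi * (32 / 25) * (8 * mm ^ 2 / 4 - mm))) ≤ 452739524 / 10 ^ 12 := by
    have h0 : (77001936024 : ℝ) / 10 ^ 10 ≤ Real.pi * (32 / 25) * (8 * mm ^ 2 / 4 - mm) :=
      pi_mul_ge (by norm_num) (by linarith) (by norm_num; linarith)
    refine (Real.exp_le_exp.2 (neg_le_neg h0)).trans ?_
    exact negexp (s := 1618115337599 / 10 ^ 12) (by norm_num) (by norm_num)
      (by norm_num [Finset.sum_range_succ, Nat.factorial]) (by norm_num) (by norm_num)
  have h11 : Real.exp (-(Real.pi * (32 / 25) * (11 * mm ^ 2 / 4 - mm))) ≤ 3772842 / 10 ^ 12 := by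
    have h0 : (124876823862 : ℝ) / 10 ^ 10 ≤ Real.pi * (32 / 25) * (11 * mm ^ 2 / 4 - mm) :=
      pi_mul_ge (by norm_num) (by linarith) (by norm_num; linarith)
    refine (Real.exp_le_exp.2 (neg_le_neg h0)).trans ?_
    exact negexp (s := 2182519949026 / 10 ^ 12) (by norm_num) (by norm_num)
      (by norm_num [Finset.sum_range_succ, Nat.factorial]) (by norm_num) (by norm_num)
  have h12 : Real.exp (-(Real.pi * (32 / 25) * (12 * mm ^ 2 / 4 - mm))) ≤ 764908 / 10 ^ 12 := by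
    have h0 : (140835119808 : ℝ) / 10 ^ 10 ≤ Real.pi * (32 / 25) * (12 * mm ^ 2 / 4 - mm) :=
      pi_mul_ge (by norm_num) (by linarith) (by norm_num; linarith)
    refine (Real.exp_le_exp.2 (neg_le_neg h0)).trans ?_
    exact negexp (s := 2411428954090 / 10 ^ 12) (by norm_num) (by norm_num)
      (by norm_num [Finset.sum_range_succ, Nat.factorial]) (by norm_num) (by norm_num)
  have hK : Real.exp (-(Real.pi * (32 / 25) * (16 * mm ^ 2 / 4 - mm) - 8 / 3)) ≤ 18600 / 10 ^ 12 := by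
    have h0 : (178001636926 : ℝ) / 10 ^ 10 ≤ Real.pi * (32 / 25) * (16 * mm ^ 2 / 4 - mm) - 8 / 3 := by
      have h1 : (178001636926 : ℝ) / 10 ^ 10 + 8 / 3 ≤ Real.pi * (32 / 25) * (16 * mm ^ 2 / 4 - mm) :=
        pi_mul_ge (by norm_num) (by linarith) (by norm_num; linarith)
      linarith
    refine (Real.exp_le_exp.2 (neg_le_neg h0)).trans ?_
    exact negexp (s := 3041984902385 / 10 ^ 12) (by norm_num) (by norm_num)
      (by norm_num [Finset.sum_range_succ, Nat.factorial]) (by norm_num) (by norm_num)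
  refine (rb_le (by norm_num) h3 h4 h8 h11 h12 hK).trans ?_
  norm_num

lemma rfb4 : RF (71 / 50) ≤ 150277 / 12500 := by
  obtain ⟨m1, m2⟩ := mm_b
  have hp := pi_mm
  have h0 : (56205853745 : ℝ) / 10 ^ 10 ≤ Real.pi * (71 / 50) * mm :=
    pi_mul_ge (by norm_num) (by linarith) (by norm_num at m1 ⊢; linarith)
  have e : 2 * al * (71 / 50) = Real.pi * (71 / 50) * mm := by rw [← hp]; ring
  have hy : Real.exp (-(2 * al * (71 / 50))) ≤ 3622519959 / 10 ^ 12 := by
    rw [e]
    refine (Real.exp_le_exp.2 (neg_le_neg h0)).trans ?_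
    exact negexp (s := 1420894475898 / 10 ^ 12) (by norm_num) (by norm_num)
      (by norm_num [Finset.sum_range_succ, Nat.factorial]) (by norm_num) (by norm_num)
  have hK : Real.exp (-(8 * al * (71 / 50) - 5 / 2)) ≤ 2099 / 10 ^ 12 := by
    have h1 : (199823414980 : ℝ) / 10 ^ 10 ≤ 8 * al * (71 / 50) - 5 / 2 := by
      have h2 : (199823414980 : ℝ) / 10 ^ 10 ≤ 4 * (56205853746 / 10 ^ 10) - 5 / 2 + 1 / 10 ^ 8 := by norm_num
      have h3 : 8 * al * (71 / 50) = 4 * (Real.pi * (71 / 50) * mm) := by rw [← e]; ring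
      have h4 : (199823414980 : ℝ) / 10 ^ 10 + 5 / 2 ≤ 4 * (Real.pi * (71 / 50) * mm) := by
        have h5 : ((199823414980 : ℝ) / 10 ^ 10 + 5 / 2) / 4 ≤ Real.pi * (71 / 50) * mm :=
          pi_mul_ge (by norm_num) (by linarith) (by norm_num at m1 ⊢; linarith)
        linarith
      linarith
    refine (Real.exp_le_exp.2 (neg_le_neg h1)).trans ?_
    exact negexp (s := 3486492942862 / 10 ^ 12) (by norm_num) (by norm_num)
      (by norm_num [Finset.sum_range_succ, Nat.factorial]) (by norm_num) (by norm_num)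
  refine (rf_le (by norm_num) hy hK).trans ?_
  norm_num

lemma rbb4 : RB (71 / 50) ≤ 1229629 / 100000 := by
  obtain ⟨m1, m2⟩ := mm_b
  obtain ⟨m3, m4⟩ := mmsq
  norm_num at m1 m2 m3 m4
  have h3 : Real.exp (Real.pi * (71 / 50) * (mm - 3 * mm ^ 2 / 4)) ≤ 1362695884 / 10 ^ 9 := by
    have h0 : Real.pi * (71 / 50) * (mm - 3 * mm ^ 2 / 4) ≤ 309465004954 / 10 ^ 12 :=
      pi_mul_le (by norm_num) (by linarith) (by norm_num; linarith)
    refine (Real.exp_le_exp.2 h0).trans ?_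
    refine exp_ub (s := 1019529822624 / 10 ^ 12) (by norm_num) (by norm_num) ?_ ?_
    · norm_num [Finset.sum_range_succ, Nat.factorial]
    · norm_num
  have h4 : Real.exp (-(Real.pi * (71 / 50) * (4 * mm ^ 2 / 4 - mm))) ≤ 232025395143 / 10 ^ 12 := by
    have h0 : (14609084515 : ℝ) / 10 ^ 10 ≤ Real.pi * (71 / 50) * (4 * mm ^ 2 / 4 - mm) :=
      pi_mul_ge (by norm_num) (by linarith) (by norm_num; linarith)
    refine (Real.exp_le_exp.2 (neg_le_neg h0)).trans ?_
    exact negexp (s := 1095605061477 / 10 ^ 12) (by norm_num) (by norm_num)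
      (by norm_num [Finset.sum_range_succ, Nat.factorial]) (by norm_num) (by norm_num)
  have h8 : Real.exp (-(Real.pi * (71 / 50) * (8 * mm ^ 2 / 4 - mm))) ≤ 195021203 / 10 ^ 12 := by
    have h0 : (85424022776 : ℝ) / 10 ^ 10 ≤ Real.pi * (71 / 50) * (8 * mm ^ 2 / 4 - mm) :=
      pi_mul_ge (by norm_num) (by linarith) (by norm_num; linarith)
    refine (Real.exp_le_exp.2 (neg_le_neg h0)).trans ?_
    exact negexp (s := 1705571324603 / 10 ^ 12) (by norm_num) (by norm_num)
      (by norm_num [Finset.sum_range_succ, Nat.factorial]) (by norm_num) (by norm_num)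
  have h11 : Real.exp (-(Real.pi * (71 / 50) * (11 * mm ^ 2 / 4 - mm))) ≤ 962703 / 10 ^ 12 := by
    have h0 : (138535226472 : ℝ) / 10 ^ 10 ≤ Real.pi * (71 / 50) * (11 * mm ^ 2 / 4 - mm) :=
      pi_mul_ge (by norm_num) (by linarith) (by norm_num; linarith)
    refine (Real.exp_le_exp.2 (neg_le_neg h0)).trans ?_
    exact negexp (s := 2377014207540 / 10 ^ 12) (by norm_num) (by norm_num)
      (by norm_num [Finset.sum_range_succ, Nat.factorial]) (by norm_num) (by norm_num)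
  have h12 : Real.exp (-(Real.pi * (71 / 50) * (12 * mm ^ 2 / 4 - mm))) ≤ 163920 / 10 ^ 12 := by
    have h0 : (156238961037 : ℝ) / 10 ^ 10 ≤ Real.pi * (71 / 50) * (12 * mm ^ 2 / 4 - mm) :=
      pi_mul_ge (by norm_num) (by linarith) (by norm_num; linarith)
    refine (Real.exp_le_exp.2 (neg_le_neg h0)).trans ?_
    exact negexp (s := 2655129704654 / 10 ^ 12) (by norm_num) (by norm_num)
      (by norm_num [Finset.sum_range_succ, Nat.factorial]) (by norm_num) (by norm_num)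
  have hK : Real.exp (-(Real.pi * (71 / 50) * (16 * mm ^ 2 / 4 - mm) - 8 / 3)) ≤ 2063 / 10 ^ 12 := by
    have h0 : (200000000000 : ℝ) / 10 ^ 10 ≤ Real.pi * (71 / 50) * (16 * mm ^ 2 / 4 - mm) - 8 / 3 := by
      have h1 : (200000000000 : ℝ) / 10 ^ 10 + 8 / 3 ≤ Real.pi * (71 / 50) * (16 * mm ^ 2 / 4 - mm) :=
        pi_mul_ge (by norm_num) (by linarith) (by norm_num; linarith)
      linarith
    refine (Real.exp_le_exp.2 (neg_le_neg h0)).trans ?_
    exact negexp (s := 3490342957177 / 10 ^ 12) (by norm_num) (by norm_num)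
      (by norm_num [Finset.sum_range_succ, Nat.factorial]) (by norm_num) (by norm_num)
  refine (rb_le (by norm_num) h3 h4 h8 h11 h12 hK).trans ?_
  norm_num

lemma rfb5 : RF (8 / 5) ≤ 300271 / 25000 := by
  obtain ⟨m1, m2⟩ := mm_b
  have hp := pi_mm
  have h0 : (63330539431 : ℝ) / 10 ^ 10 ≤ Real.pi * (8 / 5) * mm :=
    pi_mul_ge (by norm_num) (by linarith) (by norm_num at m1 ⊢; linarith)
  have e : 2 * al * (8 / 5) = Real.pi * (8 / 5) * mm := by rw [← hp]; ring
  have hy : Real.exp (-(2 * al * (8 / 5))) ≤ 1776599843 / 10 ^ 12 := by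
    rw [e]
    refine (Real.exp_le_exp.2 (neg_le_neg h0)).trans ?_
    exact negexp (s := 1485595751765 / 10 ^ 12) (by norm_num) (by norm_num)
      (by norm_num [Finset.sum_range_succ, Nat.factorial]) (by norm_num) (by norm_num)
  have hK : Real.exp (-(8 * al * (8 / 5) - 5 / 2)) ≤ 2063 / 10 ^ 12 := by
    have h1 : (200000000000 : ℝ) / 10 ^ 10 ≤ 8 * al * (8 / 5) - 5 / 2 := by
      have h2 : (200000000000 : ℝ) / 10 ^ 10 ≤ 4 * (63330539432 / 10 ^ 10) - 5 / 2 + 1 / 10 ^ 8 := by norm_num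
      have h3 : 8 * al * (8 / 5) = 4 * (Real.pi * (8 / 5) * mm) := by rw [← e]; ring
      have h4 : (200000000000 : ℝ) / 10 ^ 10 + 5 / 2 ≤ 4 * (Real.pi * (8 / 5) * mm) := by
        have h5 : ((200000000000 : ℝ) / 10 ^ 10 + 5 / 2) / 4 ≤ Real.pi * (8 / 5) * mm :=
          pi_mul_ge (by norm_num) (by linarith) (by norm_num at m1 ⊢; linarith)
        linarith
      linarith
    refine (Real.exp_le_exp.2 (neg_le_neg h1)).trans ?_
    exact negexp (s := 3490342957177 / 10 ^ 12) (by norm_num) (by norm_num)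
      (by norm_num [Finset.sum_range_succ, Nat.factorial]) (by norm_num) (by norm_num)
  refine (rf_le (by norm_num) hy hK).trans ?_
  norm_num

lemma rbb5 : RB (8 / 5) ≤ 78097 / 6250 := by
  obtain ⟨m1, m2⟩ := mm_b
  obtain ⟨m3, m4⟩ := mmsq
  norm_num at m1 m2 m3 m4
  have h3 : Real.exp (Real.pi * (8 / 5) * (mm - 3 * mm ^ 2 / 4)) ≤ 1417213987 / 10 ^ 9 := by
    have h0 : Real.pi * (8 / 5) * (mm - 3 * mm ^ 2 / 4) ≤ 348692963328 / 10 ^ 12 :=
      pi_mul_le (by norm_num) (by linarith) (by norm_num; linarith)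
    refine (Real.exp_le_exp.2 h0).trans ?_
    refine exp_ub (s := 1022032518950 / 10 ^ 12) (by norm_num) (by norm_num) ?_ ?_
    · norm_num [Finset.sum_range_succ, Nat.factorial]
    · norm_num
  have h4 : Real.exp (-(Real.pi * (8 / 5) * (4 * mm ^ 2 / 4 - mm))) ≤ 192801516747 / 10 ^ 12 := by
    have h0 : (16460940299 : ℝ) / 10 ^ 10 ≤ Real.pi * (8 / 5) * (4 * mm ^ 2 / 4 - mm) :=
      pi_mul_ge (by norm_num) (by linarith) (by norm_num; linarith)
    refine (Real.exp_le_exp.2 (neg_le_neg h0)).trans ?_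
    exact negexp (s := 1108359369973 / 10 ^ 12) (by norm_num) (by norm_num)
      (by norm_num [Finset.sum_range_succ, Nat.factorial]) (by norm_num) (by norm_num)
  have h8 : Real.exp (-(Real.pi * (8 / 5) * (8 * mm ^ 2 / 4 - mm))) ≤ 66040526 / 10 ^ 12 := by
    have h0 : (96252420030 : ℝ) / 10 ^ 10 ≤ Real.pi * (8 / 5) * (8 * mm ^ 2 / 4 - mm) :=
      pi_mul_ge (by norm_num) (by linarith) (by norm_num; linarith)
    refine (Real.exp_le_exp.2 (neg_le_neg h0)).trans ?_
    exact negexp (s := 1824995689634 / 10 ^ 12) (by norm_num) (by norm_num)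
      (by norm_num [Finset.sum_range_succ, Nat.factorial]) (by norm_num) (by norm_num)
  have h11 : Real.exp (-(Real.pi * (8 / 5) * (11 * mm ^ 2 / 4 - mm))) ≤ 166280 / 10 ^ 12 := by
    have h0 : (156096029827 : ℝ) / 10 ^ 10 ≤ Real.pi * (8 / 5) * (11 * mm ^ 2 / 4 - mm) :=
      pi_mul_ge (by norm_num) (by linarith) (by norm_num; linarith)
    refine (Real.exp_le_exp.2 (neg_le_neg h0)).trans ?_
    exact negexp (s := 2652758883130 / 10 ^ 12) (by norm_num) (by norm_num)
      (by norm_num [Finset.sum_range_succ, Nat.factorial]) (by norm_num) (by norm_num)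
  have h12 : Real.exp (-(Real.pi * (8 / 5) * (12 * mm ^ 2 / 4 - mm))) ≤ 22622 / 10 ^ 12 := by
    have h0 : (176043899760 : ℝ) / 10 ^ 10 ≤ Real.pi * (8 / 5) * (12 * mm ^ 2 / 4 - mm) :=
      pi_mul_ge (by norm_num) (by linarith) (by norm_num; linarith)
    refine (Real.exp_le_exp.2 (neg_le_neg h0)).trans ?_
    exact negexp (s := 3004990400534 / 10 ^ 12) (by norm_num) (by norm_num)
      (by norm_num [Finset.sum_range_succ, Nat.factorial]) (by norm_num) (by norm_num)
  have hK : Real.exp (-(Real.pi * (8 / 5) * (16 * mm ^ 2 / 4 - mm) - 8 / 3)) ≤ 2063 / 10 ^ 12 := by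
    have h0 : (200000000000 : ℝ) / 10 ^ 10 ≤ Real.pi * (8 / 5) * (16 * mm ^ 2 / 4 - mm) - 8 / 3 := by
      have h1 : (200000000000 : ℝ) / 10 ^ 10 + 8 / 3 ≤ Real.pi * (8 / 5) * (16 * mm ^ 2 / 4 - mm) :=
        pi_mul_ge (by norm_num) (by linarith) (by norm_num; linarith)
      linarith
    refine (Real.exp_le_exp.2 (neg_le_neg h0)).trans ?_
    exact negexp (s := 3490342957177 / 10 ^ 12) (by norm_num) (by norm_num)
      (by norm_num [Finset.sum_range_succ, Nat.factorial]) (by norm_num) (by norm_num)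
  refine (rb_le (by norm_num) h3 h4 h8 h11 h12 hK).trans ?_
  norm_num

lemma rfb6 : RF (19 / 10) ≤ 75021 / 6250 := by
  obtain ⟨m1, m2⟩ := mm_b
  have hp := pi_mm
  have h0 : (75205015574 : ℝ) / 10 ^ 10 ≤ Real.pi * (19 / 10) * mm :=
    pi_mul_ge (by norm_num) (by linarith) (by norm_num at m1 ⊢; linarith)
  have e : 2 * al * (19 / 10) = Real.pi * (19 / 10) * mm := by rw [← hp]; ring
  have hy : Real.exp (-(2 * al * (19 / 10))) ≤ 541860725 / 10 ^ 12 := by
    rw [e]
    refine (Real.exp_le_exp.2 (neg_le_neg h0)).trans ?_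
    exact negexp (s := 1600044349561 / 10 ^ 12) (by norm_num) (by norm_num)
      (by norm_num [Finset.sum_range_succ, Nat.factorial]) (by norm_num) (by norm_num)
  have hK : Real.exp (-(8 * al * (19 / 10) - 5 / 2)) ≤ 2063 / 10 ^ 12 := by
    have h1 : (200000000000 : ℝ) / 10 ^ 10 ≤ 8 * al * (19 / 10) - 5 / 2 := by
      have h2 : (200000000000 : ℝ) / 10 ^ 10 ≤ 4 * (75205015575 / 10 ^ 10) - 5 / 2 + 1 / 10 ^ 8 := by norm_num
      have h3 : 8 * al * (19 / 10) = 4 * (Real.pi * (19 / 10) * mm) := by rw [← e]; ring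
      have h4 : (200000000000 : ℝ) / 10 ^ 10 + 5 / 2 ≤ 4 * (Real.pi * (19 / 10) * mm) := by
        have h5 : ((200000000000 : ℝ) / 10 ^ 10 + 5 / 2) / 4 ≤ Real.pi * (19 / 10) * mm :=
          pi_mul_ge (by norm_num) (by linarith) (by norm_num at m1 ⊢; linarith)
        linarith
      linarith
    refine (Real.exp_le_exp.2 (neg_le_neg h1)).trans ?_
    exact negexp (s := 3490342957177 / 10 ^ 12) (by norm_num) (by norm_num)
      (by norm_num [Finset.sum_range_succ, Nat.factorial]) (by norm_num) (by norm_num)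
  refine (rf_le (by norm_num) hy hK).trans ?_
  norm_num

lemma rbb6 : RB (19 / 10) ≤ 1295369 / 100000 := by
  obtain ⟨m1, m2⟩ := mm_b
  obtain ⟨m3, m4⟩ := mmsq
  norm_num at m1 m2 m3 m4
  have h3 : Real.exp (Real.pi * (19 / 10) * (mm - 3 * mm ^ 2 / 4)) ≤ 1512967410 / 10 ^ 9 := by
    have h0 : Real.pi * (19 / 10) * (mm - 3 * mm ^ 2 / 4) ≤ 414072893952 / 10 ^ 12 :=
      pi_mul_le (by norm_num) (by linarith) (by norm_num; linarith)
    refine (Real.exp_le_exp.2 h0).trans ?_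
    refine exp_ub (s := 1026217339178 / 10 ^ 12) (by norm_num) (by norm_num) ?_ ?_
    · norm_num [Finset.sum_range_succ, Nat.factorial]
    · norm_num
  have h4 : Real.exp (-(Real.pi * (19 / 10) * (4 * mm ^ 2 / 4 - mm))) ≤ 141601761125 / 10 ^ 12 := by
    have h0 : (19547366605 : ℝ) / 10 ^ 10 ≤ Real.pi * (19 / 10) * (4 * mm ^ 2 / 4 - mm) :=
      pi_mul_ge (by norm_num) (by linarith) (by norm_num; linarith)
    refine (Real.exp_le_exp.2 (neg_le_neg h0)).trans ?_
    exact negexp (s := 1129947352895 / 10 ^ 12) (by norm_num) (by norm_num)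
      (by norm_num [Finset.sum_range_succ, Nat.factorial]) (by norm_num) (by norm_num)
  have h8 : Real.exp (-(Real.pi * (19 / 10) * (8 * mm ^ 2 / 4 - mm))) ≤ 10864883 / 10 ^ 12 := by
    have h0 : (114299748785 : ℝ) / 10 ^ 10 ≤ Real.pi * (19 / 10) * (8 * mm ^ 2 / 4 - mm) :=
      pi_mul_ge (by norm_num) (by linarith) (by norm_num; linarith)
    refine (Real.exp_le_exp.2 (neg_le_neg h0)).trans ?_
    exact negexp (s := 2042906257197 / 10 ^ 12) (by norm_num) (by norm_num)
      (by norm_num [Finset.sum_range_succ, Nat.factorial]) (by norm_num) (by norm_num)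
  have h11 : Real.exp (-(Real.pi * (19 / 10) * (11 * mm ^ 2 / 4 - mm))) ≤ 8909 / 10 ^ 12 := by
    have h0 : (185364035420 : ℝ) / 10 ^ 10 ≤ Real.pi * (19 / 10) * (11 * mm ^ 2 / 4 - mm) :=
      pi_mul_ge (by norm_num) (by linarith) (by norm_num; linarith)
    refine (Real.exp_le_exp.2 (neg_le_neg h0)).trans ?_
    exact negexp (s := 3185232297910 / 10 ^ 12) (by norm_num) (by norm_num)
      (by norm_num [Finset.sum_range_succ, Nat.factorial]) (by norm_num) (by norm_num)
  have h12 : Real.exp (-(Real.pi * (19 / 10) * (12 * mm ^ 2 / 4 - mm))) ≤ 2063 / 10 ^ 12 := by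
    have h0 : (200000000000 : ℝ) / 10 ^ 10 ≤ Real.pi * (19 / 10) * (12 * mm ^ 2 / 4 - mm) :=
      pi_mul_ge (by norm_num) (by linarith) (by norm_num; linarith)
    refine (Real.exp_le_exp.2 (neg_le_neg h0)).trans ?_
    exact negexp (s := 3490342957177 / 10 ^ 12) (by norm_num) (by norm_num)
      (by norm_num [Finset.sum_range_succ, Nat.factorial]) (by norm_num) (by norm_num)
  have hK : Real.exp (-(Real.pi * (19 / 10) * (16 * mm ^ 2 / 4 - mm) - 8 / 3)) ≤ 2063 / 10 ^ 12 := by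
    have h0 : (200000000000 : ℝ) / 10 ^ 10 ≤ Real.pi * (19 / 10) * (16 * mm ^ 2 / 4 - mm) - 8 / 3 := by
      have h1 : (200000000000 : ℝ) / 10 ^ 10 + 8 / 3 ≤ Real.pi * (19 / 10) * (16 * mm ^ 2 / 4 - mm) :=
        pi_mul_ge (by norm_num) (by linarith) (by norm_num; linarith)
      linarith
    refine (Real.exp_le_exp.2 (neg_le_neg h0)).trans ?_
    exact negexp (s := 3490342957177 / 10 ^ 12) (by norm_num) (by norm_num)
      (by norm_num [Finset.sum_range_succ, Nat.factorial]) (by norm_num) (by norm_num)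
  refine (rb_le (by norm_num) h3 h4 h8 h11 h12 hK).trans ?_
  norm_num

lemma rfb7 : RF (23 / 10) ≤ 1200077 / 100000 := by
  obtain ⟨m1, m2⟩ := mm_b
  have hp := pi_mm
  have h0 : (91037650432 : ℝ) / 10 ^ 10 ≤ Real.pi * (23 / 10) * mm :=
    pi_mul_ge (by norm_num) (by linarith) (by norm_num at m1 ⊢; linarith)
  have e : 2 * al * (23 / 10) = Real.pi * (23 / 10) * mm := by rw [← hp]; ring
  have hy : Real.exp (-(2 * al * (23 / 10))) ≤ 111246174 / 10 ^ 12 := by
    rw [e]
    refine (Real.exp_le_exp.2 (neg_le_neg h0)).trans ?_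
    exact negexp (s := 1766473727717 / 10 ^ 12) (by norm_num) (by norm_num)
      (by norm_num [Finset.sum_range_succ, Nat.factorial]) (by norm_num) (by norm_num)
  have hK : Real.exp (-(8 * al * (23 / 10) - 5 / 2)) ≤ 2063 / 10 ^ 12 := by
    have h1 : (200000000000 : ℝ) / 10 ^ 10 ≤ 8 * al * (23 / 10) - 5 / 2 := by
      have h2 : (200000000000 : ℝ) / 10 ^ 10 ≤ 4 * (91037650433 / 10 ^ 10) - 5 / 2 + 1 / 10 ^ 8 := by norm_num
      have h3 : 8 * al * (23 / 10) = 4 * (Real.pi * (23 / 10) * mm) := by rw [← e]; ring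
      have h4 : (200000000000 : ℝ) / 10 ^ 10 + 5 / 2 ≤ 4 * (Real.pi * (23 / 10) * mm) := by
        have h5 : ((200000000000 : ℝ) / 10 ^ 10 + 5 / 2) / 4 ≤ Real.pi * (23 / 10) * mm :=
          pi_mul_ge (by norm_num) (by linarith) (by norm_num at m1 ⊢; linarith)
        linarith
      linarith
    refine (Real.exp_le_exp.2 (neg_le_neg h1)).trans ?_
    exact negexp (s := 3490342957177 / 10 ^ 12) (by norm_num) (by norm_num)
      (by norm_num [Finset.sum_range_succ, Nat.factorial]) (by norm_num) (by norm_num)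
  refine (rf_le (by norm_num) hy hK).trans ?_
  norm_num

lemma rbb7 : RB (23 / 10) ≤ 688471 / 50000 := by
  obtain ⟨m1, m2⟩ := mm_b
  obtain ⟨m3, m4⟩ := mmsq
  norm_num at m1 m2 m3 m4
  have h3 : Real.exp (Real.pi * (23 / 10) * (mm - 3 * mm ^ 2 / 4)) ≤ 1650777081 / 10 ^ 9 := by
    have h0 : Real.pi * (23 / 10) * (mm - 3 * mm ^ 2 / 4) ≤ 501246134784 / 10 ^ 12 :=
      pi_mul_le (by norm_num) (by linarith) (by norm_num; linarith)
    refine (Real.exp_le_exp.2 h0).trans ?_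
    refine exp_ub (s := 1031823766338 / 10 ^ 12) (by norm_num) (by norm_num) ?_ ?_
    · norm_num [Finset.sum_range_succ, Nat.factorial]
    · norm_num
  have h4 : Real.exp (-(Real.pi * (23 / 10) * (4 * mm ^ 2 / 4 - mm))) ≤ 93830983034 / 10 ^ 12 := by
    have h0 : (23662601680 : ℝ) / 10 ^ 10 ≤ Real.pi * (23 / 10) * (4 * mm ^ 2 / 4 - mm) :=
      pi_mul_ge (by norm_num) (by linarith) (by norm_num; linarith)
    refine (Real.exp_le_exp.2 (neg_le_neg h0)).trans ?_
    exact negexp (s := 1159386818365 / 10 ^ 12) (by norm_num) (by norm_num)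
      (by norm_num [Finset.sum_range_succ, Nat.factorial]) (by norm_num) (by norm_num)
  have h8 : Real.exp (-(Real.pi * (23 / 10) * (8 * mm ^ 2 / 4 - mm))) ≤ 979441 / 10 ^ 12 := by
    have h0 : (138362853793 : ℝ) / 10 ^ 10 ≤ Real.pi * (23 / 10) * (8 * mm ^ 2 / 4 - mm) :=
      pi_mul_ge (by norm_num) (by linarith) (by norm_num; linarith)
    refine (Real.exp_le_exp.2 (neg_le_neg h0)).trans ?_
    exact negexp (s := 2374454759553 / 10 ^ 12) (by norm_num) (by norm_num)
      (by norm_num [Finset.sum_range_succ, Nat.factorial]) (by norm_num) (by norm_num)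
  have h11 : Real.exp (-(Real.pi * (23 / 10) * (11 * mm ^ 2 / 4 - mm))) ≤ 2063 / 10 ^ 12 := by
    have h0 : (200000000000 : ℝ) / 10 ^ 10 ≤ Real.pi * (23 / 10) * (11 * mm ^ 2 / 4 - mm) :=
      pi_mul_ge (by norm_num) (by linarith) (by norm_num; linarith)
    refine (Real.exp_le_exp.2 (neg_le_neg h0)).trans ?_
    exact negexp (s := 3490342957177 / 10 ^ 12) (by norm_num) (by norm_num)
      (by norm_num [Finset.sum_range_succ, Nat.factorial]) (by norm_num) (by norm_num)
  have h12 : Real.exp (-(Real.pi * (23 / 10) * (12 * mm ^ 2 / 4 - mm))) ≤ 2063 / 10 ^ 12 := by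
    have h0 : (200000000000 : ℝ) / 10 ^ 10 ≤ Real.pi * (23 / 10) * (12 * mm ^ 2 / 4 - mm) :=
      pi_mul_ge (by norm_num) (by linarith) (by norm_num; linarith)
    refine (Real.exp_le_exp.2 (neg_le_neg h0)).trans ?_
    exact negexp (s := 3490342957177 / 10 ^ 12) (by norm_num) (by norm_num)
      (by norm_num [Finset.sum_range_succ, Nat.factorial]) (by norm_num) (by norm_num)
  have hK : Real.exp (-(Real.pi * (23 / 10) * (16 * mm ^ 2 / 4 - mm) - 8 / 3)) ≤ 2063 / 10 ^ 12 := by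
    have h0 : (200000000000 : ℝ) / 10 ^ 10 ≤ Real.pi * (23 / 10) * (16 * mm ^ 2 / 4 - mm) - 8 / 3 := by
      have h1 : (200000000000 : ℝ) / 10 ^ 10 + 8 / 3 ≤ Real.pi * (23 / 10) * (16 * mm ^ 2 / 4 - mm) :=
        pi_mul_ge (by norm_num) (by linarith) (by norm_num; linarith)
      linarith
    refine (Real.exp_le_exp.2 (neg_le_neg h0)).trans ?_
    exact negexp (s := 3490342957177 / 10 ^ 12) (by norm_num) (by norm_num)
      (by norm_num [Finset.sum_range_succ, Nat.factorial]) (by norm_num) (by norm_num)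
  refine (rb_le (by norm_num) h3 h4 h8 h11 h12 hK).trans ?_
  norm_num

lemma rfb8 : RF (14 / 5) ≤ 60001 / 5000 := by
  obtain ⟨m1, m2⟩ := mm_b
  have hp := pi_mm
  have h0 : (110828444004 : ℝ) / 10 ^ 10 ≤ Real.pi * (14 / 5) * mm :=
    pi_mul_ge (by norm_num) (by linarith) (by norm_num at m1 ⊢; linarith)
  have e : 2 * al * (14 / 5) = Real.pi * (14 / 5) * mm := by rw [← hp]; ring
  have hy : Real.exp (-(2 * al * (14 / 5))) ≤ 15373823 / 10 ^ 12 := by
    rw [e]
    refine (Real.exp_le_exp.2 (neg_le_neg h0)).trans ?_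
    exact negexp (s := 1999061409237 / 10 ^ 12) (by norm_num) (by norm_num)
      (by norm_num [Finset.sum_range_succ, Nat.factorial]) (by norm_num) (by norm_num)
  have hK : Real.exp (-(8 * al * (14 / 5) - 5 / 2)) ≤ 2063 / 10 ^ 12 := by
    have h1 : (200000000000 : ℝ) / 10 ^ 10 ≤ 8 * al * (14 / 5) - 5 / 2 := by
      have h2 : (200000000000 : ℝ) / 10 ^ 10 ≤ 4 * (110828444005 / 10 ^ 10) - 5 / 2 + 1 / 10 ^ 8 := by norm_num
      have h3 : 8 * al * (14 / 5) = 4 * (Real.pi * (14 / 5) * mm) := by rw [← e]; ring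
      have h4 : (200000000000 : ℝ) / 10 ^ 10 + 5 / 2 ≤ 4 * (Real.pi * (14 / 5) * mm) := by
        have h5 : ((200000000000 : ℝ) / 10 ^ 10 + 5 / 2) / 4 ≤ Real.pi * (14 / 5) * mm :=
          pi_mul_ge (by norm_num) (by linarith) (by norm_num at m1 ⊢; linarith)
        linarith
      linarith
    refine (Real.exp_le_exp.2 (neg_le_neg h1)).trans ?_
    exact negexp (s := 3490342957177 / 10 ^ 12) (by norm_num) (by norm_num)
      (by norm_num [Finset.sum_range_succ, Nat.factorial]) (by norm_num) (by norm_num)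
  refine (rf_le (by norm_num) hy hK).trans ?_
  norm_num

lemma rbb8 : RB (14 / 5) ≤ 1506337 / 100000 := by
  obtain ⟨m1, m2⟩ := mm_b
  obtain ⟨m3, m4⟩ := mmsq
  norm_num at m1 m2 m3 m4
  have h3 : Real.exp (Real.pi * (14 / 5) * (mm - 3 * mm ^ 2 / 4)) ≤ 1840822875 / 10 ^ 9 := by
    have h0 : Real.pi * (14 / 5) * (mm - 3 * mm ^ 2 / 4) ≤ 610212685824 / 10 ^ 12 :=
      pi_mul_le (by norm_num) (by linarith) (by norm_num; linarith)
    refine (Real.exp_le_exp.2 h0).trans ?_
    refine exp_ub (s := 1038874891929 / 10 ^ 12) (by norm_num) (by norm_num) ?_ ?_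
    · norm_num [Finset.sum_range_succ, Nat.factorial]
    · norm_num
  have h4 : Real.exp (-(Real.pi * (14 / 5) * (4 * mm ^ 2 / 4 - mm))) ≤ 56097470743 / 10 ^ 12 := by
    have h0 : (28806645523 : ℝ) / 10 ^ 10 ≤ Real.pi * (14 / 5) * (4 * mm ^ 2 / 4 - mm) :=
      pi_mul_ge (by norm_num) (by linarith) (by norm_num; linarith)
    refine (Real.exp_le_exp.2 (neg_le_neg h0)).trans ?_
    exact negexp (s := 1197267090001 / 10 ^ 12) (by norm_num) (by norm_num)
      (by norm_num [Finset.sum_range_succ, Nat.factorial]) (by norm_num) (by norm_num)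
  have h8 : Real.exp (-(Real.pi * (14 / 5) * (8 * mm ^ 2 / 4 - mm))) ≤ 48382 / 10 ^ 12 := by
    have h0 : (168441735052 : ℝ) / 10 ^ 10 ≤ Real.pi * (14 / 5) * (8 * mm ^ 2 / 4 - mm) :=
      pi_mul_ge (by norm_num) (by linarith) (by norm_num; linarith)
    refine (Real.exp_le_exp.2 (neg_le_neg h0)).trans ?_
    exact negexp (s := 2865551548105 / 10 ^ 12) (by norm_num) (by norm_num)
      (by norm_num [Finset.sum_range_succ, Nat.factorial]) (by norm_num) (by norm_num)
  have h11 : Real.exp (-(Real.pi * (14 / 5) * (11 * mm ^ 2 / 4 - mm))) ≤ 2063 / 10 ^ 12 := by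
    have h0 : (200000000000 : ℝ) / 10 ^ 10 ≤ Real.pi * (14 / 5) * (11 * mm ^ 2 / 4 - mm) :=
      pi_mul_ge (by norm_num) (by linarith) (by norm_num; linarith)
    refine (Real.exp_le_exp.2 (neg_le_neg h0)).trans ?_
    exact negexp (s := 3490342957177 / 10 ^ 12) (by norm_num) (by norm_num)
      (by norm_num [Finset.sum_range_succ, Nat.factorial]) (by norm_num) (by norm_num)
  have h12 : Real.exp (-(Real.pi * (14 / 5) * (12 * mm ^ 2 / 4 - mm))) ≤ 2063 / 10 ^ 12 := by
    have h0 : (200000000000 : ℝ) / 10 ^ 10 ≤ Real.pi * (14 / 5) * (12 * mm ^ 2 / 4 - mm) :=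
      pi_mul_ge (by norm_num) (by linarith) (by norm_num; linarith)
    refine (Real.exp_le_exp.2 (neg_le_neg h0)).trans ?_
    exact negexp (s := 3490342957177 / 10 ^ 12) (by norm_num) (by norm_num)
      (by norm_num [Finset.sum_range_succ, Nat.factorial]) (by norm_num) (by norm_num)
  have hK : Real.exp (-(Real.pi * (14 / 5) * (16 * mm ^ 2 / 4 - mm) - 8 / 3)) ≤ 2063 / 10 ^ 12 := by
    have h0 : (200000000000 : ℝ) / 10 ^ 10 ≤ Real.pi * (14 / 5) * (16 * mm ^ 2 / 4 - mm) - 8 / 3 := by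
      have h1 : (200000000000 : ℝ) / 10 ^ 10 + 8 / 3 ≤ Real.pi * (14 / 5) * (16 * mm ^ 2 / 4 - mm) :=
        pi_mul_ge (by norm_num) (by linarith) (by norm_num; linarith)
      linarith
    refine (Real.exp_le_exp.2 (neg_le_neg h0)).trans ?_
    exact negexp (s := 3490342957177 / 10 ^ 12) (by norm_num) (by norm_num)
      (by norm_num [Finset.sum_range_succ, Nat.factorial]) (by norm_num) (by norm_num)
  refine (rb_le (by norm_num) h3 h4 h8 h11 h12 hK).trans ?_
  norm_num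

lemma rfb9 : RF (7 / 2) ≤ 1200011 / 100000 := by
  obtain ⟨m1, m2⟩ := mm_b
  have hp := pi_mm
  have h0 : (138535555005 : ℝ) / 10 ^ 10 ≤ Real.pi * (7 / 2) * mm :=
    pi_mul_ge (by norm_num) (by linarith) (by norm_num at m1 ⊢; linarith)
  have e : 2 * al * (7 / 2) = Real.pi * (7 / 2) * mm := by rw [← hp]; ring
  have hy : Real.exp (-(2 * al * (7 / 2))) ≤ 962671 / 10 ^ 12 := by
    rw [e]
    refine (Real.exp_le_exp.2 (neg_le_neg h0)).trans ?_
    exact negexp (s := 2377019088343 / 10 ^ 12) (by norm_num) (by norm_num)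
      (by norm_num [Finset.sum_range_succ, Nat.factorial]) (by norm_num) (by norm_num)
  have hK : Real.exp (-(8 * al * (7 / 2) - 5 / 2)) ≤ 2063 / 10 ^ 12 := by
    have h1 : (200000000000 : ℝ) / 10 ^ 10 ≤ 8 * al * (7 / 2) - 5 / 2 := by
      have h2 : (200000000000 : ℝ) / 10 ^ 10 ≤ 4 * (138535555006 / 10 ^ 10) - 5 / 2 + 1 / 10 ^ 8 := by norm_num
      have h3 : 8 * al * (7 / 2) = 4 * (Real.pi * (7 / 2) * mm) := by rw [← e]; ring
      have h4 : (200000000000 : ℝ) / 10 ^ 10 + 5 / 2 ≤ 4 * (Real.pi * (7 / 2) * mm) := by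
        have h5 : ((200000000000 : ℝ) / 10 ^ 10 + 5 / 2) / 4 ≤ Real.pi * (7 / 2) * mm :=
          pi_mul_ge (by norm_num) (by linarith) (by norm_num at m1 ⊢; linarith)
        linarith
      linarith
    refine (Real.exp_le_exp.2 (neg_le_neg h1)).trans ?_
    exact negexp (s := 3490342957177 / 10 ^ 12) (by norm_num) (by norm_num)
      (by norm_num [Finset.sum_range_succ, Nat.factorial]) (by norm_num) (by norm_num)
  refine (rf_le (by norm_num) hy hK).trans ?_
  norm_num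

lemma rbb9 : RB (7 / 2) ≤ 21647 / 1250 := by
  obtain ⟨m1, m2⟩ := mm_b
  obtain ⟨m3, m4⟩ := mmsq
  norm_num at m1 m2 m3 m4
  have h3 : Real.exp (Real.pi * (7 / 2) * (mm - 3 * mm ^ 2 / 4)) ≤ 2144198574 / 10 ^ 9 := by
    have h0 : Real.pi * (7 / 2) * (mm - 3 * mm ^ 2 / 4) ≤ 762765857280 / 10 ^ 12 :=
      pi_mul_le (by norm_num) (by linarith) (by norm_num; linarith)
    refine (Real.exp_le_exp.2 h0).trans ?_
    refine exp_ub (s := 1048827492149 / 10 ^ 12) (by norm_num) (by norm_num) ?_ ?_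
    · norm_num [Finset.sum_range_succ, Nat.factorial]
    · norm_num
  have h4 : Real.exp (-(Real.pi * (7 / 2) * (4 * mm ^ 2 / 4 - mm))) ≤ 27301034320 / 10 ^ 12 := by
    have h0 : (36008306904 : ℝ) / 10 ^ 10 ≤ Real.pi * (7 / 2) * (4 * mm ^ 2 / 4 - mm) :=
      pi_mul_ge (by norm_num) (by linarith) (by norm_num; linarith)
    refine (Real.exp_le_exp.2 (neg_le_neg h0)).trans ?_
    exact negexp (s := 1252387736158 / 10 ^ 12) (by norm_num) (by norm_num)
      (by norm_num [Finset.sum_range_succ, Nat.factorial]) (by norm_num) (by norm_num)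
  have h8 : Real.exp (-(Real.pi * (7 / 2) * (8 * mm ^ 2 / 4 - mm))) ≤ 2063 / 10 ^ 12 := by
    have h0 : (200000000000 : ℝ) / 10 ^ 10 ≤ Real.pi * (7 / 2) * (8 * mm ^ 2 / 4 - mm) :=
      pi_mul_ge (by norm_num) (by linarith) (by norm_num; linarith)
    refine (Real.exp_le_exp.2 (neg_le_neg h0)).trans ?_
    exact negexp (s := 3490342957177 / 10 ^ 12) (by norm_num) (by norm_num)
      (by norm_num [Finset.sum_range_succ, Nat.factorial]) (by norm_num) (by norm_num)
  have h11 : Real.exp (-(Real.pi * (7 / 2) * (11 * mm ^ 2 / 4 - mm))) ≤ 2063 / 10 ^ 12 := by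
    have h0 : (200000000000 : ℝ) / 10 ^ 10 ≤ Real.pi * (7 / 2) * (11 * mm ^ 2 / 4 - mm) :=
      pi_mul_ge (by norm_num) (by linarith) (by norm_num; linarith)
    refine (Real.exp_le_exp.2 (neg_le_neg h0)).trans ?_
    exact negexp (s := 3490342957177 / 10 ^ 12) (by norm_num) (by norm_num)
      (by norm_num [Finset.sum_range_succ, Nat.factorial]) (by norm_num) (by norm_num)
  have h12 : Real.exp (-(Real.pi * (7 / 2) * (12 * mm ^ 2 / 4 - mm))) ≤ 2063 / 10 ^ 12 := by
    have h0 : (200000000000 : ℝ) / 10 ^ 10 ≤ Real.pi * (7 / 2) * (12 * mm ^ 2 / 4 - mm) :=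
      pi_mul_ge (by norm_num) (by linarith) (by norm_num; linarith)
    refine (Real.exp_le_exp.2 (neg_le_neg h0)).trans ?_
    exact negexp (s := 3490342957177 / 10 ^ 12) (by norm_num) (by norm_num)
      (by norm_num [Finset.sum_range_succ, Nat.factorial]) (by norm_num) (by norm_num)
  have hK : Real.exp (-(Real.pi * (7 / 2) * (16 * mm ^ 2 / 4 - mm) - 8 / 3)) ≤ 2063 / 10 ^ 12 := by
    have h0 : (200000000000 : ℝ) / 10 ^ 10 ≤ Real.pi * (7 / 2) * (16 * mm ^ 2 / 4 - mm) - 8 / 3 := by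
      have h1 : (200000000000 : ℝ) / 10 ^ 10 + 8 / 3 ≤ Real.pi * (7 / 2) * (16 * mm ^ 2 / 4 - mm) :=
        pi_mul_ge (by norm_num) (by linarith) (by norm_num; linarith)
      linarith
    refine (Real.exp_le_exp.2 (neg_le_neg h0)).trans ?_
    exact negexp (s := 3490342957177 / 10 ^ 12) (by norm_num) (by norm_num)
      (by norm_num [Finset.sum_range_succ, Nat.factorial]) (by norm_num) (by norm_num)
  refine (rb_le (by norm_num) h3 h4 h8 h11 h12 hK).trans ?_
  norm_num

end Pool.Agent.U316.Ep
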