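import Pool.Agent.U316.Th.Fin
import Pool.Agent.U316.Ep.Go
import Pool.Agent.U316.Ep.RFB
import Pool.Agent.U316.Ep.EnvOK

/-!
# General facts on theta functions
-/

set_option autoImplicit false

open Matrix Pool.Agent.K1H99.FCC

namespace Pool.Agent.U316.Ep

open Pool.Agent.U316.Th

/-- the theta function is an invariant of the form -/
lemma rep_th {A : Matrix (Fin 3) (Fin 3) ℝ} {p q : Fin 6 → ℝ}
    (hp : Aᵀ * A = Qm p) (hq : Rep A q) (t : ℝ) : Th t q = Th t p := by
  obtain ⟨U, hU, e⟩ := hq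
  have hdt : dt q = dt p := by
    rw [← det_sq e, ← det_sq hp, Matrix.det_mul, rm_det, mul_pow]
    rcases Int.isUnit_iff.1 hU with h | h <;> rw [h] <;> norm_num
  have hr : rad q = rad p := by unfold rad; rw [hdt]
  unfold Th
  rw [← (uact U hU).tsum_eq (fun n : N0 => Real.exp (-(Real.pi * t * (qf p (rv n.1) / rad p))))]
  refine tsum_congr fun n => ?_
  show _ = Real.exp (-(Real.pi * t * (qf p (rv (U.mulVec n.1)) / rad p)))
  rw [← nsq_eq hp, ← nsq_mul_rm, nsq_eq e, hr]

/-- the face-centred cubic form minimises the theta function for `t > 1` -/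
theorem th_ge_F {p : Fin 6 → ℝ} (hp : PD p) {t : ℝ} (ht : 1 < t) : Th t Fp ≤ Th t p := by
  obtain ⟨A, hA, hd⟩ := hp
  obtain ⟨s1, d1, s2, d2, s3, d3, hrep, c1, c2, c3, c4, c5, c6, c7, c8⟩ := exists_reduced A hd
  have e := rep_th hA hrep t
  have hPD : PD (sd s1 d1 s2 d2 s3 d3) := (rep_energy hd hrep).1
  have hQ : Sg t (sd s1 d1 s2 d2 s3 d3) :=
    cone_all c1 c2 c7 c8 c3 c4 c5 c6 hPD t (by unfold Th.lv; exact ht.le) ht
  rcases hQ with h | ⟨c, hc, h⟩
  · rw [e] at h
    exact h.le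
  · rw [← e, h, th_smul _ hc PD_Fp]

lemma th_qd {p : Fin 6 → ℝ} (hp : PD p) (t : ℝ) :
    Th t (qd p) = ∑' n : N0, Real.exp (-(Real.pi * t * (af p (rv n.1) / rad p ^ 2))) := by
  unfold Th
  rw [← (uact MU MUu).tsum_eq
    (fun n : N0 => Real.exp (-(Real.pi * t * (af p (rv n.1) / rad p ^ 2))))]
  refine tsum_congr fun n => ?_
  rw [af_MU, rad_qd hp]

lemma th_qd_summable {p : Fin 6 → ℝ} (hp : PD p) {t : ℝ} (ht : 0 < t) :
    Summable fun n : N0 => Real.exp (-(Real.pi * t * (af p (rv n.1) / rad p ^ 2))) := by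
  have h1 := th_summable (PD_qd hp) ht
  refine ((uact MU MUu).summable_iff (f := fun n : N0 =>
    Real.exp (-(Real.pi * t * (af p (rv n.1) / rad p ^ 2))))).1 (h1.congr fun n => ?_)
  show _ = Real.exp (-(Real.pi * t * (af p (rv (uact MU MUu n).1) / rad p ^ 2)))
  rw [af_MU, rad_qd hp]

set_option maxRecDepth 10000 in
lemma X13_0 : ∀ s, sgv X13 s ≠ 0 := by decide

set_option maxRecDepth 10000 in
lemma X13_i : Function.Injective (sgv X13) := by decide

set_option maxRecDepth 10000 in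
lemma D13_0 : ∀ s, sgv D13 s ≠ 0 := by decide

set_option maxRecDepth 10000 in
lemma D13_i : Function.Injective (sgv D13) := by decide

lemma th_ge13 {p : Fin 6 → ℝ} (hp : PD p) {t : ℝ} (ht : 0 < t) :
    2 * ∑ i, Real.exp (-(Real.pi * t * (qf p (rv (X13 i)) / rad p))) ≤ Th t p :=
  (th_gt hp ht).le

lemma thq_ge13 {p : Fin 6 → ℝ} (hp : PD p) {t : ℝ} (ht : 0 < t) :
    2 * ∑ i, Real.exp (-(Real.pi * t * (af p (rv (D13 i)) / rad p ^ 2))) ≤ Th t (qd p) := by
  rw [th_qd hp]
  exact two_sum_le D13 D13_0 D13_i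
    (fun n => Real.exp (-(Real.pi * t * (af p (rv n) / rad p ^ 2))))
    (fun n => by simp only [af_neg]) (fun n => (Real.exp_pos _).le) (th_qd_summable hp ht)

/-- no vector of the body-centred cubic lattice is shorter than the minimal ones -/
lemma nz_JH_ge (n : N0) : 3 ≤ nz (JH n) := by
  by_contra hc
  push Not at hc
  have hm := JH_mem n (by omega)
  have h0 := nz_JH_ne n
  have hcard := SH_card (nz (JH n)) (by omega)
  have h1 : (SH.filter fun c => nz c = nz (JH n)).card = 0 := by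
    rw [hcard]
    have a3 : nz (JH n) ≠ 3 := by omega
    have a4 : nz (JH n) ≠ 4 := by omega
    have a8 : nz (JH n) ≠ 8 := by omega
    have a11 : nz (JH n) ≠ 11 := by omega
    have a12 : nz (JH n) ≠ 12 := by omega
    simp [a3, a4, a8, a11, a12]
  rw [Finset.card_eq_zero] at h1
  have h2 : JH n ∈ SH.filter fun c => nz c = nz (JH n) := Finset.mem_filter.2 ⟨hm, rfl⟩
  rw [h1] at h2
  exact absurd h2 (Finset.notMem_empty _)

lemma pi_mB : Real.pi * mB = 3 * be := by
  rw [be_eq]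
  unfold mB
  ring

lemma thB_summable {t : ℝ} (ht : 0 < t) :
    Summable fun n : N0 => Real.exp (-(be * t * (nz (JH n) : ℝ))) := by
  have h2 : Th t Bp ≠ 0 := (th_pos PD_Bp ht).ne'
  rw [th_Bp_sum ht] at h2
  by_contra hc
  exact h2 (tsum_eq_zero_of_not_summable hc)

/-- decay of the theta function of the body-centred cubic lattice -/
lemma thB_decay {a t : ℝ} (ha : 0 < a) (hat : a ≤ t) :
    Th t Bp ≤ Real.exp (-(Real.pi * (t - a) * mB)) * Th a Bp := by
  have ht : 0 < t := ha.trans_le hat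
  rw [th_Bp_sum ht, th_Bp_sum ha, ← tsum_mul_left]
  refine (thB_summable ht).tsum_le_tsum (fun n => ?_) ((thB_summable ha).mul_left _)
  rw [← Real.exp_add, Real.exp_le_exp]
  have h3 : (3:ℝ) ≤ nz (JH n) := by exact_mod_cast nz_JH_ge n
  have hb := be_pos
  have e : Real.pi * (t - a) * mB = 3 * be * (t - a) := by rw [← pi_mB]; ring
  rw [e]
  have : 0 ≤ be * (t - a) * ((nz (JH n) : ℝ) - 3) :=
    mul_nonneg (mul_nonneg hb.le (by linarith)) (by linarith)
  nlinarith

end Pool.Agent.U316.Ep
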