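import Pool.Agent.U316.Ep.Tabs

/-!
# Certificates in pieces
-/

set_option autoImplicit false

open Pool.Agent.K1H99.FCC

namespace Pool.Agent.U316.Ep

/-- joins the pieces (of `4096` bits each) of a code -/
noncomputable def jn (cs : List Nat) : Nat :=
  List.rec (motive := fun _ => Nat) 0 (fun c _ ih => Nat.add c (Nat.shiftLeft ih 4096)) cs

/-- the check of a chunk whose code is given in pieces -/
noncomputable def cckj (k : Nat) (V : List Nat) (cs : List Nat) : Bool :=
  frc (jn cs) fun code => cck k V code

end Pool.Agent.U316.Ep
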