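import Pool.Agent.U316.Ep.Snd
import Pool.Agent.U316.Th.Base

/-!
# Soundness of the packed arithmetic
-/

set_option autoImplicit false

open Matrix Pool.Agent.K1H99.FCC

namespace Pool.Agent.U316.Ep

/-- intercept of a line -/
def lA (T i : ℕ) : ℕ := lk T i / 4294967296

/-- slope of a line -/
def lB (T i : ℕ) : ℕ := lk T i % 4294967296

lemma lB_lt (T i : ℕ) : lB T i < 2 ^ 32 := Nat.mod_lt _ (by norm_num)

/-- the accumulated lines -/
lemma acc_spec (T0 T1 : ℕ) (k : ℕ → ℕ → ℕ → ℕ → Bool) (L : List ℕ) :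
    ∀ (t A0 P0 A1 P1 : ℕ), acc T0 T1 k L t A0 P0 A1 P1 = true →
    ∃ i0 i1 : ℕ → ℕ, (∀ n, i1 n = 1023 → i0 n = 1023) ∧
      k (A0 + ∑ n ∈ Finset.range L.length, lA T0 (i0 n))
        (P0 + ∑ n ∈ Finset.range L.length, L.getD n 0 * lB T0 (i0 n))
        (A1 + ∑ n ∈ Finset.range L.length, lA T1 (i1 n))
        (P1 + ∑ n ∈ Finset.range L.length, L.getD n 0 * lB T1 (i1 n)) = true := by
  induction L with
  | nil =>
    intro t A0 P0 A1 P1 h
    refine ⟨fun _ => 1023, fun _ => 1023, fun _ _ => rfl, ?_⟩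
    simp only [List.length_nil, Finset.range_zero, Finset.sum_empty, add_zero]
    exact h
  | cons K L ih =>
    intro t A0 P0 A1 P1 h
    change (bif Nat.beq (Nat.mod (Nat.div t 1024) 1024) 1023 && !(Nat.beq (Nat.mod t 1024) 1023)
      then false else frc (Nat.div t 1048576) fun t' =>
        frc (lk T0 (Nat.mod t 1024)) fun x0 =>
        frc (lk T1 (Nat.mod (Nat.div t 1024) 1024)) fun x1 => acc T0 T1 k L t'
        (Nat.add A0 (Nat.div x0 4294967296))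
        (Nat.add P0 (Nat.mul K (Nat.mod x0 4294967296)))
        (Nat.add A1 (Nat.div x1 4294967296))
        (Nat.add P1 (Nat.mul K (Nat.mod x1 4294967296)))) = true at h
    simp only [frc_eq] at h
    generalize hi0 : Nat.mod t 1024 = a0 at h
    generalize hi1 : Nat.mod (Nat.div t 1024) 1024 = a1 at h
    cases hb : (Nat.beq a1 1023 && !(Nat.beq a0 1023)) with
    | true => rw [hb] at h; exact absurd h (by simp)
    | false =>
      rw [hb] at h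
      have hd : a1 = 1023 → a0 = 1023 := by
        intro e
        by_contra h0
        have e1 : Nat.beq a1 1023 = true := by rw [e]; rfl
        have e2 : Nat.beq a0 1023 = false := by
          cases h3 : Nat.beq a0 1023 with
          | false => rfl
          | true => exact absurd (Nat.eq_of_beq_eq_true h3) h0
        rw [e1, e2] at hb
        exact absurd hb (by simp)
      obtain ⟨i0, i1, h1, h2⟩ := ih _ _ _ _ _ h
      refine ⟨fun n => Nat.casesOn n a0 i0, fun n => Nat.casesOn n a1 i1, ?_, ?_⟩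
      · intro n
        cases n with
        | zero => exact hd
        | succ n => exact h1 n
      · simp only [List.length_cons, Finset.sum_range_succ']
        have e0 : ∀ n, (K :: L).getD (n + 1) 0 = L.getD n 0 := fun n => rfl
        have e1 : (K :: L).getD 0 0 = K := rfl
        simp only [e0, e1]
        have q0 : A0 + (∑ n ∈ Finset.range L.length, lA T0 (i0 n) + lA T0 a0) =
            Nat.add A0 (Nat.div (lk T0 a0) 4294967296) +
              ∑ n ∈ Finset.range L.length, lA T0 (i0 n) := by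
          show _ = A0 + lA T0 a0 + _
          ring
        have q1 : P0 + (∑ n ∈ Finset.range L.length, L.getD n 0 * lB T0 (i0 n) + K * lB T0 a0) =
            Nat.add P0 (Nat.mul K (Nat.mod (lk T0 a0) 4294967296)) +
              ∑ n ∈ Finset.range L.length, L.getD n 0 * lB T0 (i0 n) := by
          show _ = P0 + K * lB T0 a0 + _
          ring
        have q2 : A1 + (∑ n ∈ Finset.range L.length, lA T1 (i1 n) + lA T1 a1) =
            Nat.add A1 (Nat.div (lk T1 a1) 4294967296) +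
              ∑ n ∈ Finset.range L.length, lA T1 (i1 n) := by
          show _ = A1 + lA T1 a1 + _
          ring
        have q3 : P1 + (∑ n ∈ Finset.range L.length, L.getD n 0 * lB T1 (i1 n) + K * lB T1 a1) =
            Nat.add P1 (Nat.mul K (Nat.mod (lk T1 a1) 4294967296)) +
              ∑ n ∈ Finset.range L.length, L.getD n 0 * lB T1 (i1 n) := by
          show _ = P1 + K * lB T1 a1 + _
          ring
        change k (A0 + (∑ n ∈ Finset.range L.length, lA T0 (i0 n) + lA T0 a0))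
          (P0 + (∑ n ∈ Finset.range L.length, L.getD n 0 * lB T0 (i0 n) + K * lB T0 a0))
          (A1 + (∑ n ∈ Finset.range L.length, lA T1 (i1 n) + lA T1 a1))
          (P1 + (∑ n ∈ Finset.range L.length, L.getD n 0 * lB T1 (i1 n) + K * lB T1 a1)) = true
        rw [q0, q1, q2, q3]
        exact h2

/-- the middle digit of a product -/
lemma conv7 {Y : ℕ} (a b : Fin 7 → ℕ) {α β : ℕ} (ha : ∀ i, a i ≤ α) (hb : ∀ i, b i ≤ β)
    (h : 7 * (α * β) < Y) :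
    (∑ f : Fin 7, a f * Y ^ (6 - f.val)) * (∑ f : Fin 7, b f * Y ^ f.val) / Y ^ 6 % Y =
      ∑ f : Fin 7, a f * b f := by
  have m : ∀ i j, a i * b j ≤ α * β := fun i j => Nat.mul_le_mul (ha i) (hb j)
  have m00 := m 0 0; have m11 := m 1 1; have m22 := m 2 2; have m33 := m 3 3
  have m44 := m 4 4; have m55 := m 5 5; have m66 := m 6 6
  have m60 := m 6 0; have m50 := m 5 0; have m61 := m 6 1
  have m40 := m 4 0; have m51 := m 5 1; have m62 := m 6 2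
  have m30 := m 3 0; have m41 := m 4 1; have m52 := m 5 2; have m63 := m 6 3
  have m20 := m 2 0; have m31 := m 3 1; have m42 := m 4 2; have m53 := m 5 3; have m64 := m 6 4
  have m10 := m 1 0; have m21 := m 2 1; have m32 := m 3 2; have m43 := m 4 3; have m54 := m 5 4
  have m65 := m 6 5
  simp only [Fin.sum_univ_succ, Fin.sum_univ_zero, Fin.val_zero, Fin.val_succ, add_zero,
    Nat.sub_zero, zero_add, Nat.reduceAdd, Nat.reduceSub, pow_zero, mul_one, pow_one]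
  change (a 0 * Y ^ 6 + (a 1 * Y ^ 5 + (a 2 * Y ^ 4 + (a 3 * Y ^ 3 + (a 4 * Y ^ 2 +
    (a 5 * Y + a 6)))))) * (b 0 + (b 1 * Y + (b 2 * Y ^ 2 + (b 3 * Y ^ 3 + (b 4 * Y ^ 4 +
    (b 5 * Y ^ 5 + b 6 * Y ^ 6)))))) / Y ^ 6 % Y = a 0 * b 0 + (a 1 * b 1 + (a 2 * b 2 +
    (a 3 * b 3 + (a 4 * b 4 + (a 5 * b 5 + a 6 * b 6)))))
  generalize α * β = M at *
  clear m ha hb
  have e : (a 0 * Y ^ 6 + (a 1 * Y ^ 5 + (a 2 * Y ^ 4 + (a 3 * Y ^ 3 + (a 4 * Y ^ 2 +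
      (a 5 * Y + a 6)))))) * (b 0 + (b 1 * Y + (b 2 * Y ^ 2 + (b 3 * Y ^ 3 + (b 4 * Y ^ 4 +
      (b 5 * Y ^ 5 + b 6 * Y ^ 6)))))) =
      ((a 6 * b 0) + Y * ((a 5 * b 0 + a 6 * b 1) + Y * ((a 4 * b 0 + a 5 * b 1 + a 6 * b 2) +
        Y * ((a 3 * b 0 + a 4 * b 1 + a 5 * b 2 + a 6 * b 3) + Y * ((a 2 * b 0 + a 3 * b 1 +
        a 4 * b 2 + a 5 * b 3 + a 6 * b 4) + Y * (a 1 * b 0 + a 2 * b 1 + a 3 * b 2 + a 4 * b 3 +
        a 5 * b 4 + a 6 * b 5)))))) +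
      Y ^ 6 * ((a 0 * b 0 + (a 1 * b 1 + (a 2 * b 2 + (a 3 * b 3 + (a 4 * b 4 + (a 5 * b 5 +
        a 6 * b 6)))))) + Y * ((a 0 * b 1 + a 1 * b 2 + a 2 * b 3 + a 3 * b 4 + a 4 * b 5 +
        a 5 * b 6) + Y * ((a 0 * b 2 + a 1 * b 3 + a 2 * b 4 + a 3 * b 5 + a 4 * b 6) + Y * ((a 0 *
        b 3 + a 1 * b 4 + a 2 * b 5 + a 3 * b 6) + Y * ((a 0 * b 4 + a 1 * b 5 + a 2 * b 6) + Y *
        ((a 0 * b 5 + a 1 * b 6) + Y * (a 0 * b 6))))))) := by ring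
  rw [e]
  generalize (a 0 * b 1 + a 1 * b 2 + a 2 * b 3 + a 3 * b 4 + a 4 * b 5 +
        a 5 * b 6) + Y * ((a 0 * b 2 + a 1 * b 3 + a 2 * b 4 + a 3 * b 5 + a 4 * b 6) + Y * ((a 0 *
        b 3 + a 1 * b 4 + a 2 * b 5 + a 3 * b 6) + Y * ((a 0 * b 4 + a 1 * b 5 + a 2 * b 6) + Y *
        ((a 0 * b 5 + a 1 * b 6) + Y * (a 0 * b 6))))) = H
  have c6 : a 0 * b 0 + (a 1 * b 1 + (a 2 * b 2 + (a 3 * b 3 + (a 4 * b 4 + (a 5 * b 5 +
    a 6 * b 6))))) < Y := by omega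
  have c0 : a 6 * b 0 + 1 ≤ Y := by omega
  have c1 : a 5 * b 0 + a 6 * b 1 + 1 ≤ Y := by omega
  have c2 : a 4 * b 0 + a 5 * b 1 + a 6 * b 2 + 1 ≤ Y := by omega
  have c3 : a 3 * b 0 + a 4 * b 1 + a 5 * b 2 + a 6 * b 3 + 1 ≤ Y := by omega
  have c4 : a 2 * b 0 + a 3 * b 1 + a 4 * b 2 + a 5 * b 3 + a 6 * b 4 + 1 ≤ Y := by omega
  have c5 : a 1 * b 0 + a 2 * b 1 + a 3 * b 2 + a 4 * b 3 + a 5 * b 4 + a 6 * b 5 + 1 ≤ Y := by
    omega
  have hX : 0 < Y := by omega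
  clear m00 m11 m22 m33 m44 m55 m66 m60 m50 m61 m40 m51 m62 m30 m41 m52 m63 m20 m31 m42 m53 m64
    m10 m21 m32 m43 m54 m65 e h
  generalize a 6 * b 0 = d0 at *
  generalize a 5 * b 0 + a 6 * b 1 = d1 at *
  generalize a 4 * b 0 + a 5 * b 1 + a 6 * b 2 = d2 at *
  generalize a 3 * b 0 + a 4 * b 1 + a 5 * b 2 + a 6 * b 3 = d3 at *
  generalize a 2 * b 0 + a 3 * b 1 + a 4 * b 2 + a 5 * b 3 + a 6 * b 4 = d4 at *
  generalize a 1 * b 0 + a 2 * b 1 + a 3 * b 2 + a 4 * b 3 + a 5 * b 4 + a 6 * b 5 = d5 at *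
  generalize a 0 * b 0 + (a 1 * b 1 + (a 2 * b 2 + (a 3 * b 3 + (a 4 * b 4 + (a 5 * b 5 +
    a 6 * b 6))))) = d6 at *
  have st : ∀ d r n : ℕ, d + 1 ≤ Y → r < Y ^ n → d + Y * r < Y ^ (n + 1) := by
    intro d r n hd hr
    calc d + Y * r < Y + Y * r := by omega
      _ = Y * (r + 1) := by ring
      _ ≤ Y * Y ^ n := Nat.mul_le_mul_left _ hr
      _ = Y ^ (n + 1) := by ring
  have L : d0 + Y * (d1 + Y * (d2 + Y * (d3 + Y * (d4 + Y * d5)))) < Y ^ 6 :=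
    st _ _ 5 c0 (st _ _ 4 c1 (st _ _ 3 c2 (st _ _ 2 c3 (st _ _ 1 c4 (by rw [pow_one]; omega)))))
  rw [Nat.add_mul_div_left _ _ (pow_pos hX 6), Nat.div_eq_of_lt L, zero_add,
    Nat.add_mul_mod_self_left, Nat.mod_eq_of_lt c6]

/-- the seven digits of a vertex -/
def dW (W : ℕ) : Fin 7 → ℕ := ![gw W, cw W 0, cw W 1, cw W 2, cw W 3, cw W 4, cw W 5]

lemma dW_lt {W : ℕ} (h : Vd W) (i : Fin 7) : dW W i < 2 ^ 40 := by
  obtain ⟨h1, h2, _⟩ := h
  unfold dW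
  fin_cases i
  · exact h2
  · exact h1 0
  · exact h1 1
  · exact h1 2
  · exact h1 3
  · exact h1 4
  · exact h1 5

lemma W_eq (W : ℕ) : W = ∑ f : Fin 7, dW W f * XX ^ f.val := by
  have hW : W = gw W + XX * pk (cw W 0) (cw W 1) (cw W 2) (cw W 3) (cw W 4) (cw W 5) := by
    unfold cw gw
    rw [pk_dg, Nat.mod_add_div]
  conv_lhs => rw [hW]
  rw [pk_eq]
  simp only [Fin.sum_univ_succ, Fin.sum_univ_zero, Fin.val_zero, Fin.val_succ, add_zero,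
    zero_add, Nat.reduceAdd, pow_zero, mul_one, pow_one]
  change _ = gw W + (cw W 0 * XX + (cw W 1 * XX ^ 2 + (cw W 2 * XX ^ 3 + (cw W 3 * XX ^ 4 +
    (cw W 4 * XX ^ 5 + cw W 5 * XX ^ 6)))))
  ring

lemma XX_eq : XX = 2 ^ 128 := by unfold XX; norm_num

lemma gw_mod (W : ℕ) : gw W = W % XX := rfl

/-- the middle digit with a vertex -/
lemma mid_digit {a : Fin 7 → ℕ} {W : ℕ} (hW : Vd W) (ha : ∀ i, a i < 2 ^ 84) :
    Nat.mod (Nat.shiftRight (Nat.mul (∑ f : Fin 7, a f * XX ^ (6 - f.val)) W) 768) XX =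
      ∑ f : Fin 7, a f * dW W f := by
  have h := conv7 (Y := XX) a (dW W) (α := 2 ^ 84) (β := 2 ^ 40) (fun i => (ha i).le)
    (fun i => (dW_lt hW i).le) (by rw [XX_eq]; norm_num)
  rw [← W_eq] at h
  rw [← h]
  have e : ∀ x : ℕ, Nat.shiftRight x 768 = x / XX ^ 6 := by
    intro x
    show x >>> 768 = _
    rw [Nat.shiftRight_eq_div_pow, XX_eq, ← pow_mul]
  rw [e]
  rfl

/-- the digits of the product with the spread vector -/
lemma land_split {n a0 a1 c0 c1 : ℕ} (h : a0 < 2 ^ n) (h' : c0 < 2 ^ n) :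
    (2 ^ n * a1 + a0) &&& (2 ^ n * c1 + c0) = 2 ^ n * (a1 &&& c1) + (a0 &&& c0) := by
  apply Nat.eq_of_testBit_eq
  intro i
  have h2 : a0 &&& c0 < 2 ^ n := lt_of_le_of_lt Nat.and_le_left h
  rw [Nat.testBit_and, Nat.testBit_two_pow_mul_add _ h, Nat.testBit_two_pow_mul_add _ h',
    Nat.testBit_two_pow_mul_add _ h2]
  by_cases hi : i < n
  · simp [hi, Nat.testBit_and]
  · simp [hi, Nat.testBit_and]

lemma land_mask (W a b : ℕ) : W &&& ((2 ^ a - 1) * 2 ^ b) = W / 2 ^ b % 2 ^ a * 2 ^ b := by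
  apply Nat.eq_of_testBit_eq
  intro i
  rw [Nat.testBit_and, Nat.testBit_mul_two_pow, Nat.testBit_mul_two_pow,
    Nat.testBit_two_pow_sub_one, Nat.testBit_mod_two_pow, Nat.testBit_div_two_pow]
  by_cases hi : b ≤ i
  · have : i - b + b = i := by omega
    simp [hi, this, Bool.and_comm]
  · simp [hi]

lemma dW_div {W : ℕ} (hW : Vd W) (j : Fin 7) : W / XX ^ j.val % XX = dW W j := by
  have h := conv7 (Y := XX) (fun f => if f = j then 1 else 0) (dW W) (α := 1) (β := 2 ^ 40)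
    (fun i => by split <;> norm_num)
    (fun i => (dW_lt hW i).le) (by rw [XX_eq]; norm_num)
  simp only [ite_mul, one_mul, zero_mul, Finset.sum_ite_eq', Finset.mem_univ, if_true] at h
  rw [← W_eq] at h
  rw [← h]
  congr 1
  have e : XX ^ 6 = XX ^ (6 - j.val) * XX ^ j.val := by
    rw [← pow_add]
    congr 1
    have := j.2
    omega
  rw [e, Nat.mul_div_mul_left]
  exact pow_pos (by unfold XX; norm_num) _

lemma W_lt {W : ℕ} (hW : Vd W) : W < 2 ^ 1536 := by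
  have h0 := dW_lt hW 0; have h1 := dW_lt hW 1; have h2 := dW_lt hW 2; have h3 := dW_lt hW 3
  have h4 := dW_lt hW 4; have h5 := dW_lt hW 5; have h6 := dW_lt hW 6
  have e := W_eq W
  simp only [Fin.sum_univ_succ, Fin.sum_univ_zero, Fin.val_zero, Fin.val_succ, add_zero,
    zero_add, Nat.reduceAdd, pow_zero, mul_one, pow_one] at e
  change W = dW W 0 + (dW W 1 * XX + (dW W 2 * XX ^ 2 + (dW W 3 * XX ^ 3 + (dW W 4 * XX ^ 4 +
    (dW W 5 * XX ^ 5 + dW W 6 * XX ^ 6))))) at e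
  rw [e, XX_eq]
  generalize dW W 0 = d0 at *
  generalize dW W 1 = d1 at *
  generalize dW W 2 = d2 at *
  generalize dW W 3 = d3 at *
  generalize dW W 4 = d4 at *
  generalize dW W 5 = d5 at *
  generalize dW W 6 = d6 at *
  clear e hW
  have k1 : d1 * 2 ^ 128 ≤ 2 ^ 40 * 2 ^ 128 := Nat.mul_le_mul_right _ h1.le
  have k2 : d2 * (2 ^ 128) ^ 2 ≤ 2 ^ 40 * (2 ^ 128) ^ 2 := Nat.mul_le_mul_right _ h2.le
  have k3 : d3 * (2 ^ 128) ^ 3 ≤ 2 ^ 40 * (2 ^ 128) ^ 3 := Nat.mul_le_mul_right _ h3.le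
  have k4 : d4 * (2 ^ 128) ^ 4 ≤ 2 ^ 40 * (2 ^ 128) ^ 4 := Nat.mul_le_mul_right _ h4.le
  have k5 : d5 * (2 ^ 128) ^ 5 ≤ 2 ^ 40 * (2 ^ 128) ^ 5 := Nat.mul_le_mul_right _ h5.le
  have k6 : d6 * (2 ^ 128) ^ 6 ≤ 2 ^ 40 * (2 ^ 128) ^ 6 := Nat.mul_le_mul_right _ h6.le
  calc _ ≤ 2 ^ 40 + (2 ^ 40 * 2 ^ 128 + (2 ^ 40 * (2 ^ 128) ^ 2 + (2 ^ 40 * (2 ^ 128) ^ 3 +
      (2 ^ 40 * (2 ^ 128) ^ 4 + (2 ^ 40 * (2 ^ 128) ^ 5 + 2 ^ 40 * (2 ^ 128) ^ 6))))) := by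
        gcongr
    _ < _ := by decide +kernel

lemma spr_eq {W : ℕ} (hW : Vd W) : spr W = ∑ f : Fin 7, dW W f * (XX ^ 13) ^ f.val := by
  have hlt := W_lt hW
  have hd : ∀ j : Fin 7, W &&& ((2 ^ 128 - 1) * 2 ^ (128 * j.val)) =
      dW W j * 2 ^ (128 * j.val) := by
    intro j
    rw [land_mask]
    have := dW_div hW j
    rw [XX_eq, ← pow_mul] at this
    rw [this]
  have mlt : ∀ j, j < 7 → (2 ^ 128 - 1) * 2 ^ (128 * j) < 2 ^ 1536 := by decide +kernel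
  have step : ∀ j : Fin 7, ∀ a c : ℕ, (2 ^ 1536 * a + W) &&&
      (2 ^ 1536 * c + (2 ^ 128 - 1) * 2 ^ (128 * j.val)) =
      2 ^ 1536 * (a &&& c) + dW W j * 2 ^ (128 * j.val) := by
    intro j a c
    rw [land_split hlt (mlt j.val j.2), hd]
  unfold spr
  have e1 : ∀ R : ℕ, R = 2 ^ 1536 * (2 ^ 1536 * (2 ^ 1536 * (2 ^ 1536 * (2 ^ 1536 *
      (2 ^ 1536 * 1 + 1) + 1) + 1) + 1) + 1) + 1 → Nat.mul W R = 2 ^ 1536 * (2 ^ 1536 *
      (2 ^ 1536 * (2 ^ 1536 * (2 ^ 1536 * (2 ^ 1536 * W + W) + W) + W) + W) + W) + W := by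
    intro R hR
    show W * R = _
    rw [hR]
    generalize 2 ^ 1536 = Z
    ring
  rw [e1 _ (by decide +kernel)]
  have e2 : ∀ R : ℕ, R = 2 ^ 1536 * (2 ^ 1536 * (2 ^ 1536 * (2 ^ 1536 * (2 ^ 1536 *
      (2 ^ 1536 * ((2 ^ 128 - 1) * 2 ^ (128 * (6 : Fin 7).val)) + (2 ^ 128 - 1) *
      2 ^ (128 * (5 : Fin 7).val)) + (2 ^ 128 - 1) * 2 ^ (128 * (4 : Fin 7).val)) +
      (2 ^ 128 - 1) * 2 ^ (128 * (3 : Fin 7).val)) + (2 ^ 128 - 1) * 2 ^ (128 * (2 : Fin 7).val)) +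
      (2 ^ 128 - 1) * 2 ^ (128 * (1 : Fin 7).val)) + (2 ^ 128 - 1) * 2 ^ (128 * (0 : Fin 7).val) →
      Nat.land (2 ^ 1536 * (2 ^ 1536 *
      (2 ^ 1536 * (2 ^ 1536 * (2 ^ 1536 * (2 ^ 1536 * W + W) + W) + W) + W) + W) + W) R =
      ∑ f : Fin 7, dW W f * (XX ^ 13) ^ f.val := by
    intro R hR
    show (2 ^ 1536 * (2 ^ 1536 *
      (2 ^ 1536 * (2 ^ 1536 * (2 ^ 1536 * (2 ^ 1536 * W + W) + W) + W) + W) + W) + W) &&& R = _
    rw [hR, step 0, step 1, step 2, step 3, step 4, step 5, hd 6]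
    simp only [Fin.sum_univ_succ, Fin.sum_univ_zero, Fin.val_zero, Fin.val_succ, add_zero,
      zero_add, Nat.reduceAdd, pow_zero, mul_one, pow_one]
    change 2 ^ 1536 * (2 ^ 1536 * (2 ^ 1536 * (2 ^ 1536 * (2 ^ 1536 * (2 ^ 1536 *
      (dW W 6 * 2 ^ (128 * 6)) + dW W 5 * 2 ^ (128 * 5)) + dW W 4 * 2 ^ (128 * 4)) +
      dW W 3 * 2 ^ (128 * 3)) + dW W 2 * 2 ^ (128 * 2)) + dW W 1 * 2 ^ (128 * 1)) +
      dW W 0 * 2 ^ (128 * 0) = dW W 0 + (dW W 1 * XX ^ 13 + (dW W 2 * (XX ^ 13) ^ 2 +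
      (dW W 3 * (XX ^ 13) ^ 3 + (dW W 4 * (XX ^ 13) ^ 4 + (dW W 5 * (XX ^ 13) ^ 5 +
      dW W 6 * (XX ^ 13) ^ 6)))))
    have h1 : (2:ℕ) ^ 1536 = XX ^ 12 := by rw [XX_eq, ← pow_mul]
    have h2 : ∀ j : ℕ, (2:ℕ) ^ (128 * j) = XX ^ j := by intro j; rw [XX_eq, ← pow_mul]
    simp only [h1, h2]
    generalize XX = X
    ring
  exact e2 _ (by decide +kernel)

end Pool.Agent.U316.Ep
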