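import Pool.Agent.U316.Ep.Sf

/-!
# The dual sum near the face-centred cubic form
-/

set_option autoImplicit false

open Matrix Pool.Agent.K1H99.FCC

namespace Pool.Agent.U316.Ep

open Pool.Agent.U316.Th (Th Bp PD_Bp qd PD_qd mm mm_pos FF FF_nonneg exp_FF FF_one)

/-- the second moment of the body-centred cubic lattice -/
noncomputable def HT (β : ℝ) : ℝ :=
  ∑' n : N0, (nz (JH n) : ℝ) * Real.exp (-(be * β * (nz (JH n) : ℝ)))

lemma ht_summable {β : ℝ} (hβ : 0 < β) :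
    Summable fun n : N0 => (nz (JH n) : ℝ) * Real.exp (-(be * β * (nz (JH n) : ℝ))) := by
  have hbe := be_pos
  have hab : 0 < be * β := mul_pos hbe hβ
  have hs := (thB_summable (half_pos hβ)).mul_left (2 / (be * β))
  refine Summable.of_nonneg_of_le (fun n => by positivity) (fun n => ?_) hs
  set m : ℝ := (nz (JH n) : ℝ) with hm
  have hm0 : 0 ≤ m := by rw [hm]; positivity
  have h1 : be * β / 2 * m ≤ Real.exp (be * β / 2 * m) := by
    have := Real.add_one_le_exp (be * β / 2 * m)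
    linarith
  have h2 : m ≤ 2 / (be * β) * Real.exp (be * β / 2 * m) := by
    rw [div_mul_eq_mul_div, le_div_iff₀ hab]
    linarith
  calc m * Real.exp (-(be * β * m))
      ≤ 2 / (be * β) * Real.exp (be * β / 2 * m) * Real.exp (-(be * β * m)) :=
        mul_le_mul_of_nonneg_right h2 (Real.exp_pos _).le
    _ = 2 / (be * β) * Real.exp (-(be * (β / 2) * m)) := by
        rw [mul_assoc, ← Real.exp_add]
        congr 2
        ring

lemma ht_nonneg (β : ℝ) : 0 ≤ HT β :=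
  tsum_nonneg fun _ => mul_nonneg (Nat.cast_nonneg _) (Real.exp_pos _).le

/-- upper bounds for the second moment -/
lemma ht_le {β Y Q3 Q4 : ℝ} (hβ : 1 ≤ β) (hY : Real.exp (-(2 * al * β)) ≤ Y)
    (h3 : Real.exp (2 * al * β - 3 * be * β) ≤ Q3)
    (h4 : Real.exp (-(4 * be * β - 2 * al * β)) ≤ Q4) :
    Real.exp (2 * al * β) * HT β ≤ 24 * Q3 + 24 * Q4 + 96 * (Y * Q4 ^ 2) +
      264 * (Q3 * Y ^ 2 * Q4 ^ 2) + 96 * (Y ^ 2 * Q4 ^ 3) + 80000 * (Y ^ 3 * Q4 ^ 4) := by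
  have hb0 : 0 < β := by linarith
  have hbe := be_bounds.1
  have hbe0 := be_pos
  have hbb : 12467418 / 10000000 ≤ be * β := by nlinarith
  obtain ⟨y, hy⟩ : ∃ y, y = Real.exp (-(2 * al * β)) := ⟨_, rfl⟩
  obtain ⟨q3, hq3⟩ : ∃ q3, q3 = Real.exp (2 * al * β - 3 * be * β) := ⟨_, rfl⟩
  obtain ⟨q4, hq4⟩ : ∃ q4, q4 = Real.exp (-(4 * be * β - 2 * al * β)) := ⟨_, rfl⟩
  have y0 : 0 < y := by rw [hy]; exact Real.exp_pos _
  have q30 : 0 < q3 := by rw [hq3]; exact Real.exp_pos _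
  have q40 : 0 < q4 := by rw [hq4]; exact Real.exp_pos _
  rw [← hy] at hY
  rw [← hq3] at h3
  rw [← hq4] at h4
  have e16 : Real.exp (2 * al * β - 16 * (be * β)) = y ^ 3 * q4 ^ 4 := by
    rw [hy, hq4, ← Real.exp_nat_mul, ← Real.exp_nat_mul, ← Real.exp_add]
    congr 1
    push_cast
    ring
  have e3 : Real.exp (2 * al * β - be * β * ((3 : ℕ) : ℝ)) = q3 := by
    rw [hq3]; congr 1; push_cast; ring
  have e4 : Real.exp (2 * al * β - be * β * ((4 : ℕ) : ℝ)) = q4 := by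
    rw [hq4]; congr 1; push_cast; ring
  have e8 : Real.exp (2 * al * β - be * β * ((8 : ℕ) : ℝ)) = y * q4 ^ 2 := by
    rw [hy, hq4, ← Real.exp_nat_mul, ← Real.exp_add]; congr 1; push_cast; ring
  have e11 : Real.exp (2 * al * β - be * β * ((11 : ℕ) : ℝ)) = q3 * y ^ 2 * q4 ^ 2 := by
    rw [hy, hq3, hq4, ← Real.exp_nat_mul, ← Real.exp_nat_mul, ← Real.exp_add, ← Real.exp_add]
    congr 1; push_cast; ring
  have e12 : Real.exp (2 * al * β - be * β * ((12 : ℕ) : ℝ)) = y ^ 2 * q4 ^ 3 := by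
    rw [hy, hq4, ← Real.exp_nat_mul, ← Real.exp_nat_mul, ← Real.exp_add]
    congr 1; push_cast; ring
  have e38 : Real.exp (8 / 3) ≤ 1442 / 100 := by
    refine exp_ub (s := 11813605 / 10 ^ 7) (by norm_num) (by norm_num) ?_ ?_
    · norm_num [Finset.sum_range_succ, Nat.factorial]
    · norm_num
  have hs : Summable fun n : N0 =>
      (nz (JH n) : ℝ) * Real.exp (2 * al * β - be * β * (nz (JH n) : ℝ)) := by
    refine ((ht_summable hb0).mul_left (Real.exp (2 * al * β))).congr fun n => ?_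
    have : Real.exp (2 * al * β - be * β * (nz (JH n) : ℝ)) =
        Real.exp (2 * al * β) * Real.exp (-(be * β * (nz (JH n) : ℝ))) := by
      rw [← Real.exp_add]; congr 1
    rw [this]
    ring
  have hE : Real.exp (2 * al * β) * HT β = ∑' n : N0,
      (nz (JH n) : ℝ) * Real.exp (2 * al * β - be * β * (nz (JH n) : ℝ)) := by
    unfold HT
    rw [← tsum_mul_left]
    refine tsum_congr fun n => ?_
    have : Real.exp (2 * al * β - be * β * (nz (JH n) : ℝ)) =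
        Real.exp (2 * al * β) * Real.exp (-(be * β * (nz (JH n) : ℝ))) := by
      rw [← Real.exp_add]; congr 1
    rw [this]
    ring
  rw [hE]
  have h := shell JH JH_inj SH 16 JH_mem
    (fun m : ℕ => (m : ℝ) * Real.exp (2 * al * β - be * β * (m : ℝ)))
    (fun m => by positivity) hs (K := 16 * (1442 / 100) * (y ^ 3 * q4 ^ 4)) (μ := 1 / 6)
    (by norm_num) (by positivity) (by
      intro m hm
      have hm' : (16:ℝ) ≤ m := by exact_mod_cast hm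
      have h1 : (m:ℝ) ≤ 16 * Real.exp ((m - 16) / 16) := by
        have := Real.add_one_le_exp (((m:ℝ) - 16) / 16)
        linarith
      have e : Real.exp ((m - 16) / 16) * Real.exp (2 * al * β - be * β * (m:ℝ)) =
          Real.exp (2 * al * β - 16 * (be * β)) * (Real.exp (8 / 3) *
          Real.exp (-((be * β - 1 / 6 - 1 / 16) * (m - 16)))) * Real.exp (-(1 / 6) * (m:ℝ)) := by
        rw [← Real.exp_add, ← Real.exp_add, ← Real.exp_add, ← Real.exp_add]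
        congr 1
        ring
      have h2 : Real.exp (-((be * β - 1 / 6 - 1 / 16) * ((m:ℝ) - 16))) ≤ 1 := by
        rw [Real.exp_le_one_iff]
        have : 0 ≤ (be * β - 1 / 6 - 1 / 16) * ((m:ℝ) - 16) :=
          mul_nonneg (by linarith) (by linarith)
        linarith
      calc (m:ℝ) * Real.exp (2 * al * β - be * β * (m:ℝ))
          ≤ 16 * Real.exp ((m - 16) / 16) * Real.exp (2 * al * β - be * β * (m:ℝ)) :=
          mul_le_mul_of_nonneg_right h1 (Real.exp_pos _).le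
        _ = 16 * (Real.exp (2 * al * β - 16 * (be * β)) * (Real.exp (8 / 3) *
          Real.exp (-((be * β - 1 / 6 - 1 / 16) * (m - 16)))) * Real.exp (-(1 / 6) * (m:ℝ))) := by
          rw [mul_assoc, e]
        _ ≤ 16 * (Real.exp (2 * al * β - 16 * (be * β)) * (1442 / 100 * 1) *
            Real.exp (-(1 / 6) * (m:ℝ))) := by
          gcongr
        _ = 16 * (1442 / 100) * (y ^ 3 * q4 ^ 4) * Real.exp (-(1 / 6) * (m:ℝ)) := by
          rw [e16]
          ring)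
  refine h.trans ?_
  rw [sum_SH (fun m : ℕ => (m : ℝ) * Real.exp (2 * al * β - be * β * (m : ℝ)))]
  rw [e3, e4, e8, e11, e12]
  have t := th6
  have Y0 : 0 ≤ Y := y0.le.trans hY
  have Q30 : 0 ≤ Q3 := q30.le.trans h3
  have Q40 : 0 ≤ Q4 := q40.le.trans h4
  have k1 : y * q4 ^ 2 ≤ Y * Q4 ^ 2 := by gcongr
  have k2 : q3 * y ^ 2 * q4 ^ 2 ≤ Q3 * Y ^ 2 * Q4 ^ 2 := by gcongr
  have k3 : y ^ 2 * q4 ^ 3 ≤ Y ^ 2 * Q4 ^ 3 := by gcongr
  have k4 : y ^ 3 * q4 ^ 4 ≤ Y ^ 3 * Q4 ^ 4 := by gcongr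
  have k0 : 0 < y ^ 3 * q4 ^ 4 := by positivity
  have k5 := mul_le_mul_of_nonneg_left t (show 0 ≤ 16 * (1442 / 100) * (y ^ 3 * q4 ^ 4) by positivity)
  push_cast
  refine le_trans (add_le_add le_rfl k5) ?_
  nlinarith

/-- the vectors of the second and the first dual shell -/
def Y7 : Fin 7 → Fin 3 → ℤ := ![![1, 1, -1], ![1, -1, 0], ![0, 0, 1], ![1, 0, 0], ![1, 0, -1],
  ![0, 1, 0], ![0, 1, -1]]

lemma Y7_0 : ∀ s, sgv Y7 s ≠ 0 := by decide
lemma Y7_i : Function.Injective (sgv Y7) := by decide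

/-- **The gain of the dual theta function near the face-centred cubic form** -/
theorem dual_gain {d1 d2 d3 w1 w2 w3 : ℝ} (hd : d1 + d2 + d3 = 0)
    (hp : PD (pp d1 d2 d3 w1 w2 w3)) {ρ : ℝ} (hρ : ρ = rad Fp / rad (pp d1 d2 d3 w1 w2 w3))
    {β τ α1 α2 α3 z0 z1 z2 z3 : ℝ} (hβ : 0 < β)
    (hτ : τ = ρ ^ 2 * (1 - ((d1 ^ 2 + d2 ^ 2 + d3 ^ 2) / 2 + (w1 ^ 2 + w2 ^ 2 + w3 ^ 2)) / 3) - 1)
    (hα1 : α1 = ρ ^ 2 * (1 - d1 + d2 * d3 - w1 ^ 2) - 1)
    (hα2 : α2 = ρ ^ 2 * (1 - d2 + d1 * d3 - w2 ^ 2) - 1)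
    (hα3 : α3 = ρ ^ 2 * (1 - d3 + d1 * d2 - w3 ^ 2) - 1)
    (hz0 : z0 = τ + 2 / 3 * (ρ ^ 2 * (w1 * w2 - w3 * (1 + d3)) +
      ρ ^ 2 * (w1 * w3 - w2 * (1 + d2)) + ρ ^ 2 * (w2 * w3 - w1 * (1 + d1))))
    (hz1 : z1 = τ + 2 / 3 * (ρ ^ 2 * (w1 * w2 - w3 * (1 + d3)) -
      ρ ^ 2 * (w1 * w3 - w2 * (1 + d2)) - ρ ^ 2 * (w2 * w3 - w1 * (1 + d1))))
    (hz2 : z2 = τ + 2 / 3 * (-(ρ ^ 2 * (w1 * w2 - w3 * (1 + d3))) +
      ρ ^ 2 * (w1 * w3 - w2 * (1 + d2)) - ρ ^ 2 * (w2 * w3 - w1 * (1 + d1))))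
    (hz3 : z3 = τ + 2 / 3 * (-(ρ ^ 2 * (w1 * w2 - w3 * (1 + d3))) -
      ρ ^ 2 * (w1 * w3 - w2 * (1 + d2)) + ρ ^ 2 * (w2 * w3 - w1 * (1 + d1)))) :
    2 * (Real.exp (-(4 * (be * β))) * (FF (4 * (be * β) * α1) + FF (4 * (be * β) * α2) +
        FF (4 * (be * β) * α3)) +
      Real.exp (-(3 * (be * β))) * (FF (3 * (be * β) * z0) + FF (3 * (be * β) * z1) +
        FF (3 * (be * β) * z2) + FF (3 * (be * β) * z3))) - τ * (be * β * HT β) ≤
    Th β (qd (pp d1 d2 d3 w1 w2 w3)) - Th β Bp := by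
  set p := pp d1 d2 d3 w1 w2 w3 with hpdef
  have hr : 0 < rad p := rad_pos (dt_pos hp)
  have hF := rad_Fp_pos
  have hbe := be_pos
  have hρ0 : 0 < ρ := by rw [hρ]; positivity
  have ha : ∀ m : Fin 3 → ℤ, Real.pi * β * (af p (rv m) / rad p ^ 2) =
      be * β * (ρ ^ 2 * af p (rv m)) := by
    intro m
    rw [hρ]
    unfold be
    field_simp
  have haF : ∀ m : Fin 3 → ℤ, Real.pi * β * (af Fp (rv m) / rad Fp ^ 2) =
      be * β * af Fp (rv m) := by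
    intro m
    unfold be
    field_simp
  have hTs : Summable fun n : N0 => (be * β * Real.exp (-(be * β * (ee n 0 ^ 2 + ee n 1 ^ 2 +
      ee n 2 ^ 2)))) * (ee n 0 ^ 2 + ee n 1 ^ 2 + ee n 2 ^ 2) := by
    refine ((ht_summable hβ).mul_left (be * β)).congr fun n => ?_
    rw [nz_JH]
    ring
  have hTv : ∑' n : N0, (be * β * Real.exp (-(be * β * (ee n 0 ^ 2 + ee n 1 ^ 2 +
      ee n 2 ^ 2)))) * (ee n 0 ^ 2 + ee n 1 ^ 2 + ee n 2 ^ 2) = be * β * HT β := by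
    unfold HT
    rw [← tsum_mul_left]
    refine tsum_congr fun n => ?_
    rw [nz_JH]
    ring
  have hsym := sym_sum (c := ee) (φ := fun x => be * β * Real.exp (-(be * β * x)))
    (uact M4 M4u) (uact M5 M5u) (uact M6 M6u) ee1 ee2 ee3 (fun n => by positivity) hTs
    (ρ ^ 2 * ((1 + d2) * (1 + d3) - w1 ^ 2) - 1) (ρ ^ 2 * ((1 + d1) * (1 + d3) - w2 ^ 2) - 1)
    (ρ ^ 2 * ((1 + d1) * (1 + d2) - w3 ^ 2) - 1) (ρ ^ 2 * (w1 * w2 - w3 * (1 + d3)))
    (ρ ^ 2 * (w1 * w3 - w2 * (1 + d2))) (ρ ^ 2 * (w2 * w3 - w1 * (1 + d1)))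
  have hterm : ∀ n : N0, (be * β * Real.exp (-(be * β * (ee n 0 ^ 2 + ee n 1 ^ 2 +
      ee n 2 ^ 2)))) *
      ((ρ ^ 2 * ((1 + d2) * (1 + d3) - w1 ^ 2) - 1) * ee n 0 ^ 2 +
      (ρ ^ 2 * ((1 + d1) * (1 + d3) - w2 ^ 2) - 1) * ee n 1 ^ 2 +
      (ρ ^ 2 * ((1 + d1) * (1 + d2) - w3 ^ 2) - 1) * ee n 2 ^ 2 +
      2 * (ρ ^ 2 * (w1 * w2 - w3 * (1 + d3))) * ee n 0 * ee n 1 +
      2 * (ρ ^ 2 * (w1 * w3 - w2 * (1 + d2))) * ee n 0 * ee n 2 +
      2 * (ρ ^ 2 * (w2 * w3 - w1 * (1 + d1))) * ee n 1 * ee n 2) =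
      (Real.pi * β * (af p (rv n.1) / rad p ^ 2) - Real.pi * β * (af Fp (rv n.1) / rad Fp ^ 2)) *
        Real.exp (-(Real.pi * β * (af Fp (rv n.1) / rad Fp ^ 2))) := by
    intro n
    rw [ha, haF, af_Fp, hpdef, af_pp]
    ring
  simp only [hterm] at hsym
  obtain ⟨hs3, he3⟩ := hsym
  have he3' : ∑' n : N0, (Real.pi * β * (af p (rv n.1) / rad p ^ 2) -
      Real.pi * β * (af Fp (rv n.1) / rad Fp ^ 2)) *
        Real.exp (-(Real.pi * β * (af Fp (rv n.1) / rad Fp ^ 2))) = τ * (be * β * HT β) := by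
    rw [he3, hTv]
    have : (ρ ^ 2 * ((1 + d2) * (1 + d3) - w1 ^ 2) - 1 + (ρ ^ 2 * ((1 + d1) * (1 + d3) - w2 ^ 2) -
        1) + (ρ ^ 2 * ((1 + d1) * (1 + d2) - w3 ^ 2) - 1)) / 3 = τ := by
      have : d3 = -(d1 + d2) := by linarith
      rw [hτ, this]
      ring
    rw [this]
  have hs1 := th_qd_summable hp hβ
  have hs2 := th_qd_summable PD_Fp hβ
  set f : (Fin 3 → ℤ) → ℝ := fun m => Real.exp (-(Real.pi * β * (af p (rv m) / rad p ^ 2))) -
    Real.exp (-(Real.pi * β * (af Fp (rv m) / rad Fp ^ 2))) +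
      (Real.pi * β * (af p (rv m) / rad p ^ 2) - Real.pi * β * (af Fp (rv m) / rad Fp ^ 2)) *
        Real.exp (-(Real.pi * β * (af Fp (rv m) / rad Fp ^ 2))) with hf
  have hfF : ∀ m, f m = Real.exp (-(be * β * af Fp (rv m))) *
      FF (be * β * (ρ ^ 2 * af p (rv m)) - be * β * af Fp (rv m)) := by
    intro m
    simp only [hf]
    rw [exp_FF, ha, haF]
  have hB : Th β Bp = ∑' n : N0, Real.exp (-(Real.pi * β * (af Fp (rv n.1) / rad Fp ^ 2))) := by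
    rw [th_Bp_sum hβ]
    refine tsum_congr fun n => ?_
    rw [haF, af_Fp, nz_JH]
  have hfs : HasSum (fun n : N0 => f n.1) (Th β (qd p) - Th β Bp + τ * (be * β * HT β)) := by
    rw [← he3', th_qd hp, hB]
    exact (hs1.hasSum.sub hs2.hasSum).add hs3.hasSum
  have hf0 : ∀ n : N0, 0 ≤ f n.1 := by
    intro n
    rw [hfF]
    exact mul_nonneg (Real.exp_pos _).le (FF_nonneg _)
  have hfe : ∀ m, f (-m) = f m := by
    intro m
    simp only [hf, af_neg]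
  have h2 := two_sum_le Y7 Y7_0 Y7_i f hfe hf0 hfs.summable
  rw [hfs.tsum_eq] at h2
  -- the terms
  have key4 : ∀ (i : Fin 7) (q : ℝ), ρ ^ 2 * af p (rv (Y7 i)) = 4 * (1 + q) →
      af Fp (rv (Y7 i)) = 4 →
      f (Y7 i) = Real.exp (-(4 * (be * β))) * FF (4 * (be * β) * q) := by
    intro i q hq h0
    rw [hfF, hq, h0]
    congr 2
    · ring
    · ring
  have key3 : ∀ (i : Fin 7) (q : ℝ), ρ ^ 2 * af p (rv (Y7 i)) = 3 * (1 + q) →
      af Fp (rv (Y7 i)) = 3 →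
      f (Y7 i) = Real.exp (-(3 * (be * β))) * FF (3 * (be * β) * q) := by
    intro i q hq h0
    rw [hfF, hq, h0]
    congr 2
    · ring
    · ring
  have hd3 : d3 = -(d1 + d2) := by linarith
  have k0 := key4 0 α1 (by rw [hα1, hpdef]; unfold af pp rv Y7; rw [hd3]; simp; ring)
    (by unfold af Fp rv Y7; simp; try norm_num)
  have k1 := key4 1 α2 (by rw [hα2, hpdef]; unfold af pp rv Y7; rw [hd3]; simp; ring)
    (by unfold af Fp rv Y7; simp; try norm_num)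
  have k2 := key4 2 α3 (by rw [hα3, hpdef]; unfold af pp rv Y7; rw [hd3]; simp; ring)
    (by unfold af Fp rv Y7; simp; try norm_num)
  have k3 := key3 3 z0 (by rw [hz0, hτ, hpdef]; unfold af pp rv Y7; rw [hd3]; simp; ring)
    (by unfold af Fp rv Y7; simp; try norm_num)
  have k4 := key3 4 z1 (by rw [hz1, hτ, hpdef]; unfold af pp rv Y7; rw [hd3]; simp; ring)
    (by unfold af Fp rv Y7; simp; try norm_num)
  have k5 := key3 5 z2 (by rw [hz2, hτ, hpdef]; unfold af pp rv Y7; rw [hd3]; simp; ring)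
    (by unfold af Fp rv Y7; simp; try norm_num)
  have k6 := key3 6 z3 (by rw [hz3, hτ, hpdef]; unfold af pp rv Y7; rw [hd3]; simp; ring)
    (by unfold af Fp rv Y7; simp; try norm_num)
  have hsum : ∑ i, f (Y7 i) = f (Y7 0) + f (Y7 1) + f (Y7 2) + f (Y7 3) + f (Y7 4) + f (Y7 5) +
      f (Y7 6) := by
    simp only [Fin.sum_univ_castSucc, Fin.sum_univ_zero, zero_add]
    rfl
  rw [hsum, k0, k1, k2, k3, k4, k5, k6] at h2
  linarith

end Pool.Agent.U316.Ep
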