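import Pool.Agent.U316.Th.LocC

/-!
# Polynomial inequalities for the dual sum near the face-centred cubic form
-/

set_option autoImplicit false

open Pool.Agent.K1H99.FCC

namespace Pool.Agent.U316.Ep

/-- bounds for the trace defect -/
lemma tau_bounds {D W e3 P V ρ ε x s δ ω X kk tD tW τ : ℝ}
    (D0 : 0 ≤ D) (W0 : 0 ≤ W) (k1 : |e3| ≤ δ * D / 6) (k2 : |P| ≤ ω * W / 3) (k3 : |V| ≤ δ * W)
    (hs : s = D / 2 + W) (hx : x = D / 2 + W - (e3 + 2 * P - V)) (hρ : ρ = 1 + ε)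
    (xX : x ≤ X) (ε1 : x / 3 ≤ ε) (ε2 : ε ≤ x / 3 + 232 / 1000 * x ^ 2)
    (εk : ε ≤ kk * x) (δ0 : 0 ≤ δ) (ω0 : 0 ≤ ω) (hδω : δ + 2 * ω / 3 ≤ 1 / 4) (hX1 : X ≤ 5 / 100)
    (hτ : τ = ρ ^ 2 * (1 - s / 3) - 1)
    (htD : 1 / 6 + δ / 9 + (464 / 1000 + kk ^ 2) * X * (1 / 2 + δ / 6) ≤ tD)
    (htW : 1 / 3 + 2 / 3 * (2 * ω / 3 + δ) + (464 / 1000 + kk ^ 2) * X * (1 + 2 * ω / 3 + δ) ≤ tW) :
    0 ≤ τ ∧ τ ≤ tD * D + tW * W := by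
  rw [abs_le] at k1 k2 k3
  have s0 : 0 ≤ s := by rw [hs]; linarith
  have δD := mul_nonneg δ0 D0
  have δW := mul_nonneg δ0 W0
  have ωW := mul_nonneg ω0 W0
  have ωD := mul_nonneg ω0 D0
  have xs : 3 / 4 * s ≤ x := by
    have h1 : (δ + 2 * ω / 3) * s ≤ 1 / 4 * s := mul_le_mul_of_nonneg_right hδω s0
    rw [hs] at h1 ⊢
    rw [hx]
    linarith only [k1.1, k1.2, k2.1, k2.2, k3.1, k3.2, h1, δD, ωD]
  have x0 : 0 ≤ x := by linarith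
  have xL : x ≤ (1 / 2 + δ / 6) * D + (1 + 2 * ω / 3 + δ) * W := by
    rw [hx]
    linarith [k1.1, k1.2, k2.1, k2.2, k3.1, k3.2]
  have ε0 : 0 ≤ ε := by linarith
  have s1 : s ≤ 7 / 100 := by linarith
  constructor
  · have h1 : 1 + 2 * ε ≤ ρ ^ 2 := by rw [hρ]; linarith only [sq_nonneg ε]
    have h2 : 0 ≤ 1 - s / 3 := by linarith
    have h3 := mul_le_mul_of_nonneg_right h1 h2
    have h4 : 0 ≤ ε * (7 / 100 - s) := mul_nonneg ε0 (by linarith)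
    rw [hτ]
    linarith only [h3, h4, ε1, xs, s0, ε0]
  · have h1 : 1 ≤ ρ ^ 2 := by rw [hρ]; linarith only [sq_nonneg ε, ε0]
    have h2 : 0 ≤ (ρ ^ 2 - 1) * (s / 3) := mul_nonneg (by linarith) (by linarith)
    have h3 : τ ≤ 2 * ε + ε ^ 2 - s / 3 := by
      rw [hτ]
      have : ρ ^ 2 = 1 + 2 * ε + ε ^ 2 := by rw [hρ]; ring
      rw [this] at h2 ⊢
      linarith
    have h4 : ε ^ 2 ≤ kk ^ 2 * x ^ 2 := by
      rw [← mul_pow]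
      exact pow_le_pow_left₀ ε0 εk 2
    have h5 : x ^ 2 ≤ X * x := by
      rw [sq]
      exact mul_le_mul_of_nonneg_right xX x0
    have c0 : 0 ≤ 464 / 1000 + kk ^ 2 := by positivity
    have h6 : (464 / 1000 + kk ^ 2) * x ^ 2 ≤ (464 / 1000 + kk ^ 2) * X *
        ((1 / 2 + δ / 6) * D + (1 + 2 * ω / 3 + δ) * W) := by
      have h7 := mul_le_mul_of_nonneg_left h5 c0
      have X0 : 0 ≤ X := x0.trans xX
      have h8 := mul_le_mul_of_nonneg_left xL (mul_nonneg c0 X0)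
      linarith
    have h9 := mul_le_mul_of_nonneg_right htD D0
    have h10 := mul_le_mul_of_nonneg_right htW W0
    have h11 : 2 * x / 3 - s / 3 ≤ D / 6 + W / 3 + 2 / 3 * (δ * D / 6 + 2 * ω * W / 3 + δ * W) := by
      rw [hs, hx]
      linarith [k1.1, k1.2, k2.1, k2.2, k3.1, k3.2]
    linarith

set_option maxHeartbeats 4000000 in
/-- the sum over the second dual shell -/
lemma p2_ge {d1 d2 d3 w1 w2 w3 ρ τ x δ ω D1 W1 R4 R6 tD tW tm ξ l gm gD gW α1 α2 α3 D W : ℝ}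
    (hd : d1 + d2 + d3 = 0) (b1 : |d1| ≤ δ) (b2 : |d2| ≤ δ) (b3 : |d3| ≤ δ)
    (c1 : |w1| ≤ ω) (c2 : |w2| ≤ ω) (c3 : |w3| ≤ ω)
    (hD : D = d1 ^ 2 + d2 ^ 2 + d3 ^ 2) (hW : W = w1 ^ 2 + w2 ^ 2 + w3 ^ 2)
    (hD1 : D ≤ D1) (hW1 : W ≤ W1)
    (hτ : τ = ρ ^ 2 * (1 - (D / 2 + W) / 3) - 1)
    (hρ1 : 1 ≤ ρ) (hR4 : ρ ^ 4 ≤ R4) (hR6 : ρ ^ 6 ≤ R6) (τ0 : 0 ≤ τ) (τL : τ ≤ tD * D + tW * W)
    (tD0 : 0 ≤ tD) (tW0 : 0 ≤ tW)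
    (x0 : 0 ≤ x) (htm : tD * D1 + tW * W1 ≤ tm) (hxt : x * tm ≤ 1)
    (hξ1 : 6 * R4 - x ≤ ξ) (hξ2 : x * R6 - 6 * (1 - x * tm) ≤ ξ) (hξ0 : 0 ≤ ξ)
    (hgm : 2 / 3 * D1 + W1 / 3 ≤ gm) (hl : x * R6 * (δ + gm / 3) - (1 - x * tm) ≤ l) (l0 : 0 ≤ l)
    (hgD : gD ≤ 1 - x * tD * D1 - ξ * δ / 6 - x * R6 * D1 / 6 - l * D1 / 6)
    (hgW : 2 * δ * R4 + x * tW * D1 + x * R6 * D1 / 3 + l * (ω ^ 2 + 2 / 3 * D1) ≤ gW)
    (hα1 : α1 = ρ ^ 2 * (1 - d1 + d2 * d3 - w1 ^ 2) - 1)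
    (hα2 : α2 = ρ ^ 2 * (1 - d2 + d1 * d3 - w2 ^ 2) - 1)
    (hα3 : α3 = ρ ^ 2 * (1 - d3 + d1 * d2 - w3 ^ 2) - 1) :
    gD * D - gW * W ≤ (α1 ^ 2 - x / 3 * α1 ^ 3) + (α2 ^ 2 - x / 3 * α2 ^ 3) +
      (α3 ^ 2 - x / 3 * α3 ^ 3) := by
  have k1 := prod3_bound hd b1 b2 b3
  have k3 : |d1 * w1 ^ 2 + d2 * w2 ^ 2 + d3 * w3 ^ 2| ≤ δ * W := by
    have v1 := mul_sq_bound (b := w1) b1
    have v2 := mul_sq_bound (b := w2) b2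
    have v3 := mul_sq_bound (b := w3) b3
    have := abs_add_three (d1 * w1 ^ 2) (d2 * w2 ^ 2) (d3 * w3 ^ 2)
    rw [hW]
    linarith
  rw [← hD] at k1
  have δ0 : 0 ≤ δ := (abs_nonneg _).trans b1
  have ω0 : 0 ≤ ω := (abs_nonneg _).trans c1
  have D0 : 0 ≤ D := by rw [hD]; positivity
  have W0 : 0 ≤ W := by rw [hW]; positivity
  have D10 : 0 ≤ D1 := D0.trans hD1
  have W10 : 0 ≤ W1 := W0.trans hW1
  obtain ⟨e3, he3⟩ : ∃ e, e = d1 * d2 * d3 := ⟨_, rfl⟩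
  obtain ⟨V, hV⟩ : ∃ e, e = d1 * w1 ^ 2 + d2 * w2 ^ 2 + d3 * w3 ^ 2 := ⟨_, rfl⟩
  obtain ⟨s, hs⟩ : ∃ e, e = D / 2 + W := ⟨_, rfl⟩
  obtain ⟨g1, hg1⟩ : ∃ e, e = d2 * d3 - w1 ^ 2 + s / 3 := ⟨_, rfl⟩
  obtain ⟨g2, hg2⟩ : ∃ e, e = d1 * d3 - w2 ^ 2 + s / 3 := ⟨_, rfl⟩
  obtain ⟨g3, hg3⟩ : ∃ e, e = d1 * d2 - w3 ^ 2 + s / 3 := ⟨_, rfl⟩
  obtain ⟨G, hG⟩ : ∃ e, e = g1 ^ 2 + g2 ^ 2 + g3 ^ 2 := ⟨_, rfl⟩
  have hd3 : d3 = -(d1 + d2) := by linarith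
  rw [← he3] at k1
  rw [← hV] at k3
  rw [← hs] at hτ
  have s0 : 0 ≤ s := by rw [hs]; linarith
  have a1 : α1 = τ + ρ ^ 2 * (g1 - d1) := by rw [hα1, hτ, hg1]; ring
  have a2 : α2 = τ + ρ ^ 2 * (g2 - d2) := by rw [hα2, hτ, hg2]; ring
  have a3 : α3 = τ + ρ ^ 2 * (g3 - d3) := by rw [hα3, hτ, hg3]; ring
  have hgs : g3 = -(g1 + g2) := by
    rw [hg1, hg2, hg3, hs, hD, hW, hd3]; ring
  have hdg : d1 * g1 + d2 * g2 + d3 * g3 = 3 * e3 - V := by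
    rw [hg1, hg2, hg3, he3, hV, hd3]; ring
  have hddg : d1 ^ 2 * g1 + d2 ^ 2 * g2 + d3 ^ 2 * g3 =
      -(d1 ^ 2 * w1 ^ 2 + d2 ^ 2 * w2 ^ 2 + d3 ^ 2 * w3 ^ 2) + s * D / 3 := by
    rw [hg1, hg2, hg3, hD, hd3]; ring
  have hddd : d1 ^ 3 + d2 ^ 3 + d3 ^ 3 = 3 * e3 := by rw [he3, hd3]; ring
  -- the two sums
  obtain ⟨M, hM⟩ : ∃ M, M = (g1 - d1) ^ 3 + (g2 - d2) ^ 3 + (g3 - d3) ^ 3 := ⟨_, rfl⟩
  have q2 : α1 ^ 2 + α2 ^ 2 + α3 ^ 2 = 3 * τ ^ 2 + ρ ^ 4 * (D - 6 * e3 + 2 * V + G) := by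
    have h1 : (g1 - d1) ^ 2 + (g2 - d2) ^ 2 + (g3 - d3) ^ 2 = D - 6 * e3 + 2 * V + G := by
      rw [hG, hD]
      linarith
    rw [← h1, a1, a2, a3, hgs, hd3]
    ring
  have q3 : α1 ^ 3 + α2 ^ 3 + α3 ^ 3 = 3 * τ ^ 3 + 3 * τ * (ρ ^ 4 * (D - 6 * e3 + 2 * V + G)) +
      ρ ^ 6 * M := by
    have h1 : (g1 - d1) ^ 2 + (g2 - d2) ^ 2 + (g3 - d3) ^ 2 = D - 6 * e3 + 2 * V + G := by
      rw [hG, hD]
      linarith
    rw [← h1, hM, a1, a2, a3, hgs, hd3]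
    ring
  have M1 : M ≤ -3 * e3 + s * D + (3 * δ + gm) * G := by
    have e : M = -3 * e3 + 3 * (-(d1 ^ 2 * w1 ^ 2 + d2 ^ 2 * w2 ^ 2 + d3 ^ 2 * w3 ^ 2) +
        s * D / 3) - 3 * (d1 * g1 ^ 2 + d2 * g2 ^ 2 + d3 * g3 ^ 2) + (g1 ^ 3 + g2 ^ 3 + g3 ^ 3) := by
      rw [← hddg]
      linear_combination hM - hddd
    have n0 : 0 ≤ d1 ^ 2 * w1 ^ 2 + d2 ^ 2 * w2 ^ 2 + d3 ^ 2 * w3 ^ 2 := by positivity
    have key : ∀ d g : ℝ, |d| ≤ δ → g ≤ gm → -(3 * (d * g ^ 2)) + g ^ 3 ≤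
        (3 * δ + gm) * g ^ 2 := by
      intro d g h1 h2
      have h3 := (abs_le.1 h1).1
      have h4 : 0 ≤ g ^ 2 := sq_nonneg g
      have h5 := mul_le_mul_of_nonneg_right h2 h4
      have h6 := mul_le_mul_of_nonneg_right h3 h4
      linarith
    have hs3 : s / 3 ≤ D1 / 6 + W1 / 3 := by rw [hs]; linarith
    have gle : ∀ a b c w : ℝ, a ^ 2 + b ^ 2 + c ^ 2 = D → b * c - w ^ 2 + s / 3 ≤ gm := by
      intro a b c w h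
      have h1 : b * c ≤ (b ^ 2 + c ^ 2) / 2 := by linarith only [sq_nonneg (b - c)]
      have h2 := sq_nonneg a
      have h3 := sq_nonneg w
      linarith only [h, h1, h2, h3, hs3, hgm, hD1]
    have u1 := key d1 g1 b1 (by rw [hg1]; exact gle d1 d2 d3 w1 hD.symm)
    have u2 := key d2 g2 b2 (by rw [hg2]; exact gle d2 d1 d3 w2 (by linarith))
    have u3 := key d3 g3 b3 (by rw [hg3]; exact gle d3 d1 d2 w3 (by linarith))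
    rw [e, hG]
    linarith
  have G0 : 0 ≤ G := by rw [hG]; positivity
  have G1 : G ≤ D1 / 6 * D + (ω ^ 2 + 2 / 3 * D1) * W := by
    have e : G = D ^ 2 / 4 + (w1 ^ 4 + w2 ^ 4 + w3 ^ 4) - s ^ 2 / 3 -
        2 * (d2 * d3 * w1 ^ 2 + d1 * d3 * w2 ^ 2 + d1 * d2 * w3 ^ 2) := by
      rw [hG, hg1, hg2, hg3, hs, hD, hW, hd3]; ring
    have q : ∀ w : ℝ, |w| ≤ ω → w ^ 4 ≤ ω ^ 2 * w ^ 2 := by
      intro w h
      have h1 := sq_le_of_abs h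
      have h2 := mul_le_mul_of_nonneg_right h1 (sq_nonneg w)
      linarith
    have q1 := q w1 c1
    have q2 := q w2 c2
    have q3 := q w3 c3
    have r : ∀ a b c w : ℝ, a ^ 2 + b ^ 2 + c ^ 2 = D → -(2 * (b * c * w ^ 2)) ≤ D * w ^ 2 := by
      intro a b c w h
      have h1 : -(2 * (b * c)) ≤ D := by linarith only [h, sq_nonneg (b + c), sq_nonneg a]
      have h2 := mul_le_mul_of_nonneg_right h1 (sq_nonneg w)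
      linarith
    have r1 := r d1 d2 d3 w1 hD.symm
    have r2 := r d2 d1 d3 w2 (by linarith)
    have r3 := r d3 d1 d2 w3 (by linarith)
    have t1 : D * D ≤ D1 * D := mul_le_mul_of_nonneg_right hD1 D0
    have t2 : D * W ≤ D1 * W := mul_le_mul_of_nonneg_right hD1 W0
    have t3 : 0 ≤ W ^ 2 := sq_nonneg W
    have e4 : w1 ^ 4 + w2 ^ 4 + w3 ^ 4 ≤ ω ^ 2 * W := by rw [hW]; linarith
    have e5 : -(2 * (d2 * d3 * w1 ^ 2 + d1 * d3 * w2 ^ 2 + d1 * d2 * w3 ^ 2)) ≤ D * W := by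
      have : D * W = D * w1 ^ 2 + D * w2 ^ 2 + D * w3 ^ 2 := by rw [hW]; ring
      rw [this]
      linarith
    have e6 : s ^ 2 / 3 = D ^ 2 / 12 + D * W / 3 + W ^ 2 / 3 := by rw [hs]; ring
    rw [e, e6]
    linarith only [t1, t2, t3, e4, e5]
  -- auxiliary quantities
  have p4 : 1 ≤ ρ ^ 4 := one_le_pow₀ hρ1
  have p6 : 1 ≤ ρ ^ 6 := one_le_pow₀ hρ1
  have τm : τ ≤ tm := by
    refine τL.trans (le_trans ?_ htm)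
    have := mul_le_mul_of_nonneg_left hD1 tD0
    have := mul_le_mul_of_nonneg_left hW1 tW0
    linarith
  have xτ : x * τ ≤ x * tm := mul_le_mul_of_nonneg_left τm x0
  have xτ0 : 0 ≤ x * τ := mul_nonneg x0 τ0
  obtain ⟨K4, hK4⟩ : ∃ K, K = ρ ^ 4 * (1 - x * τ) := ⟨_, rfl⟩
  have K1 : 1 - x * τ ≤ K4 := by
    rw [hK4]
    have := mul_le_mul_of_nonneg_right p4 (show 0 ≤ 1 - x * τ by linarith)
    linarith
  have K2 : K4 ≤ R4 := by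
    rw [hK4]
    have h1 : ρ ^ 4 * (1 - x * τ) ≤ ρ ^ 4 * 1 :=
      mul_le_mul_of_nonneg_left (by linarith) (by positivity)
    linarith
  have K0 : 0 ≤ K4 := by linarith
  have z6 : x ≤ x * ρ ^ 6 := by
    have := mul_le_mul_of_nonneg_left p6 x0
    linarith
  have z6' : x * ρ ^ 6 ≤ x * R6 := mul_le_mul_of_nonneg_left hR6 x0
  have gm0 : 0 ≤ gm := le_trans (by positivity) hgm
  rw [abs_le] at k1 k3
  -- the terms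
  have T1 : D - x * tD * D1 * D - x * tW * D1 * W ≤ K4 * D := by
    have h1 := mul_le_mul_of_nonneg_right K1 D0
    have h2 : x * τ * D ≤ x * (tD * D + tW * W) * D :=
      mul_le_mul_of_nonneg_right (mul_le_mul_of_nonneg_left τL x0) D0
    have h3 : x * tD * (D * D) ≤ x * tD * (D1 * D) :=
      mul_le_mul_of_nonneg_left (mul_le_mul_of_nonneg_right hD1 D0) (mul_nonneg x0 tD0)
    have h4 : x * tW * (D * W) ≤ x * tW * (D1 * W) :=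
      mul_le_mul_of_nonneg_left (mul_le_mul_of_nonneg_right hD1 W0) (mul_nonneg x0 tW0)
    linarith
  have T2 : -(2 * δ * R4 * W) ≤ 2 * K4 * V := by
    have h1 : K4 * (-(δ * W)) ≤ K4 * V := mul_le_mul_of_nonneg_left k3.1 K0
    have h2 : K4 * (δ * W) ≤ R4 * (δ * W) := mul_le_mul_of_nonneg_right K2 (mul_nonneg δ0 W0)
    linarith
  have T3 : -(ξ * (δ * D / 6)) ≤ (x * ρ ^ 6 - 6 * K4) * e3 := by
    have h1 : |x * ρ ^ 6 - 6 * K4| ≤ ξ := by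
      rw [abs_le]
      constructor <;> linarith
    have h2 : |(x * ρ ^ 6 - 6 * K4) * e3| ≤ ξ * (δ * D / 6) := by
      rw [abs_mul]
      exact mul_le_mul h1 (abs_le.2 k1) (abs_nonneg _) hξ0
    exact (abs_le.1 h2).1
  have T4 : x * ρ ^ 6 * (s * D) ≤ x * R6 * (D1 / 2 * D + D1 * W) := by
    have h1 : s * D ≤ D1 / 2 * D + D1 * W := by
      rw [hs]
      have t1 : D * D ≤ D1 * D := mul_le_mul_of_nonneg_right hD1 D0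
      have t2 : D * W ≤ D1 * W := mul_le_mul_of_nonneg_right hD1 W0
      linarith
    exact mul_le_mul z6' h1 (mul_nonneg s0 D0) (z6'.trans' (by positivity))
  have T5 : -(l * (D1 / 6 * D + (ω ^ 2 + 2 / 3 * D1) * W)) ≤
      (K4 - x * ρ ^ 6 * (δ + gm / 3)) * G := by
    have h1 : x * ρ ^ 6 * (δ + gm / 3) ≤ x * R6 * (δ + gm / 3) :=
      mul_le_mul_of_nonneg_right z6' (by linarith)
    have h2 : -l ≤ K4 - x * ρ ^ 6 * (δ + gm / 3) := by linarith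
    have h3 := mul_le_mul_of_nonneg_right h2 G0
    have h4 := mul_le_mul_of_nonneg_left G1 l0
    linarith
  have T6 : x * ρ ^ 6 / 3 * M ≤ x * ρ ^ 6 / 3 * (-3 * e3 + s * D + (3 * δ + gm) * G) :=
    mul_le_mul_of_nonneg_left M1 (by positivity)
  have T7 : 0 ≤ 3 * τ ^ 2 * (1 - x * τ / 3) := mul_nonneg (by positivity) (by linarith)
  have fin : (α1 ^ 2 - x / 3 * α1 ^ 3) + (α2 ^ 2 - x / 3 * α2 ^ 3) + (α3 ^ 2 - x / 3 * α3 ^ 3) =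
      3 * τ ^ 2 * (1 - x * τ / 3) + K4 * (D - 6 * e3 + 2 * V + G) - x * ρ ^ 6 / 3 * M := by
    have : (α1 ^ 2 - x / 3 * α1 ^ 3) + (α2 ^ 2 - x / 3 * α2 ^ 3) + (α3 ^ 2 - x / 3 * α3 ^ 3) =
      (α1 ^ 2 + α2 ^ 2 + α3 ^ 2) - x / 3 * (α1 ^ 3 + α2 ^ 3 + α3 ^ 3) := by ring
    rw [this, q2, q3, hK4]
    ring
  rw [fin]
  have f1 := mul_le_mul_of_nonneg_right hgD D0
  have f2 := mul_le_mul_of_nonneg_right hgW W0
  clear fin q2 q3 hK4 a1 a2 a3 hα1 hα2 hα3 hτ hM hG hdg hddg hddd hgs hg1 hg2 hg3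
  linarith only [f1, f2, T1, T2, T3, T4, T5, T6, T7]

/-- the sum over the first dual shell -/
lemma p1_ge {d1 d2 d3 w1 w2 w3 ρ τ x δ ω R2 tm βm gz W B1 B2 B3 z0 z1 z2 z3 : ℝ}
    (hd : d1 + d2 + d3 = 0) (b1 : |d1| ≤ δ) (b2 : |d2| ≤ δ) (b3 : |d3| ≤ δ)
    (c1 : |w1| ≤ ω) (c2 : |w2| ≤ ω) (c3 : |w3| ≤ ω)
    (hW : W = w1 ^ 2 + w2 ^ 2 + w3 ^ 2)
    (hρ1 : 1 ≤ ρ) (hR2 : ρ ^ 2 ≤ R2) (τ0 : 0 ≤ τ) (τm : τ ≤ tm) (x0 : 0 ≤ x)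
    (hβm : R2 * (ω ^ 2 + ω * (1 + δ)) ≤ βm)
    (hf : 0 ≤ 1 - x * tm - 4 / 9 * x * βm)
    (hgz : gz ≤ 16 / 9 * (1 - 2 * δ - 2 * ω) * (1 - x * tm - 4 / 9 * x * βm))
    (hB1 : B1 = ρ ^ 2 * (w2 * w3 - w1 * (1 + d1))) (hB2 : B2 = ρ ^ 2 * (w1 * w3 - w2 * (1 + d2)))
    (hB3 : B3 = ρ ^ 2 * (w1 * w2 - w3 * (1 + d3)))
    (hz0 : z0 = τ + 2 / 3 * (B3 + B2 + B1)) (hz1 : z1 = τ + 2 / 3 * (B3 - B2 - B1))
    (hz2 : z2 = τ + 2 / 3 * (-B3 + B2 - B1)) (hz3 : z3 = τ + 2 / 3 * (-B3 - B2 + B1)) :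
    gz * W ≤ (z0 ^ 2 - x / 3 * z0 ^ 3) + (z1 ^ 2 - x / 3 * z1 ^ 3) + (z2 ^ 2 - x / 3 * z2 ^ 3) +
      (z3 ^ 2 - x / 3 * z3 ^ 3) := by
  have δ0 : 0 ≤ δ := (abs_nonneg _).trans b1
  have ω0 : 0 ≤ ω := (abs_nonneg _).trans c1
  have W0 : 0 ≤ W := by rw [hW]; positivity
  have k2 := prod3_bound' c1 c2 c3
  have k3 : |d1 * w1 ^ 2 + d2 * w2 ^ 2 + d3 * w3 ^ 2| ≤ δ * W := by
    have v1 := mul_sq_bound (b := w1) b1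
    have v2 := mul_sq_bound (b := w2) b2
    have v3 := mul_sq_bound (b := w3) b3
    have := abs_add_three (d1 * w1 ^ 2) (d2 * w2 ^ 2) (d3 * w3 ^ 2)
    rw [hW]
    linarith
  rw [← hW] at k2
  have e : (z0 ^ 2 - x / 3 * z0 ^ 3) + (z1 ^ 2 - x / 3 * z1 ^ 3) + (z2 ^ 2 - x / 3 * z2 ^ 3) +
      (z3 ^ 2 - x / 3 * z3 ^ 3) = 4 * τ ^ 2 * (1 - x * τ / 3) +
      16 / 9 * (B1 ^ 2 + B2 ^ 2 + B3 ^ 2) * (1 - x * τ) - 64 / 27 * x * (B1 * B2 * B3) := by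
    rw [hz0, hz1, hz2, hz3]
    ring
  have R20 : 0 ≤ R2 := le_trans (by positivity) hR2
  have bb : ∀ a b c d : ℝ, |a| ≤ ω → |b| ≤ ω → |c| ≤ ω → |d| ≤ δ →
      |ρ ^ 2 * (b * c - a * (1 + d))| ≤ βm := by
    intro a b c d ha hb hc hdd
    refine le_trans ?_ hβm
    rw [abs_mul, abs_of_nonneg (by positivity : 0 ≤ ρ ^ 2)]
    refine mul_le_mul hR2 ?_ (abs_nonneg _) R20
    refine (abs_sub _ _).trans ?_
    rw [abs_mul, abs_mul]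
    have h1 : |1 + d| ≤ 1 + δ := by
      refine (abs_add_le _ _).trans ?_
      rw [abs_one]
      linarith
    have h2 := mul_le_mul hb hc (abs_nonneg _) ω0
    have h3 := mul_le_mul ha h1 (abs_nonneg _) ω0
    linarith
  have m1 := bb w1 w2 w3 d1 c1 c2 c3 b1
  have m2 := bb w2 w1 w3 d2 c2 c1 c3 b2
  have m3 := bb w3 w1 w2 d3 c3 c1 c2 b3
  rw [← hB1] at m1
  rw [← hB2] at m2
  rw [← hB3] at m3
  have k4 := prod3_bound' m1 m2 m3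
  obtain ⟨S, hS⟩ : ∃ S, S = B1 ^ 2 + B2 ^ 2 + B3 ^ 2 := ⟨_, rfl⟩
  have S1 : (1 - 2 * δ - 2 * ω) * W ≤ S := by
    have h1 : S = ρ ^ 4 * ((w2 * w3 - w1 * (1 + d1)) ^ 2 + (w1 * w3 - w2 * (1 + d2)) ^ 2 +
        (w1 * w2 - w3 * (1 + d3)) ^ 2) := by
      rw [hS, hB1, hB2, hB3]
      ring
    have h2 : (w2 * w3 - w1 * (1 + d1)) ^ 2 + (w1 * w3 - w2 * (1 + d2)) ^ 2 +
        (w1 * w2 - w3 * (1 + d3)) ^ 2 = W + 2 * (d1 * w1 ^ 2 + d2 * w2 ^ 2 + d3 * w3 ^ 2) -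
        6 * (w1 * w2 * w3) + ((w2 * w3) ^ 2 + (w1 * w3) ^ 2 + (w1 * w2) ^ 2 + (d1 * w1) ^ 2 +
        (d2 * w2) ^ 2 + (d3 * w3) ^ 2) := by
      have hd3 : d3 = -(d1 + d2) := by linarith
      rw [hW, hd3]
      ring
    have h3 : 0 ≤ (w2 * w3) ^ 2 + (w1 * w3) ^ 2 + (w1 * w2) ^ 2 + (d1 * w1) ^ 2 +
        (d2 * w2) ^ 2 + (d3 * w3) ^ 2 := by positivity
    have p4 : 1 ≤ ρ ^ 4 := one_le_pow₀ hρ1
    rw [abs_le] at k2 k3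
    have h4 : (1 - 2 * δ - 2 * ω) * W ≤ (w2 * w3 - w1 * (1 + d1)) ^ 2 +
        (w1 * w3 - w2 * (1 + d2)) ^ 2 + (w1 * w2 - w3 * (1 + d3)) ^ 2 := by
      rw [h2]
      linarith [k2.1, k2.2, k3.1, k3.2]
    have h5 : 0 ≤ (w2 * w3 - w1 * (1 + d1)) ^ 2 +
        (w1 * w3 - w2 * (1 + d2)) ^ 2 + (w1 * w2 - w3 * (1 + d3)) ^ 2 := by positivity
    rw [h1]
    have := mul_le_mul_of_nonneg_right p4 h5
    linarith
  rw [e, ← hS]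
  rw [← hS] at k4
  have S0 : 0 ≤ S := by rw [hS]; positivity
  have xτ : x * τ ≤ x * tm := mul_le_mul_of_nonneg_left τm x0
  have xτ0 : 0 ≤ x * τ := mul_nonneg x0 τ0
  have βm0 : 0 ≤ βm := (abs_nonneg _).trans m1
  have T0 : 0 ≤ 4 * τ ^ 2 * (1 - x * τ / 3) := by
    have : 0 ≤ 4 / 9 * x * βm := by positivity
    exact mul_nonneg (by positivity) (by linarith)
  have T1 : S * (1 - x * tm) ≤ S * (1 - x * τ) := mul_le_mul_of_nonneg_left (by linarith) S0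
  have T2 : x * (B1 * B2 * B3) ≤ x * (βm * S / 3) :=
    mul_le_mul_of_nonneg_left ((le_abs_self _).trans k4) x0
  have T3 := mul_le_mul_of_nonneg_left S1 hf
  have T4 := mul_le_mul_of_nonneg_right hgz W0
  linarith only [T0, T1, T2, T3, T4]

end Pool.Agent.U316.Ep
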