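import Pool.Agent.U316.Ep.LocD
import Pool.Agent.U316.Ep.LocE

/-!
# The region near the face-centred cubic form
-/

set_option autoImplicit false

open Matrix Pool.Agent.K1H99.FCC

namespace Pool.Agent.U316.Ep

open Pool.Agent.U316.Th (Th Bp PD_Bp qd PD_qd mm mm_pos FF FF_nonneg FF_one TT core_ineq th_gain
  rho_bounds' sq_sum_le pi_mm)

/-- the region near the face-centred cubic form with the derived quantities -/
structure Rg (d1 d2 d3 w1 w2 w3 ρ τ D W : ℝ) : Prop where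
  hd : d1 + d2 + d3 = 0
  b1 : |d1| ≤ 11 / 100
  b2 : |d2| ≤ 11 / 100
  b3 : |d3| ≤ 11 / 100
  c1 : |w1| ≤ 13 / 200
  c2 : |w2| ≤ 13 / 200
  c3 : |w3| ≤ 13 / 200
  hp : PD (pp d1 d2 d3 w1 w2 w3)
  hρ : ρ = rad Fp / rad (pp d1 d2 d3 w1 w2 w3)
  hD : D = d1 ^ 2 + d2 ^ 2 + d3 ^ 2
  hW : W = w1 ^ 2 + w2 ^ 2 + w3 ^ 2
  D0 : 0 ≤ D
  W0 : 0 ≤ W
  D1 : D ≤ 121 / 5000
  W1 : W ≤ 507 / 40000
  hτ : τ = ρ ^ 2 * (1 - (D / 2 + W) / 3) - 1
  ρ1 : 1 ≤ ρ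
  R2 : ρ ^ 2 ≤ 10186 / 10000
  R4 : ρ ^ 4 ≤ 10375 / 10000
  R6 : ρ ^ 6 ≤ 10568 / 10000
  τ0 : 0 ≤ τ
  τL : τ ≤ 1871 / 10000 * D + 4538 / 10000 * W
  gain : ∀ {b η κ z cD cW : ℝ}, 2 ≤ b → 0 ≤ η → 0 ≤ 1 / 4 - 8 * η → 0 ≤ κ →
    2 * b * (1353268 / 146484375) ≤ 1 →
    108 * (1 + κ) * (232 / 1000) - 2 * b * (3 - b * (1353268 / 146484375)) ≤ z → 0 ≤ z →
    cD ≤ b / 2 + 4 * b * η - 2 * (1 + κ) -
      b * (b - 2 + 2 * b * (1353268 / 146484375)) * (1 / 2 * (6189211 / 35156250) * (121 / 5000)) -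
      4 * b * η * (2 * b - 2 + 4 * b * (1353268 / 146484375)) *
        ((6189211 / 35156250) * (121 / 5000)) -
      ((1 + 1353268 / 146484375) ^ 3 * (b ^ 2 * (1 / 4 - 8 * η)) + 4 * (1 + κ)) * (11 / 100) / 6 -
      z * (1353268 / 146484375) * (6189211 / 35156250) →
    cW ≤ 2 * b - 4 * (1 + κ) - b * (b - 2 + 2 * b * (1353268 / 146484375)) *
      ((1 / 2 * (6885746 / 17578125) + 2 * (6189211 / 35156250)) * (121 / 5000) +
        2 * (6885746 / 17578125) * (507 / 40000)) -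
      4 * b * η * (2 * b - 2 + 4 * b * (1353268 / 146484375)) *
        ((6885746 / 17578125) * (121 / 5000)) -
      ((1 + 1353268 / 146484375) ^ 3 * b ^ 2 + 4 * (1 + κ)) * (11 / 100) -
      8 * (1 + κ) * (13 / 200) / 3 - z * (1353268 / 146484375) * (6885746 / 17578125) →
    cD * D + cW * W + 12 * (ρ - 1) * (1 + κ) ≤
      b / 2 * (12 * (ρ - 1) ^ 2 + ρ ^ 2 * (D + 4 * W)) - b ^ 2 / 6 * (12 * (ρ - 1) ^ 3 +
      3 * (ρ - 1) * (ρ ^ 2 * (D + 4 * W))) + b ^ 2 / 6 * (ρ ^ 3 * (3 / 2 * (d1 * d2 * d3) +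
        6 * (d1 * w1 ^ 2 + d2 * w2 ^ 2 + d3 * w3 ^ 2))) +
      (4 * b * η * (3 * (ρ - 1) ^ 2 + ρ ^ 2 * D) - 8 / 3 * b ^ 2 * η * (3 * (ρ - 1) ^ 3 +
        3 * (ρ - 1) * (ρ ^ 2 * D) + 3 * (ρ ^ 3 * (d1 * d2 * d3))))

/-- the derived quantities exist -/
theorem mk_rg {d1 d2 d3 w1 w2 w3 : ℝ} (hd : d1 + d2 + d3 = 0)
    (b1 : |d1| ≤ 11 / 100) (b2 : |d2| ≤ 11 / 100) (b3 : |d3| ≤ 11 / 100)
    (c1 : |w1| ≤ 13 / 200) (c2 : |w2| ≤ 13 / 200) (c3 : |w3| ≤ 13 / 200)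
    (hp : PD (pp d1 d2 d3 w1 w2 w3)) : ∃ ρ τ D W, Rg d1 d2 d3 w1 w2 w3 ρ τ D W := by
  have hr : 0 < rad (pp d1 d2 d3 w1 w2 w3) := rad_pos (dt_pos hp)
  have hr3 := rad_cube (dt_pos hp).le
  rw [dt_pp] at hr3
  obtain ⟨ρ, hρ⟩ : ∃ ρ, ρ = rad Fp / rad (pp d1 d2 d3 w1 w2 w3) := ⟨_, rfl⟩
  have hρ0 : 0 < ρ := by rw [hρ]; exact div_pos rad_Fp_pos hr
  have hΔ : ρ ^ 3 * ((1 + d1) * (1 + d2) * (1 + d3) + 2 * (w1 * w2 * w3) - (1 + d1) * w1 ^ 2 -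
      (1 + d2) * w2 ^ 2 - (1 + d3) * w3 ^ 2) = 1 := by
    rw [hρ, div_pow, rad_Fp, hr3]
    have : (4:ℝ) * ((1 + d1) * (1 + d2) * (1 + d3) + 2 * (w1 * w2 * w3) - (1 + d1) * w1 ^ 2 -
      (1 + d2) * w2 ^ 2 - (1 + d3) * w3 ^ 2) ≠ 0 := by
      rw [← hr3]
      positivity
    rw [div_mul_eq_mul_div, div_eq_one_iff_eq this]
  rw [det_eq hd] at hΔ
  have k1 := prod3_bound hd b1 b2 b3
  have k2 := prod3_bound' c1 c2 c3
  have k3 : |d1 * w1 ^ 2 + d2 * w2 ^ 2 + d3 * w3 ^ 2| ≤ 11 / 100 *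
      (w1 ^ 2 + w2 ^ 2 + w3 ^ 2) := by
    have v1 := mul_sq_bound (b := w1) b1
    have v2 := mul_sq_bound (b := w2) b2
    have v3 := mul_sq_bound (b := w3) b3
    have := abs_add_three (d1 * w1 ^ 2) (d2 * w2 ^ 2) (d3 * w3 ^ 2)
    linarith
  obtain ⟨D, hD⟩ : ∃ D, D = d1 ^ 2 + d2 ^ 2 + d3 ^ 2 := ⟨_, rfl⟩
  obtain ⟨W, hW⟩ : ∃ W, W = w1 ^ 2 + w2 ^ 2 + w3 ^ 2 := ⟨_, rfl⟩
  have D0 : 0 ≤ D := by rw [hD]; positivity
  have W0 : 0 ≤ W := by rw [hW]; positivity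
  have D1 : D ≤ 121 / 5000 := by
    rw [hD]
    refine (sq_sum_le hd b1 b2 b3).trans ?_
    norm_num
  have W1 : W ≤ 507 / 40000 := by
    rw [hW]
    have q : ∀ w : ℝ, |w| ≤ 13 / 200 → w ^ 2 ≤ 169 / 40000 := fun w h => by
      have := sq_le_of_abs h
      norm_num at this
      exact this
    linarith [q w1 c1, q w2 c2, q w3 c3]
  rw [← hD] at k1
  rw [← hW] at k2 k3
  rw [← hD, ← hW] at hΔ
  obtain ⟨x, hx⟩ : ∃ x, x = D / 2 + W -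
      (d1 * d2 * d3 + 2 * (w1 * w2 * w3) - (d1 * w1 ^ 2 + d2 * w2 ^ 2 + d3 * w3 ^ 2)) := ⟨_, rfl⟩
  rw [← hx] at hΔ
  have xb : 0 ≤ x ∧ x ≤ 17 / 625 := by
    have l1 := abs_le.1 k1
    have l2 := abs_le.1 k2
    have l3 := abs_le.1 k3
    rw [hx]
    constructor <;> linarith [l1.1, l1.2, l2.1, l2.2, l3.1, l3.2]
  obtain ⟨x0, xX⟩ := xb
  obtain ⟨ε1, ε2⟩ := rho_bounds' hρ0 x0 (by linarith) hΔ
  have hρ1 : 1 ≤ ρ := by linarith
  have εk : ρ - 1 ≤ 79604 / 234375 * x := by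
    have h1 : x ^ 2 ≤ 17 / 625 * x := by
      rw [sq]
      exact mul_le_mul_of_nonneg_right xX x0
    linarith
  have εE : ρ ≤ 1 + 1353268 / 146484375 := by linarith
  obtain ⟨τ, hτ⟩ : ∃ τ, τ = ρ ^ 2 * (1 - (D / 2 + W) / 3) - 1 := ⟨_, rfl⟩
  have tb := tau_bounds (ε := ρ - 1) (δ := 11 / 100) (ω := 13 / 200) (X := 17 / 625)
    (kk := 79604 / 234375) (tD := 1871 / 10000) (tW := 4538 / 10000) D0 W0 k1 k2 k3 rfl hx (by ring)
    xX ε1 ε2 εk (by norm_num) (by norm_num) (by norm_num) (by norm_num) hτ (by norm_num)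
    (by norm_num)
  refine ⟨ρ, τ, D, W, hd, b1, b2, b3, c1, c2, c3, hp, hρ, hD, hW, D0, W0, D1, W1, hτ, hρ1, ?_, ?_,
    ?_, tb.1, tb.2, ?_⟩
  · exact (pow_le_pow_left₀ hρ0.le εE 2).trans (by norm_num)
  · exact (pow_le_pow_left₀ hρ0.le εE 4).trans (by norm_num)
  · exact (pow_le_pow_left₀ hρ0.le εE 6).trans (by norm_num)
  · intro b η κ z cD cW hb hη hη1 hκ hbE hz hz0 hcD hcW
    have hc := core_ineq (ε := ρ - 1) (D1 := 121 / 5000) (W1 := 507 / 40000) (X := 17 / 625)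
      (kk := 79604 / 234375) (E := 1353268 / 146484375) (eD := 6189211 / 35156250)
      (eW := 6885746 / 17578125) (z := z) D0 W0 D1 W1 k1 k2 k3 hx (by ring) hΔ hρ0 (by norm_num)
      (by norm_num) (by norm_num) (by norm_num) (by norm_num) (by norm_num) (by norm_num)
      (by norm_num) (by norm_num) (by norm_num) hb hη hη1 hκ hbE hz hz0
    have h1 := mul_le_mul_of_nonneg_right hcD D0
    have h2 := mul_le_mul_of_nonneg_right hcW W0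
    linarith only [hc, h1, h2]

/-- lower bound for the direct sum -/
theorem loc_lower {d1 d2 d3 w1 w2 w3 ρ τ D W : ℝ} (R : Rg d1 d2 d3 w1 w2 w3 ρ τ D W)
    {β b η κ z cD cW : ℝ} (hβ : 0 < β)
    (hbβ : b ≤ 2 * al * β) (hη1 : η ≤ Real.exp (-(2 * al * β))) (hT : TT β ≤ 24 * (1 + κ))
    (hb : 2 ≤ b) (hη : 0 ≤ η) (hη1' : 0 ≤ 1 / 4 - 8 * η) (hκ : 0 ≤ κ)
    (hbE : 2 * b * (1353268 / 146484375) ≤ 1)
    (hz : 108 * (1 + κ) * (232 / 1000) - 2 * b * (3 - b * (1353268 / 146484375)) ≤ z)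
    (hz0 : 0 ≤ z)
    (hcD : cD ≤ b / 2 + 4 * b * η - 2 * (1 + κ) -
      b * (b - 2 + 2 * b * (1353268 / 146484375)) * (1 / 2 * (6189211 / 35156250) * (121 / 5000)) -
      4 * b * η * (2 * b - 2 + 4 * b * (1353268 / 146484375)) *
        ((6189211 / 35156250) * (121 / 5000)) -
      ((1 + 1353268 / 146484375) ^ 3 * (b ^ 2 * (1 / 4 - 8 * η)) + 4 * (1 + κ)) * (11 / 100) / 6 -
      z * (1353268 / 146484375) * (6189211 / 35156250))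
    (hcW : cW ≤ 2 * b - 4 * (1 + κ) - b * (b - 2 + 2 * b * (1353268 / 146484375)) *
      ((1 / 2 * (6885746 / 17578125) + 2 * (6189211 / 35156250)) * (121 / 5000) +
        2 * (6885746 / 17578125) * (507 / 40000)) -
      4 * b * η * (2 * b - 2 + 4 * b * (1353268 / 146484375)) *
        ((6885746 / 17578125) * (121 / 5000)) -
      ((1 + 1353268 / 146484375) ^ 3 * b ^ 2 + 4 * (1 + κ)) * (11 / 100) -
      8 * (1 + κ) * (13 / 200) / 3 - z * (1353268 / 146484375) * (6885746 / 17578125)) :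
    Real.exp (-(2 * al * β)) * (2 * al * β) * (cD * D + cW * W) ≤
      Th β (pp d1 d2 d3 w1 w2 w3) - Th β Fp := by
  have hg := th_gain R.hd R.hp R.hρ hβ (by linarith : 0 < b) hbβ hη hη1 hT R.ρ1
  have hc := R.gain hb hη hη1' hκ hbE hz hz0 hcD hcW
  rw [← R.hD, ← R.hW] at hg
  have hal := al_pos
  have hy : 0 ≤ Real.exp (-(2 * al * β)) * (2 * al * β) := by positivity
  refine le_trans (mul_le_mul_of_nonneg_left ?_ hy) hg
  linarith only [hc]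

lemma be4 : 4 * be = mm * (2 * al) := by
  rw [← pi_mm, be_eq]
  ring

/-- lower bound for the dual sum -/
theorem dual_lower {d1 d2 d3 w1 w2 w3 ρ τ D W : ℝ} (R : Rg d1 d2 d3 w1 w2 w3 ρ τ D W)
    {β x1 x0 Y q3 Q3 q4 Q4 G2 G2' G1 Xi gD gW gz ξ l : ℝ} (hβ : 1 ≤ β)
    (hx1 : x1 ≤ 4 * (be * β)) (hx0 : x0 ≤ 3 * (be * β)) (x1p : 0 < x1) (x0p : 0 < x0)
    (hY : Real.exp (-(2 * al * β)) ≤ Y)
    (h3l : q3 ≤ Real.exp (2 * al * β - 3 * be * β)) (h3 : Real.exp (2 * al * β - 3 * be * β) ≤ Q3)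
    (h4l : q4 ≤ Real.exp (-(4 * be * β - 2 * al * β)))
    (h4 : Real.exp (-(4 * be * β - 2 * al * β)) ≤ Q4) (q30 : 0 ≤ q3) (q40 : 0 ≤ q4)
    (hG2 : G2 ≤ 1259921 / 1000000 * x1 * q4) (hG2' : 1259922 / 1000000 * x1 * Q4 ≤ G2')
    (hG1 : G1 ≤ 3 / 4 * (1259921 / 1000000) * x0 * q3)
    (hXi : 1259922 / 1000000 / 4 * (24 * Q3 + 24 * Q4 + 96 * (Y * Q4 ^ 2) +
      264 * (Q3 * Y ^ 2 * Q4 ^ 2) + 96 * (Y ^ 2 * Q4 ^ 3) + 80000 * (Y ^ 3 * Q4 ^ 4)) ≤ Xi)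
    (hxt : x1 * (1028 / 100000) ≤ 1)
    (hξ1 : 6 * (10375 / 10000) - x1 ≤ ξ)
    (hξ2 : x1 * (10568 / 10000) - 6 * (1 - x1 * (1028 / 100000)) ≤ ξ) (hξ0 : 0 ≤ ξ)
    (hl : x1 * (10568 / 10000) * (11 / 100 + (204 / 10000) / 3) -
      (1 - x1 * (1028 / 100000)) ≤ l) (l0 : 0 ≤ l)
    (hgD : gD ≤ 1 - x1 * (1871 / 10000) * (121 / 5000) - ξ * (11 / 100) / 6 -
      x1 * (10568 / 10000) * (121 / 5000) / 6 - l * (121 / 5000) / 6)
    (hgW : 2 * (11 / 100) * (10375 / 10000) + x1 * (4538 / 10000) * (121 / 5000) +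
      x1 * (10568 / 10000) * (121 / 5000) / 3 + l * ((13 / 200) ^ 2 + 2 / 3 * (121 / 5000)) ≤ gW)
    (gD0 : 0 ≤ gD) (gW0 : 0 ≤ gW)
    (hf : 0 ≤ 1 - x0 * (1028 / 100000) - 4 / 9 * x0 * (778 / 10000))
    (hgz : gz ≤ 16 / 9 * (1 - 2 * (11 / 100) - 2 * (13 / 200)) *
      (1 - x0 * (1028 / 100000) - 4 / 9 * x0 * (778 / 10000))) (gz0 : 0 ≤ gz) :
    Real.exp (-(2 * al * β)) * (2 * al * β) * ((G2 * gD - Xi * (1871 / 10000)) * D +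
      (G1 * gz - G2' * gW - Xi * (4538 / 10000)) * W) ≤
      Th β (qd (pp d1 d2 d3 w1 w2 w3)) - Th β Bp := by
  have hβ0 : 0 < β := by linarith
  have hal := al_pos
  have hbe := be_pos
  have hmm := mm_pos
  obtain ⟨m1, m2⟩ := mm_b
  norm_num at m1 m2
  have b4 := be4
  have τD := R.τL
  have hτ := R.hτ
  have D0 := R.D0
  have W0 := R.W0
  obtain ⟨y, hy⟩ : ∃ y, y = Real.exp (-(2 * al * β)) := ⟨_, rfl⟩
  obtain ⟨r3, hr3⟩ : ∃ y, y = Real.exp (2 * al * β - 3 * be * β) := ⟨_, rfl⟩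
  obtain ⟨r4, hr4⟩ : ∃ y, y = Real.exp (-(4 * be * β - 2 * al * β)) := ⟨_, rfl⟩
  have y0 : 0 < y := by rw [hy]; exact Real.exp_pos _
  have r30 : 0 < r3 := by rw [hr3]; exact Real.exp_pos _
  have r40 : 0 < r4 := by rw [hr4]; exact Real.exp_pos _
  have hHT := ht_le hβ hY h3 h4
  have e4 : Real.exp (-(4 * (be * β))) = y * r4 := by
    rw [hy, hr4, ← Real.exp_add]; congr 1; ring
  have e3 : Real.exp (-(3 * (be * β))) = y * r3 := by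
    rw [hy, hr3, ← Real.exp_add]; congr 1; ring
  have eb : Real.exp (2 * al * β) * y = 1 := by rw [hy, ← Real.exp_add]; simp
  rw [← hr3] at h3l h3
  rw [← hr4] at h4l h4
  rw [← hy] at hY ⊢
  obtain ⟨α1, hα1⟩ : ∃ α, α = ρ ^ 2 * (1 - d1 + d2 * d3 - w1 ^ 2) - 1 := ⟨_, rfl⟩
  obtain ⟨α2, hα2⟩ : ∃ α, α = ρ ^ 2 * (1 - d2 + d1 * d3 - w2 ^ 2) - 1 := ⟨_, rfl⟩
  obtain ⟨α3, hα3⟩ : ∃ α, α = ρ ^ 2 * (1 - d3 + d1 * d2 - w3 ^ 2) - 1 := ⟨_, rfl⟩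
  obtain ⟨z0, hz0⟩ : ∃ z, z = τ + 2 / 3 * (ρ ^ 2 * (w1 * w2 - w3 * (1 + d3)) +
      ρ ^ 2 * (w1 * w3 - w2 * (1 + d2)) + ρ ^ 2 * (w2 * w3 - w1 * (1 + d1))) := ⟨_, rfl⟩
  obtain ⟨z1, hz1⟩ : ∃ z, z = τ + 2 / 3 * (ρ ^ 2 * (w1 * w2 - w3 * (1 + d3)) -
      ρ ^ 2 * (w1 * w3 - w2 * (1 + d2)) - ρ ^ 2 * (w2 * w3 - w1 * (1 + d1))) := ⟨_, rfl⟩
  obtain ⟨z2, hz2⟩ : ∃ z, z = τ + 2 / 3 * (-(ρ ^ 2 * (w1 * w2 - w3 * (1 + d3))) +
      ρ ^ 2 * (w1 * w3 - w2 * (1 + d2)) - ρ ^ 2 * (w2 * w3 - w1 * (1 + d1))) := ⟨_, rfl⟩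
  obtain ⟨z3, hz3⟩ : ∃ z, z = τ + 2 / 3 * (-(ρ ^ 2 * (w1 * w2 - w3 * (1 + d3))) -
      ρ ^ 2 * (w1 * w3 - w2 * (1 + d2)) + ρ ^ 2 * (w2 * w3 - w1 * (1 + d1))) := ⟨_, rfl⟩
  have hg := dual_gain R.hd R.hp R.hρ hβ0 (by rw [hτ, R.hD, R.hW]) hα1 hα2 hα3 hz0 hz1 hz2 hz3
  have P2 := p2_ge (δ := 11 / 100) (ω := 13 / 200) (D1 := 121 / 5000) (W1 := 507 / 40000)
    (R4 := 10375 / 10000) (R6 := 10568 / 10000) (tD := 1871 / 10000) (tW := 4538 / 10000)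
    (tm := 1028 / 100000) (ξ := ξ) (l := l) (gm := 204 / 10000) (gD := gD) (gW := gW)
    R.hd R.b1 R.b2 R.b3 R.c1 R.c2 R.c3 R.hD R.hW R.D1 R.W1 hτ R.ρ1 R.R4 R.R6 R.τ0 τD (by norm_num)
    (by norm_num) x1p.le (by norm_num) hxt hξ1 hξ2 hξ0 (by norm_num) hl l0 hgD hgW hα1 hα2 hα3
  have τm : τ ≤ 1028 / 100000 := by linarith [R.D1, R.W1]
  have P1 := p1_ge (δ := 11 / 100) (ω := 13 / 200) (R2 := 10186 / 10000)
    (tm := 1028 / 100000) (βm := 778 / 10000) (gz := gz) (x := x0)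
    R.hd R.b1 R.b2 R.b3 R.c1 R.c2 R.c3 R.hW R.ρ1 R.R2 R.τ0 τm x0p.le (by norm_num) hf hgz rfl rfl rfl
    hz0 hz1 hz2 hz3
  have u4 : 0 < 4 * (be * β) := by positivity
  have u3 : 0 < 3 * (be * β) := by positivity
  have F1 := FF_one (v := α1) x1p hx1
  have F2 := FF_one (v := α2) x1p hx1
  have F3 := FF_one (v := α3) x1p hx1
  have F4 := FF_one (v := z0) x0p hx0
  have F5 := FF_one (v := z1) x0p hx0
  have F6 := FF_one (v := z2) x0p hx0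
  have F7 := FF_one (v := z3) x0p hx0
  obtain ⟨S4, hS4⟩ : ∃ S, S = FF (4 * (be * β) * α1) + FF (4 * (be * β) * α2) +
        FF (4 * (be * β) * α3) := ⟨_, rfl⟩
  obtain ⟨S3, hS3⟩ : ∃ S, S = FF (3 * (be * β) * z0) + FF (3 * (be * β) * z1) +
        FF (3 * (be * β) * z2) + FF (3 * (be * β) * z3) := ⟨_, rfl⟩
  rw [e4, e3, ← hS4, ← hS3] at hg
  have s4 : 4 * (be * β) * x1 / 2 * (gD * D - gW * W) ≤ S4 := by
    have h1 := mul_le_mul_of_nonneg_left P2 (show 0 ≤ 4 * (be * β) * x1 / 2 by positivity)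
    rw [hS4]
    linarith only [h1, F1, F2, F3]
  have s3 : 3 * (be * β) * x0 / 2 * (gz * W) ≤ S3 := by
    have h1 := mul_le_mul_of_nonneg_left P1 (show 0 ≤ 3 * (be * β) * x0 / 2 by positivity)
    rw [hS3]
    linarith only [h1, F4, F5, F6, F7]
  -- prefactors
  obtain ⟨B, hB⟩ : ∃ B, B = 2 * al * β := ⟨_, rfl⟩
  have B0 : 0 < B := by rw [hB]; positivity
  have f4 : 4 * (be * β) = mm * B := by
    rw [hB]
    calc 4 * (be * β) = 4 * be * β := by ring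
      _ = _ := by rw [b4]; ring
  have f3 : 3 * (be * β) = 3 / 4 * mm * B := by linarith
  have f1 : be * β = mm / 4 * B := by linarith
  rw [← hB] at eb hHT ⊢
  have yB : 0 < y * B := mul_pos y0 B0
  have A1 : y * B * (G2 * gD * D - G2' * gW * W) ≤ 2 * (y * r4 * S4) := by
    have h1 := mul_le_mul_of_nonneg_left s4 (show 0 ≤ 2 * (y * r4) by positivity)
    refine le_trans ?_ (h1.trans (le_of_eq (by ring)))
    rw [f4]
    have h2 : G2 ≤ mm * x1 * r4 := by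
      refine hG2.trans ?_
      exact mul_le_mul (mul_le_mul_of_nonneg_right (by linarith) x1p.le) h4l q40 (by positivity)
    have h3 : mm * x1 * r4 ≤ G2' := by
      refine le_trans ?_ hG2'
      exact mul_le_mul (mul_le_mul_of_nonneg_right (by linarith) x1p.le) h4 r40.le (by positivity)
    have h4 := mul_le_mul_of_nonneg_right h2 (mul_nonneg gD0 D0)
    have h5 := mul_le_mul_of_nonneg_right h3 (mul_nonneg gW0 W0)
    have h6 : G2 * gD * D - G2' * gW * W ≤ mm * x1 * r4 * (gD * D - gW * W) := by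
      linarith only [h4, h5]
    have h7 := mul_le_mul_of_nonneg_left h6 yB.le
    linarith only [h7]
  have A2 : y * B * (G1 * gz * W) ≤ 2 * (y * r3 * S3) := by
    have h1 := mul_le_mul_of_nonneg_left s3 (show 0 ≤ 2 * (y * r3) by positivity)
    refine le_trans ?_ (h1.trans (le_of_eq (by ring)))
    rw [f3]
    have h2 : G1 ≤ 3 / 4 * mm * x0 * r3 := by
      refine hG1.trans ?_
      exact mul_le_mul (mul_le_mul_of_nonneg_right (by linarith) x0p.le) h3l q30 (by positivity)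
    have h4 := mul_le_mul_of_nonneg_right h2 (mul_nonneg gz0 W0)
    have h7 := mul_le_mul_of_nonneg_left h4 yB.le
    linarith only [h7]
  have A3 : τ * (be * β * HT β) ≤ y * B * (Xi * (1871 / 10000 * D + 4538 / 10000 * W)) := by
    have h1 : be * β * HT β ≤ y * B * Xi := by
      have h2 : HT β = y * (Real.exp B * HT β) := by
        rw [← mul_assoc, mul_comm y, eb, one_mul]
      have h3 : 0 ≤ Real.exp B * HT β := mul_nonneg (Real.exp_pos _).le (ht_nonneg β)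
      have h4 : mm / 4 * (Real.exp B * HT β) ≤ Xi := by
        refine le_trans ?_ hXi
        exact mul_le_mul (by linarith) hHT h3 (by norm_num)
      have h5 := mul_le_mul_of_nonneg_left h4 yB.le
      rw [f1, h2]
      linarith only [h5]
    have h6 : 0 ≤ be * β * HT β := mul_nonneg (by positivity) (ht_nonneg β)
    calc τ * (be * β * HT β) ≤ (1871 / 10000 * D + 4538 / 10000 * W) * (be * β * HT β) :=
          mul_le_mul_of_nonneg_right τD h6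
      _ ≤ (1871 / 10000 * D + 4538 / 10000 * W) * (y * B * Xi) :=
          mul_le_mul_of_nonneg_left h1 (by positivity)
      _ = _ := by ring
  linarith only [hg, A1, A2, A3]

end Pool.Agent.U316.Ep
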