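import Pool.Agent.U316.Ep.LocF
import Pool.Agent.U316.Ep.End

/-!
# The pair sum near the face-centred cubic form
-/

set_option autoImplicit false

open Matrix MeasureTheory Set Pool.Agent.K1H99.FCC

namespace Pool.Agent.U316.Ep

open Pool.Agent.U316.Th (Th Bp PD_Bp qd PD_qd mm mm_pos FF FF_nonneg FF_one TT tt_summable
  pi_mm th_dual th_Bp)

/-- upper bounds for the second moment of the face-centred cubic lattice -/
lemma tt_le' {β y : ℝ} (hβ : 4 / 5 ≤ β) (hy : Real.exp (-(2 * al * β)) ≤ y) :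
    TT β ≤ 24 + 24 * y + 144 * y ^ 2 + 96 * y ^ 3 + 14884 * y ^ 4 := by
  have hal := al_bounds.1
  have hal0 := al_pos
  have hab : 158 / 100 ≤ al * β := by nlinarith
  have hy0 := (Real.exp_pos (-(2 * al * β))).le
  have e52 : Real.exp (5 / 2) ≤ 122 / 10 := by
    refine exp_ub (s := 1169119 / 10 ^ 6) (by norm_num) (by norm_num) ?_ ?_
    · norm_num [Finset.sum_range_succ, Nat.factorial]
    · norm_num
  have hK : Real.exp (-(8 * al * β - 5 / 2)) ≤ 122 / 10 * y ^ 4 := by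
    have e : Real.exp (-(8 * al * β - 5 / 2)) = Real.exp (5 / 2) *
        Real.exp (-(2 * al * β)) ^ 4 := by
      rw [← Real.exp_nat_mul, ← Real.exp_add]
      congr 1
      push_cast
      ring
    rw [e]
    exact mul_le_mul e52 (pow_le_pow_left₀ hy0 hy 4) (by positivity) (by norm_num)
  obtain ⟨K, hKd⟩ : ∃ K, K = 122 / 10 * y ^ 4 := ⟨_, rfl⟩
  rw [← hKd] at hK
  have hK0 : 0 ≤ K := (Real.exp_pos _).le.trans hK
  unfold TT
  have h := shell JG JG_inj SG 10 JG_mem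
    (fun m : ℕ => (m : ℝ) * Real.exp (-(al * β * ((m : ℝ) - 2))))
    (fun m => by positivity) (tt_summable (by linarith)) (K := 10 * K) (μ := 1 / 4)
    (by norm_num) (by linarith) (by
      intro m hm
      have hm' : (10:ℝ) ≤ m := by exact_mod_cast hm
      have e : Real.exp (-(al * β * ((m:ℝ) - 2))) =
          Real.exp (-(8 * al * β - 5 / 2) - (al * β - 1 / 4) * (m - 10)) *
            Real.exp (-(1 / 4) * (m:ℝ)) := by
        rw [← Real.exp_add]
        congr 1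
        ring
      have h1 : (m:ℝ) ≤ 10 * Real.exp ((m - 10) / 10) := by
        have := Real.add_one_le_exp (((m:ℝ) - 10) / 10)
        linarith
      rw [e, ← mul_assoc]
      refine mul_le_mul_of_nonneg_right ?_ (Real.exp_pos _).le
      calc (m:ℝ) * Real.exp (-(8 * al * β - 5 / 2) - (al * β - 1 / 4) * (m - 10))
          ≤ 10 * Real.exp ((m - 10) / 10) *
            Real.exp (-(8 * al * β - 5 / 2) - (al * β - 1 / 4) * (m - 10)) :=
          mul_le_mul_of_nonneg_right h1 (Real.exp_pos _).le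
        _ = 10 * Real.exp (-(8 * al * β - 5 / 2) - (al * β - 1 / 4 - 1 / 10) * (m - 10)) := by
          rw [mul_assoc, ← Real.exp_add]
          congr 2
          ring
        _ ≤ 10 * K := by
          refine mul_le_mul_of_nonneg_left ?_ (by norm_num)
          refine le_trans (Real.exp_le_exp.2 ?_) hK
          have : 0 ≤ (al * β - 1 / 4 - 1 / 10) * ((m:ℝ) - 10) :=
            mul_nonneg (by linarith) (by linarith)
          linarith)
  refine h.trans ?_
  rw [sum_SG (fun m : ℕ => (m : ℝ) * Real.exp (-(al * β * ((m : ℝ) - 2))))]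
  have t := th2
  have e2 : Real.exp (-(al * β * (((2:ℕ):ℝ) - 2))) = 1 := by
    push_cast
    rw [sub_self, mul_zero, neg_zero, Real.exp_zero]
  have e4 : Real.exp (-(al * β * (((4:ℕ):ℝ) - 2))) = Real.exp (-(2 * al * β)) := by
    congr 1
    push_cast
    ring
  have e6 : Real.exp (-(al * β * (((6:ℕ):ℝ) - 2))) = Real.exp (-(2 * al * β)) ^ 2 := by
    rw [← Real.exp_nat_mul]
    congr 1
    push_cast
    ring
  have e8 : Real.exp (-(al * β * (((8:ℕ):ℝ) - 2))) = Real.exp (-(2 * al * β)) ^ 3 := by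
    rw [← Real.exp_nat_mul]
    congr 1
    push_cast
    ring
  rw [e2, e4, e6, e8]
  push_cast
  have p2 := pow_le_pow_left₀ hy0 hy 2
  have p3 := pow_le_pow_left₀ hy0 hy 3
  have p4 := mul_le_mul_of_nonneg_left t hK0
  rw [hKd] at p4 ⊢
  linarith

/-- the dual difference at the inverse temperature -/
lemma e_dual {p : Fin 6 → ℝ} (hp : PD p) {t : ℝ} (ht : 0 < t) :
    Th t (qd p) - Th t Bp = t ^ (-(3 / 2) : ℝ) * (Th (1 / t) p - Th (1 / t) Fp) := by
  have h1 := th_dual hp (β := 1 / t) (by positivity)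
  have h2 := th_Bp ht
  rw [one_div_one_div] at h1
  have h3 : t ^ (-(3 / 2) : ℝ) * (1 / t) ^ (-(3 / 2) : ℝ) = 1 := by
    rw [← Real.mul_rpow ht.le (by positivity), mul_one_div_cancel ht.ne', Real.one_rpow]
  have h4 : t ^ (-(3 / 2) : ℝ) * (1 + Th (1 / t) p) = 1 + Th t (qd p) := by
    rw [h1, ← mul_assoc, h3, one_mul]
  rw [mul_add, mul_one] at h4 h2
  linarith

lemma rpow_72_le {t q : ℝ} (ht : 0 < t) (hq : 0 ≤ q) (h : 1 ≤ q ^ 2 * t ^ 7) :
    t ^ (-(7 / 2) : ℝ) ≤ q := by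
  have h0 : 0 ≤ t ^ (-(7 / 2) : ℝ) := by positivity
  have h1 : (t ^ (-(7 / 2) : ℝ)) ^ 2 * t ^ 7 = 1 := by
    rw [← Real.rpow_natCast, ← Real.rpow_mul ht.le, ← Real.rpow_natCast t 7, ← Real.rpow_add ht]
    norm_num
  refine (pow_le_pow_iff_left₀ h0 hq two_ne_zero).1 ?_
  have h7 : 0 < t ^ 7 := by positivity
  exact le_of_mul_le_mul_right (by rw [h1]; exact h) h7

lemma le_rpow_72 {t q : ℝ} (ht : 0 < t) (hq : 0 ≤ q) (h : q ^ 2 * t ^ 7 ≤ 1) :
    q ≤ t ^ (-(7 / 2) : ℝ) := by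
  have h0 : 0 ≤ t ^ (-(7 / 2) : ℝ) := by positivity
  have h1 : (t ^ (-(7 / 2) : ℝ)) ^ 2 * t ^ 7 = 1 := by
    rw [← Real.rpow_natCast, ← Real.rpow_mul ht.le, ← Real.rpow_natCast t 7, ← Real.rpow_add ht]
    norm_num
  refine (pow_le_pow_iff_left₀ hq h0 two_ne_zero).1 ?_
  have h7 : 0 < t ^ 7 := by positivity
  exact le_of_mul_le_mul_right (by rw [h1]; exact h) h7

/-- the target lower bound -/
def LB (c d t D W p : ℝ) : Prop := Real.exp (-(2 * al * t)) * (c * D + d * W) ≤ p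

/-- small inverse temperatures -/
theorem slabA {d1 d2 d3 w1 w2 w3 ρ τ D W : ℝ} (R : Rg d1 d2 d3 w1 w2 w3 ρ τ D W)
    {t t1 t2 b q1 q2 E1 E2 cD cW cD' cW' gD gW : ℝ} (ht1 : t1 ≤ t) (ht2 : t ≤ t2) (h1 : 1 ≤ t1)
    (hb : b ≤ 2 * al * t1) (b0 : 0 ≤ b)
    (g1 : Real.exp (-(2 * al * t)) * (2 * al * t) * (cD * D + cW * W) ≤
      Th t (pp d1 d2 d3 w1 w2 w3) - Th t Fp)
    (g2 : Real.exp (-(2 * al * (1 / t))) * (2 * al * (1 / t)) * (cD' * D + cW' * W) ≤
      Th (1 / t) (pp d1 d2 d3 w1 w2 w3) - Th (1 / t) Fp)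
    (hq1 : 1 ≤ q1 ^ 2 * t1 ^ 7) (q10 : 0 ≤ q1) (hq2 : q2 ^ 2 * t2 ^ 7 ≤ 1) (q20 : 0 ≤ q2)
    (hE1 : E1 ≤ Real.exp (2 * al * (t1 - 1 / t1))) (E10 : 0 ≤ E1)
    (hE2 : Real.exp (2 * al * (t2 - 1 / t2)) ≤ E2)
    (hD1 : gD ≤ b * (cD + q2 * E1 * cD')) (hD2 : gD ≤ b * (cD + q1 * E2 * cD'))
    (hW1 : gW ≤ b * (cW + q2 * E1 * cW')) (hW2 : gW ≤ b * (cW + q1 * E2 * cW'))
    (gD0 : 0 ≤ gD) (gW0 : 0 ≤ gW) (b1 : 0 < b) :
    Real.exp (-(2 * al * t)) * (gD * D + gW * W) ≤ Sf t (pp d1 d2 d3 w1 w2 w3) := by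
  have ht0 : 0 < t := by linarith
  have ht10 : 0 < t1 := by linarith
  have ht20 : 0 < t2 := by linarith
  have hal := al_pos
  obtain ⟨B, hB⟩ : ∃ B, B = 2 * al * t := ⟨_, rfl⟩
  have bB : b ≤ B := by
    rw [hB]
    exact hb.trans (mul_le_mul_of_nonneg_left ht1 (by positivity))
  obtain ⟨y, hy⟩ : ∃ y, y = Real.exp (-(2 * al * t)) := ⟨_, rfl⟩
  have y0 : 0 < y := by rw [hy]; exact Real.exp_pos _
  have B0 : 0 < B := by linarith
  obtain ⟨r, hr⟩ : ∃ r, r = t ^ (-(7 / 2) : ℝ) * Real.exp (2 * al * (t - 1 / t)) := ⟨_, rfl⟩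
  have ed := e_dual R.hp ht0
  have hT : t ^ (-(3 / 2) : ℝ) * (Real.exp (-(2 * al * (1 / t))) * (2 * al * (1 / t))) =
      y * B * r := by
    have e1 : t ^ (-(3 / 2) : ℝ) = t ^ (-(7 / 2) : ℝ) * (t * t) := by
      have : t * t = t ^ (2 : ℝ) := by norm_cast; ring
      rw [this, ← Real.rpow_add ht0]
      norm_num
    have e2 : Real.exp (-(2 * al * (1 / t))) = y * Real.exp (2 * al * (t - 1 / t)) := by
      rw [hy, ← Real.exp_add]
      congr 1
      ring
    rw [e1, e2, hr, hB]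
    field_simp
  have mono : ∀ u v : ℝ, 0 < u → u ≤ v → u - 1 / u ≤ v - 1 / v := by
    intro u v hu huv
    have := one_div_le_one_div_of_le hu huv
    linarith
  have rlo : q2 * E1 ≤ r := by
    rw [hr]
    refine mul_le_mul ?_ ?_ E10 (by positivity)
    · refine (le_rpow_72 ht20 q20 hq2).trans ?_
      exact Real.rpow_le_rpow_of_nonpos ht0 ht2 (by norm_num)
    · refine hE1.trans (Real.exp_le_exp.2 ?_)
      exact mul_le_mul_of_nonneg_left (mono t1 t ht10 ht1) (by positivity)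
  have rhi : r ≤ q1 * E2 := by
    rw [hr]
    refine mul_le_mul ?_ ?_ (Real.exp_pos _).le q10
    · refine (Real.rpow_le_rpow_of_nonpos ht10 ht1 (by norm_num)).trans ?_
      exact rpow_72_le ht10 q10 hq1
    · refine le_trans (Real.exp_le_exp.2 ?_) hE2
      exact mul_le_mul_of_nonneg_left (mono t t2 ht0 ht2) (by positivity)
  have key : ∀ c c' g : ℝ, 0 ≤ g → g ≤ b * (c + q2 * E1 * c') → g ≤ b * (c + q1 * E2 * c') →
      g ≤ B * (c + r * c') := by
    intro c c' g g0 k1 k2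
    have h2 : g ≤ b * (c + r * c') := by
      rcases le_total 0 c' with h | h
      · have := mul_le_mul_of_nonneg_right rlo h
        have := mul_le_mul_of_nonneg_left this b0
        linarith
      · have := mul_le_mul_of_nonpos_right rhi h
        have := mul_le_mul_of_nonneg_left this b0
        linarith
    have h3 : 0 ≤ c + r * c' := by
      by_contra hc
      push Not at hc
      have := mul_neg_of_pos_of_neg b1 hc
      linarith
    exact h2.trans (mul_le_mul_of_nonneg_right bB h3)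
  have k1 := key cD cD' gD gD0 hD1 hD2
  have k2 := key cW cW' gW gW0 hW1 hW2
  have g2' := mul_le_mul_of_nonneg_left g2 (show 0 ≤ t ^ (-(3 / 2) : ℝ) by positivity)
  rw [← mul_assoc, hT] at g2'
  rw [← ed] at g2'
  rw [← hy, ← hB] at g1
  rw [← hy]
  have k3 := mul_le_mul_of_nonneg_left (mul_le_mul_of_nonneg_right k1 R.D0) y0.le
  have k4 := mul_le_mul_of_nonneg_left (mul_le_mul_of_nonneg_right k2 R.W0) y0.le
  unfold Sf
  linarith only [g1, g2', k3, k4]

/-- large inverse temperatures -/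
theorem slabBB {d1 d2 d3 w1 w2 w3 ρ τ D W : ℝ} (R : Rg d1 d2 d3 w1 w2 w3 ρ τ D W)
    {t b cD cW eD eW gD gW : ℝ} (hb : b ≤ 2 * al * t) (b0 : 0 < b)
    (g1 : Real.exp (-(2 * al * t)) * (2 * al * t) * (cD * D + cW * W) ≤
      Th t (pp d1 d2 d3 w1 w2 w3) - Th t Fp)
    (g2 : Real.exp (-(2 * al * t)) * (2 * al * t) * (eD * D + eW * W) ≤
      Th t (qd (pp d1 d2 d3 w1 w2 w3)) - Th t Bp)
    (hD : gD ≤ b * (cD + eD)) (hW : gW ≤ b * (cW + eW)) (gD0 : 0 ≤ gD) (gW0 : 0 ≤ gW) :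
    Real.exp (-(2 * al * t)) * (gD * D + gW * W) ≤ Sf t (pp d1 d2 d3 w1 w2 w3) := by
  have hal := al_pos
  obtain ⟨B, hB⟩ : ∃ B, B = 2 * al * t := ⟨_, rfl⟩
  obtain ⟨y, hy⟩ : ∃ y, y = Real.exp (-(2 * al * t)) := ⟨_, rfl⟩
  have y0 : 0 < y := by rw [hy]; exact Real.exp_pos _
  rw [← hB] at hb
  rw [← hy, ← hB] at g1 g2
  rw [← hy]
  have key : ∀ c g : ℝ, 0 ≤ g → g ≤ b * c → g ≤ B * c := by
    intro c g g0 k
    have h3 : 0 ≤ c := by
      by_contra hc
      push Not at hc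
      have := mul_neg_of_pos_of_neg b0 hc
      linarith
    exact k.trans (mul_le_mul_of_nonneg_right hb h3)
  have k1 := key _ gD gD0 hD
  have k2 := key _ gW gW0 hW
  have k3 := mul_le_mul_of_nonneg_left (mul_le_mul_of_nonneg_right k1 R.D0) y0.le
  have k4 := mul_le_mul_of_nonneg_left (mul_le_mul_of_nonneg_right k2 R.W0) y0.le
  unfold Sf
  linarith only [g1, g2, k3, k4]

lemma ht_decay {a t : ℝ} (ha : 0 < a) (hat : a ≤ t) :
    HT t ≤ Real.exp (-(3 * be * (t - a))) * HT a := by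
  have ht : 0 < t := ha.trans_le hat
  unfold HT
  rw [← tsum_mul_left]
  refine (ht_summable ht).tsum_le_tsum (fun n => ?_) ((ht_summable ha).mul_left _)
  have e : Real.exp (-(3 * be * (t - a))) * ((nz (JH n) : ℝ) *
      Real.exp (-(be * a * (nz (JH n) : ℝ)))) = (nz (JH n) : ℝ) *
      Real.exp (-(3 * be * (t - a)) - be * a * (nz (JH n) : ℝ)) := by
    rw [sub_eq_add_neg (-(3 * be * (t - a))), Real.exp_add]
    ring
  rw [e]
  refine mul_le_mul_of_nonneg_left (Real.exp_le_exp.2 ?_) (Nat.cast_nonneg _)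
  have h3 : (3:ℝ) ≤ nz (JH n) := by exact_mod_cast nz_JH_ge n
  have hb := be_pos
  have : 0 ≤ be * (t - a) * ((nz (JH n) : ℝ) - 3) :=
    mul_nonneg (mul_nonneg hb.le (by linarith)) (by linarith)
  linarith

/-- the pair sum for very large inverse temperatures -/
lemma sf_tail {d1 d2 d3 w1 w2 w3 ρ τ D W : ℝ} (R : Rg d1 d2 d3 w1 w2 w3 ρ τ D W)
    {t : ℝ} (ht : 1 < t) : -(τ * (be * t * HT t)) ≤ Sf t (pp d1 d2 d3 w1 w2 w3) := by
  have hg := dual_gain R.hd R.hp R.hρ (β := t) (τ := τ) (by linarith) (by rw [R.hτ, R.hD, R.hW])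
    rfl rfl rfl rfl rfl rfl rfl
  have h1 := th_ge_F R.hp ht
  have key : ∀ a b : ℝ, 0 ≤ Real.exp a * FF b := fun a b =>
    mul_nonneg (Real.exp_pos _).le (FF_nonneg _)
  unfold Sf
  refine le_trans ?_ (le_trans hg ?_)
  · have : ∀ a b c d e f g x y : ℝ, 0 ≤ Real.exp x * (FF a + FF b + FF c) +
        Real.exp y * (FF d + FF e + FF f + FF g) := by
      intro a b c d e f g x y
      have := FF_nonneg a; have := FF_nonneg b; have := FF_nonneg c; have := FF_nonneg d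
      have := FF_nonneg e; have := FF_nonneg f; have := FF_nonneg g
      positivity
    have h2 := this (4 * (be * t) * (ρ ^ 2 * (1 - d1 + d2 * d3 - w1 ^ 2) - 1))
      (4 * (be * t) * (ρ ^ 2 * (1 - d2 + d1 * d3 - w2 ^ 2) - 1))
      (4 * (be * t) * (ρ ^ 2 * (1 - d3 + d1 * d2 - w3 ^ 2) - 1))
      (3 * (be * t) * (τ + 2 / 3 * (ρ ^ 2 * (w1 * w2 - w3 * (1 + d3)) +
      ρ ^ 2 * (w1 * w3 - w2 * (1 + d2)) + ρ ^ 2 * (w2 * w3 - w1 * (1 + d1)))))
      (3 * (be * t) * (τ + 2 / 3 * (ρ ^ 2 * (w1 * w2 - w3 * (1 + d3)) -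
      ρ ^ 2 * (w1 * w3 - w2 * (1 + d2)) - ρ ^ 2 * (w2 * w3 - w1 * (1 + d1)))))
      (3 * (be * t) * (τ + 2 / 3 * (-(ρ ^ 2 * (w1 * w2 - w3 * (1 + d3))) +
      ρ ^ 2 * (w1 * w3 - w2 * (1 + d2)) - ρ ^ 2 * (w2 * w3 - w1 * (1 + d1)))))
      (3 * (be * t) * (τ + 2 / 3 * (-(ρ ^ 2 * (w1 * w2 - w3 * (1 + d3))) -
      ρ ^ 2 * (w1 * w3 - w2 * (1 + d2)) + ρ ^ 2 * (w2 * w3 - w1 * (1 + d1)))))
      (-(4 * (be * t))) (-(3 * (be * t)))
    linarith only [h2]
  · linarith only [h1]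

/-- assembling the local lower bounds -/
theorem loc_fin {d1 d2 d3 w1 w2 w3 ρ τ D W : ℝ} (R : Rg d1 d2 d3 w1 w2 w3 ρ τ D W)
    {T gD gW X y1 y2 : ℝ} (hT : 2 ≤ T)
    (hS : ∀ t, 1 < t → t < T → Real.exp (-(2 * al * t)) * (gD * D + gW * W) ≤
      Sf t (pp d1 d2 d3 w1 w2 w3)) (gD0 : 0 ≤ gD) (gW0 : 0 ≤ gW)
    (hX : be * T * HT T ≤ X) (hy1 : y1 ≤ Real.exp (-(2 * al * 1)))
    (hy2 : Real.exp (-(2 * al * T)) ≤ y2) (hy : y2 ≤ y1)
    (hD : 1871 / 10000 * X * (39581588 / 10000000) ≤ gD * (y1 - y2) * (32402253 / 10000000))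
    (hW : 4538 / 10000 * X * (39581588 / 10000000) ≤ gW * (y1 - y2) * (32402253 / 10000000)) :
    FinP (pp d1 d2 d3 w1 w2 w3) := by
  intro σ hσ
  have hal := al_bounds
  have hbe := be_bounds
  have D0 := R.D0
  have W0 := R.W0
  have hT0 : 0 < T := by linarith
  obtain ⟨Z, hZ⟩ : ∃ Z, Z = be * T * HT T := ⟨_, rfl⟩
  have Z0 : 0 ≤ Z := by
    rw [hZ]
    exact mul_nonneg (mul_nonneg be_pos.le hT0.le) (ht_nonneg T)
  have b0 : 0 < 3 * be - 1 / 2 := by linarith [hbe.1]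
  refine weight_int (T := T) (A := gD * D + gW * W) (B := τ * Z * Real.exp ((3 * be - 1 / 2) * T))
    (c := 2 * al) (b := 3 * be - 1 / 2) (by linarith) (by linarith) (by positivity)
    (mul_nonneg (mul_nonneg R.τ0 Z0) (Real.exp_pos _).le) (by linarith [hal.1]) b0
    (fun t t1 t2 => ?_) (fun t ht => ?_) ?_
  · refine le_trans (le_of_eq ?_) (hS t t1 t2)
    rw [mul_comm]
    congr 2
    ring
  · have ht0 : 0 < t := by linarith
    refine le_trans ?_ (sf_tail R (by linarith))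
    rw [neg_le_neg_iff]
    have h1 := ht_decay hT0 ht
    have h2 : t ≤ T * Real.exp (1 / 2 * (t - T)) := by
      have h3 := Real.add_one_le_exp (1 / 2 * (t - T))
      have h4 := mul_le_mul_of_nonneg_left h3 hT0.le
      have h5 : 0 ≤ (T - 2) * (t - T) := mul_nonneg (by linarith) (by linarith)
      linarith
    have h3 : be * t * HT t ≤ be * (T * Real.exp (1 / 2 * (t - T))) *
        (Real.exp (-(3 * be * (t - T))) * HT T) :=
      mul_le_mul (mul_le_mul_of_nonneg_left h2 be_pos.le) h1 (ht_nonneg t)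
        (mul_nonneg be_pos.le (mul_nonneg hT0.le (Real.exp_pos _).le))
    have h4 := mul_le_mul_of_nonneg_left h3 R.τ0
    refine h4.trans (le_of_eq ?_)
    have h5 : Real.exp (1 / 2 * (t - T)) * Real.exp (-(3 * be * (t - T))) =
        Real.exp ((3 * be - 1 / 2) * T) * Real.exp (-(3 * be - 1 / 2) * t) := by
      rw [← Real.exp_add, ← Real.exp_add]
      congr 1
      ring
    rw [hZ]
    calc τ * (be * (T * Real.exp (1 / 2 * (t - T))) * (Real.exp (-(3 * be * (t - T))) * HT T))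
        = τ * (be * T * HT T) * (Real.exp (1 / 2 * (t - T)) * Real.exp (-(3 * be * (t - T)))) := by
          ring
      _ = _ := by rw [h5]; ring
  · have e1 : Real.exp ((3 * be - 1 / 2) * T) * Real.exp (-(3 * be - 1 / 2) * T) = 1 := by
      rw [← Real.exp_add, ← Real.exp_zero]
      congr 1
      ring
    have e2 : τ * Z * Real.exp ((3 * be - 1 / 2) * T) * (Real.exp (-(3 * be - 1 / 2) * T) /
        (3 * be - 1 / 2)) = τ * Z / (3 * be - 1 / 2) := by
      rw [mul_assoc, ← mul_div_assoc, e1, mul_one_div]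
    rw [e2]
    have f1 : Real.exp (-(2 * al) * 1) = Real.exp (-(2 * al * 1)) := by congr 1; ring
    have f2 : Real.exp (-(2 * al) * T) = Real.exp (-(2 * al * T)) := by congr 1; ring
    rw [f1, f2]
    have h1 : τ * Z ≤ (1871 / 10000 * D + 4538 / 10000 * W) * X := by
      rw [hZ]
      refine mul_le_mul R.τL hX ?_ (by positivity)
      rw [← hZ]
      exact Z0
    have X0 : 0 ≤ X := by rw [← hZ] at hX; exact Z0.trans hX
    have al2 : 2 * al ≤ 39581588 / 10000000 := by linarith [hal.2]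
    have be3 : 32402253 / 10000000 ≤ 3 * be - 1 / 2 := by linarith [hbe.1]
    have al0 : 0 < 2 * al := by linarith [hal.1]
    have h2 : (1871 / 10000 * D + 4538 / 10000 * W) * X * (39581588 / 10000000) ≤
        (gD * D + gW * W) * (y1 - y2) * (32402253 / 10000000) := by
      have k1 := mul_le_mul_of_nonneg_right hD D0
      have k2 := mul_le_mul_of_nonneg_right hW W0
      linarith only [k1, k2]
    have A0 : 0 ≤ gD * D + gW * W := by positivity
    rw [← mul_div_assoc, div_le_div_iff₀ b0 al0]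
    calc τ * Z * (2 * al) ≤ (1871 / 10000 * D + 4538 / 10000 * W) * X * (39581588 / 10000000) :=
          mul_le_mul h1 al2 al0.le (by positivity)
      _ ≤ (gD * D + gW * W) * (y1 - y2) * (32402253 / 10000000) := h2
      _ ≤ (gD * D + gW * W) * (Real.exp (-(2 * al * 1)) - Real.exp (-(2 * al * T))) *
          (3 * be - 1 / 2) := by
          refine mul_le_mul ?_ be3 (by norm_num) ?_
          · exact mul_le_mul_of_nonneg_left (by linarith) A0
          · exact mul_nonneg A0 (by linarith)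

end Pool.Agent.U316.Ep
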