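import Pool.Agent.U316.Ep.LocN

/-!
# The local lower bounds for the pair sum
-/

set_option autoImplicit false

open Matrix Pool.Agent.K1H99.FCC

namespace Pool.Agent.U316.Ep

open Pool.Agent.U316.Th (Th Bp qd TT tt_anti)

lemma sA0 {d1 d2 d3 w1 w2 w3 ρ τ D W : ℝ} (R : Rg d1 d2 d3 w1 w2 w3 ρ τ D W)
    {t : ℝ} (h1 : 1 ≤ t) (h2 : t ≤ 103 / 100) :
    Real.exp (-(2 * al * t)) * (3 / 20 * D + 1 * W) ≤ Sf t (pp d1 d2 d3 w1 w2 w3) := by
  obtain ⟨e1, e2⟩ := al_bounds
  have hal := al_pos
  have ht0 : 0 < t := lt_of_lt_of_le (by norm_num) h1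
  have m1 : al * (1) ≤ al * t := mul_le_mul_of_nonneg_left h1 hal.le
  have m2 : al * t ≤ al * (103 / 100) := mul_le_mul_of_nonneg_left h2 hal.le
  have i1 : 1 / t ≤ 1 := by
    rw [div_le_iff₀ ht0]
    linarith
  have i2 : 100 / 103 ≤ 1 / t := by
    rw [le_div_iff₀ ht0]
    linarith
  have m3 : al * (1 / t) ≤ al * (1) := mul_le_mul_of_nonneg_left i1 hal.le
  have m4 : al * (100 / 103) ≤ al * (1 / t) := mul_le_mul_of_nonneg_left i2 hal.le
  have g1 := loc_lower R (β := t) (b := 79163 / 20000) (η := 16959 / 1000000) (κ := 10699 / 500000)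
    (z := 1333 / 625) (cD := 6859 / 100000) (cW := 122307 / 100000) ht0 (by linarith)
    (le_trans (le_trans (by norm_num) y103x100.1) (Real.exp_le_exp.2 (by linarith)))
    ((tt_anti (by norm_num) h1).trans ((tt_le' (by norm_num) y1x1.2).trans (by norm_num)))
    (by norm_num) (by norm_num) (by norm_num) (by norm_num) (by norm_num) (by norm_num)
    (by norm_num) (by norm_num) (by norm_num)
  have g2 := loc_lower R (β := 1 / t) (b := 384287 / 100000) (η := 9549 / 500000)
    (κ := 24359 / 1000000)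
    (z := 1441 / 500) (cD := 1823 / 50000) (cW := 54647 / 50000) (by positivity) (by linarith)
    (le_trans (le_trans (by norm_num) y1x1.1) (Real.exp_le_exp.2 (by linarith)))
    ((tt_anti (by norm_num) i2).trans ((tt_le' (by norm_num) y100x103.2).trans (by norm_num)))
    (by norm_num) (by norm_num) (by norm_num) (by norm_num) (by norm_num) (by norm_num)
    (by norm_num) (by norm_num) (by norm_num)
  exact slabA R (t1 := 1) (t2 := 103 / 100) (b := 79163 / 20000) (q1 := 1)
    (q2 := 180343 / 200000) (E1 := 1) (E2 := 3159209 / 2500000) h1 h2 (by norm_num)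
    (by linarith) (by norm_num) g1 g2 (by norm_num) (by norm_num) (by norm_num) (by norm_num)
    u1x1.1 (by norm_num) u103x100.2 (by norm_num) (by norm_num) (by norm_num) (by norm_num)
    (by norm_num) (by norm_num) (by norm_num)

lemma sA1 {d1 d2 d3 w1 w2 w3 ρ τ D W : ℝ} (R : Rg d1 d2 d3 w1 w2 w3 ρ τ D W)
    {t : ℝ} (h1 : 103 / 100 ≤ t) (h2 : t ≤ 53 / 50) :
    Real.exp (-(2 * al * t)) * (3 / 20 * D + 1 * W) ≤ Sf t (pp d1 d2 d3 w1 w2 w3) := by
  obtain ⟨e1, e2⟩ := al_bounds
  have hal := al_pos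
  have ht0 : 0 < t := lt_of_lt_of_le (by norm_num) h1
  have m1 : al * (103 / 100) ≤ al * t := mul_le_mul_of_nonneg_left h1 hal.le
  have m2 : al * t ≤ al * (53 / 50) := mul_le_mul_of_nonneg_left h2 hal.le
  have i1 : 1 / t ≤ 100 / 103 := by
    rw [div_le_iff₀ ht0]
    linarith
  have i2 : 50 / 53 ≤ 1 / t := by
    rw [le_div_iff₀ ht0]
    linarith
  have m3 : al * (1 / t) ≤ al * (100 / 103) := mul_le_mul_of_nonneg_left i1 hal.le
  have m4 : al * (50 / 53) ≤ al * (1 / t) := mul_le_mul_of_nonneg_left i2 hal.le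
  have g1 := loc_lower R (β := t) (b := 40769 / 10000) (η := 753 / 50000) (κ := 18757 / 1000000)
    (z := 13717 / 10000) (cD := 2593 / 25000) (cW := 67567 / 50000) ht0 (by linarith)
    (le_trans (le_trans (by norm_num) y53x50.1) (Real.exp_le_exp.2 (by linarith)))
    ((tt_anti (by norm_num) h1).trans ((tt_le' (by norm_num) y103x100.2).trans (by norm_num)))
    (by norm_num) (by norm_num) (by norm_num) (by norm_num) (by norm_num) (by norm_num)
    (by norm_num) (by norm_num) (by norm_num)
  have g2 := loc_lower R (β := 1 / t) (b := 373411 / 100000) (η := 21431 / 1000000)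
    (κ := 27577 / 1000000)
    (z := 18 / 5) (cD := 51 / 6250) (cW := 48239 / 50000) (by positivity) (by linarith)
    (le_trans (le_trans (by norm_num) y100x103.1) (Real.exp_le_exp.2 (by linarith)))
    ((tt_anti (by norm_num) i2).trans ((tt_le' (by norm_num) y50x53.2).trans (by norm_num)))
    (by norm_num) (by norm_num) (by norm_num) (by norm_num) (by norm_num) (by norm_num)
    (by norm_num) (by norm_num) (by norm_num)
  exact slabA R (t1 := 103 / 100) (t2 := 53 / 50) (b := 40769 / 10000) (q1 := 225429 / 250000)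
    (q2 := 81551 / 100000) (E1 := 126368357 / 100000000) (E2 := 7932547 / 5000000) h1 h2 (by norm_num)
    (by linarith) (by norm_num) g1 g2 (by norm_num) (by norm_num) (by norm_num) (by norm_num)
    u103x100.1 (by norm_num) u53x50.2 (by norm_num) (by norm_num) (by norm_num) (by norm_num)
    (by norm_num) (by norm_num) (by norm_num)

lemma sA2 {d1 d2 d3 w1 w2 w3 ρ τ D W : ℝ} (R : Rg d1 d2 d3 w1 w2 w3 ρ τ D W)
    {t : ℝ} (h1 : 53 / 50 ≤ t) (h2 : t ≤ 109 / 100) :
    Real.exp (-(2 * al * t)) * (3 / 20 * D + 1 * W) ≤ Sf t (pp d1 d2 d3 w1 w2 w3) := by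
  obtain ⟨e1, e2⟩ := al_bounds
  have hal := al_pos
  have ht0 : 0 < t := lt_of_lt_of_le (by norm_num) h1
  have m1 : al * (53 / 50) ≤ al * t := mul_le_mul_of_nonneg_left h1 hal.le
  have m2 : al * t ≤ al * (109 / 100) := mul_le_mul_of_nonneg_left h2 hal.le
  have i1 : 1 / t ≤ 50 / 53 := by
    rw [div_le_iff₀ ht0]
    linarith
  have i2 : 100 / 109 ≤ 1 / t := by
    rw [le_div_iff₀ ht0]
    linarith
  have m3 : al * (1 / t) ≤ al * (50 / 53) := mul_le_mul_of_nonneg_left i1 hal.le
  have m4 : al * (100 / 109) ≤ al * (1 / t) := mul_le_mul_of_nonneg_left i2 hal.le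
  have g1 := loc_lower R (β := t) (b := 104891 / 25000) (η := 6687 / 500000) (κ := 4117 / 250000)
    (z := 6201 / 10000) (cD := 1747 / 12500) (cW := 9213 / 6250) ht0 (by linarith)
    (le_trans (le_trans (by norm_num) y109x100.1) (Real.exp_le_exp.2 (by linarith)))
    ((tt_anti (by norm_num) h1).trans ((tt_le' (by norm_num) y53x50.2).trans (by norm_num)))
    (by norm_num) (by norm_num) (by norm_num) (by norm_num) (by norm_num) (by norm_num)
    (by norm_num) (by norm_num) (by norm_num)
  have g2 := loc_lower R (β := 1 / t) (b := 363133 / 100000) (η := 11947 / 500000)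
    (κ := 7767 / 250000)
    (z := 21451 / 5000) (cD := -(887 / 50000)) (cW := 83859 / 100000) (by positivity) (by linarith)
    (le_trans (le_trans (by norm_num) y50x53.1) (Real.exp_le_exp.2 (by linarith)))
    ((tt_anti (by norm_num) i2).trans ((tt_le' (by norm_num) y100x109.2).trans (by norm_num)))
    (by norm_num) (by norm_num) (by norm_num) (by norm_num) (by norm_num) (by norm_num)
    (by norm_num) (by norm_num) (by norm_num)
  exact slabA R (t1 := 53 / 50) (t2 := 109 / 100) (b := 104891 / 25000) (q1 := 815511 / 1000000)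
    (q2 := 739617 / 1000000) (E1 := 31730187 / 20000000) (E2 := 39598333 / 20000000) h1 h2 (by norm_num)
    (by linarith) (by norm_num) g1 g2 (by norm_num) (by norm_num) (by norm_num) (by norm_num)
    u53x50.1 (by norm_num) u109x100.2 (by norm_num) (by norm_num) (by norm_num) (by norm_num)
    (by norm_num) (by norm_num) (by norm_num)

lemma sA3 {d1 d2 d3 w1 w2 w3 ρ τ D W : ℝ} (R : Rg d1 d2 d3 w1 w2 w3 ρ τ D W)
    {t : ℝ} (h1 : 109 / 100 ≤ t) (h2 : t ≤ 28 / 25) :
    Real.exp (-(2 * al * t)) * (3 / 20 * D + 1 * W) ≤ Sf t (pp d1 d2 d3 w1 w2 w3) := by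
  obtain ⟨e1, e2⟩ := al_bounds
  have hal := al_pos
  have ht0 : 0 < t := lt_of_lt_of_le (by norm_num) h1
  have m1 : al * (109 / 100) ≤ al * t := mul_le_mul_of_nonneg_left h1 hal.le
  have m2 : al * t ≤ al * (28 / 25) := mul_le_mul_of_nonneg_left h2 hal.le
  have i1 : 1 / t ≤ 100 / 109 := by
    rw [div_le_iff₀ ht0]
    linarith
  have i2 : 25 / 28 ≤ 1 / t := by
    rw [le_div_iff₀ ht0]
    linarith
  have m3 : al * (1 / t) ≤ al * (100 / 109) := mul_le_mul_of_nonneg_left i1 hal.le
  have m4 : al * (25 / 28) ≤ al * (1 / t) := mul_le_mul_of_nonneg_left i2 hal.le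
  have g1 := loc_lower R (β := t) (b := 431439 / 100000) (η := 11877 / 1000000) (κ := 7239 / 500000)
    (z := 0) (cD := 17651 / 100000) (cW := 159111 / 100000) ht0 (by linarith)
    (le_trans (le_trans (by norm_num) y28x25.1) (Real.exp_le_exp.2 (by linarith)))
    ((tt_anti (by norm_num) h1).trans ((tt_le' (by norm_num) y109x100.2).trans (by norm_num)))
    (by norm_num) (by norm_num) (by norm_num) (by norm_num) (by norm_num) (by norm_num)
    (by norm_num) (by norm_num) (by norm_num)
  have g2 := loc_lower R (β := 1 / t) (b := 353407 / 100000) (η := 331 / 12500)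
    (κ := 34847 / 1000000)
    (z := 9911 / 2000) (cD := -(26 / 625)) (cW := 71429 / 100000) (by positivity) (by linarith)
    (le_trans (le_trans (by norm_num) y100x109.1) (Real.exp_le_exp.2 (by linarith)))
    ((tt_anti (by norm_num) i2).trans ((tt_le' (by norm_num) y25x28.2).trans (by norm_num)))
    (by norm_num) (by norm_num) (by norm_num) (by norm_num) (by norm_num) (by norm_num)
    (by norm_num) (by norm_num) (by norm_num)
  exact slabA R (t1 := 109 / 100) (t2 := 28 / 25) (b := 431439 / 100000) (q1 := 369809 / 500000)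
    (q2 := 672569 / 1000000) (E1 := 197991657 / 100000000) (E2 := 12286553 / 5000000) h1 h2 (by norm_num)
    (by linarith) (by norm_num) g1 g2 (by norm_num) (by norm_num) (by norm_num) (by norm_num)
    u109x100.1 (by norm_num) u28x25.2 (by norm_num) (by norm_num) (by norm_num) (by norm_num)
    (by norm_num) (by norm_num) (by norm_num)

lemma sA4 {d1 d2 d3 w1 w2 w3 ρ τ D W : ℝ} (R : Rg d1 d2 d3 w1 w2 w3 ρ τ D W)
    {t : ℝ} (h1 : 28 / 25 ≤ t) (h2 : t ≤ 23 / 20) :
    Real.exp (-(2 * al * t)) * (3 / 20 * D + 1 * W) ≤ Sf t (pp d1 d2 d3 w1 w2 w3) := by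
  obtain ⟨e1, e2⟩ := al_bounds
  have hal := al_pos
  have ht0 : 0 < t := lt_of_lt_of_le (by norm_num) h1
  have m1 : al * (28 / 25) ≤ al * t := mul_le_mul_of_nonneg_left h1 hal.le
  have m2 : al * t ≤ al * (23 / 20) := mul_le_mul_of_nonneg_left h2 hal.le
  have i1 : 1 / t ≤ 25 / 28 := by
    rw [div_le_iff₀ ht0]
    linarith
  have i2 : 20 / 23 ≤ 1 / t := by
    rw [le_div_iff₀ ht0]
    linarith
  have m3 : al * (1 / t) ≤ al * (25 / 28) := mul_le_mul_of_nonneg_left i1 hal.le
  have m4 : al * (20 / 23) ≤ al * (1 / t) := mul_le_mul_of_nonneg_left i2 hal.le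
  have g1 := loc_lower R (β := t) (b := 443313 / 100000) (η := 10547 / 1000000) (κ := 12743 / 1000000)
    (z := 0) (cD := 10657 / 50000) (cW := 34017 / 20000) ht0 (by linarith)
    (le_trans (le_trans (by norm_num) y23x20.1) (Real.exp_le_exp.2 (by linarith)))
    ((tt_anti (by norm_num) h1).trans ((tt_le' (by norm_num) y28x25.2).trans (by norm_num)))
    (by norm_num) (by norm_num) (by norm_num) (by norm_num) (by norm_num) (by norm_num)
    (by norm_num) (by norm_num) (by norm_num)
  have g2 := loc_lower R (β := 1 / t) (b := 344187 / 100000) (η := 5837 / 200000)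
    (κ := 38933 / 1000000)
    (z := 6999 / 1250) (cD := -(6373 / 100000)) (cW := 59171 / 100000) (by positivity) (by linarith)
    (le_trans (le_trans (by norm_num) y25x28.1) (Real.exp_le_exp.2 (by linarith)))
    ((tt_anti (by norm_num) i2).trans ((tt_le' (by norm_num) y20x23.2).trans (by norm_num)))
    (by norm_num) (by norm_num) (by norm_num) (by norm_num) (by norm_num) (by norm_num)
    (by norm_num) (by norm_num) (by norm_num)
  exact slabA R (t1 := 28 / 25) (t2 := 23 / 20) (b := 443313 / 100000) (q1 := 67257 / 100000)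
    (q2 := 613137 / 1000000) (E1 := 30716381 / 12500000) (E2 := 303437479 / 100000000) h1 h2 (by norm_num)
    (by linarith) (by norm_num) g1 g2 (by norm_num) (by norm_num) (by norm_num) (by norm_num)
    u28x25.1 (by norm_num) u23x20.2 (by norm_num) (by norm_num) (by norm_num) (by norm_num)
    (by norm_num) (by norm_num) (by norm_num)

lemma sA5 {d1 d2 d3 w1 w2 w3 ρ τ D W : ℝ} (R : Rg d1 d2 d3 w1 w2 w3 ρ τ D W)
    {t : ℝ} (h1 : 23 / 20 ≤ t) (h2 : t ≤ 117 / 100) :
    Real.exp (-(2 * al * t)) * (3 / 20 * D + 1 * W) ≤ Sf t (pp d1 d2 d3 w1 w2 w3) := by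
  obtain ⟨e1, e2⟩ := al_bounds
  have hal := al_pos
  have ht0 : 0 < t := lt_of_lt_of_le (by norm_num) h1
  have m1 : al * (23 / 20) ≤ al * t := mul_le_mul_of_nonneg_left h1 hal.le
  have m2 : al * t ≤ al * (117 / 100) := mul_le_mul_of_nonneg_left h2 hal.le
  have i1 : 1 / t ≤ 20 / 23 := by
    rw [div_le_iff₀ ht0]
    linarith
  have i2 : 100 / 117 ≤ 1 / t := by
    rw [le_div_iff₀ ht0]
    linarith
  have m3 : al * (1 / t) ≤ al * (20 / 23) := mul_le_mul_of_nonneg_left i1 hal.le
  have m4 : al * (100 / 117) ≤ al * (1 / t) := mul_le_mul_of_nonneg_left i2 hal.le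
  have g1 := loc_lower R (β := t) (b := 113797 / 25000) (η := 609 / 62500) (κ := 2807 / 250000)
    (z := 0) (cD := 517 / 2000) (cW := 180523 / 100000) ht0 (by linarith)
    (le_trans (le_trans (by norm_num) y117x100.1) (Real.exp_le_exp.2 (by linarith)))
    ((tt_anti (by norm_num) h1).trans ((tt_le' (by norm_num) y23x20.2).trans (by norm_num)))
    (by norm_num) (by norm_num) (by norm_num) (by norm_num) (by norm_num) (by norm_num)
    (by norm_num) (by norm_num) (by norm_num)
  have g2 := loc_lower R (β := 1 / t) (b := 10572 / 3125) (η := 1 / 32)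
    (κ := 20919 / 500000)
    (z := 3761 / 625) (cD := -(747 / 10000)) (cW := 51077 / 100000) (by positivity) (by linarith)
    (le_trans (le_trans (by norm_num) y20x23.1) (Real.exp_le_exp.2 (by linarith)))
    ((tt_anti (by norm_num) i2).trans ((tt_le' (by norm_num) y100x117.2).trans (by norm_num)))
    (by norm_num) (by norm_num) (by norm_num) (by norm_num) (by norm_num) (by norm_num)
    (by norm_num) (by norm_num) (by norm_num)
  exact slabA R (t1 := 23 / 20) (t2 := 117 / 100) (b := 113797 / 25000) (q1 := 306569 / 500000)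
    (q2 := 57723 / 100000) (E1 := 303437461 / 100000000) (E2 := 348338349 / 100000000) h1 h2 (by norm_num)
    (by linarith) (by norm_num) g1 g2 (by norm_num) (by norm_num) (by norm_num) (by norm_num)
    u23x20.1 (by norm_num) u117x100.2 (by norm_num) (by norm_num) (by norm_num) (by norm_num)
    (by norm_num) (by norm_num) (by norm_num)

lemma sB0 {d1 d2 d3 w1 w2 w3 ρ τ D W : ℝ} (R : Rg d1 d2 d3 w1 w2 w3 ρ τ D W)
    {t : ℝ} (h1 : 117 / 100 ≤ t) (h2 : t ≤ 119 / 100) :
    Real.exp (-(2 * al * t)) * (3 / 20 * D + 1 * W) ≤ Sf t (pp d1 d2 d3 w1 w2 w3) := by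
  obtain ⟨e1, e2⟩ := al_bounds
  obtain ⟨f1, f2⟩ := be_bounds
  have hal := al_pos
  have hbe := be_pos
  have ht0 : 0 < t := lt_of_lt_of_le (by norm_num) h1
  have m1 : al * (117 / 100) ≤ al * t := mul_le_mul_of_nonneg_left h1 hal.le
  have m2 : al * t ≤ al * (119 / 100) := mul_le_mul_of_nonneg_left h2 hal.le
  have n1 : be * (117 / 100) ≤ be * t := mul_le_mul_of_nonneg_left h1 hbe.le
  have k1 : (2 * al - 3 * be) * (117 / 100) ≤ (2 * al - 3 * be) * t :=
    mul_le_mul_of_nonneg_left h1 (by linarith)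
  have k2 : (2 * al - 3 * be) * t ≤ (2 * al - 3 * be) * (119 / 100) :=
    mul_le_mul_of_nonneg_left h2 (by linarith)
  have l1 : (4 * be - 2 * al) * (117 / 100) ≤ (4 * be - 2 * al) * t :=
    mul_le_mul_of_nonneg_left h1 (by linarith)
  have l2 : (4 * be - 2 * al) * t ≤ (4 * be - 2 * al) * (119 / 100) :=
    mul_le_mul_of_nonneg_left h2 (by linarith)
  have g1 := loc_lower R (β := t) (b := 14472 / 3125) (η := 4501 / 500000) (κ := 2581 / 250000)
    (z := 0) (cD := 28351 / 100000) (cW := 749 / 400) ht0 (by linarith)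
    (le_trans (le_trans (by norm_num) y119x100.1) (Real.exp_le_exp.2 (by linarith)))
    ((tt_anti (by norm_num) h1).trans ((tt_le' (by norm_num) y117x100.2).trans (by norm_num)))
    (by norm_num) (by norm_num) (by norm_num) (by norm_num) (by norm_num) (by norm_num)
    (by norm_num) (by norm_num) (by norm_num)
  have g2 := dual_lower R (β := t) (x1 := 23339 / 4000) (x0 := 218803 / 50000) (Y := 39 / 4000)
    (q3 := 129043 / 100000) (Q3 := 16201 / 12500) (q4 := 7349 / 25000) (Q4 := 30009 / 100000)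
    (G2 := 216099 / 100000) (G2' := 220607 / 100000) (G1 := 533607 / 100000) (Xi := 302351 / 25000)
    (gD := 46953 / 50000) (gW := 34207 / 100000) (gz := 92871 / 100000) (ξ := 26303 / 50000)
    (l := 0) (by linarith) (by linarith) (by linarith) (by norm_num) (by norm_num)
    (le_trans (Real.exp_le_exp.2 (by linarith)) (y117x100.2.trans (by norm_num)))
    (le_trans (le_trans (by norm_num) r117x100.1) (Real.exp_le_exp.2 (by linarith)))
    (le_trans (Real.exp_le_exp.2 (by linarith)) (r119x100.2.trans (by norm_num)))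
    (le_trans (le_trans (by norm_num) p119x100.1) (Real.exp_le_exp.2 (by linarith)))
    (le_trans (Real.exp_le_exp.2 (by linarith)) (p117x100.2.trans (by norm_num)))
    (by norm_num) (by norm_num) (by norm_num) (by norm_num) (by norm_num) (by norm_num)
    (by norm_num) (by norm_num) (by norm_num) (by norm_num) (by norm_num) (by norm_num)
    (by norm_num) (by norm_num) (by norm_num) (by norm_num) (by norm_num) (by norm_num) (by norm_num)
  exact slabBB R (b := 14472 / 3125) (by linarith) (by norm_num) g1 g2 (by norm_num) (by norm_num)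
    (by norm_num) (by norm_num)

lemma sB1 {d1 d2 d3 w1 w2 w3 ρ τ D W : ℝ} (R : Rg d1 d2 d3 w1 w2 w3 ρ τ D W)
    {t : ℝ} (h1 : 119 / 100 ≤ t) (h2 : t ≤ 121 / 100) :
    Real.exp (-(2 * al * t)) * (3 / 20 * D + 1 * W) ≤ Sf t (pp d1 d2 d3 w1 w2 w3) := by
  obtain ⟨e1, e2⟩ := al_bounds
  obtain ⟨f1, f2⟩ := be_bounds
  have hal := al_pos
  have hbe := be_pos
  have ht0 : 0 < t := lt_of_lt_of_le (by norm_num) h1
  have m1 : al * (119 / 100) ≤ al * t := mul_le_mul_of_nonneg_left h1 hal.le
  have m2 : al * t ≤ al * (121 / 100) := mul_le_mul_of_nonneg_left h2 hal.le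
  have n1 : be * (119 / 100) ≤ be * t := mul_le_mul_of_nonneg_left h1 hbe.le
  have k1 : (2 * al - 3 * be) * (119 / 100) ≤ (2 * al - 3 * be) * t :=
    mul_le_mul_of_nonneg_left h1 (by linarith)
  have k2 : (2 * al - 3 * be) * t ≤ (2 * al - 3 * be) * (121 / 100) :=
    mul_le_mul_of_nonneg_left h2 (by linarith)
  have l1 : (4 * be - 2 * al) * (119 / 100) ≤ (4 * be - 2 * al) * t :=
    mul_le_mul_of_nonneg_left h1 (by linarith)
  have l2 : (4 * be - 2 * al) * t ≤ (4 * be - 2 * al) * (121 / 100) :=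
    mul_le_mul_of_nonneg_left h2 (by linarith)
  have g1 := loc_lower R (β := t) (b := 23551 / 5000) (η := 8317 / 1000000) (κ := 9497 / 1000000)
    (z := 0) (cD := 7723 / 25000) (cW := 19377 / 10000) ht0 (by linarith)
    (le_trans (le_trans (by norm_num) y121x100.1) (Real.exp_le_exp.2 (by linarith)))
    ((tt_anti (by norm_num) h1).trans ((tt_le' (by norm_num) y119x100.2).trans (by norm_num)))
    (by norm_num) (by norm_num) (by norm_num) (by norm_num) (by norm_num) (by norm_num)
    (by norm_num) (by norm_num) (by norm_num)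
  have g2 := dual_lower R (β := t) (x1 := 593449 / 100000) (x0 := 222543 / 50000) (Y := 901 / 100000)
    (q3 := 129607 / 100000) (Q3 := 65087 / 50000) (q4 := 14399 / 50000) (Q4 := 29397 / 100000)
    (G2 := 107661 / 50000) (G2' := 109901 / 50000) (G1 := 5451 / 1000) (Xi := 1208733 / 100000)
    (gD := 46807 / 50000) (gW := 17201 / 50000) (gz := 23121 / 25000) (ξ := 63761 / 100000)
    (l := 0) (by linarith) (by linarith) (by linarith) (by norm_num) (by norm_num)
    (le_trans (Real.exp_le_exp.2 (by linarith)) (y119x100.2.trans (by norm_num)))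
    (le_trans (le_trans (by norm_num) r119x100.1) (Real.exp_le_exp.2 (by linarith)))
    (le_trans (Real.exp_le_exp.2 (by linarith)) (r121x100.2.trans (by norm_num)))
    (le_trans (le_trans (by norm_num) p121x100.1) (Real.exp_le_exp.2 (by linarith)))
    (le_trans (Real.exp_le_exp.2 (by linarith)) (p119x100.2.trans (by norm_num)))
    (by norm_num) (by norm_num) (by norm_num) (by norm_num) (by norm_num) (by norm_num)
    (by norm_num) (by norm_num) (by norm_num) (by norm_num) (by norm_num) (by norm_num)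
    (by norm_num) (by norm_num) (by norm_num) (by norm_num) (by norm_num) (by norm_num) (by norm_num)
  exact slabBB R (b := 23551 / 5000) (by linarith) (by norm_num) g1 g2 (by norm_num) (by norm_num)
    (by norm_num) (by norm_num)

lemma sB2 {d1 d2 d3 w1 w2 w3 ρ τ D W : ℝ} (R : Rg d1 d2 d3 w1 w2 w3 ρ τ D W)
    {t : ℝ} (h1 : 121 / 100 ≤ t) (h2 : t ≤ 31 / 25) :
    Real.exp (-(2 * al * t)) * (3 / 20 * D + 1 * W) ≤ Sf t (pp d1 d2 d3 w1 w2 w3) := by
  obtain ⟨e1, e2⟩ := al_bounds
  obtain ⟨f1, f2⟩ := be_bounds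
  have hal := al_pos
  have hbe := be_pos
  have ht0 : 0 < t := lt_of_lt_of_le (by norm_num) h1
  have m1 : al * (121 / 100) ≤ al * t := mul_le_mul_of_nonneg_left h1 hal.le
  have m2 : al * t ≤ al * (31 / 25) := mul_le_mul_of_nonneg_left h2 hal.le
  have n1 : be * (121 / 100) ≤ be * t := mul_le_mul_of_nonneg_left h1 hbe.le
  have k1 : (2 * al - 3 * be) * (121 / 100) ≤ (2 * al - 3 * be) * t :=
    mul_le_mul_of_nonneg_left h1 (by linarith)
  have k2 : (2 * al - 3 * be) * t ≤ (2 * al - 3 * be) * (31 / 25) :=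
    mul_le_mul_of_nonneg_left h2 (by linarith)
  have l1 : (4 * be - 2 * al) * (121 / 100) ≤ (4 * be - 2 * al) * t :=
    mul_le_mul_of_nonneg_left h1 (by linarith)
  have l2 : (4 * be - 2 * al) * t ≤ (4 * be - 2 * al) * (31 / 25) :=
    mul_le_mul_of_nonneg_left h2 (by linarith)
  have g1 := loc_lower R (β := t) (b := 478937 / 100000) (η := 3693 / 500000) (κ := 8739 / 1000000)
    (z := 0) (cD := 2051 / 6250) (cW := 6254 / 3125) ht0 (by linarith)
    (le_trans (le_trans (by norm_num) y31x25.1) (Real.exp_le_exp.2 (by linarith)))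
    ((tt_anti (by norm_num) h1).trans ((tt_le' (by norm_num) y121x100.2).trans (by norm_num)))
    (by norm_num) (by norm_num) (by norm_num) (by norm_num) (by norm_num) (by norm_num)
    (by norm_num) (by norm_num) (by norm_num)
  have g2 := dual_lower R (β := t) (x1 := 603423 / 100000) (x0 := 452567 / 100000) (Y := 26 / 3125)
    (q3 := 130173 / 100000) (Q3 := 32757 / 25000) (q4 := 13961 / 50000) (Q4 := 28799 / 100000)
    (G2 := 212281 / 100000) (G2' := 218949 / 100000) (G1 := 556683 / 100000) (Xi := 605191 / 50000)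
    (gD := 46661 / 50000) (gW := 8649 / 25000) (gz := 2878 / 3125) (ξ := 74917 / 100000)
    (l := 0) (by linarith) (by linarith) (by linarith) (by norm_num) (by norm_num)
    (le_trans (Real.exp_le_exp.2 (by linarith)) (y121x100.2.trans (by norm_num)))
    (le_trans (le_trans (by norm_num) r121x100.1) (Real.exp_le_exp.2 (by linarith)))
    (le_trans (Real.exp_le_exp.2 (by linarith)) (r31x25.2.trans (by norm_num)))
    (le_trans (le_trans (by norm_num) p31x25.1) (Real.exp_le_exp.2 (by linarith)))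
    (le_trans (Real.exp_le_exp.2 (by linarith)) (p121x100.2.trans (by norm_num)))
    (by norm_num) (by norm_num) (by norm_num) (by norm_num) (by norm_num) (by norm_num)
    (by norm_num) (by norm_num) (by norm_num) (by norm_num) (by norm_num) (by norm_num)
    (by norm_num) (by norm_num) (by norm_num) (by norm_num) (by norm_num) (by norm_num) (by norm_num)
  exact slabBB R (b := 478937 / 100000) (by linarith) (by norm_num) g1 g2 (by norm_num) (by norm_num)
    (by norm_num) (by norm_num)

lemma sB3 {d1 d2 d3 w1 w2 w3 ρ τ D W : ℝ} (R : Rg d1 d2 d3 w1 w2 w3 ρ τ D W)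
    {t : ℝ} (h1 : 31 / 25 ≤ t) (h2 : t ≤ 32 / 25) :
    Real.exp (-(2 * al * t)) * (3 / 20 * D + 1 * W) ≤ Sf t (pp d1 d2 d3 w1 w2 w3) := by
  obtain ⟨e1, e2⟩ := al_bounds
  obtain ⟨f1, f2⟩ := be_bounds
  have hal := al_pos
  have hbe := be_pos
  have ht0 : 0 < t := lt_of_lt_of_le (by norm_num) h1
  have m1 : al * (31 / 25) ≤ al * t := mul_le_mul_of_nonneg_left h1 hal.le
  have m2 : al * t ≤ al * (32 / 25) := mul_le_mul_of_nonneg_left h2 hal.le
  have n1 : be * (31 / 25) ≤ be * t := mul_le_mul_of_nonneg_left h1 hbe.le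
  have k1 : (2 * al - 3 * be) * (31 / 25) ≤ (2 * al - 3 * be) * t :=
    mul_le_mul_of_nonneg_left h1 (by linarith)
  have k2 : (2 * al - 3 * be) * t ≤ (2 * al - 3 * be) * (32 / 25) :=
    mul_le_mul_of_nonneg_left h2 (by linarith)
  have l1 : (4 * be - 2 * al) * (31 / 25) ≤ (4 * be - 2 * al) * t :=
    mul_le_mul_of_nonneg_left h1 (by linarith)
  have l2 : (4 * be - 2 * al) * t ≤ (4 * be - 2 * al) * (32 / 25) :=
    mul_le_mul_of_nonneg_left h2 (by linarith)
  have g1 := loc_lower R (β := t) (b := 490811 / 100000) (η := 197 / 31250) (κ := 3859 / 500000)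
    (z := 0) (cD := 3623 / 10000) (cW := 209259 / 100000) ht0 (by linarith)
    (le_trans (le_trans (by norm_num) y32x25.1) (Real.exp_le_exp.2 (by linarith)))
    ((tt_anti (by norm_num) h1).trans ((tt_le' (by norm_num) y31x25.2).trans (by norm_num)))
    (by norm_num) (by norm_num) (by norm_num) (by norm_num) (by norm_num) (by norm_num)
    (by norm_num) (by norm_num) (by norm_num)
  have g2 := dual_lower R (β := t) (x1 := 618383 / 100000) (x0 := 463787 / 100000) (Y := 739 / 100000)
    (q3 := 131027 / 100000) (Q3 := 5287 / 4000) (q4 := 26797 / 100000) (Q4 := 27923 / 100000)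
    (G2 := 208779 / 100000) (G2' := 217553 / 100000) (G1 := 574227 / 100000) (Xi := 242413 / 20000)
    (gD := 23221 / 25000) (gW := 4361 / 12500) (gz := 45757 / 50000) (ξ := 1833 / 2000)
    (l := 0) (by linarith) (by linarith) (by linarith) (by norm_num) (by norm_num)
    (le_trans (Real.exp_le_exp.2 (by linarith)) (y31x25.2.trans (by norm_num)))
    (le_trans (le_trans (by norm_num) r31x25.1) (Real.exp_le_exp.2 (by linarith)))
    (le_trans (Real.exp_le_exp.2 (by linarith)) (r32x25.2.trans (by norm_num)))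
    (le_trans (le_trans (by norm_num) p32x25.1) (Real.exp_le_exp.2 (by linarith)))
    (le_trans (Real.exp_le_exp.2 (by linarith)) (p31x25.2.trans (by norm_num)))
    (by norm_num) (by norm_num) (by norm_num) (by norm_num) (by norm_num) (by norm_num)
    (by norm_num) (by norm_num) (by norm_num) (by norm_num) (by norm_num) (by norm_num)
    (by norm_num) (by norm_num) (by norm_num) (by norm_num) (by norm_num) (by norm_num) (by norm_num)
  exact slabBB R (b := 490811 / 100000) (by linarith) (by norm_num) g1 g2 (by norm_num) (by norm_num)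
    (by norm_num) (by norm_num)

lemma sB4 {d1 d2 d3 w1 w2 w3 ρ τ D W : ℝ} (R : Rg d1 d2 d3 w1 w2 w3 ρ τ D W)
    {t : ℝ} (h1 : 32 / 25 ≤ t) (h2 : t ≤ 33 / 25) :
    Real.exp (-(2 * al * t)) * (3 / 20 * D + 1 * W) ≤ Sf t (pp d1 d2 d3 w1 w2 w3) := by
  obtain ⟨e1, e2⟩ := al_bounds
  obtain ⟨f1, f2⟩ := be_bounds
  have hal := al_pos
  have hbe := be_pos
  have ht0 : 0 < t := lt_of_lt_of_le (by norm_num) h1
  have m1 : al * (32 / 25) ≤ al * t := mul_le_mul_of_nonneg_left h1 hal.le
  have m2 : al * t ≤ al * (33 / 25) := mul_le_mul_of_nonneg_left h2 hal.le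
  have n1 : be * (32 / 25) ≤ be * t := mul_le_mul_of_nonneg_left h1 hbe.le
  have k1 : (2 * al - 3 * be) * (32 / 25) ≤ (2 * al - 3 * be) * t :=
    mul_le_mul_of_nonneg_left h1 (by linarith)
  have k2 : (2 * al - 3 * be) * t ≤ (2 * al - 3 * be) * (33 / 25) :=
    mul_le_mul_of_nonneg_left h2 (by linarith)
  have l1 : (4 * be - 2 * al) * (32 / 25) ≤ (4 * be - 2 * al) * t :=
    mul_le_mul_of_nonneg_left h1 (by linarith)
  have l2 : (4 * be - 2 * al) * t ≤ (4 * be - 2 * al) * (33 / 25) :=
    mul_le_mul_of_nonneg_left h2 (by linarith)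
  have g1 := loc_lower R (β := t) (b := 126661 / 25000) (η := 5381 / 1000000) (κ := 3273 / 500000)
    (z := 0) (cD := 41727 / 100000) (cW := 22069 / 10000) ht0 (by linarith)
    (le_trans (le_trans (by norm_num) y33x25.1) (Real.exp_le_exp.2 (by linarith)))
    ((tt_anti (by norm_num) h1).trans ((tt_le' (by norm_num) y32x25.2).trans (by norm_num)))
    (by norm_num) (by norm_num) (by norm_num) (by norm_num) (by norm_num) (by norm_num)
    (by norm_num) (by norm_num) (by norm_num)
  have g2 := dual_lower R (β := t) (x1 := 638331 / 100000) (x0 := 119687 / 25000) (Y := 631 / 100000)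
    (q3 := 66087 / 50000) (Q3 := 133333 / 100000) (q4 := 6429 / 25000) (Q4 := 13399 / 50000)
    (G2 := 10341 / 5000) (G2' := 215523 / 100000) (G1 := 597939 / 100000) (Xi := 1211923 / 100000)
    (gD := 92299 / 100000) (gW := 35277 / 100000) (gz := 90739 / 100000) (ξ := 113961 / 100000)
    (l := 0) (by linarith) (by linarith) (by linarith) (by norm_num) (by norm_num)
    (le_trans (Real.exp_le_exp.2 (by linarith)) (y32x25.2.trans (by norm_num)))
    (le_trans (le_trans (by norm_num) r32x25.1) (Real.exp_le_exp.2 (by linarith)))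
    (le_trans (Real.exp_le_exp.2 (by linarith)) (r33x25.2.trans (by norm_num)))
    (le_trans (le_trans (by norm_num) p33x25.1) (Real.exp_le_exp.2 (by linarith)))
    (le_trans (Real.exp_le_exp.2 (by linarith)) (p32x25.2.trans (by norm_num)))
    (by norm_num) (by norm_num) (by norm_num) (by norm_num) (by norm_num) (by norm_num)
    (by norm_num) (by norm_num) (by norm_num) (by norm_num) (by norm_num) (by norm_num)
    (by norm_num) (by norm_num) (by norm_num) (by norm_num) (by norm_num) (by norm_num) (by norm_num)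
  exact slabBB R (b := 126661 / 25000) (by linarith) (by norm_num) g1 g2 (by norm_num) (by norm_num)
    (by norm_num) (by norm_num)

lemma sB5 {d1 d2 d3 w1 w2 w3 ρ τ D W : ℝ} (R : Rg d1 d2 d3 w1 w2 w3 ρ τ D W)
    {t : ℝ} (h1 : 33 / 25 ≤ t) (h2 : t ≤ 137 / 100) :
    Real.exp (-(2 * al * t)) * (3 / 20 * D + 1 * W) ≤ Sf t (pp d1 d2 d3 w1 w2 w3) := by
  obtain ⟨e1, e2⟩ := al_bounds
  obtain ⟨f1, f2⟩ := be_bounds
  have hal := al_pos
  have hbe := be_pos
  have ht0 : 0 < t := lt_of_lt_of_le (by norm_num) h1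
  have m1 : al * (33 / 25) ≤ al * t := mul_le_mul_of_nonneg_left h1 hal.le
  have m2 : al * t ≤ al * (137 / 100) := mul_le_mul_of_nonneg_left h2 hal.le
  have n1 : be * (33 / 25) ≤ be * t := mul_le_mul_of_nonneg_left h1 hbe.le
  have k1 : (2 * al - 3 * be) * (33 / 25) ≤ (2 * al - 3 * be) * t :=
    mul_le_mul_of_nonneg_left h1 (by linarith)
  have k2 : (2 * al - 3 * be) * t ≤ (2 * al - 3 * be) * (137 / 100) :=
    mul_le_mul_of_nonneg_left h2 (by linarith)
  have l1 : (4 * be - 2 * al) * (33 / 25) ≤ (4 * be - 2 * al) * t :=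
    mul_le_mul_of_nonneg_left h1 (by linarith)
  have l2 : (4 * be - 2 * al) * t ≤ (4 * be - 2 * al) * (137 / 100) :=
    mul_le_mul_of_nonneg_left h2 (by linarith)
  have g1 := loc_lower R (β := t) (b := 130619 / 25000) (η := 883 / 200000) (κ := 5557 / 1000000)
    (z := 0) (cD := 23449 / 50000) (cW := 231377 / 100000) ht0 (by linarith)
    (le_trans (le_trans (by norm_num) y137x100.1) (Real.exp_le_exp.2 (by linarith)))
    ((tt_anti (by norm_num) h1).trans ((tt_le' (by norm_num) y33x25.2).trans (by norm_num)))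
    (by norm_num) (by norm_num) (by norm_num) (by norm_num) (by norm_num) (by norm_num)
    (by norm_num) (by norm_num) (by norm_num)
  have g2 := dual_lower R (β := t) (x1 := 658279 / 100000) (x0 := 493709 / 100000) (Y := 539 / 100000)
    (q3 := 133331 / 100000) (Q3 := 134793 / 100000) (q4 := 24427 / 100000) (Q4 := 25717 / 100000)
    (G2 := 6331 / 3125) (G2' := 53323 / 25000) (G1 := 622023 / 100000) (Xi := 303621 / 25000)
    (gD := 18343 / 20000) (gW := 17833 / 50000) (gz := 89963 / 100000) (ξ := 8517 / 6250)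
    (l := 0) (by linarith) (by linarith) (by linarith) (by norm_num) (by norm_num)
    (le_trans (Real.exp_le_exp.2 (by linarith)) (y33x25.2.trans (by norm_num)))
    (le_trans (le_trans (by norm_num) r33x25.1) (Real.exp_le_exp.2 (by linarith)))
    (le_trans (Real.exp_le_exp.2 (by linarith)) (r137x100.2.trans (by norm_num)))
    (le_trans (le_trans (by norm_num) p137x100.1) (Real.exp_le_exp.2 (by linarith)))
    (le_trans (Real.exp_le_exp.2 (by linarith)) (p33x25.2.trans (by norm_num)))
    (by norm_num) (by norm_num) (by norm_num) (by norm_num) (by norm_num) (by norm_num)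
    (by norm_num) (by norm_num) (by norm_num) (by norm_num) (by norm_num) (by norm_num)
    (by norm_num) (by norm_num) (by norm_num) (by norm_num) (by norm_num) (by norm_num) (by norm_num)
  exact slabBB R (b := 130619 / 25000) (by linarith) (by norm_num) g1 g2 (by norm_num) (by norm_num)
    (by norm_num) (by norm_num)

lemma sB6 {d1 d2 d3 w1 w2 w3 ρ τ D W : ℝ} (R : Rg d1 d2 d3 w1 w2 w3 ρ τ D W)
    {t : ℝ} (h1 : 137 / 100 ≤ t) (h2 : t ≤ 36 / 25) :
    Real.exp (-(2 * al * t)) * (3 / 20 * D + 1 * W) ≤ Sf t (pp d1 d2 d3 w1 w2 w3) := by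
  obtain ⟨e1, e2⟩ := al_bounds
  obtain ⟨f1, f2⟩ := be_bounds
  have hal := al_pos
  have hbe := be_pos
  have ht0 : 0 < t := lt_of_lt_of_le (by norm_num) h1
  have m1 : al * (137 / 100) ≤ al * t := mul_le_mul_of_nonneg_left h1 hal.le
  have m2 : al * t ≤ al * (36 / 25) := mul_le_mul_of_nonneg_left h2 hal.le
  have n1 : be * (137 / 100) ≤ be * t := mul_le_mul_of_nonneg_left h1 hbe.le
  have k1 : (2 * al - 3 * be) * (137 / 100) ≤ (2 * al - 3 * be) * t :=
    mul_le_mul_of_nonneg_left h1 (by linarith)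
  have k2 : (2 * al - 3 * be) * t ≤ (2 * al - 3 * be) * (36 / 25) :=
    mul_le_mul_of_nonneg_left h2 (by linarith)
  have l1 : (4 * be - 2 * al) * (137 / 100) ≤ (4 * be - 2 * al) * t :=
    mul_le_mul_of_nonneg_left h1 (by linarith)
  have l2 : (4 * be - 2 * al) * t ≤ (4 * be - 2 * al) * (36 / 25) :=
    mul_le_mul_of_nonneg_left h2 (by linarith)
  have g1 := loc_lower R (β := t) (b := 542267 / 100000) (η := 1673 / 500000) (κ := 4533 / 1000000)
    (z := 0) (cD := 53397 / 100000) (cW := 121839 / 50000) ht0 (by linarith)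
    (le_trans (le_trans (by norm_num) y36x25.1) (Real.exp_le_exp.2 (by linarith)))
    ((tt_anti (by norm_num) h1).trans ((tt_le' (by norm_num) y137x100.2).trans (by norm_num)))
    (by norm_num) (by norm_num) (by norm_num) (by norm_num) (by norm_num) (by norm_num)
    (by norm_num) (by norm_num) (by norm_num)
  have g2 := dual_lower R (β := t) (x1 := 341607 / 50000) (x0 := 51241 / 10000) (Y := 221 / 50000)
    (q3 := 16849 / 12500) (Q3 := 27373 / 20000) (q4 := 22729 / 100000) (Q4 := 6107 / 25000)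
    (G2 := 3913 / 2000) (G2' := 52569 / 25000) (G1 := 326329 / 50000) (Xi := 1220113 / 100000)
    (gD := 11373 / 12500) (gW := 36153 / 100000) (gz := 44497 / 50000) (ξ := 82081 / 50000)
    (l := 0) (by linarith) (by linarith) (by linarith) (by norm_num) (by norm_num)
    (le_trans (Real.exp_le_exp.2 (by linarith)) (y137x100.2.trans (by norm_num)))
    (le_trans (le_trans (by norm_num) r137x100.1) (Real.exp_le_exp.2 (by linarith)))
    (le_trans (Real.exp_le_exp.2 (by linarith)) (r36x25.2.trans (by norm_num)))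
    (le_trans (le_trans (by norm_num) p36x25.1) (Real.exp_le_exp.2 (by linarith)))
    (le_trans (Real.exp_le_exp.2 (by linarith)) (p137x100.2.trans (by norm_num)))
    (by norm_num) (by norm_num) (by norm_num) (by norm_num) (by norm_num) (by norm_num)
    (by norm_num) (by norm_num) (by norm_num) (by norm_num) (by norm_num) (by norm_num)
    (by norm_num) (by norm_num) (by norm_num) (by norm_num) (by norm_num) (by norm_num) (by norm_num)
  exact slabBB R (b := 542267 / 100000) (by linarith) (by norm_num) g1 g2 (by norm_num) (by norm_num)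
    (by norm_num) (by norm_num)

lemma sB7 {d1 d2 d3 w1 w2 w3 ρ τ D W : ℝ} (R : Rg d1 d2 d3 w1 w2 w3 ρ τ D W)
    {t : ℝ} (h1 : 36 / 25 ≤ t) (h2 : t ≤ 38 / 25) :
    Real.exp (-(2 * al * t)) * (3 / 20 * D + 1 * W) ≤ Sf t (pp d1 d2 d3 w1 w2 w3) := by
  obtain ⟨e1, e2⟩ := al_bounds
  obtain ⟨f1, f2⟩ := be_bounds
  have hal := al_pos
  have hbe := be_pos
  have ht0 : 0 < t := lt_of_lt_of_le (by norm_num) h1
  have m1 : al * (36 / 25) ≤ al * t := mul_le_mul_of_nonneg_left h1 hal.le
  have m2 : al * t ≤ al * (38 / 25) := mul_le_mul_of_nonneg_left h2 hal.le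
  have n1 : be * (36 / 25) ≤ be * t := mul_le_mul_of_nonneg_left h1 hbe.le
  have k1 : (2 * al - 3 * be) * (36 / 25) ≤ (2 * al - 3 * be) * t :=
    mul_le_mul_of_nonneg_left h1 (by linarith)
  have k2 : (2 * al - 3 * be) * t ≤ (2 * al - 3 * be) * (38 / 25) :=
    mul_le_mul_of_nonneg_left h2 (by linarith)
  have l1 : (4 * be - 2 * al) * (36 / 25) ≤ (4 * be - 2 * al) * t :=
    mul_le_mul_of_nonneg_left h1 (by linarith)
  have l2 : (4 * be - 2 * al) * t ≤ (4 * be - 2 * al) * (38 / 25) :=
    mul_le_mul_of_nonneg_left h2 (by linarith)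
  have g1 := loc_lower R (β := t) (b := 284987 / 50000) (η := 1219 / 500000) (κ := 683 / 200000)
    (z := 0) (cD := 7943 / 12500) (cW := 258883 / 100000) ht0 (by linarith)
    (le_trans (le_trans (by norm_num) y38x25.1) (Real.exp_le_exp.2 (by linarith)))
    ((tt_anti (by norm_num) h1).trans ((tt_le' (by norm_num) y36x25.2).trans (by norm_num)))
    (by norm_num) (by norm_num) (by norm_num) (by norm_num) (by norm_num) (by norm_num)
    (by norm_num) (by norm_num) (by norm_num)
  have g2 := dual_lower R (β := t) (x1 := 718123 / 100000) (x0 := 16831 / 3125) (Y := 67 / 20000)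
    (q3 := 4277 / 3125) (Q3 := 139273 / 100000) (q4 := 10467 / 50000) (Q4 := 22731 / 100000)
    (G2 := 94703 / 50000) (G2' := 102833 / 50000) (G1 := 87069 / 12500) (Xi := 612603 / 50000)
    (gD := 44981 / 50000) (gW := 18417 / 50000) (gz := 87637 / 100000) (ξ := 203207 / 100000)
    (l := 0) (by linarith) (by linarith) (by linarith) (by norm_num) (by norm_num)
    (le_trans (Real.exp_le_exp.2 (by linarith)) (y36x25.2.trans (by norm_num)))
    (le_trans (le_trans (by norm_num) r36x25.1) (Real.exp_le_exp.2 (by linarith)))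
    (le_trans (Real.exp_le_exp.2 (by linarith)) (r38x25.2.trans (by norm_num)))
    (le_trans (le_trans (by norm_num) p38x25.1) (Real.exp_le_exp.2 (by linarith)))
    (le_trans (Real.exp_le_exp.2 (by linarith)) (p36x25.2.trans (by norm_num)))
    (by norm_num) (by norm_num) (by norm_num) (by norm_num) (by norm_num) (by norm_num)
    (by norm_num) (by norm_num) (by norm_num) (by norm_num) (by norm_num) (by norm_num)
    (by norm_num) (by norm_num) (by norm_num) (by norm_num) (by norm_num) (by norm_num) (by norm_num)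
  exact slabBB R (b := 284987 / 50000) (by linarith) (by norm_num) g1 g2 (by norm_num) (by norm_num)
    (by norm_num) (by norm_num)

lemma sB8 {d1 d2 d3 w1 w2 w3 ρ τ D W : ℝ} (R : Rg d1 d2 d3 w1 w2 w3 ρ τ D W)
    {t : ℝ} (h1 : 38 / 25 ≤ t) (h2 : t ≤ 81 / 50) :
    Real.exp (-(2 * al * t)) * (3 / 20 * D + 1 * W) ≤ Sf t (pp d1 d2 d3 w1 w2 w3) := by
  obtain ⟨e1, e2⟩ := al_bounds
  obtain ⟨f1, f2⟩ := be_bounds
  have hal := al_pos
  have hbe := be_pos
  have ht0 : 0 < t := lt_of_lt_of_le (by norm_num) h1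
  have m1 : al * (38 / 25) ≤ al * t := mul_le_mul_of_nonneg_left h1 hal.le
  have m2 : al * t ≤ al * (81 / 50) := mul_le_mul_of_nonneg_left h2 hal.le
  have n1 : be * (38 / 25) ≤ be * t := mul_le_mul_of_nonneg_left h1 hbe.le
  have k1 : (2 * al - 3 * be) * (38 / 25) ≤ (2 * al - 3 * be) * t :=
    mul_le_mul_of_nonneg_left h1 (by linarith)
  have k2 : (2 * al - 3 * be) * t ≤ (2 * al - 3 * be) * (81 / 50) :=
    mul_le_mul_of_nonneg_left h2 (by linarith)
  have l1 : (4 * be - 2 * al) * (38 / 25) ≤ (4 * be - 2 * al) * t :=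
    mul_le_mul_of_nonneg_left h1 (by linarith)
  have l2 : (4 * be - 2 * al) * t ≤ (4 * be - 2 * al) * (81 / 50) :=
    mul_le_mul_of_nonneg_left h2 (by linarith)
  have g1 := loc_lower R (β := t) (b := 15041 / 2500) (η := 1641 / 1000000) (κ := 99 / 40000)
    (z := 0) (cD := 75301 / 100000) (cW := 10941 / 4000) ht0 (by linarith)
    (le_trans (le_trans (by norm_num) y81x50.1) (Real.exp_le_exp.2 (by linarith)))
    ((tt_anti (by norm_num) h1).trans ((tt_le' (by norm_num) y38x25.2).trans (by norm_num)))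
    (by norm_num) (by norm_num) (by norm_num) (by norm_num) (by norm_num) (by norm_num)
    (by norm_num) (by norm_num) (by norm_num)
  have g2 := dual_lower R (β := t) (x1 := 758019 / 100000) (x0 := 284257 / 50000) (Y := 61 / 25000)
    (q3 := 139271 / 100000) (Q3 := 142341 / 100000) (q4 := 18887 / 100000) (Q4 := 4187 / 20000)
    (G2 := 180379 / 100000) (G2' := 199939 / 100000) (G1 := 37409 / 5000) (Xi := 1234617 / 100000)
    (gD := 88787 / 100000) (gW := 941 / 2500) (gz := 43043 / 50000) (ξ := 24783 / 10000)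
    (l := 679 / 50000) (by linarith) (by linarith) (by linarith) (by norm_num) (by norm_num)
    (le_trans (Real.exp_le_exp.2 (by linarith)) (y38x25.2.trans (by norm_num)))
    (le_trans (le_trans (by norm_num) r38x25.1) (Real.exp_le_exp.2 (by linarith)))
    (le_trans (Real.exp_le_exp.2 (by linarith)) (r81x50.2.trans (by norm_num)))
    (le_trans (le_trans (by norm_num) p81x50.1) (Real.exp_le_exp.2 (by linarith)))
    (le_trans (Real.exp_le_exp.2 (by linarith)) (p38x25.2.trans (by norm_num)))
    (by norm_num) (by norm_num) (by norm_num) (by norm_num) (by norm_num) (by norm_num)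
    (by norm_num) (by norm_num) (by norm_num) (by norm_num) (by norm_num) (by norm_num)
    (by norm_num) (by norm_num) (by norm_num) (by norm_num) (by norm_num) (by norm_num) (by norm_num)
  exact slabBB R (b := 15041 / 2500) (by linarith) (by norm_num) g1 g2 (by norm_num) (by norm_num)
    (by norm_num) (by norm_num)

lemma sB9 {d1 d2 d3 w1 w2 w3 ρ τ D W : ℝ} (R : Rg d1 d2 d3 w1 w2 w3 ρ τ D W)
    {t : ℝ} (h1 : 81 / 50 ≤ t) (h2 : t ≤ 7 / 4) :
    Real.exp (-(2 * al * t)) * (3 / 20 * D + 1 * W) ≤ Sf t (pp d1 d2 d3 w1 w2 w3) := by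
  obtain ⟨e1, e2⟩ := al_bounds
  obtain ⟨f1, f2⟩ := be_bounds
  have hal := al_pos
  have hbe := be_pos
  have ht0 : 0 < t := lt_of_lt_of_le (by norm_num) h1
  have m1 : al * (81 / 50) ≤ al * t := mul_le_mul_of_nonneg_left h1 hal.le
  have m2 : al * t ≤ al * (7 / 4) := mul_le_mul_of_nonneg_left h2 hal.le
  have n1 : be * (81 / 50) ≤ be * t := mul_le_mul_of_nonneg_left h1 hbe.le
  have k1 : (2 * al - 3 * be) * (81 / 50) ≤ (2 * al - 3 * be) * t :=
    mul_le_mul_of_nonneg_left h1 (by linarith)
  have k2 : (2 * al - 3 * be) * t ≤ (2 * al - 3 * be) * (7 / 4) :=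
    mul_le_mul_of_nonneg_left h2 (by linarith)
  have l1 : (4 * be - 2 * al) * (81 / 50) ≤ (4 * be - 2 * al) * t :=
    mul_le_mul_of_nonneg_left h1 (by linarith)
  have l2 : (4 * be - 2 * al) * t ≤ (4 * be - 2 * al) * (7 / 4) :=
    mul_le_mul_of_nonneg_left h2 (by linarith)
  have g1 := loc_lower R (β := t) (b := 641221 / 100000) (η := 981 / 1000000) (κ := 829 / 500000)
    (z := 0) (cD := 45189 / 50000) (cW := 143887 / 50000) ht0 (by linarith)
    (le_trans (le_trans (by norm_num) y7x4.1) (Real.exp_le_exp.2 (by linarith)))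
    ((tt_anti (by norm_num) h1).trans ((tt_le' (by norm_num) y81x50.2).trans (by norm_num)))
    (by norm_num) (by norm_num) (by norm_num) (by norm_num) (by norm_num) (by norm_num)
    (by norm_num) (by norm_num) (by norm_num)
  have g2 := dual_lower R (β := t) (x1 := 50493 / 6250) (x0 := 151479 / 25000) (Y := 33 / 20000)
    (q3 := 7117 / 5000) (Q3 := 146431 / 100000) (q4 := 16523 / 100000) (Q4 := 2361 / 12500)
    (G2 := 168183 / 100000) (G2' := 192257 / 100000) (G1 := 407487 / 50000) (Xi := 624957 / 50000)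
    (gD := 87299 / 100000) (gW := 9687 / 25000) (gz := 84147 / 100000) (ξ := 303607 / 100000)
    (l := 8027 / 100000) (by linarith) (by linarith) (by linarith) (by norm_num) (by norm_num)
    (le_trans (Real.exp_le_exp.2 (by linarith)) (y81x50.2.trans (by norm_num)))
    (le_trans (le_trans (by norm_num) r81x50.1) (Real.exp_le_exp.2 (by linarith)))
    (le_trans (Real.exp_le_exp.2 (by linarith)) (r7x4.2.trans (by norm_num)))
    (le_trans (le_trans (by norm_num) p7x4.1) (Real.exp_le_exp.2 (by linarith)))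
    (le_trans (Real.exp_le_exp.2 (by linarith)) (p81x50.2.trans (by norm_num)))
    (by norm_num) (by norm_num) (by norm_num) (by norm_num) (by norm_num) (by norm_num)
    (by norm_num) (by norm_num) (by norm_num) (by norm_num) (by norm_num) (by norm_num)
    (by norm_num) (by norm_num) (by norm_num) (by norm_num) (by norm_num) (by norm_num) (by norm_num)
  exact slabBB R (b := 641221 / 100000) (by linarith) (by norm_num) g1 g2 (by norm_num) (by norm_num)
    (by norm_num) (by norm_num)

lemma sB10 {d1 d2 d3 w1 w2 w3 ρ τ D W : ℝ} (R : Rg d1 d2 d3 w1 w2 w3 ρ τ D W)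
    {t : ℝ} (h1 : 7 / 4 ≤ t) (h2 : t ≤ 191 / 100) :
    Real.exp (-(2 * al * t)) * (3 / 20 * D + 1 * W) ≤ Sf t (pp d1 d2 d3 w1 w2 w3) := by
  obtain ⟨e1, e2⟩ := al_bounds
  obtain ⟨f1, f2⟩ := be_bounds
  have hal := al_pos
  have hbe := be_pos
  have ht0 : 0 < t := lt_of_lt_of_le (by norm_num) h1
  have m1 : al * (7 / 4) ≤ al * t := mul_le_mul_of_nonneg_left h1 hal.le
  have m2 : al * t ≤ al * (191 / 100) := mul_le_mul_of_nonneg_left h2 hal.le
  have n1 : be * (7 / 4) ≤ be * t := mul_le_mul_of_nonneg_left h1 hbe.le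
  have k1 : (2 * al - 3 * be) * (7 / 4) ≤ (2 * al - 3 * be) * t :=
    mul_le_mul_of_nonneg_left h1 (by linarith)
  have k2 : (2 * al - 3 * be) * t ≤ (2 * al - 3 * be) * (191 / 100) :=
    mul_le_mul_of_nonneg_left h2 (by linarith)
  have l1 : (4 * be - 2 * al) * (7 / 4) ≤ (4 * be - 2 * al) * t :=
    mul_le_mul_of_nonneg_left h1 (by linarith)
  have l2 : (4 * be - 2 * al) * t ≤ (4 * be - 2 * al) * (191 / 100) :=
    mul_le_mul_of_nonneg_left h2 (by linarith)
  have g1 := loc_lower R (β := t) (b := 692677 / 100000) (η := 13 / 25000) (κ := 987 / 1000000)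
    (z := 0) (cD := 55239 / 50000) (cW := 299657 / 100000) ht0 (by linarith)
    (le_trans (le_trans (by norm_num) y191x100.1) (Real.exp_le_exp.2 (by linarith)))
    ((tt_anti (by norm_num) h1).trans ((tt_le' (by norm_num) y7x4.2).trans (by norm_num)))
    (by norm_num) (by norm_num) (by norm_num) (by norm_num) (by norm_num) (by norm_num)
    (by norm_num) (by norm_num) (by norm_num)
  have g2 := dual_lower R (β := t) (x1 := 872719 / 100000) (x0 := 654539 / 100000) (Y := 99 / 100000)
    (q3 := 14643 / 10000) (Q3 := 151627 / 100000) (q4 := 2803 / 20000) (Q4 := 4131 / 25000)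
    (G2 := 77051 / 50000) (G2' := 181691 / 100000) (G1 := 90567 / 10000) (Xi := 50849 / 4000)
    (gD := 17073 / 20000) (gW := 40189 / 100000) (gz := 81627 / 100000) (ξ := 376119 / 100000)
    (l := 3339 / 20000) (by linarith) (by linarith) (by linarith) (by norm_num) (by norm_num)
    (le_trans (Real.exp_le_exp.2 (by linarith)) (y7x4.2.trans (by norm_num)))
    (le_trans (le_trans (by norm_num) r7x4.1) (Real.exp_le_exp.2 (by linarith)))
    (le_trans (Real.exp_le_exp.2 (by linarith)) (r191x100.2.trans (by norm_num)))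
    (le_trans (le_trans (by norm_num) p191x100.1) (Real.exp_le_exp.2 (by linarith)))
    (le_trans (Real.exp_le_exp.2 (by linarith)) (p7x4.2.trans (by norm_num)))
    (by norm_num) (by norm_num) (by norm_num) (by norm_num) (by norm_num) (by norm_num)
    (by norm_num) (by norm_num) (by norm_num) (by norm_num) (by norm_num) (by norm_num)
    (by norm_num) (by norm_num) (by norm_num) (by norm_num) (by norm_num) (by norm_num) (by norm_num)
  exact slabBB R (b := 692677 / 100000) (by linarith) (by norm_num) g1 g2 (by norm_num) (by norm_num)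
    (by norm_num) (by norm_num)

lemma sB11 {d1 d2 d3 w1 w2 w3 ρ τ D W : ℝ} (R : Rg d1 d2 d3 w1 w2 w3 ρ τ D W)
    {t : ℝ} (h1 : 191 / 100 ≤ t) (h2 : t ≤ 53 / 25) :
    Real.exp (-(2 * al * t)) * (3 / 20 * D + 1 * W) ≤ Sf t (pp d1 d2 d3 w1 w2 w3) := by
  obtain ⟨e1, e2⟩ := al_bounds
  obtain ⟨f1, f2⟩ := be_bounds
  have hal := al_pos
  have hbe := be_pos
  have ht0 : 0 < t := lt_of_lt_of_le (by norm_num) h1
  have m1 : al * (191 / 100) ≤ al * t := mul_le_mul_of_nonneg_left h1 hal.le
  have m2 : al * t ≤ al * (53 / 25) := mul_le_mul_of_nonneg_left h2 hal.le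
  have n1 : be * (191 / 100) ≤ be * t := mul_le_mul_of_nonneg_left h1 hbe.le
  have k1 : (2 * al - 3 * be) * (191 / 100) ≤ (2 * al - 3 * be) * t :=
    mul_le_mul_of_nonneg_left h1 (by linarith)
  have k2 : (2 * al - 3 * be) * t ≤ (2 * al - 3 * be) * (53 / 25) :=
    mul_le_mul_of_nonneg_left h2 (by linarith)
  have l1 : (4 * be - 2 * al) * (191 / 100) ≤ (4 * be - 2 * al) * t :=
    mul_le_mul_of_nonneg_left h1 (by linarith)
  have l2 : (4 * be - 2 * al) * t ≤ (4 * be - 2 * al) * (53 / 25) :=
    mul_le_mul_of_nonneg_left h2 (by linarith)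
  have g1 := loc_lower R (β := t) (b := 94501 / 12500) (η := 113 / 500000) (κ := 523 / 1000000)
    (z := 0) (cD := 135293 / 100000) (cW := 60827 / 20000) ht0 (by linarith)
    (le_trans (le_trans (by norm_num) y53x25.1) (Real.exp_le_exp.2 (by linarith)))
    ((tt_anti (by norm_num) h1).trans ((tt_le' (by norm_num) y191x100.2).trans (by norm_num)))
    (by norm_num) (by norm_num) (by norm_num) (by norm_num) (by norm_num) (by norm_num)
    (by norm_num) (by norm_num) (by norm_num)
  have g2 := dual_lower R (β := t) (x1 := 95251 / 10000) (x0 := 714383 / 100000) (Y := 53 / 100000)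
    (q3 := 75813 / 50000) (Q3 := 19841 / 12500) (q4 := 2823 / 25000) (Q4 := 438 / 3125)
    (G2 := 135513 / 100000) (G2' := 33641 / 20000) (G1 := 20471 / 2000) (Xi := 163237 / 12500)
    (gD := 16597 / 20000) (gW := 41963 / 100000) (gz := 3141 / 4000) (ξ := 116341 / 25000)
    (l := 5473 / 20000) (by linarith) (by linarith) (by linarith) (by norm_num) (by norm_num)
    (le_trans (Real.exp_le_exp.2 (by linarith)) (y191x100.2.trans (by norm_num)))
    (le_trans (le_trans (by norm_num) r191x100.1) (Real.exp_le_exp.2 (by linarith)))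
    (le_trans (Real.exp_le_exp.2 (by linarith)) (r53x25.2.trans (by norm_num)))
    (le_trans (le_trans (by norm_num) p53x25.1) (Real.exp_le_exp.2 (by linarith)))
    (le_trans (Real.exp_le_exp.2 (by linarith)) (p191x100.2.trans (by norm_num)))
    (by norm_num) (by norm_num) (by norm_num) (by norm_num) (by norm_num) (by norm_num)
    (by norm_num) (by norm_num) (by norm_num) (by norm_num) (by norm_num) (by norm_num)
    (by norm_num) (by norm_num) (by norm_num) (by norm_num) (by norm_num) (by norm_num) (by norm_num)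
  exact slabBB R (b := 94501 / 12500) (by linarith) (by norm_num) g1 g2 (by norm_num) (by norm_num)
    (by norm_num) (by norm_num)

lemma sB12 {d1 d2 d3 w1 w2 w3 ρ τ D W : ℝ} (R : Rg d1 d2 d3 w1 w2 w3 ρ τ D W)
    {t : ℝ} (h1 : 53 / 25 ≤ t) (h2 : t ≤ 12 / 5) :
    Real.exp (-(2 * al * t)) * (3 / 20 * D + 1 * W) ≤ Sf t (pp d1 d2 d3 w1 w2 w3) := by
  obtain ⟨e1, e2⟩ := al_bounds
  obtain ⟨f1, f2⟩ := be_bounds
  have hal := al_pos
  have hbe := be_pos
  have ht0 : 0 < t := lt_of_lt_of_le (by norm_num) h1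
  have m1 : al * (53 / 25) ≤ al * t := mul_le_mul_of_nonneg_left h1 hal.le
  have m2 : al * t ≤ al * (12 / 5) := mul_le_mul_of_nonneg_left h2 hal.le
  have n1 : be * (53 / 25) ≤ be * t := mul_le_mul_of_nonneg_left h1 hbe.le
  have k1 : (2 * al - 3 * be) * (53 / 25) ≤ (2 * al - 3 * be) * t :=
    mul_le_mul_of_nonneg_left h1 (by linarith)
  have k2 : (2 * al - 3 * be) * t ≤ (2 * al - 3 * be) * (12 / 5) :=
    mul_le_mul_of_nonneg_left h2 (by linarith)
  have l1 : (4 * be - 2 * al) * (53 / 25) ≤ (4 * be - 2 * al) * t :=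
    mul_le_mul_of_nonneg_left h1 (by linarith)
  have l2 : (4 * be - 2 * al) * t ≤ (4 * be - 2 * al) * (12 / 5) :=
    mul_le_mul_of_nonneg_left h2 (by linarith)
  have g1 := loc_lower R (β := t) (b := 839129 / 100000) (η := 37 / 500000) (κ := 57 / 250000)
    (z := 0) (cD := 167617 / 100000) (cW := 11727 / 4000) ht0 (by linarith)
    (le_trans (le_trans (by norm_num) y12x5.1) (Real.exp_le_exp.2 (by linarith)))
    ((tt_anti (by norm_num) h1).trans ((tt_le' (by norm_num) y53x25.2).trans (by norm_num)))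
    (by norm_num) (by norm_num) (by norm_num) (by norm_num) (by norm_num) (by norm_num)
    (by norm_num) (by norm_num) (by norm_num)
  have g2 := dual_lower R (β := t) (x1 := 1057237 / 100000) (x0 := 792927 / 100000) (Y := 23 / 100000)
    (q3 := 158727 / 100000) (Q3 := 33743 / 20000) (q4 := 1693 / 20000) (Q4 := 11293 / 100000)
    (G2 := 28189 / 25000) (G2' := 150427 / 100000) (G1 := 297323 / 25000) (Xi := 680393 / 50000)
    (gD := 3993 / 5000) (gW := 44291 / 100000) (gz := 74453 / 100000) (ξ := 582499 / 100000)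
    (l := 5171 / 12500) (by linarith) (by linarith) (by linarith) (by norm_num) (by norm_num)
    (le_trans (Real.exp_le_exp.2 (by linarith)) (y53x25.2.trans (by norm_num)))
    (le_trans (le_trans (by norm_num) r53x25.1) (Real.exp_le_exp.2 (by linarith)))
    (le_trans (Real.exp_le_exp.2 (by linarith)) (r12x5.2.trans (by norm_num)))
    (le_trans (le_trans (by norm_num) p12x5.1) (Real.exp_le_exp.2 (by linarith)))
    (le_trans (Real.exp_le_exp.2 (by linarith)) (p53x25.2.trans (by norm_num)))
    (by norm_num) (by norm_num) (by norm_num) (by norm_num) (by norm_num) (by norm_num)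
    (by norm_num) (by norm_num) (by norm_num) (by norm_num) (by norm_num) (by norm_num)
    (by norm_num) (by norm_num) (by norm_num) (by norm_num) (by norm_num) (by norm_num) (by norm_num)
  exact slabBB R (b := 839129 / 100000) (by linarith) (by norm_num) g1 g2 (by norm_num) (by norm_num)
    (by norm_num) (by norm_num)

/-- **local minimality of the face-centred cubic form for the pair sums** -/
theorem loc_pp {d1 d2 d3 w1 w2 w3 : ℝ} (hd : d1 + d2 + d3 = 0)
    (b1 : |d1| ≤ 11 / 100) (b2 : |d2| ≤ 11 / 100) (b3 : |d3| ≤ 11 / 100)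
    (c1 : |w1| ≤ 13 / 200) (c2 : |w2| ≤ 13 / 200) (c3 : |w3| ≤ 13 / 200)
    (hp : PD (pp d1 d2 d3 w1 w2 w3)) : FinP (pp d1 d2 d3 w1 w2 w3) := by
  obtain ⟨ρ, τ, D, W, R⟩ := mk_rg hd b1 b2 b3 c1 c2 c3 hp
  refine loc_fin R (T := 12 / 5) (gD := 3 / 20) (gW := 1) (X := 9529 / 1000000) (y1 := 23872807 / 1250000000)
    (y2 := 74883227 / 1000000000000) (by norm_num) (fun t t1 t2 => ?_) (by norm_num) (by norm_num) ?_
    (by simpa using y1x1.1) y12x5.2 (by norm_num) (by norm_num) (by norm_num)

  · have t1 := t1.le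
    rcases le_total t (103 / 100) with v1 | v1
    · exact sA0 R (by linarith) v1
    rcases le_total t (53 / 50) with v2 | v2
    · exact sA1 R (by linarith) v2
    rcases le_total t (109 / 100) with v3 | v3
    · exact sA2 R (by linarith) v3
    rcases le_total t (28 / 25) with v4 | v4
    · exact sA3 R (by linarith) v4
    rcases le_total t (23 / 20) with v5 | v5
    · exact sA4 R (by linarith) v5
    rcases le_total t (117 / 100) with v6 | v6
    · exact sA5 R (by linarith) v6
    rcases le_total t (119 / 100) with v7 | v7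
    · exact sB0 R (by linarith) v7
    rcases le_total t (121 / 100) with v8 | v8
    · exact sB1 R (by linarith) v8
    rcases le_total t (31 / 25) with v9 | v9
    · exact sB2 R (by linarith) v9
    rcases le_total t (32 / 25) with v10 | v10
    · exact sB3 R (by linarith) v10
    rcases le_total t (33 / 25) with v11 | v11
    · exact sB4 R (by linarith) v11
    rcases le_total t (137 / 100) with v12 | v12
    · exact sB5 R (by linarith) v12
    rcases le_total t (36 / 25) with v13 | v13
    · exact sB6 R (by linarith) v13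
    rcases le_total t (38 / 25) with v14 | v14
    · exact sB7 R (by linarith) v14
    rcases le_total t (81 / 50) with v15 | v15
    · exact sB8 R (by linarith) v15
    rcases le_total t (7 / 4) with v16 | v16
    · exact sB9 R (by linarith) v16
    rcases le_total t (191 / 100) with v17 | v17
    · exact sB10 R (by linarith) v17
    rcases le_total t (53 / 25) with v18 | v18
    · exact sB11 R (by linarith) v18
    · exact sB12 R (by linarith) t2.le
  · have h := ht_le (β := 12 / 5) (Y := 7489 / 100000000) (Q3 := 33743 / 20000) (Q4 := 4233 / 50000) (by norm_num)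
      (y12x5.2.trans (by norm_num)) (r12x5.2.trans (by norm_num)) (p12x5.2.trans (by norm_num))
    have h0 := ht_nonneg (12 / 5)
    obtain ⟨f1, f2⟩ := be_bounds
    have hbe := be_pos
    have e : Real.exp (-(2 * al * (12 / 5))) * Real.exp (2 * al * (12 / 5)) = 1 := by
      rw [← Real.exp_add]; simp
    have e2 : HT (12 / 5) = Real.exp (-(2 * al * (12 / 5))) *
        (Real.exp (2 * al * (12 / 5)) * HT (12 / 5)) := by
      rw [← mul_assoc, e, one_mul]
    have h3 : HT (12 / 5) ≤ 7489 / 100000000 * (24 * (33743 / 20000) + 24 * (4233 / 50000) +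
        96 * ((7489 / 100000000) * (4233 / 50000) ^ 2) + 264 * ((33743 / 20000) * (7489 / 100000000) ^ 2 * (4233 / 50000) ^ 2) +
        96 * ((7489 / 100000000) ^ 2 * (4233 / 50000) ^ 3) + 80000 * ((7489 / 100000000) ^ 3 * (4233 / 50000) ^ 4)) := by
      rw [e2]
      refine mul_le_mul (y12x5.2.trans (by norm_num)) h ?_ (by norm_num)
      exact mul_nonneg (Real.exp_pos _).le h0
    calc be * (12 / 5) * HT (12 / 5) ≤ 12467419 / 10000000 * (12 / 5) * (7489 / 100000000 * (24 * (33743 / 20000) + 24 * (4233 / 50000) +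
        96 * ((7489 / 100000000) * (4233 / 50000) ^ 2) + 264 * ((33743 / 20000) * (7489 / 100000000) ^ 2 * (4233 / 50000) ^ 2) +
        96 * ((7489 / 100000000) ^ 2 * (4233 / 50000) ^ 3) + 80000 * ((7489 / 100000000) ^ 3 * (4233 / 50000) ^ 4))) :=
          mul_le_mul (mul_le_mul_of_nonneg_right f2 (by norm_num)) h3 h0 (by norm_num)
      _ ≤ _ := by norm_num

end Pool.Agent.U316.Ep
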