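import Pool.Agent.U316.Ep.LocG

/-!
# Numerical bounds at the grid points
-/

set_option autoImplicit false

open Matrix Pool.Agent.K1H99.FCC

namespace Pool.Agent.U316.Ep

lemma negexp_lb {x s E : ℝ} (hx : 0 ≤ x) (hx4 : x ≤ 16)
    (hs : (∑ i ∈ Finset.range 14, (x / 16) ^ i / (Nat.factorial i : ℝ)) +
      (x / 16) ^ 14 * ((14:ℕ) + 1) / ((Nat.factorial 14 : ℝ) * (14:ℕ)) ≤ s)
    (hE : E * s ^ 16 ≤ 1) : E ≤ Real.exp (-x) := by
  have h1 := exp_ub hx hx4 hs le_rfl
  have h3 : Real.exp (-x) * Real.exp x = 1 := by rw [← Real.exp_add]; simp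
  have h4 := Real.exp_pos x
  have h5 := Real.exp_pos (-x)
  by_contra hc
  push Not at hc
  have hE0 : 0 < E := h5.trans hc
  have h6 : E * Real.exp x ≤ 1 := (mul_le_mul_of_nonneg_left h1 hE0.le).trans hE
  have := mul_lt_mul_of_pos_right hc h4
  linarith

lemma y1x1 : (23872807 / 1250000000 : ℝ) ≤ Real.exp (-(2 * al * (1))) ∧
    Real.exp (-(2 * al * (1))) ≤ 38196499 / 2000000000 := by
  obtain ⟨a1, a2⟩ := al_bounds
  obtain ⟨b1, b2⟩ := be_bounds
  constructor
  · refine le_trans ?_ (Real.exp_le_exp.2 (neg_le_neg (show 2 * al * (1) ≤ 9895397 / 2500000 by linarith)))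
    exact negexp_lb (s := 6403359902879 / 5000000000000) (by norm_num) (by norm_num)
      (by norm_num [Finset.sum_range_succ, Nat.factorial]) (by norm_num)
  · refine (Real.exp_le_exp.2 (neg_le_neg (show 19790793 / 5000000 ≤ 2 * al * (1) by linarith))).trans ?_
    exact negexp (s := 12806719645673 / 10000000000000) (by norm_num) (by norm_num)
      (by norm_num [Finset.sum_range_succ, Nat.factorial]) (by norm_num) (by norm_num)

lemma y103x100 : (42399749 / 2500000000 : ℝ) ≤ Real.exp (-(2 * al * (103 / 100))) ∧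
    Real.exp (-(2 * al * (103 / 100))) ≤ 21199879 / 1250000000 := by
  obtain ⟨a1, a2⟩ := al_bounds
  obtain ⟨b1, b2⟩ := be_bounds
  constructor
  · refine le_trans ?_ (Real.exp_le_exp.2 (neg_le_neg (show 2 * al * (103 / 100) ≤ 1019225891 / 250000000 by linarith)))
    exact negexp_lb (s := 3225529763871 / 2500000000000) (by norm_num) (by norm_num)
      (by norm_num [Finset.sum_range_succ, Nat.factorial]) (by norm_num)
  · refine (Real.exp_le_exp.2 (neg_le_neg (show 2038451679 / 500000000 ≤ 2 * al * (103 / 100) by linarith))).trans ?_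
    exact negexp (s := 1612764861171 / 1250000000000) (by norm_num) (by norm_num)
      (by norm_num [Finset.sum_range_succ, Nat.factorial]) (by norm_num) (by norm_num)

lemma y100x103 : (214319469 / 10000000000 : ℝ) ≤ Real.exp (-(2 * al * (100 / 103))) ∧
    Real.exp (-(2 * al * (100 / 103))) ≤ 26789939 / 1250000000 := by
  obtain ⟨a1, a2⟩ := al_bounds
  obtain ⟨b1, b2⟩ := be_bounds
  constructor
  · refine le_trans ?_ (Real.exp_le_exp.2 (neg_le_neg (show 2 * al * (100 / 103) ≤ 9895397 / 2575000 by linarith)))
    exact negexp_lb (s := 12714774094029 / 10000000000000) (by norm_num) (by norm_num)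
      (by norm_num [Finset.sum_range_succ, Nat.factorial]) (by norm_num)
  · refine (Real.exp_le_exp.2 (neg_le_neg (show 19790793 / 5150000 ≤ 2 * al * (100 / 103) by linarith))).trans ?_
    exact negexp (s := 12714773939723 / 10000000000000) (by norm_num) (by norm_num)
      (by norm_num [Finset.sum_range_succ, Nat.factorial]) (by norm_num) (by norm_num)

lemma u1x1 : (1 : ℝ) ≤ Real.exp (2 * al * (1 - 1 / (1))) ∧
    Real.exp (2 * al * (1 - 1 / (1))) ≤ 1 := by
  obtain ⟨a1, a2⟩ := al_bounds
  obtain ⟨b1, b2⟩ := be_bounds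
  constructor
  · refine le_trans ?_ (Real.exp_le_exp.2 (show 0 ≤ 2 * al * (1 - 1 / (1)) by linarith))
    exact exp_lb (s := 1) (by norm_num) (by norm_num)
      (by norm_num [Finset.sum_range_succ, Nat.factorial]) (by norm_num)
  · refine (Real.exp_le_exp.2 (show 2 * al * (1 - 1 / (1)) ≤ 0 by linarith)).trans ?_
    exact exp_ub (s := 1) (by norm_num) (by norm_num)
      (by norm_num [Finset.sum_range_succ, Nat.factorial]) (by norm_num)

lemma u103x100 : (126368357 / 100000000 : ℝ) ≤ Real.exp (2 * al * (103 / 100 - 1 / (103 / 100))) ∧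
    Real.exp (2 * al * (103 / 100 - 1 / (103 / 100))) ≤ 3159209 / 2500000 := by
  obtain ⟨a1, a2⟩ := al_bounds
  obtain ⟨b1, b2⟩ := be_bounds
  constructor
  · refine le_trans ?_ (Real.exp_le_exp.2 (show 12052592937 / 51500000000 ≤ 2 * al * (103 / 100 - 1 / (103 / 100)) by linarith))
    exact exp_lb (s := 1014734430241 / 1000000000000) (by norm_num) (by norm_num)
      (by norm_num [Finset.sum_range_succ, Nat.factorial]) (by norm_num)
  · refine (Real.exp_le_exp.2 (show 2 * al * (103 / 100 - 1 / (103 / 100)) ≤ 6026296773 / 25750000000 by linarith)).trans ?_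
    exact exp_ub (s := 1014734430991 / 1000000000000) (by norm_num) (by norm_num)
      (by norm_num [Finset.sum_range_succ, Nat.factorial]) (by norm_num)

lemma y53x50 : (37652437 / 2500000000 : ℝ) ≤ Real.exp (-(2 * al * (53 / 50))) ∧
    Real.exp (-(2 * al * (53 / 50))) ≤ 150609781 / 10000000000 := by
  obtain ⟨a1, a2⟩ := al_bounds
  obtain ⟨b1, b2⟩ := be_bounds
  constructor
  · refine le_trans ?_ (Real.exp_le_exp.2 (neg_le_neg (show 2 * al * (53 / 50) ≤ 524456041 / 125000000 by linarith)))
    exact negexp_lb (s := 12998228949073 / 10000000000000) (by norm_num) (by norm_num)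
      (by norm_num [Finset.sum_range_succ, Nat.factorial]) (by norm_num)
  · refine (Real.exp_le_exp.2 (neg_le_neg (show 1048912029 / 250000000 ≤ 2 * al * (53 / 50) by linarith))).trans ?_
    exact negexp (s := 6499114388423 / 5000000000000) (by norm_num) (by norm_num)
      (by norm_num [Finset.sum_range_succ, Nat.factorial]) (by norm_num) (by norm_num)

lemma y50x53 : (11947189 / 500000000 : ℝ) ≤ Real.exp (-(2 * al * (50 / 53))) ∧
    Real.exp (-(2 * al * (50 / 53))) ≤ 119471913 / 5000000000 := by
  obtain ⟨a1, a2⟩ := al_bounds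
  obtain ⟨b1, b2⟩ := be_bounds
  constructor
  · refine le_trans ?_ (Real.exp_le_exp.2 (neg_le_neg (show 2 * al * (50 / 53) ≤ 9895397 / 2650000 by linarith)))
    exact negexp_lb (s := 12628638071269 / 10000000000000) (by norm_num) (by norm_num)
      (by norm_num [Finset.sum_range_succ, Nat.factorial]) (by norm_num)
  · refine (Real.exp_le_exp.2 (neg_le_neg (show 19790793 / 5300000 ≤ 2 * al * (50 / 53) by linarith))).trans ?_
    exact negexp (s := 6314318961173 / 5000000000000) (by norm_num) (by norm_num)
      (by norm_num [Finset.sum_range_succ, Nat.factorial]) (by norm_num) (by norm_num)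

lemma u53x50 : (31730187 / 20000000 : ℝ) ≤ Real.exp (2 * al * (53 / 50 - 1 / (53 / 50))) ∧
    Real.exp (2 * al * (53 / 50 - 1 / (53 / 50))) ≤ 7932547 / 5000000 := by
  obtain ⟨a1, a2⟩ := al_bounds
  obtain ⟨b1, b2⟩ := be_bounds
  constructor
  · refine le_trans ?_ (Real.exp_le_exp.2 (show 6115355037 / 13250000000 ≤ 2 * al * (53 / 50 - 1 / (53 / 50)) by linarith))
    exact exp_lb (s := 2058532180077 / 2000000000000) (by norm_num) (by norm_num)
      (by norm_num [Finset.sum_range_succ, Nat.factorial]) (by norm_num)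
  · refine (Real.exp_le_exp.2 (show 2 * al * (53 / 50 - 1 / (53 / 50)) ≤ 3057677673 / 6625000000 by linarith)).trans ?_
    exact exp_ub (s := 2573165228847 / 2500000000000) (by norm_num) (by norm_num)
      (by norm_num [Finset.sum_range_succ, Nat.factorial]) (by norm_num)

lemma y109x100 : (66873321 / 5000000000 : ℝ) ≤ Real.exp (-(2 * al * (109 / 100))) ∧
    Real.exp (-(2 * al * (109 / 100))) ≤ 8359167 / 625000000 := by
  obtain ⟨a1, a2⟩ := al_bounds
  obtain ⟨b1, b2⟩ := be_bounds
  constructor
  · refine le_trans ?_ (Real.exp_le_exp.2 (neg_le_neg (show 2 * al * (109 / 100) ≤ 1078598273 / 250000000 by linarith)))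
    exact negexp_lb (s := 204610230941 / 156250000000) (by norm_num) (by norm_num)
      (by norm_num [Finset.sum_range_succ, Nat.factorial]) (by norm_num)
  · refine (Real.exp_le_exp.2 (neg_le_neg (show 2157196437 / 500000000 ≤ 2 * al * (109 / 100) by linarith))).trans ?_
    exact negexp (s := 13095054601803 / 10000000000000) (by norm_num) (by norm_num)
      (by norm_num [Finset.sum_range_succ, Nat.factorial]) (by norm_num) (by norm_num)

lemma y100x109 : (132403601 / 5000000000 : ℝ) ≤ Real.exp (-(2 * al * (100 / 109))) ∧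
    Real.exp (-(2 * al * (100 / 109))) ≤ 66201813 / 2500000000 := by
  obtain ⟨a1, a2⟩ := al_bounds
  obtain ⟨b1, b2⟩ := be_bounds
  constructor
  · refine le_trans ?_ (Real.exp_le_exp.2 (neg_le_neg (show 2 * al * (100 / 109) ≤ 9895397 / 2725000 by linarith)))
    exact negexp_lb (s := 12547779777689 / 10000000000000) (by norm_num) (by norm_num)
      (by norm_num [Finset.sum_range_succ, Nat.factorial]) (by norm_num)
  · refine (Real.exp_le_exp.2 (neg_le_neg (show 19790793 / 5450000 ≤ 2 * al * (100 / 109) by linarith))).trans ?_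
    exact negexp (s := 98029528389 / 78125000000) (by norm_num) (by norm_num)
      (by norm_num [Finset.sum_range_succ, Nat.factorial]) (by norm_num) (by norm_num)

lemma u109x100 : (197991657 / 100000000 : ℝ) ≤ Real.exp (2 * al * (109 / 100 - 1 / (109 / 100))) ∧
    Real.exp (2 * al * (109 / 100 - 1 / (109 / 100))) ≤ 39598333 / 20000000 := by
  obtain ⟨a1, a2⟩ := al_bounds
  obtain ⟨b1, b2⟩ := be_bounds
  constructor
  · refine le_trans ?_ (Real.exp_le_exp.2 (show 37226481633 / 54500000000 ≤ 2 * al * (109 / 100 - 1 / (109 / 100)) by linarith))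
    exact exp_lb (s := 1304519104573 / 1250000000000) (by norm_num) (by norm_num)
      (by norm_num [Finset.sum_range_succ, Nat.factorial]) (by norm_num)
  · refine (Real.exp_le_exp.2 (show 2 * al * (109 / 100 - 1 / (109 / 100)) ≤ 18613241757 / 27250000000 by linarith)).trans ?_
    exact exp_ub (s := 1304519107387 / 1250000000000) (by norm_num) (by norm_num)
      (by norm_num [Finset.sum_range_succ, Nat.factorial]) (by norm_num)

lemma y28x25 : (118771623 / 10000000000 : ℝ) ≤ Real.exp (-(2 * al * (28 / 25))) ∧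
    Real.exp (-(2 * al * (28 / 25))) ≤ 2375433 / 200000000 := by
  obtain ⟨a1, a2⟩ := al_bounds
  obtain ⟨b1, b2⟩ := be_bounds
  constructor
  · refine le_trans ?_ (Real.exp_le_exp.2 (neg_le_neg (show 2 * al * (28 / 25) ≤ 69267779 / 15625000 by linarith)))
    exact negexp_lb (s := 6596300941033 / 5000000000000) (by norm_num) (by norm_num)
      (by norm_num [Finset.sum_range_succ, Nat.factorial]) (by norm_num)
  · refine (Real.exp_le_exp.2 (neg_le_neg (show 138535551 / 31250000 ≤ 2 * al * (28 / 25) by linarith))).trans ?_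
    exact negexp (s := 1649075212171 / 1250000000000) (by norm_num) (by norm_num)
      (by norm_num [Finset.sum_range_succ, Nat.factorial]) (by norm_num) (by norm_num)

lemma y25x28 : (18241173 / 625000000 : ℝ) ≤ Real.exp (-(2 * al * (25 / 28))) ∧
    Real.exp (-(2 * al * (25 / 28))) ≤ 291858821 / 10000000000 := by
  obtain ⟨a1, a2⟩ := al_bounds
  obtain ⟨b1, b2⟩ := be_bounds
  constructor
  · refine le_trans ?_ (Real.exp_le_exp.2 (neg_le_neg (show 2 * al * (25 / 28) ≤ 9895397 / 2800000 by linarith)))
    exact negexp_lb (s := 12471730090881 / 10000000000000) (by norm_num) (by norm_num)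
      (by norm_num [Finset.sum_range_succ, Nat.factorial]) (by norm_num)
  · refine (Real.exp_le_exp.2 (neg_le_neg (show 19790793 / 5600000 ≤ 2 * al * (25 / 28) by linarith))).trans ?_
    exact negexp (s := 12471729951687 / 10000000000000) (by norm_num) (by norm_num)
      (by norm_num [Finset.sum_range_succ, Nat.factorial]) (by norm_num) (by norm_num)

lemma u28x25 : (30716381 / 12500000 : ℝ) ≤ Real.exp (2 * al * (28 / 25 - 1 / (28 / 25))) ∧
    Real.exp (2 * al * (28 / 25 - 1 / (28 / 25))) ≤ 12286553 / 5000000 := by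
  obtain ⟨a1, a2⟩ := al_bounds
  obtain ⟨b1, b2⟩ := be_bounds
  constructor
  · refine le_trans ?_ (Real.exp_le_exp.2 (show 3146736087 / 3500000000 ≤ 2 * al * (28 / 25 - 1 / (28 / 25)) by linarith))
    exact exp_lb (s := 10578004614013 / 10000000000000) (by norm_num) (by norm_num)
      (by norm_num [Finset.sum_range_succ, Nat.factorial]) (by norm_num)
  · refine (Real.exp_le_exp.2 (show 2 * al * (28 / 25 - 1 / (28 / 25)) ≤ 1573368123 / 1750000000 by linarith)).trans ?_
    exact exp_ub (s := 661125290253 / 625000000000) (by norm_num) (by norm_num)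
      (by norm_num [Finset.sum_range_succ, Nat.factorial]) (by norm_num)

lemma y23x20 : (10547329 / 1000000000 : ℝ) ≤ Real.exp (-(2 * al * (23 / 20))) ∧
    Real.exp (-(2 * al * (23 / 20))) ≤ 21094663 / 2000000000 := by
  obtain ⟨a1, a2⟩ := al_bounds
  obtain ⟨b1, b2⟩ := be_bounds
  constructor
  · refine le_trans ?_ (Real.exp_le_exp.2 (neg_le_neg (show 2 * al * (23 / 20) ≤ 227594131 / 50000000 by linarith)))
    exact negexp_lb (s := 207669931679 / 156250000000) (by norm_num) (by norm_num)
      (by norm_num [Finset.sum_range_succ, Nat.factorial]) (by norm_num)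
  · refine (Real.exp_le_exp.2 (neg_le_neg (show 455188239 / 100000000 ≤ 2 * al * (23 / 20) by linarith))).trans ?_
    exact negexp (s := 13290875436399 / 10000000000000) (by norm_num) (by norm_num)
      (by norm_num [Finset.sum_range_succ, Nat.factorial]) (by norm_num) (by norm_num)

lemma y20x23 : (160022747 / 5000000000 : ℝ) ≤ Real.exp (-(2 * al * (20 / 23))) ∧
    Real.exp (-(2 * al * (20 / 23))) ≤ 6400911 / 200000000 := by
  obtain ⟨a1, a2⟩ := al_bounds
  obtain ⟨b1, b2⟩ := be_bounds
  constructor
  · refine le_trans ?_ (Real.exp_le_exp.2 (neg_le_neg (show 2 * al * (20 / 23) ≤ 9895397 / 2875000 by linarith)))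
    exact negexp_lb (s := 48437788033 / 39062500000) (by norm_num) (by norm_num)
      (by norm_num [Finset.sum_range_succ, Nat.factorial]) (by norm_num)
  · refine (Real.exp_le_exp.2 (neg_le_neg (show 19790793 / 5750000 ≤ 2 * al * (20 / 23) by linarith))).trans ?_
    exact negexp (s := 12400073601663 / 10000000000000) (by norm_num) (by norm_num)
      (by norm_num [Finset.sum_range_succ, Nat.factorial]) (by norm_num) (by norm_num)

lemma u23x20 : (303437461 / 100000000 : ℝ) ≤ Real.exp (2 * al * (23 / 20 - 1 / (23 / 20))) ∧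
    Real.exp (2 * al * (23 / 20 - 1 / (23 / 20))) ≤ 303437479 / 100000000 := by
  obtain ⟨a1, a2⟩ := al_bounds
  obtain ⟨b1, b2⟩ := be_bounds
  constructor
  · refine le_trans ?_ (Real.exp_le_exp.2 (show 2553012297 / 2300000000 ≤ 2 * al * (23 / 20 - 1 / (23 / 20)) by linarith))
    exact exp_lb (s := 1339798039043 / 1250000000000) (by norm_num) (by norm_num)
      (by norm_num [Finset.sum_range_succ, Nat.factorial]) (by norm_num)
  · refine (Real.exp_le_exp.2 (show 2 * al * (23 / 20 - 1 / (23 / 20)) ≤ 1276506213 / 1150000000 by linarith)).trans ?_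
    exact exp_ub (s := 5359192174959 / 5000000000000) (by norm_num) (by norm_num)
      (by norm_num [Finset.sum_range_succ, Nat.factorial]) (by norm_num)

lemma y117x100 : (97445629 / 10000000000 : ℝ) ≤ Real.exp (-(2 * al * (117 / 100))) ∧
    Real.exp (-(2 * al * (117 / 100))) ≤ 97445653 / 10000000000 := by
  obtain ⟨a1, a2⟩ := al_bounds
  obtain ⟨b1, b2⟩ := be_bounds
  constructor
  · refine le_trans ?_ (Real.exp_le_exp.2 (neg_le_neg (show 2 * al * (117 / 100) ≤ 1157761449 / 250000000 by linarith)))
    exact negexp_lb (s := 13356797819949 / 10000000000000) (by norm_num) (by norm_num)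
      (by norm_num [Finset.sum_range_succ, Nat.factorial]) (by norm_num)
  · refine (Real.exp_le_exp.2 (neg_le_neg (show 2315522781 / 500000000 ≤ 2 * al * (117 / 100) by linarith))).trans ?_
    exact negexp (s := 3339199406151 / 2500000000000) (by norm_num) (by norm_num)
      (by norm_num [Finset.sum_range_succ, Nat.factorial]) (by norm_num) (by norm_num)

lemma y100x117 : (21215031 / 625000000 : ℝ) ≤ Real.exp (-(2 * al * (100 / 117))) ∧
    Real.exp (-(2 * al * (100 / 117))) ≤ 67888111 / 2000000000 := by
  obtain ⟨a1, a2⟩ := al_bounds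
  obtain ⟨b1, b2⟩ := be_bounds
  constructor
  · refine le_trans ?_ (Real.exp_le_exp.2 (neg_le_neg (show 2 * al * (100 / 117) ≤ 9895397 / 2925000 by linarith)))
    exact negexp_lb (s := 12354559680479 / 10000000000000) (by norm_num) (by norm_num)
      (by norm_num [Finset.sum_range_succ, Nat.factorial]) (by norm_num)
  · refine (Real.exp_le_exp.2 (neg_le_neg (show 2198977 / 650000 ≤ 2 * al * (100 / 117) by linarith))).trans ?_
    exact negexp (s := 2470911909697 / 2000000000000) (by norm_num) (by norm_num)
      (by norm_num [Finset.sum_range_succ, Nat.factorial]) (by norm_num) (by norm_num)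

lemma u117x100 : (174169163 / 50000000 : ℝ) ≤ Real.exp (2 * al * (117 / 100 - 1 / (117 / 100))) ∧
    Real.exp (2 * al * (117 / 100 - 1 / (117 / 100))) ≤ 348338349 / 100000000 := by
  obtain ⟨a1, a2⟩ := al_bounds
  obtain ⟨b1, b2⟩ := be_bounds
  constructor
  · refine le_trans ?_ (Real.exp_le_exp.2 (show 8112026153 / 6500000000 ≤ 2 * al * (117 / 100 - 1 / (117 / 100)) by linarith))
    exact exp_lb (s := 2702807326353 / 2500000000000) (by norm_num) (by norm_num)
      (by norm_num [Finset.sum_range_succ, Nat.factorial]) (by norm_num)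
  · refine (Real.exp_le_exp.2 (show 2 * al * (117 / 100 - 1 / (117 / 100)) ≤ 36504119533 / 29250000000 by linarith)).trans ?_
    exact exp_ub (s := 10811229348023 / 10000000000000) (by norm_num) (by norm_num)
      (by norm_num [Finset.sum_range_succ, Nat.factorial]) (by norm_num)

lemma p117x100 : (3000798929 / 10000000000 : ℝ) ≤ Real.exp (-(4 * be * (117 / 100) - 2 * al * (117 / 100))) ∧
    Real.exp (-(4 * be * (117 / 100) - 2 * al * (117 / 100))) ≤ 750200259 / 2500000000 := by
  obtain ⟨a1, a2⟩ := al_bounds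
  obtain ⟨b1, b2⟩ := be_bounds
  constructor
  · refine le_trans ?_ (Real.exp_le_exp.2 (neg_le_neg (show 4 * be * (117 / 100) - 2 * al * (117 / 100) ≤ 120370653 / 100000000 by linarith)))
    exact negexp_lb (s := 10781338804309 / 10000000000000) (by norm_num) (by norm_num)
      (by norm_num [Finset.sum_range_succ, Nat.factorial]) (by norm_num)
  · refine (Real.exp_le_exp.2 (neg_le_neg (show 300926457 / 250000000 ≤ 4 * be * (117 / 100) - 2 * al * (117 / 100) by linarith))).trans ?_
    exact negexp (s := 2695334582819 / 2500000000000) (by norm_num) (by norm_num)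
      (by norm_num [Finset.sum_range_succ, Nat.factorial]) (by norm_num) (by norm_num)

lemma r117x100 : (129043773 / 100000000 : ℝ) ≤ Real.exp (2 * al * (117 / 100) - 3 * be * (117 / 100)) ∧
    Real.exp (2 * al * (117 / 100) - 3 * be * (117 / 100)) ≤ 2580877 / 2000000 := by
  obtain ⟨a1, a2⟩ := al_bounds
  obtain ⟨b1, b2⟩ := be_bounds
  constructor
  · refine le_trans ?_ (Real.exp_le_exp.2 (show 254981493 / 1000000000 ≤ 2 * al * (117 / 100) - 3 * be * (117 / 100) by linarith))
    exact exp_lb (s := 5080320020393 / 5000000000000) (by norm_num) (by norm_num)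
      (by norm_num [Finset.sum_range_succ, Nat.factorial]) (by norm_num)
  · refine (Real.exp_le_exp.2 (show 2 * al * (117 / 100) - 3 * be * (117 / 100) ≤ 127491039 / 500000000 by linarith)).trans ?_
    exact exp_ub (s := 2032128082457 / 2000000000000) (by norm_num) (by norm_num)
      (by norm_num [Finset.sum_range_succ, Nat.factorial]) (by norm_num)

lemma y119x100 : (562681 / 62500000 : ℝ) ≤ Real.exp (-(2 * al * (119 / 100))) ∧
    Real.exp (-(2 * al * (119 / 100))) ≤ 45014491 / 5000000000 := by
  obtain ⟨a1, a2⟩ := al_bounds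
  obtain ⟨b1, b2⟩ := be_bounds
  constructor
  · refine le_trans ?_ (Real.exp_le_exp.2 (neg_le_neg (show 2 * al * (119 / 100) ≤ 1177552243 / 250000000 by linarith)))
    exact negexp_lb (s := 2684609396757 / 2000000000000) (by norm_num) (by norm_num)
      (by norm_num [Finset.sum_range_succ, Nat.factorial]) (by norm_num)
  · refine (Real.exp_le_exp.2 (neg_le_neg (show 2355104367 / 500000000 ≤ 2 * al * (119 / 100) by linarith))).trans ?_
    exact negexp (s := 3355761696029 / 2500000000000) (by norm_num) (by norm_num)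
      (by norm_num [Finset.sum_range_succ, Nat.factorial]) (by norm_num) (by norm_num)

lemma p119x100 : (2939684853 / 10000000000 : ℝ) ≤ Real.exp (-(4 * be * (119 / 100) - 2 * al * (119 / 100))) ∧
    Real.exp (-(4 * be * (119 / 100) - 2 * al * (119 / 100))) ≤ 2939686953 / 10000000000 := by
  obtain ⟨a1, a2⟩ := al_bounds
  obtain ⟨b1, b2⟩ := be_bounds
  constructor
  · refine le_trans ?_ (Real.exp_le_exp.2 (neg_le_neg (show 4 * be * (119 / 100) - 2 * al * (119 / 100) ≤ 122428271 / 100000000 by linarith)))
    exact negexp_lb (s := 10795212646347 / 10000000000000) (by norm_num) (by norm_num)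
      (by norm_num [Finset.sum_range_succ, Nat.factorial]) (by norm_num)
  · refine (Real.exp_le_exp.2 (neg_le_neg (show 306070499 / 250000000 ≤ 4 * be * (119 / 100) - 2 * al * (119 / 100) by linarith))).trans ?_
    exact negexp (s := 1079521216461 / 1000000000000) (by norm_num) (by norm_num)
      (by norm_num [Finset.sum_range_succ, Nat.factorial]) (by norm_num) (by norm_num)

lemma r119x100 : (129607459 / 100000000 : ℝ) ≤ Real.exp (2 * al * (119 / 100) - 3 * be * (119 / 100)) ∧
    Real.exp (2 * al * (119 / 100) - 3 * be * (119 / 100)) ≤ 129607537 / 100000000 := by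
  obtain ⟨a1, a2⟩ := al_bounds
  obtain ⟨b1, b2⟩ := be_bounds
  constructor
  · refine le_trans ?_ (Real.exp_le_exp.2 (show 259340151 / 1000000000 ≤ 2 * al * (119 / 100) - 3 * be * (119 / 100) by linarith))
    exact exp_lb (s := 10163408340021 / 10000000000000) (by norm_num) (by norm_num)
      (by norm_num [Finset.sum_range_succ, Nat.factorial]) (by norm_num)
  · refine (Real.exp_le_exp.2 (show 2 * al * (119 / 100) - 3 * be * (119 / 100) ≤ 129670373 / 500000000 by linarith)).trans ?_
    exact exp_ub (s := 5081704358987 / 5000000000000) (by norm_num) (by norm_num)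
      (by norm_num [Finset.sum_range_succ, Nat.factorial]) (by norm_num)

lemma y121x100 : (4158839 / 500000000 : ℝ) ≤ Real.exp (-(2 * al * (121 / 100))) ∧
    Real.exp (-(2 * al * (121 / 100))) ≤ 83176801 / 10000000000 := by
  obtain ⟨a1, a2⟩ := al_bounds
  obtain ⟨b1, b2⟩ := be_bounds
  constructor
  · refine le_trans ?_ (Real.exp_le_exp.2 (neg_le_neg (show 2 * al * (121 / 100) ≤ 1197343037 / 250000000 by linarith)))
    exact negexp_lb (s := 13489624740729 / 10000000000000) (by norm_num) (by norm_num)
      (by norm_num [Finset.sum_range_succ, Nat.factorial]) (by norm_num)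
  · refine (Real.exp_le_exp.2 (neg_le_neg (show 2394685953 / 500000000 ≤ 2 * al * (121 / 100) by linarith))).trans ?_
    exact negexp (s := 13489624536697 / 10000000000000) (by norm_num) (by norm_num)
      (by norm_num [Finset.sum_range_succ, Nat.factorial]) (by norm_num) (by norm_num)

lemma p121x100 : (2879815423 / 10000000000 : ℝ) ≤ Real.exp (-(4 * be * (121 / 100) - 2 * al * (121 / 100))) ∧
    Real.exp (-(4 * be * (121 / 100) - 2 * al * (121 / 100))) ≤ 575963503 / 2000000000 := by
  obtain ⟨a1, a2⟩ := al_bounds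
  obtain ⟨b1, b2⟩ := be_bounds
  constructor
  · refine le_trans ?_ (Real.exp_le_exp.2 (neg_le_neg (show 4 * be * (121 / 100) - 2 * al * (121 / 100) ≤ 124485889 / 100000000 by linarith)))
    exact negexp_lb (s := 10809104341781 / 10000000000000) (by norm_num) (by norm_num)
      (by norm_num [Finset.sum_range_succ, Nat.factorial]) (by norm_num)
  · refine (Real.exp_le_exp.2 (neg_le_neg (show 311214541 / 250000000 ≤ 4 * be * (121 / 100) - 2 * al * (121 / 100) by linarith))).trans ?_
    exact negexp (s := 2702275962829 / 2500000000000) (by norm_num) (by norm_num)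
      (by norm_num [Finset.sum_range_succ, Nat.factorial]) (by norm_num) (by norm_num)

lemma r121x100 : (65086803 / 50000000 : ℝ) ≤ Real.exp (2 * al * (121 / 100) - 3 * be * (121 / 100)) ∧
    Real.exp (2 * al * (121 / 100) - 3 * be * (121 / 100)) ≤ 65086843 / 50000000 := by
  obtain ⟨a1, a2⟩ := al_bounds
  obtain ⟨b1, b2⟩ := be_bounds
  constructor
  · refine le_trans ?_ (Real.exp_le_exp.2 (show 263698809 / 1000000000 ≤ 2 * al * (121 / 100) - 3 * be * (121 / 100) by linarith))
    exact exp_lb (s := 635386087093 / 625000000000) (by norm_num) (by norm_num)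
      (by norm_num [Finset.sum_range_succ, Nat.factorial]) (by norm_num)
  · refine (Real.exp_le_exp.2 (show 2 * al * (121 / 100) - 3 * be * (121 / 100) ≤ 131849707 / 500000000 by linarith)).trans ?_
    exact exp_ub (s := 10166177777897 / 10000000000000) (by norm_num) (by norm_num)
      (by norm_num [Finset.sum_range_succ, Nat.factorial]) (by norm_num)

lemma y31x25 : (18465961 / 2500000000 : ℝ) ≤ Real.exp (-(2 * al * (31 / 25))) ∧
    Real.exp (-(2 * al * (31 / 25))) ≤ 73863863 / 10000000000 := by
  obtain ⟨a1, a2⟩ := al_bounds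
  obtain ⟨b1, b2⟩ := be_bounds
  constructor
  · refine le_trans ?_ (Real.exp_le_exp.2 (neg_le_neg (show 2 * al * (31 / 25) ≤ 306757307 / 62500000 by linarith)))
    exact negexp_lb (s := 13590111055637 / 10000000000000) (by norm_num) (by norm_num)
      (by norm_num [Finset.sum_range_succ, Nat.factorial]) (by norm_num)
  · refine (Real.exp_le_exp.2 (neg_le_neg (show 613514583 / 125000000 ≤ 2 * al * (31 / 25) by linarith))).trans ?_
    exact negexp (s := 1359011084499 / 1000000000000) (by norm_num) (by norm_num)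
      (by norm_num [Finset.sum_range_succ, Nat.factorial]) (by norm_num) (by norm_num)

lemma p31x25 : (2792289679 / 10000000000 : ℝ) ≤ Real.exp (-(4 * be * (31 / 25) - 2 * al * (31 / 25))) ∧
    Real.exp (-(4 * be * (31 / 25) - 2 * al * (31 / 25))) ≤ 1396145879 / 5000000000 := by
  obtain ⟨a1, a2⟩ := al_bounds
  obtain ⟨b1, b2⟩ := be_bounds
  constructor
  · refine le_trans ?_ (Real.exp_le_exp.2 (neg_le_neg (show 4 * be * (31 / 25) - 2 * al * (31 / 25) ≤ 31893079 / 25000000 by linarith)))
    exact negexp_lb (s := 10829975410309 / 10000000000000) (by norm_num) (by norm_num)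
      (by norm_num [Finset.sum_range_succ, Nat.factorial]) (by norm_num)
  · refine (Real.exp_le_exp.2 (neg_le_neg (show 79732651 / 62500000 ≤ 4 * be * (31 / 25) - 2 * al * (31 / 25) by linarith))).trans ?_
    exact negexp (s := 5414987453357 / 5000000000000) (by norm_num) (by norm_num)
      (by norm_num [Finset.sum_range_succ, Nat.factorial]) (by norm_num) (by norm_num)

lemma r31x25 : (32756867 / 25000000 : ℝ) ≤ Real.exp (2 * al * (31 / 25) - 3 * be * (31 / 25)) ∧
    Real.exp (2 * al * (31 / 25) - 3 * be * (31 / 25)) ≤ 2620551 / 2000000 := by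
  obtain ⟨a1, a2⟩ := al_bounds
  obtain ⟨b1, b2⟩ := be_bounds
  constructor
  · refine le_trans ?_ (Real.exp_le_exp.2 (show 67559199 / 250000000 ≤ 2 * al * (31 / 25) - 3 * be * (31 / 25) by linarith))
    exact exp_lb (s := 10170332388323 / 10000000000000) (by norm_num) (by norm_num)
      (by norm_num [Finset.sum_range_succ, Nat.factorial]) (by norm_num)
  · refine (Real.exp_le_exp.2 (show 2 * al * (31 / 25) - 3 * be * (31 / 25) ≤ 33779677 / 125000000 by linarith)).trans ?_
    exact exp_ub (s := 406813311297 / 400000000000) (by norm_num) (by norm_num)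
      (by norm_num [Finset.sum_range_succ, Nat.factorial]) (by norm_num)

lemma y32x25 : (3940503 / 625000000 : ℝ) ≤ Real.exp (-(2 * al * (32 / 25))) ∧
    Real.exp (-(2 * al * (32 / 25))) ≤ 12609613 / 2000000000 := by
  obtain ⟨a1, a2⟩ := al_bounds
  obtain ⟨b1, b2⟩ := be_bounds
  constructor
  · refine le_trans ?_ (Real.exp_le_exp.2 (neg_le_neg (show 2 * al * (32 / 25) ≤ 9895397 / 1953125 by linarith)))
    exact negexp_lb (s := 13725258164167 / 10000000000000) (by norm_num) (by norm_num)
      (by norm_num [Finset.sum_range_succ, Nat.factorial]) (by norm_num)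
  · refine (Real.exp_le_exp.2 (neg_le_neg (show 19790793 / 3906250 ≤ 2 * al * (32 / 25) by linarith))).trans ?_
    exact negexp (s := 6862628972281 / 5000000000000) (by norm_num) (by norm_num)
      (by norm_num [Finset.sum_range_succ, Nat.factorial]) (by norm_num) (by norm_num)

lemma p32x25 : (2679712661 / 10000000000 : ℝ) ≤ Real.exp (-(4 * be * (32 / 25) - 2 * al * (32 / 25))) ∧
    Real.exp (-(4 * be * (32 / 25) - 2 * al * (32 / 25))) ≤ 16748217 / 62500000 := by
  obtain ⟨a1, a2⟩ := al_bounds
  obtain ⟨b1, b2⟩ := be_bounds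
  constructor
  · refine le_trans ?_ (Real.exp_le_exp.2 (neg_le_neg (show 4 * be * (32 / 25) - 2 * al * (32 / 25) ≤ 1028809 / 781250 by linarith)))
    exact negexp_lb (s := 10857866203237 / 10000000000000) (by norm_num) (by norm_num)
      (by norm_num [Finset.sum_range_succ, Nat.factorial]) (by norm_num)
  · refine (Real.exp_le_exp.2 (neg_le_neg (show 2572021 / 1953125 ≤ 4 * be * (32 / 25) - 2 * al * (32 / 25) by linarith))).trans ?_
    exact negexp (s := 5428932841029 / 5000000000000) (by norm_num) (by norm_num)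
      (by norm_num [Finset.sum_range_succ, Nat.factorial]) (by norm_num) (by norm_num)

lemma r32x25 : (132174669 / 100000000 : ℝ) ≤ Real.exp (2 * al * (32 / 25) - 3 * be * (32 / 25)) ∧
    Real.exp (2 * al * (32 / 25) - 3 * be * (32 / 25)) ≤ 66087377 / 50000000 := by
  obtain ⟨a1, a2⟩ := al_bounds
  obtain ⟨b1, b2⟩ := be_bounds
  constructor
  · refine le_trans ?_ (Real.exp_le_exp.2 (show 2179329 / 7812500 ≤ 2 * al * (32 / 25) - 3 * be * (32 / 25) by linarith))
    exact exp_lb (s := 10175875023167 / 10000000000000) (by norm_num) (by norm_num)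
      (by norm_num [Finset.sum_range_succ, Nat.factorial]) (by norm_num)
  · refine (Real.exp_le_exp.2 (show 2 * al * (32 / 25) - 3 * be * (32 / 25) ≤ 1089667 / 3906250 by linarith)).trans ?_
    exact exp_ub (s := 2543968857551 / 2500000000000) (by norm_num) (by norm_num)
      (by norm_num [Finset.sum_range_succ, Nat.factorial]) (by norm_num)

lemma y33x25 : (13453999 / 2500000000 : ℝ) ≤ Real.exp (-(2 * al * (33 / 25))) ∧
    Real.exp (-(2 * al * (33 / 25))) ≤ 53816011 / 10000000000 := by
  obtain ⟨a1, a2⟩ := al_bounds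
  obtain ⟨b1, b2⟩ := be_bounds
  constructor
  · refine le_trans ?_ (Real.exp_le_exp.2 (neg_le_neg (show 2 * al * (33 / 25) ≤ 326548101 / 62500000 by linarith)))
    exact negexp_lb (s := 2772349849119 / 2000000000000) (by norm_num) (by norm_num)
      (by norm_num [Finset.sum_range_succ, Nat.factorial]) (by norm_num)
  · refine (Real.exp_le_exp.2 (neg_le_neg (show 653096169 / 125000000 ≤ 2 * al * (33 / 25) by linarith))).trans ?_
    exact negexp (s := 22178798427 / 16000000000) (by norm_num) (by norm_num)
      (by norm_num [Finset.sum_range_succ, Nat.factorial]) (by norm_num) (by norm_num)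

lemma p33x25 : (1285837211 / 5000000000 : ℝ) ≤ Real.exp (-(4 * be * (33 / 25) - 2 * al * (33 / 25))) ∧
    Real.exp (-(4 * be * (33 / 25) - 2 * al * (33 / 25))) ≤ 128583823 / 500000000 := by
  obtain ⟨a1, a2⟩ := al_bounds
  obtain ⟨b1, b2⟩ := be_bounds
  constructor
  · refine le_trans ?_ (Real.exp_le_exp.2 (neg_le_neg (show 4 * be * (33 / 25) - 2 * al * (33 / 25) ≤ 33950697 / 25000000 by linarith)))
    exact negexp_lb (s := 2721457206061 / 2500000000000) (by norm_num) (by norm_num)
      (by norm_num [Finset.sum_range_succ, Nat.factorial]) (by norm_num)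
  · refine (Real.exp_le_exp.2 (neg_le_neg (show 84876693 / 62500000 ≤ 4 * be * (33 / 25) - 2 * al * (33 / 25) by linarith))).trans ?_
    exact negexp (s := 5442914142697 / 5000000000000) (by norm_num) (by norm_num)
      (by norm_num [Finset.sum_range_succ, Nat.factorial]) (by norm_num) (by norm_num)

lemma r33x25 : (66665957 / 50000000 : ℝ) ≤ Real.exp (2 * al * (33 / 25) - 3 * be * (33 / 25)) ∧
    Real.exp (2 * al * (33 / 25) - 3 * be * (33 / 25)) ≤ 133332003 / 100000000 := by
  obtain ⟨a1, a2⟩ := al_bounds
  obtain ⟨b1, b2⟩ := be_bounds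
  constructor
  · refine le_trans ?_ (Real.exp_le_exp.2 (show 71917857 / 250000000 ≤ 2 * al * (33 / 25) - 3 * be * (33 / 25) by linarith))
    exact exp_lb (s := 10181420678641 / 10000000000000) (by norm_num) (by norm_num)
      (by norm_num [Finset.sum_range_succ, Nat.factorial]) (by norm_num)
  · refine (Real.exp_le_exp.2 (show 2 * al * (33 / 25) - 3 * be * (33 / 25) ≤ 35959011 / 125000000 by linarith)).trans ?_
    exact exp_ub (s := 81451368789 / 80000000000) (by norm_num) (by norm_num)
      (by norm_num [Finset.sum_range_succ, Nat.factorial]) (by norm_num)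

lemma y137x100 : (8830617 / 2000000000 : ℝ) ≤ Real.exp (-(2 * al * (137 / 100))) ∧
    Real.exp (-(2 * al * (137 / 100))) ≤ 22076549 / 5000000000 := by
  obtain ⟨a1, a2⟩ := al_bounds
  obtain ⟨b1, b2⟩ := be_bounds
  constructor
  · refine le_trans ?_ (Real.exp_le_exp.2 (neg_le_neg (show 2 * al * (137 / 100) ≤ 1355669389 / 250000000 by linarith)))
    exact negexp_lb (s := 219285522389 / 156250000000) (by norm_num) (by norm_num)
      (by norm_num [Finset.sum_range_succ, Nat.factorial]) (by norm_num)
  · refine (Real.exp_le_exp.2 (neg_le_neg (show 2711338641 / 500000000 ≤ 2 * al * (137 / 100) by linarith))).trans ?_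
    exact negexp (s := 7017136596279 / 5000000000000) (by norm_num) (by norm_num)
      (by norm_num [Finset.sum_range_succ, Nat.factorial]) (by norm_num) (by norm_num)

lemma p137x100 : (2442731213 / 10000000000 : ℝ) ≤ Real.exp (-(4 * be * (137 / 100) - 2 * al * (137 / 100))) ∧
    Real.exp (-(4 * be * (137 / 100) - 2 * al * (137 / 100))) ≤ 1221366611 / 5000000000 := by
  obtain ⟨a1, a2⟩ := al_bounds
  obtain ⟨b1, b2⟩ := be_bounds
  constructor
  · refine le_trans ?_ (Real.exp_le_exp.2 (neg_le_neg (show 4 * be * (137 / 100) - 2 * al * (137 / 100) ≤ 140946833 / 100000000 by linarith)))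
    exact negexp_lb (s := 10920883390591 / 10000000000000) (by norm_num) (by norm_num)
      (by norm_num [Finset.sum_range_succ, Nat.factorial]) (by norm_num)
  · refine (Real.exp_le_exp.2 (neg_le_neg (show 352366877 / 250000000 ≤ 4 * be * (137 / 100) - 2 * al * (137 / 100) by linarith))).trans ?_
    exact negexp (s := 1092088282953 / 1000000000000) (by norm_num) (by norm_num)
      (by norm_num [Finset.sum_range_succ, Nat.factorial]) (by norm_num) (by norm_num)

lemma r137x100 : (134792729 / 100000000 : ℝ) ≤ Real.exp (2 * al * (137 / 100) - 3 * be * (137 / 100)) ∧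
    Real.exp (2 * al * (137 / 100) - 3 * be * (137 / 100)) ≤ 67396411 / 50000000 := by
  obtain ⟨a1, a2⟩ := al_bounds
  obtain ⟨b1, b2⟩ := be_bounds
  constructor
  · refine le_trans ?_ (Real.exp_le_exp.2 (show 298568073 / 1000000000 ≤ 2 * al * (137 / 100) - 3 * be * (137 / 100) by linarith))
    exact exp_lb (s := 40753427993 / 40000000000) (by norm_num) (by norm_num)
      (by norm_num [Finset.sum_range_succ, Nat.factorial]) (by norm_num)
  · refine (Real.exp_le_exp.2 (show 2 * al * (137 / 100) - 3 * be * (137 / 100) ≤ 149284379 / 500000000 by linarith)).trans ?_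
    exact exp_ub (s := 254708935861 / 250000000000) (by norm_num) (by norm_num)
      (by norm_num [Finset.sum_range_succ, Nat.factorial]) (by norm_num)

lemma y36x25 : (1045877 / 312500000 : ℝ) ≤ Real.exp (-(2 * al * (36 / 25))) ∧
    Real.exp (-(2 * al * (36 / 25))) ≤ 1338723 / 400000000 := by
  obtain ⟨a1, a2⟩ := al_bounds
  obtain ⟨b1, b2⟩ := be_bounds
  constructor
  · refine le_trans ?_ (Real.exp_le_exp.2 (neg_le_neg (show 2 * al * (36 / 25) ≤ 89058573 / 15625000 by linarith)))
    exact negexp_lb (s := 14279420644773 / 10000000000000) (by norm_num) (by norm_num)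
      (by norm_num [Finset.sum_range_succ, Nat.factorial]) (by norm_num)
  · refine (Real.exp_le_exp.2 (neg_le_neg (show 178117137 / 31250000 ≤ 2 * al * (36 / 25) by linarith))).trans ?_
    exact negexp (s := 7139710193871 / 5000000000000) (by norm_num) (by norm_num)
      (by norm_num [Finset.sum_range_succ, Nat.factorial]) (by norm_num) (by norm_num)

lemma p36x25 : (2272999063 / 10000000000 : ℝ) ≤ Real.exp (-(4 * be * (36 / 25) - 2 * al * (36 / 25))) ∧
    Real.exp (-(4 * be * (36 / 25) - 2 * al * (36 / 25))) ≤ 568250257 / 2500000000 := by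
  obtain ⟨a1, a2⟩ := al_bounds
  obtain ⟨b1, b2⟩ := be_bounds
  constructor
  · refine le_trans ?_ (Real.exp_le_exp.2 (neg_le_neg (show 4 * be * (36 / 25) - 2 * al * (36 / 25) ≤ 9259281 / 6250000 by linarith)))
    exact negexp_lb (s := 5485074753967 / 5000000000000) (by norm_num) (by norm_num)
      (by norm_num [Finset.sum_range_succ, Nat.factorial]) (by norm_num)
  · refine (Real.exp_le_exp.2 (neg_le_neg (show 23148189 / 15625000 ≤ 4 * be * (36 / 25) - 2 * al * (36 / 25) by linarith))).trans ?_
    exact negexp (s := 2194029783109 / 2000000000000) (by norm_num) (by norm_num)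
      (by norm_num [Finset.sum_range_succ, Nat.factorial]) (by norm_num) (by norm_num)

lemma r36x25 : (136864797 / 100000000 : ℝ) ≤ Real.exp (2 * al * (36 / 25) - 3 * be * (36 / 25)) ∧
    Real.exp (2 * al * (36 / 25) - 3 * be * (36 / 25)) ≤ 136864897 / 100000000 := by
  obtain ⟨a1, a2⟩ := al_bounds
  obtain ⟨b1, b2⟩ := be_bounds
  constructor
  · refine le_trans ?_ (Real.exp_le_exp.2 (show 19613961 / 62500000 ≤ 2 * al * (36 / 25) - 3 * be * (36 / 25) by linarith))
    exact exp_lb (s := 10198075785301 / 10000000000000) (by norm_num) (by norm_num)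
      (by norm_num [Finset.sum_range_succ, Nat.factorial]) (by norm_num)
  · refine (Real.exp_le_exp.2 (show 2 * al * (36 / 25) - 3 * be * (36 / 25) ≤ 9807003 / 31250000 by linarith)).trans ?_
    exact exp_ub (s := 1274759530527 / 1250000000000) (by norm_num) (by norm_num)
      (by norm_num [Finset.sum_range_succ, Nat.factorial]) (by norm_num)

lemma y38x25 : (762009 / 312500000 : ℝ) ≤ Real.exp (-(2 * al * (38 / 25))) ∧
    Real.exp (-(2 * al * (38 / 25))) ≤ 3048037 / 1250000000 := by
  obtain ⟨a1, a2⟩ := al_bounds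
  obtain ⟨b1, b2⟩ := be_bounds
  constructor
  · refine le_trans ?_ (Real.exp_le_exp.2 (neg_le_neg (show 2 * al * (38 / 25) ≤ 188012543 / 31250000 by linarith)))
    exact negexp_lb (s := 7282418353311 / 5000000000000) (by norm_num) (by norm_num)
      (by norm_num [Finset.sum_range_succ, Nat.factorial]) (by norm_num)
  · refine (Real.exp_le_exp.2 (neg_le_neg (show 376025067 / 62500000 ≤ 2 * al * (38 / 25) by linarith))).trans ?_
    exact negexp (s := 14564836429889 / 10000000000000) (by norm_num) (by norm_num)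
      (by norm_num [Finset.sum_range_succ, Nat.factorial]) (by norm_num) (by norm_num)

lemma p38x25 : (2093412297 / 10000000000 : ℝ) ≤ Real.exp (-(4 * be * (38 / 25) - 2 * al * (38 / 25))) ∧
    Real.exp (-(4 * be * (38 / 25) - 2 * al * (38 / 25))) ≤ 32709597 / 156250000 := by
  obtain ⟨a1, a2⟩ := al_bounds
  obtain ⟨b1, b2⟩ := be_bounds
  constructor
  · refine le_trans ?_ (Real.exp_le_exp.2 (neg_le_neg (show 4 * be * (38 / 25) - 2 * al * (38 / 25) ≤ 19547371 / 12500000 by linarith)))
    exact negexp_lb (s := 5513362920753 / 5000000000000) (by norm_num) (by norm_num)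
      (by norm_num [Finset.sum_range_succ, Nat.factorial]) (by norm_num)
  · refine (Real.exp_le_exp.2 (neg_le_neg (show 48868399 / 31250000 ≤ 4 * be * (38 / 25) - 2 * al * (38 / 25) by linarith))).trans ?_
    exact negexp (s := 5513362606491 / 5000000000000) (by norm_num) (by norm_num)
      (by norm_num [Finset.sum_range_succ, Nat.factorial]) (by norm_num) (by norm_num)

lemma r38x25 : (139271907 / 100000000 : ℝ) ≤ Real.exp (2 * al * (38 / 25) - 3 * be * (38 / 25)) ∧
    Real.exp (2 * al * (38 / 25) - 3 * be * (38 / 25)) ≤ 69636007 / 50000000 := by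
  obtain ⟨a1, a2⟩ := al_bounds
  obtain ⟨b1, b2⟩ := be_bounds
  constructor
  · refine le_trans ?_ (Real.exp_le_exp.2 (show 41407251 / 125000000 ≤ 2 * al * (38 / 25) - 3 * be * (38 / 25) by linarith))
    exact exp_lb (s := 10209194323091 / 10000000000000) (by norm_num) (by norm_num)
      (by norm_num [Finset.sum_range_succ, Nat.factorial]) (by norm_num)
  · refine (Real.exp_le_exp.2 (show 2 * al * (38 / 25) - 3 * be * (38 / 25) ≤ 20703673 / 62500000 by linarith)).trans ?_
    exact exp_ub (s := 10209194808029 / 10000000000000) (by norm_num) (by norm_num)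
      (by norm_num [Finset.sum_range_succ, Nat.factorial]) (by norm_num)

lemma y81x50 : (16413811 / 10000000000 : ℝ) ≤ Real.exp (-(2 * al * (81 / 50))) ∧
    Real.exp (-(2 * al * (81 / 50))) ≤ 16413817 / 10000000000 := by
  obtain ⟨a1, a2⟩ := al_bounds
  obtain ⟨b1, b2⟩ := be_bounds
  constructor
  · refine le_trans ?_ (Real.exp_le_exp.2 (neg_le_neg (show 2 * al * (81 / 50) ≤ 801527157 / 125000000 by linarith)))
    exact negexp_lb (s := 14929642579227 / 10000000000000) (by norm_num) (by norm_num)
      (by norm_num [Finset.sum_range_succ, Nat.factorial]) (by norm_num)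
  · refine (Real.exp_le_exp.2 (neg_le_neg (show 1603054233 / 250000000 ≤ 2 * al * (81 / 50) by linarith))).trans ?_
    exact negexp (s := 14929642276901 / 10000000000000) (by norm_num) (by norm_num)
      (by norm_num [Finset.sum_range_succ, Nat.factorial]) (by norm_num) (by norm_num)

lemma p81x50 : (1888748637 / 10000000000 : ℝ) ≤ Real.exp (-(4 * be * (81 / 50) - 2 * al * (81 / 50))) ∧
    Real.exp (-(4 * be * (81 / 50) - 2 * al * (81 / 50))) ≤ 1888750473 / 10000000000 := by
  obtain ⟨a1, a2⟩ := al_bounds
  obtain ⟨b1, b2⟩ := be_bounds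
  constructor
  · refine le_trans ?_ (Real.exp_le_exp.2 (neg_le_neg (show 4 * be * (81 / 50) - 2 * al * (81 / 50) ≤ 83333529 / 50000000 by linarith)))
    exact negexp_lb (s := 5548928375859 / 5000000000000) (by norm_num) (by norm_num)
      (by norm_num [Finset.sum_range_succ, Nat.factorial]) (by norm_num)
  · refine (Real.exp_le_exp.2 (neg_le_neg (show 208333701 / 125000000 ≤ 4 * be * (81 / 50) - 2 * al * (81 / 50) by linarith))).trans ?_
    exact negexp (s := 5548928038761 / 5000000000000) (by norm_num) (by norm_num)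
      (by norm_num [Finset.sum_range_succ, Nat.factorial]) (by norm_num) (by norm_num)

lemma r81x50 : (28468083 / 20000000 : ℝ) ≤ Real.exp (2 * al * (81 / 50) - 3 * be * (81 / 50)) ∧
    Real.exp (2 * al * (81 / 50) - 3 * be * (81 / 50)) ≤ 35585133 / 25000000 := by
  obtain ⟨a1, a2⟩ := al_bounds
  obtain ⟨b1, b2⟩ := be_bounds
  constructor
  · refine le_trans ?_ (Real.exp_le_exp.2 (show 176525649 / 500000000 ≤ 2 * al * (81 / 50) - 3 * be * (81 / 50) by linarith))
    exact exp_lb (s := 204462190871 / 200000000000) (by norm_num) (by norm_num)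
      (by norm_num [Finset.sum_range_succ, Nat.factorial]) (by norm_num)
  · refine (Real.exp_le_exp.2 (show 2 * al * (81 / 50) - 3 * be * (81 / 50) ≤ 88263027 / 250000000 by linarith)).trans ?_
    exact exp_ub (s := 1277888757637 / 1250000000000) (by norm_num) (by norm_num)
      (by norm_num [Finset.sum_range_succ, Nat.factorial]) (by norm_num)

lemma y7x4 : (9811571 / 10000000000 : ℝ) ≤ Real.exp (-(2 * al * (7 / 4))) ∧
    Real.exp (-(2 * al * (7 / 4))) ≤ 1226447 / 1250000000 := by
  obtain ⟨a1, a2⟩ := al_bounds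
  obtain ⟨b1, b2⟩ := be_bounds
  constructor
  · refine le_trans ?_ (Real.exp_le_exp.2 (neg_le_neg (show 2 * al * (7 / 4) ≤ 69267779 / 10000000 by linarith)))
    exact negexp_lb (s := 3854396136913 / 2500000000000) (by norm_num) (by norm_num)
      (by norm_num [Finset.sum_range_succ, Nat.factorial]) (by norm_num)
  · refine (Real.exp_le_exp.2 (neg_le_neg (show 138535551 / 20000000 ≤ 2 * al * (7 / 4) by linarith))).trans ?_
    exact negexp (s := 15417584210391 / 10000000000000) (by norm_num) (by norm_num)
      (by norm_num [Finset.sum_range_succ, Nat.factorial]) (by norm_num) (by norm_num)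

lemma p7x4 : (826150897 / 5000000000 : ℝ) ≤ Real.exp (-(4 * be * (7 / 4) - 2 * al * (7 / 4))) ∧
    Real.exp (-(4 * be * (7 / 4) - 2 * al * (7 / 4))) ≤ 165230353 / 1000000000 := by
  obtain ⟨a1, a2⟩ := al_bounds
  obtain ⟨b1, b2⟩ := be_bounds
  constructor
  · refine le_trans ?_ (Real.exp_le_exp.2 (neg_le_neg (show 4 * be * (7 / 4) - 2 * al * (7 / 4) ≤ 7201663 / 4000000 by linarith)))
    exact negexp_lb (s := 5595506678419 / 5000000000000) (by norm_num) (by norm_num)
      (by norm_num [Finset.sum_range_succ, Nat.factorial]) (by norm_num)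
  · refine (Real.exp_le_exp.2 (neg_le_neg (show 18004147 / 10000000 ≤ 4 * be * (7 / 4) - 2 * al * (7 / 4) by linarith))).trans ?_
    exact negexp (s := 11191012622427 / 10000000000000) (by norm_num) (by norm_num)
      (by norm_num [Finset.sum_range_succ, Nat.factorial]) (by norm_num) (by norm_num)

lemma r7x4 : (14643077 / 10000000 : ℝ) ≤ Real.exp (2 * al * (7 / 4) - 3 * be * (7 / 4)) ∧
    Real.exp (2 * al * (7 / 4) - 3 * be * (7 / 4)) ≤ 146430899 / 100000000 := by
  obtain ⟨a1, a2⟩ := al_bounds
  obtain ⟨b1, b2⟩ := be_bounds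
  constructor
  · refine le_trans ?_ (Real.exp_le_exp.2 (show 15255303 / 40000000 ≤ 2 * al * (7 / 4) - 3 * be * (7 / 4) by linarith))
    exact exp_lb (s := 10241227689027 / 10000000000000) (by norm_num) (by norm_num)
      (by norm_num [Finset.sum_range_succ, Nat.factorial]) (by norm_num)
  · refine (Real.exp_le_exp.2 (show 2 * al * (7 / 4) - 3 * be * (7 / 4) ≤ 7627669 / 20000000 by linarith)).trans ?_
    exact exp_ub (s := 2048245649819 / 2000000000000) (by norm_num) (by norm_num)
      (by norm_num [Finset.sum_range_succ, Nat.factorial]) (by norm_num)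

lemma y191x100 : (2604159 / 5000000000 : ℝ) ≤ Real.exp (-(2 * al * (191 / 100))) ∧
    Real.exp (-(2 * al * (191 / 100))) ≤ 5208321 / 10000000000 := by
  obtain ⟨a1, a2⟩ := al_bounds
  obtain ⟨b1, b2⟩ := be_bounds
  constructor
  · refine le_trans ?_ (Real.exp_le_exp.2 (neg_le_neg (show 2 * al * (191 / 100) ≤ 1890020827 / 250000000 by linarith)))
    exact negexp_lb (s := 16040075344961 / 10000000000000) (by norm_num) (by norm_num)
      (by norm_num [Finset.sum_range_succ, Nat.factorial]) (by norm_num)
  · refine (Real.exp_le_exp.2 (neg_le_neg (show 3780041463 / 500000000 ≤ 2 * al * (191 / 100) by linarith))).trans ?_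
    exact negexp (s := 16040074962003 / 10000000000000) (by norm_num) (by norm_num)
      (by norm_num [Finset.sum_range_succ, Nat.factorial]) (by norm_num) (by norm_num)

lemma p191x100 : (1401523561 / 10000000000 : ℝ) ≤ Real.exp (-(4 * be * (191 / 100) - 2 * al * (191 / 100))) ∧
    Real.exp (-(4 * be * (191 / 100) - 2 * al * (191 / 100))) ≤ 87595323 / 625000000 := by
  obtain ⟨a1, a2⟩ := al_bounds
  obtain ⟨b1, b2⟩ := be_bounds
  constructor
  · refine le_trans ?_ (Real.exp_le_exp.2 (neg_le_neg (show 4 * be * (191 / 100) - 2 * al * (191 / 100) ≤ 196502519 / 100000000 by linarith)))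
    exact negexp_lb (s := 11306741801 / 10000000000) (by norm_num) (by norm_num)
      (by norm_num [Finset.sum_range_succ, Nat.factorial]) (by norm_num)
  · refine (Real.exp_le_exp.2 (neg_le_neg (show 491256011 / 250000000 ≤ 4 * be * (191 / 100) - 2 * al * (191 / 100) by linarith))).trans ?_
    exact negexp (s := 11306740991153 / 10000000000000) (by norm_num) (by norm_num)
      (by norm_num [Finset.sum_range_succ, Nat.factorial]) (by norm_num) (by norm_num)

lemma r191x100 : (151626767 / 100000000 : ℝ) ≤ Real.exp (2 * al * (191 / 100) - 3 * be * (191 / 100)) ∧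
    Real.exp (2 * al * (191 / 100) - 3 * be * (191 / 100)) ≤ 151626913 / 100000000 := by
  obtain ⟨a1, a2⟩ := al_bounds
  obtain ⟨b1, b2⟩ := be_bounds
  constructor
  · refine le_trans ?_ (Real.exp_le_exp.2 (show 416251839 / 1000000000 ≤ 2 * al * (191 / 100) - 3 * be * (191 / 100) by linarith))
    exact exp_lb (s := 10263571031429 / 10000000000000) (by norm_num) (by norm_num)
      (by norm_num [Finset.sum_range_succ, Nat.factorial]) (by norm_num)
  · refine (Real.exp_le_exp.2 (show 2 * al * (191 / 100) - 3 * be * (191 / 100) ≤ 208126397 / 500000000 by linarith)).trans ?_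
    exact exp_ub (s := 10263571644037 / 10000000000000) (by norm_num) (by norm_num)
      (by norm_num [Finset.sum_range_succ, Nat.factorial]) (by norm_num)

lemma y53x25 : (226832963 / 1000000000000 : ℝ) ≤ Real.exp (-(2 * al * (53 / 25))) ∧
    Real.exp (-(2 * al * (53 / 25))) ≤ 11341653 / 50000000000 := by
  obtain ⟨a1, a2⟩ := al_bounds
  obtain ⟨b1, b2⟩ := be_bounds
  constructor
  · refine le_trans ?_ (Real.exp_le_exp.2 (neg_le_neg (show 2 * al * (53 / 25) ≤ 524456041 / 62500000 by linarith)))
    exact negexp_lb (s := 4223848895313 / 2500000000000) (by norm_num) (by norm_num)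
      (by norm_num [Finset.sum_range_succ, Nat.factorial]) (by norm_num)
  · refine (Real.exp_le_exp.2 (neg_le_neg (show 1048912029 / 125000000 ≤ 2 * al * (53 / 25) by linarith))).trans ?_
    exact negexp (s := 16895395133523 / 10000000000000) (by norm_num) (by norm_num)
      (by norm_num [Finset.sum_range_succ, Nat.factorial]) (by norm_num) (by norm_num)

lemma p53x25 : (35287521 / 312500000 : ℝ) ≤ Real.exp (-(4 * be * (53 / 25) - 2 * al * (53 / 25))) ∧
    Real.exp (-(4 * be * (53 / 25) - 2 * al * (53 / 25))) ≤ 1129202109 / 10000000000 := by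
  obtain ⟨a1, a2⟩ := al_bounds
  obtain ⟨b1, b2⟩ := be_bounds
  constructor
  · refine le_trans ?_ (Real.exp_le_exp.2 (neg_le_neg (show 4 * be * (53 / 25) - 2 * al * (53 / 25) ≤ 54526877 / 25000000 by linarith)))
    exact negexp_lb (s := 716278345587 / 625000000000) (by norm_num) (by norm_num)
      (by norm_num [Finset.sum_range_succ, Nat.factorial]) (by norm_num)
  · refine (Real.exp_le_exp.2 (neg_le_neg (show 136317113 / 62500000 ≤ 4 * be * (53 / 25) - 2 * al * (53 / 25) by linarith))).trans ?_
    exact negexp (s := 2292090523657 / 2000000000000) (by norm_num) (by norm_num)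
      (by norm_num [Finset.sum_range_succ, Nat.factorial]) (by norm_num) (by norm_num)

lemma r53x25 : (158727347 / 100000000 : ℝ) ≤ Real.exp (2 * al * (53 / 25) - 3 * be * (53 / 25)) ∧
    Real.exp (2 * al * (53 / 25) - 3 * be * (53 / 25)) ≤ 39681879 / 25000000 := by
  obtain ⟨a1, a2⟩ := al_bounds
  obtain ⟨b1, b2⟩ := be_bounds
  constructor
  · refine le_trans ?_ (Real.exp_le_exp.2 (show 115504437 / 250000000 ≤ 2 * al * (53 / 25) - 3 * be * (53 / 25) by linarith))
    exact exp_lb (s := 102929706619 / 100000000000) (by norm_num) (by norm_num)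
      (by norm_num [Finset.sum_range_succ, Nat.factorial]) (by norm_num)
  · refine (Real.exp_le_exp.2 (show 2 * al * (53 / 25) - 3 * be * (53 / 25) ≤ 57752351 / 125000000 by linarith)).trans ?_
    exact exp_ub (s := 1029297134381 / 1000000000000) (by norm_num) (by norm_num)
      (by norm_num [Finset.sum_range_succ, Nat.factorial]) (by norm_num)

lemma y12x5 : (7488319 / 100000000000 : ℝ) ≤ Real.exp (-(2 * al * (12 / 5))) ∧
    Real.exp (-(2 * al * (12 / 5))) ≤ 74883227 / 1000000000000 := by
  obtain ⟨a1, a2⟩ := al_bounds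
  obtain ⟨b1, b2⟩ := be_bounds
  constructor
  · refine le_trans ?_ (Real.exp_le_exp.2 (neg_le_neg (show 2 * al * (12 / 5) ≤ 29686191 / 3125000 by linarith)))
    exact negexp_lb (s := 9053593334421 / 5000000000000) (by norm_num) (by norm_num)
      (by norm_num [Finset.sum_range_succ, Nat.factorial]) (by norm_num)
  · refine (Real.exp_le_exp.2 (neg_le_neg (show 59372379 / 6250000 ≤ 2 * al * (12 / 5) by linarith))).trans ?_
    exact negexp (s := 28971497801 / 16000000000) (by norm_num) (by norm_num)
      (by norm_num [Finset.sum_range_succ, Nat.factorial]) (by norm_num) (by norm_num)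

lemma p12x5 : (423287489 / 5000000000 : ℝ) ≤ Real.exp (-(4 * be * (12 / 5) - 2 * al * (12 / 5))) ∧
    Real.exp (-(4 * be * (12 / 5) - 2 * al * (12 / 5))) ≤ 423288099 / 5000000000 := by
  obtain ⟨a1, a2⟩ := al_bounds
  obtain ⟨b1, b2⟩ := be_bounds
  constructor
  · refine le_trans ?_ (Real.exp_le_exp.2 (neg_le_neg (show 4 * be * (12 / 5) - 2 * al * (12 / 5) ≤ 3086427 / 1250000 by linarith)))
    exact negexp_lb (s := 11668657988607 / 10000000000000) (by norm_num) (by norm_num)
      (by norm_num [Finset.sum_range_succ, Nat.factorial]) (by norm_num)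
  · refine (Real.exp_le_exp.2 (neg_le_neg (show 7716063 / 3125000 ≤ 4 * be * (12 / 5) - 2 * al * (12 / 5) by linarith))).trans ?_
    exact negexp (s := 11668656938427 / 10000000000000) (by norm_num) (by norm_num)
      (by norm_num [Finset.sum_range_succ, Nat.factorial]) (by norm_num) (by norm_num)

lemma r12x5 : (168714703 / 100000000 : ℝ) ≤ Real.exp (2 * al * (12 / 5) - 3 * be * (12 / 5)) ∧
    Real.exp (2 * al * (12 / 5) - 3 * be * (12 / 5)) ≤ 168714907 / 100000000 := by
  obtain ⟨a1, a2⟩ := al_bounds
  obtain ⟨b1, b2⟩ := be_bounds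
  constructor
  · refine le_trans ?_ (Real.exp_le_exp.2 (show 6537987 / 12500000 ≤ 2 * al * (12 / 5) - 3 * be * (12 / 5) by linarith))
    exact exp_lb (s := 10332301210711 / 10000000000000) (by norm_num) (by norm_num)
      (by norm_num [Finset.sum_range_succ, Nat.factorial]) (by norm_num)
  · refine (Real.exp_le_exp.2 (show 2 * al * (12 / 5) - 3 * be * (12 / 5) ≤ 3269001 / 6250000 by linarith)).trans ?_
    exact exp_ub (s := 2066460397127 / 2000000000000) (by norm_num) (by norm_num)
      (by norm_num [Finset.sum_range_succ, Nat.factorial]) (by norm_num)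

end Pool.Agent.U316.Ep
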