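import Pool.Agent.U316.Ep.Top
import Pool.Agent.K1H99.FCC.Sel

/-!
# The pair inequality on the reduced cone
-/

set_option autoImplicit false
set_option maxRecDepth 100000

open Matrix Pool.Agent.K1H99.FCC

namespace Pool.Agent.U316.Ep

lemma wv_of (W a b c d e f : ℕ) (h : (Nat.beq (Nat.div W 340282366920938463463374607431768211456)
    (pk a b c d e f) && (Nat.ble a 1099511627775 && (Nat.ble b 1099511627775 &&
    (Nat.ble c 1099511627775 && (Nat.ble d 1099511627775 && Nat.ble e 1099511627775))))) = true) :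
    wv W = ![(a:ℝ), b, c, d, e, f] := by
  simp only [Bool.and_eq_true] at h
  obtain ⟨h0, h1, h2, h3, h4, h5⟩ := h
  have h0 := Nat.eq_of_beq_eq_true h0
  have h1 := Nat.le_of_ble_eq_true h1
  have h2 := Nat.le_of_ble_eq_true h2
  have h3 := Nat.le_of_ble_eq_true h3
  have h4 := Nat.le_of_ble_eq_true h4
  have h5 := Nat.le_of_ble_eq_true h5
  have e : cw W = ![a, b, c, d, e, f] := by
    unfold cw
    change dg (Nat.div W 340282366920938463463374607431768211456) = _
    rw [h0]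
    exact dg_pk (lt40 (by omega)) (lt40 (by omega)) (lt40 (by omega)) (lt40 (by omega))
      (lt40 (by omega))
  funext i
  unfold wv
  rw [e]
  fin_cases i <;> rfl

lemma wv_v125 : wv v125 = ![1610612736, 0, 0, 0, 0, 1610612736] := by
  have h := wv_of v125 1610612736 0 0 0 0 1610612736 (by decide +kernel)
  push_cast at h
  exact h

lemma wv_v30 : wv v30 = ![805306368, 805306368, 0, 0, 805306368, 805306368] := by
  have h := wv_of v30 805306368 805306368 0 0 805306368 805306368 (by decide +kernel)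
  push_cast at h
  exact h

lemma wv_v7 : wv v7 = ![536870912, 536870912, 536870912, 536870912, 536870912, 536870912] := by
  have h := wv_of v7 536870912 536870912 536870912 536870912 536870912 536870912 (by decide +kernel)
  push_cast at h
  exact h

lemma wv_v3 : wv v3 = ![1073741824, 536870912, 536870912, 536870912, 536870912, 0] := by
  have h := wv_of v3 1073741824 536870912 536870912 536870912 536870912 0 (by decide +kernel)
  push_cast at h
  exact h

lemma wv_v4 : wv v4 = ![1073741824, 1073741824, 536870912, 536870912, 0, 0] := by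
  have h := wv_of v4 1073741824 1073741824 536870912 536870912 0 0 (by decide +kernel)
  push_cast at h
  exact h

lemma wv_v5 : wv v5 = ![1073741824, 1073741824, 1073741824, 0, 0, 0] := by
  have h := wv_of v5 1073741824 1073741824 1073741824 0 0 0 (by decide +kernel)
  push_cast at h
  exact h

lemma wv_v126 : wv v126 = ![536870912, 1073741824, 536870912, 536870912, 0, 536870912] := by
  have h := wv_of v126 536870912 1073741824 536870912 536870912 0 536870912 (by decide +kernel)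
  push_cast at h
  exact h

lemma wv_v178 : wv v178 = ![536870912, 536870912, 1073741824, 0, 536870912, 536870912] := by
  have h := wv_of v178 536870912 536870912 1073741824 0 536870912 536870912 (by decide +kernel)
  push_cast at h
  exact h

lemma wv_v179 : wv v179 = ![1073741824, 536870912, 1073741824, 0, 536870912, 0] := by
  have h := wv_of v179 1073741824 536870912 1073741824 0 536870912 0 (by decide +kernel)
  push_cast at h
  exact h

lemma wv_v286 : wv v286 = ![1610612736, 805306368, 0, 0, 805306368, 0] := by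
  have h := wv_of v286 1610612736 805306368 0 0 805306368 0 (by decide +kernel)
  push_cast at h
  exact h

lemma wv_v298 : wv v298 = ![1610612736, 1610612736, 0, 0, 0, 0] := by
  have h := wv_of v298 1610612736 1610612736 0 0 0 0 (by decide +kernel)
  push_cast at h
  exact h

lemma wv_v305 : wv v305 = ![805306368, 1610612736, 0, 0, 0, 805306368] := by
  have h := wv_of v305 805306368 1610612736 0 0 0 805306368 (by decide +kernel)
  push_cast at h
  exact h

lemma wv_v306 : wv v306 = ![536870912, 1073741824, 1073741824, 0, 0, 536870912] := by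
  have h := wv_of v306 536870912 1073741824 1073741824 0 0 536870912 (by decide +kernel)
  push_cast at h
  exact h

lemma wv_v336 : wv v336 = ![3221225472, 0, 0, 0, 0, 0] := by
  have h := wv_of v336 3221225472 0 0 0 0 0 (by decide +kernel)
  push_cast at h
  exact h

lemma wv_v341 : wv v341 = ![1073741824, 1073741824, 0, 1073741824, 0, 0] := by
  have h := wv_of v341 1073741824 1073741824 0 1073741824 0 0 (by decide +kernel)
  push_cast at h
  exact h

lemma wv_v397 : wv v397 = ![536870912, 536870912, 0, 1073741824, 536870912, 536870912] := by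
  have h := wv_of v397 536870912 536870912 0 1073741824 536870912 536870912 (by decide +kernel)
  push_cast at h
  exact h

lemma wv_v398 : wv v398 = ![1073741824, 536870912, 0, 1073741824, 536870912, 0] := by
  have h := wv_of v398 1073741824 536870912 0 1073741824 536870912 0 (by decide +kernel)
  push_cast at h
  exact h

lemma wv_v482 : wv v482 = ![536870912, 1073741824, 0, 1073741824, 0, 536870912] := by
  have h := wv_of v482 536870912 1073741824 0 1073741824 0 536870912 (by decide +kernel)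
  push_cast at h
  exact h

lemma root14 {s1 s2 s3 e d1 d2 : ℝ}
    (h0 : s2 ≤ s1) (h1 : s3 ≤ s2) (h2 : d1 ≤ s3) (h3 : d2 ≤ d1) (h4 : e ≤ d2) (h5 : 0 ≤ e)
    (hp : PD ![s1 + d1, s2 + d2, s3 + e, s3 - e, s2 - d2, s1 - d1]) :
    Q 10 ![s1 + d1, s2 + d2, s3 + e, s3 - e, s2 - d2, s1 - d1] := by
  have hg := t0_350
  have hl : ∀ i, 0 ≤ (![(s1 - s2) / 1610612736, (s2 - s3) / 805306368, (s3 - d1) / 536870912, (d1 - d2) / 536870912, (d2 - e) / 536870912, e / 536870912] : Fin 6 → ℝ) i := by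
    intro i
    fin_cases i <;> simp only [Fin.zero_eta, Fin.mk_one, Fin.reduceFinMk, Matrix.cons_val] <;>
      first | exact div_nonneg (sub_nonneg.2 ‹_›) (by norm_num) | exact div_nonneg ‹_› (by norm_num)
  have he : ∑ i : Fin 6, (![(s1 - s2) / 1610612736, (s2 - s3) / 805306368, (s3 - d1) / 536870912, (d1 - d2) / 536870912, (d2 - e) / 536870912, e / 536870912] : Fin 6 → ℝ) i •
      wv (gt [v125, v30, v7, v3, v4, v5] i) = ![s1 + d1, s2 + d2, s3 + e, s3 - e, s2 - d2, s1 - d1] := by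
    rw [Fin.sum_univ_six]
    have g0 : wv (gt [v125, v30, v7, v3, v4, v5] (((0 : Fin 6)) : ℕ)) = ![1610612736, 0, 0, 0, 0, 1610612736] := wv_v125
    have g1 : wv (gt [v125, v30, v7, v3, v4, v5] (((1 : Fin 6)) : ℕ)) = ![805306368, 805306368, 0, 0, 805306368, 805306368] := wv_v30
    have g2 : wv (gt [v125, v30, v7, v3, v4, v5] (((2 : Fin 6)) : ℕ)) = ![536870912, 536870912, 536870912, 536870912, 536870912, 536870912] := wv_v7
    have g3 : wv (gt [v125, v30, v7, v3, v4, v5] (((3 : Fin 6)) : ℕ)) = ![1073741824, 536870912, 536870912, 536870912, 536870912, 0] := wv_v3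
    have g4 : wv (gt [v125, v30, v7, v3, v4, v5] (((4 : Fin 6)) : ℕ)) = ![1073741824, 1073741824, 536870912, 536870912, 0, 0] := wv_v4
    have g5 : wv (gt [v125, v30, v7, v3, v4, v5] (((5 : Fin 6)) : ℕ)) = ![1073741824, 1073741824, 1073741824, 0, 0, 0] := wv_v5
    rw [g0, g1, g2, g3, g4, g5]
    funext k
    fin_cases k <;> simp <;> ring
  have h := hg _ hl
  rw [he] at h
  exact h hp

lemma root16 {s1 s2 s3 e d1 d2 : ℝ}
    (h0 : s2 ≤ s1) (h1 : s3 ≤ s2) (h2 : d2 ≤ s3) (h3 : d1 ≤ d2) (h4 : e ≤ d1) (h5 : 0 ≤ e)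
    (hp : PD ![s1 + d1, s2 + d2, s3 + e, s3 - e, s2 - d2, s1 - d1]) :
    Q 10 ![s1 + d1, s2 + d2, s3 + e, s3 - e, s2 - d2, s1 - d1] := by
  have hg := t0_689
  have hl : ∀ i, 0 ≤ (![(s1 - s2) / 1610612736, (s2 - s3) / 805306368, (s3 - d2) / 536870912, (d2 - d1) / 536870912, (d1 - e) / 536870912, e / 536870912] : Fin 6 → ℝ) i := by
    intro i
    fin_cases i <;> simp only [Fin.zero_eta, Fin.mk_one, Fin.reduceFinMk, Matrix.cons_val] <;>
      first | exact div_nonneg (sub_nonneg.2 ‹_›) (by norm_num) | exact div_nonneg ‹_› (by norm_num)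
  have he : ∑ i : Fin 6, (![(s1 - s2) / 1610612736, (s2 - s3) / 805306368, (s3 - d2) / 536870912, (d2 - d1) / 536870912, (d1 - e) / 536870912, e / 536870912] : Fin 6 → ℝ) i •
      wv (gt [v125, v30, v7, v126, v4, v5] i) = ![s1 + d1, s2 + d2, s3 + e, s3 - e, s2 - d2, s1 - d1] := by
    rw [Fin.sum_univ_six]
    have g0 : wv (gt [v125, v30, v7, v126, v4, v5] (((0 : Fin 6)) : ℕ)) = ![1610612736, 0, 0, 0, 0, 1610612736] := wv_v125
    have g1 : wv (gt [v125, v30, v7, v126, v4, v5] (((1 : Fin 6)) : ℕ)) = ![805306368, 805306368, 0, 0, 805306368, 805306368] := wv_v30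
    have g2 : wv (gt [v125, v30, v7, v126, v4, v5] (((2 : Fin 6)) : ℕ)) = ![536870912, 536870912, 536870912, 536870912, 536870912, 536870912] := wv_v7
    have g3 : wv (gt [v125, v30, v7, v126, v4, v5] (((3 : Fin 6)) : ℕ)) = ![536870912, 1073741824, 536870912, 536870912, 0, 536870912] := wv_v126
    have g4 : wv (gt [v125, v30, v7, v126, v4, v5] (((4 : Fin 6)) : ℕ)) = ![1073741824, 1073741824, 536870912, 536870912, 0, 0] := wv_v4
    have g5 : wv (gt [v125, v30, v7, v126, v4, v5] (((5 : Fin 6)) : ℕ)) = ![1073741824, 1073741824, 1073741824, 0, 0, 0] := wv_v5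
    rw [g0, g1, g2, g3, g4, g5]
    funext k
    fin_cases k <;> simp <;> ring
  have h := hg _ hl
  rw [he] at h
  exact h hp

lemma root26 {s1 s2 s3 e d1 d2 : ℝ}
    (h0 : s2 ≤ s1) (h1 : s3 ≤ s2) (h2 : e ≤ s3) (h3 : d1 ≤ e) (h4 : d2 ≤ d1) (h5 : 0 ≤ d2)
    (hp : PD ![s1 + d1, s2 + d2, s3 + e, s3 - e, s2 - d2, s1 - d1]) :
    Q 10 ![s1 + d1, s2 + d2, s3 + e, s3 - e, s2 - d2, s1 - d1] := by
  have hg := t0_1298
  have hl : ∀ i, 0 ≤ (![(s1 - s2) / 1610612736, (s2 - s3) / 805306368, (s3 - e) / 536870912, (e - d1) / 536870912, (d1 - d2) / 536870912, d2 / 536870912] : Fin 6 → ℝ) i := by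
    intro i
    fin_cases i <;> simp only [Fin.zero_eta, Fin.mk_one, Fin.reduceFinMk, Matrix.cons_val] <;>
      first | exact div_nonneg (sub_nonneg.2 ‹_›) (by norm_num) | exact div_nonneg ‹_› (by norm_num)
  have he : ∑ i : Fin 6, (![(s1 - s2) / 1610612736, (s2 - s3) / 805306368, (s3 - e) / 536870912, (e - d1) / 536870912, (d1 - d2) / 536870912, d2 / 536870912] : Fin 6 → ℝ) i •
      wv (gt [v125, v30, v7, v178, v179, v5] i) = ![s1 + d1, s2 + d2, s3 + e, s3 - e, s2 - d2, s1 - d1] := by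
    rw [Fin.sum_univ_six]
    have g0 : wv (gt [v125, v30, v7, v178, v179, v5] (((0 : Fin 6)) : ℕ)) = ![1610612736, 0, 0, 0, 0, 1610612736] := wv_v125
    have g1 : wv (gt [v125, v30, v7, v178, v179, v5] (((1 : Fin 6)) : ℕ)) = ![805306368, 805306368, 0, 0, 805306368, 805306368] := wv_v30
    have g2 : wv (gt [v125, v30, v7, v178, v179, v5] (((2 : Fin 6)) : ℕ)) = ![536870912, 536870912, 536870912, 536870912, 536870912, 536870912] := wv_v7
    have g3 : wv (gt [v125, v30, v7, v178, v179, v5] (((3 : Fin 6)) : ℕ)) = ![536870912, 536870912, 1073741824, 0, 536870912, 536870912] := wv_v178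
    have g4 : wv (gt [v125, v30, v7, v178, v179, v5] (((4 : Fin 6)) : ℕ)) = ![1073741824, 536870912, 1073741824, 0, 536870912, 0] := wv_v179
    have g5 : wv (gt [v125, v30, v7, v178, v179, v5] (((5 : Fin 6)) : ℕ)) = ![1073741824, 1073741824, 1073741824, 0, 0, 0] := wv_v5
    rw [g0, g1, g2, g3, g4, g5]
    funext k
    fin_cases k <;> simp <;> ring
  have h := hg _ hl
  rw [he] at h
  exact h hp

lemma root12 {s1 s2 s3 e d1 d2 : ℝ}
    (h0 : s2 ≤ s1) (h1 : d1 ≤ s2) (h2 : s3 ≤ d1) (h3 : d2 ≤ s3) (h4 : e ≤ d2) (h5 : 0 ≤ e)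
    (hp : PD ![s1 + d1, s2 + d2, s3 + e, s3 - e, s2 - d2, s1 - d1]) :
    Q 10 ![s1 + d1, s2 + d2, s3 + e, s3 - e, s2 - d2, s1 - d1] := by
  have hg := t0_1327
  have hl : ∀ i, 0 ≤ (![(s1 - s2) / 1610612736, (s2 - d1) / 805306368, (d1 - s3) / 805306368, (s3 - d2) / 536870912, (d2 - e) / 536870912, e / 536870912] : Fin 6 → ℝ) i := by
    intro i
    fin_cases i <;> simp only [Fin.zero_eta, Fin.mk_one, Fin.reduceFinMk, Matrix.cons_val] <;>
      first | exact div_nonneg (sub_nonneg.2 ‹_›) (by norm_num) | exact div_nonneg ‹_› (by norm_num)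
  have he : ∑ i : Fin 6, (![(s1 - s2) / 1610612736, (s2 - d1) / 805306368, (d1 - s3) / 805306368, (s3 - d2) / 536870912, (d2 - e) / 536870912, e / 536870912] : Fin 6 → ℝ) i •
      wv (gt [v125, v30, v286, v3, v4, v5] i) = ![s1 + d1, s2 + d2, s3 + e, s3 - e, s2 - d2, s1 - d1] := by
    rw [Fin.sum_univ_six]
    have g0 : wv (gt [v125, v30, v286, v3, v4, v5] (((0 : Fin 6)) : ℕ)) = ![1610612736, 0, 0, 0, 0, 1610612736] := wv_v125
    have g1 : wv (gt [v125, v30, v286, v3, v4, v5] (((1 : Fin 6)) : ℕ)) = ![805306368, 805306368, 0, 0, 805306368, 805306368] := wv_v30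
    have g2 : wv (gt [v125, v30, v286, v3, v4, v5] (((2 : Fin 6)) : ℕ)) = ![1610612736, 805306368, 0, 0, 805306368, 0] := wv_v286
    have g3 : wv (gt [v125, v30, v286, v3, v4, v5] (((3 : Fin 6)) : ℕ)) = ![1073741824, 536870912, 536870912, 536870912, 536870912, 0] := wv_v3
    have g4 : wv (gt [v125, v30, v286, v3, v4, v5] (((4 : Fin 6)) : ℕ)) = ![1073741824, 1073741824, 536870912, 536870912, 0, 0] := wv_v4
    have g5 : wv (gt [v125, v30, v286, v3, v4, v5] (((5 : Fin 6)) : ℕ)) = ![1073741824, 1073741824, 1073741824, 0, 0, 0] := wv_v5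
    rw [g0, g1, g2, g3, g4, g5]
    funext k
    fin_cases k <;> simp <;> ring
  have h := hg _ hl
  rw [he] at h
  exact h hp

lemma root2 {s1 s2 s3 e d1 d2 : ℝ}
    (h0 : s2 ≤ s1) (h1 : d1 ≤ s2) (h2 : d2 ≤ d1) (h3 : s3 ≤ d2) (h4 : e ≤ s3) (h5 : 0 ≤ e)
    (hp : PD ![s1 + d1, s2 + d2, s3 + e, s3 - e, s2 - d2, s1 - d1]) :
    Q 10 ![s1 + d1, s2 + d2, s3 + e, s3 - e, s2 - d2, s1 - d1] := by
  have hg := t0_1351
  have hl : ∀ i, 0 ≤ (![(s1 - s2) / 1610612736, (s2 - d1) / 805306368, (d1 - d2) / 805306368, (d2 - s3) / 805306368, (s3 - e) / 536870912, e / 536870912] : Fin 6 → ℝ) i := by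
    intro i
    fin_cases i <;> simp only [Fin.zero_eta, Fin.mk_one, Fin.reduceFinMk, Matrix.cons_val] <;>
      first | exact div_nonneg (sub_nonneg.2 ‹_›) (by norm_num) | exact div_nonneg ‹_› (by norm_num)
  have he : ∑ i : Fin 6, (![(s1 - s2) / 1610612736, (s2 - d1) / 805306368, (d1 - d2) / 805306368, (d2 - s3) / 805306368, (s3 - e) / 536870912, e / 536870912] : Fin 6 → ℝ) i •
      wv (gt [v125, v30, v286, v298, v4, v5] i) = ![s1 + d1, s2 + d2, s3 + e, s3 - e, s2 - d2, s1 - d1] := by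
    rw [Fin.sum_univ_six]
    have g0 : wv (gt [v125, v30, v286, v298, v4, v5] (((0 : Fin 6)) : ℕ)) = ![1610612736, 0, 0, 0, 0, 1610612736] := wv_v125
    have g1 : wv (gt [v125, v30, v286, v298, v4, v5] (((1 : Fin 6)) : ℕ)) = ![805306368, 805306368, 0, 0, 805306368, 805306368] := wv_v30
    have g2 : wv (gt [v125, v30, v286, v298, v4, v5] (((2 : Fin 6)) : ℕ)) = ![1610612736, 805306368, 0, 0, 805306368, 0] := wv_v286
    have g3 : wv (gt [v125, v30, v286, v298, v4, v5] (((3 : Fin 6)) : ℕ)) = ![1610612736, 1610612736, 0, 0, 0, 0] := wv_v298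
    have g4 : wv (gt [v125, v30, v286, v298, v4, v5] (((4 : Fin 6)) : ℕ)) = ![1073741824, 1073741824, 536870912, 536870912, 0, 0] := wv_v4
    have g5 : wv (gt [v125, v30, v286, v298, v4, v5] (((5 : Fin 6)) : ℕ)) = ![1073741824, 1073741824, 1073741824, 0, 0, 0] := wv_v5
    rw [g0, g1, g2, g3, g4, g5]
    funext k
    fin_cases k <;> simp <;> ring
  have h := hg _ hl
  rw [he] at h
  exact h hp

lemma root8 {s1 s2 s3 e d1 d2 : ℝ}
    (h0 : s2 ≤ s1) (h1 : d2 ≤ s2) (h2 : s3 ≤ d2) (h3 : e ≤ s3) (h4 : d1 ≤ e) (h5 : 0 ≤ d1)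
    (hp : PD ![s1 + d1, s2 + d2, s3 + e, s3 - e, s2 - d2, s1 - d1]) :
    Q 10 ![s1 + d1, s2 + d2, s3 + e, s3 - e, s2 - d2, s1 - d1] := by
  have hg := t0_1407
  have hl : ∀ i, 0 ≤ (![(s1 - s2) / 1610612736, (s2 - d2) / 805306368, (d2 - s3) / 805306368, (s3 - e) / 536870912, (e - d1) / 536870912, d1 / 536870912] : Fin 6 → ℝ) i := by
    intro i
    fin_cases i <;> simp only [Fin.zero_eta, Fin.mk_one, Fin.reduceFinMk, Matrix.cons_val] <;>
      first | exact div_nonneg (sub_nonneg.2 ‹_›) (by norm_num) | exact div_nonneg ‹_› (by norm_num)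
  have he : ∑ i : Fin 6, (![(s1 - s2) / 1610612736, (s2 - d2) / 805306368, (d2 - s3) / 805306368, (s3 - e) / 536870912, (e - d1) / 536870912, d1 / 536870912] : Fin 6 → ℝ) i •
      wv (gt [v125, v30, v305, v126, v306, v5] i) = ![s1 + d1, s2 + d2, s3 + e, s3 - e, s2 - d2, s1 - d1] := by
    rw [Fin.sum_univ_six]
    have g0 : wv (gt [v125, v30, v305, v126, v306, v5] (((0 : Fin 6)) : ℕ)) = ![1610612736, 0, 0, 0, 0, 1610612736] := wv_v125
    have g1 : wv (gt [v125, v30, v305, v126, v306, v5] (((1 : Fin 6)) : ℕ)) = ![805306368, 805306368, 0, 0, 805306368, 805306368] := wv_v30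
    have g2 : wv (gt [v125, v30, v305, v126, v306, v5] (((2 : Fin 6)) : ℕ)) = ![805306368, 1610612736, 0, 0, 0, 805306368] := wv_v305
    have g3 : wv (gt [v125, v30, v305, v126, v306, v5] (((3 : Fin 6)) : ℕ)) = ![536870912, 1073741824, 536870912, 536870912, 0, 536870912] := wv_v126
    have g4 : wv (gt [v125, v30, v305, v126, v306, v5] (((4 : Fin 6)) : ℕ)) = ![536870912, 1073741824, 1073741824, 0, 0, 536870912] := wv_v306
    have g5 : wv (gt [v125, v30, v305, v126, v306, v5] (((5 : Fin 6)) : ℕ)) = ![1073741824, 1073741824, 1073741824, 0, 0, 0] := wv_v5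
    rw [g0, g1, g2, g3, g4, g5]
    funext k
    fin_cases k <;> simp <;> ring
  have h := hg _ hl
  rw [he] at h
  exact h hp

lemma root10 {s1 s2 s3 e d1 d2 : ℝ}
    (h0 : d1 ≤ s1) (h1 : s2 ≤ d1) (h2 : s3 ≤ s2) (h3 : d2 ≤ s3) (h4 : e ≤ d2) (h5 : 0 ≤ e)
    (hp : PD ![s1 + d1, s2 + d2, s3 + e, s3 - e, s2 - d2, s1 - d1]) :
    Q 10 ![s1 + d1, s2 + d2, s3 + e, s3 - e, s2 - d2, s1 - d1] := by
  have hg := t0_1421
  have hl : ∀ i, 0 ≤ (![(s1 - d1) / 1610612736, (d1 - s2) / 1610612736, (s2 - s3) / 805306368, (s3 - d2) / 536870912, (d2 - e) / 536870912, e / 536870912] : Fin 6 → ℝ) i := by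
    intro i
    fin_cases i <;> simp only [Fin.zero_eta, Fin.mk_one, Fin.reduceFinMk, Matrix.cons_val] <;>
      first | exact div_nonneg (sub_nonneg.2 ‹_›) (by norm_num) | exact div_nonneg ‹_› (by norm_num)
  have he : ∑ i : Fin 6, (![(s1 - d1) / 1610612736, (d1 - s2) / 1610612736, (s2 - s3) / 805306368, (s3 - d2) / 536870912, (d2 - e) / 536870912, e / 536870912] : Fin 6 → ℝ) i •
      wv (gt [v125, v336, v286, v3, v4, v5] i) = ![s1 + d1, s2 + d2, s3 + e, s3 - e, s2 - d2, s1 - d1] := by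
    rw [Fin.sum_univ_six]
    have g0 : wv (gt [v125, v336, v286, v3, v4, v5] (((0 : Fin 6)) : ℕ)) = ![1610612736, 0, 0, 0, 0, 1610612736] := wv_v125
    have g1 : wv (gt [v125, v336, v286, v3, v4, v5] (((1 : Fin 6)) : ℕ)) = ![3221225472, 0, 0, 0, 0, 0] := wv_v336
    have g2 : wv (gt [v125, v336, v286, v3, v4, v5] (((2 : Fin 6)) : ℕ)) = ![1610612736, 805306368, 0, 0, 805306368, 0] := wv_v286
    have g3 : wv (gt [v125, v336, v286, v3, v4, v5] (((3 : Fin 6)) : ℕ)) = ![1073741824, 536870912, 536870912, 536870912, 536870912, 0] := wv_v3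
    have g4 : wv (gt [v125, v336, v286, v3, v4, v5] (((4 : Fin 6)) : ℕ)) = ![1073741824, 1073741824, 536870912, 536870912, 0, 0] := wv_v4
    have g5 : wv (gt [v125, v336, v286, v3, v4, v5] (((5 : Fin 6)) : ℕ)) = ![1073741824, 1073741824, 1073741824, 0, 0, 0] := wv_v5
    rw [g0, g1, g2, g3, g4, g5]
    funext k
    fin_cases k <;> simp <;> ring
  have h := hg _ hl
  rw [he] at h
  exact h hp

lemma root0 {s1 s2 s3 e d1 d2 : ℝ}
    (h0 : d1 ≤ s1) (h1 : s2 ≤ d1) (h2 : d2 ≤ s2) (h3 : s3 ≤ d2) (h4 : e ≤ s3) (h5 : 0 ≤ e)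
    (hp : PD ![s1 + d1, s2 + d2, s3 + e, s3 - e, s2 - d2, s1 - d1]) :
    Q 10 ![s1 + d1, s2 + d2, s3 + e, s3 - e, s2 - d2, s1 - d1] := by
  have hg := t0_1437
  have hl : ∀ i, 0 ≤ (![(s1 - d1) / 1610612736, (d1 - s2) / 1610612736, (s2 - d2) / 805306368, (d2 - s3) / 805306368, (s3 - e) / 536870912, e / 536870912] : Fin 6 → ℝ) i := by
    intro i
    fin_cases i <;> simp only [Fin.zero_eta, Fin.mk_one, Fin.reduceFinMk, Matrix.cons_val] <;>
      first | exact div_nonneg (sub_nonneg.2 ‹_›) (by norm_num) | exact div_nonneg ‹_› (by norm_num)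
  have he : ∑ i : Fin 6, (![(s1 - d1) / 1610612736, (d1 - s2) / 1610612736, (s2 - d2) / 805306368, (d2 - s3) / 805306368, (s3 - e) / 536870912, e / 536870912] : Fin 6 → ℝ) i •
      wv (gt [v125, v336, v286, v298, v4, v5] i) = ![s1 + d1, s2 + d2, s3 + e, s3 - e, s2 - d2, s1 - d1] := by
    rw [Fin.sum_univ_six]
    have g0 : wv (gt [v125, v336, v286, v298, v4, v5] (((0 : Fin 6)) : ℕ)) = ![1610612736, 0, 0, 0, 0, 1610612736] := wv_v125
    have g1 : wv (gt [v125, v336, v286, v298, v4, v5] (((1 : Fin 6)) : ℕ)) = ![3221225472, 0, 0, 0, 0, 0] := wv_v336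
    have g2 : wv (gt [v125, v336, v286, v298, v4, v5] (((2 : Fin 6)) : ℕ)) = ![1610612736, 805306368, 0, 0, 805306368, 0] := wv_v286
    have g3 : wv (gt [v125, v336, v286, v298, v4, v5] (((3 : Fin 6)) : ℕ)) = ![1610612736, 1610612736, 0, 0, 0, 0] := wv_v298
    have g4 : wv (gt [v125, v336, v286, v298, v4, v5] (((4 : Fin 6)) : ℕ)) = ![1073741824, 1073741824, 536870912, 536870912, 0, 0] := wv_v4
    have g5 : wv (gt [v125, v336, v286, v298, v4, v5] (((5 : Fin 6)) : ℕ)) = ![1073741824, 1073741824, 1073741824, 0, 0, 0] := wv_v5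
    rw [g0, g1, g2, g3, g4, g5]
    funext k
    fin_cases k <;> simp <;> ring
  have h := hg _ hl
  rw [he] at h
  exact h hp

lemma root15 {s1 s2 s3 e d1 d2 : ℝ}
    (h0 : s2 ≤ s1) (h1 : s3 ≤ s2) (h2 : d1 ≤ s3) (h3 : d2 ≤ d1) (h4 : e ≤ d2) (h5 : 0 ≤ e)
    (hp : PD ![s1 + d1, s2 + d2, s3 - e, s3 + e, s2 - d2, s1 - d1]) :
    Q 10 ![s1 + d1, s2 + d2, s3 - e, s3 + e, s2 - d2, s1 - d1] := by
  have hg := t1_283
  have hl : ∀ i, 0 ≤ (![(s1 - s2) / 1610612736, (s2 - s3) / 805306368, (s3 - d1) / 536870912, (d1 - d2) / 536870912, (d2 - e) / 536870912, e / 536870912] : Fin 6 → ℝ) i := by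
    intro i
    fin_cases i <;> simp only [Fin.zero_eta, Fin.mk_one, Fin.reduceFinMk, Matrix.cons_val] <;>
      first | exact div_nonneg (sub_nonneg.2 ‹_›) (by norm_num) | exact div_nonneg ‹_› (by norm_num)
  have he : ∑ i : Fin 6, (![(s1 - s2) / 1610612736, (s2 - s3) / 805306368, (s3 - d1) / 536870912, (d1 - d2) / 536870912, (d2 - e) / 536870912, e / 536870912] : Fin 6 → ℝ) i •
      wv (gt [v125, v30, v7, v3, v4, v341] i) = ![s1 + d1, s2 + d2, s3 - e, s3 + e, s2 - d2, s1 - d1] := by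
    rw [Fin.sum_univ_six]
    have g0 : wv (gt [v125, v30, v7, v3, v4, v341] (((0 : Fin 6)) : ℕ)) = ![1610612736, 0, 0, 0, 0, 1610612736] := wv_v125
    have g1 : wv (gt [v125, v30, v7, v3, v4, v341] (((1 : Fin 6)) : ℕ)) = ![805306368, 805306368, 0, 0, 805306368, 805306368] := wv_v30
    have g2 : wv (gt [v125, v30, v7, v3, v4, v341] (((2 : Fin 6)) : ℕ)) = ![536870912, 536870912, 536870912, 536870912, 536870912, 536870912] := wv_v7
    have g3 : wv (gt [v125, v30, v7, v3, v4, v341] (((3 : Fin 6)) : ℕ)) = ![1073741824, 536870912, 536870912, 536870912, 536870912, 0] := wv_v3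
    have g4 : wv (gt [v125, v30, v7, v3, v4, v341] (((4 : Fin 6)) : ℕ)) = ![1073741824, 1073741824, 536870912, 536870912, 0, 0] := wv_v4
    have g5 : wv (gt [v125, v30, v7, v3, v4, v341] (((5 : Fin 6)) : ℕ)) = ![1073741824, 1073741824, 0, 1073741824, 0, 0] := wv_v341
    rw [g0, g1, g2, g3, g4, g5]
    funext k
    fin_cases k <;> simp <;> ring
  have h := hg _ hl
  rw [he] at h
  exact h hp

lemma root17 {s1 s2 s3 e d1 d2 : ℝ}
    (h0 : s2 ≤ s1) (h1 : s3 ≤ s2) (h2 : d2 ≤ s3) (h3 : d1 ≤ d2) (h4 : e ≤ d1) (h5 : 0 ≤ e)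
    (hp : PD ![s1 + d1, s2 + d2, s3 - e, s3 + e, s2 - d2, s1 - d1]) :
    Q 10 ![s1 + d1, s2 + d2, s3 - e, s3 + e, s2 - d2, s1 - d1] := by
  have hg := t1_556
  have hl : ∀ i, 0 ≤ (![(s1 - s2) / 1610612736, (s2 - s3) / 805306368, (s3 - d2) / 536870912, (d2 - d1) / 536870912, (d1 - e) / 536870912, e / 536870912] : Fin 6 → ℝ) i := by
    intro i
    fin_cases i <;> simp only [Fin.zero_eta, Fin.mk_one, Fin.reduceFinMk, Matrix.cons_val] <;>
      first | exact div_nonneg (sub_nonneg.2 ‹_›) (by norm_num) | exact div_nonneg ‹_› (by norm_num)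
  have he : ∑ i : Fin 6, (![(s1 - s2) / 1610612736, (s2 - s3) / 805306368, (s3 - d2) / 536870912, (d2 - d1) / 536870912, (d1 - e) / 536870912, e / 536870912] : Fin 6 → ℝ) i •
      wv (gt [v125, v30, v7, v126, v4, v341] i) = ![s1 + d1, s2 + d2, s3 - e, s3 + e, s2 - d2, s1 - d1] := by
    rw [Fin.sum_univ_six]
    have g0 : wv (gt [v125, v30, v7, v126, v4, v341] (((0 : Fin 6)) : ℕ)) = ![1610612736, 0, 0, 0, 0, 1610612736] := wv_v125
    have g1 : wv (gt [v125, v30, v7, v126, v4, v341] (((1 : Fin 6)) : ℕ)) = ![805306368, 805306368, 0, 0, 805306368, 805306368] := wv_v30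
    have g2 : wv (gt [v125, v30, v7, v126, v4, v341] (((2 : Fin 6)) : ℕ)) = ![536870912, 536870912, 536870912, 536870912, 536870912, 536870912] := wv_v7
    have g3 : wv (gt [v125, v30, v7, v126, v4, v341] (((3 : Fin 6)) : ℕ)) = ![536870912, 1073741824, 536870912, 536870912, 0, 536870912] := wv_v126
    have g4 : wv (gt [v125, v30, v7, v126, v4, v341] (((4 : Fin 6)) : ℕ)) = ![1073741824, 1073741824, 536870912, 536870912, 0, 0] := wv_v4
    have g5 : wv (gt [v125, v30, v7, v126, v4, v341] (((5 : Fin 6)) : ℕ)) = ![1073741824, 1073741824, 0, 1073741824, 0, 0] := wv_v341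
    rw [g0, g1, g2, g3, g4, g5]
    funext k
    fin_cases k <;> simp <;> ring
  have h := hg _ hl
  rw [he] at h
  exact h hp

lemma root27 {s1 s2 s3 e d1 d2 : ℝ}
    (h0 : s2 ≤ s1) (h1 : s3 ≤ s2) (h2 : e ≤ s3) (h3 : d1 ≤ e) (h4 : d2 ≤ d1) (h5 : 0 ≤ d2)
    (hp : PD ![s1 + d1, s2 + d2, s3 - e, s3 + e, s2 - d2, s1 - d1]) :
    Q 10 ![s1 + d1, s2 + d2, s3 - e, s3 + e, s2 - d2, s1 - d1] := by
  have hg := t1_971
  have hl : ∀ i, 0 ≤ (![(s1 - s2) / 1610612736, (s2 - s3) / 805306368, (s3 - e) / 536870912, (e - d1) / 536870912, (d1 - d2) / 536870912, d2 / 536870912] : Fin 6 → ℝ) i := by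
    intro i
    fin_cases i <;> simp only [Fin.zero_eta, Fin.mk_one, Fin.reduceFinMk, Matrix.cons_val] <;>
      first | exact div_nonneg (sub_nonneg.2 ‹_›) (by norm_num) | exact div_nonneg ‹_› (by norm_num)
  have he : ∑ i : Fin 6, (![(s1 - s2) / 1610612736, (s2 - s3) / 805306368, (s3 - e) / 536870912, (e - d1) / 536870912, (d1 - d2) / 536870912, d2 / 536870912] : Fin 6 → ℝ) i •
      wv (gt [v125, v30, v7, v397, v398, v341] i) = ![s1 + d1, s2 + d2, s3 - e, s3 + e, s2 - d2, s1 - d1] := by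
    rw [Fin.sum_univ_six]
    have g0 : wv (gt [v125, v30, v7, v397, v398, v341] (((0 : Fin 6)) : ℕ)) = ![1610612736, 0, 0, 0, 0, 1610612736] := wv_v125
    have g1 : wv (gt [v125, v30, v7, v397, v398, v341] (((1 : Fin 6)) : ℕ)) = ![805306368, 805306368, 0, 0, 805306368, 805306368] := wv_v30
    have g2 : wv (gt [v125, v30, v7, v397, v398, v341] (((2 : Fin 6)) : ℕ)) = ![536870912, 536870912, 536870912, 536870912, 536870912, 536870912] := wv_v7
    have g3 : wv (gt [v125, v30, v7, v397, v398, v341] (((3 : Fin 6)) : ℕ)) = ![536870912, 536870912, 0, 1073741824, 536870912, 536870912] := wv_v397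
    have g4 : wv (gt [v125, v30, v7, v397, v398, v341] (((4 : Fin 6)) : ℕ)) = ![1073741824, 536870912, 0, 1073741824, 536870912, 0] := wv_v398
    have g5 : wv (gt [v125, v30, v7, v397, v398, v341] (((5 : Fin 6)) : ℕ)) = ![1073741824, 1073741824, 0, 1073741824, 0, 0] := wv_v341
    rw [g0, g1, g2, g3, g4, g5]
    funext k
    fin_cases k <;> simp <;> ring
  have h := hg _ hl
  rw [he] at h
  exact h hp

lemma root13 {s1 s2 s3 e d1 d2 : ℝ}
    (h0 : s2 ≤ s1) (h1 : d1 ≤ s2) (h2 : s3 ≤ d1) (h3 : d2 ≤ s3) (h4 : e ≤ d2) (h5 : 0 ≤ e)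
    (hp : PD ![s1 + d1, s2 + d2, s3 - e, s3 + e, s2 - d2, s1 - d1]) :
    Q 10 ![s1 + d1, s2 + d2, s3 - e, s3 + e, s2 - d2, s1 - d1] := by
  have hg := t1_999
  have hl : ∀ i, 0 ≤ (![(s1 - s2) / 1610612736, (s2 - d1) / 805306368, (d1 - s3) / 805306368, (s3 - d2) / 536870912, (d2 - e) / 536870912, e / 536870912] : Fin 6 → ℝ) i := by
    intro i
    fin_cases i <;> simp only [Fin.zero_eta, Fin.mk_one, Fin.reduceFinMk, Matrix.cons_val] <;>
      first | exact div_nonneg (sub_nonneg.2 ‹_›) (by norm_num) | exact div_nonneg ‹_› (by norm_num)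
  have he : ∑ i : Fin 6, (![(s1 - s2) / 1610612736, (s2 - d1) / 805306368, (d1 - s3) / 805306368, (s3 - d2) / 536870912, (d2 - e) / 536870912, e / 536870912] : Fin 6 → ℝ) i •
      wv (gt [v125, v30, v286, v3, v4, v341] i) = ![s1 + d1, s2 + d2, s3 - e, s3 + e, s2 - d2, s1 - d1] := by
    rw [Fin.sum_univ_six]
    have g0 : wv (gt [v125, v30, v286, v3, v4, v341] (((0 : Fin 6)) : ℕ)) = ![1610612736, 0, 0, 0, 0, 1610612736] := wv_v125
    have g1 : wv (gt [v125, v30, v286, v3, v4, v341] (((1 : Fin 6)) : ℕ)) = ![805306368, 805306368, 0, 0, 805306368, 805306368] := wv_v30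
    have g2 : wv (gt [v125, v30, v286, v3, v4, v341] (((2 : Fin 6)) : ℕ)) = ![1610612736, 805306368, 0, 0, 805306368, 0] := wv_v286
    have g3 : wv (gt [v125, v30, v286, v3, v4, v341] (((3 : Fin 6)) : ℕ)) = ![1073741824, 536870912, 536870912, 536870912, 536870912, 0] := wv_v3
    have g4 : wv (gt [v125, v30, v286, v3, v4, v341] (((4 : Fin 6)) : ℕ)) = ![1073741824, 1073741824, 536870912, 536870912, 0, 0] := wv_v4
    have g5 : wv (gt [v125, v30, v286, v3, v4, v341] (((5 : Fin 6)) : ℕ)) = ![1073741824, 1073741824, 0, 1073741824, 0, 0] := wv_v341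
    rw [g0, g1, g2, g3, g4, g5]
    funext k
    fin_cases k <;> simp <;> ring
  have h := hg _ hl
  rw [he] at h
  exact h hp

lemma root3 {s1 s2 s3 e d1 d2 : ℝ}
    (h0 : s2 ≤ s1) (h1 : d1 ≤ s2) (h2 : d2 ≤ d1) (h3 : s3 ≤ d2) (h4 : e ≤ s3) (h5 : 0 ≤ e)
    (hp : PD ![s1 + d1, s2 + d2, s3 - e, s3 + e, s2 - d2, s1 - d1]) :
    Q 10 ![s1 + d1, s2 + d2, s3 - e, s3 + e, s2 - d2, s1 - d1] := by
  have hg := t1_1021
  have hl : ∀ i, 0 ≤ (![(s1 - s2) / 1610612736, (s2 - d1) / 805306368, (d1 - d2) / 805306368, (d2 - s3) / 805306368, (s3 - e) / 536870912, e / 536870912] : Fin 6 → ℝ) i := by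
    intro i
    fin_cases i <;> simp only [Fin.zero_eta, Fin.mk_one, Fin.reduceFinMk, Matrix.cons_val] <;>
      first | exact div_nonneg (sub_nonneg.2 ‹_›) (by norm_num) | exact div_nonneg ‹_› (by norm_num)
  have he : ∑ i : Fin 6, (![(s1 - s2) / 1610612736, (s2 - d1) / 805306368, (d1 - d2) / 805306368, (d2 - s3) / 805306368, (s3 - e) / 536870912, e / 536870912] : Fin 6 → ℝ) i •
      wv (gt [v125, v30, v286, v298, v4, v341] i) = ![s1 + d1, s2 + d2, s3 - e, s3 + e, s2 - d2, s1 - d1] := by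
    rw [Fin.sum_univ_six]
    have g0 : wv (gt [v125, v30, v286, v298, v4, v341] (((0 : Fin 6)) : ℕ)) = ![1610612736, 0, 0, 0, 0, 1610612736] := wv_v125
    have g1 : wv (gt [v125, v30, v286, v298, v4, v341] (((1 : Fin 6)) : ℕ)) = ![805306368, 805306368, 0, 0, 805306368, 805306368] := wv_v30
    have g2 : wv (gt [v125, v30, v286, v298, v4, v341] (((2 : Fin 6)) : ℕ)) = ![1610612736, 805306368, 0, 0, 805306368, 0] := wv_v286
    have g3 : wv (gt [v125, v30, v286, v298, v4, v341] (((3 : Fin 6)) : ℕ)) = ![1610612736, 1610612736, 0, 0, 0, 0] := wv_v298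
    have g4 : wv (gt [v125, v30, v286, v298, v4, v341] (((4 : Fin 6)) : ℕ)) = ![1073741824, 1073741824, 536870912, 536870912, 0, 0] := wv_v4
    have g5 : wv (gt [v125, v30, v286, v298, v4, v341] (((5 : Fin 6)) : ℕ)) = ![1073741824, 1073741824, 0, 1073741824, 0, 0] := wv_v341
    rw [g0, g1, g2, g3, g4, g5]
    funext k
    fin_cases k <;> simp <;> ring
  have h := hg _ hl
  rw [he] at h
  exact h hp

lemma root9 {s1 s2 s3 e d1 d2 : ℝ}
    (h0 : s2 ≤ s1) (h1 : d2 ≤ s2) (h2 : s3 ≤ d2) (h3 : e ≤ s3) (h4 : d1 ≤ e) (h5 : 0 ≤ d1)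
    (hp : PD ![s1 + d1, s2 + d2, s3 - e, s3 + e, s2 - d2, s1 - d1]) :
    Q 10 ![s1 + d1, s2 + d2, s3 - e, s3 + e, s2 - d2, s1 - d1] := by
  have hg := t1_1054
  have hl : ∀ i, 0 ≤ (![(s1 - s2) / 1610612736, (s2 - d2) / 805306368, (d2 - s3) / 805306368, (s3 - e) / 536870912, (e - d1) / 536870912, d1 / 536870912] : Fin 6 → ℝ) i := by
    intro i
    fin_cases i <;> simp only [Fin.zero_eta, Fin.mk_one, Fin.reduceFinMk, Matrix.cons_val] <;>
      first | exact div_nonneg (sub_nonneg.2 ‹_›) (by norm_num) | exact div_nonneg ‹_› (by norm_num)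
  have he : ∑ i : Fin 6, (![(s1 - s2) / 1610612736, (s2 - d2) / 805306368, (d2 - s3) / 805306368, (s3 - e) / 536870912, (e - d1) / 536870912, d1 / 536870912] : Fin 6 → ℝ) i •
      wv (gt [v125, v30, v305, v126, v482, v341] i) = ![s1 + d1, s2 + d2, s3 - e, s3 + e, s2 - d2, s1 - d1] := by
    rw [Fin.sum_univ_six]
    have g0 : wv (gt [v125, v30, v305, v126, v482, v341] (((0 : Fin 6)) : ℕ)) = ![1610612736, 0, 0, 0, 0, 1610612736] := wv_v125
    have g1 : wv (gt [v125, v30, v305, v126, v482, v341] (((1 : Fin 6)) : ℕ)) = ![805306368, 805306368, 0, 0, 805306368, 805306368] := wv_v30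
    have g2 : wv (gt [v125, v30, v305, v126, v482, v341] (((2 : Fin 6)) : ℕ)) = ![805306368, 1610612736, 0, 0, 0, 805306368] := wv_v305
    have g3 : wv (gt [v125, v30, v305, v126, v482, v341] (((3 : Fin 6)) : ℕ)) = ![536870912, 1073741824, 536870912, 536870912, 0, 536870912] := wv_v126
    have g4 : wv (gt [v125, v30, v305, v126, v482, v341] (((4 : Fin 6)) : ℕ)) = ![536870912, 1073741824, 0, 1073741824, 0, 536870912] := wv_v482
    have g5 : wv (gt [v125, v30, v305, v126, v482, v341] (((5 : Fin 6)) : ℕ)) = ![1073741824, 1073741824, 0, 1073741824, 0, 0] := wv_v341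
    rw [g0, g1, g2, g3, g4, g5]
    funext k
    fin_cases k <;> simp <;> ring
  have h := hg _ hl
  rw [he] at h
  exact h hp

lemma root11 {s1 s2 s3 e d1 d2 : ℝ}
    (h0 : d1 ≤ s1) (h1 : s2 ≤ d1) (h2 : s3 ≤ s2) (h3 : d2 ≤ s3) (h4 : e ≤ d2) (h5 : 0 ≤ e)
    (hp : PD ![s1 + d1, s2 + d2, s3 - e, s3 + e, s2 - d2, s1 - d1]) :
    Q 10 ![s1 + d1, s2 + d2, s3 - e, s3 + e, s2 - d2, s1 - d1] := by
  have hg := t1_1066
  have hl : ∀ i, 0 ≤ (![(s1 - d1) / 1610612736, (d1 - s2) / 1610612736, (s2 - s3) / 805306368, (s3 - d2) / 536870912, (d2 - e) / 536870912, e / 536870912] : Fin 6 → ℝ) i := by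
    intro i
    fin_cases i <;> simp only [Fin.zero_eta, Fin.mk_one, Fin.reduceFinMk, Matrix.cons_val] <;>
      first | exact div_nonneg (sub_nonneg.2 ‹_›) (by norm_num) | exact div_nonneg ‹_› (by norm_num)
  have he : ∑ i : Fin 6, (![(s1 - d1) / 1610612736, (d1 - s2) / 1610612736, (s2 - s3) / 805306368, (s3 - d2) / 536870912, (d2 - e) / 536870912, e / 536870912] : Fin 6 → ℝ) i •
      wv (gt [v125, v336, v286, v3, v4, v341] i) = ![s1 + d1, s2 + d2, s3 - e, s3 + e, s2 - d2, s1 - d1] := by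
    rw [Fin.sum_univ_six]
    have g0 : wv (gt [v125, v336, v286, v3, v4, v341] (((0 : Fin 6)) : ℕ)) = ![1610612736, 0, 0, 0, 0, 1610612736] := wv_v125
    have g1 : wv (gt [v125, v336, v286, v3, v4, v341] (((1 : Fin 6)) : ℕ)) = ![3221225472, 0, 0, 0, 0, 0] := wv_v336
    have g2 : wv (gt [v125, v336, v286, v3, v4, v341] (((2 : Fin 6)) : ℕ)) = ![1610612736, 805306368, 0, 0, 805306368, 0] := wv_v286
    have g3 : wv (gt [v125, v336, v286, v3, v4, v341] (((3 : Fin 6)) : ℕ)) = ![1073741824, 536870912, 536870912, 536870912, 536870912, 0] := wv_v3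
    have g4 : wv (gt [v125, v336, v286, v3, v4, v341] (((4 : Fin 6)) : ℕ)) = ![1073741824, 1073741824, 536870912, 536870912, 0, 0] := wv_v4
    have g5 : wv (gt [v125, v336, v286, v3, v4, v341] (((5 : Fin 6)) : ℕ)) = ![1073741824, 1073741824, 0, 1073741824, 0, 0] := wv_v341
    rw [g0, g1, g2, g3, g4, g5]
    funext k
    fin_cases k <;> simp <;> ring
  have h := hg _ hl
  rw [he] at h
  exact h hp

lemma root1 {s1 s2 s3 e d1 d2 : ℝ}
    (h0 : d1 ≤ s1) (h1 : s2 ≤ d1) (h2 : d2 ≤ s2) (h3 : s3 ≤ d2) (h4 : e ≤ s3) (h5 : 0 ≤ e)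
    (hp : PD ![s1 + d1, s2 + d2, s3 - e, s3 + e, s2 - d2, s1 - d1]) :
    Q 10 ![s1 + d1, s2 + d2, s3 - e, s3 + e, s2 - d2, s1 - d1] := by
  have hg := t1_1088
  have hl : ∀ i, 0 ≤ (![(s1 - d1) / 1610612736, (d1 - s2) / 1610612736, (s2 - d2) / 805306368, (d2 - s3) / 805306368, (s3 - e) / 536870912, e / 536870912] : Fin 6 → ℝ) i := by
    intro i
    fin_cases i <;> simp only [Fin.zero_eta, Fin.mk_one, Fin.reduceFinMk, Matrix.cons_val] <;>
      first | exact div_nonneg (sub_nonneg.2 ‹_›) (by norm_num) | exact div_nonneg ‹_› (by norm_num)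
  have he : ∑ i : Fin 6, (![(s1 - d1) / 1610612736, (d1 - s2) / 1610612736, (s2 - d2) / 805306368, (d2 - s3) / 805306368, (s3 - e) / 536870912, e / 536870912] : Fin 6 → ℝ) i •
      wv (gt [v125, v336, v286, v298, v4, v341] i) = ![s1 + d1, s2 + d2, s3 - e, s3 + e, s2 - d2, s1 - d1] := by
    rw [Fin.sum_univ_six]
    have g0 : wv (gt [v125, v336, v286, v298, v4, v341] (((0 : Fin 6)) : ℕ)) = ![1610612736, 0, 0, 0, 0, 1610612736] := wv_v125
    have g1 : wv (gt [v125, v336, v286, v298, v4, v341] (((1 : Fin 6)) : ℕ)) = ![3221225472, 0, 0, 0, 0, 0] := wv_v336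
    have g2 : wv (gt [v125, v336, v286, v298, v4, v341] (((2 : Fin 6)) : ℕ)) = ![1610612736, 805306368, 0, 0, 805306368, 0] := wv_v286
    have g3 : wv (gt [v125, v336, v286, v298, v4, v341] (((3 : Fin 6)) : ℕ)) = ![1610612736, 1610612736, 0, 0, 0, 0] := wv_v298
    have g4 : wv (gt [v125, v336, v286, v298, v4, v341] (((4 : Fin 6)) : ℕ)) = ![1073741824, 1073741824, 536870912, 536870912, 0, 0] := wv_v4
    have g5 : wv (gt [v125, v336, v286, v298, v4, v341] (((5 : Fin 6)) : ℕ)) = ![1073741824, 1073741824, 0, 1073741824, 0, 0] := wv_v341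
    rw [g0, g1, g2, g3, g4, g5]
    funext k
    fin_cases k <;> simp <;> ring
  have h := hg _ hl
  rw [he] at h
  exact h hp

lemma root24 {s1 s2 s3 e d1 d2 : ℝ}
    (h0 : s2 ≤ s1) (h1 : s3 ≤ s2) (h2 : d1 ≤ s3) (h3 : e ≤ d1) (h4 : d2 ≤ e) (h5 : 0 ≤ d2)
    (hp : PD ![s1 + d1, s2 + d2, s3 + e, s3 - e, s2 - d2, s1 - d1]) :
    Q 10 ![s1 + d1, s2 + d2, s3 + e, s3 - e, s2 - d2, s1 - d1] := by
  have hg := t2_385
  have hl : ∀ i, 0 ≤ (![(s1 - s2) / 1610612736, (s2 - s3) / 805306368, (s3 - d1) / 536870912, (d1 - e) / 536870912, (e - d2) / 536870912, d2 / 536870912] : Fin 6 → ℝ) i := by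
    intro i
    fin_cases i <;> simp only [Fin.zero_eta, Fin.mk_one, Fin.reduceFinMk, Matrix.cons_val] <;>
      first | exact div_nonneg (sub_nonneg.2 ‹_›) (by norm_num) | exact div_nonneg ‹_› (by norm_num)
  have he : ∑ i : Fin 6, (![(s1 - s2) / 1610612736, (s2 - s3) / 805306368, (s3 - d1) / 536870912, (d1 - e) / 536870912, (e - d2) / 536870912, d2 / 536870912] : Fin 6 → ℝ) i •
      wv (gt [v125, v30, v7, v3, v179, v5] i) = ![s1 + d1, s2 + d2, s3 + e, s3 - e, s2 - d2, s1 - d1] := by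
    rw [Fin.sum_univ_six]
    have g0 : wv (gt [v125, v30, v7, v3, v179, v5] (((0 : Fin 6)) : ℕ)) = ![1610612736, 0, 0, 0, 0, 1610612736] := wv_v125
    have g1 : wv (gt [v125, v30, v7, v3, v179, v5] (((1 : Fin 6)) : ℕ)) = ![805306368, 805306368, 0, 0, 805306368, 805306368] := wv_v30
    have g2 : wv (gt [v125, v30, v7, v3, v179, v5] (((2 : Fin 6)) : ℕ)) = ![536870912, 536870912, 536870912, 536870912, 536870912, 536870912] := wv_v7
    have g3 : wv (gt [v125, v30, v7, v3, v179, v5] (((3 : Fin 6)) : ℕ)) = ![1073741824, 536870912, 536870912, 536870912, 536870912, 0] := wv_v3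
    have g4 : wv (gt [v125, v30, v7, v3, v179, v5] (((4 : Fin 6)) : ℕ)) = ![1073741824, 536870912, 1073741824, 0, 536870912, 0] := wv_v179
    have g5 : wv (gt [v125, v30, v7, v3, v179, v5] (((5 : Fin 6)) : ℕ)) = ![1073741824, 1073741824, 1073741824, 0, 0, 0] := wv_v5
    rw [g0, g1, g2, g3, g4, g5]
    funext k
    fin_cases k <;> simp <;> ring
  have h := hg _ hl
  rw [he] at h
  exact h hp

lemma root18 {s1 s2 s3 e d1 d2 : ℝ}
    (h0 : s2 ≤ s1) (h1 : s3 ≤ s2) (h2 : d2 ≤ s3) (h3 : e ≤ d2) (h4 : d1 ≤ e) (h5 : 0 ≤ d1)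
    (hp : PD ![s1 + d1, s2 + d2, s3 + e, s3 - e, s2 - d2, s1 - d1]) :
    Q 10 ![s1 + d1, s2 + d2, s3 + e, s3 - e, s2 - d2, s1 - d1] := by
  have hg := t2_784
  have hl : ∀ i, 0 ≤ (![(s1 - s2) / 1610612736, (s2 - s3) / 805306368, (s3 - d2) / 536870912, (d2 - e) / 536870912, (e - d1) / 536870912, d1 / 536870912] : Fin 6 → ℝ) i := by
    intro i
    fin_cases i <;> simp only [Fin.zero_eta, Fin.mk_one, Fin.reduceFinMk, Matrix.cons_val] <;>
      first | exact div_nonneg (sub_nonneg.2 ‹_›) (by norm_num) | exact div_nonneg ‹_› (by norm_num)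
  have he : ∑ i : Fin 6, (![(s1 - s2) / 1610612736, (s2 - s3) / 805306368, (s3 - d2) / 536870912, (d2 - e) / 536870912, (e - d1) / 536870912, d1 / 536870912] : Fin 6 → ℝ) i •
      wv (gt [v125, v30, v7, v126, v306, v5] i) = ![s1 + d1, s2 + d2, s3 + e, s3 - e, s2 - d2, s1 - d1] := by
    rw [Fin.sum_univ_six]
    have g0 : wv (gt [v125, v30, v7, v126, v306, v5] (((0 : Fin 6)) : ℕ)) = ![1610612736, 0, 0, 0, 0, 1610612736] := wv_v125
    have g1 : wv (gt [v125, v30, v7, v126, v306, v5] (((1 : Fin 6)) : ℕ)) = ![805306368, 805306368, 0, 0, 805306368, 805306368] := wv_v30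
    have g2 : wv (gt [v125, v30, v7, v126, v306, v5] (((2 : Fin 6)) : ℕ)) = ![536870912, 536870912, 536870912, 536870912, 536870912, 536870912] := wv_v7
    have g3 : wv (gt [v125, v30, v7, v126, v306, v5] (((3 : Fin 6)) : ℕ)) = ![536870912, 1073741824, 536870912, 536870912, 0, 536870912] := wv_v126
    have g4 : wv (gt [v125, v30, v7, v126, v306, v5] (((4 : Fin 6)) : ℕ)) = ![536870912, 1073741824, 1073741824, 0, 0, 536870912] := wv_v306
    have g5 : wv (gt [v125, v30, v7, v126, v306, v5] (((5 : Fin 6)) : ℕ)) = ![1073741824, 1073741824, 1073741824, 0, 0, 0] := wv_v5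
    rw [g0, g1, g2, g3, g4, g5]
    funext k
    fin_cases k <;> simp <;> ring
  have h := hg _ hl
  rw [he] at h
  exact h hp

lemma root28 {s1 s2 s3 e d1 d2 : ℝ}
    (h0 : s2 ≤ s1) (h1 : s3 ≤ s2) (h2 : e ≤ s3) (h3 : d2 ≤ e) (h4 : d1 ≤ d2) (h5 : 0 ≤ d1)
    (hp : PD ![s1 + d1, s2 + d2, s3 + e, s3 - e, s2 - d2, s1 - d1]) :
    Q 10 ![s1 + d1, s2 + d2, s3 + e, s3 - e, s2 - d2, s1 - d1] := by
  have hg := t2_1404
  have hl : ∀ i, 0 ≤ (![(s1 - s2) / 1610612736, (s2 - s3) / 805306368, (s3 - e) / 536870912, (e - d2) / 536870912, (d2 - d1) / 536870912, d1 / 536870912] : Fin 6 → ℝ) i := by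
    intro i
    fin_cases i <;> simp only [Fin.zero_eta, Fin.mk_one, Fin.reduceFinMk, Matrix.cons_val] <;>
      first | exact div_nonneg (sub_nonneg.2 ‹_›) (by norm_num) | exact div_nonneg ‹_› (by norm_num)
  have he : ∑ i : Fin 6, (![(s1 - s2) / 1610612736, (s2 - s3) / 805306368, (s3 - e) / 536870912, (e - d2) / 536870912, (d2 - d1) / 536870912, d1 / 536870912] : Fin 6 → ℝ) i •
      wv (gt [v125, v30, v7, v178, v306, v5] i) = ![s1 + d1, s2 + d2, s3 + e, s3 - e, s2 - d2, s1 - d1] := by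
    rw [Fin.sum_univ_six]
    have g0 : wv (gt [v125, v30, v7, v178, v306, v5] (((0 : Fin 6)) : ℕ)) = ![1610612736, 0, 0, 0, 0, 1610612736] := wv_v125
    have g1 : wv (gt [v125, v30, v7, v178, v306, v5] (((1 : Fin 6)) : ℕ)) = ![805306368, 805306368, 0, 0, 805306368, 805306368] := wv_v30
    have g2 : wv (gt [v125, v30, v7, v178, v306, v5] (((2 : Fin 6)) : ℕ)) = ![536870912, 536870912, 536870912, 536870912, 536870912, 536870912] := wv_v7
    have g3 : wv (gt [v125, v30, v7, v178, v306, v5] (((3 : Fin 6)) : ℕ)) = ![536870912, 536870912, 1073741824, 0, 536870912, 536870912] := wv_v178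
    have g4 : wv (gt [v125, v30, v7, v178, v306, v5] (((4 : Fin 6)) : ℕ)) = ![536870912, 1073741824, 1073741824, 0, 0, 536870912] := wv_v306
    have g5 : wv (gt [v125, v30, v7, v178, v306, v5] (((5 : Fin 6)) : ℕ)) = ![1073741824, 1073741824, 1073741824, 0, 0, 0] := wv_v5
    rw [g0, g1, g2, g3, g4, g5]
    funext k
    fin_cases k <;> simp <;> ring
  have h := hg _ hl
  rw [he] at h
  exact h hp

lemma root22 {s1 s2 s3 e d1 d2 : ℝ}
    (h0 : s2 ≤ s1) (h1 : d1 ≤ s2) (h2 : s3 ≤ d1) (h3 : e ≤ s3) (h4 : d2 ≤ e) (h5 : 0 ≤ d2)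
    (hp : PD ![s1 + d1, s2 + d2, s3 + e, s3 - e, s2 - d2, s1 - d1]) :
    Q 10 ![s1 + d1, s2 + d2, s3 + e, s3 - e, s2 - d2, s1 - d1] := by
  have hg := t2_1441
  have hl : ∀ i, 0 ≤ (![(s1 - s2) / 1610612736, (s2 - d1) / 805306368, (d1 - s3) / 805306368, (s3 - e) / 536870912, (e - d2) / 536870912, d2 / 536870912] : Fin 6 → ℝ) i := by
    intro i
    fin_cases i <;> simp only [Fin.zero_eta, Fin.mk_one, Fin.reduceFinMk, Matrix.cons_val] <;>
      first | exact div_nonneg (sub_nonneg.2 ‹_›) (by norm_num) | exact div_nonneg ‹_› (by norm_num)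
  have he : ∑ i : Fin 6, (![(s1 - s2) / 1610612736, (s2 - d1) / 805306368, (d1 - s3) / 805306368, (s3 - e) / 536870912, (e - d2) / 536870912, d2 / 536870912] : Fin 6 → ℝ) i •
      wv (gt [v125, v30, v286, v3, v179, v5] i) = ![s1 + d1, s2 + d2, s3 + e, s3 - e, s2 - d2, s1 - d1] := by
    rw [Fin.sum_univ_six]
    have g0 : wv (gt [v125, v30, v286, v3, v179, v5] (((0 : Fin 6)) : ℕ)) = ![1610612736, 0, 0, 0, 0, 1610612736] := wv_v125
    have g1 : wv (gt [v125, v30, v286, v3, v179, v5] (((1 : Fin 6)) : ℕ)) = ![805306368, 805306368, 0, 0, 805306368, 805306368] := wv_v30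
    have g2 : wv (gt [v125, v30, v286, v3, v179, v5] (((2 : Fin 6)) : ℕ)) = ![1610612736, 805306368, 0, 0, 805306368, 0] := wv_v286
    have g3 : wv (gt [v125, v30, v286, v3, v179, v5] (((3 : Fin 6)) : ℕ)) = ![1073741824, 536870912, 536870912, 536870912, 536870912, 0] := wv_v3
    have g4 : wv (gt [v125, v30, v286, v3, v179, v5] (((4 : Fin 6)) : ℕ)) = ![1073741824, 536870912, 1073741824, 0, 536870912, 0] := wv_v179
    have g5 : wv (gt [v125, v30, v286, v3, v179, v5] (((5 : Fin 6)) : ℕ)) = ![1073741824, 1073741824, 1073741824, 0, 0, 0] := wv_v5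
    rw [g0, g1, g2, g3, g4, g5]
    funext k
    fin_cases k <;> simp <;> ring
  have h := hg _ hl
  rw [he] at h
  exact h hp

lemma root6 {s1 s2 s3 e d1 d2 : ℝ}
    (h0 : s2 ≤ s1) (h1 : d2 ≤ s2) (h2 : s3 ≤ d2) (h3 : d1 ≤ s3) (h4 : e ≤ d1) (h5 : 0 ≤ e)
    (hp : PD ![s1 + d1, s2 + d2, s3 + e, s3 - e, s2 - d2, s1 - d1]) :
    Q 10 ![s1 + d1, s2 + d2, s3 + e, s3 - e, s2 - d2, s1 - d1] := by
  have hg := t2_1498
  have hl : ∀ i, 0 ≤ (![(s1 - s2) / 1610612736, (s2 - d2) / 805306368, (d2 - s3) / 805306368, (s3 - d1) / 536870912, (d1 - e) / 536870912, e / 536870912] : Fin 6 → ℝ) i := by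
    intro i
    fin_cases i <;> simp only [Fin.zero_eta, Fin.mk_one, Fin.reduceFinMk, Matrix.cons_val] <;>
      first | exact div_nonneg (sub_nonneg.2 ‹_›) (by norm_num) | exact div_nonneg ‹_› (by norm_num)
  have he : ∑ i : Fin 6, (![(s1 - s2) / 1610612736, (s2 - d2) / 805306368, (d2 - s3) / 805306368, (s3 - d1) / 536870912, (d1 - e) / 536870912, e / 536870912] : Fin 6 → ℝ) i •
      wv (gt [v125, v30, v305, v126, v4, v5] i) = ![s1 + d1, s2 + d2, s3 + e, s3 - e, s2 - d2, s1 - d1] := by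
    rw [Fin.sum_univ_six]
    have g0 : wv (gt [v125, v30, v305, v126, v4, v5] (((0 : Fin 6)) : ℕ)) = ![1610612736, 0, 0, 0, 0, 1610612736] := wv_v125
    have g1 : wv (gt [v125, v30, v305, v126, v4, v5] (((1 : Fin 6)) : ℕ)) = ![805306368, 805306368, 0, 0, 805306368, 805306368] := wv_v30
    have g2 : wv (gt [v125, v30, v305, v126, v4, v5] (((2 : Fin 6)) : ℕ)) = ![805306368, 1610612736, 0, 0, 0, 805306368] := wv_v305
    have g3 : wv (gt [v125, v30, v305, v126, v4, v5] (((3 : Fin 6)) : ℕ)) = ![536870912, 1073741824, 536870912, 536870912, 0, 536870912] := wv_v126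
    have g4 : wv (gt [v125, v30, v305, v126, v4, v5] (((4 : Fin 6)) : ℕ)) = ![1073741824, 1073741824, 536870912, 536870912, 0, 0] := wv_v4
    have g5 : wv (gt [v125, v30, v305, v126, v4, v5] (((5 : Fin 6)) : ℕ)) = ![1073741824, 1073741824, 1073741824, 0, 0, 0] := wv_v5
    rw [g0, g1, g2, g3, g4, g5]
    funext k
    fin_cases k <;> simp <;> ring
  have h := hg _ hl
  rw [he] at h
  exact h hp

lemma root4 {s1 s2 s3 e d1 d2 : ℝ}
    (h0 : s2 ≤ s1) (h1 : d2 ≤ s2) (h2 : d1 ≤ d2) (h3 : s3 ≤ d1) (h4 : e ≤ s3) (h5 : 0 ≤ e)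
    (hp : PD ![s1 + d1, s2 + d2, s3 + e, s3 - e, s2 - d2, s1 - d1]) :
    Q 10 ![s1 + d1, s2 + d2, s3 + e, s3 - e, s2 - d2, s1 - d1] := by
  have hg := t2_1530
  have hl : ∀ i, 0 ≤ (![(s1 - s2) / 1610612736, (s2 - d2) / 805306368, (d2 - d1) / 805306368, (d1 - s3) / 805306368, (s3 - e) / 536870912, e / 536870912] : Fin 6 → ℝ) i := by
    intro i
    fin_cases i <;> simp only [Fin.zero_eta, Fin.mk_one, Fin.reduceFinMk, Matrix.cons_val] <;>
      first | exact div_nonneg (sub_nonneg.2 ‹_›) (by norm_num) | exact div_nonneg ‹_› (by norm_num)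
  have he : ∑ i : Fin 6, (![(s1 - s2) / 1610612736, (s2 - d2) / 805306368, (d2 - d1) / 805306368, (d1 - s3) / 805306368, (s3 - e) / 536870912, e / 536870912] : Fin 6 → ℝ) i •
      wv (gt [v125, v30, v305, v298, v4, v5] i) = ![s1 + d1, s2 + d2, s3 + e, s3 - e, s2 - d2, s1 - d1] := by
    rw [Fin.sum_univ_six]
    have g0 : wv (gt [v125, v30, v305, v298, v4, v5] (((0 : Fin 6)) : ℕ)) = ![1610612736, 0, 0, 0, 0, 1610612736] := wv_v125
    have g1 : wv (gt [v125, v30, v305, v298, v4, v5] (((1 : Fin 6)) : ℕ)) = ![805306368, 805306368, 0, 0, 805306368, 805306368] := wv_v30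
    have g2 : wv (gt [v125, v30, v305, v298, v4, v5] (((2 : Fin 6)) : ℕ)) = ![805306368, 1610612736, 0, 0, 0, 805306368] := wv_v305
    have g3 : wv (gt [v125, v30, v305, v298, v4, v5] (((3 : Fin 6)) : ℕ)) = ![1610612736, 1610612736, 0, 0, 0, 0] := wv_v298
    have g4 : wv (gt [v125, v30, v305, v298, v4, v5] (((4 : Fin 6)) : ℕ)) = ![1073741824, 1073741824, 536870912, 536870912, 0, 0] := wv_v4
    have g5 : wv (gt [v125, v30, v305, v298, v4, v5] (((5 : Fin 6)) : ℕ)) = ![1073741824, 1073741824, 1073741824, 0, 0, 0] := wv_v5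
    rw [g0, g1, g2, g3, g4, g5]
    funext k
    fin_cases k <;> simp <;> ring
  have h := hg _ hl
  rw [he] at h
  exact h hp

lemma root20 {s1 s2 s3 e d1 d2 : ℝ}
    (h0 : d1 ≤ s1) (h1 : s2 ≤ d1) (h2 : s3 ≤ s2) (h3 : e ≤ s3) (h4 : d2 ≤ e) (h5 : 0 ≤ d2)
    (hp : PD ![s1 + d1, s2 + d2, s3 + e, s3 - e, s2 - d2, s1 - d1]) :
    Q 10 ![s1 + d1, s2 + d2, s3 + e, s3 - e, s2 - d2, s1 - d1] := by
  have hg := t2_1544
  have hl : ∀ i, 0 ≤ (![(s1 - d1) / 1610612736, (d1 - s2) / 1610612736, (s2 - s3) / 805306368, (s3 - e) / 536870912, (e - d2) / 536870912, d2 / 536870912] : Fin 6 → ℝ) i := by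
    intro i
    fin_cases i <;> simp only [Fin.zero_eta, Fin.mk_one, Fin.reduceFinMk, Matrix.cons_val] <;>
      first | exact div_nonneg (sub_nonneg.2 ‹_›) (by norm_num) | exact div_nonneg ‹_› (by norm_num)
  have he : ∑ i : Fin 6, (![(s1 - d1) / 1610612736, (d1 - s2) / 1610612736, (s2 - s3) / 805306368, (s3 - e) / 536870912, (e - d2) / 536870912, d2 / 536870912] : Fin 6 → ℝ) i •
      wv (gt [v125, v336, v286, v3, v179, v5] i) = ![s1 + d1, s2 + d2, s3 + e, s3 - e, s2 - d2, s1 - d1] := by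
    rw [Fin.sum_univ_six]
    have g0 : wv (gt [v125, v336, v286, v3, v179, v5] (((0 : Fin 6)) : ℕ)) = ![1610612736, 0, 0, 0, 0, 1610612736] := wv_v125
    have g1 : wv (gt [v125, v336, v286, v3, v179, v5] (((1 : Fin 6)) : ℕ)) = ![3221225472, 0, 0, 0, 0, 0] := wv_v336
    have g2 : wv (gt [v125, v336, v286, v3, v179, v5] (((2 : Fin 6)) : ℕ)) = ![1610612736, 805306368, 0, 0, 805306368, 0] := wv_v286
    have g3 : wv (gt [v125, v336, v286, v3, v179, v5] (((3 : Fin 6)) : ℕ)) = ![1073741824, 536870912, 536870912, 536870912, 536870912, 0] := wv_v3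
    have g4 : wv (gt [v125, v336, v286, v3, v179, v5] (((4 : Fin 6)) : ℕ)) = ![1073741824, 536870912, 1073741824, 0, 536870912, 0] := wv_v179
    have g5 : wv (gt [v125, v336, v286, v3, v179, v5] (((5 : Fin 6)) : ℕ)) = ![1073741824, 1073741824, 1073741824, 0, 0, 0] := wv_v5
    rw [g0, g1, g2, g3, g4, g5]
    funext k
    fin_cases k <;> simp <;> ring
  have h := hg _ hl
  rw [he] at h
  exact h hp

lemma root25 {s1 s2 s3 e d1 d2 : ℝ}
    (h0 : s2 ≤ s1) (h1 : s3 ≤ s2) (h2 : d1 ≤ s3) (h3 : e ≤ d1) (h4 : d2 ≤ e) (h5 : 0 ≤ d2)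
    (hp : PD ![s1 + d1, s2 + d2, s3 - e, s3 + e, s2 - d2, s1 - d1]) :
    Q 10 ![s1 + d1, s2 + d2, s3 - e, s3 + e, s2 - d2, s1 - d1] := by
  have hg := t3_317
  have hl : ∀ i, 0 ≤ (![(s1 - s2) / 1610612736, (s2 - s3) / 805306368, (s3 - d1) / 536870912, (d1 - e) / 536870912, (e - d2) / 536870912, d2 / 536870912] : Fin 6 → ℝ) i := by
    intro i
    fin_cases i <;> simp only [Fin.zero_eta, Fin.mk_one, Fin.reduceFinMk, Matrix.cons_val] <;>
      first | exact div_nonneg (sub_nonneg.2 ‹_›) (by norm_num) | exact div_nonneg ‹_› (by norm_num)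
  have he : ∑ i : Fin 6, (![(s1 - s2) / 1610612736, (s2 - s3) / 805306368, (s3 - d1) / 536870912, (d1 - e) / 536870912, (e - d2) / 536870912, d2 / 536870912] : Fin 6 → ℝ) i •
      wv (gt [v125, v30, v7, v3, v398, v341] i) = ![s1 + d1, s2 + d2, s3 - e, s3 + e, s2 - d2, s1 - d1] := by
    rw [Fin.sum_univ_six]
    have g0 : wv (gt [v125, v30, v7, v3, v398, v341] (((0 : Fin 6)) : ℕ)) = ![1610612736, 0, 0, 0, 0, 1610612736] := wv_v125
    have g1 : wv (gt [v125, v30, v7, v3, v398, v341] (((1 : Fin 6)) : ℕ)) = ![805306368, 805306368, 0, 0, 805306368, 805306368] := wv_v30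
    have g2 : wv (gt [v125, v30, v7, v3, v398, v341] (((2 : Fin 6)) : ℕ)) = ![536870912, 536870912, 536870912, 536870912, 536870912, 536870912] := wv_v7
    have g3 : wv (gt [v125, v30, v7, v3, v398, v341] (((3 : Fin 6)) : ℕ)) = ![1073741824, 536870912, 536870912, 536870912, 536870912, 0] := wv_v3
    have g4 : wv (gt [v125, v30, v7, v3, v398, v341] (((4 : Fin 6)) : ℕ)) = ![1073741824, 536870912, 0, 1073741824, 536870912, 0] := wv_v398
    have g5 : wv (gt [v125, v30, v7, v3, v398, v341] (((5 : Fin 6)) : ℕ)) = ![1073741824, 1073741824, 0, 1073741824, 0, 0] := wv_v341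
    rw [g0, g1, g2, g3, g4, g5]
    funext k
    fin_cases k <;> simp <;> ring
  have h := hg _ hl
  rw [he] at h
  exact h hp

lemma root19 {s1 s2 s3 e d1 d2 : ℝ}
    (h0 : s2 ≤ s1) (h1 : s3 ≤ s2) (h2 : d2 ≤ s3) (h3 : e ≤ d2) (h4 : d1 ≤ e) (h5 : 0 ≤ d1)
    (hp : PD ![s1 + d1, s2 + d2, s3 - e, s3 + e, s2 - d2, s1 - d1]) :
    Q 10 ![s1 + d1, s2 + d2, s3 - e, s3 + e, s2 - d2, s1 - d1] := by
  have hg := t3_614
  have hl : ∀ i, 0 ≤ (![(s1 - s2) / 1610612736, (s2 - s3) / 805306368, (s3 - d2) / 536870912, (d2 - e) / 536870912, (e - d1) / 536870912, d1 / 536870912] : Fin 6 → ℝ) i := by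
    intro i
    fin_cases i <;> simp only [Fin.zero_eta, Fin.mk_one, Fin.reduceFinMk, Matrix.cons_val] <;>
      first | exact div_nonneg (sub_nonneg.2 ‹_›) (by norm_num) | exact div_nonneg ‹_› (by norm_num)
  have he : ∑ i : Fin 6, (![(s1 - s2) / 1610612736, (s2 - s3) / 805306368, (s3 - d2) / 536870912, (d2 - e) / 536870912, (e - d1) / 536870912, d1 / 536870912] : Fin 6 → ℝ) i •
      wv (gt [v125, v30, v7, v126, v482, v341] i) = ![s1 + d1, s2 + d2, s3 - e, s3 + e, s2 - d2, s1 - d1] := by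
    rw [Fin.sum_univ_six]
    have g0 : wv (gt [v125, v30, v7, v126, v482, v341] (((0 : Fin 6)) : ℕ)) = ![1610612736, 0, 0, 0, 0, 1610612736] := wv_v125
    have g1 : wv (gt [v125, v30, v7, v126, v482, v341] (((1 : Fin 6)) : ℕ)) = ![805306368, 805306368, 0, 0, 805306368, 805306368] := wv_v30
    have g2 : wv (gt [v125, v30, v7, v126, v482, v341] (((2 : Fin 6)) : ℕ)) = ![536870912, 536870912, 536870912, 536870912, 536870912, 536870912] := wv_v7
    have g3 : wv (gt [v125, v30, v7, v126, v482, v341] (((3 : Fin 6)) : ℕ)) = ![536870912, 1073741824, 536870912, 536870912, 0, 536870912] := wv_v126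
    have g4 : wv (gt [v125, v30, v7, v126, v482, v341] (((4 : Fin 6)) : ℕ)) = ![536870912, 1073741824, 0, 1073741824, 0, 536870912] := wv_v482
    have g5 : wv (gt [v125, v30, v7, v126, v482, v341] (((5 : Fin 6)) : ℕ)) = ![1073741824, 1073741824, 0, 1073741824, 0, 0] := wv_v341
    rw [g0, g1, g2, g3, g4, g5]
    funext k
    fin_cases k <;> simp <;> ring
  have h := hg _ hl
  rw [he] at h
  exact h hp

lemma root29 {s1 s2 s3 e d1 d2 : ℝ}
    (h0 : s2 ≤ s1) (h1 : s3 ≤ s2) (h2 : e ≤ s3) (h3 : d2 ≤ e) (h4 : d1 ≤ d2) (h5 : 0 ≤ d1)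
    (hp : PD ![s1 + d1, s2 + d2, s3 - e, s3 + e, s2 - d2, s1 - d1]) :
    Q 10 ![s1 + d1, s2 + d2, s3 - e, s3 + e, s2 - d2, s1 - d1] := by
  have hg := t3_1035
  have hl : ∀ i, 0 ≤ (![(s1 - s2) / 1610612736, (s2 - s3) / 805306368, (s3 - e) / 536870912, (e - d2) / 536870912, (d2 - d1) / 536870912, d1 / 536870912] : Fin 6 → ℝ) i := by
    intro i
    fin_cases i <;> simp only [Fin.zero_eta, Fin.mk_one, Fin.reduceFinMk, Matrix.cons_val] <;>
      first | exact div_nonneg (sub_nonneg.2 ‹_›) (by norm_num) | exact div_nonneg ‹_› (by norm_num)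
  have he : ∑ i : Fin 6, (![(s1 - s2) / 1610612736, (s2 - s3) / 805306368, (s3 - e) / 536870912, (e - d2) / 536870912, (d2 - d1) / 536870912, d1 / 536870912] : Fin 6 → ℝ) i •
      wv (gt [v125, v30, v7, v397, v482, v341] i) = ![s1 + d1, s2 + d2, s3 - e, s3 + e, s2 - d2, s1 - d1] := by
    rw [Fin.sum_univ_six]
    have g0 : wv (gt [v125, v30, v7, v397, v482, v341] (((0 : Fin 6)) : ℕ)) = ![1610612736, 0, 0, 0, 0, 1610612736] := wv_v125
    have g1 : wv (gt [v125, v30, v7, v397, v482, v341] (((1 : Fin 6)) : ℕ)) = ![805306368, 805306368, 0, 0, 805306368, 805306368] := wv_v30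
    have g2 : wv (gt [v125, v30, v7, v397, v482, v341] (((2 : Fin 6)) : ℕ)) = ![536870912, 536870912, 536870912, 536870912, 536870912, 536870912] := wv_v7
    have g3 : wv (gt [v125, v30, v7, v397, v482, v341] (((3 : Fin 6)) : ℕ)) = ![536870912, 536870912, 0, 1073741824, 536870912, 536870912] := wv_v397
    have g4 : wv (gt [v125, v30, v7, v397, v482, v341] (((4 : Fin 6)) : ℕ)) = ![536870912, 1073741824, 0, 1073741824, 0, 536870912] := wv_v482
    have g5 : wv (gt [v125, v30, v7, v397, v482, v341] (((5 : Fin 6)) : ℕ)) = ![1073741824, 1073741824, 0, 1073741824, 0, 0] := wv_v341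
    rw [g0, g1, g2, g3, g4, g5]
    funext k
    fin_cases k <;> simp <;> ring
  have h := hg _ hl
  rw [he] at h
  exact h hp

lemma root23 {s1 s2 s3 e d1 d2 : ℝ}
    (h0 : s2 ≤ s1) (h1 : d1 ≤ s2) (h2 : s3 ≤ d1) (h3 : e ≤ s3) (h4 : d2 ≤ e) (h5 : 0 ≤ d2)
    (hp : PD ![s1 + d1, s2 + d2, s3 - e, s3 + e, s2 - d2, s1 - d1]) :
    Q 10 ![s1 + d1, s2 + d2, s3 - e, s3 + e, s2 - d2, s1 - d1] := by
  have hg := t3_1065
  have hl : ∀ i, 0 ≤ (![(s1 - s2) / 1610612736, (s2 - d1) / 805306368, (d1 - s3) / 805306368, (s3 - e) / 536870912, (e - d2) / 536870912, d2 / 536870912] : Fin 6 → ℝ) i := by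
    intro i
    fin_cases i <;> simp only [Fin.zero_eta, Fin.mk_one, Fin.reduceFinMk, Matrix.cons_val] <;>
      first | exact div_nonneg (sub_nonneg.2 ‹_›) (by norm_num) | exact div_nonneg ‹_› (by norm_num)
  have he : ∑ i : Fin 6, (![(s1 - s2) / 1610612736, (s2 - d1) / 805306368, (d1 - s3) / 805306368, (s3 - e) / 536870912, (e - d2) / 536870912, d2 / 536870912] : Fin 6 → ℝ) i •
      wv (gt [v125, v30, v286, v3, v398, v341] i) = ![s1 + d1, s2 + d2, s3 - e, s3 + e, s2 - d2, s1 - d1] := by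
    rw [Fin.sum_univ_six]
    have g0 : wv (gt [v125, v30, v286, v3, v398, v341] (((0 : Fin 6)) : ℕ)) = ![1610612736, 0, 0, 0, 0, 1610612736] := wv_v125
    have g1 : wv (gt [v125, v30, v286, v3, v398, v341] (((1 : Fin 6)) : ℕ)) = ![805306368, 805306368, 0, 0, 805306368, 805306368] := wv_v30
    have g2 : wv (gt [v125, v30, v286, v3, v398, v341] (((2 : Fin 6)) : ℕ)) = ![1610612736, 805306368, 0, 0, 805306368, 0] := wv_v286
    have g3 : wv (gt [v125, v30, v286, v3, v398, v341] (((3 : Fin 6)) : ℕ)) = ![1073741824, 536870912, 536870912, 536870912, 536870912, 0] := wv_v3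
    have g4 : wv (gt [v125, v30, v286, v3, v398, v341] (((4 : Fin 6)) : ℕ)) = ![1073741824, 536870912, 0, 1073741824, 536870912, 0] := wv_v398
    have g5 : wv (gt [v125, v30, v286, v3, v398, v341] (((5 : Fin 6)) : ℕ)) = ![1073741824, 1073741824, 0, 1073741824, 0, 0] := wv_v341
    rw [g0, g1, g2, g3, g4, g5]
    funext k
    fin_cases k <;> simp <;> ring
  have h := hg _ hl
  rw [he] at h
  exact h hp

lemma root7 {s1 s2 s3 e d1 d2 : ℝ}
    (h0 : s2 ≤ s1) (h1 : d2 ≤ s2) (h2 : s3 ≤ d2) (h3 : d1 ≤ s3) (h4 : e ≤ d1) (h5 : 0 ≤ e)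
    (hp : PD ![s1 + d1, s2 + d2, s3 - e, s3 + e, s2 - d2, s1 - d1]) :
    Q 10 ![s1 + d1, s2 + d2, s3 - e, s3 + e, s2 - d2, s1 - d1] := by
  have hg := t3_1110
  have hl : ∀ i, 0 ≤ (![(s1 - s2) / 1610612736, (s2 - d2) / 805306368, (d2 - s3) / 805306368, (s3 - d1) / 536870912, (d1 - e) / 536870912, e / 536870912] : Fin 6 → ℝ) i := by
    intro i
    fin_cases i <;> simp only [Fin.zero_eta, Fin.mk_one, Fin.reduceFinMk, Matrix.cons_val] <;>
      first | exact div_nonneg (sub_nonneg.2 ‹_›) (by norm_num) | exact div_nonneg ‹_› (by norm_num)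
  have he : ∑ i : Fin 6, (![(s1 - s2) / 1610612736, (s2 - d2) / 805306368, (d2 - s3) / 805306368, (s3 - d1) / 536870912, (d1 - e) / 536870912, e / 536870912] : Fin 6 → ℝ) i •
      wv (gt [v125, v30, v305, v126, v4, v341] i) = ![s1 + d1, s2 + d2, s3 - e, s3 + e, s2 - d2, s1 - d1] := by
    rw [Fin.sum_univ_six]
    have g0 : wv (gt [v125, v30, v305, v126, v4, v341] (((0 : Fin 6)) : ℕ)) = ![1610612736, 0, 0, 0, 0, 1610612736] := wv_v125
    have g1 : wv (gt [v125, v30, v305, v126, v4, v341] (((1 : Fin 6)) : ℕ)) = ![805306368, 805306368, 0, 0, 805306368, 805306368] := wv_v30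
    have g2 : wv (gt [v125, v30, v305, v126, v4, v341] (((2 : Fin 6)) : ℕ)) = ![805306368, 1610612736, 0, 0, 0, 805306368] := wv_v305
    have g3 : wv (gt [v125, v30, v305, v126, v4, v341] (((3 : Fin 6)) : ℕ)) = ![536870912, 1073741824, 536870912, 536870912, 0, 536870912] := wv_v126
    have g4 : wv (gt [v125, v30, v305, v126, v4, v341] (((4 : Fin 6)) : ℕ)) = ![1073741824, 1073741824, 536870912, 536870912, 0, 0] := wv_v4
    have g5 : wv (gt [v125, v30, v305, v126, v4, v341] (((5 : Fin 6)) : ℕ)) = ![1073741824, 1073741824, 0, 1073741824, 0, 0] := wv_v341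
    rw [g0, g1, g2, g3, g4, g5]
    funext k
    fin_cases k <;> simp <;> ring
  have h := hg _ hl
  rw [he] at h
  exact h hp

lemma root5 {s1 s2 s3 e d1 d2 : ℝ}
    (h0 : s2 ≤ s1) (h1 : d2 ≤ s2) (h2 : d1 ≤ d2) (h3 : s3 ≤ d1) (h4 : e ≤ s3) (h5 : 0 ≤ e)
    (hp : PD ![s1 + d1, s2 + d2, s3 - e, s3 + e, s2 - d2, s1 - d1]) :
    Q 10 ![s1 + d1, s2 + d2, s3 - e, s3 + e, s2 - d2, s1 - d1] := by
  have hg := t3_1134
  have hl : ∀ i, 0 ≤ (![(s1 - s2) / 1610612736, (s2 - d2) / 805306368, (d2 - d1) / 805306368, (d1 - s3) / 805306368, (s3 - e) / 536870912, e / 536870912] : Fin 6 → ℝ) i := by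
    intro i
    fin_cases i <;> simp only [Fin.zero_eta, Fin.mk_one, Fin.reduceFinMk, Matrix.cons_val] <;>
      first | exact div_nonneg (sub_nonneg.2 ‹_›) (by norm_num) | exact div_nonneg ‹_› (by norm_num)
  have he : ∑ i : Fin 6, (![(s1 - s2) / 1610612736, (s2 - d2) / 805306368, (d2 - d1) / 805306368, (d1 - s3) / 805306368, (s3 - e) / 536870912, e / 536870912] : Fin 6 → ℝ) i •
      wv (gt [v125, v30, v305, v298, v4, v341] i) = ![s1 + d1, s2 + d2, s3 - e, s3 + e, s2 - d2, s1 - d1] := by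
    rw [Fin.sum_univ_six]
    have g0 : wv (gt [v125, v30, v305, v298, v4, v341] (((0 : Fin 6)) : ℕ)) = ![1610612736, 0, 0, 0, 0, 1610612736] := wv_v125
    have g1 : wv (gt [v125, v30, v305, v298, v4, v341] (((1 : Fin 6)) : ℕ)) = ![805306368, 805306368, 0, 0, 805306368, 805306368] := wv_v30
    have g2 : wv (gt [v125, v30, v305, v298, v4, v341] (((2 : Fin 6)) : ℕ)) = ![805306368, 1610612736, 0, 0, 0, 805306368] := wv_v305
    have g3 : wv (gt [v125, v30, v305, v298, v4, v341] (((3 : Fin 6)) : ℕ)) = ![1610612736, 1610612736, 0, 0, 0, 0] := wv_v298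
    have g4 : wv (gt [v125, v30, v305, v298, v4, v341] (((4 : Fin 6)) : ℕ)) = ![1073741824, 1073741824, 536870912, 536870912, 0, 0] := wv_v4
    have g5 : wv (gt [v125, v30, v305, v298, v4, v341] (((5 : Fin 6)) : ℕ)) = ![1073741824, 1073741824, 0, 1073741824, 0, 0] := wv_v341
    rw [g0, g1, g2, g3, g4, g5]
    funext k
    fin_cases k <;> simp <;> ring
  have h := hg _ hl
  rw [he] at h
  exact h hp

lemma root21 {s1 s2 s3 e d1 d2 : ℝ}
    (h0 : d1 ≤ s1) (h1 : s2 ≤ d1) (h2 : s3 ≤ s2) (h3 : e ≤ s3) (h4 : d2 ≤ e) (h5 : 0 ≤ d2)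
    (hp : PD ![s1 + d1, s2 + d2, s3 - e, s3 + e, s2 - d2, s1 - d1]) :
    Q 10 ![s1 + d1, s2 + d2, s3 - e, s3 + e, s2 - d2, s1 - d1] := by
  have hg := t3_1146
  have hl : ∀ i, 0 ≤ (![(s1 - d1) / 1610612736, (d1 - s2) / 1610612736, (s2 - s3) / 805306368, (s3 - e) / 536870912, (e - d2) / 536870912, d2 / 536870912] : Fin 6 → ℝ) i := by
    intro i
    fin_cases i <;> simp only [Fin.zero_eta, Fin.mk_one, Fin.reduceFinMk, Matrix.cons_val] <;>
      first | exact div_nonneg (sub_nonneg.2 ‹_›) (by norm_num) | exact div_nonneg ‹_› (by norm_num)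
  have he : ∑ i : Fin 6, (![(s1 - d1) / 1610612736, (d1 - s2) / 1610612736, (s2 - s3) / 805306368, (s3 - e) / 536870912, (e - d2) / 536870912, d2 / 536870912] : Fin 6 → ℝ) i •
      wv (gt [v125, v336, v286, v3, v398, v341] i) = ![s1 + d1, s2 + d2, s3 - e, s3 + e, s2 - d2, s1 - d1] := by
    rw [Fin.sum_univ_six]
    have g0 : wv (gt [v125, v336, v286, v3, v398, v341] (((0 : Fin 6)) : ℕ)) = ![1610612736, 0, 0, 0, 0, 1610612736] := wv_v125
    have g1 : wv (gt [v125, v336, v286, v3, v398, v341] (((1 : Fin 6)) : ℕ)) = ![3221225472, 0, 0, 0, 0, 0] := wv_v336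
    have g2 : wv (gt [v125, v336, v286, v3, v398, v341] (((2 : Fin 6)) : ℕ)) = ![1610612736, 805306368, 0, 0, 805306368, 0] := wv_v286
    have g3 : wv (gt [v125, v336, v286, v3, v398, v341] (((3 : Fin 6)) : ℕ)) = ![1073741824, 536870912, 536870912, 536870912, 536870912, 0] := wv_v3
    have g4 : wv (gt [v125, v336, v286, v3, v398, v341] (((4 : Fin 6)) : ℕ)) = ![1073741824, 536870912, 0, 1073741824, 536870912, 0] := wv_v398
    have g5 : wv (gt [v125, v336, v286, v3, v398, v341] (((5 : Fin 6)) : ℕ)) = ![1073741824, 1073741824, 0, 1073741824, 0, 0] := wv_v341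
    rw [g0, g1, g2, g3, g4, g5]
    funext k
    fin_cases k <;> simp <;> ring
  have h := hg _ hl
  rw [he] at h
  exact h hp

/-- the pair inequality on the reduced cone -/
theorem cone_all {s1 s2 s3 d3 d1 d2 : ℝ} (h12 : s2 ≤ s1) (h23 : s3 ≤ s2)
    (h3 : d3 ≤ s3) (h3' : -d3 ≤ s3) (p1 : 0 ≤ d1) (h1 : d1 ≤ s1) (p2 : 0 ≤ d2) (h2 : d2 ≤ s2)
    (hp : PD ![s1 + d1, s2 + d2, s3 + d3, s3 - d3, s2 - d2, s1 - d1]) :
    Q 10 ![s1 + d1, s2 + d2, s3 + d3, s3 - d3, s2 - d2, s1 - d1] := by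
  rcases le_total 0 d3 with p3 | p3
  · have pe := p3
    have h3e := h3
    rcases le_total s3 d2 with t1 | t1
    · skip
      rcases le_total s2 d1 with q1 | q1
      · skip
        exact root0 h1 q1 h2 t1 h3e pe hp
      · skip
        rcases le_total d2 d1 with q2 | q2
        · skip
          exact root2 h12 q1 q2 t1 h3e pe hp
        · skip
          rcases le_total s3 d1 with q3 | q3
          · skip
            exact root4 h12 h2 q2 q3 h3e pe hp
          · skip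
            rcases le_total d3 d1 with q4 | q4
            · skip
              exact root6 h12 h2 t1 q3 q4 pe hp
            · skip
              exact root8 h12 h2 t1 h3e q4 p1 hp
    · rcases le_total d3 d2 with t2 | t2
      · skip
        rcases le_total s2 d1 with q1 | q1
        · skip
          exact root10 h1 q1 h23 t1 t2 pe hp
        · skip
          rcases le_total s3 d1 with q2 | q2
          · skip
            exact root12 h12 q1 q2 t1 t2 pe hp
          · skip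
            rcases le_total d2 d1 with q3 | q3
            · skip
              exact root14 h12 h23 q2 q3 t2 pe hp
            · skip
              rcases le_total d3 d1 with q4 | q4
              · skip
                exact root16 h12 h23 t1 q3 q4 pe hp
              · skip
                exact root18 h12 h23 t1 t2 q4 p1 hp
      · skip
        rcases le_total s2 d1 with q1 | q1
        · skip
          exact root20 h1 q1 h23 h3e t2 p2 hp
        · skip
          rcases le_total s3 d1 with q2 | q2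
          · skip
            exact root22 h12 q1 q2 h3e t2 p2 hp
          · skip
            rcases le_total d3 d1 with q3 | q3
            · skip
              exact root24 h12 h23 q2 q3 t2 p2 hp
            · skip
              rcases le_total d2 d1 with q4 | q4
              · skip
                exact root26 h12 h23 h3e q3 q4 p2 hp
              · skip
                exact root28 h12 h23 h3e t2 q4 p1 hp
  · obtain ⟨e, he⟩ : ∃ e, e = -d3 := ⟨_, rfl⟩
    have hd : d3 = -e := by rw [he, neg_neg]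
    rw [hd] at hp ⊢
    have pe : 0 ≤ e := by rw [he]; linarith
    have h3e : e ≤ s3 := by rw [he]; exact h3'
    rw [← sub_eq_add_neg, sub_neg_eq_add] at hp ⊢
    rcases le_total s3 d2 with t1 | t1
    · skip
      rcases le_total s2 d1 with q1 | q1
      · skip
        exact root1 h1 q1 h2 t1 h3e pe hp
      · skip
        rcases le_total d2 d1 with q2 | q2
        · skip
          exact root3 h12 q1 q2 t1 h3e pe hp
        · skip
          rcases le_total s3 d1 with q3 | q3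
          · skip
            exact root5 h12 h2 q2 q3 h3e pe hp
          · skip
            rcases le_total e d1 with q4 | q4
            · skip
              exact root7 h12 h2 t1 q3 q4 pe hp
            · skip
              exact root9 h12 h2 t1 h3e q4 p1 hp
    · rcases le_total e d2 with t2 | t2
      · skip
        rcases le_total s2 d1 with q1 | q1
        · skip
          exact root11 h1 q1 h23 t1 t2 pe hp
        · skip
          rcases le_total s3 d1 with q2 | q2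
          · skip
            exact root13 h12 q1 q2 t1 t2 pe hp
          · skip
            rcases le_total d2 d1 with q3 | q3
            · skip
              exact root15 h12 h23 q2 q3 t2 pe hp
            · skip
              rcases le_total e d1 with q4 | q4
              · skip
                exact root17 h12 h23 t1 q3 q4 pe hp
              · skip
                exact root19 h12 h23 t1 t2 q4 p1 hp
      · skip
        rcases le_total s2 d1 with q1 | q1
        · skip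
          exact root21 h1 q1 h23 h3e t2 p2 hp
        · skip
          rcases le_total s3 d1 with q2 | q2
          · skip
            exact root23 h12 q1 q2 h3e t2 p2 hp
          · skip
            rcases le_total e d1 with q3 | q3
            · skip
              exact root25 h12 h23 q2 q3 t2 p2 hp
            · skip
              rcases le_total d2 d1 with q4 | q4
              · skip
                exact root27 h12 h23 h3e q3 q4 p2 hp
              · skip
                exact root29 h12 h23 h3e t2 q4 p1 hp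

end Pool.Agent.U316.Ep
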