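import Pool.Agent.U316.Ep.Gen

/-!
# The pair sum
-/

set_option autoImplicit false

open Matrix MeasureTheory Set Pool.Agent.K1H99.FCC

namespace Pool.Agent.U316.Ep

open Pool.Agent.U316.Th (Th Sg Bp PD_Bp qd PD_qd mm mm_pos th_smul th_pos RF RB rf_conv rb_conv)

/-- the pair sum -/
noncomputable def Sf (t : ℝ) (p : Fin 6 → ℝ) : ℝ :=
  (Th t p - Th t Fp) + (Th t (qd p) - Th t Bp)

/-- the levels -/
noncomputable def lv : ℕ → ℝ
  | 0 => 1
  | 1 => 27 / 25
  | 2 => 117 / 100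
  | 3 => 32 / 25
  | 4 => 71 / 50
  | 5 => 8 / 5
  | 6 => 19 / 10
  | 7 => 23 / 10
  | 8 => 14 / 5
  | _ => 7 / 2

/-- all weighted integrals of the pair sum are nonnegative -/
def FinP (p : Fin 6 → ℝ) : Prop :=
  ∀ σ : ℝ, 0 ≤ σ → 0 ≤ ∫ t in Ioi (1:ℝ), Sf t p * t ^ (-σ - 1 / 4 : ℝ)

/-- a quantitative lower bound for the pair sum up to the level `k` -/
def Rp (k : ℕ) (p : Fin 6 → ℝ) : Prop :=
  ∀ t : ℝ, 1 < t → t < lv k → 1 / 1000 * Real.exp (-(Real.pi * t * mm)) ≤ Sf t p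

/-- the statement at level `k` -/
def Q (k : ℕ) (p : Fin 6 → ℝ) : Prop := FinP p ∨ (k ≤ 9 ∧ Rp k p)

lemma q_ten {p : Fin 6 → ℝ} (h : Q 10 p) : FinP p := by
  rcases h with h | ⟨h, _⟩
  · exact h
  · exact absurd h (by norm_num)

lemma lv_ge (k : ℕ) : 1 ≤ lv k := by
  unfold lv
  split <;> norm_num

lemma q_zero (p : Fin 6 → ℝ) : Q 0 p := by
  right
  refine ⟨by norm_num, fun t h1 h2 => ?_⟩
  have h3 : lv 0 = 1 := rfl
  rw [h3] at h2
  exact absurd h1 (by linarith)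

/-- a nonnegative pair sum -/
lemma fin_of_nonneg {p : Fin 6 → ℝ} (h : ∀ t : ℝ, 1 < t → 0 ≤ Sf t p) : FinP p := by
  intro σ _
  refine setIntegral_nonneg measurableSet_Ioi fun t ht => ?_
  have ht : 1 < t := ht
  exact mul_nonneg (h t ht) (Real.rpow_nonneg (by linarith) _)

lemma qd_smul (c : ℝ) (p : Fin 6 → ℝ) : qd (c • p) = c ^ 2 • qd p := by
  unfold qd
  funext i
  fin_cases i <;> simp <;> ring

lemma sf_smul (t : ℝ) {c : ℝ} (hc : 0 < c) {p : Fin 6 → ℝ} (hp : PD p) :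
    Sf t (c • p) = Sf t p := by
  unfold Sf
  rw [th_smul t hc hp, qd_smul, th_smul t (by positivity) (PD_qd hp)]

lemma fin_smul {c : ℝ} (hc : 0 < c) {p : Fin 6 → ℝ} (hp : PD p) (h : FinP p) :
    FinP (c • p) := by
  intro σ hσ
  simp only [sf_smul _ hc hp]
  exact h σ hσ

/-- the fin step -/
lemma fin_step {k : ℕ} {T0 T1 c0 : ℕ} {V : List ℕ} {t : ℕ}
    (h0 : OK0 T0 (Real.pi * lv k)) (h1 : OK1 T1 (Real.pi * lv k) mB 4194304)
    (hc : 2 ^ 23 * RB (lv k) ≤ c0) (hV : VL V)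
    (h : tst T0 T1 c0 54525952 V t = true) (hg : Good (Q k) V) : Good (Q 10) V := by
  intro l hl hp
  rcases hg l hl hp with hg | ⟨_, hg⟩
  · exact Or.inl hg
  left
  set p := ∑ i : Fin 6, l i • wv (gt V i) with hpd
  refine fin_of_nonneg fun τ hτ => ?_
  rcases lt_or_ge τ (lv k) with hlt | hge
  · exact le_trans (by positivity) (hg τ hτ hlt)
  have hb := lt_of_lt_of_le one_pos (lv_ge k)
  have hτ0 : 0 < τ := by linarith
  have hpi := Real.pi_pos
  have hw : 0 ≤ Real.pi * (τ - lv k) := mul_nonneg hpi.le (by linarith)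
  have hE := Real.exp_pos (Real.pi * (τ - lv k) * mB)
  have m := tst_spec hV h hl hp (u := 1) (w := Real.pi * (τ - lv k)) (off := 4194304)
    zero_le_one hw (Φ := fun v => 2 ^ 24 * Real.exp (Real.pi * lv k * (mm - v) +
      Real.pi * (τ - lv k) * (mB - v))) (by
    intro i0 i1 v hd hv
    by_cases h : i1 = 1023
    · have h' := hd h
      rw [h, h', h0.2.1, h0.2.2, h1.2.1, h1.2.2]
      push_cast
      have := Real.exp_pos (Real.pi * lv k * (mm - v) + Real.pi * (τ - lv k) * (mB - v))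
      linarith
    · have a0 := h0.1 i0 v hv
      have a1 := mul_le_mul_of_nonneg_left (h1.1 i1 v h hv) hw
      have b := Real.add_one_le_exp (Real.pi * (τ - lv k) * (mB - v))
      have b' := mul_le_mul_of_nonneg_left b (Real.exp_pos (Real.pi * lv k * (mm - v))).le
      rw [Real.exp_add]
      push_cast at a1
      linarith)
  rw [← hpd] at m
  have e : ∑ n : Fin 13, 2 ^ 24 * Real.exp (Real.pi * lv k * (mm - qf p (rv (Th.X13 n)) / rad p) +
      Real.pi * (τ - lv k) * (mB - qf p (rv (Th.X13 n)) / rad p)) =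
      2 ^ 23 * (Real.exp (Real.pi * lv k * mm) * Real.exp (Real.pi * (τ - lv k) * mB) *
      (2 * ∑ n : Fin 13, Real.exp (-(Real.pi * τ * (qf p (rv (Th.X13 n)) / rad p))))) := by
    rw [Finset.mul_sum, Finset.mul_sum, Finset.mul_sum]
    refine Finset.sum_congr rfl fun i _ => ?_
    rw [← Real.exp_add]
    have : Real.exp (Real.pi * lv k * (mm - qf p (rv (Th.X13 i)) / rad p) +
        Real.pi * (τ - lv k) * (mB - qf p (rv (Th.X13 i)) / rad p)) =
        Real.exp (Real.pi * lv k * mm + Real.pi * (τ - lv k) * mB) *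
        Real.exp (-(Real.pi * τ * (qf p (rv (Th.X13 i)) / rad p))) := by
      rw [← Real.exp_add]
      congr 1
      ring
    rw [this]
    ring
  rw [e] at m
  have g := mul_le_mul_of_nonneg_left (th_ge13 hp hτ0)
    (mul_pos (Real.exp_pos (Real.pi * lv k * mm)) hE).le
  have k1 : RB (lv k) ≤ Real.exp (Real.pi * lv k * mm) * Real.exp (Real.pi * (τ - lv k) * mB) *
      Th τ p := by
    push_cast at m
    linarith
  unfold RB at k1
  rw [mul_assoc (Real.exp (Real.pi * lv k * mm))] at k1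
  have k2 := le_of_mul_le_mul_left k1 (Real.exp_pos _)
  have k3 := thB_decay hb hge
  have k4 : Th τ Bp ≤ Th τ p := by
    refine k3.trans ?_
    have := mul_le_mul_of_nonneg_left k2 (Real.exp_pos (-(Real.pi * (τ - lv k) * mB))).le
    refine this.trans (le_of_eq ?_)
    rw [← mul_assoc, ← Real.exp_add]
    simp
  have k5 := th_ge_F (PD_qd hp) hτ
  unfold Sf
  linarith

/-- the pair of tables -/
lemma pair_phi {T0 T1 : ℕ} {c s0 s1 α β wl wr : ℝ} (h0 : OKm T0 c s0)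
    (h1 : OK1 T1 c (s1 + mm) 2097152) (hα : 0 ≤ α) (hβ : 0 ≤ β) (hab : α + β = 1)
    (hwl : 0 ≤ wl) (hwr : 0 ≤ wr) (h2 : wl * s0 ≤ 1) (h3 : wr * s1 ≤ 1) (i0 i1 : ℕ) (v : ℝ)
    (hd : i1 = 1023 → i0 = 1023) (hv : 0 ≤ v) :
    (α * wl) * (lA T0 i0 - lB T0 i0 * v) + (β * wr) * (lA T1 i1 - lB T1 i1 * v - 2 ^ 21) ≤
      2 ^ 24 * Real.exp ((c + (β * wr - α * wl)) * (mm - v)) := by
  by_cases h : i1 = 1023
  · have h' := hd h
    rw [h, h', h0.2.1, h0.2.2, h1.2.1, h1.2.2]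
    push_cast
    have := Real.exp_pos ((c + (β * wr - α * wl)) * (mm - v))
    linarith
  · have hE := Real.exp_pos (c * (mm - v))
    have a0 := mul_le_mul_of_nonneg_left (h0.1 i0 v hv) (mul_nonneg hα hwl)
    have a1 := mul_le_mul_of_nonneg_left (h1.1 i1 v h hv) (mul_nonneg hβ hwr)
    have b := Real.add_one_le_exp ((β * wr - α * wl) * (mm - v))
    have b' := mul_le_mul_of_nonneg_left b hE.le
    have e : Real.exp ((c + (β * wr - α * wl)) * (mm - v)) =
        Real.exp (c * (mm - v)) * Real.exp ((β * wr - α * wl) * (mm - v)) := by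
      rw [← Real.exp_add]
      congr 1
      ring
    rw [e]
    have c0 : α * wl * s0 ≤ α := by nlinarith
    have c1 : β * wr * s1 ≤ β := by nlinarith
    have d0 := mul_le_mul_of_nonneg_left c0 hE.le
    have d1 := mul_le_mul_of_nonneg_left c1 hE.le
    push_cast at a1
    have hab' : Real.exp (c * (mm - v)) * α + Real.exp (c * (mm - v)) * β =
      Real.exp (c * (mm - v)) := by rw [← mul_add, hab, mul_one]
    linarith

/-- the interpolation -/
lemma interp {a b t : ℝ} (hab : a < b) (h1 : a ≤ t) (h2 : t ≤ b) :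
    ∃ α β : ℝ, 0 ≤ α ∧ 0 ≤ β ∧ α + β = 1 ∧ α * a + β * b = t := by
  have h : 0 < b - a := by linarith
  refine ⟨(b - t) / (b - a), (t - a) / (b - a), div_nonneg (by linarith) h.le,
    div_nonneg (by linarith) h.le, ?_, ?_⟩
  · field_simp
    ring
  · field_simp
    ring

/-- the linear slab bound -/
lemma slabB {a b τ s0 s1 : ℝ} {T0 T1 c0 c1 : ℕ} {V : List ℕ} {t : ℕ} (ha : 1 ≤ a)
    (hat : a < τ) (htb : τ < b)
    (h0 : OKm T0 (Real.pi * τ) s0) (h1 : OK1 T1 (Real.pi * τ) (s1 + mm) 2097152)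
    (hs0 : Real.pi * (τ - a) * s0 ≤ 1) (hs1 : Real.pi * (b - τ) * s1 ≤ 1)
    (hc0 : 2 ^ 23 * (RB a + 1 / 1000) ≤ Real.pi * (τ - a) * c0)
    (hc1 : 2 ^ 23 * (RB b + 1 / 1000) ≤ Real.pi * (b - τ) * (c1 - 13 * 2 ^ 21)) (hV : VL V)
    (h : tst T0 T1 c0 c1 V t = true) {l : Fin 6 → ℝ} (hl : ∀ i, 0 ≤ l i)
    (hp : PD (∑ i : Fin 6, l i • wv (gt V i))) {x : ℝ} (hx1 : 1 < x) (hxa : a ≤ x) (hxb : x ≤ b) :
    1 / 1000 * Real.exp (-(Real.pi * x * mm)) ≤ Sf x (∑ i : Fin 6, l i • wv (gt V i)) := by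
  set p := ∑ i : Fin 6, l i • wv (gt V i) with hpd
  obtain ⟨α, β, hα, hβ, hab, hx⟩ := interp (hat.trans htb) hxa hxb
  have hpi := Real.pi_pos
  have hwl : 0 ≤ Real.pi * (τ - a) := mul_nonneg hpi.le (by linarith)
  have hwr : 0 ≤ Real.pi * (b - τ) := mul_nonneg hpi.le (by linarith)
  have m := tst_spec hV h hl hp (u := α * (Real.pi * (τ - a))) (w := β * (Real.pi * (b - τ)))
    (off := 2 ^ 21) (mul_nonneg hα hwl) (mul_nonneg hβ hwr)
    (Φ := fun v => 2 ^ 24 * Real.exp ((Real.pi * τ + (β * (Real.pi * (b - τ)) -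
      α * (Real.pi * (τ - a)))) * (mm - v)))
    (fun i0 i1 v hd hv => pair_phi h0 h1 hα hβ hab hwl hwr hs0 hs1 i0 i1 v hd hv)
  rw [← hpd] at m
  have hc : Real.pi * τ + (β * (Real.pi * (b - τ)) - α * (Real.pi * (τ - a))) = Real.pi * x := by
    rw [← hx]
    have : α = 1 - β := by linarith
    rw [this]
    ring
  rw [hc] at m
  have e : ∑ n : Fin 13, 2 ^ 24 * Real.exp (Real.pi * x * (mm - qf p (rv (Th.X13 n)) / rad p)) =
      2 ^ 23 * (Real.exp (Real.pi * x * mm) *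
      (2 * ∑ n : Fin 13, Real.exp (-(Real.pi * x * (qf p (rv (Th.X13 n)) / rad p))))) := by
    rw [Finset.mul_sum, Finset.mul_sum, Finset.mul_sum]
    refine Finset.sum_congr rfl fun i _ => ?_
    have : Real.exp (Real.pi * x * (mm - qf p (rv (Th.X13 i)) / rad p)) =
        Real.exp (Real.pi * x * mm) *
        Real.exp (-(Real.pi * x * (qf p (rv (Th.X13 i)) / rad p))) := by
      rw [← Real.exp_add]
      congr 1
      ring
    rw [this]
    ring
  rw [e] at m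
  have hx0 : 0 < x := by linarith
  have g := mul_le_mul_of_nonneg_left (th_ge13 hp hx0) (Real.exp_pos (Real.pi * x * mm)).le
  have k0 := mul_le_mul_of_nonneg_left hc0 hα
  have k1 := mul_le_mul_of_nonneg_left hc1 hβ
  have k2 := rb_conv (a := a) (b := b) (t := β) (by linarith) (by linarith) hβ (by linarith)
  have hα' : 1 - β = α := by linarith
  rw [hα', hx] at k2
  have k3 : α * (1 / 1000) + β * (1 / 1000) = 1 / 1000 := by rw [← add_mul, hab, one_mul]
  have k4 : RB x + 1 / 1000 ≤ Real.exp (Real.pi * x * mm) * Th x p := by linarith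
  have k5 := th_ge_F (PD_qd hp) hx1
  unfold RB at k4
  have k6 : Th x Bp + 1 / 1000 * Real.exp (-(Real.pi * x * mm)) ≤ Th x p := by
    have h1 := mul_le_mul_of_nonneg_left k4 (Real.exp_pos (-(Real.pi * x * mm))).le
    have h2 : Real.exp (-(Real.pi * x * mm)) * Real.exp (Real.pi * x * mm) = 1 := by
      rw [← Real.exp_add]; simp
    have h3 : Real.exp (-(Real.pi * x * mm)) * (Real.exp (Real.pi * x * mm) * Th x p) = Th x p := by
      rw [← mul_assoc, h2, one_mul]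
    have h4 : Real.exp (-(Real.pi * x * mm)) * (Real.exp (Real.pi * x * mm) * Th x Bp + 1 / 1000) =
        Th x Bp + 1 / 1000 * Real.exp (-(Real.pi * x * mm)) := by
      rw [mul_add, ← mul_assoc, h2, one_mul]
      ring
    rw [h3, h4] at h1
    exact h1
  unfold Sf
  linarith

/-- the quadratic slab bound -/
lemma slabP {a b τ s0 s1 : ℝ} {T0 T1 c0 c1 : ℕ} {V : List ℕ} {t : ℕ} (ha : 1 ≤ a)
    (hat : a < τ) (htb : τ < b)
    (h0 : OKm T0 (Real.pi * τ) s0) (h1 : OK1 T1 (Real.pi * τ) (s1 + mm) 2097152)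
    (hs0 : Real.pi * (τ - a) * s0 ≤ 1) (hs1 : Real.pi * (b - τ) * s1 ≤ 1)
    (hc0 : 2 ^ 23 * (RF a + RB a + 1 / 1000) ≤ Real.pi * (τ - a) * c0)
    (hc1 : 2 ^ 23 * (RF b + RB b + 1 / 1000) ≤ Real.pi * (b - τ) * (c1 - 26 * 2 ^ 21)) (hV : VL V)
    (h : tsq T0 T1 c0 c1 V t = true) {l : Fin 6 → ℝ} (hl : ∀ i, 0 ≤ l i)
    (hp : PD (∑ i : Fin 6, l i • wv (gt V i))) {x : ℝ} (hx1 : 1 < x) (hxa : a ≤ x) (hxb : x ≤ b) :
    1 / 1000 * Real.exp (-(Real.pi * x * mm)) ≤ Sf x (∑ i : Fin 6, l i • wv (gt V i)) := by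
  set p := ∑ i : Fin 6, l i • wv (gt V i) with hpd
  obtain ⟨α, β, hα, hβ, hab, hx⟩ := interp (hat.trans htb) hxa hxb
  have hpi := Real.pi_pos
  have hwl : 0 ≤ Real.pi * (τ - a) := mul_nonneg hpi.le (by linarith)
  have hwr : 0 ≤ Real.pi * (b - τ) := mul_nonneg hpi.le (by linarith)
  have m := tsq_spec hV h hl hp (u := α * (Real.pi * (τ - a))) (w := β * (Real.pi * (b - τ)))
    (off := 2 ^ 21) (mul_nonneg hα hwl) (mul_nonneg hβ hwr)
    (Φ := fun v => 2 ^ 24 * Real.exp ((Real.pi * τ + (β * (Real.pi * (b - τ)) -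
      α * (Real.pi * (τ - a)))) * (mm - v)))
    (fun i0 i1 v hd hv => pair_phi h0 h1 hα hβ hab hwl hwr hs0 hs1 i0 i1 v hd hv)
  rw [← hpd] at m
  have hc : Real.pi * τ + (β * (Real.pi * (b - τ)) - α * (Real.pi * (τ - a))) = Real.pi * x := by
    rw [← hx]
    have : α = 1 - β := by linarith
    rw [this]
    ring
  rw [hc] at m
  have key : ∀ y : Fin 13 → ℝ, ∑ n : Fin 13, 2 ^ 24 * Real.exp (Real.pi * x * (mm - y n)) =
      2 ^ 23 * (Real.exp (Real.pi * x * mm) *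
      (2 * ∑ n : Fin 13, Real.exp (-(Real.pi * x * y n)))) := by
    intro y
    rw [Finset.mul_sum, Finset.mul_sum, Finset.mul_sum]
    refine Finset.sum_congr rfl fun i _ => ?_
    have : Real.exp (Real.pi * x * (mm - y i)) =
        Real.exp (Real.pi * x * mm) * Real.exp (-(Real.pi * x * y i)) := by
      rw [← Real.exp_add]
      congr 1
      ring
    rw [this]
    ring
  rw [key, key] at m
  have hx0 : 0 < x := by linarith
  have g := mul_le_mul_of_nonneg_left (th_ge13 hp hx0) (Real.exp_pos (Real.pi * x * mm)).le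
  have g' := mul_le_mul_of_nonneg_left (thq_ge13 hp hx0) (Real.exp_pos (Real.pi * x * mm)).le
  have k0 := mul_le_mul_of_nonneg_left hc0 hα
  have k1 := mul_le_mul_of_nonneg_left hc1 hβ
  have k2 := rb_conv (a := a) (b := b) (t := β) (by linarith) (by linarith) hβ (by linarith)
  have k2' := rf_conv (a := a) (b := b) (t := β) (by linarith) (by linarith) hβ (by linarith)
  have hα' : 1 - β = α := by linarith
  rw [hα', hx] at k2 k2'
  have k3 : α * (1 / 1000) + β * (1 / 1000) = 1 / 1000 := by rw [← add_mul, hab, one_mul]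
  have k4 : RF x + RB x + 1 / 1000 ≤ Real.exp (Real.pi * x * mm) * Th x p +
      Real.exp (Real.pi * x * mm) * Th x (qd p) := by linarith
  unfold RB RF at k4
  have h1 := mul_le_mul_of_nonneg_left k4 (Real.exp_pos (-(Real.pi * x * mm))).le
  have h2 : Real.exp (-(Real.pi * x * mm)) * Real.exp (Real.pi * x * mm) = 1 := by
    rw [← Real.exp_add]; simp
  have h3 : Real.exp (-(Real.pi * x * mm)) * (Real.exp (Real.pi * x * mm) * Th x p +
      Real.exp (Real.pi * x * mm) * Th x (qd p)) = Th x p + Th x (qd p) := by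
    rw [mul_add, ← mul_assoc, ← mul_assoc, h2, one_mul, one_mul]
  have h4 : Real.exp (-(Real.pi * x * mm)) * (Real.exp (Real.pi * x * mm) * Th x Fp +
      Real.exp (Real.pi * x * mm) * Th x Bp + 1 / 1000) =
      Th x Fp + Th x Bp + 1 / 1000 * Real.exp (-(Real.pi * x * mm)) := by
    rw [mul_add, mul_add, ← mul_assoc, ← mul_assoc, h2, one_mul, one_mul]
    ring
  rw [h3, h4] at h1
  unfold Sf
  linarith

/-- the linear slab step -/
lemma slabB_step {l k : ℕ} {τ s0 s1 : ℝ} {T0 T1 c0 c1 : ℕ} {V : List ℕ} {t : ℕ} (hl9 : k ≤ 9)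
    (hat : lv l < τ) (htb : τ < lv k)
    (h0 : OKm T0 (Real.pi * τ) s0) (h1 : OK1 T1 (Real.pi * τ) (s1 + mm) 2097152)
    (hs0 : Real.pi * (τ - lv l) * s0 ≤ 1) (hs1 : Real.pi * (lv k - τ) * s1 ≤ 1)
    (hc0 : 2 ^ 23 * (RB (lv l) + 1 / 1000) ≤ Real.pi * (τ - lv l) * c0)
    (hc1 : 2 ^ 23 * (RB (lv k) + 1 / 1000) ≤ Real.pi * (lv k - τ) * (c1 - 13 * 2 ^ 21))
    (hV : VL V) (h : tst T0 T1 c0 c1 V t = true) (hg : Good (Q l) V) : Good (Q k) V := by
  intro c hc hp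
  rcases hg c hc hp with hg | ⟨_, hg⟩
  · exact Or.inl hg
  right
  refine ⟨hl9, fun x hx1 hx2 => ?_⟩
  rcases lt_or_ge x (lv l) with hlt | hge
  · exact hg x hx1 hlt
  · exact slabB (lv_ge l) hat htb h0 h1 hs0 hs1 hc0 hc1 hV h hc hp hx1 hge hx2.le

/-- the quadratic slab step -/
lemma slabP_step {l k : ℕ} {τ s0 s1 : ℝ} {T0 T1 c0 c1 : ℕ} {V : List ℕ} {t : ℕ} (hl9 : k ≤ 9)
    (hat : lv l < τ) (htb : τ < lv k)
    (h0 : OKm T0 (Real.pi * τ) s0) (h1 : OK1 T1 (Real.pi * τ) (s1 + mm) 2097152)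
    (hs0 : Real.pi * (τ - lv l) * s0 ≤ 1) (hs1 : Real.pi * (lv k - τ) * s1 ≤ 1)
    (hc0 : 2 ^ 23 * (RF (lv l) + RB (lv l) + 1 / 1000) ≤ Real.pi * (τ - lv l) * c0)
    (hc1 : 2 ^ 23 * (RF (lv k) + RB (lv k) + 1 / 1000) ≤
      Real.pi * (lv k - τ) * (c1 - 26 * 2 ^ 21))
    (hV : VL V) (h : tsq T0 T1 c0 c1 V t = true) (hg : Good (Q l) V) : Good (Q k) V := by
  intro c hc hp
  rcases hg c hc hp with hg | ⟨_, hg⟩
  · exact Or.inl hg
  right
  refine ⟨hl9, fun x hx1 hx2 => ?_⟩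
  rcases lt_or_ge x (lv l) with hlt | hge
  · exact hg x hx1 hlt
  · exact slabP (lv_ge l) hat htb h0 h1 hs0 hs1 hc0 hc1 hV h hc hp hx1 hge hx2.le

end Pool.Agent.U316.Ep
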