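import Pool.Agent.U316.Ep.Lin2
import Pool.Agent.U316.Ep.Tabs
import Pool.Agent.U316.Th.TabOK

/-!
# Validity of the tables
-/

set_option autoImplicit false

open Matrix Pool.Agent.K1H99.FCC

namespace Pool.Agent.U316.Ep

open Pool.Agent.U316.Th (mm mm_bounds mm_pos mm_cube tan1 low1)

/-- the conditions on an entry of a table for `exp (c x)` -/
def cond0 (T i P Q L U : ℕ) : Bool :=
  (Nat.beq (lA T i) 0) || (Nat.ble (lA T i * 2 ^ 104) (L * (2 ^ 48 + P * (i + 128))) &&
    Nat.ble (U * Q) (lB T i * 2 ^ 96))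

/-- the conditions on an entry of a table for `exp (c (mm - v)) (a - v)` -/
def cond1 (lo0 hi0 : ℤ) (off T i P Q L U : ℕ) : Bool :=
  decide (lA T i = 0) ||
  (decide ((0:ℤ) ≤ 1208925819614629174706176 + Q * (lo0 - 4294967296 * (i + 128))) &&
  decide ((U:ℤ) * (1208925819614629174706176 + max (Q * (hi0 - 4294967296 * (i + 128)))
    (P * (hi0 - 4294967296 * (i + 128)))) ≤ (lB T i : ℤ) * 87112285931760246646623899502532662132736) &&
  decide (((lA T i : ℤ) - off) * 95780971304118053647396689196894323976171195136475136 ≤ L * (1208925819614629174706176 * (lo0 - 4294967296 * (i + 128)) +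
    (1208925819614629174706176 + min (P * (lo0 - 4294967296 * (i + 128)))
      (Q * (lo0 - 4294967296 * (i + 128)))) * (4294967296 * (i + 128)))) &&
  decide (((lA T i : ℤ) - off) * 95780971304118053647396689196894323976171195136475136 ≤ U * (1208925819614629174706176 * (lo0 - 4294967296 * (i + 128)) +
    (1208925819614629174706176 + min (P * (lo0 - 4294967296 * (i + 128)))
      (Q * (lo0 - 4294967296 * (i + 128)))) * (4294967296 * (i + 128)))))

/-- the conditions on an entry of a table for `exp (c (mm - v)) (a + v)` -/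
def condm (lo0 hi0 : ℕ) (T i P Q L U : ℕ) : Bool :=
  (Nat.beq (lA T i) 0) ||
  (Nat.ble (U * (Q * (hi0 + 4294967296 * (i + 128)) - 1208925819614629174706176))
      (lB T i * 87112285931760246646623899502532662132736) &&
    Nat.ble (lA T i * 95780971304118053647396689196894323976171195136475136)
      (L * (1208925819614629174706176 * (lo0 + 4294967296 * (i + 128)) +
        (P * (lo0 + 4294967296 * (i + 128)) - 1208925819614629174706176) *
          (4294967296 * (i + 128)))))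

/-- checks the entries in turn -/
def chk (f : ℕ → ℕ → ℕ → Bool) (R1 R2 : ℕ) : ℕ → ℕ → ℕ → ℕ → Bool
  | 0, _, _, _ => true
  | n + 1, i, L, U => f i L U && frc (i + 1) fun i' => frc (L * R1 / 2 ^ 80) fun L' =>
      frc (U * R2 / 2 ^ 80 + 1) fun U' => chk f R1 R2 n i' L' U'

/-- the exponential at the grid point -/
noncomputable def Ei (c : ℝ) (i : ℕ) : ℝ := Real.exp (c * (mm - ((i:ℝ) + 128) / 256))

lemma chk_sound {f : ℕ → ℕ → ℕ → Bool} {R1 R2 : ℕ} {c : ℝ}
    (hR : (R1 : ℝ) / 2 ^ 80 ≤ Real.exp (-(c / 256)) ∧ Real.exp (-(c / 256)) ≤ R2 / 2 ^ 80) :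
    ∀ (n i L U : ℕ), (L : ℝ) / 2 ^ 80 ≤ Ei c i → Ei c i ≤ U / 2 ^ 80 →
      chk f R1 R2 n i L U = true → ∀ j, i ≤ j → j < i + n → ∃ L' U' : ℕ,
      (L' : ℝ) / 2 ^ 80 ≤ Ei c j ∧ Ei c j ≤ U' / 2 ^ 80 ∧ f j L' U' = true := by
  intro n
  induction n with
  | zero => intro i L U _ _ _ j h1 h2; omega
  | succ n ih =>
    intro i L U hL hU h j h1 h2
    unfold chk at h
    simp only [frc_eq, Bool.and_eq_true] at h
    obtain ⟨hc, h⟩ := h
    rcases Nat.eq_or_lt_of_le h1 with h4 | h4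
    · subst h4
      exact ⟨L, U, hL, hU, hc⟩
    · obtain ⟨b1, b2⟩ := hR
      have e : Ei c (i + 1) = Ei c i * Real.exp (-(c / 256)) := by
        unfold Ei
        rw [← Real.exp_add]
        congr 1
        push_cast
        ring
      have hE : 0 < Ei c i := Real.exp_pos _
      refine ih (i + 1) _ _ ?_ ?_ h j h4 (by omega)
      · rw [e]
        have h5 : ((L * R1 / 2 ^ 80 : ℕ) : ℝ) ≤ L * R1 / 2 ^ 80 := by
          refine Nat.cast_div_le.trans (le_of_eq ?_)
          push_cast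
          ring
        calc ((L * R1 / 2 ^ 80 : ℕ) : ℝ) / 2 ^ 80 ≤ ((L:ℝ) * R1 / 2 ^ 80) / 2 ^ 80 := by gcongr
          _ = ((L:ℝ) / 2 ^ 80) * (R1 / 2 ^ 80) := by ring
          _ ≤ Ei c i * Real.exp (-(c / 256)) := mul_le_mul hL b1 (by positivity) hE.le
      · rw [e]
        have h5 : (U : ℝ) * R2 / 2 ^ 80 ≤ ((U * R2 / 2 ^ 80 + 1 : ℕ) : ℝ) := by
          have h6 : U * R2 < (U * R2 / 2 ^ 80 + 1) * 2 ^ 80 :=
            Nat.lt_mul_of_div_lt (Nat.lt_succ_self _) (by norm_num)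
          rw [div_le_iff₀ (by norm_num)]
          exact_mod_cast h6.le
        calc Ei c i * Real.exp (-(c / 256)) ≤ ((U:ℝ) / 2 ^ 80) * (R2 / 2 ^ 80) :=
              mul_le_mul hU b2 (Real.exp_pos _).le (by positivity)
          _ = ((U:ℝ) * R2 / 2 ^ 80) / 2 ^ 80 := by ring
          _ ≤ _ := by gcongr

lemma lk_big {T n : ℕ} (hT : T < 2 ^ (64 * n)) (j : ℕ) (hj : n ≤ j) : lA T j = 0 ∧ lB T j = 0 := by
  have h2 : T < 2 ^ (64 * j) := hT.trans_le (Nat.pow_le_pow_right (by norm_num) (by omega))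
  have h : lk T j = 0 := by
    unfold lk
    have h1 : Nat.shiftRight T (Nat.mul 64 j) = T >>> (64 * j) := rfl
    rw [h1, Nat.shiftRight_eq_div_pow, Nat.div_eq_of_lt h2]
  unfold lA lB
  rw [h]
  exact ⟨rfl, rfl⟩

lemma E0_eq (c : ℝ) : Ei c 0 = Real.exp (c * (mm - 1 / 2)) := by
  unfold Ei
  congr 2
  push_cast
  ring

/-- validity of a table for `exp (c x)` -/
def OK0 (T : ℕ) (c : ℝ) : Prop :=
  (∀ (i : ℕ) (v : ℝ), 0 ≤ v → lA T i - lB T i * v ≤ 2 ^ 24 * Real.exp (c * (mm - v))) ∧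
    lA T 1023 = 0 ∧ lB T 1023 = 0

/-- validity of a table for `exp (c x) (s - x)` -/
def OKm (T : ℕ) (c s : ℝ) : Prop :=
  (∀ (i : ℕ) (v : ℝ), 0 ≤ v → lA T i - lB T i * v ≤
    2 ^ 24 * (Real.exp (c * (mm - v)) * (s - (mm - v)))) ∧
    lA T 1023 = 0 ∧ lB T 1023 = 0

/-- validity of a table for `exp (c x) (a - v)` with an offset -/
def OK1 (T : ℕ) (c a : ℝ) (off : ℕ) : Prop :=
  (∀ (i : ℕ) (v : ℝ), i ≠ 1023 → 0 ≤ v → lA T i - lB T i * v - off ≤
    2 ^ 24 * (Real.exp (c * (mm - v)) * (a - v))) ∧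
    lA T 1023 = off ∧ lB T 1023 = 0

/-- validity of a table of the first kind -/
lemma ok0_of {T P Q R1 R2 L U : ℕ} {c : ℝ} (hT : ∀ j, 1024 ≤ j → lA T j = 0 ∧ lB T j = 0)
    (hc : 0 < c)
    (hP : (P : ℝ) / 2 ^ 40 ≤ c) (hQ : c ≤ Q / 2 ^ 40)
    (hE : (L : ℝ) / 2 ^ 80 ≤ Real.exp (c * (mm - 1 / 2)) ∧
      Real.exp (c * (mm - 1 / 2)) ≤ U / 2 ^ 80)
    (hR : (R1 : ℝ) / 2 ^ 80 ≤ Real.exp (-(c / 256)) ∧ Real.exp (-(c / 256)) ≤ R2 / 2 ^ 80)
    (hlast : lA T 1023 = 0 ∧ lB T 1023 = 0)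
    (h : chk (fun i L U => cond0 T i P Q L U) R1 R2 1023 0 L U = true) : OK0 T c := by
  refine ⟨?_, hlast⟩
  intro j v hv
  have zero : lA T j = 0 → (lA T j : ℝ) - lB T j * v ≤ 2 ^ 24 * Real.exp (c * (mm - v)) := by
    intro hz
    rw [hz]
    have h2 : 0 ≤ (lB T j : ℝ) * v := by positivity
    have := Real.exp_pos (c * (mm - v))
    push_cast
    linarith
  rcases Nat.lt_or_ge j 1023 with hj | hj
  · rw [← E0_eq] at hE
    obtain ⟨L', U', hL, hU, hf⟩ := chk_sound hR 1023 0 L U hE.1 hE.2 h j (by omega) (by omega)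
    unfold cond0 at hf
    rw [Bool.or_eq_true, Bool.and_eq_true] at hf
    rcases hf with hf | hf
    · exact zero (Nat.eq_of_beq_eq_true hf)
    have f1 := Nat.le_of_ble_eq_true hf.1
    have f2 := Nat.le_of_ble_eq_true hf.2
    have g1 : (lA T j : ℝ) * 2 ^ 104 ≤ L' * (2 ^ 48 + P * (j + 128)) := by exact_mod_cast f1
    have g2 : (U' : ℝ) * Q ≤ lB T j * 2 ^ 96 := by exact_mod_cast f2
    have hEp : 0 < Ei c j := Real.exp_pos _
    set V : ℝ := ((j:ℝ) + 128) / 256 with hV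
    have hV0 : 0 < V := by positivity
    have a1 : (lA T j : ℝ) ≤ 2 ^ 24 * (Ei c j * (1 + c * V)) := by
      have h1 : (L' : ℝ) / 2 ^ 80 * (1 + P / 2 ^ 40 * V) ≤ Ei c j * (1 + c * V) := by
        refine mul_le_mul hL ?_ (by positivity) hEp.le
        gcongr
      have h2 : (lA T j : ℝ) ≤ 2 ^ 24 * ((L' : ℝ) / 2 ^ 80 * (1 + P / 2 ^ 40 * V)) := by
        have e : 2 ^ 24 * ((L' : ℝ) / 2 ^ 80 * (1 + P / 2 ^ 40 * V)) =
            L' * (2 ^ 48 + P * (j + 128)) / 2 ^ 104 := by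
          rw [hV]
          ring
        rw [e, le_div_iff₀ (by norm_num)]
        exact g1
      linarith
    have a2 : 2 ^ 24 * (Ei c j * c) ≤ lB T j := by
      have h1 : Ei c j * c ≤ U' / 2 ^ 80 * (Q / 2 ^ 40) :=
        mul_le_mul hU hQ hc.le (by positivity)
      have h2 : 2 ^ 24 * ((U' : ℝ) / 2 ^ 80 * (Q / 2 ^ 40)) ≤ lB T j := by
        have e : 2 ^ 24 * ((U' : ℝ) / 2 ^ 80 * (Q / 2 ^ 40)) = U' * Q / 2 ^ 96 := by ring
        rw [e, div_le_iff₀ (by norm_num)]
        exact g2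
      linarith
    have a3 : Ei c j * (1 + c * (V - v)) ≤ Real.exp (c * (mm - v)) := by
      have h1 := Real.add_one_le_exp (c * (V - v))
      have h2 := mul_le_mul_of_nonneg_left h1 hEp.le
      have e : Ei c j * Real.exp (c * (V - v)) = Real.exp (c * (mm - v)) := by
        unfold Ei
        rw [← Real.exp_add]
        congr 1
        rw [hV]
        ring
      rw [e] at h2
      linarith
    have a4 := mul_le_mul_of_nonneg_right a2 hv
    nlinarith
  · have hz : lA T j = 0 ∧ lB T j = 0 := by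
      rcases Nat.eq_or_lt_of_le hj with h5 | h5
      · rw [← h5]; exact hlast
      · exact hT j (by omega)
    exact zero hz.1

/-- the tangent inequality for `exp (- c v) (a + v)` -/
lemma tanm_aux {y : ℝ} (hy : 0 ≤ y) : 0 ≤ (2 + y) * Real.exp (-y) - 2 + y := by
  have hmono : MonotoneOn (fun y : ℝ => (2 + y) * Real.exp (-y) - 2 + y) (Set.Ici 0) := by
    refine monotoneOn_of_deriv_nonneg (convex_Ici 0) (by fun_prop) (by fun_prop) ?_
    intro x hx
    have hx0 : 0 < x := by simpa using hx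
    have hd : HasDerivAt (fun y : ℝ => (2 + y) * Real.exp (-y) - 2 + y)
        (1 * Real.exp (-x) + (2 + x) * (Real.exp (-x) * (-1)) + 1) x := by
      have h1 : HasDerivAt (fun y : ℝ => 2 + y) 1 x := (hasDerivAt_id x).const_add 2
      have h2 : HasDerivAt (fun y : ℝ => Real.exp (-y)) (Real.exp (-x) * (-1)) x :=
        (hasDerivAt_neg x).exp
      exact ((h1.mul h2).sub_const 2).add (hasDerivAt_id x)
    rw [hd.deriv]
    have h3 := Real.add_one_le_exp x
    have h4 : Real.exp (-x) * Real.exp x = 1 := by rw [← Real.exp_add]; simp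
    have h5 := mul_le_mul_of_nonneg_left h3 (Real.exp_pos (-x)).le
    nlinarith
  have h := hmono (Set.mem_Ici.2 le_rfl) (Set.mem_Ici.2 hy) hy
  simpa using h

lemma tanm {c a V v : ℝ} (hc : 0 < c) (h2 : 2 ≤ c * a) (hV : 0 ≤ V) (hv : 0 ≤ v) :
    Real.exp (c * (mm - V)) * ((a + V) - (c * (a + V) - 1) * (v - V)) ≤
      Real.exp (c * (mm - v)) * (a + v) := by
  have e : Real.exp (c * (mm - v)) = Real.exp (c * (mm - V)) * Real.exp (-(c * (v - V))) := by
    rw [← Real.exp_add]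
    congr 1
    ring
  rw [e, mul_assoc]
  refine mul_le_mul_of_nonneg_left ?_ (Real.exp_pos _).le
  set y := c * (v - V) with hy
  set z := c * (a + v) with hz
  have hz2 : 2 ≤ z := by
    have := mul_nonneg hc.le hv
    rw [hz, mul_add]
    linarith
  have hzy : 2 ≤ z - y := by
    have := mul_nonneg hc.le hV
    have e : z - y = c * a + c * V := by rw [hz, hy]; ring
    rw [e]
    linarith
  have key : z * (1 - y) + y ^ 2 ≤ z * Real.exp (-y) := by
    rcases le_total y 0 with h | h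
    · have h3 := Real.quadratic_le_exp_of_nonneg (x := -y) (by linarith)
      nlinarith
    · have h3 := tanm_aux h
      have h4 := Real.add_one_le_exp (-y)
      nlinarith
  have k2 : c * ((a + V) - (c * (a + V) - 1) * (v - V)) = z * (1 - y) + y ^ 2 := by
    rw [hz, hy]
    ring
  have k3 : c * (Real.exp (-y) * (a + v)) = z * Real.exp (-y) := by
    rw [hz]
    ring
  have k4 : c * ((a + V) - (c * (a + V) - 1) * (v - V)) ≤ c * (Real.exp (-y) * (a + v)) := by
    rw [k2, k3]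
    exact key
  exact le_of_mul_le_mul_left k4 hc

lemma okm_core {c a0 V v E L U P Q lo hi A B : ℝ} (hc : 0 < c) (hca : 2 ≤ c * a0) (hv : 0 ≤ v)
    (hV0 : 0 < V) (hEp : 0 < E) (eE : Real.exp (c * (mm - V)) = E) (hP0 : 0 ≤ P)
    (hL0 : 0 ≤ L) (hU0 : 0 ≤ U) (hQ0 : 0 ≤ Q) (hlo0 : 0 ≤ lo) (ha0 : 0 < a0)
    (hP : P / 2 ^ 40 ≤ c) (hQ : c ≤ Q / 2 ^ 40)
    (hL : L / 2 ^ 80 ≤ E) (hU : E ≤ U / 2 ^ 80) (b1 : lo / 2 ^ 40 ≤ a0 + V)
    (b2 : a0 + V ≤ hi / 2 ^ 40)
    (hP1 : 1208925819614629174706176 ≤ P * lo)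
    (g1 : A * 95780971304118053647396689196894323976171195136475136 ≤
        L * (1208925819614629174706176 * lo + (P * lo - 1208925819614629174706176) *
          (2 ^ 40 * V)))
    (g2 : U * (Q * hi - 1208925819614629174706176) ≤
        B * 87112285931760246646623899502532662132736) :
    A - B * v ≤ 2 ^ 24 * (Real.exp (c * (mm - v)) * (a0 + v)) := by
  have hca2 : 1 ≤ c * (a0 + V) := by
    have := mul_nonneg hc.le hV0.le
    rw [mul_add]
    linarith
  have c2 : c * (a0 + V) ≤ Q * hi / 2 ^ 80 := by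
    calc c * (a0 + V) ≤ Q / 2 ^ 40 * (hi / 2 ^ 40) :=
          mul_le_mul hQ b2 (by linarith) (by positivity)
      _ = _ := by ring
  have c1 : P * lo / 2 ^ 80 ≤ c * (a0 + V) := by
    calc P * lo / 2 ^ 80 = P / 2 ^ 40 * (lo / 2 ^ 40) := by ring
      _ ≤ _ := mul_le_mul hP b1 (by positivity) hc.le
  -- slope
  have a2 : 2 ^ 24 * (E * (c * (a0 + V) - 1)) ≤ B := by
    have h1 : E * (c * (a0 + V) - 1) ≤ U / 2 ^ 80 * (Q * hi / 2 ^ 80 - 1) :=
      mul_le_mul hU (by linarith) (by linarith) (by positivity)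
    have h2 : 2 ^ 24 * (U / 2 ^ 80 * (Q * hi / 2 ^ 80 - 1)) ≤ B := by
      have e : 2 ^ 24 * (U / 2 ^ 80 * (Q * hi / 2 ^ 80 - 1)) =
          U * (Q * hi - 1208925819614629174706176) / 87112285931760246646623899502532662132736 := by
        ring
      rw [e, div_le_iff₀ (by norm_num)]
      exact g2
    linarith
  -- intercept
  have a1 : A ≤ 2 ^ 24 * (E * ((a0 + V) + (c * (a0 + V) - 1) * V)) := by
    have h0 : 0 ≤ P * lo / 2 ^ 80 - 1 := by
      rw [sub_nonneg, le_div_iff₀ (by norm_num)]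
      linarith
    have h1 : L / 2 ^ 80 * (lo / 2 ^ 40 + (P * lo / 2 ^ 80 - 1) * V) ≤
        E * ((a0 + V) + (c * (a0 + V) - 1) * V) := by
      refine mul_le_mul hL ?_ (by positivity) hEp.le
      have := mul_le_mul_of_nonneg_right c1 hV0.le
      nlinarith
    have h2 : A ≤ 2 ^ 24 * (L / 2 ^ 80 *
        (lo / 2 ^ 40 + (P * lo / 2 ^ 80 - 1) * V)) := by
      have e : 2 ^ 24 * (L / 2 ^ 80 * (lo / 2 ^ 40 + (P * lo / 2 ^ 80 - 1) * V)) =
          L * (1208925819614629174706176 * lo + (P * lo - 1208925819614629174706176) *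
            (2 ^ 40 * V)) / 95780971304118053647396689196894323976171195136475136 := by
        ring
      rw [e, le_div_iff₀ (by norm_num)]
      exact g1
    linarith
  have a3 := tanm (V := V) hc hca hV0.le hv
  have a4 := mul_le_mul_of_nonneg_right a2 hv
  rw [eE] at a3
  have e5 : E * ((a0 + V) - (c * (a0 + V) - 1) * (v - V)) =
      E * ((a0 + V) + (c * (a0 + V) - 1) * V) - E * (c * (a0 + V) - 1) * v := by ring
  rw [e5] at a3
  linarith

/-- validity of a table for `exp (c (mm - v)) (a + v)` -/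
lemma okm_of {lo0 hi0 T P Q R1 R2 L U : ℕ} {c a0 : ℝ}
    (hT : ∀ j, 1024 ≤ j → lA T j = 0 ∧ lB T j = 0) (hc : 0 < c)
    (hP : (P : ℝ) / 2 ^ 40 ≤ c) (hQ : c ≤ Q / 2 ^ 40)
    (ha : (lo0 : ℝ) / 2 ^ 40 ≤ a0) (hb : a0 ≤ hi0 / 2 ^ 40)
    (hlo : Nat.ble 2417851639229258349412352 (P * lo0) = true)
    (hlo2 : Nat.ble 1208925819614629174706176 (Q * hi0) = true)
    (hE : (L : ℝ) / 2 ^ 80 ≤ Real.exp (c * (mm - 1 / 2)) ∧
      Real.exp (c * (mm - 1 / 2)) ≤ U / 2 ^ 80)
    (hR : (R1 : ℝ) / 2 ^ 80 ≤ Real.exp (-(c / 256)) ∧ Real.exp (-(c / 256)) ≤ R2 / 2 ^ 80)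
    (hlast : lA T 1023 = 0 ∧ lB T 1023 = 0)
    (h : chk (fun i L U => condm lo0 hi0 T i P Q L U) R1 R2 1023 0 L U = true) :
    OKm T c (a0 + mm) := by
  have hlo := Nat.le_of_ble_eq_true hlo
  have hlo2 := Nat.le_of_ble_eq_true hlo2
  have hca : 2 ≤ c * a0 := by
    have h0 := (Nat.cast_le (α := ℝ)).2 hlo
    rw [Nat.cast_mul, Nat.cast_ofNat] at h0
    have h1 : (2 * 2 ^ 80 : ℝ) ≤ P * lo0 := le_trans (by norm_num) h0
    have h2 : (P : ℝ) / 2 ^ 40 * (lo0 / 2 ^ 40) ≤ c * a0 := mul_le_mul hP ha (by positivity) hc.le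
    have e : (P : ℝ) / 2 ^ 40 * (lo0 / 2 ^ 40) = P * lo0 / 2 ^ 80 := by ring
    rw [e] at h2
    refine le_trans ?_ h2
    rw [le_div_iff₀ (by norm_num)]
    exact h1
  have ha0 : 0 < a0 := by
    by_contra hn
    push Not at hn
    nlinarith
  refine ⟨?_, hlast⟩
  intro j v hv
  have es : a0 + mm - (mm - v) = a0 + v := by ring
  rw [es]
  have zero : lA T j = 0 → (lA T j : ℝ) - lB T j * v ≤
      2 ^ 24 * (Real.exp (c * (mm - v)) * (a0 + v)) := by
    intro hz
    rw [hz]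
    have h2 : 0 ≤ (lB T j : ℝ) * v := mul_nonneg (Nat.cast_nonneg _) hv
    have := mul_nonneg (Real.exp_pos (c * (mm - v))).le (add_nonneg ha0.le hv)
    rw [Nat.cast_zero]
    linarith
  rcases Nat.lt_or_ge j 1023 with hj | hj
  · rw [← E0_eq] at hE
    obtain ⟨L', U', hL, hU, hf⟩ := chk_sound hR 1023 0 L U hE.1 hE.2 h j (Nat.zero_le _)
      (by rw [zero_add]; exact hj)
    unfold condm at hf
    rw [Bool.or_eq_true, Bool.and_eq_true] at hf
    rcases hf with hf | hf
    · exact zero (Nat.eq_of_beq_eq_true hf)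
    have f1 := Nat.le_of_ble_eq_true hf.1
    have f2 := Nat.le_of_ble_eq_true hf.2
    have h1P : 1208925819614629174706176 ≤ P * (lo0 + 4294967296 * (j + 128)) :=
      le_trans (by norm_num) (hlo.trans (Nat.mul_le_mul_left _ (Nat.le_add_right _ _)))
    have h1Q : 1208925819614629174706176 ≤ Q * (hi0 + 4294967296 * (j + 128)) :=
      hlo2.trans (Nat.mul_le_mul_left _ (Nat.le_add_right _ _))
    have F1 := (Nat.cast_le (α := ℝ)).2 f1
    have F2 := (Nat.cast_le (α := ℝ)).2 f2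
    have F3 := (Nat.cast_le (α := ℝ)).2 h1P
    rw [Nat.cast_mul, Nat.cast_mul, Nat.cast_sub h1Q] at F1
    rw [Nat.cast_mul, Nat.cast_mul, Nat.cast_add, Nat.cast_mul, Nat.cast_mul,
      Nat.cast_sub h1P] at F2
    clear f1 f2 h1P h1Q hlo hlo2 hf
    simp only [Nat.cast_mul, Nat.cast_add, Nat.cast_ofNat] at F1 F2 F3
    have hV0 : (0:ℝ) < ((j:ℝ) + 128) / 256 := by
      have : (0:ℝ) ≤ j := Nat.cast_nonneg _
      linarith
    have eV : (4294967296 * ((j:ℝ) + 128)) = 2 ^ 40 * (((j:ℝ) + 128) / 256) := by ring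
    rw [eV] at F1 F2 F3
    have n1 : (0:ℝ) ≤ P := Nat.cast_nonneg _
    have n2 : (0:ℝ) ≤ Q := Nat.cast_nonneg _
    have n3 : (0:ℝ) ≤ L' := Nat.cast_nonneg _
    have n4 : (0:ℝ) ≤ U' := Nat.cast_nonneg _
    have n5 : (0:ℝ) ≤ lo0 := Nat.cast_nonneg _
    refine okm_core (lo := (lo0:ℝ) + 2 ^ 40 * (((j:ℝ) + 128) / 256))
      (hi := (hi0:ℝ) + 2 ^ 40 * (((j:ℝ) + 128) / 256)) (L := L') (U := U') (P := P) (Q := Q)
      (V := ((j:ℝ) + 128) / 256) hc hca hv hV0 (Real.exp_pos _) rfl n1 n3 n4 n2 ?_ ha0 hP hQ hL hU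
      ?_ ?_ F3 F2 F1
    · linarith
    · have e : ((lo0:ℝ) + 2 ^ 40 * (((j:ℝ) + 128) / 256)) / 2 ^ 40 =
          lo0 / 2 ^ 40 + ((j:ℝ) + 128) / 256 := by ring
      rw [e]
      linarith
    · have e : ((hi0:ℝ) + 2 ^ 40 * (((j:ℝ) + 128) / 256)) / 2 ^ 40 =
          hi0 / 2 ^ 40 + ((j:ℝ) + 128) / 256 := by ring
      rw [e]
      linarith
  · have hz : lA T j = 0 ∧ lB T j = 0 := by
      rcases Nat.eq_or_lt_of_le hj with h5 | h5
      · rw [← h5]; exact hlast
      · exact hT j h5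
    exact zero hz.1

/-- validity of a table for `exp (c (mm - v)) (a - v)` -/
lemma ok1_of {lo0 hi0 : ℤ} {off T P Q R1 R2 L U : ℕ} {c a0 : ℝ}
    (hT : ∀ j, 1024 ≤ j → lA T j = 0 ∧ lB T j = 0) (hc0 : 0 < c)
    (hP : (P : ℝ) / 2 ^ 40 ≤ c) (hQ : c ≤ Q / 2 ^ 40)
    (ha0 : (lo0 : ℝ) / 2 ^ 40 ≤ a0) (hb0 : a0 ≤ hi0 / 2 ^ 40)
    (hlow : ∀ v : ℝ, -(off : ℝ) ≤ 2 ^ 24 * (Real.exp (c * (mm - v)) * (a0 - v)))
    (hE : (L : ℝ) / 2 ^ 80 ≤ Real.exp (c * (mm - 1 / 2)) ∧
      Real.exp (c * (mm - 1 / 2)) ≤ U / 2 ^ 80)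
    (hR : (R1 : ℝ) / 2 ^ 80 ≤ Real.exp (-(c / 256)) ∧ Real.exp (-(c / 256)) ≤ R2 / 2 ^ 80)
    (hlast : lA T 1023 = off ∧ lB T 1023 = 0)
    (h : chk (fun i L U => cond1 lo0 hi0 off T i P Q L U) R1 R2 1023 0 L U = true) :
    OK1 T c a0 off := by
  refine ⟨?_, hlast⟩
  intro j v hj511 hv
  have zero : lA T j = 0 → (lA T j : ℝ) - lB T j * v - off ≤
      2 ^ 24 * (Real.exp (c * (mm - v)) * (a0 - v)) := by
    intro hz
    rw [hz]
    have h1 := hlow v
    have h2 : 0 ≤ (lB T j : ℝ) * v := by positivity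
    push_cast
    linarith
  rcases Nat.lt_or_ge j 1023 with hj | hj
  · rw [← E0_eq] at hE
    obtain ⟨L', U', hL, hU, hf⟩ := chk_sound hR 1023 0 L U hE.1 hE.2 h j (by omega) (by omega)
    unfold cond1 at hf
    simp only [Bool.or_eq_true, Bool.and_eq_true, decide_eq_true_eq] at hf
    rcases hf with hf | hf
    · exact zero hf
    obtain ⟨⟨⟨f1, f2⟩, f3⟩, f4⟩ := hf
    have hEp : 0 < Ei c j := Real.exp_pos _
    set V : ℝ := ((j:ℝ) + 128) / 256 with hV
    have hV0 : 0 < V := by positivity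
    set a : ℝ := a0 - V with ha
    set lo : ℝ := (lo0:ℝ) - 4294967296 * (j + 128) with hlo
    set hi : ℝ := (hi0:ℝ) - 4294967296 * (j + 128) with hhi
    have r1 : (0:ℝ) ≤ 1208925819614629174706176 + Q * lo := by
      have h := (Int.cast_le (R := ℝ)).2 f1
      push_cast at h
      exact h
    have r2 : (U':ℝ) * (1208925819614629174706176 + max (Q * hi) (P * hi)) ≤ lB T j * 87112285931760246646623899502532662132736 := by
      have h := (Int.cast_le (R := ℝ)).2 f2
      push_cast at h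
      exact h
    have r3 : ((lA T j : ℝ) - off) * 95780971304118053647396689196894323976171195136475136 ≤ L' * (1208925819614629174706176 * lo +
        (1208925819614629174706176 + min (P * lo) (Q * lo)) * (4294967296 * (j + 128))) := by
      have h := (Int.cast_le (R := ℝ)).2 f3
      push_cast at h
      exact h
    have r4 : ((lA T j : ℝ) - off) * 95780971304118053647396689196894323976171195136475136 ≤ U' * (1208925819614629174706176 * lo +
        (1208925819614629174706176 + min (P * lo) (Q * lo)) * (4294967296 * (j + 128))) := by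
      have h := (Int.cast_le (R := ℝ)).2 f4
      push_cast at h
      exact h
    have b1 : lo / 2 ^ 40 ≤ a := by
      have e : lo / 2 ^ 40 = (lo0:ℝ) / 2 ^ 40 - V := by
        rw [hlo, hV]; ring
      rw [e, ha]
      linarith
    have b2 : a ≤ hi / 2 ^ 40 := by
      have e : hi / 2 ^ 40 = (hi0:ℝ) / 2 ^ 40 - V := by
        rw [hhi, hV]; ring
      rw [e, ha]
      linarith
    have hP0 : (0:ℝ) ≤ P := Nat.cast_nonneg P
    -- lower bound for c * a
    have c1 : min (P * lo) (Q * lo) / 2 ^ 80 ≤ c * a := by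
      have h1 : min (P * lo) (Q * lo) / 2 ^ 80 ≤ c * (lo / 2 ^ 40) := by
        rcases le_total 0 lo with h | h
        · have h2 : min (P * lo) (Q * lo) ≤ P * lo := min_le_left _ _
          have h3 : (P:ℝ) / 2 ^ 40 * (lo / 2 ^ 40) ≤ c * (lo / 2 ^ 40) :=
            mul_le_mul_of_nonneg_right hP (by positivity)
          have e : (P:ℝ) / 2 ^ 40 * (lo / 2 ^ 40) = P * lo / 2 ^ 80 := by ring
          rw [e] at h3
          refine le_trans ?_ h3
          gcongr
        · have h2 : min (P * lo) (Q * lo) ≤ Q * lo := min_le_right _ _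
          have h3 : (Q:ℝ) / 2 ^ 40 * (lo / 2 ^ 40) ≤ c * (lo / 2 ^ 40) :=
            mul_le_mul_of_nonpos_right hQ (div_nonpos_of_nonpos_of_nonneg h (by positivity))
          have e : (Q:ℝ) / 2 ^ 40 * (lo / 2 ^ 40) = Q * lo / 2 ^ 80 := by ring
          rw [e] at h3
          refine le_trans ?_ h3
          gcongr
      exact h1.trans (mul_le_mul_of_nonneg_left b1 hc0.le)
    have c2 : c * a ≤ max (Q * hi) (P * hi) / 2 ^ 80 := by
      refine (mul_le_mul_of_nonneg_left b2 hc0.le).trans ?_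
      rcases le_total 0 hi with h | h
      · have h2 : Q * hi ≤ max (Q * hi) (P * hi) := le_max_left _ _
        have h3 : c * (hi / 2 ^ 40) ≤ (Q:ℝ) / 2 ^ 40 * (hi / 2 ^ 40) :=
          mul_le_mul_of_nonneg_right hQ (by positivity)
        have e : (Q:ℝ) / 2 ^ 40 * (hi / 2 ^ 40) = Q * hi / 2 ^ 80 := by ring
        rw [e] at h3
        refine le_trans h3 ?_
        gcongr
      · have h2 : P * hi ≤ max (Q * hi) (P * hi) := le_max_right _ _
        have h3 : c * (hi / 2 ^ 40) ≤ (P:ℝ) / 2 ^ 40 * (hi / 2 ^ 40) :=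
          mul_le_mul_of_nonpos_right hP (div_nonpos_of_nonpos_of_nonneg h (by positivity))
        have e : (P:ℝ) / 2 ^ 40 * (hi / 2 ^ 40) = P * hi / 2 ^ 80 := by ring
        rw [e] at h3
        refine le_trans h3 ?_
        gcongr
    have c0 : 0 ≤ 1 + c * a := by
      rcases le_total 0 lo with h | h
      · have h2 : 0 ≤ a := le_trans (by positivity) b1
        have := mul_nonneg hc0.le h2
        linarith
      · have h3 : (Q:ℝ) / 2 ^ 40 * (lo / 2 ^ 40) ≤ c * (lo / 2 ^ 40) :=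
          mul_le_mul_of_nonpos_right hQ (div_nonpos_of_nonpos_of_nonneg h (by positivity))
        have h4 := mul_le_mul_of_nonneg_left b1 hc0.le
        have e : (Q:ℝ) / 2 ^ 40 * (lo / 2 ^ 40) = (1208925819614629174706176 + Q * lo) / 1208925819614629174706176 - 1 := by
          ring
        rw [e] at h3
        have h5 : 0 ≤ (1208925819614629174706176 + Q * lo) / 1208925819614629174706176 := div_nonneg r1 (by norm_num)
        linarith
    -- slope
    have a2 : 2 ^ 24 * (Ei c j * (1 + c * a)) ≤ lB T j := by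
      have h0 : 0 ≤ 1 + max (Q * hi) (P * hi) / 2 ^ 80 := by linarith
      have h1 : Ei c j * (1 + c * a) ≤ U' / 2 ^ 80 * (1 + max (Q * hi) (P * hi) / 2 ^ 80) :=
        mul_le_mul hU (by linarith) c0 (by positivity)
      have h2 : 2 ^ 24 * ((U' : ℝ) / 2 ^ 80 * (1 + max (Q * hi) (P * hi) / 2 ^ 80)) ≤ lB T j := by
        have e : 2 ^ 24 * ((U' : ℝ) / 2 ^ 80 * (1 + max (Q * hi) (P * hi) / 2 ^ 80)) =
            U' * (1208925819614629174706176 + max (Q * hi) (P * hi)) / 87112285931760246646623899502532662132736 := by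
          ring
        rw [e, div_le_iff₀ (by norm_num)]
        exact r2
      linarith
    -- intercept
    have a1 : (lA T j : ℝ) - off ≤ 2 ^ 24 * (Ei c j * (a + (1 + c * a) * V)) := by
      set K : ℝ := (1208925819614629174706176 * lo + (1208925819614629174706176 + min (P * lo) (Q * lo)) * (4294967296 * (j + 128))) with hK
      have h1 : K / 2 ^ 120 ≤ a + (1 + c * a) * V := by
        have e : K / 2 ^ 120 = lo / 2 ^ 40 + (1 + min (P * lo) (Q * lo) / 2 ^ 80) * V := by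
          rw [hK, hV]
          ring
        rw [e]
        gcongr
      have h2 : Ei c j * (K / 2 ^ 120) ≤ Ei c j * (a + (1 + c * a) * V) :=
        mul_le_mul_of_nonneg_left h1 hEp.le
      have h3 : ((lA T j : ℝ) - off) ≤ 2 ^ 24 * (Ei c j * (K / 2 ^ 120)) := by
        rcases le_total 0 K with h | h
        · have h4 : (L' : ℝ) / 2 ^ 80 * (K / 2 ^ 120) ≤ Ei c j * (K / 2 ^ 120) :=
            mul_le_mul_of_nonneg_right hL (by positivity)
          have e : 2 ^ 24 * ((L' : ℝ) / 2 ^ 80 * (K / 2 ^ 120)) = L' * K / 95780971304118053647396689196894323976171195136475136 := by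
            ring
          have h5 : ((lA T j : ℝ) - off) ≤ L' * K / 95780971304118053647396689196894323976171195136475136 := by
            rw [le_div_iff₀ (by norm_num)]
            exact r3
          linarith
        · have h4 : (U' : ℝ) / 2 ^ 80 * (K / 2 ^ 120) ≤ Ei c j * (K / 2 ^ 120) :=
            mul_le_mul_of_nonpos_right hU (div_nonpos_of_nonpos_of_nonneg h (by positivity))
          have e : 2 ^ 24 * ((U' : ℝ) / 2 ^ 80 * (K / 2 ^ 120)) = U' * K / 95780971304118053647396689196894323976171195136475136 := by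
            ring
          have h5 : ((lA T j : ℝ) - off) ≤ U' * K / 95780971304118053647396689196894323976171195136475136 := by
            rw [le_div_iff₀ (by norm_num)]
            exact r4
          linarith
      linarith
    -- tangent inequality
    have a3 : Ei c j * (a + (1 + c * a) * (V - v)) ≤
        Real.exp (c * (mm - v)) * (a0 - v) := by
      have h1 := tan1 (t := a0 - v) hc0 c0
      have e1 : a0 - v - a = V - v := by rw [ha]; ring
      rw [e1] at h1
      have e2 : Real.exp (c * a) = Real.exp (c * (a0 - mm)) * Ei c j := by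
        unfold Ei
        rw [← Real.exp_add]
        congr 1
        rw [ha, hV]
        ring
      have e3 : Real.exp (c * (a0 - v)) =
          Real.exp (c * (a0 - mm)) * Real.exp (c * (mm - v)) := by
        rw [← Real.exp_add]
        congr 1
        ring
      rw [e2, e3, mul_assoc, mul_assoc] at h1
      exact le_of_mul_le_mul_left h1 (Real.exp_pos _)
    have a4 := mul_le_mul_of_nonneg_right a2 hv
    have e5 : Ei c j * (a + (1 + c * a) * (V - v)) = Ei c j * (a + (1 + c * a) * V) -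
        Ei c j * (1 + c * a) * v := by ring
    rw [e5] at a3
    linarith
  · exact zero (hT j (by omega)).1

end Pool.Agent.U316.Ep
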