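import Pool.Agent.U316.Ep.Cert.P17
import Pool.Agent.U316.Ep.Cert.P18
import Pool.Agent.U316.Ep.Cert.P19
import Pool.Agent.U316.Ep.Cert.P20
import Pool.Agent.U316.Ep.Cert.P21
import Pool.Agent.U316.Ep.Cert.P22
import Pool.Agent.U316.Ep.Cert.P23
import Pool.Agent.U316.Ep.Cert.P24
import Pool.Agent.U316.Ep.Cert.P25
import Pool.Agent.U316.Ep.Cert.P26
import Pool.Agent.U316.Ep.Cert.P27
import Pool.Agent.U316.Ep.Cert.P28
import Pool.Agent.U316.Ep.Cert.P29
import Pool.Agent.U316.Ep.Cert.P30
import Pool.Agent.U316.Ep.Gd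

/-!
# Bisections
-/

set_option autoImplicit false
set_option maxRecDepth 100000

namespace Pool.Agent.U316.Ep

theorem t1_0 : Good (Q 9) [v347, v30, v348, v29, v26, v346] :=
  split_of 1 5 v349 1285482443 (by decide +kernel) (good_ofj c1_10) (good_ofj c1_11) rfl rfl

theorem t1_1 : Good (Q 9) [v347, v30, v348, v22, v26, v346] :=
  split_of 1 3 v29 1293604245 (by decide +kernel) (good_ofj c1_9) t1_0 rfl rfl

theorem t1_2 : Good (Q 9) [v347, v30, v345, v22, v26, v346] :=
  split_of 1 2 v348 1315051345 (by decide +kernel) (good_ofj c1_8) t1_1 rfl rfl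

theorem t1_3 : Good (Q 9) [v347, v30, v345, v22, v20, v346] :=
  split_of 1 4 v26 1292097425 (by decide +kernel) (good_ofj c1_7) t1_2 rfl rfl

theorem t1_4 : Good (Q 9) [v344, v30, v345, v22, v20, v346] :=
  split_of 0 1 v347 1313640791 (by decide +kernel) t1_3 (good_ofj c1_12) rfl rfl

theorem t1_5 : Good (Q 9) [v344, v30, v345, v22, v20, v342] :=
  split_of 1 5 v346 1289073195 (by decide +kernel) (good_ofj c1_6) t1_4 rfl rfl

theorem t1_6 : Good (Q 9) [v344, v30, v345, v10, v20, v342] :=
  split_of 1 3 v22 1303729140 (by decide +kernel) (good_ofj c1_5) t1_5 rfl rfl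

theorem t1_7 : Good (Q 9) [v347, v30, v32, v29, v26, v348] :=
  split_of 0 1 v350 1298242015 (by decide +kernel) (good_ofj c1_18) (good_ofj c1_19) rfl rfl

theorem t1_8 : Good (Q 9) [v347, v30, v32, v22, v26, v348] :=
  split_of 1 3 v29 1293604245 (by decide +kernel) (good_ofj c1_17) t1_7 rfl rfl

theorem t1_9 : Good (Q 9) [v347, v30, v31, v22, v26, v348] :=
  split_of 1 2 v32 1315706387 (by decide +kernel) (good_ofj c1_16) t1_8 rfl rfl

theorem t1_10 : Good (Q 9) [v347, v30, v31, v22, v26, v345] :=
  split_of 1 5 v348 1315051345 (by decide +kernel) (good_ofj c1_15) t1_9 rfl rfl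

theorem t1_11 : Good (Q 9) [v347, v30, v31, v22, v20, v345] :=
  split_of 1 4 v26 1292097425 (by decide +kernel) (good_ofj c1_14) t1_10 rfl rfl

theorem t1_12 : Good (Q 9) [v344, v30, v31, v22, v20, v345] :=
  split_of 0 1 v347 1313640791 (by decide +kernel) t1_11 (good_ofj c1_20) rfl rfl

theorem t1_13 : Good (Q 9) [v354, v43, v7, v353, v41, v352] :=
  split_of 2 5 v355 1351763844 (by decide +kernel) (good_ofj c1_25) (good_ofj c1_26) rfl rfl

theorem t1_14 : Good (Q 9) [v351, v43, v7, v353, v41, v352] :=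
  split_of 0 2 v354 1351504063 (by decide +kernel) t1_13 (good_ofj c1_27) rfl rfl

theorem t1_15 : Good (Q 9) [v351, v43, v7, v103, v41, v352] :=
  split_of 2 3 v353 1349522479 (by decide +kernel) (good_ofj c1_24) t1_14 rfl rfl

theorem t1_16 : Good (Q 9) [v356, v38, v43, v103, v41, v352] :=
  split_of 1 5 v357 1343006453 (by decide +kernel) (good_ofj c1_28) (good_ofj c1_29) rfl rfl

theorem t1_17 : Good (Q 9) [v351, v38, v43, v103, v41, v352] :=
  split_of 0 1 v356 1342711840 (by decide +kernel) t1_16 (good_ofj c1_30) rfl rfl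

theorem t1_18 : Good (Q 9) [v351, v38, v7, v103, v41, v352] :=
  split_of 1 2 v43 1347746544 (by decide +kernel) t1_15 t1_17 rfl rfl

theorem t1_19 : Good (Q 9) [v351, v38, v7, v103, v31, v352] :=
  split_of 2 4 v41 1349100556 (by decide +kernel) (good_ofj c1_23) t1_18 rfl rfl

theorem t1_20 : Good (Q 9) [v351, v38, v7, v103, v31, v345] :=
  split_of 2 5 v352 1348588359 (by decide +kernel) (good_ofj c1_22) t1_19 rfl rfl

theorem t1_21 : Good (Q 9) [v344, v38, v7, v103, v31, v345] :=
  split_of 0 2 v351 1347496915 (by decide +kernel) t1_20 (good_ofj c1_31) rfl rfl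

theorem t1_22 : Good (Q 9) [v344, v38, v7, v22, v31, v345] :=
  split_of 2 3 v103 1339964634 (by decide +kernel) (good_ofj c1_21) t1_21 rfl rfl

theorem t1_23 : Good (Q 8) [v347, v348, v38, v25, v31, v358] :=
  split_of 0 4 v359 1328440635 (by decide +kernel) (good_ofj c1_34) (good_ofj c1_35) rfl rfl

theorem t1_24 : Good (Q 8) [v347, v348, v38, v25, v31, v345] :=
  split_of 2 5 v358 1336275849 (by decide +kernel) (good_ofj c1_33) t1_23 rfl rfl

theorem t1_25 : Good (Q 9) [v347, v348, v38, v25, v31, v345] :=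
  P_of 8 9 0xfffffffffffffffffffffffffffffffffff3b0eb3ccf52c4af2e0ba2ccb32d8b7ffffffffffffffffffffffffffffff2e0b938ce239ce9fffff2c4af2e0b92e0b9
    (by decide +kernel) t1_24

theorem t1_26 : Good (Q 9) [v347, v348, v38, v22, v31, v345] :=
  split_of 2 3 v25 1321013612 (by decide +kernel) (good_ofj c1_32) t1_25 rfl rfl

theorem t1_27 : Good (Q 8) [v347, v32, v38, v22, v31, v348] :=
  split_of 2 3 v25 1321013612 (by decide +kernel) (good_ofj c1_36) (good_ofj c1_37) rfl rfl

theorem t1_28 : Good (Q 9) [v347, v32, v38, v22, v31, v348] :=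
  P_of 8 9 0xffffffffffffffffffffffffffffff5cd723b8ef3c4f22b8ad2dcb72d4b52dcb8ffffffffffffffffffffffffffffff2e4ba38ce23a0e8fffff2c8b12d4b52e4ba
    (by decide +kernel) t1_27

theorem t1_29 : Good (Q 9) [v360, v54, v38, v53, v32, v348] :=
  split_of 2 5 v361 1325072467 (by decide +kernel) (good_ofj c1_40) (good_ofj c1_41) rfl rfl

theorem t1_30 : Good (Q 9) [v347, v54, v38, v53, v32, v348] :=
  split_of 0 2 v360 1324737533 (by decide +kernel) t1_29 (good_ofj c1_42) rfl rfl

theorem t1_31 : Good (Q 9) [v347, v54, v38, v29, v32, v348] :=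
  split_of 2 3 v53 1316091829 (by decide +kernel) (good_ofj c1_39) t1_30 rfl rfl

theorem t1_32 : Good (Q 7) [v350, v362, v54, v29, v32, v348] :=
  split_of 3 5 v363 1305239268 (by decide +kernel) (good_ofj c1_43) (good_ofj c1_44) rfl rfl

theorem t1_33 : Good (Q 8) [v350, v362, v54, v29, v32, v348] :=
  P_of 7 8 0xffffffffffffffffffffffffffffff4f93f4090241d052b8ad2d0b32c4b22d0b4ffffffffffffffffffffffffffffff2f8bf344d134cd4731cb2e0b82f0ba2f8bf
    (by decide +kernel) t1_32

theorem t1_34 : Good (Q 9) [v350, v362, v54, v29, v32, v348] :=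
  P_of 8 9 0xffffffffffffffffffffffffffffff5013f40902415062bcae2ccb32c4b12d0b4ffffffffffffffffffffffffffffff2f8be348d134cd3fffff2e0b82f0bb2f8be
    (by decide +kernel) t1_33

theorem t1_35 : Good (Q 9) [v350, v30, v54, v29, v32, v348] :=
  split_of 1 5 v362 1298624358 (by decide +kernel) t1_34 (good_ofj c1_45) rfl rfl

theorem t1_36 : Good (Q 8) [v347, v350, v54, v29, v32, v348] :=
  split_of 0 3 v364 1304891300 (by decide +kernel) (good_ofj c1_46) (good_ofj c1_47) rfl rfl

theorem t1_37 : Good (Q 9) [v347, v350, v54, v29, v32, v348] :=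
  P_of 8 9 0xffffffffffffffffffffffffffffff5054140902411052b8ad2d0b42c8b22ccb4ffffffffffffffffffffffffffffff2f8be344d1354d5fffff2e0b82ecbb2f8be
    (by decide +kernel) t1_36

theorem t1_38 : Good (Q 9) [v347, v30, v54, v29, v32, v348] :=
  split_of 0 1 v350 1298242015 (by decide +kernel) t1_35 t1_37 rfl rfl

theorem t1_39 : Good (Q 9) [v347, v30, v38, v29, v32, v348] :=
  split_of 1 2 v54 1309864426 (by decide +kernel) t1_31 t1_38 rfl rfl

theorem t1_40 : Good (Q 9) [v347, v30, v38, v22, v32, v348] :=
  split_of 1 3 v29 1293604245 (by decide +kernel) (good_ofj c1_38) t1_39 rfl rfl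

theorem t1_41 : Good (Q 9) [v347, v30, v38, v22, v31, v348] :=
  split_of 1 4 v32 1315706387 (by decide +kernel) t1_28 t1_40 rfl rfl

theorem t1_42 : Good (Q 9) [v347, v30, v38, v22, v31, v345] :=
  split_of 1 5 v348 1315051345 (by decide +kernel) t1_26 t1_41 rfl rfl

theorem t1_43 : Good (Q 8) [v365, v347, v38, v22, v31, v345] :=
  split_of 3 5 v366 1323523715 (by decide +kernel) (good_ofj c1_48) (good_ofj c1_49) rfl rfl

theorem t1_44 : Good (Q 9) [v365, v347, v38, v22, v31, v345] :=
  P_of 8 9 0xfffffffffffffffffffffffffffffffffff3b8ed3ccf32b8ae2e0b82d4b42e0b9ffffffffffffffffffffffffffffff2e8ba388e33a0e8fffff2c4b02d4b52e8ba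
    (by decide +kernel) t1_43

theorem t1_45 : Good (Q 9) [v344, v347, v38, v22, v31, v345] :=
  split_of 0 2 v365 1335037006 (by decide +kernel) t1_44 (good_ofj c1_50) rfl rfl

theorem t1_46 : Good (Q 9) [v344, v30, v38, v22, v31, v345] :=
  split_of 0 1 v347 1313640791 (by decide +kernel) t1_42 t1_45 rfl rfl

theorem t1_47 : Good (Q 9) [v344, v30, v7, v22, v31, v345] :=
  split_of 1 2 v38 1333169107 (by decide +kernel) t1_22 t1_46 rfl rfl

theorem t1_48 : Good (Q 9) [v344, v30, v7, v22, v20, v345] :=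
  split_of 2 4 v31 1338335496 (by decide +kernel) t1_12 t1_47 rfl rfl

theorem t1_49 : Good (Q 9) [v344, v30, v7, v10, v20, v345] :=
  split_of 1 3 v22 1303729140 (by decide +kernel) (good_ofj c1_13) t1_48 rfl rfl

theorem t1_50 : Good (Q 9) [v344, v30, v7, v10, v20, v342] :=
  split_of 2 5 v345 1335968999 (by decide +kernel) t1_6 t1_49 rfl rfl

theorem t1_51 : Good (Q 10) [v344, v30, v7, v10, v20, v342] :=
  env_E _ t1_50

theorem t1_52 : Good (Q 9) [v368, v30, v347, v22, v26, v346] :=
  split_of 1 3 v29 1293604245 (by decide +kernel) (good_ofj c1_55) (good_ofj c1_56) rfl rfl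

theorem t1_53 : Good (Q 9) [v367, v30, v347, v22, v26, v346] :=
  split_of 0 1 v368 1283868635 (by decide +kernel) t1_52 (good_ofj c1_57) rfl rfl

theorem t1_54 : Good (Q 9) [v367, v30, v347, v22, v20, v346] :=
  split_of 1 4 v26 1292097425 (by decide +kernel) (good_ofj c1_54) t1_53 rfl rfl

theorem t1_55 : Good (Q 9) [v367, v30, v344, v22, v20, v346] :=
  split_of 1 2 v347 1313640791 (by decide +kernel) (good_ofj c1_53) t1_54 rfl rfl

theorem t1_56 : Good (Q 9) [v367, v30, v344, v10, v20, v346] :=
  split_of 1 3 v22 1303729140 (by decide +kernel) (good_ofj c1_52) t1_55 rfl rfl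

theorem t1_57 : Good (Q 10) [v367, v30, v344, v10, v20, v346] :=
  env_E _ t1_56

theorem t1_58 : Good (Q 10) [v367, v30, v344, v10, v20, v342] :=
  split_of 1 5 v346 1289073195 (by decide +kernel) (good_ofj c1_51) t1_57 rfl rfl

theorem t1_59 : Good (Q 10) [v343, v30, v344, v10, v20, v342] :=
  split_of 0 1 v367 1282767547 (by decide +kernel) t1_58 (good_ofj c1_58) rfl rfl

theorem t1_60 : Good (Q 10) [v343, v30, v7, v10, v20, v342] :=
  split_of 0 2 v344 1331125411 (by decide +kernel) t1_51 t1_59 rfl rfl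

theorem t1_61 : Good (Q 10) [v343, v30, v7, v10, v1, v342] :=
  split_of 1 4 v20 1297535559 (by decide +kernel) (good_ofj c1_4) t1_60 rfl rfl

theorem t1_62 : Good (Q 10) [v343, v30, v7, v3, v1, v342] :=
  split_of 1 3 v10 1307275754 (by decide +kernel) (good_ofj c1_3) t1_61 rfl rfl

theorem t1_63 : Good (Q 10) [v369, v343, v7, v370, v1, v342] :=
  split_of 2 4 v13 1334301791 (by decide +kernel) (good_ofj c1_60) (good_ofj c1_61) rfl rfl

theorem t1_64 : Good (Q 10) [v369, v343, v7, v3, v1, v342] :=
  split_of 2 3 v370 1324037525 (by decide +kernel) (good_ofj c1_59) t1_63 rfl rfl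

theorem t1_65 : Good (Q 10) [v339, v343, v7, v3, v1, v342] :=
  split_of 0 2 v369 1305386625 (by decide +kernel) t1_64 (good_ofj c1_62) rfl rfl

theorem t1_66 : Good (Q 10) [v339, v30, v7, v3, v1, v342] :=
  split_of 0 1 v343 1260336929 (by decide +kernel) t1_62 t1_65 rfl rfl

theorem t1_67 : Good (Q 10) [v339, v30, v7, v3, v1, v340] :=
  split_of 1 5 v342 1284967838 (by decide +kernel) (good_ofj c1_2) t1_66 rfl rfl

theorem t1_68 : Good (Q 10) [v339, v30, v7, v3, v4, v340] :=
  split_of 1 4 v1 1280313892 (by decide +kernel) (good_ofj c1_1) t1_67 rfl rfl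

theorem t1_69 : Good (Q 10) [v339, v30, v7, v3, v4, v341] :=
  split_of 1 5 v340 1222692218 (by decide +kernel) (good_ofj c1_0) t1_68 rfl rfl

theorem t1_70 : Good (Q 10) [v66, v343, v7, v3, v1, v369] :=
  split_of 2 3 v370 1324037525 (by decide +kernel) (good_ofj c1_65) (good_ofj c1_66) rfl rfl

theorem t1_71 : Good (Q 10) [v62, v343, v7, v3, v1, v369] :=
  split_of 0 2 v66 1315710025 (by decide +kernel) t1_70 (good_ofj c1_67) rfl rfl

theorem t1_72 : Good (Q 10) [v62, v343, v7, v3, v1, v339] :=
  split_of 2 5 v369 1305386625 (by decide +kernel) (good_ofj c1_64) t1_71 rfl rfl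

theorem t1_73 : Good (Q 10) [v65, v10, v7, v3, v1, v343] :=
  split_of 3 5 v371 1293694543 (by decide +kernel) (good_ofj c1_68) (good_ofj c1_69) rfl rfl

theorem t1_74 : Good (Q 10) [v62, v10, v7, v3, v1, v343] :=
  split_of 0 3 v65 1269404413 (by decide +kernel) t1_73 (good_ofj c1_70) rfl rfl

theorem t1_75 : Good (Q 9) [v66, v30, v344, v22, v20, v367] :=
  split_of 0 1 v69 1313961803 (by decide +kernel) (good_ofj c1_74) (good_ofj c1_75) rfl rfl

theorem t1_76 : Good (Q 9) [v66, v30, v344, v10, v20, v367] :=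
  split_of 1 3 v22 1303729140 (by decide +kernel) (good_ofj c1_73) t1_75 rfl rfl

theorem t1_77 : Good (Q 10) [v66, v30, v344, v10, v20, v367] :=
  env_E _ t1_76

theorem t1_78 : Good (Q 10) [v66, v30, v344, v10, v20, v343] :=
  split_of 1 5 v367 1282767547 (by decide +kernel) (good_ofj c1_72) t1_77 rfl rfl

theorem t1_79 : Good (Q 9) [v71, v30, v25, v22, v26, v347] :=
  split_of 1 3 v29 1293604245 (by decide +kernel) (good_ofj c1_80) (good_ofj c1_81) rfl rfl

theorem t1_80 : Good (Q 9) [v69, v30, v25, v22, v26, v347] :=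
  split_of 0 1 v71 1300475931 (by decide +kernel) t1_79 (good_ofj c1_82) rfl rfl

theorem t1_81 : Good (Q 9) [v69, v30, v25, v22, v20, v347] :=
  split_of 1 4 v26 1292097425 (by decide +kernel) (good_ofj c1_79) t1_80 rfl rfl

theorem t1_82 : Good (Q 9) [v69, v30, v25, v22, v20, v344] :=
  split_of 1 5 v347 1313640791 (by decide +kernel) (good_ofj c1_78) t1_81 rfl rfl

theorem t1_83 : Good (Q 9) [v69, v30, v23, v22, v20, v344] :=
  split_of 1 2 v25 1321013612 (by decide +kernel) (good_ofj c1_77) t1_82 rfl rfl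

theorem t1_84 : Good (Q 9) [v66, v30, v23, v22, v20, v344] :=
  split_of 0 1 v69 1313961803 (by decide +kernel) t1_83 (good_ofj c1_83) rfl rfl

theorem t1_85 : Good (Q 9) [v66, v30, v23, v10, v20, v344] :=
  split_of 1 3 v22 1303729140 (by decide +kernel) (good_ofj c1_76) t1_84 rfl rfl

theorem t1_86 : Good (Q 9) [v71, v30, v32, v33, v26, v347] :=
  split_of 1 5 v350 1298242015 (by decide +kernel) (good_ofj c1_89) (good_ofj c1_90) rfl rfl

theorem t1_87 : Good (Q 9) [v71, v30, v32, v25, v26, v347] :=
  split_of 1 3 v33 1302360762 (by decide +kernel) (good_ofj c1_88) t1_86 rfl rfl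

theorem t1_88 : Good (Q 9) [v69, v30, v32, v25, v26, v347] :=
  split_of 0 1 v71 1300475931 (by decide +kernel) t1_87 (good_ofj c1_91) rfl rfl

theorem t1_89 : Good (Q 9) [v69, v30, v31, v25, v26, v347] :=
  split_of 1 2 v32 1315706387 (by decide +kernel) (good_ofj c1_87) t1_88 rfl rfl

theorem t1_90 : Good (Q 9) [v69, v30, v31, v25, v20, v347] :=
  split_of 1 4 v26 1292097425 (by decide +kernel) (good_ofj c1_86) t1_89 rfl rfl

theorem t1_91 : Good (Q 9) [v69, v30, v31, v25, v20, v344] :=
  split_of 1 5 v347 1313640791 (by decide +kernel) (good_ofj c1_85) t1_90 rfl rfl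

theorem t1_92 : Good (Q 9) [v69, v30, v31, v23, v20, v344] :=
  split_of 1 3 v25 1321013612 (by decide +kernel) (good_ofj c1_84) t1_91 rfl rfl

theorem t1_93 : Good (Q 9) [v74, v43, v7, v39, v41, v354] :=
  split_of 2 3 v44 1352069164 (by decide +kernel) (good_ofj c1_96) (good_ofj c1_97) rfl rfl

theorem t1_94 : Good (Q 9) [v74, v43, v7, v39, v41, v351] :=
  split_of 2 5 v354 1351504063 (by decide +kernel) (good_ofj c1_95) t1_93 rfl rfl

theorem t1_95 : Good (Q 9) [v72, v43, v7, v39, v41, v351] :=
  split_of 0 2 v74 1350336185 (by decide +kernel) t1_94 (good_ofj c1_98) rfl rfl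

theorem t1_96 : Good (Q 9) [v72, v38, v43, v46, v41, v351] :=
  split_of 1 5 v356 1342711840 (by decide +kernel) (good_ofj c1_100) (good_ofj c1_101) rfl rfl

theorem t1_97 : Good (Q 9) [v72, v38, v43, v39, v41, v351] :=
  split_of 1 3 v46 1344546372 (by decide +kernel) (good_ofj c1_99) t1_96 rfl rfl

theorem t1_98 : Good (Q 9) [v72, v38, v7, v39, v41, v351] :=
  split_of 1 2 v43 1347746544 (by decide +kernel) t1_95 t1_97 rfl rfl

theorem t1_99 : Good (Q 9) [v72, v38, v7, v39, v31, v351] :=
  split_of 2 4 v41 1349100556 (by decide +kernel) (good_ofj c1_94) t1_98 rfl rfl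

theorem t1_100 : Good (Q 9) [v72, v38, v7, v23, v31, v351] :=
  split_of 2 3 v39 1349823198 (by decide +kernel) (good_ofj c1_93) t1_99 rfl rfl

theorem t1_101 : Good (Q 9) [v72, v38, v7, v23, v31, v344] :=
  split_of 2 5 v351 1347496915 (by decide +kernel) (good_ofj c1_92) t1_100 rfl rfl

theorem t1_102 : Good (Q 9) [v69, v38, v7, v23, v31, v344] :=
  split_of 0 2 v72 1342973725 (by decide +kernel) t1_101 (good_ofj c1_102) rfl rfl

theorem t1_103 : Good (Q 8) [v69, v25, v38, v23, v31, v365] :=
  split_of 0 3 v94 1332559493 (by decide +kernel) (good_ofj c1_104) (good_ofj c1_105) rfl rfl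

theorem t1_104 : Good (Q 9) [v69, v25, v38, v23, v31, v365] :=
  P_of 8 9 0xfffffffffffffffffffffffffffffffffff3a8eb3aceb2bcae2e4bb2d8b62e8baffffffffffffffffffffffffffffff2e8bc3a0e63bceffffff2c0af2ccb32e4b9
    (by decide +kernel) t1_103

theorem t1_105 : Good (Q 9) [v69, v25, v38, v23, v31, v344] :=
  split_of 2 5 v365 1335037006 (by decide +kernel) (good_ofj c1_103) t1_104 rfl rfl

theorem t1_106 : Good (Q 9) [v69, v347, v38, v25, v31, v344] :=
  split_of 2 5 v365 1335037006 (by decide +kernel) (good_ofj c1_106) (good_ofj c1_107) rfl rfl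

theorem t1_107 : Good (Q 9) [v79, v54, v38, v25, v32, v360] :=
  split_of 1 3 v53 1316091829 (by decide +kernel) (good_ofj c1_110) (good_ofj c1_111) rfl rfl

theorem t1_108 : Good (Q 9) [v79, v54, v38, v25, v32, v347] :=
  split_of 2 5 v360 1324737533 (by decide +kernel) (good_ofj c1_109) t1_107 rfl rfl

theorem t1_109 : Good (Q 9) [v71, v54, v38, v25, v32, v347] :=
  split_of 0 2 v79 1319049667 (by decide +kernel) t1_108 (good_ofj c1_112) rfl rfl

theorem t1_110 : Good (Q 7) [v71, v33, v54, v25, v32, v347] :=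
  split_of 0 3 v83 1311940093 (by decide +kernel) (good_ofj c1_113) (good_ofj c1_114) rfl rfl

theorem t1_111 : Good (Q 8) [v71, v33, v54, v25, v32, v347] :=
  P_of 7 8 0xffffffffffffffffffffffffffffff51148408ff409012b4ad2d0b52c8b22d0b3ffffffffffffffffffffffffffffff2fcbe348d335cd9715bf2e0b72e8ba2f4bc
    (by decide +kernel) t1_110

theorem t1_112 : Good (Q 9) [v71, v33, v54, v25, v32, v347] :=
  P_of 8 9 0xffffffffffffffffffffffffffffff5114240502409022b8ad2d0b52c8b22ccb3ffffffffffffffffffffffffffffff2f8bf348d035cd7fffff2e0b82e8ba2f4bd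
    (by decide +kernel) t1_111

theorem t1_113 : Good (Q 9) [v71, v30, v54, v33, v32, v347] :=
  split_of 1 5 v350 1298242015 (by decide +kernel) (good_ofj c1_115) (good_ofj c1_116) rfl rfl

theorem t1_114 : Good (Q 9) [v71, v30, v54, v25, v32, v347] :=
  split_of 1 3 v33 1302360762 (by decide +kernel) t1_112 t1_113 rfl rfl

theorem t1_115 : Good (Q 9) [v71, v30, v38, v25, v32, v347] :=
  split_of 1 2 v54 1309864426 (by decide +kernel) t1_109 t1_114 rfl rfl

theorem t1_116 : Good (Q 9) [v69, v30, v38, v25, v32, v347] :=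
  split_of 0 1 v71 1300475931 (by decide +kernel) t1_115 (good_ofj c1_117) rfl rfl

theorem t1_117 : Good (Q 9) [v69, v30, v38, v25, v31, v347] :=
  split_of 1 4 v32 1315706387 (by decide +kernel) (good_ofj c1_108) t1_116 rfl rfl

theorem t1_118 : Good (Q 9) [v69, v30, v38, v25, v31, v344] :=
  split_of 1 5 v347 1313640791 (by decide +kernel) t1_106 t1_117 rfl rfl

theorem t1_119 : Good (Q 9) [v69, v30, v38, v23, v31, v344] :=
  split_of 1 3 v25 1321013612 (by decide +kernel) t1_105 t1_118 rfl rfl

theorem t1_120 : Good (Q 9) [v69, v30, v7, v23, v31, v344] :=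
  split_of 1 2 v38 1333169107 (by decide +kernel) t1_102 t1_119 rfl rfl

theorem t1_121 : Good (Q 9) [v69, v30, v7, v23, v20, v344] :=
  split_of 2 4 v31 1338335496 (by decide +kernel) t1_92 t1_120 rfl rfl

theorem t1_122 : Good (Q 9) [v66, v30, v7, v23, v20, v344] :=
  split_of 0 1 v69 1313961803 (by decide +kernel) t1_121 (good_ofj c1_118) rfl rfl

theorem t1_123 : Good (Q 9) [v66, v30, v7, v10, v20, v344] :=
  split_of 2 3 v23 1341057865 (by decide +kernel) t1_85 t1_122 rfl rfl

theorem t1_124 : Good (Q 10) [v66, v30, v7, v10, v20, v344] :=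
  env_E _ t1_123

theorem t1_125 : Good (Q 10) [v66, v30, v7, v10, v20, v343] :=
  split_of 2 5 v344 1331125411 (by decide +kernel) t1_78 t1_124 rfl rfl

theorem t1_126 : Good (Q 10) [v66, v30, v7, v10, v1, v343] :=
  split_of 1 4 v20 1297535559 (by decide +kernel) (good_ofj c1_71) t1_125 rfl rfl

theorem t1_127 : Good (Q 10) [v62, v30, v7, v10, v1, v343] :=
  split_of 0 2 v66 1315710025 (by decide +kernel) t1_126 (good_ofj c1_119) rfl rfl

theorem t1_128 : Good (Q 10) [v62, v30, v7, v3, v1, v343] :=
  split_of 1 3 v10 1307275754 (by decide +kernel) t1_74 t1_127 rfl rfl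

theorem t1_129 : Good (Q 10) [v62, v30, v7, v3, v1, v339] :=
  split_of 1 5 v343 1260336929 (by decide +kernel) t1_72 t1_128 rfl rfl

theorem t1_130 : Good (Q 10) [v62, v30, v7, v3, v4, v339] :=
  split_of 1 4 v1 1280313892 (by decide +kernel) (good_ofj c1_63) t1_129 rfl rfl

theorem t1_131 : Good (Q 10) [v84, v30, v369, v10, v372, v343] :=
  split_of 0 3 v373 1291523910 (by decide +kernel) (good_ofj c1_124) (good_ofj c1_125) rfl rfl

theorem t1_132 : Good (Q 10) [v84, v30, v369, v10, v65, v343] :=
  split_of 1 4 v372 1302661384 (by decide +kernel) (good_ofj c1_123) t1_131 rfl rfl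

theorem t1_133 : Good (Q 10) [v84, v30, v369, v3, v65, v343] :=
  split_of 1 3 v10 1307275754 (by decide +kernel) (good_ofj c1_122) t1_132 rfl rfl

theorem t1_134 : Good (Q 10) [v84, v30, v369, v3, v62, v343] :=
  split_of 3 4 v65 1269404413 (by decide +kernel) (good_ofj c1_121) t1_133 rfl rfl

theorem t1_135 : Good (Q 10) [v84, v30, v369, v3, v62, v339] :=
  split_of 1 5 v343 1260336929 (by decide +kernel) (good_ofj c1_120) t1_134 rfl rfl

theorem t1_136 : Good (Q 10) [v84, v10, v7, v3, v65, v369] :=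
  split_of 0 3 v85 1278344175 (by decide +kernel) (good_ofj c1_127) (good_ofj c1_128) rfl rfl

theorem t1_137 : Good (Q 10) [v84, v10, v7, v3, v62, v369] :=
  split_of 3 4 v65 1269404413 (by decide +kernel) (good_ofj c1_126) t1_136 rfl rfl

theorem t1_138 : Good (Q 9) [v87, v374, v7, v10, v66, v375] :=
  split_of 2 3 v23 1341057865 (by decide +kernel) (good_ofj c1_131) (good_ofj c1_132) rfl rfl

theorem t1_139 : Good (Q 9) [v87, v374, v7, v10, v66, v369] :=
  split_of 2 5 v375 1341729738 (by decide +kernel) (good_ofj c1_130) t1_138 rfl rfl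

theorem t1_140 : Good (Q 9) [v88, v30, v25, v22, v71, v376] :=
  split_of 0 1 v89 1300877891 (by decide +kernel) (good_ofj c1_138) (good_ofj c1_139) rfl rfl

theorem t1_141 : Good (Q 9) [v88, v30, v25, v22, v69, v376] :=
  split_of 1 4 v71 1300475931 (by decide +kernel) (good_ofj c1_137) t1_140 rfl rfl

theorem t1_142 : Good (Q 9) [v88, v30, v25, v22, v69, v374] :=
  split_of 1 5 v376 1299775629 (by decide +kernel) (good_ofj c1_136) t1_141 rfl rfl

theorem t1_143 : Good (Q 9) [v88, v30, v23, v22, v69, v374] :=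
  split_of 1 2 v25 1321013612 (by decide +kernel) (good_ofj c1_135) t1_142 rfl rfl

theorem t1_144 : Good (Q 9) [v87, v30, v23, v22, v69, v374] :=
  split_of 0 1 v88 1315710025 (by decide +kernel) t1_143 (good_ofj c1_140) rfl rfl

theorem t1_145 : Good (Q 9) [v87, v30, v23, v22, v66, v374] :=
  split_of 1 4 v69 1313961803 (by decide +kernel) (good_ofj c1_134) t1_144 rfl rfl

theorem t1_146 : Good (Q 9) [v87, v30, v23, v10, v66, v374] :=
  split_of 1 3 v22 1303729140 (by decide +kernel) (good_ofj c1_133) t1_145 rfl rfl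

theorem t1_147 : Good (Q 9) [v91, v72, v7, v39, v90, v377] :=
  split_of 2 4 v110 1350610654 (by decide +kernel) (good_ofj c1_144) (good_ofj c1_145) rfl rfl

theorem t1_148 : Good (Q 9) [v91, v72, v7, v23, v90, v377] :=
  split_of 2 3 v39 1349823198 (by decide +kernel) (good_ofj c1_143) t1_147 rfl rfl

theorem t1_149 : Good (Q 9) [v91, v69, v7, v23, v90, v377] :=
  split_of 1 2 v72 1342973725 (by decide +kernel) t1_148 (good_ofj c1_146) rfl rfl

theorem t1_150 : Good (Q 9) [v91, v69, v7, v23, v90, v374] :=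
  split_of 2 5 v377 1342428891 (by decide +kernel) (good_ofj c1_142) t1_149 rfl rfl

theorem t1_151 : Good (Q 9) [v87, v69, v7, v23, v90, v374] :=
  split_of 0 2 v91 1345746917 (by decide +kernel) t1_150 (good_ofj c1_147) rfl rfl

theorem t1_152 : Good (Q 9) [v87, v69, v7, v23, v66, v374] :=
  split_of 2 4 v90 1343852908 (by decide +kernel) (good_ofj c1_141) t1_151 rfl rfl

theorem t1_153 : Good (Q 9) [v88, v38, v377, v23, v69, v378] :=
  split_of 3 4 v94 1332559493 (by decide +kernel) (good_ofj c1_149) (good_ofj c1_150) rfl rfl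

theorem t1_154 : Good (Q 9) [v88, v38, v377, v23, v69, v374] :=
  split_of 3 5 v378 1331920927 (by decide +kernel) (good_ofj c1_148) t1_153 rfl rfl

theorem t1_155 : Good (Q 9) [v88, v38, v72, v23, v69, v377] :=
  split_of 3 4 v94 1332559493 (by decide +kernel) (good_ofj c1_151) (good_ofj c1_152) rfl rfl

theorem t1_156 : Good (Q 7) [v95, v43, v379, v39, v72, v377] :=
  split_of 3 5 v380 1347483044 (by decide +kernel) (good_ofj c1_154) (good_ofj c1_155) rfl rfl

theorem t1_157 : Good (Q 8) [v95, v43, v379, v39, v72, v377] :=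
  P_of 7 8 0xffffffffffffffffffffffffffffff70dc1350d4358d72dcb62f8bd2ecbb2f4beffffffffffffffffffffffffffffff2d0b53f8fe41103519472b8ad2c4b12d0b5
    (by decide +kernel) t1_156

theorem t1_158 : Good (Q 9) [v95, v43, v379, v39, v72, v377] :=
  P_of 8 9 0xfffffffffffffffffffffffffffffffffff350d4358d62dcb52f4be2f0bc2f0beffffffffffffffffffffffffffffff2d0b53f4fe40d0551d452bcae2c4b02d0b5
    (by decide +kernel) t1_157

theorem t1_159 : Good (Q 7) [v95, v43, v74, v39, v72, v379] :=
  split_of 3 4 v97 1347616540 (by decide +kernel) (good_ofj c1_156) (good_ofj c1_157) rfl rfl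

theorem t1_160 : Good (Q 8) [v95, v43, v74, v39, v72, v379] :=
  P_of 7 8 0xffffffffffffffffffffffffffffff715c4350d4354d52d8b62f8be2f0bb2f8beffffffffffffffffffffffffffffff2d4b53fcff41504511452b8ae2c0b02d0b4
    (by decide +kernel) t1_159

theorem t1_161 : Good (Q 9) [v95, v43, v74, v39, v72, v379] :=
  P_of 8 9 0xfffffffffffffffffffffffffffffffffff350d4354d52dcb72f8be2ecbc2f4beffffffffffffffffffffffffffffff2d0b53fcff41105511442bcae2c4b02ccb4
    (by decide +kernel) t1_160

theorem t1_162 : Good (Q 9) [v98, v43, v99, v100, v74, v379] :=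
  split_of 1 5 v381 1349299014 (by decide +kernel) (good_ofj c1_161) (good_ofj c1_162) rfl rfl

theorem t1_163 : Good (Q 9) [v98, v43, v99, v44, v74, v379] :=
  split_of 1 3 v100 1350710315 (by decide +kernel) (good_ofj c1_160) t1_162 rfl rfl

theorem t1_164 : Good (Q 9) [v98, v43, v7, v44, v74, v379] :=
  split_of 1 2 v99 1351535087 (by decide +kernel) (good_ofj c1_159) t1_163 rfl rfl

theorem t1_165 : Good (Q 9) [v98, v43, v7, v39, v74, v379] :=
  split_of 2 3 v44 1352069164 (by decide +kernel) (good_ofj c1_158) t1_164 rfl rfl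

theorem t1_166 : Good (Q 7) [v95, v43, v98, v39, v74, v379] :=
  split_of 0 3 v102 1347724011 (by decide +kernel) (good_ofj c1_163) (good_ofj c1_164) rfl rfl

theorem t1_167 : Good (Q 8) [v95, v43, v98, v39, v74, v379] :=
  P_of 7 8 0xffffffffffffffffffffffffffffff725c6348d334cd52dcb62fcbd2f0bc2f8beffffffffffffffffffffffffffffff2d4b53fcff41d05501432b8ae2c0b02ccb4
    (by decide +kernel) t1_166

theorem t1_168 : Good (Q 9) [v95, v43, v98, v39, v74, v379] :=
  P_of 8 9 0xfffffffffffffffffffffffffffffffffff34cd2350d32dcb72fcbf2f0bc2f4beffffffffffffffffffffffffffffff2d0b53fcff41d07505402bcae2c4b02ccb3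
    (by decide +kernel) t1_167

theorem t1_169 : Good (Q 9) [v95, v43, v7, v39, v74, v379] :=
  split_of 0 2 v98 1350444950 (by decide +kernel) t1_165 t1_168 rfl rfl

theorem t1_170 : Good (Q 9) [v95, v43, v7, v39, v72, v379] :=
  split_of 2 4 v74 1350336185 (by decide +kernel) t1_161 t1_169 rfl rfl

theorem t1_171 : Good (Q 9) [v95, v43, v7, v39, v72, v377] :=
  split_of 2 5 v379 1350213587 (by decide +kernel) t1_158 t1_170 rfl rfl

theorem t1_172 : Good (Q 9) [v95, v38, v43, v39, v72, v377] :=
  split_of 1 3 v46 1344546372 (by decide +kernel) (good_ofj c1_165) (good_ofj c1_166) rfl rfl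

theorem t1_173 : Good (Q 9) [v95, v38, v7, v39, v72, v377] :=
  split_of 1 2 v43 1347746544 (by decide +kernel) t1_171 t1_172 rfl rfl

theorem t1_174 : Good (Q 9) [v95, v38, v7, v23, v72, v377] :=
  split_of 2 3 v39 1349823198 (by decide +kernel) (good_ofj c1_153) t1_173 rfl rfl

theorem t1_175 : Good (Q 9) [v88, v38, v95, v103, v72, v377] :=
  P_of 8 9 0xfffffffffffffffffffffffffffffffffff3acea3aced2c0af2e8ba2e0b82d4b5ffffffffffffffffffffffffffffff2e0b8390e33c4f1fffff2ccb22d0b42dcb8
    (by decide +kernel) (good_ofj c1_168)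

theorem t1_176 : Good (Q 9) [v88, v38, v95, v23, v72, v377] :=
  split_of 1 3 v103 1339964634 (by decide +kernel) (good_ofj c1_167) t1_175 rfl rfl

theorem t1_177 : Good (Q 9) [v88, v38, v7, v23, v72, v377] :=
  split_of 0 2 v95 1343406483 (by decide +kernel) t1_174 t1_176 rfl rfl

theorem t1_178 : Good (Q 9) [v88, v38, v7, v23, v69, v377] :=
  split_of 2 4 v72 1342973725 (by decide +kernel) t1_155 t1_177 rfl rfl

theorem t1_179 : Good (Q 9) [v88, v38, v7, v23, v69, v374] :=
  split_of 2 5 v377 1342428891 (by decide +kernel) t1_154 t1_178 rfl rfl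

theorem t1_180 : Good (Q 9) [v88, v25, v38, v23, v69, v374] :=
  split_of 3 5 v378 1331920927 (by decide +kernel) (good_ofj c1_169) (good_ofj c1_170) rfl rfl

theorem t1_181 : Good (Q 7) [v89, v54, v382, v25, v71, v376] :=
  split_of 3 5 v383 1311769963 (by decide +kernel) (good_ofj c1_173) (good_ofj c1_174) rfl rfl

theorem t1_182 : Good (Q 8) [v89, v54, v382, v25, v71, v376] :=
  P_of 7 8 0xffffffffffffffffffffffffffffff519463f8fe40d042b8ad2d4b62c8b32ccb4ffffffffffffffffffffffffffffff2f4bd348d1360d9709c22dcb62ecbb2f4bd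
    (by decide +kernel) t1_181

theorem t1_183 : Good (Q 9) [v89, v54, v382, v25, v71, v376] :=
  P_of 8 9 0xffffffffffffffffffffffffffffff51d463f8ff40d032b8ae2d4b52c8b22ccb3ffffffffffffffffffffffffffffff2f4bd348d2360d8fffff2dcb72ecbb2f4bd
    (by decide +kernel) t1_182

theorem t1_184 : Good (Q 9) [v89, v54, v38, v25, v79, v382] :=
  split_of 0 2 v104 1319149179 (by decide +kernel) (good_ofj c1_176) (good_ofj c1_177) rfl rfl

theorem t1_185 : Good (Q 9) [v89, v54, v38, v25, v71, v382] :=
  split_of 2 4 v79 1319049667 (by decide +kernel) (good_ofj c1_175) t1_184 rfl rfl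

theorem t1_186 : Good (Q 9) [v89, v54, v38, v25, v71, v376] :=
  split_of 2 5 v382 1318892226 (by decide +kernel) t1_183 t1_185 rfl rfl

theorem t1_187 : Good (Q 7) [v89, v33, v54, v25, v71, v383] :=
  split_of 3 4 v83 1311940093 (by decide +kernel) (good_ofj c1_179) (good_ofj c1_180) rfl rfl

theorem t1_188 : Good (Q 8) [v89, v33, v54, v25, v71, v383] :=
  P_of 7 8 0xffffffffffffffffffffffffffffff5094740900409002b4ad2d0b52d0b32ccb4ffffffffffffffffffffffffffffff2f8be340d235cd971dc02e4b72e4b92f8bc
    (by decide +kernel) t1_187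

theorem t1_189 : Good (Q 8) [v89, v33, v54, v25, v71, v376] :=
  split_of 3 5 v383 1311769963 (by decide +kernel) (good_ofj c1_178) t1_188 rfl rfl

theorem t1_190 : Good (Q 9) [v89, v33, v54, v25, v71, v376] :=
  P_of 8 9 0xffffffffffffffffffffffffffffff50d424050040d052b8ad2d0b52ccb22c8b3ffffffffffffffffffffffffffffff2f4be344d035cd7fffff2e4b72ecbb2f4be
    (by decide +kernel) t1_189

theorem t1_191 : Good (Q 9) [v89, v30, v54, v25, v71, v376] :=
  split_of 1 3 v33 1302360762 (by decide +kernel) t1_190 (good_ofj c1_181) rfl rfl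

theorem t1_192 : Good (Q 9) [v89, v30, v38, v25, v71, v376] :=
  split_of 1 2 v54 1309864426 (by decide +kernel) t1_186 t1_191 rfl rfl

theorem t1_193 : Good (Q 9) [v88, v89, v38, v25, v71, v376] :=
  split_of 0 2 v105 1326446749 (by decide +kernel) (good_ofj c1_182) (good_ofj c1_183) rfl rfl

theorem t1_194 : Good (Q 9) [v88, v30, v38, v25, v71, v376] :=
  split_of 0 1 v89 1300877891 (by decide +kernel) t1_192 t1_193 rfl rfl

theorem t1_195 : Good (Q 9) [v88, v30, v38, v25, v69, v376] :=
  split_of 1 4 v71 1300475931 (by decide +kernel) (good_ofj c1_172) t1_194 rfl rfl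

theorem t1_196 : Good (Q 9) [v88, v30, v38, v25, v69, v374] :=
  split_of 1 5 v376 1299775629 (by decide +kernel) (good_ofj c1_171) t1_195 rfl rfl

theorem t1_197 : Good (Q 9) [v88, v30, v38, v23, v69, v374] :=
  split_of 1 3 v25 1321013612 (by decide +kernel) t1_180 t1_196 rfl rfl

theorem t1_198 : Good (Q 9) [v88, v30, v7, v23, v69, v374] :=
  split_of 1 2 v38 1333169107 (by decide +kernel) t1_179 t1_197 rfl rfl

theorem t1_199 : Good (Q 9) [v91, v95, v7, v39, v72, v379] :=
  split_of 0 2 v93 1351066130 (by decide +kernel) (good_ofj c1_188) (good_ofj c1_189) rfl rfl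

theorem t1_200 : Good (Q 9) [v91, v95, v7, v39, v72, v377] :=
  split_of 2 5 v379 1350213587 (by decide +kernel) (good_ofj c1_187) t1_199 rfl rfl

theorem t1_201 : Good (Q 9) [v91, v95, v7, v23, v72, v377] :=
  split_of 2 3 v39 1349823198 (by decide +kernel) (good_ofj c1_186) t1_200 rfl rfl

theorem t1_202 : Good (Q 9) [v91, v88, v7, v23, v72, v377] :=
  split_of 1 2 v95 1343406483 (by decide +kernel) t1_201 (good_ofj c1_190) rfl rfl

theorem t1_203 : Good (Q 9) [v91, v88, v7, v23, v69, v377] :=
  split_of 2 4 v72 1342973725 (by decide +kernel) (good_ofj c1_185) t1_202 rfl rfl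

theorem t1_204 : Good (Q 9) [v91, v88, v7, v23, v69, v374] :=
  split_of 2 5 v377 1342428891 (by decide +kernel) (good_ofj c1_184) t1_203 rfl rfl

theorem t1_205 : Good (Q 9) [v87, v88, v7, v23, v69, v374] :=
  split_of 0 2 v91 1345746917 (by decide +kernel) t1_204 (good_ofj c1_191) rfl rfl

theorem t1_206 : Good (Q 9) [v87, v30, v7, v23, v69, v374] :=
  split_of 0 1 v88 1315710025 (by decide +kernel) t1_198 t1_205 rfl rfl

theorem t1_207 : Good (Q 9) [v87, v30, v7, v23, v66, v374] :=
  split_of 1 4 v69 1313961803 (by decide +kernel) t1_152 t1_206 rfl rfl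

theorem t1_208 : Good (Q 9) [v87, v30, v7, v10, v66, v374] :=
  split_of 2 3 v23 1341057865 (by decide +kernel) t1_146 t1_207 rfl rfl

theorem t1_209 : Good (Q 9) [v87, v30, v7, v10, v66, v369] :=
  split_of 1 5 v374 1311272127 (by decide +kernel) t1_139 t1_208 rfl rfl

theorem t1_210 : Good (Q 10) [v87, v30, v7, v10, v66, v369] :=
  env_E _ t1_209

theorem t1_211 : Good (Q 10) [v84, v30, v7, v10, v66, v369] :=
  split_of 0 2 v87 1324037525 (by decide +kernel) t1_210 (good_ofj c1_192) rfl rfl

theorem t1_212 : Good (Q 10) [v84, v30, v7, v10, v62, v369] :=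
  split_of 2 4 v66 1315710025 (by decide +kernel) (good_ofj c1_129) t1_211 rfl rfl

theorem t1_213 : Good (Q 10) [v84, v30, v7, v3, v62, v369] :=
  split_of 1 3 v10 1307275754 (by decide +kernel) t1_137 t1_212 rfl rfl

theorem t1_214 : Good (Q 10) [v84, v30, v7, v3, v62, v339] :=
  split_of 2 5 v369 1305386625 (by decide +kernel) t1_135 t1_213 rfl rfl

theorem t1_215 : Good (Q 9) [v109, v377, v7, v91, v90, v375] :=
  split_of 2 5 v384 1350127237 (by decide +kernel) (good_ofj c1_199) (good_ofj c1_200) rfl rfl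

theorem t1_216 : Good (Q 9) [v108, v377, v7, v91, v90, v375] :=
  split_of 0 2 v109 1347302695 (by decide +kernel) t1_215 (good_ofj c1_201) rfl rfl

theorem t1_217 : Good (Q 9) [v108, v374, v7, v91, v90, v375] :=
  split_of 1 2 v377 1342428891 (by decide +kernel) t1_216 (good_ofj c1_202) rfl rfl

theorem t1_218 : Good (Q 9) [v108, v374, v7, v87, v90, v375] :=
  split_of 2 3 v91 1345746917 (by decide +kernel) (good_ofj c1_198) t1_217 rfl rfl

theorem t1_219 : Good (Q 9) [v108, v374, v7, v87, v66, v375] :=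
  split_of 2 4 v90 1343852908 (by decide +kernel) (good_ofj c1_197) t1_218 rfl rfl

theorem t1_220 : Good (Q 9) [v108, v374, v7, v87, v66, v369] :=
  split_of 2 5 v375 1341729738 (by decide +kernel) (good_ofj c1_196) t1_219 rfl rfl

theorem t1_221 : Good (Q 9) [v108, v30, v90, v87, v66, v374] :=
  split_of 1 4 v69 1313961803 (by decide +kernel) (good_ofj c1_203) (good_ofj c1_204) rfl rfl

theorem t1_222 : Good (Q 9) [v109, v95, v7, v91, v110, v379] :=
  split_of 2 3 v93 1351066130 (by decide +kernel) (good_ofj c1_209) (good_ofj c1_210) rfl rfl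

theorem t1_223 : Good (Q 9) [v109, v95, v7, v91, v110, v377] :=
  split_of 2 5 v379 1350213587 (by decide +kernel) (good_ofj c1_208) t1_222 rfl rfl

theorem t1_224 : Good (Q 9) [v109, v95, v7, v91, v90, v377] :=
  split_of 2 4 v110 1350610654 (by decide +kernel) (good_ofj c1_207) t1_223 rfl rfl

theorem t1_225 : Good (Q 9) [v108, v95, v7, v91, v90, v377] :=
  split_of 0 2 v109 1347302695 (by decide +kernel) t1_224 (good_ofj c1_211) rfl rfl

theorem t1_226 : Good (Q 9) [v108, v88, v7, v91, v90, v377] :=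
  split_of 1 2 v95 1343406483 (by decide +kernel) t1_225 (good_ofj c1_212) rfl rfl

theorem t1_227 : Good (Q 9) [v108, v88, v7, v91, v90, v374] :=
  split_of 2 5 v377 1342428891 (by decide +kernel) (good_ofj c1_206) t1_226 rfl rfl

theorem t1_228 : Good (Q 9) [v108, v88, v7, v87, v90, v374] :=
  split_of 2 3 v91 1345746917 (by decide +kernel) (good_ofj c1_205) t1_227 rfl rfl

theorem t1_229 : Good (Q 9) [v111, v38, v377, v88, v90, v385] :=
  split_of 1 4 v72 1342973725 (by decide +kernel) (good_ofj c1_214) (good_ofj c1_215) rfl rfl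

theorem t1_230 : Good (Q 9) [v108, v38, v377, v88, v90, v385] :=
  split_of 0 1 v111 1336786951 (by decide +kernel) t1_229 (good_ofj c1_216) rfl rfl

theorem t1_231 : Good (Q 9) [v108, v38, v377, v88, v90, v374] :=
  split_of 1 5 v385 1325415297 (by decide +kernel) (good_ofj c1_213) t1_230 rfl rfl

theorem t1_232 : Good (Q 9) [v108, v38, v95, v88, v90, v377] :=
  split_of 0 1 v111 1336786951 (by decide +kernel) (good_ofj c1_217) (good_ofj c1_218) rfl rfl

theorem t1_233 : Good (Q 9) [v109, v72, v7, v95, v110, v379] :=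
  split_of 1 2 v74 1350336185 (by decide +kernel) (good_ofj c1_221) (good_ofj c1_222) rfl rfl

theorem t1_234 : Good (Q 9) [v109, v72, v7, v95, v110, v377] :=
  split_of 2 5 v379 1350213587 (by decide +kernel) (good_ofj c1_220) t1_233 rfl rfl

theorem t1_235 : Good (Q 9) [v109, v72, v7, v95, v90, v377] :=
  split_of 2 4 v110 1350610654 (by decide +kernel) (good_ofj c1_219) t1_234 rfl rfl

theorem t1_236 : Good (Q 9) [v109, v43, v379, v95, v72, v377] :=
  split_of 0 5 v386 1346091026 (by decide +kernel) (good_ofj c1_223) (good_ofj c1_224) rfl rfl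

theorem t1_237 : Good (Q 9) [v109, v43, v74, v95, v72, v379] :=
  split_of 0 1 v113 1348854888 (by decide +kernel) (good_ofj c1_225) (good_ofj c1_226) rfl rfl

theorem t1_238 : Good (Q 9) [v109, v43, v98, v95, v74, v379] :=
  split_of 0 1 v113 1348854888 (by decide +kernel) (good_ofj c1_227) (good_ofj c1_228) rfl rfl

theorem t1_239 : Good (Q 9) [v115, v43, v99, v98, v74, v381] :=
  split_of 1 4 v116 1349329923 (by decide +kernel) (good_ofj c1_231) (good_ofj c1_232) rfl rfl

theorem t1_240 : Good (Q 9) [v115, v43, v99, v98, v74, v379] :=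
  split_of 1 5 v381 1349299014 (by decide +kernel) (good_ofj c1_230) t1_239 rfl rfl

theorem t1_241 : Good (Q 9) [v114, v43, v99, v98, v74, v379] :=
  split_of 0 1 v115 1350548520 (by decide +kernel) t1_240 (good_ofj c1_233) rfl rfl

theorem t1_242 : Good (Q 9) [v114, v43, v7, v98, v74, v379] :=
  split_of 1 2 v99 1351535087 (by decide +kernel) (good_ofj c1_229) t1_241 rfl rfl

theorem t1_243 : Good (Q 9) [v109, v43, v7, v98, v74, v379] :=
  split_of 0 2 v114 1351479933 (by decide +kernel) t1_242 (good_ofj c1_234) rfl rfl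

theorem t1_244 : Good (Q 9) [v109, v43, v7, v95, v74, v379] :=
  split_of 2 3 v98 1350444950 (by decide +kernel) t1_238 t1_243 rfl rfl

theorem t1_245 : Good (Q 9) [v109, v43, v7, v95, v72, v379] :=
  split_of 2 4 v74 1350336185 (by decide +kernel) t1_237 t1_244 rfl rfl

theorem t1_246 : Good (Q 9) [v109, v43, v7, v95, v72, v377] :=
  split_of 2 5 v379 1350213587 (by decide +kernel) t1_236 t1_245 rfl rfl

theorem t1_247 : Good (Q 9) [v117, v38, v43, v95, v72, v387] :=
  split_of 1 4 v119 1339187425 (by decide +kernel) (good_ofj c1_236) (good_ofj c1_237) rfl rfl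

theorem t1_248 : Good (Q 9) [v117, v38, v43, v95, v72, v377] :=
  split_of 1 5 v387 1339048731 (by decide +kernel) (good_ofj c1_235) t1_247 rfl rfl

theorem t1_249 : Good (Q 9) [v109, v38, v43, v95, v72, v377] :=
  split_of 0 1 v117 1343797121 (by decide +kernel) t1_248 (good_ofj c1_238) rfl rfl

theorem t1_250 : Good (Q 9) [v109, v38, v7, v95, v72, v377] :=
  split_of 1 2 v43 1347746544 (by decide +kernel) t1_246 t1_249 rfl rfl

theorem t1_251 : Good (Q 9) [v109, v38, v7, v95, v90, v377] :=
  split_of 1 4 v72 1342973725 (by decide +kernel) t1_235 t1_250 rfl rfl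

theorem t1_252 : Good (Q 9) [v108, v38, v109, v95, v90, v377] :=
  split_of 0 1 v111 1336786951 (by decide +kernel) (good_ofj c1_239) (good_ofj c1_240) rfl rfl

theorem t1_253 : Good (Q 9) [v108, v38, v7, v95, v90, v377] :=
  split_of 0 2 v109 1347302695 (by decide +kernel) t1_251 t1_252 rfl rfl

theorem t1_254 : Good (Q 9) [v108, v38, v7, v88, v90, v377] :=
  split_of 2 3 v95 1343406483 (by decide +kernel) t1_232 t1_253 rfl rfl

theorem t1_255 : Good (Q 9) [v108, v38, v7, v88, v90, v374] :=
  split_of 2 5 v377 1342428891 (by decide +kernel) t1_231 t1_254 rfl rfl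

theorem t1_256 : Good (Q 9) [v108, v78, v38, v88, v90, v374] :=
  split_of 0 2 v111 1336786951 (by decide +kernel) (good_ofj c1_241) (good_ofj c1_242) rfl rfl

theorem t1_257 : Good (Q 9) [v121, v122, v38, v89, v78, v382] :=
  split_of 2 3 v104 1319149179 (by decide +kernel) (good_ofj c1_246) (good_ofj c1_247) rfl rfl

theorem t1_258 : Good (Q 9) [v121, v122, v38, v89, v78, v376] :=
  split_of 2 5 v382 1318892226 (by decide +kernel) (good_ofj c1_245) t1_257 rfl rfl

theorem t1_259 : Good (Q 9) [v121, v54, v38, v104, v122, v382] :=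
  split_of 0 2 v123 1319243250 (by decide +kernel) (good_ofj c1_250) (good_ofj c1_251) rfl rfl

theorem t1_260 : Good (Q 9) [v121, v54, v38, v89, v122, v382] :=
  split_of 2 3 v104 1319149179 (by decide +kernel) (good_ofj c1_249) t1_259 rfl rfl

theorem t1_261 : Good (Q 9) [v121, v54, v38, v89, v122, v376] :=
  split_of 2 5 v382 1318892226 (by decide +kernel) (good_ofj c1_248) t1_260 rfl rfl

theorem t1_262 : Good (Q 9) [v121, v30, v38, v89, v122, v376] :=
  split_of 1 2 v54 1309864426 (by decide +kernel) t1_261 (good_ofj c1_252) rfl rfl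

theorem t1_263 : Good (Q 9) [v121, v30, v38, v89, v78, v376] :=
  split_of 1 4 v122 1305805878 (by decide +kernel) t1_258 t1_262 rfl rfl

theorem t1_264 : Good (Q 9) [v120, v121, v38, v89, v78, v382] :=
  split_of 0 2 v124 1326818823 (by decide +kernel) (good_ofj c1_254) (good_ofj c1_255) rfl rfl

theorem t1_265 : Good (Q 9) [v120, v121, v38, v89, v78, v376] :=
  split_of 2 5 v382 1318892226 (by decide +kernel) (good_ofj c1_253) t1_264 rfl rfl

theorem t1_266 : Good (Q 9) [v120, v30, v38, v89, v78, v376] :=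
  split_of 0 1 v121 1301234981 (by decide +kernel) t1_263 t1_265 rfl rfl

theorem t1_267 : Good (Q 9) [v120, v30, v38, v88, v78, v376] :=
  split_of 1 3 v89 1300877891 (by decide +kernel) (good_ofj c1_244) t1_266 rfl rfl

theorem t1_268 : Good (Q 9) [v120, v30, v38, v88, v78, v374] :=
  split_of 1 5 v376 1299775629 (by decide +kernel) (good_ofj c1_243) t1_267 rfl rfl

theorem t1_269 : Good (Q 9) [v108, v30, v38, v88, v78, v374] :=
  split_of 0 1 v120 1317105264 (by decide +kernel) t1_268 (good_ofj c1_256) rfl rfl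

theorem t1_270 : Good (Q 9) [v108, v30, v38, v88, v90, v374] :=
  split_of 1 4 v78 1326031496 (by decide +kernel) t1_256 t1_269 rfl rfl

theorem t1_271 : Good (Q 9) [v108, v30, v7, v88, v90, v374] :=
  split_of 1 2 v38 1333169107 (by decide +kernel) t1_255 t1_270 rfl rfl

theorem t1_272 : Good (Q 9) [v108, v30, v7, v87, v90, v374] :=
  split_of 1 3 v88 1315710025 (by decide +kernel) t1_228 t1_271 rfl rfl

theorem t1_273 : Good (Q 9) [v108, v30, v7, v87, v66, v374] :=
  split_of 2 4 v90 1343852908 (by decide +kernel) t1_221 t1_272 rfl rfl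

theorem t1_274 : Good (Q 9) [v108, v30, v7, v87, v66, v369] :=
  split_of 1 5 v374 1311272127 (by decide +kernel) t1_220 t1_273 rfl rfl

theorem t1_275 : Good (Q 9) [v107, v30, v7, v87, v66, v369] :=
  split_of 0 2 v108 1329531520 (by decide +kernel) t1_274 (good_ofj c1_257) rfl rfl

theorem t1_276 : Good (Q 9) [v107, v30, v7, v84, v66, v369] :=
  split_of 2 3 v87 1324037525 (by decide +kernel) (good_ofj c1_195) t1_275 rfl rfl

theorem t1_277 : Good (Q 10) [v107, v30, v7, v84, v66, v369] :=
  env_E _ t1_276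

theorem t1_278 : Good (Q 10) [v107, v30, v7, v84, v62, v369] :=
  split_of 2 4 v66 1315710025 (by decide +kernel) (good_ofj c1_194) t1_277 rfl rfl

theorem t1_279 : Good (Q 10) [v107, v30, v7, v84, v62, v339] :=
  split_of 2 5 v369 1305386625 (by decide +kernel) (good_ofj c1_193) t1_278 rfl rfl

theorem t1_280 : Good (Q 10) [v125, v30, v7, v84, v62, v339] :=
  split_of 0 2 v107 1245967015 (by decide +kernel) t1_279 (good_ofj c1_258) rfl rfl

theorem t1_281 : Good (Q 10) [v125, v30, v7, v3, v62, v339] :=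
  split_of 0 3 v84 1229127558 (by decide +kernel) t1_214 t1_280 rfl rfl

theorem t1_282 : Good (Q 10) [v125, v30, v7, v3, v4, v339] :=
  split_of 0 4 v62 1184875434 (by decide +kernel) t1_130 t1_281 rfl rfl

theorem t1_283 : Good (Q 10) [v125, v30, v7, v3, v4, v341] :=
  split_of 0 5 v339 1116736499 (by decide +kernel) t1_69 t1_282 rfl rfl

theorem t1_284 : Good (Q 9) [v347, v30, v348, v131, v26, v346] :=
  split_of 1 5 v349 1285482443 (by decide +kernel) (good_ofj c1_269) (good_ofj c1_270) rfl rfl

theorem t1_285 : Good (Q 9) [v347, v30, v348, v129, v26, v346] :=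
  split_of 1 3 v131 1293604245 (by decide +kernel) (good_ofj c1_268) t1_284 rfl rfl

theorem t1_286 : Good (Q 9) [v347, v30, v345, v129, v26, v346] :=
  split_of 1 2 v348 1315051345 (by decide +kernel) (good_ofj c1_267) t1_285 rfl rfl

theorem t1_287 : Good (Q 9) [v347, v30, v345, v129, v20, v346] :=
  split_of 1 4 v26 1292097425 (by decide +kernel) (good_ofj c1_266) t1_286 rfl rfl

theorem t1_288 : Good (Q 9) [v344, v30, v345, v129, v20, v346] :=
  split_of 0 1 v347 1313640791 (by decide +kernel) t1_287 (good_ofj c1_271) rfl rfl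

theorem t1_289 : Good (Q 9) [v344, v30, v345, v128, v20, v346] :=
  split_of 1 3 v129 1303729140 (by decide +kernel) (good_ofj c1_265) t1_288 rfl rfl

theorem t1_290 : Good (Q 9) [v344, v30, v345, v128, v20, v342] :=
  split_of 1 5 v346 1289073195 (by decide +kernel) (good_ofj c1_264) t1_289 rfl rfl

theorem t1_291 : Good (Q 9) [v347, v30, v32, v131, v26, v348] :=
  split_of 0 1 v350 1298242015 (by decide +kernel) (good_ofj c1_277) (good_ofj c1_278) rfl rfl

theorem t1_292 : Good (Q 9) [v347, v30, v32, v129, v26, v348] :=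
  split_of 1 3 v131 1293604245 (by decide +kernel) (good_ofj c1_276) t1_291 rfl rfl

theorem t1_293 : Good (Q 9) [v347, v30, v31, v129, v26, v348] :=
  split_of 1 2 v32 1315706387 (by decide +kernel) (good_ofj c1_275) t1_292 rfl rfl

theorem t1_294 : Good (Q 9) [v347, v30, v31, v129, v26, v345] :=
  split_of 1 5 v348 1315051345 (by decide +kernel) (good_ofj c1_274) t1_293 rfl rfl

theorem t1_295 : Good (Q 9) [v347, v30, v31, v129, v20, v345] :=
  split_of 1 4 v26 1292097425 (by decide +kernel) (good_ofj c1_273) t1_294 rfl rfl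

theorem t1_296 : Good (Q 9) [v344, v30, v31, v129, v20, v345] :=
  split_of 0 1 v347 1313640791 (by decide +kernel) t1_295 (good_ofj c1_279) rfl rfl

theorem t1_297 : Good (Q 9) [v354, v43, v7, v134, v41, v352] :=
  split_of 2 5 v355 1351763844 (by decide +kernel) (good_ofj c1_284) (good_ofj c1_285) rfl rfl

theorem t1_298 : Good (Q 9) [v351, v43, v7, v134, v41, v352] :=
  split_of 0 2 v354 1351504063 (by decide +kernel) t1_297 (good_ofj c1_286) rfl rfl

theorem t1_299 : Good (Q 9) [v351, v43, v7, v133, v41, v352] :=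
  split_of 2 3 v134 1349522479 (by decide +kernel) (good_ofj c1_283) t1_298 rfl rfl

theorem t1_300 : Good (Q 9) [v356, v38, v43, v133, v41, v352] :=
  split_of 1 5 v357 1343006453 (by decide +kernel) (good_ofj c1_287) (good_ofj c1_288) rfl rfl

theorem t1_301 : Good (Q 9) [v351, v38, v43, v133, v41, v352] :=
  split_of 0 1 v356 1342711840 (by decide +kernel) t1_300 (good_ofj c1_289) rfl rfl

theorem t1_302 : Good (Q 9) [v351, v38, v7, v133, v41, v352] :=
  split_of 1 2 v43 1347746544 (by decide +kernel) t1_299 t1_301 rfl rfl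

theorem t1_303 : Good (Q 9) [v351, v38, v7, v133, v31, v352] :=
  split_of 2 4 v41 1349100556 (by decide +kernel) (good_ofj c1_282) t1_302 rfl rfl

theorem t1_304 : Good (Q 9) [v351, v38, v7, v133, v31, v345] :=
  split_of 2 5 v352 1348588359 (by decide +kernel) (good_ofj c1_281) t1_303 rfl rfl

theorem t1_305 : Good (Q 9) [v344, v38, v7, v133, v31, v345] :=
  split_of 0 2 v351 1347496915 (by decide +kernel) t1_304 (good_ofj c1_290) rfl rfl

theorem t1_306 : Good (Q 9) [v344, v38, v7, v129, v31, v345] :=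
  split_of 2 3 v133 1339964634 (by decide +kernel) (good_ofj c1_280) t1_305 rfl rfl

theorem t1_307 : Good (Q 8) [v347, v348, v38, v388, v31, v345] :=
  split_of 2 5 v358 1336275849 (by decide +kernel) (good_ofj c1_291) (good_ofj c1_292) rfl rfl

theorem t1_308 : Good (Q 8) [v347, v348, v38, v129, v31, v345] :=
  split_of 3 5 v388 1323523715 (by decide +kernel) t1_307 (good_ofj c1_293) rfl rfl

theorem t1_309 : Good (Q 9) [v347, v348, v38, v129, v31, v345] :=
  P_of 8 9 0xfffffffffffffffffffffffffffffffffff3b4ee3c4f22ccb22e8bc2c4b02d4b5ffffffffffffffffffffffffffffff2e8bb390e33a0e8fffff2c4b02e8bb2d4b5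
    (by decide +kernel) t1_308

theorem t1_310 : Good (Q 9) [v347, v32, v38, v129, v31, v348] :=
  split_of 2 3 v137 1321013612 (by decide +kernel) (good_ofj c1_294) (good_ofj c1_295) rfl rfl

theorem t1_311 : Good (Q 9) [v360, v54, v38, v139, v32, v348] :=
  split_of 2 5 v361 1325072467 (by decide +kernel) (good_ofj c1_298) (good_ofj c1_299) rfl rfl

theorem t1_312 : Good (Q 9) [v347, v54, v38, v139, v32, v348] :=
  split_of 0 2 v360 1324737533 (by decide +kernel) t1_311 (good_ofj c1_300) rfl rfl

theorem t1_313 : Good (Q 9) [v347, v54, v38, v131, v32, v348] :=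
  split_of 2 3 v139 1316091829 (by decide +kernel) (good_ofj c1_297) t1_312 rfl rfl

theorem t1_314 : Good (Q 7) [v350, v362, v54, v131, v32, v348] :=
  split_of 3 5 v389 1305239268 (by decide +kernel) (good_ofj c1_301) (good_ofj c1_302) rfl rfl

theorem t1_315 : Good (Q 8) [v350, v362, v54, v131, v32, v348] :=
  P_of 7 8 0xffffffffffffffffffffffffffffff4f9404090241d052c0b02d8b62bcaf2c8b2ffffffffffffffffffffffffffffff2fcbf344d134cd4731ca2e0b82fcbf2f0ba
    (by decide +kernel) t1_314

theorem t1_316 : Good (Q 9) [v350, v362, v54, v131, v32, v348] :=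
  P_of 8 9 0xffffffffffffffffffffffffffffff5013f40902415062c0b02d4b52c0af2c8b2ffffffffffffffffffffffffffffff2f8be348d1350d3fffff2e0b82f8be2ecbb
    (by decide +kernel) t1_315

theorem t1_317 : Good (Q 9) [v350, v30, v54, v131, v32, v348] :=
  split_of 1 5 v362 1298624358 (by decide +kernel) t1_316 (good_ofj c1_303) rfl rfl

theorem t1_318 : Good (Q 8) [v347, v350, v54, v131, v32, v348] :=
  split_of 0 3 v390 1304846925 (by decide +kernel) (good_ofj c1_304) (good_ofj c1_305) rfl rfl

theorem t1_319 : Good (Q 9) [v347, v350, v54, v131, v32, v348] :=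
  P_of 8 9 0xffffffffffffffffffffffffffffff5054140902411052c0af2d4b72c0b02c8b1ffffffffffffffffffffffffffffff2f8be344d1354d5fffff2e4b82f8be2ecbb
    (by decide +kernel) t1_318

theorem t1_320 : Good (Q 9) [v347, v30, v54, v131, v32, v348] :=
  split_of 0 1 v350 1298242015 (by decide +kernel) t1_317 t1_319 rfl rfl

theorem t1_321 : Good (Q 9) [v347, v30, v38, v131, v32, v348] :=
  split_of 1 2 v54 1309864426 (by decide +kernel) t1_313 t1_320 rfl rfl

theorem t1_322 : Good (Q 9) [v347, v30, v38, v129, v32, v348] :=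
  split_of 1 3 v131 1293604245 (by decide +kernel) (good_ofj c1_296) t1_321 rfl rfl

theorem t1_323 : Good (Q 9) [v347, v30, v38, v129, v31, v348] :=
  split_of 1 4 v32 1315706387 (by decide +kernel) t1_310 t1_322 rfl rfl

theorem t1_324 : Good (Q 9) [v347, v30, v38, v129, v31, v345] :=
  split_of 1 5 v348 1315051345 (by decide +kernel) t1_309 t1_323 rfl rfl

theorem t1_325 : Good (Q 9) [v391, v347, v38, v129, v31, v345] :=
  split_of 3 5 v388 1323523715 (by decide +kernel) (good_ofj c1_306) (good_ofj c1_307) rfl rfl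

theorem t1_326 : Good (Q 9) [v344, v347, v38, v129, v31, v345] :=
  split_of 0 3 v391 1322023120 (by decide +kernel) t1_325 (good_ofj c1_308) rfl rfl

theorem t1_327 : Good (Q 9) [v344, v30, v38, v129, v31, v345] :=
  split_of 0 1 v347 1313640791 (by decide +kernel) t1_324 t1_326 rfl rfl

theorem t1_328 : Good (Q 9) [v344, v30, v7, v129, v31, v345] :=
  split_of 1 2 v38 1333169107 (by decide +kernel) t1_306 t1_327 rfl rfl

theorem t1_329 : Good (Q 9) [v344, v30, v7, v129, v20, v345] :=
  split_of 2 4 v31 1338335496 (by decide +kernel) t1_296 t1_328 rfl rfl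

theorem t1_330 : Good (Q 9) [v344, v30, v7, v128, v20, v345] :=
  split_of 1 3 v129 1303729140 (by decide +kernel) (good_ofj c1_272) t1_329 rfl rfl

theorem t1_331 : Good (Q 9) [v344, v30, v7, v128, v20, v342] :=
  split_of 2 5 v345 1335968999 (by decide +kernel) t1_290 t1_330 rfl rfl

theorem t1_332 : Good (Q 10) [v344, v30, v7, v128, v20, v342] :=
  env_E _ t1_331

theorem t1_333 : Good (Q 9) [v368, v30, v347, v129, v26, v346] :=
  split_of 1 3 v131 1293604245 (by decide +kernel) (good_ofj c1_313) (good_ofj c1_314) rfl rfl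

theorem t1_334 : Good (Q 9) [v367, v30, v347, v129, v26, v346] :=
  split_of 0 1 v368 1283868635 (by decide +kernel) t1_333 (good_ofj c1_315) rfl rfl

theorem t1_335 : Good (Q 9) [v367, v30, v347, v129, v20, v346] :=
  split_of 1 4 v26 1292097425 (by decide +kernel) (good_ofj c1_312) t1_334 rfl rfl

theorem t1_336 : Good (Q 9) [v367, v30, v344, v129, v20, v346] :=
  split_of 1 2 v347 1313640791 (by decide +kernel) (good_ofj c1_311) t1_335 rfl rfl

theorem t1_337 : Good (Q 9) [v367, v30, v344, v128, v20, v346] :=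
  split_of 1 3 v129 1303729140 (by decide +kernel) (good_ofj c1_310) t1_336 rfl rfl

theorem t1_338 : Good (Q 10) [v367, v30, v344, v128, v20, v346] :=
  env_E _ t1_337

theorem t1_339 : Good (Q 10) [v367, v30, v344, v128, v20, v342] :=
  split_of 1 5 v346 1289073195 (by decide +kernel) (good_ofj c1_309) t1_338 rfl rfl

theorem t1_340 : Good (Q 10) [v343, v30, v344, v128, v20, v342] :=
  split_of 0 1 v367 1282767547 (by decide +kernel) t1_339 (good_ofj c1_316) rfl rfl

theorem t1_341 : Good (Q 10) [v343, v30, v7, v128, v20, v342] :=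
  split_of 0 2 v344 1331125411 (by decide +kernel) t1_332 t1_340 rfl rfl

theorem t1_342 : Good (Q 10) [v343, v30, v7, v128, v1, v342] :=
  split_of 1 4 v20 1297535559 (by decide +kernel) (good_ofj c1_263) t1_341 rfl rfl

theorem t1_343 : Good (Q 10) [v343, v30, v7, v126, v1, v342] :=
  split_of 1 3 v128 1307275754 (by decide +kernel) (good_ofj c1_262) t1_342 rfl rfl

theorem t1_344 : Good (Q 10) [v343, v30, v7, v126, v1, v340] :=
  split_of 1 5 v342 1284967838 (by decide +kernel) (good_ofj c1_261) t1_343 rfl rfl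

theorem t1_345 : Good (Q 10) [v339, v30, v7, v126, v1, v340] :=
  split_of 0 1 v343 1260336929 (by decide +kernel) t1_344 (good_ofj c1_317) rfl rfl

theorem t1_346 : Good (Q 10) [v339, v30, v7, v126, v4, v340] :=
  split_of 1 4 v1 1280313892 (by decide +kernel) (good_ofj c1_260) t1_345 rfl rfl

theorem t1_347 : Good (Q 10) [v339, v30, v7, v126, v4, v341] :=
  split_of 1 5 v340 1222692218 (by decide +kernel) (good_ofj c1_259) t1_346 rfl rfl

theorem t1_348 : Good (Q 9) [v66, v30, v344, v128, v20, v367] :=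
  split_of 0 1 v69 1313961803 (by decide +kernel) (good_ofj c1_323) (good_ofj c1_324) rfl rfl

theorem t1_349 : Good (Q 10) [v66, v30, v344, v128, v20, v367] :=
  env_E _ t1_348

theorem t1_350 : Good (Q 10) [v66, v30, v344, v128, v20, v343] :=
  split_of 1 5 v367 1282767547 (by decide +kernel) (good_ofj c1_322) t1_349 rfl rfl

theorem t1_351 : Good (Q 9) [v71, v30, v32, v131, v26, v347] :=
  split_of 1 5 v350 1298242015 (by decide +kernel) (good_ofj c1_330) (good_ofj c1_331) rfl rfl

theorem t1_352 : Good (Q 9) [v71, v30, v32, v129, v26, v347] :=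
  split_of 1 3 v131 1293604245 (by decide +kernel) (good_ofj c1_329) t1_351 rfl rfl

theorem t1_353 : Good (Q 9) [v69, v30, v32, v129, v26, v347] :=
  split_of 0 1 v71 1300475931 (by decide +kernel) t1_352 (good_ofj c1_332) rfl rfl

theorem t1_354 : Good (Q 9) [v69, v30, v31, v129, v26, v347] :=
  split_of 1 2 v32 1315706387 (by decide +kernel) (good_ofj c1_328) t1_353 rfl rfl

theorem t1_355 : Good (Q 9) [v69, v30, v31, v129, v20, v347] :=
  split_of 1 4 v26 1292097425 (by decide +kernel) (good_ofj c1_327) t1_354 rfl rfl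

theorem t1_356 : Good (Q 9) [v69, v30, v31, v129, v20, v344] :=
  split_of 1 5 v347 1313640791 (by decide +kernel) (good_ofj c1_326) t1_355 rfl rfl

theorem t1_357 : Good (Q 9) [v69, v38, v133, v129, v31, v344] :=
  split_of 3 5 v391 1322023120 (by decide +kernel) (good_ofj c1_333) (good_ofj c1_334) rfl rfl

theorem t1_358 : Good (Q 9) [v74, v43, v7, v134, v41, v351] :=
  split_of 2 5 v354 1351504063 (by decide +kernel) (good_ofj c1_338) (good_ofj c1_339) rfl rfl

theorem t1_359 : Good (Q 9) [v72, v43, v7, v134, v41, v351] :=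
  split_of 0 2 v74 1350336185 (by decide +kernel) t1_358 (good_ofj c1_340) rfl rfl

theorem t1_360 : Good (Q 9) [v72, v43, v7, v133, v41, v351] :=
  split_of 2 3 v134 1349522479 (by decide +kernel) (good_ofj c1_337) t1_359 rfl rfl

theorem t1_361 : Good (Q 9) [v72, v38, v43, v133, v41, v356] :=
  split_of 1 4 v77 1343140841 (by decide +kernel) (good_ofj c1_342) (good_ofj c1_343) rfl rfl

theorem t1_362 : Good (Q 9) [v72, v38, v43, v133, v41, v351] :=
  split_of 1 5 v356 1342711840 (by decide +kernel) (good_ofj c1_341) t1_361 rfl rfl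

theorem t1_363 : Good (Q 9) [v72, v38, v7, v133, v41, v351] :=
  split_of 1 2 v43 1347746544 (by decide +kernel) t1_360 t1_362 rfl rfl

theorem t1_364 : Good (Q 9) [v72, v38, v7, v133, v31, v351] :=
  split_of 2 4 v41 1349100556 (by decide +kernel) (good_ofj c1_336) t1_363 rfl rfl

theorem t1_365 : Good (Q 9) [v72, v38, v7, v133, v31, v344] :=
  split_of 2 5 v351 1347496915 (by decide +kernel) (good_ofj c1_335) t1_364 rfl rfl

theorem t1_366 : Good (Q 9) [v69, v38, v7, v133, v31, v344] :=
  split_of 0 2 v72 1342973725 (by decide +kernel) t1_365 (good_ofj c1_344) rfl rfl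

theorem t1_367 : Good (Q 9) [v69, v38, v7, v129, v31, v344] :=
  split_of 2 3 v133 1339964634 (by decide +kernel) t1_357 t1_366 rfl rfl

theorem t1_368 : Good (Q 9) [v69, v347, v38, v129, v31, v391] :=
  split_of 0 3 v146 1311023066 (by decide +kernel) (good_ofj c1_346) (good_ofj c1_347) rfl rfl

theorem t1_369 : Good (Q 9) [v69, v347, v38, v129, v31, v344] :=
  split_of 3 5 v391 1322023120 (by decide +kernel) (good_ofj c1_345) t1_368 rfl rfl

theorem t1_370 : Good (Q 9) [v69, v32, v38, v129, v31, v347] :=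
  split_of 0 3 v146 1311023066 (by decide +kernel) (good_ofj c1_348) (good_ofj c1_349) rfl rfl

theorem t1_371 : Good (Q 9) [v71, v131, v38, v129, v32, v347] :=
  split_of 2 3 v137 1321013612 (by decide +kernel) (good_ofj c1_350) (good_ofj c1_351) rfl rfl

theorem t1_372 : Good (Q 7) [v71, v54, v139, v131, v32, v390] :=
  split_of 0 2 v149 1309015228 (by decide +kernel) (good_ofj c1_353) (good_ofj c1_354) rfl rfl

theorem t1_373 : Good (Q 8) [v71, v54, v139, v131, v32, v390] :=
  P_of 7 8 0xffffffffffffffffffffffffffffff5094140d0340d032c0b02d8b82c0af2c8b2ffffffffffffffffffffffffffffff2fcbf344d1354d5721c82e0b82f4be2e8ba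
    (by decide +kernel) t1_372

theorem t1_374 : Good (Q 8) [v71, v54, v139, v131, v32, v347] :=
  split_of 3 5 v390 1304846925 (by decide +kernel) (good_ofj c1_352) t1_373 rfl rfl

theorem t1_375 : Good (Q 9) [v71, v54, v139, v131, v32, v347] :=
  P_of 8 9 0xffffffffffffffffffffffffffffff50d4240902409032c0b02d8b72c0af2c8b2ffffffffffffffffffffffffffffff2f8bf348d1358d6fffff2e4b82f4be2e8ba
    (by decide +kernel) t1_374

theorem t1_376 : Good (Q 9) [v71, v54, v38, v139, v32, v347] :=
  split_of 0 2 v79 1319049667 (by decide +kernel) (good_ofj c1_355) (good_ofj c1_356) rfl rfl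

theorem t1_377 : Good (Q 9) [v71, v54, v38, v131, v32, v347] :=
  split_of 2 3 v139 1316091829 (by decide +kernel) t1_375 t1_376 rfl rfl

theorem t1_378 : Good (Q 8) [v71, v350, v54, v131, v32, v347] :=
  split_of 3 5 v390 1304846925 (by decide +kernel) (good_ofj c1_357) (good_ofj c1_358) rfl rfl

theorem t1_379 : Good (Q 9) [v71, v350, v54, v131, v32, v347] :=
  P_of 8 9 0xffffffffffffffffffffffffffffff5054140902411052c0af2d4b72c0b02c8b1ffffffffffffffffffffffffffffff2f8be344d1354d5fffff2e4b82f8be2ecbb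
    (by decide +kernel) t1_378

theorem t1_380 : Good (Q 9) [v71, v30, v54, v131, v32, v347] :=
  split_of 1 5 v350 1298242015 (by decide +kernel) t1_379 (good_ofj c1_359) rfl rfl

theorem t1_381 : Good (Q 9) [v71, v30, v38, v131, v32, v347] :=
  split_of 1 2 v54 1309864426 (by decide +kernel) t1_377 t1_380 rfl rfl

theorem t1_382 : Good (Q 9) [v71, v30, v38, v129, v32, v347] :=
  split_of 1 3 v131 1293604245 (by decide +kernel) t1_371 t1_381 rfl rfl

theorem t1_383 : Good (Q 9) [v69, v30, v38, v129, v32, v347] :=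
  split_of 0 1 v71 1300475931 (by decide +kernel) t1_382 (good_ofj c1_360) rfl rfl

theorem t1_384 : Good (Q 9) [v69, v30, v38, v129, v31, v347] :=
  split_of 1 4 v32 1315706387 (by decide +kernel) t1_370 t1_383 rfl rfl

theorem t1_385 : Good (Q 9) [v69, v30, v38, v129, v31, v344] :=
  split_of 1 5 v347 1313640791 (by decide +kernel) t1_369 t1_384 rfl rfl

theorem t1_386 : Good (Q 9) [v69, v30, v7, v129, v31, v344] :=
  split_of 1 2 v38 1333169107 (by decide +kernel) t1_367 t1_385 rfl rfl

theorem t1_387 : Good (Q 9) [v69, v30, v7, v129, v20, v344] :=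
  split_of 2 4 v31 1338335496 (by decide +kernel) t1_356 t1_386 rfl rfl

theorem t1_388 : Good (Q 9) [v69, v30, v7, v128, v20, v344] :=
  split_of 1 3 v129 1303729140 (by decide +kernel) (good_ofj c1_325) t1_387 rfl rfl

theorem t1_389 : Good (Q 9) [v66, v30, v7, v128, v20, v344] :=
  split_of 0 1 v69 1313961803 (by decide +kernel) t1_388 (good_ofj c1_361) rfl rfl

theorem t1_390 : Good (Q 10) [v66, v30, v7, v128, v20, v344] :=
  env_E _ t1_389

theorem t1_391 : Good (Q 10) [v66, v30, v7, v128, v20, v343] :=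
  split_of 2 5 v344 1331125411 (by decide +kernel) t1_350 t1_390 rfl rfl

theorem t1_392 : Good (Q 10) [v66, v30, v7, v128, v1, v343] :=
  split_of 1 4 v20 1297535559 (by decide +kernel) (good_ofj c1_321) t1_391 rfl rfl

theorem t1_393 : Good (Q 10) [v151, v30, v66, v128, v1, v343] :=
  split_of 1 4 v20 1297535559 (by decide +kernel) (good_ofj c1_362) (good_ofj c1_363) rfl rfl

theorem t1_394 : Good (Q 10) [v62, v30, v66, v128, v1, v343] :=
  split_of 0 1 v151 1273393141 (by decide +kernel) t1_393 (good_ofj c1_364) rfl rfl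

theorem t1_395 : Good (Q 10) [v62, v30, v7, v128, v1, v343] :=
  split_of 0 2 v66 1315710025 (by decide +kernel) t1_392 t1_394 rfl rfl

theorem t1_396 : Good (Q 10) [v62, v30, v7, v126, v1, v343] :=
  split_of 1 3 v128 1307275754 (by decide +kernel) (good_ofj c1_320) t1_395 rfl rfl

theorem t1_397 : Good (Q 10) [v62, v30, v7, v126, v1, v339] :=
  split_of 1 5 v343 1260336929 (by decide +kernel) (good_ofj c1_319) t1_396 rfl rfl

theorem t1_398 : Good (Q 10) [v62, v30, v7, v126, v4, v339] :=
  split_of 1 4 v1 1280313892 (by decide +kernel) (good_ofj c1_318) t1_397 rfl rfl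

theorem t1_399 : Good (Q 10) [v152, v30, v369, v128, v151, v343] :=
  split_of 0 3 v392 1279822031 (by decide +kernel) (good_ofj c1_368) (good_ofj c1_369) rfl rfl

theorem t1_400 : Good (Q 10) [v152, v30, v369, v128, v62, v343] :=
  split_of 1 4 v151 1273393141 (by decide +kernel) (good_ofj c1_367) t1_399 rfl rfl

theorem t1_401 : Good (Q 10) [v152, v30, v369, v126, v62, v343] :=
  split_of 1 3 v128 1307275754 (by decide +kernel) (good_ofj c1_366) t1_400 rfl rfl

theorem t1_402 : Good (Q 10) [v152, v30, v369, v126, v62, v339] :=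
  split_of 1 5 v343 1260336929 (by decide +kernel) (good_ofj c1_365) t1_401 rfl rfl

theorem t1_403 : Good (Q 10) [v152, v128, v7, v126, v62, v369] :=
  split_of 3 4 v167 1244927842 (by decide +kernel) (good_ofj c1_370) (good_ofj c1_371) rfl rfl

theorem t1_404 : Good (Q 10) [v168, v30, v66, v128, v151, v369] :=
  split_of 1 5 v374 1311272127 (by decide +kernel) (good_ofj c1_373) (good_ofj c1_374) rfl rfl

theorem t1_405 : Good (Q 10) [v152, v30, v66, v128, v151, v369] :=
  split_of 0 1 v168 1278344175 (by decide +kernel) t1_404 (good_ofj c1_375) rfl rfl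

theorem t1_406 : Good (Q 10) [v152, v30, v66, v128, v62, v369] :=
  split_of 1 4 v151 1273393141 (by decide +kernel) (good_ofj c1_372) t1_405 rfl rfl

theorem t1_407 : Good (Q 9) [v153, v374, v7, v130, v66, v375] :=
  split_of 2 4 v90 1343852908 (by decide +kernel) (good_ofj c1_378) (good_ofj c1_379) rfl rfl

theorem t1_408 : Good (Q 9) [v153, v374, v7, v128, v66, v375] :=
  split_of 2 3 v130 1341057865 (by decide +kernel) (good_ofj c1_377) t1_407 rfl rfl

theorem t1_409 : Good (Q 9) [v153, v374, v7, v128, v66, v369] :=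
  split_of 2 5 v375 1341729738 (by decide +kernel) (good_ofj c1_376) t1_408 rfl rfl

theorem t1_410 : Good (Q 9) [v166, v72, v7, v145, v90, v377] :=
  split_of 2 4 v110 1350610654 (by decide +kernel) (good_ofj c1_384) (good_ofj c1_385) rfl rfl

theorem t1_411 : Good (Q 9) [v166, v72, v7, v130, v90, v377] :=
  split_of 2 3 v145 1349823198 (by decide +kernel) (good_ofj c1_383) t1_410 rfl rfl

theorem t1_412 : Good (Q 9) [v153, v72, v7, v130, v90, v377] :=
  split_of 0 2 v166 1345413067 (by decide +kernel) t1_411 (good_ofj c1_386) rfl rfl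

theorem t1_413 : Good (Q 9) [v153, v69, v7, v130, v90, v377] :=
  split_of 1 2 v72 1342973725 (by decide +kernel) t1_412 (good_ofj c1_387) rfl rfl

theorem t1_414 : Good (Q 9) [v153, v69, v7, v130, v90, v374] :=
  split_of 2 5 v377 1342428891 (by decide +kernel) (good_ofj c1_382) t1_413 rfl rfl

theorem t1_415 : Good (Q 9) [v153, v69, v7, v128, v90, v374] :=
  split_of 2 3 v130 1341057865 (by decide +kernel) (good_ofj c1_381) t1_414 rfl rfl

theorem t1_416 : Good (Q 9) [v153, v69, v7, v128, v66, v374] :=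
  split_of 2 4 v90 1343852908 (by decide +kernel) (good_ofj c1_380) t1_415 rfl rfl

theorem t1_417 : Good (Q 9) [v166, v134, v7, v145, v72, v377] :=
  split_of 2 5 v379 1350213587 (by decide +kernel) (good_ofj c1_392) (good_ofj c1_393) rfl rfl

theorem t1_418 : Good (Q 9) [v166, v133, v7, v145, v72, v377] :=
  split_of 1 2 v134 1349522479 (by decide +kernel) t1_417 (good_ofj c1_394) rfl rfl

theorem t1_419 : Good (Q 9) [v166, v133, v7, v130, v72, v377] :=
  split_of 2 3 v145 1349823198 (by decide +kernel) (good_ofj c1_391) t1_418 rfl rfl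

theorem t1_420 : Good (Q 9) [v166, v133, v7, v130, v69, v377] :=
  split_of 2 4 v72 1342973725 (by decide +kernel) (good_ofj c1_390) t1_419 rfl rfl

theorem t1_421 : Good (Q 9) [v153, v133, v7, v130, v69, v377] :=
  split_of 0 2 v166 1345413067 (by decide +kernel) t1_420 (good_ofj c1_395) rfl rfl

theorem t1_422 : Good (Q 9) [v153, v129, v7, v130, v69, v377] :=
  split_of 1 2 v133 1339964634 (by decide +kernel) t1_421 (good_ofj c1_396) rfl rfl

theorem t1_423 : Good (Q 9) [v153, v129, v7, v130, v69, v374] :=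
  split_of 2 5 v377 1342428891 (by decide +kernel) (good_ofj c1_389) t1_422 rfl rfl

theorem t1_424 : Good (Q 9) [v153, v129, v7, v128, v69, v374] :=
  split_of 2 3 v130 1341057865 (by decide +kernel) (good_ofj c1_388) t1_423 rfl rfl

theorem t1_425 : Good (Q 9) [v156, v38, v377, v129, v69, v374] :=
  split_of 1 5 v385 1325415297 (by decide +kernel) (good_ofj c1_397) (good_ofj c1_398) rfl rfl

theorem t1_426 : Good (Q 9) [v156, v38, v133, v129, v69, v393] :=
  split_of 3 4 v146 1311023066 (by decide +kernel) (good_ofj c1_400) (good_ofj c1_401) rfl rfl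

theorem t1_427 : Good (Q 9) [v156, v38, v133, v129, v69, v377] :=
  split_of 3 5 v393 1327598073 (by decide +kernel) (good_ofj c1_399) t1_426 rfl rfl

theorem t1_428 : Good (Q 8) [v156, v38, v72, v133, v69, v377] :=
  split_of 3 4 v170 1329837786 (by decide +kernel) (good_ofj c1_402) (good_ofj c1_403) rfl rfl

theorem t1_429 : Good (Q 9) [v156, v38, v72, v133, v69, v377] :=
  P_of 8 9 0xfffffffffffffffffffffffffffffffffff3b0ec3b4ec2c4b02f0be2d8b62ccb3ffffffffffffffffffffffffffffff2e0ba388e13c0f2fffff2c8b22dcb72d4b4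
    (by decide +kernel) t1_428

theorem t1_430 : Good (Q 7) [v157, v43, v379, v134, v72, v377] :=
  split_of 1 5 v394 1345802542 (by decide +kernel) (good_ofj c1_405) (good_ofj c1_406) rfl rfl

theorem t1_431 : Good (Q 8) [v157, v43, v379, v134, v72, v377] :=
  P_of 7 8 0xffffffffffffffffffffffffffffff701c0350d435cd72e0b72fcbf2e8ba2ecbaffffffffffffffffffffffffffffff2d0b43f0fb41105521482b8ae2d0b42c8b2
    (by decide +kernel) t1_430

theorem t1_432 : Good (Q 9) [v157, v43, v379, v134, v72, v377] :=
  P_of 8 9 0xfffffffffffffffffffffffffffffffffff350d5358d72e4b82f8c12e4b92ecbaffffffffffffffffffffffffffffff2ccb53fcfb40d05519482bcae2ccb52c4b0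
    (by decide +kernel) t1_431

theorem t1_433 : Good (Q 6) [v157, v43, v74, v134, v72, v379] :=
  split_of 3 4 v171 1346937514 (by decide +kernel) (good_ofj c1_407) (good_ofj c1_408) rfl rfl

theorem t1_434 : Good (Q 7) [v157, v43, v74, v134, v72, v379] :=
  P_of 6 7 0xffffffffffffffffffff87e208da35705c2350d4358d62dcb7304c12ecbb2e8b9ffffffffffffffffffffffffffffff2d4b43e8fb41d0651d462b8ae2d0b32c4b2
    (by decide +kernel) t1_433

theorem t1_435 : Good (Q 8) [v157, v43, v74, v134, v72, v379] :=
  P_of 7 8 0xffffffffffffffffffffffffffffff71dc134cd4350d62e4b7300c12e8bb2f0baffffffffffffffffffffffffffffff2d0b53fcfa41907509472b8ae2ccb42c4b1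
    (by decide +kernel) t1_434

theorem t1_436 : Good (Q 9) [v157, v43, v74, v134, v72, v379] :=
  P_of 8 9 0xfffffffffffffffffffffffffffffffffff34cd3354d42e0b92f8c02ecba2ecbcffffffffffffffffffffffffffffff2ccb43f8ff41506511422bcae2c8b32c8b1
    (by decide +kernel) t1_435

theorem t1_437 : Good (Q 9) [v159, v43, v99, v134, v74, v381] :=
  split_of 1 4 v116 1349329923 (by decide +kernel) (good_ofj c1_411) (good_ofj c1_412) rfl rfl

theorem t1_438 : Good (Q 9) [v159, v43, v99, v134, v74, v379] :=
  split_of 1 5 v381 1349299014 (by decide +kernel) (good_ofj c1_410) t1_437 rfl rfl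

theorem t1_439 : Good (Q 9) [v159, v43, v7, v134, v74, v379] :=
  split_of 1 2 v99 1351535087 (by decide +kernel) (good_ofj c1_409) t1_438 rfl rfl

theorem t1_440 : Good (Q 7) [v157, v43, v159, v134, v74, v379] :=
  split_of 0 5 v395 1347423655 (by decide +kernel) (good_ofj c1_413) (good_ofj c1_414) rfl rfl

theorem t1_441 : Good (Q 8) [v157, v43, v159, v134, v74, v379] :=
  P_of 7 8 0xffffffffffffffffffffffffffffff721c5348d4350d52e0b7300c12ecbb2ecbaffffffffffffffffffffffffffffff2d0b43f8fc42108505432b8ae2ccb32c8b1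
    (by decide +kernel) t1_440

theorem t1_442 : Good (Q 9) [v157, v43, v159, v134, v74, v379] :=
  P_of 8 9 0xfffffffffffffffffffffffffffffffffff348d2350d42e0b8300c02ecbb2ecbbffffffffffffffffffffffffffffff2d0b43f8fe42108505412b8ae2ccb32c8b2
    (by decide +kernel) t1_441

theorem t1_443 : Good (Q 9) [v157, v43, v7, v134, v74, v379] :=
  split_of 0 2 v159 1350439771 (by decide +kernel) t1_439 t1_442 rfl rfl

theorem t1_444 : Good (Q 9) [v157, v43, v7, v134, v72, v379] :=
  split_of 2 4 v74 1350336185 (by decide +kernel) t1_436 t1_443 rfl rfl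

theorem t1_445 : Good (Q 9) [v157, v43, v7, v134, v72, v377] :=
  split_of 2 5 v379 1350213587 (by decide +kernel) t1_432 t1_444 rfl rfl

theorem t1_446 : Good (Q 9) [v157, v43, v7, v133, v72, v377] :=
  split_of 2 3 v134 1349522479 (by decide +kernel) (good_ofj c1_404) t1_445 rfl rfl

theorem t1_447 : Good (Q 9) [v157, v38, v43, v133, v72, v387] :=
  split_of 1 4 v119 1339187425 (by decide +kernel) (good_ofj c1_416) (good_ofj c1_417) rfl rfl

theorem t1_448 : Good (Q 9) [v157, v38, v43, v133, v72, v377] :=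
  split_of 1 5 v387 1339048731 (by decide +kernel) (good_ofj c1_415) t1_447 rfl rfl

theorem t1_449 : Good (Q 9) [v157, v38, v7, v133, v72, v377] :=
  split_of 1 2 v43 1347746544 (by decide +kernel) t1_446 t1_448 rfl rfl

theorem t1_450 : Good (Q 8) [v156, v38, v157, v133, v72, v377] :=
  split_of 0 3 v396 1330215083 (by decide +kernel) (good_ofj c1_418) (good_ofj c1_419) rfl rfl

theorem t1_451 : Good (Q 9) [v156, v38, v157, v133, v72, v377] :=
  P_of 8 9 0xfffffffffffffffffffffffffffffffffff3b0ea3b0ed2c4b12f0bf2d8b62ccb3ffffffffffffffffffffffffffffff2e0b838ce23c0f1fffff2ccb22dcb82d0b5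
    (by decide +kernel) t1_450

theorem t1_452 : Good (Q 9) [v156, v38, v7, v133, v72, v377] :=
  split_of 0 2 v157 1343364615 (by decide +kernel) t1_449 t1_451 rfl rfl

theorem t1_453 : Good (Q 9) [v156, v38, v7, v133, v69, v377] :=
  split_of 2 4 v72 1342973725 (by decide +kernel) t1_429 t1_452 rfl rfl

theorem t1_454 : Good (Q 9) [v156, v38, v7, v129, v69, v377] :=
  split_of 2 3 v133 1339964634 (by decide +kernel) t1_427 t1_453 rfl rfl

theorem t1_455 : Good (Q 9) [v156, v38, v7, v129, v69, v374] :=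
  split_of 2 5 v377 1342428891 (by decide +kernel) t1_425 t1_454 rfl rfl

theorem t1_456 : Good (Q 9) [v156, v71, v38, v129, v78, v376] :=
  split_of 2 3 v137 1321013612 (by decide +kernel) (good_ofj c1_422) (good_ofj c1_423) rfl rfl

theorem t1_457 : Good (Q 9) [v156, v71, v38, v129, v69, v376] :=
  split_of 2 4 v78 1326031496 (by decide +kernel) (good_ofj c1_421) t1_456 rfl rfl

theorem t1_458 : Good (Q 9) [v163, v131, v38, v137, v71, v382] :=
  split_of 1 2 v139 1316091829 (by decide +kernel) (good_ofj c1_426) (good_ofj c1_427) rfl rfl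

theorem t1_459 : Good (Q 9) [v163, v131, v38, v137, v71, v376] :=
  split_of 2 5 v382 1318892226 (by decide +kernel) (good_ofj c1_425) t1_458 rfl rfl

theorem t1_460 : Good (Q 9) [v163, v131, v38, v129, v71, v376] :=
  split_of 2 3 v137 1321013612 (by decide +kernel) (good_ofj c1_424) t1_459 rfl rfl

theorem t1_461 : Good (Q 9) [v163, v54, v38, v139, v79, v382] :=
  split_of 0 2 v164 1319143752 (by decide +kernel) (good_ofj c1_431) (good_ofj c1_432) rfl rfl

theorem t1_462 : Good (Q 9) [v163, v54, v38, v139, v71, v382] :=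
  split_of 2 4 v79 1319049667 (by decide +kernel) (good_ofj c1_430) t1_461 rfl rfl

theorem t1_463 : Good (Q 9) [v163, v54, v38, v131, v71, v382] :=
  split_of 2 3 v139 1316091829 (by decide +kernel) (good_ofj c1_429) t1_462 rfl rfl

theorem t1_464 : Good (Q 9) [v163, v54, v38, v131, v71, v376] :=
  split_of 2 5 v382 1318892226 (by decide +kernel) (good_ofj c1_428) t1_463 rfl rfl

theorem t1_465 : Good (Q 9) [v163, v30, v38, v131, v71, v376] :=
  split_of 1 2 v54 1309864426 (by decide +kernel) t1_464 (good_ofj c1_433) rfl rfl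

theorem t1_466 : Good (Q 9) [v163, v30, v38, v129, v71, v376] :=
  split_of 1 3 v131 1293604245 (by decide +kernel) t1_460 t1_465 rfl rfl

theorem t1_467 : Good (Q 9) [v165, v163, v38, v137, v71, v376] :=
  split_of 2 5 v382 1318892226 (by decide +kernel) (good_ofj c1_435) (good_ofj c1_436) rfl rfl

theorem t1_468 : Good (Q 9) [v156, v163, v38, v137, v71, v376] :=
  split_of 0 2 v165 1326403803 (by decide +kernel) t1_467 (good_ofj c1_437) rfl rfl

theorem t1_469 : Good (Q 9) [v156, v163, v38, v129, v71, v376] :=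
  split_of 2 3 v137 1321013612 (by decide +kernel) (good_ofj c1_434) t1_468 rfl rfl

theorem t1_470 : Good (Q 9) [v156, v30, v38, v129, v71, v376] :=
  split_of 0 1 v163 1300833241 (by decide +kernel) t1_466 t1_469 rfl rfl

theorem t1_471 : Good (Q 9) [v156, v30, v38, v129, v69, v376] :=
  split_of 1 4 v71 1300475931 (by decide +kernel) t1_457 t1_470 rfl rfl

theorem t1_472 : Good (Q 9) [v156, v30, v38, v129, v69, v374] :=
  split_of 1 5 v376 1299775629 (by decide +kernel) (good_ofj c1_420) t1_471 rfl rfl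

theorem t1_473 : Good (Q 9) [v156, v30, v7, v129, v69, v374] :=
  split_of 1 2 v38 1333169107 (by decide +kernel) t1_455 t1_472 rfl rfl

theorem t1_474 : Good (Q 9) [v166, v157, v7, v134, v72, v379] :=
  split_of 2 4 v74 1350336185 (by decide +kernel) (good_ofj c1_443) (good_ofj c1_444) rfl rfl

theorem t1_475 : Good (Q 9) [v166, v157, v7, v134, v72, v377] :=
  split_of 2 5 v379 1350213587 (by decide +kernel) (good_ofj c1_442) t1_474 rfl rfl

theorem t1_476 : Good (Q 9) [v166, v157, v7, v133, v72, v377] :=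
  split_of 2 3 v134 1349522479 (by decide +kernel) (good_ofj c1_441) t1_475 rfl rfl

theorem t1_477 : Good (Q 9) [v166, v156, v7, v133, v72, v377] :=
  split_of 1 2 v157 1343364615 (by decide +kernel) t1_476 (good_ofj c1_445) rfl rfl

theorem t1_478 : Good (Q 9) [v166, v156, v7, v133, v69, v377] :=
  split_of 2 4 v72 1342973725 (by decide +kernel) (good_ofj c1_440) t1_477 rfl rfl

theorem t1_479 : Good (Q 9) [v166, v156, v7, v129, v69, v377] :=
  split_of 2 3 v133 1339964634 (by decide +kernel) (good_ofj c1_439) t1_478 rfl rfl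

theorem t1_480 : Good (Q 9) [v153, v156, v7, v129, v69, v377] :=
  split_of 0 2 v166 1345413067 (by decide +kernel) t1_479 (good_ofj c1_446) rfl rfl

theorem t1_481 : Good (Q 9) [v153, v156, v7, v129, v69, v374] :=
  split_of 2 5 v377 1342428891 (by decide +kernel) (good_ofj c1_438) t1_480 rfl rfl

theorem t1_482 : Good (Q 9) [v153, v30, v7, v129, v69, v374] :=
  split_of 0 1 v156 1315360752 (by decide +kernel) t1_473 t1_481 rfl rfl

theorem t1_483 : Good (Q 9) [v153, v30, v7, v128, v69, v374] :=
  split_of 1 3 v129 1303729140 (by decide +kernel) t1_424 t1_482 rfl rfl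

theorem t1_484 : Good (Q 9) [v153, v30, v7, v128, v66, v374] :=
  split_of 1 4 v69 1313961803 (by decide +kernel) t1_416 t1_483 rfl rfl

theorem t1_485 : Good (Q 9) [v153, v30, v7, v128, v66, v369] :=
  split_of 1 5 v374 1311272127 (by decide +kernel) t1_409 t1_484 rfl rfl

theorem t1_486 : Good (Q 9) [v152, v30, v7, v128, v66, v369] :=
  split_of 0 2 v153 1321273347 (by decide +kernel) t1_485 (good_ofj c1_447) rfl rfl

theorem t1_487 : Good (Q 10) [v152, v30, v7, v128, v66, v369] :=
  env_E _ t1_486

theorem t1_488 : Good (Q 10) [v152, v30, v7, v128, v62, v369] :=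
  split_of 2 4 v66 1315710025 (by decide +kernel) t1_406 t1_487 rfl rfl

theorem t1_489 : Good (Q 10) [v152, v30, v7, v126, v62, v369] :=
  split_of 1 3 v128 1307275754 (by decide +kernel) t1_403 t1_488 rfl rfl

theorem t1_490 : Good (Q 10) [v152, v30, v7, v126, v62, v339] :=
  split_of 2 5 v369 1305386625 (by decide +kernel) t1_402 t1_489 rfl rfl

theorem t1_491 : Good (Q 9) [v109, v377, v7, v166, v90, v375] :=
  split_of 2 5 v384 1350127237 (by decide +kernel) (good_ofj c1_454) (good_ofj c1_455) rfl rfl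

theorem t1_492 : Good (Q 9) [v108, v377, v7, v166, v90, v375] :=
  split_of 0 2 v109 1347302695 (by decide +kernel) t1_491 (good_ofj c1_456) rfl rfl

theorem t1_493 : Good (Q 9) [v108, v377, v7, v153, v90, v375] :=
  split_of 2 3 v166 1345413067 (by decide +kernel) (good_ofj c1_453) t1_492 rfl rfl

theorem t1_494 : Good (Q 9) [v108, v374, v7, v153, v90, v375] :=
  split_of 1 2 v377 1342428891 (by decide +kernel) t1_493 (good_ofj c1_457) rfl rfl

theorem t1_495 : Good (Q 9) [v108, v374, v7, v153, v66, v375] :=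
  split_of 2 4 v90 1343852908 (by decide +kernel) (good_ofj c1_452) t1_494 rfl rfl

theorem t1_496 : Good (Q 9) [v108, v374, v7, v153, v66, v369] :=
  split_of 2 5 v375 1341729738 (by decide +kernel) (good_ofj c1_451) t1_495 rfl rfl

theorem t1_497 : Good (Q 9) [v109, v72, v7, v166, v110, v377] :=
  split_of 2 5 v379 1350213587 (by decide +kernel) (good_ofj c1_462) (good_ofj c1_463) rfl rfl

theorem t1_498 : Good (Q 9) [v109, v72, v7, v166, v90, v377] :=
  split_of 2 4 v110 1350610654 (by decide +kernel) (good_ofj c1_461) t1_497 rfl rfl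

theorem t1_499 : Good (Q 9) [v108, v72, v7, v166, v90, v377] :=
  split_of 0 2 v109 1347302695 (by decide +kernel) t1_498 (good_ofj c1_464) rfl rfl

theorem t1_500 : Good (Q 9) [v108, v72, v7, v153, v90, v377] :=
  split_of 2 3 v166 1345413067 (by decide +kernel) (good_ofj c1_460) t1_499 rfl rfl

theorem t1_501 : Good (Q 9) [v108, v69, v7, v153, v90, v377] :=
  split_of 1 2 v72 1342973725 (by decide +kernel) t1_500 (good_ofj c1_465) rfl rfl

theorem t1_502 : Good (Q 9) [v108, v69, v7, v153, v90, v374] :=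
  split_of 2 5 v377 1342428891 (by decide +kernel) (good_ofj c1_459) t1_501 rfl rfl

theorem t1_503 : Good (Q 9) [v108, v69, v7, v153, v66, v374] :=
  split_of 2 4 v90 1343852908 (by decide +kernel) (good_ofj c1_458) t1_502 rfl rfl

theorem t1_504 : Good (Q 9) [v108, v38, v166, v153, v69, v377] :=
  split_of 1 3 v172 1334980480 (by decide +kernel) (good_ofj c1_467) (good_ofj c1_468) rfl rfl

theorem t1_505 : Good (Q 9) [v109, v157, v7, v166, v74, v379] :=
  split_of 2 3 v174 1351024736 (by decide +kernel) (good_ofj c1_472) (good_ofj c1_473) rfl rfl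

theorem t1_506 : Good (Q 9) [v109, v157, v7, v166, v72, v379] :=
  split_of 2 4 v74 1350336185 (by decide +kernel) (good_ofj c1_471) t1_505 rfl rfl

theorem t1_507 : Good (Q 9) [v109, v157, v7, v166, v72, v377] :=
  split_of 2 5 v379 1350213587 (by decide +kernel) (good_ofj c1_470) t1_506 rfl rfl

theorem t1_508 : Good (Q 9) [v109, v43, v379, v157, v72, v377] :=
  split_of 0 5 v386 1346091026 (by decide +kernel) (good_ofj c1_474) (good_ofj c1_475) rfl rfl

theorem t1_509 : Good (Q 9) [v109, v43, v74, v157, v72, v379] :=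
  split_of 0 1 v113 1348854888 (by decide +kernel) (good_ofj c1_476) (good_ofj c1_477) rfl rfl

theorem t1_510 : Good (Q 9) [v113, v43, v159, v157, v74, v379] :=
  P_of 8 9 0xfffffffffffffffffffffffffffffffffff350d4350d42e0b8300c02f4bd2e8baffffffffffffffffffffffffffffff2ccb33f0fc42509509422c0b02c8b22c4b1
    (by decide +kernel) (good_ofj c1_478)

theorem t1_511 : Good (Q 9) [v109, v43, v159, v157, v74, v379] :=
  split_of 0 1 v113 1348854888 (by decide +kernel) t1_510 (good_ofj c1_479) rfl rfl

theorem t1_512 : Good (Q 9) [v115, v43, v99, v159, v74, v381] :=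
  split_of 1 4 v116 1349329923 (by decide +kernel) (good_ofj c1_482) (good_ofj c1_483) rfl rfl

theorem t1_513 : Good (Q 9) [v115, v43, v99, v159, v74, v379] :=
  split_of 1 5 v381 1349299014 (by decide +kernel) (good_ofj c1_481) t1_512 rfl rfl

theorem t1_514 : Good (Q 9) [v114, v43, v99, v159, v74, v379] :=
  split_of 0 1 v115 1350548520 (by decide +kernel) t1_513 (good_ofj c1_484) rfl rfl

theorem t1_515 : Good (Q 9) [v114, v43, v7, v159, v74, v379] :=
  split_of 1 2 v99 1351535087 (by decide +kernel) (good_ofj c1_480) t1_514 rfl rfl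

theorem t1_516 : Good (Q 9) [v109, v43, v7, v159, v74, v379] :=
  split_of 0 2 v114 1351479933 (by decide +kernel) t1_515 (good_ofj c1_485) rfl rfl

theorem t1_517 : Good (Q 9) [v109, v43, v7, v157, v74, v379] :=
  split_of 2 3 v159 1350439771 (by decide +kernel) t1_511 t1_516 rfl rfl

theorem t1_518 : Good (Q 9) [v109, v43, v7, v157, v72, v379] :=
  split_of 2 4 v74 1350336185 (by decide +kernel) t1_509 t1_517 rfl rfl

theorem t1_519 : Good (Q 9) [v109, v43, v7, v157, v72, v377] :=
  split_of 2 5 v379 1350213587 (by decide +kernel) t1_508 t1_518 rfl rfl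

theorem t1_520 : Good (Q 9) [v117, v38, v43, v157, v72, v387] :=
  split_of 1 4 v119 1339187425 (by decide +kernel) (good_ofj c1_487) (good_ofj c1_488) rfl rfl

theorem t1_521 : Good (Q 9) [v117, v38, v43, v157, v72, v377] :=
  split_of 1 5 v387 1339048731 (by decide +kernel) (good_ofj c1_486) t1_520 rfl rfl

theorem t1_522 : Good (Q 9) [v109, v38, v43, v157, v72, v377] :=
  split_of 0 1 v117 1343797121 (by decide +kernel) t1_521 (good_ofj c1_489) rfl rfl

theorem t1_523 : Good (Q 9) [v109, v38, v7, v157, v72, v377] :=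
  split_of 1 2 v43 1347746544 (by decide +kernel) t1_519 t1_522 rfl rfl

theorem t1_524 : Good (Q 9) [v109, v38, v7, v166, v72, v377] :=
  split_of 1 3 v157 1343364615 (by decide +kernel) t1_507 t1_523 rfl rfl

theorem t1_525 : Good (Q 9) [v108, v38, v109, v166, v72, v377] :=
  split_of 0 1 v111 1336786951 (by decide +kernel) (good_ofj c1_490) (good_ofj c1_491) rfl rfl

theorem t1_526 : Good (Q 9) [v108, v38, v7, v166, v72, v377] :=
  split_of 0 2 v109 1347302695 (by decide +kernel) t1_524 t1_525 rfl rfl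

theorem t1_527 : Good (Q 9) [v108, v38, v7, v166, v69, v377] :=
  split_of 2 4 v72 1342973725 (by decide +kernel) (good_ofj c1_469) t1_526 rfl rfl

theorem t1_528 : Good (Q 9) [v108, v38, v7, v153, v69, v377] :=
  split_of 2 3 v166 1345413067 (by decide +kernel) t1_504 t1_527 rfl rfl

theorem t1_529 : Good (Q 9) [v108, v38, v7, v153, v69, v374] :=
  split_of 2 5 v377 1342428891 (by decide +kernel) (good_ofj c1_466) t1_528 rfl rfl

theorem t1_530 : Good (Q 9) [v120, v163, v38, v165, v71, v376] :=
  split_of 0 2 v124 1326818823 (by decide +kernel) (good_ofj c1_496) (good_ofj c1_497) rfl rfl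

theorem t1_531 : Good (Q 9) [v120, v163, v38, v156, v71, v376] :=
  split_of 2 3 v165 1326403803 (by decide +kernel) (good_ofj c1_495) t1_530 rfl rfl

theorem t1_532 : Good (Q 9) [v121, v54, v38, v164, v79, v382] :=
  split_of 0 2 v123 1319243250 (by decide +kernel) (good_ofj c1_501) (good_ofj c1_502) rfl rfl

theorem t1_533 : Good (Q 9) [v121, v54, v38, v163, v79, v382] :=
  split_of 2 3 v164 1319143752 (by decide +kernel) (good_ofj c1_500) t1_532 rfl rfl

theorem t1_534 : Good (Q 9) [v121, v54, v38, v163, v71, v382] :=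
  split_of 2 4 v79 1319049667 (by decide +kernel) (good_ofj c1_499) t1_533 rfl rfl

theorem t1_535 : Good (Q 9) [v121, v54, v38, v163, v71, v376] :=
  split_of 2 5 v382 1318892226 (by decide +kernel) (good_ofj c1_498) t1_534 rfl rfl

theorem t1_536 : Good (Q 9) [v121, v30, v38, v163, v71, v376] :=
  split_of 1 2 v54 1309864426 (by decide +kernel) t1_535 (good_ofj c1_503) rfl rfl

theorem t1_537 : Good (Q 9) [v124, v121, v38, v163, v71, v376] :=
  split_of 2 5 v382 1318892226 (by decide +kernel) (good_ofj c1_504) (good_ofj c1_505) rfl rfl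

theorem t1_538 : Good (Q 9) [v120, v121, v38, v163, v71, v376] :=
  split_of 0 2 v124 1326818823 (by decide +kernel) t1_537 (good_ofj c1_506) rfl rfl

theorem t1_539 : Good (Q 9) [v120, v30, v38, v163, v71, v376] :=
  split_of 0 1 v121 1301234981 (by decide +kernel) t1_536 t1_538 rfl rfl

theorem t1_540 : Good (Q 9) [v120, v30, v38, v156, v71, v376] :=
  split_of 1 3 v163 1300833241 (by decide +kernel) t1_531 t1_539 rfl rfl

theorem t1_541 : Good (Q 9) [v120, v30, v38, v156, v69, v376] :=
  split_of 1 4 v71 1300475931 (by decide +kernel) (good_ofj c1_494) t1_540 rfl rfl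

theorem t1_542 : Good (Q 9) [v120, v30, v38, v156, v69, v374] :=
  split_of 1 5 v376 1299775629 (by decide +kernel) (good_ofj c1_493) t1_541 rfl rfl

theorem t1_543 : Good (Q 9) [v108, v30, v38, v156, v69, v374] :=
  split_of 0 1 v120 1317105264 (by decide +kernel) t1_542 (good_ofj c1_507) rfl rfl

theorem t1_544 : Good (Q 9) [v108, v30, v38, v153, v69, v374] :=
  split_of 1 3 v156 1315360752 (by decide +kernel) (good_ofj c1_492) t1_543 rfl rfl

theorem t1_545 : Good (Q 9) [v108, v30, v7, v153, v69, v374] :=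
  split_of 1 2 v38 1333169107 (by decide +kernel) t1_529 t1_544 rfl rfl

theorem t1_546 : Good (Q 9) [v108, v30, v7, v153, v66, v374] :=
  split_of 1 4 v69 1313961803 (by decide +kernel) t1_503 t1_545 rfl rfl

theorem t1_547 : Good (Q 9) [v108, v30, v7, v153, v66, v369] :=
  split_of 1 5 v374 1311272127 (by decide +kernel) t1_496 t1_546 rfl rfl

theorem t1_548 : Good (Q 9) [v107, v30, v7, v153, v66, v369] :=
  split_of 0 2 v108 1329531520 (by decide +kernel) t1_547 (good_ofj c1_508) rfl rfl

theorem t1_549 : Good (Q 9) [v107, v30, v7, v152, v66, v369] :=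
  split_of 2 3 v153 1321273347 (by decide +kernel) (good_ofj c1_450) t1_548 rfl rfl

theorem t1_550 : Good (Q 10) [v107, v30, v7, v152, v66, v369] :=
  env_E _ t1_549

theorem t1_551 : Good (Q 10) [v107, v30, v7, v152, v62, v369] :=
  split_of 2 4 v66 1315710025 (by decide +kernel) (good_ofj c1_449) t1_550 rfl rfl

theorem t1_552 : Good (Q 10) [v107, v30, v7, v152, v62, v339] :=
  split_of 2 5 v369 1305386625 (by decide +kernel) (good_ofj c1_448) t1_551 rfl rfl

theorem t1_553 : Good (Q 10) [v125, v30, v7, v152, v62, v339] :=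
  split_of 0 2 v107 1245967015 (by decide +kernel) t1_552 (good_ofj c1_509) rfl rfl

theorem t1_554 : Good (Q 10) [v125, v30, v7, v126, v62, v339] :=
  split_of 0 3 v152 1202967926 (by decide +kernel) t1_490 t1_553 rfl rfl

theorem t1_555 : Good (Q 10) [v125, v30, v7, v126, v4, v339] :=
  split_of 0 4 v62 1184875434 (by decide +kernel) t1_398 t1_554 rfl rfl

theorem t1_556 : Good (Q 10) [v125, v30, v7, v126, v4, v341] :=
  split_of 0 5 v339 1116736499 (by decide +kernel) t1_347 t1_555 rfl rfl

theorem t1_557 : Good (Q 10) [v343, v400, v7, v401, v399, v342] :=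
  split_of 2 4 v402 1332942339 (by decide +kernel) (good_ofj c1_514) (good_ofj c1_515) rfl rfl

theorem t1_558 : Good (Q 10) [v343, v400, v7, v397, v399, v342] :=
  split_of 2 3 v401 1324037525 (by decide +kernel) (good_ofj c1_513) t1_557 rfl rfl

theorem t1_559 : Good (Q 7) [v347, v407, v348, v404, v405, v346] :=
  split_of 0 3 v406 1308681674 (by decide +kernel) (good_ofj c1_521) (good_ofj c1_522) rfl rfl

theorem t1_560 : Good (Q 8) [v347, v407, v348, v404, v405, v346] :=
  P_of 7 8 0xffffffffffffffffffffffffffffff4f93a3a0ee495212b8ad2e0b72c8b12d0b3ffffffffffffffffffffffffffffff2d0b7340ce358d4739d32acae328c8328c8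
    (by decide +kernel) t1_559

theorem t1_561 : Good (Q 9) [v347, v407, v348, v404, v405, v346] :=
  P_of 8 9 0xffffffffffffffffffffffffffffff4e93e3b8e8485252b4ae2dcb82c4b22ccb4ffffffffffffffffffffffffffffff2dcb4338d0350d6fffff2b8ab320ca320ca
    (by decide +kernel) t1_560

theorem t1_562 : Good (Q 9) [v347, v30, v348, v404, v405, v346] :=
  split_of 1 3 v407 1292338752 (by decide +kernel) t1_561 (good_ofj c1_523) rfl rfl

theorem t1_563 : Good (Q 9) [v347, v30, v345, v404, v405, v346] :=
  split_of 1 2 v348 1315051345 (by decide +kernel) (good_ofj c1_520) t1_562 rfl rfl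

theorem t1_564 : Good (Q 9) [v347, v30, v345, v404, v403, v346] :=
  split_of 1 4 v405 1290828974 (by decide +kernel) (good_ofj c1_519) t1_563 rfl rfl

theorem t1_565 : Good (Q 9) [v344, v30, v345, v404, v403, v346] :=
  split_of 0 1 v347 1313640791 (by decide +kernel) t1_564 (good_ofj c1_524) rfl rfl

theorem t1_566 : Good (Q 9) [v344, v30, v345, v400, v403, v346] :=
  split_of 1 3 v404 1299447568 (by decide +kernel) (good_ofj c1_518) t1_565 rfl rfl

theorem t1_567 : Good (Q 9) [v344, v30, v345, v400, v403, v342] :=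
  split_of 1 5 v346 1289073195 (by decide +kernel) (good_ofj c1_517) t1_566 rfl rfl

theorem t1_568 : Good (Q 9) [v344, v404, v7, v408, v403, v345] :=
  split_of 2 4 v409 1337829094 (by decide +kernel) (good_ofj c1_526) (good_ofj c1_527) rfl rfl

theorem t1_569 : Good (Q 9) [v344, v404, v7, v400, v403, v345] :=
  split_of 2 3 v408 1339712096 (by decide +kernel) (good_ofj c1_525) t1_568 rfl rfl

theorem t1_570 : Good (Q 7) [v347, v407, v410, v404, v405, v348] :=
  split_of 0 3 v406 1308681674 (by decide +kernel) (good_ofj c1_531) (good_ofj c1_532) rfl rfl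

theorem t1_571 : Good (Q 8) [v347, v407, v410, v404, v405, v348] :=
  P_of 7 8 0xffffffffffffffffffffffffffffff4f13c3b8ee47d1f2b4ad2d8b52c8b22d0b4ffffffffffffffffffffffffffffff2d8b633ccf350d4741d02b8af31cc6324c9
    (by decide +kernel) t1_570

theorem t1_572 : Good (Q 9) [v347, v407, v410, v404, v405, v348] :=
  P_of 8 9 0xffffffffffffffffffffffffffffff4ed3c3b8ee4811f2bcae2d0b52c4b12d4b5ffffffffffffffffffffffffffffff2d8b6344d1348d3fffff2bcae31cc7324c9
    (by decide +kernel) t1_571

theorem t1_573 : Good (Q 9) [v347, v30, v410, v407, v405, v348] :=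
  split_of 0 1 v350 1298242015 (by decide +kernel) (good_ofj c1_533) (good_ofj c1_534) rfl rfl

theorem t1_574 : Good (Q 9) [v347, v30, v410, v404, v405, v348] :=
  split_of 1 3 v407 1292338752 (by decide +kernel) t1_572 t1_573 rfl rfl

theorem t1_575 : Good (Q 9) [v347, v30, v409, v404, v405, v348] :=
  split_of 1 2 v410 1315466281 (by decide +kernel) (good_ofj c1_530) t1_574 rfl rfl

theorem t1_576 : Good (Q 9) [v347, v30, v409, v404, v405, v345] :=
  split_of 1 5 v348 1315051345 (by decide +kernel) (good_ofj c1_529) t1_575 rfl rfl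

theorem t1_577 : Good (Q 9) [v347, v30, v409, v404, v403, v345] :=
  split_of 1 4 v405 1290828974 (by decide +kernel) (good_ofj c1_528) t1_576 rfl rfl

theorem t1_578 : Good (Q 9) [v344, v30, v409, v404, v403, v345] :=
  split_of 0 1 v347 1313640791 (by decide +kernel) t1_577 (good_ofj c1_535) rfl rfl

theorem t1_579 : Good (Q 9) [v344, v38, v412, v404, v409, v345] :=
  split_of 0 3 v411 1320638258 (by decide +kernel) (good_ofj c1_536) (good_ofj c1_537) rfl rfl

theorem t1_580 : Good (Q 9) [v354, v43, v7, v414, v413, v352] :=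
  split_of 2 5 v355 1351763844 (by decide +kernel) (good_ofj c1_541) (good_ofj c1_542) rfl rfl

theorem t1_581 : Good (Q 9) [v351, v43, v7, v414, v413, v352] :=
  split_of 0 2 v354 1351504063 (by decide +kernel) t1_580 (good_ofj c1_543) rfl rfl

theorem t1_582 : Good (Q 9) [v351, v43, v7, v412, v413, v352] :=
  split_of 2 3 v414 1349460245 (by decide +kernel) (good_ofj c1_540) t1_581 rfl rfl

theorem t1_583 : Good (Q 9) [v356, v38, v43, v412, v413, v357] :=
  split_of 1 4 v415 1343112045 (by decide +kernel) (good_ofj c1_545) (good_ofj c1_546) rfl rfl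

theorem t1_584 : Good (Q 9) [v356, v38, v43, v412, v413, v352] :=
  split_of 1 5 v357 1343006453 (by decide +kernel) (good_ofj c1_544) t1_583 rfl rfl

theorem t1_585 : Good (Q 9) [v351, v38, v43, v412, v413, v352] :=
  split_of 0 1 v356 1342711840 (by decide +kernel) t1_584 (good_ofj c1_547) rfl rfl

theorem t1_586 : Good (Q 9) [v351, v38, v7, v412, v413, v352] :=
  split_of 1 2 v43 1347746544 (by decide +kernel) t1_582 t1_585 rfl rfl

theorem t1_587 : Good (Q 9) [v351, v38, v7, v412, v409, v352] :=
  split_of 2 4 v413 1349038282 (by decide +kernel) (good_ofj c1_539) t1_586 rfl rfl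

theorem t1_588 : Good (Q 9) [v351, v38, v7, v412, v409, v345] :=
  split_of 2 5 v352 1348588359 (by decide +kernel) (good_ofj c1_538) t1_587 rfl rfl

theorem t1_589 : Good (Q 9) [v344, v38, v7, v412, v409, v345] :=
  split_of 0 2 v351 1347496915 (by decide +kernel) t1_588 (good_ofj c1_548) rfl rfl

theorem t1_590 : Good (Q 9) [v344, v38, v7, v404, v409, v345] :=
  split_of 2 3 v412 1339459463 (by decide +kernel) t1_579 t1_589 rfl rfl

theorem t1_591 : Good (Q 8) [v347, v348, v38, v416, v409, v345] :=
  split_of 2 5 v358 1336275849 (by decide +kernel) (good_ofj c1_549) (good_ofj c1_550) rfl rfl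

theorem t1_592 : Good (Q 9) [v347, v348, v38, v416, v409, v345] :=
  P_of 8 9 0xfffffffffffffffffffffffffffffffffff3a0e83ccf52c4b12e0b92d0b42dcb6ffffffffffffffffffffffffffffff2dcb7398e43a4eafffff2c0b02e0b92e8ba
    (by decide +kernel) t1_591

theorem t1_593 : Good (Q 8) [v347, v348, v38, v417, v409, v418] :=
  split_of 0 4 v419 1328098027 (by decide +kernel) (good_ofj c1_553) (good_ofj c1_554) rfl rfl

theorem t1_594 : Good (Q 8) [v347, v348, v38, v417, v409, v416] :=
  split_of 2 5 v418 1329214866 (by decide +kernel) (good_ofj c1_552) t1_593 rfl rfl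

theorem t1_595 : Good (Q 9) [v347, v348, v38, v417, v409, v416] :=
  P_of 8 9 0xffffffffffffffffffffffffffffff5cd753a0e83e0f62c4b12e0b82d4b52d4b6ffffffffffffffffffffffffffffff2d4b638ce33a4e9fffff2c0b02e8b92ecbb
    (by decide +kernel) t1_594

theorem t1_596 : Good (Q 9) [v347, v348, v38, v404, v409, v416] :=
  split_of 2 3 v417 1320147089 (by decide +kernel) (good_ofj c1_551) t1_595 rfl rfl

theorem t1_597 : Good (Q 9) [v347, v348, v38, v404, v409, v345] :=
  split_of 3 5 v416 1321969078 (by decide +kernel) t1_592 t1_596 rfl rfl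

theorem t1_598 : Good (Q 7) [v419, v410, v38, v417, v409, v348] :=
  split_of 4 5 v420 1328401832 (by decide +kernel) (good_ofj c1_556) (good_ofj c1_557) rfl rfl

theorem t1_599 : Good (Q 8) [v419, v410, v38, v417, v409, v348] :=
  P_of 7 8 0xffffffffffffffffffffffffffffff5c9743a4e73dcf72c8b12d4b62d0b42e0b8ffffffffffffffffffffffffffffff2d4b6394e6394e663d8d2c0af2e0b82f0bc
    (by decide +kernel) t1_598

theorem t1_600 : Good (Q 8) [v347, v410, v38, v417, v409, v348] :=
  split_of 0 4 v419 1328098027 (by decide +kernel) t1_599 (good_ofj c1_558) rfl rfl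

theorem t1_601 : Good (Q 9) [v347, v410, v38, v417, v409, v348] :=
  P_of 8 9 0xffffffffffffffffffffffffffffff5c5743a8e93dcf62c0b12dcb82d4b52d8b6ffffffffffffffffffffffffffffff2d8b6388e339ce9fffff2c4b02e4b92ecbb
    (by decide +kernel) t1_600

theorem t1_602 : Good (Q 9) [v347, v410, v38, v404, v409, v348] :=
  split_of 2 3 v417 1320147089 (by decide +kernel) (good_ofj c1_555) t1_601 rfl rfl

theorem t1_603 : Good (Q 9) [v347, v407, v38, v417, v410, v348] :=
  split_of 1 2 v421 1315851864 (by decide +kernel) (good_ofj c1_560) (good_ofj c1_561) rfl rfl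

theorem t1_604 : Good (Q 9) [v347, v407, v38, v404, v410, v348] :=
  split_of 2 3 v417 1320147089 (by decide +kernel) (good_ofj c1_559) t1_603 rfl rfl

theorem t1_605 : Good (Q 9) [v422, v54, v421, v407, v410, v348] :=
  split_of 3 5 v423 1304684650 (by decide +kernel) (good_ofj c1_562) (good_ofj c1_563) rfl rfl

theorem t1_606 : Good (Q 9) [v347, v54, v421, v407, v410, v348] :=
  split_of 0 3 v422 1304314180 (by decide +kernel) t1_605 (good_ofj c1_564) rfl rfl

theorem t1_607 : Good (Q 9) [v360, v54, v38, v421, v410, v348] :=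
  split_of 2 5 v361 1325072467 (by decide +kernel) (good_ofj c1_565) (good_ofj c1_566) rfl rfl

theorem t1_608 : Good (Q 9) [v347, v54, v38, v421, v410, v348] :=
  split_of 0 2 v360 1324737533 (by decide +kernel) t1_607 (good_ofj c1_567) rfl rfl

theorem t1_609 : Good (Q 9) [v347, v54, v38, v407, v410, v348] :=
  split_of 2 3 v421 1315851864 (by decide +kernel) t1_606 t1_608 rfl rfl

theorem t1_610 : Good (Q 7) [v350, v362, v54, v423, v410, v348] :=
  split_of 2 5 v424 1312880953 (by decide +kernel) (good_ofj c1_568) (good_ofj c1_569) rfl rfl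

theorem t1_611 : Good (Q 8) [v350, v362, v54, v423, v410, v348] :=
  P_of 7 8 0xffffffffffffffffffffffffffffff501403fcfe421092bcaf2d0b52c4b12ccb3ffffffffffffffffffffffffffffff2f0bc348d1350d4725c92dcb62f8be2f8be
    (by decide +kernel) t1_610

theorem t1_612 : Good (Q 9) [v350, v362, v54, v423, v410, v348] :=
  P_of 8 9 0xffffffffffffffffffffffffffffff501403fcff41d082bcaf2d0b42c4b12ccb3ffffffffffffffffffffffffffffff2f0bd348d1350d4fffff2dcb72f8be2f8be
    (by decide +kernel) t1_611

theorem t1_613 : Good (Q 9) [v350, v362, v54, v407, v410, v348] :=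
  split_of 3 5 v423 1304684650 (by decide +kernel) t1_612 (good_ofj c1_570) rfl rfl

theorem t1_614 : Good (Q 9) [v350, v30, v54, v407, v410, v348] :=
  split_of 1 5 v362 1298624358 (by decide +kernel) t1_613 (good_ofj c1_571) rfl rfl

theorem t1_615 : Good (Q 9) [v422, v350, v54, v407, v410, v348] :=
  split_of 3 5 v423 1304684650 (by decide +kernel) (good_ofj c1_572) (good_ofj c1_573) rfl rfl

theorem t1_616 : Good (Q 9) [v347, v350, v54, v407, v410, v348] :=
  split_of 0 3 v422 1304314180 (by decide +kernel) t1_615 (good_ofj c1_574) rfl rfl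

theorem t1_617 : Good (Q 9) [v347, v30, v54, v407, v410, v348] :=
  split_of 0 1 v350 1298242015 (by decide +kernel) t1_614 t1_616 rfl rfl

theorem t1_618 : Good (Q 9) [v347, v30, v38, v407, v410, v348] :=
  split_of 1 2 v54 1309864426 (by decide +kernel) t1_609 t1_617 rfl rfl

theorem t1_619 : Good (Q 9) [v347, v30, v38, v404, v410, v348] :=
  split_of 1 3 v407 1292338752 (by decide +kernel) t1_604 t1_618 rfl rfl

theorem t1_620 : Good (Q 9) [v347, v30, v38, v404, v409, v348] :=
  split_of 1 4 v410 1315466281 (by decide +kernel) t1_602 t1_619 rfl rfl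

theorem t1_621 : Good (Q 9) [v347, v30, v38, v404, v409, v345] :=
  split_of 1 5 v348 1315051345 (by decide +kernel) t1_597 t1_620 rfl rfl

theorem t1_622 : Good (Q 9) [v411, v347, v38, v404, v409, v416] :=
  split_of 2 3 v417 1320147089 (by decide +kernel) (good_ofj c1_576) (good_ofj c1_577) rfl rfl

theorem t1_623 : Good (Q 9) [v411, v347, v38, v404, v409, v345] :=
  split_of 3 5 v416 1321969078 (by decide +kernel) (good_ofj c1_575) t1_622 rfl rfl

theorem t1_624 : Good (Q 9) [v344, v347, v38, v404, v409, v345] :=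
  split_of 0 3 v411 1320638258 (by decide +kernel) t1_623 (good_ofj c1_578) rfl rfl

theorem t1_625 : Good (Q 9) [v344, v30, v38, v404, v409, v345] :=
  split_of 0 1 v347 1313640791 (by decide +kernel) t1_621 t1_624 rfl rfl

theorem t1_626 : Good (Q 9) [v344, v30, v7, v404, v409, v345] :=
  split_of 1 2 v38 1333169107 (by decide +kernel) t1_590 t1_625 rfl rfl

theorem t1_627 : Good (Q 9) [v344, v30, v7, v404, v403, v345] :=
  split_of 2 4 v409 1337829094 (by decide +kernel) t1_578 t1_626 rfl rfl

theorem t1_628 : Good (Q 9) [v344, v30, v7, v400, v403, v345] :=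
  split_of 1 3 v404 1299447568 (by decide +kernel) t1_569 t1_627 rfl rfl

theorem t1_629 : Good (Q 9) [v344, v30, v7, v400, v403, v342] :=
  split_of 2 5 v345 1335968999 (by decide +kernel) t1_567 t1_628 rfl rfl

theorem t1_630 : Good (Q 10) [v344, v30, v7, v400, v403, v342] :=
  env_E _ t1_629

theorem t1_631 : Good (Q 8) [v368, v407, v347, v404, v405, v346] :=
  split_of 0 3 v425 1294134563 (by decide +kernel) (good_ofj c1_583) (good_ofj c1_584) rfl rfl

theorem t1_632 : Good (Q 9) [v368, v407, v347, v404, v405, v346] :=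
  P_of 8 9 0xffffffffffffffffffffffffffffff4bd363bceb4ad2a2b0ac2e0ba2ccb32c4b2ffffffffffffffffffffffffffffff2d8b531cc934cd6fffff2bcad330cc330cc
    (by decide +kernel) t1_631

theorem t1_633 : Good (Q 9) [v368, v30, v347, v404, v405, v346] :=
  split_of 1 3 v407 1292338752 (by decide +kernel) t1_632 (good_ofj c1_585) rfl rfl

theorem t1_634 : Good (Q 9) [v367, v30, v347, v404, v405, v346] :=
  split_of 0 1 v368 1283868635 (by decide +kernel) t1_633 (good_ofj c1_586) rfl rfl

theorem t1_635 : Good (Q 9) [v367, v30, v347, v404, v403, v346] :=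
  split_of 1 4 v405 1290828974 (by decide +kernel) (good_ofj c1_582) t1_634 rfl rfl

theorem t1_636 : Good (Q 9) [v367, v30, v344, v404, v403, v346] :=
  split_of 1 2 v347 1313640791 (by decide +kernel) (good_ofj c1_581) t1_635 rfl rfl

theorem t1_637 : Good (Q 9) [v367, v30, v344, v400, v403, v346] :=
  split_of 1 3 v404 1299447568 (by decide +kernel) (good_ofj c1_580) t1_636 rfl rfl

theorem t1_638 : Good (Q 10) [v367, v30, v344, v400, v403, v346] :=
  env_E _ t1_637

theorem t1_639 : Good (Q 10) [v367, v30, v344, v400, v403, v342] :=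
  split_of 1 5 v346 1289073195 (by decide +kernel) (good_ofj c1_579) t1_638 rfl rfl

theorem t1_640 : Good (Q 10) [v343, v30, v344, v400, v403, v342] :=
  split_of 0 1 v367 1282767547 (by decide +kernel) t1_639 (good_ofj c1_587) rfl rfl

theorem t1_641 : Good (Q 10) [v343, v30, v7, v400, v403, v342] :=
  split_of 0 2 v344 1331125411 (by decide +kernel) t1_630 t1_640 rfl rfl

theorem t1_642 : Good (Q 10) [v343, v30, v7, v400, v399, v342] :=
  split_of 1 4 v403 1293212810 (by decide +kernel) (good_ofj c1_516) t1_641 rfl rfl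

theorem t1_643 : Good (Q 10) [v343, v30, v7, v397, v399, v342] :=
  split_of 1 3 v400 1295857916 (by decide +kernel) t1_558 t1_642 rfl rfl

theorem t1_644 : Good (Q 10) [v369, v343, v7, v401, v399, v342] :=
  split_of 2 4 v402 1332942339 (by decide +kernel) (good_ofj c1_589) (good_ofj c1_590) rfl rfl

theorem t1_645 : Good (Q 10) [v369, v343, v7, v397, v399, v342] :=
  split_of 2 3 v401 1324037525 (by decide +kernel) (good_ofj c1_588) t1_644 rfl rfl

theorem t1_646 : Good (Q 10) [v339, v343, v7, v397, v399, v342] :=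
  split_of 0 2 v369 1305386625 (by decide +kernel) t1_645 (good_ofj c1_591) rfl rfl

theorem t1_647 : Good (Q 10) [v339, v30, v7, v397, v399, v342] :=
  split_of 0 1 v343 1260336929 (by decide +kernel) t1_643 t1_646 rfl rfl

theorem t1_648 : Good (Q 10) [v339, v30, v7, v397, v399, v340] :=
  split_of 1 5 v342 1284967838 (by decide +kernel) (good_ofj c1_512) t1_647 rfl rfl

theorem t1_649 : Good (Q 10) [v339, v30, v7, v397, v398, v340] :=
  split_of 1 4 v399 1268403305 (by decide +kernel) (good_ofj c1_511) t1_648 rfl rfl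

theorem t1_650 : Good (Q 10) [v339, v30, v7, v397, v398, v341] :=
  split_of 1 5 v340 1222692218 (by decide +kernel) (good_ofj c1_510) t1_649 rfl rfl

theorem t1_651 : Good (Q 10) [v426, v343, v7, v397, v399, v369] :=
  split_of 0 2 v427 1315710025 (by decide +kernel) (good_ofj c1_594) (good_ofj c1_595) rfl rfl

theorem t1_652 : Good (Q 10) [v426, v343, v7, v397, v399, v339] :=
  split_of 2 5 v369 1305386625 (by decide +kernel) (good_ofj c1_593) t1_651 rfl rfl

theorem t1_653 : Good (Q 10) [v427, v400, v7, v401, v399, v343] :=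
  split_of 2 4 v402 1332942339 (by decide +kernel) (good_ofj c1_597) (good_ofj c1_598) rfl rfl

theorem t1_654 : Good (Q 10) [v427, v400, v7, v397, v399, v343] :=
  split_of 2 3 v401 1324037525 (by decide +kernel) (good_ofj c1_596) t1_653 rfl rfl

theorem t1_655 : Good (Q 10) [v426, v400, v7, v397, v399, v343] :=
  split_of 0 2 v427 1315710025 (by decide +kernel) t1_654 (good_ofj c1_599) rfl rfl

theorem t1_656 : Good (Q 9) [v429, v30, v347, v404, v405, v368] :=
  split_of 1 3 v407 1292338752 (by decide +kernel) (good_ofj c1_606) (good_ofj c1_607) rfl rfl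

theorem t1_657 : Good (Q 9) [v428, v30, v347, v404, v405, v368] :=
  split_of 0 1 v429 1300207819 (by decide +kernel) t1_656 (good_ofj c1_608) rfl rfl

theorem t1_658 : Good (Q 9) [v428, v30, v347, v404, v405, v367] :=
  split_of 1 5 v368 1283868635 (by decide +kernel) (good_ofj c1_605) t1_657 rfl rfl

theorem t1_659 : Good (Q 9) [v428, v30, v347, v404, v403, v367] :=
  split_of 1 4 v405 1290828974 (by decide +kernel) (good_ofj c1_604) t1_658 rfl rfl

theorem t1_660 : Good (Q 9) [v428, v30, v344, v404, v403, v367] :=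
  split_of 1 2 v347 1313640791 (by decide +kernel) (good_ofj c1_603) t1_659 rfl rfl

theorem t1_661 : Good (Q 9) [v428, v30, v344, v400, v403, v367] :=
  split_of 1 3 v404 1299447568 (by decide +kernel) (good_ofj c1_602) t1_660 rfl rfl

theorem t1_662 : Good (Q 9) [v427, v30, v344, v400, v403, v367] :=
  split_of 0 1 v428 1313261210 (by decide +kernel) t1_661 (good_ofj c1_609) rfl rfl

theorem t1_663 : Good (Q 9) [v427, v30, v344, v400, v403, v343] :=
  split_of 1 5 v367 1282767547 (by decide +kernel) (good_ofj c1_601) t1_662 rfl rfl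

theorem t1_664 : Good (Q 9) [v430, v404, v7, v408, v409, v344] :=
  split_of 1 2 v412 1339459463 (by decide +kernel) (good_ofj c1_612) (good_ofj c1_613) rfl rfl

theorem t1_665 : Good (Q 9) [v428, v404, v7, v408, v409, v344] :=
  split_of 0 2 v430 1342889933 (by decide +kernel) t1_664 (good_ofj c1_614) rfl rfl

theorem t1_666 : Good (Q 9) [v428, v404, v7, v408, v403, v344] :=
  split_of 2 4 v409 1337829094 (by decide +kernel) (good_ofj c1_611) t1_665 rfl rfl

theorem t1_667 : Good (Q 9) [v428, v404, v7, v400, v403, v344] :=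
  split_of 2 3 v408 1339712096 (by decide +kernel) (good_ofj c1_610) t1_666 rfl rfl

theorem t1_668 : Good (Q 7) [v428, v410, v409, v404, v405, v347] :=
  split_of 0 3 v431 1309041868 (by decide +kernel) (good_ofj c1_617) (good_ofj c1_618) rfl rfl

theorem t1_669 : Good (Q 8) [v428, v410, v409, v404, v405, v347] :=
  P_of 7 8 0xffffffffffffffffffffffffffffff5415838ce1475162a4ab2e0b72ccb42ecbbffffffffffffffffffffffffffffff2d8b4358da374df6e1ae298a730cc1338cb
    (by decide +kernel) t1_668

theorem t1_670 : Good (Q 9) [v428, v410, v409, v404, v405, v347] :=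
  P_of 8 9 0xffffffffffffffffffffffffffffff53550388e347d1d2a8a92e0b82ccb32e8bbffffffffffffffffffffffffffffff2d4b6354d6370ddfffff29ca6310c3338ce
    (by decide +kernel) t1_669

theorem t1_671 : Good (Q 7) [v429, v407, v410, v404, v405, v347] :=
  split_of 3 5 v406 1308681674 (by decide +kernel) (good_ofj c1_619) (good_ofj c1_620) rfl rfl

theorem t1_672 : Good (Q 8) [v429, v407, v410, v404, v405, v347] :=
  P_of 7 8 0xffffffffffffffffffffffffffffff4f53b3b8ee479202b0ad2d4b42d0b32d0b4ffffffffffffffffffffffffffffff2d8b5338cf358d573dd12bcaf310c5328ca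
    (by decide +kernel) t1_671

theorem t1_673 : Good (Q 9) [v429, v407, v410, v404, v405, v347] :=
  P_of 8 9 0xffffffffffffffffffffffffffffff4f13d3bcee4791e2b0ac2d0b52d0b42d4b4ffffffffffffffffffffffffffffff2d8b6338ce354d6fffff2c0af310c4328ca
    (by decide +kernel) t1_672

theorem t1_674 : Good (Q 9) [v429, v30, v410, v407, v405, v347] :=
  split_of 1 5 v350 1298242015 (by decide +kernel) (good_ofj c1_621) (good_ofj c1_622) rfl rfl

theorem t1_675 : Good (Q 9) [v429, v30, v410, v404, v405, v347] :=
  split_of 1 3 v407 1292338752 (by decide +kernel) t1_673 t1_674 rfl rfl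

theorem t1_676 : Good (Q 9) [v428, v30, v410, v404, v405, v347] :=
  split_of 0 1 v429 1300207819 (by decide +kernel) t1_675 (good_ofj c1_623) rfl rfl

theorem t1_677 : Good (Q 9) [v428, v30, v409, v404, v405, v347] :=
  split_of 1 2 v410 1315466281 (by decide +kernel) t1_670 t1_676 rfl rfl

theorem t1_678 : Good (Q 9) [v428, v30, v409, v404, v403, v347] :=
  split_of 1 4 v405 1290828974 (by decide +kernel) (good_ofj c1_616) t1_677 rfl rfl

theorem t1_679 : Good (Q 9) [v428, v30, v409, v404, v403, v344] :=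
  split_of 1 5 v347 1313640791 (by decide +kernel) (good_ofj c1_615) t1_678 rfl rfl

theorem t1_680 : Good (Q 9) [v432, v38, v412, v404, v409, v411] :=
  split_of 1 3 v417 1320147089 (by decide +kernel) (good_ofj c1_625) (good_ofj c1_626) rfl rfl

theorem t1_681 : Good (Q 9) [v428, v38, v412, v404, v409, v411] :=
  split_of 0 1 v432 1325859591 (by decide +kernel) t1_680 (good_ofj c1_627) rfl rfl

theorem t1_682 : Good (Q 9) [v428, v38, v412, v404, v409, v344] :=
  split_of 3 5 v411 1320638258 (by decide +kernel) (good_ofj c1_624) t1_681 rfl rfl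

theorem t1_683 : Good (Q 9) [v433, v43, v7, v414, v413, v351] :=
  split_of 2 5 v354 1351504063 (by decide +kernel) (good_ofj c1_631) (good_ofj c1_632) rfl rfl

theorem t1_684 : Good (Q 9) [v430, v43, v7, v414, v413, v351] :=
  split_of 0 2 v433 1350325825 (by decide +kernel) t1_683 (good_ofj c1_633) rfl rfl

theorem t1_685 : Good (Q 9) [v430, v43, v7, v412, v413, v351] :=
  split_of 2 3 v414 1349460245 (by decide +kernel) (good_ofj c1_630) t1_684 rfl rfl

theorem t1_686 : Good (Q 9) [v430, v38, v43, v412, v413, v356] :=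
  split_of 1 4 v415 1343112045 (by decide +kernel) (good_ofj c1_635) (good_ofj c1_636) rfl rfl

theorem t1_687 : Good (Q 9) [v430, v38, v43, v412, v413, v351] :=
  split_of 1 5 v356 1342711840 (by decide +kernel) (good_ofj c1_634) t1_686 rfl rfl

theorem t1_688 : Good (Q 9) [v430, v38, v7, v412, v413, v351] :=
  split_of 1 2 v43 1347746544 (by decide +kernel) t1_685 t1_687 rfl rfl

theorem t1_689 : Good (Q 9) [v430, v38, v7, v412, v409, v351] :=
  split_of 2 4 v413 1349038282 (by decide +kernel) (good_ofj c1_629) t1_688 rfl rfl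

theorem t1_690 : Good (Q 9) [v430, v38, v7, v412, v409, v344] :=
  split_of 2 5 v351 1347496915 (by decide +kernel) (good_ofj c1_628) t1_689 rfl rfl

theorem t1_691 : Good (Q 9) [v428, v38, v7, v412, v409, v344] :=
  split_of 0 2 v430 1342889933 (by decide +kernel) t1_690 (good_ofj c1_637) rfl rfl

theorem t1_692 : Good (Q 9) [v428, v38, v7, v404, v409, v344] :=
  split_of 2 3 v412 1339459463 (by decide +kernel) t1_682 t1_691 rfl rfl

theorem t1_693 : Good (Q 9) [v432, v347, v38, v404, v409, v411] :=
  split_of 2 3 v417 1320147089 (by decide +kernel) (good_ofj c1_639) (good_ofj c1_640) rfl rfl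

theorem t1_694 : Good (Q 9) [v428, v347, v38, v404, v409, v411] :=
  split_of 0 2 v432 1325859591 (by decide +kernel) t1_693 (good_ofj c1_641) rfl rfl

theorem t1_695 : Good (Q 9) [v428, v347, v38, v404, v409, v344] :=
  split_of 3 5 v411 1320638258 (by decide +kernel) (good_ofj c1_638) t1_694 rfl rfl

theorem t1_696 : Good (Q 8) [v432, v410, v38, v417, v409, v347] :=
  split_of 4 5 v419 1328098027 (by decide +kernel) (good_ofj c1_643) (good_ofj c1_644) rfl rfl

theorem t1_697 : Good (Q 9) [v432, v410, v38, v417, v409, v347] :=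
  P_of 8 9 0xffffffffffffffffffffffffffffff5b9743a8e93e4f62c4b12d8b82d0b52d8b6ffffffffffffffffffffffffffffff2d8b6384e3398e9fffff2c4b02e4b92ecbb
    (by decide +kernel) t1_696

theorem t1_698 : Good (Q 9) [v432, v410, v38, v404, v409, v347] :=
  split_of 2 3 v417 1320147089 (by decide +kernel) (good_ofj c1_642) t1_697 rfl rfl

theorem t1_699 : Good (Q 9) [v428, v410, v38, v404, v409, v347] :=
  split_of 0 2 v432 1325859591 (by decide +kernel) t1_698 (good_ofj c1_645) rfl rfl

theorem t1_700 : Good (Q 7) [v429, v407, v417, v404, v410, v347] :=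
  split_of 3 5 v406 1308681674 (by decide +kernel) (good_ofj c1_646) (good_ofj c1_647) rfl rfl

theorem t1_701 : Good (Q 8) [v429, v407, v417, v404, v410, v347] :=
  P_of 7 8 0xffffffffffffffffffffffffffffff5013e3b4ed4751e2b4ad2d4b52d0b42d0b4ffffffffffffffffffffffffffffff2d0b5340cf35cd6729cd2bcaf310c5324ca
    (by decide +kernel) t1_700

theorem t1_702 : Good (Q 9) [v429, v407, v417, v404, v410, v347] :=
  P_of 8 9 0xffffffffffffffffffffffffffffff4fd403a8ea485202b8ae2d0b52d0b42d0b4ffffffffffffffffffffffffffffff2ccb3340d0358d7fffff2bcaf318c632ccb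
    (by decide +kernel) t1_701

theorem t1_703 : Good (Q 9) [v434, v407, v38, v417, v410, v347] :=
  split_of 1 2 v421 1315851864 (by decide +kernel) (good_ofj c1_648) (good_ofj c1_649) rfl rfl

theorem t1_704 : Good (Q 9) [v429, v407, v434, v417, v410, v347] :=
  split_of 1 5 v422 1304314180 (by decide +kernel) (good_ofj c1_650) (good_ofj c1_651) rfl rfl

theorem t1_705 : Good (Q 9) [v429, v407, v38, v417, v410, v347] :=
  split_of 0 2 v434 1318995381 (by decide +kernel) t1_703 t1_704 rfl rfl

theorem t1_706 : Good (Q 9) [v429, v407, v38, v404, v410, v347] :=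
  split_of 2 3 v417 1320147089 (by decide +kernel) t1_702 t1_705 rfl rfl

theorem t1_707 : Good (Q 9) [v434, v54, v421, v407, v410, v422] :=
  split_of 0 3 v435 1306997294 (by decide +kernel) (good_ofj c1_653) (good_ofj c1_654) rfl rfl

theorem t1_708 : Good (Q 9) [v434, v54, v421, v407, v410, v347] :=
  split_of 3 5 v422 1304314180 (by decide +kernel) (good_ofj c1_652) t1_707 rfl rfl

theorem t1_709 : Good (Q 9) [v434, v54, v38, v421, v410, v347] :=
  split_of 2 5 v360 1324737533 (by decide +kernel) (good_ofj c1_655) (good_ofj c1_656) rfl rfl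

theorem t1_710 : Good (Q 9) [v434, v54, v38, v407, v410, v347] :=
  split_of 2 3 v421 1315851864 (by decide +kernel) t1_708 t1_709 rfl rfl

theorem t1_711 : Good (Q 9) [v436, v54, v434, v407, v410, v422] :=
  split_of 2 3 v435 1306997294 (by decide +kernel) (good_ofj c1_658) (good_ofj c1_659) rfl rfl

theorem t1_712 : Good (Q 9) [v429, v54, v434, v407, v410, v422] :=
  split_of 0 1 v436 1305739407 (by decide +kernel) t1_711 (good_ofj c1_660) rfl rfl

theorem t1_713 : Good (Q 9) [v429, v54, v434, v407, v410, v347] :=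
  split_of 3 5 v422 1304314180 (by decide +kernel) (good_ofj c1_657) t1_712 rfl rfl

theorem t1_714 : Good (Q 9) [v429, v54, v38, v407, v410, v347] :=
  split_of 0 2 v434 1318995381 (by decide +kernel) t1_710 t1_713 rfl rfl

theorem t1_715 : Good (Q 9) [v429, v350, v54, v407, v410, v422] :=
  split_of 0 2 v436 1305739407 (by decide +kernel) (good_ofj c1_662) (good_ofj c1_663) rfl rfl

theorem t1_716 : Good (Q 9) [v429, v350, v54, v407, v410, v347] :=
  split_of 3 5 v422 1304314180 (by decide +kernel) (good_ofj c1_661) t1_715 rfl rfl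

theorem t1_717 : Good (Q 9) [v429, v30, v54, v407, v410, v350] :=
  split_of 1 4 v437 1298722358 (by decide +kernel) (good_ofj c1_664) (good_ofj c1_665) rfl rfl

theorem t1_718 : Good (Q 9) [v429, v30, v54, v407, v410, v347] :=
  split_of 1 5 v350 1298242015 (by decide +kernel) t1_716 t1_717 rfl rfl

theorem t1_719 : Good (Q 9) [v429, v30, v38, v407, v410, v347] :=
  split_of 1 2 v54 1309864426 (by decide +kernel) t1_714 t1_718 rfl rfl

theorem t1_720 : Good (Q 9) [v429, v30, v38, v404, v410, v347] :=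
  split_of 1 3 v407 1292338752 (by decide +kernel) t1_706 t1_719 rfl rfl

theorem t1_721 : Good (Q 9) [v432, v429, v38, v404, v410, v347] :=
  split_of 2 3 v417 1320147089 (by decide +kernel) (good_ofj c1_666) (good_ofj c1_667) rfl rfl

theorem t1_722 : Good (Q 9) [v428, v429, v38, v404, v410, v347] :=
  split_of 0 2 v432 1325859591 (by decide +kernel) t1_721 (good_ofj c1_668) rfl rfl

theorem t1_723 : Good (Q 9) [v428, v30, v38, v404, v410, v347] :=
  split_of 0 1 v429 1300207819 (by decide +kernel) t1_720 t1_722 rfl rfl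

theorem t1_724 : Good (Q 9) [v428, v30, v38, v404, v409, v347] :=
  split_of 1 4 v410 1315466281 (by decide +kernel) t1_699 t1_723 rfl rfl

theorem t1_725 : Good (Q 9) [v428, v30, v38, v404, v409, v344] :=
  split_of 1 5 v347 1313640791 (by decide +kernel) t1_695 t1_724 rfl rfl

theorem t1_726 : Good (Q 9) [v428, v30, v7, v404, v409, v344] :=
  split_of 1 2 v38 1333169107 (by decide +kernel) t1_692 t1_725 rfl rfl

theorem t1_727 : Good (Q 9) [v428, v30, v7, v404, v403, v344] :=
  split_of 2 4 v409 1337829094 (by decide +kernel) t1_679 t1_726 rfl rfl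

theorem t1_728 : Good (Q 9) [v428, v30, v7, v400, v403, v344] :=
  split_of 1 3 v404 1299447568 (by decide +kernel) t1_667 t1_727 rfl rfl

theorem t1_729 : Good (Q 9) [v438, v428, v7, v408, v403, v344] :=
  split_of 2 4 v409 1337829094 (by decide +kernel) (good_ofj c1_670) (good_ofj c1_671) rfl rfl

theorem t1_730 : Good (Q 9) [v438, v428, v7, v400, v403, v344] :=
  split_of 2 3 v408 1339712096 (by decide +kernel) (good_ofj c1_669) t1_729 rfl rfl

theorem t1_731 : Good (Q 9) [v427, v428, v7, v400, v403, v344] :=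
  split_of 0 2 v438 1343852908 (by decide +kernel) t1_730 (good_ofj c1_672) rfl rfl

theorem t1_732 : Good (Q 9) [v427, v30, v7, v400, v403, v344] :=
  split_of 0 1 v428 1313261210 (by decide +kernel) t1_728 t1_731 rfl rfl

theorem t1_733 : Good (Q 9) [v427, v30, v7, v400, v403, v343] :=
  split_of 2 5 v344 1331125411 (by decide +kernel) t1_663 t1_732 rfl rfl

theorem t1_734 : Good (Q 10) [v427, v30, v7, v400, v403, v343] :=
  env_E _ t1_733

theorem t1_735 : Good (Q 10) [v427, v30, v7, v400, v399, v343] :=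
  split_of 1 4 v403 1293212810 (by decide +kernel) (good_ofj c1_600) t1_734 rfl rfl

theorem t1_736 : Good (Q 9) [v441, v30, v428, v404, v405, v367] :=
  split_of 1 5 v368 1283868635 (by decide +kernel) (good_ofj c1_678) (good_ofj c1_679) rfl rfl

theorem t1_737 : Good (Q 9) [v441, v30, v428, v404, v403, v367] :=
  split_of 1 4 v405 1290828974 (by decide +kernel) (good_ofj c1_677) t1_736 rfl rfl

theorem t1_738 : Good (Q 9) [v440, v30, v428, v404, v403, v367] :=
  split_of 0 1 v441 1294822201 (by decide +kernel) t1_737 (good_ofj c1_680) rfl rfl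

theorem t1_739 : Good (Q 9) [v440, v30, v428, v400, v403, v367] :=
  split_of 1 3 v404 1299447568 (by decide +kernel) (good_ofj c1_676) t1_738 rfl rfl

theorem t1_740 : Good (Q 9) [v440, v30, v427, v400, v403, v367] :=
  split_of 1 2 v428 1313261210 (by decide +kernel) (good_ofj c1_675) t1_739 rfl rfl

theorem t1_741 : Good (Q 9) [v439, v30, v427, v400, v403, v367] :=
  split_of 0 3 v440 1293333276 (by decide +kernel) t1_740 (good_ofj c1_681) rfl rfl

theorem t1_742 : Good (Q 10) [v439, v30, v427, v400, v403, v367] :=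
  env_E _ t1_741

theorem t1_743 : Good (Q 10) [v439, v30, v427, v400, v403, v343] :=
  split_of 1 5 v367 1282767547 (by decide +kernel) (good_ofj c1_674) t1_742 rfl rfl

theorem t1_744 : Good (Q 10) [v439, v30, v427, v400, v399, v343] :=
  split_of 1 4 v403 1293212810 (by decide +kernel) (good_ofj c1_673) t1_743 rfl rfl

theorem t1_745 : Good (Q 10) [v426, v30, v427, v400, v399, v343] :=
  split_of 0 1 v439 1270403944 (by decide +kernel) t1_744 (good_ofj c1_682) rfl rfl

theorem t1_746 : Good (Q 10) [v426, v30, v7, v400, v399, v343] :=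
  split_of 0 2 v427 1315710025 (by decide +kernel) t1_735 t1_745 rfl rfl

theorem t1_747 : Good (Q 10) [v426, v30, v7, v397, v399, v343] :=
  split_of 1 3 v400 1295857916 (by decide +kernel) t1_655 t1_746 rfl rfl

theorem t1_748 : Good (Q 10) [v426, v30, v7, v397, v399, v339] :=
  split_of 1 5 v343 1260336929 (by decide +kernel) t1_652 t1_747 rfl rfl

theorem t1_749 : Good (Q 10) [v426, v30, v7, v397, v398, v339] :=
  split_of 1 4 v399 1268403305 (by decide +kernel) (good_ofj c1_592) t1_748 rfl rfl

theorem t1_750 : Good (Q 9) [v444, v30, v374, v404, v441, v367] :=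
  split_of 0 1 v445 1295182638 (by decide +kernel) (good_ofj c1_691) (good_ofj c1_692) rfl rfl

theorem t1_751 : Good (Q 9) [v444, v30, v374, v404, v440, v367] :=
  split_of 1 4 v441 1294822201 (by decide +kernel) (good_ofj c1_690) t1_750 rfl rfl

theorem t1_752 : Good (Q 9) [v444, v30, v374, v400, v440, v367] :=
  split_of 1 3 v404 1299447568 (by decide +kernel) (good_ofj c1_689) t1_751 rfl rfl

theorem t1_753 : Good (Q 9) [v444, v30, v374, v400, v439, v367] :=
  split_of 3 4 v440 1293333276 (by decide +kernel) (good_ofj c1_688) t1_752 rfl rfl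

theorem t1_754 : Good (Q 10) [v444, v30, v374, v400, v439, v367] :=
  env_E _ t1_753

theorem t1_755 : Good (Q 10) [v444, v30, v374, v400, v439, v343] :=
  split_of 1 5 v367 1282767547 (by decide +kernel) (good_ofj c1_687) t1_754 rfl rfl

theorem t1_756 : Good (Q 10) [v444, v30, v369, v400, v439, v343] :=
  split_of 1 2 v374 1311272127 (by decide +kernel) (good_ofj c1_686) t1_755 rfl rfl

theorem t1_757 : Good (Q 10) [v443, v30, v369, v400, v439, v343] :=
  split_of 0 1 v444 1294777133 (by decide +kernel) t1_756 (good_ofj c1_693) rfl rfl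

theorem t1_758 : Good (Q 10) [v443, v30, v369, v400, v426, v343] :=
  split_of 1 4 v439 1270403944 (by decide +kernel) (good_ofj c1_685) t1_757 rfl rfl

theorem t1_759 : Good (Q 10) [v443, v30, v369, v397, v426, v343] :=
  split_of 1 3 v400 1295857916 (by decide +kernel) (good_ofj c1_684) t1_758 rfl rfl

theorem t1_760 : Good (Q 10) [v442, v30, v369, v397, v426, v343] :=
  split_of 0 3 v443 1251137061 (by decide +kernel) t1_759 (good_ofj c1_694) rfl rfl

theorem t1_761 : Good (Q 10) [v442, v30, v369, v397, v426, v339] :=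
  split_of 1 5 v343 1260336929 (by decide +kernel) (good_ofj c1_683) t1_760 rfl rfl

theorem t1_762 : Good (Q 10) [v442, v400, v7, v397, v446, v369] :=
  split_of 2 3 v401 1324037525 (by decide +kernel) (good_ofj c1_696) (good_ofj c1_697) rfl rfl

theorem t1_763 : Good (Q 10) [v442, v400, v7, v397, v426, v369] :=
  split_of 3 4 v446 1244927842 (by decide +kernel) (good_ofj c1_695) t1_762 rfl rfl

theorem t1_764 : Good (Q 9) [v448, v30, v427, v400, v439, v374] :=
  split_of 3 4 v440 1293333276 (by decide +kernel) (good_ofj c1_700) (good_ofj c1_701) rfl rfl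

theorem t1_765 : Good (Q 10) [v448, v30, v427, v400, v439, v374] :=
  env_E _ t1_764

theorem t1_766 : Good (Q 10) [v447, v30, v427, v400, v439, v374] :=
  split_of 0 1 v448 1293513935 (by decide +kernel) t1_765 (good_ofj c1_702) rfl rfl

theorem t1_767 : Good (Q 10) [v447, v30, v427, v400, v439, v369] :=
  split_of 1 5 v374 1311272127 (by decide +kernel) (good_ofj c1_699) t1_766 rfl rfl

theorem t1_768 : Good (Q 10) [v442, v30, v427, v400, v439, v369] :=
  split_of 0 3 v447 1273889978 (by decide +kernel) t1_767 (good_ofj c1_703) rfl rfl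

theorem t1_769 : Good (Q 10) [v442, v30, v427, v400, v426, v369] :=
  split_of 1 4 v439 1270403944 (by decide +kernel) (good_ofj c1_698) t1_768 rfl rfl

theorem t1_770 : Good (Q 9) [v449, v374, v7, v408, v438, v375] :=
  split_of 1 2 v377 1342428891 (by decide +kernel) (good_ofj c1_707) (good_ofj c1_708) rfl rfl

theorem t1_771 : Good (Q 9) [v449, v374, v7, v400, v438, v375] :=
  split_of 2 3 v408 1339712096 (by decide +kernel) (good_ofj c1_706) t1_770 rfl rfl

theorem t1_772 : Good (Q 9) [v449, v374, v7, v400, v427, v375] :=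
  split_of 2 4 v438 1343852908 (by decide +kernel) (good_ofj c1_705) t1_771 rfl rfl

theorem t1_773 : Good (Q 9) [v449, v374, v7, v400, v427, v369] :=
  split_of 2 5 v375 1341729738 (by decide +kernel) (good_ofj c1_704) t1_772 rfl rfl

theorem t1_774 : Good (Q 9) [v450, v430, v7, v451, v438, v377] :=
  split_of 2 4 v452 1350610654 (by decide +kernel) (good_ofj c1_713) (good_ofj c1_714) rfl rfl

theorem t1_775 : Good (Q 9) [v450, v430, v7, v408, v438, v377] :=
  split_of 2 3 v451 1349657301 (by decide +kernel) (good_ofj c1_712) t1_774 rfl rfl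

theorem t1_776 : Good (Q 9) [v450, v428, v7, v408, v438, v377] :=
  split_of 1 2 v430 1342889933 (by decide +kernel) t1_775 (good_ofj c1_715) rfl rfl

theorem t1_777 : Good (Q 9) [v449, v428, v7, v408, v438, v377] :=
  split_of 0 2 v450 1345413067 (by decide +kernel) t1_776 (good_ofj c1_716) rfl rfl

theorem t1_778 : Good (Q 9) [v449, v428, v7, v408, v438, v374] :=
  split_of 2 5 v377 1342428891 (by decide +kernel) (good_ofj c1_711) t1_777 rfl rfl

theorem t1_779 : Good (Q 9) [v449, v428, v7, v400, v438, v374] :=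
  split_of 2 3 v408 1339712096 (by decide +kernel) (good_ofj c1_710) t1_778 rfl rfl

theorem t1_780 : Good (Q 9) [v449, v428, v7, v400, v427, v374] :=
  split_of 2 4 v438 1343852908 (by decide +kernel) (good_ofj c1_709) t1_779 rfl rfl

theorem t1_781 : Good (Q 9) [v450, v414, v7, v451, v430, v377] :=
  split_of 2 5 v379 1350213587 (by decide +kernel) (good_ofj c1_721) (good_ofj c1_722) rfl rfl

theorem t1_782 : Good (Q 9) [v450, v412, v7, v451, v430, v377] :=
  split_of 1 2 v414 1349460245 (by decide +kernel) t1_781 (good_ofj c1_723) rfl rfl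

theorem t1_783 : Good (Q 9) [v450, v412, v7, v408, v430, v377] :=
  split_of 2 3 v451 1349657301 (by decide +kernel) (good_ofj c1_720) t1_782 rfl rfl

theorem t1_784 : Good (Q 9) [v450, v412, v7, v408, v428, v377] :=
  split_of 2 4 v430 1342889933 (by decide +kernel) (good_ofj c1_719) t1_783 rfl rfl

theorem t1_785 : Good (Q 9) [v450, v404, v7, v408, v428, v377] :=
  split_of 1 2 v412 1339459463 (by decide +kernel) t1_784 (good_ofj c1_724) rfl rfl

theorem t1_786 : Good (Q 9) [v449, v404, v7, v408, v428, v377] :=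
  split_of 0 2 v450 1345413067 (by decide +kernel) t1_785 (good_ofj c1_725) rfl rfl

theorem t1_787 : Good (Q 9) [v449, v404, v7, v408, v428, v374] :=
  split_of 2 5 v377 1342428891 (by decide +kernel) (good_ofj c1_718) t1_786 rfl rfl

theorem t1_788 : Good (Q 9) [v449, v404, v7, v400, v428, v374] :=
  split_of 2 3 v408 1339712096 (by decide +kernel) (good_ofj c1_717) t1_787 rfl rfl

theorem t1_789 : Good (Q 9) [v453, v38, v377, v404, v432, v385] :=
  split_of 2 3 v454 1326568411 (by decide +kernel) (good_ofj c1_728) (good_ofj c1_729) rfl rfl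

theorem t1_790 : Good (Q 9) [v453, v38, v377, v404, v428, v385] :=
  split_of 1 4 v432 1325859591 (by decide +kernel) (good_ofj c1_727) t1_789 rfl rfl

theorem t1_791 : Good (Q 9) [v453, v38, v377, v404, v428, v374] :=
  split_of 1 5 v385 1325415297 (by decide +kernel) (good_ofj c1_726) t1_790 rfl rfl

theorem t1_792 : Good (Q 9) [v453, v38, v430, v454, v428, v377] :=
  split_of 1 4 v432 1325859591 (by decide +kernel) (good_ofj c1_730) (good_ofj c1_731) rfl rfl

theorem t1_793 : Good (Q 9) [v453, v38, v430, v404, v432, v454] :=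
  split_of 2 3 v455 1326688263 (by decide +kernel) (good_ofj c1_733) (good_ofj c1_734) rfl rfl

theorem t1_794 : Good (Q 9) [v453, v38, v430, v404, v428, v454] :=
  split_of 1 4 v432 1325859591 (by decide +kernel) (good_ofj c1_732) t1_793 rfl rfl

theorem t1_795 : Good (Q 9) [v453, v38, v430, v404, v428, v377] :=
  split_of 3 5 v454 1326568411 (by decide +kernel) t1_792 t1_794 rfl rfl

theorem t1_796 : Good (Q 9) [v453, v38, v456, v454, v430, v377] :=
  split_of 0 1 v457 1326231995 (by decide +kernel) (good_ofj c1_736) (good_ofj c1_737) rfl rfl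

theorem t1_797 : Good (Q 9) [v453, v38, v412, v454, v430, v377] :=
  split_of 0 2 v456 1329617004 (by decide +kernel) (good_ofj c1_735) t1_796 rfl rfl

theorem t1_798 : Good (Q 9) [v453, v38, v412, v455, v430, v454] :=
  split_of 0 2 v456 1329617004 (by decide +kernel) (good_ofj c1_738) (good_ofj c1_739) rfl rfl

theorem t1_799 : Good (Q 9) [v453, v38, v412, v404, v430, v454] :=
  split_of 3 4 v455 1326688263 (by decide +kernel) t1_798 (good_ofj c1_740) rfl rfl

theorem t1_800 : Good (Q 9) [v453, v38, v412, v404, v430, v377] :=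
  split_of 3 5 v454 1326568411 (by decide +kernel) t1_797 t1_799 rfl rfl

theorem t1_801 : Good (Q 7) [v458, v43, v379, v414, v430, v377] :=
  split_of 1 5 v394 1345802542 (by decide +kernel) (good_ofj c1_742) (good_ofj c1_743) rfl rfl

theorem t1_802 : Good (Q 8) [v458, v43, v379, v414, v430, v377] :=
  P_of 7 8 0xffffffffffffffffffffffffffffff701c1344d136cda2e0b72f8bf2f0bc2e8baffffffffffffffffffffffffffffff2c0b13ecfb41506521472b8ae2d4b42d4b4
    (by decide +kernel) t1_801

theorem t1_803 : Good (Q 9) [v458, v43, v379, v414, v430, v377] :=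
  P_of 8 9 0xfffffffffffffffffffffffffffffffffff348d1360db2e4b82f4be2ecbc2ecbaffffffffffffffffffffffffffffff2c4b03f8fb40d05519482bcae2d0b52d0b5
    (by decide +kernel) t1_802

theorem t1_804 : Good (Q 7) [v458, v43, v433, v414, v430, v379] :=
  split_of 3 4 v459 1346864628 (by decide +kernel) (good_ofj c1_744) (good_ofj c1_745) rfl rfl

theorem t1_805 : Good (Q 8) [v458, v43, v433, v414, v430, v379] :=
  P_of 7 8 0xffffffffffffffffffffffffffffff711c1344d2364d92dcb72f8bf2f4bd2e8baffffffffffffffffffffffffffffff2c4b13f0fa41d07515472b8ae2d0b42d4b5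
    (by decide +kernel) t1_804

theorem t1_806 : Good (Q 9) [v458, v43, v433, v414, v430, v379] :=
  P_of 8 9 0xfffffffffffffffffffffffffffffffffff340d035cd82e4b82f8be2f0bc2f0bbffffffffffffffffffffffffffffff2c4b13fcfe41906509422b8ae2ccb32d0b5
    (by decide +kernel) t1_805

theorem t1_807 : Good (Q 9) [v460, v43, v99, v414, v461, v381] :=
  split_of 1 3 v462 1348797351 (by decide +kernel) (good_ofj c1_749) (good_ofj c1_750) rfl rfl

theorem t1_808 : Good (Q 9) [v460, v43, v99, v414, v433, v381] :=
  split_of 1 4 v461 1349326032 (by decide +kernel) (good_ofj c1_748) t1_807 rfl rfl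

theorem t1_809 : Good (Q 9) [v460, v43, v99, v414, v433, v379] :=
  split_of 1 5 v381 1349299014 (by decide +kernel) (good_ofj c1_747) t1_808 rfl rfl

theorem t1_810 : Good (Q 9) [v460, v43, v7, v414, v433, v379] :=
  split_of 1 2 v99 1351535087 (by decide +kernel) (good_ofj c1_746) t1_809 rfl rfl

theorem t1_811 : Good (Q 7) [v458, v43, v460, v414, v433, v379] :=
  split_of 0 5 v463 1347392442 (by decide +kernel) (good_ofj c1_751) (good_ofj c1_752) rfl rfl

theorem t1_812 : Good (Q 8) [v458, v43, v460, v414, v433, v379] :=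
  P_of 7 8 0xffffffffffffffffffffffffffffff715c5344d0360d82e0b72f8bf2f4be2e8baffffffffffffffffffffffffffffff2c4b13f0fb41d08511442bcae2ccb32d0b5
    (by decide +kernel) t1_811

theorem t1_813 : Good (Q 9) [v458, v43, v460, v414, v433, v379] :=
  P_of 8 9 0xfffffffffffffffffffffffffffffffffff340d1358d82e0b82fcbe2f4bd2ecbaffffffffffffffffffffffffffffff2c8b13f8fc42107505442b8af2ccb32d0b4
    (by decide +kernel) t1_812

theorem t1_814 : Good (Q 9) [v458, v43, v7, v414, v433, v379] :=
  split_of 0 2 v460 1350429413 (by decide +kernel) t1_810 t1_813 rfl rfl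

theorem t1_815 : Good (Q 9) [v458, v43, v7, v414, v430, v379] :=
  split_of 2 4 v433 1350325825 (by decide +kernel) t1_806 t1_814 rfl rfl

theorem t1_816 : Good (Q 9) [v458, v43, v7, v414, v430, v377] :=
  split_of 2 5 v379 1350213587 (by decide +kernel) t1_803 t1_815 rfl rfl

theorem t1_817 : Good (Q 9) [v458, v43, v7, v412, v430, v377] :=
  split_of 2 3 v414 1349460245 (by decide +kernel) (good_ofj c1_741) t1_816 rfl rfl

theorem t1_818 : Good (Q 9) [v458, v38, v43, v412, v430, v387] :=
  split_of 1 4 v464 1339155827 (by decide +kernel) (good_ofj c1_754) (good_ofj c1_755) rfl rfl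

theorem t1_819 : Good (Q 9) [v458, v38, v43, v412, v430, v377] :=
  split_of 1 5 v387 1339048731 (by decide +kernel) (good_ofj c1_753) t1_818 rfl rfl

theorem t1_820 : Good (Q 9) [v458, v38, v7, v412, v430, v377] :=
  split_of 1 2 v43 1347746544 (by decide +kernel) t1_817 t1_819 rfl rfl

theorem t1_821 : Good (Q 9) [v453, v38, v458, v412, v430, v377] :=
  split_of 0 3 v456 1329617004 (by decide +kernel) (good_ofj c1_756) (good_ofj c1_757) rfl rfl

theorem t1_822 : Good (Q 9) [v453, v38, v7, v412, v430, v377] :=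
  split_of 0 2 v458 1343280872 (by decide +kernel) t1_820 t1_821 rfl rfl

theorem t1_823 : Good (Q 9) [v453, v38, v7, v404, v430, v377] :=
  split_of 2 3 v412 1339459463 (by decide +kernel) t1_800 t1_822 rfl rfl

theorem t1_824 : Good (Q 9) [v453, v38, v7, v404, v428, v377] :=
  split_of 2 4 v430 1342889933 (by decide +kernel) t1_795 t1_823 rfl rfl

theorem t1_825 : Good (Q 9) [v453, v38, v7, v404, v428, v374] :=
  split_of 2 5 v377 1342428891 (by decide +kernel) t1_791 t1_824 rfl rfl

theorem t1_826 : Good (Q 9) [v453, v376, v38, v404, v432, v385] :=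
  split_of 2 3 v417 1320147089 (by decide +kernel) (good_ofj c1_760) (good_ofj c1_761) rfl rfl

theorem t1_827 : Good (Q 9) [v453, v376, v38, v404, v428, v385] :=
  split_of 2 4 v432 1325859591 (by decide +kernel) (good_ofj c1_759) t1_826 rfl rfl

theorem t1_828 : Good (Q 9) [v453, v376, v38, v404, v428, v374] :=
  split_of 2 5 v385 1325415297 (by decide +kernel) (good_ofj c1_758) t1_827 rfl rfl

theorem t1_829 : Good (Q 9) [v457, v429, v38, v417, v432, v376] :=
  split_of 2 5 v382 1318892226 (by decide +kernel) (good_ofj c1_764) (good_ofj c1_765) rfl rfl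

theorem t1_830 : Good (Q 9) [v453, v429, v38, v417, v432, v376] :=
  split_of 0 2 v457 1326231995 (by decide +kernel) t1_829 (good_ofj c1_766) rfl rfl

theorem t1_831 : Good (Q 9) [v453, v429, v38, v404, v432, v376] :=
  split_of 2 3 v417 1320147089 (by decide +kernel) (good_ofj c1_763) t1_830 rfl rfl

theorem t1_832 : Good (Q 9) [v453, v429, v38, v404, v428, v376] :=
  split_of 2 4 v432 1325859591 (by decide +kernel) (good_ofj c1_762) t1_831 rfl rfl

theorem t1_833 : Good (Q 7) [v465, v407, v417, v404, v429, v376] :=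
  split_of 3 5 v466 1301666203 (by decide +kernel) (good_ofj c1_767) (good_ofj c1_768) rfl rfl

theorem t1_834 : Good (Q 8) [v465, v407, v417, v404, v429, v376] :=
  P_of 7 8 0xffffffffffffffffffffffffffffff4f13d3b0ec485212b8ae2d4b72d4b52c0b0ffffffffffffffffffffffffffffff2c8b3334cd35cd8741cf2c4b0320c8324c8
    (by decide +kernel) t1_833

theorem t1_835 : Good (Q 9) [v465, v407, v417, v404, v429, v376] :=
  P_of 8 9 0xffffffffffffffffffffffffffffff4f93e3a0e8495252b8ae2dcb72d8b62c0b0ffffffffffffffffffffffffffffff2c4b1330cc368dafffff2bcaf324c932ccb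
    (by decide +kernel) t1_834

theorem t1_836 : Good (Q 8) [v465, v407, v382, v417, v429, v376] :=
  split_of 3 5 v467 1311242830 (by decide +kernel) (good_ofj c1_769) (good_ofj c1_770) rfl rfl

theorem t1_837 : Good (Q 9) [v465, v407, v382, v417, v429, v376] :=
  P_of 8 9 0xffffffffffffffffffffffffffffff501403c0f0469192b8ae2dcb72ccb32c8b2ffffffffffffffffffffffffffffff2d8b633ccf35cd8fffff2c4b1314c5314c5
    (by decide +kernel) t1_836

theorem t1_838 : Good (Q 9) [v465, v407, v434, v417, v429, v382] :=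
  split_of 3 4 v468 1311352685 (by decide +kernel) (good_ofj c1_771) (good_ofj c1_772) rfl rfl

theorem t1_839 : Good (Q 9) [v465, v407, v421, v417, v434, v382] :=
  split_of 0 3 v469 1311446046 (by decide +kernel) (good_ofj c1_774) (good_ofj c1_775) rfl rfl

theorem t1_840 : Good (Q 9) [v465, v407, v38, v417, v434, v382] :=
  split_of 1 2 v421 1315851864 (by decide +kernel) (good_ofj c1_773) t1_839 rfl rfl

theorem t1_841 : Good (Q 9) [v465, v407, v38, v417, v429, v382] :=
  split_of 2 4 v434 1318995381 (by decide +kernel) t1_838 t1_840 rfl rfl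

theorem t1_842 : Good (Q 9) [v465, v407, v38, v417, v429, v376] :=
  split_of 2 5 v382 1318892226 (by decide +kernel) t1_837 t1_841 rfl rfl

theorem t1_843 : Good (Q 9) [v465, v407, v38, v404, v429, v376] :=
  split_of 2 3 v417 1320147089 (by decide +kernel) t1_835 t1_842 rfl rfl

theorem t1_844 : Good (Q 9) [v465, v54, v434, v407, v436, v382] :=
  split_of 3 5 v470 1306970801 (by decide +kernel) (good_ofj c1_778) (good_ofj c1_779) rfl rfl

theorem t1_845 : Good (Q 9) [v465, v54, v434, v407, v429, v382] :=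
  split_of 1 4 v436 1305739407 (by decide +kernel) (good_ofj c1_777) t1_844 rfl rfl

theorem t1_846 : Good (Q 7) [v465, v54, v421, v470, v434, v382] :=
  split_of 0 2 v471 1308854445 (by decide +kernel) (good_ofj c1_780) (good_ofj c1_781) rfl rfl

theorem t1_847 : Good (Q 8) [v465, v54, v421, v470, v434, v382] :=
  P_of 7 8 0xffffffffffffffffffffffffffffff519453f0fc419062c0b02d0b42d0b42c0afffffffffffffffffffffffffffffff2e4b9344d0364d9709c32e4b92f4bd2f4bd
    (by decide +kernel) t1_846

theorem t1_848 : Good (Q 9) [v465, v54, v421, v470, v434, v382] :=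
  P_of 8 9 0xffffffffffffffffffffffffffffff515463ecfc41d062c0b02d0b42ccb42c0b0ffffffffffffffffffffffffffffff2e4b9344d1360d9fffff2e0b92f8bd2f8bd
    (by decide +kernel) t1_847

theorem t1_849 : Good (Q 9) [v465, v54, v421, v407, v435, v470] :=
  split_of 0 1 v472 1305831726 (by decide +kernel) (good_ofj c1_783) (good_ofj c1_784) rfl rfl

theorem t1_850 : Good (Q 9) [v465, v54, v421, v407, v434, v470] :=
  split_of 3 4 v435 1306997294 (by decide +kernel) (good_ofj c1_782) t1_849 rfl rfl

theorem t1_851 : Good (Q 9) [v465, v54, v421, v407, v434, v382] :=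
  split_of 3 5 v470 1306970801 (by decide +kernel) t1_848 t1_850 rfl rfl

theorem t1_852 : Good (Q 9) [v465, v54, v38, v421, v434, v382] :=
  split_of 0 2 v473 1319089474 (by decide +kernel) (good_ofj c1_785) (good_ofj c1_786) rfl rfl

theorem t1_853 : Good (Q 9) [v465, v54, v38, v407, v434, v382] :=
  split_of 2 3 v421 1315851864 (by decide +kernel) t1_851 t1_852 rfl rfl

theorem t1_854 : Good (Q 9) [v465, v54, v38, v407, v429, v382] :=
  split_of 2 4 v434 1318995381 (by decide +kernel) t1_845 t1_853 rfl rfl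

theorem t1_855 : Good (Q 9) [v465, v54, v38, v407, v429, v376] :=
  split_of 2 5 v382 1318892226 (by decide +kernel) (good_ofj c1_776) t1_854 rfl rfl

theorem t1_856 : Good (Q 9) [v465, v30, v38, v407, v429, v376] :=
  split_of 1 2 v54 1309864426 (by decide +kernel) t1_855 (good_ofj c1_787) rfl rfl

theorem t1_857 : Good (Q 9) [v465, v30, v38, v404, v429, v376] :=
  split_of 1 3 v407 1292338752 (by decide +kernel) t1_843 t1_856 rfl rfl

theorem t1_858 : Good (Q 9) [v457, v465, v38, v417, v429, v382] :=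
  split_of 2 4 v434 1318995381 (by decide +kernel) (good_ofj c1_790) (good_ofj c1_791) rfl rfl

theorem t1_859 : Good (Q 9) [v457, v465, v38, v417, v429, v376] :=
  split_of 2 5 v382 1318892226 (by decide +kernel) (good_ofj c1_789) t1_858 rfl rfl

theorem t1_860 : Good (Q 9) [v457, v465, v38, v404, v429, v376] :=
  split_of 2 3 v417 1320147089 (by decide +kernel) (good_ofj c1_788) t1_859 rfl rfl

theorem t1_861 : Good (Q 9) [v453, v465, v38, v404, v429, v376] :=
  split_of 0 2 v457 1326231995 (by decide +kernel) t1_860 (good_ofj c1_792) rfl rfl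

theorem t1_862 : Good (Q 9) [v453, v30, v38, v404, v429, v376] :=
  split_of 0 1 v465 1300565277 (by decide +kernel) t1_857 t1_861 rfl rfl

theorem t1_863 : Good (Q 9) [v453, v30, v38, v404, v428, v376] :=
  split_of 1 4 v429 1300207819 (by decide +kernel) t1_832 t1_862 rfl rfl

theorem t1_864 : Good (Q 9) [v453, v30, v38, v404, v428, v374] :=
  split_of 1 5 v376 1299775629 (by decide +kernel) t1_828 t1_863 rfl rfl

theorem t1_865 : Good (Q 9) [v453, v30, v7, v404, v428, v374] :=
  split_of 1 2 v38 1333169107 (by decide +kernel) t1_825 t1_864 rfl rfl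

theorem t1_866 : Good (Q 9) [v450, v458, v7, v414, v430, v379] :=
  split_of 2 4 v433 1350325825 (by decide +kernel) (good_ofj c1_798) (good_ofj c1_799) rfl rfl

theorem t1_867 : Good (Q 9) [v450, v458, v7, v412, v430, v379] :=
  split_of 2 3 v414 1349460245 (by decide +kernel) (good_ofj c1_797) t1_866 rfl rfl

theorem t1_868 : Good (Q 9) [v450, v458, v7, v412, v430, v377] :=
  split_of 2 5 v379 1350213587 (by decide +kernel) (good_ofj c1_796) t1_867 rfl rfl

theorem t1_869 : Good (Q 9) [v450, v453, v7, v412, v430, v377] :=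
  split_of 1 2 v458 1343280872 (by decide +kernel) t1_868 (good_ofj c1_800) rfl rfl

theorem t1_870 : Good (Q 9) [v450, v453, v7, v404, v430, v377] :=
  split_of 2 3 v412 1339459463 (by decide +kernel) (good_ofj c1_795) t1_869 rfl rfl

theorem t1_871 : Good (Q 9) [v450, v453, v7, v404, v428, v377] :=
  split_of 2 4 v430 1342889933 (by decide +kernel) (good_ofj c1_794) t1_870 rfl rfl

theorem t1_872 : Good (Q 9) [v449, v453, v7, v404, v428, v377] :=
  split_of 0 2 v450 1345413067 (by decide +kernel) t1_871 (good_ofj c1_801) rfl rfl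

theorem t1_873 : Good (Q 9) [v449, v453, v7, v404, v428, v374] :=
  split_of 2 5 v377 1342428891 (by decide +kernel) (good_ofj c1_793) t1_872 rfl rfl

theorem t1_874 : Good (Q 9) [v449, v30, v7, v404, v428, v374] :=
  split_of 0 1 v453 1314661650 (by decide +kernel) t1_865 t1_873 rfl rfl

theorem t1_875 : Good (Q 9) [v449, v30, v7, v400, v428, v374] :=
  split_of 1 3 v404 1299447568 (by decide +kernel) t1_788 t1_874 rfl rfl

theorem t1_876 : Good (Q 9) [v449, v30, v7, v400, v427, v374] :=
  split_of 1 4 v428 1313261210 (by decide +kernel) t1_780 t1_875 rfl rfl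

theorem t1_877 : Good (Q 9) [v449, v30, v7, v400, v427, v369] :=
  split_of 1 5 v374 1311272127 (by decide +kernel) t1_773 t1_876 rfl rfl

theorem t1_878 : Good (Q 9) [v445, v30, v453, v404, v428, v374] :=
  split_of 1 5 v376 1299775629 (by decide +kernel) (good_ofj c1_806) (good_ofj c1_807) rfl rfl

theorem t1_879 : Good (Q 9) [v444, v30, v453, v404, v428, v374] :=
  split_of 0 1 v445 1295182638 (by decide +kernel) t1_878 (good_ofj c1_808) rfl rfl

theorem t1_880 : Good (Q 9) [v444, v30, v449, v404, v428, v374] :=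
  split_of 1 2 v453 1314661650 (by decide +kernel) (good_ofj c1_805) t1_879 rfl rfl

theorem t1_881 : Good (Q 9) [v444, v30, v449, v400, v428, v374] :=
  split_of 1 3 v404 1299447568 (by decide +kernel) (good_ofj c1_804) t1_880 rfl rfl

theorem t1_882 : Good (Q 9) [v474, v30, v449, v400, v428, v374] :=
  split_of 0 3 v444 1294777133 (by decide +kernel) t1_881 (good_ofj c1_809) rfl rfl

theorem t1_883 : Good (Q 9) [v474, v30, v449, v400, v427, v374] :=
  split_of 1 4 v428 1313261210 (by decide +kernel) (good_ofj c1_803) t1_882 rfl rfl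

theorem t1_884 : Good (Q 9) [v474, v30, v449, v400, v427, v369] :=
  split_of 1 5 v374 1311272127 (by decide +kernel) (good_ofj c1_802) t1_883 rfl rfl

theorem t1_885 : Good (Q 9) [v442, v30, v449, v400, v427, v369] :=
  split_of 0 1 v474 1275378169 (by decide +kernel) t1_884 (good_ofj c1_810) rfl rfl

theorem t1_886 : Good (Q 9) [v442, v30, v7, v400, v427, v369] :=
  split_of 0 2 v449 1321273347 (by decide +kernel) t1_877 t1_885 rfl rfl

theorem t1_887 : Good (Q 10) [v442, v30, v7, v400, v427, v369] :=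
  env_E _ t1_886

theorem t1_888 : Good (Q 10) [v442, v30, v7, v400, v426, v369] :=
  split_of 2 4 v427 1315710025 (by decide +kernel) t1_769 t1_887 rfl rfl

theorem t1_889 : Good (Q 10) [v442, v30, v7, v397, v426, v369] :=
  split_of 1 3 v400 1295857916 (by decide +kernel) t1_763 t1_888 rfl rfl

theorem t1_890 : Good (Q 10) [v442, v30, v7, v397, v426, v339] :=
  split_of 2 5 v369 1305386625 (by decide +kernel) t1_761 t1_889 rfl rfl

theorem t1_891 : Good (Q 9) [v109, v377, v7, v450, v438, v375] :=
  split_of 2 5 v384 1350127237 (by decide +kernel) (good_ofj c1_817) (good_ofj c1_818) rfl rfl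

theorem t1_892 : Good (Q 9) [v108, v377, v7, v450, v438, v375] :=
  split_of 0 2 v109 1347302695 (by decide +kernel) t1_891 (good_ofj c1_819) rfl rfl

theorem t1_893 : Good (Q 9) [v108, v377, v7, v449, v438, v375] :=
  split_of 2 3 v450 1345413067 (by decide +kernel) (good_ofj c1_816) t1_892 rfl rfl

theorem t1_894 : Good (Q 9) [v108, v374, v7, v449, v438, v375] :=
  split_of 1 2 v377 1342428891 (by decide +kernel) t1_893 (good_ofj c1_820) rfl rfl

theorem t1_895 : Good (Q 9) [v108, v374, v7, v449, v427, v375] :=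
  split_of 2 4 v438 1343852908 (by decide +kernel) (good_ofj c1_815) t1_894 rfl rfl

theorem t1_896 : Good (Q 9) [v108, v374, v7, v449, v427, v369] :=
  split_of 2 5 v375 1341729738 (by decide +kernel) (good_ofj c1_814) t1_895 rfl rfl

theorem t1_897 : Good (Q 9) [v109, v430, v7, v450, v452, v379] :=
  split_of 1 2 v433 1350325825 (by decide +kernel) (good_ofj c1_826) (good_ofj c1_827) rfl rfl

theorem t1_898 : Good (Q 9) [v109, v430, v7, v450, v452, v377] :=
  split_of 2 5 v379 1350213587 (by decide +kernel) (good_ofj c1_825) t1_897 rfl rfl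

theorem t1_899 : Good (Q 9) [v109, v430, v7, v450, v438, v377] :=
  split_of 2 4 v452 1350610654 (by decide +kernel) (good_ofj c1_824) t1_898 rfl rfl

theorem t1_900 : Good (Q 9) [v108, v430, v7, v450, v438, v377] :=
  split_of 0 2 v109 1347302695 (by decide +kernel) t1_899 (good_ofj c1_828) rfl rfl

theorem t1_901 : Good (Q 9) [v108, v430, v7, v449, v438, v377] :=
  split_of 2 3 v450 1345413067 (by decide +kernel) (good_ofj c1_823) t1_900 rfl rfl

theorem t1_902 : Good (Q 9) [v108, v428, v7, v449, v438, v377] :=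
  split_of 1 2 v430 1342889933 (by decide +kernel) t1_901 (good_ofj c1_829) rfl rfl

theorem t1_903 : Good (Q 9) [v108, v428, v7, v449, v438, v374] :=
  split_of 2 5 v377 1342428891 (by decide +kernel) (good_ofj c1_822) t1_902 rfl rfl

theorem t1_904 : Good (Q 9) [v108, v428, v7, v449, v427, v374] :=
  split_of 2 4 v438 1343852908 (by decide +kernel) (good_ofj c1_821) t1_903 rfl rfl

theorem t1_905 : Good (Q 9) [v109, v458, v7, v450, v433, v379] :=
  split_of 2 3 v475 1351024736 (by decide +kernel) (good_ofj c1_835) (good_ofj c1_836) rfl rfl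

theorem t1_906 : Good (Q 9) [v109, v458, v7, v450, v430, v379] :=
  split_of 2 4 v433 1350325825 (by decide +kernel) (good_ofj c1_834) t1_905 rfl rfl

theorem t1_907 : Good (Q 9) [v109, v458, v7, v450, v430, v377] :=
  split_of 2 5 v379 1350213587 (by decide +kernel) (good_ofj c1_833) t1_906 rfl rfl

theorem t1_908 : Good (Q 9) [v108, v458, v7, v450, v430, v377] :=
  split_of 0 2 v109 1347302695 (by decide +kernel) t1_907 (good_ofj c1_837) rfl rfl

theorem t1_909 : Good (Q 9) [v108, v453, v7, v450, v430, v377] :=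
  split_of 1 2 v458 1343280872 (by decide +kernel) t1_908 (good_ofj c1_838) rfl rfl

theorem t1_910 : Good (Q 9) [v108, v453, v7, v450, v428, v377] :=
  split_of 2 4 v430 1342889933 (by decide +kernel) (good_ofj c1_832) t1_909 rfl rfl

theorem t1_911 : Good (Q 9) [v108, v453, v7, v449, v428, v377] :=
  split_of 2 3 v450 1345413067 (by decide +kernel) (good_ofj c1_831) t1_910 rfl rfl

theorem t1_912 : Good (Q 9) [v108, v453, v7, v449, v428, v374] :=
  split_of 2 5 v377 1342428891 (by decide +kernel) (good_ofj c1_830) t1_911 rfl rfl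

theorem t1_913 : Good (Q 9) [v108, v38, v377, v453, v428, v374] :=
  split_of 0 1 v111 1336786951 (by decide +kernel) (good_ofj c1_839) (good_ofj c1_840) rfl rfl

theorem t1_914 : Good (Q 9) [v108, v38, v430, v453, v428, v377] :=
  split_of 0 1 v111 1336786951 (by decide +kernel) (good_ofj c1_841) (good_ofj c1_842) rfl rfl

theorem t1_915 : Good (Q 9) [v108, v38, v458, v453, v430, v377] :=
  split_of 0 1 v111 1336786951 (by decide +kernel) (good_ofj c1_843) (good_ofj c1_844) rfl rfl

theorem t1_916 : Good (Q 9) [v109, v43, v379, v458, v430, v386] :=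
  split_of 0 1 v113 1348854888 (by decide +kernel) (good_ofj c1_846) (good_ofj c1_847) rfl rfl

theorem t1_917 : Good (Q 9) [v109, v43, v379, v458, v430, v377] :=
  split_of 0 5 v386 1346091026 (by decide +kernel) (good_ofj c1_845) t1_916 rfl rfl

theorem t1_918 : Good (Q 7) [v113, v43, v433, v458, v430, v379] :=
  split_of 1 4 v476 1345912041 (by decide +kernel) (good_ofj c1_848) (good_ofj c1_849) rfl rfl

theorem t1_919 : Good (Q 8) [v113, v43, v433, v458, v430, v379] :=
  P_of 7 8 0xffffffffffffffffffffffffffffff71dc2348d3358d72dcb72fcbf2f8be2e8b9ffffffffffffffffffffffffffffff2c8b23f0fa42508509462bcaf2c8b32ccb3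
    (by decide +kernel) t1_918

theorem t1_920 : Good (Q 9) [v113, v43, v433, v458, v430, v379] :=
  P_of 8 9 0xfffffffffffffffffffffffffffffffffff348d2354d62dcb72fcbf2f8be2e8baffffffffffffffffffffffffffffff2c8b23f0fc42509509422bcaf2c8b22ccb3
    (by decide +kernel) t1_919

theorem t1_921 : Good (Q 9) [v109, v43, v433, v458, v430, v379] :=
  split_of 0 1 v113 1348854888 (by decide +kernel) t1_920 (good_ofj c1_850) rfl rfl

theorem t1_922 : Good (Q 7) [v113, v43, v460, v458, v433, v379] :=
  split_of 3 5 v463 1347392442 (by decide +kernel) (good_ofj c1_851) (good_ofj c1_852) rfl rfl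

theorem t1_923 : Good (Q 8) [v113, v43, v460, v458, v433, v379] :=
  P_of 7 8 0xffffffffffffffffffffffffffffff71dc5348d2354d72e0b82f8bf2f8be2e8b9ffffffffffffffffffffffffffffff2c4b13f0fb42508509442c0b02c8b32ccb4
    (by decide +kernel) t1_922

theorem t1_924 : Good (Q 9) [v113, v43, v460, v458, v433, v379] :=
  P_of 8 9 0xfffffffffffffffffffffffffffffffffff348d2354d52e0b82f8be2f8be2e8baffffffffffffffffffffffffffffff2c4b13f0fc42509509422c0b02c8b22ccb3
    (by decide +kernel) t1_923

theorem t1_925 : Good (Q 9) [v109, v43, v460, v458, v433, v379] :=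
  split_of 0 1 v113 1348854888 (by decide +kernel) t1_924 (good_ofj c1_853) rfl rfl

theorem t1_926 : Good (Q 9) [v115, v43, v99, v460, v433, v381] :=
  split_of 1 4 v461 1349326032 (by decide +kernel) (good_ofj c1_856) (good_ofj c1_857) rfl rfl

theorem t1_927 : Good (Q 9) [v115, v43, v99, v460, v433, v379] :=
  split_of 1 5 v381 1349299014 (by decide +kernel) (good_ofj c1_855) t1_926 rfl rfl

theorem t1_928 : Good (Q 9) [v114, v43, v99, v460, v433, v379] :=
  split_of 0 1 v115 1350548520 (by decide +kernel) t1_927 (good_ofj c1_858) rfl rfl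

theorem t1_929 : Good (Q 9) [v114, v43, v7, v460, v433, v379] :=
  split_of 1 2 v99 1351535087 (by decide +kernel) (good_ofj c1_854) t1_928 rfl rfl

theorem t1_930 : Good (Q 9) [v109, v43, v7, v460, v433, v379] :=
  split_of 0 2 v114 1351479933 (by decide +kernel) t1_929 (good_ofj c1_859) rfl rfl

theorem t1_931 : Good (Q 9) [v109, v43, v7, v458, v433, v379] :=
  split_of 2 3 v460 1350429413 (by decide +kernel) t1_925 t1_930 rfl rfl

theorem t1_932 : Good (Q 9) [v109, v43, v7, v458, v430, v379] :=
  split_of 2 4 v433 1350325825 (by decide +kernel) t1_921 t1_931 rfl rfl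

theorem t1_933 : Good (Q 9) [v109, v43, v7, v458, v430, v377] :=
  split_of 2 5 v379 1350213587 (by decide +kernel) t1_917 t1_932 rfl rfl

theorem t1_934 : Good (Q 9) [v117, v38, v43, v458, v430, v387] :=
  split_of 1 4 v464 1339155827 (by decide +kernel) (good_ofj c1_861) (good_ofj c1_862) rfl rfl

theorem t1_935 : Good (Q 9) [v117, v38, v43, v458, v430, v377] :=
  split_of 1 5 v387 1339048731 (by decide +kernel) (good_ofj c1_860) t1_934 rfl rfl

theorem t1_936 : Good (Q 9) [v109, v38, v43, v458, v430, v377] :=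
  split_of 0 1 v117 1343797121 (by decide +kernel) t1_935 (good_ofj c1_863) rfl rfl

theorem t1_937 : Good (Q 9) [v109, v38, v7, v458, v430, v377] :=
  split_of 1 2 v43 1347746544 (by decide +kernel) t1_933 t1_936 rfl rfl

theorem t1_938 : Good (Q 9) [v108, v38, v7, v458, v430, v377] :=
  split_of 0 2 v109 1347302695 (by decide +kernel) t1_937 (good_ofj c1_864) rfl rfl

theorem t1_939 : Good (Q 9) [v108, v38, v7, v453, v430, v377] :=
  split_of 2 3 v458 1343280872 (by decide +kernel) t1_915 t1_938 rfl rfl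

theorem t1_940 : Good (Q 9) [v108, v38, v7, v453, v428, v377] :=
  split_of 2 4 v430 1342889933 (by decide +kernel) t1_914 t1_939 rfl rfl

theorem t1_941 : Good (Q 9) [v108, v38, v7, v453, v428, v374] :=
  split_of 2 5 v377 1342428891 (by decide +kernel) t1_913 t1_940 rfl rfl

theorem t1_942 : Good (Q 9) [v120, v465, v38, v457, v429, v376] :=
  split_of 2 5 v382 1318892226 (by decide +kernel) (good_ofj c1_868) (good_ofj c1_869) rfl rfl

theorem t1_943 : Good (Q 9) [v120, v465, v38, v453, v429, v376] :=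
  split_of 2 3 v457 1326231995 (by decide +kernel) (good_ofj c1_867) t1_942 rfl rfl

theorem t1_944 : Good (Q 7) [v121, v54, v473, v465, v434, v382] :=
  split_of 1 3 v472 1305831726 (by decide +kernel) (good_ofj c1_872) (good_ofj c1_873) rfl rfl

theorem t1_945 : Good (Q 8) [v121, v54, v473, v465, v434, v382] :=
  P_of 7 8 0xffffffffffffffffffffffffffffff511443fcfe411052bcaf2d0b42d0b42bcafffffffffffffffffffffffffffffff2e8ba33ccf364d9715c52e8ba2f0bd2f0bd
    (by decide +kernel) t1_944

theorem t1_946 : Good (Q 9) [v121, v54, v473, v465, v434, v382] :=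
  P_of 8 9 0xffffffffffffffffffffffffffffff521443fcff405042bcaf2d4b42d4b42bcafffffffffffffffffffffffffffffff2e8ba344cf368d9fffff2e8ba2ecbc2ecbc
    (by decide +kernel) t1_945

theorem t1_947 : Good (Q 9) [v121, v54, v38, v473, v434, v382] :=
  split_of 0 2 v123 1319243250 (by decide +kernel) (good_ofj c1_874) (good_ofj c1_875) rfl rfl

theorem t1_948 : Good (Q 9) [v121, v54, v38, v465, v434, v382] :=
  split_of 2 3 v473 1319089474 (by decide +kernel) t1_946 t1_947 rfl rfl

theorem t1_949 : Good (Q 9) [v121, v54, v38, v465, v429, v382] :=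
  split_of 2 4 v434 1318995381 (by decide +kernel) (good_ofj c1_871) t1_948 rfl rfl

theorem t1_950 : Good (Q 9) [v121, v54, v38, v465, v429, v376] :=
  split_of 2 5 v382 1318892226 (by decide +kernel) (good_ofj c1_870) t1_949 rfl rfl

theorem t1_951 : Good (Q 9) [v121, v30, v38, v465, v429, v376] :=
  split_of 1 2 v54 1309864426 (by decide +kernel) t1_950 (good_ofj c1_876) rfl rfl

theorem t1_952 : Good (Q 9) [v124, v121, v38, v465, v429, v376] :=
  split_of 2 5 v382 1318892226 (by decide +kernel) (good_ofj c1_877) (good_ofj c1_878) rfl rfl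

theorem t1_953 : Good (Q 9) [v120, v121, v38, v465, v429, v376] :=
  split_of 0 2 v124 1326818823 (by decide +kernel) t1_952 (good_ofj c1_879) rfl rfl

theorem t1_954 : Good (Q 9) [v120, v30, v38, v465, v429, v376] :=
  split_of 0 1 v121 1301234981 (by decide +kernel) t1_951 t1_953 rfl rfl

theorem t1_955 : Good (Q 9) [v120, v30, v38, v453, v429, v376] :=
  split_of 1 3 v465 1300565277 (by decide +kernel) t1_943 t1_954 rfl rfl

theorem t1_956 : Good (Q 9) [v120, v30, v38, v453, v428, v376] :=
  split_of 1 4 v429 1300207819 (by decide +kernel) (good_ofj c1_866) t1_955 rfl rfl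

theorem t1_957 : Good (Q 9) [v120, v30, v38, v453, v428, v374] :=
  split_of 1 5 v376 1299775629 (by decide +kernel) (good_ofj c1_865) t1_956 rfl rfl

theorem t1_958 : Good (Q 9) [v108, v30, v38, v453, v428, v374] :=
  split_of 0 1 v120 1317105264 (by decide +kernel) t1_957 (good_ofj c1_880) rfl rfl

theorem t1_959 : Good (Q 9) [v108, v30, v7, v453, v428, v374] :=
  split_of 1 2 v38 1333169107 (by decide +kernel) t1_941 t1_958 rfl rfl

theorem t1_960 : Good (Q 9) [v108, v30, v7, v449, v428, v374] :=
  split_of 1 3 v453 1314661650 (by decide +kernel) t1_912 t1_959 rfl rfl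

theorem t1_961 : Good (Q 9) [v108, v30, v7, v449, v427, v374] :=
  split_of 1 4 v428 1313261210 (by decide +kernel) t1_904 t1_960 rfl rfl

theorem t1_962 : Good (Q 9) [v108, v30, v7, v449, v427, v369] :=
  split_of 1 5 v374 1311272127 (by decide +kernel) t1_896 t1_961 rfl rfl

theorem t1_963 : Good (Q 9) [v107, v30, v7, v449, v427, v369] :=
  split_of 0 2 v108 1329531520 (by decide +kernel) t1_962 (good_ofj c1_881) rfl rfl

theorem t1_964 : Good (Q 9) [v107, v30, v7, v442, v427, v369] :=
  split_of 2 3 v449 1321273347 (by decide +kernel) (good_ofj c1_813) t1_963 rfl rfl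

theorem t1_965 : Good (Q 10) [v107, v30, v7, v442, v427, v369] :=
  env_E _ t1_964

theorem t1_966 : Good (Q 10) [v107, v30, v7, v442, v426, v369] :=
  split_of 2 4 v427 1315710025 (by decide +kernel) (good_ofj c1_812) t1_965 rfl rfl

theorem t1_967 : Good (Q 10) [v107, v30, v7, v442, v426, v339] :=
  split_of 2 5 v369 1305386625 (by decide +kernel) (good_ofj c1_811) t1_966 rfl rfl

theorem t1_968 : Good (Q 10) [v125, v30, v7, v442, v426, v339] :=
  split_of 0 2 v107 1245967015 (by decide +kernel) t1_967 (good_ofj c1_882) rfl rfl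

theorem t1_969 : Good (Q 10) [v125, v30, v7, v397, v426, v339] :=
  split_of 0 3 v442 1202967926 (by decide +kernel) t1_890 t1_968 rfl rfl

theorem t1_970 : Good (Q 10) [v125, v30, v7, v397, v398, v339] :=
  split_of 0 4 v426 1184875434 (by decide +kernel) t1_749 t1_969 rfl rfl

theorem t1_971 : Good (Q 10) [v125, v30, v7, v397, v398, v341] :=
  split_of 0 5 v339 1116736499 (by decide +kernel) t1_650 t1_970 rfl rfl

theorem t1_972 : Good (Q 9) [v367, v30, v477, v10, v20, v342] :=
  split_of 1 3 v22 1303729140 (by decide +kernel) (good_ofj c1_890) (good_ofj c1_891) rfl rfl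

theorem t1_973 : Good (Q 10) [v367, v30, v477, v10, v20, v342] :=
  env_E _ t1_972

theorem t1_974 : Good (Q 10) [v343, v30, v477, v10, v20, v342] :=
  split_of 0 1 v367 1282767547 (by decide +kernel) t1_973 (good_ofj c1_892) rfl rfl

theorem t1_975 : Good (Q 10) [v343, v30, v287, v10, v20, v342] :=
  split_of 1 2 v477 1264886921 (by decide +kernel) (good_ofj c1_889) t1_974 rfl rfl

theorem t1_976 : Good (Q 10) [v343, v30, v287, v10, v1, v342] :=
  split_of 1 4 v20 1297535559 (by decide +kernel) (good_ofj c1_888) t1_975 rfl rfl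

theorem t1_977 : Good (Q 10) [v343, v30, v287, v3, v1, v342] :=
  split_of 1 3 v10 1307275754 (by decide +kernel) (good_ofj c1_887) t1_976 rfl rfl

theorem t1_978 : Good (Q 10) [v343, v30, v286, v3, v1, v342] :=
  split_of 1 2 v287 1222692218 (by decide +kernel) (good_ofj c1_886) t1_977 rfl rfl

theorem t1_979 : Good (Q 10) [v339, v30, v286, v3, v1, v342] :=
  split_of 0 1 v343 1260336929 (by decide +kernel) t1_978 (good_ofj c1_893) rfl rfl

theorem t1_980 : Good (Q 10) [v339, v30, v286, v3, v1, v340] :=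
  split_of 1 5 v342 1284967838 (by decide +kernel) (good_ofj c1_885) t1_979 rfl rfl

theorem t1_981 : Good (Q 10) [v339, v30, v286, v3, v4, v340] :=
  split_of 1 4 v1 1280313892 (by decide +kernel) (good_ofj c1_884) t1_980 rfl rfl

theorem t1_982 : Good (Q 10) [v339, v30, v286, v3, v4, v341] :=
  split_of 1 5 v340 1222692218 (by decide +kernel) (good_ofj c1_883) t1_981 rfl rfl

theorem t1_983 : Good (Q 10) [v62, v30, v287, v10, v1, v343] :=
  split_of 0 1 v151 1273393141 (by decide +kernel) (good_ofj c1_898) (good_ofj c1_899) rfl rfl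

theorem t1_984 : Good (Q 10) [v62, v30, v287, v3, v1, v343] :=
  split_of 1 3 v10 1307275754 (by decide +kernel) (good_ofj c1_897) t1_983 rfl rfl

theorem t1_985 : Good (Q 10) [v62, v30, v286, v3, v1, v343] :=
  split_of 1 2 v287 1222692218 (by decide +kernel) (good_ofj c1_896) t1_984 rfl rfl

theorem t1_986 : Good (Q 10) [v62, v30, v286, v3, v1, v339] :=
  split_of 1 5 v343 1260336929 (by decide +kernel) (good_ofj c1_895) t1_985 rfl rfl

theorem t1_987 : Good (Q 10) [v62, v30, v286, v3, v4, v339] :=
  split_of 1 4 v1 1280313892 (by decide +kernel) (good_ofj c1_894) t1_986 rfl rfl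

theorem t1_988 : Good (Q 10) [v106, v30, v287, v10, v372, v343] :=
  split_of 2 5 v478 1261477506 (by decide +kernel) (good_ofj c1_905) (good_ofj c1_906) rfl rfl

theorem t1_989 : Good (Q 10) [v84, v30, v287, v10, v372, v343] :=
  split_of 0 1 v106 1281296482 (by decide +kernel) t1_988 (good_ofj c1_907) rfl rfl

theorem t1_990 : Good (Q 10) [v84, v30, v287, v10, v65, v343] :=
  split_of 1 4 v372 1302661384 (by decide +kernel) (good_ofj c1_904) t1_989 rfl rfl

theorem t1_991 : Good (Q 10) [v84, v30, v287, v3, v65, v343] :=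
  split_of 1 3 v10 1307275754 (by decide +kernel) (good_ofj c1_903) t1_990 rfl rfl

theorem t1_992 : Good (Q 10) [v84, v30, v287, v3, v62, v343] :=
  split_of 3 4 v65 1269404413 (by decide +kernel) (good_ofj c1_902) t1_991 rfl rfl

theorem t1_993 : Good (Q 10) [v84, v30, v286, v3, v62, v343] :=
  split_of 1 2 v287 1222692218 (by decide +kernel) (good_ofj c1_901) t1_992 rfl rfl

theorem t1_994 : Good (Q 10) [v84, v30, v286, v3, v62, v339] :=
  split_of 1 5 v343 1260336929 (by decide +kernel) (good_ofj c1_900) t1_993 rfl rfl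

theorem t1_995 : Good (Q 10) [v291, v30, v286, v84, v62, v339] :=
  split_of 0 2 v290 1149226036 (by decide +kernel) (good_ofj c1_908) (good_ofj c1_909) rfl rfl

theorem t1_996 : Good (Q 10) [v125, v30, v286, v84, v62, v339] :=
  split_of 0 2 v291 1128250058 (by decide +kernel) t1_995 (good_ofj c1_910) rfl rfl

theorem t1_997 : Good (Q 10) [v125, v30, v286, v3, v62, v339] :=
  split_of 0 3 v84 1229127558 (by decide +kernel) t1_994 t1_996 rfl rfl

theorem t1_998 : Good (Q 10) [v125, v30, v286, v3, v4, v339] :=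
  split_of 0 4 v62 1184875434 (by decide +kernel) t1_987 t1_997 rfl rfl

theorem t1_999 : Good (Q 10) [v125, v30, v286, v3, v4, v341] :=
  split_of 0 5 v339 1116736499 (by decide +kernel) t1_982 t1_998 rfl rfl

theorem t1_1000 : Good (Q 10) [v296, v30, v286, v298, v4, v341] :=
  split_of 1 3 v297 1161452763 (by decide +kernel) (good_ofj c1_911) (good_ofj c1_912) rfl rfl

theorem t1_1001 : Good (Q 10) [v339, v30, v286, v296, v4, v341] :=
  split_of 1 5 v340 1222692218 (by decide +kernel) (good_ofj c1_913) (good_ofj c1_914) rfl rfl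

theorem t1_1002 : Good (Q 9) [v480, v30, v477, v479, v26, v367] :=
  split_of 1 2 v481 1275006447 (by decide +kernel) (good_ofj c1_924) (good_ofj c1_925) rfl rfl

theorem t1_1003 : Good (Q 9) [v480, v30, v477, v479, v20, v367] :=
  split_of 1 4 v26 1292097425 (by decide +kernel) (good_ofj c1_923) t1_1002 rfl rfl

theorem t1_1004 : Good (Q 9) [v151, v30, v477, v479, v20, v367] :=
  split_of 0 1 v480 1285821476 (by decide +kernel) t1_1003 (good_ofj c1_926) rfl rfl

theorem t1_1005 : Good (Q 9) [v151, v30, v477, v479, v20, v343] :=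
  split_of 1 5 v367 1282767547 (by decide +kernel) (good_ofj c1_922) t1_1004 rfl rfl

theorem t1_1006 : Good (Q 10) [v151, v30, v477, v479, v20, v343] :=
  env_E _ t1_1005

theorem t1_1007 : Good (Q 10) [v151, v30, v287, v479, v20, v343] :=
  split_of 1 2 v477 1264886921 (by decide +kernel) (good_ofj c1_921) t1_1006 rfl rfl

theorem t1_1008 : Good (Q 10) [v151, v30, v287, v302, v20, v343] :=
  split_of 1 3 v479 1264886921 (by decide +kernel) (good_ofj c1_920) t1_1007 rfl rfl

theorem t1_1009 : Good (Q 10) [v151, v30, v287, v302, v1, v343] :=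
  split_of 1 4 v20 1297535559 (by decide +kernel) (good_ofj c1_919) t1_1008 rfl rfl

theorem t1_1010 : Good (Q 10) [v62, v30, v287, v302, v1, v343] :=
  split_of 0 1 v151 1273393141 (by decide +kernel) t1_1009 (good_ofj c1_927) rfl rfl

theorem t1_1011 : Good (Q 10) [v62, v30, v287, v296, v1, v343] :=
  split_of 1 3 v302 1222692218 (by decide +kernel) (good_ofj c1_918) t1_1010 rfl rfl

theorem t1_1012 : Good (Q 10) [v62, v30, v286, v296, v1, v343] :=
  split_of 1 2 v287 1222692218 (by decide +kernel) (good_ofj c1_917) t1_1011 rfl rfl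

theorem t1_1013 : Good (Q 10) [v62, v30, v286, v296, v1, v339] :=
  split_of 1 5 v343 1260336929 (by decide +kernel) (good_ofj c1_916) t1_1012 rfl rfl

theorem t1_1014 : Good (Q 10) [v62, v30, v286, v296, v4, v339] :=
  split_of 1 4 v1 1280313892 (by decide +kernel) (good_ofj c1_915) t1_1013 rfl rfl

theorem t1_1015 : Good (Q 10) [v290, v30, v286, v296, v62, v343] :=
  split_of 2 3 v303 1128250058 (by decide +kernel) (good_ofj c1_929) (good_ofj c1_930) rfl rfl

theorem t1_1016 : Good (Q 10) [v290, v30, v286, v296, v62, v339] :=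
  split_of 1 5 v343 1260336929 (by decide +kernel) (good_ofj c1_928) t1_1015 rfl rfl

theorem t1_1017 : Good (Q 10) [v291, v30, v286, v296, v62, v339] :=
  split_of 0 2 v290 1149226036 (by decide +kernel) t1_1016 (good_ofj c1_931) rfl rfl

theorem t1_1018 : Good (Q 10) [v125, v30, v286, v296, v62, v339] :=
  split_of 0 2 v291 1128250058 (by decide +kernel) t1_1017 (good_ofj c1_932) rfl rfl

theorem t1_1019 : Good (Q 10) [v125, v30, v286, v296, v4, v339] :=
  split_of 0 4 v62 1184875434 (by decide +kernel) t1_1014 t1_1018 rfl rfl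

theorem t1_1020 : Good (Q 10) [v125, v30, v286, v296, v4, v341] :=
  split_of 0 5 v339 1116736499 (by decide +kernel) t1_1001 t1_1019 rfl rfl

theorem t1_1021 : Good (Q 10) [v125, v30, v286, v298, v4, v341] :=
  split_of 0 3 v296 1014622444 (by decide +kernel) t1_1000 t1_1020 rfl rfl

theorem t1_1022 : Good (Q 10) [v339, v30, v305, v126, v483, v342] :=
  split_of 0 1 v343 1260336929 (by decide +kernel) (good_ofj c1_936) (good_ofj c1_937) rfl rfl

theorem t1_1023 : Good (Q 10) [v339, v30, v305, v126, v483, v340] :=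
  split_of 1 5 v342 1284967838 (by decide +kernel) (good_ofj c1_935) t1_1022 rfl rfl

theorem t1_1024 : Good (Q 10) [v339, v30, v305, v126, v482, v340] :=
  split_of 1 4 v483 1268403305 (by decide +kernel) (good_ofj c1_934) t1_1023 rfl rfl

theorem t1_1025 : Good (Q 10) [v339, v30, v305, v126, v482, v341] :=
  split_of 1 5 v340 1222692218 (by decide +kernel) (good_ofj c1_933) t1_1024 rfl rfl

theorem t1_1026 : Good (Q 9) [v485, v30, v310, v128, v486, v367] :=
  split_of 0 3 v487 1298731224 (by decide +kernel) (good_ofj c1_945) (good_ofj c1_946) rfl rfl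

theorem t1_1027 : Good (Q 10) [v485, v30, v310, v128, v486, v367] :=
  env_E _ t1_1026

theorem t1_1028 : Good (Q 10) [v485, v30, v310, v128, v486, v343] :=
  split_of 1 5 v367 1282767547 (by decide +kernel) (good_ofj c1_944) t1_1027 rfl rfl

theorem t1_1029 : Good (Q 10) [v485, v30, v307, v128, v486, v343] :=
  split_of 1 2 v310 1264886921 (by decide +kernel) (good_ofj c1_943) t1_1028 rfl rfl

theorem t1_1030 : Good (Q 10) [v485, v30, v307, v128, v483, v343] :=
  split_of 1 4 v486 1293212810 (by decide +kernel) (good_ofj c1_942) t1_1029 rfl rfl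

theorem t1_1031 : Good (Q 10) [v484, v30, v307, v128, v483, v343] :=
  split_of 0 1 v485 1267400614 (by decide +kernel) t1_1030 (good_ofj c1_947) rfl rfl

theorem t1_1032 : Good (Q 10) [v484, v30, v307, v126, v483, v343] :=
  split_of 1 3 v128 1307275754 (by decide +kernel) (good_ofj c1_941) t1_1031 rfl rfl

theorem t1_1033 : Good (Q 10) [v484, v30, v305, v126, v483, v343] :=
  split_of 1 2 v307 1222692218 (by decide +kernel) (good_ofj c1_940) t1_1032 rfl rfl

theorem t1_1034 : Good (Q 10) [v484, v30, v305, v126, v483, v339] :=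
  split_of 1 5 v343 1260336929 (by decide +kernel) (good_ofj c1_939) t1_1033 rfl rfl

theorem t1_1035 : Good (Q 10) [v484, v30, v305, v126, v482, v339] :=
  split_of 1 4 v483 1268403305 (by decide +kernel) (good_ofj c1_938) t1_1034 rfl rfl

theorem t1_1036 : Good (Q 9) [v168, v30, v310, v128, v487, v343] :=
  split_of 3 5 v489 1296577437 (by decide +kernel) (good_ofj c1_954) (good_ofj c1_955) rfl rfl

theorem t1_1037 : Good (Q 10) [v168, v30, v310, v128, v487, v343] :=
  env_E _ t1_1036

theorem t1_1038 : Good (Q 10) [v168, v30, v307, v128, v487, v343] :=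
  split_of 1 2 v310 1264886921 (by decide +kernel) (good_ofj c1_953) t1_1037 rfl rfl

theorem t1_1039 : Good (Q 10) [v152, v30, v307, v128, v487, v343] :=
  split_of 0 1 v168 1278344175 (by decide +kernel) t1_1038 (good_ofj c1_956) rfl rfl

theorem t1_1040 : Good (Q 10) [v152, v30, v307, v128, v488, v343] :=
  split_of 1 4 v487 1298731224 (by decide +kernel) (good_ofj c1_952) t1_1039 rfl rfl

theorem t1_1041 : Good (Q 10) [v152, v30, v307, v126, v488, v343] :=
  split_of 1 3 v128 1307275754 (by decide +kernel) (good_ofj c1_951) t1_1040 rfl rfl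

theorem t1_1042 : Good (Q 10) [v152, v30, v307, v126, v484, v343] :=
  split_of 3 4 v488 1241799870 (by decide +kernel) (good_ofj c1_950) t1_1041 rfl rfl

theorem t1_1043 : Good (Q 10) [v152, v30, v307, v126, v484, v339] :=
  split_of 1 5 v343 1260336929 (by decide +kernel) (good_ofj c1_949) t1_1042 rfl rfl

theorem t1_1044 : Good (Q 10) [v152, v30, v305, v126, v484, v339] :=
  split_of 1 2 v307 1222692218 (by decide +kernel) (good_ofj c1_948) t1_1043 rfl rfl

theorem t1_1045 : Good (Q 10) [v320, v30, v307, v152, v485, v343] :=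
  split_of 1 3 v168 1278344175 (by decide +kernel) (good_ofj c1_960) (good_ofj c1_961) rfl rfl

theorem t1_1046 : Good (Q 10) [v320, v30, v307, v152, v484, v343] :=
  split_of 1 4 v485 1267400614 (by decide +kernel) (good_ofj c1_959) t1_1045 rfl rfl

theorem t1_1047 : Good (Q 10) [v319, v30, v307, v152, v484, v343] :=
  split_of 0 1 v320 1236633639 (by decide +kernel) t1_1046 (good_ofj c1_962) rfl rfl

theorem t1_1048 : Good (Q 10) [v319, v30, v307, v152, v484, v339] :=
  split_of 1 5 v343 1260336929 (by decide +kernel) (good_ofj c1_958) t1_1047 rfl rfl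

theorem t1_1049 : Good (Q 10) [v319, v30, v305, v152, v484, v339] :=
  split_of 1 2 v307 1222692218 (by decide +kernel) (good_ofj c1_957) t1_1048 rfl rfl

theorem t1_1050 : Good (Q 10) [v321, v30, v305, v152, v484, v339] :=
  split_of 0 2 v319 1069707140 (by decide +kernel) t1_1049 (good_ofj c1_963) rfl rfl

theorem t1_1051 : Good (Q 10) [v125, v30, v305, v152, v484, v339] :=
  split_of 0 2 v321 1055249866 (by decide +kernel) t1_1050 (good_ofj c1_964) rfl rfl

theorem t1_1052 : Good (Q 10) [v125, v30, v305, v126, v484, v339] :=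
  split_of 0 3 v152 1202967926 (by decide +kernel) t1_1044 t1_1051 rfl rfl

theorem t1_1053 : Good (Q 10) [v125, v30, v305, v126, v482, v339] :=
  split_of 0 4 v484 1156653316 (by decide +kernel) t1_1035 t1_1052 rfl rfl

theorem t1_1054 : Good (Q 10) [v125, v30, v305, v126, v482, v341] :=
  split_of 0 5 v339 1116736499 (by decide +kernel) t1_1025 t1_1053 rfl rfl

theorem t1_1055 : Good (Q 5) [v339, v336, v286, v3, v4, v341] :=
  split_of 1 5 v490 0 (by decide +kernel) (good_ofj c1_965) (good_ofj c1_966) rfl rfl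

theorem t1_1056 : Good (Q 10) [v339, v336, v286, v3, v4, v341] :=
  fin_of 5 0xffffffffffffffffffffffffffffffffffffffffffffffffff16c60ffffffffff
    (by decide +kernel) t1_1055

theorem t1_1057 : Good (Q 10) [v332, v336, v328, v331, v330, v491] :=
  split_of 1 5 v492 534060018 (by decide +kernel) (good_ofj c1_973) (good_ofj c1_974) rfl rfl

theorem t1_1058 : Good (Q 10) [v327, v336, v328, v331, v330, v491] :=
  split_of 0 1 v332 0 (by decide +kernel) t1_1057 (good_ofj c1_975) rfl rfl

theorem t1_1059 : Good (Q 10) [v327, v336, v328, v326, v330, v491] :=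
  split_of 1 3 v331 587809108 (by decide +kernel) (good_ofj c1_972) t1_1058 rfl rfl

theorem t1_1060 : Good (Q 10) [v327, v336, v328, v326, v325, v491] :=
  split_of 1 4 v330 531219219 (by decide +kernel) (good_ofj c1_971) t1_1059 rfl rfl

theorem t1_1061 : Good (Q 10) [v327, v336, v286, v326, v325, v491] :=
  split_of 1 2 v328 731669392 (by decide +kernel) (good_ofj c1_970) t1_1060 rfl rfl

theorem t1_1062 : Good (Q 10) [v327, v336, v286, v326, v325, v339] :=
  split_of 1 5 v491 805306368 (by decide +kernel) (good_ofj c1_969) t1_1061 rfl rfl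

theorem t1_1063 : Good (Q 10) [v125, v336, v286, v326, v325, v339] :=
  split_of 0 1 v327 0 (by decide +kernel) t1_1062 (good_ofj c1_976) rfl rfl

theorem t1_1064 : Good (Q 10) [v125, v336, v286, v3, v325, v339] :=
  split_of 1 3 v326 886354346 (by decide +kernel) (good_ofj c1_968) t1_1063 rfl rfl

theorem t1_1065 : Good (Q 10) [v125, v336, v286, v3, v4, v339] :=
  split_of 1 4 v325 795238983 (by decide +kernel) (good_ofj c1_967) t1_1064 rfl rfl

theorem t1_1066 : Good (Q 10) [v125, v336, v286, v3, v4, v341] :=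
  split_of 0 5 v339 1116736499 (by decide +kernel) t1_1056 t1_1065 rfl rfl

theorem t1_1067 : Good (Q 3) [v296, v490, v286, v298, v4, v493] :=
  split_of 1 3 v494 0 (by decide +kernel) (good_ofj c1_978) (good_ofj c1_979) rfl rfl

theorem t1_1068 : Good (Q 3) [v296, v490, v286, v298, v4, v341] :=
  split_of 0 5 v493 1000330083 (by decide +kernel) (good_ofj c1_977) t1_1067 rfl rfl

theorem t1_1069 : Good (Q 3) [v296, v325, v286, v494, v4, v490] :=
  split_of 4 5 v495 886354346 (by decide +kernel) (good_ofj c1_980) (good_ofj c1_981) rfl rfl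

theorem t1_1070 : Good (Q 3) [v296, v325, v286, v298, v4, v490] :=
  split_of 3 5 v494 0 (by decide +kernel) t1_1069 (good_ofj c1_982) rfl rfl

theorem t1_1071 : Good (Q 3) [v296, v496, v286, v298, v325, v490] :=
  split_of 3 5 v494 0 (by decide +kernel) (good_ofj c1_983) (good_ofj c1_984) rfl rfl

theorem t1_1072 : Good (Q 3) [v296, v336, v286, v298, v325, v490] :=
  split_of 1 3 v496 0 (by decide +kernel) t1_1071 (good_ofj c1_985) rfl rfl

theorem t1_1073 : Good (Q 3) [v296, v336, v286, v298, v4, v490] :=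
  split_of 1 4 v325 795238983 (by decide +kernel) t1_1070 t1_1072 rfl rfl

theorem t1_1074 : Good (Q 3) [v296, v336, v286, v298, v4, v341] :=
  split_of 1 5 v490 0 (by decide +kernel) t1_1068 t1_1073 rfl rfl

theorem t1_1075 : Good (Q 10) [v296, v336, v286, v298, v4, v341] :=
  fin_of 3 0xffffffffffffffffffffffffffffffffffffffffffffffffff12c4bffffffffff
    (by decide +kernel) t1_1074

theorem t1_1076 : Good (Q 3) [v339, v336, v286, v296, v4, v341] :=
  split_of 1 5 v490 0 (by decide +kernel) (good_ofj c1_986) (good_ofj c1_987) rfl rfl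

theorem t1_1077 : Good (Q 10) [v339, v336, v286, v296, v4, v341] :=
  fin_of 3 0xffffffffffffffffffffffffffffffffffffffffffffffffff11c4bffffffffff
    (by decide +kernel) t1_1076

theorem t1_1078 : Good (Q 10) [v332, v336, v328, v337, v330, v492] :=
  split_of 1 2 v333 485225728 (by decide +kernel) (good_ofj c1_994) (good_ofj c1_995) rfl rfl

theorem t1_1079 : Good (Q 10) [v332, v336, v328, v337, v330, v491] :=
  split_of 1 5 v492 534060018 (by decide +kernel) (good_ofj c1_993) t1_1078 rfl rfl

theorem t1_1080 : Good (Q 10) [v327, v336, v328, v337, v330, v491] :=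
  split_of 0 1 v332 0 (by decide +kernel) t1_1079 (good_ofj c1_996) rfl rfl

theorem t1_1081 : Good (Q 10) [v327, v336, v328, v337, v325, v491] :=
  split_of 1 4 v330 531219219 (by decide +kernel) (good_ofj c1_992) t1_1080 rfl rfl

theorem t1_1082 : Good (Q 10) [v327, v336, v328, v296, v325, v491] :=
  split_of 1 3 v337 731669392 (by decide +kernel) (good_ofj c1_991) t1_1081 rfl rfl

theorem t1_1083 : Good (Q 10) [v327, v336, v286, v296, v325, v491] :=
  split_of 1 2 v328 731669392 (by decide +kernel) (good_ofj c1_990) t1_1082 rfl rfl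

theorem t1_1084 : Good (Q 10) [v327, v336, v286, v296, v325, v339] :=
  split_of 1 5 v491 805306368 (by decide +kernel) (good_ofj c1_989) t1_1083 rfl rfl

theorem t1_1085 : Good (Q 10) [v125, v336, v286, v296, v325, v339] :=
  split_of 0 1 v327 0 (by decide +kernel) t1_1084 (good_ofj c1_997) rfl rfl

theorem t1_1086 : Good (Q 10) [v125, v336, v286, v296, v4, v339] :=
  split_of 1 4 v325 795238983 (by decide +kernel) (good_ofj c1_988) t1_1085 rfl rfl

theorem t1_1087 : Good (Q 10) [v125, v336, v286, v296, v4, v341] :=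
  split_of 0 5 v339 1116736499 (by decide +kernel) t1_1077 t1_1086 rfl rfl

theorem t1_1088 : Good (Q 10) [v125, v336, v286, v298, v4, v341] :=
  split_of 0 3 v296 1014622444 (by decide +kernel) t1_1075 t1_1087 rfl rfl

end Pool.Agent.U316.Ep
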