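import Pool.Agent.U316.Ep.Cert.P30
import Pool.Agent.U316.Ep.Cert.P31
import Pool.Agent.U316.Ep.Cert.P32
import Pool.Agent.U316.Ep.Cert.P33
import Pool.Agent.U316.Ep.Cert.P34
import Pool.Agent.U316.Ep.Cert.P35
import Pool.Agent.U316.Ep.Cert.P36
import Pool.Agent.U316.Ep.Cert.P37
import Pool.Agent.U316.Ep.Cert.P38
import Pool.Agent.U316.Ep.Cert.P39
import Pool.Agent.U316.Ep.Cert.P40
import Pool.Agent.U316.Ep.Cert.P41
import Pool.Agent.U316.Ep.Cert.P42
import Pool.Agent.U316.Ep.Cert.P43
import Pool.Agent.U316.Ep.Cert.P44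
import Pool.Agent.U316.Ep.Cert.P45
import Pool.Agent.U316.Ep.Cert.P46
import Pool.Agent.U316.Ep.Cert.P47
import Pool.Agent.U316.Ep.Cert.P48
import Pool.Agent.U316.Ep.Cert.P49
import Pool.Agent.U316.Ep.Gd

/-!
# Bisections
-/

set_option autoImplicit false
set_option maxRecDepth 100000

namespace Pool.Agent.U316.Ep

theorem t2_0 : Good (Q 10) [v0, v176, v7, v6, v181, v8] :=
  split_of 0 1 v182 1251137061 (by decide +kernel) (good_ofj c2_4) (good_ofj c2_5) rfl rfl

theorem t2_1 : Good (Q 10) [v0, v176, v7, v6, v177, v8] :=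
  split_of 0 4 v181 1271401906 (by decide +kernel) (good_ofj c2_3) t2_0 rfl rfl

theorem t2_2 : Good (Q 10) [v0, v176, v7, v6, v177, v5] :=
  split_of 2 5 v8 1278344175 (by decide +kernel) (good_ofj c2_2) t2_1 rfl rfl

theorem t2_3 : Good (Q 10) [v0, v176, v7, v3, v177, v5] :=
  split_of 0 3 v6 1266396334 (by decide +kernel) (good_ofj c2_1) t2_2 rfl rfl

theorem t2_4 : Good (Q 10) [v0, v176, v7, v3, v179, v5] :=
  split_of 2 4 v177 1293935275 (by decide +kernel) (good_ofj c2_0) t2_3 rfl rfl

theorem t2_5 : Good (Q 10) [v12, v10, v7, v6, v176, v8] :=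
  split_of 2 4 v184 1332942339 (by decide +kernel) (good_ofj c2_8) (good_ofj c2_9) rfl rfl

theorem t2_6 : Good (Q 10) [v11, v10, v7, v6, v176, v8] :=
  split_of 0 2 v12 1303966181 (by decide +kernel) t2_5 (good_ofj c2_10) rfl rfl

theorem t2_7 : Good (Q 10) [v11, v10, v7, v6, v176, v5] :=
  split_of 2 5 v8 1278344175 (by decide +kernel) (good_ofj c2_7) t2_6 rfl rfl

theorem t2_8 : Good (Q 10) [v0, v10, v7, v6, v176, v11] :=
  split_of 0 4 v182 1251137061 (by decide +kernel) (good_ofj c2_11) (good_ofj c2_12) rfl rfl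

theorem t2_9 : Good (Q 10) [v0, v10, v7, v6, v176, v5] :=
  split_of 0 5 v11 1161452763 (by decide +kernel) t2_7 t2_8 rfl rfl

theorem t2_10 : Good (Q 10) [v0, v10, v7, v3, v176, v5] :=
  split_of 0 3 v6 1266396334 (by decide +kernel) (good_ofj c2_6) t2_9 rfl rfl

theorem t2_11 : Good (Q 10) [v182, v15, v7, v10, v176, v8] :=
  split_of 2 4 v184 1332942339 (by decide +kernel) (good_ofj c2_14) (good_ofj c2_15) rfl rfl

theorem t2_12 : Good (Q 10) [v16, v15, v7, v10, v497, v8] :=
  split_of 3 5 v18 1308924275 (by decide +kernel) (good_ofj c2_17) (good_ofj c2_18) rfl rfl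

theorem t2_13 : Good (Q 10) [v16, v15, v7, v10, v182, v8] :=
  split_of 2 4 v497 1328048048 (by decide +kernel) (good_ofj c2_16) t2_12 rfl rfl

theorem t2_14 : Good (Q 10) [v0, v15, v7, v10, v182, v8] :=
  split_of 0 3 v16 1277357036 (by decide +kernel) t2_13 (good_ofj c2_19) rfl rfl

theorem t2_15 : Good (Q 10) [v0, v15, v7, v10, v176, v8] :=
  split_of 0 4 v182 1251137061 (by decide +kernel) t2_11 t2_14 rfl rfl

theorem t2_16 : Good (Q 10) [v0, v15, v7, v10, v176, v5] :=
  split_of 2 5 v8 1278344175 (by decide +kernel) (good_ofj c2_13) t2_15 rfl rfl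

theorem t2_17 : Good (Q 9) [v19, v21, v7, v10, v185, v15] :=
  split_of 2 5 v186 1327933798 (by decide +kernel) (good_ofj c2_21) (good_ofj c2_22) rfl rfl

theorem t2_18 : Good (Q 9) [v24, v30, v25, v22, v192, v27] :=
  split_of 0 1 v28 1299835258 (by decide +kernel) (good_ofj c2_27) (good_ofj c2_28) rfl rfl

theorem t2_19 : Good (Q 9) [v24, v30, v25, v22, v185, v27] :=
  split_of 1 4 v192 1290828974 (by decide +kernel) (good_ofj c2_26) t2_18 rfl rfl

theorem t2_20 : Good (Q 9) [v24, v30, v25, v22, v185, v21] :=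
  split_of 1 5 v27 1289558025 (by decide +kernel) (good_ofj c2_25) t2_19 rfl rfl

theorem t2_21 : Good (Q 9) [v24, v30, v23, v22, v185, v21] :=
  split_of 1 2 v25 1321013612 (by decide +kernel) (good_ofj c2_24) t2_20 rfl rfl

theorem t2_22 : Good (Q 9) [v19, v30, v23, v22, v185, v21] :=
  split_of 0 1 v24 1311740689 (by decide +kernel) t2_21 (good_ofj c2_29) rfl rfl

theorem t2_23 : Good (Q 9) [v19, v30, v23, v10, v185, v21] :=
  split_of 1 3 v22 1303729140 (by decide +kernel) (good_ofj c2_23) t2_22 rfl rfl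

theorem t2_24 : Good (Q 9) [v28, v30, v35, v25, v192, v27] :=
  split_of 1 3 v33 1302360762 (by decide +kernel) (good_ofj c2_34) (good_ofj c2_35) rfl rfl

theorem t2_25 : Good (Q 9) [v24, v30, v35, v25, v192, v27] :=
  split_of 0 1 v28 1299835258 (by decide +kernel) t2_24 (good_ofj c2_36) rfl rfl

theorem t2_26 : Good (Q 9) [v24, v30, v34, v25, v192, v27] :=
  split_of 1 2 v35 1315109598 (by decide +kernel) (good_ofj c2_33) t2_25 rfl rfl

theorem t2_27 : Good (Q 9) [v24, v30, v34, v25, v185, v27] :=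
  split_of 1 4 v192 1290828974 (by decide +kernel) (good_ofj c2_32) t2_26 rfl rfl

theorem t2_28 : Good (Q 9) [v24, v30, v34, v25, v185, v21] :=
  split_of 1 5 v27 1289558025 (by decide +kernel) (good_ofj c2_31) t2_27 rfl rfl

theorem t2_29 : Good (Q 9) [v24, v30, v34, v23, v185, v21] :=
  split_of 1 3 v25 1321013612 (by decide +kernel) (good_ofj c2_30) t2_28 rfl rfl

theorem t2_30 : Good (Q 9) [v28, v30, v196, v33, v192, v35] :=
  split_of 1 4 v198 1285886215 (by decide +kernel) (good_ofj c2_42) (good_ofj c2_43) rfl rfl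

theorem t2_31 : Good (Q 9) [v28, v30, v196, v25, v192, v35] :=
  split_of 1 3 v33 1302360762 (by decide +kernel) (good_ofj c2_41) t2_30 rfl rfl

theorem t2_32 : Good (Q 9) [v24, v30, v196, v25, v192, v35] :=
  split_of 0 1 v28 1299835258 (by decide +kernel) t2_31 (good_ofj c2_44) rfl rfl

theorem t2_33 : Good (Q 9) [v24, v30, v190, v25, v192, v35] :=
  split_of 1 2 v196 1315466281 (by decide +kernel) (good_ofj c2_40) t2_32 rfl rfl

theorem t2_34 : Good (Q 9) [v24, v30, v190, v25, v192, v34] :=
  split_of 1 5 v35 1315109598 (by decide +kernel) (good_ofj c2_39) t2_33 rfl rfl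

theorem t2_35 : Good (Q 9) [v24, v30, v190, v25, v185, v34] :=
  split_of 1 4 v192 1290828974 (by decide +kernel) (good_ofj c2_38) t2_34 rfl rfl

theorem t2_36 : Good (Q 9) [v24, v30, v190, v23, v185, v34] :=
  split_of 1 3 v25 1321013612 (by decide +kernel) (good_ofj c2_37) t2_35 rfl rfl

theorem t2_37 : Good (Q 9) [v42, v43, v7, v44, v202, v40] :=
  split_of 2 5 v45 1351770736 (by decide +kernel) (good_ofj c2_49) (good_ofj c2_50) rfl rfl

theorem t2_38 : Good (Q 9) [v42, v43, v7, v39, v202, v40] :=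
  split_of 2 3 v44 1352069164 (by decide +kernel) (good_ofj c2_48) t2_37 rfl rfl

theorem t2_39 : Good (Q 9) [v37, v43, v7, v39, v202, v40] :=
  split_of 0 2 v42 1350220494 (by decide +kernel) t2_38 (good_ofj c2_51) rfl rfl

theorem t2_40 : Good (Q 9) [v37, v38, v43, v46, v202, v40] :=
  split_of 1 5 v47 1343013435 (by decide +kernel) (good_ofj c2_53) (good_ofj c2_54) rfl rfl

theorem t2_41 : Good (Q 9) [v37, v38, v43, v39, v202, v40] :=
  split_of 1 3 v46 1344546372 (by decide +kernel) (good_ofj c2_52) t2_40 rfl rfl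

theorem t2_42 : Good (Q 9) [v37, v38, v7, v39, v202, v40] :=
  split_of 1 2 v43 1347746544 (by decide +kernel) t2_39 t2_41 rfl rfl

theorem t2_43 : Good (Q 9) [v37, v38, v7, v39, v190, v40] :=
  split_of 2 4 v202 1349038282 (by decide +kernel) (good_ofj c2_47) t2_42 rfl rfl

theorem t2_44 : Good (Q 9) [v37, v38, v7, v39, v190, v34] :=
  split_of 2 5 v40 1348643751 (by decide +kernel) (good_ofj c2_46) t2_43 rfl rfl

theorem t2_45 : Good (Q 9) [v37, v38, v7, v23, v190, v34] :=
  split_of 2 3 v39 1349823198 (by decide +kernel) (good_ofj c2_45) t2_44 rfl rfl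

theorem t2_46 : Good (Q 9) [v24, v38, v7, v23, v190, v34] :=
  split_of 0 2 v37 1342484791 (by decide +kernel) t2_45 (good_ofj c2_55) rfl rfl

theorem t2_47 : Good (Q 9) [v24, v25, v38, v23, v190, v34] :=
  split_of 0 3 v48 1332091271 (by decide +kernel) (good_ofj c2_56) (good_ofj c2_57) rfl rfl

theorem t2_48 : Good (Q 7) [v49, v35, v38, v25, v190, v34] :=
  split_of 3 5 v50 1330670403 (by decide +kernel) (good_ofj c2_58) (good_ofj c2_59) rfl rfl

theorem t2_49 : Good (Q 8) [v49, v35, v38, v25, v190, v34] :=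
  P_of 7 8 0xffffffffffffffffffffffffffffff5e9773ccf439ce82c4b12dcb72d0b32e4b9ffffffffffffffffffffffffffffff2f4be39ce73a0e76218a2d4b42c4b12d4b4
    (by decide +kernel) t2_48

theorem t2_50 : Good (Q 9) [v49, v35, v38, v25, v190, v34] :=
  P_of 8 9 0xfffffffffffffffffffffffffffffffffff3d0f33a0e72c0b12dcb72d0b42e4b9ffffffffffffffffffffffffffffff2f4bd39ce73a0e8fffff2d4b52c8b12d4b5
    (by decide +kernel) t2_49

theorem t2_51 : Good (Q 9) [v24, v35, v38, v25, v190, v34] :=
  split_of 0 2 v49 1325472642 (by decide +kernel) t2_50 (good_ofj c2_60) rfl rfl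

theorem t2_52 : Good (Q 7) [v49, v196, v38, v25, v190, v207] :=
  split_of 2 4 v498 1336705906 (by decide +kernel) (good_ofj c2_62) (good_ofj c2_63) rfl rfl

theorem t2_53 : Good (Q 7) [v49, v196, v38, v25, v190, v35] :=
  split_of 4 5 v207 1328466056 (by decide +kernel) (good_ofj c2_61) t2_52 rfl rfl

theorem t2_54 : Good (Q 8) [v49, v196, v38, v25, v190, v35] :=
  P_of 7 8 0xffffffffffffffffffffffffffffff5d1753d4f63a8e92c4b02d4b62d0b42e0b9ffffffffffffffffffffffffffffff2f0bd398e6398e66398d2d8b52c8b12d8b5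
    (by decide +kernel) t2_53

theorem t2_55 : Good (Q 9) [v49, v196, v38, v25, v190, v35] :=
  P_of 8 9 0xffffffffffffffffffffffffffffff5bd743d8f53b4ea2c4b12d8b52ccb42dcb8ffffffffffffffffffffffffffffff2f0bc390e6390e6fffff2d8b62ccb22d8b6
    (by decide +kernel) t2_54

theorem t2_56 : Good (Q 9) [v24, v196, v38, v25, v190, v35] :=
  split_of 0 2 v49 1325472642 (by decide +kernel) t2_55 (good_ofj c2_64) rfl rfl

theorem t2_57 : Good (Q 9) [v52, v54, v38, v53, v196, v35] :=
  split_of 2 5 v55 1325079639 (by decide +kernel) (good_ofj c2_66) (good_ofj c2_67) rfl rfl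

theorem t2_58 : Good (Q 9) [v52, v54, v38, v25, v196, v35] :=
  split_of 1 3 v53 1316091829 (by decide +kernel) (good_ofj c2_65) t2_57 rfl rfl

theorem t2_59 : Good (Q 9) [v28, v54, v38, v25, v196, v35] :=
  split_of 0 2 v52 1318899466 (by decide +kernel) t2_58 (good_ofj c2_68) rfl rfl

theorem t2_60 : Good (Q 7) [v28, v33, v54, v56, v196, v35] :=
  split_of 0 2 v57 1305645227 (by decide +kernel) (good_ofj c2_70) (good_ofj c2_71) rfl rfl

theorem t2_61 : Good (Q 8) [v28, v33, v54, v56, v196, v35] :=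
  P_of 7 8 0xffffffffffffffffffffffffffffff50d4441505400ff2b4ad2d4b62c8b22ccb2ffffffffffffffffffffffffffffff300bf344d135cd8719c52e4ba2e4b92f0ba
    (by decide +kernel) t2_60

theorem t2_62 : Good (Q 8) [v28, v33, v54, v25, v196, v35] :=
  split_of 0 3 v56 1311791918 (by decide +kernel) (good_ofj c2_69) t2_61 rfl rfl

theorem t2_63 : Good (Q 9) [v28, v33, v54, v25, v196, v35] :=
  P_of 8 9 0xffffffffffffffffffffffffffffff50d4741103400fe2b8ad2d4b52c8b22ccb3ffffffffffffffffffffffffffffff2fcbf344d235cd8fffff2e8b92e8b92ecbb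
    (by decide +kernel) t2_62

theorem t2_64 : Good (Q 8) [v28, v58, v54, v33, v196, v35] :=
  split_of 0 2 v57 1305645227 (by decide +kernel) (good_ofj c2_72) (good_ofj c2_73) rfl rfl

theorem t2_65 : Good (Q 9) [v28, v58, v54, v33, v196, v35] :=
  P_of 8 9 0xffffffffffffffffffffffffffffff5094041506401002bcae2d4b52c4b12c8b3ffffffffffffffffffffffffffffff2fcc1344d0354d5fffff2e8ba2e8ba2e8bb
    (by decide +kernel) t2_64

theorem t2_66 : Good (Q 9) [v28, v30, v54, v33, v196, v35] :=
  split_of 1 5 v58 1298631825 (by decide +kernel) t2_65 (good_ofj c2_74) rfl rfl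

theorem t2_67 : Good (Q 9) [v28, v30, v54, v25, v196, v35] :=
  split_of 1 3 v33 1302360762 (by decide +kernel) t2_63 t2_66 rfl rfl

theorem t2_68 : Good (Q 9) [v28, v30, v38, v25, v196, v35] :=
  split_of 1 2 v54 1309864426 (by decide +kernel) t2_59 t2_67 rfl rfl

theorem t2_69 : Good (Q 9) [v24, v28, v38, v25, v196, v35] :=
  split_of 0 2 v49 1325472642 (by decide +kernel) (good_ofj c2_75) (good_ofj c2_76) rfl rfl

theorem t2_70 : Good (Q 9) [v24, v30, v38, v25, v196, v35] :=
  split_of 0 1 v28 1299835258 (by decide +kernel) t2_68 t2_69 rfl rfl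

theorem t2_71 : Good (Q 9) [v24, v30, v38, v25, v190, v35] :=
  split_of 1 4 v196 1315466281 (by decide +kernel) t2_56 t2_70 rfl rfl

theorem t2_72 : Good (Q 9) [v24, v30, v38, v25, v190, v34] :=
  split_of 1 5 v35 1315109598 (by decide +kernel) t2_51 t2_71 rfl rfl

theorem t2_73 : Good (Q 9) [v24, v30, v38, v23, v190, v34] :=
  split_of 1 3 v25 1321013612 (by decide +kernel) t2_47 t2_72 rfl rfl

theorem t2_74 : Good (Q 9) [v24, v30, v7, v23, v190, v34] :=
  split_of 1 2 v38 1333169107 (by decide +kernel) t2_46 t2_73 rfl rfl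

theorem t2_75 : Good (Q 9) [v24, v30, v7, v23, v185, v34] :=
  split_of 2 4 v190 1337829094 (by decide +kernel) t2_36 t2_74 rfl rfl

theorem t2_76 : Good (Q 9) [v24, v30, v7, v23, v185, v21] :=
  split_of 2 5 v34 1336420407 (by decide +kernel) t2_29 t2_75 rfl rfl

theorem t2_77 : Good (Q 9) [v59, v24, v7, v23, v190, v21] :=
  split_of 2 5 v34 1336420407 (by decide +kernel) (good_ofj c2_78) (good_ofj c2_79) rfl rfl

theorem t2_78 : Good (Q 9) [v59, v24, v7, v23, v185, v21] :=
  split_of 2 4 v190 1337829094 (by decide +kernel) (good_ofj c2_77) t2_77 rfl rfl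

theorem t2_79 : Good (Q 9) [v19, v24, v7, v23, v185, v21] :=
  split_of 0 2 v59 1342177280 (by decide +kernel) t2_78 (good_ofj c2_80) rfl rfl

theorem t2_80 : Good (Q 9) [v19, v30, v7, v23, v185, v21] :=
  split_of 0 1 v24 1311740689 (by decide +kernel) t2_76 t2_79 rfl rfl

theorem t2_81 : Good (Q 9) [v19, v30, v7, v10, v185, v21] :=
  split_of 2 3 v23 1341057865 (by decide +kernel) t2_23 t2_80 rfl rfl

theorem t2_82 : Good (Q 9) [v19, v30, v7, v10, v185, v15] :=
  split_of 1 5 v21 1288860967 (by decide +kernel) t2_17 t2_81 rfl rfl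

theorem t2_83 : Good (Q 10) [v19, v30, v7, v10, v185, v15] :=
  env_E _ t2_82

theorem t2_84 : Good (Q 10) [v19, v30, v7, v10, v176, v15] :=
  split_of 1 4 v185 1293212810 (by decide +kernel) (good_ofj c2_20) t2_83 rfl rfl

theorem t2_85 : Good (Q 9) [v61, v30, v24, v22, v192, v21] :=
  split_of 1 5 v27 1289558025 (by decide +kernel) (good_ofj c2_86) (good_ofj c2_87) rfl rfl

theorem t2_86 : Good (Q 9) [v61, v30, v24, v22, v185, v21] :=
  split_of 1 4 v192 1290828974 (by decide +kernel) (good_ofj c2_85) t2_85 rfl rfl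

theorem t2_87 : Good (Q 9) [v60, v30, v24, v22, v185, v21] :=
  split_of 0 1 v61 1283257153 (by decide +kernel) t2_86 (good_ofj c2_88) rfl rfl

theorem t2_88 : Good (Q 9) [v60, v30, v19, v22, v185, v21] :=
  split_of 1 2 v24 1311740689 (by decide +kernel) (good_ofj c2_84) t2_87 rfl rfl

theorem t2_89 : Good (Q 9) [v60, v30, v19, v10, v185, v21] :=
  split_of 1 3 v22 1303729140 (by decide +kernel) (good_ofj c2_83) t2_88 rfl rfl

theorem t2_90 : Good (Q 9) [v60, v30, v19, v10, v185, v15] :=
  split_of 1 5 v21 1288860967 (by decide +kernel) (good_ofj c2_82) t2_89 rfl rfl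

theorem t2_91 : Good (Q 10) [v60, v30, v19, v10, v185, v15] :=
  env_E _ t2_90

theorem t2_92 : Good (Q 10) [v60, v30, v19, v10, v176, v15] :=
  split_of 1 4 v185 1293212810 (by decide +kernel) (good_ofj c2_81) t2_91 rfl rfl

theorem t2_93 : Good (Q 10) [v0, v30, v19, v10, v176, v15] :=
  split_of 0 1 v60 1264382982 (by decide +kernel) t2_92 (good_ofj c2_89) rfl rfl

theorem t2_94 : Good (Q 10) [v0, v30, v7, v10, v176, v15] :=
  split_of 0 2 v19 1309159440 (by decide +kernel) t2_84 t2_93 rfl rfl

theorem t2_95 : Good (Q 10) [v0, v30, v7, v10, v176, v5] :=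
  split_of 1 5 v15 1256264730 (by decide +kernel) t2_16 t2_94 rfl rfl

theorem t2_96 : Good (Q 10) [v0, v30, v7, v3, v176, v5] :=
  split_of 1 3 v10 1307275754 (by decide +kernel) t2_10 t2_95 rfl rfl

theorem t2_97 : Good (Q 10) [v0, v30, v7, v3, v179, v5] :=
  split_of 1 4 v176 1268403305 (by decide +kernel) t2_4 t2_96 rfl rfl

theorem t2_98 : Good (Q 10) [v218, v176, v7, v3, v499, v6] :=
  split_of 0 3 v500 1269404413 (by decide +kernel) (good_ofj c2_92) (good_ofj c2_93) rfl rfl

theorem t2_99 : Good (Q 10) [v218, v176, v7, v3, v219, v6] :=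
  split_of 2 4 v499 1315710025 (by decide +kernel) (good_ofj c2_91) t2_98 rfl rfl

theorem t2_100 : Good (Q 10) [v218, v176, v7, v3, v219, v0] :=
  split_of 3 5 v6 1266396334 (by decide +kernel) (good_ofj c2_90) t2_99 rfl rfl

theorem t2_101 : Good (Q 10) [v218, v176, v7, v3, v179, v0] :=
  split_of 4 5 v219 1202967926 (by decide +kernel) t2_100 (good_ofj c2_94) rfl rfl

theorem t2_102 : Good (Q 9) [v226, v30, v196, v70, v192, v28] :=
  split_of 1 3 v80 1300509902 (by decide +kernel) (good_ofj c2_104) (good_ofj c2_105) rfl rfl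

theorem t2_103 : Good (Q 9) [v222, v30, v196, v70, v192, v28] :=
  split_of 0 1 v226 1300207819 (by decide +kernel) t2_102 (good_ofj c2_106) rfl rfl

theorem t2_104 : Good (Q 9) [v222, v30, v196, v70, v192, v24] :=
  split_of 1 5 v28 1299835258 (by decide +kernel) (good_ofj c2_103) t2_103 rfl rfl

theorem t2_105 : Good (Q 9) [v222, v30, v190, v70, v192, v24] :=
  split_of 1 2 v196 1315466281 (by decide +kernel) (good_ofj c2_102) t2_104 rfl rfl

theorem t2_106 : Good (Q 9) [v222, v30, v190, v70, v185, v24] :=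
  split_of 1 4 v192 1290828974 (by decide +kernel) (good_ofj c2_101) t2_105 rfl rfl

theorem t2_107 : Good (Q 9) [v222, v30, v190, v68, v185, v24] :=
  split_of 1 3 v70 1318153381 (by decide +kernel) (good_ofj c2_100) t2_106 rfl rfl

theorem t2_108 : Good (Q 9) [v232, v43, v7, v73, v202, v42] :=
  split_of 2 3 v75 1351961091 (by decide +kernel) (good_ofj c2_111) (good_ofj c2_112) rfl rfl

theorem t2_109 : Good (Q 9) [v230, v43, v7, v73, v202, v42] :=
  split_of 0 2 v232 1350325825 (by decide +kernel) t2_108 (good_ofj c2_113) rfl rfl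

theorem t2_110 : Good (Q 9) [v230, v43, v7, v73, v202, v37] :=
  split_of 2 5 v42 1350220494 (by decide +kernel) (good_ofj c2_110) t2_109 rfl rfl

theorem t2_111 : Good (Q 9) [v230, v38, v43, v76, v202, v37] :=
  split_of 1 4 v205 1343112045 (by decide +kernel) (good_ofj c2_115) (good_ofj c2_116) rfl rfl

theorem t2_112 : Good (Q 9) [v230, v38, v43, v73, v202, v37] :=
  split_of 1 3 v76 1343811504 (by decide +kernel) (good_ofj c2_114) t2_111 rfl rfl

theorem t2_113 : Good (Q 9) [v230, v38, v7, v73, v202, v37] :=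
  split_of 1 2 v43 1347746544 (by decide +kernel) t2_110 t2_112 rfl rfl

theorem t2_114 : Good (Q 9) [v230, v38, v7, v73, v190, v37] :=
  split_of 2 4 v202 1349038282 (by decide +kernel) (good_ofj c2_109) t2_113 rfl rfl

theorem t2_115 : Good (Q 9) [v230, v38, v7, v68, v190, v37] :=
  split_of 2 3 v73 1349398005 (by decide +kernel) (good_ofj c2_108) t2_114 rfl rfl

theorem t2_116 : Good (Q 9) [v222, v38, v7, v68, v190, v37] :=
  split_of 0 2 v230 1342889933 (by decide +kernel) t2_115 (good_ofj c2_117) rfl rfl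

theorem t2_117 : Good (Q 9) [v222, v38, v7, v68, v190, v24] :=
  split_of 2 5 v37 1342484791 (by decide +kernel) (good_ofj c2_107) t2_116 rfl rfl

theorem t2_118 : Good (Q 7) [v235, v196, v38, v70, v190, v49] :=
  split_of 3 4 v501 1329779927 (by decide +kernel) (good_ofj c2_120) (good_ofj c2_121) rfl rfl

theorem t2_119 : Good (Q 8) [v235, v196, v38, v70, v190, v49] :=
  P_of 7 8 0xffffffffffffffffffffffffffffff5dd773d0f43a4e82c0b12d4b52d4b52e4b9ffffffffffffffffffffffffffffff2f0bc398e739ce762d8b2d4b62c4b02d8b6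
    (by decide +kernel) t2_118

theorem t2_120 : Good (Q 9) [v235, v196, v38, v70, v190, v49] :=
  P_of 8 9 0xfffffffffffffffffffffffffffffffffff3d0f43b4e92c0b02d8b52d0b52dcb9ffffffffffffffffffffffffffffff2ecbc38ce6398e7fffff2d4b52ccb12dcb6
    (by decide +kernel) t2_119

theorem t2_121 : Good (Q 9) [v222, v196, v38, v70, v190, v49] :=
  split_of 0 2 v235 1325859591 (by decide +kernel) t2_120 (good_ofj c2_122) rfl rfl

theorem t2_122 : Good (Q 9) [v222, v196, v38, v70, v190, v24] :=
  split_of 2 5 v49 1325472642 (by decide +kernel) (good_ofj c2_119) t2_121 rfl rfl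

theorem t2_123 : Good (Q 9) [v226, v54, v38, v70, v196, v52] :=
  split_of 0 2 v237 1318995381 (by decide +kernel) (good_ofj c2_125) (good_ofj c2_126) rfl rfl

theorem t2_124 : Good (Q 9) [v226, v54, v38, v70, v196, v28] :=
  split_of 2 5 v52 1318899466 (by decide +kernel) (good_ofj c2_124) t2_123 rfl rfl

theorem t2_125 : Good (Q 7) [v226, v80, v54, v70, v196, v28] :=
  split_of 2 5 v57 1305645227 (by decide +kernel) (good_ofj c2_127) (good_ofj c2_128) rfl rfl

theorem t2_126 : Good (Q 8) [v226, v80, v54, v70, v196, v28] :=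
  P_of 7 8 0xffffffffffffffffffffffffffffff50d44415053fcfe2b4ad2d4b52c8b32ccb2ffffffffffffffffffffffffffffff300bf344d035cd8719c42e8ba2e4b92ecba
    (by decide +kernel) t2_125

theorem t2_127 : Good (Q 9) [v226, v80, v54, v70, v196, v28] :=
  P_of 8 9 0xffffffffffffffffffffffffffffff5094341505400ff2b8ad2d0b52c8b22c8b3ffffffffffffffffffffffffffffff2fcc0344d135cd7fffff2e8ba2e8b92ecbb
    (by decide +kernel) t2_126

theorem t2_128 : Good (Q 9) [v226, v30, v54, v70, v196, v28] :=
  split_of 1 3 v80 1300509902 (by decide +kernel) t2_127 (good_ofj c2_129) rfl rfl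

theorem t2_129 : Good (Q 9) [v226, v30, v38, v70, v196, v28] :=
  split_of 1 2 v54 1309864426 (by decide +kernel) t2_124 t2_128 rfl rfl

theorem t2_130 : Good (Q 9) [v222, v30, v38, v70, v196, v28] :=
  split_of 0 1 v226 1300207819 (by decide +kernel) t2_129 (good_ofj c2_130) rfl rfl

theorem t2_131 : Good (Q 9) [v222, v30, v38, v70, v196, v24] :=
  split_of 1 5 v28 1299835258 (by decide +kernel) (good_ofj c2_123) t2_130 rfl rfl

theorem t2_132 : Good (Q 9) [v222, v30, v38, v70, v190, v24] :=
  split_of 1 4 v196 1315466281 (by decide +kernel) t2_122 t2_131 rfl rfl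

theorem t2_133 : Good (Q 9) [v222, v30, v38, v68, v190, v24] :=
  split_of 1 3 v70 1318153381 (by decide +kernel) (good_ofj c2_118) t2_132 rfl rfl

theorem t2_134 : Good (Q 9) [v222, v30, v7, v68, v190, v24] :=
  split_of 1 2 v38 1333169107 (by decide +kernel) t2_117 t2_133 rfl rfl

theorem t2_135 : Good (Q 9) [v222, v30, v7, v68, v185, v24] :=
  split_of 2 4 v190 1337829094 (by decide +kernel) t2_107 t2_134 rfl rfl

theorem t2_136 : Good (Q 9) [v222, v30, v7, v68, v185, v19] :=
  split_of 1 5 v24 1311740689 (by decide +kernel) (good_ofj c2_99) t2_135 rfl rfl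

theorem t2_137 : Good (Q 9) [v220, v30, v7, v68, v185, v19] :=
  split_of 0 1 v222 1313261210 (by decide +kernel) t2_136 (good_ofj c2_131) rfl rfl

theorem t2_138 : Good (Q 9) [v220, v30, v7, v67, v185, v19] :=
  split_of 2 3 v68 1339403310 (by decide +kernel) (good_ofj c2_98) t2_137 rfl rfl

theorem t2_139 : Good (Q 9) [v220, v30, v7, v67, v176, v19] :=
  split_of 1 4 v185 1293212810 (by decide +kernel) (good_ofj c2_97) t2_138 rfl rfl

theorem t2_140 : Good (Q 10) [v220, v30, v7, v67, v176, v19] :=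
  env_E _ t2_139

theorem t2_141 : Good (Q 10) [v220, v30, v7, v6, v176, v19] :=
  split_of 1 3 v67 1300877891 (by decide +kernel) (good_ofj c2_96) t2_140 rfl rfl

theorem t2_142 : Good (Q 10) [v220, v30, v7, v6, v176, v0] :=
  split_of 2 5 v19 1309159440 (by decide +kernel) (good_ofj c2_95) t2_141 rfl rfl

theorem t2_143 : Good (Q 10) [v218, v30, v7, v6, v176, v0] :=
  split_of 0 2 v220 1315710025 (by decide +kernel) t2_142 (good_ofj c2_132) rfl rfl

theorem t2_144 : Good (Q 10) [v218, v10, v7, v3, v176, v6] :=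
  split_of 0 3 v500 1269404413 (by decide +kernel) (good_ofj c2_133) (good_ofj c2_134) rfl rfl

theorem t2_145 : Good (Q 9) [v222, v30, v25, v22, v185, v81] :=
  split_of 1 4 v192 1290828974 (by decide +kernel) (good_ofj c2_140) (good_ofj c2_141) rfl rfl

theorem t2_146 : Good (Q 9) [v222, v30, v23, v22, v185, v81] :=
  split_of 1 2 v25 1321013612 (by decide +kernel) (good_ofj c2_139) t2_145 rfl rfl

theorem t2_147 : Good (Q 9) [v222, v30, v23, v22, v185, v67] :=
  split_of 1 5 v81 1297026733 (by decide +kernel) (good_ofj c2_138) t2_146 rfl rfl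

theorem t2_148 : Good (Q 9) [v220, v30, v23, v22, v185, v67] :=
  split_of 0 1 v222 1313261210 (by decide +kernel) t2_147 (good_ofj c2_142) rfl rfl

theorem t2_149 : Good (Q 9) [v220, v30, v23, v10, v185, v67] :=
  split_of 1 3 v22 1303729140 (by decide +kernel) (good_ofj c2_137) t2_148 rfl rfl

theorem t2_150 : Good (Q 9) [v222, v30, v70, v25, v192, v81] :=
  split_of 0 1 v226 1300207819 (by decide +kernel) (good_ofj c2_147) (good_ofj c2_148) rfl rfl

theorem t2_151 : Good (Q 9) [v222, v30, v70, v25, v185, v81] :=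
  split_of 1 4 v192 1290828974 (by decide +kernel) (good_ofj c2_146) t2_150 rfl rfl

theorem t2_152 : Good (Q 9) [v222, v30, v68, v25, v185, v81] :=
  split_of 1 2 v70 1318153381 (by decide +kernel) (good_ofj c2_145) t2_151 rfl rfl

theorem t2_153 : Good (Q 9) [v222, v30, v68, v23, v185, v81] :=
  split_of 1 3 v25 1321013612 (by decide +kernel) (good_ofj c2_144) t2_152 rfl rfl

theorem t2_154 : Good (Q 9) [v222, v30, v68, v23, v185, v67] :=
  split_of 1 5 v81 1297026733 (by decide +kernel) (good_ofj c2_143) t2_153 rfl rfl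

theorem t2_155 : Good (Q 9) [v226, v30, v196, v33, v192, v70] :=
  split_of 1 5 v80 1300509902 (by decide +kernel) (good_ofj c2_154) (good_ofj c2_155) rfl rfl

theorem t2_156 : Good (Q 9) [v226, v30, v196, v25, v192, v70] :=
  split_of 1 3 v33 1302360762 (by decide +kernel) (good_ofj c2_153) t2_155 rfl rfl

theorem t2_157 : Good (Q 9) [v222, v30, v196, v25, v192, v70] :=
  split_of 0 1 v226 1300207819 (by decide +kernel) t2_156 (good_ofj c2_156) rfl rfl

theorem t2_158 : Good (Q 9) [v222, v30, v190, v25, v192, v70] :=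
  split_of 1 2 v196 1315466281 (by decide +kernel) (good_ofj c2_152) t2_157 rfl rfl

theorem t2_159 : Good (Q 9) [v222, v30, v190, v25, v185, v70] :=
  split_of 1 4 v192 1290828974 (by decide +kernel) (good_ofj c2_151) t2_158 rfl rfl

theorem t2_160 : Good (Q 9) [v222, v30, v190, v25, v185, v68] :=
  split_of 1 5 v70 1318153381 (by decide +kernel) (good_ofj c2_150) t2_159 rfl rfl

theorem t2_161 : Good (Q 9) [v222, v30, v190, v23, v185, v68] :=
  split_of 1 3 v25 1321013612 (by decide +kernel) (good_ofj c2_149) t2_160 rfl rfl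

theorem t2_162 : Good (Q 9) [v232, v43, v7, v44, v202, v73] :=
  split_of 2 5 v75 1351961091 (by decide +kernel) (good_ofj c2_161) (good_ofj c2_162) rfl rfl

theorem t2_163 : Good (Q 9) [v232, v43, v7, v39, v202, v73] :=
  split_of 2 3 v44 1352069164 (by decide +kernel) (good_ofj c2_160) t2_162 rfl rfl

theorem t2_164 : Good (Q 9) [v230, v43, v7, v39, v202, v73] :=
  split_of 0 2 v232 1350325825 (by decide +kernel) t2_163 (good_ofj c2_163) rfl rfl

theorem t2_165 : Good (Q 9) [v230, v38, v43, v46, v202, v73] :=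
  split_of 1 5 v76 1343811504 (by decide +kernel) (good_ofj c2_165) (good_ofj c2_166) rfl rfl

theorem t2_166 : Good (Q 9) [v230, v38, v43, v39, v202, v73] :=
  split_of 1 3 v46 1344546372 (by decide +kernel) (good_ofj c2_164) t2_165 rfl rfl

theorem t2_167 : Good (Q 9) [v230, v38, v7, v39, v202, v73] :=
  split_of 1 2 v43 1347746544 (by decide +kernel) t2_164 t2_166 rfl rfl

theorem t2_168 : Good (Q 9) [v230, v38, v7, v39, v190, v73] :=
  split_of 2 4 v202 1349038282 (by decide +kernel) (good_ofj c2_159) t2_167 rfl rfl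

theorem t2_169 : Good (Q 9) [v230, v38, v7, v39, v190, v68] :=
  split_of 2 5 v73 1349398005 (by decide +kernel) (good_ofj c2_158) t2_168 rfl rfl

theorem t2_170 : Good (Q 9) [v230, v38, v7, v23, v190, v68] :=
  split_of 2 3 v39 1349823198 (by decide +kernel) (good_ofj c2_157) t2_169 rfl rfl

theorem t2_171 : Good (Q 9) [v222, v38, v7, v23, v190, v68] :=
  split_of 0 2 v230 1342889933 (by decide +kernel) t2_170 (good_ofj c2_167) rfl rfl

theorem t2_172 : Good (Q 9) [v222, v25, v38, v23, v190, v68] :=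
  split_of 0 3 v502 1332431829 (by decide +kernel) (good_ofj c2_168) (good_ofj c2_169) rfl rfl

theorem t2_173 : Good (Q 9) [v222, v70, v38, v25, v190, v68] :=
  split_of 0 2 v235 1325859591 (by decide +kernel) (good_ofj c2_170) (good_ofj c2_171) rfl rfl

theorem t2_174 : Good (Q 7) [v235, v196, v38, v25, v190, v70] :=
  split_of 4 5 v501 1329779927 (by decide +kernel) (good_ofj c2_172) (good_ofj c2_173) rfl rfl

theorem t2_175 : Good (Q 8) [v235, v196, v38, v25, v190, v70] :=
  P_of 7 8 0xffffffffffffffffffffffffffffff5dd773d0f43a4e82c0b12d4b52d4b52e4b9ffffffffffffffffffffffffffffff2f0bc398e739ce762d8b2d4b62c4b02d8b6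
    (by decide +kernel) t2_174

theorem t2_176 : Good (Q 9) [v235, v196, v38, v25, v190, v70] :=
  P_of 8 9 0xfffffffffffffffffffffffffffffffffff3d0f43b4e92c0b02d8b52d0b52dcb9ffffffffffffffffffffffffffffff2ecbc38ce6398e7fffff2d4b52ccb12dcb6
    (by decide +kernel) t2_175

theorem t2_177 : Good (Q 9) [v222, v196, v38, v25, v190, v70] :=
  split_of 0 2 v235 1325859591 (by decide +kernel) t2_176 (good_ofj c2_174) rfl rfl

theorem t2_178 : Good (Q 9) [v237, v54, v38, v25, v196, v70] :=
  split_of 1 3 v53 1316091829 (by decide +kernel) (good_ofj c2_175) (good_ofj c2_176) rfl rfl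

theorem t2_179 : Good (Q 9) [v226, v54, v38, v25, v196, v70] :=
  split_of 0 2 v237 1318995381 (by decide +kernel) t2_178 (good_ofj c2_177) rfl rfl

theorem t2_180 : Good (Q 8) [v226, v33, v54, v25, v196, v70] :=
  split_of 0 3 v503 1311879729 (by decide +kernel) (good_ofj c2_178) (good_ofj c2_179) rfl rfl

theorem t2_181 : Good (Q 9) [v226, v33, v54, v25, v196, v70] :=
  P_of 8 9 0xffffffffffffffffffffffffffffff5194240d053fd002b8ad2d0b42d0b42ccb3ffffffffffffffffffffffffffffff2f8bf348d0360d7fffff2e8ba2e0b82f0bd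
    (by decide +kernel) t2_180

theorem t2_182 : Good (Q 7) [v226, v80, v54, v33, v196, v70] :=
  split_of 0 2 v239 1305739407 (by decide +kernel) (good_ofj c2_180) (good_ofj c2_181) rfl rfl

theorem t2_183 : Good (Q 8) [v226, v80, v54, v33, v196, v70] :=
  P_of 7 8 0xffffffffffffffffffffffffffffff5054441505400ff2b4ae2d0b42ccb42ccb2ffffffffffffffffffffffffffffff2fcbe340d035cd8721c52e8bb2e4b82f0bb
    (by decide +kernel) t2_182

theorem t2_184 : Good (Q 9) [v226, v80, v54, v33, v196, v70] :=
  P_of 8 9 0xffffffffffffffffffffffffffffff5094341505400ff2b8ad2d0b42ccb32ccb3ffffffffffffffffffffffffffffff2fcbf340d1358d7fffff2e8ba2e4b82f0bc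
    (by decide +kernel) t2_183

theorem t2_185 : Good (Q 9) [v226, v30, v54, v33, v196, v70] :=
  split_of 1 5 v80 1300509902 (by decide +kernel) t2_184 (good_ofj c2_182) rfl rfl

theorem t2_186 : Good (Q 9) [v226, v30, v54, v25, v196, v70] :=
  split_of 1 3 v33 1302360762 (by decide +kernel) t2_181 t2_185 rfl rfl

theorem t2_187 : Good (Q 9) [v226, v30, v38, v25, v196, v70] :=
  split_of 1 2 v54 1309864426 (by decide +kernel) t2_179 t2_186 rfl rfl

theorem t2_188 : Good (Q 9) [v222, v30, v38, v25, v196, v70] :=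
  split_of 0 1 v226 1300207819 (by decide +kernel) t2_187 (good_ofj c2_183) rfl rfl

theorem t2_189 : Good (Q 9) [v222, v30, v38, v25, v190, v70] :=
  split_of 1 4 v196 1315466281 (by decide +kernel) t2_177 t2_188 rfl rfl

theorem t2_190 : Good (Q 9) [v222, v30, v38, v25, v190, v68] :=
  split_of 1 5 v70 1318153381 (by decide +kernel) t2_173 t2_189 rfl rfl

theorem t2_191 : Good (Q 9) [v222, v30, v38, v23, v190, v68] :=
  split_of 1 3 v25 1321013612 (by decide +kernel) t2_172 t2_190 rfl rfl

theorem t2_192 : Good (Q 9) [v222, v30, v7, v23, v190, v68] :=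
  split_of 1 2 v38 1333169107 (by decide +kernel) t2_171 t2_191 rfl rfl

theorem t2_193 : Good (Q 9) [v222, v30, v7, v23, v185, v68] :=
  split_of 2 4 v190 1337829094 (by decide +kernel) t2_161 t2_192 rfl rfl

theorem t2_194 : Good (Q 9) [v222, v30, v7, v23, v185, v67] :=
  split_of 2 5 v68 1339403310 (by decide +kernel) t2_154 t2_193 rfl rfl

theorem t2_195 : Good (Q 9) [v220, v222, v7, v23, v185, v68] :=
  split_of 0 2 v240 1343852908 (by decide +kernel) (good_ofj c2_185) (good_ofj c2_186) rfl rfl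

theorem t2_196 : Good (Q 9) [v220, v222, v7, v23, v185, v67] :=
  split_of 2 5 v68 1339403310 (by decide +kernel) (good_ofj c2_184) t2_195 rfl rfl

theorem t2_197 : Good (Q 9) [v220, v30, v7, v23, v185, v67] :=
  split_of 0 1 v222 1313261210 (by decide +kernel) t2_194 t2_196 rfl rfl

theorem t2_198 : Good (Q 9) [v220, v30, v7, v10, v185, v67] :=
  split_of 2 3 v23 1341057865 (by decide +kernel) t2_149 t2_197 rfl rfl

theorem t2_199 : Good (Q 10) [v220, v30, v7, v10, v185, v67] :=
  env_E _ t2_198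

theorem t2_200 : Good (Q 10) [v220, v30, v7, v10, v176, v67] :=
  split_of 1 4 v185 1293212810 (by decide +kernel) (good_ofj c2_136) t2_199 rfl rfl

theorem t2_201 : Good (Q 10) [v220, v30, v7, v10, v176, v6] :=
  split_of 1 5 v67 1300877891 (by decide +kernel) (good_ofj c2_135) t2_200 rfl rfl

theorem t2_202 : Good (Q 10) [v218, v30, v7, v10, v176, v6] :=
  split_of 0 2 v220 1315710025 (by decide +kernel) t2_201 (good_ofj c2_187) rfl rfl

theorem t2_203 : Good (Q 10) [v218, v30, v7, v3, v176, v6] :=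
  split_of 1 3 v10 1307275754 (by decide +kernel) t2_144 t2_202 rfl rfl

theorem t2_204 : Good (Q 10) [v218, v30, v7, v3, v176, v0] :=
  split_of 3 5 v6 1266396334 (by decide +kernel) t2_143 t2_203 rfl rfl

theorem t2_205 : Good (Q 10) [v218, v30, v7, v3, v179, v0] :=
  split_of 1 4 v176 1268403305 (by decide +kernel) t2_101 t2_204 rfl rfl

theorem t2_206 : Good (Q 10) [v84, v10, v7, v3, v500, v6] :=
  split_of 0 3 v85 1278344175 (by decide +kernel) (good_ofj c2_190) (good_ofj c2_191) rfl rfl

theorem t2_207 : Good (Q 10) [v84, v10, v7, v3, v218, v6] :=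
  split_of 3 4 v500 1269404413 (by decide +kernel) (good_ofj c2_189) t2_206 rfl rfl

theorem t2_208 : Good (Q 10) [v84, v10, v7, v3, v218, v0] :=
  split_of 3 5 v6 1266396334 (by decide +kernel) (good_ofj c2_188) t2_207 rfl rfl

theorem t2_209 : Good (Q 10) [v84, v30, v220, v10, v218, v0] :=
  split_of 3 4 v504 1281787212 (by decide +kernel) (good_ofj c2_192) (good_ofj c2_193) rfl rfl

theorem t2_210 : Good (Q 9) [v87, v30, v19, v10, v220, v60] :=
  split_of 1 3 v22 1303729140 (by decide +kernel) (good_ofj c2_195) (good_ofj c2_196) rfl rfl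

theorem t2_211 : Good (Q 9) [v87, v30, v19, v10, v220, v0] :=
  split_of 1 5 v60 1264382982 (by decide +kernel) (good_ofj c2_194) t2_210 rfl rfl

theorem t2_212 : Good (Q 9) [v88, v30, v25, v22, v226, v28] :=
  split_of 0 1 v89 1300877891 (by decide +kernel) (good_ofj c2_203) (good_ofj c2_204) rfl rfl

theorem t2_213 : Good (Q 9) [v88, v30, v25, v22, v222, v28] :=
  split_of 1 4 v226 1300207819 (by decide +kernel) (good_ofj c2_202) t2_212 rfl rfl

theorem t2_214 : Good (Q 9) [v88, v30, v25, v22, v222, v24] :=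
  split_of 1 5 v28 1299835258 (by decide +kernel) (good_ofj c2_201) t2_213 rfl rfl

theorem t2_215 : Good (Q 9) [v88, v30, v23, v22, v222, v24] :=
  split_of 1 2 v25 1321013612 (by decide +kernel) (good_ofj c2_200) t2_214 rfl rfl

theorem t2_216 : Good (Q 9) [v87, v30, v23, v22, v222, v24] :=
  split_of 0 1 v88 1315710025 (by decide +kernel) t2_215 (good_ofj c2_205) rfl rfl

theorem t2_217 : Good (Q 9) [v87, v30, v23, v22, v222, v19] :=
  split_of 1 5 v24 1311740689 (by decide +kernel) (good_ofj c2_199) t2_216 rfl rfl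

theorem t2_218 : Good (Q 9) [v87, v30, v23, v22, v220, v19] :=
  split_of 1 4 v222 1313261210 (by decide +kernel) (good_ofj c2_198) t2_217 rfl rfl

theorem t2_219 : Good (Q 9) [v87, v30, v23, v10, v220, v19] :=
  split_of 1 3 v22 1303729140 (by decide +kernel) (good_ofj c2_197) t2_218 rfl rfl

theorem t2_220 : Good (Q 9) [v91, v230, v7, v23, v240, v59] :=
  split_of 2 3 v39 1349823198 (by decide +kernel) (good_ofj c2_208) (good_ofj c2_209) rfl rfl

theorem t2_221 : Good (Q 9) [v91, v222, v7, v23, v240, v59] :=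
  split_of 1 2 v230 1342889933 (by decide +kernel) t2_220 (good_ofj c2_210) rfl rfl

theorem t2_222 : Good (Q 9) [v87, v222, v7, v23, v240, v59] :=
  split_of 0 2 v91 1345746917 (by decide +kernel) t2_221 (good_ofj c2_211) rfl rfl

theorem t2_223 : Good (Q 9) [v87, v222, v7, v23, v240, v19] :=
  split_of 2 5 v59 1342177280 (by decide +kernel) (good_ofj c2_207) t2_222 rfl rfl

theorem t2_224 : Good (Q 9) [v87, v222, v7, v23, v220, v19] :=
  split_of 2 4 v240 1343852908 (by decide +kernel) (good_ofj c2_206) t2_223 rfl rfl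

theorem t2_225 : Good (Q 9) [v91, v37, v7, v39, v230, v92] :=
  split_of 0 2 v93 1351066130 (by decide +kernel) (good_ofj c2_216) (good_ofj c2_217) rfl rfl

theorem t2_226 : Good (Q 9) [v91, v37, v7, v39, v230, v59] :=
  split_of 2 5 v92 1350182502 (by decide +kernel) (good_ofj c2_215) t2_225 rfl rfl

theorem t2_227 : Good (Q 9) [v91, v37, v7, v23, v230, v59] :=
  split_of 2 3 v39 1349823198 (by decide +kernel) (good_ofj c2_214) t2_226 rfl rfl

theorem t2_228 : Good (Q 9) [v91, v37, v7, v23, v222, v59] :=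
  split_of 2 4 v230 1342889933 (by decide +kernel) (good_ofj c2_213) t2_227 rfl rfl

theorem t2_229 : Good (Q 9) [v91, v24, v7, v23, v222, v59] :=
  split_of 1 2 v37 1342484791 (by decide +kernel) t2_228 (good_ofj c2_218) rfl rfl

theorem t2_230 : Good (Q 9) [v87, v24, v7, v23, v222, v59] :=
  split_of 0 2 v91 1345746917 (by decide +kernel) t2_229 (good_ofj c2_219) rfl rfl

theorem t2_231 : Good (Q 9) [v87, v24, v7, v23, v222, v19] :=
  split_of 2 5 v59 1342177280 (by decide +kernel) (good_ofj c2_212) t2_230 rfl rfl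

theorem t2_232 : Good (Q 9) [v88, v38, v37, v23, v222, v48] :=
  split_of 3 4 v502 1332431829 (by decide +kernel) (good_ofj c2_221) (good_ofj c2_222) rfl rfl

theorem t2_233 : Good (Q 9) [v88, v38, v37, v23, v222, v24] :=
  split_of 3 5 v48 1332091271 (by decide +kernel) (good_ofj c2_220) t2_232 rfl rfl

theorem t2_234 : Good (Q 9) [v88, v38, v230, v23, v222, v37] :=
  split_of 3 4 v502 1332431829 (by decide +kernel) (good_ofj c2_223) (good_ofj c2_224) rfl rfl

theorem t2_235 : Good (Q 7) [v95, v43, v42, v39, v230, v96] :=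
  split_of 3 4 v505 1347600938 (by decide +kernel) (good_ofj c2_227) (good_ofj c2_228) rfl rfl

theorem t2_236 : Good (Q 8) [v95, v43, v42, v39, v230, v96] :=
  P_of 7 8 0xffffffffffffffffffffffffffffff70dc3358d7350d32dcb62f4bd2f0bc2f4beffffffffffffffffffffffffffffff2d4b63f8fe41104515462c0b02bcae2ccb3
    (by decide +kernel) t2_235

theorem t2_237 : Good (Q 8) [v95, v43, v42, v39, v230, v37] :=
  split_of 3 5 v96 1347503850 (by decide +kernel) (good_ofj c2_226) t2_236 rfl rfl

theorem t2_238 : Good (Q 9) [v95, v43, v42, v39, v230, v37] :=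
  P_of 8 9 0xfffffffffffffffffffffffffffffffffff358d6350d42e0b52f4be2ecbc2f4beffffffffffffffffffffffffffffff2d4b6400fe40d05515452c0af2c0af2ccb4
    (by decide +kernel) t2_237

theorem t2_239 : Good (Q 7) [v95, v43, v232, v39, v230, v42] :=
  split_of 3 4 v505 1347600938 (by decide +kernel) (good_ofj c2_229) (good_ofj c2_230) rfl rfl

theorem t2_240 : Good (Q 8) [v95, v43, v232, v39, v230, v42] :=
  P_of 7 8 0xffffffffffffffffffffffffffffff715c3358d734cd32dcb62f4bd2f0bc2f4beffffffffffffffffffffffffffffff2d4b63fcfe41504511452c0b02bcae2ccb4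
    (by decide +kernel) t2_239

theorem t2_241 : Good (Q 9) [v95, v43, v232, v39, v230, v42] :=
  P_of 8 9 0xfffffffffffffffffffffffffffffffffff358d534cd22dcb72f4be2f0bc2f4beffffffffffffffffffffffffffffff2d4b63fcff41106511422c0b02bcaf2ccb2
    (by decide +kernel) t2_240

theorem t2_242 : Good (Q 9) [v98, v43, v99, v100, v232, v42] :=
  split_of 1 5 v101 1349299878 (by decide +kernel) (good_ofj c2_234) (good_ofj c2_235) rfl rfl

theorem t2_243 : Good (Q 9) [v98, v43, v99, v44, v232, v42] :=
  split_of 1 3 v100 1350710315 (by decide +kernel) (good_ofj c2_233) t2_242 rfl rfl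

theorem t2_244 : Good (Q 9) [v98, v43, v7, v44, v232, v42] :=
  split_of 1 2 v99 1351535087 (by decide +kernel) (good_ofj c2_232) t2_243 rfl rfl

theorem t2_245 : Good (Q 9) [v98, v43, v7, v39, v232, v42] :=
  split_of 2 3 v44 1352069164 (by decide +kernel) (good_ofj c2_231) t2_244 rfl rfl

theorem t2_246 : Good (Q 7) [v95, v43, v98, v39, v232, v42] :=
  split_of 0 3 v102 1347724011 (by decide +kernel) (good_ofj c2_236) (good_ofj c2_237) rfl rfl

theorem t2_247 : Good (Q 8) [v95, v43, v98, v39, v232, v42] :=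
  P_of 7 8 0xffffffffffffffffffffffffffffff725c5350d5348d32dcb62f8bd2f4bc2f8beffffffffffffffffffffffffffffff2d4b53fcff41d05501432c0af2bcaf2ccb3
    (by decide +kernel) t2_246

theorem t2_248 : Good (Q 9) [v95, v43, v98, v39, v232, v42] :=
  P_of 8 9 0xfffffffffffffffffffffffffffffffffff354d4344d22dcb72f8be2f4bd2f4beffffffffffffffffffffffffffffff2d4b53fcff41d07505402c0b02bcaf2c8b3
    (by decide +kernel) t2_247

theorem t2_249 : Good (Q 9) [v95, v43, v7, v39, v232, v42] :=
  split_of 0 2 v98 1350444950 (by decide +kernel) t2_245 t2_248 rfl rfl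

theorem t2_250 : Good (Q 9) [v95, v43, v7, v39, v230, v42] :=
  split_of 2 4 v232 1350325825 (by decide +kernel) t2_241 t2_249 rfl rfl

theorem t2_251 : Good (Q 9) [v95, v43, v7, v39, v230, v37] :=
  split_of 2 5 v42 1350220494 (by decide +kernel) t2_238 t2_250 rfl rfl

theorem t2_252 : Good (Q 9) [v95, v38, v43, v39, v230, v37] :=
  split_of 1 3 v46 1344546372 (by decide +kernel) (good_ofj c2_238) (good_ofj c2_239) rfl rfl

theorem t2_253 : Good (Q 9) [v95, v38, v7, v39, v230, v37] :=
  split_of 1 2 v43 1347746544 (by decide +kernel) t2_251 t2_252 rfl rfl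

theorem t2_254 : Good (Q 9) [v95, v38, v7, v23, v230, v37] :=
  split_of 2 3 v39 1349823198 (by decide +kernel) (good_ofj c2_225) t2_253 rfl rfl

theorem t2_255 : Good (Q 8) [v88, v38, v95, v103, v230, v37] :=
  split_of 0 1 v105 1326446749 (by decide +kernel) (good_ofj c2_241) (good_ofj c2_242) rfl rfl

theorem t2_256 : Good (Q 9) [v88, v38, v95, v103, v230, v37] :=
  P_of 8 9 0xfffffffffffffffffffffffffffffffffff3b4ec3a8e82bcae2e4ba2e0ba2d4b6ffffffffffffffffffffffffffffff2e0b9390e33c0f4fffff2d0b32ccb12dcb7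
    (by decide +kernel) t2_255

theorem t2_257 : Good (Q 9) [v88, v38, v95, v23, v230, v37] :=
  split_of 1 3 v103 1339964634 (by decide +kernel) (good_ofj c2_240) t2_256 rfl rfl

theorem t2_258 : Good (Q 9) [v88, v38, v7, v23, v230, v37] :=
  split_of 0 2 v95 1343406483 (by decide +kernel) t2_254 t2_257 rfl rfl

theorem t2_259 : Good (Q 9) [v88, v38, v7, v23, v222, v37] :=
  split_of 2 4 v230 1342889933 (by decide +kernel) t2_234 t2_258 rfl rfl

theorem t2_260 : Good (Q 9) [v88, v38, v7, v23, v222, v24] :=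
  split_of 2 5 v37 1342484791 (by decide +kernel) t2_233 t2_259 rfl rfl

theorem t2_261 : Good (Q 9) [v88, v25, v38, v23, v222, v24] :=
  split_of 3 5 v48 1332091271 (by decide +kernel) (good_ofj c2_243) (good_ofj c2_244) rfl rfl

theorem t2_262 : Good (Q 9) [v88, v226, v38, v25, v235, v28] :=
  split_of 0 2 v105 1326446749 (by decide +kernel) (good_ofj c2_247) (good_ofj c2_248) rfl rfl

theorem t2_263 : Good (Q 9) [v88, v226, v38, v25, v222, v28] :=
  split_of 2 4 v235 1325859591 (by decide +kernel) (good_ofj c2_246) t2_262 rfl rfl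

theorem t2_264 : Good (Q 8) [v89, v54, v52, v25, v226, v28] :=
  split_of 3 5 v56 1311791918 (by decide +kernel) (good_ofj c2_249) (good_ofj c2_250) rfl rfl

theorem t2_265 : Good (Q 9) [v89, v54, v52, v25, v226, v28] :=
  P_of 8 9 0xffffffffffffffffffffffffffffff5194640d033fcff2b8ae2d0b52ccb32c8b3ffffffffffffffffffffffffffffff2f8bf348d2360d8fffff2e8b92e4b92ecbb
    (by decide +kernel) t2_264

theorem t2_266 : Good (Q 8) [v89, v54, v237, v25, v226, v52] :=
  split_of 3 4 v503 1311879729 (by decide +kernel) (good_ofj c2_251) (good_ofj c2_252) rfl rfl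

theorem t2_267 : Good (Q 9) [v89, v54, v237, v25, v226, v52] :=
  P_of 8 9 0xffffffffffffffffffffffffffffff5194640d043fcfe2b8ad2ccb42ccb42c8b2ffffffffffffffffffffffffffffff2f4be348d135cd9fffff2e8ba2e4b82ecbc
    (by decide +kernel) t2_266

theorem t2_268 : Good (Q 9) [v89, v54, v38, v25, v237, v52] :=
  split_of 0 2 v104 1319149179 (by decide +kernel) (good_ofj c2_253) (good_ofj c2_254) rfl rfl

theorem t2_269 : Good (Q 9) [v89, v54, v38, v25, v226, v52] :=
  split_of 2 4 v237 1318995381 (by decide +kernel) t2_267 t2_268 rfl rfl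

theorem t2_270 : Good (Q 9) [v89, v54, v38, v25, v226, v28] :=
  split_of 2 5 v52 1318899466 (by decide +kernel) t2_265 t2_269 rfl rfl

theorem t2_271 : Good (Q 8) [v89, v33, v54, v25, v226, v56] :=
  split_of 3 4 v503 1311879729 (by decide +kernel) (good_ofj c2_256) (good_ofj c2_257) rfl rfl

theorem t2_272 : Good (Q 8) [v89, v33, v54, v25, v226, v28] :=
  split_of 3 5 v56 1311791918 (by decide +kernel) (good_ofj c2_255) t2_271 rfl rfl

theorem t2_273 : Good (Q 9) [v89, v33, v54, v25, v226, v28] :=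
  P_of 8 9 0xffffffffffffffffffffffffffffff50d4641503400fe2b8ae2d0b52ccb32c8b3ffffffffffffffffffffffffffffff2fcbf344d235cd8fffff2e8b92e4b92f0bb
    (by decide +kernel) t2_272

theorem t2_274 : Good (Q 9) [v89, v30, v54, v25, v226, v28] :=
  split_of 1 3 v33 1302360762 (by decide +kernel) t2_273 (good_ofj c2_258) rfl rfl

theorem t2_275 : Good (Q 9) [v89, v30, v38, v25, v226, v28] :=
  split_of 1 2 v54 1309864426 (by decide +kernel) t2_270 t2_274 rfl rfl

theorem t2_276 : Good (Q 9) [v105, v89, v38, v25, v226, v28] :=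
  split_of 2 5 v52 1318899466 (by decide +kernel) (good_ofj c2_259) (good_ofj c2_260) rfl rfl

theorem t2_277 : Good (Q 9) [v88, v89, v38, v25, v226, v28] :=
  split_of 0 2 v105 1326446749 (by decide +kernel) t2_276 (good_ofj c2_261) rfl rfl

theorem t2_278 : Good (Q 9) [v88, v30, v38, v25, v226, v28] :=
  split_of 0 1 v89 1300877891 (by decide +kernel) t2_275 t2_277 rfl rfl

theorem t2_279 : Good (Q 9) [v88, v30, v38, v25, v222, v28] :=
  split_of 1 4 v226 1300207819 (by decide +kernel) t2_263 t2_278 rfl rfl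

theorem t2_280 : Good (Q 9) [v88, v30, v38, v25, v222, v24] :=
  split_of 1 5 v28 1299835258 (by decide +kernel) (good_ofj c2_245) t2_279 rfl rfl

theorem t2_281 : Good (Q 9) [v88, v30, v38, v23, v222, v24] :=
  split_of 1 3 v25 1321013612 (by decide +kernel) t2_261 t2_280 rfl rfl

theorem t2_282 : Good (Q 9) [v88, v30, v7, v23, v222, v24] :=
  split_of 1 2 v38 1333169107 (by decide +kernel) t2_260 t2_281 rfl rfl

theorem t2_283 : Good (Q 9) [v93, v95, v7, v39, v230, v37] :=
  split_of 2 5 v42 1350220494 (by decide +kernel) (good_ofj c2_265) (good_ofj c2_266) rfl rfl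

theorem t2_284 : Good (Q 9) [v91, v95, v7, v39, v230, v37] :=
  split_of 0 2 v93 1351066130 (by decide +kernel) t2_283 (good_ofj c2_267) rfl rfl

theorem t2_285 : Good (Q 9) [v91, v95, v7, v23, v230, v37] :=
  split_of 2 3 v39 1349823198 (by decide +kernel) (good_ofj c2_264) t2_284 rfl rfl

theorem t2_286 : Good (Q 9) [v91, v88, v7, v23, v230, v37] :=
  split_of 1 2 v95 1343406483 (by decide +kernel) t2_285 (good_ofj c2_268) rfl rfl

theorem t2_287 : Good (Q 9) [v91, v88, v7, v23, v222, v37] :=
  split_of 2 4 v230 1342889933 (by decide +kernel) (good_ofj c2_263) t2_286 rfl rfl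

theorem t2_288 : Good (Q 9) [v91, v88, v7, v23, v222, v24] :=
  split_of 2 5 v37 1342484791 (by decide +kernel) (good_ofj c2_262) t2_287 rfl rfl

theorem t2_289 : Good (Q 9) [v87, v88, v7, v23, v222, v24] :=
  split_of 0 2 v91 1345746917 (by decide +kernel) t2_288 (good_ofj c2_269) rfl rfl

theorem t2_290 : Good (Q 9) [v87, v30, v7, v23, v222, v24] :=
  split_of 0 1 v88 1315710025 (by decide +kernel) t2_282 t2_289 rfl rfl

theorem t2_291 : Good (Q 9) [v87, v30, v7, v23, v222, v19] :=
  split_of 1 5 v24 1311740689 (by decide +kernel) t2_231 t2_290 rfl rfl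

theorem t2_292 : Good (Q 9) [v87, v30, v7, v23, v220, v19] :=
  split_of 1 4 v222 1313261210 (by decide +kernel) t2_224 t2_291 rfl rfl

theorem t2_293 : Good (Q 9) [v87, v30, v7, v10, v220, v19] :=
  split_of 2 3 v23 1341057865 (by decide +kernel) t2_219 t2_292 rfl rfl

theorem t2_294 : Good (Q 9) [v87, v30, v7, v10, v220, v0] :=
  split_of 2 5 v19 1309159440 (by decide +kernel) t2_211 t2_293 rfl rfl

theorem t2_295 : Good (Q 9) [v106, v30, v87, v10, v220, v0] :=
  split_of 1 5 v60 1264382982 (by decide +kernel) (good_ofj c2_270) (good_ofj c2_271) rfl rfl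

theorem t2_296 : Good (Q 9) [v84, v30, v87, v10, v220, v0] :=
  split_of 0 1 v106 1281296482 (by decide +kernel) t2_295 (good_ofj c2_272) rfl rfl

theorem t2_297 : Good (Q 9) [v84, v30, v7, v10, v220, v0] :=
  split_of 0 2 v87 1324037525 (by decide +kernel) t2_294 t2_296 rfl rfl

theorem t2_298 : Good (Q 10) [v84, v30, v7, v10, v220, v0] :=
  env_E _ t2_297

theorem t2_299 : Good (Q 10) [v84, v30, v7, v10, v218, v0] :=
  split_of 2 4 v220 1315710025 (by decide +kernel) t2_209 t2_298 rfl rfl

theorem t2_300 : Good (Q 10) [v84, v30, v7, v3, v218, v0] :=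
  split_of 1 3 v10 1307275754 (by decide +kernel) t2_208 t2_299 rfl rfl

theorem t2_301 : Good (Q 9) [v109, v230, v7, v91, v280, v92] :=
  split_of 2 3 v93 1351066130 (by decide +kernel) (good_ofj c2_281) (good_ofj c2_282) rfl rfl

theorem t2_302 : Good (Q 9) [v109, v230, v7, v91, v240, v92] :=
  split_of 2 4 v280 1350610654 (by decide +kernel) (good_ofj c2_280) t2_301 rfl rfl

theorem t2_303 : Good (Q 9) [v109, v230, v7, v91, v240, v59] :=
  split_of 2 5 v92 1350182502 (by decide +kernel) (good_ofj c2_279) t2_302 rfl rfl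

theorem t2_304 : Good (Q 9) [v108, v230, v7, v91, v240, v59] :=
  split_of 0 2 v109 1347302695 (by decide +kernel) t2_303 (good_ofj c2_283) rfl rfl

theorem t2_305 : Good (Q 9) [v108, v222, v7, v91, v240, v59] :=
  split_of 1 2 v230 1342889933 (by decide +kernel) t2_304 (good_ofj c2_284) rfl rfl

theorem t2_306 : Good (Q 9) [v108, v222, v7, v87, v240, v59] :=
  split_of 2 3 v91 1345746917 (by decide +kernel) (good_ofj c2_278) t2_305 rfl rfl

theorem t2_307 : Good (Q 9) [v108, v222, v7, v87, v240, v19] :=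
  split_of 2 5 v59 1342177280 (by decide +kernel) (good_ofj c2_277) t2_306 rfl rfl

theorem t2_308 : Good (Q 9) [v108, v222, v7, v87, v220, v19] :=
  split_of 2 4 v240 1343852908 (by decide +kernel) (good_ofj c2_276) t2_307 rfl rfl

theorem t2_309 : Good (Q 9) [v109, v37, v7, v93, v230, v92] :=
  split_of 1 2 v42 1350220494 (by decide +kernel) (good_ofj c2_290) (good_ofj c2_291) rfl rfl

theorem t2_310 : Good (Q 9) [v109, v37, v7, v91, v230, v92] :=
  split_of 2 3 v93 1351066130 (by decide +kernel) (good_ofj c2_289) t2_309 rfl rfl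

theorem t2_311 : Good (Q 9) [v109, v37, v7, v91, v230, v59] :=
  split_of 2 5 v92 1350182502 (by decide +kernel) (good_ofj c2_288) t2_310 rfl rfl

theorem t2_312 : Good (Q 9) [v108, v37, v7, v91, v230, v59] :=
  split_of 0 2 v109 1347302695 (by decide +kernel) t2_311 (good_ofj c2_292) rfl rfl

theorem t2_313 : Good (Q 9) [v108, v37, v7, v91, v222, v59] :=
  split_of 2 4 v230 1342889933 (by decide +kernel) (good_ofj c2_287) t2_312 rfl rfl

theorem t2_314 : Good (Q 9) [v108, v24, v7, v91, v222, v59] :=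
  split_of 1 2 v37 1342484791 (by decide +kernel) t2_313 (good_ofj c2_293) rfl rfl

theorem t2_315 : Good (Q 9) [v108, v24, v7, v87, v222, v59] :=
  split_of 2 3 v91 1345746917 (by decide +kernel) (good_ofj c2_286) t2_314 rfl rfl

theorem t2_316 : Good (Q 9) [v108, v24, v7, v87, v222, v19] :=
  split_of 2 5 v59 1342177280 (by decide +kernel) (good_ofj c2_285) t2_315 rfl rfl

theorem t2_317 : Good (Q 9) [v108, v30, v91, v88, v222, v24] :=
  split_of 1 2 v105 1326446749 (by decide +kernel) (good_ofj c2_295) (good_ofj c2_296) rfl rfl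

theorem t2_318 : Good (Q 9) [v108, v30, v91, v87, v222, v24] :=
  split_of 1 3 v88 1315710025 (by decide +kernel) (good_ofj c2_294) t2_317 rfl rfl

theorem t2_319 : Good (Q 9) [v111, v38, v37, v91, v222, v49] :=
  split_of 1 4 v235 1325859591 (by decide +kernel) (good_ofj c2_298) (good_ofj c2_299) rfl rfl

theorem t2_320 : Good (Q 9) [v111, v38, v37, v91, v222, v24] :=
  split_of 1 5 v49 1325472642 (by decide +kernel) (good_ofj c2_297) t2_319 rfl rfl

theorem t2_321 : Good (Q 9) [v108, v38, v37, v91, v222, v24] :=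
  split_of 0 1 v111 1336786951 (by decide +kernel) t2_320 (good_ofj c2_300) rfl rfl

theorem t2_322 : Good (Q 9) [v108, v38, v230, v91, v222, v37] :=
  split_of 0 1 v111 1336786951 (by decide +kernel) (good_ofj c2_301) (good_ofj c2_302) rfl rfl

theorem t2_323 : Good (Q 9) [v109, v95, v7, v93, v230, v42] :=
  split_of 2 4 v232 1350325825 (by decide +kernel) (good_ofj c2_305) (good_ofj c2_306) rfl rfl

theorem t2_324 : Good (Q 9) [v109, v95, v7, v93, v230, v37] :=
  split_of 2 5 v42 1350220494 (by decide +kernel) (good_ofj c2_304) t2_323 rfl rfl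

theorem t2_325 : Good (Q 9) [v109, v95, v7, v91, v230, v37] :=
  split_of 2 3 v93 1351066130 (by decide +kernel) (good_ofj c2_303) t2_324 rfl rfl

theorem t2_326 : Good (Q 9) [v109, v43, v42, v95, v230, v37] :=
  split_of 0 5 v112 1346097975 (by decide +kernel) (good_ofj c2_307) (good_ofj c2_308) rfl rfl

theorem t2_327 : Good (Q 7) [v113, v43, v232, v95, v230, v42] :=
  split_of 1 4 v282 1345912041 (by decide +kernel) (good_ofj c2_309) (good_ofj c2_310) rfl rfl

theorem t2_328 : Good (Q 8) [v113, v43, v232, v95, v230, v42] :=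
  P_of 7 8 0xffffffffffffffffffffffffffffff71dc3354d7348d32dcb72fcbf2f8bd2e8baffffffffffffffffffffffffffffff2d0b43f0fb42508509452c4b12c0b02c4b2
    (by decide +kernel) t2_327

theorem t2_329 : Good (Q 9) [v113, v43, v232, v95, v230, v42] :=
  P_of 8 9 0xfffffffffffffffffffffffffffffffffff354d5348d22dcb72fcbf2f8be2e8baffffffffffffffffffffffffffffff2d0b43f0fc42509509422c4b12c0b02c4b1
    (by decide +kernel) t2_328

theorem t2_330 : Good (Q 9) [v109, v43, v232, v95, v230, v42] :=
  split_of 0 1 v113 1348854888 (by decide +kernel) t2_329 (good_ofj c2_311) rfl rfl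

theorem t2_331 : Good (Q 9) [v109, v43, v98, v95, v232, v42] :=
  split_of 0 1 v113 1348854888 (by decide +kernel) (good_ofj c2_312) (good_ofj c2_313) rfl rfl

theorem t2_332 : Good (Q 9) [v115, v43, v99, v98, v232, v101] :=
  split_of 1 4 v284 1349326032 (by decide +kernel) (good_ofj c2_316) (good_ofj c2_317) rfl rfl

theorem t2_333 : Good (Q 9) [v115, v43, v99, v98, v232, v42] :=
  split_of 1 5 v101 1349299878 (by decide +kernel) (good_ofj c2_315) t2_332 rfl rfl

theorem t2_334 : Good (Q 9) [v114, v43, v99, v98, v232, v42] :=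
  split_of 0 1 v115 1350548520 (by decide +kernel) t2_333 (good_ofj c2_318) rfl rfl

theorem t2_335 : Good (Q 9) [v114, v43, v7, v98, v232, v42] :=
  split_of 1 2 v99 1351535087 (by decide +kernel) (good_ofj c2_314) t2_334 rfl rfl

theorem t2_336 : Good (Q 9) [v109, v43, v7, v98, v232, v42] :=
  split_of 0 2 v114 1351479933 (by decide +kernel) t2_335 (good_ofj c2_319) rfl rfl

theorem t2_337 : Good (Q 9) [v109, v43, v7, v95, v232, v42] :=
  split_of 2 3 v98 1350444950 (by decide +kernel) t2_331 t2_336 rfl rfl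

theorem t2_338 : Good (Q 9) [v109, v43, v7, v95, v230, v42] :=
  split_of 2 4 v232 1350325825 (by decide +kernel) t2_330 t2_337 rfl rfl

theorem t2_339 : Good (Q 9) [v109, v43, v7, v95, v230, v37] :=
  split_of 2 5 v42 1350220494 (by decide +kernel) t2_326 t2_338 rfl rfl

theorem t2_340 : Good (Q 9) [v117, v38, v43, v95, v230, v118] :=
  split_of 1 4 v285 1339155827 (by decide +kernel) (good_ofj c2_321) (good_ofj c2_322) rfl rfl

theorem t2_341 : Good (Q 9) [v117, v38, v43, v95, v230, v37] :=
  split_of 1 5 v118 1339055755 (by decide +kernel) (good_ofj c2_320) t2_340 rfl rfl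

theorem t2_342 : Good (Q 9) [v109, v38, v43, v95, v230, v37] :=
  split_of 0 1 v117 1343797121 (by decide +kernel) t2_341 (good_ofj c2_323) rfl rfl

theorem t2_343 : Good (Q 9) [v109, v38, v7, v95, v230, v37] :=
  split_of 1 2 v43 1347746544 (by decide +kernel) t2_339 t2_342 rfl rfl

theorem t2_344 : Good (Q 9) [v109, v38, v7, v91, v230, v37] :=
  split_of 1 3 v95 1343406483 (by decide +kernel) t2_325 t2_343 rfl rfl

theorem t2_345 : Good (Q 9) [v108, v38, v109, v91, v230, v37] :=
  split_of 0 1 v111 1336786951 (by decide +kernel) (good_ofj c2_324) (good_ofj c2_325) rfl rfl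

theorem t2_346 : Good (Q 9) [v108, v38, v7, v91, v230, v37] :=
  split_of 0 2 v109 1347302695 (by decide +kernel) t2_344 t2_345 rfl rfl

theorem t2_347 : Good (Q 9) [v108, v38, v7, v91, v222, v37] :=
  split_of 2 4 v230 1342889933 (by decide +kernel) t2_322 t2_346 rfl rfl

theorem t2_348 : Good (Q 9) [v108, v38, v7, v91, v222, v24] :=
  split_of 2 5 v37 1342484791 (by decide +kernel) t2_321 t2_347 rfl rfl

theorem t2_349 : Good (Q 9) [v111, v105, v38, v91, v222, v49] :=
  split_of 2 4 v235 1325859591 (by decide +kernel) (good_ofj c2_327) (good_ofj c2_328) rfl rfl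

theorem t2_350 : Good (Q 9) [v111, v105, v38, v91, v222, v24] :=
  split_of 2 5 v49 1325472642 (by decide +kernel) (good_ofj c2_326) t2_349 rfl rfl

theorem t2_351 : Good (Q 9) [v108, v105, v38, v91, v222, v24] :=
  split_of 0 2 v111 1336786951 (by decide +kernel) t2_350 (good_ofj c2_329) rfl rfl

theorem t2_352 : Good (Q 8) [v121, v54, v52, v105, v239, v57] :=
  split_of 1 3 v104 1319149179 (by decide +kernel) (good_ofj c2_334) (good_ofj c2_335) rfl rfl

theorem t2_353 : Good (Q 8) [v121, v54, v52, v105, v226, v57] :=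
  split_of 1 4 v239 1305739407 (by decide +kernel) (good_ofj c2_333) t2_352 rfl rfl

theorem t2_354 : Good (Q 8) [v121, v54, v52, v105, v226, v28] :=
  split_of 1 5 v57 1305645227 (by decide +kernel) (good_ofj c2_332) t2_353 rfl rfl

theorem t2_355 : Good (Q 9) [v121, v54, v52, v105, v226, v28] :=
  P_of 8 9 0xffffffffffffffffffffffffffffff5254a401013fcfe2bcae2d4b62d0b42c4b2ffffffffffffffffffffffffffffff2f0bd348d2368dbfffff2e8b92e8b92ecbb
    (by decide +kernel) t2_354

theorem t2_356 : Good (Q 8) [v121, v54, v237, v105, v239, v52] :=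
  split_of 1 3 v104 1319149179 (by decide +kernel) (good_ofj c2_337) (good_ofj c2_338) rfl rfl

theorem t2_357 : Good (Q 8) [v121, v54, v237, v105, v226, v52] :=
  split_of 1 4 v239 1305739407 (by decide +kernel) (good_ofj c2_336) t2_356 rfl rfl

theorem t2_358 : Good (Q 9) [v121, v54, v237, v105, v226, v52] :=
  P_of 8 9 0xffffffffffffffffffffffffffffff5294a401013fcfe2b8ae2d0b52d0b52c4b1ffffffffffffffffffffffffffffff2f0bd348d236cdbfffff2e8ba2e4b92ecbb
    (by decide +kernel) t2_357

theorem t2_359 : Good (Q 9) [v121, v54, v38, v105, v237, v52] :=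
  split_of 0 2 v123 1319243250 (by decide +kernel) (good_ofj c2_339) (good_ofj c2_340) rfl rfl

theorem t2_360 : Good (Q 9) [v121, v54, v38, v105, v226, v52] :=
  split_of 2 4 v237 1318995381 (by decide +kernel) t2_358 t2_359 rfl rfl

theorem t2_361 : Good (Q 9) [v121, v54, v38, v105, v226, v28] :=
  split_of 2 5 v52 1318899466 (by decide +kernel) t2_355 t2_360 rfl rfl

theorem t2_362 : Good (Q 8) [v121, v506, v54, v105, v226, v28] :=
  split_of 2 5 v57 1305645227 (by decide +kernel) (good_ofj c2_341) (good_ofj c2_342) rfl rfl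

theorem t2_363 : Good (Q 9) [v121, v506, v54, v105, v226, v28] :=
  P_of 8 9 0xffffffffffffffffffffffffffffff5214c405003fcfd2b8ad2d4b62d0b42c4b2ffffffffffffffffffffffffffffff2f4bd344d2368dcfffff2e8b92e8b92ecbb
    (by decide +kernel) t2_362

theorem t2_364 : Good (Q 9) [v121, v30, v54, v105, v226, v28] :=
  split_of 1 3 v506 1305903727 (by decide +kernel) t2_363 (good_ofj c2_343) rfl rfl

theorem t2_365 : Good (Q 9) [v121, v30, v38, v105, v226, v28] :=
  split_of 1 2 v54 1309864426 (by decide +kernel) t2_361 t2_364 rfl rfl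

theorem t2_366 : Good (Q 9) [v124, v121, v38, v105, v226, v28] :=
  split_of 2 5 v52 1318899466 (by decide +kernel) (good_ofj c2_344) (good_ofj c2_345) rfl rfl

theorem t2_367 : Good (Q 9) [v120, v121, v38, v105, v226, v28] :=
  split_of 0 2 v124 1326818823 (by decide +kernel) t2_366 (good_ofj c2_346) rfl rfl

theorem t2_368 : Good (Q 9) [v120, v30, v38, v105, v226, v28] :=
  split_of 0 1 v121 1301234981 (by decide +kernel) t2_365 t2_367 rfl rfl

theorem t2_369 : Good (Q 9) [v120, v30, v38, v105, v222, v28] :=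
  split_of 1 4 v226 1300207819 (by decide +kernel) (good_ofj c2_331) t2_368 rfl rfl

theorem t2_370 : Good (Q 9) [v120, v30, v38, v105, v222, v24] :=
  split_of 1 5 v28 1299835258 (by decide +kernel) (good_ofj c2_330) t2_369 rfl rfl

theorem t2_371 : Good (Q 9) [v108, v30, v38, v105, v222, v24] :=
  split_of 0 1 v120 1317105264 (by decide +kernel) t2_370 (good_ofj c2_347) rfl rfl

theorem t2_372 : Good (Q 9) [v108, v30, v38, v91, v222, v24] :=
  split_of 1 3 v105 1326446749 (by decide +kernel) t2_351 t2_371 rfl rfl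

theorem t2_373 : Good (Q 9) [v108, v30, v7, v91, v222, v24] :=
  split_of 1 2 v38 1333169107 (by decide +kernel) t2_348 t2_372 rfl rfl

theorem t2_374 : Good (Q 9) [v108, v30, v7, v87, v222, v24] :=
  split_of 2 3 v91 1345746917 (by decide +kernel) t2_318 t2_373 rfl rfl

theorem t2_375 : Good (Q 9) [v108, v30, v7, v87, v222, v19] :=
  split_of 1 5 v24 1311740689 (by decide +kernel) t2_316 t2_374 rfl rfl

theorem t2_376 : Good (Q 9) [v108, v30, v7, v87, v220, v19] :=
  split_of 1 4 v222 1313261210 (by decide +kernel) t2_308 t2_375 rfl rfl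

theorem t2_377 : Good (Q 9) [v107, v30, v7, v87, v220, v19] :=
  split_of 0 2 v108 1329531520 (by decide +kernel) t2_376 (good_ofj c2_348) rfl rfl

theorem t2_378 : Good (Q 9) [v107, v30, v7, v87, v220, v0] :=
  split_of 2 5 v19 1309159440 (by decide +kernel) (good_ofj c2_275) t2_377 rfl rfl

theorem t2_379 : Good (Q 9) [v107, v30, v7, v84, v220, v0] :=
  split_of 2 3 v87 1324037525 (by decide +kernel) (good_ofj c2_274) t2_378 rfl rfl

theorem t2_380 : Good (Q 10) [v107, v30, v7, v84, v220, v0] :=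
  env_E _ t2_379

theorem t2_381 : Good (Q 10) [v107, v30, v7, v84, v218, v0] :=
  split_of 2 4 v220 1315710025 (by decide +kernel) (good_ofj c2_273) t2_380 rfl rfl

theorem t2_382 : Good (Q 10) [v125, v30, v7, v84, v218, v0] :=
  split_of 0 2 v107 1245967015 (by decide +kernel) t2_381 (good_ofj c2_349) rfl rfl

theorem t2_383 : Good (Q 10) [v125, v30, v7, v3, v218, v0] :=
  split_of 0 3 v84 1229127558 (by decide +kernel) t2_300 t2_382 rfl rfl

theorem t2_384 : Good (Q 10) [v125, v30, v7, v3, v179, v0] :=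
  split_of 0 4 v218 1184875434 (by decide +kernel) t2_205 t2_383 rfl rfl

theorem t2_385 : Good (Q 10) [v125, v30, v7, v3, v179, v5] :=
  split_of 0 5 v0 1156653316 (by decide +kernel) t2_97 t2_384 rfl rfl

theorem t2_386 : Good (Q 10) [v0, v304, v7, v127, v508, v8] :=
  split_of 0 1 v312 1241799870 (by decide +kernel) (good_ofj c2_354) (good_ofj c2_355) rfl rfl

theorem t2_387 : Good (Q 10) [v0, v304, v7, v127, v507, v8] :=
  split_of 0 4 v508 1262363198 (by decide +kernel) (good_ofj c2_353) t2_386 rfl rfl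

theorem t2_388 : Good (Q 10) [v0, v304, v7, v127, v507, v5] :=
  split_of 2 5 v8 1278344175 (by decide +kernel) (good_ofj c2_352) t2_387 rfl rfl

theorem t2_389 : Good (Q 10) [v0, v304, v7, v126, v507, v5] :=
  split_of 0 3 v127 1241799870 (by decide +kernel) (good_ofj c2_351) t2_388 rfl rfl

theorem t2_390 : Good (Q 10) [v0, v304, v7, v126, v306, v5] :=
  split_of 2 4 v507 1293935275 (by decide +kernel) (good_ofj c2_350) t2_389 rfl rfl

theorem t2_391 : Good (Q 10) [v0, v128, v7, v127, v312, v8] :=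
  split_of 0 2 v19 1309159440 (by decide +kernel) (good_ofj c2_359) (good_ofj c2_360) rfl rfl

theorem t2_392 : Good (Q 10) [v0, v128, v7, v127, v304, v8] :=
  split_of 0 4 v312 1241799870 (by decide +kernel) (good_ofj c2_358) t2_391 rfl rfl

theorem t2_393 : Good (Q 10) [v0, v128, v7, v127, v304, v5] :=
  split_of 2 5 v8 1278344175 (by decide +kernel) (good_ofj c2_357) t2_392 rfl rfl

theorem t2_394 : Good (Q 10) [v0, v128, v7, v126, v304, v5] :=
  split_of 0 3 v127 1241799870 (by decide +kernel) (good_ofj c2_356) t2_393 rfl rfl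

theorem t2_395 : Good (Q 10) [v312, v15, v7, v128, v304, v8] :=
  split_of 2 4 v509 1332942339 (by decide +kernel) (good_ofj c2_362) (good_ofj c2_363) rfl rfl

theorem t2_396 : Good (Q 10) [v0, v15, v7, v128, v312, v8] :=
  split_of 0 2 v19 1309159440 (by decide +kernel) (good_ofj c2_364) (good_ofj c2_365) rfl rfl

theorem t2_397 : Good (Q 10) [v0, v15, v7, v128, v304, v8] :=
  split_of 0 4 v312 1241799870 (by decide +kernel) t2_395 t2_396 rfl rfl

theorem t2_398 : Good (Q 10) [v0, v15, v7, v128, v304, v5] :=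
  split_of 2 5 v8 1278344175 (by decide +kernel) (good_ofj c2_361) t2_397 rfl rfl

theorem t2_399 : Good (Q 9) [v19, v129, v7, v130, v309, v21] :=
  split_of 0 1 v510 1317627718 (by decide +kernel) (good_ofj c2_369) (good_ofj c2_370) rfl rfl

theorem t2_400 : Good (Q 9) [v19, v129, v7, v128, v309, v21] :=
  split_of 2 3 v130 1341057865 (by decide +kernel) (good_ofj c2_368) t2_399 rfl rfl

theorem t2_401 : Good (Q 9) [v28, v30, v35, v129, v511, v27] :=
  split_of 1 3 v131 1293604245 (by decide +kernel) (good_ofj c2_374) (good_ofj c2_375) rfl rfl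

theorem t2_402 : Good (Q 9) [v24, v30, v35, v129, v511, v27] :=
  split_of 0 1 v28 1299835258 (by decide +kernel) t2_401 (good_ofj c2_376) rfl rfl

theorem t2_403 : Good (Q 9) [v24, v30, v34, v129, v511, v27] :=
  split_of 1 2 v35 1315109598 (by decide +kernel) (good_ofj c2_373) t2_402 rfl rfl

theorem t2_404 : Good (Q 9) [v24, v30, v34, v129, v309, v27] :=
  split_of 1 4 v511 1290828974 (by decide +kernel) (good_ofj c2_372) t2_403 rfl rfl

theorem t2_405 : Good (Q 9) [v24, v30, v34, v129, v309, v21] :=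
  split_of 1 5 v27 1289558025 (by decide +kernel) (good_ofj c2_371) t2_404 rfl rfl

theorem t2_406 : Good (Q 7) [v24, v35, v512, v129, v511, v34] :=
  split_of 0 3 v132 1310480667 (by decide +kernel) (good_ofj c2_378) (good_ofj c2_379) rfl rfl

theorem t2_407 : Good (Q 9) [v24, v35, v512, v129, v511, v34] :=
  P_of 7 9 0xfffffffffffffffffffffffffffffffffff451153a4e62c0af304c429ca72dcb7ffffffffffffffffffffffffffffff348d4368d9368defffff2dcb72dcb72a8a9
    (by decide +kernel) t2_406

theorem t2_408 : Good (Q 9) [v28, v30, v513, v131, v511, v35] :=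
  split_of 1 4 v514 1285886215 (by decide +kernel) (good_ofj c2_382) (good_ofj c2_383) rfl rfl

theorem t2_409 : Good (Q 9) [v28, v30, v513, v129, v511, v35] :=
  split_of 1 3 v131 1293604245 (by decide +kernel) (good_ofj c2_381) t2_408 rfl rfl

theorem t2_410 : Good (Q 9) [v24, v30, v513, v129, v511, v35] :=
  split_of 0 1 v28 1299835258 (by decide +kernel) t2_409 (good_ofj c2_384) rfl rfl

theorem t2_411 : Good (Q 9) [v24, v30, v512, v129, v511, v35] :=
  split_of 1 2 v513 1315466281 (by decide +kernel) (good_ofj c2_380) t2_410 rfl rfl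

theorem t2_412 : Good (Q 9) [v24, v30, v512, v129, v511, v34] :=
  split_of 1 5 v35 1315109598 (by decide +kernel) t2_407 t2_411 rfl rfl

theorem t2_413 : Good (Q 9) [v24, v30, v512, v129, v309, v34] :=
  split_of 1 4 v511 1290828974 (by decide +kernel) (good_ofj c2_377) t2_412 rfl rfl

theorem t2_414 : Good (Q 8) [v132, v38, v133, v129, v512, v34] :=
  split_of 3 5 v136 1323696227 (by decide +kernel) (good_ofj c2_385) (good_ofj c2_386) rfl rfl

theorem t2_415 : Good (Q 9) [v132, v38, v133, v129, v512, v34] :=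
  P_of 8 9 0xfffffffffffffffffffffffffffffffffff3bcf03b0ec2d4b42e8bb2c0af2d8b6ffffffffffffffffffffffffffffff2e8bc3a0e73a0e7fffff2ccb22e0b92c8b1
    (by decide +kernel) t2_414

theorem t2_416 : Good (Q 9) [v24, v38, v133, v129, v512, v34] :=
  split_of 0 3 v132 1310480667 (by decide +kernel) t2_415 (good_ofj c2_387) rfl rfl

theorem t2_417 : Good (Q 9) [v42, v43, v7, v134, v515, v45] :=
  split_of 2 4 v516 1351874964 (by decide +kernel) (good_ofj c2_392) (good_ofj c2_393) rfl rfl

theorem t2_418 : Good (Q 9) [v42, v43, v7, v134, v515, v40] :=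
  split_of 2 5 v45 1351770736 (by decide +kernel) (good_ofj c2_391) t2_417 rfl rfl

theorem t2_419 : Good (Q 9) [v37, v43, v7, v134, v515, v40] :=
  split_of 0 2 v42 1350220494 (by decide +kernel) t2_418 (good_ofj c2_394) rfl rfl

theorem t2_420 : Good (Q 9) [v37, v43, v7, v133, v515, v40] :=
  split_of 2 3 v134 1349522479 (by decide +kernel) (good_ofj c2_390) t2_419 rfl rfl

theorem t2_421 : Good (Q 9) [v37, v38, v43, v133, v515, v47] :=
  split_of 1 4 v517 1343112045 (by decide +kernel) (good_ofj c2_396) (good_ofj c2_397) rfl rfl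

theorem t2_422 : Good (Q 9) [v37, v38, v43, v133, v515, v40] :=
  split_of 1 5 v47 1343013435 (by decide +kernel) (good_ofj c2_395) t2_421 rfl rfl

theorem t2_423 : Good (Q 9) [v37, v38, v7, v133, v515, v40] :=
  split_of 1 2 v43 1347746544 (by decide +kernel) t2_420 t2_422 rfl rfl

theorem t2_424 : Good (Q 9) [v37, v38, v7, v133, v512, v40] :=
  split_of 2 4 v515 1349038282 (by decide +kernel) (good_ofj c2_389) t2_423 rfl rfl

theorem t2_425 : Good (Q 9) [v37, v38, v7, v133, v512, v34] :=
  split_of 2 5 v40 1348643751 (by decide +kernel) (good_ofj c2_388) t2_424 rfl rfl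

theorem t2_426 : Good (Q 9) [v24, v38, v7, v133, v512, v34] :=
  split_of 0 2 v37 1342484791 (by decide +kernel) t2_425 (good_ofj c2_398) rfl rfl

theorem t2_427 : Good (Q 9) [v24, v38, v7, v129, v512, v34] :=
  split_of 2 3 v133 1339964634 (by decide +kernel) t2_416 t2_426 rfl rfl

theorem t2_428 : Good (Q 8) [v132, v35, v38, v129, v512, v34] :=
  split_of 3 5 v136 1323696227 (by decide +kernel) (good_ofj c2_399) (good_ofj c2_400) rfl rfl

theorem t2_429 : Good (Q 9) [v132, v35, v38, v129, v512, v34] :=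
  P_of 8 9 0xfffffffffffffffffffffffffffffffffff3c8f33b8ed2ccb32e4bb2c0af2d8b6ffffffffffffffffffffffffffffff2f0bd394e6394e6fffff2ccb22e0b82ccb2
    (by decide +kernel) t2_428

theorem t2_430 : Good (Q 9) [v24, v35, v38, v132, v512, v34] :=
  split_of 0 4 v518 1327669518 (by decide +kernel) (good_ofj c2_401) (good_ofj c2_402) rfl rfl

theorem t2_431 : Good (Q 9) [v24, v35, v38, v129, v512, v34] :=
  split_of 0 3 v132 1310480667 (by decide +kernel) t2_429 t2_430 rfl rfl

theorem t2_432 : Good (Q 8) [v132, v513, v38, v129, v512, v35] :=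
  split_of 2 3 v137 1321013612 (by decide +kernel) (good_ofj c2_403) (good_ofj c2_404) rfl rfl

theorem t2_433 : Good (Q 9) [v132, v513, v38, v129, v512, v35] :=
  P_of 8 9 0xffffffffffffffffffffffffffffff5bd733d8f23b4ee2ccb42e4ba2c0af2d4b6ffffffffffffffffffffffffffffff2f4bc390e5390e5fffff2d4b32dcb92c8b2
    (by decide +kernel) t2_432

theorem t2_434 : Good (Q 8) [v518, v513, v38, v132, v512, v35] :=
  split_of 2 3 v519 1323947727 (by decide +kernel) (good_ofj c2_405) (good_ofj c2_406) rfl rfl

theorem t2_435 : Good (Q 9) [v518, v513, v38, v132, v512, v35] :=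
  P_of 8 9 0xffffffffffffffffffffffffffffff5bd713d8f73b0eb2c8b22e4ba2c4b02d4b5ffffffffffffffffffffffffffffff2f4be38ce3394e6fffff2d4b52d8b62c8b1
    (by decide +kernel) t2_434

theorem t2_436 : Good (Q 9) [v24, v513, v38, v132, v512, v35] :=
  split_of 0 4 v518 1327669518 (by decide +kernel) t2_435 (good_ofj c2_407) rfl rfl

theorem t2_437 : Good (Q 9) [v24, v513, v38, v129, v512, v35] :=
  split_of 0 3 v132 1310480667 (by decide +kernel) t2_433 t2_436 rfl rfl

theorem t2_438 : Good (Q 9) [v28, v131, v38, v129, v513, v35] :=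
  split_of 2 3 v137 1321013612 (by decide +kernel) (good_ofj c2_408) (good_ofj c2_409) rfl rfl

theorem t2_439 : Good (Q 7) [v138, v54, v139, v131, v513, v35] :=
  split_of 3 5 v140 1305261443 (by decide +kernel) (good_ofj c2_410) (good_ofj c2_411) rfl rfl

theorem t2_440 : Good (Q 8) [v138, v54, v139, v131, v513, v35] :=
  P_of 7 8 0xffffffffffffffffffffffffffffff5054240d04409022c4b12d8b62bcae2c8b2ffffffffffffffffffffffffffffff2fcbf348d3350d4721c72e4b92f8be2e4b9
    (by decide +kernel) t2_439

theorem t2_441 : Good (Q 7) [v28, v54, v139, v138, v513, v35] :=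
  split_of 0 2 v141 1308860877 (by decide +kernel) (good_ofj c2_412) (good_ofj c2_413) rfl rfl

theorem t2_442 : Good (Q 8) [v28, v54, v139, v138, v513, v35] :=
  P_of 7 8 0xffffffffffffffffffffffffffffff51d4640d043f8fe2bcae2dcb72c4b12c8b1ffffffffffffffffffffffffffffff2fcc0348d1360d9705c32e4b92ecbb2e4b9
    (by decide +kernel) t2_441

theorem t2_443 : Good (Q 8) [v28, v54, v139, v131, v513, v35] :=
  split_of 0 3 v138 1297479458 (by decide +kernel) t2_440 t2_442 rfl rfl

theorem t2_444 : Good (Q 9) [v28, v54, v139, v131, v513, v35] :=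
  P_of 8 9 0xffffffffffffffffffffffffffffff5094141105405012c0af2d8b72c0b02c8b1ffffffffffffffffffffffffffffff2fcc0344d1358d6fffff2e4b92f0bd2e4b9
    (by decide +kernel) t2_443

theorem t2_445 : Good (Q 9) [v52, v54, v38, v139, v513, v35] :=
  split_of 2 5 v55 1325079639 (by decide +kernel) (good_ofj c2_414) (good_ofj c2_415) rfl rfl

theorem t2_446 : Good (Q 9) [v28, v54, v38, v139, v513, v35] :=
  split_of 0 2 v52 1318899466 (by decide +kernel) t2_445 (good_ofj c2_416) rfl rfl

theorem t2_447 : Good (Q 9) [v28, v54, v38, v131, v513, v35] :=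
  split_of 2 3 v139 1316091829 (by decide +kernel) t2_444 t2_446 rfl rfl

theorem t2_448 : Good (Q 7) [v138, v58, v54, v131, v513, v35] :=
  split_of 3 5 v140 1305261443 (by decide +kernel) (good_ofj c2_417) (good_ofj c2_418) rfl rfl

theorem t2_449 : Good (Q 8) [v138, v58, v54, v131, v513, v35] :=
  P_of 7 8 0xffffffffffffffffffffffffffffff4fd4041905409022c0b12d4b52b8ae2ccb3ffffffffffffffffffffffffffffff300c0348d3348d372dca2e8b92f0bd2e4b9
    (by decide +kernel) t2_448

theorem t2_450 : Good (Q 8) [v28, v58, v54, v138, v513, v35] :=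
  split_of 0 2 v57 1305645227 (by decide +kernel) (good_ofj c2_419) (good_ofj c2_420) rfl rfl

theorem t2_451 : Good (Q 8) [v28, v58, v54, v131, v513, v35] :=
  split_of 0 3 v138 1297479458 (by decide +kernel) t2_449 t2_450 rfl rfl

theorem t2_452 : Good (Q 9) [v28, v58, v54, v131, v513, v35] :=
  P_of 8 9 0xffffffffffffffffffffffffffffff5054041906405012c0af2d4b62c0b02c8b2ffffffffffffffffffffffffffffff300c0344d1350d4fffff2e8b92f0bc2e8b9
    (by decide +kernel) t2_451

theorem t2_453 : Good (Q 9) [v28, v30, v54, v131, v513, v58] :=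
  split_of 0 1 v214 1290348880 (by decide +kernel) (good_ofj c2_421) (good_ofj c2_422) rfl rfl

theorem t2_454 : Good (Q 9) [v28, v30, v54, v131, v513, v35] :=
  split_of 1 5 v58 1298631825 (by decide +kernel) t2_452 t2_453 rfl rfl

theorem t2_455 : Good (Q 9) [v28, v30, v38, v131, v513, v35] :=
  split_of 1 2 v54 1309864426 (by decide +kernel) t2_447 t2_454 rfl rfl

theorem t2_456 : Good (Q 9) [v28, v30, v38, v129, v513, v35] :=
  split_of 1 3 v131 1293604245 (by decide +kernel) t2_438 t2_455 rfl rfl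

theorem t2_457 : Good (Q 9) [v24, v28, v38, v129, v513, v35] :=
  split_of 0 3 v132 1310480667 (by decide +kernel) (good_ofj c2_423) (good_ofj c2_424) rfl rfl

theorem t2_458 : Good (Q 9) [v24, v30, v38, v129, v513, v35] :=
  split_of 0 1 v28 1299835258 (by decide +kernel) t2_456 t2_457 rfl rfl

theorem t2_459 : Good (Q 9) [v24, v30, v38, v129, v512, v35] :=
  split_of 1 4 v513 1315466281 (by decide +kernel) t2_437 t2_458 rfl rfl

theorem t2_460 : Good (Q 9) [v24, v30, v38, v129, v512, v34] :=
  split_of 1 5 v35 1315109598 (by decide +kernel) t2_431 t2_459 rfl rfl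

theorem t2_461 : Good (Q 9) [v24, v30, v7, v129, v512, v34] :=
  split_of 1 2 v38 1333169107 (by decide +kernel) t2_427 t2_460 rfl rfl

theorem t2_462 : Good (Q 9) [v24, v30, v7, v129, v309, v34] :=
  split_of 2 4 v512 1337829094 (by decide +kernel) t2_413 t2_461 rfl rfl

theorem t2_463 : Good (Q 9) [v24, v30, v7, v129, v309, v21] :=
  split_of 2 5 v34 1336420407 (by decide +kernel) t2_405 t2_462 rfl rfl

theorem t2_464 : Good (Q 9) [v59, v24, v7, v129, v512, v34] :=
  split_of 2 3 v133 1339964634 (by decide +kernel) (good_ofj c2_427) (good_ofj c2_428) rfl rfl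

theorem t2_465 : Good (Q 9) [v59, v24, v7, v129, v309, v34] :=
  split_of 2 4 v512 1337829094 (by decide +kernel) (good_ofj c2_426) t2_464 rfl rfl

theorem t2_466 : Good (Q 9) [v59, v24, v7, v129, v309, v21] :=
  split_of 2 5 v34 1336420407 (by decide +kernel) (good_ofj c2_425) t2_465 rfl rfl

theorem t2_467 : Good (Q 9) [v19, v24, v7, v129, v309, v21] :=
  split_of 0 2 v59 1342177280 (by decide +kernel) t2_466 (good_ofj c2_429) rfl rfl

theorem t2_468 : Good (Q 9) [v19, v30, v7, v129, v309, v21] :=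
  split_of 0 1 v24 1311740689 (by decide +kernel) t2_463 t2_467 rfl rfl

theorem t2_469 : Good (Q 9) [v19, v30, v7, v128, v309, v21] :=
  split_of 1 3 v129 1303729140 (by decide +kernel) t2_400 t2_468 rfl rfl

theorem t2_470 : Good (Q 9) [v19, v30, v7, v128, v309, v15] :=
  split_of 1 5 v21 1288860967 (by decide +kernel) (good_ofj c2_367) t2_469 rfl rfl

theorem t2_471 : Good (Q 10) [v19, v30, v7, v128, v309, v15] :=
  env_E _ t2_470

theorem t2_472 : Good (Q 10) [v19, v30, v7, v128, v304, v15] :=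
  split_of 1 4 v309 1293212810 (by decide +kernel) (good_ofj c2_366) t2_471 rfl rfl

theorem t2_473 : Good (Q 9) [v520, v30, v19, v128, v309, v21] :=
  split_of 2 3 v144 1317337517 (by decide +kernel) (good_ofj c2_432) (good_ofj c2_433) rfl rfl

theorem t2_474 : Good (Q 9) [v520, v30, v19, v128, v309, v15] :=
  split_of 1 5 v21 1288860967 (by decide +kernel) (good_ofj c2_431) t2_473 rfl rfl

theorem t2_475 : Good (Q 10) [v520, v30, v19, v128, v309, v15] :=
  env_E _ t2_474

theorem t2_476 : Good (Q 10) [v312, v30, v19, v128, v309, v15] :=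
  split_of 0 1 v520 1286065164 (by decide +kernel) t2_475 (good_ofj c2_434) rfl rfl

theorem t2_477 : Good (Q 10) [v312, v30, v19, v128, v304, v15] :=
  split_of 1 4 v309 1293212810 (by decide +kernel) (good_ofj c2_430) t2_476 rfl rfl

theorem t2_478 : Good (Q 9) [v143, v30, v19, v128, v520, v21] :=
  split_of 2 3 v144 1317337517 (by decide +kernel) (good_ofj c2_437) (good_ofj c2_438) rfl rfl

theorem t2_479 : Good (Q 9) [v142, v30, v19, v128, v520, v21] :=
  split_of 0 1 v143 1293574143 (by decide +kernel) t2_478 (good_ofj c2_439) rfl rfl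

theorem t2_480 : Good (Q 10) [v142, v30, v19, v128, v520, v21] :=
  env_E _ t2_479

theorem t2_481 : Good (Q 10) [v142, v30, v19, v128, v312, v21] :=
  split_of 1 4 v520 1286065164 (by decide +kernel) (good_ofj c2_436) t2_480 rfl rfl

theorem t2_482 : Good (Q 10) [v142, v30, v19, v128, v312, v15] :=
  split_of 1 5 v21 1288860967 (by decide +kernel) (good_ofj c2_435) t2_481 rfl rfl

theorem t2_483 : Good (Q 10) [v0, v30, v19, v128, v312, v15] :=
  split_of 0 3 v142 1268403305 (by decide +kernel) t2_482 (good_ofj c2_440) rfl rfl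

theorem t2_484 : Good (Q 10) [v0, v30, v19, v128, v304, v15] :=
  split_of 0 4 v312 1241799870 (by decide +kernel) t2_477 t2_483 rfl rfl

theorem t2_485 : Good (Q 10) [v0, v30, v7, v128, v304, v15] :=
  split_of 0 2 v19 1309159440 (by decide +kernel) t2_472 t2_484 rfl rfl

theorem t2_486 : Good (Q 10) [v0, v30, v7, v128, v304, v5] :=
  split_of 1 5 v15 1256264730 (by decide +kernel) t2_398 t2_485 rfl rfl

theorem t2_487 : Good (Q 10) [v0, v30, v7, v126, v304, v5] :=
  split_of 1 3 v128 1307275754 (by decide +kernel) t2_394 t2_486 rfl rfl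

theorem t2_488 : Good (Q 10) [v0, v30, v7, v126, v306, v5] :=
  split_of 1 4 v304 1268403305 (by decide +kernel) t2_390 t2_487 rfl rfl

theorem t2_489 : Good (Q 10) [v521, v304, v7, v127, v507, v0] :=
  split_of 4 5 v508 1262363198 (by decide +kernel) (good_ofj c2_442) (good_ofj c2_443) rfl rfl

theorem t2_490 : Good (Q 10) [v313, v304, v7, v127, v507, v0] :=
  split_of 0 2 v521 1312910633 (by decide +kernel) t2_489 (good_ofj c2_444) rfl rfl

theorem t2_491 : Good (Q 10) [v313, v304, v7, v126, v507, v0] :=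
  split_of 3 5 v127 1241799870 (by decide +kernel) t2_490 (good_ofj c2_445) rfl rfl

theorem t2_492 : Good (Q 10) [v313, v304, v7, v126, v306, v0] :=
  split_of 2 4 v507 1293935275 (by decide +kernel) (good_ofj c2_441) t2_491 rfl rfl

theorem t2_493 : Good (Q 10) [v313, v128, v7, v126, v304, v127] :=
  split_of 0 3 v315 1241799870 (by decide +kernel) (good_ofj c2_447) (good_ofj c2_448) rfl rfl

theorem t2_494 : Good (Q 10) [v313, v128, v7, v126, v304, v0] :=
  split_of 3 5 v127 1241799870 (by decide +kernel) (good_ofj c2_446) t2_493 rfl rfl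

theorem t2_495 : Good (Q 10) [v521, v30, v19, v128, v312, v0] :=
  split_of 3 5 v142 1268403305 (by decide +kernel) (good_ofj c2_449) (good_ofj c2_450) rfl rfl

theorem t2_496 : Good (Q 9) [v521, v30, v19, v128, v309, v520] :=
  split_of 1 3 v129 1303729140 (by decide +kernel) (good_ofj c2_453) (good_ofj c2_454) rfl rfl

theorem t2_497 : Good (Q 10) [v521, v30, v19, v128, v309, v520] :=
  env_E _ t2_496

theorem t2_498 : Good (Q 10) [v521, v30, v19, v128, v309, v312] :=
  split_of 1 5 v520 1286065164 (by decide +kernel) (good_ofj c2_452) t2_497 rfl rfl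

theorem t2_499 : Good (Q 10) [v521, v30, v19, v128, v304, v312] :=
  split_of 1 4 v309 1293212810 (by decide +kernel) (good_ofj c2_451) t2_498 rfl rfl

theorem t2_500 : Good (Q 10) [v521, v30, v19, v128, v304, v0] :=
  split_of 4 5 v312 1241799870 (by decide +kernel) t2_495 t2_499 rfl rfl

theorem t2_501 : Good (Q 9) [v522, v133, v7, v130, v512, v59] :=
  split_of 2 3 v145 1349823198 (by decide +kernel) (good_ofj c2_459) (good_ofj c2_460) rfl rfl

theorem t2_502 : Good (Q 9) [v522, v129, v7, v130, v512, v59] :=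
  split_of 1 2 v133 1339964634 (by decide +kernel) t2_501 (good_ofj c2_461) rfl rfl

theorem t2_503 : Good (Q 9) [v521, v129, v7, v130, v512, v59] :=
  split_of 0 2 v522 1343518117 (by decide +kernel) t2_502 (good_ofj c2_462) rfl rfl

theorem t2_504 : Good (Q 9) [v521, v129, v7, v130, v512, v19] :=
  split_of 2 5 v59 1342177280 (by decide +kernel) (good_ofj c2_458) t2_503 rfl rfl

theorem t2_505 : Good (Q 9) [v521, v129, v7, v130, v309, v19] :=
  split_of 2 4 v512 1337829094 (by decide +kernel) (good_ofj c2_457) t2_504 rfl rfl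

theorem t2_506 : Good (Q 9) [v521, v129, v7, v128, v309, v19] :=
  split_of 2 3 v130 1341057865 (by decide +kernel) (good_ofj c2_456) t2_505 rfl rfl

theorem t2_507 : Good (Q 9) [v522, v37, v7, v133, v515, v59] :=
  split_of 2 5 v92 1350182502 (by decide +kernel) (good_ofj c2_467) (good_ofj c2_468) rfl rfl

theorem t2_508 : Good (Q 9) [v522, v37, v7, v133, v512, v59] :=
  split_of 2 4 v515 1349038282 (by decide +kernel) (good_ofj c2_466) t2_507 rfl rfl

theorem t2_509 : Good (Q 9) [v522, v24, v7, v133, v512, v59] :=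
  split_of 1 2 v37 1342484791 (by decide +kernel) t2_508 (good_ofj c2_469) rfl rfl

theorem t2_510 : Good (Q 9) [v522, v24, v7, v129, v512, v59] :=
  split_of 2 3 v133 1339964634 (by decide +kernel) (good_ofj c2_465) t2_509 rfl rfl

theorem t2_511 : Good (Q 9) [v522, v24, v7, v129, v309, v59] :=
  split_of 2 4 v512 1337829094 (by decide +kernel) (good_ofj c2_464) t2_510 rfl rfl

theorem t2_512 : Good (Q 9) [v521, v24, v7, v129, v309, v59] :=
  split_of 0 2 v522 1343518117 (by decide +kernel) t2_511 (good_ofj c2_470) rfl rfl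

theorem t2_513 : Good (Q 9) [v521, v24, v7, v129, v309, v19] :=
  split_of 2 5 v59 1342177280 (by decide +kernel) (good_ofj c2_463) t2_512 rfl rfl

theorem t2_514 : Good (Q 7) [v523, v513, v512, v129, v511, v24] :=
  split_of 3 5 v132 1310480667 (by decide +kernel) (good_ofj c2_472) (good_ofj c2_473) rfl rfl

theorem t2_515 : Good (Q 9) [v523, v513, v512, v129, v511, v24] :=
  P_of 7 9 0xfffffffffffffffffffffffffffffffffff43d0f39ce72c8b1308c32a4aa2ccb3ffffffffffffffffffffffffffffff334ce368d937ce1fffff2e4b82e4b82a0a8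
    (by decide +kernel) t2_514

theorem t2_516 : Good (Q 6) [v523, v28, v513, v129, v511, v24] :=
  P_of 5 6 0xfffffa7e9cb4ad5b26cd9aa70a629252d4b451143b4ed2b4ac314c32b4ab2b8b194a52fffffffffffffffba2eb8320c338cf338d0384df6f9be2e8b92e8b92acac
    (by decide +kernel) (good_ofj c2_474)

theorem t2_517 : Good (Q 7) [v523, v28, v513, v129, v511, v24] :=
  P_of 6 7 0xffffffffffffffffffff9aa6afffff52d4b451143b4ed2b4ad314c52b4ad2b8ae94a52ffffffffffffffffffff8320c338ce338ce384e16f9be2e8ba2e8ba2acab
    (by decide +kernel) t2_516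

theorem t2_518 : Good (Q 9) [v523, v28, v513, v129, v511, v24] :=
  P_of 7 9 0xfffffffffffffffffffffffffffffffffff43d143c4ed2b4ad2fcc52b4ad2c4aeffffffffffffffffffffffffffffff328ce344ce374e1fffff2e4ba2e4ba2bcab
    (by decide +kernel) t2_517

theorem t2_519 : Good (Q 9) [v524, v30, v513, v129, v511, v28] :=
  split_of 1 3 v131 1293604245 (by decide +kernel) (good_ofj c2_475) (good_ofj c2_476) rfl rfl

theorem t2_520 : Good (Q 9) [v523, v30, v513, v129, v511, v28] :=
  split_of 0 1 v524 1300163123 (by decide +kernel) t2_519 (good_ofj c2_477) rfl rfl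

theorem t2_521 : Good (Q 9) [v523, v30, v513, v129, v511, v24] :=
  split_of 1 5 v28 1299835258 (by decide +kernel) t2_518 t2_520 rfl rfl

theorem t2_522 : Good (Q 9) [v523, v30, v512, v129, v511, v24] :=
  split_of 1 2 v513 1315466281 (by decide +kernel) t2_515 t2_521 rfl rfl

theorem t2_523 : Good (Q 9) [v523, v30, v512, v129, v309, v24] :=
  split_of 1 4 v511 1290828974 (by decide +kernel) (good_ofj c2_471) t2_522 rfl rfl

theorem t2_524 : Good (Q 9) [v523, v38, v133, v132, v512, v24] :=
  split_of 2 5 v147 1329324888 (by decide +kernel) (good_ofj c2_478) (good_ofj c2_479) rfl rfl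

theorem t2_525 : Good (Q 9) [v523, v38, v133, v137, v512, v132] :=
  split_of 0 2 v525 1329645496 (by decide +kernel) (good_ofj c2_481) (good_ofj c2_482) rfl rfl

theorem t2_526 : Good (Q 9) [v523, v38, v133, v129, v512, v132] :=
  split_of 1 3 v137 1321013612 (by decide +kernel) (good_ofj c2_480) t2_525 rfl rfl

theorem t2_527 : Good (Q 9) [v523, v38, v133, v129, v512, v24] :=
  split_of 3 5 v132 1310480667 (by decide +kernel) t2_524 t2_526 rfl rfl

theorem t2_528 : Good (Q 9) [v523, v38, v37, v133, v512, v24] :=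
  split_of 3 5 v147 1329324888 (by decide +kernel) (good_ofj c2_483) (good_ofj c2_484) rfl rfl

theorem t2_529 : Good (Q 9) [v527, v43, v99, v134, v528, v42] :=
  split_of 1 5 v101 1349299878 (by decide +kernel) (good_ofj c2_491) (good_ofj c2_492) rfl rfl

theorem t2_530 : Good (Q 9) [v527, v43, v99, v134, v516, v42] :=
  split_of 1 4 v528 1350342929 (by decide +kernel) (good_ofj c2_490) t2_529 rfl rfl

theorem t2_531 : Good (Q 9) [v527, v43, v7, v134, v516, v42] :=
  split_of 1 2 v99 1351535087 (by decide +kernel) (good_ofj c2_489) t2_530 rfl rfl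

theorem t2_532 : Good (Q 9) [v527, v43, v7, v134, v515, v42] :=
  split_of 2 4 v516 1351874964 (by decide +kernel) (good_ofj c2_488) t2_531 rfl rfl

theorem t2_533 : Good (Q 9) [v526, v43, v7, v134, v515, v42] :=
  split_of 0 2 v527 1350320645 (by decide +kernel) t2_532 (good_ofj c2_493) rfl rfl

theorem t2_534 : Good (Q 9) [v526, v43, v7, v134, v515, v37] :=
  split_of 2 5 v42 1350220494 (by decide +kernel) (good_ofj c2_487) t2_533 rfl rfl

theorem t2_535 : Good (Q 9) [v526, v43, v7, v133, v515, v37] :=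
  split_of 2 3 v134 1349522479 (by decide +kernel) (good_ofj c2_486) t2_534 rfl rfl

theorem t2_536 : Good (Q 9) [v526, v38, v43, v133, v515, v37] :=
  split_of 1 4 v517 1343112045 (by decide +kernel) (good_ofj c2_494) (good_ofj c2_495) rfl rfl

theorem t2_537 : Good (Q 9) [v526, v38, v7, v133, v515, v37] :=
  split_of 1 2 v43 1347746544 (by decide +kernel) t2_535 t2_536 rfl rfl

theorem t2_538 : Good (Q 9) [v526, v38, v7, v133, v512, v37] :=
  split_of 2 4 v515 1349038282 (by decide +kernel) (good_ofj c2_485) t2_537 rfl rfl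

theorem t2_539 : Good (Q 9) [v523, v38, v7, v133, v512, v37] :=
  split_of 0 2 v526 1342848033 (by decide +kernel) t2_538 (good_ofj c2_496) rfl rfl

theorem t2_540 : Good (Q 9) [v523, v38, v7, v133, v512, v24] :=
  split_of 2 5 v37 1342484791 (by decide +kernel) t2_528 t2_539 rfl rfl

theorem t2_541 : Good (Q 9) [v523, v38, v7, v129, v512, v24] :=
  split_of 2 3 v133 1339964634 (by decide +kernel) t2_527 t2_540 rfl rfl

theorem t2_542 : Good (Q 9) [v523, v513, v38, v132, v512, v24] :=
  split_of 4 5 v518 1327669518 (by decide +kernel) (good_ofj c2_497) (good_ofj c2_498) rfl rfl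

theorem t2_543 : Good (Q 9) [v523, v513, v38, v137, v512, v132] :=
  split_of 0 2 v529 1325816608 (by decide +kernel) (good_ofj c2_500) (good_ofj c2_501) rfl rfl

theorem t2_544 : Good (Q 9) [v523, v513, v38, v129, v512, v132] :=
  split_of 2 3 v137 1321013612 (by decide +kernel) (good_ofj c2_499) t2_543 rfl rfl

theorem t2_545 : Good (Q 9) [v523, v513, v38, v129, v512, v24] :=
  split_of 3 5 v132 1310480667 (by decide +kernel) t2_542 t2_544 rfl rfl

theorem t2_546 : Good (Q 9) [v523, v28, v38, v132, v513, v24] :=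
  split_of 2 5 v49 1325472642 (by decide +kernel) (good_ofj c2_502) (good_ofj c2_503) rfl rfl

theorem t2_547 : Good (Q 9) [v523, v28, v38, v129, v513, v132] :=
  split_of 0 3 v530 1310759253 (by decide +kernel) (good_ofj c2_504) (good_ofj c2_505) rfl rfl

theorem t2_548 : Good (Q 9) [v523, v28, v38, v129, v513, v24] :=
  split_of 3 5 v132 1310480667 (by decide +kernel) t2_546 t2_547 rfl rfl

theorem t2_549 : Good (Q 9) [v524, v131, v38, v137, v513, v28] :=
  split_of 1 2 v139 1316091829 (by decide +kernel) (good_ofj c2_507) (good_ofj c2_508) rfl rfl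

theorem t2_550 : Good (Q 9) [v524, v131, v38, v129, v513, v28] :=
  split_of 2 3 v137 1321013612 (by decide +kernel) (good_ofj c2_506) t2_549 rfl rfl

theorem t2_551 : Good (Q 7) [v524, v54, v139, v138, v513, v28] :=
  split_of 2 5 v141 1308860877 (by decide +kernel) (good_ofj c2_509) (good_ofj c2_510) rfl rfl

theorem t2_552 : Good (Q 8) [v524, v54, v139, v138, v513, v28] :=
  P_of 7 8 0xffffffffffffffffffffffffffffff51544415053f8fe2bcae2dcb72c8b22c0b0ffffffffffffffffffffffffffffff2fcbf340d0364d9711c42e8ba2ecbb2e4b9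
    (by decide +kernel) t2_551

theorem t2_553 : Good (Q 7) [v531, v54, v139, v532, v513, v138] :=
  split_of 1 5 v533 1304195270 (by decide +kernel) (good_ofj c2_512) (good_ofj c2_513) rfl rfl

theorem t2_554 : Good (Q 7) [v531, v54, v139, v131, v513, v138] :=
  split_of 1 3 v532 1302360762 (by decide +kernel) (good_ofj c2_511) t2_553 rfl rfl

theorem t2_555 : Good (Q 8) [v531, v54, v139, v131, v513, v138] :=
  P_of 7 8 0xffffffffffffffffffffffffffffff5094140d03409022c8b12d4b62bcae2c8b2ffffffffffffffffffffffffffffff2f8bf34cd2350d471dc82e4b92f8be2e4b9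
    (by decide +kernel) t2_554

theorem t2_556 : Good (Q 7) [v524, v54, v139, v531, v513, v138] :=
  split_of 0 2 v534 1308946326 (by decide +kernel) (good_ofj c2_514) (good_ofj c2_515) rfl rfl

theorem t2_557 : Good (Q 8) [v524, v54, v139, v531, v513, v138] :=
  P_of 7 8 0xffffffffffffffffffffffffffffff51145411053fcfe2c0af2d8b82c8b22c0afffffffffffffffffffffffffffffff2f8bf344d0360d9715c32ecba2ecbc2e4b7
    (by decide +kernel) t2_556

theorem t2_558 : Good (Q 8) [v524, v54, v139, v131, v513, v138] :=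
  split_of 0 3 v531 1297559867 (by decide +kernel) t2_555 t2_557 rfl rfl

theorem t2_559 : Good (Q 8) [v524, v54, v139, v131, v513, v28] :=
  split_of 3 5 v138 1297479458 (by decide +kernel) t2_552 t2_558 rfl rfl

theorem t2_560 : Good (Q 9) [v524, v54, v139, v131, v513, v28] :=
  P_of 8 9 0xffffffffffffffffffffffffffffff50d4241105405012c0b02d8b72c4b02c4b1ffffffffffffffffffffffffffffff2f8bf344d1358d6fffff2e8b92f4bc2e4b9
    (by decide +kernel) t2_559

theorem t2_561 : Good (Q 7) [v524, v54, v52, v139, v513, v28] :=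
  split_of 3 5 v141 1308860877 (by decide +kernel) (good_ofj c2_516) (good_ofj c2_517) rfl rfl

theorem t2_562 : Good (Q 8) [v524, v54, v52, v139, v513, v28] :=
  P_of 7 8 0xffffffffffffffffffffffffffffff51544415053f8fe2bcae2dcb72c8b22c0b0ffffffffffffffffffffffffffffff2fcbf340d0364d9711c42e8ba2ecbb2e4b9
    (by decide +kernel) t2_561

theorem t2_563 : Good (Q 9) [v524, v54, v52, v139, v513, v28] :=
  P_of 8 9 0xffffffffffffffffffffffffffffff51545411053f8fe2bcaf2d8b72c8b22c4b0ffffffffffffffffffffffffffffff2f8bf344d0360d9fffff2ecba2ecbc2e4b8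
    (by decide +kernel) t2_562

theorem t2_564 : Good (Q 9) [v524, v54, v38, v139, v513, v52] :=
  split_of 0 2 v535 1318989953 (by decide +kernel) (good_ofj c2_518) (good_ofj c2_519) rfl rfl

theorem t2_565 : Good (Q 9) [v524, v54, v38, v139, v513, v28] :=
  split_of 2 5 v52 1318899466 (by decide +kernel) t2_563 t2_564 rfl rfl

theorem t2_566 : Good (Q 9) [v524, v54, v38, v131, v513, v28] :=
  split_of 2 3 v139 1316091829 (by decide +kernel) t2_560 t2_565 rfl rfl

theorem t2_567 : Good (Q 8) [v524, v536, v54, v131, v513, v138] :=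
  split_of 0 3 v531 1297559867 (by decide +kernel) (good_ofj c2_521) (good_ofj c2_522) rfl rfl

theorem t2_568 : Good (Q 8) [v524, v536, v54, v131, v513, v28] :=
  split_of 3 5 v138 1297479458 (by decide +kernel) (good_ofj c2_520) t2_567 rfl rfl

theorem t2_569 : Good (Q 9) [v524, v536, v54, v131, v513, v28] :=
  P_of 8 9 0xffffffffffffffffffffffffffffff5014041906405002c0b02d8b62c0b02c4b1ffffffffffffffffffffffffffffff300c0344d0354d5fffff2e8bb2f0bc2e4b9
    (by decide +kernel) t2_568

theorem t2_570 : Good (Q 9) [v524, v30, v54, v131, v513, v28] :=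
  split_of 1 4 v536 1298722358 (by decide +kernel) t2_569 (good_ofj c2_523) rfl rfl

theorem t2_571 : Good (Q 9) [v524, v30, v38, v131, v513, v28] :=
  split_of 1 2 v54 1309864426 (by decide +kernel) t2_566 t2_570 rfl rfl

theorem t2_572 : Good (Q 9) [v524, v30, v38, v129, v513, v28] :=
  split_of 1 3 v131 1293604245 (by decide +kernel) t2_550 t2_571 rfl rfl

theorem t2_573 : Good (Q 9) [v530, v524, v38, v129, v513, v28] :=
  split_of 2 3 v137 1321013612 (by decide +kernel) (good_ofj c2_524) (good_ofj c2_525) rfl rfl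

theorem t2_574 : Good (Q 9) [v523, v524, v38, v530, v513, v28] :=
  split_of 0 2 v529 1325816608 (by decide +kernel) (good_ofj c2_526) (good_ofj c2_527) rfl rfl

theorem t2_575 : Good (Q 9) [v523, v524, v38, v129, v513, v28] :=
  split_of 0 3 v530 1310759253 (by decide +kernel) t2_573 t2_574 rfl rfl

theorem t2_576 : Good (Q 9) [v523, v30, v38, v129, v513, v28] :=
  split_of 0 1 v524 1300163123 (by decide +kernel) t2_572 t2_575 rfl rfl

theorem t2_577 : Good (Q 9) [v523, v30, v38, v129, v513, v24] :=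
  split_of 1 5 v28 1299835258 (by decide +kernel) t2_548 t2_576 rfl rfl

theorem t2_578 : Good (Q 9) [v523, v30, v38, v129, v512, v24] :=
  split_of 1 4 v513 1315466281 (by decide +kernel) t2_545 t2_577 rfl rfl

theorem t2_579 : Good (Q 9) [v523, v30, v7, v129, v512, v24] :=
  split_of 1 2 v38 1333169107 (by decide +kernel) t2_541 t2_578 rfl rfl

theorem t2_580 : Good (Q 9) [v523, v30, v7, v129, v309, v24] :=
  split_of 2 4 v512 1337829094 (by decide +kernel) t2_523 t2_579 rfl rfl

theorem t2_581 : Good (Q 9) [v522, v523, v7, v133, v512, v37] :=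
  split_of 1 2 v526 1342848033 (by decide +kernel) (good_ofj c2_531) (good_ofj c2_532) rfl rfl

theorem t2_582 : Good (Q 9) [v522, v523, v7, v133, v512, v24] :=
  split_of 2 5 v37 1342484791 (by decide +kernel) (good_ofj c2_530) t2_581 rfl rfl

theorem t2_583 : Good (Q 9) [v522, v523, v7, v129, v512, v24] :=
  split_of 2 3 v133 1339964634 (by decide +kernel) (good_ofj c2_529) t2_582 rfl rfl

theorem t2_584 : Good (Q 9) [v522, v523, v7, v129, v309, v24] :=
  split_of 2 4 v512 1337829094 (by decide +kernel) (good_ofj c2_528) t2_583 rfl rfl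

theorem t2_585 : Good (Q 9) [v521, v523, v7, v129, v309, v24] :=
  split_of 0 2 v522 1343518117 (by decide +kernel) t2_584 (good_ofj c2_533) rfl rfl

theorem t2_586 : Good (Q 9) [v521, v30, v7, v129, v309, v24] :=
  split_of 0 1 v523 1312910633 (by decide +kernel) t2_580 t2_585 rfl rfl

theorem t2_587 : Good (Q 9) [v521, v30, v7, v129, v309, v19] :=
  split_of 1 5 v24 1311740689 (by decide +kernel) t2_513 t2_586 rfl rfl

theorem t2_588 : Good (Q 9) [v521, v30, v7, v128, v309, v19] :=
  split_of 1 3 v129 1303729140 (by decide +kernel) t2_506 t2_587 rfl rfl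

theorem t2_589 : Good (Q 10) [v521, v30, v7, v128, v309, v19] :=
  env_E _ t2_588

theorem t2_590 : Good (Q 10) [v521, v30, v7, v128, v304, v19] :=
  split_of 1 4 v309 1293212810 (by decide +kernel) (good_ofj c2_455) t2_589 rfl rfl

theorem t2_591 : Good (Q 10) [v521, v30, v7, v128, v304, v0] :=
  split_of 2 5 v19 1309159440 (by decide +kernel) t2_500 t2_590 rfl rfl

theorem t2_592 : Good (Q 10) [v314, v30, v521, v128, v312, v0] :=
  split_of 3 5 v142 1268403305 (by decide +kernel) (good_ofj c2_534) (good_ofj c2_535) rfl rfl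

theorem t2_593 : Good (Q 10) [v313, v30, v521, v128, v312, v0] :=
  split_of 0 1 v314 1267400614 (by decide +kernel) t2_592 (good_ofj c2_536) rfl rfl

theorem t2_594 : Good (Q 10) [v314, v30, v521, v128, v304, v312] :=
  split_of 1 4 v309 1293212810 (by decide +kernel) (good_ofj c2_537) (good_ofj c2_538) rfl rfl

theorem t2_595 : Good (Q 10) [v313, v30, v521, v128, v304, v312] :=
  split_of 0 1 v314 1267400614 (by decide +kernel) t2_594 (good_ofj c2_539) rfl rfl

theorem t2_596 : Good (Q 10) [v313, v30, v521, v128, v304, v0] :=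
  split_of 4 5 v312 1241799870 (by decide +kernel) t2_593 t2_595 rfl rfl

theorem t2_597 : Good (Q 10) [v313, v30, v7, v128, v304, v0] :=
  split_of 0 2 v521 1312910633 (by decide +kernel) t2_591 t2_596 rfl rfl

theorem t2_598 : Good (Q 10) [v313, v30, v7, v126, v304, v0] :=
  split_of 1 3 v128 1307275754 (by decide +kernel) t2_494 t2_597 rfl rfl

theorem t2_599 : Good (Q 10) [v313, v30, v7, v126, v306, v0] :=
  split_of 1 4 v304 1268403305 (by decide +kernel) t2_492 t2_598 rfl rfl

theorem t2_600 : Good (Q 9) [v153, v523, v7, v155, v522, v24] :=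
  split_of 0 2 v166 1345413067 (by decide +kernel) (good_ofj c2_546) (good_ofj c2_547) rfl rfl

theorem t2_601 : Good (Q 9) [v153, v523, v7, v155, v521, v24] :=
  split_of 2 4 v522 1343518117 (by decide +kernel) (good_ofj c2_545) t2_600 rfl rfl

theorem t2_602 : Good (Q 9) [v159, v43, v7, v158, v527, v42] :=
  split_of 2 3 v160 1351955923 (by decide +kernel) (good_ofj c2_553) (good_ofj c2_554) rfl rfl

theorem t2_603 : Good (Q 9) [v157, v43, v7, v158, v527, v42] :=
  split_of 0 2 v159 1350439771 (by decide +kernel) t2_602 (good_ofj c2_555) rfl rfl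

theorem t2_604 : Good (Q 9) [v157, v43, v7, v158, v526, v42] :=
  split_of 2 4 v527 1350320645 (by decide +kernel) (good_ofj c2_552) t2_603 rfl rfl

theorem t2_605 : Good (Q 9) [v157, v43, v7, v158, v526, v37] :=
  split_of 2 5 v42 1350220494 (by decide +kernel) (good_ofj c2_551) t2_604 rfl rfl

theorem t2_606 : Good (Q 9) [v157, v38, v43, v158, v526, v37] :=
  split_of 1 3 v161 1343806274 (by decide +kernel) (good_ofj c2_556) (good_ofj c2_557) rfl rfl

theorem t2_607 : Good (Q 9) [v157, v38, v7, v158, v526, v37] :=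
  split_of 1 2 v43 1347746544 (by decide +kernel) t2_605 t2_606 rfl rfl

theorem t2_608 : Good (Q 9) [v157, v38, v7, v155, v526, v37] :=
  split_of 2 3 v158 1349356508 (by decide +kernel) (good_ofj c2_550) t2_607 rfl rfl

theorem t2_609 : Good (Q 9) [v156, v38, v7, v155, v526, v37] :=
  split_of 0 2 v157 1343364615 (by decide +kernel) t2_608 (good_ofj c2_558) rfl rfl

theorem t2_610 : Good (Q 9) [v156, v38, v7, v155, v523, v37] :=
  split_of 2 4 v526 1342848033 (by decide +kernel) (good_ofj c2_549) t2_609 rfl rfl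

theorem t2_611 : Good (Q 9) [v156, v38, v7, v155, v523, v24] :=
  split_of 2 5 v37 1342484791 (by decide +kernel) (good_ofj c2_548) t2_610 rfl rfl

theorem t2_612 : Good (Q 9) [v163, v54, v38, v162, v535, v52] :=
  split_of 0 2 v164 1319143752 (by decide +kernel) (good_ofj c2_564) (good_ofj c2_565) rfl rfl

theorem t2_613 : Good (Q 9) [v163, v54, v38, v162, v524, v52] :=
  split_of 2 4 v535 1318989953 (by decide +kernel) (good_ofj c2_563) t2_612 rfl rfl

theorem t2_614 : Good (Q 9) [v163, v54, v38, v162, v524, v28] :=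
  split_of 2 5 v52 1318899466 (by decide +kernel) (good_ofj c2_562) t2_613 rfl rfl

theorem t2_615 : Good (Q 9) [v163, v30, v38, v162, v524, v28] :=
  split_of 1 2 v54 1309864426 (by decide +kernel) t2_614 (good_ofj c2_566) rfl rfl

theorem t2_616 : Good (Q 9) [v156, v163, v38, v162, v524, v28] :=
  split_of 0 2 v165 1326403803 (by decide +kernel) (good_ofj c2_567) (good_ofj c2_568) rfl rfl

theorem t2_617 : Good (Q 9) [v156, v30, v38, v162, v524, v28] :=
  split_of 0 1 v163 1300833241 (by decide +kernel) t2_615 t2_616 rfl rfl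

theorem t2_618 : Good (Q 9) [v156, v30, v38, v162, v523, v28] :=
  split_of 1 4 v524 1300163123 (by decide +kernel) (good_ofj c2_561) t2_617 rfl rfl

theorem t2_619 : Good (Q 9) [v156, v30, v38, v162, v523, v24] :=
  split_of 1 5 v28 1299835258 (by decide +kernel) (good_ofj c2_560) t2_618 rfl rfl

theorem t2_620 : Good (Q 9) [v156, v30, v38, v155, v523, v24] :=
  split_of 1 3 v162 1318109894 (by decide +kernel) (good_ofj c2_559) t2_619 rfl rfl

theorem t2_621 : Good (Q 9) [v156, v30, v7, v155, v523, v24] :=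
  split_of 1 2 v38 1333169107 (by decide +kernel) t2_611 t2_620 rfl rfl

theorem t2_622 : Good (Q 9) [v166, v157, v7, v158, v526, v37] :=
  split_of 2 5 v42 1350220494 (by decide +kernel) (good_ofj c2_572) (good_ofj c2_573) rfl rfl

theorem t2_623 : Good (Q 9) [v166, v157, v7, v155, v526, v37] :=
  split_of 2 3 v158 1349356508 (by decide +kernel) (good_ofj c2_571) t2_622 rfl rfl

theorem t2_624 : Good (Q 9) [v166, v156, v7, v155, v526, v37] :=
  split_of 1 2 v157 1343364615 (by decide +kernel) t2_623 (good_ofj c2_574) rfl rfl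

theorem t2_625 : Good (Q 9) [v166, v156, v7, v155, v523, v37] :=
  split_of 2 4 v526 1342848033 (by decide +kernel) (good_ofj c2_570) t2_624 rfl rfl

theorem t2_626 : Good (Q 9) [v166, v156, v7, v155, v523, v24] :=
  split_of 2 5 v37 1342484791 (by decide +kernel) (good_ofj c2_569) t2_625 rfl rfl

theorem t2_627 : Good (Q 9) [v153, v156, v7, v155, v523, v24] :=
  split_of 0 2 v166 1345413067 (by decide +kernel) t2_626 (good_ofj c2_575) rfl rfl

theorem t2_628 : Good (Q 9) [v153, v30, v7, v155, v523, v24] :=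
  split_of 0 1 v156 1315360752 (by decide +kernel) t2_621 t2_627 rfl rfl

theorem t2_629 : Good (Q 9) [v153, v30, v7, v155, v521, v24] :=
  split_of 1 4 v523 1312910633 (by decide +kernel) t2_601 t2_628 rfl rfl

theorem t2_630 : Good (Q 9) [v153, v30, v7, v154, v521, v24] :=
  split_of 2 3 v155 1339066289 (by decide +kernel) (good_ofj c2_544) t2_629 rfl rfl

theorem t2_631 : Good (Q 9) [v153, v30, v7, v154, v521, v19] :=
  split_of 1 5 v24 1311740689 (by decide +kernel) (good_ofj c2_543) t2_630 rfl rfl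

theorem t2_632 : Good (Q 9) [v153, v30, v7, v127, v521, v19] :=
  split_of 1 3 v154 1298014089 (by decide +kernel) (good_ofj c2_542) t2_631 rfl rfl

theorem t2_633 : Good (Q 9) [v152, v30, v7, v127, v521, v19] :=
  split_of 0 2 v153 1321273347 (by decide +kernel) t2_632 (good_ofj c2_576) rfl rfl

theorem t2_634 : Good (Q 9) [v152, v30, v7, v127, v521, v0] :=
  split_of 2 5 v19 1309159440 (by decide +kernel) (good_ofj c2_541) t2_633 rfl rfl

theorem t2_635 : Good (Q 10) [v152, v30, v7, v127, v521, v0] :=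
  env_E _ t2_634

theorem t2_636 : Good (Q 10) [v152, v30, v7, v127, v313, v0] :=
  split_of 2 4 v521 1312910633 (by decide +kernel) (good_ofj c2_540) t2_635 rfl rfl

theorem t2_637 : Good (Q 10) [v152, v128, v7, v126, v313, v127] :=
  split_of 3 4 v315 1241799870 (by decide +kernel) (good_ofj c2_577) (good_ofj c2_578) rfl rfl

theorem t2_638 : Good (Q 9) [v168, v30, v521, v128, v314, v154] :=
  split_of 3 4 v316 1298731224 (by decide +kernel) (good_ofj c2_581) (good_ofj c2_582) rfl rfl

theorem t2_639 : Good (Q 10) [v168, v30, v521, v128, v314, v154] :=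
  env_E _ t2_638

theorem t2_640 : Good (Q 10) [v152, v30, v521, v128, v314, v154] :=
  split_of 0 1 v168 1278344175 (by decide +kernel) t2_639 (good_ofj c2_583) rfl rfl

theorem t2_641 : Good (Q 10) [v152, v30, v521, v128, v314, v127] :=
  split_of 1 5 v154 1298014089 (by decide +kernel) (good_ofj c2_580) t2_640 rfl rfl

theorem t2_642 : Good (Q 10) [v152, v30, v521, v128, v313, v127] :=
  split_of 1 4 v314 1267400614 (by decide +kernel) (good_ofj c2_579) t2_641 rfl rfl

theorem t2_643 : Good (Q 9) [v153, v129, v7, v130, v521, v155] :=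
  split_of 2 4 v522 1343518117 (by decide +kernel) (good_ofj c2_587) (good_ofj c2_588) rfl rfl

theorem t2_644 : Good (Q 9) [v153, v129, v7, v130, v521, v154] :=
  split_of 2 5 v155 1339066289 (by decide +kernel) (good_ofj c2_586) t2_643 rfl rfl

theorem t2_645 : Good (Q 9) [v153, v129, v7, v128, v521, v154] :=
  split_of 2 3 v130 1341057865 (by decide +kernel) (good_ofj c2_585) t2_644 rfl rfl

theorem t2_646 : Good (Q 9) [v166, v523, v7, v133, v522, v155] :=
  split_of 1 2 v526 1342848033 (by decide +kernel) (good_ofj c2_592) (good_ofj c2_593) rfl rfl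

theorem t2_647 : Good (Q 9) [v153, v523, v7, v133, v522, v155] :=
  split_of 0 2 v166 1345413067 (by decide +kernel) t2_646 (good_ofj c2_594) rfl rfl

theorem t2_648 : Good (Q 9) [v153, v523, v7, v129, v522, v155] :=
  split_of 2 3 v133 1339964634 (by decide +kernel) (good_ofj c2_591) t2_647 rfl rfl

theorem t2_649 : Good (Q 9) [v153, v523, v7, v129, v521, v155] :=
  split_of 2 4 v522 1343518117 (by decide +kernel) (good_ofj c2_590) t2_648 rfl rfl

theorem t2_650 : Good (Q 9) [v153, v523, v7, v129, v521, v154] :=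
  split_of 2 5 v155 1339066289 (by decide +kernel) (good_ofj c2_589) t2_649 rfl rfl

theorem t2_651 : Good (Q 9) [v156, v38, v133, v137, v523, v155] :=
  split_of 2 4 v525 1329645496 (by decide +kernel) (good_ofj c2_597) (good_ofj c2_598) rfl rfl

theorem t2_652 : Good (Q 9) [v156, v38, v133, v129, v523, v155] :=
  split_of 1 3 v137 1321013612 (by decide +kernel) (good_ofj c2_596) t2_651 rfl rfl

theorem t2_653 : Good (Q 9) [v156, v38, v526, v133, v523, v155] :=
  split_of 3 4 v525 1329645496 (by decide +kernel) (good_ofj c2_599) (good_ofj c2_600) rfl rfl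

theorem t2_654 : Good (Q 7) [v157, v43, v527, v134, v526, v158] :=
  split_of 3 4 v537 1346914087 (by decide +kernel) (good_ofj c2_603) (good_ofj c2_604) rfl rfl

theorem t2_655 : Good (Q 8) [v157, v43, v527, v134, v526, v158] :=
  P_of 7 8 0xffffffffffffffffffffffffffffff709c1358d7350d42e8b82fcc12e4bb2e8b8ffffffffffffffffffffffffffffff2d0b53f8fa40d07519472c0b12ccb32bcaf
    (by decide +kernel) t2_654

theorem t2_656 : Good (Q 9) [v157, v43, v527, v134, v526, v158] :=
  P_of 8 9 0xfffffffffffffffffffffffffffffffffff358d6350d42e8ba2f8bf2e4b92e8baffffffffffffffffffffffffffffff2d0b43fcfe40d03519462c4b02ccb32c0af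
    (by decide +kernel) t2_655

theorem t2_657 : Good (Q 9) [v159, v43, v7, v134, v527, v158] :=
  split_of 2 5 v160 1351955923 (by decide +kernel) (good_ofj c2_605) (good_ofj c2_606) rfl rfl

theorem t2_658 : Good (Q 9) [v157, v43, v7, v134, v527, v158] :=
  split_of 0 2 v159 1350439771 (by decide +kernel) t2_657 (good_ofj c2_607) rfl rfl

theorem t2_659 : Good (Q 9) [v157, v43, v7, v134, v526, v158] :=
  split_of 2 4 v527 1350320645 (by decide +kernel) t2_656 t2_658 rfl rfl

theorem t2_660 : Good (Q 9) [v157, v43, v7, v133, v526, v158] :=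
  split_of 2 3 v134 1349522479 (by decide +kernel) (good_ofj c2_602) t2_659 rfl rfl

theorem t2_661 : Good (Q 9) [v157, v38, v43, v133, v526, v158] :=
  split_of 1 5 v161 1343806274 (by decide +kernel) (good_ofj c2_608) (good_ofj c2_609) rfl rfl

theorem t2_662 : Good (Q 9) [v157, v38, v7, v133, v526, v158] :=
  split_of 1 2 v43 1347746544 (by decide +kernel) t2_660 t2_661 rfl rfl

theorem t2_663 : Good (Q 9) [v157, v38, v7, v133, v526, v155] :=
  split_of 2 5 v158 1349356508 (by decide +kernel) (good_ofj c2_601) t2_662 rfl rfl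

theorem t2_664 : Good (Q 9) [v156, v38, v7, v133, v526, v155] :=
  split_of 0 2 v157 1343364615 (by decide +kernel) t2_663 (good_ofj c2_610) rfl rfl

theorem t2_665 : Good (Q 9) [v156, v38, v7, v133, v523, v155] :=
  split_of 2 4 v526 1342848033 (by decide +kernel) t2_653 t2_664 rfl rfl

theorem t2_666 : Good (Q 9) [v156, v38, v7, v129, v523, v155] :=
  split_of 2 3 v133 1339964634 (by decide +kernel) t2_652 t2_665 rfl rfl

theorem t2_667 : Good (Q 9) [v156, v524, v38, v129, v523, v162] :=
  split_of 3 4 v530 1310759253 (by decide +kernel) (good_ofj c2_612) (good_ofj c2_613) rfl rfl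

theorem t2_668 : Good (Q 9) [v165, v131, v38, v137, v524, v162] :=
  split_of 1 2 v139 1316091829 (by decide +kernel) (good_ofj c2_615) (good_ofj c2_616) rfl rfl

theorem t2_669 : Good (Q 9) [v156, v131, v38, v137, v524, v162] :=
  split_of 0 2 v165 1326403803 (by decide +kernel) t2_668 (good_ofj c2_617) rfl rfl

theorem t2_670 : Good (Q 9) [v156, v131, v38, v129, v524, v162] :=
  split_of 2 3 v137 1321013612 (by decide +kernel) (good_ofj c2_614) t2_669 rfl rfl

theorem t2_671 : Good (Q 8) [v163, v54, v139, v131, v524, v162] :=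
  split_of 2 4 v534 1308946326 (by decide +kernel) (good_ofj c2_618) (good_ofj c2_619) rfl rfl

theorem t2_672 : Good (Q 9) [v163, v54, v139, v131, v524, v162] :=
  P_of 8 9 0xffffffffffffffffffffffffffffff50d4241104405012c4b02d8b62c0b02c4b0ffffffffffffffffffffffffffffff2f8bf348d1358d6fffff2e8ba2f4bd2e4b8
    (by decide +kernel) t2_671

theorem t2_673 : Good (Q 9) [v163, v54, v38, v139, v535, v162] :=
  split_of 0 2 v164 1319143752 (by decide +kernel) (good_ofj c2_621) (good_ofj c2_622) rfl rfl

theorem t2_674 : Good (Q 9) [v163, v54, v38, v139, v524, v162] :=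
  split_of 2 4 v535 1318989953 (by decide +kernel) (good_ofj c2_620) t2_673 rfl rfl

theorem t2_675 : Good (Q 9) [v163, v54, v38, v131, v524, v162] :=
  split_of 2 3 v139 1316091829 (by decide +kernel) t2_672 t2_674 rfl rfl

theorem t2_676 : Good (Q 8) [v163, v538, v54, v131, v524, v162] :=
  split_of 3 4 v531 1297559867 (by decide +kernel) (good_ofj c2_623) (good_ofj c2_624) rfl rfl

theorem t2_677 : Good (Q 9) [v163, v538, v54, v131, v524, v162] :=
  P_of 8 9 0xffffffffffffffffffffffffffffff50d4241105405012c4b02d8b72c0b02c4b0ffffffffffffffffffffffffffffff2f8bf348d1358d6fffff2e8ba2f4bd2e4b8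
    (by decide +kernel) t2_676

theorem t2_678 : Good (Q 9) [v163, v30, v54, v131, v524, v162] :=
  split_of 1 5 v538 1300504318 (by decide +kernel) t2_677 (good_ofj c2_625) rfl rfl

theorem t2_679 : Good (Q 9) [v163, v30, v38, v131, v524, v162] :=
  split_of 1 2 v54 1309864426 (by decide +kernel) t2_675 t2_678 rfl rfl

theorem t2_680 : Good (Q 9) [v165, v163, v38, v131, v524, v162] :=
  split_of 2 3 v139 1316091829 (by decide +kernel) (good_ofj c2_626) (good_ofj c2_627) rfl rfl

theorem t2_681 : Good (Q 9) [v156, v163, v38, v131, v524, v162] :=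
  split_of 0 2 v165 1326403803 (by decide +kernel) t2_680 (good_ofj c2_628) rfl rfl

theorem t2_682 : Good (Q 9) [v156, v30, v38, v131, v524, v162] :=
  split_of 0 1 v163 1300833241 (by decide +kernel) t2_679 t2_681 rfl rfl

theorem t2_683 : Good (Q 9) [v156, v30, v38, v129, v524, v162] :=
  split_of 1 3 v131 1293604245 (by decide +kernel) t2_670 t2_682 rfl rfl

theorem t2_684 : Good (Q 9) [v156, v30, v38, v129, v523, v162] :=
  split_of 1 4 v524 1300163123 (by decide +kernel) t2_667 t2_683 rfl rfl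

theorem t2_685 : Good (Q 9) [v156, v30, v38, v129, v523, v155] :=
  split_of 1 5 v162 1318109894 (by decide +kernel) (good_ofj c2_611) t2_684 rfl rfl

theorem t2_686 : Good (Q 9) [v156, v30, v7, v129, v523, v155] :=
  split_of 1 2 v38 1333169107 (by decide +kernel) t2_666 t2_685 rfl rfl

theorem t2_687 : Good (Q 9) [v166, v157, v7, v133, v526, v158] :=
  split_of 2 3 v134 1349522479 (by decide +kernel) (good_ofj c2_632) (good_ofj c2_633) rfl rfl

theorem t2_688 : Good (Q 9) [v166, v157, v7, v133, v526, v155] :=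
  split_of 2 5 v158 1349356508 (by decide +kernel) (good_ofj c2_631) t2_687 rfl rfl

theorem t2_689 : Good (Q 9) [v166, v156, v7, v133, v526, v155] :=
  split_of 1 2 v157 1343364615 (by decide +kernel) t2_688 (good_ofj c2_634) rfl rfl

theorem t2_690 : Good (Q 9) [v166, v156, v7, v133, v523, v155] :=
  split_of 2 4 v526 1342848033 (by decide +kernel) (good_ofj c2_630) t2_689 rfl rfl

theorem t2_691 : Good (Q 9) [v166, v156, v7, v129, v523, v155] :=
  split_of 2 3 v133 1339964634 (by decide +kernel) (good_ofj c2_629) t2_690 rfl rfl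

theorem t2_692 : Good (Q 9) [v153, v156, v7, v129, v523, v155] :=
  split_of 0 2 v166 1345413067 (by decide +kernel) t2_691 (good_ofj c2_635) rfl rfl

theorem t2_693 : Good (Q 9) [v153, v30, v7, v129, v523, v155] :=
  split_of 0 1 v156 1315360752 (by decide +kernel) t2_686 t2_692 rfl rfl

theorem t2_694 : Good (Q 9) [v153, v30, v7, v129, v523, v154] :=
  split_of 2 5 v155 1339066289 (by decide +kernel) (good_ofj c2_595) t2_693 rfl rfl

theorem t2_695 : Good (Q 9) [v153, v30, v7, v129, v521, v154] :=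
  split_of 1 4 v523 1312910633 (by decide +kernel) t2_650 t2_694 rfl rfl

theorem t2_696 : Good (Q 9) [v153, v30, v7, v128, v521, v154] :=
  split_of 1 3 v129 1303729140 (by decide +kernel) t2_645 t2_695 rfl rfl

theorem t2_697 : Good (Q 10) [v153, v30, v7, v128, v521, v154] :=
  env_E _ t2_696

theorem t2_698 : Good (Q 10) [v153, v30, v7, v128, v521, v127] :=
  split_of 1 5 v154 1298014089 (by decide +kernel) (good_ofj c2_584) t2_697 rfl rfl

theorem t2_699 : Good (Q 10) [v152, v30, v7, v128, v521, v127] :=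
  split_of 0 2 v153 1321273347 (by decide +kernel) t2_698 (good_ofj c2_636) rfl rfl

theorem t2_700 : Good (Q 10) [v152, v30, v7, v128, v313, v127] :=
  split_of 2 4 v521 1312910633 (by decide +kernel) t2_642 t2_699 rfl rfl

theorem t2_701 : Good (Q 10) [v152, v30, v7, v126, v313, v127] :=
  split_of 1 3 v128 1307275754 (by decide +kernel) t2_637 t2_700 rfl rfl

theorem t2_702 : Good (Q 10) [v152, v30, v7, v126, v313, v0] :=
  split_of 3 5 v127 1241799870 (by decide +kernel) t2_636 t2_701 rfl rfl

theorem t2_703 : Good (Q 9) [v109, v37, v7, v166, v522, v92] :=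
  split_of 2 4 v539 1350569232 (by decide +kernel) (good_ofj c2_644) (good_ofj c2_645) rfl rfl

theorem t2_704 : Good (Q 9) [v109, v37, v7, v166, v522, v59] :=
  split_of 2 5 v92 1350182502 (by decide +kernel) (good_ofj c2_643) t2_703 rfl rfl

theorem t2_705 : Good (Q 9) [v108, v37, v7, v166, v522, v59] :=
  split_of 0 2 v109 1347302695 (by decide +kernel) t2_704 (good_ofj c2_646) rfl rfl

theorem t2_706 : Good (Q 9) [v108, v37, v7, v153, v522, v59] :=
  split_of 2 3 v166 1345413067 (by decide +kernel) (good_ofj c2_642) t2_705 rfl rfl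

theorem t2_707 : Good (Q 9) [v108, v24, v7, v153, v522, v59] :=
  split_of 1 2 v37 1342484791 (by decide +kernel) t2_706 (good_ofj c2_647) rfl rfl

theorem t2_708 : Good (Q 9) [v108, v24, v7, v153, v521, v59] :=
  split_of 2 4 v522 1343518117 (by decide +kernel) (good_ofj c2_641) t2_707 rfl rfl

theorem t2_709 : Good (Q 9) [v108, v24, v7, v153, v521, v19] :=
  split_of 2 5 v59 1342177280 (by decide +kernel) (good_ofj c2_640) t2_708 rfl rfl

theorem t2_710 : Good (Q 9) [v109, v526, v7, v166, v539, v42] :=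
  split_of 1 2 v527 1350320645 (by decide +kernel) (good_ofj c2_653) (good_ofj c2_654) rfl rfl

theorem t2_711 : Good (Q 9) [v109, v526, v7, v166, v539, v37] :=
  split_of 2 5 v42 1350220494 (by decide +kernel) (good_ofj c2_652) t2_710 rfl rfl

theorem t2_712 : Good (Q 9) [v109, v526, v7, v166, v522, v37] :=
  split_of 2 4 v539 1350569232 (by decide +kernel) (good_ofj c2_651) t2_711 rfl rfl

theorem t2_713 : Good (Q 9) [v108, v526, v7, v166, v522, v37] :=
  split_of 0 2 v109 1347302695 (by decide +kernel) t2_712 (good_ofj c2_655) rfl rfl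

theorem t2_714 : Good (Q 9) [v108, v523, v7, v166, v522, v37] :=
  split_of 1 2 v526 1342848033 (by decide +kernel) t2_713 (good_ofj c2_656) rfl rfl

theorem t2_715 : Good (Q 9) [v108, v523, v7, v166, v522, v24] :=
  split_of 2 5 v37 1342484791 (by decide +kernel) (good_ofj c2_650) t2_714 rfl rfl

theorem t2_716 : Good (Q 9) [v108, v523, v7, v153, v522, v24] :=
  split_of 2 3 v166 1345413067 (by decide +kernel) (good_ofj c2_649) t2_715 rfl rfl

theorem t2_717 : Good (Q 9) [v108, v523, v7, v153, v521, v24] :=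
  split_of 2 4 v522 1343518117 (by decide +kernel) (good_ofj c2_648) t2_716 rfl rfl

theorem t2_718 : Good (Q 9) [v111, v38, v166, v172, v523, v24] :=
  split_of 2 5 v173 1334132011 (by decide +kernel) (good_ofj c2_658) (good_ofj c2_659) rfl rfl

theorem t2_719 : Good (Q 9) [v108, v38, v166, v172, v523, v24] :=
  split_of 0 1 v111 1336786951 (by decide +kernel) t2_718 (good_ofj c2_660) rfl rfl

theorem t2_720 : Good (Q 9) [v108, v38, v166, v153, v523, v24] :=
  split_of 1 3 v172 1334980480 (by decide +kernel) (good_ofj c2_657) t2_719 rfl rfl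

theorem t2_721 : Good (Q 9) [v111, v38, v37, v166, v523, v24] :=
  split_of 3 5 v173 1334132011 (by decide +kernel) (good_ofj c2_661) (good_ofj c2_662) rfl rfl

theorem t2_722 : Good (Q 9) [v108, v38, v37, v166, v523, v24] :=
  split_of 0 1 v111 1336786951 (by decide +kernel) t2_721 (good_ofj c2_663) rfl rfl

theorem t2_723 : Good (Q 9) [v108, v38, v526, v166, v523, v37] :=
  split_of 0 1 v111 1336786951 (by decide +kernel) (good_ofj c2_664) (good_ofj c2_665) rfl rfl

theorem t2_724 : Good (Q 9) [v109, v157, v7, v174, v526, v42] :=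
  split_of 2 4 v527 1350320645 (by decide +kernel) (good_ofj c2_668) (good_ofj c2_669) rfl rfl

theorem t2_725 : Good (Q 9) [v109, v157, v7, v166, v526, v42] :=
  split_of 2 3 v174 1351024736 (by decide +kernel) (good_ofj c2_667) t2_724 rfl rfl

theorem t2_726 : Good (Q 9) [v109, v157, v7, v166, v526, v37] :=
  split_of 2 5 v42 1350220494 (by decide +kernel) (good_ofj c2_666) t2_725 rfl rfl

theorem t2_727 : Good (Q 9) [v109, v43, v42, v157, v526, v112] :=
  split_of 0 1 v113 1348854888 (by decide +kernel) (good_ofj c2_671) (good_ofj c2_672) rfl rfl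

theorem t2_728 : Good (Q 9) [v109, v43, v42, v157, v526, v37] :=
  split_of 0 5 v112 1346097975 (by decide +kernel) (good_ofj c2_670) t2_727 rfl rfl

theorem t2_729 : Good (Q 7) [v113, v43, v527, v157, v526, v42] :=
  split_of 1 4 v540 1345906828 (by decide +kernel) (good_ofj c2_673) (good_ofj c2_674) rfl rfl

theorem t2_730 : Good (Q 8) [v113, v43, v527, v157, v526, v42] :=
  P_of 7 8 0xffffffffffffffffffffffffffffff71dc3354d7348d32e0b8300c02f4bc2e8b9ffffffffffffffffffffffffffffff2d0b43f0fa42508509452c4b12c4b22c0b0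
    (by decide +kernel) t2_729

theorem t2_731 : Good (Q 9) [v113, v43, v527, v157, v526, v42] :=
  P_of 8 9 0xfffffffffffffffffffffffffffffffffff354d5348d22e0b8300c02f4bd2e8baffffffffffffffffffffffffffffff2d0b43f0fc42509509422c4b12c4b12c0b0
    (by decide +kernel) t2_730

theorem t2_732 : Good (Q 9) [v109, v43, v527, v157, v526, v42] :=
  split_of 0 1 v113 1348854888 (by decide +kernel) t2_731 (good_ofj c2_675) rfl rfl

theorem t2_733 : Good (Q 7) [v113, v43, v159, v157, v527, v42] :=
  split_of 3 5 v175 1347426256 (by decide +kernel) (good_ofj c2_676) (good_ofj c2_677) rfl rfl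

theorem t2_734 : Good (Q 8) [v113, v43, v159, v157, v527, v42] :=
  P_of 7 8 0xffffffffffffffffffffffffffffff71dc5354d534cd32e4b8300c02f4bd2e4b8ffffffffffffffffffffffffffffff2ccb33f0fb42509509432c4b12c8b32c0b0
    (by decide +kernel) t2_733

theorem t2_735 : Good (Q 9) [v113, v43, v159, v157, v527, v42] :=
  P_of 8 9 0xfffffffffffffffffffffffffffffffffff354d534cd32e4b9300c02f4bd2e4b9ffffffffffffffffffffffffffffff2ccb33f0fc42509509422c4b12c8b22c0b0
    (by decide +kernel) t2_734

theorem t2_736 : Good (Q 9) [v109, v43, v159, v157, v527, v42] :=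
  split_of 0 1 v113 1348854888 (by decide +kernel) t2_735 (good_ofj c2_678) rfl rfl

theorem t2_737 : Good (Q 9) [v115, v43, v99, v159, v527, v101] :=
  split_of 1 4 v541 1349325384 (by decide +kernel) (good_ofj c2_681) (good_ofj c2_682) rfl rfl

theorem t2_738 : Good (Q 9) [v115, v43, v99, v159, v527, v42] :=
  split_of 1 5 v101 1349299878 (by decide +kernel) (good_ofj c2_680) t2_737 rfl rfl

theorem t2_739 : Good (Q 9) [v114, v43, v99, v159, v527, v42] :=
  split_of 0 1 v115 1350548520 (by decide +kernel) t2_738 (good_ofj c2_683) rfl rfl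

theorem t2_740 : Good (Q 9) [v114, v43, v7, v159, v527, v42] :=
  split_of 1 2 v99 1351535087 (by decide +kernel) (good_ofj c2_679) t2_739 rfl rfl

theorem t2_741 : Good (Q 9) [v109, v43, v7, v159, v527, v42] :=
  split_of 0 2 v114 1351479933 (by decide +kernel) t2_740 (good_ofj c2_684) rfl rfl

theorem t2_742 : Good (Q 9) [v109, v43, v7, v157, v527, v42] :=
  split_of 2 3 v159 1350439771 (by decide +kernel) t2_736 t2_741 rfl rfl

theorem t2_743 : Good (Q 9) [v109, v43, v7, v157, v526, v42] :=
  split_of 2 4 v527 1350320645 (by decide +kernel) t2_732 t2_742 rfl rfl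

theorem t2_744 : Good (Q 9) [v109, v43, v7, v157, v526, v37] :=
  split_of 2 5 v42 1350220494 (by decide +kernel) t2_728 t2_743 rfl rfl

theorem t2_745 : Good (Q 9) [v117, v38, v43, v157, v526, v118] :=
  split_of 1 4 v542 1339150560 (by decide +kernel) (good_ofj c2_686) (good_ofj c2_687) rfl rfl

theorem t2_746 : Good (Q 9) [v117, v38, v43, v157, v526, v37] :=
  split_of 1 5 v118 1339055755 (by decide +kernel) (good_ofj c2_685) t2_745 rfl rfl

theorem t2_747 : Good (Q 9) [v109, v38, v43, v157, v526, v37] :=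
  split_of 0 1 v117 1343797121 (by decide +kernel) t2_746 (good_ofj c2_688) rfl rfl

theorem t2_748 : Good (Q 9) [v109, v38, v7, v157, v526, v37] :=
  split_of 1 2 v43 1347746544 (by decide +kernel) t2_744 t2_747 rfl rfl

theorem t2_749 : Good (Q 9) [v109, v38, v7, v166, v526, v37] :=
  split_of 1 3 v157 1343364615 (by decide +kernel) t2_726 t2_748 rfl rfl

theorem t2_750 : Good (Q 9) [v108, v38, v109, v166, v526, v37] :=
  split_of 0 1 v111 1336786951 (by decide +kernel) (good_ofj c2_689) (good_ofj c2_690) rfl rfl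

theorem t2_751 : Good (Q 9) [v108, v38, v7, v166, v526, v37] :=
  split_of 0 2 v109 1347302695 (by decide +kernel) t2_749 t2_750 rfl rfl

theorem t2_752 : Good (Q 9) [v108, v38, v7, v166, v523, v37] :=
  split_of 2 4 v526 1342848033 (by decide +kernel) t2_723 t2_751 rfl rfl

theorem t2_753 : Good (Q 9) [v108, v38, v7, v166, v523, v24] :=
  split_of 2 5 v37 1342484791 (by decide +kernel) t2_722 t2_752 rfl rfl

theorem t2_754 : Good (Q 9) [v108, v38, v7, v153, v523, v24] :=
  split_of 2 3 v166 1345413067 (by decide +kernel) t2_720 t2_753 rfl rfl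

theorem t2_755 : Good (Q 9) [v120, v163, v38, v165, v524, v28] :=
  split_of 0 2 v124 1326818823 (by decide +kernel) (good_ofj c2_695) (good_ofj c2_696) rfl rfl

theorem t2_756 : Good (Q 9) [v120, v163, v38, v156, v524, v28] :=
  split_of 2 3 v165 1326403803 (by decide +kernel) (good_ofj c2_694) t2_755 rfl rfl

theorem t2_757 : Good (Q 7) [v121, v54, v164, v163, v535, v52] :=
  split_of 1 3 v543 1305898189 (by decide +kernel) (good_ofj c2_699) (good_ofj c2_700) rfl rfl

theorem t2_758 : Good (Q 8) [v121, v54, v164, v163, v535, v52] :=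
  P_of 7 8 0xffffffffffffffffffffffffffffff52145405023fd002bcaf2d4b62d0b42bcafffffffffffffffffffffffffffffff2f0bc344cf368da701c32ecbb2ecbb2e8ba
    (by decide +kernel) t2_757

theorem t2_759 : Good (Q 9) [v121, v54, v164, v163, v535, v52] :=
  P_of 8 9 0xffffffffffffffffffffffffffffff5114840501404ff2c0af2d0b52ccb42c0afffffffffffffffffffffffffffffff2f0bc344d1360dafffff2ecbb2f0bb2ecba
    (by decide +kernel) t2_758

theorem t2_760 : Good (Q 9) [v121, v54, v38, v164, v535, v52] :=
  split_of 0 2 v123 1319243250 (by decide +kernel) (good_ofj c2_701) (good_ofj c2_702) rfl rfl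

theorem t2_761 : Good (Q 9) [v121, v54, v38, v163, v535, v52] :=
  split_of 2 3 v164 1319143752 (by decide +kernel) t2_759 t2_760 rfl rfl

theorem t2_762 : Good (Q 9) [v121, v54, v38, v163, v524, v52] :=
  split_of 2 4 v535 1318989953 (by decide +kernel) (good_ofj c2_698) t2_761 rfl rfl

theorem t2_763 : Good (Q 9) [v121, v54, v38, v163, v524, v28] :=
  split_of 2 5 v52 1318899466 (by decide +kernel) (good_ofj c2_697) t2_762 rfl rfl

theorem t2_764 : Good (Q 9) [v121, v30, v38, v163, v524, v28] :=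
  split_of 1 2 v54 1309864426 (by decide +kernel) t2_763 (good_ofj c2_703) rfl rfl

theorem t2_765 : Good (Q 9) [v124, v121, v38, v163, v524, v28] :=
  split_of 2 5 v52 1318899466 (by decide +kernel) (good_ofj c2_704) (good_ofj c2_705) rfl rfl

theorem t2_766 : Good (Q 9) [v120, v121, v38, v163, v524, v28] :=
  split_of 0 2 v124 1326818823 (by decide +kernel) t2_765 (good_ofj c2_706) rfl rfl

theorem t2_767 : Good (Q 9) [v120, v30, v38, v163, v524, v28] :=
  split_of 0 1 v121 1301234981 (by decide +kernel) t2_764 t2_766 rfl rfl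

theorem t2_768 : Good (Q 9) [v120, v30, v38, v156, v524, v28] :=
  split_of 1 3 v163 1300833241 (by decide +kernel) t2_756 t2_767 rfl rfl

theorem t2_769 : Good (Q 9) [v120, v30, v38, v156, v523, v28] :=
  split_of 1 4 v524 1300163123 (by decide +kernel) (good_ofj c2_693) t2_768 rfl rfl

theorem t2_770 : Good (Q 9) [v120, v30, v38, v156, v523, v24] :=
  split_of 1 5 v28 1299835258 (by decide +kernel) (good_ofj c2_692) t2_769 rfl rfl

theorem t2_771 : Good (Q 9) [v108, v30, v38, v156, v523, v24] :=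
  split_of 0 1 v120 1317105264 (by decide +kernel) t2_770 (good_ofj c2_707) rfl rfl

theorem t2_772 : Good (Q 9) [v108, v30, v38, v153, v523, v24] :=
  split_of 1 3 v156 1315360752 (by decide +kernel) (good_ofj c2_691) t2_771 rfl rfl

theorem t2_773 : Good (Q 9) [v108, v30, v7, v153, v523, v24] :=
  split_of 1 2 v38 1333169107 (by decide +kernel) t2_754 t2_772 rfl rfl

theorem t2_774 : Good (Q 9) [v108, v30, v7, v153, v521, v24] :=
  split_of 1 4 v523 1312910633 (by decide +kernel) t2_717 t2_773 rfl rfl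

theorem t2_775 : Good (Q 9) [v108, v30, v7, v153, v521, v19] :=
  split_of 1 5 v24 1311740689 (by decide +kernel) t2_709 t2_774 rfl rfl

theorem t2_776 : Good (Q 9) [v107, v30, v7, v153, v521, v19] :=
  split_of 0 2 v108 1329531520 (by decide +kernel) t2_775 (good_ofj c2_708) rfl rfl

theorem t2_777 : Good (Q 9) [v107, v30, v7, v152, v521, v19] :=
  split_of 2 3 v153 1321273347 (by decide +kernel) (good_ofj c2_639) t2_776 rfl rfl

theorem t2_778 : Good (Q 9) [v107, v30, v7, v152, v521, v0] :=
  split_of 2 5 v19 1309159440 (by decide +kernel) (good_ofj c2_638) t2_777 rfl rfl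

theorem t2_779 : Good (Q 10) [v107, v30, v7, v152, v521, v0] :=
  env_E _ t2_778

theorem t2_780 : Good (Q 10) [v107, v30, v7, v152, v313, v0] :=
  split_of 2 4 v521 1312910633 (by decide +kernel) (good_ofj c2_637) t2_779 rfl rfl

theorem t2_781 : Good (Q 10) [v125, v30, v7, v152, v313, v0] :=
  split_of 0 2 v107 1245967015 (by decide +kernel) t2_780 (good_ofj c2_709) rfl rfl

theorem t2_782 : Good (Q 10) [v125, v30, v7, v126, v313, v0] :=
  split_of 0 3 v152 1202967926 (by decide +kernel) t2_702 t2_781 rfl rfl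

theorem t2_783 : Good (Q 10) [v125, v30, v7, v126, v306, v0] :=
  split_of 0 4 v313 1156653316 (by decide +kernel) t2_599 t2_782 rfl rfl

theorem t2_784 : Good (Q 10) [v125, v30, v7, v126, v306, v5] :=
  split_of 0 5 v0 1156653316 (by decide +kernel) t2_488 t2_783 rfl rfl

theorem t2_785 : Good (Q 10) [v0, v304, v7, v180, v508, v8] :=
  split_of 0 1 v312 1241799870 (by decide +kernel) (good_ofj c2_714) (good_ofj c2_715) rfl rfl

theorem t2_786 : Good (Q 10) [v0, v304, v7, v180, v507, v8] :=
  split_of 0 4 v508 1262363198 (by decide +kernel) (good_ofj c2_713) t2_785 rfl rfl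

theorem t2_787 : Good (Q 10) [v0, v304, v7, v180, v507, v5] :=
  split_of 2 5 v8 1278344175 (by decide +kernel) (good_ofj c2_712) t2_786 rfl rfl

theorem t2_788 : Good (Q 10) [v0, v304, v7, v178, v507, v5] :=
  split_of 0 3 v180 1241799870 (by decide +kernel) (good_ofj c2_711) t2_787 rfl rfl

theorem t2_789 : Good (Q 10) [v0, v304, v7, v178, v306, v5] :=
  split_of 2 4 v507 1293935275 (by decide +kernel) (good_ofj c2_710) t2_788 rfl rfl

theorem t2_790 : Good (Q 10) [v0, v183, v7, v180, v304, v8] :=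
  split_of 0 4 v312 1241799870 (by decide +kernel) (good_ofj c2_718) (good_ofj c2_719) rfl rfl

theorem t2_791 : Good (Q 10) [v0, v183, v7, v180, v304, v5] :=
  split_of 2 5 v8 1278344175 (by decide +kernel) (good_ofj c2_717) t2_790 rfl rfl

theorem t2_792 : Good (Q 10) [v0, v183, v7, v178, v304, v5] :=
  split_of 0 3 v180 1241799870 (by decide +kernel) (good_ofj c2_716) t2_791 rfl rfl

theorem t2_793 : Good (Q 10) [v312, v15, v7, v183, v304, v8] :=
  split_of 2 4 v509 1332942339 (by decide +kernel) (good_ofj c2_721) (good_ofj c2_722) rfl rfl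

theorem t2_794 : Good (Q 10) [v0, v15, v7, v183, v312, v8] :=
  split_of 0 2 v19 1309159440 (by decide +kernel) (good_ofj c2_723) (good_ofj c2_724) rfl rfl

theorem t2_795 : Good (Q 10) [v0, v15, v7, v183, v304, v8] :=
  split_of 0 4 v312 1241799870 (by decide +kernel) t2_793 t2_794 rfl rfl

theorem t2_796 : Good (Q 10) [v0, v15, v7, v183, v304, v5] :=
  split_of 2 5 v8 1278344175 (by decide +kernel) (good_ofj c2_720) t2_795 rfl rfl

theorem t2_797 : Good (Q 9) [v19, v21, v7, v183, v309, v186] :=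
  split_of 0 3 v187 1314545060 (by decide +kernel) (good_ofj c2_727) (good_ofj c2_728) rfl rfl

theorem t2_798 : Good (Q 9) [v19, v21, v7, v183, v309, v15] :=
  split_of 2 5 v186 1327933798 (by decide +kernel) (good_ofj c2_726) t2_797 rfl rfl

theorem t2_799 : Good (Q 9) [v24, v188, v7, v189, v512, v34] :=
  split_of 1 2 v191 1339459463 (by decide +kernel) (good_ofj c2_732) (good_ofj c2_733) rfl rfl

theorem t2_800 : Good (Q 9) [v24, v188, v7, v189, v309, v34] :=
  split_of 2 4 v512 1337829094 (by decide +kernel) (good_ofj c2_731) t2_799 rfl rfl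

theorem t2_801 : Good (Q 9) [v24, v188, v7, v189, v309, v21] :=
  split_of 2 5 v34 1336420407 (by decide +kernel) (good_ofj c2_730) t2_800 rfl rfl

theorem t2_802 : Good (Q 9) [v24, v188, v7, v183, v309, v21] :=
  split_of 2 3 v189 1339712096 (by decide +kernel) (good_ofj c2_729) t2_801 rfl rfl

theorem t2_803 : Good (Q 7) [v24, v35, v34, v188, v511, v27] :=
  split_of 0 3 v193 1308718437 (by decide +kernel) (good_ofj c2_736) (good_ofj c2_737) rfl rfl

theorem t2_804 : Good (Q 8) [v24, v35, v34, v188, v511, v27] :=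
  P_of 7 8 0xffffffffffffffffffffffffffffff539534991e378e12b4ae2fcbf2acab2ecb9ffffffffffffffffffffffffffffff368d5364da368dc6f1b62f8bd2b8b02a4aa
    (by decide +kernel) t2_803

theorem t2_805 : Good (Q 9) [v24, v35, v34, v188, v511, v27] :=
  P_of 8 9 0xffffffffffffffffffffffffffffff5394e49926378de2b8ad2fcbf2acab2ecbbffffffffffffffffffffffffffffff368da364d9368dafffff2fcbe2b8ae2a4a9
    (by decide +kernel) t2_804

theorem t2_806 : Good (Q 7) [v28, v195, v35, v188, v511, v27] :=
  split_of 0 3 v194 1301703364 (by decide +kernel) (good_ofj c2_738) (good_ofj c2_739) rfl rfl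

theorem t2_807 : Good (Q 8) [v28, v195, v35, v188, v511, v27] :=
  P_of 7 8 0xffffffffffffffffffffffffffffff4ed3b481213b8ee2b4ae2e0b72c4b02d0b4ffffffffffffffffffffffffffffff338ce338cf354d4745d2308c32c8b22c8b2
    (by decide +kernel) t2_806

theorem t2_808 : Good (Q 9) [v28, v195, v35, v188, v511, v27] :=
  P_of 8 9 0xffffffffffffffffffffffffffffff4ed3b481203b8ee2b4ad2e0b82c4b12d0b4ffffffffffffffffffffffffffffff338ce338ce354d5fffff308c22c8b22c8b2
    (by decide +kernel) t2_807

theorem t2_809 : Good (Q 9) [v28, v30, v35, v188, v511, v27] :=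
  split_of 1 3 v195 1292338752 (by decide +kernel) t2_808 (good_ofj c2_740) rfl rfl

theorem t2_810 : Good (Q 9) [v24, v30, v35, v188, v511, v27] :=
  split_of 0 1 v28 1299835258 (by decide +kernel) t2_809 (good_ofj c2_741) rfl rfl

theorem t2_811 : Good (Q 9) [v24, v30, v34, v188, v511, v27] :=
  split_of 1 2 v35 1315109598 (by decide +kernel) t2_805 t2_810 rfl rfl

theorem t2_812 : Good (Q 9) [v24, v30, v34, v188, v309, v27] :=
  split_of 1 4 v511 1290828974 (by decide +kernel) (good_ofj c2_735) t2_811 rfl rfl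

theorem t2_813 : Good (Q 9) [v24, v30, v34, v188, v309, v21] :=
  split_of 1 5 v27 1289558025 (by decide +kernel) (good_ofj c2_734) t2_812 rfl rfl

theorem t2_814 : Good (Q 7) [v24, v35, v512, v188, v511, v34] :=
  split_of 0 3 v193 1308718437 (by decide +kernel) (good_ofj c2_743) (good_ofj c2_744) rfl rfl

theorem t2_815 : Good (Q 9) [v24, v35, v512, v188, v511, v34] :=
  P_of 7 9 0xfffffffffffffffffffffffffffffffffff4711b38ce12b8b02f8bf2b0ac2dcb7ffffffffffffffffffffffffffffff34cd2360da36cddfffff2f4bd2c4b12aca9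
    (by decide +kernel) t2_814

theorem t2_816 : Good (Q 7) [v24, v513, v512, v188, v511, v35] :=
  split_of 0 3 v193 1308718437 (by decide +kernel) (good_ofj c2_745) (good_ofj c2_746) rfl rfl

theorem t2_817 : Good (Q 8) [v24, v513, v512, v188, v511, v35] :=
  P_of 7 8 0xffffffffffffffffffffffffffffff53d5847d18388e12bcb02fcbe2b4ad2d4b6ffffffffffffffffffffffffffffff34cd0358da370df6e9b02fcbd2c8b22a8a9
    (by decide +kernel) t2_816

theorem t2_818 : Good (Q 9) [v24, v513, v512, v188, v511, v35] :=
  P_of 8 9 0xffffffffffffffffffffffffffffff5314f4651f3a0e22c0af2f4bf2acad2d4b5ffffffffffffffffffffffffffffff340d335cd6364dcfffff2f4bf2d0b22b0aa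
    (by decide +kernel) t2_817

theorem t2_819 : Good (Q 7) [v28, v195, v513, v194, v511, v35] :=
  split_of 0 4 v544 1296139074 (by decide +kernel) (good_ofj c2_748) (good_ofj c2_749) rfl rfl

theorem t2_820 : Good (Q 7) [v28, v195, v513, v188, v511, v35] :=
  split_of 0 3 v194 1301703364 (by decide +kernel) (good_ofj c2_747) t2_819 rfl rfl

theorem t2_821 : Good (Q 8) [v28, v195, v513, v188, v511, v35] :=
  P_of 7 8 0xffffffffffffffffffffffffffffff4ed3c47d1f3bcee2bcaf2dcb82c0b02ccb2ffffffffffffffffffffffffffffff330cc33ccf34cd5745d030cc32d0b42c8b1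
    (by decide +kernel) t2_820

theorem t2_822 : Good (Q 9) [v28, v195, v513, v188, v511, v35] :=
  P_of 8 9 0xffffffffffffffffffffffffffffff4f13b4751f3c0ef2b8af2e0b72c0b02ccb3ffffffffffffffffffffffffffffff330cc338cf354d3fffff304c32d0b42c8b2
    (by decide +kernel) t2_821

theorem t2_823 : Good (Q 9) [v28, v30, v513, v195, v511, v35] :=
  split_of 1 5 v58 1298631825 (by decide +kernel) (good_ofj c2_750) (good_ofj c2_751) rfl rfl

theorem t2_824 : Good (Q 9) [v28, v30, v513, v188, v511, v35] :=
  split_of 1 3 v195 1292338752 (by decide +kernel) t2_822 t2_823 rfl rfl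

theorem t2_825 : Good (Q 7) [v24, v28, v513, v188, v511, v35] :=
  split_of 0 3 v193 1308718437 (by decide +kernel) (good_ofj c2_752) (good_ofj c2_753) rfl rfl

theorem t2_826 : Good (Q 8) [v24, v28, v513, v188, v511, v35] :=
  P_of 7 8 0xffffffffffffffffffffffffffffff5194648520398e62b0ad2f4bd2c4b02ccb3ffffffffffffffffffffffffffffff344d1340d1370db711c4304c12c4b12b4ad
    (by decide +kernel) t2_825

theorem t2_827 : Good (Q 9) [v24, v28, v513, v188, v511, v35] :=
  P_of 8 9 0xffffffffffffffffffffffffffffff51145485213a0e72b4ad2f8bf2b8ae2ccb3ffffffffffffffffffffffffffffff348d2340d036cdbfffff300c02ccb32b4ac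
    (by decide +kernel) t2_826

theorem t2_828 : Good (Q 9) [v24, v30, v513, v188, v511, v35] :=
  split_of 0 1 v28 1299835258 (by decide +kernel) t2_824 t2_827 rfl rfl

theorem t2_829 : Good (Q 9) [v24, v30, v512, v188, v511, v35] :=
  split_of 1 2 v513 1315466281 (by decide +kernel) t2_818 t2_828 rfl rfl

theorem t2_830 : Good (Q 9) [v24, v30, v512, v188, v511, v34] :=
  split_of 1 5 v35 1315109598 (by decide +kernel) t2_815 t2_829 rfl rfl

theorem t2_831 : Good (Q 9) [v24, v30, v512, v188, v309, v34] :=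
  split_of 1 4 v511 1290828974 (by decide +kernel) (good_ofj c2_742) t2_830 rfl rfl

theorem t2_832 : Good (Q 9) [v193, v38, v191, v188, v512, v199] :=
  split_of 1 3 v200 1320147089 (by decide +kernel) (good_ofj c2_755) (good_ofj c2_756) rfl rfl

theorem t2_833 : Good (Q 9) [v193, v38, v191, v188, v512, v34] :=
  split_of 3 5 v199 1322141996 (by decide +kernel) (good_ofj c2_754) t2_832 rfl rfl

theorem t2_834 : Good (Q 9) [v24, v38, v191, v193, v512, v34] :=
  split_of 0 2 v201 1328875777 (by decide +kernel) (good_ofj c2_757) (good_ofj c2_758) rfl rfl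

theorem t2_835 : Good (Q 9) [v24, v38, v191, v188, v512, v34] :=
  split_of 0 3 v193 1308718437 (by decide +kernel) t2_833 t2_834 rfl rfl

theorem t2_836 : Good (Q 9) [v42, v43, v7, v203, v515, v45] :=
  split_of 2 4 v516 1351874964 (by decide +kernel) (good_ofj c2_763) (good_ofj c2_764) rfl rfl

theorem t2_837 : Good (Q 9) [v42, v43, v7, v203, v515, v40] :=
  split_of 2 5 v45 1351770736 (by decide +kernel) (good_ofj c2_762) t2_836 rfl rfl

theorem t2_838 : Good (Q 9) [v37, v43, v7, v203, v515, v40] :=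
  split_of 0 2 v42 1350220494 (by decide +kernel) t2_837 (good_ofj c2_765) rfl rfl

theorem t2_839 : Good (Q 9) [v37, v43, v7, v191, v515, v40] :=
  split_of 2 3 v203 1349460245 (by decide +kernel) (good_ofj c2_761) t2_838 rfl rfl

theorem t2_840 : Good (Q 9) [v37, v38, v43, v191, v515, v47] :=
  split_of 1 4 v517 1343112045 (by decide +kernel) (good_ofj c2_767) (good_ofj c2_768) rfl rfl

theorem t2_841 : Good (Q 9) [v37, v38, v43, v191, v515, v40] :=
  split_of 1 5 v47 1343013435 (by decide +kernel) (good_ofj c2_766) t2_840 rfl rfl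

theorem t2_842 : Good (Q 9) [v37, v38, v7, v191, v515, v40] :=
  split_of 1 2 v43 1347746544 (by decide +kernel) t2_839 t2_841 rfl rfl

theorem t2_843 : Good (Q 9) [v37, v38, v7, v191, v512, v40] :=
  split_of 2 4 v515 1349038282 (by decide +kernel) (good_ofj c2_760) t2_842 rfl rfl

theorem t2_844 : Good (Q 9) [v37, v38, v7, v191, v512, v34] :=
  split_of 2 5 v40 1348643751 (by decide +kernel) (good_ofj c2_759) t2_843 rfl rfl

theorem t2_845 : Good (Q 9) [v24, v38, v7, v191, v512, v34] :=
  split_of 0 2 v37 1342484791 (by decide +kernel) t2_844 (good_ofj c2_769) rfl rfl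

theorem t2_846 : Good (Q 9) [v24, v38, v7, v188, v512, v34] :=
  split_of 2 3 v191 1339459463 (by decide +kernel) t2_835 t2_845 rfl rfl

theorem t2_847 : Good (Q 9) [v193, v35, v38, v188, v512, v34] :=
  split_of 3 5 v199 1322141996 (by decide +kernel) (good_ofj c2_770) (good_ofj c2_771) rfl rfl

theorem t2_848 : Good (Q 9) [v24, v35, v38, v193, v512, v34] :=
  split_of 0 4 v518 1327669518 (by decide +kernel) (good_ofj c2_772) (good_ofj c2_773) rfl rfl

theorem t2_849 : Good (Q 9) [v24, v35, v38, v188, v512, v34] :=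
  split_of 0 3 v193 1308718437 (by decide +kernel) t2_847 t2_848 rfl rfl

theorem t2_850 : Good (Q 7) [v206, v513, v38, v200, v512, v35] :=
  split_of 4 5 v545 1328466056 (by decide +kernel) (good_ofj c2_775) (good_ofj c2_776) rfl rfl

theorem t2_851 : Good (Q 8) [v206, v513, v38, v200, v512, v35] :=
  P_of 7 8 0xffffffffffffffffffffffffffffff5c9743dcf83a4e72d0b42e0b82c4b12d4b6ffffffffffffffffffffffffffffff2f4be394e6394e66418d2e0b72d4b42c4b1
    (by decide +kernel) t2_850

theorem t2_852 : Good (Q 9) [v206, v513, v38, v200, v512, v35] :=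
  P_of 8 9 0xffffffffffffffffffffffffffffff5c9723dcf73a4e92d0b42dcb82c8b22d4b5ffffffffffffffffffffffffffffff2f0bd394e5394e5fffff2e0b82d4b52c4b1
    (by decide +kernel) t2_851

theorem t2_853 : Good (Q 9) [v193, v513, v38, v200, v512, v35] :=
  split_of 0 2 v206 1323559659 (by decide +kernel) t2_852 (good_ofj c2_777) rfl rfl

theorem t2_854 : Good (Q 9) [v193, v513, v38, v188, v512, v35] :=
  split_of 2 3 v200 1320147089 (by decide +kernel) (good_ofj c2_774) t2_853 rfl rfl

theorem t2_855 : Good (Q 9) [v49, v513, v38, v193, v512, v35] :=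
  split_of 2 3 v206 1323559659 (by decide +kernel) (good_ofj c2_778) (good_ofj c2_779) rfl rfl

theorem t2_856 : Good (Q 9) [v24, v513, v38, v193, v512, v35] :=
  split_of 0 2 v49 1325472642 (by decide +kernel) t2_855 (good_ofj c2_780) rfl rfl

theorem t2_857 : Good (Q 9) [v24, v513, v38, v188, v512, v35] :=
  split_of 0 3 v193 1308718437 (by decide +kernel) t2_854 t2_856 rfl rfl

theorem t2_858 : Good (Q 7) [v28, v195, v200, v188, v513, v35] :=
  split_of 0 3 v194 1301703364 (by decide +kernel) (good_ofj c2_781) (good_ofj c2_782) rfl rfl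

theorem t2_859 : Good (Q 8) [v28, v195, v200, v188, v513, v35] :=
  P_of 7 8 0xffffffffffffffffffffffffffffff4f93d47d1e3b4ee2bcaf2dcb82c4b12c8b2ffffffffffffffffffffffffffffff32ccb33ccf358d5735cf310c32ccb42c4b1
    (by decide +kernel) t2_858

theorem t2_860 : Good (Q 9) [v28, v195, v200, v188, v513, v35] :=
  P_of 8 9 0xffffffffffffffffffffffffffffff4f93e47d1f3b4ed2bcaf2dcb72c4b12c8b2ffffffffffffffffffffffffffffff32ccb33ccf358d6fffff310c42ccb32c4b1
    (by decide +kernel) t2_859

theorem t2_861 : Good (Q 9) [v52, v195, v38, v200, v513, v35] :=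
  split_of 1 2 v208 1315851864 (by decide +kernel) (good_ofj c2_783) (good_ofj c2_784) rfl rfl

theorem t2_862 : Good (Q 9) [v28, v195, v38, v200, v513, v35] :=
  split_of 0 2 v52 1318899466 (by decide +kernel) t2_861 (good_ofj c2_785) rfl rfl

theorem t2_863 : Good (Q 9) [v28, v195, v38, v188, v513, v35] :=
  split_of 2 3 v200 1320147089 (by decide +kernel) t2_860 t2_862 rfl rfl

theorem t2_864 : Good (Q 9) [v209, v54, v208, v195, v513, v35] :=
  split_of 3 5 v210 1304706844 (by decide +kernel) (good_ofj c2_786) (good_ofj c2_787) rfl rfl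

theorem t2_865 : Good (Q 9) [v52, v54, v208, v195, v513, v35] :=
  split_of 0 3 v209 1306975409 (by decide +kernel) t2_864 (good_ofj c2_788) rfl rfl

theorem t2_866 : Good (Q 9) [v52, v54, v38, v208, v513, v55] :=
  split_of 2 4 v546 1325173766 (by decide +kernel) (good_ofj c2_790) (good_ofj c2_791) rfl rfl

theorem t2_867 : Good (Q 9) [v52, v54, v38, v208, v513, v35] :=
  split_of 2 5 v55 1325079639 (by decide +kernel) (good_ofj c2_789) t2_866 rfl rfl

theorem t2_868 : Good (Q 9) [v52, v54, v38, v195, v513, v35] :=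
  split_of 2 3 v208 1315851864 (by decide +kernel) t2_865 t2_867 rfl rfl

theorem t2_869 : Good (Q 9) [v212, v54, v209, v195, v513, v35] :=
  split_of 3 5 v210 1304706844 (by decide +kernel) (good_ofj c2_792) (good_ofj c2_793) rfl rfl

theorem t2_870 : Good (Q 9) [v212, v54, v52, v209, v513, v35] :=
  split_of 0 1 v213 1304056438 (by decide +kernel) (good_ofj c2_794) (good_ofj c2_795) rfl rfl

theorem t2_871 : Good (Q 9) [v212, v54, v52, v195, v513, v35] :=
  split_of 2 3 v209 1306975409 (by decide +kernel) t2_869 t2_870 rfl rfl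

theorem t2_872 : Good (Q 9) [v57, v54, v52, v212, v513, v35] :=
  split_of 1 3 v213 1304056438 (by decide +kernel) (good_ofj c2_796) (good_ofj c2_797) rfl rfl

theorem t2_873 : Good (Q 9) [v28, v54, v52, v212, v513, v35] :=
  split_of 0 1 v57 1305645227 (by decide +kernel) t2_872 (good_ofj c2_798) rfl rfl

theorem t2_874 : Good (Q 9) [v28, v54, v52, v195, v513, v35] :=
  split_of 0 3 v212 1296895720 (by decide +kernel) t2_871 t2_873 rfl rfl

theorem t2_875 : Good (Q 9) [v28, v54, v38, v195, v513, v35] :=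
  split_of 0 2 v52 1318899466 (by decide +kernel) t2_868 t2_874 rfl rfl

theorem t2_876 : Good (Q 8) [v212, v58, v54, v210, v513, v35] :=
  split_of 0 2 v213 1304056438 (by decide +kernel) (good_ofj c2_799) (good_ofj c2_800) rfl rfl

theorem t2_877 : Good (Q 9) [v212, v58, v54, v210, v513, v35] :=
  P_of 8 9 0xffffffffffffffffffffffffffffff50541425093f4fd2bcaf2d0b52c8b22c8b2ffffffffffffffffffffffffffffff304c0344d0358d6fffff2f0bd2e4b92e4b9
    (by decide +kernel) t2_876

theorem t2_878 : Good (Q 9) [v212, v58, v54, v195, v513, v35] :=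
  split_of 3 5 v210 1304706844 (by decide +kernel) t2_877 (good_ofj c2_801) rfl rfl

theorem t2_879 : Good (Q 8) [v57, v58, v54, v212, v513, v35] :=
  split_of 2 3 v213 1304056438 (by decide +kernel) (good_ofj c2_802) (good_ofj c2_803) rfl rfl

theorem t2_880 : Good (Q 8) [v28, v58, v54, v212, v513, v35] :=
  split_of 0 2 v57 1305645227 (by decide +kernel) t2_879 (good_ofj c2_804) rfl rfl

theorem t2_881 : Good (Q 9) [v28, v58, v54, v212, v513, v35] :=
  P_of 8 9 0xffffffffffffffffffffffffffffff50541425093f4fd2bcaf2d0b52c8b22c8b2ffffffffffffffffffffffffffffff304c0344d0358d6fffff2f0bd2e4b92e4b9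
    (by decide +kernel) t2_880

theorem t2_882 : Good (Q 9) [v28, v58, v54, v195, v513, v35] :=
  split_of 0 3 v212 1296895720 (by decide +kernel) t2_878 t2_881 rfl rfl

theorem t2_883 : Good (Q 9) [v28, v214, v54, v195, v513, v58] :=
  split_of 0 3 v212 1296895720 (by decide +kernel) (good_ofj c2_806) (good_ofj c2_807) rfl rfl

theorem t2_884 : Good (Q 9) [v28, v30, v54, v195, v513, v58] :=
  split_of 0 1 v214 1290348880 (by decide +kernel) (good_ofj c2_805) t2_883 rfl rfl

theorem t2_885 : Good (Q 9) [v28, v30, v54, v195, v513, v35] :=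
  split_of 1 5 v58 1298631825 (by decide +kernel) t2_882 t2_884 rfl rfl

theorem t2_886 : Good (Q 9) [v28, v30, v38, v195, v513, v35] :=
  split_of 1 2 v54 1309864426 (by decide +kernel) t2_875 t2_885 rfl rfl

theorem t2_887 : Good (Q 9) [v28, v30, v38, v188, v513, v35] :=
  split_of 1 3 v195 1292338752 (by decide +kernel) t2_863 t2_886 rfl rfl

theorem t2_888 : Good (Q 9) [v193, v28, v38, v188, v513, v35] :=
  split_of 2 3 v200 1320147089 (by decide +kernel) (good_ofj c2_808) (good_ofj c2_809) rfl rfl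

theorem t2_889 : Good (Q 9) [v24, v28, v38, v188, v513, v35] :=
  split_of 0 3 v193 1308718437 (by decide +kernel) t2_888 (good_ofj c2_810) rfl rfl

theorem t2_890 : Good (Q 9) [v24, v30, v38, v188, v513, v35] :=
  split_of 0 1 v28 1299835258 (by decide +kernel) t2_887 t2_889 rfl rfl

theorem t2_891 : Good (Q 9) [v24, v30, v38, v188, v512, v35] :=
  split_of 1 4 v513 1315466281 (by decide +kernel) t2_857 t2_890 rfl rfl

theorem t2_892 : Good (Q 9) [v24, v30, v38, v188, v512, v34] :=
  split_of 1 5 v35 1315109598 (by decide +kernel) t2_849 t2_891 rfl rfl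

theorem t2_893 : Good (Q 9) [v24, v30, v7, v188, v512, v34] :=
  split_of 1 2 v38 1333169107 (by decide +kernel) t2_846 t2_892 rfl rfl

theorem t2_894 : Good (Q 9) [v24, v30, v7, v188, v309, v34] :=
  split_of 2 4 v512 1337829094 (by decide +kernel) t2_831 t2_893 rfl rfl

theorem t2_895 : Good (Q 9) [v24, v30, v7, v188, v309, v21] :=
  split_of 2 5 v34 1336420407 (by decide +kernel) t2_813 t2_894 rfl rfl

theorem t2_896 : Good (Q 9) [v24, v30, v7, v183, v309, v21] :=
  split_of 1 3 v188 1299447568 (by decide +kernel) t2_802 t2_895 rfl rfl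

theorem t2_897 : Good (Q 9) [v187, v24, v7, v183, v309, v21] :=
  split_of 2 3 v189 1339712096 (by decide +kernel) (good_ofj c2_811) (good_ofj c2_812) rfl rfl

theorem t2_898 : Good (Q 9) [v19, v24, v7, v183, v309, v21] :=
  split_of 0 3 v187 1314545060 (by decide +kernel) t2_897 (good_ofj c2_813) rfl rfl

theorem t2_899 : Good (Q 9) [v19, v30, v7, v183, v309, v21] :=
  split_of 0 1 v24 1311740689 (by decide +kernel) t2_896 t2_898 rfl rfl

theorem t2_900 : Good (Q 9) [v19, v30, v7, v183, v309, v15] :=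
  split_of 1 5 v21 1288860967 (by decide +kernel) t2_798 t2_899 rfl rfl

theorem t2_901 : Good (Q 10) [v19, v30, v7, v183, v309, v15] :=
  env_E _ t2_900

theorem t2_902 : Good (Q 10) [v19, v30, v7, v183, v304, v15] :=
  split_of 1 4 v309 1293212810 (by decide +kernel) (good_ofj c2_725) t2_901 rfl rfl

theorem t2_903 : Good (Q 9) [v547, v30, v28, v188, v511, v27] :=
  split_of 1 3 v195 1292338752 (by decide +kernel) (good_ofj c2_821) (good_ofj c2_822) rfl rfl

theorem t2_904 : Good (Q 9) [v547, v30, v24, v188, v511, v27] :=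
  split_of 1 2 v28 1299835258 (by decide +kernel) (good_ofj c2_820) t2_903 rfl rfl

theorem t2_905 : Good (Q 9) [v547, v30, v24, v188, v309, v27] :=
  split_of 1 4 v511 1290828974 (by decide +kernel) (good_ofj c2_819) t2_904 rfl rfl

theorem t2_906 : Good (Q 9) [v547, v30, v24, v188, v309, v21] :=
  split_of 1 5 v27 1289558025 (by decide +kernel) (good_ofj c2_818) t2_905 rfl rfl

theorem t2_907 : Good (Q 9) [v520, v30, v24, v188, v309, v21] :=
  split_of 0 1 v547 1288936771 (by decide +kernel) t2_906 (good_ofj c2_823) rfl rfl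

theorem t2_908 : Good (Q 9) [v520, v30, v19, v188, v309, v21] :=
  split_of 1 2 v24 1311740689 (by decide +kernel) (good_ofj c2_817) t2_907 rfl rfl

theorem t2_909 : Good (Q 9) [v520, v30, v19, v183, v309, v21] :=
  split_of 1 3 v188 1299447568 (by decide +kernel) (good_ofj c2_816) t2_908 rfl rfl

theorem t2_910 : Good (Q 9) [v520, v30, v19, v183, v309, v15] :=
  split_of 1 5 v21 1288860967 (by decide +kernel) (good_ofj c2_815) t2_909 rfl rfl

theorem t2_911 : Good (Q 10) [v520, v30, v19, v183, v309, v15] :=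
  env_E _ t2_910

theorem t2_912 : Good (Q 10) [v312, v30, v19, v183, v309, v15] :=
  split_of 0 1 v520 1286065164 (by decide +kernel) t2_911 (good_ofj c2_824) rfl rfl

theorem t2_913 : Good (Q 10) [v312, v30, v19, v183, v304, v15] :=
  split_of 1 4 v309 1293212810 (by decide +kernel) (good_ofj c2_814) t2_912 rfl rfl

theorem t2_914 : Good (Q 9) [v216, v30, v24, v188, v547, v27] :=
  split_of 0 1 v217 1290080325 (by decide +kernel) (good_ofj c2_831) (good_ofj c2_832) rfl rfl

theorem t2_915 : Good (Q 9) [v216, v30, v24, v188, v547, v21] :=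
  split_of 1 5 v27 1289558025 (by decide +kernel) (good_ofj c2_830) t2_914 rfl rfl

theorem t2_916 : Good (Q 9) [v216, v30, v24, v188, v520, v21] :=
  split_of 1 4 v547 1288936771 (by decide +kernel) (good_ofj c2_829) t2_915 rfl rfl

theorem t2_917 : Good (Q 9) [v216, v30, v24, v183, v520, v21] :=
  split_of 1 3 v188 1299447568 (by decide +kernel) (good_ofj c2_828) t2_916 rfl rfl

theorem t2_918 : Good (Q 9) [v216, v30, v19, v183, v520, v21] :=
  split_of 1 2 v24 1311740689 (by decide +kernel) (good_ofj c2_827) t2_917 rfl rfl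

theorem t2_919 : Good (Q 9) [v215, v30, v19, v183, v520, v21] :=
  split_of 0 1 v216 1290859204 (by decide +kernel) t2_918 (good_ofj c2_833) rfl rfl

theorem t2_920 : Good (Q 10) [v215, v30, v19, v183, v520, v21] :=
  env_E _ t2_919

theorem t2_921 : Good (Q 10) [v215, v30, v19, v183, v520, v15] :=
  split_of 1 5 v21 1288860967 (by decide +kernel) (good_ofj c2_826) t2_920 rfl rfl

theorem t2_922 : Good (Q 10) [v215, v30, v19, v183, v312, v15] :=
  split_of 1 4 v520 1286065164 (by decide +kernel) (good_ofj c2_825) t2_921 rfl rfl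

theorem t2_923 : Good (Q 10) [v0, v30, v19, v183, v312, v15] :=
  split_of 0 3 v215 1263878641 (by decide +kernel) t2_922 (good_ofj c2_834) rfl rfl

theorem t2_924 : Good (Q 10) [v0, v30, v19, v183, v304, v15] :=
  split_of 0 4 v312 1241799870 (by decide +kernel) t2_913 t2_923 rfl rfl

theorem t2_925 : Good (Q 10) [v0, v30, v7, v183, v304, v15] :=
  split_of 0 2 v19 1309159440 (by decide +kernel) t2_902 t2_924 rfl rfl

theorem t2_926 : Good (Q 10) [v0, v30, v7, v183, v304, v5] :=
  split_of 1 5 v15 1256264730 (by decide +kernel) t2_796 t2_925 rfl rfl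

theorem t2_927 : Good (Q 10) [v0, v30, v7, v178, v304, v5] :=
  split_of 1 3 v183 1295857916 (by decide +kernel) t2_792 t2_926 rfl rfl

theorem t2_928 : Good (Q 10) [v0, v30, v7, v178, v306, v5] :=
  split_of 1 4 v304 1268403305 (by decide +kernel) t2_789 t2_927 rfl rfl

theorem t2_929 : Good (Q 10) [v521, v304, v7, v180, v507, v0] :=
  split_of 4 5 v508 1262363198 (by decide +kernel) (good_ofj c2_836) (good_ofj c2_837) rfl rfl

theorem t2_930 : Good (Q 10) [v313, v304, v7, v180, v507, v0] :=
  split_of 0 2 v521 1312910633 (by decide +kernel) t2_929 (good_ofj c2_838) rfl rfl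

theorem t2_931 : Good (Q 10) [v313, v304, v7, v178, v507, v0] :=
  split_of 3 5 v180 1241799870 (by decide +kernel) t2_930 (good_ofj c2_839) rfl rfl

theorem t2_932 : Good (Q 10) [v313, v304, v7, v178, v306, v0] :=
  split_of 2 4 v507 1293935275 (by decide +kernel) (good_ofj c2_835) t2_931 rfl rfl

theorem t2_933 : Good (Q 10) [v521, v30, v19, v180, v304, v0] :=
  split_of 4 5 v312 1241799870 (by decide +kernel) (good_ofj c2_840) (good_ofj c2_841) rfl rfl

theorem t2_934 : Good (Q 9) [v524, v30, v225, v223, v511, v28] :=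
  split_of 1 3 v227 1288948140 (by decide +kernel) (good_ofj c2_849) (good_ofj c2_850) rfl rfl

theorem t2_935 : Good (Q 9) [v523, v30, v225, v223, v511, v28] :=
  split_of 0 1 v524 1300163123 (by decide +kernel) t2_934 (good_ofj c2_851) rfl rfl

theorem t2_936 : Good (Q 9) [v523, v30, v225, v223, v511, v24] :=
  split_of 1 5 v28 1299835258 (by decide +kernel) (good_ofj c2_848) t2_935 rfl rfl

theorem t2_937 : Good (Q 9) [v523, v30, v225, v223, v309, v24] :=
  split_of 1 4 v511 1290828974 (by decide +kernel) (good_ofj c2_847) t2_936 rfl rfl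

theorem t2_938 : Good (Q 9) [v523, v30, v224, v223, v309, v24] :=
  split_of 1 2 v225 1317674863 (by decide +kernel) (good_ofj c2_846) t2_937 rfl rfl

theorem t2_939 : Good (Q 9) [v523, v30, v224, v221, v309, v24] :=
  split_of 1 3 v223 1294506655 (by decide +kernel) (good_ofj c2_845) t2_938 rfl rfl

theorem t2_940 : Good (Q 6) [v524, v228, v513, v225, v511, v28] :=
  split_of 3 4 v548 1305428193 (by decide +kernel) (good_ofj c2_856) (good_ofj c2_857) rfl rfl

theorem t2_941 : Good (Q 7) [v524, v228, v513, v225, v511, v28] :=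
  P_of 6 7 0xffffffffffffffffffffffffffffff5053e449153d4f52b4ae2e4ba2c0af2c4b190241ffffffffffffffffffff8360931cc933cce360d6725cc2f4be2dcb82d0b2
    (by decide +kernel) t2_940

theorem t2_942 : Good (Q 8) [v524, v228, v513, v225, v511, v28] :=
  P_of 7 8 0xffffffffffffffffffffffffffffff50541449123d4f52b4ad2e4b92c4b02c4b1ffffffffffffffffffffffffffffff31cc7338cf360d8725c92f4bd2dcb72d0b4
    (by decide +kernel) t2_941

theorem t2_943 : Good (Q 9) [v524, v228, v513, v225, v511, v28] :=
  P_of 8 9 0xffffffffffffffffffffffffffffff50541445113d8f52b4ad2e0b92c4b12c4b1ffffffffffffffffffffffffffffff318c7338ce360d8fffff2f4bd2dcb72d4b4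
    (by decide +kernel) t2_942

theorem t2_944 : Good (Q 9) [v524, v30, v513, v225, v511, v28] :=
  split_of 1 3 v228 1300359111 (by decide +kernel) t2_943 (good_ofj c2_858) rfl rfl

theorem t2_945 : Good (Q 9) [v523, v30, v513, v225, v511, v28] :=
  split_of 0 1 v524 1300163123 (by decide +kernel) t2_944 (good_ofj c2_859) rfl rfl

theorem t2_946 : Good (Q 9) [v523, v30, v513, v225, v511, v24] :=
  split_of 1 5 v28 1299835258 (by decide +kernel) (good_ofj c2_855) t2_945 rfl rfl

theorem t2_947 : Good (Q 9) [v523, v30, v512, v225, v511, v24] :=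
  split_of 1 2 v513 1315466281 (by decide +kernel) (good_ofj c2_854) t2_946 rfl rfl

theorem t2_948 : Good (Q 9) [v523, v30, v512, v225, v309, v24] :=
  split_of 1 4 v511 1290828974 (by decide +kernel) (good_ofj c2_853) t2_947 rfl rfl

theorem t2_949 : Good (Q 9) [v523, v30, v512, v224, v309, v24] :=
  split_of 1 3 v225 1317674863 (by decide +kernel) (good_ofj c2_852) t2_948 rfl rfl

theorem t2_950 : Good (Q 9) [v527, v43, v7, v231, v515, v42] :=
  split_of 2 3 v233 1351945589 (by decide +kernel) (good_ofj c2_864) (good_ofj c2_865) rfl rfl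

theorem t2_951 : Good (Q 9) [v526, v43, v7, v231, v515, v42] :=
  split_of 0 2 v527 1350320645 (by decide +kernel) t2_950 (good_ofj c2_866) rfl rfl

theorem t2_952 : Good (Q 9) [v526, v43, v7, v231, v515, v37] :=
  split_of 2 5 v42 1350220494 (by decide +kernel) (good_ofj c2_863) t2_951 rfl rfl

theorem t2_953 : Good (Q 9) [v526, v38, v43, v234, v515, v37] :=
  split_of 1 4 v517 1343112045 (by decide +kernel) (good_ofj c2_868) (good_ofj c2_869) rfl rfl

theorem t2_954 : Good (Q 9) [v526, v38, v43, v231, v515, v37] :=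
  split_of 1 3 v234 1343753970 (by decide +kernel) (good_ofj c2_867) t2_953 rfl rfl

theorem t2_955 : Good (Q 9) [v526, v38, v7, v231, v515, v37] :=
  split_of 1 2 v43 1347746544 (by decide +kernel) t2_952 t2_954 rfl rfl

theorem t2_956 : Good (Q 9) [v526, v38, v7, v231, v512, v37] :=
  split_of 2 4 v515 1349038282 (by decide +kernel) (good_ofj c2_862) t2_955 rfl rfl

theorem t2_957 : Good (Q 9) [v526, v38, v7, v224, v512, v37] :=
  split_of 2 3 v231 1349273507 (by decide +kernel) (good_ofj c2_861) t2_956 rfl rfl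

theorem t2_958 : Good (Q 9) [v523, v38, v7, v224, v512, v37] :=
  split_of 0 2 v526 1342848033 (by decide +kernel) t2_957 (good_ofj c2_870) rfl rfl

theorem t2_959 : Good (Q 9) [v523, v38, v7, v224, v512, v24] :=
  split_of 2 5 v37 1342484791 (by decide +kernel) (good_ofj c2_860) t2_958 rfl rfl

theorem t2_960 : Good (Q 9) [v523, v225, v38, v224, v512, v24] :=
  split_of 4 5 v518 1327669518 (by decide +kernel) (good_ofj c2_871) (good_ofj c2_872) rfl rfl

theorem t2_961 : Good (Q 7) [v529, v513, v38, v225, v512, v549] :=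
  split_of 3 4 v550 1329491445 (by decide +kernel) (good_ofj c2_875) (good_ofj c2_876) rfl rfl

theorem t2_962 : Good (Q 7) [v529, v513, v38, v225, v512, v518] :=
  split_of 2 5 v549 1331792252 (by decide +kernel) (good_ofj c2_874) t2_961 rfl rfl

theorem t2_963 : Good (Q 8) [v529, v513, v38, v225, v512, v518] :=
  P_of 7 8 0xffffffffffffffffffffffffffffff5d1753d4f73a4e82d0b32e0b92c8b22d4b5ffffffffffffffffffffffffffffff2f0bd394e539ce76358d2dcb72d4b52c4b0
    (by decide +kernel) t2_962

theorem t2_964 : Good (Q 9) [v529, v513, v38, v225, v512, v518] :=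
  P_of 8 9 0xfffffffffffffffffffffffffffffffffff3d8f73a8e92ccb32e0b92c8b22d0b4ffffffffffffffffffffffffffffff2f0bd390e339ce7fffff2dcb72d4b52c8b1
    (by decide +kernel) t2_963

theorem t2_965 : Good (Q 9) [v523, v513, v38, v225, v512, v518] :=
  split_of 0 2 v529 1325816608 (by decide +kernel) t2_964 (good_ofj c2_877) rfl rfl

theorem t2_966 : Good (Q 9) [v523, v513, v38, v225, v512, v24] :=
  split_of 4 5 v518 1327669518 (by decide +kernel) (good_ofj c2_873) t2_965 rfl rfl

theorem t2_967 : Good (Q 9) [v535, v54, v38, v225, v513, v52] :=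
  split_of 2 3 v238 1326332669 (by decide +kernel) (good_ofj c2_880) (good_ofj c2_881) rfl rfl

theorem t2_968 : Good (Q 9) [v524, v54, v38, v225, v513, v52] :=
  split_of 0 2 v535 1318989953 (by decide +kernel) t2_967 (good_ofj c2_882) rfl rfl

theorem t2_969 : Good (Q 9) [v524, v54, v38, v225, v513, v28] :=
  split_of 2 5 v52 1318899466 (by decide +kernel) (good_ofj c2_879) t2_968 rfl rfl

theorem t2_970 : Good (Q 7) [v524, v228, v54, v225, v513, v57] :=
  split_of 0 2 v551 1305733867 (by decide +kernel) (good_ofj c2_884) (good_ofj c2_885) rfl rfl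

theorem t2_971 : Good (Q 7) [v524, v228, v54, v225, v513, v28] :=
  split_of 2 5 v57 1305645227 (by decide +kernel) (good_ofj c2_883) t2_970 rfl rfl

theorem t2_972 : Good (Q 8) [v524, v228, v54, v225, v513, v28] :=
  P_of 7 8 0xffffffffffffffffffffffffffffff51145419063f4fd2bcae2d4b62c8b22c4b1ffffffffffffffffffffffffffffff2fcbf344d0360d9715c42ecbb2e8ba2e4b8
    (by decide +kernel) t2_971

theorem t2_973 : Good (Q 9) [v524, v228, v54, v225, v513, v28] :=
  P_of 8 9 0xffffffffffffffffffffffffffffff5114441d073f4fd2bcaf2d4b52c8b22c4b1ffffffffffffffffffffffffffffff2fcbf344d1360d8fffff2f0bc2e8ba2e0b9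
    (by decide +kernel) t2_972

theorem t2_974 : Good (Q 9) [v524, v30, v54, v225, v513, v28] :=
  split_of 1 3 v228 1300359111 (by decide +kernel) t2_973 (good_ofj c2_886) rfl rfl

theorem t2_975 : Good (Q 9) [v524, v30, v38, v225, v513, v28] :=
  split_of 1 2 v54 1309864426 (by decide +kernel) t2_969 t2_974 rfl rfl

theorem t2_976 : Good (Q 9) [v523, v30, v38, v225, v513, v28] :=
  split_of 0 1 v524 1300163123 (by decide +kernel) t2_975 (good_ofj c2_887) rfl rfl

theorem t2_977 : Good (Q 9) [v523, v30, v38, v225, v513, v24] :=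
  split_of 1 5 v28 1299835258 (by decide +kernel) (good_ofj c2_878) t2_976 rfl rfl

theorem t2_978 : Good (Q 9) [v523, v30, v38, v225, v512, v24] :=
  split_of 1 4 v513 1315466281 (by decide +kernel) t2_966 t2_977 rfl rfl

theorem t2_979 : Good (Q 9) [v523, v30, v38, v224, v512, v24] :=
  split_of 1 3 v225 1317674863 (by decide +kernel) t2_960 t2_978 rfl rfl

theorem t2_980 : Good (Q 9) [v523, v30, v7, v224, v512, v24] :=
  split_of 1 2 v38 1333169107 (by decide +kernel) t2_959 t2_979 rfl rfl

theorem t2_981 : Good (Q 9) [v523, v30, v7, v224, v309, v24] :=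
  split_of 2 4 v512 1337829094 (by decide +kernel) t2_949 t2_980 rfl rfl

theorem t2_982 : Good (Q 9) [v523, v30, v7, v221, v309, v24] :=
  split_of 2 3 v224 1338391739 (by decide +kernel) t2_939 t2_981 rfl rfl

theorem t2_983 : Good (Q 9) [v521, v30, v7, v221, v309, v24] :=
  split_of 0 1 v523 1312910633 (by decide +kernel) t2_982 (good_ofj c2_888) rfl rfl

theorem t2_984 : Good (Q 9) [v521, v30, v7, v221, v309, v19] :=
  split_of 1 5 v24 1311740689 (by decide +kernel) (good_ofj c2_844) t2_983 rfl rfl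

theorem t2_985 : Good (Q 9) [v521, v30, v7, v221, v304, v19] :=
  split_of 1 4 v309 1293212810 (by decide +kernel) (good_ofj c2_843) t2_984 rfl rfl

theorem t2_986 : Good (Q 10) [v521, v30, v7, v221, v304, v19] :=
  env_E _ t2_985

theorem t2_987 : Good (Q 10) [v521, v30, v7, v180, v304, v19] :=
  split_of 1 3 v221 1292248265 (by decide +kernel) (good_ofj c2_842) t2_986 rfl rfl

theorem t2_988 : Good (Q 10) [v521, v30, v7, v180, v304, v0] :=
  split_of 2 5 v19 1309159440 (by decide +kernel) t2_933 t2_987 rfl rfl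

theorem t2_989 : Good (Q 10) [v313, v30, v521, v180, v304, v0] :=
  split_of 4 5 v312 1241799870 (by decide +kernel) (good_ofj c2_889) (good_ofj c2_890) rfl rfl

theorem t2_990 : Good (Q 10) [v313, v30, v7, v180, v304, v0] :=
  split_of 0 2 v521 1312910633 (by decide +kernel) t2_988 t2_989 rfl rfl

theorem t2_991 : Good (Q 10) [v313, v183, v7, v178, v304, v180] :=
  split_of 0 3 v552 1241799870 (by decide +kernel) (good_ofj c2_891) (good_ofj c2_892) rfl rfl

theorem t2_992 : Good (Q 9) [v522, v188, v7, v189, v309, v224] :=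
  split_of 2 4 v512 1337829094 (by decide +kernel) (good_ofj c2_897) (good_ofj c2_898) rfl rfl

theorem t2_993 : Good (Q 9) [v522, v188, v7, v189, v309, v221] :=
  split_of 2 5 v224 1338391739 (by decide +kernel) (good_ofj c2_896) t2_992 rfl rfl

theorem t2_994 : Good (Q 9) [v521, v188, v7, v189, v309, v221] :=
  split_of 0 2 v522 1343518117 (by decide +kernel) t2_993 (good_ofj c2_899) rfl rfl

theorem t2_995 : Good (Q 9) [v521, v188, v7, v183, v309, v221] :=
  split_of 2 3 v189 1339712096 (by decide +kernel) (good_ofj c2_895) t2_994 rfl rfl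

theorem t2_996 : Good (Q 7) [v524, v195, v225, v188, v511, v223] :=
  split_of 0 3 v553 1301777680 (by decide +kernel) (good_ofj c2_903) (good_ofj c2_904) rfl rfl

theorem t2_997 : Good (Q 8) [v524, v195, v225, v188, v511, v223] :=
  P_of 7 8 0xffffffffffffffffffffffffffffff4dd38491243b8ed2bcaf2e8b72c0b32c0b0ffffffffffffffffffffffffffffff338cc32ccb354d575dd6314c72d4b32bcb1
    (by decide +kernel) t2_996

theorem t2_998 : Good (Q 9) [v524, v195, v225, v188, v511, v223] :=
  P_of 8 9 0xffffffffffffffffffffffffffffff4d937491243b8ee2bcaf2dcba2ccb02c0b0ffffffffffffffffffffffffffffff32cce32ccb354d5fffff31cc52ccb52c4af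
    (by decide +kernel) t2_997

theorem t2_999 : Good (Q 7) [v524, v228, v225, v195, v511, v227] :=
  split_of 2 4 v548 1305428193 (by decide +kernel) (good_ofj c2_906) (good_ofj c2_907) rfl rfl

theorem t2_1000 : Good (Q 8) [v524, v228, v225, v195, v511, v227] :=
  P_of 7 8 0xffffffffffffffffffffffffffffff4dd374751f3d0f22b8ae2d8b82c4b12c4b1ffffffffffffffffffffffffffffff324cb330cc34cd475dd630cc32d4b52d0b3
    (by decide +kernel) t2_999

theorem t2_1001 : Good (Q 9) [v524, v228, v225, v195, v511, v227] :=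
  P_of 8 9 0xffffffffffffffffffffffffffffff4dd374791e3ccf32b4ad2dcb72ccb32c4b1ffffffffffffffffffffffffffffff328ca32ccb354d5fffff310c42d0b42d0b4
    (by decide +kernel) t2_1000

theorem t2_1002 : Good (Q 9) [v524, v30, v225, v195, v511, v227] :=
  split_of 1 2 v228 1300359111 (by decide +kernel) t2_1001 (good_ofj c2_908) rfl rfl

theorem t2_1003 : Good (Q 9) [v524, v30, v225, v195, v511, v223] :=
  split_of 1 5 v227 1288948140 (by decide +kernel) (good_ofj c2_905) t2_1002 rfl rfl

theorem t2_1004 : Good (Q 9) [v524, v30, v225, v188, v511, v223] :=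
  split_of 1 3 v195 1292338752 (by decide +kernel) t2_998 t2_1003 rfl rfl

theorem t2_1005 : Good (Q 9) [v523, v30, v225, v188, v511, v223] :=
  split_of 0 1 v524 1300163123 (by decide +kernel) t2_1004 (good_ofj c2_909) rfl rfl

theorem t2_1006 : Good (Q 9) [v523, v30, v225, v188, v309, v223] :=
  split_of 1 4 v511 1290828974 (by decide +kernel) (good_ofj c2_902) t2_1005 rfl rfl

theorem t2_1007 : Good (Q 9) [v523, v30, v224, v188, v309, v223] :=
  split_of 1 2 v225 1317674863 (by decide +kernel) (good_ofj c2_901) t2_1006 rfl rfl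

theorem t2_1008 : Good (Q 9) [v523, v30, v224, v188, v309, v221] :=
  split_of 1 5 v223 1294506655 (by decide +kernel) (good_ofj c2_900) t2_1007 rfl rfl

theorem t2_1009 : Good (Q 7) [v523, v513, v512, v188, v511, v225] :=
  split_of 0 3 v554 1308997773 (by decide +kernel) (good_ofj c2_912) (good_ofj c2_913) rfl rfl

theorem t2_1010 : Good (Q 8) [v523, v513, v512, v188, v511, v225] :=
  P_of 7 8 0xffffffffffffffffffffffffffffff55d5746118384e12ccb32fcbf2b0ac2ccb3ffffffffffffffffffffffffffffff338ce36cdb378de6c1b02fcbf2d0b429ca7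
    (by decide +kernel) t2_1009

theorem t2_1011 : Good (Q 9) [v523, v513, v512, v188, v511, v225] :=
  P_of 8 9 0xffffffffffffffffffffffffffffff55d5746118384e12ccb32fcbf2b0ac2ccb3ffffffffffffffffffffffffffffff338ce36cdb378defffff2fcbf2d0b429ca7
    (by decide +kernel) t2_1010

theorem t2_1012 : Good (Q 7) [v524, v195, v513, v188, v511, v225] :=
  split_of 0 3 v553 1301777680 (by decide +kernel) (good_ofj c2_914) (good_ofj c2_915) rfl rfl

theorem t2_1013 : Good (Q 8) [v524, v195, v513, v188, v511, v225] :=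
  P_of 7 8 0xffffffffffffffffffffffffffffff4e53c4851f3b8ee2c4b12d8b82c0b02c4b0ffffffffffffffffffffffffffffff32ccb338cf34cd5751d0318c52d4b52c0af
    (by decide +kernel) t2_1012

theorem t2_1014 : Good (Q 9) [v524, v195, v513, v188, v511, v225] :=
  P_of 8 9 0xffffffffffffffffffffffffffffff4d53748d223bcef2c0b02dcb72c4b12c0b0ffffffffffffffffffffffffffffff32ccb330cc34cd4fffff31cc62d4b52c4b0
    (by decide +kernel) t2_1013

theorem t2_1015 : Good (Q 7) [v524, v228, v513, v195, v511, v548] :=
  split_of 0 4 v555 1296197165 (by decide +kernel) (good_ofj c2_917) (good_ofj c2_918) rfl rfl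

theorem t2_1016 : Good (Q 7) [v524, v228, v513, v195, v511, v225] :=
  split_of 4 5 v548 1305428193 (by decide +kernel) (good_ofj c2_916) t2_1015 rfl rfl

theorem t2_1017 : Good (Q 8) [v524, v228, v513, v195, v511, v225] :=
  P_of 7 8 0xffffffffffffffffffffffffffffff4dd3a4791b3ccf32c0b02d4b62c4b02c4b1ffffffffffffffffffffffffffffff324c9338ce348d3759d3310c32d4b62ccb3
    (by decide +kernel) t2_1016

theorem t2_1018 : Good (Q 9) [v524, v228, v513, v195, v511, v225] :=
  P_of 8 9 0xffffffffffffffffffffffffffffff4e1374691e3d4f32bcb02d8b52c4b12c4b1ffffffffffffffffffffffffffffff320c9338ce34cd2fffff308c42d8b52d0b3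
    (by decide +kernel) t2_1017

theorem t2_1019 : Good (Q 9) [v524, v30, v513, v195, v511, v225] :=
  split_of 1 5 v228 1300359111 (by decide +kernel) t2_1018 (good_ofj c2_919) rfl rfl

theorem t2_1020 : Good (Q 9) [v524, v30, v513, v188, v511, v225] :=
  split_of 1 3 v195 1292338752 (by decide +kernel) t2_1014 t2_1019 rfl rfl

theorem t2_1021 : Good (Q 8) [v523, v524, v513, v188, v511, v225] :=
  P_of 7 8 0xffffffffffffffffffffffffffffff5214a4791e39ce52bcb02f8bd2c4af2bcb1ffffffffffffffffffffffffffffff334ce340d2374dc709bf30cc32d0b32acaa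
    (by decide +kernel) (good_ofj c2_920)

theorem t2_1022 : Good (Q 9) [v523, v524, v513, v188, v511, v225] :=
  P_of 8 9 0xffffffffffffffffffffffffffffff521484711c3a0e82c0b02f8be2b8ae2c0b0ffffffffffffffffffffffffffffff338ce344d136cdbfffff304c12d8b62acab
    (by decide +kernel) t2_1021

theorem t2_1023 : Good (Q 9) [v523, v30, v513, v188, v511, v225] :=
  split_of 0 1 v524 1300163123 (by decide +kernel) t2_1020 t2_1022 rfl rfl

theorem t2_1024 : Good (Q 9) [v523, v30, v512, v188, v511, v225] :=
  split_of 1 2 v513 1315466281 (by decide +kernel) t2_1011 t2_1023 rfl rfl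

theorem t2_1025 : Good (Q 9) [v523, v30, v512, v188, v511, v224] :=
  split_of 1 5 v225 1317674863 (by decide +kernel) (good_ofj c2_911) t2_1024 rfl rfl

theorem t2_1026 : Good (Q 9) [v523, v30, v512, v188, v309, v224] :=
  split_of 1 4 v511 1290828974 (by decide +kernel) (good_ofj c2_910) t2_1025 rfl rfl

theorem t2_1027 : Good (Q 7) [v529, v38, v191, v200, v512, v244] :=
  split_of 1 4 v556 1336705906 (by decide +kernel) (good_ofj c2_923) (good_ofj c2_924) rfl rfl

theorem t2_1028 : Good (Q 8) [v529, v38, v191, v200, v512, v244] :=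
  P_of 7 8 0xffffffffffffffffffffffffffffff5f17a3d8f638ce42d4b52e0b82d0b32d4b5ffffffffffffffffffffffffffffff2f0bc3a0e73a8e9615872e4b92c8b32c0b0
    (by decide +kernel) t2_1027

theorem t2_1029 : Good (Q 9) [v529, v38, v191, v200, v512, v244] :=
  P_of 8 9 0xfffffffffffffffffffffffffffffffffff3d0f6394e32d4b52d8b82d0b42d4b5ffffffffffffffffffffffffffffff2e8bc3a0e83a4eafffff2e4b92ccb22c4b0
    (by decide +kernel) t2_1028

theorem t2_1030 : Good (Q 9) [v529, v38, v191, v200, v512, v224] :=
  split_of 1 5 v244 1337980351 (by decide +kernel) (good_ofj c2_922) t2_1029 rfl rfl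

theorem t2_1031 : Good (Q 9) [v523, v38, v191, v200, v512, v224] :=
  split_of 0 1 v529 1325816608 (by decide +kernel) t2_1030 (good_ofj c2_925) rfl rfl

theorem t2_1032 : Good (Q 9) [v523, v38, v191, v188, v512, v224] :=
  split_of 1 3 v200 1320147089 (by decide +kernel) (good_ofj c2_921) t2_1031 rfl rfl

theorem t2_1033 : Good (Q 9) [v527, v43, v7, v203, v515, v231] :=
  split_of 2 5 v233 1351945589 (by decide +kernel) (good_ofj c2_929) (good_ofj c2_930) rfl rfl

theorem t2_1034 : Good (Q 9) [v526, v43, v7, v203, v515, v231] :=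
  split_of 0 2 v527 1350320645 (by decide +kernel) t2_1033 (good_ofj c2_931) rfl rfl

theorem t2_1035 : Good (Q 9) [v526, v43, v7, v191, v515, v231] :=
  split_of 2 3 v203 1349460245 (by decide +kernel) (good_ofj c2_928) t2_1034 rfl rfl

theorem t2_1036 : Good (Q 9) [v526, v38, v43, v191, v515, v234] :=
  split_of 1 4 v517 1343112045 (by decide +kernel) (good_ofj c2_933) (good_ofj c2_934) rfl rfl

theorem t2_1037 : Good (Q 9) [v526, v38, v43, v191, v515, v231] :=
  split_of 1 5 v234 1343753970 (by decide +kernel) (good_ofj c2_932) t2_1036 rfl rfl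

theorem t2_1038 : Good (Q 9) [v526, v38, v7, v191, v515, v231] :=
  split_of 1 2 v43 1347746544 (by decide +kernel) t2_1035 t2_1037 rfl rfl

theorem t2_1039 : Good (Q 9) [v526, v38, v7, v191, v512, v231] :=
  split_of 2 4 v515 1349038282 (by decide +kernel) (good_ofj c2_927) t2_1038 rfl rfl

theorem t2_1040 : Good (Q 9) [v526, v38, v7, v191, v512, v224] :=
  split_of 2 5 v231 1349273507 (by decide +kernel) (good_ofj c2_926) t2_1039 rfl rfl

theorem t2_1041 : Good (Q 9) [v523, v38, v7, v191, v512, v224] :=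
  split_of 0 2 v526 1342848033 (by decide +kernel) t2_1040 (good_ofj c2_935) rfl rfl

theorem t2_1042 : Good (Q 9) [v523, v38, v7, v188, v512, v224] :=
  split_of 2 3 v191 1339459463 (by decide +kernel) t2_1032 t2_1041 rfl rfl

theorem t2_1043 : Good (Q 7) [v529, v225, v38, v200, v512, v244] :=
  split_of 1 4 v550 1329491445 (by decide +kernel) (good_ofj c2_938) (good_ofj c2_939) rfl rfl

theorem t2_1044 : Good (Q 8) [v529, v225, v38, v200, v512, v244] :=
  P_of 7 8 0xffffffffffffffffffffffffffffff5dd783d8f7398e52ccb32e0b92ccb32d4b5ffffffffffffffffffffffffffffff2f0bd394e63a4e96298a2e0b82ccb32c4b0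
    (by decide +kernel) t2_1043

theorem t2_1045 : Good (Q 9) [v529, v225, v38, v200, v512, v244] :=
  P_of 8 9 0xfffffffffffffffffffffffffffffffffff3d8f639ce62ccb32e0b82d0b32d4b5ffffffffffffffffffffffffffffff2f0bc394e53a0e9fffff2e0b82ccb32c4b1
    (by decide +kernel) t2_1044

theorem t2_1046 : Good (Q 9) [v529, v225, v38, v200, v512, v224] :=
  split_of 2 5 v244 1337980351 (by decide +kernel) (good_ofj c2_937) t2_1045 rfl rfl

theorem t2_1047 : Good (Q 9) [v529, v225, v38, v188, v512, v224] :=
  split_of 2 3 v200 1320147089 (by decide +kernel) (good_ofj c2_936) t2_1046 rfl rfl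

theorem t2_1048 : Good (Q 9) [v523, v225, v38, v188, v512, v224] :=
  split_of 0 2 v529 1325816608 (by decide +kernel) t2_1047 (good_ofj c2_940) rfl rfl

theorem t2_1049 : Good (Q 7) [v529, v513, v38, v200, v512, v225] :=
  split_of 4 5 v550 1329491445 (by decide +kernel) (good_ofj c2_942) (good_ofj c2_943) rfl rfl

theorem t2_1050 : Good (Q 8) [v529, v513, v38, v200, v512, v225] :=
  P_of 7 8 0xffffffffffffffffffffffffffffff5d1753dcf73a0e72d0b42e0b92c8b22d4b5ffffffffffffffffffffffffffffff2f0bd394e5398e76398d2e0b82d4b52c4b0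
    (by decide +kernel) t2_1049

theorem t2_1051 : Good (Q 9) [v529, v513, v38, v200, v512, v225] :=
  P_of 8 9 0xffffffffffffffffffffffffffffff5cd743d8f73a4e82d4b42dcb82c8b22d0b5ffffffffffffffffffffffffffffff2ecbc394e6398e6fffff2e0b82d4b52c4b1
    (by decide +kernel) t2_1050

theorem t2_1052 : Good (Q 9) [v529, v513, v38, v188, v512, v225] :=
  split_of 2 3 v200 1320147089 (by decide +kernel) (good_ofj c2_941) t2_1051 rfl rfl

theorem t2_1053 : Good (Q 9) [v523, v513, v38, v188, v512, v225] :=
  split_of 0 2 v529 1325816608 (by decide +kernel) t2_1052 (good_ofj c2_944) rfl rfl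

theorem t2_1054 : Good (Q 7) [v524, v195, v200, v188, v513, v225] :=
  split_of 0 3 v553 1301777680 (by decide +kernel) (good_ofj c2_945) (good_ofj c2_946) rfl rfl

theorem t2_1055 : Good (Q 8) [v524, v195, v200, v188, v513, v225] :=
  P_of 7 8 0xffffffffffffffffffffffffffffff4f93d47d1f3b0ee2c4b02dcb82c4b12c0b0ffffffffffffffffffffffffffffff328ca33ccf358d6739cf314c52d0b52bcb0
    (by decide +kernel) t2_1054

theorem t2_1056 : Good (Q 9) [v524, v195, v200, v188, v513, v225] :=
  P_of 8 9 0xffffffffffffffffffffffffffffff4f93e47d1f3b0ec2c4b12dcb72c4b12c0b0ffffffffffffffffffffffffffffff328ca33ccf358d6fffff314c52d0b42bcaf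
    (by decide +kernel) t2_1055

theorem t2_1057 : Good (Q 9) [v524, v195, v38, v200, v513, v225] :=
  split_of 1 2 v208 1315851864 (by decide +kernel) (good_ofj c2_947) (good_ofj c2_948) rfl rfl

theorem t2_1058 : Good (Q 9) [v524, v195, v38, v188, v513, v225] :=
  split_of 2 3 v200 1320147089 (by decide +kernel) t2_1056 t2_1057 rfl rfl

theorem t2_1059 : Good (Q 7) [v551, v245, v208, v195, v513, v225] :=
  split_of 3 5 v246 1305996946 (by decide +kernel) (good_ofj c2_949) (good_ofj c2_950) rfl rfl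

theorem t2_1060 : Good (Q 8) [v551, v245, v208, v195, v513, v225] :=
  P_of 7 8 0xffffffffffffffffffffffffffffff4f93e45d183ccf32c0b02d4b52c8b22c0b0ffffffffffffffffffffffffffffff314c633ccf358d6731cd30cc32d8b52ccb3
    (by decide +kernel) t2_1059

theorem t2_1061 : Good (Q 9) [v551, v245, v208, v195, v513, v225] :=
  P_of 8 9 0xffffffffffffffffffffffffffffff4f13c461183d0f42c0b02d4b52c8b22c0b0ffffffffffffffffffffffffffffff314c5338ce354d5fffff30cc32d8b62d0b4
    (by decide +kernel) t2_1060

theorem t2_1062 : Good (Q 6) [v551, v54, v208, v245, v513, v247] :=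
  split_of 1 4 v557 1312980490 (by decide +kernel) (good_ofj c2_952) (good_ofj c2_953) rfl rfl

theorem t2_1063 : Good (Q 7) [v551, v54, v208, v245, v513, v247] :=
  P_of 6 7 0xffffffffffffffffffffffffffffff50543425093f4fb2c4b22ccb32c8b12c4b18c634ffffffffffffffffffff86e1b2fcbf344d3354d4721c62f8be2e4b92e0b8
    (by decide +kernel) t2_1062

theorem t2_1064 : Good (Q 7) [v551, v54, v208, v245, v513, v225] :=
  split_of 1 5 v247 1314382438 (by decide +kernel) (good_ofj c2_951) t2_1063 rfl rfl

theorem t2_1065 : Good (Q 8) [v551, v54, v208, v245, v513, v225] :=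
  P_of 7 8 0xffffffffffffffffffffffffffffff51546429093e4f92c0b02d0b32c8b22c8b2ffffffffffffffffffffffffffffff300bf34cd3358d6711c22f8bd2e0b82dcb8
    (by decide +kernel) t2_1064

theorem t2_1066 : Good (Q 9) [v551, v54, v208, v245, v513, v225] :=
  P_of 8 9 0xffffffffffffffffffffffffffffff511454290a3e8f92c4b02d0b42c8b22c4b2ffffffffffffffffffffffffffffff300c0348d3358d6fffff2f8be2e0b82e0b7
    (by decide +kernel) t2_1065

theorem t2_1067 : Good (Q 9) [v551, v54, v208, v195, v513, v225] :=
  split_of 1 3 v245 1302071143 (by decide +kernel) t2_1061 t2_1066 rfl rfl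

theorem t2_1068 : Good (Q 7) [v524, v551, v208, v195, v513, v225] :=
  split_of 0 2 v558 1308756118 (by decide +kernel) (good_ofj c2_954) (good_ofj c2_955) rfl rfl

theorem t2_1069 : Good (Q 8) [v524, v551, v208, v195, v513, v225] :=
  P_of 7 8 0xffffffffffffffffffffffffffffff4e93e471183ccf32c0b02d4b52c8b22c0b0ffffffffffffffffffffffffffffff31cc6334cf350d5749cd314c32d4b52ccb3
    (by decide +kernel) t2_1068

theorem t2_1070 : Good (Q 9) [v524, v551, v208, v195, v513, v225] :=
  P_of 8 9 0xffffffffffffffffffffffffffffff4e93a4711c3ccf32c0b02d4b52c8b22c0b0ffffffffffffffffffffffffffffff31cc7334cd350d4fffff314c52d4b52ccb3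
    (by decide +kernel) t2_1069

theorem t2_1071 : Good (Q 9) [v524, v54, v208, v195, v513, v225] :=
  split_of 0 1 v551 1305733867 (by decide +kernel) t2_1067 t2_1070 rfl rfl

theorem t2_1072 : Good (Q 9) [v535, v54, v38, v208, v513, v225] :=
  split_of 2 5 v238 1326332669 (by decide +kernel) (good_ofj c2_956) (good_ofj c2_957) rfl rfl

theorem t2_1073 : Good (Q 9) [v524, v54, v38, v208, v513, v225] :=
  split_of 0 2 v535 1318989953 (by decide +kernel) t2_1072 (good_ofj c2_958) rfl rfl

theorem t2_1074 : Good (Q 9) [v524, v54, v38, v195, v513, v225] :=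
  split_of 2 3 v208 1315851864 (by decide +kernel) t2_1071 t2_1073 rfl rfl

theorem t2_1075 : Good (Q 6) [v551, v228, v54, v245, v513, v247] :=
  split_of 1 4 v559 1308328063 (by decide +kernel) (good_ofj c2_961) (good_ofj c2_962) rfl rfl

theorem t2_1076 : Good (Q 7) [v551, v228, v54, v245, v513, v247] :=
  P_of 6 7 0xffffffffffffffffffffffffffffff505424290a3f0fc2c4b12ccb42c4b12c8b28ca33ffffffffffffffffffff86a1b300c0348d2350d4721c72f8bd2e4b92e0b8
    (by decide +kernel) t2_1075

theorem t2_1077 : Good (Q 7) [v551, v228, v54, v245, v513, v225] :=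
  split_of 2 5 v247 1314382438 (by decide +kernel) (good_ofj c2_960) t2_1076 rfl rfl

theorem t2_1078 : Good (Q 8) [v551, v228, v54, v245, v513, v225] :=
  P_of 7 8 0xffffffffffffffffffffffffffffff51145421093ecfa2c0b02d0b42c8b22c8b2ffffffffffffffffffffffffffffff2fcc0348d3358d6715c32f4bd2e0b82e0b8
    (by decide +kernel) t2_1077

theorem t2_1079 : Good (Q 9) [v551, v228, v54, v245, v513, v225] :=
  P_of 8 9 0xffffffffffffffffffffffffffffff50545429093f0fa2c0b02ccb42c8b22c8b2ffffffffffffffffffffffffffffff300c0348d2354d7fffff2f8bd2e0b82e0b8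
    (by decide +kernel) t2_1078

theorem t2_1080 : Good (Q 9) [v551, v228, v54, v195, v513, v225] :=
  split_of 2 3 v245 1302071143 (by decide +kernel) (good_ofj c2_959) t2_1079 rfl rfl

theorem t2_1081 : Good (Q 7) [v524, v228, v551, v195, v513, v225] :=
  split_of 0 3 v560 1296976203 (by decide +kernel) (good_ofj c2_963) (good_ofj c2_964) rfl rfl

theorem t2_1082 : Good (Q 8) [v524, v228, v551, v195, v513, v225] :=
  P_of 7 8 0xffffffffffffffffffffffffffffff4e9394691a3d0f42c0b02dcb72c4b12c0b0ffffffffffffffffffffffffffffff320c8334cd350d4749d330cc32dcb72ccb3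
    (by decide +kernel) t2_1081

theorem t2_1083 : Good (Q 9) [v524, v228, v551, v195, v513, v225] :=
  P_of 8 9 0xffffffffffffffffffffffffffffff4e9384651d3d4f22bcb02dcb62c4b12c0b1ffffffffffffffffffffffffffffff31cc9334ce350d3fffff308c42dcb62d0b2
    (by decide +kernel) t2_1082

theorem t2_1084 : Good (Q 9) [v524, v228, v54, v195, v513, v225] :=
  split_of 0 2 v551 1305733867 (by decide +kernel) t2_1080 t2_1083 rfl rfl

theorem t2_1085 : Good (Q 9) [v524, v30, v54, v195, v513, v225] :=
  split_of 1 5 v228 1300359111 (by decide +kernel) t2_1084 (good_ofj c2_965) rfl rfl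

theorem t2_1086 : Good (Q 9) [v524, v30, v38, v195, v513, v225] :=
  split_of 1 2 v54 1309864426 (by decide +kernel) t2_1074 t2_1085 rfl rfl

theorem t2_1087 : Good (Q 9) [v524, v30, v38, v188, v513, v225] :=
  split_of 1 3 v195 1292338752 (by decide +kernel) t2_1058 t2_1086 rfl rfl

theorem t2_1088 : Good (Q 9) [v529, v524, v38, v188, v513, v225] :=
  split_of 2 3 v200 1320147089 (by decide +kernel) (good_ofj c2_966) (good_ofj c2_967) rfl rfl

theorem t2_1089 : Good (Q 9) [v523, v524, v38, v188, v513, v225] :=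
  split_of 0 2 v529 1325816608 (by decide +kernel) t2_1088 (good_ofj c2_968) rfl rfl

theorem t2_1090 : Good (Q 9) [v523, v30, v38, v188, v513, v225] :=
  split_of 0 1 v524 1300163123 (by decide +kernel) t2_1087 t2_1089 rfl rfl

theorem t2_1091 : Good (Q 9) [v523, v30, v38, v188, v512, v225] :=
  split_of 1 4 v513 1315466281 (by decide +kernel) t2_1053 t2_1090 rfl rfl

theorem t2_1092 : Good (Q 9) [v523, v30, v38, v188, v512, v224] :=
  split_of 1 5 v225 1317674863 (by decide +kernel) t2_1048 t2_1091 rfl rfl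

theorem t2_1093 : Good (Q 9) [v523, v30, v7, v188, v512, v224] :=
  split_of 1 2 v38 1333169107 (by decide +kernel) t2_1042 t2_1092 rfl rfl

theorem t2_1094 : Good (Q 9) [v523, v30, v7, v188, v309, v224] :=
  split_of 2 4 v512 1337829094 (by decide +kernel) t2_1026 t2_1093 rfl rfl

theorem t2_1095 : Good (Q 9) [v523, v30, v7, v188, v309, v221] :=
  split_of 2 5 v224 1338391739 (by decide +kernel) t2_1008 t2_1094 rfl rfl

theorem t2_1096 : Good (Q 9) [v522, v523, v7, v188, v512, v224] :=
  split_of 2 3 v191 1339459463 (by decide +kernel) (good_ofj c2_971) (good_ofj c2_972) rfl rfl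

theorem t2_1097 : Good (Q 9) [v522, v523, v7, v188, v309, v224] :=
  split_of 2 4 v512 1337829094 (by decide +kernel) (good_ofj c2_970) t2_1096 rfl rfl

theorem t2_1098 : Good (Q 9) [v522, v523, v7, v188, v309, v221] :=
  split_of 2 5 v224 1338391739 (by decide +kernel) (good_ofj c2_969) t2_1097 rfl rfl

theorem t2_1099 : Good (Q 9) [v521, v523, v7, v188, v309, v221] :=
  split_of 0 2 v522 1343518117 (by decide +kernel) t2_1098 (good_ofj c2_973) rfl rfl

theorem t2_1100 : Good (Q 9) [v521, v30, v7, v188, v309, v221] :=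
  split_of 0 1 v523 1312910633 (by decide +kernel) t2_1095 t2_1099 rfl rfl

theorem t2_1101 : Good (Q 9) [v521, v30, v7, v183, v309, v221] :=
  split_of 1 3 v188 1299447568 (by decide +kernel) t2_995 t2_1100 rfl rfl

theorem t2_1102 : Good (Q 10) [v521, v30, v7, v183, v309, v221] :=
  env_E _ t2_1101

theorem t2_1103 : Good (Q 10) [v521, v30, v7, v183, v304, v221] :=
  split_of 1 4 v309 1293212810 (by decide +kernel) (good_ofj c2_894) t2_1102 rfl rfl

theorem t2_1104 : Good (Q 10) [v521, v30, v7, v183, v304, v180] :=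
  split_of 1 5 v221 1292248265 (by decide +kernel) (good_ofj c2_893) t2_1103 rfl rfl

theorem t2_1105 : Good (Q 9) [v561, v30, v524, v188, v511, v223] :=
  split_of 0 3 v562 1294777133 (by decide +kernel) (good_ofj c2_981) (good_ofj c2_982) rfl rfl

theorem t2_1106 : Good (Q 9) [v561, v30, v523, v188, v511, v223] :=
  split_of 1 2 v524 1300163123 (by decide +kernel) (good_ofj c2_980) t2_1105 rfl rfl

theorem t2_1107 : Good (Q 9) [v561, v30, v523, v188, v309, v223] :=
  split_of 1 4 v511 1290828974 (by decide +kernel) (good_ofj c2_979) t2_1106 rfl rfl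

theorem t2_1108 : Good (Q 9) [v561, v30, v523, v188, v309, v221] :=
  split_of 1 5 v223 1294506655 (by decide +kernel) (good_ofj c2_978) t2_1107 rfl rfl

theorem t2_1109 : Good (Q 9) [v314, v30, v523, v188, v309, v221] :=
  split_of 0 1 v561 1284357402 (by decide +kernel) t2_1108 (good_ofj c2_983) rfl rfl

theorem t2_1110 : Good (Q 9) [v314, v30, v523, v183, v309, v221] :=
  split_of 1 3 v188 1299447568 (by decide +kernel) (good_ofj c2_977) t2_1109 rfl rfl

theorem t2_1111 : Good (Q 10) [v314, v30, v523, v183, v309, v221] :=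
  env_E _ t2_1110

theorem t2_1112 : Good (Q 10) [v314, v30, v521, v183, v309, v221] :=
  split_of 1 2 v523 1312910633 (by decide +kernel) (good_ofj c2_976) t2_1111 rfl rfl

theorem t2_1113 : Good (Q 10) [v314, v30, v521, v183, v309, v180] :=
  split_of 1 5 v221 1292248265 (by decide +kernel) (good_ofj c2_975) t2_1112 rfl rfl

theorem t2_1114 : Good (Q 10) [v314, v30, v521, v183, v304, v180] :=
  split_of 1 4 v309 1293212810 (by decide +kernel) (good_ofj c2_974) t2_1113 rfl rfl

theorem t2_1115 : Good (Q 10) [v313, v30, v521, v183, v304, v180] :=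
  split_of 0 1 v314 1267400614 (by decide +kernel) t2_1114 (good_ofj c2_984) rfl rfl

theorem t2_1116 : Good (Q 10) [v313, v30, v7, v183, v304, v180] :=
  split_of 0 2 v521 1312910633 (by decide +kernel) t2_1104 t2_1115 rfl rfl

theorem t2_1117 : Good (Q 10) [v313, v30, v7, v178, v304, v180] :=
  split_of 1 3 v183 1295857916 (by decide +kernel) t2_991 t2_1116 rfl rfl

theorem t2_1118 : Good (Q 10) [v313, v30, v7, v178, v304, v0] :=
  split_of 3 5 v180 1241799870 (by decide +kernel) t2_990 t2_1117 rfl rfl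

theorem t2_1119 : Good (Q 10) [v313, v30, v7, v178, v306, v0] :=
  split_of 1 4 v304 1268403305 (by decide +kernel) t2_932 t2_1118 rfl rfl

theorem t2_1120 : Good (Q 9) [v256, v523, v7, v224, v521, v24] :=
  split_of 2 4 v522 1343518117 (by decide +kernel) (good_ofj c2_990) (good_ofj c2_991) rfl rfl

theorem t2_1121 : Good (Q 9) [v256, v523, v7, v221, v521, v24] :=
  split_of 2 3 v224 1338391739 (by decide +kernel) (good_ofj c2_989) t2_1120 rfl rfl

theorem t2_1122 : Good (Q 9) [v257, v38, v526, v224, v529, v37] :=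
  split_of 0 1 v258 1326231995 (by decide +kernel) (good_ofj c2_995) (good_ofj c2_996) rfl rfl

theorem t2_1123 : Good (Q 9) [v257, v38, v526, v224, v523, v37] :=
  split_of 1 4 v529 1325816608 (by decide +kernel) (good_ofj c2_994) t2_1122 rfl rfl

theorem t2_1124 : Good (Q 9) [v260, v43, v99, v261, v527, v42] :=
  split_of 1 5 v101 1349299878 (by decide +kernel) (good_ofj c2_1003) (good_ofj c2_1004) rfl rfl

theorem t2_1125 : Good (Q 9) [v260, v43, v99, v233, v527, v42] :=
  split_of 1 3 v261 1350515562 (by decide +kernel) (good_ofj c2_1002) t2_1124 rfl rfl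

theorem t2_1126 : Good (Q 9) [v260, v43, v7, v233, v527, v42] :=
  split_of 1 2 v99 1351535087 (by decide +kernel) (good_ofj c2_1001) t2_1125 rfl rfl

theorem t2_1127 : Good (Q 9) [v260, v43, v7, v231, v527, v42] :=
  split_of 2 3 v233 1351945589 (by decide +kernel) (good_ofj c2_1000) t2_1126 rfl rfl

theorem t2_1128 : Good (Q 9) [v259, v43, v7, v231, v527, v42] :=
  split_of 0 2 v260 1350429413 (by decide +kernel) t2_1127 (good_ofj c2_1005) rfl rfl

theorem t2_1129 : Good (Q 9) [v259, v43, v7, v231, v526, v42] :=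
  split_of 2 4 v527 1350320645 (by decide +kernel) (good_ofj c2_999) t2_1128 rfl rfl

theorem t2_1130 : Good (Q 9) [v259, v43, v7, v231, v526, v37] :=
  split_of 2 5 v42 1350220494 (by decide +kernel) (good_ofj c2_998) t2_1129 rfl rfl

theorem t2_1131 : Good (Q 9) [v259, v38, v43, v234, v526, v37] :=
  split_of 1 5 v118 1339055755 (by decide +kernel) (good_ofj c2_1007) (good_ofj c2_1008) rfl rfl

theorem t2_1132 : Good (Q 9) [v259, v38, v43, v231, v526, v37] :=
  split_of 1 3 v234 1343753970 (by decide +kernel) (good_ofj c2_1006) t2_1131 rfl rfl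

theorem t2_1133 : Good (Q 9) [v259, v38, v7, v231, v526, v37] :=
  split_of 1 2 v43 1347746544 (by decide +kernel) t2_1130 t2_1132 rfl rfl

theorem t2_1134 : Good (Q 9) [v259, v38, v7, v224, v526, v37] :=
  split_of 2 3 v231 1349273507 (by decide +kernel) (good_ofj c2_997) t2_1133 rfl rfl

theorem t2_1135 : Good (Q 9) [v257, v38, v259, v224, v526, v37] :=
  split_of 0 1 v258 1326231995 (by decide +kernel) (good_ofj c2_1009) (good_ofj c2_1010) rfl rfl

theorem t2_1136 : Good (Q 9) [v257, v38, v7, v224, v526, v37] :=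
  split_of 0 2 v259 1343280872 (by decide +kernel) t2_1134 t2_1135 rfl rfl

theorem t2_1137 : Good (Q 9) [v257, v38, v7, v224, v523, v37] :=
  split_of 2 4 v526 1342848033 (by decide +kernel) t2_1123 t2_1136 rfl rfl

theorem t2_1138 : Good (Q 9) [v257, v38, v7, v224, v523, v24] :=
  split_of 2 5 v37 1342484791 (by decide +kernel) (good_ofj c2_993) t2_1137 rfl rfl

theorem t2_1139 : Good (Q 9) [v262, v54, v38, v225, v535, v52] :=
  split_of 0 2 v263 1319089474 (by decide +kernel) (good_ofj c2_1016) (good_ofj c2_1017) rfl rfl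

theorem t2_1140 : Good (Q 9) [v262, v54, v38, v225, v524, v52] :=
  split_of 2 4 v535 1318989953 (by decide +kernel) (good_ofj c2_1015) t2_1139 rfl rfl

theorem t2_1141 : Good (Q 9) [v262, v54, v38, v225, v524, v28] :=
  split_of 2 5 v52 1318899466 (by decide +kernel) (good_ofj c2_1014) t2_1140 rfl rfl

theorem t2_1142 : Good (Q 7) [v262, v228, v54, v225, v524, v28] :=
  split_of 2 5 v57 1305645227 (by decide +kernel) (good_ofj c2_1018) (good_ofj c2_1019) rfl rfl

theorem t2_1143 : Good (Q 8) [v262, v228, v54, v225, v524, v28] :=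
  P_of 7 8 0xffffffffffffffffffffffffffffff5114441d073f4fd2bcae2d4b62ccb32c4b0ffffffffffffffffffffffffffffff2fcbf340d0360d9715c52f0bc2e4b92e4b9
    (by decide +kernel) t2_1142

theorem t2_1144 : Good (Q 9) [v262, v228, v54, v225, v524, v28] :=
  P_of 8 9 0xffffffffffffffffffffffffffffff5114441d073f4fd2bcaf2d4b52ccb32c0b1ffffffffffffffffffffffffffffff2fcbf340d0360d8fffff2f4bc2e4b92e4b9
    (by decide +kernel) t2_1143

theorem t2_1145 : Good (Q 9) [v262, v30, v54, v225, v524, v28] :=
  split_of 1 3 v228 1300359111 (by decide +kernel) t2_1144 (good_ofj c2_1020) rfl rfl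

theorem t2_1146 : Good (Q 9) [v262, v30, v38, v225, v524, v28] :=
  split_of 1 2 v54 1309864426 (by decide +kernel) t2_1141 t2_1145 rfl rfl

theorem t2_1147 : Good (Q 9) [v257, v262, v38, v225, v524, v28] :=
  split_of 0 2 v258 1326231995 (by decide +kernel) (good_ofj c2_1021) (good_ofj c2_1022) rfl rfl

theorem t2_1148 : Good (Q 9) [v257, v30, v38, v225, v524, v28] :=
  split_of 0 1 v262 1300565277 (by decide +kernel) t2_1146 t2_1147 rfl rfl

theorem t2_1149 : Good (Q 9) [v257, v30, v38, v225, v523, v28] :=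
  split_of 1 4 v524 1300163123 (by decide +kernel) (good_ofj c2_1013) t2_1148 rfl rfl

theorem t2_1150 : Good (Q 9) [v257, v30, v38, v225, v523, v24] :=
  split_of 1 5 v28 1299835258 (by decide +kernel) (good_ofj c2_1012) t2_1149 rfl rfl

theorem t2_1151 : Good (Q 9) [v257, v30, v38, v224, v523, v24] :=
  split_of 1 3 v225 1317674863 (by decide +kernel) (good_ofj c2_1011) t2_1150 rfl rfl

theorem t2_1152 : Good (Q 9) [v257, v30, v7, v224, v523, v24] :=
  split_of 1 2 v38 1333169107 (by decide +kernel) t2_1138 t2_1151 rfl rfl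

theorem t2_1153 : Good (Q 9) [v264, v259, v7, v231, v526, v37] :=
  split_of 2 5 v42 1350220494 (by decide +kernel) (good_ofj c2_1026) (good_ofj c2_1027) rfl rfl

theorem t2_1154 : Good (Q 9) [v264, v259, v7, v224, v526, v37] :=
  split_of 2 3 v231 1349273507 (by decide +kernel) (good_ofj c2_1025) t2_1153 rfl rfl

theorem t2_1155 : Good (Q 9) [v264, v257, v7, v224, v526, v37] :=
  split_of 1 2 v259 1343280872 (by decide +kernel) t2_1154 (good_ofj c2_1028) rfl rfl

theorem t2_1156 : Good (Q 9) [v264, v257, v7, v224, v523, v37] :=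
  split_of 2 4 v526 1342848033 (by decide +kernel) (good_ofj c2_1024) t2_1155 rfl rfl

theorem t2_1157 : Good (Q 9) [v264, v257, v7, v224, v523, v24] :=
  split_of 2 5 v37 1342484791 (by decide +kernel) (good_ofj c2_1023) t2_1156 rfl rfl

theorem t2_1158 : Good (Q 9) [v256, v257, v7, v224, v523, v24] :=
  split_of 0 2 v264 1345413067 (by decide +kernel) t2_1157 (good_ofj c2_1029) rfl rfl

theorem t2_1159 : Good (Q 9) [v256, v30, v7, v224, v523, v24] :=
  split_of 0 1 v257 1314661650 (by decide +kernel) t2_1152 t2_1158 rfl rfl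

theorem t2_1160 : Good (Q 9) [v256, v30, v7, v221, v523, v24] :=
  split_of 2 3 v224 1338391739 (by decide +kernel) (good_ofj c2_992) t2_1159 rfl rfl

theorem t2_1161 : Good (Q 9) [v256, v30, v7, v221, v521, v24] :=
  split_of 1 4 v523 1312910633 (by decide +kernel) t2_1121 t2_1160 rfl rfl

theorem t2_1162 : Good (Q 9) [v256, v30, v7, v221, v521, v19] :=
  split_of 1 5 v24 1311740689 (by decide +kernel) (good_ofj c2_988) t2_1161 rfl rfl

theorem t2_1163 : Good (Q 9) [v256, v30, v7, v180, v521, v19] :=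
  split_of 1 3 v221 1292248265 (by decide +kernel) (good_ofj c2_987) t2_1162 rfl rfl

theorem t2_1164 : Good (Q 9) [v255, v30, v7, v180, v521, v19] :=
  split_of 0 2 v256 1321273347 (by decide +kernel) t2_1163 (good_ofj c2_1030) rfl rfl

theorem t2_1165 : Good (Q 9) [v255, v30, v7, v180, v521, v0] :=
  split_of 2 5 v19 1309159440 (by decide +kernel) (good_ofj c2_986) t2_1164 rfl rfl

theorem t2_1166 : Good (Q 10) [v255, v30, v7, v180, v521, v0] :=
  env_E _ t2_1165

theorem t2_1167 : Good (Q 10) [v255, v30, v7, v180, v313, v0] :=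
  split_of 2 4 v521 1312910633 (by decide +kernel) (good_ofj c2_985) t2_1166 rfl rfl

theorem t2_1168 : Good (Q 9) [v257, v30, v564, v562, v523, v221] :=
  split_of 1 5 v223 1294506655 (by decide +kernel) (good_ofj c2_1036) (good_ofj c2_1037) rfl rfl

theorem t2_1169 : Good (Q 9) [v257, v30, v564, v563, v523, v221] :=
  split_of 1 3 v562 1294777133 (by decide +kernel) (good_ofj c2_1035) t2_1168 rfl rfl

theorem t2_1170 : Good (Q 9) [v262, v30, v225, v565, v524, v227] :=
  split_of 1 2 v228 1300359111 (by decide +kernel) (good_ofj c2_1043) (good_ofj c2_1044) rfl rfl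

theorem t2_1171 : Good (Q 9) [v262, v30, v225, v565, v524, v223] :=
  split_of 1 5 v227 1288948140 (by decide +kernel) (good_ofj c2_1042) t2_1170 rfl rfl

theorem t2_1172 : Good (Q 9) [v257, v30, v225, v565, v524, v223] :=
  split_of 0 1 v262 1300565277 (by decide +kernel) t2_1171 (good_ofj c2_1045) rfl rfl

theorem t2_1173 : Good (Q 9) [v257, v30, v225, v565, v523, v223] :=
  split_of 1 4 v524 1300163123 (by decide +kernel) (good_ofj c2_1041) t2_1172 rfl rfl

theorem t2_1174 : Good (Q 9) [v257, v30, v225, v564, v523, v223] :=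
  split_of 1 3 v565 1317758267 (by decide +kernel) (good_ofj c2_1040) t2_1173 rfl rfl

theorem t2_1175 : Good (Q 9) [v257, v30, v224, v564, v523, v223] :=
  split_of 1 2 v225 1317674863 (by decide +kernel) (good_ofj c2_1039) t2_1174 rfl rfl

theorem t2_1176 : Good (Q 9) [v257, v30, v224, v564, v523, v221] :=
  split_of 1 5 v223 1294506655 (by decide +kernel) (good_ofj c2_1038) t2_1175 rfl rfl

theorem t2_1177 : Good (Q 9) [v257, v38, v526, v564, v523, v224] :=
  split_of 1 4 v529 1325816608 (by decide +kernel) (good_ofj c2_1046) (good_ofj c2_1047) rfl rfl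

theorem t2_1178 : Good (Q 9) [v260, v43, v7, v566, v527, v233] :=
  split_of 2 3 v567 1351970995 (by decide +kernel) (good_ofj c2_1052) (good_ofj c2_1053) rfl rfl

theorem t2_1179 : Good (Q 9) [v260, v43, v7, v566, v527, v231] :=
  split_of 2 5 v233 1351945589 (by decide +kernel) (good_ofj c2_1051) t2_1178 rfl rfl

theorem t2_1180 : Good (Q 9) [v259, v43, v7, v566, v527, v231] :=
  split_of 0 2 v260 1350429413 (by decide +kernel) t2_1179 (good_ofj c2_1054) rfl rfl

theorem t2_1181 : Good (Q 9) [v259, v43, v7, v566, v526, v231] :=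
  split_of 2 4 v527 1350320645 (by decide +kernel) (good_ofj c2_1050) t2_1180 rfl rfl

theorem t2_1182 : Good (Q 9) [v259, v38, v43, v566, v526, v234] :=
  split_of 1 3 v568 1343777943 (by decide +kernel) (good_ofj c2_1056) (good_ofj c2_1057) rfl rfl

theorem t2_1183 : Good (Q 9) [v259, v38, v43, v566, v526, v231] :=
  split_of 1 5 v234 1343753970 (by decide +kernel) (good_ofj c2_1055) t2_1182 rfl rfl

theorem t2_1184 : Good (Q 9) [v259, v38, v7, v566, v526, v231] :=
  split_of 1 2 v43 1347746544 (by decide +kernel) t2_1181 t2_1183 rfl rfl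

theorem t2_1185 : Good (Q 9) [v259, v38, v7, v564, v526, v231] :=
  split_of 2 3 v566 1349366882 (by decide +kernel) (good_ofj c2_1049) t2_1184 rfl rfl

theorem t2_1186 : Good (Q 9) [v259, v38, v7, v564, v526, v224] :=
  split_of 2 5 v231 1349273507 (by decide +kernel) (good_ofj c2_1048) t2_1185 rfl rfl

theorem t2_1187 : Good (Q 9) [v257, v38, v259, v564, v526, v224] :=
  split_of 1 5 v244 1337980351 (by decide +kernel) (good_ofj c2_1058) (good_ofj c2_1059) rfl rfl

theorem t2_1188 : Good (Q 9) [v257, v38, v7, v564, v526, v224] :=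
  split_of 0 2 v259 1343280872 (by decide +kernel) t2_1186 t2_1187 rfl rfl

theorem t2_1189 : Good (Q 9) [v257, v38, v7, v564, v523, v224] :=
  split_of 2 4 v526 1342848033 (by decide +kernel) t2_1177 t2_1188 rfl rfl

theorem t2_1190 : Good (Q 9) [v257, v225, v38, v564, v529, v224] :=
  split_of 0 2 v258 1326231995 (by decide +kernel) (good_ofj c2_1061) (good_ofj c2_1062) rfl rfl

theorem t2_1191 : Good (Q 9) [v257, v225, v38, v564, v523, v224] :=
  split_of 2 4 v529 1325816608 (by decide +kernel) (good_ofj c2_1060) t2_1190 rfl rfl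

theorem t2_1192 : Good (Q 9) [v263, v54, v38, v565, v535, v225] :=
  split_of 2 5 v238 1326332669 (by decide +kernel) (good_ofj c2_1066) (good_ofj c2_1067) rfl rfl

theorem t2_1193 : Good (Q 9) [v262, v54, v38, v565, v535, v225] :=
  split_of 0 2 v263 1319089474 (by decide +kernel) t2_1192 (good_ofj c2_1068) rfl rfl

theorem t2_1194 : Good (Q 9) [v262, v54, v38, v565, v524, v225] :=
  split_of 2 4 v535 1318989953 (by decide +kernel) (good_ofj c2_1065) t2_1193 rfl rfl

theorem t2_1195 : Good (Q 7) [v262, v228, v54, v565, v551, v225] :=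
  split_of 0 2 v271 1305831726 (by decide +kernel) (good_ofj c2_1070) (good_ofj c2_1071) rfl rfl

theorem t2_1196 : Good (Q 7) [v262, v228, v54, v565, v524, v225] :=
  split_of 2 4 v551 1305733867 (by decide +kernel) (good_ofj c2_1069) t2_1195 rfl rfl

theorem t2_1197 : Good (Q 8) [v262, v228, v54, v565, v524, v225] :=
  P_of 7 8 0xffffffffffffffffffffffffffffff5114441d073f4fc2bcaf2d4b62ccb32c0b0ffffffffffffffffffffffffffffff2f8bf340d0360d9715c42f0bc2e8b92e4b8
    (by decide +kernel) t2_1196

theorem t2_1198 : Good (Q 9) [v262, v228, v54, v565, v524, v225] :=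
  P_of 8 9 0xffffffffffffffffffffffffffffff50d44419073f8fd2c0af2d4b52ccb32c0b0ffffffffffffffffffffffffffffff2f8bf344d035cd8fffff2f0bd2e8b92e4b9
    (by decide +kernel) t2_1197

theorem t2_1199 : Good (Q 7) [v262, v569, v54, v565, v524, v228] :=
  split_of 2 4 v551 1305733867 (by decide +kernel) (good_ofj c2_1072) (good_ofj c2_1073) rfl rfl

theorem t2_1200 : Good (Q 8) [v262, v569, v54, v565, v524, v228] :=
  P_of 7 8 0xffffffffffffffffffffffffffffff50d45421063f4fc2c0af2d4b62ccb32c0b0ffffffffffffffffffffffffffffff2fcbe340d035cd9719c32f4bc2e8ba2e0b8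
    (by decide +kernel) t2_1199

theorem t2_1201 : Good (Q 9) [v262, v569, v54, v565, v524, v228] :=
  P_of 8 9 0xffffffffffffffffffffffffffffff50d43421083f4fc2c0b02d0b52ccb32c0b0ffffffffffffffffffffffffffffff2fcbf344d035cd7fffff2f4bd2e8b92e4b8
    (by decide +kernel) t2_1200

theorem t2_1202 : Good (Q 9) [v262, v30, v54, v565, v524, v228] :=
  split_of 1 3 v569 1300380987 (by decide +kernel) t2_1201 (good_ofj c2_1074) rfl rfl

theorem t2_1203 : Good (Q 9) [v262, v30, v54, v565, v524, v225] :=
  split_of 1 5 v228 1300359111 (by decide +kernel) t2_1198 t2_1202 rfl rfl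

theorem t2_1204 : Good (Q 9) [v262, v30, v38, v565, v524, v225] :=
  split_of 1 2 v54 1309864426 (by decide +kernel) t2_1194 t2_1203 rfl rfl

theorem t2_1205 : Good (Q 9) [v257, v30, v38, v565, v524, v225] :=
  split_of 0 1 v262 1300565277 (by decide +kernel) t2_1204 (good_ofj c2_1075) rfl rfl

theorem t2_1206 : Good (Q 9) [v257, v30, v38, v565, v523, v225] :=
  split_of 1 4 v524 1300163123 (by decide +kernel) (good_ofj c2_1064) t2_1205 rfl rfl

theorem t2_1207 : Good (Q 9) [v257, v30, v38, v564, v523, v225] :=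
  split_of 1 3 v565 1317758267 (by decide +kernel) (good_ofj c2_1063) t2_1206 rfl rfl

theorem t2_1208 : Good (Q 9) [v257, v30, v38, v564, v523, v224] :=
  split_of 1 5 v225 1317674863 (by decide +kernel) t2_1191 t2_1207 rfl rfl

theorem t2_1209 : Good (Q 9) [v257, v30, v7, v564, v523, v224] :=
  split_of 1 2 v38 1333169107 (by decide +kernel) t2_1189 t2_1208 rfl rfl

theorem t2_1210 : Good (Q 9) [v257, v30, v7, v564, v523, v221] :=
  split_of 2 5 v224 1338391739 (by decide +kernel) t2_1176 t2_1209 rfl rfl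

theorem t2_1211 : Good (Q 9) [v257, v30, v7, v563, v523, v221] :=
  split_of 2 3 v564 1338700992 (by decide +kernel) t2_1169 t2_1210 rfl rfl

theorem t2_1212 : Good (Q 9) [v264, v257, v7, v564, v523, v224] :=
  split_of 2 4 v526 1342848033 (by decide +kernel) (good_ofj c2_1078) (good_ofj c2_1079) rfl rfl

theorem t2_1213 : Good (Q 9) [v256, v257, v7, v564, v523, v224] :=
  split_of 0 2 v264 1345413067 (by decide +kernel) t2_1212 (good_ofj c2_1080) rfl rfl

theorem t2_1214 : Good (Q 9) [v256, v257, v7, v564, v523, v221] :=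
  split_of 2 5 v224 1338391739 (by decide +kernel) (good_ofj c2_1077) t2_1213 rfl rfl

theorem t2_1215 : Good (Q 9) [v256, v257, v7, v563, v523, v221] :=
  split_of 2 3 v564 1338700992 (by decide +kernel) (good_ofj c2_1076) t2_1214 rfl rfl

theorem t2_1216 : Good (Q 9) [v256, v30, v7, v563, v523, v221] :=
  split_of 0 1 v257 1314661650 (by decide +kernel) t2_1211 t2_1215 rfl rfl

theorem t2_1217 : Good (Q 9) [v256, v30, v7, v563, v521, v221] :=
  split_of 1 4 v523 1312910633 (by decide +kernel) (good_ofj c2_1034) t2_1216 rfl rfl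

theorem t2_1218 : Good (Q 9) [v256, v30, v7, v563, v521, v180] :=
  split_of 1 5 v221 1292248265 (by decide +kernel) (good_ofj c2_1033) t2_1217 rfl rfl

theorem t2_1219 : Good (Q 10) [v256, v30, v7, v563, v521, v180] :=
  env_E _ t2_1218

theorem t2_1220 : Good (Q 10) [v256, v30, v7, v552, v521, v180] :=
  split_of 1 3 v563 1292971808 (by decide +kernel) (good_ofj c2_1032) t2_1219 rfl rfl

theorem t2_1221 : Good (Q 10) [v255, v30, v7, v552, v521, v180] :=
  split_of 0 2 v256 1321273347 (by decide +kernel) t2_1220 (good_ofj c2_1081) rfl rfl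

theorem t2_1222 : Good (Q 10) [v255, v30, v7, v552, v313, v180] :=
  split_of 2 4 v521 1312910633 (by decide +kernel) (good_ofj c2_1031) t2_1221 rfl rfl

theorem t2_1223 : Good (Q 9) [v256, v188, v7, v189, v564, v221] :=
  split_of 2 5 v224 1338391739 (by decide +kernel) (good_ofj c2_1087) (good_ofj c2_1088) rfl rfl

theorem t2_1224 : Good (Q 9) [v256, v188, v7, v189, v563, v221] :=
  split_of 2 4 v564 1338700992 (by decide +kernel) (good_ofj c2_1086) t2_1223 rfl rfl

theorem t2_1225 : Good (Q 9) [v256, v188, v7, v183, v563, v221] :=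
  split_of 2 3 v189 1339712096 (by decide +kernel) (good_ofj c2_1085) t2_1224 rfl rfl

theorem t2_1226 : Good (Q 9) [v262, v30, v565, v195, v562, v223] :=
  split_of 1 5 v227 1288948140 (by decide +kernel) (good_ofj c2_1093) (good_ofj c2_1094) rfl rfl

theorem t2_1227 : Good (Q 9) [v262, v30, v565, v188, v562, v223] :=
  split_of 1 3 v195 1292338752 (by decide +kernel) (good_ofj c2_1092) t2_1226 rfl rfl

theorem t2_1228 : Good (Q 9) [v257, v30, v565, v188, v562, v223] :=
  split_of 0 1 v262 1300565277 (by decide +kernel) t2_1227 (good_ofj c2_1095) rfl rfl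

theorem t2_1229 : Good (Q 9) [v257, v30, v564, v188, v562, v223] :=
  split_of 1 2 v565 1317758267 (by decide +kernel) (good_ofj c2_1091) t2_1228 rfl rfl

theorem t2_1230 : Good (Q 9) [v257, v30, v564, v188, v562, v221] :=
  split_of 1 5 v223 1294506655 (by decide +kernel) (good_ofj c2_1090) t2_1229 rfl rfl

theorem t2_1231 : Good (Q 9) [v257, v30, v564, v188, v563, v221] :=
  split_of 1 4 v562 1294777133 (by decide +kernel) (good_ofj c2_1089) t2_1230 rfl rfl

theorem t2_1232 : Good (Q 7) [v262, v228, v225, v195, v565, v227] :=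
  split_of 4 5 v570 1304400226 (by decide +kernel) (good_ofj c2_1101) (good_ofj c2_1102) rfl rfl

theorem t2_1233 : Good (Q 8) [v262, v228, v225, v195, v565, v227] :=
  P_of 7 8 0xffffffffffffffffffffffffffffff4dd374791e3ccf32b8ae2dcb72ccb32c0b0ffffffffffffffffffffffffffffff328ca32ccb354d575dd7310c42d4b52d0b4
    (by decide +kernel) t2_1232

theorem t2_1234 : Good (Q 9) [v262, v228, v225, v195, v565, v227] :=
  P_of 8 9 0xffffffffffffffffffffffffffffff4dd374791e3ccf32b8ae2dcb72ccb32c0b0ffffffffffffffffffffffffffffff328ca32ccb354d5fffff310c42d4b52d0b4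
    (by decide +kernel) t2_1233

theorem t2_1235 : Good (Q 9) [v262, v30, v225, v195, v565, v227] :=
  split_of 1 2 v228 1300359111 (by decide +kernel) t2_1234 (good_ofj c2_1103) rfl rfl

theorem t2_1236 : Good (Q 9) [v262, v30, v225, v195, v565, v223] :=
  split_of 1 5 v227 1288948140 (by decide +kernel) (good_ofj c2_1100) t2_1235 rfl rfl

theorem t2_1237 : Good (Q 9) [v262, v30, v225, v188, v565, v223] :=
  split_of 1 3 v195 1292338752 (by decide +kernel) (good_ofj c2_1099) t2_1236 rfl rfl

theorem t2_1238 : Good (Q 9) [v257, v30, v225, v188, v565, v223] :=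
  split_of 0 1 v262 1300565277 (by decide +kernel) t2_1237 (good_ofj c2_1104) rfl rfl

theorem t2_1239 : Good (Q 9) [v257, v30, v225, v188, v564, v223] :=
  split_of 1 4 v565 1317758267 (by decide +kernel) (good_ofj c2_1098) t2_1238 rfl rfl

theorem t2_1240 : Good (Q 9) [v257, v30, v224, v188, v564, v223] :=
  split_of 1 2 v225 1317674863 (by decide +kernel) (good_ofj c2_1097) t2_1239 rfl rfl

theorem t2_1241 : Good (Q 9) [v257, v30, v224, v188, v564, v221] :=
  split_of 1 5 v223 1294506655 (by decide +kernel) (good_ofj c2_1096) t2_1240 rfl rfl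

theorem t2_1242 : Good (Q 9) [v257, v38, v191, v200, v564, v244] :=
  split_of 0 2 v571 1329617004 (by decide +kernel) (good_ofj c2_1107) (good_ofj c2_1108) rfl rfl

theorem t2_1243 : Good (Q 9) [v257, v38, v191, v200, v564, v224] :=
  split_of 1 5 v244 1337980351 (by decide +kernel) (good_ofj c2_1106) t2_1242 rfl rfl

theorem t2_1244 : Good (Q 9) [v257, v38, v191, v188, v564, v224] :=
  split_of 1 3 v200 1320147089 (by decide +kernel) (good_ofj c2_1105) t2_1243 rfl rfl

theorem t2_1245 : Good (Q 9) [v260, v43, v7, v203, v566, v233] :=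
  split_of 2 4 v567 1351970995 (by decide +kernel) (good_ofj c2_1113) (good_ofj c2_1114) rfl rfl

theorem t2_1246 : Good (Q 9) [v260, v43, v7, v203, v566, v231] :=
  split_of 2 5 v233 1351945589 (by decide +kernel) (good_ofj c2_1112) t2_1245 rfl rfl

theorem t2_1247 : Good (Q 9) [v259, v43, v7, v203, v566, v231] :=
  split_of 0 2 v260 1350429413 (by decide +kernel) t2_1246 (good_ofj c2_1115) rfl rfl

theorem t2_1248 : Good (Q 9) [v259, v43, v7, v191, v566, v231] :=
  split_of 2 3 v203 1349460245 (by decide +kernel) (good_ofj c2_1111) t2_1247 rfl rfl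

theorem t2_1249 : Good (Q 9) [v259, v38, v43, v191, v566, v234] :=
  split_of 1 4 v568 1343777943 (by decide +kernel) (good_ofj c2_1117) (good_ofj c2_1118) rfl rfl

theorem t2_1250 : Good (Q 9) [v259, v38, v43, v191, v566, v231] :=
  split_of 1 5 v234 1343753970 (by decide +kernel) (good_ofj c2_1116) t2_1249 rfl rfl

theorem t2_1251 : Good (Q 9) [v259, v38, v7, v191, v566, v231] :=
  split_of 1 2 v43 1347746544 (by decide +kernel) t2_1248 t2_1250 rfl rfl

theorem t2_1252 : Good (Q 9) [v259, v38, v7, v191, v564, v231] :=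
  split_of 2 4 v566 1349366882 (by decide +kernel) (good_ofj c2_1110) t2_1251 rfl rfl

theorem t2_1253 : Good (Q 9) [v259, v38, v7, v191, v564, v224] :=
  split_of 2 5 v231 1349273507 (by decide +kernel) (good_ofj c2_1109) t2_1252 rfl rfl

theorem t2_1254 : Good (Q 9) [v257, v38, v259, v191, v564, v224] :=
  split_of 1 5 v244 1337980351 (by decide +kernel) (good_ofj c2_1119) (good_ofj c2_1120) rfl rfl

theorem t2_1255 : Good (Q 9) [v257, v38, v7, v191, v564, v224] :=
  split_of 0 2 v259 1343280872 (by decide +kernel) t2_1253 t2_1254 rfl rfl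

theorem t2_1256 : Good (Q 9) [v257, v38, v7, v188, v564, v224] :=
  split_of 2 3 v191 1339459463 (by decide +kernel) t2_1244 t2_1255 rfl rfl

theorem t2_1257 : Good (Q 9) [v258, v225, v38, v200, v564, v244] :=
  split_of 2 4 v572 1338068276 (by decide +kernel) (good_ofj c2_1123) (good_ofj c2_1124) rfl rfl

theorem t2_1258 : Good (Q 9) [v258, v225, v38, v200, v564, v224] :=
  split_of 2 5 v244 1337980351 (by decide +kernel) (good_ofj c2_1122) t2_1257 rfl rfl

theorem t2_1259 : Good (Q 9) [v257, v225, v38, v200, v564, v224] :=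
  split_of 0 2 v258 1326231995 (by decide +kernel) t2_1258 (good_ofj c2_1125) rfl rfl

theorem t2_1260 : Good (Q 9) [v257, v225, v38, v188, v564, v224] :=
  split_of 2 3 v200 1320147089 (by decide +kernel) (good_ofj c2_1121) t2_1259 rfl rfl

theorem t2_1261 : Good (Q 9) [v257, v565, v38, v200, v564, v225] :=
  split_of 0 2 v258 1326231995 (by decide +kernel) (good_ofj c2_1127) (good_ofj c2_1128) rfl rfl

theorem t2_1262 : Good (Q 9) [v257, v565, v38, v188, v564, v225] :=
  split_of 2 3 v200 1320147089 (by decide +kernel) (good_ofj c2_1126) t2_1261 rfl rfl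

theorem t2_1263 : Good (Q 9) [v262, v195, v38, v200, v565, v225] :=
  split_of 1 2 v208 1315851864 (by decide +kernel) (good_ofj c2_1130) (good_ofj c2_1131) rfl rfl

theorem t2_1264 : Good (Q 9) [v262, v195, v38, v188, v565, v225] :=
  split_of 2 3 v200 1320147089 (by decide +kernel) (good_ofj c2_1129) t2_1263 rfl rfl

theorem t2_1265 : Good (Q 9) [v275, v54, v208, v195, v565, v225] :=
  split_of 1 3 v245 1302071143 (by decide +kernel) (good_ofj c2_1132) (good_ofj c2_1133) rfl rfl

theorem t2_1266 : Good (Q 9) [v271, v54, v275, v195, v565, v225] :=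
  split_of 1 3 v245 1302071143 (by decide +kernel) (good_ofj c2_1134) (good_ofj c2_1135) rfl rfl

theorem t2_1267 : Good (Q 9) [v262, v54, v275, v195, v565, v225] :=
  split_of 0 1 v271 1305831726 (by decide +kernel) t2_1266 (good_ofj c2_1136) rfl rfl

theorem t2_1268 : Good (Q 9) [v262, v54, v208, v195, v565, v225] :=
  split_of 0 2 v275 1308854445 (by decide +kernel) t2_1265 t2_1267 rfl rfl

theorem t2_1269 : Good (Q 9) [v263, v54, v38, v208, v565, v238] :=
  split_of 2 4 v573 1326355487 (by decide +kernel) (good_ofj c2_1138) (good_ofj c2_1139) rfl rfl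

theorem t2_1270 : Good (Q 9) [v263, v54, v38, v208, v565, v225] :=
  split_of 2 5 v238 1326332669 (by decide +kernel) (good_ofj c2_1137) t2_1269 rfl rfl

theorem t2_1271 : Good (Q 9) [v262, v54, v38, v208, v565, v225] :=
  split_of 0 2 v263 1319089474 (by decide +kernel) t2_1270 (good_ofj c2_1140) rfl rfl

theorem t2_1272 : Good (Q 9) [v262, v54, v38, v195, v565, v225] :=
  split_of 2 3 v208 1315851864 (by decide +kernel) t2_1268 t2_1271 rfl rfl

theorem t2_1273 : Good (Q 7) [v271, v228, v245, v195, v565, v225] :=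
  split_of 3 5 v246 1305996946 (by decide +kernel) (good_ofj c2_1141) (good_ofj c2_1142) rfl rfl

theorem t2_1274 : Good (Q 8) [v271, v228, v245, v195, v565, v225] :=
  P_of 7 8 0xffffffffffffffffffffffffffffff4dd394651a3d8f52bcaf2d0b52d0b42c0afffffffffffffffffffffffffffffff314c5330cb350d5759d4310c52d8b52d8b5
    (by decide +kernel) t2_1273

theorem t2_1275 : Good (Q 9) [v271, v228, v245, v195, v565, v225] :=
  P_of 8 9 0xffffffffffffffffffffffffffffff4f537459193d0f62bcaf2d4b42ccb42c0b0ffffffffffffffffffffffffffffff314c5338cc358d4fffff30cc42d4b62d0b6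
    (by decide +kernel) t2_1274

theorem t2_1276 : Good (Q 7) [v271, v228, v54, v245, v565, v247] :=
  split_of 2 4 v574 1314404761 (by decide +kernel) (good_ofj c2_1144) (good_ofj c2_1145) rfl rfl

theorem t2_1277 : Good (Q 7) [v271, v228, v54, v245, v565, v225] :=
  split_of 2 5 v247 1314382438 (by decide +kernel) (good_ofj c2_1143) t2_1276 rfl rfl

theorem t2_1278 : Good (Q 8) [v271, v228, v54, v245, v565, v225] :=
  P_of 7 8 0xffffffffffffffffffffffffffffff511454250a3e8f92c0b02d0b42c8b22c4b1ffffffffffffffffffffffffffffff300c0348d235cd7711c32f4be2e0b82e0b7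
    (by decide +kernel) t2_1277

theorem t2_1279 : Good (Q 9) [v271, v228, v54, v245, v565, v225] :=
  P_of 8 9 0xffffffffffffffffffffffffffffff50543429093ecfc2c4b02ccb42c8b22c4b1ffffffffffffffffffffffffffffff300bf348d2354d6fffff2f8bd2e4b92e0b8
    (by decide +kernel) t2_1278

theorem t2_1280 : Good (Q 9) [v271, v228, v54, v195, v565, v225] :=
  split_of 2 3 v245 1302071143 (by decide +kernel) t2_1275 t2_1279 rfl rfl

theorem t2_1281 : Good (Q 7) [v262, v228, v271, v195, v565, v225] :=
  split_of 3 5 v246 1305996946 (by decide +kernel) (good_ofj c2_1146) (good_ofj c2_1147) rfl rfl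

theorem t2_1282 : Good (Q 8) [v262, v228, v271, v195, v565, v225] :=
  P_of 7 8 0xffffffffffffffffffffffffffffff4dd384651a3dcf52b8af2d4b52d0b52bcafffffffffffffffffffffffffffffff318c632ccb350d5759d530cc52d8b52d8b5
    (by decide +kernel) t2_1281

theorem t2_1283 : Good (Q 9) [v262, v228, v271, v195, v565, v225] :=
  P_of 8 9 0xffffffffffffffffffffffffffffff4ed37469193ccf72b8ae2d8b52ccb42c0afffffffffffffffffffffffffffffff31cc6330cb358d4fffff30cc32d4b62d0b6
    (by decide +kernel) t2_1282

theorem t2_1284 : Good (Q 9) [v262, v228, v54, v195, v565, v225] :=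
  split_of 0 2 v271 1305831726 (by decide +kernel) t2_1280 t2_1283 rfl rfl

theorem t2_1285 : Good (Q 9) [v271, v569, v54, v195, v565, v228] :=
  split_of 2 3 v245 1302071143 (by decide +kernel) (good_ofj c2_1148) (good_ofj c2_1149) rfl rfl

theorem t2_1286 : Good (Q 9) [v262, v569, v54, v195, v565, v228] :=
  split_of 0 2 v271 1305831726 (by decide +kernel) t2_1285 (good_ofj c2_1150) rfl rfl

theorem t2_1287 : Good (Q 9) [v262, v30, v54, v195, v565, v228] :=
  split_of 1 4 v569 1300380987 (by decide +kernel) t2_1286 (good_ofj c2_1151) rfl rfl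

theorem t2_1288 : Good (Q 9) [v262, v30, v54, v195, v565, v225] :=
  split_of 1 5 v228 1300359111 (by decide +kernel) t2_1284 t2_1287 rfl rfl

theorem t2_1289 : Good (Q 9) [v262, v30, v38, v195, v565, v225] :=
  split_of 1 2 v54 1309864426 (by decide +kernel) t2_1272 t2_1288 rfl rfl

theorem t2_1290 : Good (Q 9) [v262, v30, v38, v188, v565, v225] :=
  split_of 1 3 v195 1292338752 (by decide +kernel) t2_1264 t2_1289 rfl rfl

theorem t2_1291 : Good (Q 9) [v257, v262, v38, v188, v565, v225] :=
  split_of 2 3 v200 1320147089 (by decide +kernel) (good_ofj c2_1152) (good_ofj c2_1153) rfl rfl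

theorem t2_1292 : Good (Q 9) [v257, v30, v38, v188, v565, v225] :=
  split_of 0 1 v262 1300565277 (by decide +kernel) t2_1290 t2_1291 rfl rfl

theorem t2_1293 : Good (Q 9) [v257, v30, v38, v188, v564, v225] :=
  split_of 1 4 v565 1317758267 (by decide +kernel) t2_1262 t2_1292 rfl rfl

theorem t2_1294 : Good (Q 9) [v257, v30, v38, v188, v564, v224] :=
  split_of 1 5 v225 1317674863 (by decide +kernel) t2_1260 t2_1293 rfl rfl

theorem t2_1295 : Good (Q 9) [v257, v30, v7, v188, v564, v224] :=
  split_of 1 2 v38 1333169107 (by decide +kernel) t2_1256 t2_1294 rfl rfl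

theorem t2_1296 : Good (Q 9) [v257, v30, v7, v188, v564, v221] :=
  split_of 2 5 v224 1338391739 (by decide +kernel) t2_1241 t2_1295 rfl rfl

theorem t2_1297 : Good (Q 9) [v257, v30, v7, v188, v563, v221] :=
  split_of 2 4 v564 1338700992 (by decide +kernel) t2_1231 t2_1296 rfl rfl

theorem t2_1298 : Good (Q 9) [v264, v257, v7, v191, v564, v224] :=
  split_of 1 2 v259 1343280872 (by decide +kernel) (good_ofj c2_1157) (good_ofj c2_1158) rfl rfl

theorem t2_1299 : Good (Q 9) [v264, v257, v7, v188, v564, v224] :=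
  split_of 2 3 v191 1339459463 (by decide +kernel) (good_ofj c2_1156) t2_1298 rfl rfl

theorem t2_1300 : Good (Q 9) [v256, v257, v7, v188, v564, v224] :=
  split_of 0 2 v264 1345413067 (by decide +kernel) t2_1299 (good_ofj c2_1159) rfl rfl

theorem t2_1301 : Good (Q 9) [v256, v257, v7, v188, v564, v221] :=
  split_of 2 5 v224 1338391739 (by decide +kernel) (good_ofj c2_1155) t2_1300 rfl rfl

theorem t2_1302 : Good (Q 9) [v256, v257, v7, v188, v563, v221] :=
  split_of 2 4 v564 1338700992 (by decide +kernel) (good_ofj c2_1154) t2_1301 rfl rfl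

theorem t2_1303 : Good (Q 9) [v256, v30, v7, v188, v563, v221] :=
  split_of 0 1 v257 1314661650 (by decide +kernel) t2_1297 t2_1302 rfl rfl

theorem t2_1304 : Good (Q 9) [v256, v30, v7, v183, v563, v221] :=
  split_of 1 3 v188 1299447568 (by decide +kernel) t2_1225 t2_1303 rfl rfl

theorem t2_1305 : Good (Q 10) [v256, v30, v7, v183, v563, v221] :=
  env_E _ t2_1304

theorem t2_1306 : Good (Q 10) [v256, v30, v7, v183, v563, v180] :=
  split_of 1 5 v221 1292248265 (by decide +kernel) (good_ofj c2_1084) t2_1305 rfl rfl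

theorem t2_1307 : Good (Q 9) [v279, v30, v257, v188, v562, v223] :=
  split_of 1 2 v262 1300565277 (by decide +kernel) (good_ofj c2_1165) (good_ofj c2_1166) rfl rfl

theorem t2_1308 : Good (Q 9) [v279, v30, v257, v188, v562, v221] :=
  split_of 1 5 v223 1294506655 (by decide +kernel) (good_ofj c2_1164) t2_1307 rfl rfl

theorem t2_1309 : Good (Q 9) [v279, v30, v257, v188, v563, v221] :=
  split_of 1 4 v562 1294777133 (by decide +kernel) (good_ofj c2_1163) t2_1308 rfl rfl

theorem t2_1310 : Good (Q 9) [v278, v30, v257, v188, v563, v221] :=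
  split_of 0 1 v279 1286065164 (by decide +kernel) t2_1309 (good_ofj c2_1167) rfl rfl

theorem t2_1311 : Good (Q 9) [v278, v30, v256, v188, v563, v221] :=
  split_of 1 2 v257 1314661650 (by decide +kernel) (good_ofj c2_1162) t2_1310 rfl rfl

theorem t2_1312 : Good (Q 9) [v278, v30, v256, v183, v563, v221] :=
  split_of 1 3 v188 1299447568 (by decide +kernel) (good_ofj c2_1161) t2_1311 rfl rfl

theorem t2_1313 : Good (Q 10) [v278, v30, v256, v183, v563, v221] :=
  env_E _ t2_1312

theorem t2_1314 : Good (Q 10) [v255, v30, v256, v183, v563, v221] :=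
  split_of 0 1 v278 1275378169 (by decide +kernel) t2_1313 (good_ofj c2_1168) rfl rfl

theorem t2_1315 : Good (Q 10) [v255, v30, v256, v183, v563, v180] :=
  split_of 1 5 v221 1292248265 (by decide +kernel) (good_ofj c2_1160) t2_1314 rfl rfl

theorem t2_1316 : Good (Q 10) [v255, v30, v7, v183, v563, v180] :=
  split_of 0 2 v256 1321273347 (by decide +kernel) t2_1306 t2_1315 rfl rfl

theorem t2_1317 : Good (Q 10) [v255, v30, v7, v183, v552, v180] :=
  split_of 1 4 v563 1292971808 (by decide +kernel) (good_ofj c2_1083) t2_1316 rfl rfl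

theorem t2_1318 : Good (Q 10) [v255, v30, v7, v178, v552, v180] :=
  split_of 1 3 v183 1295857916 (by decide +kernel) (good_ofj c2_1082) t2_1317 rfl rfl

theorem t2_1319 : Good (Q 10) [v255, v30, v7, v178, v313, v180] :=
  split_of 3 4 v552 1241799870 (by decide +kernel) t2_1222 t2_1318 rfl rfl

theorem t2_1320 : Good (Q 10) [v255, v30, v7, v178, v313, v0] :=
  split_of 3 5 v180 1241799870 (by decide +kernel) t2_1167 t2_1319 rfl rfl

theorem t2_1321 : Good (Q 9) [v109, v37, v7, v264, v522, v92] :=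
  split_of 2 4 v539 1350569232 (by decide +kernel) (good_ofj c2_1176) (good_ofj c2_1177) rfl rfl

theorem t2_1322 : Good (Q 9) [v109, v37, v7, v264, v522, v59] :=
  split_of 2 5 v92 1350182502 (by decide +kernel) (good_ofj c2_1175) t2_1321 rfl rfl

theorem t2_1323 : Good (Q 9) [v108, v37, v7, v264, v522, v59] :=
  split_of 0 2 v109 1347302695 (by decide +kernel) t2_1322 (good_ofj c2_1178) rfl rfl

theorem t2_1324 : Good (Q 9) [v108, v37, v7, v256, v522, v59] :=
  split_of 2 3 v264 1345413067 (by decide +kernel) (good_ofj c2_1174) t2_1323 rfl rfl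

theorem t2_1325 : Good (Q 9) [v108, v24, v7, v256, v522, v59] :=
  split_of 1 2 v37 1342484791 (by decide +kernel) t2_1324 (good_ofj c2_1179) rfl rfl

theorem t2_1326 : Good (Q 9) [v108, v24, v7, v256, v521, v59] :=
  split_of 2 4 v522 1343518117 (by decide +kernel) (good_ofj c2_1173) t2_1325 rfl rfl

theorem t2_1327 : Good (Q 9) [v108, v24, v7, v256, v521, v19] :=
  split_of 2 5 v59 1342177280 (by decide +kernel) (good_ofj c2_1172) t2_1326 rfl rfl

theorem t2_1328 : Good (Q 9) [v109, v526, v7, v264, v539, v42] :=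
  split_of 1 2 v527 1350320645 (by decide +kernel) (good_ofj c2_1185) (good_ofj c2_1186) rfl rfl

theorem t2_1329 : Good (Q 9) [v109, v526, v7, v264, v539, v37] :=
  split_of 2 5 v42 1350220494 (by decide +kernel) (good_ofj c2_1184) t2_1328 rfl rfl

theorem t2_1330 : Good (Q 9) [v109, v526, v7, v264, v522, v37] :=
  split_of 2 4 v539 1350569232 (by decide +kernel) (good_ofj c2_1183) t2_1329 rfl rfl

theorem t2_1331 : Good (Q 9) [v108, v526, v7, v264, v522, v37] :=
  split_of 0 2 v109 1347302695 (by decide +kernel) t2_1330 (good_ofj c2_1187) rfl rfl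

theorem t2_1332 : Good (Q 9) [v108, v523, v7, v264, v522, v37] :=
  split_of 1 2 v526 1342848033 (by decide +kernel) t2_1331 (good_ofj c2_1188) rfl rfl

theorem t2_1333 : Good (Q 9) [v108, v523, v7, v264, v522, v24] :=
  split_of 2 5 v37 1342484791 (by decide +kernel) (good_ofj c2_1182) t2_1332 rfl rfl

theorem t2_1334 : Good (Q 9) [v108, v523, v7, v256, v522, v24] :=
  split_of 2 3 v264 1345413067 (by decide +kernel) (good_ofj c2_1181) t2_1333 rfl rfl

theorem t2_1335 : Good (Q 9) [v108, v523, v7, v256, v521, v24] :=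
  split_of 2 4 v522 1343518117 (by decide +kernel) (good_ofj c2_1180) t2_1334 rfl rfl

theorem t2_1336 : Good (Q 9) [v109, v259, v7, v281, v526, v42] :=
  split_of 2 4 v527 1350320645 (by decide +kernel) (good_ofj c2_1194) (good_ofj c2_1195) rfl rfl

theorem t2_1337 : Good (Q 9) [v109, v259, v7, v264, v526, v42] :=
  split_of 2 3 v281 1351024736 (by decide +kernel) (good_ofj c2_1193) t2_1336 rfl rfl

theorem t2_1338 : Good (Q 9) [v109, v259, v7, v264, v526, v37] :=
  split_of 2 5 v42 1350220494 (by decide +kernel) (good_ofj c2_1192) t2_1337 rfl rfl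

theorem t2_1339 : Good (Q 9) [v108, v259, v7, v264, v526, v37] :=
  split_of 0 2 v109 1347302695 (by decide +kernel) t2_1338 (good_ofj c2_1196) rfl rfl

theorem t2_1340 : Good (Q 9) [v108, v257, v7, v264, v526, v37] :=
  split_of 1 2 v259 1343280872 (by decide +kernel) t2_1339 (good_ofj c2_1197) rfl rfl

theorem t2_1341 : Good (Q 9) [v108, v257, v7, v264, v523, v37] :=
  split_of 2 4 v526 1342848033 (by decide +kernel) (good_ofj c2_1191) t2_1340 rfl rfl

theorem t2_1342 : Good (Q 9) [v108, v257, v7, v264, v523, v24] :=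
  split_of 2 5 v37 1342484791 (by decide +kernel) (good_ofj c2_1190) t2_1341 rfl rfl

theorem t2_1343 : Good (Q 9) [v108, v257, v7, v256, v523, v24] :=
  split_of 2 3 v264 1345413067 (by decide +kernel) (good_ofj c2_1189) t2_1342 rfl rfl

theorem t2_1344 : Good (Q 9) [v108, v38, v37, v257, v523, v24] :=
  split_of 0 1 v111 1336786951 (by decide +kernel) (good_ofj c2_1198) (good_ofj c2_1199) rfl rfl

theorem t2_1345 : Good (Q 9) [v111, v38, v526, v257, v523, v37] :=
  split_of 1 4 v529 1325816608 (by decide +kernel) (good_ofj c2_1200) (good_ofj c2_1201) rfl rfl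

theorem t2_1346 : Good (Q 9) [v108, v38, v526, v257, v523, v37] :=
  split_of 0 1 v111 1336786951 (by decide +kernel) t2_1345 (good_ofj c2_1202) rfl rfl

theorem t2_1347 : Good (Q 9) [v108, v38, v259, v257, v526, v37] :=
  split_of 0 1 v111 1336786951 (by decide +kernel) (good_ofj c2_1203) (good_ofj c2_1204) rfl rfl

theorem t2_1348 : Good (Q 9) [v109, v43, v42, v259, v526, v112] :=
  split_of 0 1 v113 1348854888 (by decide +kernel) (good_ofj c2_1206) (good_ofj c2_1207) rfl rfl

theorem t2_1349 : Good (Q 9) [v109, v43, v42, v259, v526, v37] :=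
  split_of 0 5 v112 1346097975 (by decide +kernel) (good_ofj c2_1205) t2_1348 rfl rfl

theorem t2_1350 : Good (Q 7) [v113, v43, v527, v259, v526, v42] :=
  split_of 1 4 v540 1345906828 (by decide +kernel) (good_ofj c2_1208) (good_ofj c2_1209) rfl rfl

theorem t2_1351 : Good (Q 8) [v113, v43, v527, v259, v526, v42] :=
  P_of 7 8 0xffffffffffffffffffffffffffffff71dc4358d7348d22e0b7300c02f4bd2e4b8ffffffffffffffffffffffffffffff2d0b53f0fa42509509442c4b22c4b12c0b0
    (by decide +kernel) t2_1350

theorem t2_1352 : Good (Q 9) [v113, v43, v527, v259, v526, v42] :=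
  P_of 8 9 0xfffffffffffffffffffffffffffffffffff354d6348d22e0b8300c02f4bd2e8b9ffffffffffffffffffffffffffffff2d0b43f0fc42509509422c4b12c4b12c0b0
    (by decide +kernel) t2_1351

theorem t2_1353 : Good (Q 9) [v109, v43, v527, v259, v526, v42] :=
  split_of 0 1 v113 1348854888 (by decide +kernel) t2_1352 (good_ofj c2_1210) rfl rfl

theorem t2_1354 : Good (Q 7) [v113, v43, v260, v259, v527, v42] :=
  split_of 3 5 v283 1347395043 (by decide +kernel) (good_ofj c2_1211) (good_ofj c2_1212) rfl rfl

theorem t2_1355 : Good (Q 8) [v113, v43, v260, v259, v527, v42] :=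
  P_of 7 8 0xffffffffffffffffffffffffffffff71dc4354d7348d22e4b82fcbf2f8be2e4b8ffffffffffffffffffffffffffffff2ccb43f0fa42509509452c8b32c4b02c0b0
    (by decide +kernel) t2_1354

theorem t2_1356 : Good (Q 9) [v113, v43, v260, v259, v527, v42] :=
  P_of 8 9 0xfffffffffffffffffffffffffffffffffff354d5348d22e4b92fcbf2f8be2e4b9ffffffffffffffffffffffffffffff2ccb33f0fc42509509422c8b22c4b12c0b0
    (by decide +kernel) t2_1355

theorem t2_1357 : Good (Q 9) [v109, v43, v260, v259, v527, v42] :=
  split_of 0 1 v113 1348854888 (by decide +kernel) t2_1356 (good_ofj c2_1213) rfl rfl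

theorem t2_1358 : Good (Q 9) [v115, v43, v99, v260, v527, v101] :=
  split_of 1 4 v541 1349325384 (by decide +kernel) (good_ofj c2_1216) (good_ofj c2_1217) rfl rfl

theorem t2_1359 : Good (Q 9) [v115, v43, v99, v260, v527, v42] :=
  split_of 1 5 v101 1349299878 (by decide +kernel) (good_ofj c2_1215) t2_1358 rfl rfl

theorem t2_1360 : Good (Q 9) [v114, v43, v99, v260, v527, v42] :=
  split_of 0 1 v115 1350548520 (by decide +kernel) t2_1359 (good_ofj c2_1218) rfl rfl

theorem t2_1361 : Good (Q 9) [v114, v43, v7, v260, v527, v42] :=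
  split_of 1 2 v99 1351535087 (by decide +kernel) (good_ofj c2_1214) t2_1360 rfl rfl

theorem t2_1362 : Good (Q 9) [v109, v43, v7, v260, v527, v42] :=
  split_of 0 2 v114 1351479933 (by decide +kernel) t2_1361 (good_ofj c2_1219) rfl rfl

theorem t2_1363 : Good (Q 9) [v109, v43, v7, v259, v527, v42] :=
  split_of 2 3 v260 1350429413 (by decide +kernel) t2_1357 t2_1362 rfl rfl

theorem t2_1364 : Good (Q 9) [v109, v43, v7, v259, v526, v42] :=
  split_of 2 4 v527 1350320645 (by decide +kernel) t2_1353 t2_1363 rfl rfl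

theorem t2_1365 : Good (Q 9) [v109, v43, v7, v259, v526, v37] :=
  split_of 2 5 v42 1350220494 (by decide +kernel) t2_1349 t2_1364 rfl rfl

theorem t2_1366 : Good (Q 9) [v117, v38, v43, v259, v526, v118] :=
  split_of 1 4 v542 1339150560 (by decide +kernel) (good_ofj c2_1221) (good_ofj c2_1222) rfl rfl

theorem t2_1367 : Good (Q 9) [v117, v38, v43, v259, v526, v37] :=
  split_of 1 5 v118 1339055755 (by decide +kernel) (good_ofj c2_1220) t2_1366 rfl rfl

theorem t2_1368 : Good (Q 9) [v109, v38, v43, v259, v526, v37] :=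
  split_of 0 1 v117 1343797121 (by decide +kernel) t2_1367 (good_ofj c2_1223) rfl rfl

theorem t2_1369 : Good (Q 9) [v109, v38, v7, v259, v526, v37] :=
  split_of 1 2 v43 1347746544 (by decide +kernel) t2_1365 t2_1368 rfl rfl

theorem t2_1370 : Good (Q 9) [v108, v38, v7, v259, v526, v37] :=
  split_of 0 2 v109 1347302695 (by decide +kernel) t2_1369 (good_ofj c2_1224) rfl rfl

theorem t2_1371 : Good (Q 9) [v108, v38, v7, v257, v526, v37] :=
  split_of 2 3 v259 1343280872 (by decide +kernel) t2_1347 t2_1370 rfl rfl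

theorem t2_1372 : Good (Q 9) [v108, v38, v7, v257, v523, v37] :=
  split_of 2 4 v526 1342848033 (by decide +kernel) t2_1346 t2_1371 rfl rfl

theorem t2_1373 : Good (Q 9) [v108, v38, v7, v257, v523, v24] :=
  split_of 2 5 v37 1342484791 (by decide +kernel) t2_1344 t2_1372 rfl rfl

theorem t2_1374 : Good (Q 9) [v120, v524, v38, v257, v523, v28] :=
  split_of 2 4 v529 1325816608 (by decide +kernel) (good_ofj c2_1226) (good_ofj c2_1227) rfl rfl

theorem t2_1375 : Good (Q 9) [v120, v262, v38, v258, v524, v28] :=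
  split_of 0 2 v124 1326818823 (by decide +kernel) (good_ofj c2_1229) (good_ofj c2_1230) rfl rfl

theorem t2_1376 : Good (Q 9) [v120, v262, v38, v257, v524, v28] :=
  split_of 2 3 v258 1326231995 (by decide +kernel) (good_ofj c2_1228) t2_1375 rfl rfl

theorem t2_1377 : Good (Q 7) [v121, v54, v263, v262, v535, v52] :=
  split_of 1 3 v271 1305831726 (by decide +kernel) (good_ofj c2_1233) (good_ofj c2_1234) rfl rfl

theorem t2_1378 : Good (Q 8) [v121, v54, v263, v262, v535, v52] :=
  P_of 7 8 0xffffffffffffffffffffffffffffff51144411053fcfe2bcaf2d0b42d0b42bcafffffffffffffffffffffffffffffff2f0bd33ccf364d9715c52f0bd2e8ba2e8ba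
    (by decide +kernel) t2_1377

theorem t2_1379 : Good (Q 9) [v121, v54, v263, v262, v535, v52] :=
  P_of 8 9 0xffffffffffffffffffffffffffffff52144405043fcff2bcaf2d4b42d4b42bcafffffffffffffffffffffffffffffff2ecbc344cf368d9fffff2ecbc2e8ba2e8ba
    (by decide +kernel) t2_1378

theorem t2_1380 : Good (Q 9) [v121, v54, v38, v263, v535, v52] :=
  split_of 0 2 v123 1319243250 (by decide +kernel) (good_ofj c2_1235) (good_ofj c2_1236) rfl rfl

theorem t2_1381 : Good (Q 9) [v121, v54, v38, v262, v535, v52] :=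
  split_of 2 3 v263 1319089474 (by decide +kernel) t2_1379 t2_1380 rfl rfl

theorem t2_1382 : Good (Q 9) [v121, v54, v38, v262, v524, v52] :=
  split_of 2 4 v535 1318989953 (by decide +kernel) (good_ofj c2_1232) t2_1381 rfl rfl

theorem t2_1383 : Good (Q 9) [v121, v54, v38, v262, v524, v28] :=
  split_of 2 5 v52 1318899466 (by decide +kernel) (good_ofj c2_1231) t2_1382 rfl rfl

theorem t2_1384 : Good (Q 9) [v121, v30, v38, v262, v524, v28] :=
  split_of 1 2 v54 1309864426 (by decide +kernel) t2_1383 (good_ofj c2_1237) rfl rfl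

theorem t2_1385 : Good (Q 9) [v124, v121, v38, v262, v524, v28] :=
  split_of 2 5 v52 1318899466 (by decide +kernel) (good_ofj c2_1238) (good_ofj c2_1239) rfl rfl

theorem t2_1386 : Good (Q 9) [v120, v121, v38, v262, v524, v28] :=
  split_of 0 2 v124 1326818823 (by decide +kernel) t2_1385 (good_ofj c2_1240) rfl rfl

theorem t2_1387 : Good (Q 9) [v120, v30, v38, v262, v524, v28] :=
  split_of 0 1 v121 1301234981 (by decide +kernel) t2_1384 t2_1386 rfl rfl

theorem t2_1388 : Good (Q 9) [v120, v30, v38, v257, v524, v28] :=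
  split_of 1 3 v262 1300565277 (by decide +kernel) t2_1376 t2_1387 rfl rfl

theorem t2_1389 : Good (Q 9) [v120, v30, v38, v257, v523, v28] :=
  split_of 1 4 v524 1300163123 (by decide +kernel) t2_1374 t2_1388 rfl rfl

theorem t2_1390 : Good (Q 9) [v120, v30, v38, v257, v523, v24] :=
  split_of 1 5 v28 1299835258 (by decide +kernel) (good_ofj c2_1225) t2_1389 rfl rfl

theorem t2_1391 : Good (Q 9) [v108, v30, v38, v257, v523, v24] :=
  split_of 0 1 v120 1317105264 (by decide +kernel) t2_1390 (good_ofj c2_1241) rfl rfl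

theorem t2_1392 : Good (Q 9) [v108, v30, v7, v257, v523, v24] :=
  split_of 1 2 v38 1333169107 (by decide +kernel) t2_1373 t2_1391 rfl rfl

theorem t2_1393 : Good (Q 9) [v108, v30, v7, v256, v523, v24] :=
  split_of 1 3 v257 1314661650 (by decide +kernel) t2_1343 t2_1392 rfl rfl

theorem t2_1394 : Good (Q 9) [v108, v30, v7, v256, v521, v24] :=
  split_of 1 4 v523 1312910633 (by decide +kernel) t2_1335 t2_1393 rfl rfl

theorem t2_1395 : Good (Q 9) [v108, v30, v7, v256, v521, v19] :=
  split_of 1 5 v24 1311740689 (by decide +kernel) t2_1327 t2_1394 rfl rfl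

theorem t2_1396 : Good (Q 9) [v107, v30, v7, v256, v521, v19] :=
  split_of 0 2 v108 1329531520 (by decide +kernel) t2_1395 (good_ofj c2_1242) rfl rfl

theorem t2_1397 : Good (Q 9) [v107, v30, v7, v255, v521, v19] :=
  split_of 2 3 v256 1321273347 (by decide +kernel) (good_ofj c2_1171) t2_1396 rfl rfl

theorem t2_1398 : Good (Q 9) [v107, v30, v7, v255, v521, v0] :=
  split_of 2 5 v19 1309159440 (by decide +kernel) (good_ofj c2_1170) t2_1397 rfl rfl

theorem t2_1399 : Good (Q 10) [v107, v30, v7, v255, v521, v0] :=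
  env_E _ t2_1398

theorem t2_1400 : Good (Q 10) [v107, v30, v7, v255, v313, v0] :=
  split_of 2 4 v521 1312910633 (by decide +kernel) (good_ofj c2_1169) t2_1399 rfl rfl

theorem t2_1401 : Good (Q 10) [v125, v30, v7, v255, v313, v0] :=
  split_of 0 2 v107 1245967015 (by decide +kernel) t2_1400 (good_ofj c2_1243) rfl rfl

theorem t2_1402 : Good (Q 10) [v125, v30, v7, v178, v313, v0] :=
  split_of 0 3 v255 1202967926 (by decide +kernel) t2_1320 t2_1401 rfl rfl

theorem t2_1403 : Good (Q 10) [v125, v30, v7, v178, v306, v0] :=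
  split_of 0 4 v313 1156653316 (by decide +kernel) t2_1119 t2_1402 rfl rfl

theorem t2_1404 : Good (Q 10) [v125, v30, v7, v178, v306, v5] :=
  split_of 0 5 v0 1156653316 (by decide +kernel) t2_928 t2_1403 rfl rfl

theorem t2_1405 : Good (Q 10) [v288, v30, v477, v10, v185, v15] :=
  split_of 0 1 v575 1276522950 (by decide +kernel) (good_ofj c2_1250) (good_ofj c2_1251) rfl rfl

theorem t2_1406 : Good (Q 10) [v288, v30, v287, v10, v185, v15] :=
  split_of 1 2 v477 1264886921 (by decide +kernel) (good_ofj c2_1249) t2_1405 rfl rfl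

theorem t2_1407 : Good (Q 10) [v288, v30, v287, v10, v176, v15] :=
  split_of 1 4 v185 1293212810 (by decide +kernel) (good_ofj c2_1248) t2_1406 rfl rfl

theorem t2_1408 : Good (Q 9) [v60, v30, v575, v10, v576, v15] :=
  split_of 1 5 v21 1288860967 (by decide +kernel) (good_ofj c2_1255) (good_ofj c2_1256) rfl rfl

theorem t2_1409 : Good (Q 10) [v60, v30, v575, v10, v576, v15] :=
  env_E _ t2_1408

theorem t2_1410 : Good (Q 10) [v60, v30, v575, v10, v182, v15] :=
  split_of 1 4 v576 1287160621 (by decide +kernel) (good_ofj c2_1254) t2_1409 rfl rfl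

theorem t2_1411 : Good (Q 10) [v60, v30, v288, v10, v182, v15] :=
  split_of 1 2 v575 1276522950 (by decide +kernel) (good_ofj c2_1253) t2_1410 rfl rfl

theorem t2_1412 : Good (Q 10) [v0, v30, v288, v10, v182, v15] :=
  split_of 0 1 v60 1264382982 (by decide +kernel) t2_1411 (good_ofj c2_1257) rfl rfl

theorem t2_1413 : Good (Q 10) [v0, v30, v288, v10, v176, v15] :=
  split_of 0 4 v182 1251137061 (by decide +kernel) (good_ofj c2_1252) t2_1412 rfl rfl

theorem t2_1414 : Good (Q 10) [v0, v30, v287, v10, v176, v15] :=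
  split_of 0 2 v288 1240491885 (by decide +kernel) t2_1407 t2_1413 rfl rfl

theorem t2_1415 : Good (Q 10) [v0, v30, v287, v10, v176, v5] :=
  split_of 1 5 v15 1256264730 (by decide +kernel) (good_ofj c2_1247) t2_1414 rfl rfl

theorem t2_1416 : Good (Q 10) [v0, v30, v287, v3, v176, v5] :=
  split_of 1 3 v10 1307275754 (by decide +kernel) (good_ofj c2_1246) t2_1415 rfl rfl

theorem t2_1417 : Good (Q 10) [v0, v30, v286, v3, v176, v5] :=
  split_of 1 2 v287 1222692218 (by decide +kernel) (good_ofj c2_1245) t2_1416 rfl rfl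

theorem t2_1418 : Good (Q 10) [v0, v30, v286, v3, v179, v5] :=
  split_of 1 4 v176 1268403305 (by decide +kernel) (good_ofj c2_1244) t2_1417 rfl rfl

theorem t2_1419 : Good (Q 10) [v218, v30, v287, v6, v182, v0] :=
  split_of 2 5 v288 1240491885 (by decide +kernel) (good_ofj c2_1260) (good_ofj c2_1261) rfl rfl

theorem t2_1420 : Good (Q 10) [v218, v30, v287, v6, v176, v0] :=
  split_of 4 5 v182 1251137061 (by decide +kernel) t2_1419 (good_ofj c2_1262) rfl rfl

theorem t2_1421 : Good (Q 10) [v218, v30, v287, v3, v176, v0] :=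
  split_of 3 5 v6 1266396334 (by decide +kernel) t2_1420 (good_ofj c2_1263) rfl rfl

theorem t2_1422 : Good (Q 10) [v218, v30, v286, v3, v176, v0] :=
  split_of 1 2 v287 1222692218 (by decide +kernel) (good_ofj c2_1259) t2_1421 rfl rfl

theorem t2_1423 : Good (Q 10) [v218, v30, v286, v3, v179, v0] :=
  split_of 1 4 v176 1268403305 (by decide +kernel) (good_ofj c2_1258) t2_1422 rfl rfl

theorem t2_1424 : Good (Q 10) [v84, v30, v289, v3, v218, v0] :=
  split_of 3 5 v6 1266396334 (by decide +kernel) (good_ofj c2_1264) (good_ofj c2_1265) rfl rfl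

theorem t2_1425 : Good (Q 10) [v84, v30, v287, v3, v218, v289] :=
  split_of 3 4 v500 1269404413 (by decide +kernel) (good_ofj c2_1267) (good_ofj c2_1268) rfl rfl

theorem t2_1426 : Good (Q 10) [v84, v30, v286, v3, v218, v289] :=
  split_of 1 2 v287 1222692218 (by decide +kernel) (good_ofj c2_1266) t2_1425 rfl rfl

theorem t2_1427 : Good (Q 10) [v84, v30, v286, v3, v218, v0] :=
  split_of 2 5 v289 1190588519 (by decide +kernel) t2_1424 t2_1426 rfl rfl

theorem t2_1428 : Good (Q 10) [v290, v30, v286, v84, v218, v0] :=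
  split_of 2 5 v289 1190588519 (by decide +kernel) (good_ofj c2_1269) (good_ofj c2_1270) rfl rfl

theorem t2_1429 : Good (Q 10) [v291, v30, v286, v84, v218, v0] :=
  split_of 0 2 v290 1149226036 (by decide +kernel) t2_1428 (good_ofj c2_1271) rfl rfl

theorem t2_1430 : Good (Q 10) [v294, v30, v295, v106, v252, v60] :=
  split_of 1 5 v61 1283257153 (by decide +kernel) (good_ofj c2_1277) (good_ofj c2_1278) rfl rfl

theorem t2_1431 : Good (Q 10) [v294, v30, v293, v106, v252, v60] :=
  split_of 1 2 v295 1268700674 (by decide +kernel) (good_ofj c2_1276) t2_1430 rfl rfl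

theorem t2_1432 : Good (Q 10) [v294, v30, v293, v84, v252, v60] :=
  split_of 1 3 v106 1281296482 (by decide +kernel) (good_ofj c2_1275) t2_1431 rfl rfl

theorem t2_1433 : Good (Q 10) [v294, v30, v293, v84, v252, v0] :=
  split_of 1 5 v60 1264382982 (by decide +kernel) (good_ofj c2_1274) t2_1432 rfl rfl

theorem t2_1434 : Good (Q 10) [v294, v30, v293, v84, v218, v0] :=
  split_of 1 4 v252 1270403944 (by decide +kernel) (good_ofj c2_1273) t2_1433 rfl rfl

theorem t2_1435 : Good (Q 10) [v292, v30, v293, v84, v218, v0] :=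
  split_of 0 1 v294 1251137061 (by decide +kernel) t2_1434 (good_ofj c2_1279) rfl rfl

theorem t2_1436 : Good (Q 10) [v292, v30, v291, v84, v218, v0] :=
  split_of 1 2 v293 1240622808 (by decide +kernel) (good_ofj c2_1272) t2_1435 rfl rfl

theorem t2_1437 : Good (Q 10) [v125, v30, v291, v84, v218, v0] :=
  split_of 0 1 v292 1161452763 (by decide +kernel) t2_1436 (good_ofj c2_1280) rfl rfl

theorem t2_1438 : Good (Q 10) [v125, v30, v286, v84, v218, v0] :=
  split_of 0 2 v291 1128250058 (by decide +kernel) t2_1429 t2_1437 rfl rfl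

theorem t2_1439 : Good (Q 10) [v125, v30, v286, v3, v218, v0] :=
  split_of 0 3 v84 1229127558 (by decide +kernel) t2_1427 t2_1438 rfl rfl

theorem t2_1440 : Good (Q 10) [v125, v30, v286, v3, v179, v0] :=
  split_of 0 4 v218 1184875434 (by decide +kernel) t2_1423 t2_1439 rfl rfl

theorem t2_1441 : Good (Q 10) [v125, v30, v286, v3, v179, v5] :=
  split_of 0 5 v0 1156653316 (by decide +kernel) t2_1418 t2_1440 rfl rfl

theorem t2_1442 : Good (Q 10) [v0, v30, v308, v128, v14, v15] :=
  split_of 0 3 v142 1268403305 (by decide +kernel) (good_ofj c2_1287) (good_ofj c2_1288) rfl rfl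

theorem t2_1443 : Good (Q 10) [v0, v30, v307, v128, v14, v15] :=
  split_of 0 2 v308 1223769480 (by decide +kernel) (good_ofj c2_1286) t2_1442 rfl rfl

theorem t2_1444 : Good (Q 10) [v0, v30, v307, v128, v1, v15] :=
  split_of 0 4 v14 1255753845 (by decide +kernel) (good_ofj c2_1285) t2_1443 rfl rfl

theorem t2_1445 : Good (Q 10) [v0, v30, v307, v128, v1, v5] :=
  split_of 1 5 v15 1256264730 (by decide +kernel) (good_ofj c2_1284) t2_1444 rfl rfl

theorem t2_1446 : Good (Q 10) [v0, v30, v307, v126, v1, v5] :=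
  split_of 1 3 v128 1307275754 (by decide +kernel) (good_ofj c2_1283) t2_1445 rfl rfl

theorem t2_1447 : Good (Q 10) [v0, v30, v305, v126, v1, v5] :=
  split_of 1 2 v307 1222692218 (by decide +kernel) (good_ofj c2_1282) t2_1446 rfl rfl

theorem t2_1448 : Good (Q 10) [v0, v30, v305, v126, v4, v5] :=
  split_of 1 4 v1 1280313892 (by decide +kernel) (good_ofj c2_1281) t2_1447 rfl rfl

theorem t2_1449 : Good (Q 10) [v151, v30, v308, v128, v14, v0] :=
  split_of 3 5 v142 1268403305 (by decide +kernel) (good_ofj c2_1292) (good_ofj c2_1293) rfl rfl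

theorem t2_1450 : Good (Q 9) [v151, v30, v310, v128, v577, v311] :=
  split_of 0 3 v169 1299805444 (by decide +kernel) (good_ofj c2_1297) (good_ofj c2_1298) rfl rfl

theorem t2_1451 : Good (Q 10) [v151, v30, v310, v128, v577, v311] :=
  env_E _ t2_1450

theorem t2_1452 : Good (Q 10) [v151, v30, v310, v128, v577, v308] :=
  split_of 1 5 v311 1274572497 (by decide +kernel) (good_ofj c2_1296) t2_1451 rfl rfl

theorem t2_1453 : Good (Q 10) [v151, v30, v310, v128, v14, v308] :=
  split_of 1 4 v577 1289891135 (by decide +kernel) (good_ofj c2_1295) t2_1452 rfl rfl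

theorem t2_1454 : Good (Q 10) [v151, v30, v307, v128, v14, v308] :=
  split_of 1 2 v310 1264886921 (by decide +kernel) (good_ofj c2_1294) t2_1453 rfl rfl

theorem t2_1455 : Good (Q 10) [v151, v30, v307, v128, v14, v0] :=
  split_of 2 5 v308 1223769480 (by decide +kernel) t2_1449 t2_1454 rfl rfl

theorem t2_1456 : Good (Q 10) [v62, v30, v307, v128, v14, v0] :=
  split_of 0 1 v151 1273393141 (by decide +kernel) t2_1455 (good_ofj c2_1299) rfl rfl

theorem t2_1457 : Good (Q 9) [v151, v30, v310, v128, v20, v577] :=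
  split_of 0 3 v169 1299805444 (by decide +kernel) (good_ofj c2_1303) (good_ofj c2_1304) rfl rfl

theorem t2_1458 : Good (Q 10) [v151, v30, v310, v128, v20, v577] :=
  env_E _ t2_1457

theorem t2_1459 : Good (Q 10) [v151, v30, v307, v128, v20, v577] :=
  split_of 1 2 v310 1264886921 (by decide +kernel) (good_ofj c2_1302) t2_1458 rfl rfl

theorem t2_1460 : Good (Q 10) [v151, v30, v307, v128, v20, v14] :=
  split_of 1 5 v577 1289891135 (by decide +kernel) (good_ofj c2_1301) t2_1459 rfl rfl

theorem t2_1461 : Good (Q 10) [v151, v30, v307, v128, v1, v14] :=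
  split_of 1 4 v20 1297535559 (by decide +kernel) (good_ofj c2_1300) t2_1460 rfl rfl

theorem t2_1462 : Good (Q 10) [v62, v30, v307, v128, v1, v14] :=
  split_of 0 1 v151 1273393141 (by decide +kernel) t2_1461 (good_ofj c2_1305) rfl rfl

theorem t2_1463 : Good (Q 10) [v62, v30, v307, v128, v1, v0] :=
  split_of 4 5 v14 1255753845 (by decide +kernel) t2_1456 t2_1462 rfl rfl

theorem t2_1464 : Good (Q 10) [v62, v30, v307, v126, v1, v0] :=
  split_of 1 3 v128 1307275754 (by decide +kernel) (good_ofj c2_1291) t2_1463 rfl rfl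

theorem t2_1465 : Good (Q 10) [v62, v30, v305, v126, v1, v0] :=
  split_of 1 2 v307 1222692218 (by decide +kernel) (good_ofj c2_1290) t2_1464 rfl rfl

theorem t2_1466 : Good (Q 10) [v62, v30, v305, v126, v4, v0] :=
  split_of 1 4 v1 1280313892 (by decide +kernel) (good_ofj c2_1289) t2_1465 rfl rfl

theorem t2_1467 : Good (Q 10) [v168, v30, v307, v154, v151, v311] :=
  split_of 2 4 v578 1259702382 (by decide +kernel) (good_ofj c2_1311) (good_ofj c2_1312) rfl rfl

theorem t2_1468 : Good (Q 10) [v168, v30, v307, v154, v151, v308] :=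
  split_of 1 5 v311 1274572497 (by decide +kernel) (good_ofj c2_1310) t2_1467 rfl rfl

theorem t2_1469 : Good (Q 10) [v152, v30, v307, v154, v151, v308] :=
  split_of 0 1 v168 1278344175 (by decide +kernel) t2_1468 (good_ofj c2_1313) rfl rfl

theorem t2_1470 : Good (Q 10) [v152, v30, v307, v127, v151, v308] :=
  split_of 1 3 v154 1298014089 (by decide +kernel) (good_ofj c2_1309) t2_1469 rfl rfl

theorem t2_1471 : Good (Q 10) [v152, v30, v307, v127, v151, v0] :=
  split_of 2 5 v308 1223769480 (by decide +kernel) (good_ofj c2_1308) t2_1470 rfl rfl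

theorem t2_1472 : Good (Q 10) [v152, v30, v307, v127, v62, v0] :=
  split_of 1 4 v151 1273393141 (by decide +kernel) (good_ofj c2_1307) t2_1471 rfl rfl

theorem t2_1473 : Good (Q 9) [v168, v30, v310, v128, v151, v154] :=
  split_of 3 4 v169 1299805444 (by decide +kernel) (good_ofj c2_1318) (good_ofj c2_1319) rfl rfl

theorem t2_1474 : Good (Q 10) [v168, v30, v310, v128, v151, v154] :=
  env_E _ t2_1473

theorem t2_1475 : Good (Q 10) [v168, v30, v307, v128, v151, v154] :=
  split_of 1 2 v310 1264886921 (by decide +kernel) (good_ofj c2_1317) t2_1474 rfl rfl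

theorem t2_1476 : Good (Q 10) [v152, v30, v307, v128, v151, v154] :=
  split_of 0 1 v168 1278344175 (by decide +kernel) t2_1475 (good_ofj c2_1320) rfl rfl

theorem t2_1477 : Good (Q 10) [v152, v30, v307, v128, v151, v127] :=
  split_of 1 5 v154 1298014089 (by decide +kernel) (good_ofj c2_1316) t2_1476 rfl rfl

theorem t2_1478 : Good (Q 10) [v152, v30, v307, v128, v62, v127] :=
  split_of 1 4 v151 1273393141 (by decide +kernel) (good_ofj c2_1315) t2_1477 rfl rfl

theorem t2_1479 : Good (Q 10) [v152, v30, v307, v126, v62, v127] :=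
  split_of 1 3 v128 1307275754 (by decide +kernel) (good_ofj c2_1314) t2_1478 rfl rfl

theorem t2_1480 : Good (Q 10) [v152, v30, v307, v126, v62, v0] :=
  split_of 3 5 v127 1241799870 (by decide +kernel) t2_1472 t2_1479 rfl rfl

theorem t2_1481 : Good (Q 10) [v152, v30, v305, v126, v62, v0] :=
  split_of 1 2 v307 1222692218 (by decide +kernel) (good_ofj c2_1306) t2_1480 rfl rfl

theorem t2_1482 : Good (Q 10) [v320, v30, v307, v168, v151, v311] :=
  split_of 2 4 v578 1259702382 (by decide +kernel) (good_ofj c2_1326) (good_ofj c2_1327) rfl rfl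

theorem t2_1483 : Good (Q 10) [v320, v30, v307, v168, v151, v308] :=
  split_of 1 5 v311 1274572497 (by decide +kernel) (good_ofj c2_1325) t2_1482 rfl rfl

theorem t2_1484 : Good (Q 10) [v320, v30, v307, v152, v151, v308] :=
  split_of 1 3 v168 1278344175 (by decide +kernel) (good_ofj c2_1324) t2_1483 rfl rfl

theorem t2_1485 : Good (Q 10) [v320, v30, v307, v152, v151, v0] :=
  split_of 2 5 v308 1223769480 (by decide +kernel) (good_ofj c2_1323) t2_1484 rfl rfl

theorem t2_1486 : Good (Q 10) [v320, v30, v307, v152, v62, v0] :=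
  split_of 1 4 v151 1273393141 (by decide +kernel) (good_ofj c2_1322) t2_1485 rfl rfl

theorem t2_1487 : Good (Q 10) [v319, v30, v307, v152, v62, v0] :=
  split_of 0 1 v320 1236633639 (by decide +kernel) t2_1486 (good_ofj c2_1328) rfl rfl

theorem t2_1488 : Good (Q 10) [v319, v30, v305, v152, v62, v0] :=
  split_of 1 2 v307 1222692218 (by decide +kernel) (good_ofj c2_1321) t2_1487 rfl rfl

theorem t2_1489 : Good (Q 10) [v321, v30, v305, v152, v62, v0] :=
  split_of 0 2 v319 1069707140 (by decide +kernel) t2_1488 (good_ofj c2_1329) rfl rfl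

theorem t2_1490 : Good (Q 10) [v294, v30, v322, v152, v151, v0] :=
  split_of 1 5 v60 1264382982 (by decide +kernel) (good_ofj c2_1332) (good_ofj c2_1333) rfl rfl

theorem t2_1491 : Good (Q 10) [v294, v30, v322, v152, v62, v0] :=
  split_of 1 4 v151 1273393141 (by decide +kernel) (good_ofj c2_1331) t2_1490 rfl rfl

theorem t2_1492 : Good (Q 10) [v292, v30, v322, v152, v62, v0] :=
  split_of 0 1 v294 1251137061 (by decide +kernel) t2_1491 (good_ofj c2_1334) rfl rfl

theorem t2_1493 : Good (Q 10) [v292, v30, v321, v152, v62, v0] :=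
  split_of 1 2 v322 1233513065 (by decide +kernel) (good_ofj c2_1330) t2_1492 rfl rfl

theorem t2_1494 : Good (Q 10) [v125, v30, v321, v152, v62, v0] :=
  split_of 0 1 v292 1161452763 (by decide +kernel) t2_1493 (good_ofj c2_1335) rfl rfl

theorem t2_1495 : Good (Q 10) [v125, v30, v305, v152, v62, v0] :=
  split_of 0 2 v321 1055249866 (by decide +kernel) t2_1489 t2_1494 rfl rfl

theorem t2_1496 : Good (Q 10) [v125, v30, v305, v126, v62, v0] :=
  split_of 0 3 v152 1202967926 (by decide +kernel) t2_1481 t2_1495 rfl rfl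

theorem t2_1497 : Good (Q 10) [v125, v30, v305, v126, v4, v0] :=
  split_of 0 4 v62 1184875434 (by decide +kernel) t2_1466 t2_1496 rfl rfl

theorem t2_1498 : Good (Q 10) [v125, v30, v305, v126, v4, v5] :=
  split_of 0 5 v0 1156653316 (by decide +kernel) t2_1448 t2_1497 rfl rfl

theorem t2_1499 : Good (Q 10) [v296, v30, v307, v297, v1, v5] :=
  split_of 0 5 v299 1138290630 (by decide +kernel) (good_ofj c2_1339) (good_ofj c2_1340) rfl rfl

theorem t2_1500 : Good (Q 10) [v296, v30, v305, v297, v1, v5] :=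
  split_of 1 2 v307 1222692218 (by decide +kernel) (good_ofj c2_1338) t2_1499 rfl rfl

theorem t2_1501 : Good (Q 10) [v296, v30, v305, v297, v4, v5] :=
  split_of 1 4 v1 1280313892 (by decide +kernel) (good_ofj c2_1337) t2_1500 rfl rfl

theorem t2_1502 : Good (Q 10) [v296, v30, v305, v298, v4, v5] :=
  split_of 1 3 v297 1161452763 (by decide +kernel) (good_ofj c2_1336) t2_1501 rfl rfl

theorem t2_1503 : Good (Q 10) [v0, v30, v307, v300, v14, v15] :=
  split_of 0 2 v308 1223769480 (by decide +kernel) (good_ofj c2_1346) (good_ofj c2_1347) rfl rfl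

theorem t2_1504 : Good (Q 10) [v0, v30, v307, v300, v1, v15] :=
  split_of 0 4 v14 1255753845 (by decide +kernel) (good_ofj c2_1345) t2_1503 rfl rfl

theorem t2_1505 : Good (Q 10) [v0, v30, v307, v299, v1, v15] :=
  split_of 1 3 v300 1260210071 (by decide +kernel) (good_ofj c2_1344) t2_1504 rfl rfl

theorem t2_1506 : Good (Q 10) [v0, v30, v307, v299, v1, v5] :=
  split_of 1 5 v15 1256264730 (by decide +kernel) (good_ofj c2_1343) t2_1505 rfl rfl

theorem t2_1507 : Good (Q 10) [v0, v30, v307, v302, v14, v300] :=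
  split_of 0 2 v308 1223769480 (by decide +kernel) (good_ofj c2_1351) (good_ofj c2_1352) rfl rfl

theorem t2_1508 : Good (Q 10) [v0, v30, v307, v302, v1, v300] :=
  split_of 0 4 v14 1255753845 (by decide +kernel) (good_ofj c2_1350) t2_1507 rfl rfl

theorem t2_1509 : Good (Q 10) [v0, v30, v307, v302, v1, v299] :=
  split_of 1 5 v300 1260210071 (by decide +kernel) (good_ofj c2_1349) t2_1508 rfl rfl

theorem t2_1510 : Good (Q 10) [v0, v30, v307, v296, v1, v299] :=
  split_of 1 3 v302 1222692218 (by decide +kernel) (good_ofj c2_1348) t2_1509 rfl rfl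

theorem t2_1511 : Good (Q 10) [v0, v30, v307, v296, v1, v5] :=
  split_of 3 5 v299 1138290630 (by decide +kernel) t2_1506 t2_1510 rfl rfl

theorem t2_1512 : Good (Q 10) [v0, v30, v305, v296, v1, v5] :=
  split_of 1 2 v307 1222692218 (by decide +kernel) (good_ofj c2_1342) t2_1511 rfl rfl

theorem t2_1513 : Good (Q 10) [v0, v30, v305, v296, v4, v5] :=
  split_of 1 4 v1 1280313892 (by decide +kernel) (good_ofj c2_1341) t2_1512 rfl rfl

theorem t2_1514 : Good (Q 10) [v151, v30, v307, v302, v14, v0] :=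
  split_of 2 5 v308 1223769480 (by decide +kernel) (good_ofj c2_1356) (good_ofj c2_1357) rfl rfl

theorem t2_1515 : Good (Q 10) [v62, v30, v307, v302, v14, v0] :=
  split_of 0 1 v151 1273393141 (by decide +kernel) t2_1514 (good_ofj c2_1358) rfl rfl

theorem t2_1516 : Good (Q 10) [v62, v30, v307, v302, v1, v0] :=
  split_of 4 5 v14 1255753845 (by decide +kernel) t2_1515 (good_ofj c2_1359) rfl rfl

theorem t2_1517 : Good (Q 10) [v62, v30, v307, v296, v1, v0] :=
  split_of 1 3 v302 1222692218 (by decide +kernel) (good_ofj c2_1355) t2_1516 rfl rfl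

theorem t2_1518 : Good (Q 10) [v62, v30, v305, v296, v1, v0] :=
  split_of 1 2 v307 1222692218 (by decide +kernel) (good_ofj c2_1354) t2_1517 rfl rfl

theorem t2_1519 : Good (Q 10) [v62, v30, v305, v296, v4, v0] :=
  split_of 1 4 v1 1280313892 (by decide +kernel) (good_ofj c2_1353) t2_1518 rfl rfl

theorem t2_1520 : Good (Q 10) [v320, v30, v307, v580, v151, v0] :=
  split_of 2 5 v308 1223769480 (by decide +kernel) (good_ofj c2_1364) (good_ofj c2_1365) rfl rfl

theorem t2_1521 : Good (Q 10) [v320, v30, v307, v580, v62, v0] :=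
  split_of 1 4 v151 1273393141 (by decide +kernel) (good_ofj c2_1363) t2_1520 rfl rfl

theorem t2_1522 : Good (Q 10) [v319, v30, v307, v580, v62, v0] :=
  split_of 0 1 v320 1236633639 (by decide +kernel) t2_1521 (good_ofj c2_1366) rfl rfl

theorem t2_1523 : Good (Q 10) [v319, v30, v307, v579, v62, v0] :=
  split_of 1 3 v580 1233513065 (by decide +kernel) (good_ofj c2_1362) t2_1522 rfl rfl

theorem t2_1524 : Good (Q 10) [v319, v30, v305, v579, v62, v0] :=
  split_of 1 2 v307 1222692218 (by decide +kernel) (good_ofj c2_1361) t2_1523 rfl rfl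

theorem t2_1525 : Good (Q 10) [v321, v30, v305, v579, v62, v0] :=
  split_of 0 2 v319 1069707140 (by decide +kernel) t2_1524 (good_ofj c2_1367) rfl rfl

theorem t2_1526 : Good (Q 10) [v321, v30, v305, v296, v62, v0] :=
  split_of 2 3 v579 1055249866 (by decide +kernel) (good_ofj c2_1360) t2_1525 rfl rfl

theorem t2_1527 : Good (Q 10) [v125, v30, v305, v296, v62, v0] :=
  split_of 0 2 v321 1055249866 (by decide +kernel) t2_1526 (good_ofj c2_1368) rfl rfl

theorem t2_1528 : Good (Q 10) [v125, v30, v305, v296, v4, v0] :=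
  split_of 0 4 v62 1184875434 (by decide +kernel) t2_1519 t2_1527 rfl rfl

theorem t2_1529 : Good (Q 10) [v125, v30, v305, v296, v4, v5] :=
  split_of 0 5 v0 1156653316 (by decide +kernel) t2_1513 t2_1528 rfl rfl

theorem t2_1530 : Good (Q 10) [v125, v30, v305, v298, v4, v5] :=
  split_of 0 3 v296 1014622444 (by decide +kernel) t2_1502 t2_1529 rfl rfl

theorem t2_1531 : Good (Q 8) [v332, v336, v333, v331, v582, v334] :=
  split_of 1 4 v583 343411488 (by decide +kernel) (good_ofj c2_1378) (good_ofj c2_1379) rfl rfl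

theorem t2_1532 : Good (Q 8) [v332, v336, v333, v331, v582, v329] :=
  split_of 1 5 v334 376083352 (by decide +kernel) (good_ofj c2_1377) t2_1531 rfl rfl

theorem t2_1533 : Good (Q 10) [v332, v336, v333, v331, v582, v329] :=
  fin_of 8 0xfffffffffffffffffffffffffffffffffff20c83fffffffffffffffffffffffff
    (by decide +kernel) t2_1532

theorem t2_1534 : Good (Q 10) [v332, v336, v328, v331, v582, v329] :=
  split_of 1 2 v333 485225728 (by decide +kernel) (good_ofj c2_1376) t2_1533 rfl rfl

theorem t2_1535 : Good (Q 10) [v327, v336, v328, v331, v582, v329] :=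
  split_of 0 1 v332 0 (by decide +kernel) t2_1534 (good_ofj c2_1380) rfl rfl

theorem t2_1536 : Good (Q 10) [v327, v336, v328, v326, v582, v329] :=
  split_of 1 3 v331 587809108 (by decide +kernel) (good_ofj c2_1375) t2_1535 rfl rfl

theorem t2_1537 : Good (Q 10) [v327, v336, v328, v326, v581, v329] :=
  split_of 1 4 v582 531219219 (by decide +kernel) (good_ofj c2_1374) t2_1536 rfl rfl

theorem t2_1538 : Good (Q 10) [v327, v336, v328, v326, v581, v324] :=
  split_of 1 5 v329 578326658 (by decide +kernel) (good_ofj c2_1373) t2_1537 rfl rfl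

theorem t2_1539 : Good (Q 10) [v327, v336, v286, v326, v581, v324] :=
  split_of 1 2 v328 731669392 (by decide +kernel) (good_ofj c2_1372) t2_1538 rfl rfl

theorem t2_1540 : Good (Q 10) [v125, v327, v286, v326, v581, v324] :=
  split_of 0 2 v291 1128250058 (by decide +kernel) (good_ofj c2_1381) (good_ofj c2_1382) rfl rfl

theorem t2_1541 : Good (Q 10) [v125, v336, v286, v326, v581, v324] :=
  split_of 0 1 v327 0 (by decide +kernel) t2_1539 t2_1540 rfl rfl

theorem t2_1542 : Good (Q 10) [v125, v336, v286, v3, v581, v324] :=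
  split_of 1 3 v326 886354346 (by decide +kernel) (good_ofj c2_1371) t2_1541 rfl rfl

theorem t2_1543 : Good (Q 10) [v125, v336, v286, v3, v179, v324] :=
  split_of 1 4 v581 795238983 (by decide +kernel) (good_ofj c2_1370) t2_1542 rfl rfl

theorem t2_1544 : Good (Q 10) [v125, v336, v286, v3, v179, v5] :=
  split_of 1 5 v324 852229450 (by decide +kernel) (good_ofj c2_1369) t2_1543 rfl rfl

end Pool.Agent.U316.Ep
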