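import Pool.Agent.U316.Ep.Cert.P49
import Pool.Agent.U316.Ep.Cert.P50
import Pool.Agent.U316.Ep.Cert.P51
import Pool.Agent.U316.Ep.Cert.P52
import Pool.Agent.U316.Ep.Cert.P53
import Pool.Agent.U316.Ep.Cert.P54
import Pool.Agent.U316.Ep.Cert.P55
import Pool.Agent.U316.Ep.Cert.P56
import Pool.Agent.U316.Ep.Cert.P57
import Pool.Agent.U316.Ep.Cert.P58
import Pool.Agent.U316.Ep.Cert.P59
import Pool.Agent.U316.Ep.Cert.P60
import Pool.Agent.U316.Ep.Cert.P61
import Pool.Agent.U316.Ep.Cert.P62
import Pool.Agent.U316.Ep.Gd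

/-!
# Bisections
-/

set_option autoImplicit false
set_option maxRecDepth 100000

namespace Pool.Agent.U316.Ep

theorem t3_0 : Good (Q 9) [v347, v30, v348, v22, v405, v346] :=
  split_of 1 3 v29 1293604245 (by decide +kernel) (good_ofj c3_9) (good_ofj c3_10) rfl rfl

theorem t3_1 : Good (Q 9) [v347, v30, v345, v22, v405, v346] :=
  split_of 1 2 v348 1315051345 (by decide +kernel) (good_ofj c3_8) t3_0 rfl rfl

theorem t3_2 : Good (Q 9) [v347, v30, v345, v22, v403, v346] :=
  split_of 1 4 v405 1290828974 (by decide +kernel) (good_ofj c3_7) t3_1 rfl rfl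

theorem t3_3 : Good (Q 9) [v344, v30, v345, v22, v403, v346] :=
  split_of 0 1 v347 1313640791 (by decide +kernel) t3_2 (good_ofj c3_11) rfl rfl

theorem t3_4 : Good (Q 9) [v344, v30, v345, v22, v403, v342] :=
  split_of 1 5 v346 1289073195 (by decide +kernel) (good_ofj c3_6) t3_3 rfl rfl

theorem t3_5 : Good (Q 9) [v344, v30, v345, v10, v403, v342] :=
  split_of 1 3 v22 1303729140 (by decide +kernel) (good_ofj c3_5) t3_4 rfl rfl

theorem t3_6 : Good (Q 9) [v347, v30, v410, v29, v405, v348] :=
  split_of 0 1 v350 1298242015 (by decide +kernel) (good_ofj c3_17) (good_ofj c3_18) rfl rfl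

theorem t3_7 : Good (Q 9) [v347, v30, v410, v22, v405, v348] :=
  split_of 1 3 v29 1293604245 (by decide +kernel) (good_ofj c3_16) t3_6 rfl rfl

theorem t3_8 : Good (Q 9) [v347, v30, v409, v22, v405, v348] :=
  split_of 1 2 v410 1315466281 (by decide +kernel) (good_ofj c3_15) t3_7 rfl rfl

theorem t3_9 : Good (Q 9) [v347, v30, v409, v22, v405, v345] :=
  split_of 1 5 v348 1315051345 (by decide +kernel) (good_ofj c3_14) t3_8 rfl rfl

theorem t3_10 : Good (Q 9) [v347, v30, v409, v22, v403, v345] :=
  split_of 1 4 v405 1290828974 (by decide +kernel) (good_ofj c3_13) t3_9 rfl rfl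

theorem t3_11 : Good (Q 9) [v344, v30, v409, v22, v403, v345] :=
  split_of 0 1 v347 1313640791 (by decide +kernel) t3_10 (good_ofj c3_19) rfl rfl

theorem t3_12 : Good (Q 9) [v344, v38, v103, v22, v409, v345] :=
  split_of 0 1 v365 1335037006 (by decide +kernel) (good_ofj c3_20) (good_ofj c3_21) rfl rfl

theorem t3_13 : Good (Q 9) [v354, v43, v7, v353, v413, v352] :=
  split_of 2 5 v355 1351763844 (by decide +kernel) (good_ofj c3_25) (good_ofj c3_26) rfl rfl

theorem t3_14 : Good (Q 9) [v351, v43, v7, v353, v413, v352] :=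
  split_of 0 2 v354 1351504063 (by decide +kernel) t3_13 (good_ofj c3_27) rfl rfl

theorem t3_15 : Good (Q 9) [v351, v43, v7, v103, v413, v352] :=
  split_of 2 3 v353 1349522479 (by decide +kernel) (good_ofj c3_24) t3_14 rfl rfl

theorem t3_16 : Good (Q 9) [v356, v38, v43, v103, v413, v352] :=
  split_of 1 5 v357 1343006453 (by decide +kernel) (good_ofj c3_28) (good_ofj c3_29) rfl rfl

theorem t3_17 : Good (Q 9) [v351, v38, v43, v103, v413, v352] :=
  split_of 0 1 v356 1342711840 (by decide +kernel) t3_16 (good_ofj c3_30) rfl rfl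

theorem t3_18 : Good (Q 9) [v351, v38, v7, v103, v413, v352] :=
  split_of 1 2 v43 1347746544 (by decide +kernel) t3_15 t3_17 rfl rfl

theorem t3_19 : Good (Q 9) [v351, v38, v7, v103, v409, v352] :=
  split_of 2 4 v413 1349038282 (by decide +kernel) (good_ofj c3_23) t3_18 rfl rfl

theorem t3_20 : Good (Q 9) [v351, v38, v7, v103, v409, v345] :=
  split_of 2 5 v352 1348588359 (by decide +kernel) (good_ofj c3_22) t3_19 rfl rfl

theorem t3_21 : Good (Q 9) [v344, v38, v7, v103, v409, v345] :=
  split_of 0 2 v351 1347496915 (by decide +kernel) t3_20 (good_ofj c3_31) rfl rfl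

theorem t3_22 : Good (Q 9) [v344, v38, v7, v22, v409, v345] :=
  split_of 2 3 v103 1339964634 (by decide +kernel) t3_12 t3_21 rfl rfl

theorem t3_23 : Good (Q 8) [v347, v348, v38, v366, v409, v345] :=
  split_of 2 5 v358 1336275849 (by decide +kernel) (good_ofj c3_32) (good_ofj c3_33) rfl rfl

theorem t3_24 : Good (Q 8) [v347, v348, v38, v22, v409, v345] :=
  split_of 3 5 v366 1323523715 (by decide +kernel) t3_23 (good_ofj c3_34) rfl rfl

theorem t3_25 : Good (Q 9) [v347, v348, v38, v22, v409, v345] :=
  P_of 8 9 0xfffffffffffffffffffffffffffffffffff3b4ed3c4f22bcad2dcb82d0b42e0b9ffffffffffffffffffffffffffffff2e8ba390e33a0e8fffff2c4b02d4b52e8ba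
    (by decide +kernel) t3_24

theorem t3_26 : Good (Q 8) [v347, v410, v38, v25, v409, v348] :=
  split_of 0 4 v419 1328098027 (by decide +kernel) (good_ofj c3_36) (good_ofj c3_37) rfl rfl

theorem t3_27 : Good (Q 8) [v347, v410, v38, v22, v409, v348] :=
  split_of 2 3 v25 1321013612 (by decide +kernel) (good_ofj c3_35) t3_26 rfl rfl

theorem t3_28 : Good (Q 9) [v347, v410, v38, v22, v409, v348] :=
  P_of 8 9 0xffffffffffffffffffffffffffffff5c9733b8ee3ccf22bcae2dcb72d4b52e0b9ffffffffffffffffffffffffffffff2e4ba38ce339ce8fffff2c8b12d4b52e8bb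
    (by decide +kernel) t3_27

theorem t3_29 : Good (Q 9) [v347, v29, v38, v22, v410, v348] :=
  split_of 2 3 v25 1321013612 (by decide +kernel) (good_ofj c3_38) (good_ofj c3_39) rfl rfl

theorem t3_30 : Good (Q 9) [v360, v54, v38, v53, v410, v348] :=
  split_of 2 5 v361 1325072467 (by decide +kernel) (good_ofj c3_41) (good_ofj c3_42) rfl rfl

theorem t3_31 : Good (Q 9) [v347, v54, v38, v53, v410, v348] :=
  split_of 0 2 v360 1324737533 (by decide +kernel) t3_30 (good_ofj c3_43) rfl rfl

theorem t3_32 : Good (Q 9) [v347, v54, v38, v29, v410, v348] :=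
  split_of 2 3 v53 1316091829 (by decide +kernel) (good_ofj c3_40) t3_31 rfl rfl

theorem t3_33 : Good (Q 7) [v350, v362, v54, v363, v410, v348] :=
  split_of 2 5 v424 1312880953 (by decide +kernel) (good_ofj c3_44) (good_ofj c3_45) rfl rfl

theorem t3_34 : Good (Q 7) [v350, v362, v54, v29, v410, v348] :=
  split_of 3 5 v363 1305239268 (by decide +kernel) t3_33 (good_ofj c3_46) rfl rfl

theorem t3_35 : Good (Q 8) [v350, v362, v54, v29, v410, v348] :=
  P_of 7 8 0xffffffffffffffffffffffffffffff5014040902415052b8ad2ccb42c4b22d0b4ffffffffffffffffffffffffffffff2f8bf344d1350d4729ca2e0b82ecbb2f8bf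
    (by decide +kernel) t3_34

theorem t3_36 : Good (Q 9) [v350, v362, v54, v29, v410, v348] :=
  P_of 8 9 0xffffffffffffffffffffffffffffff5013f40902415062bcae2ccb42c4b12d0b4ffffffffffffffffffffffffffffff2f8be348d134cd3fffff2e0b82f0bb2f8be
    (by decide +kernel) t3_35

theorem t3_37 : Good (Q 9) [v350, v30, v54, v29, v410, v348] :=
  split_of 1 5 v362 1298624358 (by decide +kernel) t3_36 (good_ofj c3_47) rfl rfl

theorem t3_38 : Good (Q 7) [v347, v350, v54, v29, v410, v348] :=
  split_of 0 3 v364 1304891300 (by decide +kernel) (good_ofj c3_48) (good_ofj c3_49) rfl rfl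

theorem t3_39 : Good (Q 8) [v347, v350, v54, v29, v410, v348] :=
  P_of 7 8 0xffffffffffffffffffffffffffffff5094340500411042b4ac2d0b42c8b22d0b5ffffffffffffffffffffffffffffff2f8be344d2354d671dc62e0b62ecba2f8be
    (by decide +kernel) t3_38

theorem t3_40 : Good (Q 9) [v347, v350, v54, v29, v410, v348] :=
  P_of 8 9 0xffffffffffffffffffffffffffffff5054140501411042b8ad2d0b42c8b22ccb4ffffffffffffffffffffffffffffff2f8be344d1354d5fffff2e0b82ecbb2f8be
    (by decide +kernel) t3_39

theorem t3_41 : Good (Q 9) [v347, v30, v54, v29, v410, v348] :=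
  split_of 0 1 v350 1298242015 (by decide +kernel) t3_37 t3_40 rfl rfl

theorem t3_42 : Good (Q 9) [v347, v30, v38, v29, v410, v348] :=
  split_of 1 2 v54 1309864426 (by decide +kernel) t3_32 t3_41 rfl rfl

theorem t3_43 : Good (Q 9) [v347, v30, v38, v22, v410, v348] :=
  split_of 1 3 v29 1293604245 (by decide +kernel) t3_29 t3_42 rfl rfl

theorem t3_44 : Good (Q 9) [v347, v30, v38, v22, v409, v348] :=
  split_of 1 4 v410 1315466281 (by decide +kernel) t3_28 t3_43 rfl rfl

theorem t3_45 : Good (Q 9) [v347, v30, v38, v22, v409, v345] :=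
  split_of 1 5 v348 1315051345 (by decide +kernel) t3_25 t3_44 rfl rfl

theorem t3_46 : Good (Q 8) [v365, v347, v38, v22, v409, v366] :=
  split_of 2 3 v25 1321013612 (by decide +kernel) (good_ofj c3_51) (good_ofj c3_52) rfl rfl

theorem t3_47 : Good (Q 8) [v365, v347, v38, v22, v409, v345] :=
  split_of 3 5 v366 1323523715 (by decide +kernel) (good_ofj c3_50) t3_46 rfl rfl

theorem t3_48 : Good (Q 9) [v365, v347, v38, v22, v409, v345] :=
  P_of 8 9 0xfffffffffffffffffffffffffffffffffff3b4ed3c8f32bcae2dcb82d4b42e0b9ffffffffffffffffffffffffffffff2e4ba390e33a4e8fffff2c4b02d4b52e8ba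
    (by decide +kernel) t3_47

theorem t3_49 : Good (Q 9) [v344, v347, v38, v22, v409, v345] :=
  split_of 0 2 v365 1335037006 (by decide +kernel) t3_48 (good_ofj c3_53) rfl rfl

theorem t3_50 : Good (Q 9) [v344, v30, v38, v22, v409, v345] :=
  split_of 0 1 v347 1313640791 (by decide +kernel) t3_45 t3_49 rfl rfl

theorem t3_51 : Good (Q 9) [v344, v30, v7, v22, v409, v345] :=
  split_of 1 2 v38 1333169107 (by decide +kernel) t3_22 t3_50 rfl rfl

theorem t3_52 : Good (Q 9) [v344, v30, v7, v22, v403, v345] :=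
  split_of 2 4 v409 1337829094 (by decide +kernel) t3_11 t3_51 rfl rfl

theorem t3_53 : Good (Q 9) [v344, v30, v7, v10, v403, v345] :=
  split_of 1 3 v22 1303729140 (by decide +kernel) (good_ofj c3_12) t3_52 rfl rfl

theorem t3_54 : Good (Q 9) [v344, v30, v7, v10, v403, v342] :=
  split_of 2 5 v345 1335968999 (by decide +kernel) t3_5 t3_53 rfl rfl

theorem t3_55 : Good (Q 10) [v344, v30, v7, v10, v403, v342] :=
  env_E _ t3_54

theorem t3_56 : Good (Q 9) [v367, v30, v347, v22, v403, v346] :=
  split_of 1 4 v405 1290828974 (by decide +kernel) (good_ofj c3_57) (good_ofj c3_58) rfl rfl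

theorem t3_57 : Good (Q 9) [v367, v30, v344, v22, v403, v346] :=
  split_of 1 2 v347 1313640791 (by decide +kernel) (good_ofj c3_56) t3_56 rfl rfl

theorem t3_58 : Good (Q 9) [v367, v30, v344, v10, v403, v346] :=
  split_of 1 3 v22 1303729140 (by decide +kernel) (good_ofj c3_55) t3_57 rfl rfl

theorem t3_59 : Good (Q 10) [v367, v30, v344, v10, v403, v346] :=
  env_E _ t3_58

theorem t3_60 : Good (Q 10) [v367, v30, v344, v10, v403, v342] :=
  split_of 1 5 v346 1289073195 (by decide +kernel) (good_ofj c3_54) t3_59 rfl rfl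

theorem t3_61 : Good (Q 10) [v343, v30, v344, v10, v403, v342] :=
  split_of 0 1 v367 1282767547 (by decide +kernel) t3_60 (good_ofj c3_59) rfl rfl

theorem t3_62 : Good (Q 10) [v343, v30, v7, v10, v403, v342] :=
  split_of 0 2 v344 1331125411 (by decide +kernel) t3_55 t3_61 rfl rfl

theorem t3_63 : Good (Q 10) [v343, v30, v7, v10, v399, v342] :=
  split_of 1 4 v403 1293212810 (by decide +kernel) (good_ofj c3_4) t3_62 rfl rfl

theorem t3_64 : Good (Q 10) [v343, v30, v7, v3, v399, v342] :=
  split_of 1 3 v10 1307275754 (by decide +kernel) (good_ofj c3_3) t3_63 rfl rfl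

theorem t3_65 : Good (Q 10) [v369, v343, v7, v370, v399, v342] :=
  split_of 2 4 v402 1332942339 (by decide +kernel) (good_ofj c3_61) (good_ofj c3_62) rfl rfl

theorem t3_66 : Good (Q 10) [v369, v343, v7, v3, v399, v342] :=
  split_of 2 3 v370 1324037525 (by decide +kernel) (good_ofj c3_60) t3_65 rfl rfl

theorem t3_67 : Good (Q 10) [v339, v343, v7, v3, v399, v342] :=
  split_of 0 2 v369 1305386625 (by decide +kernel) t3_66 (good_ofj c3_63) rfl rfl

theorem t3_68 : Good (Q 10) [v339, v30, v7, v3, v399, v342] :=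
  split_of 0 1 v343 1260336929 (by decide +kernel) t3_64 t3_67 rfl rfl

theorem t3_69 : Good (Q 10) [v339, v30, v7, v3, v399, v340] :=
  split_of 1 5 v342 1284967838 (by decide +kernel) (good_ofj c3_2) t3_68 rfl rfl

theorem t3_70 : Good (Q 10) [v339, v30, v7, v3, v398, v340] :=
  split_of 1 4 v399 1268403305 (by decide +kernel) (good_ofj c3_1) t3_69 rfl rfl

theorem t3_71 : Good (Q 10) [v339, v30, v7, v3, v398, v341] :=
  split_of 1 5 v340 1222692218 (by decide +kernel) (good_ofj c3_0) t3_70 rfl rfl

theorem t3_72 : Good (Q 10) [v427, v343, v7, v3, v399, v369] :=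
  split_of 2 3 v370 1324037525 (by decide +kernel) (good_ofj c3_66) (good_ofj c3_67) rfl rfl

theorem t3_73 : Good (Q 10) [v426, v343, v7, v3, v399, v369] :=
  split_of 0 2 v427 1315710025 (by decide +kernel) t3_72 (good_ofj c3_68) rfl rfl

theorem t3_74 : Good (Q 10) [v426, v343, v7, v3, v399, v339] :=
  split_of 2 5 v369 1305386625 (by decide +kernel) (good_ofj c3_65) t3_73 rfl rfl

theorem t3_75 : Good (Q 10) [v584, v10, v7, v3, v399, v343] :=
  split_of 3 5 v371 1293694543 (by decide +kernel) (good_ofj c3_69) (good_ofj c3_70) rfl rfl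

theorem t3_76 : Good (Q 10) [v426, v10, v7, v3, v399, v343] :=
  split_of 0 3 v584 1269404413 (by decide +kernel) t3_75 (good_ofj c3_71) rfl rfl

theorem t3_77 : Good (Q 9) [v428, v30, v347, v22, v403, v367] :=
  split_of 1 4 v405 1290828974 (by decide +kernel) (good_ofj c3_76) (good_ofj c3_77) rfl rfl

theorem t3_78 : Good (Q 9) [v428, v30, v344, v22, v403, v367] :=
  split_of 1 2 v347 1313640791 (by decide +kernel) (good_ofj c3_75) t3_77 rfl rfl

theorem t3_79 : Good (Q 9) [v427, v30, v344, v22, v403, v367] :=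
  split_of 0 1 v428 1313261210 (by decide +kernel) t3_78 (good_ofj c3_78) rfl rfl

theorem t3_80 : Good (Q 9) [v427, v30, v344, v10, v403, v367] :=
  split_of 1 3 v22 1303729140 (by decide +kernel) (good_ofj c3_74) t3_79 rfl rfl

theorem t3_81 : Good (Q 10) [v427, v30, v344, v10, v403, v367] :=
  env_E _ t3_80

theorem t3_82 : Good (Q 10) [v427, v30, v344, v10, v403, v343] :=
  split_of 1 5 v367 1282767547 (by decide +kernel) (good_ofj c3_73) t3_81 rfl rfl

theorem t3_83 : Good (Q 9) [v428, v22, v7, v23, v409, v344] :=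
  split_of 1 2 v103 1339964634 (by decide +kernel) (good_ofj c3_81) (good_ofj c3_82) rfl rfl

theorem t3_84 : Good (Q 9) [v428, v22, v7, v23, v403, v344] :=
  split_of 2 4 v409 1337829094 (by decide +kernel) (good_ofj c3_80) t3_83 rfl rfl

theorem t3_85 : Good (Q 9) [v428, v22, v7, v10, v403, v344] :=
  split_of 2 3 v23 1341057865 (by decide +kernel) (good_ofj c3_79) t3_84 rfl rfl

theorem t3_86 : Good (Q 9) [v429, v30, v410, v29, v405, v347] :=
  split_of 1 5 v350 1298242015 (by decide +kernel) (good_ofj c3_87) (good_ofj c3_88) rfl rfl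

theorem t3_87 : Good (Q 9) [v429, v30, v410, v22, v405, v347] :=
  split_of 1 3 v29 1293604245 (by decide +kernel) (good_ofj c3_86) t3_86 rfl rfl

theorem t3_88 : Good (Q 9) [v428, v30, v410, v22, v405, v347] :=
  split_of 0 1 v429 1300207819 (by decide +kernel) t3_87 (good_ofj c3_89) rfl rfl

theorem t3_89 : Good (Q 9) [v428, v30, v409, v22, v405, v347] :=
  split_of 1 2 v410 1315466281 (by decide +kernel) (good_ofj c3_85) t3_88 rfl rfl

theorem t3_90 : Good (Q 9) [v428, v30, v409, v22, v403, v347] :=
  split_of 1 4 v405 1290828974 (by decide +kernel) (good_ofj c3_84) t3_89 rfl rfl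

theorem t3_91 : Good (Q 9) [v428, v30, v409, v22, v403, v344] :=
  split_of 1 5 v347 1313640791 (by decide +kernel) (good_ofj c3_83) t3_90 rfl rfl

theorem t3_92 : Good (Q 9) [v428, v38, v103, v25, v409, v365] :=
  split_of 0 1 v432 1325859591 (by decide +kernel) (good_ofj c3_92) (good_ofj c3_93) rfl rfl

theorem t3_93 : Good (Q 9) [v428, v38, v103, v22, v409, v365] :=
  split_of 1 3 v25 1321013612 (by decide +kernel) (good_ofj c3_91) t3_92 rfl rfl

theorem t3_94 : Good (Q 9) [v428, v38, v103, v22, v409, v344] :=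
  split_of 1 5 v365 1335037006 (by decide +kernel) (good_ofj c3_90) t3_93 rfl rfl

theorem t3_95 : Good (Q 9) [v433, v43, v7, v353, v413, v351] :=
  split_of 2 5 v354 1351504063 (by decide +kernel) (good_ofj c3_97) (good_ofj c3_98) rfl rfl

theorem t3_96 : Good (Q 9) [v430, v43, v7, v353, v413, v351] :=
  split_of 0 2 v433 1350325825 (by decide +kernel) t3_95 (good_ofj c3_99) rfl rfl

theorem t3_97 : Good (Q 9) [v430, v43, v7, v103, v413, v351] :=
  split_of 2 3 v353 1349522479 (by decide +kernel) (good_ofj c3_96) t3_96 rfl rfl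

theorem t3_98 : Good (Q 9) [v430, v38, v43, v103, v413, v356] :=
  split_of 1 4 v415 1343112045 (by decide +kernel) (good_ofj c3_101) (good_ofj c3_102) rfl rfl

theorem t3_99 : Good (Q 9) [v430, v38, v43, v103, v413, v351] :=
  split_of 1 5 v356 1342711840 (by decide +kernel) (good_ofj c3_100) t3_98 rfl rfl

theorem t3_100 : Good (Q 9) [v430, v38, v7, v103, v413, v351] :=
  split_of 1 2 v43 1347746544 (by decide +kernel) t3_97 t3_99 rfl rfl

theorem t3_101 : Good (Q 9) [v430, v38, v7, v103, v409, v351] :=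
  split_of 2 4 v413 1349038282 (by decide +kernel) (good_ofj c3_95) t3_100 rfl rfl

theorem t3_102 : Good (Q 9) [v430, v38, v7, v103, v409, v344] :=
  split_of 2 5 v351 1347496915 (by decide +kernel) (good_ofj c3_94) t3_101 rfl rfl

theorem t3_103 : Good (Q 9) [v428, v38, v7, v103, v409, v344] :=
  split_of 0 2 v430 1342889933 (by decide +kernel) t3_102 (good_ofj c3_103) rfl rfl

theorem t3_104 : Good (Q 9) [v428, v38, v7, v22, v409, v344] :=
  split_of 2 3 v103 1339964634 (by decide +kernel) t3_94 t3_103 rfl rfl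

theorem t3_105 : Good (Q 9) [v428, v347, v38, v22, v409, v365] :=
  split_of 2 3 v25 1321013612 (by decide +kernel) (good_ofj c3_105) (good_ofj c3_106) rfl rfl

theorem t3_106 : Good (Q 9) [v428, v347, v38, v22, v409, v344] :=
  split_of 2 5 v365 1335037006 (by decide +kernel) (good_ofj c3_104) t3_105 rfl rfl

theorem t3_107 : Good (Q 8) [v432, v410, v38, v25, v409, v347] :=
  split_of 4 5 v419 1328098027 (by decide +kernel) (good_ofj c3_108) (good_ofj c3_109) rfl rfl

theorem t3_108 : Good (Q 9) [v432, v410, v38, v25, v409, v347] :=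
  P_of 8 9 0xffffffffffffffffffffffffffffff5bd733b4ea3d8f52c0b02e0b72d0b52d8b7ffffffffffffffffffffffffffffff2e0b7384e339ce8fffff2c4b02e0b72e8bb
    (by decide +kernel) t3_107

theorem t3_109 : Good (Q 9) [v428, v410, v38, v25, v409, v347] :=
  split_of 0 2 v432 1325859591 (by decide +kernel) t3_108 (good_ofj c3_110) rfl rfl

theorem t3_110 : Good (Q 9) [v428, v410, v38, v22, v409, v347] :=
  split_of 2 3 v25 1321013612 (by decide +kernel) (good_ofj c3_107) t3_109 rfl rfl

theorem t3_111 : Good (Q 9) [v429, v29, v38, v25, v410, v347] :=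
  split_of 1 2 v53 1316091829 (by decide +kernel) (good_ofj c3_112) (good_ofj c3_113) rfl rfl

theorem t3_112 : Good (Q 9) [v429, v29, v38, v22, v410, v347] :=
  split_of 2 3 v25 1321013612 (by decide +kernel) (good_ofj c3_111) t3_111 rfl rfl

theorem t3_113 : Good (Q 7) [v436, v54, v53, v29, v410, v364] :=
  split_of 1 3 v33 1302360762 (by decide +kernel) (good_ofj c3_115) (good_ofj c3_116) rfl rfl

theorem t3_114 : Good (Q 8) [v436, v54, v53, v29, v410, v364] :=
  P_of 7 8 0xffffffffffffffffffffffffffffff5054140902411042b4ad2ccb22ccb22d4b5ffffffffffffffffffffffffffffff2f8bf348d2354d4721c92e0b82e4b92fcbf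
    (by decide +kernel) t3_113

theorem t3_115 : Good (Q 8) [v429, v54, v53, v29, v410, v364] :=
  split_of 0 1 v436 1305739407 (by decide +kernel) t3_114 (good_ofj c3_117) rfl rfl

theorem t3_116 : Good (Q 8) [v429, v54, v53, v29, v410, v347] :=
  split_of 3 5 v364 1304891300 (by decide +kernel) (good_ofj c3_114) t3_115 rfl rfl

theorem t3_117 : Good (Q 9) [v429, v54, v53, v29, v410, v347] :=
  P_of 8 9 0xffffffffffffffffffffffffffffff50d4240501411042b4ad2ccb42ccb32d0b4ffffffffffffffffffffffffffffff2f4bd344d1358d6fffff2e0b82e8ba2f8bf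
    (by decide +kernel) t3_116

theorem t3_118 : Good (Q 9) [v434, v54, v38, v53, v410, v347] :=
  split_of 2 5 v360 1324737533 (by decide +kernel) (good_ofj c3_118) (good_ofj c3_119) rfl rfl

theorem t3_119 : Good (Q 9) [v429, v54, v38, v53, v410, v347] :=
  split_of 0 2 v434 1318995381 (by decide +kernel) t3_118 (good_ofj c3_120) rfl rfl

theorem t3_120 : Good (Q 9) [v429, v54, v38, v29, v410, v347] :=
  split_of 2 3 v53 1316091829 (by decide +kernel) t3_117 t3_119 rfl rfl

theorem t3_121 : Good (Q 8) [v429, v350, v54, v29, v410, v347] :=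
  split_of 3 5 v364 1304891300 (by decide +kernel) (good_ofj c3_121) (good_ofj c3_122) rfl rfl

theorem t3_122 : Good (Q 9) [v429, v350, v54, v29, v410, v347] :=
  P_of 8 9 0xffffffffffffffffffffffffffffff5054040901415052b8ad2d0b42c8b32ccb4ffffffffffffffffffffffffffffff2f8be344d0354d5fffff2e0b82ecba2f8bf
    (by decide +kernel) t3_121

theorem t3_123 : Good (Q 9) [v429, v30, v54, v29, v410, v347] :=
  split_of 1 5 v350 1298242015 (by decide +kernel) t3_122 (good_ofj c3_123) rfl rfl

theorem t3_124 : Good (Q 9) [v429, v30, v38, v29, v410, v347] :=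
  split_of 1 2 v54 1309864426 (by decide +kernel) t3_120 t3_123 rfl rfl

theorem t3_125 : Good (Q 9) [v429, v30, v38, v22, v410, v347] :=
  split_of 1 3 v29 1293604245 (by decide +kernel) t3_112 t3_124 rfl rfl

theorem t3_126 : Good (Q 9) [v428, v429, v38, v22, v410, v347] :=
  split_of 2 3 v25 1321013612 (by decide +kernel) (good_ofj c3_124) (good_ofj c3_125) rfl rfl

theorem t3_127 : Good (Q 9) [v428, v30, v38, v22, v410, v347] :=
  split_of 0 1 v429 1300207819 (by decide +kernel) t3_125 t3_126 rfl rfl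

theorem t3_128 : Good (Q 9) [v428, v30, v38, v22, v409, v347] :=
  split_of 1 4 v410 1315466281 (by decide +kernel) t3_110 t3_127 rfl rfl

theorem t3_129 : Good (Q 9) [v428, v30, v38, v22, v409, v344] :=
  split_of 1 5 v347 1313640791 (by decide +kernel) t3_106 t3_128 rfl rfl

theorem t3_130 : Good (Q 9) [v428, v30, v7, v22, v409, v344] :=
  split_of 1 2 v38 1333169107 (by decide +kernel) t3_104 t3_129 rfl rfl

theorem t3_131 : Good (Q 9) [v428, v30, v7, v22, v403, v344] :=
  split_of 2 4 v409 1337829094 (by decide +kernel) t3_91 t3_130 rfl rfl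

theorem t3_132 : Good (Q 9) [v428, v30, v7, v10, v403, v344] :=
  split_of 1 3 v22 1303729140 (by decide +kernel) t3_85 t3_131 rfl rfl

theorem t3_133 : Good (Q 9) [v427, v428, v7, v23, v403, v344] :=
  split_of 0 2 v438 1343852908 (by decide +kernel) (good_ofj c3_127) (good_ofj c3_128) rfl rfl

theorem t3_134 : Good (Q 9) [v427, v428, v7, v10, v403, v344] :=
  split_of 2 3 v23 1341057865 (by decide +kernel) (good_ofj c3_126) t3_133 rfl rfl

theorem t3_135 : Good (Q 9) [v427, v30, v7, v10, v403, v344] :=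
  split_of 0 1 v428 1313261210 (by decide +kernel) t3_132 t3_134 rfl rfl

theorem t3_136 : Good (Q 10) [v427, v30, v7, v10, v403, v344] :=
  env_E _ t3_135

theorem t3_137 : Good (Q 10) [v427, v30, v7, v10, v403, v343] :=
  split_of 2 5 v344 1331125411 (by decide +kernel) t3_82 t3_136 rfl rfl

theorem t3_138 : Good (Q 10) [v427, v30, v7, v10, v399, v343] :=
  split_of 1 4 v403 1293212810 (by decide +kernel) (good_ofj c3_72) t3_137 rfl rfl

theorem t3_139 : Good (Q 10) [v439, v30, v427, v10, v403, v343] :=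
  split_of 1 5 v367 1282767547 (by decide +kernel) (good_ofj c3_130) (good_ofj c3_131) rfl rfl

theorem t3_140 : Good (Q 10) [v439, v30, v427, v10, v399, v343] :=
  split_of 1 4 v403 1293212810 (by decide +kernel) (good_ofj c3_129) t3_139 rfl rfl

theorem t3_141 : Good (Q 10) [v426, v30, v427, v10, v399, v343] :=
  split_of 0 1 v439 1270403944 (by decide +kernel) t3_140 (good_ofj c3_132) rfl rfl

theorem t3_142 : Good (Q 10) [v426, v30, v7, v10, v399, v343] :=
  split_of 0 2 v427 1315710025 (by decide +kernel) t3_138 t3_141 rfl rfl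

theorem t3_143 : Good (Q 10) [v426, v30, v7, v3, v399, v343] :=
  split_of 1 3 v10 1307275754 (by decide +kernel) t3_76 t3_142 rfl rfl

theorem t3_144 : Good (Q 10) [v426, v30, v7, v3, v399, v339] :=
  split_of 1 5 v343 1260336929 (by decide +kernel) t3_74 t3_143 rfl rfl

theorem t3_145 : Good (Q 10) [v426, v30, v7, v3, v398, v339] :=
  split_of 1 4 v399 1268403305 (by decide +kernel) (good_ofj c3_64) t3_144 rfl rfl

theorem t3_146 : Good (Q 10) [v84, v30, v369, v10, v585, v343] :=
  split_of 0 3 v373 1291523910 (by decide +kernel) (good_ofj c3_137) (good_ofj c3_138) rfl rfl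

theorem t3_147 : Good (Q 10) [v84, v30, v369, v10, v584, v343] :=
  split_of 1 4 v585 1301948573 (by decide +kernel) (good_ofj c3_136) t3_146 rfl rfl

theorem t3_148 : Good (Q 10) [v84, v30, v369, v3, v584, v343] :=
  split_of 1 3 v10 1307275754 (by decide +kernel) (good_ofj c3_135) t3_147 rfl rfl

theorem t3_149 : Good (Q 10) [v84, v30, v369, v3, v426, v343] :=
  split_of 3 4 v584 1269404413 (by decide +kernel) (good_ofj c3_134) t3_148 rfl rfl

theorem t3_150 : Good (Q 10) [v84, v30, v369, v3, v426, v339] :=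
  split_of 1 5 v343 1260336929 (by decide +kernel) (good_ofj c3_133) t3_149 rfl rfl

theorem t3_151 : Good (Q 10) [v84, v10, v7, v3, v584, v369] :=
  split_of 0 3 v85 1278344175 (by decide +kernel) (good_ofj c3_140) (good_ofj c3_141) rfl rfl

theorem t3_152 : Good (Q 10) [v84, v10, v7, v3, v426, v369] :=
  split_of 3 4 v584 1269404413 (by decide +kernel) (good_ofj c3_139) t3_151 rfl rfl

theorem t3_153 : Good (Q 10) [v84, v30, v427, v10, v426, v369] :=
  split_of 1 4 v439 1270403944 (by decide +kernel) (good_ofj c3_142) (good_ofj c3_143) rfl rfl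

theorem t3_154 : Good (Q 9) [v87, v374, v7, v10, v427, v375] :=
  split_of 2 3 v23 1341057865 (by decide +kernel) (good_ofj c3_145) (good_ofj c3_146) rfl rfl

theorem t3_155 : Good (Q 9) [v87, v374, v7, v10, v427, v369] :=
  split_of 2 5 v375 1341729738 (by decide +kernel) (good_ofj c3_144) t3_154 rfl rfl

theorem t3_156 : Good (Q 9) [v88, v30, v25, v22, v429, v376] :=
  split_of 0 1 v89 1300877891 (by decide +kernel) (good_ofj c3_152) (good_ofj c3_153) rfl rfl

theorem t3_157 : Good (Q 9) [v88, v30, v25, v22, v428, v376] :=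
  split_of 1 4 v429 1300207819 (by decide +kernel) (good_ofj c3_151) t3_156 rfl rfl

theorem t3_158 : Good (Q 9) [v88, v30, v25, v22, v428, v374] :=
  split_of 1 5 v376 1299775629 (by decide +kernel) (good_ofj c3_150) t3_157 rfl rfl

theorem t3_159 : Good (Q 9) [v88, v30, v23, v22, v428, v374] :=
  split_of 1 2 v25 1321013612 (by decide +kernel) (good_ofj c3_149) t3_158 rfl rfl

theorem t3_160 : Good (Q 9) [v87, v30, v23, v22, v428, v374] :=
  split_of 0 1 v88 1315710025 (by decide +kernel) t3_159 (good_ofj c3_154) rfl rfl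

theorem t3_161 : Good (Q 9) [v87, v30, v23, v22, v427, v374] :=
  split_of 1 4 v428 1313261210 (by decide +kernel) (good_ofj c3_148) t3_160 rfl rfl

theorem t3_162 : Good (Q 9) [v87, v30, v23, v10, v427, v374] :=
  split_of 1 3 v22 1303729140 (by decide +kernel) (good_ofj c3_147) t3_161 rfl rfl

theorem t3_163 : Good (Q 9) [v91, v430, v7, v39, v438, v377] :=
  split_of 2 4 v452 1350610654 (by decide +kernel) (good_ofj c3_158) (good_ofj c3_159) rfl rfl

theorem t3_164 : Good (Q 9) [v91, v430, v7, v23, v438, v377] :=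
  split_of 2 3 v39 1349823198 (by decide +kernel) (good_ofj c3_157) t3_163 rfl rfl

theorem t3_165 : Good (Q 9) [v91, v428, v7, v23, v438, v377] :=
  split_of 1 2 v430 1342889933 (by decide +kernel) t3_164 (good_ofj c3_160) rfl rfl

theorem t3_166 : Good (Q 9) [v91, v428, v7, v23, v438, v374] :=
  split_of 2 5 v377 1342428891 (by decide +kernel) (good_ofj c3_156) t3_165 rfl rfl

theorem t3_167 : Good (Q 9) [v87, v428, v7, v23, v438, v374] :=
  split_of 0 2 v91 1345746917 (by decide +kernel) t3_166 (good_ofj c3_161) rfl rfl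

theorem t3_168 : Good (Q 9) [v87, v428, v7, v23, v427, v374] :=
  split_of 2 4 v438 1343852908 (by decide +kernel) (good_ofj c3_155) t3_167 rfl rfl

theorem t3_169 : Good (Q 9) [v88, v38, v377, v23, v428, v378] :=
  split_of 3 4 v586 1332431829 (by decide +kernel) (good_ofj c3_163) (good_ofj c3_164) rfl rfl

theorem t3_170 : Good (Q 9) [v88, v38, v377, v23, v428, v374] :=
  split_of 3 5 v378 1331920927 (by decide +kernel) (good_ofj c3_162) t3_169 rfl rfl

theorem t3_171 : Good (Q 9) [v88, v38, v430, v23, v428, v377] :=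
  split_of 3 4 v586 1332431829 (by decide +kernel) (good_ofj c3_165) (good_ofj c3_166) rfl rfl

theorem t3_172 : Good (Q 7) [v95, v43, v379, v39, v430, v377] :=
  split_of 3 5 v380 1347483044 (by decide +kernel) (good_ofj c3_168) (good_ofj c3_169) rfl rfl

theorem t3_173 : Good (Q 8) [v95, v43, v379, v39, v430, v377] :=
  P_of 7 8 0xffffffffffffffffffffffffffffff70dc1350d4358d72dcb62f8bd2ecbb2f4beffffffffffffffffffffffffffffff2d0b53f8fe41103519472b8ad2c4b12d0b5
    (by decide +kernel) t3_172

theorem t3_174 : Good (Q 9) [v95, v43, v379, v39, v430, v377] :=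
  P_of 8 9 0xfffffffffffffffffffffffffffffffffff350d4358d62dcb52f4be2f0bc2f0beffffffffffffffffffffffffffffff2d0b53f4fe40d0551d452bcae2c4b02d0b5
    (by decide +kernel) t3_173

theorem t3_175 : Good (Q 7) [v95, v43, v433, v39, v430, v379] :=
  split_of 3 4 v587 1347600938 (by decide +kernel) (good_ofj c3_170) (good_ofj c3_171) rfl rfl

theorem t3_176 : Good (Q 8) [v95, v43, v433, v39, v430, v379] :=
  P_of 7 8 0xffffffffffffffffffffffffffffff721c4348d3354d62dcb52f8bd2f0bc2f8beffffffffffffffffffffffffffffff2d0b43fcff41904509452b8ae2c4b02d4b5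
    (by decide +kernel) t3_175

theorem t3_177 : Good (Q 9) [v95, v43, v433, v39, v430, v379] :=
  P_of 8 9 0xfffffffffffffffffffffffffffffffffff34cd2358d62dcb62f4be2f0bc2f4beffffffffffffffffffffffffffffff2ccb43fcfe41106511422bcae2c4b12d0b5
    (by decide +kernel) t3_176

theorem t3_178 : Good (Q 9) [v98, v43, v99, v100, v433, v381] :=
  split_of 1 4 v461 1349326032 (by decide +kernel) (good_ofj c3_176) (good_ofj c3_177) rfl rfl

theorem t3_179 : Good (Q 9) [v98, v43, v99, v100, v433, v379] :=
  split_of 1 5 v381 1349299014 (by decide +kernel) (good_ofj c3_175) t3_178 rfl rfl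

theorem t3_180 : Good (Q 9) [v98, v43, v99, v44, v433, v379] :=
  split_of 1 3 v100 1350710315 (by decide +kernel) (good_ofj c3_174) t3_179 rfl rfl

theorem t3_181 : Good (Q 9) [v98, v43, v7, v44, v433, v379] :=
  split_of 1 2 v99 1351535087 (by decide +kernel) (good_ofj c3_173) t3_180 rfl rfl

theorem t3_182 : Good (Q 9) [v98, v43, v7, v39, v433, v379] :=
  split_of 2 3 v44 1352069164 (by decide +kernel) (good_ofj c3_172) t3_181 rfl rfl

theorem t3_183 : Good (Q 7) [v95, v43, v98, v39, v433, v379] :=
  split_of 0 3 v102 1347724011 (by decide +kernel) (good_ofj c3_178) (good_ofj c3_179) rfl rfl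

theorem t3_184 : Good (Q 8) [v95, v43, v98, v39, v433, v379] :=
  P_of 7 8 0xffffffffffffffffffffffffffffff725c5348d3350d52dcb62f8bd2f4bc2f8beffffffffffffffffffffffffffffff2ccb43fcff41d04501442b8ae2c0b02d4b5
    (by decide +kernel) t3_183

theorem t3_185 : Good (Q 9) [v95, v43, v98, v39, v433, v379] :=
  P_of 8 9 0xfffffffffffffffffffffffffffffffffff34cd2354d42dcb72f4be2f4bd2f4beffffffffffffffffffffffffffffff2ccb33fcff4150750d402bcae2c0b02d0b5
    (by decide +kernel) t3_184

theorem t3_186 : Good (Q 9) [v95, v43, v7, v39, v433, v379] :=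
  split_of 0 2 v98 1350444950 (by decide +kernel) t3_182 t3_185 rfl rfl

theorem t3_187 : Good (Q 9) [v95, v43, v7, v39, v430, v379] :=
  split_of 2 4 v433 1350325825 (by decide +kernel) t3_177 t3_186 rfl rfl

theorem t3_188 : Good (Q 9) [v95, v43, v7, v39, v430, v377] :=
  split_of 2 5 v379 1350213587 (by decide +kernel) t3_174 t3_187 rfl rfl

theorem t3_189 : Good (Q 9) [v95, v38, v43, v39, v430, v377] :=
  split_of 1 3 v46 1344546372 (by decide +kernel) (good_ofj c3_180) (good_ofj c3_181) rfl rfl

theorem t3_190 : Good (Q 9) [v95, v38, v7, v39, v430, v377] :=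
  split_of 1 2 v43 1347746544 (by decide +kernel) t3_188 t3_189 rfl rfl

theorem t3_191 : Good (Q 9) [v95, v38, v7, v23, v430, v377] :=
  split_of 2 3 v39 1349823198 (by decide +kernel) (good_ofj c3_167) t3_190 rfl rfl

theorem t3_192 : Good (Q 8) [v88, v38, v95, v103, v430, v377] :=
  split_of 0 1 v105 1326446749 (by decide +kernel) (good_ofj c3_183) (good_ofj c3_184) rfl rfl

theorem t3_193 : Good (Q 9) [v88, v38, v95, v103, v430, v377] :=
  P_of 8 9 0xfffffffffffffffffffffffffffffffffff3a8e83b4ec2bcae2e4ba2e0ba2d4b6ffffffffffffffffffffffffffffff2dcb7390e33c0f4fffff2ccb12d0b32e0b9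
    (by decide +kernel) t3_192

theorem t3_194 : Good (Q 9) [v88, v38, v95, v23, v430, v377] :=
  split_of 1 3 v103 1339964634 (by decide +kernel) (good_ofj c3_182) t3_193 rfl rfl

theorem t3_195 : Good (Q 9) [v88, v38, v7, v23, v430, v377] :=
  split_of 0 2 v95 1343406483 (by decide +kernel) t3_191 t3_194 rfl rfl

theorem t3_196 : Good (Q 9) [v88, v38, v7, v23, v428, v377] :=
  split_of 2 4 v430 1342889933 (by decide +kernel) t3_171 t3_195 rfl rfl

theorem t3_197 : Good (Q 9) [v88, v38, v7, v23, v428, v374] :=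
  split_of 2 5 v377 1342428891 (by decide +kernel) t3_170 t3_196 rfl rfl

theorem t3_198 : Good (Q 9) [v88, v25, v38, v23, v428, v374] :=
  split_of 3 5 v378 1331920927 (by decide +kernel) (good_ofj c3_185) (good_ofj c3_186) rfl rfl

theorem t3_199 : Good (Q 9) [v88, v429, v38, v25, v432, v376] :=
  split_of 0 2 v105 1326446749 (by decide +kernel) (good_ofj c3_189) (good_ofj c3_190) rfl rfl

theorem t3_200 : Good (Q 9) [v88, v429, v38, v25, v428, v376] :=
  split_of 2 4 v432 1325859591 (by decide +kernel) (good_ofj c3_188) t3_199 rfl rfl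

theorem t3_201 : Good (Q 8) [v89, v54, v382, v25, v429, v376] :=
  split_of 3 5 v383 1311769963 (by decide +kernel) (good_ofj c3_191) (good_ofj c3_192) rfl rfl

theorem t3_202 : Good (Q 9) [v89, v54, v382, v25, v429, v376] :=
  P_of 8 9 0xffffffffffffffffffffffffffffff51d463f8fe40d032b8ae2d4b52c8b32ccb3ffffffffffffffffffffffffffffff2f4bd348d2360d8fffff2dcb72ecbb2f4bd
    (by decide +kernel) t3_201

theorem t3_203 : Good (Q 9) [v89, v54, v434, v25, v429, v382] :=
  P_of 8 9 0xffffffffffffffffffffffffffffff519463fcff40d032b4ae2ccb42ccb42c8b3ffffffffffffffffffffffffffffff2ecbc348d235cd8fffff2e4b82ecba2f4be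
    (by decide +kernel) (good_ofj c3_193)

theorem t3_204 : Good (Q 9) [v89, v54, v38, v25, v434, v382] :=
  split_of 0 2 v104 1319149179 (by decide +kernel) (good_ofj c3_194) (good_ofj c3_195) rfl rfl

theorem t3_205 : Good (Q 9) [v89, v54, v38, v25, v429, v382] :=
  split_of 2 4 v434 1318995381 (by decide +kernel) t3_203 t3_204 rfl rfl

theorem t3_206 : Good (Q 9) [v89, v54, v38, v25, v429, v376] :=
  split_of 2 5 v382 1318892226 (by decide +kernel) t3_202 t3_205 rfl rfl

theorem t3_207 : Good (Q 7) [v89, v33, v54, v25, v429, v383] :=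
  split_of 3 4 v588 1311879729 (by decide +kernel) (good_ofj c3_197) (good_ofj c3_198) rfl rfl

theorem t3_208 : Good (Q 7) [v89, v33, v54, v25, v429, v376] :=
  split_of 3 5 v383 1311769963 (by decide +kernel) (good_ofj c3_196) t3_207 rfl rfl

theorem t3_209 : Good (Q 8) [v89, v33, v54, v25, v429, v376] :=
  P_of 7 8 0xffffffffffffffffffffffffffffff519463fcfe40d042b8ac2d4b52ccb32ccb3ffffffffffffffffffffffffffffff2f4bd348d1360d9709c32dcb62ecbb2f4be
    (by decide +kernel) t3_208

theorem t3_210 : Good (Q 9) [v89, v33, v54, v25, v429, v376] :=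
  P_of 8 9 0xffffffffffffffffffffffffffffff50d46400ff415032b8ae2d0b52ccb32c8b3ffffffffffffffffffffffffffffff2f0bd344d235cd8fffff2e0b72ecbb2f8bd
    (by decide +kernel) t3_209

theorem t3_211 : Good (Q 9) [v89, v30, v54, v25, v429, v376] :=
  split_of 1 3 v33 1302360762 (by decide +kernel) t3_210 (good_ofj c3_199) rfl rfl

theorem t3_212 : Good (Q 9) [v89, v30, v38, v25, v429, v376] :=
  split_of 1 2 v54 1309864426 (by decide +kernel) t3_206 t3_211 rfl rfl

theorem t3_213 : Good (Q 9) [v105, v89, v38, v25, v429, v376] :=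
  split_of 2 5 v382 1318892226 (by decide +kernel) (good_ofj c3_200) (good_ofj c3_201) rfl rfl

theorem t3_214 : Good (Q 9) [v88, v89, v38, v25, v429, v376] :=
  split_of 0 2 v105 1326446749 (by decide +kernel) t3_213 (good_ofj c3_202) rfl rfl

theorem t3_215 : Good (Q 9) [v88, v30, v38, v25, v429, v376] :=
  split_of 0 1 v89 1300877891 (by decide +kernel) t3_212 t3_214 rfl rfl

theorem t3_216 : Good (Q 9) [v88, v30, v38, v25, v428, v376] :=
  split_of 1 4 v429 1300207819 (by decide +kernel) t3_200 t3_215 rfl rfl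

theorem t3_217 : Good (Q 9) [v88, v30, v38, v25, v428, v374] :=
  split_of 1 5 v376 1299775629 (by decide +kernel) (good_ofj c3_187) t3_216 rfl rfl

theorem t3_218 : Good (Q 9) [v88, v30, v38, v23, v428, v374] :=
  split_of 1 3 v25 1321013612 (by decide +kernel) t3_198 t3_217 rfl rfl

theorem t3_219 : Good (Q 9) [v88, v30, v7, v23, v428, v374] :=
  split_of 1 2 v38 1333169107 (by decide +kernel) t3_197 t3_218 rfl rfl

theorem t3_220 : Good (Q 9) [v91, v95, v7, v39, v430, v379] :=
  split_of 0 2 v93 1351066130 (by decide +kernel) (good_ofj c3_207) (good_ofj c3_208) rfl rfl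

theorem t3_221 : Good (Q 9) [v91, v95, v7, v39, v430, v377] :=
  split_of 2 5 v379 1350213587 (by decide +kernel) (good_ofj c3_206) t3_220 rfl rfl

theorem t3_222 : Good (Q 9) [v91, v95, v7, v23, v430, v377] :=
  split_of 2 3 v39 1349823198 (by decide +kernel) (good_ofj c3_205) t3_221 rfl rfl

theorem t3_223 : Good (Q 9) [v91, v88, v7, v23, v430, v377] :=
  split_of 1 2 v95 1343406483 (by decide +kernel) t3_222 (good_ofj c3_209) rfl rfl

theorem t3_224 : Good (Q 9) [v91, v88, v7, v23, v428, v377] :=
  split_of 2 4 v430 1342889933 (by decide +kernel) (good_ofj c3_204) t3_223 rfl rfl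

theorem t3_225 : Good (Q 9) [v91, v88, v7, v23, v428, v374] :=
  split_of 2 5 v377 1342428891 (by decide +kernel) (good_ofj c3_203) t3_224 rfl rfl

theorem t3_226 : Good (Q 9) [v87, v88, v7, v23, v428, v374] :=
  split_of 0 2 v91 1345746917 (by decide +kernel) t3_225 (good_ofj c3_210) rfl rfl

theorem t3_227 : Good (Q 9) [v87, v30, v7, v23, v428, v374] :=
  split_of 0 1 v88 1315710025 (by decide +kernel) t3_219 t3_226 rfl rfl

theorem t3_228 : Good (Q 9) [v87, v30, v7, v23, v427, v374] :=
  split_of 1 4 v428 1313261210 (by decide +kernel) t3_168 t3_227 rfl rfl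

theorem t3_229 : Good (Q 9) [v87, v30, v7, v10, v427, v374] :=
  split_of 2 3 v23 1341057865 (by decide +kernel) t3_162 t3_228 rfl rfl

theorem t3_230 : Good (Q 9) [v87, v30, v7, v10, v427, v369] :=
  split_of 1 5 v374 1311272127 (by decide +kernel) t3_155 t3_229 rfl rfl

theorem t3_231 : Good (Q 10) [v87, v30, v7, v10, v427, v369] :=
  env_E _ t3_230

theorem t3_232 : Good (Q 10) [v84, v30, v7, v10, v427, v369] :=
  split_of 0 2 v87 1324037525 (by decide +kernel) t3_231 (good_ofj c3_211) rfl rfl

theorem t3_233 : Good (Q 10) [v84, v30, v7, v10, v426, v369] :=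
  split_of 2 4 v427 1315710025 (by decide +kernel) t3_153 t3_232 rfl rfl

theorem t3_234 : Good (Q 10) [v84, v30, v7, v3, v426, v369] :=
  split_of 1 3 v10 1307275754 (by decide +kernel) t3_152 t3_233 rfl rfl

theorem t3_235 : Good (Q 10) [v84, v30, v7, v3, v426, v339] :=
  split_of 2 5 v369 1305386625 (by decide +kernel) t3_150 t3_234 rfl rfl

theorem t3_236 : Good (Q 9) [v109, v377, v7, v91, v438, v375] :=
  split_of 2 5 v384 1350127237 (by decide +kernel) (good_ofj c3_218) (good_ofj c3_219) rfl rfl

theorem t3_237 : Good (Q 9) [v108, v377, v7, v91, v438, v375] :=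
  split_of 0 2 v109 1347302695 (by decide +kernel) t3_236 (good_ofj c3_220) rfl rfl

theorem t3_238 : Good (Q 9) [v108, v374, v7, v91, v438, v375] :=
  split_of 1 2 v377 1342428891 (by decide +kernel) t3_237 (good_ofj c3_221) rfl rfl

theorem t3_239 : Good (Q 9) [v108, v374, v7, v87, v438, v375] :=
  split_of 2 3 v91 1345746917 (by decide +kernel) (good_ofj c3_217) t3_238 rfl rfl

theorem t3_240 : Good (Q 9) [v108, v374, v7, v87, v427, v375] :=
  split_of 2 4 v438 1343852908 (by decide +kernel) (good_ofj c3_216) t3_239 rfl rfl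

theorem t3_241 : Good (Q 9) [v108, v374, v7, v87, v427, v369] :=
  split_of 2 5 v375 1341729738 (by decide +kernel) (good_ofj c3_215) t3_240 rfl rfl

theorem t3_242 : Good (Q 9) [v109, v430, v7, v91, v452, v379] :=
  split_of 2 3 v93 1351066130 (by decide +kernel) (good_ofj c3_227) (good_ofj c3_228) rfl rfl

theorem t3_243 : Good (Q 9) [v109, v430, v7, v91, v452, v377] :=
  split_of 2 5 v379 1350213587 (by decide +kernel) (good_ofj c3_226) t3_242 rfl rfl

theorem t3_244 : Good (Q 9) [v109, v430, v7, v91, v438, v377] :=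
  split_of 2 4 v452 1350610654 (by decide +kernel) (good_ofj c3_225) t3_243 rfl rfl

theorem t3_245 : Good (Q 9) [v108, v430, v7, v91, v438, v377] :=
  split_of 0 2 v109 1347302695 (by decide +kernel) t3_244 (good_ofj c3_229) rfl rfl

theorem t3_246 : Good (Q 9) [v108, v428, v7, v91, v438, v377] :=
  split_of 1 2 v430 1342889933 (by decide +kernel) t3_245 (good_ofj c3_230) rfl rfl

theorem t3_247 : Good (Q 9) [v108, v428, v7, v91, v438, v374] :=
  split_of 2 5 v377 1342428891 (by decide +kernel) (good_ofj c3_224) t3_246 rfl rfl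

theorem t3_248 : Good (Q 9) [v108, v428, v7, v87, v438, v374] :=
  split_of 2 3 v91 1345746917 (by decide +kernel) (good_ofj c3_223) t3_247 rfl rfl

theorem t3_249 : Good (Q 9) [v108, v428, v7, v87, v427, v374] :=
  split_of 2 4 v438 1343852908 (by decide +kernel) (good_ofj c3_222) t3_248 rfl rfl

theorem t3_250 : Good (Q 9) [v108, v30, v91, v88, v428, v374] :=
  split_of 1 2 v105 1326446749 (by decide +kernel) (good_ofj c3_232) (good_ofj c3_233) rfl rfl

theorem t3_251 : Good (Q 9) [v108, v30, v91, v87, v428, v374] :=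
  split_of 1 3 v88 1315710025 (by decide +kernel) (good_ofj c3_231) t3_250 rfl rfl

theorem t3_252 : Good (Q 9) [v111, v38, v377, v91, v428, v385] :=
  split_of 1 4 v432 1325859591 (by decide +kernel) (good_ofj c3_235) (good_ofj c3_236) rfl rfl

theorem t3_253 : Good (Q 9) [v108, v38, v377, v91, v428, v385] :=
  split_of 0 1 v111 1336786951 (by decide +kernel) t3_252 (good_ofj c3_237) rfl rfl

theorem t3_254 : Good (Q 9) [v108, v38, v377, v91, v428, v374] :=
  split_of 1 5 v385 1325415297 (by decide +kernel) (good_ofj c3_234) t3_253 rfl rfl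

theorem t3_255 : Good (Q 9) [v109, v95, v7, v93, v430, v379] :=
  split_of 2 4 v433 1350325825 (by decide +kernel) (good_ofj c3_241) (good_ofj c3_242) rfl rfl

theorem t3_256 : Good (Q 9) [v109, v95, v7, v91, v430, v379] :=
  split_of 2 3 v93 1351066130 (by decide +kernel) (good_ofj c3_240) t3_255 rfl rfl

theorem t3_257 : Good (Q 9) [v109, v95, v7, v91, v430, v377] :=
  split_of 2 5 v379 1350213587 (by decide +kernel) (good_ofj c3_239) t3_256 rfl rfl

theorem t3_258 : Good (Q 9) [v109, v43, v379, v95, v430, v377] :=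
  split_of 0 5 v386 1346091026 (by decide +kernel) (good_ofj c3_243) (good_ofj c3_244) rfl rfl

theorem t3_259 : Good (Q 7) [v113, v43, v433, v95, v430, v379] :=
  split_of 1 4 v476 1345912041 (by decide +kernel) (good_ofj c3_245) (good_ofj c3_246) rfl rfl

theorem t3_260 : Good (Q 8) [v113, v43, v433, v95, v430, v379] :=
  P_of 7 8 0xffffffffffffffffffffffffffffff71dc3348d3354d72dcb72fcbf2f8bd2e8baffffffffffffffffffffffffffffff2c8b23f0fb42508509452bcaf2c8b22ccb4
    (by decide +kernel) t3_259

theorem t3_261 : Good (Q 9) [v113, v43, v433, v95, v430, v379] :=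
  P_of 8 9 0xfffffffffffffffffffffffffffffffffff348d2354d52dcb72fcbf2f8be2e8baffffffffffffffffffffffffffffff2c8b23f0fc42509509422bcaf2c8b22ccb3
    (by decide +kernel) t3_260

theorem t3_262 : Good (Q 9) [v109, v43, v433, v95, v430, v379] :=
  split_of 0 1 v113 1348854888 (by decide +kernel) t3_261 (good_ofj c3_247) rfl rfl

theorem t3_263 : Good (Q 9) [v109, v43, v98, v95, v433, v379] :=
  split_of 0 1 v113 1348854888 (by decide +kernel) (good_ofj c3_248) (good_ofj c3_249) rfl rfl

theorem t3_264 : Good (Q 9) [v115, v43, v99, v98, v433, v381] :=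
  split_of 1 4 v461 1349326032 (by decide +kernel) (good_ofj c3_252) (good_ofj c3_253) rfl rfl

theorem t3_265 : Good (Q 9) [v115, v43, v99, v98, v433, v379] :=
  split_of 1 5 v381 1349299014 (by decide +kernel) (good_ofj c3_251) t3_264 rfl rfl

theorem t3_266 : Good (Q 9) [v114, v43, v99, v98, v433, v379] :=
  split_of 0 1 v115 1350548520 (by decide +kernel) t3_265 (good_ofj c3_254) rfl rfl

theorem t3_267 : Good (Q 9) [v114, v43, v7, v98, v433, v379] :=
  split_of 1 2 v99 1351535087 (by decide +kernel) (good_ofj c3_250) t3_266 rfl rfl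

theorem t3_268 : Good (Q 9) [v109, v43, v7, v98, v433, v379] :=
  split_of 0 2 v114 1351479933 (by decide +kernel) t3_267 (good_ofj c3_255) rfl rfl

theorem t3_269 : Good (Q 9) [v109, v43, v7, v95, v433, v379] :=
  split_of 2 3 v98 1350444950 (by decide +kernel) t3_263 t3_268 rfl rfl

theorem t3_270 : Good (Q 9) [v109, v43, v7, v95, v430, v379] :=
  split_of 2 4 v433 1350325825 (by decide +kernel) t3_262 t3_269 rfl rfl

theorem t3_271 : Good (Q 9) [v109, v43, v7, v95, v430, v377] :=
  split_of 2 5 v379 1350213587 (by decide +kernel) t3_258 t3_270 rfl rfl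

theorem t3_272 : Good (Q 9) [v117, v38, v43, v95, v430, v387] :=
  split_of 1 4 v464 1339155827 (by decide +kernel) (good_ofj c3_257) (good_ofj c3_258) rfl rfl

theorem t3_273 : Good (Q 9) [v117, v38, v43, v95, v430, v377] :=
  split_of 1 5 v387 1339048731 (by decide +kernel) (good_ofj c3_256) t3_272 rfl rfl

theorem t3_274 : Good (Q 9) [v109, v38, v43, v95, v430, v377] :=
  split_of 0 1 v117 1343797121 (by decide +kernel) t3_273 (good_ofj c3_259) rfl rfl

theorem t3_275 : Good (Q 9) [v109, v38, v7, v95, v430, v377] :=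
  split_of 1 2 v43 1347746544 (by decide +kernel) t3_271 t3_274 rfl rfl

theorem t3_276 : Good (Q 9) [v109, v38, v7, v91, v430, v377] :=
  split_of 1 3 v95 1343406483 (by decide +kernel) t3_257 t3_275 rfl rfl

theorem t3_277 : Good (Q 9) [v108, v38, v109, v91, v430, v377] :=
  split_of 0 1 v111 1336786951 (by decide +kernel) (good_ofj c3_260) (good_ofj c3_261) rfl rfl

theorem t3_278 : Good (Q 9) [v108, v38, v7, v91, v430, v377] :=
  split_of 0 2 v109 1347302695 (by decide +kernel) t3_276 t3_277 rfl rfl

theorem t3_279 : Good (Q 9) [v108, v38, v7, v91, v428, v377] :=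
  split_of 2 4 v430 1342889933 (by decide +kernel) (good_ofj c3_238) t3_278 rfl rfl

theorem t3_280 : Good (Q 9) [v108, v38, v7, v91, v428, v374] :=
  split_of 2 5 v377 1342428891 (by decide +kernel) t3_254 t3_279 rfl rfl

theorem t3_281 : Good (Q 9) [v111, v105, v38, v91, v428, v385] :=
  split_of 2 4 v432 1325859591 (by decide +kernel) (good_ofj c3_263) (good_ofj c3_264) rfl rfl

theorem t3_282 : Good (Q 9) [v108, v105, v38, v91, v428, v385] :=
  split_of 0 2 v111 1336786951 (by decide +kernel) t3_281 (good_ofj c3_265) rfl rfl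

theorem t3_283 : Good (Q 9) [v108, v105, v38, v91, v428, v374] :=
  split_of 2 5 v385 1325415297 (by decide +kernel) (good_ofj c3_262) t3_282 rfl rfl

theorem t3_284 : Good (Q 8) [v121, v54, v382, v105, v436, v589] :=
  split_of 1 3 v104 1319149179 (by decide +kernel) (good_ofj c3_270) (good_ofj c3_271) rfl rfl

theorem t3_285 : Good (Q 8) [v121, v54, v382, v105, v429, v589] :=
  split_of 1 4 v436 1305739407 (by decide +kernel) (good_ofj c3_269) t3_284 rfl rfl

theorem t3_286 : Good (Q 8) [v121, v54, v382, v105, v429, v376] :=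
  split_of 1 5 v589 1305637840 (by decide +kernel) (good_ofj c3_268) t3_285 rfl rfl

theorem t3_287 : Good (Q 9) [v121, v54, v382, v105, v429, v376] :=
  P_of 8 9 0xffffffffffffffffffffffffffffff525493fcfe401022bcad2d4b62d0b42c4b1ffffffffffffffffffffffffffffff2f0bc348d1368dcfffff2e4b82e8bb2f0bc
    (by decide +kernel) t3_286

theorem t3_288 : Good (Q 8) [v121, v54, v434, v105, v436, v382] :=
  split_of 1 3 v104 1319149179 (by decide +kernel) (good_ofj c3_273) (good_ofj c3_274) rfl rfl

theorem t3_289 : Good (Q 8) [v121, v54, v434, v105, v429, v382] :=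
  split_of 1 4 v436 1305739407 (by decide +kernel) (good_ofj c3_272) t3_288 rfl rfl

theorem t3_290 : Good (Q 9) [v121, v54, v434, v105, v429, v382] :=
  P_of 8 9 0xffffffffffffffffffffffffffffff5294a3fcfe401012b8ae2d0b52d0b52c4b1ffffffffffffffffffffffffffffff2ecbb348d236cdbfffff2e4b92e8ba2f0bd
    (by decide +kernel) t3_289

theorem t3_291 : Good (Q 9) [v121, v54, v38, v105, v434, v382] :=
  split_of 0 2 v123 1319243250 (by decide +kernel) (good_ofj c3_275) (good_ofj c3_276) rfl rfl

theorem t3_292 : Good (Q 9) [v121, v54, v38, v105, v429, v382] :=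
  split_of 2 4 v434 1318995381 (by decide +kernel) t3_290 t3_291 rfl rfl

theorem t3_293 : Good (Q 9) [v121, v54, v38, v105, v429, v376] :=
  split_of 2 5 v382 1318892226 (by decide +kernel) t3_287 t3_292 rfl rfl

theorem t3_294 : Good (Q 8) [v121, v506, v54, v105, v429, v376] :=
  split_of 2 5 v589 1305637840 (by decide +kernel) (good_ofj c3_277) (good_ofj c3_278) rfl rfl

theorem t3_295 : Good (Q 9) [v121, v506, v54, v105, v429, v376] :=
  P_of 8 9 0xffffffffffffffffffffffffffffff5214a3fcfe405012b8ae2d4b52d0b42c4b2ffffffffffffffffffffffffffffff2f0bc344d2368dbfffff2e4b82ecba2f0bc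
    (by decide +kernel) t3_294

theorem t3_296 : Good (Q 9) [v121, v30, v54, v105, v429, v376] :=
  split_of 1 3 v506 1305903727 (by decide +kernel) t3_295 (good_ofj c3_279) rfl rfl

theorem t3_297 : Good (Q 9) [v121, v30, v38, v105, v429, v376] :=
  split_of 1 2 v54 1309864426 (by decide +kernel) t3_293 t3_296 rfl rfl

theorem t3_298 : Good (Q 9) [v120, v121, v38, v105, v429, v382] :=
  split_of 0 2 v124 1326818823 (by decide +kernel) (good_ofj c3_281) (good_ofj c3_282) rfl rfl

theorem t3_299 : Good (Q 9) [v120, v121, v38, v105, v429, v376] :=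
  split_of 2 5 v382 1318892226 (by decide +kernel) (good_ofj c3_280) t3_298 rfl rfl

theorem t3_300 : Good (Q 9) [v120, v30, v38, v105, v429, v376] :=
  split_of 0 1 v121 1301234981 (by decide +kernel) t3_297 t3_299 rfl rfl

theorem t3_301 : Good (Q 9) [v120, v30, v38, v105, v428, v376] :=
  split_of 1 4 v429 1300207819 (by decide +kernel) (good_ofj c3_267) t3_300 rfl rfl

theorem t3_302 : Good (Q 9) [v120, v30, v38, v105, v428, v374] :=
  split_of 1 5 v376 1299775629 (by decide +kernel) (good_ofj c3_266) t3_301 rfl rfl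

theorem t3_303 : Good (Q 9) [v108, v30, v38, v105, v428, v374] :=
  split_of 0 1 v120 1317105264 (by decide +kernel) t3_302 (good_ofj c3_283) rfl rfl

theorem t3_304 : Good (Q 9) [v108, v30, v38, v91, v428, v374] :=
  split_of 1 3 v105 1326446749 (by decide +kernel) t3_283 t3_303 rfl rfl

theorem t3_305 : Good (Q 9) [v108, v30, v7, v91, v428, v374] :=
  split_of 1 2 v38 1333169107 (by decide +kernel) t3_280 t3_304 rfl rfl

theorem t3_306 : Good (Q 9) [v108, v30, v7, v87, v428, v374] :=
  split_of 2 3 v91 1345746917 (by decide +kernel) t3_251 t3_305 rfl rfl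

theorem t3_307 : Good (Q 9) [v108, v30, v7, v87, v427, v374] :=
  split_of 1 4 v428 1313261210 (by decide +kernel) t3_249 t3_306 rfl rfl

theorem t3_308 : Good (Q 9) [v108, v30, v7, v87, v427, v369] :=
  split_of 1 5 v374 1311272127 (by decide +kernel) t3_241 t3_307 rfl rfl

theorem t3_309 : Good (Q 9) [v107, v30, v7, v87, v427, v369] :=
  split_of 0 2 v108 1329531520 (by decide +kernel) t3_308 (good_ofj c3_284) rfl rfl

theorem t3_310 : Good (Q 9) [v107, v30, v7, v84, v427, v369] :=
  split_of 2 3 v87 1324037525 (by decide +kernel) (good_ofj c3_214) t3_309 rfl rfl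

theorem t3_311 : Good (Q 10) [v107, v30, v7, v84, v427, v369] :=
  env_E _ t3_310

theorem t3_312 : Good (Q 10) [v107, v30, v7, v84, v426, v369] :=
  split_of 2 4 v427 1315710025 (by decide +kernel) (good_ofj c3_213) t3_311 rfl rfl

theorem t3_313 : Good (Q 10) [v107, v30, v7, v84, v426, v339] :=
  split_of 2 5 v369 1305386625 (by decide +kernel) (good_ofj c3_212) t3_312 rfl rfl

theorem t3_314 : Good (Q 10) [v125, v30, v7, v84, v426, v339] :=
  split_of 0 2 v107 1245967015 (by decide +kernel) t3_313 (good_ofj c3_285) rfl rfl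

theorem t3_315 : Good (Q 10) [v125, v30, v7, v3, v426, v339] :=
  split_of 0 3 v84 1229127558 (by decide +kernel) t3_235 t3_314 rfl rfl

theorem t3_316 : Good (Q 10) [v125, v30, v7, v3, v398, v339] :=
  split_of 0 4 v426 1184875434 (by decide +kernel) t3_145 t3_315 rfl rfl

theorem t3_317 : Good (Q 10) [v125, v30, v7, v3, v398, v341] :=
  split_of 0 5 v339 1116736499 (by decide +kernel) t3_71 t3_316 rfl rfl

theorem t3_318 : Good (Q 9) [v347, v30, v348, v129, v590, v346] :=
  split_of 1 3 v131 1293604245 (by decide +kernel) (good_ofj c3_295) (good_ofj c3_296) rfl rfl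

theorem t3_319 : Good (Q 9) [v347, v30, v348, v129, v486, v346] :=
  split_of 1 4 v590 1290828974 (by decide +kernel) (good_ofj c3_294) t3_318 rfl rfl

theorem t3_320 : Good (Q 9) [v347, v30, v345, v129, v486, v346] :=
  split_of 1 2 v348 1315051345 (by decide +kernel) (good_ofj c3_293) t3_319 rfl rfl

theorem t3_321 : Good (Q 9) [v344, v30, v345, v129, v486, v346] :=
  split_of 0 1 v347 1313640791 (by decide +kernel) t3_320 (good_ofj c3_297) rfl rfl

theorem t3_322 : Good (Q 9) [v344, v30, v345, v128, v486, v346] :=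
  split_of 1 3 v129 1303729140 (by decide +kernel) (good_ofj c3_292) t3_321 rfl rfl

theorem t3_323 : Good (Q 9) [v344, v30, v345, v128, v486, v342] :=
  split_of 1 5 v346 1289073195 (by decide +kernel) (good_ofj c3_291) t3_322 rfl rfl

theorem t3_324 : Good (Q 9) [v347, v30, v592, v131, v590, v348] :=
  split_of 0 1 v350 1298242015 (by decide +kernel) (good_ofj c3_303) (good_ofj c3_304) rfl rfl

theorem t3_325 : Good (Q 9) [v347, v30, v592, v129, v590, v348] :=
  split_of 1 3 v131 1293604245 (by decide +kernel) (good_ofj c3_302) t3_324 rfl rfl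

theorem t3_326 : Good (Q 9) [v347, v30, v591, v129, v590, v348] :=
  split_of 1 2 v592 1315466281 (by decide +kernel) (good_ofj c3_301) t3_325 rfl rfl

theorem t3_327 : Good (Q 9) [v347, v30, v591, v129, v486, v348] :=
  split_of 1 4 v590 1290828974 (by decide +kernel) (good_ofj c3_300) t3_326 rfl rfl

theorem t3_328 : Good (Q 9) [v347, v30, v591, v129, v486, v345] :=
  split_of 1 5 v348 1315051345 (by decide +kernel) (good_ofj c3_299) t3_327 rfl rfl

theorem t3_329 : Good (Q 9) [v344, v30, v591, v129, v486, v345] :=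
  split_of 0 1 v347 1313640791 (by decide +kernel) t3_328 (good_ofj c3_305) rfl rfl

theorem t3_330 : Good (Q 9) [v354, v43, v7, v134, v593, v352] :=
  split_of 2 5 v355 1351763844 (by decide +kernel) (good_ofj c3_310) (good_ofj c3_311) rfl rfl

theorem t3_331 : Good (Q 9) [v351, v43, v7, v134, v593, v352] :=
  split_of 0 2 v354 1351504063 (by decide +kernel) t3_330 (good_ofj c3_312) rfl rfl

theorem t3_332 : Good (Q 9) [v351, v43, v7, v133, v593, v352] :=
  split_of 2 3 v134 1349522479 (by decide +kernel) (good_ofj c3_309) t3_331 rfl rfl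

theorem t3_333 : Good (Q 9) [v356, v38, v43, v133, v593, v352] :=
  split_of 1 5 v357 1343006453 (by decide +kernel) (good_ofj c3_313) (good_ofj c3_314) rfl rfl

theorem t3_334 : Good (Q 9) [v351, v38, v43, v133, v593, v352] :=
  split_of 0 1 v356 1342711840 (by decide +kernel) t3_333 (good_ofj c3_315) rfl rfl

theorem t3_335 : Good (Q 9) [v351, v38, v7, v133, v593, v352] :=
  split_of 1 2 v43 1347746544 (by decide +kernel) t3_332 t3_334 rfl rfl

theorem t3_336 : Good (Q 9) [v351, v38, v7, v133, v591, v352] :=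
  split_of 2 4 v593 1349038282 (by decide +kernel) (good_ofj c3_308) t3_335 rfl rfl

theorem t3_337 : Good (Q 9) [v351, v38, v7, v133, v591, v345] :=
  split_of 2 5 v352 1348588359 (by decide +kernel) (good_ofj c3_307) t3_336 rfl rfl

theorem t3_338 : Good (Q 9) [v344, v38, v7, v133, v591, v345] :=
  split_of 0 2 v351 1347496915 (by decide +kernel) t3_337 (good_ofj c3_316) rfl rfl

theorem t3_339 : Good (Q 9) [v344, v38, v7, v129, v591, v345] :=
  split_of 2 3 v133 1339964634 (by decide +kernel) (good_ofj c3_306) t3_338 rfl rfl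

theorem t3_340 : Good (Q 8) [v347, v348, v38, v388, v591, v345] :=
  split_of 2 5 v358 1336275849 (by decide +kernel) (good_ofj c3_317) (good_ofj c3_318) rfl rfl

theorem t3_341 : Good (Q 9) [v347, v348, v38, v388, v591, v345] :=
  P_of 8 9 0xfffffffffffffffffffffffffffffffffff3a8e93d4f32c4b12e4ba2c8b32d8b5ffffffffffffffffffffffffffffff2e0b738ce43a0ebfffff2bcb02e8b92e0b7
    (by decide +kernel) t3_340

theorem t3_342 : Good (Q 9) [v347, v348, v38, v129, v591, v345] :=
  split_of 3 5 v388 1323523715 (by decide +kernel) t3_341 (good_ofj c3_319) rfl rfl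

theorem t3_343 : Good (Q 8) [v347, v592, v38, v137, v591, v348] :=
  split_of 0 4 v594 1328055188 (by decide +kernel) (good_ofj c3_321) (good_ofj c3_322) rfl rfl

theorem t3_344 : Good (Q 9) [v347, v592, v38, v137, v591, v348] :=
  P_of 8 9 0xffffffffffffffffffffffffffffff5b9743b4ea3d8f52c4b22e4ba2ccb32d0b5ffffffffffffffffffffffffffffff2e0b7380e339ce9fffff2c4b02e8bb2e0b7
    (by decide +kernel) t3_343

theorem t3_345 : Good (Q 9) [v347, v592, v38, v129, v591, v348] :=
  split_of 2 3 v137 1321013612 (by decide +kernel) (good_ofj c3_320) t3_344 rfl rfl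

theorem t3_346 : Good (Q 9) [v347, v131, v38, v129, v592, v348] :=
  split_of 2 3 v137 1321013612 (by decide +kernel) (good_ofj c3_323) (good_ofj c3_324) rfl rfl

theorem t3_347 : Good (Q 9) [v360, v54, v38, v139, v592, v348] :=
  split_of 2 5 v361 1325072467 (by decide +kernel) (good_ofj c3_326) (good_ofj c3_327) rfl rfl

theorem t3_348 : Good (Q 9) [v347, v54, v38, v139, v592, v348] :=
  split_of 0 2 v360 1324737533 (by decide +kernel) t3_347 (good_ofj c3_328) rfl rfl

theorem t3_349 : Good (Q 9) [v347, v54, v38, v131, v592, v348] :=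
  split_of 2 3 v139 1316091829 (by decide +kernel) (good_ofj c3_325) t3_348 rfl rfl

theorem t3_350 : Good (Q 7) [v350, v362, v54, v389, v592, v348] :=
  split_of 2 5 v424 1312880953 (by decide +kernel) (good_ofj c3_329) (good_ofj c3_330) rfl rfl

theorem t3_351 : Good (Q 7) [v350, v362, v54, v131, v592, v348] :=
  split_of 3 5 v389 1305239268 (by decide +kernel) t3_350 (good_ofj c3_331) rfl rfl

theorem t3_352 : Good (Q 8) [v350, v362, v54, v131, v592, v348] :=
  P_of 7 8 0xffffffffffffffffffffffffffffff4f9404090241d052bcb02d8b62bcaf2c8b2ffffffffffffffffffffffffffffff2fcbf340d134cd4735ca2dcb82fcbf2f0ba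
    (by decide +kernel) t3_351

theorem t3_353 : Good (Q 9) [v350, v362, v54, v131, v592, v348] :=
  P_of 8 9 0xffffffffffffffffffffffffffffff5013e40902415072c0af2d4b62bcaf2c8b2ffffffffffffffffffffffffffffff2f8bf348d034cd3fffff2e0b72f8bf2ecbc
    (by decide +kernel) t3_352

theorem t3_354 : Good (Q 9) [v350, v30, v54, v131, v592, v348] :=
  split_of 1 5 v362 1298624358 (by decide +kernel) t3_353 (good_ofj c3_332) rfl rfl

theorem t3_355 : Good (Q 8) [v347, v350, v54, v131, v592, v348] :=
  split_of 0 3 v390 1304846925 (by decide +kernel) (good_ofj c3_333) (good_ofj c3_334) rfl rfl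

theorem t3_356 : Good (Q 9) [v347, v350, v54, v131, v592, v348] :=
  P_of 8 9 0xffffffffffffffffffffffffffffff5014140902415052c0b02d8b62c0b02c8b1ffffffffffffffffffffffffffffff2f8be344d1350d5fffff2e0b82f8be2ecbb
    (by decide +kernel) t3_355

theorem t3_357 : Good (Q 9) [v347, v30, v54, v131, v592, v348] :=
  split_of 0 1 v350 1298242015 (by decide +kernel) t3_354 t3_356 rfl rfl

theorem t3_358 : Good (Q 9) [v347, v30, v38, v131, v592, v348] :=
  split_of 1 2 v54 1309864426 (by decide +kernel) t3_349 t3_357 rfl rfl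

theorem t3_359 : Good (Q 9) [v347, v30, v38, v129, v592, v348] :=
  split_of 1 3 v131 1293604245 (by decide +kernel) t3_346 t3_358 rfl rfl

theorem t3_360 : Good (Q 9) [v347, v30, v38, v129, v591, v348] :=
  split_of 1 4 v592 1315466281 (by decide +kernel) t3_345 t3_359 rfl rfl

theorem t3_361 : Good (Q 9) [v347, v30, v38, v129, v591, v345] :=
  split_of 1 5 v348 1315051345 (by decide +kernel) t3_342 t3_360 rfl rfl

theorem t3_362 : Good (Q 9) [v391, v347, v38, v129, v591, v345] :=
  split_of 3 5 v388 1323523715 (by decide +kernel) (good_ofj c3_335) (good_ofj c3_336) rfl rfl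

theorem t3_363 : Good (Q 9) [v344, v347, v38, v129, v591, v345] :=
  split_of 0 3 v391 1322023120 (by decide +kernel) t3_362 (good_ofj c3_337) rfl rfl

theorem t3_364 : Good (Q 9) [v344, v30, v38, v129, v591, v345] :=
  split_of 0 1 v347 1313640791 (by decide +kernel) t3_361 t3_363 rfl rfl

theorem t3_365 : Good (Q 9) [v344, v30, v7, v129, v591, v345] :=
  split_of 1 2 v38 1333169107 (by decide +kernel) t3_339 t3_364 rfl rfl

theorem t3_366 : Good (Q 9) [v344, v30, v7, v129, v486, v345] :=
  split_of 2 4 v591 1337829094 (by decide +kernel) t3_329 t3_365 rfl rfl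

theorem t3_367 : Good (Q 9) [v344, v30, v7, v128, v486, v345] :=
  split_of 1 3 v129 1303729140 (by decide +kernel) (good_ofj c3_298) t3_366 rfl rfl

theorem t3_368 : Good (Q 9) [v344, v30, v7, v128, v486, v342] :=
  split_of 2 5 v345 1335968999 (by decide +kernel) t3_323 t3_367 rfl rfl

theorem t3_369 : Good (Q 10) [v344, v30, v7, v128, v486, v342] :=
  env_E _ t3_368

theorem t3_370 : Good (Q 9) [v367, v30, v347, v129, v486, v346] :=
  split_of 1 4 v590 1290828974 (by decide +kernel) (good_ofj c3_341) (good_ofj c3_342) rfl rfl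

theorem t3_371 : Good (Q 9) [v367, v30, v344, v129, v486, v346] :=
  split_of 1 2 v347 1313640791 (by decide +kernel) (good_ofj c3_340) t3_370 rfl rfl

theorem t3_372 : Good (Q 9) [v367, v30, v344, v128, v486, v346] :=
  split_of 1 3 v129 1303729140 (by decide +kernel) (good_ofj c3_339) t3_371 rfl rfl

theorem t3_373 : Good (Q 10) [v367, v30, v344, v128, v486, v346] :=
  env_E _ t3_372

theorem t3_374 : Good (Q 10) [v367, v30, v344, v128, v486, v342] :=
  split_of 1 5 v346 1289073195 (by decide +kernel) (good_ofj c3_338) t3_373 rfl rfl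

theorem t3_375 : Good (Q 10) [v343, v30, v344, v128, v486, v342] :=
  split_of 0 1 v367 1282767547 (by decide +kernel) t3_374 (good_ofj c3_343) rfl rfl

theorem t3_376 : Good (Q 10) [v343, v30, v7, v128, v486, v342] :=
  split_of 0 2 v344 1331125411 (by decide +kernel) t3_369 t3_375 rfl rfl

theorem t3_377 : Good (Q 10) [v343, v30, v7, v128, v483, v342] :=
  split_of 1 4 v486 1293212810 (by decide +kernel) (good_ofj c3_290) t3_376 rfl rfl

theorem t3_378 : Good (Q 10) [v343, v30, v7, v126, v483, v342] :=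
  split_of 1 3 v128 1307275754 (by decide +kernel) (good_ofj c3_289) t3_377 rfl rfl

theorem t3_379 : Good (Q 10) [v343, v30, v7, v126, v483, v340] :=
  split_of 1 5 v342 1284967838 (by decide +kernel) (good_ofj c3_288) t3_378 rfl rfl

theorem t3_380 : Good (Q 10) [v339, v30, v7, v126, v483, v340] :=
  split_of 0 1 v343 1260336929 (by decide +kernel) t3_379 (good_ofj c3_344) rfl rfl

theorem t3_381 : Good (Q 10) [v339, v30, v7, v126, v482, v340] :=
  split_of 1 4 v483 1268403305 (by decide +kernel) (good_ofj c3_287) t3_380 rfl rfl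

theorem t3_382 : Good (Q 10) [v339, v30, v7, v126, v482, v341] :=
  split_of 1 5 v340 1222692218 (by decide +kernel) (good_ofj c3_286) t3_381 rfl rfl

theorem t3_383 : Good (Q 10) [v595, v343, v7, v126, v483, v369] :=
  split_of 2 3 v596 1324037525 (by decide +kernel) (good_ofj c3_347) (good_ofj c3_348) rfl rfl

theorem t3_384 : Good (Q 10) [v484, v343, v7, v126, v483, v369] :=
  split_of 0 2 v595 1312910633 (by decide +kernel) t3_383 (good_ofj c3_349) rfl rfl

theorem t3_385 : Good (Q 10) [v484, v343, v7, v126, v483, v339] :=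
  split_of 2 5 v369 1305386625 (by decide +kernel) (good_ofj c3_346) t3_384 rfl rfl

theorem t3_386 : Good (Q 10) [v484, v128, v7, v126, v483, v343] :=
  split_of 0 2 v595 1312910633 (by decide +kernel) (good_ofj c3_350) (good_ofj c3_351) rfl rfl

theorem t3_387 : Good (Q 9) [v597, v30, v347, v129, v486, v367] :=
  split_of 1 4 v590 1290828974 (by decide +kernel) (good_ofj c3_356) (good_ofj c3_357) rfl rfl

theorem t3_388 : Good (Q 9) [v597, v30, v344, v129, v486, v367] :=
  split_of 1 2 v347 1313640791 (by decide +kernel) (good_ofj c3_355) t3_387 rfl rfl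

theorem t3_389 : Good (Q 9) [v597, v30, v344, v128, v486, v367] :=
  split_of 1 3 v129 1303729140 (by decide +kernel) (good_ofj c3_354) t3_388 rfl rfl

theorem t3_390 : Good (Q 9) [v595, v30, v344, v128, v486, v367] :=
  split_of 0 1 v597 1312910633 (by decide +kernel) t3_389 (good_ofj c3_358) rfl rfl

theorem t3_391 : Good (Q 9) [v595, v30, v344, v128, v486, v343] :=
  split_of 1 5 v367 1282767547 (by decide +kernel) (good_ofj c3_353) t3_390 rfl rfl

theorem t3_392 : Good (Q 9) [v595, v129, v7, v130, v591, v344] :=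
  split_of 0 2 v598 1343518117 (by decide +kernel) (good_ofj c3_361) (good_ofj c3_362) rfl rfl

theorem t3_393 : Good (Q 9) [v595, v129, v7, v130, v486, v344] :=
  split_of 2 4 v591 1337829094 (by decide +kernel) (good_ofj c3_360) t3_392 rfl rfl

theorem t3_394 : Good (Q 9) [v595, v129, v7, v128, v486, v344] :=
  split_of 2 3 v130 1341057865 (by decide +kernel) (good_ofj c3_359) t3_393 rfl rfl

theorem t3_395 : Good (Q 9) [v599, v30, v592, v131, v590, v347] :=
  split_of 1 5 v350 1298242015 (by decide +kernel) (good_ofj c3_367) (good_ofj c3_368) rfl rfl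

theorem t3_396 : Good (Q 9) [v599, v30, v592, v129, v590, v347] :=
  split_of 1 3 v131 1293604245 (by decide +kernel) (good_ofj c3_366) t3_395 rfl rfl

theorem t3_397 : Good (Q 9) [v597, v30, v592, v129, v590, v347] :=
  split_of 0 1 v599 1300163123 (by decide +kernel) t3_396 (good_ofj c3_369) rfl rfl

theorem t3_398 : Good (Q 9) [v597, v30, v591, v129, v590, v347] :=
  split_of 1 2 v592 1315466281 (by decide +kernel) (good_ofj c3_365) t3_397 rfl rfl

theorem t3_399 : Good (Q 9) [v597, v30, v591, v129, v486, v347] :=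
  split_of 1 4 v590 1290828974 (by decide +kernel) (good_ofj c3_364) t3_398 rfl rfl

theorem t3_400 : Good (Q 9) [v597, v30, v591, v129, v486, v344] :=
  split_of 1 5 v347 1313640791 (by decide +kernel) (good_ofj c3_363) t3_399 rfl rfl

theorem t3_401 : Good (Q 9) [v597, v38, v133, v129, v591, v344] :=
  split_of 3 5 v391 1322023120 (by decide +kernel) (good_ofj c3_370) (good_ofj c3_371) rfl rfl

theorem t3_402 : Good (Q 9) [v601, v43, v7, v134, v593, v351] :=
  split_of 2 5 v354 1351504063 (by decide +kernel) (good_ofj c3_375) (good_ofj c3_376) rfl rfl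

theorem t3_403 : Good (Q 9) [v600, v43, v7, v134, v593, v351] :=
  split_of 0 2 v601 1350320645 (by decide +kernel) t3_402 (good_ofj c3_377) rfl rfl

theorem t3_404 : Good (Q 9) [v600, v43, v7, v133, v593, v351] :=
  split_of 2 3 v134 1349522479 (by decide +kernel) (good_ofj c3_374) t3_403 rfl rfl

theorem t3_405 : Good (Q 9) [v600, v38, v43, v133, v593, v356] :=
  split_of 1 4 v602 1343112045 (by decide +kernel) (good_ofj c3_379) (good_ofj c3_380) rfl rfl

theorem t3_406 : Good (Q 9) [v600, v38, v43, v133, v593, v351] :=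
  split_of 1 5 v356 1342711840 (by decide +kernel) (good_ofj c3_378) t3_405 rfl rfl

theorem t3_407 : Good (Q 9) [v600, v38, v7, v133, v593, v351] :=
  split_of 1 2 v43 1347746544 (by decide +kernel) t3_404 t3_406 rfl rfl

theorem t3_408 : Good (Q 9) [v600, v38, v7, v133, v591, v351] :=
  split_of 2 4 v593 1349038282 (by decide +kernel) (good_ofj c3_373) t3_407 rfl rfl

theorem t3_409 : Good (Q 9) [v600, v38, v7, v133, v591, v344] :=
  split_of 2 5 v351 1347496915 (by decide +kernel) (good_ofj c3_372) t3_408 rfl rfl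

theorem t3_410 : Good (Q 9) [v597, v38, v7, v133, v591, v344] :=
  split_of 0 2 v600 1342848033 (by decide +kernel) t3_409 (good_ofj c3_381) rfl rfl

theorem t3_411 : Good (Q 9) [v597, v38, v7, v129, v591, v344] :=
  split_of 2 3 v133 1339964634 (by decide +kernel) t3_401 t3_410 rfl rfl

theorem t3_412 : Good (Q 9) [v597, v347, v38, v129, v591, v344] :=
  split_of 3 5 v391 1322023120 (by decide +kernel) (good_ofj c3_382) (good_ofj c3_383) rfl rfl

theorem t3_413 : Good (Q 8) [v603, v592, v38, v137, v591, v347] :=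
  split_of 4 5 v594 1328055188 (by decide +kernel) (good_ofj c3_385) (good_ofj c3_386) rfl rfl

theorem t3_414 : Good (Q 9) [v603, v592, v38, v137, v591, v347] :=
  P_of 8 9 0xffffffffffffffffffffffffffffff5bd743b4ea3d8f52c4b22e4ba2ccb32d0b5ffffffffffffffffffffffffffffff2e0b7384e339ce9fffff2c4b02e8bb2e0b7
    (by decide +kernel) t3_413

theorem t3_415 : Good (Q 9) [v597, v592, v38, v137, v591, v347] :=
  split_of 0 2 v603 1325816608 (by decide +kernel) t3_414 (good_ofj c3_387) rfl rfl

theorem t3_416 : Good (Q 9) [v597, v592, v38, v129, v591, v347] :=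
  split_of 2 3 v137 1321013612 (by decide +kernel) (good_ofj c3_384) t3_415 rfl rfl

theorem t3_417 : Good (Q 9) [v599, v131, v38, v137, v592, v347] :=
  split_of 1 2 v139 1316091829 (by decide +kernel) (good_ofj c3_389) (good_ofj c3_390) rfl rfl

theorem t3_418 : Good (Q 9) [v599, v131, v38, v129, v592, v347] :=
  split_of 2 3 v137 1321013612 (by decide +kernel) (good_ofj c3_388) t3_417 rfl rfl

theorem t3_419 : Good (Q 8) [v599, v54, v139, v131, v592, v390] :=
  split_of 0 3 v604 1297559867 (by decide +kernel) (good_ofj c3_392) (good_ofj c3_393) rfl rfl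

theorem t3_420 : Good (Q 8) [v599, v54, v139, v131, v592, v347] :=
  split_of 3 5 v390 1304846925 (by decide +kernel) (good_ofj c3_391) t3_419 rfl rfl

theorem t3_421 : Good (Q 9) [v599, v54, v139, v131, v592, v347] :=
  P_of 8 9 0xffffffffffffffffffffffffffffff5094240501411052c0b02dcb72c0b02c4b0ffffffffffffffffffffffffffffff2f8bd344d1358d6fffff2e0b82fcbf2e8ba
    (by decide +kernel) t3_420

theorem t3_422 : Good (Q 9) [v605, v54, v38, v139, v592, v347] :=
  split_of 2 5 v360 1324737533 (by decide +kernel) (good_ofj c3_394) (good_ofj c3_395) rfl rfl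

theorem t3_423 : Good (Q 9) [v599, v54, v38, v139, v592, v347] :=
  split_of 0 2 v605 1318989953 (by decide +kernel) t3_422 (good_ofj c3_396) rfl rfl

theorem t3_424 : Good (Q 9) [v599, v54, v38, v131, v592, v347] :=
  split_of 2 3 v139 1316091829 (by decide +kernel) t3_421 t3_423 rfl rfl

theorem t3_425 : Good (Q 8) [v599, v350, v54, v131, v592, v347] :=
  split_of 3 5 v390 1304846925 (by decide +kernel) (good_ofj c3_397) (good_ofj c3_398) rfl rfl

theorem t3_426 : Good (Q 9) [v599, v350, v54, v131, v592, v347] :=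
  P_of 8 9 0xffffffffffffffffffffffffffffff5014040901415062c0b02d8b62c0b02c4b1ffffffffffffffffffffffffffffff2f8be344d0354d5fffff2e0b82f8be2ecbb
    (by decide +kernel) t3_425

theorem t3_427 : Good (Q 9) [v599, v30, v54, v131, v592, v347] :=
  split_of 1 5 v350 1298242015 (by decide +kernel) t3_426 (good_ofj c3_399) rfl rfl

theorem t3_428 : Good (Q 9) [v599, v30, v38, v131, v592, v347] :=
  split_of 1 2 v54 1309864426 (by decide +kernel) t3_424 t3_427 rfl rfl

theorem t3_429 : Good (Q 9) [v599, v30, v38, v129, v592, v347] :=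
  split_of 1 3 v131 1293604245 (by decide +kernel) t3_418 t3_428 rfl rfl

theorem t3_430 : Good (Q 9) [v597, v599, v38, v129, v592, v347] :=
  split_of 2 3 v137 1321013612 (by decide +kernel) (good_ofj c3_400) (good_ofj c3_401) rfl rfl

theorem t3_431 : Good (Q 9) [v597, v30, v38, v129, v592, v347] :=
  split_of 0 1 v599 1300163123 (by decide +kernel) t3_429 t3_430 rfl rfl

theorem t3_432 : Good (Q 9) [v597, v30, v38, v129, v591, v347] :=
  split_of 1 4 v592 1315466281 (by decide +kernel) t3_416 t3_431 rfl rfl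

theorem t3_433 : Good (Q 9) [v597, v30, v38, v129, v591, v344] :=
  split_of 1 5 v347 1313640791 (by decide +kernel) t3_412 t3_432 rfl rfl

theorem t3_434 : Good (Q 9) [v597, v30, v7, v129, v591, v344] :=
  split_of 1 2 v38 1333169107 (by decide +kernel) t3_411 t3_433 rfl rfl

theorem t3_435 : Good (Q 9) [v597, v30, v7, v129, v486, v344] :=
  split_of 2 4 v591 1337829094 (by decide +kernel) t3_400 t3_434 rfl rfl

theorem t3_436 : Good (Q 9) [v598, v597, v7, v129, v591, v344] :=
  split_of 2 3 v133 1339964634 (by decide +kernel) (good_ofj c3_403) (good_ofj c3_404) rfl rfl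

theorem t3_437 : Good (Q 9) [v598, v597, v7, v129, v486, v344] :=
  split_of 2 4 v591 1337829094 (by decide +kernel) (good_ofj c3_402) t3_436 rfl rfl

theorem t3_438 : Good (Q 9) [v595, v597, v7, v129, v486, v344] :=
  split_of 0 2 v598 1343518117 (by decide +kernel) t3_437 (good_ofj c3_405) rfl rfl

theorem t3_439 : Good (Q 9) [v595, v30, v7, v129, v486, v344] :=
  split_of 0 1 v597 1312910633 (by decide +kernel) t3_435 t3_438 rfl rfl

theorem t3_440 : Good (Q 9) [v595, v30, v7, v128, v486, v344] :=
  split_of 1 3 v129 1303729140 (by decide +kernel) t3_394 t3_439 rfl rfl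

theorem t3_441 : Good (Q 9) [v595, v30, v7, v128, v486, v343] :=
  split_of 2 5 v344 1331125411 (by decide +kernel) t3_391 t3_440 rfl rfl

theorem t3_442 : Good (Q 10) [v595, v30, v7, v128, v486, v343] :=
  env_E _ t3_441

theorem t3_443 : Good (Q 10) [v595, v30, v7, v128, v483, v343] :=
  split_of 1 4 v486 1293212810 (by decide +kernel) (good_ofj c3_352) t3_442 rfl rfl

theorem t3_444 : Good (Q 9) [v485, v30, v595, v128, v486, v367] :=
  split_of 0 3 v487 1298731224 (by decide +kernel) (good_ofj c3_408) (good_ofj c3_409) rfl rfl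

theorem t3_445 : Good (Q 10) [v485, v30, v595, v128, v486, v367] :=
  env_E _ t3_444

theorem t3_446 : Good (Q 10) [v485, v30, v595, v128, v486, v343] :=
  split_of 1 5 v367 1282767547 (by decide +kernel) (good_ofj c3_407) t3_445 rfl rfl

theorem t3_447 : Good (Q 10) [v485, v30, v595, v128, v483, v343] :=
  split_of 1 4 v486 1293212810 (by decide +kernel) (good_ofj c3_406) t3_446 rfl rfl

theorem t3_448 : Good (Q 10) [v484, v30, v595, v128, v483, v343] :=
  split_of 0 1 v485 1267400614 (by decide +kernel) t3_447 (good_ofj c3_410) rfl rfl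

theorem t3_449 : Good (Q 10) [v484, v30, v7, v128, v483, v343] :=
  split_of 0 2 v595 1312910633 (by decide +kernel) t3_443 t3_448 rfl rfl

theorem t3_450 : Good (Q 10) [v484, v30, v7, v126, v483, v343] :=
  split_of 1 3 v128 1307275754 (by decide +kernel) t3_386 t3_449 rfl rfl

theorem t3_451 : Good (Q 10) [v484, v30, v7, v126, v483, v339] :=
  split_of 1 5 v343 1260336929 (by decide +kernel) t3_385 t3_450 rfl rfl

theorem t3_452 : Good (Q 10) [v484, v30, v7, v126, v482, v339] :=
  split_of 1 4 v483 1268403305 (by decide +kernel) (good_ofj c3_345) t3_451 rfl rfl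

theorem t3_453 : Good (Q 10) [v152, v30, v369, v126, v484, v343] :=
  split_of 3 4 v488 1241799870 (by decide +kernel) (good_ofj c3_412) (good_ofj c3_413) rfl rfl

theorem t3_454 : Good (Q 10) [v152, v30, v369, v126, v484, v339] :=
  split_of 1 5 v343 1260336929 (by decide +kernel) (good_ofj c3_411) t3_453 rfl rfl

theorem t3_455 : Good (Q 10) [v152, v128, v7, v126, v484, v369] :=
  split_of 3 4 v488 1241799870 (by decide +kernel) (good_ofj c3_414) (good_ofj c3_415) rfl rfl

theorem t3_456 : Good (Q 10) [v152, v30, v595, v128, v484, v369] :=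
  split_of 1 4 v485 1267400614 (by decide +kernel) (good_ofj c3_416) (good_ofj c3_417) rfl rfl

theorem t3_457 : Good (Q 9) [v153, v374, v7, v128, v595, v375] :=
  split_of 2 3 v130 1341057865 (by decide +kernel) (good_ofj c3_419) (good_ofj c3_420) rfl rfl

theorem t3_458 : Good (Q 9) [v153, v374, v7, v128, v595, v369] :=
  split_of 2 5 v375 1341729738 (by decide +kernel) (good_ofj c3_418) t3_457 rfl rfl

theorem t3_459 : Good (Q 9) [v166, v133, v7, v145, v606, v377] :=
  split_of 1 2 v134 1349522479 (by decide +kernel) (good_ofj c3_426) (good_ofj c3_427) rfl rfl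

theorem t3_460 : Good (Q 9) [v166, v133, v7, v145, v598, v377] :=
  split_of 2 4 v606 1350569232 (by decide +kernel) (good_ofj c3_425) t3_459 rfl rfl

theorem t3_461 : Good (Q 9) [v166, v133, v7, v130, v598, v377] :=
  split_of 2 3 v145 1349823198 (by decide +kernel) (good_ofj c3_424) t3_460 rfl rfl

theorem t3_462 : Good (Q 9) [v153, v133, v7, v130, v598, v377] :=
  split_of 0 2 v166 1345413067 (by decide +kernel) t3_461 (good_ofj c3_428) rfl rfl

theorem t3_463 : Good (Q 9) [v153, v129, v7, v130, v598, v377] :=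
  split_of 1 2 v133 1339964634 (by decide +kernel) t3_462 (good_ofj c3_429) rfl rfl

theorem t3_464 : Good (Q 9) [v153, v129, v7, v130, v598, v374] :=
  split_of 2 5 v377 1342428891 (by decide +kernel) (good_ofj c3_423) t3_463 rfl rfl

theorem t3_465 : Good (Q 9) [v153, v129, v7, v130, v595, v374] :=
  split_of 2 4 v598 1343518117 (by decide +kernel) (good_ofj c3_422) t3_464 rfl rfl

theorem t3_466 : Good (Q 9) [v153, v129, v7, v128, v595, v374] :=
  split_of 2 3 v130 1341057865 (by decide +kernel) (good_ofj c3_421) t3_465 rfl rfl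

theorem t3_467 : Good (Q 9) [v166, v600, v7, v133, v606, v377] :=
  split_of 2 3 v134 1349522479 (by decide +kernel) (good_ofj c3_434) (good_ofj c3_435) rfl rfl

theorem t3_468 : Good (Q 9) [v166, v600, v7, v133, v598, v377] :=
  split_of 2 4 v606 1350569232 (by decide +kernel) (good_ofj c3_433) t3_467 rfl rfl

theorem t3_469 : Good (Q 9) [v166, v597, v7, v133, v598, v377] :=
  split_of 1 2 v600 1342848033 (by decide +kernel) t3_468 (good_ofj c3_436) rfl rfl

theorem t3_470 : Good (Q 9) [v153, v597, v7, v133, v598, v377] :=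
  split_of 0 2 v166 1345413067 (by decide +kernel) t3_469 (good_ofj c3_437) rfl rfl

theorem t3_471 : Good (Q 9) [v153, v597, v7, v129, v598, v377] :=
  split_of 2 3 v133 1339964634 (by decide +kernel) (good_ofj c3_432) t3_470 rfl rfl

theorem t3_472 : Good (Q 9) [v153, v597, v7, v129, v598, v374] :=
  split_of 2 5 v377 1342428891 (by decide +kernel) (good_ofj c3_431) t3_471 rfl rfl

theorem t3_473 : Good (Q 9) [v153, v597, v7, v129, v595, v374] :=
  split_of 2 4 v598 1343518117 (by decide +kernel) (good_ofj c3_430) t3_472 rfl rfl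

theorem t3_474 : Good (Q 9) [v156, v38, v133, v393, v597, v377] :=
  split_of 2 4 v607 1329645496 (by decide +kernel) (good_ofj c3_439) (good_ofj c3_440) rfl rfl

theorem t3_475 : Good (Q 9) [v156, v38, v133, v129, v597, v377] :=
  split_of 3 5 v393 1327598073 (by decide +kernel) t3_474 (good_ofj c3_441) rfl rfl

theorem t3_476 : Good (Q 9) [v156, v38, v600, v133, v597, v377] :=
  split_of 3 4 v607 1329645496 (by decide +kernel) (good_ofj c3_442) (good_ofj c3_443) rfl rfl

theorem t3_477 : Good (Q 7) [v157, v43, v379, v134, v600, v377] :=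
  split_of 1 5 v394 1345802542 (by decide +kernel) (good_ofj c3_445) (good_ofj c3_446) rfl rfl

theorem t3_478 : Good (Q 8) [v157, v43, v379, v134, v600, v377] :=
  P_of 7 8 0xffffffffffffffffffffffffffffff701c0350d435cd72e0b72fcbf2e8ba2ecbaffffffffffffffffffffffffffffff2d0b43f0fb41105521482b8ae2d0b42c8b2
    (by decide +kernel) t3_477

theorem t3_479 : Good (Q 9) [v157, v43, v379, v134, v600, v377] :=
  P_of 8 9 0xfffffffffffffffffffffffffffffffffff350d5358d72e4b82f8c12e4b92ecbaffffffffffffffffffffffffffffff2ccb53fcfb40d05519482bcae2ccb52c4b0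
    (by decide +kernel) t3_478

theorem t3_480 : Good (Q 7) [v157, v43, v601, v134, v600, v379] :=
  split_of 3 4 v608 1346914087 (by decide +kernel) (good_ofj c3_447) (good_ofj c3_448) rfl rfl

theorem t3_481 : Good (Q 8) [v157, v43, v601, v134, v600, v379] :=
  P_of 7 8 0xffffffffffffffffffffffffffffff71dc1348d4354d72e4b7300c12e8bb2ecb9ffffffffffffffffffffffffffffff2ccb43fcfa41907509472b8ae2d0b52c4b1
    (by decide +kernel) t3_480

theorem t3_482 : Good (Q 9) [v157, v43, v601, v134, v600, v379] :=
  P_of 8 9 0xfffffffffffffffffffffffffffffffffff34cd2358d52e4b92f8c02ecba2ecbbffffffffffffffffffffffffffffff2c8b33f8ff41506511422bcae2ccb42c8b1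
    (by decide +kernel) t3_481

theorem t3_483 : Good (Q 9) [v159, v43, v99, v609, v601, v381] :=
  split_of 1 4 v610 1349325384 (by decide +kernel) (good_ofj c3_452) (good_ofj c3_453) rfl rfl

theorem t3_484 : Good (Q 9) [v159, v43, v99, v134, v601, v381] :=
  split_of 2 3 v609 1350710315 (by decide +kernel) (good_ofj c3_451) t3_483 rfl rfl

theorem t3_485 : Good (Q 9) [v159, v43, v99, v134, v601, v379] :=
  split_of 1 5 v381 1349299014 (by decide +kernel) (good_ofj c3_450) t3_484 rfl rfl

theorem t3_486 : Good (Q 9) [v159, v43, v7, v134, v601, v379] :=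
  split_of 1 2 v99 1351535087 (by decide +kernel) (good_ofj c3_449) t3_485 rfl rfl

theorem t3_487 : Good (Q 7) [v157, v43, v159, v134, v601, v379] :=
  split_of 0 5 v395 1347423655 (by decide +kernel) (good_ofj c3_454) (good_ofj c3_455) rfl rfl

theorem t3_488 : Good (Q 8) [v157, v43, v159, v134, v601, v379] :=
  P_of 7 8 0xffffffffffffffffffffffffffffff721c5344d3354d62e4b8300c12ecbb2e8b9ffffffffffffffffffffffffffffff2ccb33f8fc42108505432b8ae2d0b42c8b1
    (by decide +kernel) t3_487

theorem t3_489 : Good (Q 9) [v157, v43, v159, v134, v601, v379] :=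
  P_of 8 9 0xfffffffffffffffffffffffffffffffffff344d1354d52e4b9300c02ecbb2e8baffffffffffffffffffffffffffffff2ccb33f8fe42108505412b8ae2d0b42c8b2
    (by decide +kernel) t3_488

theorem t3_490 : Good (Q 9) [v157, v43, v7, v134, v601, v379] :=
  split_of 0 2 v159 1350439771 (by decide +kernel) t3_486 t3_489 rfl rfl

theorem t3_491 : Good (Q 9) [v157, v43, v7, v134, v600, v379] :=
  split_of 2 4 v601 1350320645 (by decide +kernel) t3_482 t3_490 rfl rfl

theorem t3_492 : Good (Q 9) [v157, v43, v7, v134, v600, v377] :=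
  split_of 2 5 v379 1350213587 (by decide +kernel) t3_479 t3_491 rfl rfl

theorem t3_493 : Good (Q 9) [v157, v43, v7, v133, v600, v377] :=
  split_of 2 3 v134 1349522479 (by decide +kernel) (good_ofj c3_444) t3_492 rfl rfl

theorem t3_494 : Good (Q 9) [v157, v38, v43, v133, v600, v387] :=
  split_of 1 4 v611 1339150560 (by decide +kernel) (good_ofj c3_457) (good_ofj c3_458) rfl rfl

theorem t3_495 : Good (Q 9) [v157, v38, v43, v133, v600, v377] :=
  split_of 1 5 v387 1339048731 (by decide +kernel) (good_ofj c3_456) t3_494 rfl rfl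

theorem t3_496 : Good (Q 9) [v157, v38, v7, v133, v600, v377] :=
  split_of 1 2 v43 1347746544 (by decide +kernel) t3_493 t3_495 rfl rfl

theorem t3_497 : Good (Q 8) [v156, v38, v157, v133, v600, v377] :=
  split_of 0 3 v396 1330215083 (by decide +kernel) (good_ofj c3_459) (good_ofj c3_460) rfl rfl

theorem t3_498 : Good (Q 9) [v156, v38, v157, v133, v600, v377] :=
  P_of 8 9 0xfffffffffffffffffffffffffffffffffff3a0eb3a8ed2c8b12f8be2d8b62c8b2ffffffffffffffffffffffffffffff2dcb8390e23d0f1fffff2c8b22e0b82ccb4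
    (by decide +kernel) t3_497

theorem t3_499 : Good (Q 9) [v156, v38, v7, v133, v600, v377] :=
  split_of 0 2 v157 1343364615 (by decide +kernel) t3_496 t3_498 rfl rfl

theorem t3_500 : Good (Q 9) [v156, v38, v7, v133, v597, v377] :=
  split_of 2 4 v600 1342848033 (by decide +kernel) t3_476 t3_499 rfl rfl

theorem t3_501 : Good (Q 9) [v156, v38, v7, v129, v597, v377] :=
  split_of 2 3 v133 1339964634 (by decide +kernel) t3_475 t3_500 rfl rfl

theorem t3_502 : Good (Q 9) [v156, v38, v7, v129, v597, v374] :=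
  split_of 2 5 v377 1342428891 (by decide +kernel) (good_ofj c3_438) t3_501 rfl rfl

theorem t3_503 : Good (Q 9) [v156, v599, v38, v137, v603, v376] :=
  split_of 0 2 v165 1326403803 (by decide +kernel) (good_ofj c3_464) (good_ofj c3_465) rfl rfl

theorem t3_504 : Good (Q 9) [v156, v599, v38, v129, v603, v376] :=
  split_of 2 3 v137 1321013612 (by decide +kernel) (good_ofj c3_463) t3_503 rfl rfl

theorem t3_505 : Good (Q 9) [v156, v599, v38, v129, v597, v376] :=
  split_of 2 4 v603 1325816608 (by decide +kernel) (good_ofj c3_462) t3_504 rfl rfl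

theorem t3_506 : Good (Q 9) [v163, v131, v38, v137, v599, v382] :=
  split_of 1 2 v139 1316091829 (by decide +kernel) (good_ofj c3_468) (good_ofj c3_469) rfl rfl

theorem t3_507 : Good (Q 9) [v163, v131, v38, v137, v599, v376] :=
  split_of 2 5 v382 1318892226 (by decide +kernel) (good_ofj c3_467) t3_506 rfl rfl

theorem t3_508 : Good (Q 9) [v163, v131, v38, v129, v599, v376] :=
  split_of 2 3 v137 1321013612 (by decide +kernel) (good_ofj c3_466) t3_507 rfl rfl

theorem t3_509 : Good (Q 9) [v163, v54, v38, v139, v605, v382] :=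
  split_of 0 2 v164 1319143752 (by decide +kernel) (good_ofj c3_473) (good_ofj c3_474) rfl rfl

theorem t3_510 : Good (Q 9) [v163, v54, v38, v139, v599, v382] :=
  split_of 2 4 v605 1318989953 (by decide +kernel) (good_ofj c3_472) t3_509 rfl rfl

theorem t3_511 : Good (Q 9) [v163, v54, v38, v131, v599, v382] :=
  split_of 2 3 v139 1316091829 (by decide +kernel) (good_ofj c3_471) t3_510 rfl rfl

theorem t3_512 : Good (Q 9) [v163, v54, v38, v131, v599, v376] :=
  split_of 2 5 v382 1318892226 (by decide +kernel) (good_ofj c3_470) t3_511 rfl rfl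

theorem t3_513 : Good (Q 9) [v163, v30, v38, v131, v599, v376] :=
  split_of 1 2 v54 1309864426 (by decide +kernel) t3_512 (good_ofj c3_475) rfl rfl

theorem t3_514 : Good (Q 9) [v163, v30, v38, v129, v599, v376] :=
  split_of 1 3 v131 1293604245 (by decide +kernel) t3_508 t3_513 rfl rfl

theorem t3_515 : Good (Q 9) [v165, v163, v38, v137, v599, v376] :=
  split_of 2 5 v382 1318892226 (by decide +kernel) (good_ofj c3_477) (good_ofj c3_478) rfl rfl

theorem t3_516 : Good (Q 9) [v156, v163, v38, v137, v599, v376] :=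
  split_of 0 2 v165 1326403803 (by decide +kernel) t3_515 (good_ofj c3_479) rfl rfl

theorem t3_517 : Good (Q 9) [v156, v163, v38, v129, v599, v376] :=
  split_of 2 3 v137 1321013612 (by decide +kernel) (good_ofj c3_476) t3_516 rfl rfl

theorem t3_518 : Good (Q 9) [v156, v30, v38, v129, v599, v376] :=
  split_of 0 1 v163 1300833241 (by decide +kernel) t3_514 t3_517 rfl rfl

theorem t3_519 : Good (Q 9) [v156, v30, v38, v129, v597, v376] :=
  split_of 1 4 v599 1300163123 (by decide +kernel) t3_505 t3_518 rfl rfl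

theorem t3_520 : Good (Q 9) [v156, v30, v38, v129, v597, v374] :=
  split_of 1 5 v376 1299775629 (by decide +kernel) (good_ofj c3_461) t3_519 rfl rfl

theorem t3_521 : Good (Q 9) [v156, v30, v7, v129, v597, v374] :=
  split_of 1 2 v38 1333169107 (by decide +kernel) t3_502 t3_520 rfl rfl

theorem t3_522 : Good (Q 9) [v166, v157, v7, v134, v600, v379] :=
  split_of 0 2 v174 1351024736 (by decide +kernel) (good_ofj c3_485) (good_ofj c3_486) rfl rfl

theorem t3_523 : Good (Q 9) [v166, v157, v7, v134, v600, v377] :=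
  split_of 2 5 v379 1350213587 (by decide +kernel) (good_ofj c3_484) t3_522 rfl rfl

theorem t3_524 : Good (Q 9) [v166, v157, v7, v133, v600, v377] :=
  split_of 2 3 v134 1349522479 (by decide +kernel) (good_ofj c3_483) t3_523 rfl rfl

theorem t3_525 : Good (Q 9) [v166, v156, v7, v133, v600, v377] :=
  split_of 1 2 v157 1343364615 (by decide +kernel) t3_524 (good_ofj c3_487) rfl rfl

theorem t3_526 : Good (Q 9) [v166, v156, v7, v133, v597, v377] :=
  split_of 2 4 v600 1342848033 (by decide +kernel) (good_ofj c3_482) t3_525 rfl rfl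

theorem t3_527 : Good (Q 9) [v166, v156, v7, v129, v597, v377] :=
  split_of 2 3 v133 1339964634 (by decide +kernel) (good_ofj c3_481) t3_526 rfl rfl

theorem t3_528 : Good (Q 9) [v153, v156, v7, v129, v597, v377] :=
  split_of 0 2 v166 1345413067 (by decide +kernel) t3_527 (good_ofj c3_488) rfl rfl

theorem t3_529 : Good (Q 9) [v153, v156, v7, v129, v597, v374] :=
  split_of 2 5 v377 1342428891 (by decide +kernel) (good_ofj c3_480) t3_528 rfl rfl

theorem t3_530 : Good (Q 9) [v153, v30, v7, v129, v597, v374] :=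
  split_of 0 1 v156 1315360752 (by decide +kernel) t3_521 t3_529 rfl rfl

theorem t3_531 : Good (Q 9) [v153, v30, v7, v129, v595, v374] :=
  split_of 1 4 v597 1312910633 (by decide +kernel) t3_473 t3_530 rfl rfl

theorem t3_532 : Good (Q 9) [v153, v30, v7, v128, v595, v374] :=
  split_of 1 3 v129 1303729140 (by decide +kernel) t3_466 t3_531 rfl rfl

theorem t3_533 : Good (Q 9) [v153, v30, v7, v128, v595, v369] :=
  split_of 1 5 v374 1311272127 (by decide +kernel) t3_458 t3_532 rfl rfl

theorem t3_534 : Good (Q 9) [v152, v30, v7, v128, v595, v369] :=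
  split_of 0 2 v153 1321273347 (by decide +kernel) t3_533 (good_ofj c3_489) rfl rfl

theorem t3_535 : Good (Q 10) [v152, v30, v7, v128, v595, v369] :=
  env_E _ t3_534

theorem t3_536 : Good (Q 10) [v152, v30, v7, v128, v484, v369] :=
  split_of 2 4 v595 1312910633 (by decide +kernel) t3_456 t3_535 rfl rfl

theorem t3_537 : Good (Q 10) [v152, v30, v7, v126, v484, v369] :=
  split_of 1 3 v128 1307275754 (by decide +kernel) t3_455 t3_536 rfl rfl

theorem t3_538 : Good (Q 10) [v152, v30, v7, v126, v484, v339] :=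
  split_of 2 5 v369 1305386625 (by decide +kernel) t3_454 t3_537 rfl rfl

theorem t3_539 : Good (Q 9) [v109, v377, v7, v166, v598, v375] :=
  split_of 2 5 v384 1350127237 (by decide +kernel) (good_ofj c3_496) (good_ofj c3_497) rfl rfl

theorem t3_540 : Good (Q 9) [v108, v377, v7, v166, v598, v375] :=
  split_of 0 2 v109 1347302695 (by decide +kernel) t3_539 (good_ofj c3_498) rfl rfl

theorem t3_541 : Good (Q 9) [v108, v377, v7, v153, v598, v375] :=
  split_of 2 3 v166 1345413067 (by decide +kernel) (good_ofj c3_495) t3_540 rfl rfl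

theorem t3_542 : Good (Q 9) [v108, v374, v7, v153, v598, v375] :=
  split_of 1 2 v377 1342428891 (by decide +kernel) t3_541 (good_ofj c3_499) rfl rfl

theorem t3_543 : Good (Q 9) [v108, v374, v7, v153, v595, v375] :=
  split_of 2 4 v598 1343518117 (by decide +kernel) (good_ofj c3_494) t3_542 rfl rfl

theorem t3_544 : Good (Q 9) [v108, v374, v7, v153, v595, v369] :=
  split_of 2 5 v375 1341729738 (by decide +kernel) (good_ofj c3_493) t3_543 rfl rfl

theorem t3_545 : Good (Q 9) [v109, v600, v7, v166, v606, v379] :=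
  split_of 1 2 v601 1350320645 (by decide +kernel) (good_ofj c3_505) (good_ofj c3_506) rfl rfl

theorem t3_546 : Good (Q 9) [v109, v600, v7, v166, v606, v377] :=
  split_of 2 5 v379 1350213587 (by decide +kernel) (good_ofj c3_504) t3_545 rfl rfl

theorem t3_547 : Good (Q 9) [v109, v600, v7, v166, v598, v377] :=
  split_of 2 4 v606 1350569232 (by decide +kernel) (good_ofj c3_503) t3_546 rfl rfl

theorem t3_548 : Good (Q 9) [v108, v600, v7, v166, v598, v377] :=
  split_of 0 2 v109 1347302695 (by decide +kernel) t3_547 (good_ofj c3_507) rfl rfl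

theorem t3_549 : Good (Q 9) [v108, v597, v7, v166, v598, v377] :=
  split_of 1 2 v600 1342848033 (by decide +kernel) t3_548 (good_ofj c3_508) rfl rfl

theorem t3_550 : Good (Q 9) [v108, v597, v7, v153, v598, v377] :=
  split_of 2 3 v166 1345413067 (by decide +kernel) (good_ofj c3_502) t3_549 rfl rfl

theorem t3_551 : Good (Q 9) [v108, v597, v7, v153, v598, v374] :=
  split_of 2 5 v377 1342428891 (by decide +kernel) (good_ofj c3_501) t3_550 rfl rfl

theorem t3_552 : Good (Q 9) [v108, v597, v7, v153, v595, v374] :=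
  split_of 2 4 v598 1343518117 (by decide +kernel) (good_ofj c3_500) t3_551 rfl rfl

theorem t3_553 : Good (Q 9) [v108, v38, v166, v153, v597, v377] :=
  split_of 1 3 v172 1334980480 (by decide +kernel) (good_ofj c3_510) (good_ofj c3_511) rfl rfl

theorem t3_554 : Good (Q 9) [v108, v38, v600, v166, v597, v377] :=
  split_of 0 1 v111 1336786951 (by decide +kernel) (good_ofj c3_512) (good_ofj c3_513) rfl rfl

theorem t3_555 : Good (Q 9) [v109, v157, v7, v174, v600, v379] :=
  split_of 2 4 v601 1350320645 (by decide +kernel) (good_ofj c3_516) (good_ofj c3_517) rfl rfl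

theorem t3_556 : Good (Q 9) [v109, v157, v7, v166, v600, v379] :=
  split_of 2 3 v174 1351024736 (by decide +kernel) (good_ofj c3_515) t3_555 rfl rfl

theorem t3_557 : Good (Q 9) [v109, v157, v7, v166, v600, v377] :=
  split_of 2 5 v379 1350213587 (by decide +kernel) (good_ofj c3_514) t3_556 rfl rfl

theorem t3_558 : Good (Q 9) [v109, v43, v379, v157, v600, v386] :=
  split_of 0 1 v113 1348854888 (by decide +kernel) (good_ofj c3_519) (good_ofj c3_520) rfl rfl

theorem t3_559 : Good (Q 9) [v109, v43, v379, v157, v600, v377] :=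
  split_of 0 5 v386 1346091026 (by decide +kernel) (good_ofj c3_518) t3_558 rfl rfl

theorem t3_560 : Good (Q 7) [v113, v43, v601, v157, v600, v379] :=
  split_of 1 4 v612 1345906828 (by decide +kernel) (good_ofj c3_521) (good_ofj c3_522) rfl rfl

theorem t3_561 : Good (Q 8) [v113, v43, v601, v157, v600, v379] :=
  P_of 7 8 0xffffffffffffffffffffffffffffff71dc3348d3354d72e0b8300c02f4bc2e8b8ffffffffffffffffffffffffffffff2c8b23f0fa42508509452bcaf2ccb42c8b2
    (by decide +kernel) t3_560

theorem t3_562 : Good (Q 9) [v113, v43, v601, v157, v600, v379] :=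
  P_of 8 9 0xfffffffffffffffffffffffffffffffffff348d2354d52e0b8300c02f4bd2e8baffffffffffffffffffffffffffffff2c8b23f0fc42509509422bcaf2ccb32c8b2
    (by decide +kernel) t3_561

theorem t3_563 : Good (Q 9) [v109, v43, v601, v157, v600, v379] :=
  split_of 0 1 v113 1348854888 (by decide +kernel) t3_562 (good_ofj c3_523) rfl rfl

theorem t3_564 : Good (Q 8) [v113, v43, v159, v157, v601, v379] :=
  P_of 7 8 0xffffffffffffffffffffffffffffff71dc534cd3354d52e4b8300c02f4bd2e4b8ffffffffffffffffffffffffffffff2c8b33f0fb42509509432c0b02ccb32c4b1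
    (by decide +kernel) (good_ofj c3_524)

theorem t3_565 : Good (Q 9) [v113, v43, v159, v157, v601, v379] :=
  P_of 8 9 0xfffffffffffffffffffffffffffffffffff34cd3354d52e4b9300c02f4bd2e4b9ffffffffffffffffffffffffffffff2c8b23f0fc42509509422c0b02ccb32c4b1
    (by decide +kernel) t3_564

theorem t3_566 : Good (Q 9) [v109, v43, v159, v157, v601, v379] :=
  split_of 0 1 v113 1348854888 (by decide +kernel) t3_565 (good_ofj c3_525) rfl rfl

theorem t3_567 : Good (Q 9) [v115, v43, v99, v159, v601, v381] :=
  split_of 1 4 v610 1349325384 (by decide +kernel) (good_ofj c3_528) (good_ofj c3_529) rfl rfl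

theorem t3_568 : Good (Q 9) [v115, v43, v99, v159, v601, v379] :=
  split_of 1 5 v381 1349299014 (by decide +kernel) (good_ofj c3_527) t3_567 rfl rfl

theorem t3_569 : Good (Q 9) [v114, v43, v99, v159, v601, v379] :=
  split_of 0 1 v115 1350548520 (by decide +kernel) t3_568 (good_ofj c3_530) rfl rfl

theorem t3_570 : Good (Q 9) [v114, v43, v7, v159, v601, v379] :=
  split_of 1 2 v99 1351535087 (by decide +kernel) (good_ofj c3_526) t3_569 rfl rfl

theorem t3_571 : Good (Q 9) [v109, v43, v7, v159, v601, v379] :=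
  split_of 0 2 v114 1351479933 (by decide +kernel) t3_570 (good_ofj c3_531) rfl rfl

theorem t3_572 : Good (Q 9) [v109, v43, v7, v157, v601, v379] :=
  split_of 2 3 v159 1350439771 (by decide +kernel) t3_566 t3_571 rfl rfl

theorem t3_573 : Good (Q 9) [v109, v43, v7, v157, v600, v379] :=
  split_of 2 4 v601 1350320645 (by decide +kernel) t3_563 t3_572 rfl rfl

theorem t3_574 : Good (Q 9) [v109, v43, v7, v157, v600, v377] :=
  split_of 2 5 v379 1350213587 (by decide +kernel) t3_559 t3_573 rfl rfl

theorem t3_575 : Good (Q 9) [v117, v38, v43, v157, v600, v387] :=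
  split_of 1 4 v611 1339150560 (by decide +kernel) (good_ofj c3_533) (good_ofj c3_534) rfl rfl

theorem t3_576 : Good (Q 9) [v117, v38, v43, v157, v600, v377] :=
  split_of 1 5 v387 1339048731 (by decide +kernel) (good_ofj c3_532) t3_575 rfl rfl

theorem t3_577 : Good (Q 9) [v109, v38, v43, v157, v600, v377] :=
  split_of 0 1 v117 1343797121 (by decide +kernel) t3_576 (good_ofj c3_535) rfl rfl

theorem t3_578 : Good (Q 9) [v109, v38, v7, v157, v600, v377] :=
  split_of 1 2 v43 1347746544 (by decide +kernel) t3_574 t3_577 rfl rfl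

theorem t3_579 : Good (Q 9) [v109, v38, v7, v166, v600, v377] :=
  split_of 1 3 v157 1343364615 (by decide +kernel) t3_557 t3_578 rfl rfl

theorem t3_580 : Good (Q 9) [v108, v38, v109, v166, v600, v377] :=
  split_of 0 1 v111 1336786951 (by decide +kernel) (good_ofj c3_536) (good_ofj c3_537) rfl rfl

theorem t3_581 : Good (Q 9) [v108, v38, v7, v166, v600, v377] :=
  split_of 0 2 v109 1347302695 (by decide +kernel) t3_579 t3_580 rfl rfl

theorem t3_582 : Good (Q 9) [v108, v38, v7, v166, v597, v377] :=
  split_of 2 4 v600 1342848033 (by decide +kernel) t3_554 t3_581 rfl rfl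

theorem t3_583 : Good (Q 9) [v108, v38, v7, v153, v597, v377] :=
  split_of 2 3 v166 1345413067 (by decide +kernel) t3_553 t3_582 rfl rfl

theorem t3_584 : Good (Q 9) [v108, v38, v7, v153, v597, v374] :=
  split_of 2 5 v377 1342428891 (by decide +kernel) (good_ofj c3_509) t3_583 rfl rfl

theorem t3_585 : Good (Q 9) [v120, v163, v38, v165, v599, v376] :=
  split_of 0 2 v124 1326818823 (by decide +kernel) (good_ofj c3_542) (good_ofj c3_543) rfl rfl

theorem t3_586 : Good (Q 9) [v120, v163, v38, v156, v599, v376] :=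
  split_of 2 3 v165 1326403803 (by decide +kernel) (good_ofj c3_541) t3_585 rfl rfl

theorem t3_587 : Good (Q 7) [v121, v54, v164, v163, v605, v382] :=
  split_of 1 3 v543 1305898189 (by decide +kernel) (good_ofj c3_546) (good_ofj c3_547) rfl rfl

theorem t3_588 : Good (Q 8) [v121, v54, v164, v163, v605, v382] :=
  P_of 7 8 0xffffffffffffffffffffffffffffff521453fd00405022bcaf2d4b62d0b42bcafffffffffffffffffffffffffffffff2ecbb344cf368da701c32e8ba2f0bc2ecbb
    (by decide +kernel) t3_587

theorem t3_589 : Good (Q 9) [v121, v54, v164, v163, v605, v382] :=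
  P_of 8 9 0xffffffffffffffffffffffffffffff51148404ff405012c0af2d0b52ccb42c0afffffffffffffffffffffffffffffff2f0bb344d1360dafffff2ecba2f0bc2ecbb
    (by decide +kernel) t3_588

theorem t3_590 : Good (Q 9) [v121, v54, v38, v164, v605, v382] :=
  split_of 0 2 v123 1319243250 (by decide +kernel) (good_ofj c3_548) (good_ofj c3_549) rfl rfl

theorem t3_591 : Good (Q 9) [v121, v54, v38, v163, v605, v382] :=
  split_of 2 3 v164 1319143752 (by decide +kernel) t3_589 t3_590 rfl rfl

theorem t3_592 : Good (Q 9) [v121, v54, v38, v163, v599, v382] :=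
  split_of 2 4 v605 1318989953 (by decide +kernel) (good_ofj c3_545) t3_591 rfl rfl

theorem t3_593 : Good (Q 9) [v121, v54, v38, v163, v599, v376] :=
  split_of 2 5 v382 1318892226 (by decide +kernel) (good_ofj c3_544) t3_592 rfl rfl

theorem t3_594 : Good (Q 9) [v121, v30, v38, v163, v599, v376] :=
  split_of 1 2 v54 1309864426 (by decide +kernel) t3_593 (good_ofj c3_550) rfl rfl

theorem t3_595 : Good (Q 9) [v124, v121, v38, v163, v599, v376] :=
  split_of 2 5 v382 1318892226 (by decide +kernel) (good_ofj c3_551) (good_ofj c3_552) rfl rfl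

theorem t3_596 : Good (Q 9) [v120, v121, v38, v163, v599, v376] :=
  split_of 0 2 v124 1326818823 (by decide +kernel) t3_595 (good_ofj c3_553) rfl rfl

theorem t3_597 : Good (Q 9) [v120, v30, v38, v163, v599, v376] :=
  split_of 0 1 v121 1301234981 (by decide +kernel) t3_594 t3_596 rfl rfl

theorem t3_598 : Good (Q 9) [v120, v30, v38, v156, v599, v376] :=
  split_of 1 3 v163 1300833241 (by decide +kernel) t3_586 t3_597 rfl rfl

theorem t3_599 : Good (Q 9) [v120, v30, v38, v156, v597, v376] :=
  split_of 1 4 v599 1300163123 (by decide +kernel) (good_ofj c3_540) t3_598 rfl rfl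

theorem t3_600 : Good (Q 9) [v120, v30, v38, v156, v597, v374] :=
  split_of 1 5 v376 1299775629 (by decide +kernel) (good_ofj c3_539) t3_599 rfl rfl

theorem t3_601 : Good (Q 9) [v108, v30, v38, v156, v597, v374] :=
  split_of 0 1 v120 1317105264 (by decide +kernel) t3_600 (good_ofj c3_554) rfl rfl

theorem t3_602 : Good (Q 9) [v108, v30, v38, v153, v597, v374] :=
  split_of 1 3 v156 1315360752 (by decide +kernel) (good_ofj c3_538) t3_601 rfl rfl

theorem t3_603 : Good (Q 9) [v108, v30, v7, v153, v597, v374] :=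
  split_of 1 2 v38 1333169107 (by decide +kernel) t3_584 t3_602 rfl rfl

theorem t3_604 : Good (Q 9) [v108, v30, v7, v153, v595, v374] :=
  split_of 1 4 v597 1312910633 (by decide +kernel) t3_552 t3_603 rfl rfl

theorem t3_605 : Good (Q 9) [v108, v30, v7, v153, v595, v369] :=
  split_of 1 5 v374 1311272127 (by decide +kernel) t3_544 t3_604 rfl rfl

theorem t3_606 : Good (Q 9) [v107, v30, v7, v153, v595, v369] :=
  split_of 0 2 v108 1329531520 (by decide +kernel) t3_605 (good_ofj c3_555) rfl rfl

theorem t3_607 : Good (Q 9) [v107, v30, v7, v152, v595, v369] :=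
  split_of 2 3 v153 1321273347 (by decide +kernel) (good_ofj c3_492) t3_606 rfl rfl

theorem t3_608 : Good (Q 9) [v107, v30, v7, v152, v484, v369] :=
  split_of 2 4 v595 1312910633 (by decide +kernel) (good_ofj c3_491) t3_607 rfl rfl

theorem t3_609 : Good (Q 10) [v107, v30, v7, v152, v484, v369] :=
  env_E _ t3_608

theorem t3_610 : Good (Q 10) [v107, v30, v7, v152, v484, v339] :=
  split_of 2 5 v369 1305386625 (by decide +kernel) (good_ofj c3_490) t3_609 rfl rfl

theorem t3_611 : Good (Q 10) [v125, v30, v7, v152, v484, v339] :=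
  split_of 0 2 v107 1245967015 (by decide +kernel) t3_610 (good_ofj c3_556) rfl rfl

theorem t3_612 : Good (Q 10) [v125, v30, v7, v126, v484, v339] :=
  split_of 0 3 v152 1202967926 (by decide +kernel) t3_538 t3_611 rfl rfl

theorem t3_613 : Good (Q 10) [v125, v30, v7, v126, v482, v339] :=
  split_of 0 4 v484 1156653316 (by decide +kernel) t3_452 t3_612 rfl rfl

theorem t3_614 : Good (Q 10) [v125, v30, v7, v126, v482, v341] :=
  split_of 0 5 v339 1116736499 (by decide +kernel) t3_382 t3_613 rfl rfl

theorem t3_615 : Good (Q 10) [v343, v400, v7, v401, v483, v342] :=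
  split_of 2 4 v613 1332942339 (by decide +kernel) (good_ofj c3_561) (good_ofj c3_562) rfl rfl

theorem t3_616 : Good (Q 10) [v343, v400, v7, v397, v483, v342] :=
  split_of 2 3 v401 1324037525 (by decide +kernel) (good_ofj c3_560) t3_615 rfl rfl

theorem t3_617 : Good (Q 7) [v347, v407, v348, v404, v590, v346] :=
  split_of 3 5 v614 1295846667 (by decide +kernel) (good_ofj c3_568) (good_ofj c3_569) rfl rfl

theorem t3_618 : Good (Q 8) [v347, v407, v348, v404, v590, v346] :=
  P_of 7 8 0xffffffffffffffffffffffffffffff4f93a3a0ee495212b8ad2e0b72c8b12d0b3ffffffffffffffffffffffffffffff2d0b7340ce358d4739d32acae328c8328c8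
    (by decide +kernel) t3_617

theorem t3_619 : Good (Q 9) [v347, v407, v348, v404, v590, v346] :=
  P_of 8 9 0xffffffffffffffffffffffffffffff4e93e3b8e8485252b4ae2dcb82c4b22ccb4ffffffffffffffffffffffffffffff2dcb4338d0350d6fffff2b8ab320ca320ca
    (by decide +kernel) t3_618

theorem t3_620 : Good (Q 9) [v347, v30, v348, v404, v590, v346] :=
  split_of 1 3 v407 1292338752 (by decide +kernel) t3_619 (good_ofj c3_570) rfl rfl

theorem t3_621 : Good (Q 9) [v347, v30, v348, v404, v486, v346] :=
  split_of 1 4 v590 1290828974 (by decide +kernel) (good_ofj c3_567) t3_620 rfl rfl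

theorem t3_622 : Good (Q 9) [v347, v30, v345, v404, v486, v346] :=
  split_of 1 2 v348 1315051345 (by decide +kernel) (good_ofj c3_566) t3_621 rfl rfl

theorem t3_623 : Good (Q 9) [v344, v30, v345, v404, v486, v346] :=
  split_of 0 1 v347 1313640791 (by decide +kernel) t3_622 (good_ofj c3_571) rfl rfl

theorem t3_624 : Good (Q 9) [v344, v30, v345, v400, v486, v346] :=
  split_of 1 3 v404 1299447568 (by decide +kernel) (good_ofj c3_565) t3_623 rfl rfl

theorem t3_625 : Good (Q 9) [v344, v30, v345, v400, v486, v342] :=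
  split_of 1 5 v346 1289073195 (by decide +kernel) (good_ofj c3_564) t3_624 rfl rfl

theorem t3_626 : Good (Q 9) [v344, v404, v7, v408, v486, v345] :=
  split_of 2 4 v591 1337829094 (by decide +kernel) (good_ofj c3_573) (good_ofj c3_574) rfl rfl

theorem t3_627 : Good (Q 9) [v344, v404, v7, v400, v486, v345] :=
  split_of 2 3 v408 1339712096 (by decide +kernel) (good_ofj c3_572) t3_626 rfl rfl

theorem t3_628 : Good (Q 7) [v347, v407, v592, v404, v590, v348] :=
  split_of 0 3 v406 1308681674 (by decide +kernel) (good_ofj c3_578) (good_ofj c3_579) rfl rfl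

theorem t3_629 : Good (Q 8) [v347, v407, v592, v404, v590, v348] :=
  P_of 7 8 0xffffffffffffffffffffffffffffff4e93b3b8ee485202bcaf2dcb72c4b12c8b2ffffffffffffffffffffffffffffff2d4b6338cf350d474dd12bcaf324c931cc6
    (by decide +kernel) t3_628

theorem t3_630 : Good (Q 9) [v347, v407, v592, v404, v590, v348] :=
  P_of 8 9 0xffffffffffffffffffffffffffffff4ed3c3b8ee4811f2c0af2d8b62bcaf2d0b4ffffffffffffffffffffffffffffff2d8b6344d1348d3fffff2bcae324c931cc6
    (by decide +kernel) t3_629

theorem t3_631 : Good (Q 9) [v347, v30, v592, v407, v590, v348] :=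
  split_of 0 1 v350 1298242015 (by decide +kernel) (good_ofj c3_580) (good_ofj c3_581) rfl rfl

theorem t3_632 : Good (Q 9) [v347, v30, v592, v404, v590, v348] :=
  split_of 1 3 v407 1292338752 (by decide +kernel) t3_630 t3_631 rfl rfl

theorem t3_633 : Good (Q 9) [v347, v30, v591, v404, v590, v348] :=
  split_of 1 2 v592 1315466281 (by decide +kernel) (good_ofj c3_577) t3_632 rfl rfl

theorem t3_634 : Good (Q 9) [v347, v30, v591, v404, v486, v348] :=
  split_of 1 4 v590 1290828974 (by decide +kernel) (good_ofj c3_576) t3_633 rfl rfl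

theorem t3_635 : Good (Q 9) [v347, v30, v591, v404, v486, v345] :=
  split_of 1 5 v348 1315051345 (by decide +kernel) (good_ofj c3_575) t3_634 rfl rfl

theorem t3_636 : Good (Q 9) [v344, v30, v591, v404, v486, v345] :=
  split_of 0 1 v347 1313640791 (by decide +kernel) t3_635 (good_ofj c3_582) rfl rfl

theorem t3_637 : Good (Q 9) [v344, v38, v412, v404, v591, v345] :=
  split_of 0 3 v411 1320638258 (by decide +kernel) (good_ofj c3_583) (good_ofj c3_584) rfl rfl

theorem t3_638 : Good (Q 9) [v354, v43, v7, v414, v593, v352] :=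
  split_of 2 5 v355 1351763844 (by decide +kernel) (good_ofj c3_588) (good_ofj c3_589) rfl rfl

theorem t3_639 : Good (Q 9) [v351, v43, v7, v414, v593, v352] :=
  split_of 0 2 v354 1351504063 (by decide +kernel) t3_638 (good_ofj c3_590) rfl rfl

theorem t3_640 : Good (Q 9) [v351, v43, v7, v412, v593, v352] :=
  split_of 2 3 v414 1349460245 (by decide +kernel) (good_ofj c3_587) t3_639 rfl rfl

theorem t3_641 : Good (Q 9) [v356, v38, v43, v412, v593, v357] :=
  split_of 1 4 v602 1343112045 (by decide +kernel) (good_ofj c3_592) (good_ofj c3_593) rfl rfl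

theorem t3_642 : Good (Q 9) [v356, v38, v43, v412, v593, v352] :=
  split_of 1 5 v357 1343006453 (by decide +kernel) (good_ofj c3_591) t3_641 rfl rfl

theorem t3_643 : Good (Q 9) [v351, v38, v43, v412, v593, v352] :=
  split_of 0 1 v356 1342711840 (by decide +kernel) t3_642 (good_ofj c3_594) rfl rfl

theorem t3_644 : Good (Q 9) [v351, v38, v7, v412, v593, v352] :=
  split_of 1 2 v43 1347746544 (by decide +kernel) t3_640 t3_643 rfl rfl

theorem t3_645 : Good (Q 9) [v351, v38, v7, v412, v591, v352] :=
  split_of 2 4 v593 1349038282 (by decide +kernel) (good_ofj c3_586) t3_644 rfl rfl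

theorem t3_646 : Good (Q 9) [v351, v38, v7, v412, v591, v345] :=
  split_of 2 5 v352 1348588359 (by decide +kernel) (good_ofj c3_585) t3_645 rfl rfl

theorem t3_647 : Good (Q 9) [v344, v38, v7, v412, v591, v345] :=
  split_of 0 2 v351 1347496915 (by decide +kernel) t3_646 (good_ofj c3_595) rfl rfl

theorem t3_648 : Good (Q 9) [v344, v38, v7, v404, v591, v345] :=
  split_of 2 3 v412 1339459463 (by decide +kernel) t3_637 t3_647 rfl rfl

theorem t3_649 : Good (Q 8) [v347, v348, v38, v416, v591, v345] :=
  split_of 2 5 v358 1336275849 (by decide +kernel) (good_ofj c3_596) (good_ofj c3_597) rfl rfl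

theorem t3_650 : Good (Q 9) [v347, v348, v38, v416, v591, v345] :=
  P_of 8 9 0xfffffffffffffffffffffffffffffffffff3a8e83d4f52c4b12e4b92c8b42d8b5ffffffffffffffffffffffffffffff2e0b738ce43a0eafffff2bcb02e8ba2e0b9
    (by decide +kernel) t3_649

theorem t3_651 : Good (Q 8) [v347, v348, v38, v417, v591, v416] :=
  split_of 0 4 v594 1328055188 (by decide +kernel) (good_ofj c3_599) (good_ofj c3_600) rfl rfl

theorem t3_652 : Good (Q 9) [v347, v348, v38, v417, v591, v416] :=
  P_of 8 9 0xffffffffffffffffffffffffffffff5cd753a0e83e0f62c8b22e4b92d0b42d4b5ffffffffffffffffffffffffffffff2d4b638ce33a4e9fffff2c0b02ecbb2e8b9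
    (by decide +kernel) t3_651

theorem t3_653 : Good (Q 9) [v347, v348, v38, v404, v591, v416] :=
  split_of 2 3 v417 1320147089 (by decide +kernel) (good_ofj c3_598) t3_652 rfl rfl

theorem t3_654 : Good (Q 9) [v347, v348, v38, v404, v591, v345] :=
  split_of 3 5 v416 1321969078 (by decide +kernel) t3_650 t3_653 rfl rfl

theorem t3_655 : Good (Q 7) [v594, v592, v38, v417, v591, v348] :=
  split_of 4 5 v615 1328401832 (by decide +kernel) (good_ofj c3_602) (good_ofj c3_603) rfl rfl

theorem t3_656 : Good (Q 8) [v594, v592, v38, v417, v591, v348] :=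
  P_of 7 8 0xffffffffffffffffffffffffffffff5c9743a4e73dcf72d0b42e0b82c8b12d4b6ffffffffffffffffffffffffffffff2d4b6394e6394e663d8d2c0af2f0bc2e0b8
    (by decide +kernel) t3_655

theorem t3_657 : Good (Q 8) [v347, v592, v38, v417, v591, v348] :=
  split_of 0 4 v594 1328055188 (by decide +kernel) t3_656 (good_ofj c3_604) rfl rfl

theorem t3_658 : Good (Q 9) [v347, v592, v38, v417, v591, v348] :=
  P_of 8 9 0xffffffffffffffffffffffffffffff5c5743a8e83dcf62c8b22e4b92ccb42d0b5ffffffffffffffffffffffffffffff2d8b6388e339ce9fffff2c4b02ecbb2e0b9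
    (by decide +kernel) t3_657

theorem t3_659 : Good (Q 9) [v347, v592, v38, v404, v591, v348] :=
  split_of 2 3 v417 1320147089 (by decide +kernel) (good_ofj c3_601) t3_658 rfl rfl

theorem t3_660 : Good (Q 9) [v347, v407, v38, v417, v592, v348] :=
  split_of 1 2 v421 1315851864 (by decide +kernel) (good_ofj c3_606) (good_ofj c3_607) rfl rfl

theorem t3_661 : Good (Q 9) [v347, v407, v38, v404, v592, v348] :=
  split_of 2 3 v417 1320147089 (by decide +kernel) (good_ofj c3_605) t3_660 rfl rfl

theorem t3_662 : Good (Q 9) [v422, v54, v421, v407, v592, v348] :=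
  split_of 3 5 v423 1304684650 (by decide +kernel) (good_ofj c3_608) (good_ofj c3_609) rfl rfl

theorem t3_663 : Good (Q 9) [v347, v54, v421, v407, v592, v348] :=
  split_of 0 3 v422 1304314180 (by decide +kernel) t3_662 (good_ofj c3_610) rfl rfl

theorem t3_664 : Good (Q 9) [v360, v54, v38, v421, v592, v348] :=
  split_of 2 5 v361 1325072467 (by decide +kernel) (good_ofj c3_611) (good_ofj c3_612) rfl rfl

theorem t3_665 : Good (Q 9) [v347, v54, v38, v421, v592, v348] :=
  split_of 0 2 v360 1324737533 (by decide +kernel) t3_664 (good_ofj c3_613) rfl rfl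

theorem t3_666 : Good (Q 9) [v347, v54, v38, v407, v592, v348] :=
  split_of 2 3 v421 1315851864 (by decide +kernel) t3_663 t3_665 rfl rfl

theorem t3_667 : Good (Q 7) [v350, v362, v54, v423, v592, v348] :=
  split_of 2 5 v424 1312880953 (by decide +kernel) (good_ofj c3_614) (good_ofj c3_615) rfl rfl

theorem t3_668 : Good (Q 8) [v350, v362, v54, v423, v592, v348] :=
  P_of 7 8 0xffffffffffffffffffffffffffffff501403fcfe421092bcaf2d0b52c4b12ccb3ffffffffffffffffffffffffffffff2f0bc348d1350d4725c92dcb62f8be2f8be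
    (by decide +kernel) t3_667

theorem t3_669 : Good (Q 9) [v350, v362, v54, v423, v592, v348] :=
  P_of 8 9 0xffffffffffffffffffffffffffffff501403fcff41d082bcaf2d0b42c4b12ccb3ffffffffffffffffffffffffffffff2f0bd348d1350d4fffff2dcb72f8be2f8be
    (by decide +kernel) t3_668

theorem t3_670 : Good (Q 9) [v350, v362, v54, v407, v592, v348] :=
  split_of 3 5 v423 1304684650 (by decide +kernel) t3_669 (good_ofj c3_616) rfl rfl

theorem t3_671 : Good (Q 9) [v350, v30, v54, v407, v592, v348] :=
  split_of 1 5 v362 1298624358 (by decide +kernel) t3_670 (good_ofj c3_617) rfl rfl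

theorem t3_672 : Good (Q 9) [v422, v350, v54, v407, v592, v348] :=
  split_of 3 5 v423 1304684650 (by decide +kernel) (good_ofj c3_618) (good_ofj c3_619) rfl rfl

theorem t3_673 : Good (Q 9) [v347, v350, v54, v407, v592, v348] :=
  split_of 0 3 v422 1304314180 (by decide +kernel) t3_672 (good_ofj c3_620) rfl rfl

theorem t3_674 : Good (Q 9) [v347, v30, v54, v407, v592, v348] :=
  split_of 0 1 v350 1298242015 (by decide +kernel) t3_671 t3_673 rfl rfl

theorem t3_675 : Good (Q 9) [v347, v30, v38, v407, v592, v348] :=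
  split_of 1 2 v54 1309864426 (by decide +kernel) t3_666 t3_674 rfl rfl

theorem t3_676 : Good (Q 9) [v347, v30, v38, v404, v592, v348] :=
  split_of 1 3 v407 1292338752 (by decide +kernel) t3_661 t3_675 rfl rfl

theorem t3_677 : Good (Q 9) [v347, v30, v38, v404, v591, v348] :=
  split_of 1 4 v592 1315466281 (by decide +kernel) t3_659 t3_676 rfl rfl

theorem t3_678 : Good (Q 9) [v347, v30, v38, v404, v591, v345] :=
  split_of 1 5 v348 1315051345 (by decide +kernel) t3_654 t3_677 rfl rfl

theorem t3_679 : Good (Q 9) [v411, v347, v38, v404, v591, v416] :=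
  split_of 2 3 v417 1320147089 (by decide +kernel) (good_ofj c3_622) (good_ofj c3_623) rfl rfl

theorem t3_680 : Good (Q 9) [v411, v347, v38, v404, v591, v345] :=
  split_of 3 5 v416 1321969078 (by decide +kernel) (good_ofj c3_621) t3_679 rfl rfl

theorem t3_681 : Good (Q 9) [v344, v347, v38, v404, v591, v345] :=
  split_of 0 3 v411 1320638258 (by decide +kernel) t3_680 (good_ofj c3_624) rfl rfl

theorem t3_682 : Good (Q 9) [v344, v30, v38, v404, v591, v345] :=
  split_of 0 1 v347 1313640791 (by decide +kernel) t3_678 t3_681 rfl rfl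

theorem t3_683 : Good (Q 9) [v344, v30, v7, v404, v591, v345] :=
  split_of 1 2 v38 1333169107 (by decide +kernel) t3_648 t3_682 rfl rfl

theorem t3_684 : Good (Q 9) [v344, v30, v7, v404, v486, v345] :=
  split_of 2 4 v591 1337829094 (by decide +kernel) t3_636 t3_683 rfl rfl

theorem t3_685 : Good (Q 9) [v344, v30, v7, v400, v486, v345] :=
  split_of 1 3 v404 1299447568 (by decide +kernel) t3_627 t3_684 rfl rfl

theorem t3_686 : Good (Q 9) [v344, v30, v7, v400, v486, v342] :=
  split_of 2 5 v345 1335968999 (by decide +kernel) t3_625 t3_685 rfl rfl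

theorem t3_687 : Good (Q 10) [v344, v30, v7, v400, v486, v342] :=
  env_E _ t3_686

theorem t3_688 : Good (Q 8) [v368, v407, v347, v404, v590, v346] :=
  split_of 0 3 v425 1294134563 (by decide +kernel) (good_ofj c3_629) (good_ofj c3_630) rfl rfl

theorem t3_689 : Good (Q 9) [v368, v407, v347, v404, v590, v346] :=
  P_of 8 9 0xffffffffffffffffffffffffffffff4bd363bceb4ad2a2b0ac2e0ba2ccb32c4b2ffffffffffffffffffffffffffffff2d8b531cc934cd6fffff2bcad330cc330cc
    (by decide +kernel) t3_688

theorem t3_690 : Good (Q 9) [v368, v30, v347, v404, v590, v346] :=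
  split_of 1 3 v407 1292338752 (by decide +kernel) t3_689 (good_ofj c3_631) rfl rfl

theorem t3_691 : Good (Q 9) [v367, v30, v347, v404, v590, v346] :=
  split_of 0 1 v368 1283868635 (by decide +kernel) t3_690 (good_ofj c3_632) rfl rfl

theorem t3_692 : Good (Q 9) [v367, v30, v347, v404, v486, v346] :=
  split_of 1 4 v590 1290828974 (by decide +kernel) (good_ofj c3_628) t3_691 rfl rfl

theorem t3_693 : Good (Q 9) [v367, v30, v344, v404, v486, v346] :=
  split_of 1 2 v347 1313640791 (by decide +kernel) (good_ofj c3_627) t3_692 rfl rfl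

theorem t3_694 : Good (Q 9) [v367, v30, v344, v400, v486, v346] :=
  split_of 1 3 v404 1299447568 (by decide +kernel) (good_ofj c3_626) t3_693 rfl rfl

theorem t3_695 : Good (Q 10) [v367, v30, v344, v400, v486, v346] :=
  env_E _ t3_694

theorem t3_696 : Good (Q 10) [v367, v30, v344, v400, v486, v342] :=
  split_of 1 5 v346 1289073195 (by decide +kernel) (good_ofj c3_625) t3_695 rfl rfl

theorem t3_697 : Good (Q 10) [v343, v30, v344, v400, v486, v342] :=
  split_of 0 1 v367 1282767547 (by decide +kernel) t3_696 (good_ofj c3_633) rfl rfl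

theorem t3_698 : Good (Q 10) [v343, v30, v7, v400, v486, v342] :=
  split_of 0 2 v344 1331125411 (by decide +kernel) t3_687 t3_697 rfl rfl

theorem t3_699 : Good (Q 10) [v343, v30, v7, v400, v483, v342] :=
  split_of 1 4 v486 1293212810 (by decide +kernel) (good_ofj c3_563) t3_698 rfl rfl

theorem t3_700 : Good (Q 10) [v343, v30, v7, v397, v483, v342] :=
  split_of 1 3 v400 1295857916 (by decide +kernel) t3_616 t3_699 rfl rfl

theorem t3_701 : Good (Q 10) [v369, v343, v7, v401, v483, v342] :=
  split_of 2 4 v613 1332942339 (by decide +kernel) (good_ofj c3_635) (good_ofj c3_636) rfl rfl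

theorem t3_702 : Good (Q 10) [v369, v343, v7, v397, v483, v342] :=
  split_of 2 3 v401 1324037525 (by decide +kernel) (good_ofj c3_634) t3_701 rfl rfl

theorem t3_703 : Good (Q 10) [v339, v343, v7, v397, v483, v342] :=
  split_of 0 2 v369 1305386625 (by decide +kernel) t3_702 (good_ofj c3_637) rfl rfl

theorem t3_704 : Good (Q 10) [v339, v30, v7, v397, v483, v342] :=
  split_of 0 1 v343 1260336929 (by decide +kernel) t3_700 t3_703 rfl rfl

theorem t3_705 : Good (Q 10) [v339, v30, v7, v397, v483, v340] :=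
  split_of 1 5 v342 1284967838 (by decide +kernel) (good_ofj c3_559) t3_704 rfl rfl

theorem t3_706 : Good (Q 10) [v339, v30, v7, v397, v482, v340] :=
  split_of 1 4 v483 1268403305 (by decide +kernel) (good_ofj c3_558) t3_705 rfl rfl

theorem t3_707 : Good (Q 10) [v339, v30, v7, v397, v482, v341] :=
  split_of 1 5 v340 1222692218 (by decide +kernel) (good_ofj c3_557) t3_706 rfl rfl

theorem t3_708 : Good (Q 10) [v595, v343, v7, v397, v483, v369] :=
  split_of 2 3 v401 1324037525 (by decide +kernel) (good_ofj c3_640) (good_ofj c3_641) rfl rfl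

theorem t3_709 : Good (Q 10) [v484, v343, v7, v397, v483, v369] :=
  split_of 0 2 v595 1312910633 (by decide +kernel) t3_708 (good_ofj c3_642) rfl rfl

theorem t3_710 : Good (Q 10) [v484, v343, v7, v397, v483, v339] :=
  split_of 2 5 v369 1305386625 (by decide +kernel) (good_ofj c3_639) t3_709 rfl rfl

theorem t3_711 : Good (Q 10) [v595, v400, v7, v401, v613, v343] :=
  split_of 2 5 v344 1331125411 (by decide +kernel) (good_ofj c3_645) (good_ofj c3_646) rfl rfl

theorem t3_712 : Good (Q 10) [v595, v400, v7, v401, v483, v343] :=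
  split_of 2 4 v613 1332942339 (by decide +kernel) (good_ofj c3_644) t3_711 rfl rfl

theorem t3_713 : Good (Q 10) [v595, v400, v7, v397, v483, v343] :=
  split_of 2 3 v401 1324037525 (by decide +kernel) (good_ofj c3_643) t3_712 rfl rfl

theorem t3_714 : Good (Q 10) [v484, v400, v7, v397, v483, v343] :=
  split_of 0 2 v595 1312910633 (by decide +kernel) t3_713 (good_ofj c3_647) rfl rfl

theorem t3_715 : Good (Q 9) [v599, v30, v347, v404, v590, v368] :=
  split_of 1 3 v407 1292338752 (by decide +kernel) (good_ofj c3_654) (good_ofj c3_655) rfl rfl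

theorem t3_716 : Good (Q 9) [v597, v30, v347, v404, v590, v368] :=
  split_of 0 1 v599 1300163123 (by decide +kernel) t3_715 (good_ofj c3_656) rfl rfl

theorem t3_717 : Good (Q 9) [v597, v30, v347, v404, v590, v367] :=
  split_of 1 5 v368 1283868635 (by decide +kernel) (good_ofj c3_653) t3_716 rfl rfl

theorem t3_718 : Good (Q 9) [v597, v30, v347, v404, v486, v367] :=
  split_of 1 4 v590 1290828974 (by decide +kernel) (good_ofj c3_652) t3_717 rfl rfl

theorem t3_719 : Good (Q 9) [v597, v30, v344, v404, v486, v367] :=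
  split_of 1 2 v347 1313640791 (by decide +kernel) (good_ofj c3_651) t3_718 rfl rfl

theorem t3_720 : Good (Q 9) [v597, v30, v344, v400, v486, v367] :=
  split_of 1 3 v404 1299447568 (by decide +kernel) (good_ofj c3_650) t3_719 rfl rfl

theorem t3_721 : Good (Q 9) [v595, v30, v344, v400, v486, v367] :=
  split_of 0 1 v597 1312910633 (by decide +kernel) t3_720 (good_ofj c3_657) rfl rfl

theorem t3_722 : Good (Q 9) [v595, v30, v344, v400, v486, v343] :=
  split_of 1 5 v367 1282767547 (by decide +kernel) (good_ofj c3_649) t3_721 rfl rfl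

theorem t3_723 : Good (Q 9) [v597, v404, v7, v408, v591, v344] :=
  split_of 1 2 v412 1339459463 (by decide +kernel) (good_ofj c3_660) (good_ofj c3_661) rfl rfl

theorem t3_724 : Good (Q 9) [v597, v404, v7, v408, v486, v344] :=
  split_of 2 4 v591 1337829094 (by decide +kernel) (good_ofj c3_659) t3_723 rfl rfl

theorem t3_725 : Good (Q 9) [v597, v404, v7, v400, v486, v344] :=
  split_of 2 3 v408 1339712096 (by decide +kernel) (good_ofj c3_658) t3_724 rfl rfl

theorem t3_726 : Good (Q 7) [v597, v592, v591, v404, v590, v347] :=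
  split_of 0 3 v616 1308997773 (by decide +kernel) (good_ofj c3_664) (good_ofj c3_665) rfl rfl

theorem t3_727 : Good (Q 8) [v597, v592, v591, v404, v590, v347] :=
  P_of 7 8 0xffffffffffffffffffffffffffffff5455838ce2471172c0b12fcbe2b4ad2d0b4ffffffffffffffffffffffffffffff2d8b535cda374df6e1af298a7338cb308c1
    (by decide +kernel) t3_726

theorem t3_728 : Good (Q 9) [v597, v592, v591, v404, v590, v347] :=
  P_of 8 9 0xffffffffffffffffffffffffffffff52d513a0e34651c2bcb02f8bf2b0ad2ccb4ffffffffffffffffffffffffffffff2e0b6350d736cddfffff2a4a6330ce304c2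
    (by decide +kernel) t3_727

theorem t3_729 : Good (Q 7) [v599, v407, v592, v404, v590, v406] :=
  split_of 0 3 v617 1301777680 (by decide +kernel) (good_ofj c3_667) (good_ofj c3_668) rfl rfl

theorem t3_730 : Good (Q 7) [v599, v407, v592, v404, v590, v347] :=
  split_of 3 5 v406 1308681674 (by decide +kernel) (good_ofj c3_666) t3_729 rfl rfl

theorem t3_731 : Good (Q 8) [v599, v407, v592, v404, v590, v347] :=
  P_of 7 8 0xffffffffffffffffffffffffffffff4f53c3b8ee479202bcb02e4b82c0b02c4b1ffffffffffffffffffffffffffffff2d8b5338cf358d573dd12bcaf328ca310c5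
    (by decide +kernel) t3_730

theorem t3_732 : Good (Q 9) [v599, v407, v592, v404, v590, v347] :=
  P_of 8 9 0xffffffffffffffffffffffffffffff4f13d3bcee4751e2c0af2e4b92c0b02c4b1ffffffffffffffffffffffffffffff2d8b6338ce354d6fffff2bcaf328ca310c4
    (by decide +kernel) t3_731

theorem t3_733 : Good (Q 9) [v599, v30, v592, v407, v590, v347] :=
  split_of 1 5 v350 1298242015 (by decide +kernel) (good_ofj c3_669) (good_ofj c3_670) rfl rfl

theorem t3_734 : Good (Q 9) [v599, v30, v592, v404, v590, v347] :=
  split_of 1 3 v407 1292338752 (by decide +kernel) t3_732 t3_733 rfl rfl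

theorem t3_735 : Good (Q 9) [v597, v30, v592, v404, v590, v347] :=
  split_of 0 1 v599 1300163123 (by decide +kernel) t3_734 (good_ofj c3_671) rfl rfl

theorem t3_736 : Good (Q 9) [v597, v30, v591, v404, v590, v347] :=
  split_of 1 2 v592 1315466281 (by decide +kernel) t3_728 t3_735 rfl rfl

theorem t3_737 : Good (Q 9) [v597, v30, v591, v404, v486, v347] :=
  split_of 1 4 v590 1290828974 (by decide +kernel) (good_ofj c3_663) t3_736 rfl rfl

theorem t3_738 : Good (Q 9) [v597, v30, v591, v404, v486, v344] :=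
  split_of 1 5 v347 1313640791 (by decide +kernel) (good_ofj c3_662) t3_737 rfl rfl

theorem t3_739 : Good (Q 9) [v603, v38, v412, v404, v591, v411] :=
  split_of 1 3 v417 1320147089 (by decide +kernel) (good_ofj c3_673) (good_ofj c3_674) rfl rfl

theorem t3_740 : Good (Q 9) [v597, v38, v412, v404, v591, v411] :=
  split_of 0 1 v603 1325816608 (by decide +kernel) t3_739 (good_ofj c3_675) rfl rfl

theorem t3_741 : Good (Q 9) [v597, v38, v412, v404, v591, v344] :=
  split_of 3 5 v411 1320638258 (by decide +kernel) (good_ofj c3_672) t3_740 rfl rfl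

theorem t3_742 : Good (Q 9) [v601, v43, v7, v414, v593, v351] :=
  split_of 2 5 v354 1351504063 (by decide +kernel) (good_ofj c3_679) (good_ofj c3_680) rfl rfl

theorem t3_743 : Good (Q 9) [v600, v43, v7, v414, v593, v351] :=
  split_of 0 2 v601 1350320645 (by decide +kernel) t3_742 (good_ofj c3_681) rfl rfl

theorem t3_744 : Good (Q 9) [v600, v43, v7, v412, v593, v351] :=
  split_of 2 3 v414 1349460245 (by decide +kernel) (good_ofj c3_678) t3_743 rfl rfl

theorem t3_745 : Good (Q 9) [v600, v38, v43, v412, v593, v356] :=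
  split_of 1 4 v602 1343112045 (by decide +kernel) (good_ofj c3_683) (good_ofj c3_684) rfl rfl

theorem t3_746 : Good (Q 9) [v600, v38, v43, v412, v593, v351] :=
  split_of 1 5 v356 1342711840 (by decide +kernel) (good_ofj c3_682) t3_745 rfl rfl

theorem t3_747 : Good (Q 9) [v600, v38, v7, v412, v593, v351] :=
  split_of 1 2 v43 1347746544 (by decide +kernel) t3_744 t3_746 rfl rfl

theorem t3_748 : Good (Q 9) [v600, v38, v7, v412, v591, v351] :=
  split_of 2 4 v593 1349038282 (by decide +kernel) (good_ofj c3_677) t3_747 rfl rfl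

theorem t3_749 : Good (Q 9) [v600, v38, v7, v412, v591, v344] :=
  split_of 2 5 v351 1347496915 (by decide +kernel) (good_ofj c3_676) t3_748 rfl rfl

theorem t3_750 : Good (Q 9) [v597, v38, v7, v412, v591, v344] :=
  split_of 0 2 v600 1342848033 (by decide +kernel) t3_749 (good_ofj c3_685) rfl rfl

theorem t3_751 : Good (Q 9) [v597, v38, v7, v404, v591, v344] :=
  split_of 2 3 v412 1339459463 (by decide +kernel) t3_741 t3_750 rfl rfl

theorem t3_752 : Good (Q 9) [v603, v347, v38, v404, v591, v411] :=
  split_of 2 3 v417 1320147089 (by decide +kernel) (good_ofj c3_687) (good_ofj c3_688) rfl rfl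

theorem t3_753 : Good (Q 9) [v597, v347, v38, v404, v591, v411] :=
  split_of 0 2 v603 1325816608 (by decide +kernel) t3_752 (good_ofj c3_689) rfl rfl

theorem t3_754 : Good (Q 9) [v597, v347, v38, v404, v591, v344] :=
  split_of 3 5 v411 1320638258 (by decide +kernel) (good_ofj c3_686) t3_753 rfl rfl

theorem t3_755 : Good (Q 8) [v603, v592, v38, v417, v591, v347] :=
  split_of 4 5 v594 1328055188 (by decide +kernel) (good_ofj c3_691) (good_ofj c3_692) rfl rfl

theorem t3_756 : Good (Q 9) [v603, v592, v38, v417, v591, v347] :=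
  P_of 8 9 0xffffffffffffffffffffffffffffff5c1743ace83dcf62c8b22e0b92d0b42d0b5ffffffffffffffffffffffffffffff2d8b6388e339ce9fffff2c4b02e8bb2e4b9
    (by decide +kernel) t3_755

theorem t3_757 : Good (Q 9) [v603, v592, v38, v404, v591, v347] :=
  split_of 2 3 v417 1320147089 (by decide +kernel) (good_ofj c3_690) t3_756 rfl rfl

theorem t3_758 : Good (Q 9) [v597, v592, v38, v404, v591, v347] :=
  split_of 0 2 v603 1325816608 (by decide +kernel) t3_757 (good_ofj c3_693) rfl rfl

theorem t3_759 : Good (Q 7) [v599, v407, v417, v404, v592, v347] :=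
  split_of 3 5 v406 1308681674 (by decide +kernel) (good_ofj c3_694) (good_ofj c3_695) rfl rfl

theorem t3_760 : Good (Q 8) [v599, v407, v417, v404, v592, v347] :=
  P_of 7 8 0xffffffffffffffffffffffffffffff4f93d3b0ed47d1f2c0b02dcb82c4b12c4b1ffffffffffffffffffffffffffffff2d0b533ccf358d6739cf2bcaf328ca314c5
    (by decide +kernel) t3_759

theorem t3_761 : Good (Q 9) [v599, v407, v417, v404, v592, v347] :=
  P_of 8 9 0xffffffffffffffffffffffffffffff4f93e3b0ec4811f2c0b02dcb72c4b12c4b1ffffffffffffffffffffffffffffff2d0b4340cf354d6fffff2c0af328ca318c5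
    (by decide +kernel) t3_760

theorem t3_762 : Good (Q 8) [v599, v407, v421, v417, v592, v347] :=
  P_of 7 8 0xffffffffffffffffffffffffffffff501403bcef46d1a2c0b02d4b62ccb32c4b1ffffffffffffffffffffffffffffff2d0b4340d0358d772dcb2c4b1318c7314c5
    (by decide +kernel) (good_ofj c3_697)

theorem t3_763 : Good (Q 9) [v599, v407, v421, v417, v592, v347] :=
  P_of 8 9 0xffffffffffffffffffffffffffffff4f53e3bcef4751c2c0b02d8b62c8b12c4b1ffffffffffffffffffffffffffffff2d0b533cd0354d5fffff2c4b1320c8314c4
    (by decide +kernel) t3_762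

theorem t3_764 : Good (Q 9) [v599, v407, v38, v417, v592, v347] :=
  split_of 1 2 v421 1315851864 (by decide +kernel) (good_ofj c3_696) t3_763 rfl rfl

theorem t3_765 : Good (Q 9) [v599, v407, v38, v404, v592, v347] :=
  split_of 2 3 v417 1320147089 (by decide +kernel) t3_761 t3_764 rfl rfl

theorem t3_766 : Good (Q 7) [v618, v54, v421, v619, v592, v422] :=
  split_of 1 5 v620 1307623835 (by decide +kernel) (good_ofj c3_700) (good_ofj c3_701) rfl rfl

theorem t3_767 : Good (Q 8) [v618, v54, v421, v619, v592, v422] :=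
  P_of 7 8 0xffffffffffffffffffffffffffffff50d433f0fb421092c0b02d0b42c8b22c8b2ffffffffffffffffffffffffffffff2e8ba348d2358d6719c62dcb72f8be2f8be
    (by decide +kernel) t3_766

theorem t3_768 : Good (Q 9) [v618, v54, v421, v619, v592, v422] :=
  P_of 8 9 0xffffffffffffffffffffffffffffff505443f4fb425092c4b02ccb42c8b22c4b1ffffffffffffffffffffffffffffff2e4b9344d2354d7fffff2e0b72fcbf2f8be
    (by decide +kernel) t3_767

theorem t3_769 : Good (Q 9) [v618, v54, v421, v407, v592, v422] :=
  split_of 1 3 v619 1302071143 (by decide +kernel) (good_ofj c3_699) t3_768 rfl rfl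

theorem t3_770 : Good (Q 9) [v599, v54, v421, v407, v592, v422] :=
  split_of 0 1 v618 1305733867 (by decide +kernel) t3_769 (good_ofj c3_702) rfl rfl

theorem t3_771 : Good (Q 9) [v599, v54, v421, v407, v592, v347] :=
  split_of 3 5 v422 1304314180 (by decide +kernel) (good_ofj c3_698) t3_770 rfl rfl

theorem t3_772 : Good (Q 9) [v605, v54, v38, v421, v592, v347] :=
  split_of 2 5 v360 1324737533 (by decide +kernel) (good_ofj c3_703) (good_ofj c3_704) rfl rfl

theorem t3_773 : Good (Q 9) [v599, v54, v38, v421, v592, v347] :=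
  split_of 0 2 v605 1318989953 (by decide +kernel) t3_772 (good_ofj c3_705) rfl rfl

theorem t3_774 : Good (Q 9) [v599, v54, v38, v407, v592, v347] :=
  split_of 2 3 v421 1315851864 (by decide +kernel) t3_771 t3_773 rfl rfl

theorem t3_775 : Good (Q 9) [v599, v350, v54, v407, v592, v422] :=
  split_of 0 2 v618 1305733867 (by decide +kernel) (good_ofj c3_707) (good_ofj c3_708) rfl rfl

theorem t3_776 : Good (Q 9) [v599, v350, v54, v407, v592, v347] :=
  split_of 3 5 v422 1304314180 (by decide +kernel) (good_ofj c3_706) t3_775 rfl rfl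

theorem t3_777 : Good (Q 9) [v599, v30, v54, v407, v592, v350] :=
  split_of 1 4 v621 1298722358 (by decide +kernel) (good_ofj c3_709) (good_ofj c3_710) rfl rfl

theorem t3_778 : Good (Q 9) [v599, v30, v54, v407, v592, v347] :=
  split_of 1 5 v350 1298242015 (by decide +kernel) t3_776 t3_777 rfl rfl

theorem t3_779 : Good (Q 9) [v599, v30, v38, v407, v592, v347] :=
  split_of 1 2 v54 1309864426 (by decide +kernel) t3_774 t3_778 rfl rfl

theorem t3_780 : Good (Q 9) [v599, v30, v38, v404, v592, v347] :=
  split_of 1 3 v407 1292338752 (by decide +kernel) t3_765 t3_779 rfl rfl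

theorem t3_781 : Good (Q 9) [v603, v599, v38, v404, v592, v347] :=
  split_of 2 3 v417 1320147089 (by decide +kernel) (good_ofj c3_711) (good_ofj c3_712) rfl rfl

theorem t3_782 : Good (Q 9) [v597, v599, v38, v404, v592, v347] :=
  split_of 0 2 v603 1325816608 (by decide +kernel) t3_781 (good_ofj c3_713) rfl rfl

theorem t3_783 : Good (Q 9) [v597, v30, v38, v404, v592, v347] :=
  split_of 0 1 v599 1300163123 (by decide +kernel) t3_780 t3_782 rfl rfl

theorem t3_784 : Good (Q 9) [v597, v30, v38, v404, v591, v347] :=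
  split_of 1 4 v592 1315466281 (by decide +kernel) t3_758 t3_783 rfl rfl

theorem t3_785 : Good (Q 9) [v597, v30, v38, v404, v591, v344] :=
  split_of 1 5 v347 1313640791 (by decide +kernel) t3_754 t3_784 rfl rfl

theorem t3_786 : Good (Q 9) [v597, v30, v7, v404, v591, v344] :=
  split_of 1 2 v38 1333169107 (by decide +kernel) t3_751 t3_785 rfl rfl

theorem t3_787 : Good (Q 9) [v597, v30, v7, v404, v486, v344] :=
  split_of 2 4 v591 1337829094 (by decide +kernel) t3_738 t3_786 rfl rfl

theorem t3_788 : Good (Q 9) [v597, v30, v7, v400, v486, v344] :=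
  split_of 1 3 v404 1299447568 (by decide +kernel) t3_725 t3_787 rfl rfl

theorem t3_789 : Good (Q 9) [v598, v597, v7, v408, v486, v344] :=
  split_of 2 4 v591 1337829094 (by decide +kernel) (good_ofj c3_715) (good_ofj c3_716) rfl rfl

theorem t3_790 : Good (Q 9) [v595, v597, v7, v408, v486, v344] :=
  split_of 0 2 v598 1343518117 (by decide +kernel) t3_789 (good_ofj c3_717) rfl rfl

theorem t3_791 : Good (Q 9) [v595, v597, v7, v400, v486, v344] :=
  split_of 2 3 v408 1339712096 (by decide +kernel) (good_ofj c3_714) t3_790 rfl rfl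

theorem t3_792 : Good (Q 9) [v595, v30, v7, v400, v486, v344] :=
  split_of 0 1 v597 1312910633 (by decide +kernel) t3_788 t3_791 rfl rfl

theorem t3_793 : Good (Q 9) [v595, v30, v7, v400, v486, v343] :=
  split_of 2 5 v344 1331125411 (by decide +kernel) t3_722 t3_792 rfl rfl

theorem t3_794 : Good (Q 10) [v595, v30, v7, v400, v486, v343] :=
  env_E _ t3_793

theorem t3_795 : Good (Q 10) [v595, v30, v7, v400, v483, v343] :=
  split_of 1 4 v486 1293212810 (by decide +kernel) (good_ofj c3_648) t3_794 rfl rfl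

theorem t3_796 : Good (Q 9) [v623, v30, v597, v404, v590, v367] :=
  split_of 1 5 v368 1283868635 (by decide +kernel) (good_ofj c3_723) (good_ofj c3_724) rfl rfl

theorem t3_797 : Good (Q 9) [v623, v30, v597, v404, v486, v367] :=
  split_of 1 4 v590 1290828974 (by decide +kernel) (good_ofj c3_722) t3_796 rfl rfl

theorem t3_798 : Good (Q 9) [v622, v30, v597, v404, v486, v367] :=
  split_of 0 1 v623 1294777133 (by decide +kernel) t3_797 (good_ofj c3_725) rfl rfl

theorem t3_799 : Good (Q 9) [v622, v30, v597, v400, v486, v367] :=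
  split_of 1 3 v404 1299447568 (by decide +kernel) (good_ofj c3_721) t3_798 rfl rfl

theorem t3_800 : Good (Q 9) [v485, v30, v597, v400, v486, v367] :=
  split_of 0 3 v622 1292971808 (by decide +kernel) t3_799 (good_ofj c3_726) rfl rfl

theorem t3_801 : Good (Q 9) [v485, v30, v595, v400, v486, v367] :=
  split_of 1 2 v597 1312910633 (by decide +kernel) (good_ofj c3_720) t3_800 rfl rfl

theorem t3_802 : Good (Q 10) [v485, v30, v595, v400, v486, v367] :=
  env_E _ t3_801

theorem t3_803 : Good (Q 10) [v485, v30, v595, v400, v486, v343] :=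
  split_of 1 5 v367 1282767547 (by decide +kernel) (good_ofj c3_719) t3_802 rfl rfl

theorem t3_804 : Good (Q 10) [v485, v30, v595, v400, v483, v343] :=
  split_of 1 4 v486 1293212810 (by decide +kernel) (good_ofj c3_718) t3_803 rfl rfl

theorem t3_805 : Good (Q 10) [v484, v30, v595, v400, v483, v343] :=
  split_of 0 1 v485 1267400614 (by decide +kernel) t3_804 (good_ofj c3_727) rfl rfl

theorem t3_806 : Good (Q 10) [v484, v30, v7, v400, v483, v343] :=
  split_of 0 2 v595 1312910633 (by decide +kernel) t3_795 t3_805 rfl rfl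

theorem t3_807 : Good (Q 10) [v484, v30, v7, v397, v483, v343] :=
  split_of 1 3 v400 1295857916 (by decide +kernel) t3_714 t3_806 rfl rfl

theorem t3_808 : Good (Q 10) [v484, v30, v7, v397, v483, v339] :=
  split_of 1 5 v343 1260336929 (by decide +kernel) t3_710 t3_807 rfl rfl

theorem t3_809 : Good (Q 10) [v484, v30, v7, v397, v482, v339] :=
  split_of 1 4 v483 1268403305 (by decide +kernel) (good_ofj c3_638) t3_808 rfl rfl

theorem t3_810 : Good (Q 9) [v448, v30, v374, v400, v622, v367] :=
  split_of 1 3 v404 1299447568 (by decide +kernel) (good_ofj c3_734) (good_ofj c3_735) rfl rfl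

theorem t3_811 : Good (Q 9) [v447, v30, v374, v400, v622, v367] :=
  split_of 0 1 v448 1293513935 (by decide +kernel) t3_810 (good_ofj c3_736) rfl rfl

theorem t3_812 : Good (Q 10) [v447, v30, v374, v400, v622, v367] :=
  env_E _ t3_811

theorem t3_813 : Good (Q 10) [v447, v30, v374, v400, v622, v343] :=
  split_of 1 5 v367 1282767547 (by decide +kernel) (good_ofj c3_733) t3_812 rfl rfl

theorem t3_814 : Good (Q 10) [v447, v30, v369, v400, v622, v343] :=
  split_of 1 2 v374 1311272127 (by decide +kernel) (good_ofj c3_732) t3_813 rfl rfl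

theorem t3_815 : Good (Q 10) [v442, v30, v369, v400, v622, v343] :=
  split_of 0 3 v447 1273889978 (by decide +kernel) t3_814 (good_ofj c3_737) rfl rfl

theorem t3_816 : Good (Q 10) [v442, v30, v369, v400, v624, v343] :=
  split_of 1 4 v622 1292971808 (by decide +kernel) (good_ofj c3_731) t3_815 rfl rfl

theorem t3_817 : Good (Q 10) [v442, v30, v369, v397, v624, v343] :=
  split_of 1 3 v400 1295857916 (by decide +kernel) (good_ofj c3_730) t3_816 rfl rfl

theorem t3_818 : Good (Q 10) [v442, v30, v369, v397, v484, v343] :=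
  split_of 3 4 v624 1241799870 (by decide +kernel) (good_ofj c3_729) t3_817 rfl rfl

theorem t3_819 : Good (Q 10) [v442, v30, v369, v397, v484, v339] :=
  split_of 1 5 v343 1260336929 (by decide +kernel) (good_ofj c3_728) t3_818 rfl rfl

theorem t3_820 : Good (Q 9) [v453, v38, v600, v625, v597, v377] :=
  split_of 1 4 v603 1325816608 (by decide +kernel) (good_ofj c3_744) (good_ofj c3_745) rfl rfl

theorem t3_821 : Good (Q 9) [v460, v43, v7, v626, v601, v379] :=
  split_of 2 3 v627 1351970995 (by decide +kernel) (good_ofj c3_749) (good_ofj c3_750) rfl rfl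

theorem t3_822 : Good (Q 9) [v458, v43, v7, v626, v601, v379] :=
  split_of 0 2 v460 1350429413 (by decide +kernel) t3_821 (good_ofj c3_751) rfl rfl

theorem t3_823 : Good (Q 9) [v458, v43, v7, v626, v600, v379] :=
  split_of 2 4 v601 1350320645 (by decide +kernel) (good_ofj c3_748) t3_822 rfl rfl

theorem t3_824 : Good (Q 9) [v458, v43, v7, v626, v600, v377] :=
  split_of 2 5 v379 1350213587 (by decide +kernel) (good_ofj c3_747) t3_823 rfl rfl

theorem t3_825 : Good (Q 9) [v458, v38, v43, v628, v600, v377] :=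
  split_of 1 5 v387 1339048731 (by decide +kernel) (good_ofj c3_753) (good_ofj c3_754) rfl rfl

theorem t3_826 : Good (Q 9) [v458, v38, v43, v626, v600, v377] :=
  split_of 1 3 v628 1343777943 (by decide +kernel) (good_ofj c3_752) t3_825 rfl rfl

theorem t3_827 : Good (Q 9) [v458, v38, v7, v626, v600, v377] :=
  split_of 1 2 v43 1347746544 (by decide +kernel) t3_824 t3_826 rfl rfl

theorem t3_828 : Good (Q 9) [v458, v38, v7, v625, v600, v377] :=
  split_of 2 3 v626 1349366882 (by decide +kernel) (good_ofj c3_746) t3_827 rfl rfl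

theorem t3_829 : Good (Q 9) [v453, v38, v458, v625, v600, v377] :=
  split_of 0 1 v457 1326231995 (by decide +kernel) (good_ofj c3_755) (good_ofj c3_756) rfl rfl

theorem t3_830 : Good (Q 9) [v453, v38, v7, v625, v600, v377] :=
  split_of 0 2 v458 1343280872 (by decide +kernel) t3_828 t3_829 rfl rfl

theorem t3_831 : Good (Q 9) [v453, v38, v7, v625, v597, v377] :=
  split_of 2 4 v600 1342848033 (by decide +kernel) t3_820 t3_830 rfl rfl

theorem t3_832 : Good (Q 9) [v453, v38, v7, v625, v597, v374] :=
  split_of 2 5 v377 1342428891 (by decide +kernel) (good_ofj c3_743) t3_831 rfl rfl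

theorem t3_833 : Good (Q 9) [v465, v54, v38, v629, v605, v382] :=
  split_of 0 2 v473 1319089474 (by decide +kernel) (good_ofj c3_762) (good_ofj c3_763) rfl rfl

theorem t3_834 : Good (Q 9) [v465, v54, v38, v629, v599, v382] :=
  split_of 2 4 v605 1318989953 (by decide +kernel) (good_ofj c3_761) t3_833 rfl rfl

theorem t3_835 : Good (Q 9) [v465, v54, v38, v629, v599, v376] :=
  split_of 2 5 v382 1318892226 (by decide +kernel) (good_ofj c3_760) t3_834 rfl rfl

theorem t3_836 : Good (Q 8) [v465, v630, v54, v629, v599, v376] :=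
  split_of 2 5 v589 1305637840 (by decide +kernel) (good_ofj c3_764) (good_ofj c3_765) rfl rfl

theorem t3_837 : Good (Q 9) [v465, v630, v54, v629, v599, v376] :=
  P_of 8 9 0xffffffffffffffffffffffffffffff515443f0fc41d082bcaf2d4b62ccb32c4b0ffffffffffffffffffffffffffffff2e8ba344d0360d8fffff2dcb72f8be2f4bd
    (by decide +kernel) t3_836

theorem t3_838 : Good (Q 9) [v465, v30, v54, v629, v599, v376] :=
  split_of 1 3 v630 1300380987 (by decide +kernel) t3_837 (good_ofj c3_766) rfl rfl

theorem t3_839 : Good (Q 9) [v465, v30, v38, v629, v599, v376] :=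
  split_of 1 2 v54 1309864426 (by decide +kernel) t3_835 t3_838 rfl rfl

theorem t3_840 : Good (Q 9) [v453, v30, v38, v629, v599, v376] :=
  split_of 0 1 v465 1300565277 (by decide +kernel) t3_839 (good_ofj c3_767) rfl rfl

theorem t3_841 : Good (Q 9) [v453, v30, v38, v629, v597, v376] :=
  split_of 1 4 v599 1300163123 (by decide +kernel) (good_ofj c3_759) t3_840 rfl rfl

theorem t3_842 : Good (Q 9) [v453, v30, v38, v629, v597, v374] :=
  split_of 1 5 v376 1299775629 (by decide +kernel) (good_ofj c3_758) t3_841 rfl rfl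

theorem t3_843 : Good (Q 9) [v453, v30, v38, v625, v597, v374] :=
  split_of 1 3 v629 1317758267 (by decide +kernel) (good_ofj c3_757) t3_842 rfl rfl

theorem t3_844 : Good (Q 9) [v453, v30, v7, v625, v597, v374] :=
  split_of 1 2 v38 1333169107 (by decide +kernel) t3_832 t3_843 rfl rfl

theorem t3_845 : Good (Q 9) [v450, v458, v7, v626, v600, v377] :=
  split_of 2 5 v379 1350213587 (by decide +kernel) (good_ofj c3_771) (good_ofj c3_772) rfl rfl

theorem t3_846 : Good (Q 9) [v450, v458, v7, v625, v600, v377] :=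
  split_of 2 3 v626 1349366882 (by decide +kernel) (good_ofj c3_770) t3_845 rfl rfl

theorem t3_847 : Good (Q 9) [v450, v453, v7, v625, v600, v377] :=
  split_of 1 2 v458 1343280872 (by decide +kernel) t3_846 (good_ofj c3_773) rfl rfl

theorem t3_848 : Good (Q 9) [v450, v453, v7, v625, v597, v377] :=
  split_of 2 4 v600 1342848033 (by decide +kernel) (good_ofj c3_769) t3_847 rfl rfl

theorem t3_849 : Good (Q 9) [v449, v453, v7, v625, v597, v377] :=
  split_of 0 2 v450 1345413067 (by decide +kernel) t3_848 (good_ofj c3_774) rfl rfl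

theorem t3_850 : Good (Q 9) [v449, v453, v7, v625, v597, v374] :=
  split_of 2 5 v377 1342428891 (by decide +kernel) (good_ofj c3_768) t3_849 rfl rfl

theorem t3_851 : Good (Q 9) [v449, v30, v7, v625, v597, v374] :=
  split_of 0 1 v453 1314661650 (by decide +kernel) t3_844 t3_850 rfl rfl

theorem t3_852 : Good (Q 9) [v449, v30, v7, v622, v597, v374] :=
  split_of 2 3 v625 1338700992 (by decide +kernel) (good_ofj c3_742) t3_851 rfl rfl

theorem t3_853 : Good (Q 9) [v449, v30, v7, v622, v595, v374] :=
  split_of 1 4 v597 1312910633 (by decide +kernel) (good_ofj c3_741) t3_852 rfl rfl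

theorem t3_854 : Good (Q 9) [v449, v30, v7, v622, v595, v369] :=
  split_of 1 5 v374 1311272127 (by decide +kernel) (good_ofj c3_740) t3_853 rfl rfl

theorem t3_855 : Good (Q 10) [v449, v30, v7, v622, v595, v369] :=
  env_E _ t3_854

theorem t3_856 : Good (Q 10) [v449, v30, v7, v624, v595, v369] :=
  split_of 1 3 v622 1292971808 (by decide +kernel) (good_ofj c3_739) t3_855 rfl rfl

theorem t3_857 : Good (Q 10) [v442, v30, v7, v624, v595, v369] :=
  split_of 0 2 v449 1321273347 (by decide +kernel) t3_856 (good_ofj c3_775) rfl rfl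

theorem t3_858 : Good (Q 10) [v442, v30, v7, v624, v484, v369] :=
  split_of 2 4 v595 1312910633 (by decide +kernel) (good_ofj c3_738) t3_857 rfl rfl

theorem t3_859 : Good (Q 10) [v442, v400, v7, v397, v624, v369] :=
  split_of 2 3 v401 1324037525 (by decide +kernel) (good_ofj c3_776) (good_ofj c3_777) rfl rfl

theorem t3_860 : Good (Q 9) [v449, v374, v7, v400, v625, v375] :=
  split_of 2 3 v408 1339712096 (by decide +kernel) (good_ofj c3_781) (good_ofj c3_782) rfl rfl

theorem t3_861 : Good (Q 9) [v449, v374, v7, v400, v622, v375] :=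
  split_of 2 4 v625 1338700992 (by decide +kernel) (good_ofj c3_780) t3_860 rfl rfl

theorem t3_862 : Good (Q 9) [v449, v374, v7, v400, v622, v369] :=
  split_of 2 5 v375 1341729738 (by decide +kernel) (good_ofj c3_779) t3_861 rfl rfl

theorem t3_863 : Good (Q 9) [v450, v412, v7, v408, v625, v377] :=
  split_of 2 3 v451 1349657301 (by decide +kernel) (good_ofj c3_786) (good_ofj c3_787) rfl rfl

theorem t3_864 : Good (Q 9) [v450, v404, v7, v408, v625, v377] :=
  split_of 1 2 v412 1339459463 (by decide +kernel) t3_863 (good_ofj c3_788) rfl rfl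

theorem t3_865 : Good (Q 9) [v449, v404, v7, v408, v625, v377] :=
  split_of 0 2 v450 1345413067 (by decide +kernel) t3_864 (good_ofj c3_789) rfl rfl

theorem t3_866 : Good (Q 9) [v449, v404, v7, v408, v625, v374] :=
  split_of 2 5 v377 1342428891 (by decide +kernel) (good_ofj c3_785) t3_865 rfl rfl

theorem t3_867 : Good (Q 9) [v449, v404, v7, v400, v625, v374] :=
  split_of 2 3 v408 1339712096 (by decide +kernel) (good_ofj c3_784) t3_866 rfl rfl

theorem t3_868 : Good (Q 9) [v449, v404, v7, v400, v622, v374] :=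
  split_of 2 4 v625 1338700992 (by decide +kernel) (good_ofj c3_783) t3_867 rfl rfl

theorem t3_869 : Good (Q 9) [v465, v30, v629, v407, v623, v376] :=
  split_of 1 4 v631 1289027723 (by decide +kernel) (good_ofj c3_794) (good_ofj c3_795) rfl rfl

theorem t3_870 : Good (Q 9) [v465, v30, v629, v404, v623, v376] :=
  split_of 1 3 v407 1292338752 (by decide +kernel) (good_ofj c3_793) t3_869 rfl rfl

theorem t3_871 : Good (Q 9) [v453, v30, v629, v404, v623, v376] :=
  split_of 0 1 v465 1300565277 (by decide +kernel) t3_870 (good_ofj c3_796) rfl rfl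

theorem t3_872 : Good (Q 9) [v453, v30, v629, v404, v623, v374] :=
  split_of 1 5 v376 1299775629 (by decide +kernel) (good_ofj c3_792) t3_871 rfl rfl

theorem t3_873 : Good (Q 9) [v453, v30, v625, v404, v623, v374] :=
  split_of 1 2 v629 1317758267 (by decide +kernel) (good_ofj c3_791) t3_872 rfl rfl

theorem t3_874 : Good (Q 9) [v453, v30, v625, v404, v622, v374] :=
  split_of 1 4 v623 1294777133 (by decide +kernel) (good_ofj c3_790) t3_873 rfl rfl

theorem t3_875 : Good (Q 9) [v453, v38, v377, v404, v625, v385] :=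
  split_of 2 3 v454 1326568411 (by decide +kernel) (good_ofj c3_798) (good_ofj c3_799) rfl rfl

theorem t3_876 : Good (Q 9) [v453, v38, v377, v404, v625, v374] :=
  split_of 1 5 v385 1325415297 (by decide +kernel) (good_ofj c3_797) t3_875 rfl rfl

theorem t3_877 : Good (Q 9) [v453, v38, v412, v417, v625, v454] :=
  split_of 0 2 v456 1329617004 (by decide +kernel) (good_ofj c3_802) (good_ofj c3_803) rfl rfl

theorem t3_878 : Good (Q 9) [v453, v38, v412, v404, v625, v454] :=
  split_of 1 3 v417 1320147089 (by decide +kernel) (good_ofj c3_801) t3_877 rfl rfl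

theorem t3_879 : Good (Q 9) [v453, v38, v412, v404, v625, v377] :=
  split_of 3 5 v454 1326568411 (by decide +kernel) (good_ofj c3_800) t3_878 rfl rfl

theorem t3_880 : Good (Q 9) [v460, v43, v99, v414, v632, v379] :=
  split_of 1 5 v381 1349299014 (by decide +kernel) (good_ofj c3_810) (good_ofj c3_811) rfl rfl

theorem t3_881 : Good (Q 9) [v460, v43, v99, v414, v627, v379] :=
  split_of 1 4 v632 1350521981 (by decide +kernel) (good_ofj c3_809) t3_880 rfl rfl

theorem t3_882 : Good (Q 9) [v460, v43, v7, v414, v627, v379] :=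
  split_of 1 2 v99 1351535087 (by decide +kernel) (good_ofj c3_808) t3_881 rfl rfl

theorem t3_883 : Good (Q 9) [v460, v43, v7, v414, v626, v379] :=
  split_of 2 4 v627 1351970995 (by decide +kernel) (good_ofj c3_807) t3_882 rfl rfl

theorem t3_884 : Good (Q 9) [v458, v43, v7, v414, v626, v379] :=
  split_of 0 2 v460 1350429413 (by decide +kernel) t3_883 (good_ofj c3_812) rfl rfl

theorem t3_885 : Good (Q 9) [v458, v43, v7, v414, v626, v377] :=
  split_of 2 5 v379 1350213587 (by decide +kernel) (good_ofj c3_806) t3_884 rfl rfl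

theorem t3_886 : Good (Q 9) [v458, v43, v7, v412, v626, v377] :=
  split_of 2 3 v414 1349460245 (by decide +kernel) (good_ofj c3_805) t3_885 rfl rfl

theorem t3_887 : Good (Q 9) [v458, v38, v43, v412, v628, v377] :=
  split_of 1 5 v387 1339048731 (by decide +kernel) (good_ofj c3_814) (good_ofj c3_815) rfl rfl

theorem t3_888 : Good (Q 9) [v458, v38, v43, v412, v626, v377] :=
  split_of 1 4 v628 1343777943 (by decide +kernel) (good_ofj c3_813) t3_887 rfl rfl

theorem t3_889 : Good (Q 9) [v458, v38, v7, v412, v626, v377] :=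
  split_of 1 2 v43 1347746544 (by decide +kernel) t3_886 t3_888 rfl rfl

theorem t3_890 : Good (Q 9) [v458, v38, v7, v412, v625, v377] :=
  split_of 2 4 v626 1349366882 (by decide +kernel) (good_ofj c3_804) t3_889 rfl rfl

theorem t3_891 : Good (Q 9) [v453, v38, v458, v412, v633, v377] :=
  split_of 0 3 v456 1329617004 (by decide +kernel) (good_ofj c3_817) (good_ofj c3_818) rfl rfl

theorem t3_892 : Good (Q 9) [v453, v38, v458, v412, v625, v377] :=
  split_of 1 4 v633 1338068276 (by decide +kernel) (good_ofj c3_816) t3_891 rfl rfl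

theorem t3_893 : Good (Q 9) [v453, v38, v7, v412, v625, v377] :=
  split_of 0 2 v458 1343280872 (by decide +kernel) t3_890 t3_892 rfl rfl

theorem t3_894 : Good (Q 9) [v453, v38, v7, v404, v625, v377] :=
  split_of 2 3 v412 1339459463 (by decide +kernel) t3_879 t3_893 rfl rfl

theorem t3_895 : Good (Q 9) [v453, v38, v7, v404, v625, v374] :=
  split_of 2 5 v377 1342428891 (by decide +kernel) t3_876 t3_894 rfl rfl

theorem t3_896 : Good (Q 9) [v453, v629, v38, v417, v625, v385] :=
  split_of 0 2 v457 1326231995 (by decide +kernel) (good_ofj c3_821) (good_ofj c3_822) rfl rfl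

theorem t3_897 : Good (Q 9) [v453, v629, v38, v404, v625, v385] :=
  split_of 2 3 v417 1320147089 (by decide +kernel) (good_ofj c3_820) t3_896 rfl rfl

theorem t3_898 : Good (Q 9) [v453, v629, v38, v404, v625, v374] :=
  split_of 2 5 v385 1325415297 (by decide +kernel) (good_ofj c3_819) t3_897 rfl rfl

theorem t3_899 : Good (Q 9) [v453, v376, v38, v404, v629, v385] :=
  split_of 2 3 v417 1320147089 (by decide +kernel) (good_ofj c3_824) (good_ofj c3_825) rfl rfl

theorem t3_900 : Good (Q 9) [v453, v376, v38, v404, v629, v374] :=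
  split_of 2 5 v385 1325415297 (by decide +kernel) (good_ofj c3_823) t3_899 rfl rfl

theorem t3_901 : Good (Q 8) [v465, v407, v382, v417, v629, v376] :=
  split_of 3 5 v467 1311242830 (by decide +kernel) (good_ofj c3_827) (good_ofj c3_828) rfl rfl

theorem t3_902 : Good (Q 9) [v465, v407, v382, v417, v629, v376] :=
  P_of 8 9 0xffffffffffffffffffffffffffffff501403c0f0469192b8ae2dcb72ccb32c8b2ffffffffffffffffffffffffffffff2d8b633ccf35cd8fffff2c4b1314c5314c5
    (by decide +kernel) t3_901

theorem t3_903 : Good (Q 9) [v465, v407, v38, v417, v629, v382] :=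
  split_of 1 2 v421 1315851864 (by decide +kernel) (good_ofj c3_829) (good_ofj c3_830) rfl rfl

theorem t3_904 : Good (Q 9) [v465, v407, v38, v417, v629, v376] :=
  split_of 2 5 v382 1318892226 (by decide +kernel) t3_902 t3_903 rfl rfl

theorem t3_905 : Good (Q 9) [v465, v407, v38, v404, v629, v376] :=
  split_of 2 3 v417 1320147089 (by decide +kernel) (good_ofj c3_826) t3_904 rfl rfl

theorem t3_906 : Good (Q 9) [v472, v54, v470, v407, v629, v589] :=
  split_of 1 3 v619 1302071143 (by decide +kernel) (good_ofj c3_832) (good_ofj c3_833) rfl rfl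

theorem t3_907 : Good (Q 9) [v465, v54, v470, v407, v629, v589] :=
  split_of 0 1 v472 1305831726 (by decide +kernel) t3_906 (good_ofj c3_834) rfl rfl

theorem t3_908 : Good (Q 9) [v465, v54, v382, v407, v629, v589] :=
  split_of 2 3 v470 1306970801 (by decide +kernel) t3_907 (good_ofj c3_835) rfl rfl

theorem t3_909 : Good (Q 9) [v465, v54, v382, v407, v629, v376] :=
  split_of 1 5 v589 1305637840 (by decide +kernel) (good_ofj c3_831) t3_908 rfl rfl

theorem t3_910 : Good (Q 9) [v465, v54, v471, v407, v629, v470] :=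
  split_of 0 1 v472 1305831726 (by decide +kernel) (good_ofj c3_838) (good_ofj c3_839) rfl rfl

theorem t3_911 : Good (Q 9) [v465, v54, v421, v407, v629, v470] :=
  split_of 0 2 v471 1308854445 (by decide +kernel) (good_ofj c3_837) t3_910 rfl rfl

theorem t3_912 : Good (Q 9) [v465, v54, v421, v407, v629, v382] :=
  split_of 3 5 v470 1306970801 (by decide +kernel) (good_ofj c3_836) t3_911 rfl rfl

theorem t3_913 : Good (Q 9) [v473, v54, v38, v421, v629, v382] :=
  split_of 2 4 v634 1326355487 (by decide +kernel) (good_ofj c3_840) (good_ofj c3_841) rfl rfl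

theorem t3_914 : Good (Q 9) [v465, v54, v38, v421, v629, v382] :=
  split_of 0 2 v473 1319089474 (by decide +kernel) t3_913 (good_ofj c3_842) rfl rfl

theorem t3_915 : Good (Q 9) [v465, v54, v38, v407, v629, v382] :=
  split_of 2 3 v421 1315851864 (by decide +kernel) t3_912 t3_914 rfl rfl

theorem t3_916 : Good (Q 9) [v465, v54, v38, v407, v629, v376] :=
  split_of 2 5 v382 1318892226 (by decide +kernel) t3_909 t3_915 rfl rfl

theorem t3_917 : Good (Q 9) [v472, v630, v54, v407, v629, v589] :=
  split_of 2 3 v619 1302071143 (by decide +kernel) (good_ofj c3_844) (good_ofj c3_845) rfl rfl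

theorem t3_918 : Good (Q 9) [v465, v630, v54, v407, v629, v589] :=
  split_of 0 2 v472 1305831726 (by decide +kernel) t3_917 (good_ofj c3_846) rfl rfl

theorem t3_919 : Good (Q 9) [v465, v630, v54, v407, v629, v376] :=
  split_of 2 5 v589 1305637840 (by decide +kernel) (good_ofj c3_843) t3_918 rfl rfl

theorem t3_920 : Good (Q 9) [v465, v30, v54, v407, v629, v376] :=
  split_of 1 4 v630 1300380987 (by decide +kernel) t3_919 (good_ofj c3_847) rfl rfl

theorem t3_921 : Good (Q 9) [v465, v30, v38, v407, v629, v376] :=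
  split_of 1 2 v54 1309864426 (by decide +kernel) t3_916 t3_920 rfl rfl

theorem t3_922 : Good (Q 9) [v465, v30, v38, v404, v629, v376] :=
  split_of 1 3 v407 1292338752 (by decide +kernel) t3_905 t3_921 rfl rfl

theorem t3_923 : Good (Q 9) [v457, v465, v38, v417, v629, v376] :=
  split_of 2 5 v382 1318892226 (by decide +kernel) (good_ofj c3_849) (good_ofj c3_850) rfl rfl

theorem t3_924 : Good (Q 9) [v453, v465, v38, v417, v629, v376] :=
  split_of 0 2 v457 1326231995 (by decide +kernel) t3_923 (good_ofj c3_851) rfl rfl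

theorem t3_925 : Good (Q 9) [v453, v465, v38, v404, v629, v376] :=
  split_of 2 3 v417 1320147089 (by decide +kernel) (good_ofj c3_848) t3_924 rfl rfl

theorem t3_926 : Good (Q 9) [v453, v30, v38, v404, v629, v376] :=
  split_of 0 1 v465 1300565277 (by decide +kernel) t3_922 t3_925 rfl rfl

theorem t3_927 : Good (Q 9) [v453, v30, v38, v404, v629, v374] :=
  split_of 1 5 v376 1299775629 (by decide +kernel) t3_900 t3_926 rfl rfl

theorem t3_928 : Good (Q 9) [v453, v30, v38, v404, v625, v374] :=
  split_of 1 4 v629 1317758267 (by decide +kernel) t3_898 t3_927 rfl rfl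

theorem t3_929 : Good (Q 9) [v453, v30, v7, v404, v625, v374] :=
  split_of 1 2 v38 1333169107 (by decide +kernel) t3_895 t3_928 rfl rfl

theorem t3_930 : Good (Q 9) [v453, v30, v7, v404, v622, v374] :=
  split_of 2 4 v625 1338700992 (by decide +kernel) t3_874 t3_929 rfl rfl

theorem t3_931 : Good (Q 9) [v450, v458, v7, v412, v626, v377] :=
  split_of 2 3 v414 1349460245 (by decide +kernel) (good_ofj c3_856) (good_ofj c3_857) rfl rfl

theorem t3_932 : Good (Q 9) [v450, v458, v7, v412, v625, v377] :=
  split_of 2 4 v626 1349366882 (by decide +kernel) (good_ofj c3_855) t3_931 rfl rfl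

theorem t3_933 : Good (Q 9) [v450, v453, v7, v412, v625, v377] :=
  split_of 1 2 v458 1343280872 (by decide +kernel) t3_932 (good_ofj c3_858) rfl rfl

theorem t3_934 : Good (Q 9) [v450, v453, v7, v404, v625, v377] :=
  split_of 2 3 v412 1339459463 (by decide +kernel) (good_ofj c3_854) t3_933 rfl rfl

theorem t3_935 : Good (Q 9) [v449, v453, v7, v404, v625, v377] :=
  split_of 0 2 v450 1345413067 (by decide +kernel) t3_934 (good_ofj c3_859) rfl rfl

theorem t3_936 : Good (Q 9) [v449, v453, v7, v404, v625, v374] :=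
  split_of 2 5 v377 1342428891 (by decide +kernel) (good_ofj c3_853) t3_935 rfl rfl

theorem t3_937 : Good (Q 9) [v449, v453, v7, v404, v622, v374] :=
  split_of 2 4 v625 1338700992 (by decide +kernel) (good_ofj c3_852) t3_936 rfl rfl

theorem t3_938 : Good (Q 9) [v449, v30, v7, v404, v622, v374] :=
  split_of 0 1 v453 1314661650 (by decide +kernel) t3_930 t3_937 rfl rfl

theorem t3_939 : Good (Q 9) [v449, v30, v7, v400, v622, v374] :=
  split_of 1 3 v404 1299447568 (by decide +kernel) t3_868 t3_938 rfl rfl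

theorem t3_940 : Good (Q 9) [v449, v30, v7, v400, v622, v369] :=
  split_of 1 5 v374 1311272127 (by decide +kernel) t3_862 t3_939 rfl rfl

theorem t3_941 : Good (Q 9) [v635, v30, v453, v404, v623, v374] :=
  split_of 1 5 v376 1299775629 (by decide +kernel) (good_ofj c3_864) (good_ofj c3_865) rfl rfl

theorem t3_942 : Good (Q 9) [v635, v30, v453, v404, v622, v374] :=
  split_of 1 4 v623 1294777133 (by decide +kernel) (good_ofj c3_863) t3_941 rfl rfl

theorem t3_943 : Good (Q 9) [v474, v30, v453, v404, v622, v374] :=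
  split_of 0 1 v635 1286065164 (by decide +kernel) t3_942 (good_ofj c3_866) rfl rfl

theorem t3_944 : Good (Q 9) [v474, v30, v449, v404, v622, v374] :=
  split_of 1 2 v453 1314661650 (by decide +kernel) (good_ofj c3_862) t3_943 rfl rfl

theorem t3_945 : Good (Q 9) [v474, v30, v449, v400, v622, v374] :=
  split_of 1 3 v404 1299447568 (by decide +kernel) (good_ofj c3_861) t3_944 rfl rfl

theorem t3_946 : Good (Q 9) [v474, v30, v449, v400, v622, v369] :=
  split_of 1 5 v374 1311272127 (by decide +kernel) (good_ofj c3_860) t3_945 rfl rfl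

theorem t3_947 : Good (Q 9) [v442, v30, v449, v400, v622, v369] :=
  split_of 0 1 v474 1275378169 (by decide +kernel) t3_946 (good_ofj c3_867) rfl rfl

theorem t3_948 : Good (Q 9) [v442, v30, v7, v400, v622, v369] :=
  split_of 0 2 v449 1321273347 (by decide +kernel) t3_940 t3_947 rfl rfl

theorem t3_949 : Good (Q 10) [v442, v30, v7, v400, v622, v369] :=
  env_E _ t3_948

theorem t3_950 : Good (Q 10) [v442, v30, v7, v400, v624, v369] :=
  split_of 1 4 v622 1292971808 (by decide +kernel) (good_ofj c3_778) t3_949 rfl rfl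

theorem t3_951 : Good (Q 10) [v442, v30, v7, v397, v624, v369] :=
  split_of 1 3 v400 1295857916 (by decide +kernel) t3_859 t3_950 rfl rfl

theorem t3_952 : Good (Q 10) [v442, v30, v7, v397, v484, v369] :=
  split_of 3 4 v624 1241799870 (by decide +kernel) t3_858 t3_951 rfl rfl

theorem t3_953 : Good (Q 10) [v442, v30, v7, v397, v484, v339] :=
  split_of 2 5 v369 1305386625 (by decide +kernel) t3_819 t3_952 rfl rfl

theorem t3_954 : Good (Q 9) [v109, v377, v7, v450, v598, v375] :=
  split_of 2 5 v384 1350127237 (by decide +kernel) (good_ofj c3_874) (good_ofj c3_875) rfl rfl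

theorem t3_955 : Good (Q 9) [v108, v377, v7, v450, v598, v375] :=
  split_of 0 2 v109 1347302695 (by decide +kernel) t3_954 (good_ofj c3_876) rfl rfl

theorem t3_956 : Good (Q 9) [v108, v377, v7, v449, v598, v375] :=
  split_of 2 3 v450 1345413067 (by decide +kernel) (good_ofj c3_873) t3_955 rfl rfl

theorem t3_957 : Good (Q 9) [v108, v374, v7, v449, v598, v375] :=
  split_of 1 2 v377 1342428891 (by decide +kernel) t3_956 (good_ofj c3_877) rfl rfl

theorem t3_958 : Good (Q 9) [v108, v374, v7, v449, v595, v375] :=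
  split_of 2 4 v598 1343518117 (by decide +kernel) (good_ofj c3_872) t3_957 rfl rfl

theorem t3_959 : Good (Q 9) [v108, v374, v7, v449, v595, v369] :=
  split_of 2 5 v375 1341729738 (by decide +kernel) (good_ofj c3_871) t3_958 rfl rfl

theorem t3_960 : Good (Q 9) [v109, v600, v7, v450, v606, v379] :=
  split_of 1 2 v601 1350320645 (by decide +kernel) (good_ofj c3_883) (good_ofj c3_884) rfl rfl

theorem t3_961 : Good (Q 9) [v109, v600, v7, v450, v606, v377] :=
  split_of 2 5 v379 1350213587 (by decide +kernel) (good_ofj c3_882) t3_960 rfl rfl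

theorem t3_962 : Good (Q 9) [v109, v600, v7, v450, v598, v377] :=
  split_of 2 4 v606 1350569232 (by decide +kernel) (good_ofj c3_881) t3_961 rfl rfl

theorem t3_963 : Good (Q 9) [v108, v600, v7, v450, v598, v377] :=
  split_of 0 2 v109 1347302695 (by decide +kernel) t3_962 (good_ofj c3_885) rfl rfl

theorem t3_964 : Good (Q 9) [v108, v597, v7, v450, v598, v377] :=
  split_of 1 2 v600 1342848033 (by decide +kernel) t3_963 (good_ofj c3_886) rfl rfl

theorem t3_965 : Good (Q 9) [v108, v597, v7, v449, v598, v377] :=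
  split_of 2 3 v450 1345413067 (by decide +kernel) (good_ofj c3_880) t3_964 rfl rfl

theorem t3_966 : Good (Q 9) [v108, v597, v7, v449, v598, v374] :=
  split_of 2 5 v377 1342428891 (by decide +kernel) (good_ofj c3_879) t3_965 rfl rfl

theorem t3_967 : Good (Q 9) [v108, v597, v7, v449, v595, v374] :=
  split_of 2 4 v598 1343518117 (by decide +kernel) (good_ofj c3_878) t3_966 rfl rfl

theorem t3_968 : Good (Q 9) [v109, v458, v7, v450, v601, v379] :=
  split_of 2 3 v475 1351024736 (by decide +kernel) (good_ofj c3_892) (good_ofj c3_893) rfl rfl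

theorem t3_969 : Good (Q 9) [v109, v458, v7, v450, v600, v379] :=
  split_of 2 4 v601 1350320645 (by decide +kernel) (good_ofj c3_891) t3_968 rfl rfl

theorem t3_970 : Good (Q 9) [v109, v458, v7, v450, v600, v377] :=
  split_of 2 5 v379 1350213587 (by decide +kernel) (good_ofj c3_890) t3_969 rfl rfl

theorem t3_971 : Good (Q 9) [v108, v458, v7, v450, v600, v377] :=
  split_of 0 2 v109 1347302695 (by decide +kernel) t3_970 (good_ofj c3_894) rfl rfl

theorem t3_972 : Good (Q 9) [v108, v453, v7, v450, v600, v377] :=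
  split_of 1 2 v458 1343280872 (by decide +kernel) t3_971 (good_ofj c3_895) rfl rfl

theorem t3_973 : Good (Q 9) [v108, v453, v7, v450, v597, v377] :=
  split_of 2 4 v600 1342848033 (by decide +kernel) (good_ofj c3_889) t3_972 rfl rfl

theorem t3_974 : Good (Q 9) [v108, v453, v7, v449, v597, v377] :=
  split_of 2 3 v450 1345413067 (by decide +kernel) (good_ofj c3_888) t3_973 rfl rfl

theorem t3_975 : Good (Q 9) [v108, v453, v7, v449, v597, v374] :=
  split_of 2 5 v377 1342428891 (by decide +kernel) (good_ofj c3_887) t3_974 rfl rfl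

theorem t3_976 : Good (Q 9) [v108, v38, v377, v453, v597, v374] :=
  split_of 0 1 v111 1336786951 (by decide +kernel) (good_ofj c3_896) (good_ofj c3_897) rfl rfl

theorem t3_977 : Good (Q 9) [v111, v38, v600, v453, v597, v377] :=
  split_of 1 4 v603 1325816608 (by decide +kernel) (good_ofj c3_898) (good_ofj c3_899) rfl rfl

theorem t3_978 : Good (Q 9) [v108, v38, v600, v453, v597, v377] :=
  split_of 0 1 v111 1336786951 (by decide +kernel) t3_977 (good_ofj c3_900) rfl rfl

theorem t3_979 : Good (Q 9) [v108, v38, v458, v453, v600, v377] :=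
  split_of 0 1 v111 1336786951 (by decide +kernel) (good_ofj c3_901) (good_ofj c3_902) rfl rfl

theorem t3_980 : Good (Q 9) [v109, v43, v379, v458, v600, v386] :=
  split_of 0 1 v113 1348854888 (by decide +kernel) (good_ofj c3_904) (good_ofj c3_905) rfl rfl

theorem t3_981 : Good (Q 9) [v109, v43, v379, v458, v600, v377] :=
  split_of 0 5 v386 1346091026 (by decide +kernel) (good_ofj c3_903) t3_980 rfl rfl

theorem t3_982 : Good (Q 7) [v113, v43, v601, v458, v600, v379] :=
  split_of 1 4 v612 1345906828 (by decide +kernel) (good_ofj c3_906) (good_ofj c3_907) rfl rfl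

theorem t3_983 : Good (Q 8) [v113, v43, v601, v458, v600, v379] :=
  P_of 7 8 0xffffffffffffffffffffffffffffff71dc3348d3358d72e0b8300c02f4bd2e4b9ffffffffffffffffffffffffffffff2c8b23f0fa42508509452bcaf2ccb42c8b2
    (by decide +kernel) t3_982

theorem t3_984 : Good (Q 9) [v113, v43, v601, v458, v600, v379] :=
  P_of 8 9 0xfffffffffffffffffffffffffffffffffff348d2354d62e0b8300c02f4bd2e8b9ffffffffffffffffffffffffffffff2c8b23f0fc42509509422bcaf2ccb32c8b2
    (by decide +kernel) t3_983

theorem t3_985 : Good (Q 9) [v109, v43, v601, v458, v600, v379] :=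
  split_of 0 1 v113 1348854888 (by decide +kernel) t3_984 (good_ofj c3_908) rfl rfl

theorem t3_986 : Good (Q 7) [v113, v43, v460, v458, v601, v379] :=
  split_of 3 5 v463 1347392442 (by decide +kernel) (good_ofj c3_909) (good_ofj c3_910) rfl rfl

theorem t3_987 : Good (Q 8) [v113, v43, v460, v458, v601, v379] :=
  P_of 7 8 0xffffffffffffffffffffffffffffff71dc5348d2354d72e4b82fcbf2f8be2e4b9ffffffffffffffffffffffffffffff2c4b13f0fb42508509442c0b02ccb42c8b3
    (by decide +kernel) t3_986

theorem t3_988 : Good (Q 9) [v113, v43, v460, v458, v601, v379] :=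
  P_of 8 9 0xfffffffffffffffffffffffffffffffffff348d2354d52e4b92fcbf2f8be2e4b9ffffffffffffffffffffffffffffff2c4b13f0fc42509509422c0b02ccb32c8b2
    (by decide +kernel) t3_987

theorem t3_989 : Good (Q 9) [v109, v43, v460, v458, v601, v379] :=
  split_of 0 1 v113 1348854888 (by decide +kernel) t3_988 (good_ofj c3_911) rfl rfl

theorem t3_990 : Good (Q 9) [v115, v43, v99, v460, v601, v381] :=
  split_of 1 4 v610 1349325384 (by decide +kernel) (good_ofj c3_914) (good_ofj c3_915) rfl rfl

theorem t3_991 : Good (Q 9) [v115, v43, v99, v460, v601, v379] :=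
  split_of 1 5 v381 1349299014 (by decide +kernel) (good_ofj c3_913) t3_990 rfl rfl

theorem t3_992 : Good (Q 9) [v114, v43, v99, v460, v601, v379] :=
  split_of 0 1 v115 1350548520 (by decide +kernel) t3_991 (good_ofj c3_916) rfl rfl

theorem t3_993 : Good (Q 9) [v114, v43, v7, v460, v601, v379] :=
  split_of 1 2 v99 1351535087 (by decide +kernel) (good_ofj c3_912) t3_992 rfl rfl

theorem t3_994 : Good (Q 9) [v109, v43, v7, v460, v601, v379] :=
  split_of 0 2 v114 1351479933 (by decide +kernel) t3_993 (good_ofj c3_917) rfl rfl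

theorem t3_995 : Good (Q 9) [v109, v43, v7, v458, v601, v379] :=
  split_of 2 3 v460 1350429413 (by decide +kernel) t3_989 t3_994 rfl rfl

theorem t3_996 : Good (Q 9) [v109, v43, v7, v458, v600, v379] :=
  split_of 2 4 v601 1350320645 (by decide +kernel) t3_985 t3_995 rfl rfl

theorem t3_997 : Good (Q 9) [v109, v43, v7, v458, v600, v377] :=
  split_of 2 5 v379 1350213587 (by decide +kernel) t3_981 t3_996 rfl rfl

theorem t3_998 : Good (Q 9) [v117, v38, v43, v458, v600, v387] :=
  split_of 1 4 v611 1339150560 (by decide +kernel) (good_ofj c3_919) (good_ofj c3_920) rfl rfl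

theorem t3_999 : Good (Q 9) [v117, v38, v43, v458, v600, v377] :=
  split_of 1 5 v387 1339048731 (by decide +kernel) (good_ofj c3_918) t3_998 rfl rfl

theorem t3_1000 : Good (Q 9) [v109, v38, v43, v458, v600, v377] :=
  split_of 0 1 v117 1343797121 (by decide +kernel) t3_999 (good_ofj c3_921) rfl rfl

theorem t3_1001 : Good (Q 9) [v109, v38, v7, v458, v600, v377] :=
  split_of 1 2 v43 1347746544 (by decide +kernel) t3_997 t3_1000 rfl rfl

theorem t3_1002 : Good (Q 9) [v108, v38, v7, v458, v600, v377] :=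
  split_of 0 2 v109 1347302695 (by decide +kernel) t3_1001 (good_ofj c3_922) rfl rfl

theorem t3_1003 : Good (Q 9) [v108, v38, v7, v453, v600, v377] :=
  split_of 2 3 v458 1343280872 (by decide +kernel) t3_979 t3_1002 rfl rfl

theorem t3_1004 : Good (Q 9) [v108, v38, v7, v453, v597, v377] :=
  split_of 2 4 v600 1342848033 (by decide +kernel) t3_978 t3_1003 rfl rfl

theorem t3_1005 : Good (Q 9) [v108, v38, v7, v453, v597, v374] :=
  split_of 2 5 v377 1342428891 (by decide +kernel) t3_976 t3_1004 rfl rfl

theorem t3_1006 : Good (Q 9) [v120, v465, v38, v457, v599, v376] :=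
  split_of 0 2 v124 1326818823 (by decide +kernel) (good_ofj c3_926) (good_ofj c3_927) rfl rfl

theorem t3_1007 : Good (Q 9) [v120, v465, v38, v453, v599, v376] :=
  split_of 2 3 v457 1326231995 (by decide +kernel) (good_ofj c3_925) t3_1006 rfl rfl

theorem t3_1008 : Good (Q 7) [v121, v54, v473, v465, v605, v382] :=
  split_of 1 3 v472 1305831726 (by decide +kernel) (good_ofj c3_930) (good_ofj c3_931) rfl rfl

theorem t3_1009 : Good (Q 8) [v121, v54, v473, v465, v605, v382] :=
  P_of 7 8 0xffffffffffffffffffffffffffffff511443fcfe411052bcaf2d0b42d0b42bcafffffffffffffffffffffffffffffff2e8ba33ccf364d9715c52e8ba2f0bd2f0bd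
    (by decide +kernel) t3_1008

theorem t3_1010 : Good (Q 9) [v121, v54, v473, v465, v605, v382] :=
  P_of 8 9 0xffffffffffffffffffffffffffffff521443fcff405042bcaf2d4b42d4b42bcafffffffffffffffffffffffffffffff2e8ba344cf368d9fffff2e8ba2ecbc2ecbc
    (by decide +kernel) t3_1009

theorem t3_1011 : Good (Q 9) [v121, v54, v38, v473, v605, v382] :=
  split_of 0 2 v123 1319243250 (by decide +kernel) (good_ofj c3_932) (good_ofj c3_933) rfl rfl

theorem t3_1012 : Good (Q 9) [v121, v54, v38, v465, v605, v382] :=
  split_of 2 3 v473 1319089474 (by decide +kernel) t3_1010 t3_1011 rfl rfl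

theorem t3_1013 : Good (Q 9) [v121, v54, v38, v465, v599, v382] :=
  split_of 2 4 v605 1318989953 (by decide +kernel) (good_ofj c3_929) t3_1012 rfl rfl

theorem t3_1014 : Good (Q 9) [v121, v54, v38, v465, v599, v376] :=
  split_of 2 5 v382 1318892226 (by decide +kernel) (good_ofj c3_928) t3_1013 rfl rfl

theorem t3_1015 : Good (Q 9) [v121, v30, v38, v465, v599, v376] :=
  split_of 1 2 v54 1309864426 (by decide +kernel) t3_1014 (good_ofj c3_934) rfl rfl

theorem t3_1016 : Good (Q 9) [v124, v121, v38, v465, v599, v376] :=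
  split_of 2 5 v382 1318892226 (by decide +kernel) (good_ofj c3_935) (good_ofj c3_936) rfl rfl

theorem t3_1017 : Good (Q 9) [v120, v121, v38, v465, v599, v376] :=
  split_of 0 2 v124 1326818823 (by decide +kernel) t3_1016 (good_ofj c3_937) rfl rfl

theorem t3_1018 : Good (Q 9) [v120, v30, v38, v465, v599, v376] :=
  split_of 0 1 v121 1301234981 (by decide +kernel) t3_1015 t3_1017 rfl rfl

theorem t3_1019 : Good (Q 9) [v120, v30, v38, v453, v599, v376] :=
  split_of 1 3 v465 1300565277 (by decide +kernel) t3_1007 t3_1018 rfl rfl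

theorem t3_1020 : Good (Q 9) [v120, v30, v38, v453, v597, v376] :=
  split_of 1 4 v599 1300163123 (by decide +kernel) (good_ofj c3_924) t3_1019 rfl rfl

theorem t3_1021 : Good (Q 9) [v120, v30, v38, v453, v597, v374] :=
  split_of 1 5 v376 1299775629 (by decide +kernel) (good_ofj c3_923) t3_1020 rfl rfl

theorem t3_1022 : Good (Q 9) [v108, v30, v38, v453, v597, v374] :=
  split_of 0 1 v120 1317105264 (by decide +kernel) t3_1021 (good_ofj c3_938) rfl rfl

theorem t3_1023 : Good (Q 9) [v108, v30, v7, v453, v597, v374] :=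
  split_of 1 2 v38 1333169107 (by decide +kernel) t3_1005 t3_1022 rfl rfl

theorem t3_1024 : Good (Q 9) [v108, v30, v7, v449, v597, v374] :=
  split_of 1 3 v453 1314661650 (by decide +kernel) t3_975 t3_1023 rfl rfl

theorem t3_1025 : Good (Q 9) [v108, v30, v7, v449, v595, v374] :=
  split_of 1 4 v597 1312910633 (by decide +kernel) t3_967 t3_1024 rfl rfl

theorem t3_1026 : Good (Q 9) [v108, v30, v7, v449, v595, v369] :=
  split_of 1 5 v374 1311272127 (by decide +kernel) t3_959 t3_1025 rfl rfl

theorem t3_1027 : Good (Q 9) [v107, v30, v7, v449, v595, v369] :=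
  split_of 0 2 v108 1329531520 (by decide +kernel) t3_1026 (good_ofj c3_939) rfl rfl

theorem t3_1028 : Good (Q 9) [v107, v30, v7, v442, v595, v369] :=
  split_of 2 3 v449 1321273347 (by decide +kernel) (good_ofj c3_870) t3_1027 rfl rfl

theorem t3_1029 : Good (Q 9) [v107, v30, v7, v442, v484, v369] :=
  split_of 2 4 v595 1312910633 (by decide +kernel) (good_ofj c3_869) t3_1028 rfl rfl

theorem t3_1030 : Good (Q 10) [v107, v30, v7, v442, v484, v369] :=
  env_E _ t3_1029

theorem t3_1031 : Good (Q 10) [v107, v30, v7, v442, v484, v339] :=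
  split_of 2 5 v369 1305386625 (by decide +kernel) (good_ofj c3_868) t3_1030 rfl rfl

theorem t3_1032 : Good (Q 10) [v125, v30, v7, v442, v484, v339] :=
  split_of 0 2 v107 1245967015 (by decide +kernel) t3_1031 (good_ofj c3_940) rfl rfl

theorem t3_1033 : Good (Q 10) [v125, v30, v7, v397, v484, v339] :=
  split_of 0 3 v442 1202967926 (by decide +kernel) t3_953 t3_1032 rfl rfl

theorem t3_1034 : Good (Q 10) [v125, v30, v7, v397, v482, v339] :=
  split_of 0 4 v484 1156653316 (by decide +kernel) t3_809 t3_1033 rfl rfl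

theorem t3_1035 : Good (Q 10) [v125, v30, v7, v397, v482, v341] :=
  split_of 0 5 v339 1116736499 (by decide +kernel) t3_707 t3_1034 rfl rfl

theorem t3_1036 : Good (Q 10) [v343, v30, v286, v3, v399, v342] :=
  split_of 1 2 v287 1222692218 (by decide +kernel) (good_ofj c3_944) (good_ofj c3_945) rfl rfl

theorem t3_1037 : Good (Q 10) [v339, v30, v286, v3, v399, v342] :=
  split_of 0 1 v343 1260336929 (by decide +kernel) t3_1036 (good_ofj c3_946) rfl rfl

theorem t3_1038 : Good (Q 10) [v339, v30, v286, v3, v399, v340] :=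
  split_of 1 5 v342 1284967838 (by decide +kernel) (good_ofj c3_943) t3_1037 rfl rfl

theorem t3_1039 : Good (Q 10) [v339, v30, v286, v3, v398, v340] :=
  split_of 1 4 v399 1268403305 (by decide +kernel) (good_ofj c3_942) t3_1038 rfl rfl

theorem t3_1040 : Good (Q 10) [v339, v30, v286, v3, v398, v341] :=
  split_of 1 5 v340 1222692218 (by decide +kernel) (good_ofj c3_941) t3_1039 rfl rfl

theorem t3_1041 : Good (Q 9) [v636, v30, v477, v22, v403, v367] :=
  split_of 1 2 v481 1275006447 (by decide +kernel) (good_ofj c3_955) (good_ofj c3_956) rfl rfl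

theorem t3_1042 : Good (Q 9) [v439, v30, v477, v22, v403, v367] :=
  split_of 0 1 v636 1284723734 (by decide +kernel) t3_1041 (good_ofj c3_957) rfl rfl

theorem t3_1043 : Good (Q 9) [v439, v30, v477, v10, v403, v367] :=
  split_of 1 3 v22 1303729140 (by decide +kernel) (good_ofj c3_954) t3_1042 rfl rfl

theorem t3_1044 : Good (Q 10) [v439, v30, v477, v10, v403, v367] :=
  env_E _ t3_1043

theorem t3_1045 : Good (Q 10) [v439, v30, v477, v10, v403, v343] :=
  split_of 1 5 v367 1282767547 (by decide +kernel) (good_ofj c3_953) t3_1044 rfl rfl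

theorem t3_1046 : Good (Q 10) [v439, v30, v287, v10, v403, v343] :=
  split_of 1 2 v477 1264886921 (by decide +kernel) (good_ofj c3_952) t3_1045 rfl rfl

theorem t3_1047 : Good (Q 10) [v439, v30, v287, v10, v399, v343] :=
  split_of 1 4 v403 1293212810 (by decide +kernel) (good_ofj c3_951) t3_1046 rfl rfl

theorem t3_1048 : Good (Q 10) [v426, v30, v287, v10, v399, v343] :=
  split_of 0 1 v439 1270403944 (by decide +kernel) t3_1047 (good_ofj c3_958) rfl rfl

theorem t3_1049 : Good (Q 10) [v426, v30, v287, v3, v399, v343] :=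
  split_of 1 3 v10 1307275754 (by decide +kernel) (good_ofj c3_950) t3_1048 rfl rfl

theorem t3_1050 : Good (Q 10) [v426, v30, v286, v3, v399, v343] :=
  split_of 1 2 v287 1222692218 (by decide +kernel) (good_ofj c3_949) t3_1049 rfl rfl

theorem t3_1051 : Good (Q 10) [v426, v30, v286, v3, v399, v339] :=
  split_of 1 5 v343 1260336929 (by decide +kernel) (good_ofj c3_948) t3_1050 rfl rfl

theorem t3_1052 : Good (Q 10) [v426, v30, v286, v3, v398, v339] :=
  split_of 1 4 v399 1268403305 (by decide +kernel) (good_ofj c3_947) t3_1051 rfl rfl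

theorem t3_1053 : Good (Q 10) [v106, v30, v287, v10, v585, v343] :=
  split_of 2 5 v478 1261477506 (by decide +kernel) (good_ofj c3_964) (good_ofj c3_965) rfl rfl

theorem t3_1054 : Good (Q 10) [v84, v30, v287, v10, v585, v343] :=
  split_of 0 1 v106 1281296482 (by decide +kernel) t3_1053 (good_ofj c3_966) rfl rfl

theorem t3_1055 : Good (Q 10) [v84, v30, v287, v10, v584, v343] :=
  split_of 1 4 v585 1301948573 (by decide +kernel) (good_ofj c3_963) t3_1054 rfl rfl

theorem t3_1056 : Good (Q 10) [v84, v30, v287, v3, v584, v343] :=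
  split_of 1 3 v10 1307275754 (by decide +kernel) (good_ofj c3_962) t3_1055 rfl rfl

theorem t3_1057 : Good (Q 10) [v84, v30, v287, v3, v426, v343] :=
  split_of 3 4 v584 1269404413 (by decide +kernel) (good_ofj c3_961) t3_1056 rfl rfl

theorem t3_1058 : Good (Q 10) [v84, v30, v286, v3, v426, v343] :=
  split_of 1 2 v287 1222692218 (by decide +kernel) (good_ofj c3_960) t3_1057 rfl rfl

theorem t3_1059 : Good (Q 10) [v84, v30, v286, v3, v426, v339] :=
  split_of 1 5 v343 1260336929 (by decide +kernel) (good_ofj c3_959) t3_1058 rfl rfl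

theorem t3_1060 : Good (Q 10) [v290, v30, v286, v84, v426, v339] :=
  split_of 2 5 v637 1172108888 (by decide +kernel) (good_ofj c3_967) (good_ofj c3_968) rfl rfl

theorem t3_1061 : Good (Q 10) [v291, v30, v286, v84, v426, v339] :=
  split_of 0 2 v290 1149226036 (by decide +kernel) t3_1060 (good_ofj c3_969) rfl rfl

theorem t3_1062 : Good (Q 10) [v125, v30, v286, v84, v426, v339] :=
  split_of 0 2 v291 1128250058 (by decide +kernel) t3_1061 (good_ofj c3_970) rfl rfl

theorem t3_1063 : Good (Q 10) [v125, v30, v286, v3, v426, v339] :=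
  split_of 0 3 v84 1229127558 (by decide +kernel) t3_1059 t3_1062 rfl rfl

theorem t3_1064 : Good (Q 10) [v125, v30, v286, v3, v398, v339] :=
  split_of 0 4 v426 1184875434 (by decide +kernel) t3_1052 t3_1063 rfl rfl

theorem t3_1065 : Good (Q 10) [v125, v30, v286, v3, v398, v341] :=
  split_of 0 5 v339 1116736499 (by decide +kernel) t3_1040 t3_1064 rfl rfl

theorem t3_1066 : Good (Q 9) [v367, v30, v310, v129, v20, v346] :=
  split_of 1 4 v26 1292097425 (by decide +kernel) (good_ofj c3_980) (good_ofj c3_981) rfl rfl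

theorem t3_1067 : Good (Q 9) [v367, v30, v310, v129, v20, v342] :=
  split_of 1 5 v346 1289073195 (by decide +kernel) (good_ofj c3_979) t3_1066 rfl rfl

theorem t3_1068 : Good (Q 9) [v367, v30, v310, v128, v20, v342] :=
  split_of 1 3 v129 1303729140 (by decide +kernel) (good_ofj c3_978) t3_1067 rfl rfl

theorem t3_1069 : Good (Q 10) [v367, v30, v310, v128, v20, v342] :=
  env_E _ t3_1068

theorem t3_1070 : Good (Q 10) [v343, v30, v310, v128, v20, v342] :=
  split_of 0 1 v367 1282767547 (by decide +kernel) t3_1069 (good_ofj c3_982) rfl rfl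

theorem t3_1071 : Good (Q 10) [v343, v30, v307, v128, v20, v342] :=
  split_of 1 2 v310 1264886921 (by decide +kernel) (good_ofj c3_977) t3_1070 rfl rfl

theorem t3_1072 : Good (Q 10) [v343, v30, v307, v128, v1, v342] :=
  split_of 1 4 v20 1297535559 (by decide +kernel) (good_ofj c3_976) t3_1071 rfl rfl

theorem t3_1073 : Good (Q 10) [v343, v30, v307, v126, v1, v342] :=
  split_of 1 3 v128 1307275754 (by decide +kernel) (good_ofj c3_975) t3_1072 rfl rfl

theorem t3_1074 : Good (Q 10) [v343, v30, v305, v126, v1, v342] :=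
  split_of 1 2 v307 1222692218 (by decide +kernel) (good_ofj c3_974) t3_1073 rfl rfl

theorem t3_1075 : Good (Q 10) [v339, v30, v305, v126, v1, v342] :=
  split_of 0 1 v343 1260336929 (by decide +kernel) t3_1074 (good_ofj c3_983) rfl rfl

theorem t3_1076 : Good (Q 10) [v339, v30, v305, v126, v1, v340] :=
  split_of 1 5 v342 1284967838 (by decide +kernel) (good_ofj c3_973) t3_1075 rfl rfl

theorem t3_1077 : Good (Q 10) [v339, v30, v305, v126, v4, v340] :=
  split_of 1 4 v1 1280313892 (by decide +kernel) (good_ofj c3_972) t3_1076 rfl rfl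

theorem t3_1078 : Good (Q 10) [v339, v30, v305, v126, v4, v341] :=
  split_of 1 5 v340 1222692218 (by decide +kernel) (good_ofj c3_971) t3_1077 rfl rfl

theorem t3_1079 : Good (Q 9) [v151, v30, v310, v128, v20, v367] :=
  split_of 0 3 v169 1299805444 (by decide +kernel) (good_ofj c3_991) (good_ofj c3_992) rfl rfl

theorem t3_1080 : Good (Q 10) [v151, v30, v310, v128, v20, v367] :=
  env_E _ t3_1079

theorem t3_1081 : Good (Q 10) [v151, v30, v310, v128, v20, v343] :=
  split_of 1 5 v367 1282767547 (by decide +kernel) (good_ofj c3_990) t3_1080 rfl rfl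

theorem t3_1082 : Good (Q 10) [v151, v30, v307, v128, v20, v343] :=
  split_of 1 2 v310 1264886921 (by decide +kernel) (good_ofj c3_989) t3_1081 rfl rfl

theorem t3_1083 : Good (Q 10) [v151, v30, v307, v128, v1, v343] :=
  split_of 1 4 v20 1297535559 (by decide +kernel) (good_ofj c3_988) t3_1082 rfl rfl

theorem t3_1084 : Good (Q 10) [v62, v30, v307, v128, v1, v343] :=
  split_of 0 1 v151 1273393141 (by decide +kernel) t3_1083 (good_ofj c3_993) rfl rfl

theorem t3_1085 : Good (Q 10) [v62, v30, v307, v126, v1, v343] :=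
  split_of 1 3 v128 1307275754 (by decide +kernel) (good_ofj c3_987) t3_1084 rfl rfl

theorem t3_1086 : Good (Q 10) [v62, v30, v305, v126, v1, v343] :=
  split_of 1 2 v307 1222692218 (by decide +kernel) (good_ofj c3_986) t3_1085 rfl rfl

theorem t3_1087 : Good (Q 10) [v62, v30, v305, v126, v1, v339] :=
  split_of 1 5 v343 1260336929 (by decide +kernel) (good_ofj c3_985) t3_1086 rfl rfl

theorem t3_1088 : Good (Q 10) [v62, v30, v305, v126, v4, v339] :=
  split_of 1 4 v1 1280313892 (by decide +kernel) (good_ofj c3_984) t3_1087 rfl rfl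

theorem t3_1089 : Good (Q 10) [v152, v30, v307, v169, v151, v343] :=
  split_of 0 1 v168 1278344175 (by decide +kernel) (good_ofj c3_998) (good_ofj c3_999) rfl rfl

theorem t3_1090 : Good (Q 10) [v152, v30, v307, v167, v151, v343] :=
  split_of 1 3 v169 1299805444 (by decide +kernel) (good_ofj c3_997) t3_1089 rfl rfl

theorem t3_1091 : Good (Q 10) [v152, v30, v307, v167, v62, v343] :=
  split_of 1 4 v151 1273393141 (by decide +kernel) (good_ofj c3_996) t3_1090 rfl rfl

theorem t3_1092 : Good (Q 9) [v168, v30, v310, v128, v169, v343] :=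
  split_of 3 5 v489 1296577437 (by decide +kernel) (good_ofj c3_1003) (good_ofj c3_1004) rfl rfl

theorem t3_1093 : Good (Q 10) [v168, v30, v310, v128, v169, v343] :=
  env_E _ t3_1092

theorem t3_1094 : Good (Q 10) [v168, v30, v307, v128, v169, v343] :=
  split_of 1 2 v310 1264886921 (by decide +kernel) (good_ofj c3_1002) t3_1093 rfl rfl

theorem t3_1095 : Good (Q 10) [v152, v30, v307, v128, v169, v343] :=
  split_of 0 1 v168 1278344175 (by decide +kernel) t3_1094 (good_ofj c3_1005) rfl rfl

theorem t3_1096 : Good (Q 10) [v152, v30, v307, v128, v167, v343] :=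
  split_of 1 4 v169 1299805444 (by decide +kernel) (good_ofj c3_1001) t3_1095 rfl rfl

theorem t3_1097 : Good (Q 10) [v152, v30, v307, v126, v167, v343] :=
  split_of 1 3 v128 1307275754 (by decide +kernel) (good_ofj c3_1000) t3_1096 rfl rfl

theorem t3_1098 : Good (Q 10) [v152, v30, v307, v126, v62, v343] :=
  split_of 3 4 v167 1244927842 (by decide +kernel) t3_1091 t3_1097 rfl rfl

theorem t3_1099 : Good (Q 10) [v152, v30, v307, v126, v62, v339] :=
  split_of 1 5 v343 1260336929 (by decide +kernel) (good_ofj c3_995) t3_1098 rfl rfl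

theorem t3_1100 : Good (Q 10) [v152, v30, v305, v126, v62, v339] :=
  split_of 1 2 v307 1222692218 (by decide +kernel) (good_ofj c3_994) t3_1099 rfl rfl

theorem t3_1101 : Good (Q 10) [v320, v30, v307, v152, v151, v343] :=
  split_of 1 3 v168 1278344175 (by decide +kernel) (good_ofj c3_1009) (good_ofj c3_1010) rfl rfl

theorem t3_1102 : Good (Q 10) [v320, v30, v307, v152, v62, v343] :=
  split_of 1 4 v151 1273393141 (by decide +kernel) (good_ofj c3_1008) t3_1101 rfl rfl

theorem t3_1103 : Good (Q 10) [v319, v30, v307, v152, v62, v343] :=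
  split_of 0 1 v320 1236633639 (by decide +kernel) t3_1102 (good_ofj c3_1011) rfl rfl

theorem t3_1104 : Good (Q 10) [v319, v30, v307, v152, v62, v339] :=
  split_of 1 5 v343 1260336929 (by decide +kernel) (good_ofj c3_1007) t3_1103 rfl rfl

theorem t3_1105 : Good (Q 10) [v319, v30, v305, v152, v62, v339] :=
  split_of 1 2 v307 1222692218 (by decide +kernel) (good_ofj c3_1006) t3_1104 rfl rfl

theorem t3_1106 : Good (Q 10) [v321, v30, v305, v152, v62, v339] :=
  split_of 0 2 v319 1069707140 (by decide +kernel) t3_1105 (good_ofj c3_1012) rfl rfl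

theorem t3_1107 : Good (Q 10) [v125, v30, v305, v152, v62, v339] :=
  split_of 0 2 v321 1055249866 (by decide +kernel) t3_1106 (good_ofj c3_1013) rfl rfl

theorem t3_1108 : Good (Q 10) [v125, v30, v305, v126, v62, v339] :=
  split_of 0 3 v152 1202967926 (by decide +kernel) t3_1100 t3_1107 rfl rfl

theorem t3_1109 : Good (Q 10) [v125, v30, v305, v126, v4, v339] :=
  split_of 0 4 v62 1184875434 (by decide +kernel) t3_1088 t3_1108 rfl rfl

theorem t3_1110 : Good (Q 10) [v125, v30, v305, v126, v4, v341] :=
  split_of 0 5 v339 1116736499 (by decide +kernel) t3_1078 t3_1109 rfl rfl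

theorem t3_1111 : Good (Q 10) [v296, v30, v305, v298, v4, v341] :=
  split_of 1 3 v297 1161452763 (by decide +kernel) (good_ofj c3_1014) (good_ofj c3_1015) rfl rfl

theorem t3_1112 : Good (Q 10) [v343, v30, v307, v296, v1, v342] :=
  split_of 1 3 v302 1222692218 (by decide +kernel) (good_ofj c3_1020) (good_ofj c3_1021) rfl rfl

theorem t3_1113 : Good (Q 10) [v343, v30, v305, v296, v1, v342] :=
  split_of 1 2 v307 1222692218 (by decide +kernel) (good_ofj c3_1019) t3_1112 rfl rfl

theorem t3_1114 : Good (Q 10) [v339, v30, v305, v296, v1, v342] :=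
  split_of 0 1 v343 1260336929 (by decide +kernel) t3_1113 (good_ofj c3_1022) rfl rfl

theorem t3_1115 : Good (Q 10) [v339, v30, v305, v296, v1, v340] :=
  split_of 1 5 v342 1284967838 (by decide +kernel) (good_ofj c3_1018) t3_1114 rfl rfl

theorem t3_1116 : Good (Q 10) [v339, v30, v305, v296, v4, v340] :=
  split_of 1 4 v1 1280313892 (by decide +kernel) (good_ofj c3_1017) t3_1115 rfl rfl

theorem t3_1117 : Good (Q 10) [v339, v30, v305, v296, v4, v341] :=
  split_of 1 5 v340 1222692218 (by decide +kernel) (good_ofj c3_1016) t3_1116 rfl rfl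

theorem t3_1118 : Good (Q 10) [v151, v30, v307, v302, v20, v343] :=
  split_of 1 2 v310 1264886921 (by decide +kernel) (good_ofj c3_1028) (good_ofj c3_1029) rfl rfl

theorem t3_1119 : Good (Q 10) [v151, v30, v307, v302, v1, v343] :=
  split_of 1 4 v20 1297535559 (by decide +kernel) (good_ofj c3_1027) t3_1118 rfl rfl

theorem t3_1120 : Good (Q 10) [v62, v30, v307, v302, v1, v343] :=
  split_of 0 1 v151 1273393141 (by decide +kernel) t3_1119 (good_ofj c3_1030) rfl rfl

theorem t3_1121 : Good (Q 10) [v62, v30, v307, v296, v1, v343] :=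
  split_of 1 3 v302 1222692218 (by decide +kernel) (good_ofj c3_1026) t3_1120 rfl rfl

theorem t3_1122 : Good (Q 10) [v62, v30, v305, v296, v1, v343] :=
  split_of 1 2 v307 1222692218 (by decide +kernel) (good_ofj c3_1025) t3_1121 rfl rfl

theorem t3_1123 : Good (Q 10) [v62, v30, v305, v296, v1, v339] :=
  split_of 1 5 v343 1260336929 (by decide +kernel) (good_ofj c3_1024) t3_1122 rfl rfl

theorem t3_1124 : Good (Q 10) [v62, v30, v305, v296, v4, v339] :=
  split_of 1 4 v1 1280313892 (by decide +kernel) (good_ofj c3_1023) t3_1123 rfl rfl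

theorem t3_1125 : Good (Q 10) [v320, v30, v307, v302, v62, v343] :=
  split_of 1 4 v151 1273393141 (by decide +kernel) (good_ofj c3_1034) (good_ofj c3_1035) rfl rfl

theorem t3_1126 : Good (Q 10) [v319, v30, v307, v302, v62, v343] :=
  split_of 0 1 v320 1236633639 (by decide +kernel) t3_1125 (good_ofj c3_1036) rfl rfl

theorem t3_1127 : Good (Q 10) [v319, v30, v307, v296, v62, v343] :=
  split_of 1 3 v302 1222692218 (by decide +kernel) (good_ofj c3_1033) t3_1126 rfl rfl

theorem t3_1128 : Good (Q 10) [v319, v30, v305, v296, v62, v343] :=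
  split_of 1 2 v307 1222692218 (by decide +kernel) (good_ofj c3_1032) t3_1127 rfl rfl

theorem t3_1129 : Good (Q 10) [v319, v30, v305, v296, v62, v339] :=
  split_of 1 5 v343 1260336929 (by decide +kernel) (good_ofj c3_1031) t3_1128 rfl rfl

theorem t3_1130 : Good (Q 10) [v321, v30, v305, v296, v62, v339] :=
  split_of 0 2 v319 1069707140 (by decide +kernel) t3_1129 (good_ofj c3_1037) rfl rfl

theorem t3_1131 : Good (Q 10) [v125, v30, v305, v296, v62, v339] :=
  split_of 0 2 v321 1055249866 (by decide +kernel) t3_1130 (good_ofj c3_1038) rfl rfl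

theorem t3_1132 : Good (Q 10) [v125, v30, v305, v296, v4, v339] :=
  split_of 0 4 v62 1184875434 (by decide +kernel) t3_1124 t3_1131 rfl rfl

theorem t3_1133 : Good (Q 10) [v125, v30, v305, v296, v4, v341] :=
  split_of 0 5 v339 1116736499 (by decide +kernel) t3_1117 t3_1132 rfl rfl

theorem t3_1134 : Good (Q 10) [v125, v30, v305, v298, v4, v341] :=
  split_of 0 3 v296 1014622444 (by decide +kernel) t3_1111 t3_1133 rfl rfl

theorem t3_1135 : Good (Q 5) [v339, v336, v286, v3, v398, v341] :=
  split_of 1 5 v490 0 (by decide +kernel) (good_ofj c3_1039) (good_ofj c3_1040) rfl rfl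

theorem t3_1136 : Good (Q 10) [v339, v336, v286, v3, v398, v341] :=
  fin_of 5 0xffffffffffffffffffffffffffffffffffffffffffffffffff16c60ffffffffff
    (by decide +kernel) t3_1135

theorem t3_1137 : Good (Q 10) [v332, v336, v328, v331, v639, v491] :=
  split_of 1 5 v492 534060018 (by decide +kernel) (good_ofj c3_1047) (good_ofj c3_1048) rfl rfl

theorem t3_1138 : Good (Q 10) [v327, v336, v328, v331, v639, v491] :=
  split_of 0 1 v332 0 (by decide +kernel) t3_1137 (good_ofj c3_1049) rfl rfl

theorem t3_1139 : Good (Q 10) [v327, v336, v328, v326, v639, v491] :=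
  split_of 1 3 v331 587809108 (by decide +kernel) (good_ofj c3_1046) t3_1138 rfl rfl

theorem t3_1140 : Good (Q 10) [v327, v336, v328, v326, v638, v491] :=
  split_of 1 4 v639 531219219 (by decide +kernel) (good_ofj c3_1045) t3_1139 rfl rfl

theorem t3_1141 : Good (Q 10) [v327, v336, v286, v326, v638, v491] :=
  split_of 1 2 v328 731669392 (by decide +kernel) (good_ofj c3_1044) t3_1140 rfl rfl

theorem t3_1142 : Good (Q 10) [v327, v336, v286, v326, v638, v339] :=
  split_of 1 5 v491 805306368 (by decide +kernel) (good_ofj c3_1043) t3_1141 rfl rfl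

theorem t3_1143 : Good (Q 10) [v125, v336, v286, v326, v638, v339] :=
  split_of 0 1 v327 0 (by decide +kernel) t3_1142 (good_ofj c3_1050) rfl rfl

theorem t3_1144 : Good (Q 10) [v125, v336, v286, v3, v638, v339] :=
  split_of 1 3 v326 886354346 (by decide +kernel) (good_ofj c3_1042) t3_1143 rfl rfl

theorem t3_1145 : Good (Q 10) [v125, v336, v286, v3, v398, v339] :=
  split_of 1 4 v638 795238983 (by decide +kernel) (good_ofj c3_1041) t3_1144 rfl rfl

theorem t3_1146 : Good (Q 10) [v125, v336, v286, v3, v398, v341] :=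
  split_of 0 5 v339 1116736499 (by decide +kernel) t3_1136 t3_1145 rfl rfl

end Pool.Agent.U316.Ep
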