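import Pool.Agent.U316.Ep.Top0
import Pool.Agent.U316.Ep.Top1
import Pool.Agent.U316.Ep.Top2
import Pool.Agent.U316.Ep.Top3

/-!
# Bisections
-/
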