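import Pool.Agent.U316.Ep.Cert.P0
import Pool.Agent.U316.Ep.Cert.P1
import Pool.Agent.U316.Ep.Cert.P2
import Pool.Agent.U316.Ep.Cert.P3
import Pool.Agent.U316.Ep.Cert.P4
import Pool.Agent.U316.Ep.Cert.P5
import Pool.Agent.U316.Ep.Cert.P6
import Pool.Agent.U316.Ep.Cert.P7
import Pool.Agent.U316.Ep.Cert.P8
import Pool.Agent.U316.Ep.Cert.P9
import Pool.Agent.U316.Ep.Cert.P10
import Pool.Agent.U316.Ep.Cert.P11
import Pool.Agent.U316.Ep.Cert.P12
import Pool.Agent.U316.Ep.Cert.P13
import Pool.Agent.U316.Ep.Cert.P14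
import Pool.Agent.U316.Ep.Cert.P15
import Pool.Agent.U316.Ep.Cert.P16
import Pool.Agent.U316.Ep.Cert.P17
import Pool.Agent.U316.Ep.Gd

/-!
# Bisections
-/

set_option autoImplicit false
set_option maxRecDepth 100000

namespace Pool.Agent.U316.Ep

theorem t0_0 : Good (Q 10) [v0, v1, v7, v6, v2, v8] :=
  split_of 0 4 v9 1271401906 (by decide +kernel) (good_ofj c0_3) (good_ofj c0_4) rfl rfl

theorem t0_1 : Good (Q 10) [v0, v1, v7, v6, v2, v5] :=
  split_of 2 5 v8 1278344175 (by decide +kernel) (good_ofj c0_2) t0_0 rfl rfl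

theorem t0_2 : Good (Q 10) [v0, v1, v7, v3, v2, v5] :=
  split_of 0 3 v6 1266396334 (by decide +kernel) (good_ofj c0_1) t0_1 rfl rfl

theorem t0_3 : Good (Q 10) [v0, v1, v7, v3, v4, v5] :=
  split_of 2 4 v2 1293935275 (by decide +kernel) (good_ofj c0_0) t0_2 rfl rfl

theorem t0_4 : Good (Q 10) [v12, v10, v7, v6, v1, v8] :=
  split_of 2 4 v13 1334301791 (by decide +kernel) (good_ofj c0_7) (good_ofj c0_8) rfl rfl

theorem t0_5 : Good (Q 10) [v11, v10, v7, v6, v1, v8] :=
  split_of 0 2 v12 1303966181 (by decide +kernel) t0_4 (good_ofj c0_9) rfl rfl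

theorem t0_6 : Good (Q 10) [v11, v10, v7, v6, v1, v5] :=
  split_of 2 5 v8 1278344175 (by decide +kernel) (good_ofj c0_6) t0_5 rfl rfl

theorem t0_7 : Good (Q 10) [v0, v10, v7, v6, v1, v11] :=
  split_of 0 4 v14 1255753845 (by decide +kernel) (good_ofj c0_10) (good_ofj c0_11) rfl rfl

theorem t0_8 : Good (Q 10) [v0, v10, v7, v6, v1, v5] :=
  split_of 0 5 v11 1161452763 (by decide +kernel) t0_6 t0_7 rfl rfl

theorem t0_9 : Good (Q 10) [v0, v10, v7, v3, v1, v5] :=
  split_of 0 3 v6 1266396334 (by decide +kernel) (good_ofj c0_5) t0_8 rfl rfl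

theorem t0_10 : Good (Q 10) [v14, v15, v7, v10, v1, v8] :=
  split_of 2 4 v13 1334301791 (by decide +kernel) (good_ofj c0_13) (good_ofj c0_14) rfl rfl

theorem t0_11 : Good (Q 10) [v16, v15, v7, v10, v17, v8] :=
  split_of 3 5 v18 1308924275 (by decide +kernel) (good_ofj c0_16) (good_ofj c0_17) rfl rfl

theorem t0_12 : Good (Q 10) [v16, v15, v7, v10, v14, v8] :=
  split_of 2 4 v17 1328561933 (by decide +kernel) (good_ofj c0_15) t0_11 rfl rfl

theorem t0_13 : Good (Q 10) [v0, v15, v7, v10, v14, v8] :=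
  split_of 0 3 v16 1277357036 (by decide +kernel) t0_12 (good_ofj c0_18) rfl rfl

theorem t0_14 : Good (Q 10) [v0, v15, v7, v10, v1, v8] :=
  split_of 0 4 v14 1255753845 (by decide +kernel) t0_10 t0_13 rfl rfl

theorem t0_15 : Good (Q 10) [v0, v15, v7, v10, v1, v5] :=
  split_of 2 5 v8 1278344175 (by decide +kernel) (good_ofj c0_12) t0_14 rfl rfl

theorem t0_16 : Good (Q 9) [v28, v30, v25, v22, v26, v27] :=
  split_of 1 3 v29 1293604245 (by decide +kernel) (good_ofj c0_25) (good_ofj c0_26) rfl rfl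

theorem t0_17 : Good (Q 9) [v24, v30, v25, v22, v26, v27] :=
  split_of 0 1 v28 1299835258 (by decide +kernel) t0_16 (good_ofj c0_27) rfl rfl

theorem t0_18 : Good (Q 9) [v24, v30, v25, v22, v26, v21] :=
  split_of 1 5 v27 1289558025 (by decide +kernel) (good_ofj c0_24) t0_17 rfl rfl

theorem t0_19 : Good (Q 9) [v24, v30, v25, v22, v20, v21] :=
  split_of 1 4 v26 1292097425 (by decide +kernel) (good_ofj c0_23) t0_18 rfl rfl

theorem t0_20 : Good (Q 9) [v24, v30, v23, v22, v20, v21] :=
  split_of 1 2 v25 1321013612 (by decide +kernel) (good_ofj c0_22) t0_19 rfl rfl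

theorem t0_21 : Good (Q 9) [v19, v30, v23, v22, v20, v21] :=
  split_of 0 1 v24 1311740689 (by decide +kernel) t0_20 (good_ofj c0_28) rfl rfl

theorem t0_22 : Good (Q 9) [v19, v30, v23, v10, v20, v21] :=
  split_of 1 3 v22 1303729140 (by decide +kernel) (good_ofj c0_21) t0_21 rfl rfl

theorem t0_23 : Good (Q 9) [v28, v30, v32, v25, v26, v27] :=
  split_of 1 3 v33 1302360762 (by decide +kernel) (good_ofj c0_33) (good_ofj c0_34) rfl rfl

theorem t0_24 : Good (Q 9) [v24, v30, v32, v25, v26, v27] :=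
  split_of 0 1 v28 1299835258 (by decide +kernel) t0_23 (good_ofj c0_35) rfl rfl

theorem t0_25 : Good (Q 9) [v24, v30, v31, v25, v26, v27] :=
  split_of 1 2 v32 1315706387 (by decide +kernel) (good_ofj c0_32) t0_24 rfl rfl

theorem t0_26 : Good (Q 9) [v24, v30, v31, v25, v26, v21] :=
  split_of 1 5 v27 1289558025 (by decide +kernel) (good_ofj c0_31) t0_25 rfl rfl

theorem t0_27 : Good (Q 9) [v24, v30, v31, v25, v20, v21] :=
  split_of 1 4 v26 1292097425 (by decide +kernel) (good_ofj c0_30) t0_26 rfl rfl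

theorem t0_28 : Good (Q 9) [v24, v30, v31, v23, v20, v21] :=
  split_of 1 3 v25 1321013612 (by decide +kernel) (good_ofj c0_29) t0_27 rfl rfl

theorem t0_29 : Good (Q 9) [v28, v30, v35, v33, v32, v27] :=
  split_of 1 5 v36 1285543406 (by decide +kernel) (good_ofj c0_41) (good_ofj c0_42) rfl rfl

theorem t0_30 : Good (Q 9) [v28, v30, v35, v25, v32, v27] :=
  split_of 1 3 v33 1302360762 (by decide +kernel) (good_ofj c0_40) t0_29 rfl rfl

theorem t0_31 : Good (Q 9) [v24, v30, v35, v25, v32, v27] :=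
  split_of 0 1 v28 1299835258 (by decide +kernel) t0_30 (good_ofj c0_43) rfl rfl

theorem t0_32 : Good (Q 9) [v24, v30, v35, v25, v31, v27] :=
  split_of 1 4 v32 1315706387 (by decide +kernel) (good_ofj c0_39) t0_31 rfl rfl

theorem t0_33 : Good (Q 9) [v24, v30, v34, v25, v31, v27] :=
  split_of 1 2 v35 1315109598 (by decide +kernel) (good_ofj c0_38) t0_32 rfl rfl

theorem t0_34 : Good (Q 9) [v24, v30, v34, v25, v31, v21] :=
  split_of 1 5 v27 1289558025 (by decide +kernel) (good_ofj c0_37) t0_33 rfl rfl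

theorem t0_35 : Good (Q 9) [v24, v30, v34, v23, v31, v21] :=
  split_of 1 3 v25 1321013612 (by decide +kernel) (good_ofj c0_36) t0_34 rfl rfl

theorem t0_36 : Good (Q 9) [v42, v43, v7, v44, v41, v40] :=
  split_of 2 5 v45 1351770736 (by decide +kernel) (good_ofj c0_48) (good_ofj c0_49) rfl rfl

theorem t0_37 : Good (Q 9) [v42, v43, v7, v39, v41, v40] :=
  split_of 2 3 v44 1352069164 (by decide +kernel) (good_ofj c0_47) t0_36 rfl rfl

theorem t0_38 : Good (Q 9) [v37, v43, v7, v39, v41, v40] :=
  split_of 0 2 v42 1350220494 (by decide +kernel) t0_37 (good_ofj c0_50) rfl rfl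

theorem t0_39 : Good (Q 9) [v37, v38, v43, v46, v41, v40] :=
  split_of 1 5 v47 1343013435 (by decide +kernel) (good_ofj c0_52) (good_ofj c0_53) rfl rfl

theorem t0_40 : Good (Q 9) [v37, v38, v43, v39, v41, v40] :=
  split_of 1 3 v46 1344546372 (by decide +kernel) (good_ofj c0_51) t0_39 rfl rfl

theorem t0_41 : Good (Q 9) [v37, v38, v7, v39, v41, v40] :=
  split_of 1 2 v43 1347746544 (by decide +kernel) t0_38 t0_40 rfl rfl

theorem t0_42 : Good (Q 9) [v37, v38, v7, v39, v31, v40] :=
  split_of 2 4 v41 1349100556 (by decide +kernel) (good_ofj c0_46) t0_41 rfl rfl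

theorem t0_43 : Good (Q 9) [v37, v38, v7, v39, v31, v34] :=
  split_of 2 5 v40 1348643751 (by decide +kernel) (good_ofj c0_45) t0_42 rfl rfl

theorem t0_44 : Good (Q 9) [v37, v38, v7, v23, v31, v34] :=
  split_of 2 3 v39 1349823198 (by decide +kernel) (good_ofj c0_44) t0_43 rfl rfl

theorem t0_45 : Good (Q 9) [v24, v38, v7, v23, v31, v34] :=
  split_of 0 2 v37 1342484791 (by decide +kernel) t0_44 (good_ofj c0_54) rfl rfl

theorem t0_46 : Good (Q 9) [v24, v25, v38, v23, v31, v34] :=
  split_of 0 3 v48 1332091271 (by decide +kernel) (good_ofj c0_55) (good_ofj c0_56) rfl rfl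

theorem t0_47 : Good (Q 7) [v49, v35, v38, v25, v31, v34] :=
  split_of 3 5 v50 1330670403 (by decide +kernel) (good_ofj c0_57) (good_ofj c0_58) rfl rfl

theorem t0_48 : Good (Q 8) [v49, v35, v38, v25, v31, v34] :=
  P_of 7 8 0xffffffffffffffffffffffffffffff5e5773c8f33a4e92c8b12e0b82c8b12e0b8ffffffffffffffffffffffffffffff2f4be3a0e73a0e76258a2d0b42d0b42d0b4
    (by decide +kernel) t0_47

theorem t0_49 : Good (Q 9) [v49, v35, v38, v25, v31, v34] :=
  P_of 8 9 0xfffffffffffffffffffffffffffffffffff3d0f43ace82c0b02e4ba2ccb22d8b8ffffffffffffffffffffffffffffff2f4be388e63a4e9fffff2d0b32d0b32d0b3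
    (by decide +kernel) t0_48

theorem t0_50 : Good (Q 9) [v24, v35, v38, v25, v31, v34] :=
  split_of 0 2 v49 1325472642 (by decide +kernel) t0_49 (good_ofj c0_59) rfl rfl

theorem t0_51 : Good (Q 7) [v49, v32, v38, v25, v31, v35] :=
  split_of 4 5 v51 1328829869 (by decide +kernel) (good_ofj c0_60) (good_ofj c0_61) rfl rfl

theorem t0_52 : Good (Q 8) [v49, v32, v38, v25, v31, v35] :=
  P_of 7 8 0xffffffffffffffffffffffffffffff5bd753ccf23bcec2c4b12dcb82c4b12dcb8ffffffffffffffffffffffffffffff2f0bd390e6390e664d8d2ccb32d8b52d8b5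
    (by decide +kernel) t0_51

theorem t0_53 : Good (Q 9) [v49, v32, v38, v25, v31, v35] :=
  P_of 8 9 0xffffffffffffffffffffffffffffff5bd6f3ccf33bcef2c4b12dcb72c4b12dcb7ffffffffffffffffffffffffffffff2f0bc390e4390e4fffff2ccb32d8b62d8b6
    (by decide +kernel) t0_52

theorem t0_54 : Good (Q 9) [v24, v32, v38, v25, v31, v35] :=
  split_of 0 2 v49 1325472642 (by decide +kernel) t0_53 (good_ofj c0_62) rfl rfl

theorem t0_55 : Good (Q 9) [v52, v54, v38, v53, v32, v35] :=
  split_of 2 5 v55 1325079639 (by decide +kernel) (good_ofj c0_64) (good_ofj c0_65) rfl rfl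

theorem t0_56 : Good (Q 9) [v52, v54, v38, v25, v32, v35] :=
  split_of 1 3 v53 1316091829 (by decide +kernel) (good_ofj c0_63) t0_55 rfl rfl

theorem t0_57 : Good (Q 9) [v28, v54, v38, v25, v32, v35] :=
  split_of 0 2 v52 1318899466 (by decide +kernel) t0_56 (good_ofj c0_66) rfl rfl

theorem t0_58 : Good (Q 7) [v28, v33, v54, v56, v32, v35] :=
  split_of 0 2 v57 1305645227 (by decide +kernel) (good_ofj c0_68) (good_ofj c0_69) rfl rfl

theorem t0_59 : Good (Q 8) [v28, v33, v54, v56, v32, v35] :=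
  P_of 7 8 0xffffffffffffffffffffffffffffff5094441505400ff2b4ae2d4b62c8b22ccb2ffffffffffffffffffffffffffffff300bf340d035cd871dc52e4ba2e4ba2ecba
    (by decide +kernel) t0_58

theorem t0_60 : Good (Q 8) [v28, v33, v54, v25, v32, v35] :=
  split_of 0 3 v56 1311791918 (by decide +kernel) (good_ofj c0_67) t0_59 rfl rfl

theorem t0_61 : Good (Q 9) [v28, v33, v54, v25, v32, v35] :=
  P_of 8 9 0xffffffffffffffffffffffffffffff50d4241105401002b8ad2d4b52c8b22ccb3ffffffffffffffffffffffffffffff2fcc0344d035cd7fffff2e8b92e8b92ecbb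
    (by decide +kernel) t0_60

theorem t0_62 : Good (Q 8) [v57, v58, v54, v33, v32, v35] :=
  P_of 7 8 0xffffffffffffffffffffffffffffff5054341105405002bcaf2ccb42c4b02d0b4ffffffffffffffffffffffffffffff2fcc034cd334cd4721c62e8ba2e8ba2f0bb
    (by decide +kernel) (good_ofj c0_70)

theorem t0_63 : Good (Q 8) [v28, v58, v54, v33, v32, v35] :=
  split_of 0 2 v57 1305645227 (by decide +kernel) t0_62 (good_ofj c0_71) rfl rfl

theorem t0_64 : Good (Q 9) [v28, v58, v54, v33, v32, v35] :=
  P_of 8 9 0xffffffffffffffffffffffffffffff5054241906401002b8af2d4b52c4b12ccb2ffffffffffffffffffffffffffffff300c0344d1354d6fffff2e8ba2e8ba2ecba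
    (by decide +kernel) t0_63

theorem t0_65 : Good (Q 9) [v28, v30, v54, v33, v32, v35] :=
  split_of 1 5 v58 1298631825 (by decide +kernel) t0_64 (good_ofj c0_72) rfl rfl

theorem t0_66 : Good (Q 9) [v28, v30, v54, v25, v32, v35] :=
  split_of 1 3 v33 1302360762 (by decide +kernel) t0_61 t0_65 rfl rfl

theorem t0_67 : Good (Q 9) [v28, v30, v38, v25, v32, v35] :=
  split_of 1 2 v54 1309864426 (by decide +kernel) t0_57 t0_66 rfl rfl

theorem t0_68 : Good (Q 9) [v24, v30, v38, v25, v32, v35] :=
  split_of 0 1 v28 1299835258 (by decide +kernel) t0_67 (good_ofj c0_73) rfl rfl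

theorem t0_69 : Good (Q 9) [v24, v30, v38, v25, v31, v35] :=
  split_of 1 4 v32 1315706387 (by decide +kernel) t0_54 t0_68 rfl rfl

theorem t0_70 : Good (Q 9) [v24, v30, v38, v25, v31, v34] :=
  split_of 1 5 v35 1315109598 (by decide +kernel) t0_50 t0_69 rfl rfl

theorem t0_71 : Good (Q 9) [v24, v30, v38, v23, v31, v34] :=
  split_of 1 3 v25 1321013612 (by decide +kernel) t0_46 t0_70 rfl rfl

theorem t0_72 : Good (Q 9) [v24, v30, v7, v23, v31, v34] :=
  split_of 1 2 v38 1333169107 (by decide +kernel) t0_45 t0_71 rfl rfl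

theorem t0_73 : Good (Q 9) [v24, v30, v7, v23, v31, v21] :=
  split_of 2 5 v34 1336420407 (by decide +kernel) t0_35 t0_72 rfl rfl

theorem t0_74 : Good (Q 9) [v24, v30, v7, v23, v20, v21] :=
  split_of 2 4 v31 1338335496 (by decide +kernel) t0_28 t0_73 rfl rfl

theorem t0_75 : Good (Q 9) [v59, v24, v7, v23, v20, v21] :=
  split_of 2 4 v31 1338335496 (by decide +kernel) (good_ofj c0_74) (good_ofj c0_75) rfl rfl

theorem t0_76 : Good (Q 9) [v19, v24, v7, v23, v20, v21] :=
  split_of 0 2 v59 1342177280 (by decide +kernel) t0_75 (good_ofj c0_76) rfl rfl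

theorem t0_77 : Good (Q 9) [v19, v30, v7, v23, v20, v21] :=
  split_of 0 1 v24 1311740689 (by decide +kernel) t0_74 t0_76 rfl rfl

theorem t0_78 : Good (Q 9) [v19, v30, v7, v10, v20, v21] :=
  split_of 2 3 v23 1341057865 (by decide +kernel) t0_22 t0_77 rfl rfl

theorem t0_79 : Good (Q 9) [v19, v30, v7, v10, v20, v15] :=
  split_of 1 5 v21 1288860967 (by decide +kernel) (good_ofj c0_20) t0_78 rfl rfl

theorem t0_80 : Good (Q 10) [v19, v30, v7, v10, v20, v15] :=
  env_E _ t0_79

theorem t0_81 : Good (Q 10) [v19, v30, v7, v10, v1, v15] :=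
  split_of 1 4 v20 1297535559 (by decide +kernel) (good_ofj c0_19) t0_80 rfl rfl

theorem t0_82 : Good (Q 9) [v61, v30, v24, v22, v20, v21] :=
  split_of 1 4 v26 1292097425 (by decide +kernel) (good_ofj c0_81) (good_ofj c0_82) rfl rfl

theorem t0_83 : Good (Q 9) [v60, v30, v24, v22, v20, v21] :=
  split_of 0 1 v61 1283257153 (by decide +kernel) t0_82 (good_ofj c0_83) rfl rfl

theorem t0_84 : Good (Q 9) [v60, v30, v19, v22, v20, v21] :=
  split_of 1 2 v24 1311740689 (by decide +kernel) (good_ofj c0_80) t0_83 rfl rfl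

theorem t0_85 : Good (Q 9) [v60, v30, v19, v10, v20, v21] :=
  split_of 1 3 v22 1303729140 (by decide +kernel) (good_ofj c0_79) t0_84 rfl rfl

theorem t0_86 : Good (Q 9) [v60, v30, v19, v10, v20, v15] :=
  split_of 1 5 v21 1288860967 (by decide +kernel) (good_ofj c0_78) t0_85 rfl rfl

theorem t0_87 : Good (Q 10) [v60, v30, v19, v10, v20, v15] :=
  env_E _ t0_86

theorem t0_88 : Good (Q 10) [v60, v30, v19, v10, v1, v15] :=
  split_of 1 4 v20 1297535559 (by decide +kernel) (good_ofj c0_77) t0_87 rfl rfl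

theorem t0_89 : Good (Q 10) [v0, v30, v19, v10, v1, v15] :=
  split_of 0 1 v60 1264382982 (by decide +kernel) t0_88 (good_ofj c0_84) rfl rfl

theorem t0_90 : Good (Q 10) [v0, v30, v7, v10, v1, v15] :=
  split_of 0 2 v19 1309159440 (by decide +kernel) t0_81 t0_89 rfl rfl

theorem t0_91 : Good (Q 10) [v0, v30, v7, v10, v1, v5] :=
  split_of 1 5 v15 1256264730 (by decide +kernel) t0_15 t0_90 rfl rfl

theorem t0_92 : Good (Q 10) [v0, v30, v7, v3, v1, v5] :=
  split_of 1 3 v10 1307275754 (by decide +kernel) t0_9 t0_91 rfl rfl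

theorem t0_93 : Good (Q 10) [v0, v30, v7, v3, v4, v5] :=
  split_of 1 4 v1 1280313892 (by decide +kernel) t0_3 t0_92 rfl rfl

theorem t0_94 : Good (Q 10) [v62, v1, v7, v3, v64, v6] :=
  split_of 0 3 v65 1269404413 (by decide +kernel) (good_ofj c0_87) (good_ofj c0_88) rfl rfl

theorem t0_95 : Good (Q 10) [v62, v1, v7, v3, v63, v6] :=
  split_of 2 4 v64 1315710025 (by decide +kernel) (good_ofj c0_86) t0_94 rfl rfl

theorem t0_96 : Good (Q 10) [v62, v1, v7, v3, v63, v0] :=
  split_of 3 5 v6 1266396334 (by decide +kernel) (good_ofj c0_85) t0_95 rfl rfl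

theorem t0_97 : Good (Q 10) [v62, v1, v7, v3, v4, v0] :=
  split_of 4 5 v63 1202967926 (by decide +kernel) t0_96 (good_ofj c0_89) rfl rfl

theorem t0_98 : Good (Q 9) [v69, v30, v32, v70, v26, v28] :=
  split_of 0 1 v71 1300475931 (by decide +kernel) (good_ofj c0_99) (good_ofj c0_100) rfl rfl

theorem t0_99 : Good (Q 9) [v69, v30, v32, v70, v26, v24] :=
  split_of 1 5 v28 1299835258 (by decide +kernel) (good_ofj c0_98) t0_98 rfl rfl

theorem t0_100 : Good (Q 9) [v69, v30, v31, v70, v26, v24] :=
  split_of 1 2 v32 1315706387 (by decide +kernel) (good_ofj c0_97) t0_99 rfl rfl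

theorem t0_101 : Good (Q 9) [v69, v30, v31, v68, v26, v24] :=
  split_of 1 3 v70 1318153381 (by decide +kernel) (good_ofj c0_96) t0_100 rfl rfl

theorem t0_102 : Good (Q 9) [v69, v30, v31, v68, v20, v24] :=
  split_of 1 4 v26 1292097425 (by decide +kernel) (good_ofj c0_95) t0_101 rfl rfl

theorem t0_103 : Good (Q 9) [v74, v43, v7, v73, v41, v42] :=
  split_of 2 3 v75 1351961091 (by decide +kernel) (good_ofj c0_105) (good_ofj c0_106) rfl rfl

theorem t0_104 : Good (Q 9) [v72, v43, v7, v73, v41, v42] :=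
  split_of 0 2 v74 1350336185 (by decide +kernel) t0_103 (good_ofj c0_107) rfl rfl

theorem t0_105 : Good (Q 9) [v72, v43, v7, v73, v41, v37] :=
  split_of 2 5 v42 1350220494 (by decide +kernel) (good_ofj c0_104) t0_104 rfl rfl

theorem t0_106 : Good (Q 9) [v72, v38, v43, v76, v41, v37] :=
  split_of 1 4 v77 1343140841 (by decide +kernel) (good_ofj c0_109) (good_ofj c0_110) rfl rfl

theorem t0_107 : Good (Q 9) [v72, v38, v43, v73, v41, v37] :=
  split_of 1 3 v76 1343811504 (by decide +kernel) (good_ofj c0_108) t0_106 rfl rfl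

theorem t0_108 : Good (Q 9) [v72, v38, v7, v73, v41, v37] :=
  split_of 1 2 v43 1347746544 (by decide +kernel) t0_105 t0_107 rfl rfl

theorem t0_109 : Good (Q 9) [v72, v38, v7, v73, v31, v37] :=
  split_of 2 4 v41 1349100556 (by decide +kernel) (good_ofj c0_103) t0_108 rfl rfl

theorem t0_110 : Good (Q 9) [v72, v38, v7, v68, v31, v37] :=
  split_of 2 3 v73 1349398005 (by decide +kernel) (good_ofj c0_102) t0_109 rfl rfl

theorem t0_111 : Good (Q 9) [v69, v38, v7, v68, v31, v37] :=
  split_of 0 2 v72 1342973725 (by decide +kernel) t0_110 (good_ofj c0_111) rfl rfl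

theorem t0_112 : Good (Q 9) [v69, v38, v7, v68, v31, v24] :=
  split_of 2 5 v37 1342484791 (by decide +kernel) (good_ofj c0_101) t0_111 rfl rfl

theorem t0_113 : Good (Q 8) [v69, v32, v38, v70, v31, v49] :=
  split_of 0 2 v78 1326031496 (by decide +kernel) (good_ofj c0_114) (good_ofj c0_115) rfl rfl

theorem t0_114 : Good (Q 9) [v69, v32, v38, v70, v31, v49] :=
  P_of 8 9 0xfffffffffffffffffffffffffffffffffff3c0ef3c0ef2c0af2e8bb2ccb42d8b5ffffffffffffffffffffffffffffff2ecbb388e13a4ecfffff2c8b22d8b62d8b6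
    (by decide +kernel) t0_113

theorem t0_115 : Good (Q 9) [v69, v32, v38, v70, v31, v24] :=
  split_of 2 5 v49 1325472642 (by decide +kernel) (good_ofj c0_113) t0_114 rfl rfl

theorem t0_116 : Good (Q 9) [v71, v54, v38, v70, v32, v52] :=
  split_of 0 2 v79 1319049667 (by decide +kernel) (good_ofj c0_118) (good_ofj c0_119) rfl rfl

theorem t0_117 : Good (Q 9) [v71, v54, v38, v70, v32, v28] :=
  split_of 2 5 v52 1318899466 (by decide +kernel) (good_ofj c0_117) t0_116 rfl rfl

theorem t0_118 : Good (Q 9) [v71, v80, v54, v70, v32, v28] :=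
  P_of 8 9 0xffffffffffffffffffffffffffffff5094341505401002b8ae2d4b52c8b22c8b2ffffffffffffffffffffffffffffff2fcbf340d035cd7fffff2e8ba2e8ba2ecbb
    (by decide +kernel) (good_ofj c0_120)

theorem t0_119 : Good (Q 9) [v71, v30, v54, v70, v32, v28] :=
  split_of 1 3 v80 1300509902 (by decide +kernel) t0_118 (good_ofj c0_121) rfl rfl

theorem t0_120 : Good (Q 9) [v71, v30, v38, v70, v32, v28] :=
  split_of 1 2 v54 1309864426 (by decide +kernel) t0_117 t0_119 rfl rfl

theorem t0_121 : Good (Q 9) [v69, v30, v38, v70, v32, v28] :=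
  split_of 0 1 v71 1300475931 (by decide +kernel) t0_120 (good_ofj c0_122) rfl rfl

theorem t0_122 : Good (Q 9) [v69, v30, v38, v70, v32, v24] :=
  split_of 1 5 v28 1299835258 (by decide +kernel) (good_ofj c0_116) t0_121 rfl rfl

theorem t0_123 : Good (Q 9) [v69, v30, v38, v70, v31, v24] :=
  split_of 1 4 v32 1315706387 (by decide +kernel) t0_115 t0_122 rfl rfl

theorem t0_124 : Good (Q 9) [v69, v30, v38, v68, v31, v24] :=
  split_of 1 3 v70 1318153381 (by decide +kernel) (good_ofj c0_112) t0_123 rfl rfl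

theorem t0_125 : Good (Q 9) [v69, v30, v7, v68, v31, v24] :=
  split_of 1 2 v38 1333169107 (by decide +kernel) t0_112 t0_124 rfl rfl

theorem t0_126 : Good (Q 9) [v69, v30, v7, v68, v20, v24] :=
  split_of 2 4 v31 1338335496 (by decide +kernel) t0_102 t0_125 rfl rfl

theorem t0_127 : Good (Q 9) [v69, v30, v7, v68, v20, v19] :=
  split_of 1 5 v24 1311740689 (by decide +kernel) (good_ofj c0_94) t0_126 rfl rfl

theorem t0_128 : Good (Q 9) [v66, v30, v7, v68, v20, v19] :=
  split_of 0 1 v69 1313961803 (by decide +kernel) t0_127 (good_ofj c0_123) rfl rfl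

theorem t0_129 : Good (Q 9) [v66, v30, v7, v67, v20, v19] :=
  split_of 2 3 v68 1339403310 (by decide +kernel) (good_ofj c0_93) t0_128 rfl rfl

theorem t0_130 : Good (Q 10) [v66, v30, v7, v67, v20, v19] :=
  env_E _ t0_129

theorem t0_131 : Good (Q 10) [v66, v30, v7, v67, v1, v19] :=
  split_of 1 4 v20 1297535559 (by decide +kernel) (good_ofj c0_92) t0_130 rfl rfl

theorem t0_132 : Good (Q 10) [v66, v30, v7, v6, v1, v19] :=
  split_of 1 3 v67 1300877891 (by decide +kernel) (good_ofj c0_91) t0_131 rfl rfl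

theorem t0_133 : Good (Q 10) [v66, v30, v7, v6, v1, v0] :=
  split_of 2 5 v19 1309159440 (by decide +kernel) (good_ofj c0_90) t0_132 rfl rfl

theorem t0_134 : Good (Q 10) [v62, v30, v66, v6, v1, v0] :=
  split_of 4 5 v14 1255753845 (by decide +kernel) (good_ofj c0_124) (good_ofj c0_125) rfl rfl

theorem t0_135 : Good (Q 10) [v62, v30, v7, v6, v1, v0] :=
  split_of 0 2 v66 1315710025 (by decide +kernel) t0_133 t0_134 rfl rfl

theorem t0_136 : Good (Q 10) [v62, v10, v7, v3, v1, v6] :=
  split_of 0 3 v65 1269404413 (by decide +kernel) (good_ofj c0_126) (good_ofj c0_127) rfl rfl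

theorem t0_137 : Good (Q 9) [v69, v30, v25, v22, v20, v81] :=
  split_of 1 4 v26 1292097425 (by decide +kernel) (good_ofj c0_133) (good_ofj c0_134) rfl rfl

theorem t0_138 : Good (Q 9) [v69, v30, v23, v22, v20, v81] :=
  split_of 1 2 v25 1321013612 (by decide +kernel) (good_ofj c0_132) t0_137 rfl rfl

theorem t0_139 : Good (Q 9) [v69, v30, v23, v22, v20, v67] :=
  split_of 1 5 v81 1297026733 (by decide +kernel) (good_ofj c0_131) t0_138 rfl rfl

theorem t0_140 : Good (Q 9) [v66, v30, v23, v22, v20, v67] :=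
  split_of 0 1 v69 1313961803 (by decide +kernel) t0_139 (good_ofj c0_135) rfl rfl

theorem t0_141 : Good (Q 9) [v66, v30, v23, v10, v20, v67] :=
  split_of 1 3 v22 1303729140 (by decide +kernel) (good_ofj c0_130) t0_140 rfl rfl

theorem t0_142 : Good (Q 9) [v71, v30, v70, v25, v26, v81] :=
  split_of 1 5 v82 1289629961 (by decide +kernel) (good_ofj c0_140) (good_ofj c0_141) rfl rfl

theorem t0_143 : Good (Q 9) [v69, v30, v70, v25, v26, v81] :=
  split_of 0 1 v71 1300475931 (by decide +kernel) t0_142 (good_ofj c0_142) rfl rfl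

theorem t0_144 : Good (Q 9) [v69, v30, v68, v25, v26, v81] :=
  split_of 1 2 v70 1318153381 (by decide +kernel) (good_ofj c0_139) t0_143 rfl rfl

theorem t0_145 : Good (Q 9) [v69, v30, v68, v25, v20, v81] :=
  split_of 1 4 v26 1292097425 (by decide +kernel) (good_ofj c0_138) t0_144 rfl rfl

theorem t0_146 : Good (Q 9) [v69, v30, v68, v23, v20, v81] :=
  split_of 1 3 v25 1321013612 (by decide +kernel) (good_ofj c0_137) t0_145 rfl rfl

theorem t0_147 : Good (Q 9) [v69, v30, v68, v23, v20, v67] :=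
  split_of 1 5 v81 1297026733 (by decide +kernel) (good_ofj c0_136) t0_146 rfl rfl

theorem t0_148 : Good (Q 9) [v71, v30, v32, v25, v26, v70] :=
  split_of 1 3 v33 1302360762 (by decide +kernel) (good_ofj c0_147) (good_ofj c0_148) rfl rfl

theorem t0_149 : Good (Q 9) [v69, v30, v32, v25, v26, v70] :=
  split_of 0 1 v71 1300475931 (by decide +kernel) t0_148 (good_ofj c0_149) rfl rfl

theorem t0_150 : Good (Q 9) [v69, v30, v31, v25, v26, v70] :=
  split_of 1 2 v32 1315706387 (by decide +kernel) (good_ofj c0_146) t0_149 rfl rfl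

theorem t0_151 : Good (Q 9) [v69, v30, v31, v25, v26, v68] :=
  split_of 1 5 v70 1318153381 (by decide +kernel) (good_ofj c0_145) t0_150 rfl rfl

theorem t0_152 : Good (Q 9) [v69, v30, v31, v25, v20, v68] :=
  split_of 1 4 v26 1292097425 (by decide +kernel) (good_ofj c0_144) t0_151 rfl rfl

theorem t0_153 : Good (Q 9) [v69, v30, v31, v23, v20, v68] :=
  split_of 1 3 v25 1321013612 (by decide +kernel) (good_ofj c0_143) t0_152 rfl rfl

theorem t0_154 : Good (Q 9) [v74, v43, v7, v44, v41, v73] :=
  split_of 2 5 v75 1351961091 (by decide +kernel) (good_ofj c0_154) (good_ofj c0_155) rfl rfl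

theorem t0_155 : Good (Q 9) [v74, v43, v7, v39, v41, v73] :=
  split_of 2 3 v44 1352069164 (by decide +kernel) (good_ofj c0_153) t0_154 rfl rfl

theorem t0_156 : Good (Q 9) [v72, v43, v7, v39, v41, v73] :=
  split_of 0 2 v74 1350336185 (by decide +kernel) t0_155 (good_ofj c0_156) rfl rfl

theorem t0_157 : Good (Q 9) [v72, v38, v43, v46, v41, v73] :=
  split_of 1 5 v76 1343811504 (by decide +kernel) (good_ofj c0_158) (good_ofj c0_159) rfl rfl

theorem t0_158 : Good (Q 9) [v72, v38, v43, v39, v41, v73] :=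
  split_of 1 3 v46 1344546372 (by decide +kernel) (good_ofj c0_157) t0_157 rfl rfl

theorem t0_159 : Good (Q 9) [v72, v38, v7, v39, v41, v73] :=
  split_of 1 2 v43 1347746544 (by decide +kernel) t0_156 t0_158 rfl rfl

theorem t0_160 : Good (Q 9) [v72, v38, v7, v39, v31, v73] :=
  split_of 2 4 v41 1349100556 (by decide +kernel) (good_ofj c0_152) t0_159 rfl rfl

theorem t0_161 : Good (Q 9) [v72, v38, v7, v39, v31, v68] :=
  split_of 2 5 v73 1349398005 (by decide +kernel) (good_ofj c0_151) t0_160 rfl rfl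

theorem t0_162 : Good (Q 9) [v72, v38, v7, v23, v31, v68] :=
  split_of 2 3 v39 1349823198 (by decide +kernel) (good_ofj c0_150) t0_161 rfl rfl

theorem t0_163 : Good (Q 9) [v69, v38, v7, v23, v31, v68] :=
  split_of 0 2 v72 1342973725 (by decide +kernel) t0_162 (good_ofj c0_160) rfl rfl

theorem t0_164 : Good (Q 9) [v79, v54, v38, v25, v32, v70] :=
  split_of 1 3 v53 1316091829 (by decide +kernel) (good_ofj c0_164) (good_ofj c0_165) rfl rfl

theorem t0_165 : Good (Q 9) [v71, v54, v38, v25, v32, v70] :=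
  split_of 0 2 v79 1319049667 (by decide +kernel) t0_164 (good_ofj c0_166) rfl rfl

theorem t0_166 : Good (Q 7) [v71, v33, v54, v25, v32, v70] :=
  split_of 0 3 v83 1311940093 (by decide +kernel) (good_ofj c0_167) (good_ofj c0_168) rfl rfl

theorem t0_167 : Good (Q 8) [v71, v33, v54, v25, v32, v70] :=
  P_of 7 8 0xffffffffffffffffffffffffffffff5114640901409012b4ad2d0b52c8b22d0b4ffffffffffffffffffffffffffffff2fcbf348d235cd8715c32e0b72e8b92f4bd
    (by decide +kernel) t0_166

theorem t0_168 : Good (Q 9) [v71, v33, v54, v25, v32, v70] :=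
  P_of 8 9 0xffffffffffffffffffffffffffffff5114240902409022b8ad2d0b52c8b22ccb3ffffffffffffffffffffffffffffff2f8bf34cd0358d7fffff2e4b82e8ba2f0bd
    (by decide +kernel) t0_167

theorem t0_169 : Good (Q 9) [v71, v30, v54, v33, v32, v70] :=
  split_of 1 5 v80 1300509902 (by decide +kernel) (good_ofj c0_169) (good_ofj c0_170) rfl rfl

theorem t0_170 : Good (Q 9) [v71, v30, v54, v25, v32, v70] :=
  split_of 1 3 v33 1302360762 (by decide +kernel) t0_168 t0_169 rfl rfl

theorem t0_171 : Good (Q 9) [v71, v30, v38, v25, v32, v70] :=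
  split_of 1 2 v54 1309864426 (by decide +kernel) t0_165 t0_170 rfl rfl

theorem t0_172 : Good (Q 9) [v69, v30, v38, v25, v32, v70] :=
  split_of 0 1 v71 1300475931 (by decide +kernel) t0_171 (good_ofj c0_171) rfl rfl

theorem t0_173 : Good (Q 9) [v69, v30, v38, v25, v31, v70] :=
  split_of 1 4 v32 1315706387 (by decide +kernel) (good_ofj c0_163) t0_172 rfl rfl

theorem t0_174 : Good (Q 9) [v69, v30, v38, v25, v31, v68] :=
  split_of 1 5 v70 1318153381 (by decide +kernel) (good_ofj c0_162) t0_173 rfl rfl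

theorem t0_175 : Good (Q 9) [v69, v30, v38, v23, v31, v68] :=
  split_of 1 3 v25 1321013612 (by decide +kernel) (good_ofj c0_161) t0_174 rfl rfl

theorem t0_176 : Good (Q 9) [v69, v30, v7, v23, v31, v68] :=
  split_of 1 2 v38 1333169107 (by decide +kernel) t0_163 t0_175 rfl rfl

theorem t0_177 : Good (Q 9) [v69, v30, v7, v23, v20, v68] :=
  split_of 2 4 v31 1338335496 (by decide +kernel) t0_153 t0_176 rfl rfl

theorem t0_178 : Good (Q 9) [v69, v30, v7, v23, v20, v67] :=
  split_of 2 5 v68 1339403310 (by decide +kernel) t0_147 t0_177 rfl rfl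

theorem t0_179 : Good (Q 9) [v66, v30, v7, v23, v20, v67] :=
  split_of 0 1 v69 1313961803 (by decide +kernel) t0_178 (good_ofj c0_172) rfl rfl

theorem t0_180 : Good (Q 9) [v66, v30, v7, v10, v20, v67] :=
  split_of 2 3 v23 1341057865 (by decide +kernel) t0_141 t0_179 rfl rfl

theorem t0_181 : Good (Q 10) [v66, v30, v7, v10, v20, v67] :=
  env_E _ t0_180

theorem t0_182 : Good (Q 10) [v66, v30, v7, v10, v1, v67] :=
  split_of 1 4 v20 1297535559 (by decide +kernel) (good_ofj c0_129) t0_181 rfl rfl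

theorem t0_183 : Good (Q 10) [v66, v30, v7, v10, v1, v6] :=
  split_of 1 5 v67 1300877891 (by decide +kernel) (good_ofj c0_128) t0_182 rfl rfl

theorem t0_184 : Good (Q 10) [v62, v30, v7, v10, v1, v6] :=
  split_of 0 2 v66 1315710025 (by decide +kernel) t0_183 (good_ofj c0_173) rfl rfl

theorem t0_185 : Good (Q 10) [v62, v30, v7, v3, v1, v6] :=
  split_of 1 3 v10 1307275754 (by decide +kernel) t0_136 t0_184 rfl rfl

theorem t0_186 : Good (Q 10) [v62, v30, v7, v3, v1, v0] :=
  split_of 3 5 v6 1266396334 (by decide +kernel) t0_135 t0_185 rfl rfl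

theorem t0_187 : Good (Q 10) [v62, v30, v7, v3, v4, v0] :=
  split_of 1 4 v1 1280313892 (by decide +kernel) t0_97 t0_186 rfl rfl

theorem t0_188 : Good (Q 10) [v84, v10, v7, v3, v65, v6] :=
  split_of 0 3 v85 1278344175 (by decide +kernel) (good_ofj c0_176) (good_ofj c0_177) rfl rfl

theorem t0_189 : Good (Q 10) [v84, v10, v7, v3, v62, v6] :=
  split_of 3 4 v65 1269404413 (by decide +kernel) (good_ofj c0_175) t0_188 rfl rfl

theorem t0_190 : Good (Q 10) [v84, v10, v7, v3, v62, v0] :=
  split_of 3 5 v6 1266396334 (by decide +kernel) (good_ofj c0_174) t0_189 rfl rfl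

theorem t0_191 : Good (Q 10) [v84, v30, v66, v10, v62, v0] :=
  split_of 3 4 v86 1283257153 (by decide +kernel) (good_ofj c0_178) (good_ofj c0_179) rfl rfl

theorem t0_192 : Good (Q 9) [v87, v30, v19, v10, v66, v60] :=
  split_of 1 3 v22 1303729140 (by decide +kernel) (good_ofj c0_181) (good_ofj c0_182) rfl rfl

theorem t0_193 : Good (Q 9) [v87, v30, v19, v10, v66, v0] :=
  split_of 1 5 v60 1264382982 (by decide +kernel) (good_ofj c0_180) t0_192 rfl rfl

theorem t0_194 : Good (Q 9) [v88, v30, v25, v22, v71, v28] :=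
  split_of 0 1 v89 1300877891 (by decide +kernel) (good_ofj c0_189) (good_ofj c0_190) rfl rfl

theorem t0_195 : Good (Q 9) [v88, v30, v25, v22, v69, v28] :=
  split_of 1 4 v71 1300475931 (by decide +kernel) (good_ofj c0_188) t0_194 rfl rfl

theorem t0_196 : Good (Q 9) [v88, v30, v25, v22, v69, v24] :=
  split_of 1 5 v28 1299835258 (by decide +kernel) (good_ofj c0_187) t0_195 rfl rfl

theorem t0_197 : Good (Q 9) [v88, v30, v23, v22, v69, v24] :=
  split_of 1 2 v25 1321013612 (by decide +kernel) (good_ofj c0_186) t0_196 rfl rfl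

theorem t0_198 : Good (Q 9) [v87, v30, v23, v22, v69, v24] :=
  split_of 0 1 v88 1315710025 (by decide +kernel) t0_197 (good_ofj c0_191) rfl rfl

theorem t0_199 : Good (Q 9) [v87, v30, v23, v22, v69, v19] :=
  split_of 1 5 v24 1311740689 (by decide +kernel) (good_ofj c0_185) t0_198 rfl rfl

theorem t0_200 : Good (Q 9) [v87, v30, v23, v22, v66, v19] :=
  split_of 1 4 v69 1313961803 (by decide +kernel) (good_ofj c0_184) t0_199 rfl rfl

theorem t0_201 : Good (Q 9) [v87, v30, v23, v10, v66, v19] :=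
  split_of 1 3 v22 1303729140 (by decide +kernel) (good_ofj c0_183) t0_200 rfl rfl

theorem t0_202 : Good (Q 9) [v91, v72, v7, v23, v90, v59] :=
  split_of 2 3 v39 1349823198 (by decide +kernel) (good_ofj c0_194) (good_ofj c0_195) rfl rfl

theorem t0_203 : Good (Q 9) [v91, v69, v7, v23, v90, v59] :=
  split_of 1 2 v72 1342973725 (by decide +kernel) t0_202 (good_ofj c0_196) rfl rfl

theorem t0_204 : Good (Q 9) [v87, v69, v7, v23, v90, v59] :=
  split_of 0 2 v91 1345746917 (by decide +kernel) t0_203 (good_ofj c0_197) rfl rfl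

theorem t0_205 : Good (Q 9) [v87, v69, v7, v23, v90, v19] :=
  split_of 2 5 v59 1342177280 (by decide +kernel) (good_ofj c0_193) t0_204 rfl rfl

theorem t0_206 : Good (Q 9) [v87, v69, v7, v23, v66, v19] :=
  split_of 2 4 v90 1343852908 (by decide +kernel) (good_ofj c0_192) t0_205 rfl rfl

theorem t0_207 : Good (Q 9) [v91, v37, v7, v39, v72, v92] :=
  split_of 0 2 v93 1351066130 (by decide +kernel) (good_ofj c0_202) (good_ofj c0_203) rfl rfl

theorem t0_208 : Good (Q 9) [v91, v37, v7, v39, v72, v59] :=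
  split_of 2 5 v92 1350182502 (by decide +kernel) (good_ofj c0_201) t0_207 rfl rfl

theorem t0_209 : Good (Q 9) [v91, v37, v7, v23, v72, v59] :=
  split_of 2 3 v39 1349823198 (by decide +kernel) (good_ofj c0_200) t0_208 rfl rfl

theorem t0_210 : Good (Q 9) [v91, v24, v7, v23, v72, v59] :=
  split_of 1 2 v37 1342484791 (by decide +kernel) t0_209 (good_ofj c0_204) rfl rfl

theorem t0_211 : Good (Q 9) [v91, v24, v7, v23, v69, v59] :=
  split_of 2 4 v72 1342973725 (by decide +kernel) (good_ofj c0_199) t0_210 rfl rfl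

theorem t0_212 : Good (Q 9) [v87, v24, v7, v23, v69, v59] :=
  split_of 0 2 v91 1345746917 (by decide +kernel) t0_211 (good_ofj c0_205) rfl rfl

theorem t0_213 : Good (Q 9) [v87, v24, v7, v23, v69, v19] :=
  split_of 2 5 v59 1342177280 (by decide +kernel) (good_ofj c0_198) t0_212 rfl rfl

theorem t0_214 : Good (Q 9) [v88, v38, v37, v23, v69, v48] :=
  split_of 3 4 v94 1332559493 (by decide +kernel) (good_ofj c0_207) (good_ofj c0_208) rfl rfl

theorem t0_215 : Good (Q 9) [v88, v38, v37, v23, v69, v24] :=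
  split_of 3 5 v48 1332091271 (by decide +kernel) (good_ofj c0_206) t0_214 rfl rfl

theorem t0_216 : Good (Q 8) [v88, v38, v72, v23, v69, v37] :=
  split_of 3 4 v94 1332559493 (by decide +kernel) (good_ofj c0_209) (good_ofj c0_210) rfl rfl

theorem t0_217 : Good (Q 9) [v88, v38, v72, v23, v69, v37] :=
  P_of 8 9 0xfffffffffffffffffffffffffffffffffff3aceb3a4ea2b8ad2ecbb2dcb62e4baffffffffffffffffffffffffffffff2ecbc39ce63c4f0fffff2c4b02c8b22dcb8
    (by decide +kernel) t0_216

theorem t0_218 : Good (Q 7) [v95, v43, v42, v39, v72, v96] :=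
  split_of 3 4 v97 1347616540 (by decide +kernel) (good_ofj c0_213) (good_ofj c0_214) rfl rfl

theorem t0_219 : Good (Q 8) [v95, v43, v42, v39, v72, v96] :=
  P_of 7 8 0xffffffffffffffffffffffffffffff70dc3358d6350d42dcb62f4be2f0bb2f4beffffffffffffffffffffffffffffff2d4b63f8ff41104515452c0af2c0af2ccb3
    (by decide +kernel) t0_218

theorem t0_220 : Good (Q 8) [v95, v43, v42, v39, v72, v37] :=
  split_of 3 5 v96 1347503850 (by decide +kernel) (good_ofj c0_212) t0_219 rfl rfl

theorem t0_221 : Good (Q 9) [v95, v43, v42, v39, v72, v37] :=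
  P_of 8 9 0xfffffffffffffffffffffffffffffffffff358d6350d42e0b52f4be2ecbc2f4beffffffffffffffffffffffffffffff2d4b6400fe40d05515452c0af2c0af2ccb4
    (by decide +kernel) t0_220

theorem t0_222 : Good (Q 7) [v95, v43, v74, v39, v72, v42] :=
  split_of 3 4 v97 1347616540 (by decide +kernel) (good_ofj c0_215) (good_ofj c0_216) rfl rfl

theorem t0_223 : Good (Q 8) [v95, v43, v74, v39, v72, v42] :=
  P_of 7 8 0xffffffffffffffffffffffffffffff721c3350d634cd42dcb62fcbe2ecbb2f8beffffffffffffffffffffffffffffff2d8b63fcff41904509452bcaf2c0af2c8b3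
    (by decide +kernel) t0_222

theorem t0_224 : Good (Q 9) [v95, v43, v74, v39, v72, v42] :=
  P_of 8 9 0xfffffffffffffffffffffffffffffffffff354d5350d42dcb72f8be2ecbc2f4bdffffffffffffffffffffffffffffff2d4b53fcff41105511442bcaf2c0b02ccb3
    (by decide +kernel) t0_223

theorem t0_225 : Good (Q 9) [v98, v43, v99, v100, v74, v42] :=
  split_of 1 5 v101 1349299878 (by decide +kernel) (good_ofj c0_220) (good_ofj c0_221) rfl rfl

theorem t0_226 : Good (Q 9) [v98, v43, v99, v44, v74, v42] :=
  split_of 1 3 v100 1350710315 (by decide +kernel) (good_ofj c0_219) t0_225 rfl rfl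

theorem t0_227 : Good (Q 9) [v98, v43, v7, v44, v74, v42] :=
  split_of 1 2 v99 1351535087 (by decide +kernel) (good_ofj c0_218) t0_226 rfl rfl

theorem t0_228 : Good (Q 9) [v98, v43, v7, v39, v74, v42] :=
  split_of 2 3 v44 1352069164 (by decide +kernel) (good_ofj c0_217) t0_227 rfl rfl

theorem t0_229 : Good (Q 7) [v95, v43, v98, v39, v74, v42] :=
  split_of 0 3 v102 1347724011 (by decide +kernel) (good_ofj c0_222) (good_ofj c0_223) rfl rfl

theorem t0_230 : Good (Q 8) [v95, v43, v98, v39, v74, v42] :=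
  P_of 7 8 0xffffffffffffffffffffffffffffff725c634cd534cd42dcb62fcbd2f0bc2f8beffffffffffffffffffffffffffffff2d4b53fcff41d05501432bcaf2c0af2ccb4
    (by decide +kernel) t0_229

theorem t0_231 : Good (Q 9) [v95, v43, v98, v39, v74, v42] :=
  P_of 8 9 0xfffffffffffffffffffffffffffffffffff354d334cd32dcb72f4bf2f0bc2f4beffffffffffffffffffffffffffffff2d0b53fcff4150750d402c0af2c0b02ccb3
    (by decide +kernel) t0_230

theorem t0_232 : Good (Q 9) [v95, v43, v7, v39, v74, v42] :=
  split_of 0 2 v98 1350444950 (by decide +kernel) t0_228 t0_231 rfl rfl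

theorem t0_233 : Good (Q 9) [v95, v43, v7, v39, v72, v42] :=
  split_of 2 4 v74 1350336185 (by decide +kernel) t0_224 t0_232 rfl rfl

theorem t0_234 : Good (Q 9) [v95, v43, v7, v39, v72, v37] :=
  split_of 2 5 v42 1350220494 (by decide +kernel) t0_221 t0_233 rfl rfl

theorem t0_235 : Good (Q 9) [v95, v38, v43, v39, v72, v37] :=
  split_of 1 3 v46 1344546372 (by decide +kernel) (good_ofj c0_224) (good_ofj c0_225) rfl rfl

theorem t0_236 : Good (Q 9) [v95, v38, v7, v39, v72, v37] :=
  split_of 1 2 v43 1347746544 (by decide +kernel) t0_234 t0_235 rfl rfl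

theorem t0_237 : Good (Q 9) [v95, v38, v7, v23, v72, v37] :=
  split_of 2 3 v39 1349823198 (by decide +kernel) (good_ofj c0_211) t0_236 rfl rfl

theorem t0_238 : Good (Q 9) [v88, v38, v95, v103, v72, v37] :=
  P_of 8 9 0xfffffffffffffffffffffffffffffffffff3b4ea3a8e92bcae2e8bb2e0b92d4b6ffffffffffffffffffffffffffffff2e4b9390e43c0f4fffff2ccb22ccb22d8b7
    (by decide +kernel) (good_ofj c0_227)

theorem t0_239 : Good (Q 9) [v88, v38, v95, v23, v72, v37] :=
  split_of 1 3 v103 1339964634 (by decide +kernel) (good_ofj c0_226) t0_238 rfl rfl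

theorem t0_240 : Good (Q 9) [v88, v38, v7, v23, v72, v37] :=
  split_of 0 2 v95 1343406483 (by decide +kernel) t0_237 t0_239 rfl rfl

theorem t0_241 : Good (Q 9) [v88, v38, v7, v23, v69, v37] :=
  split_of 2 4 v72 1342973725 (by decide +kernel) t0_217 t0_240 rfl rfl

theorem t0_242 : Good (Q 9) [v88, v38, v7, v23, v69, v24] :=
  split_of 2 5 v37 1342484791 (by decide +kernel) t0_215 t0_241 rfl rfl

theorem t0_243 : Good (Q 9) [v88, v25, v38, v23, v69, v24] :=
  split_of 3 5 v48 1332091271 (by decide +kernel) (good_ofj c0_228) (good_ofj c0_229) rfl rfl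

theorem t0_244 : Good (Q 9) [v88, v71, v38, v25, v69, v28] :=
  split_of 2 4 v78 1326031496 (by decide +kernel) (good_ofj c0_231) (good_ofj c0_232) rfl rfl

theorem t0_245 : Good (Q 8) [v89, v54, v52, v25, v71, v28] :=
  split_of 3 5 v56 1311791918 (by decide +kernel) (good_ofj c0_233) (good_ofj c0_234) rfl rfl

theorem t0_246 : Good (Q 9) [v89, v54, v52, v25, v71, v28] :=
  P_of 8 9 0xffffffffffffffffffffffffffffff51d4640d033f8ff2b8ae2d4b52c8b22ccb3ffffffffffffffffffffffffffffff2fcbf348d2360d8fffff2e4b92e4b92ecbb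
    (by decide +kernel) t0_245

theorem t0_247 : Good (Q 9) [v89, v54, v38, v25, v79, v52] :=
  split_of 0 2 v104 1319149179 (by decide +kernel) (good_ofj c0_236) (good_ofj c0_237) rfl rfl

theorem t0_248 : Good (Q 9) [v89, v54, v38, v25, v71, v52] :=
  split_of 2 4 v79 1319049667 (by decide +kernel) (good_ofj c0_235) t0_247 rfl rfl

theorem t0_249 : Good (Q 9) [v89, v54, v38, v25, v71, v28] :=
  split_of 2 5 v52 1318899466 (by decide +kernel) t0_246 t0_248 rfl rfl

theorem t0_250 : Good (Q 7) [v89, v33, v54, v25, v71, v56] :=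
  split_of 3 4 v83 1311940093 (by decide +kernel) (good_ofj c0_239) (good_ofj c0_240) rfl rfl

theorem t0_251 : Good (Q 8) [v89, v33, v54, v25, v71, v56] :=
  P_of 7 8 0xffffffffffffffffffffffffffffff5094740900409002b4ad2d0b52d0b32ccb4ffffffffffffffffffffffffffffff2f8be340d235cd971dc02e4b72e4b92f8bc
    (by decide +kernel) t0_250

theorem t0_252 : Good (Q 8) [v89, v33, v54, v25, v71, v28] :=
  split_of 3 5 v56 1311791918 (by decide +kernel) (good_ofj c0_238) t0_251 rfl rfl

theorem t0_253 : Good (Q 9) [v89, v33, v54, v25, v71, v28] :=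
  P_of 8 9 0xffffffffffffffffffffffffffffff50d4241105401002b8ad2d4b52c8b22ccb3ffffffffffffffffffffffffffffff2fcc0344d035cd7fffff2e8b92e8b92ecbb
    (by decide +kernel) t0_252

theorem t0_254 : Good (Q 9) [v89, v30, v54, v25, v71, v28] :=
  split_of 1 3 v33 1302360762 (by decide +kernel) t0_253 (good_ofj c0_241) rfl rfl

theorem t0_255 : Good (Q 9) [v89, v30, v38, v25, v71, v28] :=
  split_of 1 2 v54 1309864426 (by decide +kernel) t0_249 t0_254 rfl rfl

theorem t0_256 : Good (Q 9) [v105, v89, v38, v25, v71, v28] :=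
  split_of 2 5 v52 1318899466 (by decide +kernel) (good_ofj c0_242) (good_ofj c0_243) rfl rfl

theorem t0_257 : Good (Q 9) [v88, v89, v38, v25, v71, v28] :=
  split_of 0 2 v105 1326446749 (by decide +kernel) t0_256 (good_ofj c0_244) rfl rfl

theorem t0_258 : Good (Q 9) [v88, v30, v38, v25, v71, v28] :=
  split_of 0 1 v89 1300877891 (by decide +kernel) t0_255 t0_257 rfl rfl

theorem t0_259 : Good (Q 9) [v88, v30, v38, v25, v69, v28] :=
  split_of 1 4 v71 1300475931 (by decide +kernel) t0_244 t0_258 rfl rfl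

theorem t0_260 : Good (Q 9) [v88, v30, v38, v25, v69, v24] :=
  split_of 1 5 v28 1299835258 (by decide +kernel) (good_ofj c0_230) t0_259 rfl rfl

theorem t0_261 : Good (Q 9) [v88, v30, v38, v23, v69, v24] :=
  split_of 1 3 v25 1321013612 (by decide +kernel) t0_243 t0_260 rfl rfl

theorem t0_262 : Good (Q 9) [v88, v30, v7, v23, v69, v24] :=
  split_of 1 2 v38 1333169107 (by decide +kernel) t0_242 t0_261 rfl rfl

theorem t0_263 : Good (Q 9) [v93, v95, v7, v39, v72, v37] :=
  split_of 2 5 v42 1350220494 (by decide +kernel) (good_ofj c0_248) (good_ofj c0_249) rfl rfl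

theorem t0_264 : Good (Q 9) [v91, v95, v7, v39, v72, v37] :=
  split_of 0 2 v93 1351066130 (by decide +kernel) t0_263 (good_ofj c0_250) rfl rfl

theorem t0_265 : Good (Q 9) [v91, v95, v7, v23, v72, v37] :=
  split_of 2 3 v39 1349823198 (by decide +kernel) (good_ofj c0_247) t0_264 rfl rfl

theorem t0_266 : Good (Q 9) [v91, v88, v7, v23, v72, v37] :=
  split_of 1 2 v95 1343406483 (by decide +kernel) t0_265 (good_ofj c0_251) rfl rfl

theorem t0_267 : Good (Q 9) [v91, v88, v7, v23, v69, v37] :=
  split_of 2 4 v72 1342973725 (by decide +kernel) (good_ofj c0_246) t0_266 rfl rfl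

theorem t0_268 : Good (Q 9) [v91, v88, v7, v23, v69, v24] :=
  split_of 2 5 v37 1342484791 (by decide +kernel) (good_ofj c0_245) t0_267 rfl rfl

theorem t0_269 : Good (Q 9) [v87, v88, v7, v23, v69, v24] :=
  split_of 0 2 v91 1345746917 (by decide +kernel) t0_268 (good_ofj c0_252) rfl rfl

theorem t0_270 : Good (Q 9) [v87, v30, v7, v23, v69, v24] :=
  split_of 0 1 v88 1315710025 (by decide +kernel) t0_262 t0_269 rfl rfl

theorem t0_271 : Good (Q 9) [v87, v30, v7, v23, v69, v19] :=
  split_of 1 5 v24 1311740689 (by decide +kernel) t0_213 t0_270 rfl rfl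

theorem t0_272 : Good (Q 9) [v87, v30, v7, v23, v66, v19] :=
  split_of 1 4 v69 1313961803 (by decide +kernel) t0_206 t0_271 rfl rfl

theorem t0_273 : Good (Q 9) [v87, v30, v7, v10, v66, v19] :=
  split_of 2 3 v23 1341057865 (by decide +kernel) t0_201 t0_272 rfl rfl

theorem t0_274 : Good (Q 9) [v87, v30, v7, v10, v66, v0] :=
  split_of 2 5 v19 1309159440 (by decide +kernel) t0_193 t0_273 rfl rfl

theorem t0_275 : Good (Q 9) [v106, v30, v87, v10, v66, v0] :=
  split_of 1 5 v60 1264382982 (by decide +kernel) (good_ofj c0_253) (good_ofj c0_254) rfl rfl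

theorem t0_276 : Good (Q 9) [v84, v30, v87, v10, v66, v0] :=
  split_of 0 1 v106 1281296482 (by decide +kernel) t0_275 (good_ofj c0_255) rfl rfl

theorem t0_277 : Good (Q 9) [v84, v30, v7, v10, v66, v0] :=
  split_of 0 2 v87 1324037525 (by decide +kernel) t0_274 t0_276 rfl rfl

theorem t0_278 : Good (Q 10) [v84, v30, v7, v10, v66, v0] :=
  env_E _ t0_277

theorem t0_279 : Good (Q 10) [v84, v30, v7, v10, v62, v0] :=
  split_of 2 4 v66 1315710025 (by decide +kernel) t0_191 t0_278 rfl rfl

theorem t0_280 : Good (Q 10) [v84, v30, v7, v3, v62, v0] :=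
  split_of 1 3 v10 1307275754 (by decide +kernel) t0_190 t0_279 rfl rfl

theorem t0_281 : Good (Q 9) [v108, v30, v90, v87, v69, v19] :=
  split_of 1 5 v24 1311740689 (by decide +kernel) (good_ofj c0_260) (good_ofj c0_261) rfl rfl

theorem t0_282 : Good (Q 9) [v108, v30, v90, v87, v66, v19] :=
  split_of 1 4 v69 1313961803 (by decide +kernel) (good_ofj c0_259) t0_281 rfl rfl

theorem t0_283 : Good (Q 9) [v109, v37, v7, v91, v90, v92] :=
  split_of 2 4 v110 1350610654 (by decide +kernel) (good_ofj c0_265) (good_ofj c0_266) rfl rfl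

theorem t0_284 : Good (Q 9) [v109, v37, v7, v91, v90, v59] :=
  split_of 2 5 v92 1350182502 (by decide +kernel) (good_ofj c0_264) t0_283 rfl rfl

theorem t0_285 : Good (Q 9) [v108, v37, v7, v91, v90, v59] :=
  split_of 0 2 v109 1347302695 (by decide +kernel) t0_284 (good_ofj c0_267) rfl rfl

theorem t0_286 : Good (Q 9) [v108, v24, v7, v91, v90, v59] :=
  split_of 1 2 v37 1342484791 (by decide +kernel) t0_285 (good_ofj c0_268) rfl rfl

theorem t0_287 : Good (Q 9) [v108, v24, v7, v87, v90, v59] :=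
  split_of 2 3 v91 1345746917 (by decide +kernel) (good_ofj c0_263) t0_286 rfl rfl

theorem t0_288 : Good (Q 9) [v108, v24, v7, v87, v90, v19] :=
  split_of 2 5 v59 1342177280 (by decide +kernel) (good_ofj c0_262) t0_287 rfl rfl

theorem t0_289 : Good (Q 9) [v109, v95, v7, v93, v110, v37] :=
  split_of 2 5 v42 1350220494 (by decide +kernel) (good_ofj c0_273) (good_ofj c0_274) rfl rfl

theorem t0_290 : Good (Q 9) [v109, v95, v7, v91, v110, v37] :=
  split_of 2 3 v93 1351066130 (by decide +kernel) (good_ofj c0_272) t0_289 rfl rfl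

theorem t0_291 : Good (Q 9) [v109, v95, v7, v91, v90, v37] :=
  split_of 2 4 v110 1350610654 (by decide +kernel) (good_ofj c0_271) t0_290 rfl rfl

theorem t0_292 : Good (Q 9) [v108, v95, v7, v91, v90, v37] :=
  split_of 0 2 v109 1347302695 (by decide +kernel) t0_291 (good_ofj c0_275) rfl rfl

theorem t0_293 : Good (Q 9) [v108, v88, v7, v91, v90, v37] :=
  split_of 1 2 v95 1343406483 (by decide +kernel) t0_292 (good_ofj c0_276) rfl rfl

theorem t0_294 : Good (Q 9) [v108, v88, v7, v91, v90, v24] :=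
  split_of 2 5 v37 1342484791 (by decide +kernel) (good_ofj c0_270) t0_293 rfl rfl

theorem t0_295 : Good (Q 9) [v108, v88, v7, v87, v90, v24] :=
  split_of 2 3 v91 1345746917 (by decide +kernel) (good_ofj c0_269) t0_294 rfl rfl

theorem t0_296 : Good (Q 9) [v111, v38, v37, v88, v90, v49] :=
  split_of 1 4 v72 1342973725 (by decide +kernel) (good_ofj c0_278) (good_ofj c0_279) rfl rfl

theorem t0_297 : Good (Q 9) [v111, v38, v37, v88, v90, v24] :=
  split_of 1 5 v49 1325472642 (by decide +kernel) (good_ofj c0_277) t0_296 rfl rfl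

theorem t0_298 : Good (Q 9) [v108, v38, v37, v88, v90, v24] :=
  split_of 0 1 v111 1336786951 (by decide +kernel) t0_297 (good_ofj c0_280) rfl rfl

theorem t0_299 : Good (Q 9) [v108, v38, v95, v88, v90, v37] :=
  split_of 0 1 v111 1336786951 (by decide +kernel) (good_ofj c0_281) (good_ofj c0_282) rfl rfl

theorem t0_300 : Good (Q 9) [v109, v72, v7, v95, v110, v42] :=
  split_of 1 2 v74 1350336185 (by decide +kernel) (good_ofj c0_285) (good_ofj c0_286) rfl rfl

theorem t0_301 : Good (Q 9) [v109, v72, v7, v95, v110, v37] :=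
  split_of 2 5 v42 1350220494 (by decide +kernel) (good_ofj c0_284) t0_300 rfl rfl

theorem t0_302 : Good (Q 9) [v109, v72, v7, v95, v90, v37] :=
  split_of 2 4 v110 1350610654 (by decide +kernel) (good_ofj c0_283) t0_301 rfl rfl

theorem t0_303 : Good (Q 9) [v109, v43, v42, v95, v72, v37] :=
  split_of 0 5 v112 1346097975 (by decide +kernel) (good_ofj c0_287) (good_ofj c0_288) rfl rfl

theorem t0_304 : Good (Q 9) [v109, v43, v74, v95, v72, v42] :=
  split_of 0 1 v113 1348854888 (by decide +kernel) (good_ofj c0_289) (good_ofj c0_290) rfl rfl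

theorem t0_305 : Good (Q 9) [v109, v43, v98, v95, v74, v42] :=
  split_of 0 1 v113 1348854888 (by decide +kernel) (good_ofj c0_291) (good_ofj c0_292) rfl rfl

theorem t0_306 : Good (Q 9) [v115, v43, v99, v98, v74, v101] :=
  split_of 1 4 v116 1349329923 (by decide +kernel) (good_ofj c0_295) (good_ofj c0_296) rfl rfl

theorem t0_307 : Good (Q 9) [v115, v43, v99, v98, v74, v42] :=
  split_of 1 5 v101 1349299878 (by decide +kernel) (good_ofj c0_294) t0_306 rfl rfl

theorem t0_308 : Good (Q 9) [v114, v43, v99, v98, v74, v42] :=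
  split_of 0 1 v115 1350548520 (by decide +kernel) t0_307 (good_ofj c0_297) rfl rfl

theorem t0_309 : Good (Q 9) [v114, v43, v7, v98, v74, v42] :=
  split_of 1 2 v99 1351535087 (by decide +kernel) (good_ofj c0_293) t0_308 rfl rfl

theorem t0_310 : Good (Q 9) [v109, v43, v7, v98, v74, v42] :=
  split_of 0 2 v114 1351479933 (by decide +kernel) t0_309 (good_ofj c0_298) rfl rfl

theorem t0_311 : Good (Q 9) [v109, v43, v7, v95, v74, v42] :=
  split_of 2 3 v98 1350444950 (by decide +kernel) t0_305 t0_310 rfl rfl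

theorem t0_312 : Good (Q 9) [v109, v43, v7, v95, v72, v42] :=
  split_of 2 4 v74 1350336185 (by decide +kernel) t0_304 t0_311 rfl rfl

theorem t0_313 : Good (Q 9) [v109, v43, v7, v95, v72, v37] :=
  split_of 2 5 v42 1350220494 (by decide +kernel) t0_303 t0_312 rfl rfl

theorem t0_314 : Good (Q 9) [v117, v38, v43, v95, v72, v118] :=
  split_of 1 4 v119 1339187425 (by decide +kernel) (good_ofj c0_300) (good_ofj c0_301) rfl rfl

theorem t0_315 : Good (Q 9) [v117, v38, v43, v95, v72, v37] :=
  split_of 1 5 v118 1339055755 (by decide +kernel) (good_ofj c0_299) t0_314 rfl rfl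

theorem t0_316 : Good (Q 9) [v109, v38, v43, v95, v72, v37] :=
  split_of 0 1 v117 1343797121 (by decide +kernel) t0_315 (good_ofj c0_302) rfl rfl

theorem t0_317 : Good (Q 9) [v109, v38, v7, v95, v72, v37] :=
  split_of 1 2 v43 1347746544 (by decide +kernel) t0_313 t0_316 rfl rfl

theorem t0_318 : Good (Q 9) [v109, v38, v7, v95, v90, v37] :=
  split_of 1 4 v72 1342973725 (by decide +kernel) t0_302 t0_317 rfl rfl

theorem t0_319 : Good (Q 9) [v108, v38, v109, v95, v90, v37] :=
  split_of 0 1 v111 1336786951 (by decide +kernel) (good_ofj c0_303) (good_ofj c0_304) rfl rfl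

theorem t0_320 : Good (Q 9) [v108, v38, v7, v95, v90, v37] :=
  split_of 0 2 v109 1347302695 (by decide +kernel) t0_318 t0_319 rfl rfl

theorem t0_321 : Good (Q 9) [v108, v38, v7, v88, v90, v37] :=
  split_of 2 3 v95 1343406483 (by decide +kernel) t0_299 t0_320 rfl rfl

theorem t0_322 : Good (Q 9) [v108, v38, v7, v88, v90, v24] :=
  split_of 2 5 v37 1342484791 (by decide +kernel) t0_298 t0_321 rfl rfl

theorem t0_323 : Good (Q 9) [v108, v78, v38, v88, v90, v24] :=
  split_of 0 2 v111 1336786951 (by decide +kernel) (good_ofj c0_305) (good_ofj c0_306) rfl rfl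

theorem t0_324 : Good (Q 9) [v121, v122, v38, v89, v78, v52] :=
  split_of 2 3 v104 1319149179 (by decide +kernel) (good_ofj c0_310) (good_ofj c0_311) rfl rfl

theorem t0_325 : Good (Q 9) [v121, v122, v38, v89, v78, v28] :=
  split_of 2 5 v52 1318899466 (by decide +kernel) (good_ofj c0_309) t0_324 rfl rfl

theorem t0_326 : Good (Q 9) [v121, v54, v38, v104, v122, v52] :=
  split_of 0 2 v123 1319243250 (by decide +kernel) (good_ofj c0_314) (good_ofj c0_315) rfl rfl

theorem t0_327 : Good (Q 9) [v121, v54, v38, v89, v122, v52] :=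
  split_of 2 3 v104 1319149179 (by decide +kernel) (good_ofj c0_313) t0_326 rfl rfl

theorem t0_328 : Good (Q 9) [v121, v54, v38, v89, v122, v28] :=
  split_of 2 5 v52 1318899466 (by decide +kernel) (good_ofj c0_312) t0_327 rfl rfl

theorem t0_329 : Good (Q 9) [v121, v30, v38, v89, v122, v28] :=
  split_of 1 2 v54 1309864426 (by decide +kernel) t0_328 (good_ofj c0_316) rfl rfl

theorem t0_330 : Good (Q 9) [v121, v30, v38, v89, v78, v28] :=
  split_of 1 4 v122 1305805878 (by decide +kernel) t0_325 t0_329 rfl rfl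

theorem t0_331 : Good (Q 9) [v124, v121, v38, v89, v78, v28] :=
  split_of 2 5 v52 1318899466 (by decide +kernel) (good_ofj c0_317) (good_ofj c0_318) rfl rfl

theorem t0_332 : Good (Q 9) [v120, v121, v38, v89, v78, v28] :=
  split_of 0 2 v124 1326818823 (by decide +kernel) t0_331 (good_ofj c0_319) rfl rfl

theorem t0_333 : Good (Q 9) [v120, v30, v38, v89, v78, v28] :=
  split_of 0 1 v121 1301234981 (by decide +kernel) t0_330 t0_332 rfl rfl

theorem t0_334 : Good (Q 9) [v120, v30, v38, v88, v78, v28] :=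
  split_of 1 3 v89 1300877891 (by decide +kernel) (good_ofj c0_308) t0_333 rfl rfl

theorem t0_335 : Good (Q 9) [v120, v30, v38, v88, v78, v24] :=
  split_of 1 5 v28 1299835258 (by decide +kernel) (good_ofj c0_307) t0_334 rfl rfl

theorem t0_336 : Good (Q 9) [v108, v30, v38, v88, v78, v24] :=
  split_of 0 1 v120 1317105264 (by decide +kernel) t0_335 (good_ofj c0_320) rfl rfl

theorem t0_337 : Good (Q 9) [v108, v30, v38, v88, v90, v24] :=
  split_of 1 4 v78 1326031496 (by decide +kernel) t0_323 t0_336 rfl rfl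

theorem t0_338 : Good (Q 9) [v108, v30, v7, v88, v90, v24] :=
  split_of 1 2 v38 1333169107 (by decide +kernel) t0_322 t0_337 rfl rfl

theorem t0_339 : Good (Q 9) [v108, v30, v7, v87, v90, v24] :=
  split_of 1 3 v88 1315710025 (by decide +kernel) t0_295 t0_338 rfl rfl

theorem t0_340 : Good (Q 9) [v108, v30, v7, v87, v90, v19] :=
  split_of 1 5 v24 1311740689 (by decide +kernel) t0_288 t0_339 rfl rfl

theorem t0_341 : Good (Q 9) [v108, v30, v7, v87, v66, v19] :=
  split_of 2 4 v90 1343852908 (by decide +kernel) t0_282 t0_340 rfl rfl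

theorem t0_342 : Good (Q 9) [v107, v30, v7, v87, v66, v19] :=
  split_of 0 2 v108 1329531520 (by decide +kernel) t0_341 (good_ofj c0_321) rfl rfl

theorem t0_343 : Good (Q 9) [v107, v30, v7, v87, v66, v0] :=
  split_of 2 5 v19 1309159440 (by decide +kernel) (good_ofj c0_258) t0_342 rfl rfl

theorem t0_344 : Good (Q 9) [v107, v30, v7, v84, v66, v0] :=
  split_of 2 3 v87 1324037525 (by decide +kernel) (good_ofj c0_257) t0_343 rfl rfl

theorem t0_345 : Good (Q 10) [v107, v30, v7, v84, v66, v0] :=
  env_E _ t0_344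

theorem t0_346 : Good (Q 10) [v107, v30, v7, v84, v62, v0] :=
  split_of 2 4 v66 1315710025 (by decide +kernel) (good_ofj c0_256) t0_345 rfl rfl

theorem t0_347 : Good (Q 10) [v125, v30, v7, v84, v62, v0] :=
  split_of 0 2 v107 1245967015 (by decide +kernel) t0_346 (good_ofj c0_322) rfl rfl

theorem t0_348 : Good (Q 10) [v125, v30, v7, v3, v62, v0] :=
  split_of 0 3 v84 1229127558 (by decide +kernel) t0_280 t0_347 rfl rfl

theorem t0_349 : Good (Q 10) [v125, v30, v7, v3, v4, v0] :=
  split_of 0 4 v62 1184875434 (by decide +kernel) t0_187 t0_348 rfl rfl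

theorem t0_350 : Good (Q 10) [v125, v30, v7, v3, v4, v5] :=
  split_of 0 5 v0 1156653316 (by decide +kernel) t0_93 t0_349 rfl rfl

theorem t0_351 : Good (Q 10) [v0, v1, v7, v127, v9, v8] :=
  split_of 0 1 v14 1255753845 (by decide +kernel) (good_ofj c0_327) (good_ofj c0_328) rfl rfl

theorem t0_352 : Good (Q 10) [v0, v1, v7, v127, v2, v8] :=
  split_of 0 4 v9 1271401906 (by decide +kernel) (good_ofj c0_326) t0_351 rfl rfl

theorem t0_353 : Good (Q 10) [v0, v1, v7, v127, v2, v5] :=
  split_of 2 5 v8 1278344175 (by decide +kernel) (good_ofj c0_325) t0_352 rfl rfl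

theorem t0_354 : Good (Q 10) [v0, v1, v7, v126, v2, v5] :=
  split_of 0 3 v127 1241799870 (by decide +kernel) (good_ofj c0_324) t0_353 rfl rfl

theorem t0_355 : Good (Q 10) [v0, v1, v7, v126, v4, v5] :=
  split_of 2 4 v2 1293935275 (by decide +kernel) (good_ofj c0_323) t0_354 rfl rfl

theorem t0_356 : Good (Q 10) [v0, v128, v7, v127, v1, v8] :=
  split_of 0 4 v14 1255753845 (by decide +kernel) (good_ofj c0_331) (good_ofj c0_332) rfl rfl

theorem t0_357 : Good (Q 10) [v0, v128, v7, v127, v1, v5] :=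
  split_of 2 5 v8 1278344175 (by decide +kernel) (good_ofj c0_330) t0_356 rfl rfl

theorem t0_358 : Good (Q 10) [v0, v128, v7, v126, v1, v5] :=
  split_of 0 3 v127 1241799870 (by decide +kernel) (good_ofj c0_329) t0_357 rfl rfl

theorem t0_359 : Good (Q 10) [v14, v15, v7, v128, v1, v8] :=
  split_of 2 4 v13 1334301791 (by decide +kernel) (good_ofj c0_334) (good_ofj c0_335) rfl rfl

theorem t0_360 : Good (Q 10) [v0, v15, v7, v128, v14, v8] :=
  split_of 0 2 v19 1309159440 (by decide +kernel) (good_ofj c0_336) (good_ofj c0_337) rfl rfl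

theorem t0_361 : Good (Q 10) [v0, v15, v7, v128, v1, v8] :=
  split_of 0 4 v14 1255753845 (by decide +kernel) t0_359 t0_360 rfl rfl

theorem t0_362 : Good (Q 10) [v0, v15, v7, v128, v1, v5] :=
  split_of 2 5 v8 1278344175 (by decide +kernel) (good_ofj c0_333) t0_361 rfl rfl

theorem t0_363 : Good (Q 9) [v19, v129, v7, v130, v31, v21] :=
  split_of 2 5 v34 1336420407 (by decide +kernel) (good_ofj c0_342) (good_ofj c0_343) rfl rfl

theorem t0_364 : Good (Q 9) [v19, v129, v7, v130, v20, v21] :=
  split_of 2 4 v31 1338335496 (by decide +kernel) (good_ofj c0_341) t0_363 rfl rfl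

theorem t0_365 : Good (Q 9) [v19, v129, v7, v128, v20, v21] :=
  split_of 2 3 v130 1341057865 (by decide +kernel) (good_ofj c0_340) t0_364 rfl rfl

theorem t0_366 : Good (Q 9) [v28, v30, v32, v129, v26, v27] :=
  split_of 1 3 v131 1293604245 (by decide +kernel) (good_ofj c0_347) (good_ofj c0_348) rfl rfl

theorem t0_367 : Good (Q 9) [v24, v30, v32, v129, v26, v27] :=
  split_of 0 1 v28 1299835258 (by decide +kernel) t0_366 (good_ofj c0_349) rfl rfl

theorem t0_368 : Good (Q 9) [v24, v30, v31, v129, v26, v27] :=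
  split_of 1 2 v32 1315706387 (by decide +kernel) (good_ofj c0_346) t0_367 rfl rfl

theorem t0_369 : Good (Q 9) [v24, v30, v31, v129, v26, v21] :=
  split_of 1 5 v27 1289558025 (by decide +kernel) (good_ofj c0_345) t0_368 rfl rfl

theorem t0_370 : Good (Q 9) [v24, v30, v31, v129, v20, v21] :=
  split_of 1 4 v26 1292097425 (by decide +kernel) (good_ofj c0_344) t0_369 rfl rfl

theorem t0_371 : Good (Q 9) [v28, v30, v35, v131, v32, v27] :=
  split_of 1 5 v36 1285543406 (by decide +kernel) (good_ofj c0_354) (good_ofj c0_355) rfl rfl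

theorem t0_372 : Good (Q 9) [v28, v30, v35, v129, v32, v27] :=
  split_of 1 3 v131 1293604245 (by decide +kernel) (good_ofj c0_353) t0_371 rfl rfl

theorem t0_373 : Good (Q 9) [v24, v30, v35, v129, v32, v27] :=
  split_of 0 1 v28 1299835258 (by decide +kernel) t0_372 (good_ofj c0_356) rfl rfl

theorem t0_374 : Good (Q 9) [v24, v30, v35, v129, v31, v27] :=
  split_of 1 4 v32 1315706387 (by decide +kernel) (good_ofj c0_352) t0_373 rfl rfl

theorem t0_375 : Good (Q 9) [v24, v30, v34, v129, v31, v27] :=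
  split_of 1 2 v35 1315109598 (by decide +kernel) (good_ofj c0_351) t0_374 rfl rfl

theorem t0_376 : Good (Q 9) [v24, v30, v34, v129, v31, v21] :=
  split_of 1 5 v27 1289558025 (by decide +kernel) (good_ofj c0_350) t0_375 rfl rfl

theorem t0_377 : Good (Q 9) [v24, v38, v133, v129, v31, v34] :=
  split_of 0 3 v132 1310480667 (by decide +kernel) (good_ofj c0_357) (good_ofj c0_358) rfl rfl

theorem t0_378 : Good (Q 9) [v42, v43, v7, v134, v41, v45] :=
  split_of 2 4 v135 1351882716 (by decide +kernel) (good_ofj c0_363) (good_ofj c0_364) rfl rfl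

theorem t0_379 : Good (Q 9) [v42, v43, v7, v134, v41, v40] :=
  split_of 2 5 v45 1351770736 (by decide +kernel) (good_ofj c0_362) t0_378 rfl rfl

theorem t0_380 : Good (Q 9) [v37, v43, v7, v134, v41, v40] :=
  split_of 0 2 v42 1350220494 (by decide +kernel) t0_379 (good_ofj c0_365) rfl rfl

theorem t0_381 : Good (Q 9) [v37, v43, v7, v133, v41, v40] :=
  split_of 2 3 v134 1349522479 (by decide +kernel) (good_ofj c0_361) t0_380 rfl rfl

theorem t0_382 : Good (Q 9) [v37, v38, v43, v133, v41, v47] :=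
  split_of 1 4 v77 1343140841 (by decide +kernel) (good_ofj c0_367) (good_ofj c0_368) rfl rfl

theorem t0_383 : Good (Q 9) [v37, v38, v43, v133, v41, v40] :=
  split_of 1 5 v47 1343013435 (by decide +kernel) (good_ofj c0_366) t0_382 rfl rfl

theorem t0_384 : Good (Q 9) [v37, v38, v7, v133, v41, v40] :=
  split_of 1 2 v43 1347746544 (by decide +kernel) t0_381 t0_383 rfl rfl

theorem t0_385 : Good (Q 9) [v37, v38, v7, v133, v31, v40] :=
  split_of 2 4 v41 1349100556 (by decide +kernel) (good_ofj c0_360) t0_384 rfl rfl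

theorem t0_386 : Good (Q 9) [v37, v38, v7, v133, v31, v34] :=
  split_of 2 5 v40 1348643751 (by decide +kernel) (good_ofj c0_359) t0_385 rfl rfl

theorem t0_387 : Good (Q 9) [v24, v38, v7, v133, v31, v34] :=
  split_of 0 2 v37 1342484791 (by decide +kernel) t0_386 (good_ofj c0_369) rfl rfl

theorem t0_388 : Good (Q 9) [v24, v38, v7, v129, v31, v34] :=
  split_of 2 3 v133 1339964634 (by decide +kernel) t0_377 t0_387 rfl rfl

theorem t0_389 : Good (Q 8) [v132, v35, v38, v129, v31, v34] :=
  split_of 3 5 v136 1323696227 (by decide +kernel) (good_ofj c0_370) (good_ofj c0_371) rfl rfl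

theorem t0_390 : Good (Q 9) [v132, v35, v38, v129, v31, v34] :=
  P_of 8 9 0xfffffffffffffffffffffffffffffffffff3ccf23bcee2ccb32e8ba2bcae2d8b6ffffffffffffffffffffffffffffff2f4bc390e6390e6fffff2ccb32e0b82ccb3
    (by decide +kernel) t0_389

theorem t0_391 : Good (Q 9) [v24, v35, v38, v129, v31, v34] :=
  split_of 0 3 v132 1310480667 (by decide +kernel) t0_390 (good_ofj c0_372) rfl rfl

theorem t0_392 : Good (Q 9) [v24, v32, v38, v132, v31, v35] :=
  split_of 0 2 v49 1325472642 (by decide +kernel) (good_ofj c0_374) (good_ofj c0_375) rfl rfl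

theorem t0_393 : Good (Q 9) [v24, v32, v38, v129, v31, v35] :=
  split_of 0 3 v132 1310480667 (by decide +kernel) (good_ofj c0_373) t0_392 rfl rfl

theorem t0_394 : Good (Q 9) [v28, v131, v38, v129, v32, v35] :=
  split_of 2 3 v137 1321013612 (by decide +kernel) (good_ofj c0_376) (good_ofj c0_377) rfl rfl

theorem t0_395 : Good (Q 7) [v138, v54, v139, v131, v32, v35] :=
  split_of 3 5 v140 1305261443 (by decide +kernel) (good_ofj c0_378) (good_ofj c0_379) rfl rfl

theorem t0_396 : Good (Q 8) [v138, v54, v139, v131, v32, v35] :=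
  P_of 7 8 0xffffffffffffffffffffffffffffff5094240d03409022c4b12d4b62bcae2c8b2ffffffffffffffffffffffffffffff2f8bf34cd3350d471dc72e4b92f4be2e4b9
    (by decide +kernel) t0_395

theorem t0_397 : Good (Q 7) [v28, v54, v139, v138, v32, v35] :=
  split_of 0 2 v141 1308860877 (by decide +kernel) (good_ofj c0_380) (good_ofj c0_381) rfl rfl

theorem t0_398 : Good (Q 8) [v28, v54, v139, v138, v32, v35] :=
  P_of 7 8 0xffffffffffffffffffffffffffffff51146411043fcfe2b8ae2d8b72c8b12c4b1ffffffffffffffffffffffffffffff2fcc0344d1360d9715c32e8b92ecbb2e8b9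
    (by decide +kernel) t0_397

theorem t0_399 : Good (Q 8) [v28, v54, v139, v131, v32, v35] :=
  split_of 0 3 v138 1297479458 (by decide +kernel) t0_396 t0_398 rfl rfl

theorem t0_400 : Good (Q 9) [v28, v54, v139, v131, v32, v35] :=
  P_of 8 9 0xffffffffffffffffffffffffffffff5094241105405012c0af2d8b72c0b02c8b2ffffffffffffffffffffffffffffff2fcc0344d1358d6fffff2e4b92f0bc2e4b9
    (by decide +kernel) t0_399

theorem t0_401 : Good (Q 9) [v52, v54, v38, v139, v32, v35] :=
  split_of 2 5 v55 1325079639 (by decide +kernel) (good_ofj c0_382) (good_ofj c0_383) rfl rfl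

theorem t0_402 : Good (Q 9) [v28, v54, v38, v139, v32, v35] :=
  split_of 0 2 v52 1318899466 (by decide +kernel) t0_401 (good_ofj c0_384) rfl rfl

theorem t0_403 : Good (Q 9) [v28, v54, v38, v131, v32, v35] :=
  split_of 2 3 v139 1316091829 (by decide +kernel) t0_400 t0_402 rfl rfl

theorem t0_404 : Good (Q 7) [v138, v58, v54, v131, v32, v35] :=
  split_of 3 5 v140 1305261443 (by decide +kernel) (good_ofj c0_385) (good_ofj c0_386) rfl rfl

theorem t0_405 : Good (Q 8) [v138, v58, v54, v131, v32, v35] :=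
  P_of 7 8 0xffffffffffffffffffffffffffffff4fd404150540d022c4b12d4b52b8ae2c8b3ffffffffffffffffffffffffffffff300c0348d3348d372dca2e4b92f8bd2e4b9
    (by decide +kernel) t0_404

theorem t0_406 : Good (Q 8) [v28, v58, v54, v138, v32, v35] :=
  split_of 0 2 v57 1305645227 (by decide +kernel) (good_ofj c0_387) (good_ofj c0_388) rfl rfl

theorem t0_407 : Good (Q 8) [v28, v58, v54, v131, v32, v35] :=
  split_of 0 3 v138 1297479458 (by decide +kernel) t0_405 t0_406 rfl rfl

theorem t0_408 : Good (Q 9) [v28, v58, v54, v131, v32, v35] :=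
  P_of 8 9 0xffffffffffffffffffffffffffffff5014141906405012bcaf2d8b62c0b02c8b2ffffffffffffffffffffffffffffff300c0344d1350d5fffff2e8b92f0bc2e8b9
    (by decide +kernel) t0_407

theorem t0_409 : Good (Q 9) [v28, v30, v54, v131, v32, v35] :=
  split_of 1 5 v58 1298631825 (by decide +kernel) t0_408 (good_ofj c0_389) rfl rfl

theorem t0_410 : Good (Q 9) [v28, v30, v38, v131, v32, v35] :=
  split_of 1 2 v54 1309864426 (by decide +kernel) t0_403 t0_409 rfl rfl

theorem t0_411 : Good (Q 9) [v28, v30, v38, v129, v32, v35] :=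
  split_of 1 3 v131 1293604245 (by decide +kernel) t0_394 t0_410 rfl rfl

theorem t0_412 : Good (Q 9) [v24, v28, v38, v129, v32, v35] :=
  split_of 0 3 v132 1310480667 (by decide +kernel) (good_ofj c0_390) (good_ofj c0_391) rfl rfl

theorem t0_413 : Good (Q 9) [v24, v30, v38, v129, v32, v35] :=
  split_of 0 1 v28 1299835258 (by decide +kernel) t0_411 t0_412 rfl rfl

theorem t0_414 : Good (Q 9) [v24, v30, v38, v129, v31, v35] :=
  split_of 1 4 v32 1315706387 (by decide +kernel) t0_393 t0_413 rfl rfl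

theorem t0_415 : Good (Q 9) [v24, v30, v38, v129, v31, v34] :=
  split_of 1 5 v35 1315109598 (by decide +kernel) t0_391 t0_414 rfl rfl

theorem t0_416 : Good (Q 9) [v24, v30, v7, v129, v31, v34] :=
  split_of 1 2 v38 1333169107 (by decide +kernel) t0_388 t0_415 rfl rfl

theorem t0_417 : Good (Q 9) [v24, v30, v7, v129, v31, v21] :=
  split_of 2 5 v34 1336420407 (by decide +kernel) t0_376 t0_416 rfl rfl

theorem t0_418 : Good (Q 9) [v24, v30, v7, v129, v20, v21] :=
  split_of 2 4 v31 1338335496 (by decide +kernel) t0_370 t0_417 rfl rfl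

theorem t0_419 : Good (Q 9) [v59, v24, v7, v129, v31, v21] :=
  split_of 2 5 v34 1336420407 (by decide +kernel) (good_ofj c0_393) (good_ofj c0_394) rfl rfl

theorem t0_420 : Good (Q 9) [v19, v24, v7, v129, v31, v21] :=
  split_of 0 2 v59 1342177280 (by decide +kernel) t0_419 (good_ofj c0_395) rfl rfl

theorem t0_421 : Good (Q 9) [v19, v24, v7, v129, v20, v21] :=
  split_of 2 4 v31 1338335496 (by decide +kernel) (good_ofj c0_392) t0_420 rfl rfl

theorem t0_422 : Good (Q 9) [v19, v30, v7, v129, v20, v21] :=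
  split_of 0 1 v24 1311740689 (by decide +kernel) t0_418 t0_421 rfl rfl

theorem t0_423 : Good (Q 9) [v19, v30, v7, v128, v20, v21] :=
  split_of 1 3 v129 1303729140 (by decide +kernel) t0_365 t0_422 rfl rfl

theorem t0_424 : Good (Q 9) [v19, v30, v7, v128, v20, v15] :=
  split_of 1 5 v21 1288860967 (by decide +kernel) (good_ofj c0_339) t0_423 rfl rfl

theorem t0_425 : Good (Q 10) [v19, v30, v7, v128, v20, v15] :=
  env_E _ t0_424

theorem t0_426 : Good (Q 10) [v19, v30, v7, v128, v1, v15] :=
  split_of 1 4 v20 1297535559 (by decide +kernel) (good_ofj c0_338) t0_425 rfl rfl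

theorem t0_427 : Good (Q 9) [v143, v30, v19, v128, v20, v21] :=
  split_of 2 3 v144 1317337517 (by decide +kernel) (good_ofj c0_398) (good_ofj c0_399) rfl rfl

theorem t0_428 : Good (Q 9) [v142, v30, v19, v128, v20, v21] :=
  split_of 0 1 v143 1293574143 (by decide +kernel) t0_427 (good_ofj c0_400) rfl rfl

theorem t0_429 : Good (Q 10) [v142, v30, v19, v128, v20, v21] :=
  env_E _ t0_428

theorem t0_430 : Good (Q 10) [v142, v30, v19, v128, v20, v15] :=
  split_of 1 5 v21 1288860967 (by decide +kernel) (good_ofj c0_397) t0_429 rfl rfl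

theorem t0_431 : Good (Q 10) [v142, v30, v19, v128, v1, v15] :=
  split_of 1 4 v20 1297535559 (by decide +kernel) (good_ofj c0_396) t0_430 rfl rfl

theorem t0_432 : Good (Q 10) [v0, v30, v19, v142, v1, v15] :=
  split_of 0 4 v14 1255753845 (by decide +kernel) (good_ofj c0_401) (good_ofj c0_402) rfl rfl

theorem t0_433 : Good (Q 10) [v0, v30, v19, v128, v1, v15] :=
  split_of 0 3 v142 1268403305 (by decide +kernel) t0_431 t0_432 rfl rfl

theorem t0_434 : Good (Q 10) [v0, v30, v7, v128, v1, v15] :=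
  split_of 0 2 v19 1309159440 (by decide +kernel) t0_426 t0_433 rfl rfl

theorem t0_435 : Good (Q 10) [v0, v30, v7, v128, v1, v5] :=
  split_of 1 5 v15 1256264730 (by decide +kernel) t0_362 t0_434 rfl rfl

theorem t0_436 : Good (Q 10) [v0, v30, v7, v126, v1, v5] :=
  split_of 1 3 v128 1307275754 (by decide +kernel) t0_358 t0_435 rfl rfl

theorem t0_437 : Good (Q 10) [v0, v30, v7, v126, v4, v5] :=
  split_of 1 4 v1 1280313892 (by decide +kernel) t0_355 t0_436 rfl rfl

theorem t0_438 : Good (Q 10) [v62, v1, v7, v126, v63, v0] :=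
  split_of 3 5 v127 1241799870 (by decide +kernel) (good_ofj c0_403) (good_ofj c0_404) rfl rfl

theorem t0_439 : Good (Q 10) [v62, v1, v7, v126, v4, v0] :=
  split_of 4 5 v63 1202967926 (by decide +kernel) t0_438 (good_ofj c0_405) rfl rfl

theorem t0_440 : Good (Q 10) [v66, v128, v7, v127, v1, v0] :=
  split_of 4 5 v14 1255753845 (by decide +kernel) (good_ofj c0_406) (good_ofj c0_407) rfl rfl

theorem t0_441 : Good (Q 10) [v62, v128, v7, v127, v1, v0] :=
  split_of 0 2 v66 1315710025 (by decide +kernel) t0_440 (good_ofj c0_408) rfl rfl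

theorem t0_442 : Good (Q 10) [v62, v128, v7, v126, v1, v0] :=
  split_of 3 5 v127 1241799870 (by decide +kernel) t0_441 (good_ofj c0_409) rfl rfl

theorem t0_443 : Good (Q 10) [v66, v30, v19, v128, v14, v0] :=
  split_of 3 5 v142 1268403305 (by decide +kernel) (good_ofj c0_410) (good_ofj c0_411) rfl rfl

theorem t0_444 : Good (Q 10) [v66, v30, v19, v128, v1, v0] :=
  split_of 4 5 v14 1255753845 (by decide +kernel) t0_443 (good_ofj c0_412) rfl rfl

theorem t0_445 : Good (Q 9) [v72, v133, v7, v130, v31, v59] :=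
  split_of 2 3 v145 1349823198 (by decide +kernel) (good_ofj c0_417) (good_ofj c0_418) rfl rfl

theorem t0_446 : Good (Q 9) [v69, v133, v7, v130, v31, v59] :=
  split_of 0 2 v72 1342973725 (by decide +kernel) t0_445 (good_ofj c0_419) rfl rfl

theorem t0_447 : Good (Q 9) [v69, v129, v7, v130, v31, v59] :=
  split_of 1 2 v133 1339964634 (by decide +kernel) t0_446 (good_ofj c0_420) rfl rfl

theorem t0_448 : Good (Q 9) [v69, v129, v7, v130, v31, v19] :=
  split_of 2 5 v59 1342177280 (by decide +kernel) (good_ofj c0_416) t0_447 rfl rfl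

theorem t0_449 : Good (Q 9) [v69, v129, v7, v130, v20, v19] :=
  split_of 2 4 v31 1338335496 (by decide +kernel) (good_ofj c0_415) t0_448 rfl rfl

theorem t0_450 : Good (Q 9) [v69, v129, v7, v128, v20, v19] :=
  split_of 2 3 v130 1341057865 (by decide +kernel) (good_ofj c0_414) t0_449 rfl rfl

theorem t0_451 : Good (Q 9) [v69, v24, v7, v133, v31, v59] :=
  split_of 1 2 v37 1342484791 (by decide +kernel) (good_ofj c0_424) (good_ofj c0_425) rfl rfl

theorem t0_452 : Good (Q 9) [v69, v24, v7, v129, v31, v59] :=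
  split_of 2 3 v133 1339964634 (by decide +kernel) (good_ofj c0_423) t0_451 rfl rfl

theorem t0_453 : Good (Q 9) [v69, v24, v7, v129, v20, v59] :=
  split_of 2 4 v31 1338335496 (by decide +kernel) (good_ofj c0_422) t0_452 rfl rfl

theorem t0_454 : Good (Q 9) [v69, v24, v7, v129, v20, v19] :=
  split_of 2 5 v59 1342177280 (by decide +kernel) (good_ofj c0_421) t0_453 rfl rfl

theorem t0_455 : Good (Q 9) [v71, v30, v32, v129, v26, v28] :=
  split_of 1 3 v131 1293604245 (by decide +kernel) (good_ofj c0_429) (good_ofj c0_430) rfl rfl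

theorem t0_456 : Good (Q 9) [v69, v30, v32, v129, v26, v28] :=
  split_of 0 1 v71 1300475931 (by decide +kernel) t0_455 (good_ofj c0_431) rfl rfl

theorem t0_457 : Good (Q 9) [v69, v30, v32, v129, v26, v24] :=
  split_of 1 5 v28 1299835258 (by decide +kernel) (good_ofj c0_428) t0_456 rfl rfl

theorem t0_458 : Good (Q 9) [v69, v30, v31, v129, v26, v24] :=
  split_of 1 2 v32 1315706387 (by decide +kernel) (good_ofj c0_427) t0_457 rfl rfl

theorem t0_459 : Good (Q 9) [v69, v30, v31, v129, v20, v24] :=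
  split_of 1 4 v26 1292097425 (by decide +kernel) (good_ofj c0_426) t0_458 rfl rfl

theorem t0_460 : Good (Q 9) [v69, v38, v133, v129, v31, v132] :=
  split_of 0 3 v146 1311023066 (by decide +kernel) (good_ofj c0_433) (good_ofj c0_434) rfl rfl

theorem t0_461 : Good (Q 9) [v69, v38, v133, v129, v31, v24] :=
  split_of 3 5 v132 1310480667 (by decide +kernel) (good_ofj c0_432) t0_460 rfl rfl

theorem t0_462 : Good (Q 9) [v69, v38, v37, v133, v31, v24] :=
  split_of 3 5 v147 1329324888 (by decide +kernel) (good_ofj c0_435) (good_ofj c0_436) rfl rfl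

theorem t0_463 : Good (Q 9) [v74, v43, v99, v134, v148, v42] :=
  split_of 1 5 v101 1349299878 (by decide +kernel) (good_ofj c0_443) (good_ofj c0_444) rfl rfl

theorem t0_464 : Good (Q 9) [v74, v43, v99, v134, v135, v42] :=
  split_of 1 4 v148 1350346490 (by decide +kernel) (good_ofj c0_442) t0_463 rfl rfl

theorem t0_465 : Good (Q 9) [v74, v43, v7, v134, v135, v42] :=
  split_of 1 2 v99 1351535087 (by decide +kernel) (good_ofj c0_441) t0_464 rfl rfl

theorem t0_466 : Good (Q 9) [v74, v43, v7, v134, v41, v42] :=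
  split_of 2 4 v135 1351882716 (by decide +kernel) (good_ofj c0_440) t0_465 rfl rfl

theorem t0_467 : Good (Q 9) [v72, v43, v7, v134, v41, v42] :=
  split_of 0 2 v74 1350336185 (by decide +kernel) t0_466 (good_ofj c0_445) rfl rfl

theorem t0_468 : Good (Q 9) [v72, v43, v7, v134, v41, v37] :=
  split_of 2 5 v42 1350220494 (by decide +kernel) (good_ofj c0_439) t0_467 rfl rfl

theorem t0_469 : Good (Q 9) [v72, v43, v7, v133, v41, v37] :=
  split_of 2 3 v134 1349522479 (by decide +kernel) (good_ofj c0_438) t0_468 rfl rfl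

theorem t0_470 : Good (Q 9) [v72, v38, v43, v133, v41, v37] :=
  split_of 1 4 v77 1343140841 (by decide +kernel) (good_ofj c0_446) (good_ofj c0_447) rfl rfl

theorem t0_471 : Good (Q 9) [v72, v38, v7, v133, v41, v37] :=
  split_of 1 2 v43 1347746544 (by decide +kernel) t0_469 t0_470 rfl rfl

theorem t0_472 : Good (Q 9) [v72, v38, v7, v133, v31, v37] :=
  split_of 2 4 v41 1349100556 (by decide +kernel) (good_ofj c0_437) t0_471 rfl rfl

theorem t0_473 : Good (Q 9) [v69, v38, v7, v133, v31, v37] :=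
  split_of 0 2 v72 1342973725 (by decide +kernel) t0_472 (good_ofj c0_448) rfl rfl

theorem t0_474 : Good (Q 9) [v69, v38, v7, v133, v31, v24] :=
  split_of 2 5 v37 1342484791 (by decide +kernel) t0_462 t0_473 rfl rfl

theorem t0_475 : Good (Q 9) [v69, v38, v7, v129, v31, v24] :=
  split_of 2 3 v133 1339964634 (by decide +kernel) t0_461 t0_474 rfl rfl

theorem t0_476 : Good (Q 9) [v69, v32, v38, v129, v31, v132] :=
  split_of 0 3 v146 1311023066 (by decide +kernel) (good_ofj c0_450) (good_ofj c0_451) rfl rfl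

theorem t0_477 : Good (Q 9) [v69, v32, v38, v129, v31, v24] :=
  split_of 3 5 v132 1310480667 (by decide +kernel) (good_ofj c0_449) t0_476 rfl rfl

theorem t0_478 : Good (Q 9) [v69, v28, v38, v129, v32, v132] :=
  split_of 0 3 v146 1311023066 (by decide +kernel) (good_ofj c0_453) (good_ofj c0_454) rfl rfl

theorem t0_479 : Good (Q 9) [v69, v28, v38, v129, v32, v24] :=
  split_of 3 5 v132 1310480667 (by decide +kernel) (good_ofj c0_452) t0_478 rfl rfl

theorem t0_480 : Good (Q 9) [v71, v131, v38, v137, v32, v28] :=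
  split_of 1 2 v139 1316091829 (by decide +kernel) (good_ofj c0_456) (good_ofj c0_457) rfl rfl

theorem t0_481 : Good (Q 9) [v71, v131, v38, v129, v32, v28] :=
  split_of 2 3 v137 1321013612 (by decide +kernel) (good_ofj c0_455) t0_480 rfl rfl

theorem t0_482 : Good (Q 7) [v71, v54, v139, v138, v32, v28] :=
  split_of 2 5 v141 1308860877 (by decide +kernel) (good_ofj c0_458) (good_ofj c0_459) rfl rfl

theorem t0_483 : Good (Q 8) [v71, v54, v139, v138, v32, v28] :=
  P_of 7 8 0xffffffffffffffffffffffffffffff51d4640d043f8fe2bcae2dcb72c4b12c8b1ffffffffffffffffffffffffffffff2fcc0348d1360d9705c32e4b92ecbb2e4b9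
    (by decide +kernel) t0_482

theorem t0_484 : Good (Q 7) [v71, v54, v139, v131, v32, v138] :=
  split_of 0 2 v149 1309015228 (by decide +kernel) (good_ofj c0_460) (good_ofj c0_461) rfl rfl

theorem t0_485 : Good (Q 8) [v71, v54, v139, v131, v32, v138] :=
  P_of 7 8 0xffffffffffffffffffffffffffffff5094140d0340d032c0b02d8b82c0af2c8b2ffffffffffffffffffffffffffffff2fcbf344d1354d5721c82e0b82f4be2e8ba
    (by decide +kernel) t0_484

theorem t0_486 : Good (Q 8) [v71, v54, v139, v131, v32, v28] :=
  split_of 3 5 v138 1297479458 (by decide +kernel) t0_483 t0_485 rfl rfl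

theorem t0_487 : Good (Q 9) [v71, v54, v139, v131, v32, v28] :=
  P_of 8 9 0xffffffffffffffffffffffffffffff5094241105405012c0af2d8b72c0b02c8b2ffffffffffffffffffffffffffffff2fcc0344d1358d6fffff2e4b92f0bc2e4b9
    (by decide +kernel) t0_486

theorem t0_488 : Good (Q 9) [v71, v54, v38, v139, v32, v52] :=
  split_of 0 2 v79 1319049667 (by decide +kernel) (good_ofj c0_463) (good_ofj c0_464) rfl rfl

theorem t0_489 : Good (Q 9) [v71, v54, v38, v139, v32, v28] :=
  split_of 2 5 v52 1318899466 (by decide +kernel) (good_ofj c0_462) t0_488 rfl rfl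

theorem t0_490 : Good (Q 9) [v71, v54, v38, v131, v32, v28] :=
  split_of 2 3 v139 1316091829 (by decide +kernel) t0_487 t0_489 rfl rfl

theorem t0_491 : Good (Q 8) [v71, v150, v54, v131, v32, v28] :=
  split_of 3 5 v138 1297479458 (by decide +kernel) (good_ofj c0_465) (good_ofj c0_466) rfl rfl

theorem t0_492 : Good (Q 9) [v71, v150, v54, v131, v32, v28] :=
  P_of 8 9 0xffffffffffffffffffffffffffffff5014041505409022bcaf2d8b62c0b02c8b2ffffffffffffffffffffffffffffff300c0344d1354d5fffff2e4b92f0bc2e8ba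
    (by decide +kernel) t0_491

theorem t0_493 : Good (Q 9) [v71, v30, v54, v131, v32, v28] :=
  split_of 1 4 v150 1298797948 (by decide +kernel) t0_492 (good_ofj c0_467) rfl rfl

theorem t0_494 : Good (Q 9) [v71, v30, v38, v131, v32, v28] :=
  split_of 1 2 v54 1309864426 (by decide +kernel) t0_490 t0_493 rfl rfl

theorem t0_495 : Good (Q 9) [v71, v30, v38, v129, v32, v28] :=
  split_of 1 3 v131 1293604245 (by decide +kernel) t0_481 t0_494 rfl rfl

theorem t0_496 : Good (Q 9) [v146, v71, v38, v129, v32, v28] :=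
  split_of 2 3 v137 1321013612 (by decide +kernel) (good_ofj c0_468) (good_ofj c0_469) rfl rfl

theorem t0_497 : Good (Q 9) [v69, v71, v38, v129, v32, v28] :=
  split_of 0 3 v146 1311023066 (by decide +kernel) t0_496 (good_ofj c0_470) rfl rfl

theorem t0_498 : Good (Q 9) [v69, v30, v38, v129, v32, v28] :=
  split_of 0 1 v71 1300475931 (by decide +kernel) t0_495 t0_497 rfl rfl

theorem t0_499 : Good (Q 9) [v69, v30, v38, v129, v32, v24] :=
  split_of 1 5 v28 1299835258 (by decide +kernel) t0_479 t0_498 rfl rfl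

theorem t0_500 : Good (Q 9) [v69, v30, v38, v129, v31, v24] :=
  split_of 1 4 v32 1315706387 (by decide +kernel) t0_477 t0_499 rfl rfl

theorem t0_501 : Good (Q 9) [v69, v30, v7, v129, v31, v24] :=
  split_of 1 2 v38 1333169107 (by decide +kernel) t0_475 t0_500 rfl rfl

theorem t0_502 : Good (Q 9) [v69, v30, v7, v129, v20, v24] :=
  split_of 2 4 v31 1338335496 (by decide +kernel) t0_459 t0_501 rfl rfl

theorem t0_503 : Good (Q 9) [v69, v30, v7, v129, v20, v19] :=
  split_of 1 5 v24 1311740689 (by decide +kernel) t0_454 t0_502 rfl rfl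

theorem t0_504 : Good (Q 9) [v69, v30, v7, v128, v20, v19] :=
  split_of 1 3 v129 1303729140 (by decide +kernel) t0_450 t0_503 rfl rfl

theorem t0_505 : Good (Q 9) [v66, v69, v7, v128, v20, v19] :=
  split_of 3 5 v144 1317337517 (by decide +kernel) (good_ofj c0_471) (good_ofj c0_472) rfl rfl

theorem t0_506 : Good (Q 9) [v66, v30, v7, v128, v20, v19] :=
  split_of 0 1 v69 1313961803 (by decide +kernel) t0_504 t0_505 rfl rfl

theorem t0_507 : Good (Q 10) [v66, v30, v7, v128, v20, v19] :=
  env_E _ t0_506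

theorem t0_508 : Good (Q 10) [v66, v30, v7, v128, v1, v19] :=
  split_of 1 4 v20 1297535559 (by decide +kernel) (good_ofj c0_413) t0_507 rfl rfl

theorem t0_509 : Good (Q 10) [v66, v30, v7, v128, v1, v0] :=
  split_of 2 5 v19 1309159440 (by decide +kernel) t0_444 t0_508 rfl rfl

theorem t0_510 : Good (Q 10) [v151, v30, v66, v128, v14, v0] :=
  split_of 3 5 v142 1268403305 (by decide +kernel) (good_ofj c0_473) (good_ofj c0_474) rfl rfl

theorem t0_511 : Good (Q 10) [v62, v30, v66, v128, v14, v0] :=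
  split_of 0 1 v151 1273393141 (by decide +kernel) t0_510 (good_ofj c0_475) rfl rfl

theorem t0_512 : Good (Q 10) [v62, v30, v66, v128, v1, v0] :=
  split_of 4 5 v14 1255753845 (by decide +kernel) t0_511 (good_ofj c0_476) rfl rfl

theorem t0_513 : Good (Q 10) [v62, v30, v7, v128, v1, v0] :=
  split_of 0 2 v66 1315710025 (by decide +kernel) t0_509 t0_512 rfl rfl

theorem t0_514 : Good (Q 10) [v62, v30, v7, v126, v1, v0] :=
  split_of 1 3 v128 1307275754 (by decide +kernel) t0_442 t0_513 rfl rfl

theorem t0_515 : Good (Q 10) [v62, v30, v7, v126, v4, v0] :=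
  split_of 1 4 v1 1280313892 (by decide +kernel) t0_439 t0_514 rfl rfl

theorem t0_516 : Good (Q 9) [v159, v43, v7, v158, v74, v42] :=
  split_of 2 3 v160 1351955923 (by decide +kernel) (good_ofj c0_488) (good_ofj c0_489) rfl rfl

theorem t0_517 : Good (Q 9) [v157, v43, v7, v158, v74, v42] :=
  split_of 0 2 v159 1350439771 (by decide +kernel) t0_516 (good_ofj c0_490) rfl rfl

theorem t0_518 : Good (Q 9) [v157, v43, v7, v158, v72, v42] :=
  split_of 2 4 v74 1350336185 (by decide +kernel) (good_ofj c0_487) t0_517 rfl rfl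

theorem t0_519 : Good (Q 9) [v157, v43, v7, v158, v72, v37] :=
  split_of 2 5 v42 1350220494 (by decide +kernel) (good_ofj c0_486) t0_518 rfl rfl

theorem t0_520 : Good (Q 9) [v157, v38, v43, v158, v72, v37] :=
  split_of 1 3 v161 1343806274 (by decide +kernel) (good_ofj c0_491) (good_ofj c0_492) rfl rfl

theorem t0_521 : Good (Q 9) [v157, v38, v7, v158, v72, v37] :=
  split_of 1 2 v43 1347746544 (by decide +kernel) t0_519 t0_520 rfl rfl

theorem t0_522 : Good (Q 9) [v157, v38, v7, v155, v72, v37] :=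
  split_of 2 3 v158 1349356508 (by decide +kernel) (good_ofj c0_485) t0_521 rfl rfl

theorem t0_523 : Good (Q 9) [v156, v38, v7, v155, v72, v37] :=
  split_of 0 2 v157 1343364615 (by decide +kernel) t0_522 (good_ofj c0_493) rfl rfl

theorem t0_524 : Good (Q 9) [v156, v38, v7, v155, v69, v37] :=
  split_of 2 4 v72 1342973725 (by decide +kernel) (good_ofj c0_484) t0_523 rfl rfl

theorem t0_525 : Good (Q 9) [v156, v38, v7, v155, v69, v24] :=
  split_of 2 5 v37 1342484791 (by decide +kernel) (good_ofj c0_483) t0_524 rfl rfl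

theorem t0_526 : Good (Q 9) [v163, v54, v38, v162, v79, v52] :=
  split_of 0 2 v164 1319143752 (by decide +kernel) (good_ofj c0_499) (good_ofj c0_500) rfl rfl

theorem t0_527 : Good (Q 9) [v163, v54, v38, v162, v71, v52] :=
  split_of 2 4 v79 1319049667 (by decide +kernel) (good_ofj c0_498) t0_526 rfl rfl

theorem t0_528 : Good (Q 9) [v163, v54, v38, v162, v71, v28] :=
  split_of 2 5 v52 1318899466 (by decide +kernel) (good_ofj c0_497) t0_527 rfl rfl

theorem t0_529 : Good (Q 9) [v163, v30, v38, v162, v71, v28] :=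
  split_of 1 2 v54 1309864426 (by decide +kernel) t0_528 (good_ofj c0_501) rfl rfl

theorem t0_530 : Good (Q 9) [v156, v163, v38, v162, v71, v28] :=
  split_of 0 2 v165 1326403803 (by decide +kernel) (good_ofj c0_502) (good_ofj c0_503) rfl rfl

theorem t0_531 : Good (Q 9) [v156, v30, v38, v162, v71, v28] :=
  split_of 0 1 v163 1300833241 (by decide +kernel) t0_529 t0_530 rfl rfl

theorem t0_532 : Good (Q 9) [v156, v30, v38, v162, v69, v28] :=
  split_of 1 4 v71 1300475931 (by decide +kernel) (good_ofj c0_496) t0_531 rfl rfl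

theorem t0_533 : Good (Q 9) [v156, v30, v38, v162, v69, v24] :=
  split_of 1 5 v28 1299835258 (by decide +kernel) (good_ofj c0_495) t0_532 rfl rfl

theorem t0_534 : Good (Q 9) [v156, v30, v38, v155, v69, v24] :=
  split_of 1 3 v162 1318109894 (by decide +kernel) (good_ofj c0_494) t0_533 rfl rfl

theorem t0_535 : Good (Q 9) [v156, v30, v7, v155, v69, v24] :=
  split_of 1 2 v38 1333169107 (by decide +kernel) t0_525 t0_534 rfl rfl

theorem t0_536 : Good (Q 9) [v166, v157, v7, v158, v72, v42] :=
  split_of 2 4 v74 1350336185 (by decide +kernel) (good_ofj c0_508) (good_ofj c0_509) rfl rfl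

theorem t0_537 : Good (Q 9) [v166, v157, v7, v158, v72, v37] :=
  split_of 2 5 v42 1350220494 (by decide +kernel) (good_ofj c0_507) t0_536 rfl rfl

theorem t0_538 : Good (Q 9) [v166, v157, v7, v155, v72, v37] :=
  split_of 2 3 v158 1349356508 (by decide +kernel) (good_ofj c0_506) t0_537 rfl rfl

theorem t0_539 : Good (Q 9) [v166, v156, v7, v155, v72, v37] :=
  split_of 1 2 v157 1343364615 (by decide +kernel) t0_538 (good_ofj c0_510) rfl rfl

theorem t0_540 : Good (Q 9) [v166, v156, v7, v155, v69, v37] :=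
  split_of 2 4 v72 1342973725 (by decide +kernel) (good_ofj c0_505) t0_539 rfl rfl

theorem t0_541 : Good (Q 9) [v166, v156, v7, v155, v69, v24] :=
  split_of 2 5 v37 1342484791 (by decide +kernel) (good_ofj c0_504) t0_540 rfl rfl

theorem t0_542 : Good (Q 9) [v153, v156, v7, v155, v69, v24] :=
  split_of 0 2 v166 1345413067 (by decide +kernel) t0_541 (good_ofj c0_511) rfl rfl

theorem t0_543 : Good (Q 9) [v153, v30, v7, v155, v69, v24] :=
  split_of 0 1 v156 1315360752 (by decide +kernel) t0_535 t0_542 rfl rfl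

theorem t0_544 : Good (Q 9) [v153, v30, v7, v154, v69, v24] :=
  split_of 2 3 v155 1339066289 (by decide +kernel) (good_ofj c0_482) t0_543 rfl rfl

theorem t0_545 : Good (Q 9) [v153, v30, v7, v154, v69, v19] :=
  split_of 1 5 v24 1311740689 (by decide +kernel) (good_ofj c0_481) t0_544 rfl rfl

theorem t0_546 : Good (Q 9) [v153, v30, v7, v154, v66, v19] :=
  split_of 1 4 v69 1313961803 (by decide +kernel) (good_ofj c0_480) t0_545 rfl rfl

theorem t0_547 : Good (Q 9) [v153, v30, v7, v127, v66, v19] :=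
  split_of 1 3 v154 1298014089 (by decide +kernel) (good_ofj c0_479) t0_546 rfl rfl

theorem t0_548 : Good (Q 9) [v152, v30, v7, v127, v66, v19] :=
  split_of 0 2 v153 1321273347 (by decide +kernel) t0_547 (good_ofj c0_512) rfl rfl

theorem t0_549 : Good (Q 9) [v152, v30, v7, v127, v66, v0] :=
  split_of 2 5 v19 1309159440 (by decide +kernel) (good_ofj c0_478) t0_548 rfl rfl

theorem t0_550 : Good (Q 10) [v152, v30, v7, v127, v66, v0] :=
  env_E _ t0_549

theorem t0_551 : Good (Q 10) [v152, v30, v7, v127, v62, v0] :=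
  split_of 2 4 v66 1315710025 (by decide +kernel) (good_ofj c0_477) t0_550 rfl rfl

theorem t0_552 : Good (Q 10) [v152, v128, v7, v126, v62, v127] :=
  split_of 3 4 v167 1244927842 (by decide +kernel) (good_ofj c0_513) (good_ofj c0_514) rfl rfl

theorem t0_553 : Good (Q 9) [v168, v30, v66, v128, v151, v154] :=
  split_of 3 4 v169 1299805444 (by decide +kernel) (good_ofj c0_517) (good_ofj c0_518) rfl rfl

theorem t0_554 : Good (Q 10) [v168, v30, v66, v128, v151, v154] :=
  env_E _ t0_553

theorem t0_555 : Good (Q 10) [v152, v30, v66, v128, v151, v154] :=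
  split_of 0 1 v168 1278344175 (by decide +kernel) t0_554 (good_ofj c0_519) rfl rfl

theorem t0_556 : Good (Q 10) [v152, v30, v66, v128, v151, v127] :=
  split_of 1 5 v154 1298014089 (by decide +kernel) (good_ofj c0_516) t0_555 rfl rfl

theorem t0_557 : Good (Q 10) [v152, v30, v66, v128, v62, v127] :=
  split_of 1 4 v151 1273393141 (by decide +kernel) (good_ofj c0_515) t0_556 rfl rfl

theorem t0_558 : Good (Q 9) [v153, v129, v7, v130, v66, v155] :=
  split_of 2 4 v90 1343852908 (by decide +kernel) (good_ofj c0_523) (good_ofj c0_524) rfl rfl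

theorem t0_559 : Good (Q 9) [v153, v129, v7, v130, v66, v154] :=
  split_of 2 5 v155 1339066289 (by decide +kernel) (good_ofj c0_522) t0_558 rfl rfl

theorem t0_560 : Good (Q 9) [v153, v129, v7, v128, v66, v154] :=
  split_of 2 3 v130 1341057865 (by decide +kernel) (good_ofj c0_521) t0_559 rfl rfl

theorem t0_561 : Good (Q 9) [v166, v69, v7, v133, v90, v155] :=
  split_of 1 2 v72 1342973725 (by decide +kernel) (good_ofj c0_528) (good_ofj c0_529) rfl rfl

theorem t0_562 : Good (Q 9) [v153, v69, v7, v133, v90, v155] :=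
  split_of 0 2 v166 1345413067 (by decide +kernel) t0_561 (good_ofj c0_530) rfl rfl

theorem t0_563 : Good (Q 9) [v153, v69, v7, v129, v90, v155] :=
  split_of 2 3 v133 1339964634 (by decide +kernel) (good_ofj c0_527) t0_562 rfl rfl

theorem t0_564 : Good (Q 9) [v153, v69, v7, v129, v90, v154] :=
  split_of 2 5 v155 1339066289 (by decide +kernel) (good_ofj c0_526) t0_563 rfl rfl

theorem t0_565 : Good (Q 9) [v153, v69, v7, v129, v66, v154] :=
  split_of 2 4 v90 1343852908 (by decide +kernel) (good_ofj c0_525) t0_564 rfl rfl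

theorem t0_566 : Good (Q 9) [v156, v38, v133, v129, v69, v155] :=
  split_of 3 4 v146 1311023066 (by decide +kernel) (good_ofj c0_532) (good_ofj c0_533) rfl rfl

theorem t0_567 : Good (Q 8) [v156, v38, v72, v133, v69, v155] :=
  split_of 3 4 v170 1329837786 (by decide +kernel) (good_ofj c0_534) (good_ofj c0_535) rfl rfl

theorem t0_568 : Good (Q 9) [v156, v38, v72, v133, v69, v155] :=
  P_of 8 9 0xfffffffffffffffffffffffffffffffffff3b4ec3b0eb2c4b02f4be2d4b52ccb3ffffffffffffffffffffffffffffff2e8ba388e23c0f1fffff2c8b22dcb72d0b3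
    (by decide +kernel) t0_567

theorem t0_569 : Good (Q 7) [v157, v43, v74, v134, v72, v158] :=
  split_of 3 4 v171 1346937514 (by decide +kernel) (good_ofj c0_538) (good_ofj c0_539) rfl rfl

theorem t0_570 : Good (Q 8) [v157, v43, v74, v134, v72, v158] :=
  P_of 7 8 0xffffffffffffffffffffffffffffff709c1354d5354d52e4b72fcc12e4bb2ecbaffffffffffffffffffffffffffffff2d0b53f8fa40d07519472bcaf2ccb32c0b1
    (by decide +kernel) t0_569

theorem t0_571 : Good (Q 9) [v157, v43, v74, v134, v72, v158] :=
  P_of 8 9 0xfffffffffffffffffffffffffffffffffff354d6354d62e4b82f8c12e4b92ecbaffffffffffffffffffffffffffffff2d0b53fcfb40d05519482c0af2ccb42c4b0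
    (by decide +kernel) t0_570

theorem t0_572 : Good (Q 9) [v159, v43, v7, v134, v74, v158] :=
  split_of 2 5 v160 1351955923 (by decide +kernel) (good_ofj c0_540) (good_ofj c0_541) rfl rfl

theorem t0_573 : Good (Q 9) [v157, v43, v7, v134, v74, v158] :=
  split_of 0 2 v159 1350439771 (by decide +kernel) t0_572 (good_ofj c0_542) rfl rfl

theorem t0_574 : Good (Q 9) [v157, v43, v7, v134, v72, v158] :=
  split_of 2 4 v74 1350336185 (by decide +kernel) t0_571 t0_573 rfl rfl

theorem t0_575 : Good (Q 9) [v157, v43, v7, v133, v72, v158] :=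
  split_of 2 3 v134 1349522479 (by decide +kernel) (good_ofj c0_537) t0_574 rfl rfl

theorem t0_576 : Good (Q 9) [v157, v38, v43, v133, v72, v158] :=
  split_of 1 5 v161 1343806274 (by decide +kernel) (good_ofj c0_543) (good_ofj c0_544) rfl rfl

theorem t0_577 : Good (Q 9) [v157, v38, v7, v133, v72, v158] :=
  split_of 1 2 v43 1347746544 (by decide +kernel) t0_575 t0_576 rfl rfl

theorem t0_578 : Good (Q 9) [v157, v38, v7, v133, v72, v155] :=
  split_of 2 5 v158 1349356508 (by decide +kernel) (good_ofj c0_536) t0_577 rfl rfl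

theorem t0_579 : Good (Q 9) [v156, v38, v7, v133, v72, v155] :=
  split_of 0 2 v157 1343364615 (by decide +kernel) t0_578 (good_ofj c0_545) rfl rfl

theorem t0_580 : Good (Q 9) [v156, v38, v7, v133, v69, v155] :=
  split_of 2 4 v72 1342973725 (by decide +kernel) t0_568 t0_579 rfl rfl

theorem t0_581 : Good (Q 9) [v156, v38, v7, v129, v69, v155] :=
  split_of 2 3 v133 1339964634 (by decide +kernel) t0_566 t0_580 rfl rfl

theorem t0_582 : Good (Q 9) [v156, v162, v38, v129, v69, v155] :=
  split_of 3 4 v146 1311023066 (by decide +kernel) (good_ofj c0_546) (good_ofj c0_547) rfl rfl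

theorem t0_583 : Good (Q 9) [v156, v71, v38, v129, v69, v162] :=
  split_of 3 4 v146 1311023066 (by decide +kernel) (good_ofj c0_548) (good_ofj c0_549) rfl rfl

theorem t0_584 : Good (Q 9) [v156, v131, v38, v137, v71, v162] :=
  split_of 0 2 v165 1326403803 (by decide +kernel) (good_ofj c0_551) (good_ofj c0_552) rfl rfl

theorem t0_585 : Good (Q 9) [v156, v131, v38, v129, v71, v162] :=
  split_of 2 3 v137 1321013612 (by decide +kernel) (good_ofj c0_550) t0_584 rfl rfl

theorem t0_586 : Good (Q 7) [v163, v54, v139, v131, v71, v162] :=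
  split_of 2 4 v149 1309015228 (by decide +kernel) (good_ofj c0_553) (good_ofj c0_554) rfl rfl

theorem t0_587 : Good (Q 8) [v163, v54, v139, v131, v71, v162] :=
  P_of 7 8 0xffffffffffffffffffffffffffffff5094140d0340d032c0b02d8b82c0af2c8b2ffffffffffffffffffffffffffffff2fcbf348d1354d571dc82e4b82f4be2e8ba
    (by decide +kernel) t0_586

theorem t0_588 : Good (Q 9) [v163, v54, v139, v131, v71, v162] :=
  P_of 8 9 0xffffffffffffffffffffffffffffff5094240d0340d032c0b02d8b62c0b02c4b1ffffffffffffffffffffffffffffff2f8be348d1354d6fffff2e4b92f8be2e4b9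
    (by decide +kernel) t0_587

theorem t0_589 : Good (Q 9) [v163, v54, v38, v139, v79, v162] :=
  split_of 0 2 v164 1319143752 (by decide +kernel) (good_ofj c0_556) (good_ofj c0_557) rfl rfl

theorem t0_590 : Good (Q 9) [v163, v54, v38, v139, v71, v162] :=
  split_of 2 4 v79 1319049667 (by decide +kernel) (good_ofj c0_555) t0_589 rfl rfl

theorem t0_591 : Good (Q 9) [v163, v54, v38, v131, v71, v162] :=
  split_of 2 3 v139 1316091829 (by decide +kernel) t0_588 t0_590 rfl rfl

theorem t0_592 : Good (Q 9) [v163, v30, v38, v131, v71, v162] :=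
  split_of 1 2 v54 1309864426 (by decide +kernel) t0_591 (good_ofj c0_558) rfl rfl

theorem t0_593 : Good (Q 9) [v165, v163, v38, v131, v71, v162] :=
  split_of 2 3 v139 1316091829 (by decide +kernel) (good_ofj c0_559) (good_ofj c0_560) rfl rfl

theorem t0_594 : Good (Q 9) [v156, v163, v38, v131, v71, v162] :=
  split_of 0 2 v165 1326403803 (by decide +kernel) t0_593 (good_ofj c0_561) rfl rfl

theorem t0_595 : Good (Q 9) [v156, v30, v38, v131, v71, v162] :=
  split_of 0 1 v163 1300833241 (by decide +kernel) t0_592 t0_594 rfl rfl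

theorem t0_596 : Good (Q 9) [v156, v30, v38, v129, v71, v162] :=
  split_of 1 3 v131 1293604245 (by decide +kernel) t0_585 t0_595 rfl rfl

theorem t0_597 : Good (Q 9) [v156, v30, v38, v129, v69, v162] :=
  split_of 1 4 v71 1300475931 (by decide +kernel) t0_583 t0_596 rfl rfl

theorem t0_598 : Good (Q 9) [v156, v30, v38, v129, v69, v155] :=
  split_of 1 5 v162 1318109894 (by decide +kernel) t0_582 t0_597 rfl rfl

theorem t0_599 : Good (Q 9) [v156, v30, v7, v129, v69, v155] :=
  split_of 1 2 v38 1333169107 (by decide +kernel) t0_581 t0_598 rfl rfl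

theorem t0_600 : Good (Q 9) [v166, v157, v7, v134, v72, v158] :=
  split_of 2 4 v74 1350336185 (by decide +kernel) (good_ofj c0_566) (good_ofj c0_567) rfl rfl

theorem t0_601 : Good (Q 9) [v166, v157, v7, v133, v72, v158] :=
  split_of 2 3 v134 1349522479 (by decide +kernel) (good_ofj c0_565) t0_600 rfl rfl

theorem t0_602 : Good (Q 9) [v166, v157, v7, v133, v72, v155] :=
  split_of 2 5 v158 1349356508 (by decide +kernel) (good_ofj c0_564) t0_601 rfl rfl

theorem t0_603 : Good (Q 9) [v166, v156, v7, v133, v72, v155] :=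
  split_of 1 2 v157 1343364615 (by decide +kernel) t0_602 (good_ofj c0_568) rfl rfl

theorem t0_604 : Good (Q 9) [v166, v156, v7, v133, v69, v155] :=
  split_of 2 4 v72 1342973725 (by decide +kernel) (good_ofj c0_563) t0_603 rfl rfl

theorem t0_605 : Good (Q 9) [v166, v156, v7, v129, v69, v155] :=
  split_of 2 3 v133 1339964634 (by decide +kernel) (good_ofj c0_562) t0_604 rfl rfl

theorem t0_606 : Good (Q 9) [v153, v156, v7, v129, v69, v155] :=
  split_of 0 2 v166 1345413067 (by decide +kernel) t0_605 (good_ofj c0_569) rfl rfl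

theorem t0_607 : Good (Q 9) [v153, v30, v7, v129, v69, v155] :=
  split_of 0 1 v156 1315360752 (by decide +kernel) t0_599 t0_606 rfl rfl

theorem t0_608 : Good (Q 9) [v153, v30, v7, v129, v69, v154] :=
  split_of 2 5 v155 1339066289 (by decide +kernel) (good_ofj c0_531) t0_607 rfl rfl

theorem t0_609 : Good (Q 9) [v153, v30, v7, v129, v66, v154] :=
  split_of 1 4 v69 1313961803 (by decide +kernel) t0_565 t0_608 rfl rfl

theorem t0_610 : Good (Q 9) [v153, v30, v7, v128, v66, v154] :=
  split_of 1 3 v129 1303729140 (by decide +kernel) t0_560 t0_609 rfl rfl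

theorem t0_611 : Good (Q 10) [v153, v30, v7, v128, v66, v154] :=
  env_E _ t0_610

theorem t0_612 : Good (Q 10) [v153, v30, v7, v128, v66, v127] :=
  split_of 1 5 v154 1298014089 (by decide +kernel) (good_ofj c0_520) t0_611 rfl rfl

theorem t0_613 : Good (Q 10) [v152, v30, v7, v128, v66, v127] :=
  split_of 0 2 v153 1321273347 (by decide +kernel) t0_612 (good_ofj c0_570) rfl rfl

theorem t0_614 : Good (Q 10) [v152, v30, v7, v128, v62, v127] :=
  split_of 2 4 v66 1315710025 (by decide +kernel) t0_557 t0_613 rfl rfl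

theorem t0_615 : Good (Q 10) [v152, v30, v7, v126, v62, v127] :=
  split_of 1 3 v128 1307275754 (by decide +kernel) t0_552 t0_614 rfl rfl

theorem t0_616 : Good (Q 10) [v152, v30, v7, v126, v62, v0] :=
  split_of 3 5 v127 1241799870 (by decide +kernel) t0_551 t0_615 rfl rfl

theorem t0_617 : Good (Q 9) [v109, v72, v7, v166, v90, v92] :=
  split_of 2 4 v110 1350610654 (by decide +kernel) (good_ofj c0_578) (good_ofj c0_579) rfl rfl

theorem t0_618 : Good (Q 9) [v109, v72, v7, v166, v90, v59] :=
  split_of 2 5 v92 1350182502 (by decide +kernel) (good_ofj c0_577) t0_617 rfl rfl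

theorem t0_619 : Good (Q 9) [v108, v72, v7, v166, v90, v59] :=
  split_of 0 2 v109 1347302695 (by decide +kernel) t0_618 (good_ofj c0_580) rfl rfl

theorem t0_620 : Good (Q 9) [v108, v72, v7, v153, v90, v59] :=
  split_of 2 3 v166 1345413067 (by decide +kernel) (good_ofj c0_576) t0_619 rfl rfl

theorem t0_621 : Good (Q 9) [v108, v69, v7, v153, v90, v59] :=
  split_of 1 2 v72 1342973725 (by decide +kernel) t0_620 (good_ofj c0_581) rfl rfl

theorem t0_622 : Good (Q 9) [v108, v69, v7, v153, v90, v19] :=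
  split_of 2 5 v59 1342177280 (by decide +kernel) (good_ofj c0_575) t0_621 rfl rfl

theorem t0_623 : Good (Q 9) [v108, v69, v7, v153, v66, v19] :=
  split_of 2 4 v90 1343852908 (by decide +kernel) (good_ofj c0_574) t0_622 rfl rfl

theorem t0_624 : Good (Q 9) [v109, v37, v7, v166, v72, v92] :=
  split_of 1 2 v42 1350220494 (by decide +kernel) (good_ofj c0_586) (good_ofj c0_587) rfl rfl

theorem t0_625 : Good (Q 9) [v109, v37, v7, v166, v72, v59] :=
  split_of 2 5 v92 1350182502 (by decide +kernel) (good_ofj c0_585) t0_624 rfl rfl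

theorem t0_626 : Good (Q 9) [v108, v37, v7, v166, v72, v59] :=
  split_of 0 2 v109 1347302695 (by decide +kernel) t0_625 (good_ofj c0_588) rfl rfl

theorem t0_627 : Good (Q 9) [v108, v37, v7, v166, v69, v59] :=
  split_of 2 4 v72 1342973725 (by decide +kernel) (good_ofj c0_584) t0_626 rfl rfl

theorem t0_628 : Good (Q 9) [v108, v24, v7, v166, v69, v59] :=
  split_of 1 2 v37 1342484791 (by decide +kernel) t0_627 (good_ofj c0_589) rfl rfl

theorem t0_629 : Good (Q 9) [v108, v24, v7, v153, v69, v59] :=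
  split_of 2 3 v166 1345413067 (by decide +kernel) (good_ofj c0_583) t0_628 rfl rfl

theorem t0_630 : Good (Q 9) [v108, v24, v7, v153, v69, v19] :=
  split_of 2 5 v59 1342177280 (by decide +kernel) (good_ofj c0_582) t0_629 rfl rfl

theorem t0_631 : Good (Q 9) [v111, v38, v166, v172, v69, v24] :=
  split_of 2 5 v173 1334132011 (by decide +kernel) (good_ofj c0_591) (good_ofj c0_592) rfl rfl

theorem t0_632 : Good (Q 9) [v108, v38, v166, v172, v69, v24] :=
  split_of 0 1 v111 1336786951 (by decide +kernel) t0_631 (good_ofj c0_593) rfl rfl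

theorem t0_633 : Good (Q 9) [v108, v38, v166, v153, v69, v24] :=
  split_of 1 3 v172 1334980480 (by decide +kernel) (good_ofj c0_590) t0_632 rfl rfl

theorem t0_634 : Good (Q 9) [v111, v38, v37, v166, v69, v24] :=
  split_of 3 5 v173 1334132011 (by decide +kernel) (good_ofj c0_594) (good_ofj c0_595) rfl rfl

theorem t0_635 : Good (Q 9) [v108, v38, v37, v166, v69, v24] :=
  split_of 0 1 v111 1336786951 (by decide +kernel) t0_634 (good_ofj c0_596) rfl rfl

theorem t0_636 : Good (Q 9) [v109, v157, v7, v166, v74, v42] :=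
  split_of 2 3 v174 1351024736 (by decide +kernel) (good_ofj c0_600) (good_ofj c0_601) rfl rfl

theorem t0_637 : Good (Q 9) [v109, v157, v7, v166, v72, v42] :=
  split_of 2 4 v74 1350336185 (by decide +kernel) (good_ofj c0_599) t0_636 rfl rfl

theorem t0_638 : Good (Q 9) [v109, v157, v7, v166, v72, v37] :=
  split_of 2 5 v42 1350220494 (by decide +kernel) (good_ofj c0_598) t0_637 rfl rfl

theorem t0_639 : Good (Q 9) [v109, v43, v42, v157, v72, v37] :=
  split_of 0 5 v112 1346097975 (by decide +kernel) (good_ofj c0_602) (good_ofj c0_603) rfl rfl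

theorem t0_640 : Good (Q 9) [v109, v43, v74, v157, v72, v42] :=
  split_of 0 1 v113 1348854888 (by decide +kernel) (good_ofj c0_604) (good_ofj c0_605) rfl rfl

theorem t0_641 : Good (Q 7) [v113, v43, v159, v157, v74, v42] :=
  split_of 3 5 v175 1347426256 (by decide +kernel) (good_ofj c0_606) (good_ofj c0_607) rfl rfl

theorem t0_642 : Good (Q 8) [v113, v43, v159, v157, v74, v42] :=
  P_of 7 8 0xffffffffffffffffffffffffffffff71dc5350d5350d42e0b8300c02f4bd2e8b9ffffffffffffffffffffffffffffff2ccb43f0fb42509509442c0b12c8b22c4b1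
    (by decide +kernel) t0_641

theorem t0_643 : Good (Q 9) [v113, v43, v159, v157, v74, v42] :=
  P_of 8 9 0xfffffffffffffffffffffffffffffffffff350d4350d42e0b8300c02f4bd2e8baffffffffffffffffffffffffffffff2ccb33f0fc42509509422c0b02c8b22c4b1
    (by decide +kernel) t0_642

theorem t0_644 : Good (Q 9) [v109, v43, v159, v157, v74, v42] :=
  split_of 0 1 v113 1348854888 (by decide +kernel) t0_643 (good_ofj c0_608) rfl rfl

theorem t0_645 : Good (Q 9) [v115, v43, v99, v159, v74, v101] :=
  split_of 1 4 v116 1349329923 (by decide +kernel) (good_ofj c0_611) (good_ofj c0_612) rfl rfl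

theorem t0_646 : Good (Q 9) [v115, v43, v99, v159, v74, v42] :=
  split_of 1 5 v101 1349299878 (by decide +kernel) (good_ofj c0_610) t0_645 rfl rfl

theorem t0_647 : Good (Q 9) [v114, v43, v99, v159, v74, v42] :=
  split_of 0 1 v115 1350548520 (by decide +kernel) t0_646 (good_ofj c0_613) rfl rfl

theorem t0_648 : Good (Q 9) [v114, v43, v7, v159, v74, v42] :=
  split_of 1 2 v99 1351535087 (by decide +kernel) (good_ofj c0_609) t0_647 rfl rfl

theorem t0_649 : Good (Q 9) [v109, v43, v7, v159, v74, v42] :=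
  split_of 0 2 v114 1351479933 (by decide +kernel) t0_648 (good_ofj c0_614) rfl rfl

theorem t0_650 : Good (Q 9) [v109, v43, v7, v157, v74, v42] :=
  split_of 2 3 v159 1350439771 (by decide +kernel) t0_644 t0_649 rfl rfl

theorem t0_651 : Good (Q 9) [v109, v43, v7, v157, v72, v42] :=
  split_of 2 4 v74 1350336185 (by decide +kernel) t0_640 t0_650 rfl rfl

theorem t0_652 : Good (Q 9) [v109, v43, v7, v157, v72, v37] :=
  split_of 2 5 v42 1350220494 (by decide +kernel) t0_639 t0_651 rfl rfl

theorem t0_653 : Good (Q 9) [v117, v38, v43, v157, v72, v118] :=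
  split_of 1 4 v119 1339187425 (by decide +kernel) (good_ofj c0_616) (good_ofj c0_617) rfl rfl

theorem t0_654 : Good (Q 9) [v117, v38, v43, v157, v72, v37] :=
  split_of 1 5 v118 1339055755 (by decide +kernel) (good_ofj c0_615) t0_653 rfl rfl

theorem t0_655 : Good (Q 9) [v109, v38, v43, v157, v72, v37] :=
  split_of 0 1 v117 1343797121 (by decide +kernel) t0_654 (good_ofj c0_618) rfl rfl

theorem t0_656 : Good (Q 9) [v109, v38, v7, v157, v72, v37] :=
  split_of 1 2 v43 1347746544 (by decide +kernel) t0_652 t0_655 rfl rfl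

theorem t0_657 : Good (Q 9) [v109, v38, v7, v166, v72, v37] :=
  split_of 1 3 v157 1343364615 (by decide +kernel) t0_638 t0_656 rfl rfl

theorem t0_658 : Good (Q 9) [v108, v38, v109, v166, v72, v37] :=
  split_of 0 1 v111 1336786951 (by decide +kernel) (good_ofj c0_619) (good_ofj c0_620) rfl rfl

theorem t0_659 : Good (Q 9) [v108, v38, v7, v166, v72, v37] :=
  split_of 0 2 v109 1347302695 (by decide +kernel) t0_657 t0_658 rfl rfl

theorem t0_660 : Good (Q 9) [v108, v38, v7, v166, v69, v37] :=
  split_of 2 4 v72 1342973725 (by decide +kernel) (good_ofj c0_597) t0_659 rfl rfl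

theorem t0_661 : Good (Q 9) [v108, v38, v7, v166, v69, v24] :=
  split_of 2 5 v37 1342484791 (by decide +kernel) t0_635 t0_660 rfl rfl

theorem t0_662 : Good (Q 9) [v108, v38, v7, v153, v69, v24] :=
  split_of 2 3 v166 1345413067 (by decide +kernel) t0_633 t0_661 rfl rfl

theorem t0_663 : Good (Q 9) [v120, v163, v38, v165, v71, v28] :=
  split_of 0 2 v124 1326818823 (by decide +kernel) (good_ofj c0_625) (good_ofj c0_626) rfl rfl

theorem t0_664 : Good (Q 9) [v120, v163, v38, v156, v71, v28] :=
  split_of 2 3 v165 1326403803 (by decide +kernel) (good_ofj c0_624) t0_663 rfl rfl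

theorem t0_665 : Good (Q 9) [v121, v54, v38, v164, v79, v52] :=
  split_of 0 2 v123 1319243250 (by decide +kernel) (good_ofj c0_630) (good_ofj c0_631) rfl rfl

theorem t0_666 : Good (Q 9) [v121, v54, v38, v163, v79, v52] :=
  split_of 2 3 v164 1319143752 (by decide +kernel) (good_ofj c0_629) t0_665 rfl rfl

theorem t0_667 : Good (Q 9) [v121, v54, v38, v163, v71, v52] :=
  split_of 2 4 v79 1319049667 (by decide +kernel) (good_ofj c0_628) t0_666 rfl rfl

theorem t0_668 : Good (Q 9) [v121, v54, v38, v163, v71, v28] :=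
  split_of 2 5 v52 1318899466 (by decide +kernel) (good_ofj c0_627) t0_667 rfl rfl

theorem t0_669 : Good (Q 9) [v121, v30, v38, v163, v71, v28] :=
  split_of 1 2 v54 1309864426 (by decide +kernel) t0_668 (good_ofj c0_632) rfl rfl

theorem t0_670 : Good (Q 9) [v124, v121, v38, v163, v71, v28] :=
  split_of 2 5 v52 1318899466 (by decide +kernel) (good_ofj c0_633) (good_ofj c0_634) rfl rfl

theorem t0_671 : Good (Q 9) [v120, v121, v38, v163, v71, v28] :=
  split_of 0 2 v124 1326818823 (by decide +kernel) t0_670 (good_ofj c0_635) rfl rfl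

theorem t0_672 : Good (Q 9) [v120, v30, v38, v163, v71, v28] :=
  split_of 0 1 v121 1301234981 (by decide +kernel) t0_669 t0_671 rfl rfl

theorem t0_673 : Good (Q 9) [v120, v30, v38, v156, v71, v28] :=
  split_of 1 3 v163 1300833241 (by decide +kernel) t0_664 t0_672 rfl rfl

theorem t0_674 : Good (Q 9) [v120, v30, v38, v156, v69, v28] :=
  split_of 1 4 v71 1300475931 (by decide +kernel) (good_ofj c0_623) t0_673 rfl rfl

theorem t0_675 : Good (Q 9) [v120, v30, v38, v156, v69, v24] :=
  split_of 1 5 v28 1299835258 (by decide +kernel) (good_ofj c0_622) t0_674 rfl rfl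

theorem t0_676 : Good (Q 9) [v108, v30, v38, v156, v69, v24] :=
  split_of 0 1 v120 1317105264 (by decide +kernel) t0_675 (good_ofj c0_636) rfl rfl

theorem t0_677 : Good (Q 9) [v108, v30, v38, v153, v69, v24] :=
  split_of 1 3 v156 1315360752 (by decide +kernel) (good_ofj c0_621) t0_676 rfl rfl

theorem t0_678 : Good (Q 9) [v108, v30, v7, v153, v69, v24] :=
  split_of 1 2 v38 1333169107 (by decide +kernel) t0_662 t0_677 rfl rfl

theorem t0_679 : Good (Q 9) [v108, v30, v7, v153, v69, v19] :=
  split_of 1 5 v24 1311740689 (by decide +kernel) t0_630 t0_678 rfl rfl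

theorem t0_680 : Good (Q 9) [v108, v30, v7, v153, v66, v19] :=
  split_of 1 4 v69 1313961803 (by decide +kernel) t0_623 t0_679 rfl rfl

theorem t0_681 : Good (Q 9) [v107, v30, v7, v153, v66, v19] :=
  split_of 0 2 v108 1329531520 (by decide +kernel) t0_680 (good_ofj c0_637) rfl rfl

theorem t0_682 : Good (Q 9) [v107, v30, v7, v152, v66, v19] :=
  split_of 2 3 v153 1321273347 (by decide +kernel) (good_ofj c0_573) t0_681 rfl rfl

theorem t0_683 : Good (Q 9) [v107, v30, v7, v152, v66, v0] :=
  split_of 2 5 v19 1309159440 (by decide +kernel) (good_ofj c0_572) t0_682 rfl rfl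

theorem t0_684 : Good (Q 10) [v107, v30, v7, v152, v66, v0] :=
  env_E _ t0_683

theorem t0_685 : Good (Q 10) [v107, v30, v7, v152, v62, v0] :=
  split_of 2 4 v66 1315710025 (by decide +kernel) (good_ofj c0_571) t0_684 rfl rfl

theorem t0_686 : Good (Q 10) [v125, v30, v7, v152, v62, v0] :=
  split_of 0 2 v107 1245967015 (by decide +kernel) t0_685 (good_ofj c0_638) rfl rfl

theorem t0_687 : Good (Q 10) [v125, v30, v7, v126, v62, v0] :=
  split_of 0 3 v152 1202967926 (by decide +kernel) t0_616 t0_686 rfl rfl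

theorem t0_688 : Good (Q 10) [v125, v30, v7, v126, v4, v0] :=
  split_of 0 4 v62 1184875434 (by decide +kernel) t0_515 t0_687 rfl rfl

theorem t0_689 : Good (Q 10) [v125, v30, v7, v126, v4, v5] :=
  split_of 0 5 v0 1156653316 (by decide +kernel) t0_437 t0_688 rfl rfl

theorem t0_690 : Good (Q 10) [v0, v176, v7, v180, v181, v8] :=
  split_of 0 1 v182 1251137061 (by decide +kernel) (good_ofj c0_643) (good_ofj c0_644) rfl rfl

theorem t0_691 : Good (Q 10) [v0, v176, v7, v180, v177, v8] :=
  split_of 0 4 v181 1271401906 (by decide +kernel) (good_ofj c0_642) t0_690 rfl rfl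

theorem t0_692 : Good (Q 10) [v0, v176, v7, v180, v177, v5] :=
  split_of 2 5 v8 1278344175 (by decide +kernel) (good_ofj c0_641) t0_691 rfl rfl

theorem t0_693 : Good (Q 10) [v0, v176, v7, v178, v177, v5] :=
  split_of 0 3 v180 1241799870 (by decide +kernel) (good_ofj c0_640) t0_692 rfl rfl

theorem t0_694 : Good (Q 10) [v0, v176, v7, v178, v179, v5] :=
  split_of 2 4 v177 1293935275 (by decide +kernel) (good_ofj c0_639) t0_693 rfl rfl

theorem t0_695 : Good (Q 10) [v0, v183, v7, v180, v176, v8] :=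
  split_of 0 4 v182 1251137061 (by decide +kernel) (good_ofj c0_647) (good_ofj c0_648) rfl rfl

theorem t0_696 : Good (Q 10) [v0, v183, v7, v180, v176, v5] :=
  split_of 2 5 v8 1278344175 (by decide +kernel) (good_ofj c0_646) t0_695 rfl rfl

theorem t0_697 : Good (Q 10) [v0, v183, v7, v178, v176, v5] :=
  split_of 0 3 v180 1241799870 (by decide +kernel) (good_ofj c0_645) t0_696 rfl rfl

theorem t0_698 : Good (Q 10) [v182, v15, v7, v183, v176, v8] :=
  split_of 2 4 v184 1332942339 (by decide +kernel) (good_ofj c0_650) (good_ofj c0_651) rfl rfl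

theorem t0_699 : Good (Q 10) [v0, v15, v7, v183, v182, v8] :=
  split_of 0 2 v19 1309159440 (by decide +kernel) (good_ofj c0_652) (good_ofj c0_653) rfl rfl

theorem t0_700 : Good (Q 10) [v0, v15, v7, v183, v176, v8] :=
  split_of 0 4 v182 1251137061 (by decide +kernel) t0_698 t0_699 rfl rfl

theorem t0_701 : Good (Q 10) [v0, v15, v7, v183, v176, v5] :=
  split_of 2 5 v8 1278344175 (by decide +kernel) (good_ofj c0_649) t0_700 rfl rfl

theorem t0_702 : Good (Q 10) [v19, v185, v7, v183, v176, v15] :=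
  split_of 2 4 v184 1332942339 (by decide +kernel) (good_ofj c0_654) (good_ofj c0_655) rfl rfl

theorem t0_703 : Good (Q 9) [v19, v21, v7, v183, v185, v186] :=
  split_of 0 3 v187 1314545060 (by decide +kernel) (good_ofj c0_657) (good_ofj c0_658) rfl rfl

theorem t0_704 : Good (Q 9) [v19, v21, v7, v183, v185, v15] :=
  split_of 2 5 v186 1327933798 (by decide +kernel) (good_ofj c0_656) t0_703 rfl rfl

theorem t0_705 : Good (Q 9) [v24, v188, v7, v189, v190, v34] :=
  split_of 1 2 v191 1339459463 (by decide +kernel) (good_ofj c0_662) (good_ofj c0_663) rfl rfl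

theorem t0_706 : Good (Q 9) [v24, v188, v7, v189, v185, v34] :=
  split_of 2 4 v190 1337829094 (by decide +kernel) (good_ofj c0_661) t0_705 rfl rfl

theorem t0_707 : Good (Q 9) [v24, v188, v7, v189, v185, v21] :=
  split_of 2 5 v34 1336420407 (by decide +kernel) (good_ofj c0_660) t0_706 rfl rfl

theorem t0_708 : Good (Q 9) [v24, v188, v7, v183, v185, v21] :=
  split_of 2 3 v189 1339712096 (by decide +kernel) (good_ofj c0_659) t0_707 rfl rfl

theorem t0_709 : Good (Q 7) [v24, v35, v34, v188, v192, v27] :=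
  split_of 0 3 v193 1308718437 (by decide +kernel) (good_ofj c0_666) (good_ofj c0_667) rfl rfl

theorem t0_710 : Good (Q 8) [v24, v35, v34, v188, v192, v27] :=
  P_of 7 8 0xffffffffffffffffffffffffffffff539534991e378e12a8ab2ecba2b8af2f8beffffffffffffffffffffffffffffff368d5364da368db6f5b62fcbd2a4aa2b8b0
    (by decide +kernel) t0_709

theorem t0_711 : Good (Q 9) [v24, v35, v34, v188, v192, v27] :=
  P_of 8 9 0xffffffffffffffffffffffffffffff5514e48526374de2b0aa2e8bb2bcae2f4beffffffffffffffffffffffffffffff354da370d9370dafffff2fcbf2a4a92b8ae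
    (by decide +kernel) t0_710

theorem t0_712 : Good (Q 7) [v28, v195, v35, v188, v192, v27] :=
  split_of 0 3 v194 1301703364 (by decide +kernel) (good_ofj c0_668) (good_ofj c0_669) rfl rfl

theorem t0_713 : Good (Q 8) [v28, v195, v35, v188, v192, v27] :=
  P_of 7 8 0xffffffffffffffffffffffffffffff4ed3a481213b8ee2b4ae2e0b72c4b02d0b4ffffffffffffffffffffffffffffff338ce338cf354d4745d2308c32c8b22c8b2
    (by decide +kernel) t0_712

theorem t0_714 : Good (Q 9) [v28, v195, v35, v188, v192, v27] :=
  P_of 8 9 0xffffffffffffffffffffffffffffff4ed3b481203b8ee2b4ad2e0b82c4b12d0b4ffffffffffffffffffffffffffffff338ce338ce354d5fffff308c22c8b22c8b2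
    (by decide +kernel) t0_713

theorem t0_715 : Good (Q 9) [v28, v30, v35, v188, v192, v27] :=
  split_of 1 3 v195 1292338752 (by decide +kernel) t0_714 (good_ofj c0_670) rfl rfl

theorem t0_716 : Good (Q 9) [v24, v30, v35, v188, v192, v27] :=
  split_of 0 1 v28 1299835258 (by decide +kernel) t0_715 (good_ofj c0_671) rfl rfl

theorem t0_717 : Good (Q 9) [v24, v30, v34, v188, v192, v27] :=
  split_of 1 2 v35 1315109598 (by decide +kernel) t0_711 t0_716 rfl rfl

theorem t0_718 : Good (Q 9) [v24, v30, v34, v188, v185, v27] :=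
  split_of 1 4 v192 1290828974 (by decide +kernel) (good_ofj c0_665) t0_717 rfl rfl

theorem t0_719 : Good (Q 9) [v24, v30, v34, v188, v185, v21] :=
  split_of 1 5 v27 1289558025 (by decide +kernel) (good_ofj c0_664) t0_718 rfl rfl

theorem t0_720 : Good (Q 7) [v24, v35, v190, v188, v192, v34] :=
  split_of 0 3 v193 1308718437 (by decide +kernel) (good_ofj c0_673) (good_ofj c0_674) rfl rfl

theorem t0_721 : Good (Q 9) [v24, v35, v190, v188, v192, v34] :=
  P_of 7 9 0xfffffffffffffffffffffffffffffffffff4751b38ce02acab2e0b92c0b12f0bdffffffffffffffffffffffffffffff348d2360db368ddfffff2f8bd2aca92c4b1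
    (by decide +kernel) t0_720

theorem t0_722 : Good (Q 7) [v24, v196, v190, v188, v192, v35] :=
  split_of 0 3 v193 1308718437 (by decide +kernel) (good_ofj c0_675) (good_ofj c0_676) rfl rfl

theorem t0_723 : Good (Q 8) [v24, v196, v190, v188, v192, v35] :=
  P_of 7 8 0xffffffffffffffffffffffffffffff5395847d18388e12a8ab2e0b82c8b22ecbcffffffffffffffffffffffffffffff348d0358db36cde6edaf300be2a8aa2c4b1
    (by decide +kernel) t0_722

theorem t0_724 : Good (Q 9) [v24, v196, v190, v188, v192, v35] :=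
  P_of 8 9 0xffffffffffffffffffffffffffffff5294e4811f38ce22acaa2e0b82c4b22e8bbffffffffffffffffffffffffffffff348d2358d6368dbfffff300c02acaa2c4b1
    (by decide +kernel) t0_723

theorem t0_725 : Good (Q 7) [v28, v195, v196, v194, v192, v35] :=
  split_of 0 4 v197 1296184048 (by decide +kernel) (good_ofj c0_678) (good_ofj c0_679) rfl rfl

theorem t0_726 : Good (Q 7) [v28, v195, v196, v188, v192, v35] :=
  split_of 0 3 v194 1301703364 (by decide +kernel) (good_ofj c0_677) t0_725 rfl rfl

theorem t0_727 : Good (Q 8) [v28, v195, v196, v188, v192, v35] :=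
  P_of 7 8 0xffffffffffffffffffffffffffffff4f13c47d1f3b8ee2b4ad2d8b62c4b22d4b5ffffffffffffffffffffffffffffff334cc33ccf354d5741d0308c32c4b12ccb4
    (by decide +kernel) t0_726

theorem t0_728 : Good (Q 9) [v28, v195, v196, v188, v192, v35] :=
  P_of 8 9 0xffffffffffffffffffffffffffffff4f13c4751d3c0f02b0ac2dcb72c4b12d0b4ffffffffffffffffffffffffffffff330cc338ce354d5fffff304c12c8b22d0b4
    (by decide +kernel) t0_727

theorem t0_729 : Good (Q 9) [v28, v30, v196, v195, v192, v35] :=
  split_of 1 4 v198 1285886215 (by decide +kernel) (good_ofj c0_680) (good_ofj c0_681) rfl rfl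

theorem t0_730 : Good (Q 9) [v28, v30, v196, v188, v192, v35] :=
  split_of 1 3 v195 1292338752 (by decide +kernel) t0_728 t0_729 rfl rfl

theorem t0_731 : Good (Q 7) [v24, v28, v196, v188, v192, v35] :=
  split_of 0 3 v193 1308718437 (by decide +kernel) (good_ofj c0_682) (good_ofj c0_683) rfl rfl

theorem t0_732 : Good (Q 8) [v24, v28, v196, v188, v192, v35] :=
  P_of 7 8 0xffffffffffffffffffffffffffffff51d4748520398e62a8aa2ecba2ccb32d8b6ffffffffffffffffffffffffffffff344d1340d1374dc70dc4304c12b4ad2c0b1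
    (by decide +kernel) t0_731

theorem t0_733 : Good (Q 9) [v24, v28, v196, v188, v192, v35] :=
  P_of 8 9 0xffffffffffffffffffffffffffffff51147485213a0e62a4aa2e4bb2ccb32e0b6ffffffffffffffffffffffffffffff348d1340d0368ddfffff300c12b0ad2ccb0
    (by decide +kernel) t0_732

theorem t0_734 : Good (Q 9) [v24, v30, v196, v188, v192, v35] :=
  split_of 0 1 v28 1299835258 (by decide +kernel) t0_730 t0_733 rfl rfl

theorem t0_735 : Good (Q 9) [v24, v30, v190, v188, v192, v35] :=
  split_of 1 2 v196 1315466281 (by decide +kernel) t0_724 t0_734 rfl rfl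

theorem t0_736 : Good (Q 9) [v24, v30, v190, v188, v192, v34] :=
  split_of 1 5 v35 1315109598 (by decide +kernel) t0_721 t0_735 rfl rfl

theorem t0_737 : Good (Q 9) [v24, v30, v190, v188, v185, v34] :=
  split_of 1 4 v192 1290828974 (by decide +kernel) (good_ofj c0_672) t0_736 rfl rfl

theorem t0_738 : Good (Q 9) [v193, v38, v191, v188, v190, v199] :=
  split_of 1 3 v200 1320147089 (by decide +kernel) (good_ofj c0_685) (good_ofj c0_686) rfl rfl

theorem t0_739 : Good (Q 9) [v193, v38, v191, v188, v190, v34] :=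
  split_of 3 5 v199 1322141996 (by decide +kernel) (good_ofj c0_684) t0_738 rfl rfl

theorem t0_740 : Good (Q 9) [v24, v38, v191, v193, v190, v34] :=
  split_of 0 2 v201 1328875777 (by decide +kernel) (good_ofj c0_687) (good_ofj c0_688) rfl rfl

theorem t0_741 : Good (Q 9) [v24, v38, v191, v188, v190, v34] :=
  split_of 0 3 v193 1308718437 (by decide +kernel) t0_739 t0_740 rfl rfl

theorem t0_742 : Good (Q 9) [v42, v43, v7, v203, v202, v45] :=
  split_of 2 4 v204 1351874964 (by decide +kernel) (good_ofj c0_693) (good_ofj c0_694) rfl rfl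

theorem t0_743 : Good (Q 9) [v42, v43, v7, v203, v202, v40] :=
  split_of 2 5 v45 1351770736 (by decide +kernel) (good_ofj c0_692) t0_742 rfl rfl

theorem t0_744 : Good (Q 9) [v37, v43, v7, v203, v202, v40] :=
  split_of 0 2 v42 1350220494 (by decide +kernel) t0_743 (good_ofj c0_695) rfl rfl

theorem t0_745 : Good (Q 9) [v37, v43, v7, v191, v202, v40] :=
  split_of 2 3 v203 1349460245 (by decide +kernel) (good_ofj c0_691) t0_744 rfl rfl

theorem t0_746 : Good (Q 9) [v37, v38, v43, v191, v202, v47] :=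
  split_of 1 4 v205 1343112045 (by decide +kernel) (good_ofj c0_697) (good_ofj c0_698) rfl rfl

theorem t0_747 : Good (Q 9) [v37, v38, v43, v191, v202, v40] :=
  split_of 1 5 v47 1343013435 (by decide +kernel) (good_ofj c0_696) t0_746 rfl rfl

theorem t0_748 : Good (Q 9) [v37, v38, v7, v191, v202, v40] :=
  split_of 1 2 v43 1347746544 (by decide +kernel) t0_745 t0_747 rfl rfl

theorem t0_749 : Good (Q 9) [v37, v38, v7, v191, v190, v40] :=
  split_of 2 4 v202 1349038282 (by decide +kernel) (good_ofj c0_690) t0_748 rfl rfl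

theorem t0_750 : Good (Q 9) [v37, v38, v7, v191, v190, v34] :=
  split_of 2 5 v40 1348643751 (by decide +kernel) (good_ofj c0_689) t0_749 rfl rfl

theorem t0_751 : Good (Q 9) [v24, v38, v7, v191, v190, v34] :=
  split_of 0 2 v37 1342484791 (by decide +kernel) t0_750 (good_ofj c0_699) rfl rfl

theorem t0_752 : Good (Q 9) [v24, v38, v7, v188, v190, v34] :=
  split_of 2 3 v191 1339459463 (by decide +kernel) t0_741 t0_751 rfl rfl

theorem t0_753 : Good (Q 9) [v193, v35, v38, v188, v190, v34] :=
  split_of 3 5 v199 1322141996 (by decide +kernel) (good_ofj c0_700) (good_ofj c0_701) rfl rfl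

theorem t0_754 : Good (Q 9) [v24, v35, v38, v193, v190, v34] :=
  split_of 0 2 v49 1325472642 (by decide +kernel) (good_ofj c0_702) (good_ofj c0_703) rfl rfl

theorem t0_755 : Good (Q 9) [v24, v35, v38, v188, v190, v34] :=
  split_of 0 3 v193 1308718437 (by decide +kernel) t0_753 t0_754 rfl rfl

theorem t0_756 : Good (Q 7) [v206, v196, v38, v200, v190, v35] :=
  split_of 4 5 v207 1328466056 (by decide +kernel) (good_ofj c0_705) (good_ofj c0_706) rfl rfl

theorem t0_757 : Good (Q 8) [v206, v196, v38, v200, v190, v35] :=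
  P_of 7 8 0xffffffffffffffffffffffffffffff5c9743dcf83a4e72c4b12d4b62d0b42e0b8ffffffffffffffffffffffffffffff2f4be394e6394e66418d2e0b72c4b12d4b4
    (by decide +kernel) t0_756

theorem t0_758 : Good (Q 9) [v206, v196, v38, v200, v190, v35] :=
  P_of 8 9 0xffffffffffffffffffffffffffffff5c9723dcf73a4e92c8b22d4b52d0b42dcb8ffffffffffffffffffffffffffffff2f0bd394e5394e5fffff2e0b82c4b12d4b5
    (by decide +kernel) t0_757

theorem t0_759 : Good (Q 9) [v193, v196, v38, v200, v190, v35] :=
  split_of 0 2 v206 1323559659 (by decide +kernel) t0_758 (good_ofj c0_707) rfl rfl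

theorem t0_760 : Good (Q 9) [v193, v196, v38, v188, v190, v35] :=
  split_of 2 3 v200 1320147089 (by decide +kernel) (good_ofj c0_704) t0_759 rfl rfl

theorem t0_761 : Good (Q 9) [v49, v196, v38, v193, v190, v35] :=
  split_of 2 3 v206 1323559659 (by decide +kernel) (good_ofj c0_708) (good_ofj c0_709) rfl rfl

theorem t0_762 : Good (Q 9) [v24, v196, v38, v193, v190, v35] :=
  split_of 0 2 v49 1325472642 (by decide +kernel) t0_761 (good_ofj c0_710) rfl rfl

theorem t0_763 : Good (Q 9) [v24, v196, v38, v188, v190, v35] :=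
  split_of 0 3 v193 1308718437 (by decide +kernel) t0_760 t0_762 rfl rfl

theorem t0_764 : Good (Q 7) [v28, v195, v200, v188, v196, v35] :=
  split_of 0 3 v194 1301703364 (by decide +kernel) (good_ofj c0_711) (good_ofj c0_712) rfl rfl

theorem t0_765 : Good (Q 8) [v28, v195, v200, v188, v196, v35] :=
  P_of 7 8 0xffffffffffffffffffffffffffffff4f93d47d1f3b4ee2b8ad2d8b62ccb32ccb4ffffffffffffffffffffffffffffff32ccb33ccf358d5735cf310c32c4b12ccb4
    (by decide +kernel) t0_764

theorem t0_766 : Good (Q 9) [v28, v195, v200, v188, v196, v35] :=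
  P_of 8 9 0xffffffffffffffffffffffffffffff4f93e47d1f3b4ed2b8ae2d8b62ccb32ccb3ffffffffffffffffffffffffffffff32ccb33ccf358d6fffff310c42c4b12ccb3
    (by decide +kernel) t0_765

theorem t0_767 : Good (Q 9) [v52, v195, v38, v200, v196, v35] :=
  split_of 1 2 v208 1315851864 (by decide +kernel) (good_ofj c0_713) (good_ofj c0_714) rfl rfl

theorem t0_768 : Good (Q 9) [v28, v195, v38, v200, v196, v35] :=
  split_of 0 2 v52 1318899466 (by decide +kernel) t0_767 (good_ofj c0_715) rfl rfl

theorem t0_769 : Good (Q 9) [v28, v195, v38, v188, v196, v35] :=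
  split_of 2 3 v200 1320147089 (by decide +kernel) t0_766 t0_768 rfl rfl

theorem t0_770 : Good (Q 9) [v209, v54, v208, v195, v196, v35] :=
  split_of 3 5 v210 1304706844 (by decide +kernel) (good_ofj c0_716) (good_ofj c0_717) rfl rfl

theorem t0_771 : Good (Q 9) [v52, v54, v208, v195, v196, v35] :=
  split_of 0 3 v209 1306975409 (by decide +kernel) t0_770 (good_ofj c0_718) rfl rfl

theorem t0_772 : Good (Q 9) [v52, v54, v38, v208, v196, v55] :=
  split_of 2 4 v211 1325173766 (by decide +kernel) (good_ofj c0_720) (good_ofj c0_721) rfl rfl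

theorem t0_773 : Good (Q 9) [v52, v54, v38, v208, v196, v35] :=
  split_of 2 5 v55 1325079639 (by decide +kernel) (good_ofj c0_719) t0_772 rfl rfl

theorem t0_774 : Good (Q 9) [v52, v54, v38, v195, v196, v35] :=
  split_of 2 3 v208 1315851864 (by decide +kernel) t0_771 t0_773 rfl rfl

theorem t0_775 : Good (Q 9) [v212, v54, v209, v195, v196, v35] :=
  split_of 3 5 v210 1304706844 (by decide +kernel) (good_ofj c0_722) (good_ofj c0_723) rfl rfl

theorem t0_776 : Good (Q 9) [v212, v54, v52, v209, v196, v35] :=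
  split_of 0 1 v213 1304056438 (by decide +kernel) (good_ofj c0_724) (good_ofj c0_725) rfl rfl

theorem t0_777 : Good (Q 9) [v212, v54, v52, v195, v196, v35] :=
  split_of 2 3 v209 1306975409 (by decide +kernel) t0_775 t0_776 rfl rfl

theorem t0_778 : Good (Q 9) [v57, v54, v52, v212, v196, v35] :=
  split_of 1 3 v213 1304056438 (by decide +kernel) (good_ofj c0_726) (good_ofj c0_727) rfl rfl

theorem t0_779 : Good (Q 9) [v28, v54, v52, v212, v196, v35] :=
  split_of 0 1 v57 1305645227 (by decide +kernel) t0_778 (good_ofj c0_728) rfl rfl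

theorem t0_780 : Good (Q 9) [v28, v54, v52, v195, v196, v35] :=
  split_of 0 3 v212 1296895720 (by decide +kernel) t0_777 t0_779 rfl rfl

theorem t0_781 : Good (Q 9) [v28, v54, v38, v195, v196, v35] :=
  split_of 0 2 v52 1318899466 (by decide +kernel) t0_774 t0_780 rfl rfl

theorem t0_782 : Good (Q 8) [v212, v58, v54, v210, v196, v35] :=
  split_of 0 2 v213 1304056438 (by decide +kernel) (good_ofj c0_729) (good_ofj c0_730) rfl rfl

theorem t0_783 : Good (Q 9) [v212, v58, v54, v210, v196, v35] :=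
  P_of 8 9 0xffffffffffffffffffffffffffffff50541425093f4fd2bcaf2d0b52c8b22c8b2ffffffffffffffffffffffffffffff304c0344d0358d6fffff2f0bd2e4b92e4b9
    (by decide +kernel) t0_782

theorem t0_784 : Good (Q 9) [v212, v58, v54, v195, v196, v35] :=
  split_of 3 5 v210 1304706844 (by decide +kernel) t0_783 (good_ofj c0_731) rfl rfl

theorem t0_785 : Good (Q 8) [v57, v58, v54, v212, v196, v35] :=
  split_of 2 3 v213 1304056438 (by decide +kernel) (good_ofj c0_732) (good_ofj c0_733) rfl rfl

theorem t0_786 : Good (Q 8) [v28, v58, v54, v212, v196, v35] :=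
  split_of 0 2 v57 1305645227 (by decide +kernel) t0_785 (good_ofj c0_734) rfl rfl

theorem t0_787 : Good (Q 9) [v28, v58, v54, v212, v196, v35] :=
  P_of 8 9 0xffffffffffffffffffffffffffffff50541425093f4fd2bcaf2d0b52c8b22c8b2ffffffffffffffffffffffffffffff304c0344d0358d6fffff2f0bd2e4b92e4b9
    (by decide +kernel) t0_786

theorem t0_788 : Good (Q 9) [v28, v58, v54, v195, v196, v35] :=
  split_of 0 3 v212 1296895720 (by decide +kernel) t0_784 t0_787 rfl rfl

theorem t0_789 : Good (Q 9) [v28, v214, v54, v195, v196, v58] :=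
  split_of 0 3 v212 1296895720 (by decide +kernel) (good_ofj c0_736) (good_ofj c0_737) rfl rfl

theorem t0_790 : Good (Q 9) [v28, v30, v54, v195, v196, v58] :=
  split_of 0 1 v214 1290348880 (by decide +kernel) (good_ofj c0_735) t0_789 rfl rfl

theorem t0_791 : Good (Q 9) [v28, v30, v54, v195, v196, v35] :=
  split_of 1 5 v58 1298631825 (by decide +kernel) t0_788 t0_790 rfl rfl

theorem t0_792 : Good (Q 9) [v28, v30, v38, v195, v196, v35] :=
  split_of 1 2 v54 1309864426 (by decide +kernel) t0_781 t0_791 rfl rfl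

theorem t0_793 : Good (Q 9) [v28, v30, v38, v188, v196, v35] :=
  split_of 1 3 v195 1292338752 (by decide +kernel) t0_769 t0_792 rfl rfl

theorem t0_794 : Good (Q 9) [v193, v28, v38, v188, v196, v35] :=
  split_of 2 3 v200 1320147089 (by decide +kernel) (good_ofj c0_738) (good_ofj c0_739) rfl rfl

theorem t0_795 : Good (Q 9) [v24, v28, v38, v188, v196, v35] :=
  split_of 0 3 v193 1308718437 (by decide +kernel) t0_794 (good_ofj c0_740) rfl rfl

theorem t0_796 : Good (Q 9) [v24, v30, v38, v188, v196, v35] :=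
  split_of 0 1 v28 1299835258 (by decide +kernel) t0_793 t0_795 rfl rfl

theorem t0_797 : Good (Q 9) [v24, v30, v38, v188, v190, v35] :=
  split_of 1 4 v196 1315466281 (by decide +kernel) t0_763 t0_796 rfl rfl

theorem t0_798 : Good (Q 9) [v24, v30, v38, v188, v190, v34] :=
  split_of 1 5 v35 1315109598 (by decide +kernel) t0_755 t0_797 rfl rfl

theorem t0_799 : Good (Q 9) [v24, v30, v7, v188, v190, v34] :=
  split_of 1 2 v38 1333169107 (by decide +kernel) t0_752 t0_798 rfl rfl

theorem t0_800 : Good (Q 9) [v24, v30, v7, v188, v185, v34] :=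
  split_of 2 4 v190 1337829094 (by decide +kernel) t0_737 t0_799 rfl rfl

theorem t0_801 : Good (Q 9) [v24, v30, v7, v188, v185, v21] :=
  split_of 2 5 v34 1336420407 (by decide +kernel) t0_719 t0_800 rfl rfl

theorem t0_802 : Good (Q 9) [v24, v30, v7, v183, v185, v21] :=
  split_of 1 3 v188 1299447568 (by decide +kernel) t0_708 t0_801 rfl rfl

theorem t0_803 : Good (Q 9) [v187, v24, v7, v183, v185, v21] :=
  split_of 2 3 v189 1339712096 (by decide +kernel) (good_ofj c0_741) (good_ofj c0_742) rfl rfl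

theorem t0_804 : Good (Q 9) [v19, v24, v7, v183, v185, v21] :=
  split_of 0 3 v187 1314545060 (by decide +kernel) t0_803 (good_ofj c0_743) rfl rfl

theorem t0_805 : Good (Q 9) [v19, v30, v7, v183, v185, v21] :=
  split_of 0 1 v24 1311740689 (by decide +kernel) t0_802 t0_804 rfl rfl

theorem t0_806 : Good (Q 9) [v19, v30, v7, v183, v185, v15] :=
  split_of 1 5 v21 1288860967 (by decide +kernel) t0_704 t0_805 rfl rfl

theorem t0_807 : Good (Q 10) [v19, v30, v7, v183, v185, v15] :=
  env_E _ t0_806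

theorem t0_808 : Good (Q 10) [v19, v30, v7, v183, v176, v15] :=
  split_of 1 4 v185 1293212810 (by decide +kernel) t0_702 t0_807 rfl rfl

theorem t0_809 : Good (Q 9) [v217, v30, v24, v188, v192, v27] :=
  split_of 1 2 v28 1299835258 (by decide +kernel) (good_ofj c0_750) (good_ofj c0_751) rfl rfl

theorem t0_810 : Good (Q 9) [v216, v30, v24, v188, v192, v27] :=
  split_of 0 1 v217 1290080325 (by decide +kernel) t0_809 (good_ofj c0_752) rfl rfl

theorem t0_811 : Good (Q 9) [v216, v30, v24, v188, v192, v21] :=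
  split_of 1 5 v27 1289558025 (by decide +kernel) (good_ofj c0_749) t0_810 rfl rfl

theorem t0_812 : Good (Q 9) [v216, v30, v24, v188, v185, v21] :=
  split_of 1 4 v192 1290828974 (by decide +kernel) (good_ofj c0_748) t0_811 rfl rfl

theorem t0_813 : Good (Q 9) [v216, v30, v24, v183, v185, v21] :=
  split_of 1 3 v188 1299447568 (by decide +kernel) (good_ofj c0_747) t0_812 rfl rfl

theorem t0_814 : Good (Q 9) [v216, v30, v19, v183, v185, v21] :=
  split_of 1 2 v24 1311740689 (by decide +kernel) (good_ofj c0_746) t0_813 rfl rfl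

theorem t0_815 : Good (Q 9) [v215, v30, v19, v183, v185, v21] :=
  split_of 0 1 v216 1290859204 (by decide +kernel) t0_814 (good_ofj c0_753) rfl rfl

theorem t0_816 : Good (Q 10) [v215, v30, v19, v183, v185, v21] :=
  env_E _ t0_815

theorem t0_817 : Good (Q 10) [v215, v30, v19, v183, v185, v15] :=
  split_of 1 5 v21 1288860967 (by decide +kernel) (good_ofj c0_745) t0_816 rfl rfl

theorem t0_818 : Good (Q 10) [v215, v30, v19, v183, v176, v15] :=
  split_of 1 4 v185 1293212810 (by decide +kernel) (good_ofj c0_744) t0_817 rfl rfl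

theorem t0_819 : Good (Q 9) [v60, v30, v19, v215, v185, v21] :=
  split_of 1 3 v216 1290859204 (by decide +kernel) (good_ofj c0_756) (good_ofj c0_757) rfl rfl

theorem t0_820 : Good (Q 9) [v60, v30, v19, v215, v185, v15] :=
  split_of 1 5 v21 1288860967 (by decide +kernel) (good_ofj c0_755) t0_819 rfl rfl

theorem t0_821 : Good (Q 10) [v60, v30, v19, v215, v185, v15] :=
  env_E _ t0_820

theorem t0_822 : Good (Q 10) [v60, v30, v19, v215, v176, v15] :=
  split_of 1 4 v185 1293212810 (by decide +kernel) (good_ofj c0_754) t0_821 rfl rfl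

theorem t0_823 : Good (Q 10) [v0, v30, v19, v215, v176, v15] :=
  split_of 0 1 v60 1264382982 (by decide +kernel) t0_822 (good_ofj c0_758) rfl rfl

theorem t0_824 : Good (Q 10) [v0, v30, v19, v183, v176, v15] :=
  split_of 0 3 v215 1263878641 (by decide +kernel) t0_818 t0_823 rfl rfl

theorem t0_825 : Good (Q 10) [v0, v30, v7, v183, v176, v15] :=
  split_of 0 2 v19 1309159440 (by decide +kernel) t0_808 t0_824 rfl rfl

theorem t0_826 : Good (Q 10) [v0, v30, v7, v183, v176, v5] :=
  split_of 1 5 v15 1256264730 (by decide +kernel) t0_701 t0_825 rfl rfl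

theorem t0_827 : Good (Q 10) [v0, v30, v7, v178, v176, v5] :=
  split_of 1 3 v183 1295857916 (by decide +kernel) t0_697 t0_826 rfl rfl

theorem t0_828 : Good (Q 10) [v0, v30, v7, v178, v179, v5] :=
  split_of 1 4 v176 1268403305 (by decide +kernel) t0_694 t0_827 rfl rfl

theorem t0_829 : Good (Q 10) [v218, v176, v7, v178, v219, v0] :=
  split_of 3 5 v180 1241799870 (by decide +kernel) (good_ofj c0_759) (good_ofj c0_760) rfl rfl

theorem t0_830 : Good (Q 10) [v218, v176, v7, v178, v179, v0] :=
  split_of 4 5 v219 1202967926 (by decide +kernel) t0_829 (good_ofj c0_761) rfl rfl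

theorem t0_831 : Good (Q 10) [v220, v30, v19, v180, v176, v0] :=
  split_of 4 5 v182 1251137061 (by decide +kernel) (good_ofj c0_762) (good_ofj c0_763) rfl rfl

theorem t0_832 : Good (Q 9) [v226, v30, v225, v223, v192, v28] :=
  split_of 1 3 v227 1288948140 (by decide +kernel) (good_ofj c0_771) (good_ofj c0_772) rfl rfl

theorem t0_833 : Good (Q 9) [v222, v30, v225, v223, v192, v28] :=
  split_of 0 1 v226 1300207819 (by decide +kernel) t0_832 (good_ofj c0_773) rfl rfl

theorem t0_834 : Good (Q 9) [v222, v30, v225, v223, v192, v24] :=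
  split_of 1 5 v28 1299835258 (by decide +kernel) (good_ofj c0_770) t0_833 rfl rfl

theorem t0_835 : Good (Q 9) [v222, v30, v224, v223, v192, v24] :=
  split_of 1 2 v225 1317674863 (by decide +kernel) (good_ofj c0_769) t0_834 rfl rfl

theorem t0_836 : Good (Q 9) [v222, v30, v224, v223, v185, v24] :=
  split_of 1 4 v192 1290828974 (by decide +kernel) (good_ofj c0_768) t0_835 rfl rfl

theorem t0_837 : Good (Q 9) [v222, v30, v224, v221, v185, v24] :=
  split_of 1 3 v223 1294506655 (by decide +kernel) (good_ofj c0_767) t0_836 rfl rfl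

theorem t0_838 : Good (Q 6) [v226, v228, v196, v225, v192, v28] :=
  split_of 3 4 v229 1305444819 (by decide +kernel) (good_ofj c0_778) (good_ofj c0_779) rfl rfl

theorem t0_839 : Good (Q 7) [v226, v228, v196, v225, v192, v28] :=
  P_of 6 7 0xffffffffffffffffffffffffffffff5053e449153d4f52acaa2dcb62ccb32ccb590240ffffffffffffffffffff8360931cc9338ce360d6725cc2f4be2d0b22dcb8
    (by decide +kernel) t0_838

theorem t0_840 : Good (Q 8) [v226, v228, v196, v225, v192, v28] :=
  P_of 7 8 0xffffffffffffffffffffffffffffff50541445123d4f52b0ab2dcb72ccb32ccb4ffffffffffffffffffffffffffffff318c7338ce360d8725c92f4bd2d0b42dcb7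
    (by decide +kernel) t0_839

theorem t0_841 : Good (Q 9) [v226, v228, v196, v225, v192, v28] :=
  P_of 8 9 0xffffffffffffffffffffffffffffff50541445113d8f52b0ac2dcb72ccb32ccb3ffffffffffffffffffffffffffffff318c6338ce360d8fffff2f4bd2d4b52dcb7
    (by decide +kernel) t0_840

theorem t0_842 : Good (Q 9) [v226, v30, v196, v225, v192, v28] :=
  split_of 1 3 v228 1300359111 (by decide +kernel) t0_841 (good_ofj c0_780) rfl rfl

theorem t0_843 : Good (Q 9) [v222, v30, v196, v225, v192, v28] :=
  split_of 0 1 v226 1300207819 (by decide +kernel) t0_842 (good_ofj c0_781) rfl rfl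

theorem t0_844 : Good (Q 9) [v222, v30, v196, v225, v192, v24] :=
  split_of 1 5 v28 1299835258 (by decide +kernel) (good_ofj c0_777) t0_843 rfl rfl

theorem t0_845 : Good (Q 9) [v222, v30, v190, v225, v192, v24] :=
  split_of 1 2 v196 1315466281 (by decide +kernel) (good_ofj c0_776) t0_844 rfl rfl

theorem t0_846 : Good (Q 9) [v222, v30, v190, v224, v192, v24] :=
  split_of 1 3 v225 1317674863 (by decide +kernel) (good_ofj c0_775) t0_845 rfl rfl

theorem t0_847 : Good (Q 9) [v222, v30, v190, v224, v185, v24] :=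
  split_of 1 4 v192 1290828974 (by decide +kernel) (good_ofj c0_774) t0_846 rfl rfl

theorem t0_848 : Good (Q 9) [v232, v43, v7, v231, v202, v42] :=
  split_of 2 3 v233 1351945589 (by decide +kernel) (good_ofj c0_786) (good_ofj c0_787) rfl rfl

theorem t0_849 : Good (Q 9) [v230, v43, v7, v231, v202, v42] :=
  split_of 0 2 v232 1350325825 (by decide +kernel) t0_848 (good_ofj c0_788) rfl rfl

theorem t0_850 : Good (Q 9) [v230, v43, v7, v231, v202, v37] :=
  split_of 2 5 v42 1350220494 (by decide +kernel) (good_ofj c0_785) t0_849 rfl rfl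

theorem t0_851 : Good (Q 9) [v230, v38, v43, v234, v202, v37] :=
  split_of 1 4 v205 1343112045 (by decide +kernel) (good_ofj c0_790) (good_ofj c0_791) rfl rfl

theorem t0_852 : Good (Q 9) [v230, v38, v43, v231, v202, v37] :=
  split_of 1 3 v234 1343753970 (by decide +kernel) (good_ofj c0_789) t0_851 rfl rfl

theorem t0_853 : Good (Q 9) [v230, v38, v7, v231, v202, v37] :=
  split_of 1 2 v43 1347746544 (by decide +kernel) t0_850 t0_852 rfl rfl

theorem t0_854 : Good (Q 9) [v230, v38, v7, v231, v190, v37] :=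
  split_of 2 4 v202 1349038282 (by decide +kernel) (good_ofj c0_784) t0_853 rfl rfl

theorem t0_855 : Good (Q 9) [v230, v38, v7, v224, v190, v37] :=
  split_of 2 3 v231 1349273507 (by decide +kernel) (good_ofj c0_783) t0_854 rfl rfl

theorem t0_856 : Good (Q 9) [v222, v38, v7, v224, v190, v37] :=
  split_of 0 2 v230 1342889933 (by decide +kernel) t0_855 (good_ofj c0_792) rfl rfl

theorem t0_857 : Good (Q 9) [v222, v38, v7, v224, v190, v24] :=
  split_of 2 5 v37 1342484791 (by decide +kernel) (good_ofj c0_782) t0_856 rfl rfl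

theorem t0_858 : Good (Q 9) [v222, v225, v38, v224, v190, v24] :=
  split_of 2 5 v49 1325472642 (by decide +kernel) (good_ofj c0_793) (good_ofj c0_794) rfl rfl

theorem t0_859 : Good (Q 7) [v235, v196, v38, v225, v190, v49] :=
  split_of 3 4 v236 1329507475 (by decide +kernel) (good_ofj c0_796) (good_ofj c0_797) rfl rfl

theorem t0_860 : Good (Q 8) [v235, v196, v38, v225, v190, v49] :=
  P_of 7 8 0xffffffffffffffffffffffffffffff5d1753d4f63a4e82c4b02d8b62d4b52dcb8ffffffffffffffffffffffffffffff2f0bd394e539ce76358d2dcb72c4b02d4b5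
    (by decide +kernel) t0_859

theorem t0_861 : Good (Q 9) [v235, v196, v38, v225, v190, v49] :=
  P_of 8 9 0xfffffffffffffffffffffffffffffffffff3d8f53a8e92c4b12d8b62d4b52dcb7ffffffffffffffffffffffffffffff2f0bc390e539ce7fffff2dcb72c8b12d4b5
    (by decide +kernel) t0_860

theorem t0_862 : Good (Q 9) [v222, v196, v38, v225, v190, v49] :=
  split_of 0 2 v235 1325859591 (by decide +kernel) t0_861 (good_ofj c0_798) rfl rfl

theorem t0_863 : Good (Q 9) [v222, v196, v38, v225, v190, v24] :=
  split_of 2 5 v49 1325472642 (by decide +kernel) (good_ofj c0_795) t0_862 rfl rfl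

theorem t0_864 : Good (Q 9) [v237, v54, v38, v225, v196, v52] :=
  split_of 2 3 v238 1326332669 (by decide +kernel) (good_ofj c0_801) (good_ofj c0_802) rfl rfl

theorem t0_865 : Good (Q 9) [v226, v54, v38, v225, v196, v52] :=
  split_of 0 2 v237 1318995381 (by decide +kernel) t0_864 (good_ofj c0_803) rfl rfl

theorem t0_866 : Good (Q 9) [v226, v54, v38, v225, v196, v28] :=
  split_of 2 5 v52 1318899466 (by decide +kernel) (good_ofj c0_800) t0_865 rfl rfl

theorem t0_867 : Good (Q 7) [v226, v228, v54, v225, v196, v57] :=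
  split_of 0 2 v239 1305739407 (by decide +kernel) (good_ofj c0_805) (good_ofj c0_806) rfl rfl

theorem t0_868 : Good (Q 7) [v226, v228, v54, v225, v196, v28] :=
  split_of 2 5 v57 1305645227 (by decide +kernel) (good_ofj c0_804) t0_867 rfl rfl

theorem t0_869 : Good (Q 8) [v226, v228, v54, v225, v196, v28] :=
  P_of 7 8 0xffffffffffffffffffffffffffffff51145419063f4fd2b8ad2d4b62ccb32c4b1ffffffffffffffffffffffffffffff2fcbf344d1360d9715c32ecbb2e4b92e8b9
    (by decide +kernel) t0_868

theorem t0_870 : Good (Q 9) [v226, v228, v54, v225, v196, v28] :=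
  P_of 8 9 0xffffffffffffffffffffffffffffff5114441d073f4fd2bcae2d0b52ccb32c4b1ffffffffffffffffffffffffffffff2fcbf344d1360d7fffff2f0bc2e0b92e8ba
    (by decide +kernel) t0_869

theorem t0_871 : Good (Q 9) [v226, v30, v54, v225, v196, v28] :=
  split_of 1 3 v228 1300359111 (by decide +kernel) t0_870 (good_ofj c0_807) rfl rfl

theorem t0_872 : Good (Q 9) [v226, v30, v38, v225, v196, v28] :=
  split_of 1 2 v54 1309864426 (by decide +kernel) t0_866 t0_871 rfl rfl

theorem t0_873 : Good (Q 9) [v222, v30, v38, v225, v196, v28] :=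
  split_of 0 1 v226 1300207819 (by decide +kernel) t0_872 (good_ofj c0_808) rfl rfl

theorem t0_874 : Good (Q 9) [v222, v30, v38, v225, v196, v24] :=
  split_of 1 5 v28 1299835258 (by decide +kernel) (good_ofj c0_799) t0_873 rfl rfl

theorem t0_875 : Good (Q 9) [v222, v30, v38, v225, v190, v24] :=
  split_of 1 4 v196 1315466281 (by decide +kernel) t0_863 t0_874 rfl rfl

theorem t0_876 : Good (Q 9) [v222, v30, v38, v224, v190, v24] :=
  split_of 1 3 v225 1317674863 (by decide +kernel) t0_858 t0_875 rfl rfl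

theorem t0_877 : Good (Q 9) [v222, v30, v7, v224, v190, v24] :=
  split_of 1 2 v38 1333169107 (by decide +kernel) t0_857 t0_876 rfl rfl

theorem t0_878 : Good (Q 9) [v222, v30, v7, v224, v185, v24] :=
  split_of 2 4 v190 1337829094 (by decide +kernel) t0_847 t0_877 rfl rfl

theorem t0_879 : Good (Q 9) [v222, v30, v7, v221, v185, v24] :=
  split_of 2 3 v224 1338391739 (by decide +kernel) t0_837 t0_878 rfl rfl

theorem t0_880 : Good (Q 9) [v222, v30, v7, v221, v185, v19] :=
  split_of 1 5 v24 1311740689 (by decide +kernel) (good_ofj c0_766) t0_879 rfl rfl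

theorem t0_881 : Good (Q 9) [v220, v222, v7, v221, v185, v19] :=
  split_of 0 2 v240 1343852908 (by decide +kernel) (good_ofj c0_809) (good_ofj c0_810) rfl rfl

theorem t0_882 : Good (Q 9) [v220, v30, v7, v221, v185, v19] :=
  split_of 0 1 v222 1313261210 (by decide +kernel) t0_880 t0_881 rfl rfl

theorem t0_883 : Good (Q 9) [v220, v30, v7, v221, v176, v19] :=
  split_of 1 4 v185 1293212810 (by decide +kernel) (good_ofj c0_765) t0_882 rfl rfl

theorem t0_884 : Good (Q 10) [v220, v30, v7, v221, v176, v19] :=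
  env_E _ t0_883

theorem t0_885 : Good (Q 10) [v220, v30, v7, v180, v176, v19] :=
  split_of 1 3 v221 1292248265 (by decide +kernel) (good_ofj c0_764) t0_884 rfl rfl

theorem t0_886 : Good (Q 10) [v220, v30, v7, v180, v176, v0] :=
  split_of 2 5 v19 1309159440 (by decide +kernel) t0_831 t0_885 rfl rfl

theorem t0_887 : Good (Q 10) [v218, v30, v7, v180, v176, v0] :=
  split_of 0 2 v220 1315710025 (by decide +kernel) t0_886 (good_ofj c0_811) rfl rfl

theorem t0_888 : Good (Q 9) [v222, v188, v7, v189, v190, v224] :=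
  split_of 1 2 v191 1339459463 (by decide +kernel) (good_ofj c0_818) (good_ofj c0_819) rfl rfl

theorem t0_889 : Good (Q 9) [v222, v188, v7, v189, v185, v224] :=
  split_of 2 4 v190 1337829094 (by decide +kernel) (good_ofj c0_817) t0_888 rfl rfl

theorem t0_890 : Good (Q 9) [v222, v188, v7, v189, v185, v221] :=
  split_of 2 5 v224 1338391739 (by decide +kernel) (good_ofj c0_816) t0_889 rfl rfl

theorem t0_891 : Good (Q 9) [v222, v188, v7, v183, v185, v221] :=
  split_of 2 3 v189 1339712096 (by decide +kernel) (good_ofj c0_815) t0_890 rfl rfl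

theorem t0_892 : Good (Q 7) [v226, v195, v225, v188, v192, v223] :=
  split_of 0 3 v241 1301783253 (by decide +kernel) (good_ofj c0_823) (good_ofj c0_824) rfl rfl

theorem t0_893 : Good (Q 8) [v226, v195, v225, v188, v192, v223] :=
  P_of 7 8 0xffffffffffffffffffffffffffffff4d937491243b8ed2b4ad2d8b62d0b42c4b2ffffffffffffffffffffffffffffff32ccc32ccb354d575dd631cc72c4b12ccb3
    (by decide +kernel) t0_892

theorem t0_894 : Good (Q 9) [v226, v195, v225, v188, v192, v223] :=
  P_of 8 9 0xffffffffffffffffffffffffffffff4d937491243b8ee2b4aa2d8b52d0b52c4b4ffffffffffffffffffffffffffffff32cce32ccb354d5fffff31cc52c4af2ccb5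
    (by decide +kernel) t0_893

theorem t0_895 : Good (Q 6) [v226, v228, v225, v195, v192, v227] :=
  split_of 2 4 v229 1305444819 (by decide +kernel) (good_ofj c0_826) (good_ofj c0_827) rfl rfl

theorem t0_896 : Good (Q 7) [v226, v228, v225, v195, v192, v227] :=
  P_of 6 7 0xffffffffffffffffffffffffffffff4dd3847d1c3c8f32b4ad2d8b62ccb32c8b391a44ffffffffffffffffffff7e5fd32cca330cc350d4759d430cc22ccb32d4b5
    (by decide +kernel) t0_895

theorem t0_897 : Good (Q 8) [v226, v228, v225, v195, v192, v227] :=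
  P_of 7 8 0xffffffffffffffffffffffffffffff4dd374791d3ccf42b4ad2dcb52ccb22c4b2ffffffffffffffffffffffffffffff328c932ccc354d375dd6310c32d0b42d0b5
    (by decide +kernel) t0_896

theorem t0_898 : Good (Q 9) [v226, v228, v225, v195, v192, v227] :=
  P_of 8 9 0xffffffffffffffffffffffffffffff4dd374791e3ccf32b4ad2dcb72ccb32c4b1ffffffffffffffffffffffffffffff328ca32ccb354d5fffff310c42d0b42d0b4
    (by decide +kernel) t0_897

theorem t0_899 : Good (Q 9) [v226, v30, v225, v195, v192, v227] :=
  split_of 1 2 v228 1300359111 (by decide +kernel) t0_898 (good_ofj c0_828) rfl rfl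

theorem t0_900 : Good (Q 9) [v226, v30, v225, v195, v192, v223] :=
  split_of 1 5 v227 1288948140 (by decide +kernel) (good_ofj c0_825) t0_899 rfl rfl

theorem t0_901 : Good (Q 9) [v226, v30, v225, v188, v192, v223] :=
  split_of 1 3 v195 1292338752 (by decide +kernel) t0_894 t0_900 rfl rfl

theorem t0_902 : Good (Q 9) [v222, v30, v225, v188, v192, v223] :=
  split_of 0 1 v226 1300207819 (by decide +kernel) t0_901 (good_ofj c0_829) rfl rfl

theorem t0_903 : Good (Q 9) [v222, v30, v224, v188, v192, v223] :=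
  split_of 1 2 v225 1317674863 (by decide +kernel) (good_ofj c0_822) t0_902 rfl rfl

theorem t0_904 : Good (Q 9) [v222, v30, v224, v188, v185, v223] :=
  split_of 1 4 v192 1290828974 (by decide +kernel) (good_ofj c0_821) t0_903 rfl rfl

theorem t0_905 : Good (Q 9) [v222, v30, v224, v188, v185, v221] :=
  split_of 1 5 v223 1294506655 (by decide +kernel) (good_ofj c0_820) t0_904 rfl rfl

theorem t0_906 : Good (Q 7) [v222, v196, v190, v188, v192, v225] :=
  split_of 0 3 v242 1309041868 (by decide +kernel) (good_ofj c0_832) (good_ofj c0_833) rfl rfl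

theorem t0_907 : Good (Q 8) [v222, v196, v190, v188, v192, v225] :=
  P_of 7 8 0xffffffffffffffffffffffffffffff55d5746118384e12a8aa2d4b52d4b52f4bdffffffffffffffffffffffffffffff338ce36cdb378de6c1b02fcbf29ca72d0b4
    (by decide +kernel) t0_906

theorem t0_908 : Good (Q 9) [v222, v196, v190, v188, v192, v225] :=
  P_of 8 9 0xffffffffffffffffffffffffffffff55d5746118384e12a8aa2d4b52d4b52f4bdffffffffffffffffffffffffffffff338ce36cdb378defffff2fcbf29ca72d0b4
    (by decide +kernel) t0_907

theorem t0_909 : Good (Q 7) [v226, v195, v196, v188, v192, v225] :=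
  split_of 0 3 v241 1301783253 (by decide +kernel) (good_ofj c0_834) (good_ofj c0_835) rfl rfl

theorem t0_910 : Good (Q 8) [v226, v195, v196, v188, v192, v225] :=
  P_of 7 8 0xffffffffffffffffffffffffffffff4f13b4811f3b4ee2b8ad2d4b42d0b42ccb5ffffffffffffffffffffffffffffff32ccb338cf354d4741d1314c52c0af2d0b5
    (by decide +kernel) t0_909

theorem t0_911 : Good (Q 9) [v226, v195, v196, v188, v192, v225] :=
  P_of 8 9 0xffffffffffffffffffffffffffffff4ed3c485203b4ed2b8ae2d0b52ccb42ccb3ffffffffffffffffffffffffffffff32ccb33cce354d5fffff318c52c0b02ccb4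
    (by decide +kernel) t0_910

theorem t0_912 : Good (Q 7) [v226, v228, v196, v195, v192, v225] :=
  split_of 4 5 v229 1305444819 (by decide +kernel) (good_ofj c0_836) (good_ofj c0_837) rfl rfl

theorem t0_913 : Good (Q 8) [v226, v228, v196, v195, v192, v225] :=
  P_of 7 8 0xffffffffffffffffffffffffffffff4dd3a4791b3ccf32b8ae2d0b42c8b32ccb4ffffffffffffffffffffffffffffff324c9338ce348d3759d3310c32ccb32d4b6
    (by decide +kernel) t0_912

theorem t0_914 : Good (Q 9) [v226, v228, v196, v195, v192, v225] :=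
  P_of 8 9 0xffffffffffffffffffffffffffffff4e1374651e3d4f32b8ae2d0b42c8b22ccb3ffffffffffffffffffffffffffffff320c9334ce34cd2fffff308c42d0b32d8b5
    (by decide +kernel) t0_913

theorem t0_915 : Good (Q 9) [v226, v30, v196, v195, v192, v225] :=
  split_of 1 5 v228 1300359111 (by decide +kernel) t0_914 (good_ofj c0_838) rfl rfl

theorem t0_916 : Good (Q 9) [v226, v30, v196, v188, v192, v225] :=
  split_of 1 3 v195 1292338752 (by decide +kernel) t0_911 t0_915 rfl rfl

theorem t0_917 : Good (Q 9) [v222, v30, v196, v188, v192, v225] :=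
  split_of 0 1 v226 1300207819 (by decide +kernel) t0_916 (good_ofj c0_839) rfl rfl

theorem t0_918 : Good (Q 9) [v222, v30, v190, v188, v192, v225] :=
  split_of 1 2 v196 1315466281 (by decide +kernel) t0_908 t0_917 rfl rfl

theorem t0_919 : Good (Q 9) [v222, v30, v190, v188, v192, v224] :=
  split_of 1 5 v225 1317674863 (by decide +kernel) (good_ofj c0_831) t0_918 rfl rfl

theorem t0_920 : Good (Q 9) [v222, v30, v190, v188, v185, v224] :=
  split_of 1 4 v192 1290828974 (by decide +kernel) (good_ofj c0_830) t0_919 rfl rfl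

theorem t0_921 : Good (Q 9) [v222, v38, v243, v188, v190, v224] :=
  split_of 0 1 v235 1325859591 (by decide +kernel) (good_ofj c0_841) (good_ofj c0_842) rfl rfl

theorem t0_922 : Good (Q 9) [v222, v38, v191, v188, v190, v224] :=
  split_of 0 2 v243 1329239367 (by decide +kernel) (good_ofj c0_840) t0_921 rfl rfl

theorem t0_923 : Good (Q 9) [v232, v43, v7, v203, v202, v231] :=
  split_of 2 5 v233 1351945589 (by decide +kernel) (good_ofj c0_846) (good_ofj c0_847) rfl rfl

theorem t0_924 : Good (Q 9) [v230, v43, v7, v203, v202, v231] :=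
  split_of 0 2 v232 1350325825 (by decide +kernel) t0_923 (good_ofj c0_848) rfl rfl

theorem t0_925 : Good (Q 9) [v230, v43, v7, v191, v202, v231] :=
  split_of 2 3 v203 1349460245 (by decide +kernel) (good_ofj c0_845) t0_924 rfl rfl

theorem t0_926 : Good (Q 9) [v230, v38, v43, v191, v202, v234] :=
  split_of 1 4 v205 1343112045 (by decide +kernel) (good_ofj c0_850) (good_ofj c0_851) rfl rfl

theorem t0_927 : Good (Q 9) [v230, v38, v43, v191, v202, v231] :=
  split_of 1 5 v234 1343753970 (by decide +kernel) (good_ofj c0_849) t0_926 rfl rfl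

theorem t0_928 : Good (Q 9) [v230, v38, v7, v191, v202, v231] :=
  split_of 1 2 v43 1347746544 (by decide +kernel) t0_925 t0_927 rfl rfl

theorem t0_929 : Good (Q 9) [v230, v38, v7, v191, v190, v231] :=
  split_of 2 4 v202 1349038282 (by decide +kernel) (good_ofj c0_844) t0_928 rfl rfl

theorem t0_930 : Good (Q 9) [v230, v38, v7, v191, v190, v224] :=
  split_of 2 5 v231 1349273507 (by decide +kernel) (good_ofj c0_843) t0_929 rfl rfl

theorem t0_931 : Good (Q 9) [v222, v38, v7, v191, v190, v224] :=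
  split_of 0 2 v230 1342889933 (by decide +kernel) t0_930 (good_ofj c0_852) rfl rfl

theorem t0_932 : Good (Q 9) [v222, v38, v7, v188, v190, v224] :=
  split_of 2 3 v191 1339459463 (by decide +kernel) t0_922 t0_931 rfl rfl

theorem t0_933 : Good (Q 7) [v235, v225, v38, v200, v190, v244] :=
  split_of 1 4 v236 1329507475 (by decide +kernel) (good_ofj c0_855) (good_ofj c0_856) rfl rfl

theorem t0_934 : Good (Q 8) [v235, v225, v38, v200, v190, v244] :=
  P_of 7 8 0xffffffffffffffffffffffffffffff5dd773d8f8398e52c8b12d8b62d4b52d8b7ffffffffffffffffffffffffffffff2f0bd394e53a4e96298a2e0b82c4b02ccb3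
    (by decide +kernel) t0_933

theorem t0_935 : Good (Q 9) [v235, v225, v38, v200, v190, v244] :=
  P_of 8 9 0xfffffffffffffffffffffffffffffffffff3d8f639ce62c8b22d8b62d4b52d8b6ffffffffffffffffffffffffffffff2f0bc394e53a0e9fffff2e0b82c8b12ccb3
    (by decide +kernel) t0_934

theorem t0_936 : Good (Q 9) [v235, v225, v38, v200, v190, v224] :=
  split_of 2 5 v244 1337980351 (by decide +kernel) (good_ofj c0_854) t0_935 rfl rfl

theorem t0_937 : Good (Q 9) [v235, v225, v38, v188, v190, v224] :=
  split_of 2 3 v200 1320147089 (by decide +kernel) (good_ofj c0_853) t0_936 rfl rfl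

theorem t0_938 : Good (Q 9) [v222, v225, v38, v188, v190, v224] :=
  split_of 0 2 v235 1325859591 (by decide +kernel) t0_937 (good_ofj c0_857) rfl rfl

theorem t0_939 : Good (Q 7) [v235, v196, v38, v200, v190, v225] :=
  split_of 4 5 v236 1329507475 (by decide +kernel) (good_ofj c0_859) (good_ofj c0_860) rfl rfl

theorem t0_940 : Good (Q 8) [v235, v196, v38, v200, v190, v225] :=
  P_of 7 8 0xffffffffffffffffffffffffffffff5d1753dcf73a0e72c8b12d4b52d4b52dcb8ffffffffffffffffffffffffffffff2f0bd398e5398e76398d2e0b82c4b02d4b5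
    (by decide +kernel) t0_939

theorem t0_941 : Good (Q 9) [v235, v196, v38, v200, v190, v225] :=
  P_of 8 9 0xffffffffffffffffffffffffffffff5cd743d8f73a4e82c8b22d4b52d4b52dcb7ffffffffffffffffffffffffffffff2ecbc394e6398e6fffff2e0b82c4b12d4b5
    (by decide +kernel) t0_940

theorem t0_942 : Good (Q 9) [v235, v196, v38, v188, v190, v225] :=
  split_of 2 3 v200 1320147089 (by decide +kernel) (good_ofj c0_858) t0_941 rfl rfl

theorem t0_943 : Good (Q 9) [v222, v196, v38, v188, v190, v225] :=
  split_of 0 2 v235 1325859591 (by decide +kernel) t0_942 (good_ofj c0_861) rfl rfl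

theorem t0_944 : Good (Q 7) [v226, v195, v200, v188, v196, v225] :=
  split_of 0 3 v241 1301783253 (by decide +kernel) (good_ofj c0_862) (good_ofj c0_863) rfl rfl

theorem t0_945 : Good (Q 8) [v226, v195, v200, v188, v196, v225] :=
  P_of 7 8 0xffffffffffffffffffffffffffffff4f93d47d1f3b0ee2b8ad2d0b42d0b42ccb4ffffffffffffffffffffffffffffff328ca33ccf358d5739cf314c52bcb02d0b5
    (by decide +kernel) t0_944

theorem t0_946 : Good (Q 9) [v226, v195, v200, v188, v196, v225] :=
  P_of 8 9 0xffffffffffffffffffffffffffffff4f93e47d1f3b0ec2b8ae2d0b42d0b42ccb3ffffffffffffffffffffffffffffff328ca33ccf358d6fffff314c52bcaf2d0b4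
    (by decide +kernel) t0_945

theorem t0_947 : Good (Q 9) [v226, v195, v38, v200, v196, v225] :=
  split_of 1 2 v208 1315851864 (by decide +kernel) (good_ofj c0_864) (good_ofj c0_865) rfl rfl

theorem t0_948 : Good (Q 9) [v226, v195, v38, v188, v196, v225] :=
  split_of 2 3 v200 1320147089 (by decide +kernel) t0_946 t0_947 rfl rfl

theorem t0_949 : Good (Q 7) [v239, v245, v208, v195, v196, v225] :=
  split_of 3 5 v246 1305996946 (by decide +kernel) (good_ofj c0_866) (good_ofj c0_867) rfl rfl

theorem t0_950 : Good (Q 8) [v239, v245, v208, v195, v196, v225] :=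
  P_of 7 8 0xffffffffffffffffffffffffffffff4f53e461183ccf32bcaf2d0b42d0b42c8b2ffffffffffffffffffffffffffffff314c633ccf354d573dcd30cc32d0b32d8b5
    (by decide +kernel) t0_949

theorem t0_951 : Good (Q 9) [v239, v245, v208, v195, v196, v225] :=
  P_of 8 9 0xffffffffffffffffffffffffffffff4f13c461183d0f42bcaf2d0b42d0b42c4b1ffffffffffffffffffffffffffffff314c5338ce354d5fffff30cc32d0b42d8b6
    (by decide +kernel) t0_950

theorem t0_952 : Good (Q 6) [v239, v54, v208, v245, v196, v247] :=
  split_of 1 4 v248 1312980490 (by decide +kernel) (good_ofj c0_869) (good_ofj c0_870) rfl rfl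

theorem t0_953 : Good (Q 7) [v239, v54, v208, v245, v196, v247] :=
  P_of 6 7 0xffffffffffffffffffffffffffffff50543425093f4fb2c0b12ccb22ccb22c4b28c634ffffffffffffffffffff86e1b2fcbf344d3354d4721c62f8be2e0b82e4b9
    (by decide +kernel) t0_952

theorem t0_954 : Good (Q 7) [v239, v54, v208, v245, v196, v225] :=
  split_of 1 5 v247 1314382438 (by decide +kernel) (good_ofj c0_868) t0_953 rfl rfl

theorem t0_955 : Good (Q 8) [v239, v54, v208, v245, v196, v225] :=
  P_of 7 8 0xffffffffffffffffffffffffffffff51546429093e4f92c0b02ccb32c8b22c8b2ffffffffffffffffffffffffffffff300bf34cd3358d6711c22f8bd2dcb82e0b8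
    (by decide +kernel) t0_954

theorem t0_956 : Good (Q 9) [v239, v54, v208, v245, v196, v225] :=
  P_of 8 9 0xffffffffffffffffffffffffffffff511454290a3e8f92c0b02ccb32c8b22c8b2ffffffffffffffffffffffffffffff300c0348d3358d6fffff2f8be2e0b72e0b8
    (by decide +kernel) t0_955

theorem t0_957 : Good (Q 9) [v239, v54, v208, v195, v196, v225] :=
  split_of 1 3 v245 1302071143 (by decide +kernel) t0_951 t0_956 rfl rfl

theorem t0_958 : Good (Q 7) [v226, v239, v208, v195, v196, v225] :=
  split_of 0 2 v249 1308761632 (by decide +kernel) (good_ofj c0_871) (good_ofj c0_872) rfl rfl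

theorem t0_959 : Good (Q 8) [v226, v239, v208, v195, v196, v225] :=
  P_of 7 8 0xffffffffffffffffffffffffffffff4f93e461183ccf32bcaf2d0b42d0b42c8b2ffffffffffffffffffffffffffffff318c633ccf358d5735cd30cc32ccb32d4b5
    (by decide +kernel) t0_958

theorem t0_960 : Good (Q 9) [v226, v239, v208, v195, v196, v225] :=
  P_of 8 9 0xffffffffffffffffffffffffffffff4e93a4711c3ccf32bcaf2d0b42d0b42c4b1ffffffffffffffffffffffffffffff31cc7334cd350d4fffff314c52ccb32d4b5
    (by decide +kernel) t0_959

theorem t0_961 : Good (Q 9) [v226, v54, v208, v195, v196, v225] :=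
  split_of 0 1 v239 1305739407 (by decide +kernel) t0_957 t0_960 rfl rfl

theorem t0_962 : Good (Q 9) [v237, v54, v38, v208, v196, v225] :=
  split_of 2 5 v238 1326332669 (by decide +kernel) (good_ofj c0_873) (good_ofj c0_874) rfl rfl

theorem t0_963 : Good (Q 9) [v226, v54, v38, v208, v196, v225] :=
  split_of 0 2 v237 1318995381 (by decide +kernel) t0_962 (good_ofj c0_875) rfl rfl

theorem t0_964 : Good (Q 9) [v226, v54, v38, v195, v196, v225] :=
  split_of 2 3 v208 1315851864 (by decide +kernel) t0_961 t0_963 rfl rfl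

theorem t0_965 : Good (Q 6) [v239, v228, v54, v245, v196, v247] :=
  split_of 1 4 v250 1308330132 (by decide +kernel) (good_ofj c0_878) (good_ofj c0_879) rfl rfl

theorem t0_966 : Good (Q 7) [v239, v228, v54, v245, v196, v247] :=
  P_of 6 7 0xffffffffffffffffffffffffffffff505424290a3f0fc2c0b02ccb32c8b22c8b28ca33ffffffffffffffffffff86a1b300c0348d2350d4721c72f8bd2e0b82e4b9
    (by decide +kernel) t0_965

theorem t0_967 : Good (Q 7) [v239, v228, v54, v245, v196, v225] :=
  split_of 2 5 v247 1314382438 (by decide +kernel) (good_ofj c0_877) t0_966 rfl rfl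

theorem t0_968 : Good (Q 8) [v239, v228, v54, v245, v196, v225] :=
  P_of 7 8 0xffffffffffffffffffffffffffffff51145421093ecfa2c0b02d0b42c8b22c8b2ffffffffffffffffffffffffffffff2fcc0348d3358d6715c32f4bd2e0b82e0b8
    (by decide +kernel) t0_967

theorem t0_969 : Good (Q 9) [v239, v228, v54, v245, v196, v225] :=
  P_of 8 9 0xffffffffffffffffffffffffffffff50545429093f0fa2c0af2ccb42c8b22c8b2ffffffffffffffffffffffffffffff300c0348d2354d7fffff2f8bd2e0b82e0b8
    (by decide +kernel) t0_968

theorem t0_970 : Good (Q 9) [v239, v228, v54, v195, v196, v225] :=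
  split_of 2 3 v245 1302071143 (by decide +kernel) (good_ofj c0_876) t0_969 rfl rfl

theorem t0_971 : Good (Q 7) [v226, v228, v239, v195, v196, v225] :=
  split_of 0 3 v251 1296981817 (by decide +kernel) (good_ofj c0_880) (good_ofj c0_881) rfl rfl

theorem t0_972 : Good (Q 8) [v226, v228, v239, v195, v196, v225] :=
  P_of 7 8 0xffffffffffffffffffffffffffffff4e9394691a3d0f42b4ad2d0b42d0b42ccb3ffffffffffffffffffffffffffffff320c8334cd350d4749d330cc32ccb32dcb7
    (by decide +kernel) t0_971

theorem t0_973 : Good (Q 9) [v226, v228, v239, v195, v196, v225] :=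
  P_of 8 9 0xffffffffffffffffffffffffffffff4e9384651d3d4f22b4ae2d0b42ccb32ccb3ffffffffffffffffffffffffffffff31cc9334ce350d3fffff308c42d0b22dcb6
    (by decide +kernel) t0_972

theorem t0_974 : Good (Q 9) [v226, v228, v54, v195, v196, v225] :=
  split_of 0 2 v239 1305739407 (by decide +kernel) t0_970 t0_973 rfl rfl

theorem t0_975 : Good (Q 9) [v226, v30, v54, v195, v196, v225] :=
  split_of 1 5 v228 1300359111 (by decide +kernel) t0_974 (good_ofj c0_882) rfl rfl

theorem t0_976 : Good (Q 9) [v226, v30, v38, v195, v196, v225] :=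
  split_of 1 2 v54 1309864426 (by decide +kernel) t0_964 t0_975 rfl rfl

theorem t0_977 : Good (Q 9) [v226, v30, v38, v188, v196, v225] :=
  split_of 1 3 v195 1292338752 (by decide +kernel) t0_948 t0_976 rfl rfl

theorem t0_978 : Good (Q 9) [v235, v226, v38, v188, v196, v225] :=
  split_of 2 3 v200 1320147089 (by decide +kernel) (good_ofj c0_883) (good_ofj c0_884) rfl rfl

theorem t0_979 : Good (Q 9) [v222, v226, v38, v188, v196, v225] :=
  split_of 0 2 v235 1325859591 (by decide +kernel) t0_978 (good_ofj c0_885) rfl rfl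

theorem t0_980 : Good (Q 9) [v222, v30, v38, v188, v196, v225] :=
  split_of 0 1 v226 1300207819 (by decide +kernel) t0_977 t0_979 rfl rfl

theorem t0_981 : Good (Q 9) [v222, v30, v38, v188, v190, v225] :=
  split_of 1 4 v196 1315466281 (by decide +kernel) t0_943 t0_980 rfl rfl

theorem t0_982 : Good (Q 9) [v222, v30, v38, v188, v190, v224] :=
  split_of 1 5 v225 1317674863 (by decide +kernel) t0_938 t0_981 rfl rfl

theorem t0_983 : Good (Q 9) [v222, v30, v7, v188, v190, v224] :=
  split_of 1 2 v38 1333169107 (by decide +kernel) t0_932 t0_982 rfl rfl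

theorem t0_984 : Good (Q 9) [v222, v30, v7, v188, v185, v224] :=
  split_of 2 4 v190 1337829094 (by decide +kernel) t0_920 t0_983 rfl rfl

theorem t0_985 : Good (Q 9) [v222, v30, v7, v188, v185, v221] :=
  split_of 2 5 v224 1338391739 (by decide +kernel) t0_905 t0_984 rfl rfl

theorem t0_986 : Good (Q 9) [v222, v30, v7, v183, v185, v221] :=
  split_of 1 3 v188 1299447568 (by decide +kernel) t0_891 t0_985 rfl rfl

theorem t0_987 : Good (Q 9) [v240, v222, v7, v189, v185, v224] :=
  split_of 2 4 v190 1337829094 (by decide +kernel) (good_ofj c0_888) (good_ofj c0_889) rfl rfl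

theorem t0_988 : Good (Q 9) [v240, v222, v7, v189, v185, v221] :=
  split_of 2 5 v224 1338391739 (by decide +kernel) (good_ofj c0_887) t0_987 rfl rfl

theorem t0_989 : Good (Q 9) [v240, v222, v7, v183, v185, v221] :=
  split_of 2 3 v189 1339712096 (by decide +kernel) (good_ofj c0_886) t0_988 rfl rfl

theorem t0_990 : Good (Q 9) [v220, v222, v7, v183, v185, v221] :=
  split_of 0 2 v240 1343852908 (by decide +kernel) t0_989 (good_ofj c0_890) rfl rfl

theorem t0_991 : Good (Q 9) [v220, v30, v7, v183, v185, v221] :=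
  split_of 0 1 v222 1313261210 (by decide +kernel) t0_986 t0_990 rfl rfl

theorem t0_992 : Good (Q 10) [v220, v30, v7, v183, v185, v221] :=
  env_E _ t0_991

theorem t0_993 : Good (Q 10) [v220, v30, v7, v183, v176, v221] :=
  split_of 1 4 v185 1293212810 (by decide +kernel) (good_ofj c0_814) t0_992 rfl rfl

theorem t0_994 : Good (Q 10) [v220, v30, v7, v183, v176, v180] :=
  split_of 1 5 v221 1292248265 (by decide +kernel) (good_ofj c0_813) t0_993 rfl rfl

theorem t0_995 : Good (Q 9) [v254, v30, v222, v188, v192, v223] :=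
  split_of 1 2 v226 1300207819 (by decide +kernel) (good_ofj c0_897) (good_ofj c0_898) rfl rfl

theorem t0_996 : Good (Q 9) [v254, v30, v222, v188, v185, v223] :=
  split_of 1 4 v192 1290828974 (by decide +kernel) (good_ofj c0_896) t0_995 rfl rfl

theorem t0_997 : Good (Q 9) [v254, v30, v222, v188, v185, v221] :=
  split_of 1 5 v223 1294506655 (by decide +kernel) (good_ofj c0_895) t0_996 rfl rfl

theorem t0_998 : Good (Q 9) [v253, v30, v222, v188, v185, v221] :=
  split_of 0 1 v254 1294822201 (by decide +kernel) t0_997 (good_ofj c0_899) rfl rfl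

theorem t0_999 : Good (Q 9) [v253, v30, v222, v183, v185, v221] :=
  split_of 1 3 v188 1299447568 (by decide +kernel) (good_ofj c0_894) t0_998 rfl rfl

theorem t0_1000 : Good (Q 9) [v252, v30, v222, v183, v185, v221] :=
  split_of 0 3 v253 1293333276 (by decide +kernel) t0_999 (good_ofj c0_900) rfl rfl

theorem t0_1001 : Good (Q 10) [v252, v30, v222, v183, v185, v221] :=
  env_E _ t0_1000

theorem t0_1002 : Good (Q 10) [v252, v30, v220, v183, v185, v221] :=
  split_of 1 2 v222 1313261210 (by decide +kernel) (good_ofj c0_893) t0_1001 rfl rfl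

theorem t0_1003 : Good (Q 10) [v252, v30, v220, v183, v185, v180] :=
  split_of 1 5 v221 1292248265 (by decide +kernel) (good_ofj c0_892) t0_1002 rfl rfl

theorem t0_1004 : Good (Q 10) [v252, v30, v220, v183, v176, v180] :=
  split_of 1 4 v185 1293212810 (by decide +kernel) (good_ofj c0_891) t0_1003 rfl rfl

theorem t0_1005 : Good (Q 10) [v218, v30, v220, v183, v176, v180] :=
  split_of 0 1 v252 1270403944 (by decide +kernel) t0_1004 (good_ofj c0_901) rfl rfl

theorem t0_1006 : Good (Q 10) [v218, v30, v7, v183, v176, v180] :=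
  split_of 0 2 v220 1315710025 (by decide +kernel) t0_994 t0_1005 rfl rfl

theorem t0_1007 : Good (Q 10) [v218, v30, v7, v178, v176, v180] :=
  split_of 1 3 v183 1295857916 (by decide +kernel) (good_ofj c0_812) t0_1006 rfl rfl

theorem t0_1008 : Good (Q 10) [v218, v30, v7, v178, v176, v0] :=
  split_of 3 5 v180 1241799870 (by decide +kernel) t0_887 t0_1007 rfl rfl

theorem t0_1009 : Good (Q 10) [v218, v30, v7, v178, v179, v0] :=
  split_of 1 4 v176 1268403305 (by decide +kernel) t0_830 t0_1008 rfl rfl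

theorem t0_1010 : Good (Q 9) [v256, v24, v7, v221, v222, v59] :=
  split_of 2 3 v224 1338391739 (by decide +kernel) (good_ofj c0_907) (good_ofj c0_908) rfl rfl

theorem t0_1011 : Good (Q 9) [v256, v24, v7, v221, v222, v19] :=
  split_of 2 5 v59 1342177280 (by decide +kernel) (good_ofj c0_906) t0_1010 rfl rfl

theorem t0_1012 : Good (Q 9) [v257, v38, v230, v224, v235, v37] :=
  split_of 0 1 v258 1326231995 (by decide +kernel) (good_ofj c0_912) (good_ofj c0_913) rfl rfl

theorem t0_1013 : Good (Q 9) [v257, v38, v230, v224, v222, v37] :=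
  split_of 1 4 v235 1325859591 (by decide +kernel) (good_ofj c0_911) t0_1012 rfl rfl

theorem t0_1014 : Good (Q 9) [v260, v43, v99, v261, v232, v42] :=
  split_of 1 5 v101 1349299878 (by decide +kernel) (good_ofj c0_920) (good_ofj c0_921) rfl rfl

theorem t0_1015 : Good (Q 9) [v260, v43, v99, v233, v232, v42] :=
  split_of 1 3 v261 1350515562 (by decide +kernel) (good_ofj c0_919) t0_1014 rfl rfl

theorem t0_1016 : Good (Q 9) [v260, v43, v7, v233, v232, v42] :=
  split_of 1 2 v99 1351535087 (by decide +kernel) (good_ofj c0_918) t0_1015 rfl rfl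

theorem t0_1017 : Good (Q 9) [v260, v43, v7, v231, v232, v42] :=
  split_of 2 3 v233 1351945589 (by decide +kernel) (good_ofj c0_917) t0_1016 rfl rfl

theorem t0_1018 : Good (Q 9) [v259, v43, v7, v231, v232, v42] :=
  split_of 0 2 v260 1350429413 (by decide +kernel) t0_1017 (good_ofj c0_922) rfl rfl

theorem t0_1019 : Good (Q 9) [v259, v43, v7, v231, v230, v42] :=
  split_of 2 4 v232 1350325825 (by decide +kernel) (good_ofj c0_916) t0_1018 rfl rfl

theorem t0_1020 : Good (Q 9) [v259, v43, v7, v231, v230, v37] :=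
  split_of 2 5 v42 1350220494 (by decide +kernel) (good_ofj c0_915) t0_1019 rfl rfl

theorem t0_1021 : Good (Q 9) [v259, v38, v43, v234, v230, v37] :=
  split_of 1 5 v118 1339055755 (by decide +kernel) (good_ofj c0_924) (good_ofj c0_925) rfl rfl

theorem t0_1022 : Good (Q 9) [v259, v38, v43, v231, v230, v37] :=
  split_of 1 3 v234 1343753970 (by decide +kernel) (good_ofj c0_923) t0_1021 rfl rfl

theorem t0_1023 : Good (Q 9) [v259, v38, v7, v231, v230, v37] :=
  split_of 1 2 v43 1347746544 (by decide +kernel) t0_1020 t0_1022 rfl rfl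

theorem t0_1024 : Good (Q 9) [v259, v38, v7, v224, v230, v37] :=
  split_of 2 3 v231 1349273507 (by decide +kernel) (good_ofj c0_914) t0_1023 rfl rfl

theorem t0_1025 : Good (Q 9) [v257, v38, v259, v224, v230, v37] :=
  split_of 0 1 v258 1326231995 (by decide +kernel) (good_ofj c0_926) (good_ofj c0_927) rfl rfl

theorem t0_1026 : Good (Q 9) [v257, v38, v7, v224, v230, v37] :=
  split_of 0 2 v259 1343280872 (by decide +kernel) t0_1024 t0_1025 rfl rfl

theorem t0_1027 : Good (Q 9) [v257, v38, v7, v224, v222, v37] :=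
  split_of 2 4 v230 1342889933 (by decide +kernel) t0_1013 t0_1026 rfl rfl

theorem t0_1028 : Good (Q 9) [v257, v38, v7, v224, v222, v24] :=
  split_of 2 5 v37 1342484791 (by decide +kernel) (good_ofj c0_910) t0_1027 rfl rfl

theorem t0_1029 : Good (Q 9) [v262, v54, v38, v225, v237, v52] :=
  split_of 0 2 v263 1319089474 (by decide +kernel) (good_ofj c0_933) (good_ofj c0_934) rfl rfl

theorem t0_1030 : Good (Q 9) [v262, v54, v38, v225, v226, v52] :=
  split_of 2 4 v237 1318995381 (by decide +kernel) (good_ofj c0_932) t0_1029 rfl rfl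

theorem t0_1031 : Good (Q 9) [v262, v54, v38, v225, v226, v28] :=
  split_of 2 5 v52 1318899466 (by decide +kernel) (good_ofj c0_931) t0_1030 rfl rfl

theorem t0_1032 : Good (Q 7) [v262, v228, v54, v225, v226, v28] :=
  split_of 2 5 v57 1305645227 (by decide +kernel) (good_ofj c0_935) (good_ofj c0_936) rfl rfl

theorem t0_1033 : Good (Q 8) [v262, v228, v54, v225, v226, v28] :=
  P_of 7 8 0xffffffffffffffffffffffffffffff51144419073f4fd2bcae2d4b62ccb32c4b1ffffffffffffffffffffffffffffff2fcbf344d0360d9711c52f0bc2e4b92e4b9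
    (by decide +kernel) t0_1032

theorem t0_1034 : Good (Q 9) [v262, v228, v54, v225, v226, v28] :=
  P_of 8 9 0xffffffffffffffffffffffffffffff5114441d063f4fd2bcaf2d4b52ccb32c0b1ffffffffffffffffffffffffffffff2fcbf340d1360d8fffff2f4bc2e4b92e4b9
    (by decide +kernel) t0_1033

theorem t0_1035 : Good (Q 9) [v262, v30, v54, v225, v226, v28] :=
  split_of 1 3 v228 1300359111 (by decide +kernel) t0_1034 (good_ofj c0_937) rfl rfl

theorem t0_1036 : Good (Q 9) [v262, v30, v38, v225, v226, v28] :=
  split_of 1 2 v54 1309864426 (by decide +kernel) t0_1031 t0_1035 rfl rfl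

theorem t0_1037 : Good (Q 9) [v257, v262, v38, v225, v226, v28] :=
  split_of 0 2 v258 1326231995 (by decide +kernel) (good_ofj c0_938) (good_ofj c0_939) rfl rfl

theorem t0_1038 : Good (Q 9) [v257, v30, v38, v225, v226, v28] :=
  split_of 0 1 v262 1300565277 (by decide +kernel) t0_1036 t0_1037 rfl rfl

theorem t0_1039 : Good (Q 9) [v257, v30, v38, v225, v222, v28] :=
  split_of 1 4 v226 1300207819 (by decide +kernel) (good_ofj c0_930) t0_1038 rfl rfl

theorem t0_1040 : Good (Q 9) [v257, v30, v38, v225, v222, v24] :=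
  split_of 1 5 v28 1299835258 (by decide +kernel) (good_ofj c0_929) t0_1039 rfl rfl

theorem t0_1041 : Good (Q 9) [v257, v30, v38, v224, v222, v24] :=
  split_of 1 3 v225 1317674863 (by decide +kernel) (good_ofj c0_928) t0_1040 rfl rfl

theorem t0_1042 : Good (Q 9) [v257, v30, v7, v224, v222, v24] :=
  split_of 1 2 v38 1333169107 (by decide +kernel) t0_1028 t0_1041 rfl rfl

theorem t0_1043 : Good (Q 9) [v264, v259, v7, v231, v230, v42] :=
  split_of 2 4 v232 1350325825 (by decide +kernel) (good_ofj c0_944) (good_ofj c0_945) rfl rfl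

theorem t0_1044 : Good (Q 9) [v264, v259, v7, v231, v230, v37] :=
  split_of 2 5 v42 1350220494 (by decide +kernel) (good_ofj c0_943) t0_1043 rfl rfl

theorem t0_1045 : Good (Q 9) [v264, v259, v7, v224, v230, v37] :=
  split_of 2 3 v231 1349273507 (by decide +kernel) (good_ofj c0_942) t0_1044 rfl rfl

theorem t0_1046 : Good (Q 9) [v264, v257, v7, v224, v230, v37] :=
  split_of 1 2 v259 1343280872 (by decide +kernel) t0_1045 (good_ofj c0_946) rfl rfl

theorem t0_1047 : Good (Q 9) [v264, v257, v7, v224, v222, v37] :=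
  split_of 2 4 v230 1342889933 (by decide +kernel) (good_ofj c0_941) t0_1046 rfl rfl

theorem t0_1048 : Good (Q 9) [v264, v257, v7, v224, v222, v24] :=
  split_of 2 5 v37 1342484791 (by decide +kernel) (good_ofj c0_940) t0_1047 rfl rfl

theorem t0_1049 : Good (Q 9) [v256, v257, v7, v224, v222, v24] :=
  split_of 0 2 v264 1345413067 (by decide +kernel) t0_1048 (good_ofj c0_947) rfl rfl

theorem t0_1050 : Good (Q 9) [v256, v30, v7, v224, v222, v24] :=
  split_of 0 1 v257 1314661650 (by decide +kernel) t0_1042 t0_1049 rfl rfl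

theorem t0_1051 : Good (Q 9) [v256, v30, v7, v221, v222, v24] :=
  split_of 2 3 v224 1338391739 (by decide +kernel) (good_ofj c0_909) t0_1050 rfl rfl

theorem t0_1052 : Good (Q 9) [v256, v30, v7, v221, v222, v19] :=
  split_of 1 5 v24 1311740689 (by decide +kernel) t0_1011 t0_1051 rfl rfl

theorem t0_1053 : Good (Q 9) [v256, v30, v7, v221, v220, v19] :=
  split_of 1 4 v222 1313261210 (by decide +kernel) (good_ofj c0_905) t0_1052 rfl rfl

theorem t0_1054 : Good (Q 9) [v256, v30, v7, v180, v220, v19] :=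
  split_of 1 3 v221 1292248265 (by decide +kernel) (good_ofj c0_904) t0_1053 rfl rfl

theorem t0_1055 : Good (Q 9) [v255, v30, v7, v180, v220, v19] :=
  split_of 0 2 v256 1321273347 (by decide +kernel) t0_1054 (good_ofj c0_948) rfl rfl

theorem t0_1056 : Good (Q 9) [v255, v30, v7, v180, v220, v0] :=
  split_of 2 5 v19 1309159440 (by decide +kernel) (good_ofj c0_903) t0_1055 rfl rfl

theorem t0_1057 : Good (Q 10) [v255, v30, v7, v180, v220, v0] :=
  env_E _ t0_1056

theorem t0_1058 : Good (Q 10) [v255, v30, v7, v180, v218, v0] :=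
  split_of 2 4 v220 1315710025 (by decide +kernel) (good_ofj c0_902) t0_1057 rfl rfl

theorem t0_1059 : Good (Q 9) [v257, v30, v266, v254, v222, v221] :=
  split_of 1 5 v223 1294506655 (by decide +kernel) (good_ofj c0_954) (good_ofj c0_955) rfl rfl

theorem t0_1060 : Good (Q 9) [v257, v30, v266, v253, v222, v221] :=
  split_of 1 3 v254 1294822201 (by decide +kernel) (good_ofj c0_953) t0_1059 rfl rfl

theorem t0_1061 : Good (Q 9) [v256, v30, v266, v253, v222, v221] :=
  split_of 0 1 v257 1314661650 (by decide +kernel) t0_1060 (good_ofj c0_956) rfl rfl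

theorem t0_1062 : Good (Q 9) [v262, v30, v225, v267, v226, v227] :=
  split_of 1 2 v228 1300359111 (by decide +kernel) (good_ofj c0_962) (good_ofj c0_963) rfl rfl

theorem t0_1063 : Good (Q 9) [v262, v30, v225, v267, v226, v223] :=
  split_of 1 5 v227 1288948140 (by decide +kernel) (good_ofj c0_961) t0_1062 rfl rfl

theorem t0_1064 : Good (Q 9) [v257, v30, v225, v267, v226, v223] :=
  split_of 0 1 v262 1300565277 (by decide +kernel) t0_1063 (good_ofj c0_964) rfl rfl

theorem t0_1065 : Good (Q 9) [v257, v30, v225, v267, v222, v223] :=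
  split_of 1 4 v226 1300207819 (by decide +kernel) (good_ofj c0_960) t0_1064 rfl rfl

theorem t0_1066 : Good (Q 9) [v257, v30, v224, v267, v222, v223] :=
  split_of 1 2 v225 1317674863 (by decide +kernel) (good_ofj c0_959) t0_1065 rfl rfl

theorem t0_1067 : Good (Q 9) [v257, v30, v224, v266, v222, v223] :=
  split_of 1 3 v267 1317763706 (by decide +kernel) (good_ofj c0_958) t0_1066 rfl rfl

theorem t0_1068 : Good (Q 9) [v257, v30, v224, v266, v222, v221] :=
  split_of 1 5 v223 1294506655 (by decide +kernel) (good_ofj c0_957) t0_1067 rfl rfl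

theorem t0_1069 : Good (Q 9) [v257, v38, v230, v266, v222, v224] :=
  split_of 1 4 v235 1325859591 (by decide +kernel) (good_ofj c0_965) (good_ofj c0_966) rfl rfl

theorem t0_1070 : Good (Q 9) [v260, v43, v7, v268, v232, v233] :=
  split_of 2 3 v269 1351971640 (by decide +kernel) (good_ofj c0_971) (good_ofj c0_972) rfl rfl

theorem t0_1071 : Good (Q 9) [v260, v43, v7, v268, v232, v231] :=
  split_of 2 5 v233 1351945589 (by decide +kernel) (good_ofj c0_970) t0_1070 rfl rfl

theorem t0_1072 : Good (Q 9) [v259, v43, v7, v268, v232, v231] :=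
  split_of 0 2 v260 1350429413 (by decide +kernel) t0_1071 (good_ofj c0_973) rfl rfl

theorem t0_1073 : Good (Q 9) [v259, v43, v7, v268, v230, v231] :=
  split_of 2 4 v232 1350325825 (by decide +kernel) (good_ofj c0_969) t0_1072 rfl rfl

theorem t0_1074 : Good (Q 9) [v259, v38, v43, v268, v230, v234] :=
  split_of 1 3 v270 1343778597 (by decide +kernel) (good_ofj c0_975) (good_ofj c0_976) rfl rfl

theorem t0_1075 : Good (Q 9) [v259, v38, v43, v268, v230, v231] :=
  split_of 1 5 v234 1343753970 (by decide +kernel) (good_ofj c0_974) t0_1074 rfl rfl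

theorem t0_1076 : Good (Q 9) [v259, v38, v7, v268, v230, v231] :=
  split_of 1 2 v43 1347746544 (by decide +kernel) t0_1073 t0_1075 rfl rfl

theorem t0_1077 : Good (Q 9) [v259, v38, v7, v266, v230, v231] :=
  split_of 2 3 v268 1349372069 (by decide +kernel) (good_ofj c0_968) t0_1076 rfl rfl

theorem t0_1078 : Good (Q 9) [v259, v38, v7, v266, v230, v224] :=
  split_of 2 5 v231 1349273507 (by decide +kernel) (good_ofj c0_967) t0_1077 rfl rfl

theorem t0_1079 : Good (Q 9) [v257, v38, v259, v266, v230, v224] :=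
  split_of 1 5 v244 1337980351 (by decide +kernel) (good_ofj c0_977) (good_ofj c0_978) rfl rfl

theorem t0_1080 : Good (Q 9) [v257, v38, v7, v266, v230, v224] :=
  split_of 0 2 v259 1343280872 (by decide +kernel) t0_1078 t0_1079 rfl rfl

theorem t0_1081 : Good (Q 9) [v257, v38, v7, v266, v222, v224] :=
  split_of 2 4 v230 1342889933 (by decide +kernel) t0_1069 t0_1080 rfl rfl

theorem t0_1082 : Good (Q 9) [v257, v225, v38, v266, v235, v224] :=
  split_of 0 2 v258 1326231995 (by decide +kernel) (good_ofj c0_980) (good_ofj c0_981) rfl rfl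

theorem t0_1083 : Good (Q 9) [v257, v225, v38, v266, v222, v224] :=
  split_of 2 4 v235 1325859591 (by decide +kernel) (good_ofj c0_979) t0_1082 rfl rfl

theorem t0_1084 : Good (Q 9) [v263, v54, v38, v267, v237, v225] :=
  split_of 2 5 v238 1326332669 (by decide +kernel) (good_ofj c0_985) (good_ofj c0_986) rfl rfl

theorem t0_1085 : Good (Q 9) [v262, v54, v38, v267, v237, v225] :=
  split_of 0 2 v263 1319089474 (by decide +kernel) t0_1084 (good_ofj c0_987) rfl rfl

theorem t0_1086 : Good (Q 9) [v262, v54, v38, v267, v226, v225] :=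
  split_of 2 4 v237 1318995381 (by decide +kernel) (good_ofj c0_984) t0_1085 rfl rfl

theorem t0_1087 : Good (Q 7) [v262, v228, v54, v267, v239, v225] :=
  split_of 0 2 v271 1305831726 (by decide +kernel) (good_ofj c0_989) (good_ofj c0_990) rfl rfl

theorem t0_1088 : Good (Q 7) [v262, v228, v54, v267, v226, v225] :=
  split_of 2 4 v239 1305739407 (by decide +kernel) (good_ofj c0_988) t0_1087 rfl rfl

theorem t0_1089 : Good (Q 8) [v262, v228, v54, v267, v226, v225] :=
  P_of 7 8 0xffffffffffffffffffffffffffffff5114541d073f4fc2bcaf2d0b52d0b42c4b1ffffffffffffffffffffffffffffff2f8bf344d0360d9715c42f4bd2e4b82e4b9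
    (by decide +kernel) t0_1088

theorem t0_1090 : Good (Q 9) [v262, v228, v54, v267, v226, v225] :=
  P_of 8 9 0xffffffffffffffffffffffffffffff50d44419073f8fd2bcaf2d0b42ccb42c4b1ffffffffffffffffffffffffffffff2f8be344d035cd8fffff2f0bd2e4b92e8b9
    (by decide +kernel) t0_1089

theorem t0_1091 : Good (Q 7) [v262, v272, v54, v267, v226, v228] :=
  split_of 2 4 v239 1305739407 (by decide +kernel) (good_ofj c0_991) (good_ofj c0_992) rfl rfl

theorem t0_1092 : Good (Q 8) [v262, v272, v54, v267, v226, v228] :=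
  P_of 7 8 0xffffffffffffffffffffffffffffff50d44421073f4fc2bcae2d0b42d0b42c4b1ffffffffffffffffffffffffffffff2fcbf340d035cd8719c42f4bd2e4b82e4b9
    (by decide +kernel) t0_1091

theorem t0_1093 : Good (Q 9) [v262, v272, v54, v267, v226, v228] :=
  P_of 8 9 0xffffffffffffffffffffffffffffff50943421083f4fc2bcaf2d0b42ccb42c4b1ffffffffffffffffffffffffffffff2fcbf344d035cd7fffff2f4bd2e4b82e8b9
    (by decide +kernel) t0_1092

theorem t0_1094 : Good (Q 9) [v262, v30, v54, v267, v226, v228] :=
  split_of 1 3 v272 1300381685 (by decide +kernel) t0_1093 (good_ofj c0_993) rfl rfl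

theorem t0_1095 : Good (Q 9) [v262, v30, v54, v267, v226, v225] :=
  split_of 1 5 v228 1300359111 (by decide +kernel) t0_1090 t0_1094 rfl rfl

theorem t0_1096 : Good (Q 9) [v262, v30, v38, v267, v226, v225] :=
  split_of 1 2 v54 1309864426 (by decide +kernel) t0_1086 t0_1095 rfl rfl

theorem t0_1097 : Good (Q 9) [v257, v30, v38, v267, v226, v225] :=
  split_of 0 1 v262 1300565277 (by decide +kernel) t0_1096 (good_ofj c0_994) rfl rfl

theorem t0_1098 : Good (Q 9) [v257, v30, v38, v267, v222, v225] :=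
  split_of 1 4 v226 1300207819 (by decide +kernel) (good_ofj c0_983) t0_1097 rfl rfl

theorem t0_1099 : Good (Q 9) [v257, v30, v38, v266, v222, v225] :=
  split_of 1 3 v267 1317763706 (by decide +kernel) (good_ofj c0_982) t0_1098 rfl rfl

theorem t0_1100 : Good (Q 9) [v257, v30, v38, v266, v222, v224] :=
  split_of 1 5 v225 1317674863 (by decide +kernel) t0_1083 t0_1099 rfl rfl

theorem t0_1101 : Good (Q 9) [v257, v30, v7, v266, v222, v224] :=
  split_of 1 2 v38 1333169107 (by decide +kernel) t0_1081 t0_1100 rfl rfl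

theorem t0_1102 : Good (Q 9) [v257, v30, v7, v266, v222, v221] :=
  split_of 2 5 v224 1338391739 (by decide +kernel) t0_1068 t0_1101 rfl rfl

theorem t0_1103 : Good (Q 9) [v264, v257, v7, v266, v230, v224] :=
  split_of 1 2 v259 1343280872 (by decide +kernel) (good_ofj c0_997) (good_ofj c0_998) rfl rfl

theorem t0_1104 : Good (Q 9) [v264, v257, v7, v266, v222, v224] :=
  split_of 2 4 v230 1342889933 (by decide +kernel) (good_ofj c0_996) t0_1103 rfl rfl

theorem t0_1105 : Good (Q 9) [v256, v257, v7, v266, v222, v224] :=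
  split_of 0 2 v264 1345413067 (by decide +kernel) t0_1104 (good_ofj c0_999) rfl rfl

theorem t0_1106 : Good (Q 9) [v256, v257, v7, v266, v222, v221] :=
  split_of 2 5 v224 1338391739 (by decide +kernel) (good_ofj c0_995) t0_1105 rfl rfl

theorem t0_1107 : Good (Q 9) [v256, v30, v7, v266, v222, v221] :=
  split_of 0 1 v257 1314661650 (by decide +kernel) t0_1102 t0_1106 rfl rfl

theorem t0_1108 : Good (Q 9) [v256, v30, v7, v253, v222, v221] :=
  split_of 2 3 v266 1338743152 (by decide +kernel) t0_1061 t0_1107 rfl rfl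

theorem t0_1109 : Good (Q 9) [v256, v30, v7, v253, v220, v221] :=
  split_of 1 4 v222 1313261210 (by decide +kernel) (good_ofj c0_952) t0_1108 rfl rfl

theorem t0_1110 : Good (Q 9) [v256, v30, v7, v253, v220, v180] :=
  split_of 1 5 v221 1292248265 (by decide +kernel) (good_ofj c0_951) t0_1109 rfl rfl

theorem t0_1111 : Good (Q 10) [v256, v30, v7, v253, v220, v180] :=
  env_E _ t0_1110

theorem t0_1112 : Good (Q 10) [v256, v30, v7, v265, v220, v180] :=
  split_of 1 3 v253 1293333276 (by decide +kernel) (good_ofj c0_950) t0_1111 rfl rfl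

theorem t0_1113 : Good (Q 10) [v255, v30, v7, v265, v220, v180] :=
  split_of 0 2 v256 1321273347 (by decide +kernel) t0_1112 (good_ofj c0_1000) rfl rfl

theorem t0_1114 : Good (Q 10) [v255, v30, v7, v265, v218, v180] :=
  split_of 2 4 v220 1315710025 (by decide +kernel) (good_ofj c0_949) t0_1113 rfl rfl

theorem t0_1115 : Good (Q 9) [v256, v188, v7, v189, v266, v221] :=
  split_of 2 5 v224 1338391739 (by decide +kernel) (good_ofj c0_1006) (good_ofj c0_1007) rfl rfl

theorem t0_1116 : Good (Q 9) [v256, v188, v7, v189, v253, v221] :=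
  split_of 2 4 v266 1338743152 (by decide +kernel) (good_ofj c0_1005) t0_1115 rfl rfl

theorem t0_1117 : Good (Q 9) [v256, v188, v7, v183, v253, v221] :=
  split_of 2 3 v189 1339712096 (by decide +kernel) (good_ofj c0_1004) t0_1116 rfl rfl

theorem t0_1118 : Good (Q 9) [v262, v30, v267, v195, v254, v223] :=
  split_of 1 5 v227 1288948140 (by decide +kernel) (good_ofj c0_1012) (good_ofj c0_1013) rfl rfl

theorem t0_1119 : Good (Q 9) [v262, v30, v267, v188, v254, v223] :=
  split_of 1 3 v195 1292338752 (by decide +kernel) (good_ofj c0_1011) t0_1118 rfl rfl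

theorem t0_1120 : Good (Q 9) [v257, v30, v267, v188, v254, v223] :=
  split_of 0 1 v262 1300565277 (by decide +kernel) t0_1119 (good_ofj c0_1014) rfl rfl

theorem t0_1121 : Good (Q 9) [v257, v30, v266, v188, v254, v223] :=
  split_of 1 2 v267 1317763706 (by decide +kernel) (good_ofj c0_1010) t0_1120 rfl rfl

theorem t0_1122 : Good (Q 9) [v257, v30, v266, v188, v254, v221] :=
  split_of 1 5 v223 1294506655 (by decide +kernel) (good_ofj c0_1009) t0_1121 rfl rfl

theorem t0_1123 : Good (Q 9) [v257, v30, v266, v188, v253, v221] :=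
  split_of 1 4 v254 1294822201 (by decide +kernel) (good_ofj c0_1008) t0_1122 rfl rfl

theorem t0_1124 : Good (Q 6) [v262, v228, v225, v195, v267, v227] :=
  split_of 4 5 v273 1304404389 (by decide +kernel) (good_ofj c0_1020) (good_ofj c0_1021) rfl rfl

theorem t0_1125 : Good (Q 7) [v262, v228, v225, v195, v267, v227] :=
  P_of 6 7 0xffffffffffffffffffffffffffffff4dd394791b3ccf32b4ae2d8b52ccb32c4b191643ffffffffffffffffffff7e9ff328c832ccc354d575dd3310c32d0b32d4b5
    (by decide +kernel) t0_1124

theorem t0_1126 : Good (Q 8) [v262, v228, v225, v195, v267, v227] :=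
  P_of 7 8 0xffffffffffffffffffffffffffffff4dd374791e3ccf32b4ad2d8b62ccb32c4b1ffffffffffffffffffffffffffffff328ca32ccb354d575dd7310c42d0b42d4b5
    (by decide +kernel) t0_1125

theorem t0_1127 : Good (Q 9) [v262, v228, v225, v195, v267, v227] :=
  P_of 8 9 0xffffffffffffffffffffffffffffff4dd374791e3ccf32b4ad2d8b62ccb32c4b1ffffffffffffffffffffffffffffff328ca32ccb354d5fffff310c42d0b42d4b5
    (by decide +kernel) t0_1126

theorem t0_1128 : Good (Q 9) [v262, v30, v225, v195, v267, v227] :=
  split_of 1 2 v228 1300359111 (by decide +kernel) t0_1127 (good_ofj c0_1022) rfl rfl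

theorem t0_1129 : Good (Q 9) [v262, v30, v225, v195, v267, v223] :=
  split_of 1 5 v227 1288948140 (by decide +kernel) (good_ofj c0_1019) t0_1128 rfl rfl

theorem t0_1130 : Good (Q 9) [v262, v30, v225, v188, v267, v223] :=
  split_of 1 3 v195 1292338752 (by decide +kernel) (good_ofj c0_1018) t0_1129 rfl rfl

theorem t0_1131 : Good (Q 9) [v257, v30, v225, v188, v267, v223] :=
  split_of 0 1 v262 1300565277 (by decide +kernel) t0_1130 (good_ofj c0_1023) rfl rfl

theorem t0_1132 : Good (Q 9) [v257, v30, v225, v188, v266, v223] :=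
  split_of 1 4 v267 1317763706 (by decide +kernel) (good_ofj c0_1017) t0_1131 rfl rfl

theorem t0_1133 : Good (Q 9) [v257, v30, v224, v188, v266, v223] :=
  split_of 1 2 v225 1317674863 (by decide +kernel) (good_ofj c0_1016) t0_1132 rfl rfl

theorem t0_1134 : Good (Q 9) [v257, v30, v224, v188, v266, v221] :=
  split_of 1 5 v223 1294506655 (by decide +kernel) (good_ofj c0_1015) t0_1133 rfl rfl

theorem t0_1135 : Good (Q 9) [v257, v38, v191, v200, v274, v244] :=
  split_of 0 1 v258 1326231995 (by decide +kernel) (good_ofj c0_1027) (good_ofj c0_1028) rfl rfl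

theorem t0_1136 : Good (Q 9) [v257, v38, v191, v200, v266, v244] :=
  split_of 1 4 v274 1338073551 (by decide +kernel) (good_ofj c0_1026) t0_1135 rfl rfl

theorem t0_1137 : Good (Q 9) [v257, v38, v191, v200, v266, v224] :=
  split_of 1 5 v244 1337980351 (by decide +kernel) (good_ofj c0_1025) t0_1136 rfl rfl

theorem t0_1138 : Good (Q 9) [v257, v38, v191, v188, v266, v224] :=
  split_of 1 3 v200 1320147089 (by decide +kernel) (good_ofj c0_1024) t0_1137 rfl rfl

theorem t0_1139 : Good (Q 9) [v260, v43, v7, v203, v268, v233] :=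
  split_of 2 4 v269 1351971640 (by decide +kernel) (good_ofj c0_1033) (good_ofj c0_1034) rfl rfl

theorem t0_1140 : Good (Q 9) [v260, v43, v7, v203, v268, v231] :=
  split_of 2 5 v233 1351945589 (by decide +kernel) (good_ofj c0_1032) t0_1139 rfl rfl

theorem t0_1141 : Good (Q 9) [v259, v43, v7, v203, v268, v231] :=
  split_of 0 2 v260 1350429413 (by decide +kernel) t0_1140 (good_ofj c0_1035) rfl rfl

theorem t0_1142 : Good (Q 9) [v259, v43, v7, v191, v268, v231] :=
  split_of 2 3 v203 1349460245 (by decide +kernel) (good_ofj c0_1031) t0_1141 rfl rfl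

theorem t0_1143 : Good (Q 9) [v259, v38, v43, v191, v268, v234] :=
  split_of 1 4 v270 1343778597 (by decide +kernel) (good_ofj c0_1037) (good_ofj c0_1038) rfl rfl

theorem t0_1144 : Good (Q 9) [v259, v38, v43, v191, v268, v231] :=
  split_of 1 5 v234 1343753970 (by decide +kernel) (good_ofj c0_1036) t0_1143 rfl rfl

theorem t0_1145 : Good (Q 9) [v259, v38, v7, v191, v268, v231] :=
  split_of 1 2 v43 1347746544 (by decide +kernel) t0_1142 t0_1144 rfl rfl

theorem t0_1146 : Good (Q 9) [v259, v38, v7, v191, v266, v231] :=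
  split_of 2 4 v268 1349372069 (by decide +kernel) (good_ofj c0_1030) t0_1145 rfl rfl

theorem t0_1147 : Good (Q 9) [v259, v38, v7, v191, v266, v224] :=
  split_of 2 5 v231 1349273507 (by decide +kernel) (good_ofj c0_1029) t0_1146 rfl rfl

theorem t0_1148 : Good (Q 9) [v257, v38, v259, v191, v266, v224] :=
  split_of 1 5 v244 1337980351 (by decide +kernel) (good_ofj c0_1039) (good_ofj c0_1040) rfl rfl

theorem t0_1149 : Good (Q 9) [v257, v38, v7, v191, v266, v224] :=
  split_of 0 2 v259 1343280872 (by decide +kernel) t0_1147 t0_1148 rfl rfl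

theorem t0_1150 : Good (Q 9) [v257, v38, v7, v188, v266, v224] :=
  split_of 2 3 v191 1339459463 (by decide +kernel) t0_1138 t0_1149 rfl rfl

theorem t0_1151 : Good (Q 9) [v258, v225, v38, v200, v266, v244] :=
  split_of 2 4 v274 1338073551 (by decide +kernel) (good_ofj c0_1043) (good_ofj c0_1044) rfl rfl

theorem t0_1152 : Good (Q 9) [v258, v225, v38, v200, v266, v224] :=
  split_of 2 5 v244 1337980351 (by decide +kernel) (good_ofj c0_1042) t0_1151 rfl rfl

theorem t0_1153 : Good (Q 9) [v257, v225, v38, v200, v266, v224] :=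
  split_of 0 2 v258 1326231995 (by decide +kernel) t0_1152 (good_ofj c0_1045) rfl rfl

theorem t0_1154 : Good (Q 9) [v257, v225, v38, v188, v266, v224] :=
  split_of 2 3 v200 1320147089 (by decide +kernel) (good_ofj c0_1041) t0_1153 rfl rfl

theorem t0_1155 : Good (Q 9) [v257, v267, v38, v200, v266, v225] :=
  split_of 0 2 v258 1326231995 (by decide +kernel) (good_ofj c0_1047) (good_ofj c0_1048) rfl rfl

theorem t0_1156 : Good (Q 9) [v257, v267, v38, v188, v266, v225] :=
  split_of 2 3 v200 1320147089 (by decide +kernel) (good_ofj c0_1046) t0_1155 rfl rfl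

theorem t0_1157 : Good (Q 9) [v262, v195, v38, v200, v267, v225] :=
  split_of 1 2 v208 1315851864 (by decide +kernel) (good_ofj c0_1050) (good_ofj c0_1051) rfl rfl

theorem t0_1158 : Good (Q 9) [v262, v195, v38, v188, v267, v225] :=
  split_of 2 3 v200 1320147089 (by decide +kernel) (good_ofj c0_1049) t0_1157 rfl rfl

theorem t0_1159 : Good (Q 9) [v275, v54, v208, v195, v267, v225] :=
  split_of 1 3 v245 1302071143 (by decide +kernel) (good_ofj c0_1052) (good_ofj c0_1053) rfl rfl

theorem t0_1160 : Good (Q 9) [v271, v54, v275, v195, v267, v225] :=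
  split_of 1 3 v245 1302071143 (by decide +kernel) (good_ofj c0_1054) (good_ofj c0_1055) rfl rfl

theorem t0_1161 : Good (Q 9) [v262, v54, v275, v195, v267, v225] :=
  split_of 0 1 v271 1305831726 (by decide +kernel) t0_1160 (good_ofj c0_1056) rfl rfl

theorem t0_1162 : Good (Q 9) [v262, v54, v208, v195, v267, v225] :=
  split_of 0 2 v275 1308854445 (by decide +kernel) t0_1159 t0_1161 rfl rfl

theorem t0_1163 : Good (Q 9) [v263, v54, v38, v208, v267, v238] :=
  split_of 2 4 v276 1326356158 (by decide +kernel) (good_ofj c0_1058) (good_ofj c0_1059) rfl rfl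

theorem t0_1164 : Good (Q 9) [v263, v54, v38, v208, v267, v225] :=
  split_of 2 5 v238 1326332669 (by decide +kernel) (good_ofj c0_1057) t0_1163 rfl rfl

theorem t0_1165 : Good (Q 9) [v262, v54, v38, v208, v267, v225] :=
  split_of 0 2 v263 1319089474 (by decide +kernel) t0_1164 (good_ofj c0_1060) rfl rfl

theorem t0_1166 : Good (Q 9) [v262, v54, v38, v195, v267, v225] :=
  split_of 2 3 v208 1315851864 (by decide +kernel) t0_1162 t0_1165 rfl rfl

theorem t0_1167 : Good (Q 7) [v271, v228, v245, v195, v267, v225] :=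
  split_of 3 5 v246 1305996946 (by decide +kernel) (good_ofj c0_1061) (good_ofj c0_1062) rfl rfl

theorem t0_1168 : Good (Q 8) [v271, v228, v245, v195, v267, v225] :=
  P_of 7 8 0xffffffffffffffffffffffffffffff4dd394651a3d8f52bcaf2d0b52d0b42c0afffffffffffffffffffffffffffffff314c5330cb350d5759d4310c52d8b52d8b5
    (by decide +kernel) t0_1167

theorem t0_1169 : Good (Q 9) [v271, v228, v245, v195, v267, v225] :=
  P_of 8 9 0xffffffffffffffffffffffffffffff4dd37469193d4f62c0af2d0b42ccb42c4b0ffffffffffffffffffffffffffffff318c5334cc348d4fffff314c42d4b62d4b6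
    (by decide +kernel) t0_1168

theorem t0_1170 : Good (Q 7) [v271, v228, v54, v245, v267, v247] :=
  split_of 2 4 v277 1314405445 (by decide +kernel) (good_ofj c0_1064) (good_ofj c0_1065) rfl rfl

theorem t0_1171 : Good (Q 7) [v271, v228, v54, v245, v267, v225] :=
  split_of 2 5 v247 1314382438 (by decide +kernel) (good_ofj c0_1063) t0_1170 rfl rfl

theorem t0_1172 : Good (Q 8) [v271, v228, v54, v245, v267, v225] :=
  P_of 7 8 0xffffffffffffffffffffffffffffff51145425093e8fa2c0b02d0b42c8b32c8b2ffffffffffffffffffffffffffffff300bf348d335cd7711c32f4bd2e0b82e0b8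
    (by decide +kernel) t0_1171

theorem t0_1173 : Good (Q 9) [v271, v228, v54, v245, v267, v225] :=
  P_of 8 9 0xffffffffffffffffffffffffffffff50544429093ecfa2c0b02ccb42c8b22c8b2ffffffffffffffffffffffffffffff300c0348d2354d7fffff2f8bd2e0b82e0b8
    (by decide +kernel) t0_1172

theorem t0_1174 : Good (Q 9) [v271, v228, v54, v195, v267, v225] :=
  split_of 2 3 v245 1302071143 (by decide +kernel) t0_1169 t0_1173 rfl rfl

theorem t0_1175 : Good (Q 7) [v262, v228, v271, v195, v267, v225] :=
  split_of 3 5 v246 1305996946 (by decide +kernel) (good_ofj c0_1066) (good_ofj c0_1067) rfl rfl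

theorem t0_1176 : Good (Q 8) [v262, v228, v271, v195, v267, v225] :=
  P_of 7 8 0xffffffffffffffffffffffffffffff4dd374651a3dcf52b8af2d4b52d0b52bcafffffffffffffffffffffffffffffff318c632ccb350d5759d530cc52d8b52d8b5
    (by decide +kernel) t0_1175

theorem t0_1177 : Good (Q 9) [v262, v228, v271, v195, v267, v225] :=
  P_of 8 9 0xffffffffffffffffffffffffffffff4d537469193dcf72b8ae2d4b52ccb42c0afffffffffffffffffffffffffffffff31cc632ccb34cd4fffff30cc32d8b62d8b6
    (by decide +kernel) t0_1176

theorem t0_1178 : Good (Q 9) [v262, v228, v54, v195, v267, v225] :=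
  split_of 0 2 v271 1305831726 (by decide +kernel) t0_1174 t0_1177 rfl rfl

theorem t0_1179 : Good (Q 9) [v271, v272, v54, v195, v267, v228] :=
  split_of 2 3 v245 1302071143 (by decide +kernel) (good_ofj c0_1068) (good_ofj c0_1069) rfl rfl

theorem t0_1180 : Good (Q 9) [v262, v272, v54, v195, v267, v228] :=
  split_of 0 2 v271 1305831726 (by decide +kernel) t0_1179 (good_ofj c0_1070) rfl rfl

theorem t0_1181 : Good (Q 9) [v262, v30, v54, v195, v267, v228] :=
  split_of 1 4 v272 1300381685 (by decide +kernel) t0_1180 (good_ofj c0_1071) rfl rfl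

theorem t0_1182 : Good (Q 9) [v262, v30, v54, v195, v267, v225] :=
  split_of 1 5 v228 1300359111 (by decide +kernel) t0_1178 t0_1181 rfl rfl

theorem t0_1183 : Good (Q 9) [v262, v30, v38, v195, v267, v225] :=
  split_of 1 2 v54 1309864426 (by decide +kernel) t0_1166 t0_1182 rfl rfl

theorem t0_1184 : Good (Q 9) [v262, v30, v38, v188, v267, v225] :=
  split_of 1 3 v195 1292338752 (by decide +kernel) t0_1158 t0_1183 rfl rfl

theorem t0_1185 : Good (Q 9) [v257, v262, v38, v188, v267, v225] :=
  split_of 2 3 v200 1320147089 (by decide +kernel) (good_ofj c0_1072) (good_ofj c0_1073) rfl rfl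

theorem t0_1186 : Good (Q 9) [v257, v30, v38, v188, v267, v225] :=
  split_of 0 1 v262 1300565277 (by decide +kernel) t0_1184 t0_1185 rfl rfl

theorem t0_1187 : Good (Q 9) [v257, v30, v38, v188, v266, v225] :=
  split_of 1 4 v267 1317763706 (by decide +kernel) t0_1156 t0_1186 rfl rfl

theorem t0_1188 : Good (Q 9) [v257, v30, v38, v188, v266, v224] :=
  split_of 1 5 v225 1317674863 (by decide +kernel) t0_1154 t0_1187 rfl rfl

theorem t0_1189 : Good (Q 9) [v257, v30, v7, v188, v266, v224] :=
  split_of 1 2 v38 1333169107 (by decide +kernel) t0_1150 t0_1188 rfl rfl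

theorem t0_1190 : Good (Q 9) [v257, v30, v7, v188, v266, v221] :=
  split_of 2 5 v224 1338391739 (by decide +kernel) t0_1134 t0_1189 rfl rfl

theorem t0_1191 : Good (Q 9) [v257, v30, v7, v188, v253, v221] :=
  split_of 2 4 v266 1338743152 (by decide +kernel) t0_1123 t0_1190 rfl rfl

theorem t0_1192 : Good (Q 9) [v264, v257, v7, v191, v266, v224] :=
  split_of 1 2 v259 1343280872 (by decide +kernel) (good_ofj c0_1077) (good_ofj c0_1078) rfl rfl

theorem t0_1193 : Good (Q 9) [v264, v257, v7, v188, v266, v224] :=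
  split_of 2 3 v191 1339459463 (by decide +kernel) (good_ofj c0_1076) t0_1192 rfl rfl

theorem t0_1194 : Good (Q 9) [v256, v257, v7, v188, v266, v224] :=
  split_of 0 2 v264 1345413067 (by decide +kernel) t0_1193 (good_ofj c0_1079) rfl rfl

theorem t0_1195 : Good (Q 9) [v256, v257, v7, v188, v266, v221] :=
  split_of 2 5 v224 1338391739 (by decide +kernel) (good_ofj c0_1075) t0_1194 rfl rfl

theorem t0_1196 : Good (Q 9) [v256, v257, v7, v188, v253, v221] :=
  split_of 2 4 v266 1338743152 (by decide +kernel) (good_ofj c0_1074) t0_1195 rfl rfl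

theorem t0_1197 : Good (Q 9) [v256, v30, v7, v188, v253, v221] :=
  split_of 0 1 v257 1314661650 (by decide +kernel) t0_1191 t0_1196 rfl rfl

theorem t0_1198 : Good (Q 9) [v256, v30, v7, v183, v253, v221] :=
  split_of 1 3 v188 1299447568 (by decide +kernel) t0_1117 t0_1197 rfl rfl

theorem t0_1199 : Good (Q 10) [v256, v30, v7, v183, v253, v221] :=
  env_E _ t0_1198

theorem t0_1200 : Good (Q 10) [v256, v30, v7, v183, v253, v180] :=
  split_of 1 5 v221 1292248265 (by decide +kernel) (good_ofj c0_1003) t0_1199 rfl rfl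

theorem t0_1201 : Good (Q 10) [v256, v30, v7, v183, v265, v180] :=
  split_of 1 4 v253 1293333276 (by decide +kernel) (good_ofj c0_1002) t0_1200 rfl rfl

theorem t0_1202 : Good (Q 9) [v279, v30, v257, v188, v254, v223] :=
  split_of 1 2 v262 1300565277 (by decide +kernel) (good_ofj c0_1086) (good_ofj c0_1087) rfl rfl

theorem t0_1203 : Good (Q 9) [v279, v30, v257, v188, v254, v221] :=
  split_of 1 5 v223 1294506655 (by decide +kernel) (good_ofj c0_1085) t0_1202 rfl rfl

theorem t0_1204 : Good (Q 9) [v279, v30, v257, v188, v253, v221] :=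
  split_of 1 4 v254 1294822201 (by decide +kernel) (good_ofj c0_1084) t0_1203 rfl rfl

theorem t0_1205 : Good (Q 9) [v278, v30, v257, v188, v253, v221] :=
  split_of 0 1 v279 1286065164 (by decide +kernel) t0_1204 (good_ofj c0_1088) rfl rfl

theorem t0_1206 : Good (Q 9) [v278, v30, v256, v188, v253, v221] :=
  split_of 1 2 v257 1314661650 (by decide +kernel) (good_ofj c0_1083) t0_1205 rfl rfl

theorem t0_1207 : Good (Q 9) [v278, v30, v256, v183, v253, v221] :=
  split_of 1 3 v188 1299447568 (by decide +kernel) (good_ofj c0_1082) t0_1206 rfl rfl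

theorem t0_1208 : Good (Q 10) [v278, v30, v256, v183, v253, v221] :=
  env_E _ t0_1207

theorem t0_1209 : Good (Q 10) [v255, v30, v256, v183, v253, v221] :=
  split_of 0 1 v278 1275378169 (by decide +kernel) t0_1208 (good_ofj c0_1089) rfl rfl

theorem t0_1210 : Good (Q 10) [v255, v30, v256, v183, v253, v180] :=
  split_of 1 5 v221 1292248265 (by decide +kernel) (good_ofj c0_1081) t0_1209 rfl rfl

theorem t0_1211 : Good (Q 10) [v255, v30, v256, v183, v265, v180] :=
  split_of 1 4 v253 1293333276 (by decide +kernel) (good_ofj c0_1080) t0_1210 rfl rfl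

theorem t0_1212 : Good (Q 10) [v255, v30, v7, v183, v265, v180] :=
  split_of 0 2 v256 1321273347 (by decide +kernel) t0_1201 t0_1211 rfl rfl

theorem t0_1213 : Good (Q 10) [v255, v30, v7, v178, v265, v180] :=
  split_of 1 3 v183 1295857916 (by decide +kernel) (good_ofj c0_1001) t0_1212 rfl rfl

theorem t0_1214 : Good (Q 10) [v255, v30, v7, v178, v218, v180] :=
  split_of 3 4 v265 1244927842 (by decide +kernel) t0_1114 t0_1213 rfl rfl

theorem t0_1215 : Good (Q 10) [v255, v30, v7, v178, v218, v0] :=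
  split_of 3 5 v180 1241799870 (by decide +kernel) t0_1058 t0_1214 rfl rfl

theorem t0_1216 : Good (Q 9) [v109, v230, v7, v264, v240, v92] :=
  split_of 2 4 v280 1350610654 (by decide +kernel) (good_ofj c0_1097) (good_ofj c0_1098) rfl rfl

theorem t0_1217 : Good (Q 9) [v109, v230, v7, v264, v240, v59] :=
  split_of 2 5 v92 1350182502 (by decide +kernel) (good_ofj c0_1096) t0_1216 rfl rfl

theorem t0_1218 : Good (Q 9) [v108, v230, v7, v264, v240, v59] :=
  split_of 0 2 v109 1347302695 (by decide +kernel) t0_1217 (good_ofj c0_1099) rfl rfl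

theorem t0_1219 : Good (Q 9) [v108, v230, v7, v256, v240, v59] :=
  split_of 2 3 v264 1345413067 (by decide +kernel) (good_ofj c0_1095) t0_1218 rfl rfl

theorem t0_1220 : Good (Q 9) [v108, v222, v7, v256, v240, v59] :=
  split_of 1 2 v230 1342889933 (by decide +kernel) t0_1219 (good_ofj c0_1100) rfl rfl

theorem t0_1221 : Good (Q 9) [v108, v222, v7, v256, v240, v19] :=
  split_of 2 5 v59 1342177280 (by decide +kernel) (good_ofj c0_1094) t0_1220 rfl rfl

theorem t0_1222 : Good (Q 9) [v108, v222, v7, v256, v220, v19] :=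
  split_of 2 4 v240 1343852908 (by decide +kernel) (good_ofj c0_1093) t0_1221 rfl rfl

theorem t0_1223 : Good (Q 9) [v109, v42, v7, v264, v230, v92] :=
  split_of 2 4 v232 1350325825 (by decide +kernel) (good_ofj c0_1105) (good_ofj c0_1106) rfl rfl

theorem t0_1224 : Good (Q 9) [v109, v37, v7, v264, v230, v92] :=
  split_of 1 2 v42 1350220494 (by decide +kernel) t0_1223 (good_ofj c0_1107) rfl rfl

theorem t0_1225 : Good (Q 9) [v109, v37, v7, v264, v230, v59] :=
  split_of 2 5 v92 1350182502 (by decide +kernel) (good_ofj c0_1104) t0_1224 rfl rfl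

theorem t0_1226 : Good (Q 9) [v108, v37, v7, v264, v230, v59] :=
  split_of 0 2 v109 1347302695 (by decide +kernel) t0_1225 (good_ofj c0_1108) rfl rfl

theorem t0_1227 : Good (Q 9) [v108, v37, v7, v264, v222, v59] :=
  split_of 2 4 v230 1342889933 (by decide +kernel) (good_ofj c0_1103) t0_1226 rfl rfl

theorem t0_1228 : Good (Q 9) [v108, v24, v7, v264, v222, v59] :=
  split_of 1 2 v37 1342484791 (by decide +kernel) t0_1227 (good_ofj c0_1109) rfl rfl

theorem t0_1229 : Good (Q 9) [v108, v24, v7, v256, v222, v59] :=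
  split_of 2 3 v264 1345413067 (by decide +kernel) (good_ofj c0_1102) t0_1228 rfl rfl

theorem t0_1230 : Good (Q 9) [v108, v24, v7, v256, v222, v19] :=
  split_of 2 5 v59 1342177280 (by decide +kernel) (good_ofj c0_1101) t0_1229 rfl rfl

theorem t0_1231 : Good (Q 9) [v109, v259, v7, v264, v232, v42] :=
  split_of 2 3 v281 1351024736 (by decide +kernel) (good_ofj c0_1115) (good_ofj c0_1116) rfl rfl

theorem t0_1232 : Good (Q 9) [v109, v259, v7, v264, v230, v42] :=
  split_of 2 4 v232 1350325825 (by decide +kernel) (good_ofj c0_1114) t0_1231 rfl rfl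

theorem t0_1233 : Good (Q 9) [v109, v259, v7, v264, v230, v37] :=
  split_of 2 5 v42 1350220494 (by decide +kernel) (good_ofj c0_1113) t0_1232 rfl rfl

theorem t0_1234 : Good (Q 9) [v108, v259, v7, v264, v230, v37] :=
  split_of 0 2 v109 1347302695 (by decide +kernel) t0_1233 (good_ofj c0_1117) rfl rfl

theorem t0_1235 : Good (Q 9) [v108, v257, v7, v264, v230, v37] :=
  split_of 1 2 v259 1343280872 (by decide +kernel) t0_1234 (good_ofj c0_1118) rfl rfl

theorem t0_1236 : Good (Q 9) [v108, v257, v7, v264, v222, v37] :=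
  split_of 2 4 v230 1342889933 (by decide +kernel) (good_ofj c0_1112) t0_1235 rfl rfl

theorem t0_1237 : Good (Q 9) [v108, v257, v7, v264, v222, v24] :=
  split_of 2 5 v37 1342484791 (by decide +kernel) (good_ofj c0_1111) t0_1236 rfl rfl

theorem t0_1238 : Good (Q 9) [v108, v257, v7, v256, v222, v24] :=
  split_of 2 3 v264 1345413067 (by decide +kernel) (good_ofj c0_1110) t0_1237 rfl rfl

theorem t0_1239 : Good (Q 9) [v108, v38, v37, v257, v222, v24] :=
  split_of 0 1 v111 1336786951 (by decide +kernel) (good_ofj c0_1119) (good_ofj c0_1120) rfl rfl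

theorem t0_1240 : Good (Q 9) [v111, v38, v230, v257, v222, v37] :=
  split_of 1 4 v235 1325859591 (by decide +kernel) (good_ofj c0_1121) (good_ofj c0_1122) rfl rfl

theorem t0_1241 : Good (Q 9) [v108, v38, v230, v257, v222, v37] :=
  split_of 0 1 v111 1336786951 (by decide +kernel) t0_1240 (good_ofj c0_1123) rfl rfl

theorem t0_1242 : Good (Q 9) [v108, v38, v259, v257, v230, v37] :=
  split_of 0 1 v111 1336786951 (by decide +kernel) (good_ofj c0_1124) (good_ofj c0_1125) rfl rfl

theorem t0_1243 : Good (Q 9) [v109, v43, v42, v259, v230, v112] :=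
  split_of 0 1 v113 1348854888 (by decide +kernel) (good_ofj c0_1127) (good_ofj c0_1128) rfl rfl

theorem t0_1244 : Good (Q 9) [v109, v43, v42, v259, v230, v37] :=
  split_of 0 5 v112 1346097975 (by decide +kernel) (good_ofj c0_1126) t0_1243 rfl rfl

theorem t0_1245 : Good (Q 7) [v113, v43, v232, v259, v230, v42] :=
  split_of 1 4 v282 1345912041 (by decide +kernel) (good_ofj c0_1129) (good_ofj c0_1130) rfl rfl

theorem t0_1246 : Good (Q 8) [v113, v43, v232, v259, v230, v42] :=
  P_of 7 8 0xffffffffffffffffffffffffffffff71dc3358d7348d32dcb72fcbf2f8be2e8b9ffffffffffffffffffffffffffffff2d0b43f0fa42508509452c4b22c0b02c4b1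
    (by decide +kernel) t0_1245

theorem t0_1247 : Good (Q 9) [v113, v43, v232, v259, v230, v42] :=
  P_of 8 9 0xfffffffffffffffffffffffffffffffffff354d6348d22dcb72fcbf2f8be2e8baffffffffffffffffffffffffffffff2d0b43f0fc42509509422c4b12c0b02c4b1
    (by decide +kernel) t0_1246

theorem t0_1248 : Good (Q 9) [v109, v43, v232, v259, v230, v42] :=
  split_of 0 1 v113 1348854888 (by decide +kernel) t0_1247 (good_ofj c0_1131) rfl rfl

theorem t0_1249 : Good (Q 7) [v113, v43, v260, v259, v232, v42] :=
  split_of 3 5 v283 1347395043 (by decide +kernel) (good_ofj c0_1132) (good_ofj c0_1133) rfl rfl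

theorem t0_1250 : Good (Q 8) [v113, v43, v260, v259, v232, v42] :=
  P_of 7 8 0xffffffffffffffffffffffffffffff71dc5354d7348d22e0b82f8bf2f8be2e8b9ffffffffffffffffffffffffffffff2ccb43f0fb42508509442c8b32c0b02c4b1
    (by decide +kernel) t0_1249

theorem t0_1251 : Good (Q 9) [v113, v43, v260, v259, v232, v42] :=
  P_of 8 9 0xfffffffffffffffffffffffffffffffffff354d5348d22e0b82f8be2f8be2e8baffffffffffffffffffffffffffffff2ccb33f0fc42509509422c8b22c0b02c4b1
    (by decide +kernel) t0_1250

theorem t0_1252 : Good (Q 9) [v109, v43, v260, v259, v232, v42] :=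
  split_of 0 1 v113 1348854888 (by decide +kernel) t0_1251 (good_ofj c0_1134) rfl rfl

theorem t0_1253 : Good (Q 9) [v115, v43, v99, v260, v232, v101] :=
  split_of 1 4 v284 1349326032 (by decide +kernel) (good_ofj c0_1137) (good_ofj c0_1138) rfl rfl

theorem t0_1254 : Good (Q 9) [v115, v43, v99, v260, v232, v42] :=
  split_of 1 5 v101 1349299878 (by decide +kernel) (good_ofj c0_1136) t0_1253 rfl rfl

theorem t0_1255 : Good (Q 9) [v114, v43, v99, v260, v232, v42] :=
  split_of 0 1 v115 1350548520 (by decide +kernel) t0_1254 (good_ofj c0_1139) rfl rfl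

theorem t0_1256 : Good (Q 9) [v114, v43, v7, v260, v232, v42] :=
  split_of 1 2 v99 1351535087 (by decide +kernel) (good_ofj c0_1135) t0_1255 rfl rfl

theorem t0_1257 : Good (Q 9) [v109, v43, v7, v260, v232, v42] :=
  split_of 0 2 v114 1351479933 (by decide +kernel) t0_1256 (good_ofj c0_1140) rfl rfl

theorem t0_1258 : Good (Q 9) [v109, v43, v7, v259, v232, v42] :=
  split_of 2 3 v260 1350429413 (by decide +kernel) t0_1252 t0_1257 rfl rfl

theorem t0_1259 : Good (Q 9) [v109, v43, v7, v259, v230, v42] :=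
  split_of 2 4 v232 1350325825 (by decide +kernel) t0_1248 t0_1258 rfl rfl

theorem t0_1260 : Good (Q 9) [v109, v43, v7, v259, v230, v37] :=
  split_of 2 5 v42 1350220494 (by decide +kernel) t0_1244 t0_1259 rfl rfl

theorem t0_1261 : Good (Q 9) [v117, v38, v43, v259, v230, v118] :=
  split_of 1 4 v285 1339155827 (by decide +kernel) (good_ofj c0_1142) (good_ofj c0_1143) rfl rfl

theorem t0_1262 : Good (Q 9) [v117, v38, v43, v259, v230, v37] :=
  split_of 1 5 v118 1339055755 (by decide +kernel) (good_ofj c0_1141) t0_1261 rfl rfl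

theorem t0_1263 : Good (Q 9) [v109, v38, v43, v259, v230, v37] :=
  split_of 0 1 v117 1343797121 (by decide +kernel) t0_1262 (good_ofj c0_1144) rfl rfl

theorem t0_1264 : Good (Q 9) [v109, v38, v7, v259, v230, v37] :=
  split_of 1 2 v43 1347746544 (by decide +kernel) t0_1260 t0_1263 rfl rfl

theorem t0_1265 : Good (Q 9) [v108, v38, v7, v259, v230, v37] :=
  split_of 0 2 v109 1347302695 (by decide +kernel) t0_1264 (good_ofj c0_1145) rfl rfl

theorem t0_1266 : Good (Q 9) [v108, v38, v7, v257, v230, v37] :=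
  split_of 2 3 v259 1343280872 (by decide +kernel) t0_1242 t0_1265 rfl rfl

theorem t0_1267 : Good (Q 9) [v108, v38, v7, v257, v222, v37] :=
  split_of 2 4 v230 1342889933 (by decide +kernel) t0_1241 t0_1266 rfl rfl

theorem t0_1268 : Good (Q 9) [v108, v38, v7, v257, v222, v24] :=
  split_of 2 5 v37 1342484791 (by decide +kernel) t0_1239 t0_1267 rfl rfl

theorem t0_1269 : Good (Q 9) [v120, v262, v38, v258, v226, v28] :=
  split_of 0 2 v124 1326818823 (by decide +kernel) (good_ofj c0_1149) (good_ofj c0_1150) rfl rfl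

theorem t0_1270 : Good (Q 9) [v120, v262, v38, v257, v226, v28] :=
  split_of 2 3 v258 1326231995 (by decide +kernel) (good_ofj c0_1148) t0_1269 rfl rfl

theorem t0_1271 : Good (Q 7) [v121, v54, v263, v262, v237, v52] :=
  split_of 1 3 v271 1305831726 (by decide +kernel) (good_ofj c0_1153) (good_ofj c0_1154) rfl rfl

theorem t0_1272 : Good (Q 8) [v121, v54, v263, v262, v237, v52] :=
  P_of 7 8 0xffffffffffffffffffffffffffffff51144411053fcfe2bcaf2d0b42d0b42bcafffffffffffffffffffffffffffffff2f0bd33ccf364d9715c52f0bd2e8ba2e8ba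
    (by decide +kernel) t0_1271

theorem t0_1273 : Good (Q 9) [v121, v54, v263, v262, v237, v52] :=
  P_of 8 9 0xffffffffffffffffffffffffffffff52144405043fcff2bcaf2d4b42d4b42bcafffffffffffffffffffffffffffffff2ecbc344cf368d9fffff2ecbc2e8ba2e8ba
    (by decide +kernel) t0_1272

theorem t0_1274 : Good (Q 9) [v121, v54, v38, v263, v237, v52] :=
  split_of 0 2 v123 1319243250 (by decide +kernel) (good_ofj c0_1155) (good_ofj c0_1156) rfl rfl

theorem t0_1275 : Good (Q 9) [v121, v54, v38, v262, v237, v52] :=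
  split_of 2 3 v263 1319089474 (by decide +kernel) t0_1273 t0_1274 rfl rfl

theorem t0_1276 : Good (Q 9) [v121, v54, v38, v262, v226, v52] :=
  split_of 2 4 v237 1318995381 (by decide +kernel) (good_ofj c0_1152) t0_1275 rfl rfl

theorem t0_1277 : Good (Q 9) [v121, v54, v38, v262, v226, v28] :=
  split_of 2 5 v52 1318899466 (by decide +kernel) (good_ofj c0_1151) t0_1276 rfl rfl

theorem t0_1278 : Good (Q 9) [v121, v30, v38, v262, v226, v28] :=
  split_of 1 2 v54 1309864426 (by decide +kernel) t0_1277 (good_ofj c0_1157) rfl rfl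

theorem t0_1279 : Good (Q 9) [v124, v121, v38, v262, v226, v28] :=
  split_of 2 5 v52 1318899466 (by decide +kernel) (good_ofj c0_1158) (good_ofj c0_1159) rfl rfl

theorem t0_1280 : Good (Q 9) [v120, v121, v38, v262, v226, v28] :=
  split_of 0 2 v124 1326818823 (by decide +kernel) t0_1279 (good_ofj c0_1160) rfl rfl

theorem t0_1281 : Good (Q 9) [v120, v30, v38, v262, v226, v28] :=
  split_of 0 1 v121 1301234981 (by decide +kernel) t0_1278 t0_1280 rfl rfl

theorem t0_1282 : Good (Q 9) [v120, v30, v38, v257, v226, v28] :=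
  split_of 1 3 v262 1300565277 (by decide +kernel) t0_1270 t0_1281 rfl rfl

theorem t0_1283 : Good (Q 9) [v120, v30, v38, v257, v222, v28] :=
  split_of 1 4 v226 1300207819 (by decide +kernel) (good_ofj c0_1147) t0_1282 rfl rfl

theorem t0_1284 : Good (Q 9) [v120, v30, v38, v257, v222, v24] :=
  split_of 1 5 v28 1299835258 (by decide +kernel) (good_ofj c0_1146) t0_1283 rfl rfl

theorem t0_1285 : Good (Q 9) [v108, v30, v38, v257, v222, v24] :=
  split_of 0 1 v120 1317105264 (by decide +kernel) t0_1284 (good_ofj c0_1161) rfl rfl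

theorem t0_1286 : Good (Q 9) [v108, v30, v7, v257, v222, v24] :=
  split_of 1 2 v38 1333169107 (by decide +kernel) t0_1268 t0_1285 rfl rfl

theorem t0_1287 : Good (Q 9) [v108, v30, v7, v256, v222, v24] :=
  split_of 1 3 v257 1314661650 (by decide +kernel) t0_1238 t0_1286 rfl rfl

theorem t0_1288 : Good (Q 9) [v108, v30, v7, v256, v222, v19] :=
  split_of 1 5 v24 1311740689 (by decide +kernel) t0_1230 t0_1287 rfl rfl

theorem t0_1289 : Good (Q 9) [v108, v30, v7, v256, v220, v19] :=
  split_of 1 4 v222 1313261210 (by decide +kernel) t0_1222 t0_1288 rfl rfl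

theorem t0_1290 : Good (Q 9) [v107, v30, v7, v256, v220, v19] :=
  split_of 0 2 v108 1329531520 (by decide +kernel) t0_1289 (good_ofj c0_1162) rfl rfl

theorem t0_1291 : Good (Q 9) [v107, v30, v7, v255, v220, v19] :=
  split_of 2 3 v256 1321273347 (by decide +kernel) (good_ofj c0_1092) t0_1290 rfl rfl

theorem t0_1292 : Good (Q 9) [v107, v30, v7, v255, v220, v0] :=
  split_of 2 5 v19 1309159440 (by decide +kernel) (good_ofj c0_1091) t0_1291 rfl rfl

theorem t0_1293 : Good (Q 10) [v107, v30, v7, v255, v220, v0] :=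
  env_E _ t0_1292

theorem t0_1294 : Good (Q 10) [v107, v30, v7, v255, v218, v0] :=
  split_of 2 4 v220 1315710025 (by decide +kernel) (good_ofj c0_1090) t0_1293 rfl rfl

theorem t0_1295 : Good (Q 10) [v125, v30, v7, v255, v218, v0] :=
  split_of 0 2 v107 1245967015 (by decide +kernel) t0_1294 (good_ofj c0_1163) rfl rfl

theorem t0_1296 : Good (Q 10) [v125, v30, v7, v178, v218, v0] :=
  split_of 0 3 v255 1202967926 (by decide +kernel) t0_1215 t0_1295 rfl rfl

theorem t0_1297 : Good (Q 10) [v125, v30, v7, v178, v179, v0] :=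
  split_of 0 4 v218 1184875434 (by decide +kernel) t0_1009 t0_1296 rfl rfl

theorem t0_1298 : Good (Q 10) [v125, v30, v7, v178, v179, v5] :=
  split_of 0 5 v0 1156653316 (by decide +kernel) t0_828 t0_1297 rfl rfl

theorem t0_1299 : Good (Q 10) [v0, v30, v288, v10, v1, v15] :=
  split_of 0 4 v14 1255753845 (by decide +kernel) (good_ofj c0_1169) (good_ofj c0_1170) rfl rfl

theorem t0_1300 : Good (Q 10) [v0, v30, v287, v10, v1, v15] :=
  split_of 0 2 v288 1240491885 (by decide +kernel) (good_ofj c0_1168) t0_1299 rfl rfl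

theorem t0_1301 : Good (Q 10) [v0, v30, v287, v10, v1, v5] :=
  split_of 1 5 v15 1256264730 (by decide +kernel) (good_ofj c0_1167) t0_1300 rfl rfl

theorem t0_1302 : Good (Q 10) [v0, v30, v287, v3, v1, v5] :=
  split_of 1 3 v10 1307275754 (by decide +kernel) (good_ofj c0_1166) t0_1301 rfl rfl

theorem t0_1303 : Good (Q 10) [v0, v30, v286, v3, v1, v5] :=
  split_of 1 2 v287 1222692218 (by decide +kernel) (good_ofj c0_1165) t0_1302 rfl rfl

theorem t0_1304 : Good (Q 10) [v0, v30, v286, v3, v4, v5] :=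
  split_of 1 4 v1 1280313892 (by decide +kernel) (good_ofj c0_1164) t0_1303 rfl rfl

theorem t0_1305 : Good (Q 10) [v62, v30, v287, v6, v14, v0] :=
  split_of 2 5 v288 1240491885 (by decide +kernel) (good_ofj c0_1173) (good_ofj c0_1174) rfl rfl

theorem t0_1306 : Good (Q 10) [v62, v30, v287, v6, v1, v0] :=
  split_of 4 5 v14 1255753845 (by decide +kernel) t0_1305 (good_ofj c0_1175) rfl rfl

theorem t0_1307 : Good (Q 10) [v62, v30, v287, v3, v1, v0] :=
  split_of 3 5 v6 1266396334 (by decide +kernel) t0_1306 (good_ofj c0_1176) rfl rfl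

theorem t0_1308 : Good (Q 10) [v62, v30, v286, v3, v1, v0] :=
  split_of 1 2 v287 1222692218 (by decide +kernel) (good_ofj c0_1172) t0_1307 rfl rfl

theorem t0_1309 : Good (Q 10) [v62, v30, v286, v3, v4, v0] :=
  split_of 1 4 v1 1280313892 (by decide +kernel) (good_ofj c0_1171) t0_1308 rfl rfl

theorem t0_1310 : Good (Q 10) [v84, v30, v289, v3, v62, v6] :=
  split_of 3 4 v65 1269404413 (by decide +kernel) (good_ofj c0_1178) (good_ofj c0_1179) rfl rfl

theorem t0_1311 : Good (Q 10) [v84, v30, v289, v3, v62, v0] :=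
  split_of 3 5 v6 1266396334 (by decide +kernel) (good_ofj c0_1177) t0_1310 rfl rfl

theorem t0_1312 : Good (Q 10) [v84, v30, v287, v3, v62, v289] :=
  split_of 3 4 v65 1269404413 (by decide +kernel) (good_ofj c0_1181) (good_ofj c0_1182) rfl rfl

theorem t0_1313 : Good (Q 10) [v84, v30, v286, v3, v62, v289] :=
  split_of 1 2 v287 1222692218 (by decide +kernel) (good_ofj c0_1180) t0_1312 rfl rfl

theorem t0_1314 : Good (Q 10) [v84, v30, v286, v3, v62, v0] :=
  split_of 2 5 v289 1190588519 (by decide +kernel) t0_1311 t0_1313 rfl rfl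

theorem t0_1315 : Good (Q 10) [v290, v30, v286, v84, v62, v0] :=
  split_of 2 5 v289 1190588519 (by decide +kernel) (good_ofj c0_1183) (good_ofj c0_1184) rfl rfl

theorem t0_1316 : Good (Q 10) [v291, v30, v286, v84, v62, v0] :=
  split_of 0 2 v290 1149226036 (by decide +kernel) t0_1315 (good_ofj c0_1185) rfl rfl

theorem t0_1317 : Good (Q 10) [v294, v30, v293, v106, v151, v60] :=
  split_of 1 2 v295 1268700674 (by decide +kernel) (good_ofj c0_1190) (good_ofj c0_1191) rfl rfl

theorem t0_1318 : Good (Q 10) [v294, v30, v293, v84, v151, v60] :=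
  split_of 1 3 v106 1281296482 (by decide +kernel) (good_ofj c0_1189) t0_1317 rfl rfl

theorem t0_1319 : Good (Q 10) [v294, v30, v293, v84, v151, v0] :=
  split_of 1 5 v60 1264382982 (by decide +kernel) (good_ofj c0_1188) t0_1318 rfl rfl

theorem t0_1320 : Good (Q 10) [v294, v30, v293, v84, v62, v0] :=
  split_of 1 4 v151 1273393141 (by decide +kernel) (good_ofj c0_1187) t0_1319 rfl rfl

theorem t0_1321 : Good (Q 10) [v292, v30, v293, v84, v62, v0] :=
  split_of 0 1 v294 1251137061 (by decide +kernel) t0_1320 (good_ofj c0_1192) rfl rfl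

theorem t0_1322 : Good (Q 10) [v292, v30, v291, v84, v62, v0] :=
  split_of 1 2 v293 1240622808 (by decide +kernel) (good_ofj c0_1186) t0_1321 rfl rfl

theorem t0_1323 : Good (Q 10) [v125, v30, v291, v84, v62, v0] :=
  split_of 0 1 v292 1161452763 (by decide +kernel) t0_1322 (good_ofj c0_1193) rfl rfl

theorem t0_1324 : Good (Q 10) [v125, v30, v286, v84, v62, v0] :=
  split_of 0 2 v291 1128250058 (by decide +kernel) t0_1316 t0_1323 rfl rfl

theorem t0_1325 : Good (Q 10) [v125, v30, v286, v3, v62, v0] :=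
  split_of 0 3 v84 1229127558 (by decide +kernel) t0_1314 t0_1324 rfl rfl

theorem t0_1326 : Good (Q 10) [v125, v30, v286, v3, v4, v0] :=
  split_of 0 4 v62 1184875434 (by decide +kernel) t0_1309 t0_1325 rfl rfl

theorem t0_1327 : Good (Q 10) [v125, v30, v286, v3, v4, v5] :=
  split_of 0 5 v0 1156653316 (by decide +kernel) t0_1304 t0_1326 rfl rfl

theorem t0_1328 : Good (Q 10) [v296, v30, v287, v297, v1, v5] :=
  split_of 0 5 v299 1138290630 (by decide +kernel) (good_ofj c0_1197) (good_ofj c0_1198) rfl rfl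

theorem t0_1329 : Good (Q 10) [v296, v30, v286, v297, v1, v5] :=
  split_of 1 2 v287 1222692218 (by decide +kernel) (good_ofj c0_1196) t0_1328 rfl rfl

theorem t0_1330 : Good (Q 10) [v296, v30, v286, v297, v4, v5] :=
  split_of 1 4 v1 1280313892 (by decide +kernel) (good_ofj c0_1195) t0_1329 rfl rfl

theorem t0_1331 : Good (Q 10) [v296, v30, v286, v298, v4, v5] :=
  split_of 1 3 v297 1161452763 (by decide +kernel) (good_ofj c0_1194) t0_1330 rfl rfl

theorem t0_1332 : Good (Q 10) [v0, v30, v301, v300, v1, v15] :=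
  split_of 0 4 v14 1255753845 (by decide +kernel) (good_ofj c0_1204) (good_ofj c0_1205) rfl rfl

theorem t0_1333 : Good (Q 10) [v0, v30, v289, v300, v1, v15] :=
  split_of 1 2 v301 1263500121 (by decide +kernel) (good_ofj c0_1203) t0_1332 rfl rfl

theorem t0_1334 : Good (Q 10) [v0, v30, v289, v299, v1, v15] :=
  split_of 1 3 v300 1260210071 (by decide +kernel) (good_ofj c0_1202) t0_1333 rfl rfl

theorem t0_1335 : Good (Q 10) [v0, v30, v289, v299, v1, v5] :=
  split_of 1 5 v15 1256264730 (by decide +kernel) (good_ofj c0_1201) t0_1334 rfl rfl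

theorem t0_1336 : Good (Q 10) [v0, v30, v286, v299, v1, v5] :=
  split_of 0 2 v289 1190588519 (by decide +kernel) (good_ofj c0_1200) t0_1335 rfl rfl

theorem t0_1337 : Good (Q 10) [v0, v30, v289, v302, v1, v300] :=
  split_of 0 4 v14 1255753845 (by decide +kernel) (good_ofj c0_1209) (good_ofj c0_1210) rfl rfl

theorem t0_1338 : Good (Q 10) [v0, v30, v289, v302, v1, v299] :=
  split_of 1 5 v300 1260210071 (by decide +kernel) (good_ofj c0_1208) t0_1337 rfl rfl

theorem t0_1339 : Good (Q 10) [v0, v30, v289, v296, v1, v299] :=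
  split_of 1 3 v302 1222692218 (by decide +kernel) (good_ofj c0_1207) t0_1338 rfl rfl

theorem t0_1340 : Good (Q 10) [v0, v30, v286, v296, v1, v299] :=
  split_of 0 2 v289 1190588519 (by decide +kernel) (good_ofj c0_1206) t0_1339 rfl rfl

theorem t0_1341 : Good (Q 10) [v0, v30, v286, v296, v1, v5] :=
  split_of 3 5 v299 1138290630 (by decide +kernel) t0_1336 t0_1340 rfl rfl

theorem t0_1342 : Good (Q 10) [v0, v30, v286, v296, v4, v5] :=
  split_of 1 4 v1 1280313892 (by decide +kernel) (good_ofj c0_1199) t0_1341 rfl rfl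

theorem t0_1343 : Good (Q 10) [v62, v30, v286, v296, v1, v289] :=
  split_of 2 3 v303 1128250058 (by decide +kernel) (good_ofj c0_1213) (good_ofj c0_1214) rfl rfl

theorem t0_1344 : Good (Q 10) [v62, v30, v286, v296, v1, v0] :=
  split_of 2 5 v289 1190588519 (by decide +kernel) (good_ofj c0_1212) t0_1343 rfl rfl

theorem t0_1345 : Good (Q 10) [v62, v30, v286, v296, v4, v0] :=
  split_of 1 4 v1 1280313892 (by decide +kernel) (good_ofj c0_1211) t0_1344 rfl rfl

theorem t0_1346 : Good (Q 10) [v291, v30, v286, v303, v62, v0] :=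
  split_of 0 2 v290 1149226036 (by decide +kernel) (good_ofj c0_1216) (good_ofj c0_1217) rfl rfl

theorem t0_1347 : Good (Q 10) [v291, v30, v286, v296, v62, v0] :=
  split_of 2 3 v303 1128250058 (by decide +kernel) (good_ofj c0_1215) t0_1346 rfl rfl

theorem t0_1348 : Good (Q 10) [v125, v30, v286, v296, v62, v0] :=
  split_of 0 2 v291 1128250058 (by decide +kernel) t0_1347 (good_ofj c0_1218) rfl rfl

theorem t0_1349 : Good (Q 10) [v125, v30, v286, v296, v4, v0] :=
  split_of 0 4 v62 1184875434 (by decide +kernel) t0_1345 t0_1348 rfl rfl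

theorem t0_1350 : Good (Q 10) [v125, v30, v286, v296, v4, v5] :=
  split_of 0 5 v0 1156653316 (by decide +kernel) t0_1342 t0_1349 rfl rfl

theorem t0_1351 : Good (Q 10) [v125, v30, v286, v298, v4, v5] :=
  split_of 0 3 v296 1014622444 (by decide +kernel) t0_1331 t0_1350 rfl rfl

theorem t0_1352 : Good (Q 9) [v311, v30, v310, v128, v309, v15] :=
  split_of 1 5 v21 1288860967 (by decide +kernel) (good_ofj c0_1225) (good_ofj c0_1226) rfl rfl

theorem t0_1353 : Good (Q 10) [v311, v30, v310, v128, v309, v15] :=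
  env_E _ t0_1352

theorem t0_1354 : Good (Q 10) [v308, v30, v310, v128, v309, v15] :=
  split_of 0 1 v311 1274572497 (by decide +kernel) t0_1353 (good_ofj c0_1227) rfl rfl

theorem t0_1355 : Good (Q 10) [v308, v30, v307, v128, v309, v15] :=
  split_of 1 2 v310 1264886921 (by decide +kernel) (good_ofj c0_1224) t0_1354 rfl rfl

theorem t0_1356 : Good (Q 10) [v308, v30, v307, v128, v304, v15] :=
  split_of 1 4 v309 1293212810 (by decide +kernel) (good_ofj c0_1223) t0_1355 rfl rfl

theorem t0_1357 : Good (Q 10) [v0, v30, v308, v128, v312, v15] :=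
  split_of 0 3 v142 1268403305 (by decide +kernel) (good_ofj c0_1229) (good_ofj c0_1230) rfl rfl

theorem t0_1358 : Good (Q 10) [v0, v30, v308, v128, v304, v15] :=
  split_of 0 4 v312 1241799870 (by decide +kernel) (good_ofj c0_1228) t0_1357 rfl rfl

theorem t0_1359 : Good (Q 10) [v0, v30, v307, v128, v304, v15] :=
  split_of 0 2 v308 1223769480 (by decide +kernel) t0_1356 t0_1358 rfl rfl

theorem t0_1360 : Good (Q 10) [v0, v30, v307, v128, v304, v5] :=
  split_of 1 5 v15 1256264730 (by decide +kernel) (good_ofj c0_1222) t0_1359 rfl rfl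

theorem t0_1361 : Good (Q 10) [v0, v30, v307, v126, v304, v5] :=
  split_of 1 3 v128 1307275754 (by decide +kernel) (good_ofj c0_1221) t0_1360 rfl rfl

theorem t0_1362 : Good (Q 10) [v0, v30, v305, v126, v304, v5] :=
  split_of 1 2 v307 1222692218 (by decide +kernel) (good_ofj c0_1220) t0_1361 rfl rfl

theorem t0_1363 : Good (Q 10) [v0, v30, v305, v126, v306, v5] :=
  split_of 1 4 v304 1268403305 (by decide +kernel) (good_ofj c0_1219) t0_1362 rfl rfl

theorem t0_1364 : Good (Q 10) [v314, v30, v307, v142, v312, v0] :=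
  split_of 2 5 v308 1223769480 (by decide +kernel) (good_ofj c0_1234) (good_ofj c0_1235) rfl rfl

theorem t0_1365 : Good (Q 10) [v314, v30, v307, v128, v312, v0] :=
  split_of 3 5 v142 1268403305 (by decide +kernel) t0_1364 (good_ofj c0_1236) rfl rfl

theorem t0_1366 : Good (Q 10) [v314, v30, v307, v128, v304, v0] :=
  split_of 4 5 v312 1241799870 (by decide +kernel) t0_1365 (good_ofj c0_1237) rfl rfl

theorem t0_1367 : Good (Q 10) [v313, v30, v307, v128, v304, v0] :=
  split_of 0 1 v314 1267400614 (by decide +kernel) t0_1366 (good_ofj c0_1238) rfl rfl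

theorem t0_1368 : Good (Q 10) [v313, v30, v307, v126, v304, v0] :=
  split_of 1 3 v128 1307275754 (by decide +kernel) (good_ofj c0_1233) t0_1367 rfl rfl

theorem t0_1369 : Good (Q 10) [v313, v30, v305, v126, v304, v0] :=
  split_of 1 2 v307 1222692218 (by decide +kernel) (good_ofj c0_1232) t0_1368 rfl rfl

theorem t0_1370 : Good (Q 10) [v313, v30, v305, v126, v306, v0] :=
  split_of 1 4 v304 1268403305 (by decide +kernel) (good_ofj c0_1231) t0_1369 rfl rfl

theorem t0_1371 : Good (Q 10) [v168, v30, v307, v316, v314, v311] :=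
  split_of 2 4 v317 1258176855 (by decide +kernel) (good_ofj c0_1244) (good_ofj c0_1245) rfl rfl

theorem t0_1372 : Good (Q 10) [v168, v30, v307, v316, v314, v308] :=
  split_of 1 5 v311 1274572497 (by decide +kernel) (good_ofj c0_1243) t0_1371 rfl rfl

theorem t0_1373 : Good (Q 10) [v152, v30, v307, v316, v314, v308] :=
  split_of 0 1 v168 1278344175 (by decide +kernel) t0_1372 (good_ofj c0_1246) rfl rfl

theorem t0_1374 : Good (Q 10) [v152, v30, v307, v315, v314, v308] :=
  split_of 1 3 v316 1298731224 (by decide +kernel) (good_ofj c0_1242) t0_1373 rfl rfl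

theorem t0_1375 : Good (Q 10) [v152, v30, v307, v315, v314, v0] :=
  split_of 2 5 v308 1223769480 (by decide +kernel) (good_ofj c0_1241) t0_1374 rfl rfl

theorem t0_1376 : Good (Q 10) [v152, v30, v307, v315, v313, v0] :=
  split_of 1 4 v314 1267400614 (by decide +kernel) (good_ofj c0_1240) t0_1375 rfl rfl

theorem t0_1377 : Good (Q 10) [v152, v30, v308, v128, v316, v0] :=
  split_of 3 5 v142 1268403305 (by decide +kernel) (good_ofj c0_1249) (good_ofj c0_1250) rfl rfl

theorem t0_1378 : Good (Q 9) [v168, v30, v310, v128, v316, v311] :=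
  split_of 0 3 v318 1301234981 (by decide +kernel) (good_ofj c0_1253) (good_ofj c0_1254) rfl rfl

theorem t0_1379 : Good (Q 10) [v168, v30, v310, v128, v316, v311] :=
  env_E _ t0_1378

theorem t0_1380 : Good (Q 10) [v168, v30, v307, v128, v316, v311] :=
  split_of 1 2 v310 1264886921 (by decide +kernel) (good_ofj c0_1252) t0_1379 rfl rfl

theorem t0_1381 : Good (Q 10) [v168, v30, v307, v128, v316, v308] :=
  split_of 1 5 v311 1274572497 (by decide +kernel) (good_ofj c0_1251) t0_1380 rfl rfl

theorem t0_1382 : Good (Q 10) [v152, v30, v307, v128, v316, v308] :=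
  split_of 0 1 v168 1278344175 (by decide +kernel) t0_1381 (good_ofj c0_1255) rfl rfl

theorem t0_1383 : Good (Q 10) [v152, v30, v307, v128, v316, v0] :=
  split_of 2 5 v308 1223769480 (by decide +kernel) t0_1377 t0_1382 rfl rfl

theorem t0_1384 : Good (Q 10) [v152, v30, v307, v128, v315, v0] :=
  split_of 1 4 v316 1298731224 (by decide +kernel) (good_ofj c0_1248) t0_1383 rfl rfl

theorem t0_1385 : Good (Q 10) [v152, v30, v307, v126, v315, v0] :=
  split_of 1 3 v128 1307275754 (by decide +kernel) (good_ofj c0_1247) t0_1384 rfl rfl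

theorem t0_1386 : Good (Q 10) [v152, v30, v307, v126, v313, v0] :=
  split_of 3 4 v315 1241799870 (by decide +kernel) t0_1376 t0_1385 rfl rfl

theorem t0_1387 : Good (Q 10) [v152, v30, v305, v126, v313, v0] :=
  split_of 1 2 v307 1222692218 (by decide +kernel) (good_ofj c0_1239) t0_1386 rfl rfl

theorem t0_1388 : Good (Q 10) [v320, v30, v307, v168, v314, v311] :=
  split_of 2 4 v317 1258176855 (by decide +kernel) (good_ofj c0_1261) (good_ofj c0_1262) rfl rfl

theorem t0_1389 : Good (Q 10) [v320, v30, v307, v168, v314, v308] :=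
  split_of 1 5 v311 1274572497 (by decide +kernel) (good_ofj c0_1260) t0_1388 rfl rfl

theorem t0_1390 : Good (Q 10) [v320, v30, v307, v152, v314, v308] :=
  split_of 1 3 v168 1278344175 (by decide +kernel) (good_ofj c0_1259) t0_1389 rfl rfl

theorem t0_1391 : Good (Q 10) [v320, v30, v307, v152, v314, v0] :=
  split_of 2 5 v308 1223769480 (by decide +kernel) (good_ofj c0_1258) t0_1390 rfl rfl

theorem t0_1392 : Good (Q 10) [v320, v30, v307, v152, v313, v0] :=
  split_of 1 4 v314 1267400614 (by decide +kernel) (good_ofj c0_1257) t0_1391 rfl rfl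

theorem t0_1393 : Good (Q 10) [v319, v30, v307, v152, v313, v0] :=
  split_of 0 1 v320 1236633639 (by decide +kernel) t0_1392 (good_ofj c0_1263) rfl rfl

theorem t0_1394 : Good (Q 10) [v319, v30, v305, v152, v313, v0] :=
  split_of 1 2 v307 1222692218 (by decide +kernel) (good_ofj c0_1256) t0_1393 rfl rfl

theorem t0_1395 : Good (Q 10) [v321, v30, v305, v152, v313, v0] :=
  split_of 0 2 v319 1069707140 (by decide +kernel) t0_1394 (good_ofj c0_1264) rfl rfl

theorem t0_1396 : Good (Q 10) [v294, v30, v323, v168, v314, v60] :=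
  split_of 1 5 v61 1283257153 (by decide +kernel) (good_ofj c0_1270) (good_ofj c0_1271) rfl rfl

theorem t0_1397 : Good (Q 10) [v294, v30, v322, v168, v314, v60] :=
  split_of 1 2 v323 1267855155 (by decide +kernel) (good_ofj c0_1269) t0_1396 rfl rfl

theorem t0_1398 : Good (Q 10) [v294, v30, v322, v152, v314, v60] :=
  split_of 1 3 v168 1278344175 (by decide +kernel) (good_ofj c0_1268) t0_1397 rfl rfl

theorem t0_1399 : Good (Q 10) [v294, v30, v322, v152, v314, v0] :=
  split_of 1 5 v60 1264382982 (by decide +kernel) (good_ofj c0_1267) t0_1398 rfl rfl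

theorem t0_1400 : Good (Q 10) [v294, v30, v322, v152, v313, v0] :=
  split_of 1 4 v314 1267400614 (by decide +kernel) (good_ofj c0_1266) t0_1399 rfl rfl

theorem t0_1401 : Good (Q 10) [v292, v30, v322, v152, v313, v0] :=
  split_of 0 1 v294 1251137061 (by decide +kernel) t0_1400 (good_ofj c0_1272) rfl rfl

theorem t0_1402 : Good (Q 10) [v292, v30, v321, v152, v313, v0] :=
  split_of 1 2 v322 1233513065 (by decide +kernel) (good_ofj c0_1265) t0_1401 rfl rfl

theorem t0_1403 : Good (Q 10) [v125, v30, v321, v152, v313, v0] :=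
  split_of 0 1 v292 1161452763 (by decide +kernel) t0_1402 (good_ofj c0_1273) rfl rfl

theorem t0_1404 : Good (Q 10) [v125, v30, v305, v152, v313, v0] :=
  split_of 0 2 v321 1055249866 (by decide +kernel) t0_1395 t0_1403 rfl rfl

theorem t0_1405 : Good (Q 10) [v125, v30, v305, v126, v313, v0] :=
  split_of 0 3 v152 1202967926 (by decide +kernel) t0_1387 t0_1404 rfl rfl

theorem t0_1406 : Good (Q 10) [v125, v30, v305, v126, v306, v0] :=
  split_of 0 4 v313 1156653316 (by decide +kernel) t0_1370 t0_1405 rfl rfl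

theorem t0_1407 : Good (Q 10) [v125, v30, v305, v126, v306, v5] :=
  split_of 0 5 v0 1156653316 (by decide +kernel) t0_1363 t0_1406 rfl rfl

theorem t0_1408 : Good (Q 8) [v332, v336, v333, v331, v330, v334] :=
  split_of 1 4 v335 343411488 (by decide +kernel) (good_ofj c0_1283) (good_ofj c0_1284) rfl rfl

theorem t0_1409 : Good (Q 8) [v332, v336, v333, v331, v330, v329] :=
  split_of 1 5 v334 376083352 (by decide +kernel) (good_ofj c0_1282) t0_1408 rfl rfl

theorem t0_1410 : Good (Q 10) [v332, v336, v333, v331, v330, v329] :=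
  fin_of 8 0xfffffffffffffffffffffffffffffffffff20c83fffffffffffffffffffffffff
    (by decide +kernel) t0_1409

theorem t0_1411 : Good (Q 10) [v332, v336, v328, v331, v330, v329] :=
  split_of 1 2 v333 485225728 (by decide +kernel) (good_ofj c0_1281) t0_1410 rfl rfl

theorem t0_1412 : Good (Q 10) [v327, v336, v328, v331, v330, v329] :=
  split_of 0 1 v332 0 (by decide +kernel) t0_1411 (good_ofj c0_1285) rfl rfl

theorem t0_1413 : Good (Q 10) [v327, v336, v328, v326, v330, v329] :=
  split_of 1 3 v331 587809108 (by decide +kernel) (good_ofj c0_1280) t0_1412 rfl rfl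

theorem t0_1414 : Good (Q 10) [v327, v336, v328, v326, v325, v329] :=
  split_of 1 4 v330 531219219 (by decide +kernel) (good_ofj c0_1279) t0_1413 rfl rfl

theorem t0_1415 : Good (Q 10) [v327, v336, v328, v326, v325, v324] :=
  split_of 1 5 v329 578326658 (by decide +kernel) (good_ofj c0_1278) t0_1414 rfl rfl

theorem t0_1416 : Good (Q 10) [v327, v336, v286, v326, v325, v324] :=
  split_of 1 2 v328 731669392 (by decide +kernel) (good_ofj c0_1277) t0_1415 rfl rfl

theorem t0_1417 : Good (Q 10) [v125, v327, v286, v326, v325, v324] :=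
  split_of 0 2 v291 1128250058 (by decide +kernel) (good_ofj c0_1286) (good_ofj c0_1287) rfl rfl

theorem t0_1418 : Good (Q 10) [v125, v336, v286, v326, v325, v324] :=
  split_of 0 1 v327 0 (by decide +kernel) t0_1416 t0_1417 rfl rfl

theorem t0_1419 : Good (Q 10) [v125, v336, v286, v3, v325, v324] :=
  split_of 1 3 v326 886354346 (by decide +kernel) (good_ofj c0_1276) t0_1418 rfl rfl

theorem t0_1420 : Good (Q 10) [v125, v336, v286, v3, v4, v324] :=
  split_of 1 4 v325 795238983 (by decide +kernel) (good_ofj c0_1275) t0_1419 rfl rfl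

theorem t0_1421 : Good (Q 10) [v125, v336, v286, v3, v4, v5] :=
  split_of 1 5 v324 852229450 (by decide +kernel) (good_ofj c0_1274) t0_1420 rfl rfl

theorem t0_1422 : Good (Q 8) [v296, v336, v286, v298, v4, v5] :=
  split_of 1 5 v324 852229450 (by decide +kernel) (good_ofj c0_1288) (good_ofj c0_1289) rfl rfl

theorem t0_1423 : Good (Q 10) [v296, v336, v286, v298, v4, v5] :=
  fin_of 8 0xffffffffffffffffffffffffffffffffffffffffffffffffff20080ffffffffff
    (by decide +kernel) t0_1422

theorem t0_1424 : Good (Q 8) [v332, v336, v333, v338, v330, v329] :=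
  split_of 1 5 v334 376083352 (by decide +kernel) (good_ofj c0_1298) (good_ofj c0_1299) rfl rfl

theorem t0_1425 : Good (Q 8) [v332, v336, v333, v337, v330, v329] :=
  split_of 1 3 v338 485225728 (by decide +kernel) (good_ofj c0_1297) t0_1424 rfl rfl

theorem t0_1426 : Good (Q 10) [v332, v336, v333, v337, v330, v329] :=
  fin_of 8 0xfffffffffffffffffffffffffffffffffff20c83fffffffffffffffffffffffff
    (by decide +kernel) t0_1425

theorem t0_1427 : Good (Q 10) [v332, v336, v328, v337, v330, v329] :=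
  split_of 1 2 v333 485225728 (by decide +kernel) (good_ofj c0_1296) t0_1426 rfl rfl

theorem t0_1428 : Good (Q 10) [v327, v336, v328, v337, v330, v329] :=
  split_of 0 1 v332 0 (by decide +kernel) t0_1427 (good_ofj c0_1300) rfl rfl

theorem t0_1429 : Good (Q 10) [v327, v336, v328, v337, v325, v329] :=
  split_of 1 4 v330 531219219 (by decide +kernel) (good_ofj c0_1295) t0_1428 rfl rfl

theorem t0_1430 : Good (Q 10) [v327, v336, v328, v337, v325, v324] :=
  split_of 1 5 v329 578326658 (by decide +kernel) (good_ofj c0_1294) t0_1429 rfl rfl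

theorem t0_1431 : Good (Q 10) [v327, v336, v328, v296, v325, v324] :=
  split_of 1 3 v337 731669392 (by decide +kernel) (good_ofj c0_1293) t0_1430 rfl rfl

theorem t0_1432 : Good (Q 10) [v327, v336, v286, v296, v325, v324] :=
  split_of 1 2 v328 731669392 (by decide +kernel) (good_ofj c0_1292) t0_1431 rfl rfl

theorem t0_1433 : Good (Q 10) [v125, v327, v286, v296, v325, v324] :=
  split_of 0 2 v291 1128250058 (by decide +kernel) (good_ofj c0_1301) (good_ofj c0_1302) rfl rfl

theorem t0_1434 : Good (Q 10) [v125, v336, v286, v296, v325, v324] :=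
  split_of 0 1 v327 0 (by decide +kernel) t0_1432 t0_1433 rfl rfl

theorem t0_1435 : Good (Q 10) [v125, v336, v286, v296, v4, v324] :=
  split_of 1 4 v325 795238983 (by decide +kernel) (good_ofj c0_1291) t0_1434 rfl rfl

theorem t0_1436 : Good (Q 10) [v125, v336, v286, v296, v4, v5] :=
  split_of 1 5 v324 852229450 (by decide +kernel) (good_ofj c0_1290) t0_1435 rfl rfl

theorem t0_1437 : Good (Q 10) [v125, v336, v286, v298, v4, v5] :=
  split_of 0 3 v296 1014622444 (by decide +kernel) t0_1423 t0_1436 rfl rfl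

end Pool.Agent.U316.Ep
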