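import Pool.Agent.U316.Ep.Tst

/-!
# Soundness of the quadratic double test
-/

set_option autoImplicit false

open Matrix Pool.Agent.K1H99.FCC

namespace Pool.Agent.U316.Ep

open Pool.Agent.U316.Th (X13)

/-- the real quadratic form of an accumulated matrix -/
lemma quad_sum (b : ℕ → ℕ) (P : Fin 7 → ℝ) :
    ∑ e, (∑ f, ((∑ n ∈ Finset.range 26, CM.getD n 0 e f * b n : ℕ) : ℝ) * P f) * P e =
      ∑ n ∈ Finset.range 26, (b n : ℝ) * ∑ e, (∑ f, (CM.getD n 0 e f : ℝ) * P f) * P e := by
  simp only [Finset.mul_sum, Finset.sum_mul]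
  push_cast
  simp only [Finset.sum_mul]
  have h1 : ∀ e : Fin 7, ∑ f : Fin 7, ∑ n ∈ Finset.range 26,
      (CM.getD n 0 e f : ℝ) * (b n : ℝ) * P f * P e = ∑ n ∈ Finset.range 26, ∑ f : Fin 7,
      (CM.getD n 0 e f : ℝ) * (b n : ℝ) * P f * P e := fun e => Finset.sum_comm
  simp only [h1]
  rw [Finset.sum_comm]
  refine Finset.sum_congr rfl fun n _ => ?_
  refine Finset.sum_congr rfl fun e _ => ?_
  refine Finset.sum_congr rfl fun f _ => by ring

/-- the quadratic test gives a bound on the cone -/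
lemma quad_bound {V : List ℕ} (hV : VL V) {A c : ℕ} (hc : c ≤ A) {b : ℕ → ℕ}
    (h : ∀ x ∈ V, ∀ y ∈ V, bf (fun e f => ∑ n ∈ Finset.range 26, CM.getD n 0 e f * b n) x y <
      2 * (A - c) * gw x * gw y)
    {l : Fin 6 → ℝ} (hl : ∀ i, 0 ≤ l i) (hp : PD (∑ i : Fin 6, l i • wv (gt V i))) :
    ∑ n : Fin 13, (b n.val : ℝ) * (qf (∑ i : Fin 6, l i • wv (gt V i)) (rv (X13 n)) /
      rad (∑ i : Fin 6, l i • wv (gt V i))) +
    ∑ n : Fin 13, (b (13 + n.val) : ℝ) * (af (∑ i : Fin 6, l i • wv (gt V i)) (rv (D13 n)) /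
      rad (∑ i : Fin 6, l i • wv (gt V i)) ^ 2) ≤ A - c := by
  have hR : 0 < rad (∑ i : Fin 6, l i • wv (gt V i)) := rad_pos (dt_pos hp)
  have hGR := G_le hV hl
  have hQ := fun n => qf_nonneg' (V := V) hl (rv (X13 n))
  have hA := fun n => af_nonneg' (V := V) hl (rv (D13 n))
  have hg : ∀ i : Fin 6, 0 < (gw (gt V i) : ℝ) := by
    intro i
    have h1 := h _ (vl_mem hV i) _ (vl_mem hV i)
    rcases Nat.eq_zero_or_pos (gw (gt V i)) with h0 | h0
    · rw [h0, mul_zero] at h1
      exact absurd h1 (Nat.not_lt_zero _)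
    · exact_mod_cast h0
  have hG : 0 < ∑ i : Fin 6, l i * (gw (gt V i) : ℝ) := by
    rcases (Finset.sum_nonneg fun i (_ : i ∈ Finset.univ) =>
      mul_nonneg (hl i) (hg i).le).lt_or_eq with h0 | h0
    · exact h0
    · exfalso
      have h1 := (Finset.sum_eq_zero_iff_of_nonneg fun i (_ : i ∈ Finset.univ) =>
        mul_nonneg (hl i) (hg i).le).1 h0.symm
      have h2 : ∀ i, l i = 0 := fun i => by
        rcases mul_eq_zero.1 (h1 i (Finset.mem_univ i)) with h3 | h3
        · exact h3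
        · exact absurd h3 (hg i).ne'
      have h3 := dt_pos hp
      simp only [h2, zero_smul, Finset.sum_const_zero] at h3
      unfold dt at h3
      simp at h3
  set p := ∑ i : Fin 6, l i • wv (gt V i) with hpd
  set G := ∑ i : Fin 6, l i * (gw (gt V i) : ℝ) with hGd
  set C : Fin 7 → Fin 7 → ℕ := fun e f => ∑ n ∈ Finset.range 26, CM.getD n 0 e f * b n with hC
  have hAc : (c : ℝ) ≤ A := by exact_mod_cast hc
  -- the quadratic form
  have k1 : ∑ e, (∑ f, (C e f : ℝ) * P7 G p f) * P7 G p e ≤ 2 * ((A - c) * G ^ 2) := by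
    have e1 : ∑ e, (∑ f, (C e f : ℝ) * P7 G p f) * P7 G p e =
        ∑ i : Fin 6, ∑ j : Fin 6, l i * l j * (bf C (gt V i) (gt V j) : ℝ) := by
      rw [hpd, hGd, P7_sum]
      simp only [P7_dW, Finset.sum_apply, Pi.smul_apply, smul_eq_mul]
      unfold bf
      push_cast
      simp only [Finset.mul_sum, Finset.sum_mul]
      have r1 : ∀ e : Fin 7, ∑ j : Fin 6, ∑ f : Fin 7, ∑ i : Fin 6,
          (C e f : ℝ) * (l i * (dW (gt V i) f : ℝ)) * (l j * (dW (gt V j) e : ℝ)) =
          ∑ i : Fin 6, ∑ j : Fin 6, ∑ f : Fin 7,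
          (C e f : ℝ) * (l i * (dW (gt V i) f : ℝ)) * (l j * (dW (gt V j) e : ℝ)) := by
        intro e
        have r2 : ∀ j : Fin 6, ∑ f : Fin 7, ∑ i : Fin 6,
            (C e f : ℝ) * (l i * (dW (gt V i) f : ℝ)) * (l j * (dW (gt V j) e : ℝ)) =
            ∑ i : Fin 6, ∑ f : Fin 7,
            (C e f : ℝ) * (l i * (dW (gt V i) f : ℝ)) * (l j * (dW (gt V j) e : ℝ)) :=
          fun j => Finset.sum_comm
        simp only [r2]
        rw [Finset.sum_comm]
      simp only [r1]
      rw [Finset.sum_comm]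
      refine Finset.sum_congr rfl fun i _ => ?_
      rw [Finset.sum_comm]
      refine Finset.sum_congr rfl fun j _ => ?_
      refine Finset.sum_congr rfl fun e _ => ?_
      refine Finset.sum_congr rfl fun f _ => ?_
      ring
    rw [e1]
    calc ∑ i : Fin 6, ∑ j : Fin 6, l i * l j * (bf C (gt V i) (gt V j) : ℝ) ≤
        ∑ i : Fin 6, ∑ j : Fin 6, l i * l j * (2 * (A - c) * (gw (gt V i)) * (gw (gt V j))) := by
          refine Finset.sum_le_sum fun i _ => Finset.sum_le_sum fun j _ => ?_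
          refine mul_le_mul_of_nonneg_left ?_ (mul_nonneg (hl i) (hl j))
          have h2 := (Nat.cast_le (α := ℝ)).2 (h _ (vl_mem hV i) _ (vl_mem hV j)).le
          rw [Nat.cast_mul, Nat.cast_mul, Nat.cast_mul, Nat.cast_sub hc] at h2
          exact_mod_cast h2
      _ = 2 * ((A - c) * G ^ 2) := by
          rw [hGd, sq, Finset.sum_mul_sum, Finset.mul_sum, Finset.mul_sum]
          refine Finset.sum_congr rfl fun i _ => ?_
          rw [Finset.mul_sum, Finset.mul_sum]
          refine Finset.sum_congr rfl fun j _ => by ring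
  have k2 : ∑ e, (∑ f, (C e f : ℝ) * P7 G p f) * P7 G p e =
      2 * (G * ∑ n : Fin 13, (b n.val : ℝ) * qf p (rv (X13 n))) +
      2 * ∑ n : Fin 13, (b (13 + n.val) : ℝ) * af p (rv (D13 n)) := by
    rw [hC, quad_sum, show (26 : ℕ) = 13 + 13 from rfl, Finset.sum_range_add, Finset.sum_range,
      Finset.sum_range]
    simp only [CM_qf, CM_af]
    rw [Finset.mul_sum, Finset.mul_sum, Finset.mul_sum]
    congr 1
    · exact Finset.sum_congr rfl fun n _ => by ring
    · exact Finset.sum_congr rfl fun n _ => by ring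
  rw [k2] at k1
  have e2 : ∑ n : Fin 13, (b n.val : ℝ) * (qf p (rv (X13 n)) / rad p) =
      (∑ n : Fin 13, (b n.val : ℝ) * qf p (rv (X13 n))) / rad p := by
    rw [Finset.sum_div]
    exact Finset.sum_congr rfl fun n _ => by ring
  have e3 : ∑ n : Fin 13, (b (13 + n.val) : ℝ) * (af p (rv (D13 n)) / rad p ^ 2) =
      (∑ n : Fin 13, (b (13 + n.val) : ℝ) * af p (rv (D13 n))) / rad p ^ 2 := by
    rw [Finset.sum_div]
    exact Finset.sum_congr rfl fun n _ => by ring
  rw [e2, e3]
  have hS : 0 ≤ ∑ n : Fin 13, (b n.val : ℝ) * qf p (rv (X13 n)) :=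
    Finset.sum_nonneg fun n _ => mul_nonneg (Nat.cast_nonneg _) (hQ n)
  have hT : 0 ≤ ∑ n : Fin 13, (b (13 + n.val) : ℝ) * af p (rv (D13 n)) :=
    Finset.sum_nonneg fun n _ => mul_nonneg (Nat.cast_nonneg _) (hA n)
  generalize ∑ n : Fin 13, (b n.val : ℝ) * qf p (rv (X13 n)) = S at *
  generalize ∑ n : Fin 13, (b (13 + n.val) : ℝ) * af p (rv (D13 n)) = T at *
  generalize rad p = R at *
  have e4 : S / R + T / R ^ 2 = (S * R + T) / R ^ 2 := by
    field_simp
  rw [e4, div_le_iff₀ (by positivity)]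
  -- `G S + T ≤ a G ^ 2`, `G ≤ R`
  have a0 : (0:ℝ) ≤ A - c := by linarith
  generalize (A:ℝ) - c = a at *
  have h5 : G * S + T ≤ a * G ^ 2 := by linarith
  have h6 : G * (S * R + T) ≤ G * (a * R ^ 2) := by
    have h7 : G * (S * R + T) ≤ R * (G * S + T) := by nlinarith
    have h8 : R * (G * S + T) ≤ R * (a * G ^ 2) := mul_le_mul_of_nonneg_left h5 hR.le
    have h9 : R * (a * G ^ 2) ≤ G * (a * R ^ 2) := by
      have : 0 ≤ a * G * R * (R - G) := by
        have := sub_nonneg.2 hGR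
        positivity
      nlinarith
    linarith
  exact le_of_mul_le_mul_left h6 hG

/-- the quadratic double test -/
lemma tsq_spec {T0 T1 c0 c1 : ℕ} {V : List ℕ} {t : ℕ} (hV : VL V)
    (h : tsq T0 T1 c0 c1 V t = true) {l : Fin 6 → ℝ} (hl : ∀ i, 0 ≤ l i)
    (hp : PD (∑ i : Fin 6, l i • wv (gt V i))) {u w off : ℝ} (hu : 0 ≤ u) (hw : 0 ≤ w) {Φ : ℝ → ℝ}
    (hΦ : ∀ (i0 i1 : ℕ) (v : ℝ), (i1 = 1023 → i0 = 1023) → 0 ≤ v →
        u * (lA T0 i0 - lB T0 i0 * v) + w * (lA T1 i1 - lB T1 i1 * v - off) ≤ Φ v) :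
    u * c0 + w * c1 ≤ ∑ n : Fin 13, Φ (qf (∑ i : Fin 6, l i • wv (gt V i)) (rv (X13 n)) /
      rad (∑ i : Fin 6, l i • wv (gt V i))) +
      ∑ n : Fin 13, Φ (af (∑ i : Fin 6, l i • wv (gt V i)) (rv (D13 n)) /
      rad (∑ i : Fin 6, l i • wv (gt V i)) ^ 2) + w * 26 * off := by
  have hr : 0 < rad (∑ i : Fin 6, l i • wv (gt V i)) := rad_pos (dt_pos hp)
  unfold tsq at h
  obtain ⟨i0, i1, hd, hk⟩ := acc_spec T0 T1 _ KQ t 0 0 0 0 h
  simp only [frc_eq] at hk
  rw [sum_pkm (fun n => lB T0 (i0 n)), sum_pkm (fun n => lB T1 (i1 n))] at hk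
  have hlen : KQ.length = 26 := rfl
  rw [hlen] at hk
  simp only [zero_add] at hk
  cases h1 : Nat.ble c0 (∑ n ∈ Finset.range 26, lA T0 (i0 n)) with
  | false => rw [h1] at hk; exact absurd hk (by simp)
  | true =>
    rw [h1] at hk
    cases h2 : Nat.ble c1 (∑ n ∈ Finset.range 26, lA T1 (i1 n)) with
    | false => rw [h2] at hk; exact absurd hk (by simp)
    | true =>
      rw [h2] at hk
      have l1 := Nat.le_of_ble_eq_true h1
      have l2 := Nat.le_of_ble_eq_true h2
      change qall ((∑ n ∈ Finset.range 26, lA T0 (i0 n)) - c0)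
        (pkm fun e f => ∑ n ∈ Finset.range 26, CM.getD n 0 e f * lB T0 (i0 n))
        ((∑ n ∈ Finset.range 26, lA T1 (i1 n)) - c1)
        (pkm fun e f => ∑ n ∈ Finset.range 26, CM.getD n 0 e f * lB T1 (i1 n)) V = true at hk
      have hsp := qall_spec
        (fun e f => bound_sum (N := 26) (by norm_num) (fun n => CM.getD n 0 e f) _
          (fun n => CM_le n e f) (fun n => lB_lt T0 (i0 n)))
        (fun e f => bound_sum (N := 26) (by norm_num) (fun n => CM.getD n 0 e f) _
          (fun n => CM_le n e f) (fun n => lB_lt T1 (i1 n)))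
        (fun e f => Finset.sum_congr rfl fun n _ => by rw [CM_symm])
        (fun e f => Finset.sum_congr rfl fun n _ => by rw [CM_symm]) hV.2 hk
      have e1 := quad_bound hV l1 (b := fun n => lB T0 (i0 n))
        (fun x hx y hy => (hsp x hx y hy).1) hl hp
      have e2 := quad_bound hV l2 (b := fun n => lB T1 (i1 n))
        (fun x hx y hy => (hsp x hx y hy).2) hl hp
      set p := ∑ i : Fin 6, l i • wv (gt V i) with hpd
      set y : ℕ → ℝ := fun n => if h : n < 13 then qf p (rv (X13 ⟨n, h⟩)) / rad p else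
        if h' : n - 13 < 13 then af p (rv (D13 ⟨n - 13, h'⟩)) / rad p ^ 2 else 0 with hy
      have hyn : ∀ n : Fin 13, y n.val = qf p (rv (X13 n)) / rad p := by
        intro n
        rw [hy]
        simp only [n.2, dif_pos]
      have hym : ∀ n : Fin 13, y (13 + n.val) = af p (rv (D13 n)) / rad p ^ 2 := by
        intro n
        rw [hy]
        have h1 : ¬ (13 + n.val < 13) := by omega
        have h2 : 13 + n.val - 13 = n.val := by omega
        simp only [h1, dif_neg, not_false_iff, h2, n.2, dif_pos]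
      have hy0 : ∀ n ∈ Finset.range 26, 0 ≤ y n := by
        intro n hn
        rcases Nat.lt_or_ge n 13 with h3 | h3
        · rw [hyn ⟨n, h3⟩]
          exact div_nonneg (qf_nonneg' hl _) hr.le
        · have h4 : n - 13 < 13 := by
            have := Finset.mem_range.1 hn
            omega
          have h5 := hym ⟨n - 13, h4⟩
          have h6 : 13 + (n - 13) = n := by omega
          simp only [h6] at h5
          rw [h5]
          exact div_nonneg (af_nonneg' hl _) (by positivity)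
      have sp : ∀ f : ℕ → ℝ, ∑ n ∈ Finset.range 26, f n =
          ∑ n : Fin 13, f n.val + ∑ n : Fin 13, f (13 + n.val) := by
        intro f
        rw [show (26 : ℕ) = 13 + 13 from rfl, Finset.sum_range_add, Finset.sum_range,
          Finset.sum_range]
      have k := lin_core hd hy0 (c0 := c0) (c1 := c1) (by
        rw [sp]
        simp only [hyn, hym]
        push_cast at e1
        exact e1) (by
        rw [sp]
        simp only [hyn, hym]
        push_cast at e2
        exact e2) hu hw hΦ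
      rw [sp] at k
      simp only [hyn, hym] at k
      push_cast at k
      exact k

end Pool.Agent.U316.Ep
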