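import Pool.Agent.U316.Ep.Lin2

/-!
# Soundness of the double tests
-/

set_option autoImplicit false

open Matrix Pool.Agent.K1H99.FCC

namespace Pool.Agent.U316.Ep

open Pool.Agent.U316.Th (X13)

lemma wv_nonneg (W : ℕ) (k : Fin 6) : 0 ≤ wv W k := Nat.cast_nonneg _

lemma dt_wv (W : ℕ) : dt (wv W) =
    detN (cw W 0) (cw W 1) (cw W 2) (cw W 3) (cw W 4) (cw W 5) := by
  unfold dt wv detN
  simp [Nat.add_eq, Nat.mul_eq]
  ring

lemma rad_wv {W : ℕ} (h : Vd W) : (gw W : ℝ) ≤ rad (wv W) := by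
  refine le_of_pow_le_pow_left₀ (three_ne_zero) (rad_nonneg (wv_nonneg W)) ?_
  rw [rad_cube (dt_nonneg (wv_nonneg W)), dt_wv]
  have h1 : ((gw W * gw W * gw W : ℕ) : ℝ) ≤
      (detN (cw W 0) (cw W 1) (cw W 2) (cw W 3) (cw W 4) (cw W 5) : ℕ) := by
    exact_mod_cast h.2.2
  push_cast at h1
  calc (gw W : ℝ) ^ 3 = gw W * gw W * gw W := by ring
    _ ≤ _ := h1

lemma pd_nonneg_sum {V : List ℕ} {l : Fin 6 → ℝ} (hl : ∀ i, 0 ≤ l i) (k : Fin 6) :
    0 ≤ (∑ i : Fin 6, l i • wv (gt V i)) k := by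
  simp only [Finset.sum_apply, Pi.smul_apply, smul_eq_mul]
  exact Finset.sum_nonneg fun i _ => mul_nonneg (hl i) (wv_nonneg _ k)

/-- the vector of the root bound and the parameters -/
def P7 (G : ℝ) (p : Fin 6 → ℝ) : Fin 7 → ℝ := ![G, p 0, p 1, p 2, p 3, p 4, p 5]

lemma P7_dW (W : ℕ) : P7 (gw W) (wv W) = fun f => (dW W f : ℝ) := by
  unfold P7 dW wv
  funext f
  fin_cases f <;> rfl

lemma P7_sum (l g : Fin 6 → ℝ) (x : Fin 6 → Fin 6 → ℝ) :
    P7 (∑ i, l i * g i) (∑ i, l i • x i) = ∑ i, l i • P7 (g i) (x i) := by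
  funext f
  simp only [Finset.sum_apply, Pi.smul_apply, smul_eq_mul]
  unfold P7
  fin_cases f
  all_goals simp [Finset.sum_apply]

/-- the linear functional on the thirteen vectors -/
lemma CL_qf (n : Fin 13) (G : ℝ) (p : Fin 6 → ℝ) :
    ∑ f, (CL.getD n.val 0 f : ℝ) * P7 G p f = qf p (rv (X13 n)) := by
  unfold CL qf rv P7 X13
  fin_cases n <;> simp [Fin.sum_univ_succ] <;> ring

lemma CM_qf (n : Fin 13) (G : ℝ) (p : Fin 6 → ℝ) :
    ∑ e, (∑ f, (CM.getD n.val 0 e f : ℝ) * P7 G p f) * P7 G p e = 2 * (G * qf p (rv (X13 n))) := by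
  unfold CM qf rv P7 X13
  fin_cases n <;> simp [Fin.sum_univ_succ] <;> ring

lemma CM_af (n : Fin 13) (G : ℝ) (p : Fin 6 → ℝ) :
    ∑ e, (∑ f, (CM.getD (13 + n.val) 0 e f : ℝ) * P7 G p f) * P7 G p e =
      2 * af p (rv (D13 n)) := by
  unfold CM af rv P7 D13
  fin_cases n <;> simp [Fin.sum_univ_succ] <;> ring

/-- summing the lines -/
lemma lin_core {N : ℕ} {T0 T1 : ℕ} {i0 i1 : ℕ → ℕ} (hd : ∀ n, i1 n = 1023 → i0 n = 1023)
    {y : ℕ → ℝ} (hy : ∀ n ∈ Finset.range N, 0 ≤ y n) {c0 c1 : ℝ}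
    (h0 : ∑ n ∈ Finset.range N, (lB T0 (i0 n) : ℝ) * y n ≤
      ∑ n ∈ Finset.range N, (lA T0 (i0 n) : ℝ) - c0)
    (h1 : ∑ n ∈ Finset.range N, (lB T1 (i1 n) : ℝ) * y n ≤
      ∑ n ∈ Finset.range N, (lA T1 (i1 n) : ℝ) - c1)
    {u w off : ℝ} (hu : 0 ≤ u) (hw : 0 ≤ w) {Φ : ℝ → ℝ}
    (hΦ : ∀ (i0 i1 : ℕ) (v : ℝ), (i1 = 1023 → i0 = 1023) → 0 ≤ v →
        u * (lA T0 i0 - lB T0 i0 * v) + w * (lA T1 i1 - lB T1 i1 * v - off) ≤ Φ v) :
    u * c0 + w * c1 ≤ ∑ n ∈ Finset.range N, Φ (y n) + w * N * off := by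
  have k : ∑ n ∈ Finset.range N, (u * (lA T0 (i0 n) - lB T0 (i0 n) * y n) +
      w * (lA T1 (i1 n) - lB T1 (i1 n) * y n - off)) ≤ ∑ n ∈ Finset.range N, Φ (y n) :=
    Finset.sum_le_sum fun n hn => hΦ _ _ _ (hd n) (hy n hn)
  rw [Finset.sum_add_distrib, ← Finset.mul_sum, ← Finset.mul_sum, Finset.sum_sub_distrib,
    Finset.sum_sub_distrib, Finset.sum_sub_distrib] at k
  simp only [Finset.sum_const, Finset.card_range, nsmul_eq_mul] at k
  have m0 := mul_le_mul_of_nonneg_left h0 hu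
  have m1 := mul_le_mul_of_nonneg_left h1 hw
  generalize ∑ n ∈ Finset.range N, (lB T0 (i0 n) : ℝ) * y n = a at *
  generalize ∑ n ∈ Finset.range N, (lB T1 (i1 n) : ℝ) * y n = b at *
  generalize ∑ n ∈ Finset.range N, (lA T0 (i0 n) : ℝ) = a' at *
  generalize ∑ n ∈ Finset.range N, (lA T1 (i1 n) : ℝ) = b' at *
  nlinarith

lemma vl_vd {V : List ℕ} (hV : VL V) (i : Fin 6) : Vd (gt V i) :=
  hV.2 _ ((gt_eq V i (by rw [hV.1]; exact i.2)).1)

lemma vl_mem {V : List ℕ} (hV : VL V) (i : Fin 6) : gt V i ∈ V :=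
  (gt_eq V i (by rw [hV.1]; exact i.2)).1

/-- the sum of the root bounds -/
lemma G_le {V : List ℕ} (hV : VL V) {l : Fin 6 → ℝ} (hl : ∀ i, 0 ≤ l i) :
    ∑ i : Fin 6, l i * (gw (gt V i) : ℝ) ≤ rad (∑ i, l i • wv (gt V i)) := by
  refine le_trans ?_ (rad_sum Finset.univ l (fun i : Fin 6 => wv (gt V i)) hl
    fun i => wv_nonneg _)
  exact Finset.sum_le_sum fun i _ => mul_le_mul_of_nonneg_left (rad_wv (vl_vd hV i)) (hl i)

/-- the linear test gives a bound on the cone -/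
lemma lin_bound {V : List ℕ} (hV : VL V) {A c : ℕ} (hc : c ≤ A) {b : ℕ → ℕ}
    (hb : ∀ n, b n < 2 ^ 32)
    (h : vts (A - c) (pkv fun f => ∑ n ∈ Finset.range 13, CL.getD n 0 f * b n) V = true)
    {l : Fin 6 → ℝ} (hl : ∀ i, 0 ≤ l i) (hp : PD (∑ i : Fin 6, l i • wv (gt V i))) :
    ∑ n : Fin 13, (b n.val : ℝ) * (qf (∑ i : Fin 6, l i • wv (gt V i)) (rv (X13 n)) /
      rad (∑ i : Fin 6, l i • wv (gt V i))) ≤ A - c := by
  have hr : 0 < rad (∑ i : Fin 6, l i • wv (gt V i)) := rad_pos (dt_pos hp)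
  have ha : ∀ f, ∑ n ∈ Finset.range 13, CL.getD n 0 f * b n < 2 ^ 40 := fun f =>
    bound_sum (by norm_num) _ _ (fun n => CL_le n f) hb
  have hG := G_le hV hl
  set p := ∑ i : Fin 6, l i • wv (gt V i) with hpd
  have e1 : ∑ n : Fin 13, (b n.val : ℝ) * (qf p (rv (X13 n)) / rad p) =
      (∑ f, ((∑ n ∈ Finset.range 13, CL.getD n 0 f * b n : ℕ) : ℝ) *
        P7 (∑ i : Fin 6, l i * (gw (gt V i) : ℝ)) p f) / rad p := by
    rw [Finset.sum_div]
    have h1 : ∀ n : Fin 13, (b n.val : ℝ) * (qf p (rv (X13 n)) / rad p) =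
        ∑ f, (b n.val : ℝ) * (CL.getD n.val 0 f : ℝ) *
          P7 (∑ i : Fin 6, l i * (gw (gt V i) : ℝ)) p f / rad p := by
      intro n
      rw [← CL_qf n (∑ i : Fin 6, l i * (gw (gt V i) : ℝ)) p, Finset.sum_div, Finset.mul_sum]
      exact Finset.sum_congr rfl fun f _ => by ring
    simp only [h1]
    rw [Finset.sum_comm]
    refine Finset.sum_congr rfl fun f _ => ?_
    push_cast
    rw [Finset.sum_range, Finset.sum_mul, Finset.sum_div]
    exact Finset.sum_congr rfl fun n _ => by ring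
  rw [e1, div_le_iff₀ hr, hpd, P7_sum]
  simp only [P7_dW, Finset.sum_apply, Pi.smul_apply, smul_eq_mul, Finset.mul_sum]
  rw [Finset.sum_comm]
  calc ∑ i : Fin 6, ∑ f, ((∑ n ∈ Finset.range 13, CL.getD n 0 f * b n : ℕ) : ℝ) *
        (l i * (dW (gt V i) f : ℝ)) ≤ ∑ i : Fin 6, l i * ((A - c) * (gw (gt V i) : ℝ)) := by
        refine Finset.sum_le_sum fun i _ => ?_
        have h2 := vt_spec ha (vl_vd hV i) (vts_spec h _ (vl_mem hV i))
        have h3 : (∑ f, ((∑ n ∈ Finset.range 13, CL.getD n 0 f * b n : ℕ) : ℝ) *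
            (dW (gt V i) f : ℝ)) ≤ (A - c) * (gw (gt V i) : ℝ) := by
          have := (Nat.cast_le (α := ℝ)).2 h2
          rw [Nat.cast_sum, Nat.cast_mul, Nat.cast_sub hc] at this
          simpa only [Nat.cast_mul] using this
        refine le_trans (le_of_eq ?_) (mul_le_mul_of_nonneg_left h3 (hl i))
        rw [Finset.mul_sum]
        exact Finset.sum_congr rfl fun f _ => by ring
    _ = (A - c) * ∑ i : Fin 6, l i * (gw (gt V i) : ℝ) := by
        rw [Finset.mul_sum]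
        exact Finset.sum_congr rfl fun i _ => by ring
    _ ≤ (A - c) * rad p := by
        refine mul_le_mul_of_nonneg_left hG ?_
        have : (c : ℝ) ≤ A := by exact_mod_cast hc
        linarith

lemma qf_nonneg' {V : List ℕ} {l : Fin 6 → ℝ} (hl : ∀ i, 0 ≤ l i) (y : Fin 3 → ℝ) :
    0 ≤ qf (∑ i : Fin 6, l i • wv (gt V i)) y := by
  have h := fun k => pd_nonneg_sum (V := V) hl k
  have h0 := h 0; have h1 := h 1; have h2 := h 2; have h3 := h 3; have h4 := h 4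
  have h5 := h 5
  unfold qf
  positivity

lemma af_nonneg' {V : List ℕ} {l : Fin 6 → ℝ} (hl : ∀ i, 0 ≤ l i) (y : Fin 3 → ℝ) :
    0 ≤ af (∑ i : Fin 6, l i • wv (gt V i)) y := by
  have h := fun k => pd_nonneg_sum (V := V) hl k
  have h0 := h 0; have h1 := h 1; have h2 := h 2; have h3 := h 3; have h4 := h 4
  have h5 := h 5
  unfold af
  positivity

/-- the linear double test -/
lemma tst_spec {T0 T1 c0 c1 : ℕ} {V : List ℕ} {t : ℕ} (hV : VL V)
    (h : tst T0 T1 c0 c1 V t = true) {l : Fin 6 → ℝ} (hl : ∀ i, 0 ≤ l i)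
    (hp : PD (∑ i : Fin 6, l i • wv (gt V i))) {u w off : ℝ} (hu : 0 ≤ u) (hw : 0 ≤ w) {Φ : ℝ → ℝ}
    (hΦ : ∀ (i0 i1 : ℕ) (v : ℝ), (i1 = 1023 → i0 = 1023) → 0 ≤ v →
        u * (lA T0 i0 - lB T0 i0 * v) + w * (lA T1 i1 - lB T1 i1 * v - off) ≤ Φ v) :
    u * c0 + w * c1 ≤ ∑ n : Fin 13, Φ (qf (∑ i : Fin 6, l i • wv (gt V i)) (rv (X13 n)) /
      rad (∑ i : Fin 6, l i • wv (gt V i))) + w * 13 * off := by
  have hr : 0 < rad (∑ i : Fin 6, l i • wv (gt V i)) := rad_pos (dt_pos hp)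
  unfold tst at h
  obtain ⟨i0, i1, hd, hk⟩ := acc_spec T0 T1 _ KL t 0 0 0 0 h
  simp only [frc_eq] at hk
  rw [sum_pkv (fun n => lB T0 (i0 n)), sum_pkv (fun n => lB T1 (i1 n))] at hk
  have hlen : KL.length = 13 := rfl
  rw [hlen] at hk
  simp only [zero_add] at hk
  cases h1 : Nat.ble c0 (∑ n ∈ Finset.range 13, lA T0 (i0 n)) with
  | false => rw [h1] at hk; exact absurd hk (by simp)
  | true =>
    rw [h1] at hk
    cases h2 : Nat.ble c1 (∑ n ∈ Finset.range 13, lA T1 (i1 n)) with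
    | false => rw [h2] at hk; exact absurd hk (by simp)
    | true =>
      rw [h2] at hk
      have l1 := Nat.le_of_ble_eq_true h1
      have l2 := Nat.le_of_ble_eq_true h2
      change (bif vts ((∑ n ∈ Finset.range 13, lA T0 (i0 n)) - c0)
        (pkv fun f => ∑ n ∈ Finset.range 13, CL.getD n 0 f * lB T0 (i0 n)) V then
        vts ((∑ n ∈ Finset.range 13, lA T1 (i1 n)) - c1)
        (pkv fun f => ∑ n ∈ Finset.range 13, CL.getD n 0 f * lB T1 (i1 n)) V
        else false) = true at hk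
      cases h3 : vts ((∑ n ∈ Finset.range 13, lA T0 (i0 n)) - c0)
        (pkv fun f => ∑ n ∈ Finset.range 13, CL.getD n 0 f * lB T0 (i0 n)) V with
      | false => rw [h3] at hk; exact absurd hk (by simp)
      | true =>
        rw [h3] at hk
        have e1 := lin_bound hV l1 (fun n => lB_lt T0 (i0 n)) h3 hl hp
        have e2 := lin_bound hV l2 (fun n => lB_lt T1 (i1 n)) hk hl hp
        set p := ∑ i : Fin 6, l i • wv (gt V i) with hpd
        set y : ℕ → ℝ := fun n => if h : n < 13 then qf p (rv (X13 ⟨n, h⟩)) / rad p else 0 with hy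
        have hyn : ∀ n : Fin 13, y n.val = qf p (rv (X13 n)) / rad p := by
          intro n
          rw [hy]
          simp only [n.2, dif_pos]
        have hy0 : ∀ n ∈ Finset.range 13, 0 ≤ y n := by
          intro n hn
          rw [hyn ⟨n, Finset.mem_range.1 hn⟩]
          exact div_nonneg (qf_nonneg' hl _) hr.le
        have k := lin_core hd hy0 (c0 := c0) (c1 := c1) (by
          rw [Finset.sum_range]
          simp only [hyn]
          push_cast at e1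
          exact e1) (by
          rw [Finset.sum_range]
          simp only [hyn]
          push_cast at e2
          exact e2) hu hw hΦ
        rw [Finset.sum_range] at k
        simp only [hyn] at k
        push_cast at k
        exact k

end Pool.Agent.U316.Ep
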